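import Mathlib

/-!
# Factors of type III₁, textbook definition
-/

open scoped InnerProductSpace Topology BoundedContinuousFunction

open ContinuousLinearMap Filter MeasureTheory

namespace Pool.Agent.Helper88.CS

variable {H : Type*} [NormedAddCommGroup H] [InnerProductSpace ℂ H] [CompleteSpace H]

/-- the functional `x ↦ ∑ ⟪ζₙ, x ζₙ⟫` -/
noncomputable def st (ζ : ℕ → H) (x : H →L[ℂ] H) : ℂ := ∑' n, ⟪ζ n, x (ζ n)⟫_ℂ

/-- Type III₁ factor, textbook definition: `N` is a factor, every nonzero projection of `N` is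
infinite, and for every faithful normal state `ψ = ∑ ⟪ζₙ, · ζₙ⟫` of `N` every `l > 0` belongs to
the spectrum of the modular operator of `ψ` (`S(N) = [0, ∞)`). -/
structure IsTypeIIIOne (N : VonNeumannAlgebra H) : Prop where
  factor : ∀ z ∈ N, z ∈ N.commutant → ∃ c : ℂ, z = c • (1 : H →L[ℂ] H)
  infinite : ∀ e ∈ N, star e = e → e * e = e → e ≠ 0 →
    ∃ v ∈ N, star v * v = e ∧ e * v = v ∧ v * star v ≠ e
  spectrum : ∀ ζ : ℕ → H, Summable (fun n => ‖ζ n‖ ^ 2) → ∑' n, ‖ζ n‖ ^ 2 = 1 →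
    (∀ a ∈ N, (∀ n, a (ζ n) = 0) → a = 0) → ∀ l : ℝ, 0 < l → ∀ ε : ℝ, 0 < ε →
    ∃ a ∈ N, st ζ (star a * a) = 1 ∧ ∀ x ∈ N,
      ‖st ζ (a * x) - (l : ℂ) * st ζ (x * a)‖ ≤ ε * Real.sqrt ((st ζ (x * star x)).re)

end Pool.Agent.Helper88.CS
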