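import Pool.Agent.Helper23.FA.Ns

/-!
Parts of Helper88.CS.Defs, Helper88.CS.Polar, Helper88.CS.Trick1
-/

section

open scoped InnerProductSpace Topology BoundedContinuousFunction

open ContinuousLinearMap Filter MeasureTheory

namespace Pool.Agent.Helper88.CS

open Pool.Agent.Helper23

variable {H : Type*} [NormedAddCommGroup H] [InnerProductSpace ℂ H] [CompleteSpace H]

/-- the bare conjugation: `J A J = A'` -/
structure Conj (A : VonNeumannAlgebra H) (J : H →L[ℝ] H) : Prop where
  J_J : ∀ v, J (J v) = v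
  J_conj : ∀ (c : ℂ) (v : H), J (c • v) = (starRingEnd ℂ) c • J v
  J_norm : ∀ v, ‖J v‖ = ‖v‖
  J_inner : ∀ v w, ⟪J v, J w⟫_ℂ = ⟪w, v⟫_ℂ
  J_comm : ∀ a ∈ A, ∀ y ∈ A, ∀ v, J (a (J (y v))) = y (J (a (J v)))
  J_mem : ∀ b ∈ A.commutant, ∃ a ∈ A, ∀ v, b v = J (a (J v))

end Pool.Agent.Helper88.CS

end

section

open scoped InnerProductSpace Topology BoundedContinuousFunction

open ContinuousLinearMap Filter MeasureTheory

namespace Pool.Agent.Helper88.CS

open Pool.Agent.Helper23

set_option linter.unusedSectionVars false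

set_option linter.unusedVariables false

variable {H : Type*} [NormedAddCommGroup H] [InnerProductSpace ℂ H] [CompleteSpace H]

variable {A : VonNeumannAlgebra H}

/-- the projection onto the closure of the range of `a` -/
noncomputable def rp (a : H →L[ℂ] H) : H →L[ℂ] H :=
  (LinearMap.range (a : H →ₗ[ℂ] H)).topologicalClosure.starProjection

namespace PolarAux

theorem apply_mem (a : H →L[ℂ] H) (v : H) :
    a v ∈ (LinearMap.range (a : H →ₗ[ℂ] H)).topologicalClosure :=
  Submodule.le_topologicalClosure _ ⟨v, rfl⟩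

theorem rp_closed (a : H →L[ℂ] H) {s : Set H} (hs : IsClosed s) (h : ∀ v, a v ∈ s) (v : H) :
    rp a v ∈ s := by
  have h1 : ((LinearMap.range (a : H →ₗ[ℂ] H)) : Set H) ⊆ s := by
    rintro _ ⟨w, rfl⟩
    exact h w
  have h2 : rp a v ∈ (LinearMap.range (a : H →ₗ[ℂ] H)).topologicalClosure :=
    Submodule.starProjection_apply_mem _ v
  exact closure_minimal h1 hs h2

theorem rp_star (a : H →L[ℂ] H) : star (rp a) = rp a :=
  (isStarProjection_starProjection (U := (LinearMap.range (a : H →ₗ[ℂ] H)).topologicalClosure)).2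

theorem rp_rp (a : H →L[ℂ] H) : rp a * rp a = rp a :=
  (isStarProjection_starProjection (U := (LinearMap.range (a : H →ₗ[ℂ] H)).topologicalClosure)).1

end PolarAux

open PolarAux

theorem rp_mul (a : H →L[ℂ] H) : rp a * a = a := by
  ext v
  exact Submodule.starProjection_eq_self_iff.2 (apply_mem a v)

theorem mul_rp_star (a : H →L[ℂ] H) : a * rp (star a) = a := by
  have h := congrArg star (rp_mul (star a))
  rwa [star_mul, star_star, rp_star] at h

/-- `rp a` is the smallest projection `e` with `e a = a` -/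
theorem mul_rp {a b : H →L[ℂ] H} (h : b * a = a) : b * rp a = rp a := by
  ext v
  exact rp_closed a (s := {y | b y = y}) (isClosed_eq b.continuous continuous_id)
    (fun w => congrArg (fun T : H →L[ℂ] H => T w) h) v

theorem zero_mul_rp {a b : H →L[ℂ] H} (h : b * a = 0) : b * rp a = 0 := by
  ext v
  exact rp_closed a (s := {y | b y = 0}) (isClosed_eq b.continuous continuous_const)
    (fun w => congrArg (fun T : H →L[ℂ] H => T w) h) v

end Pool.Agent.Helper88.CS

end

section

open scoped InnerProductSpace Topology BoundedContinuousFunction CompactlySupported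

open ContinuousLinearMap Filter MeasureTheory

namespace Pool.Agent.Helper88.CS

open Pool.Agent.Helper23

variable {H : Type*} [NormedAddCommGroup H] [InnerProductSpace ℂ H] [CompleteSpace H]

variable {A : VonNeumannAlgebra H} {J : H →L[ℝ] H} {κ : H}

namespace Trick1Aux

lemma inner_star_mul (T : H →L[ℂ] H) (v : H) :
    inner ℂ v ((star T * T) v) = ((‖T v‖ ^ 2 : ℝ) : ℂ) := by
  rw [mul_apply_eq_comp, ContinuousLinearMap.star_eq_adjoint,
    ContinuousLinearMap.adjoint_inner_right, inner_self_eq_norm_sq_to_K]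
  norm_cast

/-- a real function as a complex function -/
noncomputable def emb {K : Type*} [TopologicalSpace K] (f : C(K, ℝ)) : C(K, ℂ) :=
  ⟨fun x => ((f x : ℝ) : ℂ), by fun_prop⟩

lemma emb_add {K : Type*} [TopologicalSpace K] (f g : C(K, ℝ)) :
    emb (f + g) = emb f + emb g := by ext x; simp [emb]

lemma emb_mul {K : Type*} [TopologicalSpace K] (f g : C(K, ℝ)) :
    emb (f * g) = emb f * emb g := by ext x; simp [emb]

lemma emb_smul {K : Type*} [TopologicalSpace K] (c : ℝ) (f : C(K, ℝ)) :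
    emb (c • f) = (c : ℂ) • emb f := by ext x; simp [emb]

lemma star_emb {K : Type*} [TopologicalSpace K] (f : C(K, ℝ)) : star (emb f) = emb f := by
  ext x; simp [emb]

lemma inner_cfcHom_mul (T : H →L[ℂ] H) (hT : IsStarNormal T) (v : H)
    (h : C(spectrum ℂ T, ℝ)) :
    (inner ℂ v ((cfcHom (R := ℂ) (a := T) hT (emb (h * h))) v)).re =
      ‖cfcHom (R := ℂ) (a := T) hT (emb h) v‖ ^ 2 := by
  have : cfcHom (R := ℂ) (a := T) hT (emb (h * h)) =
      star (cfcHom (R := ℂ) (a := T) hT (emb h)) * (cfcHom (R := ℂ) (a := T) hT (emb h)) := by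
    rw [← map_star, star_emb, emb_mul, map_mul]
  rw [this, inner_star_mul, Complex.ofReal_re]

/-- The positive functional `f ↦ ⟨v, f(T) v⟩`. -/
noncomputable def Lam (T : H →L[ℂ] H) (hT : IsStarNormal T) (v : H) :
    C_c(spectrum ℂ T, ℝ) →ₚ[ℝ] ℝ where
  toFun f := (inner ℂ v ((cfcHom (R := ℂ) (a := T) hT) (emb f.toContinuousMap) v)).re
  map_add' f g := by
    have : (f + g).toContinuousMap = f.toContinuousMap + g.toContinuousMap := rfl
    rw [this, emb_add, map_add]
    simp
  map_smul' c f := by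
    have : (c • f).toContinuousMap = c • f.toContinuousMap := rfl
    rw [this, emb_smul, map_smul]
    simp
  monotone' f g hfg := by
    have h1 : ∃ h : C(spectrum ℂ T, ℝ), g.toContinuousMap = f.toContinuousMap + h * h := by
      refine ⟨⟨fun x => Real.sqrt (g x - f x), by fun_prop⟩, ?_⟩
      ext x
      have : f x ≤ g x := hfg x
      simp only [ContinuousMap.add_apply, ContinuousMap.mul_apply, ContinuousMap.coe_mk]
      rw [Real.mul_self_sqrt (by linarith)]
      change g x = f x + _
      ring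
    obtain ⟨h, hh⟩ := h1
    have h2 : (inner ℂ v ((cfcHom (R := ℂ) (a := T) hT) (emb g.toContinuousMap) v)).re =
      (inner ℂ v ((cfcHom (R := ℂ) (a := T) hT) (emb f.toContinuousMap) v)).re +
      ‖cfcHom (R := ℂ) (a := T) hT (emb h) v‖ ^ 2 := by
      rw [← inner_cfcHom_mul, hh, emb_add, map_add]
      simp
    change (inner ℂ v ((cfcHom (R := ℂ) (a := T) hT) (emb f.toContinuousMap) v)).re ≤
      (inner ℂ v ((cfcHom (R := ℂ) (a := T) hT) (emb g.toContinuousMap) v)).re
    rw [h2]
    have := sq_nonneg ‖cfcHom (R := ℂ) (a := T) hT (emb h) v‖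
    linarith

instance compX (T : H →L[ℂ] H) : CompactSpace (spectrum ℂ T) :=
  isCompact_iff_compactSpace.mp (spectrum.isCompact T)

/-- The spectral measure on the complex plane. -/
noncomputable def mu (T : H →L[ℂ] H) (hT : IsStarNormal T) (v : H) : Measure ℂ :=
  (RealRMK.rieszMeasure (Lam T hT v)).map Subtype.val

instance (T : H →L[ℂ] H) (hT : IsStarNormal T) (v : H) : IsFiniteMeasure (mu T hT v) := by
  unfold mu; infer_instance

/-- restriction of a continuous function to the spectrum -/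
def res (T : H →L[ℂ] H) (F : ℂ → ℝ) (hF : Continuous F) : C(spectrum ℂ T, ℝ) :=
  ⟨fun x => F x.1, by fun_prop⟩

lemma integral_mu (T : H →L[ℂ] H) (hT : IsStarNormal T) (v : H) (F : ℂ → ℝ)
    (hF : Continuous F) :
    ∫ x, F x ∂(mu T hT v) = (inner ℂ v (cfcHom (R := ℂ) (a := T) hT (emb (res T F hF)) v)).re := by
  unfold mu
  rw [integral_map (by fun_prop) hF.aestronglyMeasurable]
  exact RealRMK.integral_rieszMeasure (Lam T hT v)
    ⟨res T F hF, HasCompactSupport.of_compactSpace _⟩

lemma integrable_mu (T : H →L[ℂ] H) (hT : IsStarNormal T) (v : H) (F : ℂ → ℝ)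
    (hF : Continuous F) : Integrable F (mu T hT v) := by
  unfold mu
  rw [integrable_map_measure hF.aestronglyMeasurable (by fun_prop)]
  have hc : Continuous (F ∘ (Subtype.val : spectrum ℂ T → ℂ)) := by fun_prop
  exact hc.integrable_of_hasCompactSupport (HasCompactSupport.of_compactSpace _)

lemma integral_mu_sq (T : H →L[ℂ] H) (hT : IsStarNormal T) (v : H) (F : ℂ → ℝ)
    (hF : Continuous F) :
    ∫ x, F x ^ 2 ∂(mu T hT v) = ‖cfc (fun z => ((F z : ℝ) : ℂ)) T v‖ ^ 2 := by
  rw [integral_mu T hT v (fun x => F x ^ 2) (by fun_prop)]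
  have h1 : res T (fun x => F x ^ 2) (by fun_prop) = res T F hF * res T F hF := by
    ext x; simp [res, sq]
  rw [h1, inner_cfcHom_mul, cfc_apply (fun z => ((F z : ℝ) : ℂ)) T hT (by fun_prop)]
  rfl

lemma J_left (hJ : Conj A J) (v w : H) : ⟪J v, w⟫_ℂ = ⟪J w, v⟫_ℂ := by
  have h := hJ.J_inner v (J w)
  rw [hJ.J_J] at h
  exact h

/-- `v ↦ J (a (J v))` -/
noncomputable def cj (hJ : Conj A J) (a : H →L[ℂ] H) : H →L[ℂ] H :=
  LinearMap.mkContinuous
    { toFun := fun v => J (a (J v))
      map_add' := by intro v w; simp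
      map_smul' := by
        intro c v
        rw [hJ.J_conj, map_smul, hJ.J_conj]
        simp }
    ‖a‖ (by
      intro v
      change ‖J (a (J v))‖ ≤ _
      rw [hJ.J_norm]
      exact (a.le_opNorm _).trans (by rw [hJ.J_norm]))

lemma cj_apply (hJ : Conj A J) (a : H →L[ℂ] H) (v : H) : cj hJ a v = J (a (J v)) := rfl

lemma norm_cj_le (hJ : Conj A J) (a : H →L[ℂ] H) : ‖cj hJ a‖ ≤ ‖a‖ :=
  LinearMap.mkContinuous_norm_le _ (norm_nonneg _) _

/-- the conjugation as a real star homomorphism -/
noncomputable def cjH (hJ : Conj A J) : (H →L[ℂ] H) →⋆ₐ[ℝ] (H →L[ℂ] H) where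
  toFun := cj hJ
  map_one' := by ext v; simp [cj_apply, hJ.J_J]
  map_mul' a b := by ext v; simp [cj_apply, hJ.J_J]
  map_zero' := by ext v; simp [cj_apply]
  map_add' a b := by ext v; simp [cj_apply]
  commutes' r := by
    ext v
    simp [cj_apply, Algebra.algebraMap_eq_smul_one, hJ.J_J]
  map_star' a := by
    ext v
    apply ext_inner_right ℂ
    intro w
    rw [cj_apply, ContinuousLinearMap.star_eq_adjoint, ContinuousLinearMap.star_eq_adjoint,
      ContinuousLinearMap.adjoint_inner_left, cj_apply, J_left hJ,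
      ContinuousLinearMap.adjoint_inner_right]
    have h := hJ.J_inner (J (a (J w))) v
    rw [hJ.J_J] at h
    exact h

lemma cjH_apply (hJ : Conj A J) (a : H →L[ℂ] H) (v : H) : cjH hJ a v = J (a (J v)) := rfl

lemma continuous_cjH (hJ : Conj A J) : Continuous (cjH hJ) :=
  AddMonoidHomClass.continuous_of_bound (cjH hJ) 1 (fun a => by
    rw [one_mul]; exact norm_cj_le hJ a)

lemma cfc_cj (hJ : Conj A J) {X : H →L[ℂ] H} (hX : star X = X) {g : ℝ → ℝ} (hg : Continuous g) :
    cfc g (cjH hJ X) = cjH hJ (cfc g X) := by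
  have hsX : IsSelfAdjoint X := hX
  have hsY : IsSelfAdjoint (cjH hJ X) := by
    change star (cjH hJ X) = cjH hJ X
    rw [← map_star, hX]
  exact (StarAlgHomClass.map_cfc (S := ℝ) (cjH hJ) g X (by fun_prop) (continuous_cjH hJ) hsX
    hsY).symm

/-- positive part of `s - t` -/
noncomputable def pt (t s : ℝ) : ℝ := max (s - t) 0

/-- positive part of `-s - t` -/
noncomputable def qt (t s : ℝ) : ℝ := max (-s - t) 0

lemma pt_cont (t : ℝ) : Continuous (pt t) := by unfold pt; fun_prop

lemma qt_cont (t : ℝ) : Continuous (qt t) := by unfold qt; fun_prop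

lemma pt_nonneg (t s : ℝ) : 0 ≤ pt t s := le_max_right _ _

lemma qt_nonneg (t s : ℝ) : 0 ≤ qt t s := le_max_right _ _

/-- `n s / (1 + n s)` -/
noncomputable def cn (n : ℕ) (s : ℝ) : ℝ := (n : ℝ) * s / (1 + n * s)

lemma cn_nonneg (n : ℕ) {s : ℝ} (hs : 0 ≤ s) : 0 ≤ cn n s := by
  unfold cn; positivity

lemma cn_cont {p : ℝ → ℝ} (hp : Continuous p) (hp0 : ∀ s, 0 ≤ p s) (n : ℕ) :
    Continuous (fun s => cn n (p s)) := by
  unfold cn
  refine Continuous.div (by fun_prop) (by fun_prop) (fun s => ?_)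
  have := mul_nonneg (Nat.cast_nonneg (α := ℝ) n) (hp0 s)
  linarith

/-- continuous approximations -/
noncomputable def fn (t : ℝ) (n : ℕ) (s : ℝ) : ℝ := cn n (pt t s) - cn n (qt t s)

/-- the spectral symmetry -/
noncomputable def Ft (X : H →L[ℂ] H) (t : ℝ) : H →L[ℂ] H :=
  rp (cfc (pt t) X) - rp (cfc (qt t) X)

lemma pq_zero {t : ℝ} (ht : 0 ≤ t) (s : ℝ) : pt t s * qt t s = 0 := by
  unfold pt qt
  by_cases h : s ≤ t
  · rw [max_eq_right (by linarith : s - t ≤ 0), zero_mul]
  · rw [max_eq_right (by linarith : -s - t ≤ 0), mul_zero]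

end Trick1Aux

end Pool.Agent.Helper88.CS

end
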