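import Pool.Agent.Helper23.FA.Ns

/-!
Parts of Helper23.TTDefs, Helper95.TTCa, Helper95.TTC, Helper23.MDefs, Helper43.TTF.A, Helper68.G2b1, Helper68.G2b2, Helper70.U8a, Helper78.USlices0, Helper68.G2b3, Helper68.G2b4, Helper88.CS.Defs
-/

section

open scoped InnerProductSpace Topology BoundedContinuousFunction

open ContinuousLinearMap Filter MeasureTheory

namespace Pool.Agent.Helper23

variable {H : Type*} [NormedAddCommGroup H] [InnerProductSpace ℂ H] [CompleteSpace H]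

/-- The pair `(R, D) = (P + Q, P - Q)` of Rieffel and van Daele for the vector `ξ` and the von
Neumann algebra `A`. In terms of the modular operator: `R = 2 (1 + Δ)⁻¹` and `D = J (R (2 - R))^½`.
`D` is conjugate linear. -/
structure TTData (A : VonNeumannAlgebra H) (ξ : H) (R : H →L[ℂ] H) (D : H →L[ℝ] H) : Prop where
  R_star : star R = R
  R_nonneg : ∀ v : H, 0 ≤ (⟪v, R v⟫_ℂ).re
  R_le : ∀ v : H, (⟪v, R v⟫_ℂ).re ≤ 2 * ‖v‖ ^ 2
  R_inj : ∀ v : H, R v = 0 → v = 0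
  R_inj' : ∀ v : H, R v = (2 : ℂ) • v → v = 0
  D_conj : ∀ (c : ℂ) (v : H), D (c • v) = (starRingEnd ℂ) c • D v
  D_symm : ∀ v w : H, ⟪v, D w⟫_ℂ = ⟪w, D v⟫_ℂ
  D_sq : ∀ v : H, D (D v) = R ((2 : ℂ) • v - R v)
  D_R : ∀ v : H, D (R v) = (2 : ℂ) • D v - R (D v)
  D_mem : ∀ a ∈ A, D (a ξ) = (2 : ℂ) • (star a) ξ - R ((star a) ξ)
  D_comm : ∀ a ∈ A.commutant, D (a ξ) = R ((star a) ξ)

end Pool.Agent.Helper23

end

section

open scoped InnerProductSpace Topology BoundedContinuousFunction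

open ContinuousLinearMap Filter

namespace Pool.Agent.Helper95.TTC

/-- the real interval `[0, 2]` inside `ℂ` -/
def sS : Set ℂ := Complex.ofReal '' Set.Icc 0 2

instance : CompactSpace sS :=
  isCompact_iff_compactSpace.mp (isCompact_Icc.image Complex.continuous_ofReal)

lemma sS_cases (z : sS) : ∃ r : ℝ, 0 ≤ r ∧ r ≤ 2 ∧ (z : ℂ) = r := by
  obtain ⟨z, r, hr, rfl⟩ := z
  exact ⟨r, hr.1, hr.2, rfl⟩

variable {H : Type*} [NormedAddCommGroup H] [InnerProductSpace ℂ H] [CompleteSpace H]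

lemma nonneg_of_re {T : H →L[ℂ] H} (hs : star T = T) (h0 : ∀ v : H, 0 ≤ (⟪v, T v⟫_ℂ).re) :
    0 ≤ T := by
  rw [ContinuousLinearMap.nonneg_iff_isPositive, ContinuousLinearMap.isPositive_def]
  refine ⟨(ContinuousLinearMap.isSelfAdjoint_iff_isSymmetric).mp hs, ?_⟩
  intro x
  have h := h0 x
  have h' : ⟪T x, x⟫_ℂ = (starRingEnd ℂ) ⟪x, T x⟫_ℂ := (inner_conj_symm _ _).symm
  change 0 ≤ (⟪T x, x⟫_ℂ).re
  rw [h', Complex.conj_re]
  exact h

theorem spectrum_subset (R : H →L[ℂ] H) (hs : star R = R) (h0 : ∀ v : H, 0 ≤ (⟪v, R v⟫_ℂ).re)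
    (h2 : ∀ v : H, (⟪v, R v⟫_ℂ).re ≤ 2 * ‖v‖ ^ 2) : spectrum ℂ R ⊆ sS := by
  intro z hz
  have hR : IsSelfAdjoint R := hs
  have hzre : z = z.re := hR.mem_spectrum_eq_re hz
  have hR0 : 0 ≤ R := nonneg_of_re hs h0
  have hR2 : 0 ≤ (2 : ℂ) • (1 : H →L[ℂ] H) - R := by
    apply nonneg_of_re
    · rw [star_sub, star_smul, hs, star_one]; simp
    · intro v
      have h1 := h2 v
      rw [sub_apply, smul_apply, one_apply_eq_self, inner_sub_right, inner_smul_right,
        inner_self_eq_norm_sq_to_K, Complex.sub_re]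
      have : ((2 : ℂ) * ((‖v‖ : ℂ)) ^ 2).re = 2 * ‖v‖ ^ 2 := by norm_cast
      change 0 ≤ ((2 : ℂ) * ((‖v‖ : ℂ)) ^ 2).re - _
      rw [this]; linarith
  have hz' : z.re ∈ spectrum ℝ R := by
    rw [← spectrum.algebraMap_mem_iff ℂ]
    change ((z.re : ℝ) : ℂ) ∈ _
    rw [← hzre]; exact hz
  have h3 : 0 ≤ z.re := spectrum_nonneg_of_nonneg hR0 hz'
  have h4 : 0 ≤ 2 - z.re := by
    have : 2 - z.re ∈ spectrum ℝ ((2 : ℂ) • (1 : H →L[ℂ] H) - R) := by
      have h5 : ((2 : ℂ) • (1 : H →L[ℂ] H) - R) = algebraMap ℝ (H →L[ℂ] H) 2 - R := by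
        congr 1
      rw [h5, ← spectrum.singleton_sub_eq]
      exact ⟨2, rfl, z.re, hz', rfl⟩
    exact spectrum_nonneg_of_nonneg hR2 this
  exact ⟨z.re, ⟨h3, by linarith⟩, hzre.symm⟩

/-- the continuous functional calculus on `[0, 2]` -/
noncomputable def Phi (R : H →L[ℂ] H) (hR : IsStarNormal R) (hsp : spectrum ℂ R ⊆ sS) :
    C(sS, ℂ) →⋆ₐ[ℂ] (H →L[ℂ] H) :=
  (cfcHom hR : C(spectrum ℂ R, ℂ) →⋆ₐ[ℂ] (H →L[ℂ] H)).comp
    (ContinuousMap.compStarAlgHom' ℂ ℂ ⟨Set.inclusion hsp, continuous_inclusion hsp⟩)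

/-- the coordinate function -/
def zS : C(sS, ℂ) := ⟨Subtype.val, continuous_subtype_val⟩

section Phi

variable (R : H →L[ℂ] H) (hR : IsStarNormal R) (hsp : spectrum ℂ R ⊆ sS)

theorem Phi_z : Phi R hR hsp zS = R := cfcHom_id hR

theorem Phi_comm (hs : star R = R) (X : H →L[ℂ] H) (hX : X * R = R * X) (f : C(sS, ℂ)) :
    X * Phi R hR hsp f = Phi R hR hsp f * X := by
  have h1 : Commute R X := hX.symm
  have h2 : Commute (star R) X := by rw [hs]; exact h1
  exact (Commute.cfcHom hR h1 h2 _).eq.symm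

theorem Phi_norm (f : C(sS, ℂ)) : ‖Phi R hR hsp f‖ ≤ ‖f‖ :=
  NonUnitalStarAlgHom.norm_apply_le (Phi R hR hsp) f

theorem Phi_cont : Continuous (Phi R hR hsp) := by
  apply AddMonoidHomClass.continuous_of_bound (Phi R hR hsp) 1
  intro f
  rw [one_mul]
  exact Phi_norm R hR hsp f

/-- reflection `z ↦ 2 - z` -/
noncomputable def refl : C(sS, sS) where
  toFun z := ⟨2 - z, by
    obtain ⟨r, h0, h2, h⟩ := sS_cases z
    exact ⟨2 - r, ⟨by linarith, by linarith⟩, by rw [h]; push_cast; ring⟩⟩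
  continuous_toFun := by fun_prop

/-- the partner of a function -/
noncomputable def par (f : C(sS, ℂ)) : C(sS, ℂ) := star (f.comp refl)

lemma par_apply (f : C(sS, ℂ)) (z : sS) : par f z = star (f (refl z)) := rfl

lemma par_add (f g : C(sS, ℂ)) : par (f + g) = par f + par g := by
  ext z; simp [par_apply]

lemma par_mul (f g : C(sS, ℂ)) : par (f * g) = par f * par g := by
  ext z; simp [par_apply]

lemma par_cont : Continuous par := by
  unfold par
  fun_prop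

theorem Phi_D (D : H →L[ℝ] H) (hD : ∀ (c : ℂ) (v : H), D (c • v) = (starRingEnd ℂ) c • D v)
    (hDR : ∀ v : H, D (R v) = (2 : ℂ) • D v - R (D v)) (f : C(sS, ℂ)) :
    ∀ v, D (Phi R hR hsp f v) = Phi R hR hsp (par f) (D v) := by
  have hid : ∀ v, D (Phi R hR hsp zS v) = Phi R hR hsp (par zS) (D v) := by
    intro v
    have : par zS = (2 : ℂ) • (1 : C(sS, ℂ)) - zS := by
      ext z
      obtain ⟨r, h0, h2, h⟩ := sS_cases z
      simp [par_apply, zS, refl, h]
    rw [this, map_sub, map_smul, map_one, Phi_z, hDR]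
    simp
  induction f using ContinuousMap.induction_on_of_compact with
  | const r =>
    intro v
    have h1 : (ContinuousMap.const sS r : C(sS, ℂ)) = r • (1 : C(sS, ℂ)) := by ext; simp
    have h2 : par (ContinuousMap.const sS r : C(sS, ℂ)) = (starRingEnd ℂ r) • (1 : C(sS, ℂ)) := by
      ext; simp [par_apply]
    rw [h2, h1, map_smul, map_smul, map_one]
    simp [hD]
  | id => exact hid
  | star_id =>
    have : star (ContinuousMap.restrict sS (ContinuousMap.id ℂ)) = zS := by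
      ext z
      obtain ⟨r, h0, h2, h⟩ := sS_cases z
      simp [zS, h]
    rw [this]
    exact hid
  | add f g hf hg =>
    intro v
    rw [par_add, map_add, map_add, add_apply, add_apply, map_add, hf, hg]
  | mul f g hf hg =>
    intro v
    rw [par_mul, map_mul, map_mul]
    change D (Phi R hR hsp f (Phi R hR hsp g v)) = _
    rw [hf, hg]
    rfl
  | frequently f h =>
    have hcl : IsClosed {g : C(sS, ℂ) | ∀ v, D (Phi R hR hsp g v) = Phi R hR hsp (par g) (D v)} := by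
      simp only [Set.ofPred_forall]
      refine isClosed_iInter fun v => isClosed_eq ?_ ?_
      · exact D.continuous.comp ((ContinuousLinearMap.apply ℂ H v).continuous.comp
          (Phi_cont R hR hsp))
      · exact (ContinuousLinearMap.apply ℂ H (D v)).continuous.comp
          ((Phi_cont R hR hsp).comp par_cont)
    exact hcl.closure_subset (mem_closure_iff_frequently.mpr h)

/-- Norm comparison. -/
theorem Phi_le (f g : C(sS, ℂ)) (C : ℝ) (hC : 0 ≤ C) (hfg : ∀ z, ‖f z‖ ≤ C * ‖g z‖) (v : H) :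
    ‖Phi R hR hsp f v‖ ≤ C * ‖Phi R hR hsp g v‖ := by
  let h : C(sS, ℂ) := ⟨fun z => ((Real.sqrt (C ^ 2 * ‖g z‖ ^ 2 - ‖f z‖ ^ 2) : ℝ) : ℂ), by fun_prop⟩
  have hsum : star f * f + star h * h = ((C : ℂ) ^ 2) • (star g * g) := by
    ext z
    have hn : ∀ w : ℂ, star w * w = ((‖w‖ ^ 2 : ℝ) : ℂ) := by
      intro w
      rw [Complex.star_def, Complex.conj_mul']
      push_cast; rfl
    have h1 : 0 ≤ C ^ 2 * ‖g z‖ ^ 2 - ‖f z‖ ^ 2 := by
      have := hfg z
      have h3 := norm_nonneg (f z)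
      nlinarith [mul_nonneg hC (norm_nonneg (g z))]
    have h2 : ‖h z‖ ^ 2 = C ^ 2 * ‖g z‖ ^ 2 - ‖f z‖ ^ 2 := by
      change ‖((Real.sqrt (C ^ 2 * ‖g z‖ ^ 2 - ‖f z‖ ^ 2) : ℝ) : ℂ)‖ ^ 2 = _
      rw [Complex.norm_real, Real.norm_of_nonneg (Real.sqrt_nonneg _), Real.sq_sqrt h1]
    simp only [ContinuousMap.add_apply, ContinuousMap.mul_apply, ContinuousMap.star_apply,
      ContinuousMap.smul_apply, hn, h2, smul_eq_mul]
    push_cast
    ring
  have key : ‖Phi R hR hsp f v‖ ^ 2 + ‖Phi R hR hsp h v‖ ^ 2 = C ^ 2 * ‖Phi R hR hsp g v‖ ^ 2 := by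
    have hin : ∀ k : C(sS, ℂ), ⟪v, Phi R hR hsp (star k * k) v⟫_ℂ =
        ((‖Phi R hR hsp k v‖ ^ 2 : ℝ) : ℂ) := by
      intro k
      rw [map_mul, map_star]
      change ⟪v, (star (Phi R hR hsp k)) (Phi R hR hsp k v)⟫_ℂ = _
      rw [ContinuousLinearMap.star_eq_adjoint, ContinuousLinearMap.adjoint_inner_right,
        inner_self_eq_norm_sq_to_K]
      push_cast; rfl
    have h1 := congrArg (fun k => ⟪v, Phi R hR hsp k v⟫_ℂ) hsum
    simp only [map_add, map_smul, add_apply, smul_apply, inner_add_right, inner_smul_right] at h1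
    rw [hin, hin, hin] at h1
    exact_mod_cast h1
  have h5 : ‖Phi R hR hsp f v‖ ^ 2 ≤ (C * ‖Phi R hR hsp g v‖) ^ 2 := by
    rw [mul_pow, ← key]
    nlinarith [sq_nonneg ‖Phi R hR hsp h v‖]
  exact abs_le_of_sq_le_sq' h5 (by positivity) |>.2

end Phi

end Pool.Agent.Helper95.TTC

end

section

open scoped InnerProductSpace Topology BoundedContinuousFunction

open ContinuousLinearMap Filter

namespace Pool.Agent.Helper95.TTC

lemma cont_aux (G : ℝ →ᵇ ℂ) :
    Continuous (fun r : ℝ => ((r * (2 - r) : ℝ) : ℂ) * G (Real.log ((2 - r) / r))) := by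
  rw [continuous_iff_continuousAt]
  intro r₀
  by_cases h0 : r₀ * (2 - r₀) = 0
  · have hv : ((r₀ * (2 - r₀) : ℝ) : ℂ) * G (Real.log ((2 - r₀) / r₀)) = 0 := by
      rw [h0]; simp
    change Tendsto _ _ (𝓝 (((r₀ * (2 - r₀) : ℝ) : ℂ) * G (Real.log ((2 - r₀) / r₀))))
    rw [hv]
    apply squeeze_zero_norm (a := fun r : ℝ => |r * (2 - r)| * ‖G‖)
    · intro r
      rw [norm_mul, Complex.norm_real, Real.norm_eq_abs]
      exact mul_le_mul_of_nonneg_left (G.norm_coe_le_norm _) (abs_nonneg _)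
    · have hc : Continuous (fun r : ℝ => |r * (2 - r)| * ‖G‖) := by fun_prop
      have := hc.tendsto r₀
      simpa [h0] using this
  · have h1 : r₀ ≠ 0 := by
      rintro rfl; simp at h0
    have h2 : 2 - r₀ ≠ 0 := by
      intro h; rw [h] at h0; simp at h0
    apply ContinuousAt.mul
    · fun_prop
    · apply (G.continuous.continuousAt).comp
      have h3 : ContinuousAt (fun r : ℝ => (2 - r) / r) r₀ :=
        ContinuousAt.div (by fun_prop) (by fun_prop) h1
      exact h3.log (div_ne_zero h2 h1)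

/-- the function `w(r) G(log ((2 - r) / r))`, `w(r) = r (2 - r)` -/
noncomputable def xG (G : ℝ →ᵇ ℂ) : C(sS, ℂ) :=
  ⟨fun z => (((z : ℂ).re * (2 - (z : ℂ).re) : ℝ) : ℂ) *
    G (Real.log ((2 - (z : ℂ).re) / (z : ℂ).re)), by
    exact (cont_aux G).comp (by fun_prop : Continuous fun z : sS => (z : ℂ).re)⟩

/-- the weight -/
noncomputable def wS : C(sS, ℂ) := zS * ((2 : ℂ) • 1 - zS)

lemma xG_apply (G : ℝ →ᵇ ℂ) (z : sS) (r : ℝ) (h : (z : ℂ) = r) :
    xG G z = ((r * (2 - r) : ℝ) : ℂ) * G (Real.log ((2 - r) / r)) := by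
  have : (z : ℂ).re = r := by rw [h]; simp
  change (((z : ℂ).re * (2 - (z : ℂ).re) : ℝ) : ℂ) *
    G (Real.log ((2 - (z : ℂ).re) / (z : ℂ).re)) = _
  rw [this]

lemma wS_apply (z : sS) (r : ℝ) (h : (z : ℂ) = r) : wS z = ((r * (2 - r) : ℝ) : ℂ) := by
  simp [wS, zS, h]

lemma zS_apply (z : sS) (r : ℝ) (h : (z : ℂ) = r) : zS z = (r : ℂ) := h

lemma xG_add (G G' : ℝ →ᵇ ℂ) : xG (G + G') = xG G + xG G' := by
  ext z
  obtain ⟨r, h0, h2, h⟩ := sS_cases z
  rw [ContinuousMap.add_apply, xG_apply _ z r h, xG_apply _ z r h, xG_apply _ z r h]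
  simp only [BoundedContinuousFunction.add_apply]
  ring

lemma xG_par (G G' : ℝ →ᵇ ℂ) (hG : ∀ ρ, G' ρ = (starRingEnd ℂ) (G (-ρ))) :
    par (xG G) = xG G' := by
  ext z
  obtain ⟨r, h0, h2, h⟩ := sS_cases z
  have h' : ((refl z : sS) : ℂ) = ((2 - r : ℝ) : ℂ) := by
    change 2 - (z : ℂ) = _
    rw [h]; push_cast; ring
  rw [par_apply, xG_apply _ (refl z) _ h', xG_apply _ z r h, hG]
  have h3 : Real.log ((2 - (2 - r)) / (2 - r)) = -Real.log ((2 - r) / r) := by
    rw [← Real.log_inv, inv_div]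
    congr 2
    ring
  rw [h3]
  simp only [star_mul', RCLike.star_def, Complex.conj_ofReal]
  congr 2
  ring

end Pool.Agent.Helper95.TTC

namespace Pool.Agent.Helper23

/-- the function `2 / (1 + e^ρ)` -/
noncomputable def FR : ℝ →ᵇ ℂ :=
  BoundedContinuousFunction.ofNormedAddCommGroup (fun ρ : ℝ => ((2 / (1 + Real.exp ρ) : ℝ) : ℂ))
    (by
      refine Complex.continuous_ofReal.comp (Continuous.div (by fun_prop) (by fun_prop) ?_)
      intro ρ
      positivity) 2 (by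
      intro ρ
      rw [Complex.norm_real, Real.norm_of_nonneg (by positivity)]
      rw [div_le_iff₀ (by positivity)]
      nlinarith [Real.exp_pos ρ])

end Pool.Agent.Helper23

namespace Pool.Agent.Helper95.TTC

open Pool.Agent.Helper23

lemma xG_FR : xG FR = wS * zS := by
  ext z
  obtain ⟨r, h0, h2, h⟩ := sS_cases z
  rw [ContinuousMap.mul_apply, xG_apply _ z r h, wS_apply z r h, zS_apply z r h]
  change ((r * (2 - r) : ℝ) : ℂ) * (((2 / (1 + Real.exp (Real.log ((2 - r) / r))) : ℝ) : ℂ)) = _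
  rcases eq_or_lt_of_le h0 with h0' | h0'
  · rw [← h0']; simp
  rcases eq_or_lt_of_le h2 with h2' | h2'
  · rw [h2']; simp
  rw [Real.exp_log (by apply div_pos <;> linarith), ← Complex.ofReal_mul, ← Complex.ofReal_mul]
  congr 1
  have : (2 : ℝ) / (1 + (2 - r) / r) = r := by
    field_simp
    ring
  rw [this]

variable {H : Type*} [NormedAddCommGroup H] [InnerProductSpace ℂ H] [CompleteSpace H]

/-- Continuity of the symbol in the topology of locally uniform bounded convergence. -/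
lemma tendsto_xG (G : ℕ → (ℝ →ᵇ ℂ)) (G₀ : ℝ →ᵇ ℂ) (C : ℝ) (hC : ∀ n, ‖G n‖ ≤ C)
    (hG : ∀ L : ℝ, TendstoUniformlyOn (fun n ρ => G n ρ) (fun ρ => G₀ ρ) atTop (Set.Icc (-L) L)) :
    Tendsto (fun n => xG (G n)) atTop (𝓝 (xG G₀)) := by
  rw [Metric.tendsto_atTop]
  intro ε hε
  have hC0 : 0 ≤ C := (norm_nonneg _).trans (hC 0)
  set B := C + ‖G₀‖ + 1 with hB
  have hBpos : 0 < B := by positivity
  set δ := ε / (2 * B) with hδ
  have hδpos : 0 < δ := by positivity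
  set L := Real.log (4 / δ) with hL
  have hu := hG L
  rw [Metric.tendstoUniformlyOn_iff] at hu
  obtain ⟨N, hN⟩ := eventually_atTop.mp (hu (ε / 2) (by positivity))
  refine ⟨N, fun n hn => ?_⟩
  rw [dist_eq_norm]
  refine lt_of_le_of_lt ((ContinuousMap.norm_le _ (C := ε / 2) (by positivity)).mpr ?_)
    (by linarith)
  intro z
  obtain ⟨r, h0, h2, h⟩ := sS_cases z
  rw [ContinuousMap.sub_apply, xG_apply _ z r h, xG_apply _ z r h, ← mul_sub, norm_mul,
    Complex.norm_real, Real.norm_of_nonneg (by nlinarith)]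
  by_cases hw : r * (2 - r) ≤ δ
  · have h1 : ‖(G n) (Real.log ((2 - r) / r)) - G₀ (Real.log ((2 - r) / r))‖ ≤ B := by
      refine (norm_sub_le _ _).trans ?_
      have h3 := (G n).norm_coe_le_norm (Real.log ((2 - r) / r))
      have h4 := G₀.norm_coe_le_norm (Real.log ((2 - r) / r))
      have h5 := hC n
      linarith
    calc r * (2 - r) * ‖(G n) (Real.log ((2 - r) / r)) - G₀ (Real.log ((2 - r) / r))‖
        ≤ δ * B := mul_le_mul hw h1 (norm_nonneg _) hδpos.le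
      _ = ε / 2 := by rw [hδ]; field_simp
  · push Not at hw
    have hr0 : δ / 2 < r := by nlinarith
    have hr2 : δ / 2 < 2 - r := by nlinarith
    have hr0' : 0 < r := by linarith
    have hpos : 0 < (2 - r) / r := by apply div_pos <;> linarith
    have hmem : Real.log ((2 - r) / r) ∈ Set.Icc (-L) L := by
      constructor
      · rw [hL, ← Real.log_inv, inv_div]
        apply Real.log_le_log (by positivity)
        rw [le_div_iff₀ hr0']
        nlinarith
      · rw [hL]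
        apply Real.log_le_log hpos
        rw [div_le_div_iff₀ hr0' hδpos]
        nlinarith
    have h1 := hN n hn _ hmem
    rw [dist_eq_norm, norm_sub_rev] at h1
    have hw1 : r * (2 - r) ≤ 1 := by nlinarith [sq_nonneg (r - 1)]
    calc r * (2 - r) * ‖(G n) (Real.log ((2 - r) / r)) - G₀ (Real.log ((2 - r) / r))‖
        ≤ 1 * (ε / 2) := mul_le_mul hw1 h1.le (norm_nonneg _) (by norm_num)
      _ = ε / 2 := one_mul _

end Pool.Agent.Helper95.TTC

end

section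

open scoped InnerProductSpace Topology BoundedContinuousFunction

open ContinuousLinearMap Filter MeasureTheory

namespace Pool.Agent.Helper23

variable {H : Type*} [NormedAddCommGroup H] [InnerProductSpace ℂ H] [CompleteSpace H]

/-- the function `e^{i t ρ}` -/
noncomputable def expB (t : ℝ) : ℝ →ᵇ ℂ :=
  BoundedContinuousFunction.ofNormedAddCommGroup
    (fun ρ : ℝ => Complex.exp ((t * ρ : ℝ) * Complex.I)) (by fun_prop) 1 (by
      intro ρ
      rw [Complex.norm_exp_ofReal_mul_I])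

/-- modular data of `(A, ξ)` with a bounded functional calculus of `log Δ`. -/
structure Modular (A : VonNeumannAlgebra H) (ξ : H) (R : H →L[ℂ] H) (D : H →L[ℝ] H)
    (Ψ : (ℝ →ᵇ ℂ) →⋆ₐ[ℂ] (H →L[ℂ] H)) : Prop where
  data : TTData A ξ R D
  psi_FR : Ψ FR = R
  psi_comm : ∀ X : H →L[ℂ] H, X * R = R * X → ∀ G, X * Ψ G = Ψ G * X
  psi_D : ∀ G G' : ℝ →ᵇ ℂ, (∀ ρ, G' ρ = (starRingEnd ℂ) (G (-ρ))) →
    ∀ v : H, D (Ψ G v) = Ψ G' (D v)
  psi_cont : ∀ (G : ℕ → (ℝ →ᵇ ℂ)) (G₀ : ℝ →ᵇ ℂ) (C : ℝ), (∀ n, ‖G n‖ ≤ C) →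
    (∀ L : ℝ, TendstoUniformlyOn (fun n ρ => G n ρ) (fun ρ => G₀ ρ) atTop (Set.Icc (-L) L)) →
    ∀ v : H, Tendsto (fun n => Ψ (G n) v) atTop (𝓝 (Ψ G₀ v))
  psi_xi : ∀ G : ℝ →ᵇ ℂ, Ψ G ξ = G 0 • ξ
  mem : ∀ (t : ℝ), ∀ a ∈ A, Ψ (expB t) * a * Ψ (expB (-t)) ∈ A

end Pool.Agent.Helper23

end

section

open scoped InnerProductSpace Topology BoundedContinuousFunction

open ContinuousLinearMap Filter MeasureTheory

namespace Pool.Agent.Helper43.TTF

open Pool.Agent.Helper23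

variable {H : Type*} [NormedAddCommGroup H] [InnerProductSpace ℂ H] [CompleteSpace H]

@[simp] lemma FR_apply (ρ : ℝ) : FR ρ = ((2 / (1 + Real.exp ρ) : ℝ) : ℂ) := rfl

end Pool.Agent.Helper43.TTF

end

section

open scoped InnerProductSpace Topology BoundedContinuousFunction FourierTransform ENNReal

open ContinuousLinearMap Filter MeasureTheory

set_option linter.unusedSectionVars false

namespace Pool.Agent.Helper23

variable {H : Type*} [NormedAddCommGroup H] [InnerProductSpace ℂ H] [CompleteSpace H]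

lemma expB_apply (t ρ : ℝ) : expB t ρ = Complex.exp ((t * ρ : ℝ) * Complex.I) := rfl

lemma expB_norm_apply (t ρ : ℝ) : ‖expB t ρ‖ = 1 := by
  rw [expB_apply, Complex.norm_exp_ofReal_mul_I]

lemma expB_norm (t : ℝ) : ‖expB t‖ ≤ 1 := by
  refine (BoundedContinuousFunction.norm_le zero_le_one).2 fun ρ => (expB_norm_apply t ρ).le

lemma expB_mul (s t : ℝ) : expB s * expB t = expB (s + t) := by
  ext ρ
  rw [BoundedContinuousFunction.mul_apply, expB_apply, expB_apply, expB_apply, ← Complex.exp_add]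
  congr 1
  push_cast
  ring

lemma expB_zero : expB 0 = 1 := by
  ext ρ
  rw [expB_apply]
  simp

lemma expB_star (t : ℝ) : star (expB t) = expB (-t) := by
  ext ρ
  rw [BoundedContinuousFunction.star_apply, expB_apply, expB_apply, Complex.star_def,
    ← Complex.exp_conj]
  congr 1
  simp

lemma expB_sub_le (s t ρ : ℝ) : ‖expB s ρ - expB t ρ‖ ≤ |s - t| * |ρ| := by
  have h1 : expB s ρ - expB t ρ =
      Complex.exp ((t * ρ : ℝ) * Complex.I) * (Complex.exp (Complex.I * ((s - t) * ρ : ℝ)) - 1) := by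
    rw [mul_sub, ← Complex.exp_add, expB_apply, expB_apply, mul_one]
    congr 2
    push_cast
    ring
  rw [h1, norm_mul, Complex.norm_exp_ofReal_mul_I, one_mul]
  refine (Real.norm_exp_I_mul_ofReal_sub_one_le).trans ?_
  rw [Real.norm_eq_abs, abs_mul]

/-- star homomorphisms as continuous linear maps -/
noncomputable def psiL (Ψ : (ℝ →ᵇ ℂ) →⋆ₐ[ℂ] (H →L[ℂ] H)) : (ℝ →ᵇ ℂ) →L[ℂ] (H →L[ℂ] H) :=
  LinearMap.mkContinuous (Ψ : (ℝ →ᵇ ℂ) →ₗ[ℂ] (H →L[ℂ] H)) 1 (fun G => by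
    rw [one_mul]
    exact NonUnitalStarAlgHom.norm_apply_le Ψ G)

lemma psi_norm_le (Ψ : (ℝ →ᵇ ℂ) →⋆ₐ[ℂ] (H →L[ℂ] H)) (G : ℝ →ᵇ ℂ) : ‖Ψ G‖ ≤ ‖G‖ :=
  NonUnitalStarAlgHom.norm_apply_le Ψ G

lemma psi_mul_apply (Ψ : (ℝ →ᵇ ℂ) →⋆ₐ[ℂ] (H →L[ℂ] H)) (G K : ℝ →ᵇ ℂ) (v : H) :
    Ψ (G * K) v = Ψ G (Ψ K v) := by
  rw [map_mul]; rfl

lemma psi_expB_isom (Ψ : (ℝ →ᵇ ℂ) →⋆ₐ[ℂ] (H →L[ℂ] H)) (t : ℝ) :
    star (Ψ (expB t)) * Ψ (expB t) = 1 := by
  rw [← map_star, ← map_mul, expB_star, expB_mul, neg_add_cancel, expB_zero, map_one]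

namespace Modular

variable {A : VonNeumannAlgebra H} {ξ : H} {R : H →L[ℂ] H} {D : H →L[ℝ] H}
  {Ψ : (ℝ →ᵇ ℂ) →⋆ₐ[ℂ] (H →L[ℂ] H)} (h : Modular A ξ R D Ψ)

include h

lemma U_cont (v : H) : Continuous fun t : ℝ => Ψ (expB t) v := by
  rw [continuous_iff_seqContinuous]
  intro u t hu
  refine h.psi_cont (fun n => expB (u n)) (expB t) 1 (fun n => expB_norm _) (fun L => ?_) v
  rw [Metric.tendstoUniformlyOn_iff]
  intro ε hε
  have h1 : Tendsto (fun n => |u n - t| * |L|) atTop (𝓝 0) := by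
    have : Tendsto (fun n => |u n - t| * |L|) atTop (𝓝 (|t - t| * |L|)) :=
      ((hu.sub_const t).abs).mul_const _
    simpa using this
  filter_upwards [(h1.eventually (gt_mem_nhds hε))] with n hn ρ hρ
  rw [dist_comm, dist_eq_norm]
  refine (expB_sub_le _ _ _).trans_lt (lt_of_le_of_lt ?_ hn)
  refine mul_le_mul_of_nonneg_left ?_ (abs_nonneg _)
  exact (abs_le.2 hρ).trans (le_abs_self L)

end Modular

end Pool.Agent.Helper23

end

section

open scoped InnerProductSpace Topology BoundedContinuousFunction FourierTransform ENNReal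

open ContinuousLinearMap Filter MeasureTheory

set_option linter.unusedSectionVars false

namespace Pool.Agent.Helper23

variable {H : Type*} [NormedAddCommGroup H] [InnerProductSpace ℂ H] [CompleteSpace H]

/-- cut-off functions -/
noncomputable def cutB (n : ℕ) : ℝ →ᵇ ℂ :=
  BoundedContinuousFunction.ofNormedAddCommGroup
    (fun ρ : ℝ => ((max 0 (min 1 (n + 1 - |ρ|)) : ℝ) : ℂ)) (by fun_prop) 1 (by
      intro ρ
      rw [Complex.norm_real, Real.norm_of_nonneg (le_max_left _ _)]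
      exact max_le zero_le_one (min_le_left _ _))

lemma cutB_apply (n : ℕ) (ρ : ℝ) : cutB n ρ = ((max 0 (min 1 (n + 1 - |ρ|)) : ℝ) : ℂ) := rfl

lemma cutB_norm (n : ℕ) : ‖cutB n‖ ≤ 1 := by
  refine (BoundedContinuousFunction.norm_le zero_le_one).2 fun ρ => ?_
  rw [cutB_apply, Complex.norm_real, Real.norm_of_nonneg (le_max_left _ _)]
  exact max_le zero_le_one (min_le_left _ _)

lemma cutB_zero {n : ℕ} {ρ : ℝ} (h : (n : ℝ) + 1 ≤ |ρ|) : cutB n ρ = 0 := by
  rw [cutB_apply, max_eq_left ((min_le_right _ _).trans (by linarith))]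
  simp

lemma cutB_one {n : ℕ} {ρ : ℝ} (h : |ρ| ≤ n) : cutB n ρ = 1 := by
  rw [cutB_apply, min_eq_left (by linarith), max_eq_right zero_le_one]
  simp

lemma cutB_tendsto (L : ℝ) : TendstoUniformlyOn (fun n ρ => cutB n ρ)
    (fun ρ => (1 : ℝ →ᵇ ℂ) ρ) atTop (Set.Icc (-L) L) := by
  rw [Metric.tendstoUniformlyOn_iff]
  intro ε hε
  filter_upwards [eventually_ge_atTop ⌈L⌉₊] with n hn ρ hρ
  have h1 : |ρ| ≤ n := (abs_le.2 hρ).trans ((Nat.le_ceil L).trans (by exact_mod_cast hn))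
  rw [cutB_one h1, BoundedContinuousFunction.coe_one, Pi.one_apply, dist_self]
  exact hε

lemma expB_cut_cont (n : ℕ) : Continuous fun t : ℝ => expB t * cutB n := by
  have h : LipschitzWith (Real.toNNReal (n + 1)) fun t : ℝ => expB t * cutB n := by
    refine LipschitzWith.of_dist_le_mul fun s t => ?_
    rw [Real.coe_toNNReal _ (by positivity), dist_eq_norm, Real.dist_eq,
      BoundedContinuousFunction.norm_le (by positivity)]
    intro ρ
    have e1 : (expB s * cutB n - expB t * cutB n) ρ = (expB s ρ - expB t ρ) * cutB n ρ := by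
      rw [BoundedContinuousFunction.sub_apply, BoundedContinuousFunction.mul_apply,
        BoundedContinuousFunction.mul_apply, sub_mul]
    rw [e1, norm_mul]
    by_cases hρ : (n : ℝ) + 1 ≤ |ρ|
    · rw [cutB_zero hρ, norm_zero, mul_zero]
      positivity
    · push Not at hρ
      calc ‖expB s ρ - expB t ρ‖ * ‖cutB n ρ‖ ≤ (|s - t| * |ρ|) * 1 := by
            gcongr
            · exact expB_sub_le s t ρ
            · exact ((cutB n).norm_coe_le_norm ρ).trans (cutB_norm n)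
        _ ≤ (n + 1) * |s - t| := by
            nlinarith [abs_nonneg (s - t)]
  exact h.continuous

namespace Modular

variable {A : VonNeumannAlgebra H} {ξ : H} {R : H →L[ℂ] H} {D : H →L[ℝ] H}
  {Ψ : (ℝ →ᵇ ℂ) →⋆ₐ[ℂ] (H →L[ℂ] H)} (h : Modular A ξ R D Ψ)

include h

/-- the Fourier integral formula for cut off vectors -/
lemma integral_cut {k : ℝ → ℂ} (hk : Integrable k) {K : ℝ →ᵇ ℂ}
    (hK : ∀ ρ, K ρ = ∫ t, k t * expB (2 * Real.pi * t) ρ) (n : ℕ) (v w : H) :
    ∫ t, k t * ⟪v, Ψ (expB (2 * Real.pi * t)) (Ψ (cutB n) w)⟫_ℂ = ⟪v, Ψ K (Ψ (cutB n) w)⟫_ℂ := by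
  set F : ℝ → (ℝ →ᵇ ℂ) := fun t => k t • (expB (2 * Real.pi * t) * cutB n) with hF
  have hFi : Integrable F := by
    refine hk.smul_bdd (C := 1) ?_ ?_
    · exact ((expB_cut_cont n).comp (by fun_prop : Continuous fun t : ℝ => 2 * Real.pi * t)
        ).aestronglyMeasurable
    · refine Eventually.of_forall fun t => ?_
      refine (norm_mul_le _ _).trans ?_
      calc ‖expB (2 * Real.pi * t)‖ * ‖cutB n‖ ≤ 1 * 1 :=
            mul_le_mul (expB_norm _) (cutB_norm n) (norm_nonneg _) zero_le_one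
        _ = 1 := one_mul 1
  have hint : ∫ t, F t = K * cutB n := by
    ext ρ
    have h1 := (BoundedContinuousFunction.evalCLM ℂ ρ : (ℝ →ᵇ ℂ) →L[ℂ] ℂ).integral_comp_comm hFi
    change ∫ t, (F t) ρ = (∫ t, F t) ρ at h1
    rw [← h1, BoundedContinuousFunction.mul_apply, hK, ← integral_mul_const]
    refine integral_congr_ae (Eventually.of_forall fun t => ?_)
    simp only [hF, BoundedContinuousFunction.smul_apply, BoundedContinuousFunction.mul_apply,
      smul_eq_mul]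
    ring
  set Λ : (ℝ →ᵇ ℂ) →L[ℂ] ℂ := (innerSL ℂ v).comp ((ContinuousLinearMap.apply ℂ H w).comp (psiL Ψ))
    with hΛ
  have hΛa : ∀ G, Λ G = ⟪v, Ψ G w⟫_ℂ := fun G => rfl
  have h2 := Λ.integral_comp_comm hFi
  rw [hint, hΛa, psi_mul_apply] at h2
  rw [← h2]
  refine integral_congr_ae (Eventually.of_forall fun t => ?_)
  simp only [hF, map_smul, smul_eq_mul]
  rw [hΛa, psi_mul_apply]

end Modular

end Pool.Agent.Helper23

end

section

open scoped InnerProductSpace Topology BoundedContinuousFunction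

open ContinuousLinearMap Filter MeasureTheory

namespace Pool.Agent.Helper70.U8

open Pool.Agent.Helper23

variable {H : Type*} [NormedAddCommGroup H] [InnerProductSpace ℂ H] [CompleteSpace H]

variable {A : VonNeumannAlgebra H} {ξ : H} {R : H →L[ℂ] H} {D : H →L[ℝ] H}
  {Ψ : (ℝ →ᵇ ℂ) →⋆ₐ[ℂ] (H →L[ℂ] H)}

/-- the unitary group -/
noncomputable def U (Ψ : (ℝ →ᵇ ℂ) →⋆ₐ[ℂ] (H →L[ℂ] H)) (t : ℝ) : H →L[ℂ] H :=
  Ψ (expB (2 * Real.pi * t))

/-- the inverse of the unitary group -/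
noncomputable def V (Ψ : (ℝ →ᵇ ℂ) →⋆ₐ[ℂ] (H →L[ℂ] H)) (t : ℝ) : H →L[ℂ] H :=
  Ψ (expB (-(2 * Real.pi * t)))

lemma U_cont (h : Modular A ξ R D Ψ) (v : H) : Continuous fun t => U Ψ t v :=
  (h.U_cont v).comp (by fun_prop : Continuous fun t : ℝ => 2 * Real.pi * t)

lemma V_cont (h : Modular A ξ R D Ψ) (v : H) : Continuous fun t => V Ψ t v :=
  (h.U_cont v).comp (by fun_prop : Continuous fun t : ℝ => -(2 * Real.pi * t))

/-- the real Gaussian -/
noncomputable def ga (ε t : ℝ) : ℝ :=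
  (√(Real.pi / (Real.pi ^ 2 / ε)))⁻¹ * Real.exp (-(Real.pi ^ 2 / ε) * t ^ 2)

lemma ga_nonneg (ε t : ℝ) : 0 ≤ ga ε t := by
  unfold ga
  positivity

lemma ga_int {ε : ℝ} (hε : 0 < ε) : Integrable (ga ε) :=
  (integrable_exp_neg_mul_sq (by positivity : 0 < Real.pi ^ 2 / ε)).const_mul _

/-- the kernels -/
noncomputable def kg (ε κ t : ℝ) : ℂ :=
  (ga ε t : ℂ) * (Complex.exp ((-(Real.pi * κ / ε * t) : ℝ) * Complex.I) *
    (Real.exp (κ ^ 2 / (4 * ε)) : ℝ))

lemma kg_norm (ε κ t : ℝ) : ‖kg ε κ t‖ = ga ε t * Real.exp (κ ^ 2 / (4 * ε)) := by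
  unfold kg
  rw [norm_mul, norm_mul, Complex.norm_real, Complex.norm_real, Complex.norm_exp_ofReal_mul_I,
    one_mul, Real.norm_of_nonneg (ga_nonneg _ _), Real.norm_of_nonneg (Real.exp_pos _).le]

lemma kg_cont (ε κ : ℝ) : Continuous (kg ε κ) := by
  unfold kg ga
  fun_prop

lemma kg_int {ε : ℝ} (hε : 0 < ε) (κ : ℝ) : Integrable (kg ε κ) := by
  refine Integrable.mono' ((ga_int hε).mul_const (Real.exp (κ ^ 2 / (4 * ε))))
    (kg_cont ε κ).aestronglyMeasurable (Eventually.of_forall fun t => ?_)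
  rw [kg_norm]

lemma kg_fourier {ε : ℝ} (hε : 0 < ε) (κ ρ : ℝ) :
    ((Real.exp (-(ε * ρ ^ 2) + κ * ρ) : ℝ) : ℂ) =
      ∫ t, kg ε κ t * expB (2 * Real.pi * t) ρ := by
  have hpi : (Real.pi : ℂ) ≠ 0 := by exact_mod_cast Real.pi_ne_zero
  have hε' : (ε : ℂ) ≠ 0 := by exact_mod_cast hε.ne'
  have hb : (-((Real.pi : ℂ) ^ 2 / ε)).re < 0 := by
    have : (-((Real.pi : ℂ) ^ 2 / ε)) = ((-(Real.pi ^ 2 / ε) : ℝ) : ℂ) := by push_cast; ring
    rw [this, Complex.ofReal_re]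
    have : 0 < Real.pi ^ 2 / ε := by positivity
    linarith
  have hq := integral_cexp_quadratic hb
    (-(Real.pi * κ / ε) * Complex.I + 2 * Real.pi * ρ * Complex.I) ((κ : ℂ) ^ 2 / (4 * ε))
  have h1 : (fun t : ℝ => kg ε κ t * expB (2 * Real.pi * t) ρ) = fun t : ℝ =>
      ((√(Real.pi / (Real.pi ^ 2 / ε)))⁻¹ : ℂ) * Complex.exp (-((Real.pi : ℂ) ^ 2 / ε) * t ^ 2 +
        (-(Real.pi * κ / ε) * Complex.I + 2 * Real.pi * ρ * Complex.I) * t +
        (κ : ℂ) ^ 2 / (4 * ε)) := by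
    funext t
    rw [expB_apply, kg, ga]
    push_cast
    rw [Complex.exp_add, Complex.exp_add]
    have h2 : (-((Real.pi : ℂ) * κ / ε) * Complex.I + 2 * Real.pi * ρ * Complex.I) * t =
        -(Real.pi * κ / ε * t) * Complex.I + 2 * Real.pi * t * ρ * Complex.I := by ring
    rw [h2, Complex.exp_add]
    ring
  rw [h1, integral_const_mul, hq]
  have h3 : ((Real.pi : ℂ) / - -((Real.pi : ℂ) ^ 2 / ε)) ^ (1 / 2 : ℂ) =
      ((√(Real.pi / (Real.pi ^ 2 / ε)) : ℝ) : ℂ) := by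
    rw [Real.sqrt_eq_rpow, Complex.ofReal_cpow (by positivity), neg_neg]
    push_cast
    rfl
  rw [h3, ← mul_assoc]
  have h4 : ((√(Real.pi / (Real.pi ^ 2 / ε)) : ℝ) : ℂ) ≠ 0 := by
    have : 0 < Real.pi / (Real.pi ^ 2 / ε) := by positivity
    exact_mod_cast (Real.sqrt_pos.2 this).ne'
  rw [inv_mul_cancel₀ h4, one_mul, Complex.ofReal_exp]
  congr 1
  push_cast
  have h5 : (-((Real.pi : ℂ) * κ / ε) * Complex.I + 2 * Real.pi * ρ * Complex.I) ^ 2 =
      -(-((Real.pi : ℂ) * κ / ε) + 2 * Real.pi * ρ) ^ 2 := by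
    rw [← add_mul, mul_pow, Complex.I_sq]
    ring
  rw [h5]
  field_simp
  ring

/-- the Gaussian -/
noncomputable def GB (ε : ℝ) (hε : 0 < ε) (κ : ℝ) : ℝ →ᵇ ℂ :=
  BoundedContinuousFunction.ofNormedAddCommGroup
    (fun ρ : ℝ => ((Real.exp (-(ε * ρ ^ 2) + κ * ρ) : ℝ) : ℂ)) (by fun_prop)
    (Real.exp (κ ^ 2 / (4 * ε))) (by
      intro ρ
      rw [Complex.norm_real, Real.norm_of_nonneg (Real.exp_pos _).le, Real.exp_le_exp]
      rw [le_div_iff₀ (by positivity)]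
      nlinarith [sq_nonneg (2 * ε * ρ - κ)])

lemma GB_apply {ε : ℝ} (hε : 0 < ε) (κ ρ : ℝ) :
    GB ε hε κ ρ = ((Real.exp (-(ε * ρ ^ 2) + κ * ρ) : ℝ) : ℂ) := rfl

end Pool.Agent.Helper70.U8

end

section

open scoped InnerProductSpace Topology BoundedContinuousFunction

open ContinuousLinearMap Filter MeasureTheory

namespace Pool.Agent.Helper23

variable {H : Type*} [NormedAddCommGroup H] [InnerProductSpace ℂ H] [CompleteSpace H]

variable {M N : VonNeumannAlgebra H} {ξ : H} {E : (H →L[ℂ] H) → (H →L[ℂ] H)}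

namespace U14

/-- the field `t ↦ U_{2πt} a U_{-2πt}` -/
noncomputable def fld (Ψ : (ℝ →ᵇ ℂ) →⋆ₐ[ℂ] (H →L[ℂ] H)) (a : H →L[ℂ] H) (t : ℝ) : H →L[ℂ] H :=
  Ψ (expB (2 * Real.pi * t)) * a * Ψ (expB (-(2 * Real.pi * t)))

lemma fld_norm (Ψ : (ℝ →ᵇ ℂ) →⋆ₐ[ℂ] (H →L[ℂ] H)) (a : H →L[ℂ] H) (t : ℝ) :
    ‖fld Ψ a t‖ ≤ ‖a‖ := by
  have h1 : ‖Ψ (expB (2 * Real.pi * t))‖ ≤ 1 := (psi_norm_le Ψ _).trans (expB_norm _)
  have h2 : ‖Ψ (expB (-(2 * Real.pi * t)))‖ ≤ 1 := (psi_norm_le Ψ _).trans (expB_norm _)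
  calc ‖fld Ψ a t‖ ≤ ‖Ψ (expB (2 * Real.pi * t)) * a‖ * ‖Ψ (expB (-(2 * Real.pi * t)))‖ :=
        norm_mul_le _ _
    _ ≤ (‖Ψ (expB (2 * Real.pi * t))‖ * ‖a‖) * ‖Ψ (expB (-(2 * Real.pi * t)))‖ := by
        gcongr; exact norm_mul_le _ _
    _ ≤ (1 * ‖a‖) * 1 := by gcongr
    _ = ‖a‖ := by ring

lemma fld_add (Ψ : (ℝ →ᵇ ℂ) →⋆ₐ[ℂ] (H →L[ℂ] H)) (a b : H →L[ℂ] H) :
    fld Ψ (a + b) = fun t => fld Ψ a t + fld Ψ b t := by
  funext t
  simp only [fld, mul_add, add_mul]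

lemma fld_smul (Ψ : (ℝ →ᵇ ℂ) →⋆ₐ[ℂ] (H →L[ℂ] H)) (c : ℂ) (a : H →L[ℂ] H) :
    fld Ψ (c • a) = fun t => c • fld Ψ a t := by
  funext t
  simp only [fld, mul_smul_comm, smul_mul_assoc]

end U14

end Pool.Agent.Helper23

end

section

open scoped InnerProductSpace Topology BoundedContinuousFunction FourierTransform ENNReal

open ContinuousLinearMap Filter MeasureTheory

set_option linter.unusedSectionVars false

namespace Pool.Agent.Helper23

variable {H : Type*} [NormedAddCommGroup H] [InnerProductSpace ℂ H] [CompleteSpace H]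

lemma FR_apply (ρ : ℝ) : FR ρ = ((2 / (1 + Real.exp ρ) : ℝ) : ℂ) := rfl

end Pool.Agent.Helper23

end

section

open scoped InnerProductSpace Topology BoundedContinuousFunction FourierTransform ENNReal

open ContinuousLinearMap Filter MeasureTheory

set_option linter.unusedSectionVars false

namespace Pool.Agent.Helper23

variable {H : Type*} [NormedAddCommGroup H] [InnerProductSpace ℂ H] [CompleteSpace H]

variable {M N : VonNeumannAlgebra H} {ξ : H} {E : (H →L[ℂ] H) → (H →L[ℂ] H)}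

lemma FR_sub_one_le (ρ : ℝ) : |ρ| / (|ρ| + 2) ≤ ‖(FR - 1) ρ‖ := by
  have h1 : (FR - 1) ρ = (((1 - Real.exp ρ) / (1 + Real.exp ρ) : ℝ) : ℂ) := by
    rw [BoundedContinuousFunction.sub_apply, FR_apply, BoundedContinuousFunction.coe_one,
      Pi.one_apply]
    have h3 : (1 + Real.exp ρ) ≠ 0 := by positivity
    have h2 : (1 - Real.exp ρ) / (1 + Real.exp ρ) = 2 / (1 + Real.exp ρ) - 1 := by
      field_simp
      ring
    rw [h2]
    push_cast
    ring
  rw [h1, Complex.norm_real, Real.norm_eq_abs, abs_div, abs_of_pos (by positivity : 0 <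
    1 + Real.exp ρ), div_le_div_iff₀ (by positivity) (by positivity)]
  rcases le_total 0 ρ with h | h
  · rw [abs_of_nonneg h]
    have h2 : 1 ≤ Real.exp ρ := Real.one_le_exp h
    rw [abs_of_nonpos (by linarith)]
    have h3 := Real.add_one_le_exp ρ
    nlinarith
  · rw [abs_of_nonpos h]
    have h2 : Real.exp ρ ≤ 1 := Real.exp_le_one_iff.2 h
    rw [abs_of_nonneg (by linarith)]
    have h3 := Real.add_one_le_exp (-ρ)
    have h4 : Real.exp (-ρ) * Real.exp ρ = 1 := by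
      rw [← Real.exp_add]; simp
    have h5 : (-ρ + 1) * Real.exp ρ ≤ 1 := by
      calc (-ρ + 1) * Real.exp ρ ≤ Real.exp (-ρ) * Real.exp ρ :=
            mul_le_mul_of_nonneg_right h3 (Real.exp_pos ρ).le
        _ = 1 := h4
    nlinarith

lemma expB_dom (t ρ : ℝ) : ‖(expB t - 1) ρ‖ ≤ (3 * |t| + 6) * ‖(FR - 1) ρ‖ := by
  have h0 := FR_sub_one_le ρ
  have h1 : ‖(expB t - 1) ρ‖ ≤ |t| * |ρ| := by
    have := expB_sub_le t 0 ρ
    rw [expB_zero, sub_zero] at this
    exact this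
  have h2 : ‖(expB t - 1) ρ‖ ≤ 2 := by
    rw [BoundedContinuousFunction.sub_apply, BoundedContinuousFunction.coe_one, Pi.one_apply]
    refine (norm_sub_le _ _).trans ?_
    rw [expB_norm_apply, norm_one]
    norm_num
  refine le_trans ?_ (mul_le_mul_of_nonneg_left h0 (by positivity))
  rcases le_total |ρ| 1 with h | h
  · refine h1.trans ?_
    rw [← mul_div_assoc, le_div_iff₀ (by positivity)]
    have h3 : 0 ≤ |t| * |ρ| := by positivity
    nlinarith [abs_nonneg ρ, abs_nonneg t]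
  · refine h2.trans ?_
    rw [← mul_div_assoc, le_div_iff₀ (by positivity)]
    nlinarith [abs_nonneg ρ, abs_nonneg t, mul_nonneg (abs_nonneg t) (abs_nonneg ρ)]

end Pool.Agent.Helper23

end

section

open scoped InnerProductSpace Topology BoundedContinuousFunction

open ContinuousLinearMap Filter MeasureTheory

namespace Pool.Agent.Helper88.CS

open Pool.Agent.Helper23

variable {H : Type*} [NormedAddCommGroup H] [InnerProductSpace ℂ H] [CompleteSpace H]

/-- `k` is an integrable kernel with (inverse) Fourier transform `K` -/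
structure Ker (k : ℝ → ℂ) (K : ℝ →ᵇ ℂ) : Prop where
  cont : Continuous k
  int : Integrable k
  Kint : Integrable (K : ℝ → ℂ)
  four : ∀ ρ, K ρ = ∫ t, k t * expB (2 * Real.pi * t) ρ
  inv : ∀ t, k t = ∫ ρ, K ρ * expB (-(2 * Real.pi * t)) ρ

end Pool.Agent.Helper88.CS

end
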