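import Pool.Agent.Helper23.FA.Ns

/-!
Parts of Helper23.Basic, Helper23.Eigen, Helper23.Dens, Helper23.Qalg, Helper23.Spec, Helper23.Conc, Helper23.Comm, Helper23.Avg, Helper88.CS.Trick1
-/

section

open scoped InnerProductSpace

open ContinuousLinearMap

namespace Pool.Agent.Helper23

variable {H : Type*} [NormedAddCommGroup H] [InnerProductSpace ℂ H] [CompleteSpace H]

lemma mem_comm_iff {A : VonNeumannAlgebra H} {z : H →L[ℂ] H} :
    z ∈ A.commutant ↔ ∀ g ∈ A, g * z = z * g := VonNeumannAlgebra.mem_commutant_iff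

lemma mem_iff_commutes {A : VonNeumannAlgebra H} {z : H →L[ℂ] H} :
    z ∈ A ↔ ∀ g ∈ A.commutant, g * z = z * g := by
  conv_lhs => rw [← A.commutant_commutant]
  exact mem_comm_iff

lemma commute_apply {A : VonNeumannAlgebra H} {a y : H →L[ℂ] H} (ha : a ∈ A)
    (hy : y ∈ A.commutant) (η : H) : a (y η) = y (a η) := by
  have := mem_comm_iff.1 hy a ha
  exact congrArg (fun T : H →L[ℂ] H => T η) this

/-- The orbit of a vector under a von Neumann algebra, as a submodule. -/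
def orb (A : VonNeumannAlgebra H) (ξ : H) : Submodule ℂ H where
  carrier := {x | ∃ a ∈ A, a ξ = x}
  add_mem' := by
    rintro _ _ ⟨a, ha, rfl⟩ ⟨b, hb, rfl⟩
    exact ⟨a + b, add_mem ha hb, rfl⟩
  zero_mem' := ⟨0, zero_mem A, rfl⟩
  smul_mem' := by
    rintro c _ ⟨a, ha, rfl⟩
    exact ⟨c • a, A.toStarSubalgebra.smul_mem ha c, rfl⟩

lemma smul_mem' {A : VonNeumannAlgebra H} {a : H →L[ℂ] H} (c : ℂ) (ha : a ∈ A) : c • a ∈ A :=
  A.toStarSubalgebra.smul_mem ha c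

/-- evaluation at a vector as a linear map on the algebra. -/
def evL (A : VonNeumannAlgebra H) (ξ : H) : A.toStarSubalgebra →ₗ[ℂ] H where
  toFun a := (a : H →L[ℂ] H) ξ
  map_add' _ _ := rfl
  map_smul' _ _ := rfl

/-- A vector `η` dominated by `ξ` along `A` comes from an operator of the commutant. -/
theorem exists_op (A : VonNeumannAlgebra H) {ξ η : H} {C : ℝ} (hC : 0 ≤ C)
    (hd : Dense (orb A ξ : Set H)) (hb : ∀ a ∈ A, ‖a η‖ ≤ C * ‖a ξ‖) :
    ∃ y ∈ A.commutant, (∀ a ∈ A, y (a ξ) = a η) ∧ ‖y‖ ≤ C := by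
  have hdr : DenseRange (evL A ξ) := by
    have : Set.range (evL A ξ) = (orb A ξ : Set H) := by
      ext x
      constructor
      · rintro ⟨a, rfl⟩
        exact ⟨a, a.2, rfl⟩
      · rintro ⟨a, ha, rfl⟩
        exact ⟨⟨a, ha⟩, rfl⟩
    rw [DenseRange, this]
    exact hd
  have hnorm : ∀ a : A.toStarSubalgebra, ‖evL A η a‖ ≤ C * ‖evL A ξ a‖ := fun a => hb a a.2
  set y := (evL A η).extendOfNorm (evL A ξ) with hy
  have hyeq : ∀ a ∈ A, y (a ξ) = a η := fun a ha =>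
    LinearMap.extendOfNorm_eq hdr ⟨C, hnorm⟩ ⟨a, ha⟩
  refine ⟨y, ?_, hyeq, LinearMap.opNorm_extendOfNorm_le hdr hC hnorm⟩
  rw [mem_comm_iff]
  intro g hg
  apply ContinuousLinearMap.ext
  have hcl : IsClosed {x : H | (g * y) x = (y * g) x} :=
    isClosed_eq (g * y).continuous (y * g).continuous
  have hsub : (orb A ξ : Set H) ⊆ {x : H | (g * y) x = (y * g) x} := by
    rintro _ ⟨a, ha, rfl⟩
    change g (y (a ξ)) = y (g (a ξ))
    rw [hyeq a ha]
    have := hyeq (g * a) (mul_mem hg ha)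
    exact this.symm
  intro x
  have := closure_minimal hsub hcl
  exact this (hd x)

/-- The projection onto the closure of an orbit lies in the commutant. -/
lemma proj_orb_mem (A : VonNeumannAlgebra H) (ξ : H) :
    (orb A ξ).topologicalClosure.starProjection ∈ A.commutant := by
  have hsp : IsStarProjection (orb A ξ).topologicalClosure.starProjection :=
    isStarProjection_starProjection
  rw [VonNeumannAlgebra.IsStarProjection.mem_iff hsp]
  intro y hy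
  rw [VonNeumannAlgebra.commutant_commutant] at hy
  rw [Submodule.range_starProjection]
  rw [Module.End.mem_invtSubmodule]
  intro x hx
  rw [Submodule.mem_comap]
  have h1 : (orb A ξ : Set H) ⊆ y ⁻¹' ((orb A ξ).topologicalClosure : Set H) := by
    rintro _ ⟨a, ha, rfl⟩
    exact Submodule.le_topologicalClosure _ ⟨y * a, mul_mem hy ha, rfl⟩
  have h2 : closure (orb A ξ : Set H) ⊆ y ⁻¹' ((orb A ξ).topologicalClosure : Set H) :=
    closure_minimal h1 ((Submodule.isClosed_topologicalClosure _).preimage y.continuous)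
  exact h2 hx

/-- A separating vector is cyclic for the commutant. -/
lemma dense_of_separating (A : VonNeumannAlgebra H) (ξ : H) (hs : ∀ a ∈ A, a ξ = 0 → a = 0) :
    Dense (orb A.commutant ξ : Set H) := by
  have hP := proj_orb_mem A.commutant ξ
  rw [VonNeumannAlgebra.commutant_commutant] at hP
  set V := (orb A.commutant ξ).topologicalClosure
  have h1 : (1 - V.starProjection) ∈ A := sub_mem (one_mem A) hP
  have hξ : ξ ∈ V := Submodule.le_topologicalClosure _ ⟨1, one_mem _, rfl⟩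
  have h2 : (1 - V.starProjection) ξ = 0 := by
    rw [sub_apply, one_apply_eq_self,
      Submodule.starProjection_eq_self_iff.2 hξ, sub_self]
  have h3 := hs _ h1 h2
  intro x
  have h4 : V.starProjection x = x := by
    have := congrArg (fun T : H →L[ℂ] H => T x) h3
    simp only [sub_apply, one_apply_eq_self,
      zero_apply, sub_eq_zero] at this
    exact this.symm
  have h5 : x ∈ V := Submodule.starProjection_eq_self_iff.1 h4
  exact h5

/-- Completeness of balls: norm-bounded operators converging on a separating vector converge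
to an operator of the algebra. -/
lemma exists_limit {ι : Type*} {l : Filter ι} [l.NeBot] (A : VonNeumannAlgebra H) {ξ η : H}
    (hd : Dense (orb A.commutant ξ : Set H)) {x : ι → H →L[ℂ] H} {C : ℝ} (hC0 : 0 ≤ C)
    (hx : ∀ i, x i ∈ A) (hC : ∀ i, ‖x i‖ ≤ C)
    (h0 : Filter.Tendsto (fun i => x i ξ) l (nhds η)) :
    ∃ y ∈ A, y ξ = η ∧ ‖y‖ ≤ C := by
  obtain ⟨y, hy, hyeq, hyC⟩ := exists_op A.commutant (η := η) hC0 hd (by
    intro a ha
    have h1 : Filter.Tendsto (fun i => ‖a (x i ξ)‖) l (nhds ‖a η‖) :=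
      ((a.continuous.tendsto η).comp h0).norm
    refine le_of_tendsto h1 (Filter.Eventually.of_forall fun i => ?_)
    rw [← commute_apply (hx i) ha]
    exact (x i).le_of_opNorm_le (hC i) _)
  rw [VonNeumannAlgebra.commutant_commutant] at hy
  refine ⟨y, hy, ?_, hyC⟩
  have := hyeq 1 (one_mem _)
  simpa using this

/-- Two operators of an algebra that agree on a separating vector are equal. -/
lemma eq_of_dense (A : VonNeumannAlgebra H) {ξ : H}
    (hd : Dense (orb A.commutant ξ : Set H)) {x y : H →L[ℂ] H} (hx : x ∈ A) (hy : y ∈ A)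
    (h : x ξ = y ξ) : x = y := by
  apply ContinuousLinearMap.ext
  intro ζ
  have hcl : IsClosed {z : H | x z = y z} := isClosed_eq x.continuous y.continuous
  have hsub : (orb A.commutant ξ : Set H) ⊆ {z : H | x z = y z} := by
    rintro _ ⟨a, ha, rfl⟩
    change x (a ξ) = y (a ξ)
    rw [commute_apply hx ha, commute_apply hy ha, h]
  exact closure_minimal hsub hcl (hd ζ)

end Pool.Agent.Helper23

end

section

open scoped InnerProductSpace

open ContinuousLinearMap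

namespace Pool.Agent.Helper23

variable {H : Type*} [NormedAddCommGroup H] [InnerProductSpace ℂ H] [CompleteSpace H]

lemma inner_star_left (a : H →L[ℂ] H) (x y : H) : ⟪(star a) x, y⟫_ℂ = ⟪x, a y⟫_ℂ := by
  rw [ContinuousLinearMap.star_eq_adjoint, ContinuousLinearMap.adjoint_inner_left]

lemma inner_star_right (a : H →L[ℂ] H) (x y : H) : ⟪x, (star a) y⟫_ℂ = ⟪a x, y⟫_ℂ := by
  rw [ContinuousLinearMap.star_eq_adjoint, ContinuousLinearMap.adjoint_inner_right]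

lemma norm_sq_apply (a : H →L[ℂ] H) (x : H) : ((‖a x‖ ^ 2 : ℝ) : ℂ) = ⟪x, (star a) (a x)⟫_ℂ := by
  rw [inner_star_right, inner_self_eq_norm_sq_to_K]
  norm_cast

/-- The eigenoperators with eigenvalue `γ` of the vector state given by `ξ` on `N`:
`a ∈ N` with `φ(x a) = γ φ(a x)` for all `x ∈ N`, where `φ(x) = ⟪ξ, x ξ⟫`. -/
def eig (N : VonNeumannAlgebra H) (ξ : H) (γ : ℝ) : Submodule ℂ (H →L[ℂ] H) where
  carrier := {a | a ∈ N ∧ ∀ x ∈ N, ⟪ξ, x (a ξ)⟫_ℂ = γ * ⟪ξ, a (x ξ)⟫_ℂ}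
  add_mem' := by
    rintro a b ⟨ha, ha'⟩ ⟨hb, hb'⟩
    refine ⟨add_mem ha hb, fun x hx => ?_⟩
    simp only [add_apply, map_add, inner_add_right, ha' x hx, hb' x hx]
    ring
  zero_mem' := ⟨zero_mem N, fun x _ => by simp⟩
  smul_mem' := by
    rintro c a ⟨ha, ha'⟩
    refine ⟨smul_mem' c ha, fun x hx => ?_⟩
    simp only [FunLike.coe_smul, Pi.smul_apply, map_smul, inner_smul_right, ha' x hx]
    ring

variable {M N : VonNeumannAlgebra H} {ξ : H} {E : (H →L[ℂ] H) → (H →L[ℂ] H)}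

lemma eig_star {γ : ℝ} (hγ : γ ≠ 0) {a : H →L[ℂ] H} (ha : a ∈ eig N ξ γ) :
    star a ∈ eig N ξ γ⁻¹ := by
  refine ⟨star_mem ha.1, fun x hx => ?_⟩
  have h := ha.2 (star x) (star_mem hx)
  -- h : ⟪ξ, x* a ξ⟫ = γ ⟪ξ, a x* ξ⟫
  rw [inner_star_right] at h
  have h2 : ⟪ξ, a ((star x) ξ)⟫_ℂ = ⟪(star a) ξ, (star x) ξ⟫_ℂ := by rw [inner_star_left]
  rw [h2, inner_star_right] at h
  -- h : ⟪x ξ, a ξ⟫ = γ ⟪x a* ξ, ξ⟫
  have h3 : ⟪ξ, (star a) (x ξ)⟫_ℂ = ⟪a ξ, x ξ⟫_ℂ := inner_star_right _ _ _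
  rw [h3, ← inner_conj_symm, ← inner_conj_symm (a ξ), h]
  have hγ' : (γ : ℂ) ≠ 0 := by exact_mod_cast hγ
  simp only [map_mul, Complex.conj_ofReal, inner_conj_symm]
  push_cast
  field_simp

lemma eig_mul {γ δ : ℝ} {a b : H →L[ℂ] H} (ha : a ∈ eig N ξ γ) (hb : b ∈ eig N ξ δ) :
    a * b ∈ eig N ξ (γ * δ) := by
  refine ⟨mul_mem ha.1 hb.1, fun x hx => ?_⟩
  have h1 := hb.2 (x * a) (mul_mem hx ha.1)
  have h2 := ha.2 (b * x) (mul_mem hb.1 hx)
  change ⟪ξ, x (a (b ξ))⟫_ℂ = _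
  change ⟪ξ, x (a (b ξ))⟫_ℂ = δ * ⟪ξ, b (x (a ξ))⟫_ℂ at h1
  change ⟪ξ, b (x (a ξ))⟫_ℂ = γ * ⟪ξ, a (b (x ξ))⟫_ℂ at h2
  rw [h1, h2]
  change _ = _ * ⟪ξ, a (b (x ξ))⟫_ℂ
  push_cast
  ring

lemma one_mem_eig : (1 : H →L[ℂ] H) ∈ eig N ξ 1 := by
  refine ⟨one_mem N, fun x _ => ?_⟩
  simp

lemma algebraMap_mem_eig (c : ℂ) : algebraMap ℂ (H →L[ℂ] H) c ∈ eig N ξ 1 := by
  rw [Algebra.algebraMap_eq_smul_one]
  exact Submodule.smul_mem _ _ one_mem_eig

/-- The centralizer `N_φ` of the state, as a star subalgebra. -/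
def cent (N : VonNeumannAlgebra H) (ξ : H) : StarSubalgebra ℂ (H →L[ℂ] H) where
  carrier := eig N ξ 1
  mul_mem' := by
    intro a b ha hb
    have := eig_mul ha hb
    rwa [mul_one] at this
  add_mem' := fun ha hb => add_mem ha hb
  algebraMap_mem' := algebraMap_mem_eig
  star_mem' := by
    intro a ha
    have := eig_star one_ne_zero ha
    rwa [inv_one] at this

lemma vN_isClosed (A : VonNeumannAlgebra H) : IsClosed (A : Set (H →L[ℂ] H)) := by
  rw [← A.commutant_commutant, VonNeumannAlgebra.coe_commutant]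
  exact Set.isClosed_centralizer _

lemma eig_isClosed (γ : ℝ) : IsClosed (eig N ξ γ : Set (H →L[ℂ] H)) := by
  have : (eig N ξ γ : Set (H →L[ℂ] H)) = (N : Set (H →L[ℂ] H)) ∩
      ⋂ x ∈ N, {a : H →L[ℂ] H | ⟪ξ, x (a ξ)⟫_ℂ = γ * ⟪ξ, a (x ξ)⟫_ℂ} := by
    ext a
    simp only [Set.mem_inter_iff, Set.mem_iInter]
    rfl
  rw [this]
  refine (vN_isClosed N).inter (isClosed_biInter fun x _ => isClosed_eq ?_ ?_)
  · fun_prop
  · fun_prop

instance instClosedCent : IsClosed (cent N ξ : Set (H →L[ℂ] H)) := eig_isClosed 1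

/-- The basic setting: an inclusion `N ⊆ M` with conditional expectation `E`, represented so that
the state `φ ∘ E` is the vector state of a cyclic and separating unit vector `ξ` for `M`. -/
structure Setting (M N : VonNeumannAlgebra H) (E : (H →L[ℂ] H) → (H →L[ℂ] H)) (ξ : H) :
    Prop where
  le : ∀ x ∈ N, x ∈ M
  norm_one : ‖ξ‖ = 1
  cyc : Dense (orb M ξ : Set H)
  sep : ∀ a ∈ M, a ξ = 0 → a = 0
  E_mem : ∀ x ∈ M, E x ∈ N
  E_bimod : ∀ a ∈ N, ∀ b ∈ N, ∀ x ∈ M, E (a * x * b) = a * E x * b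
  E_fix : ∀ x ∈ N, E x = x
  E_state : ∀ x ∈ M, ⟪ξ, E x ξ⟫_ℂ = ⟪ξ, x ξ⟫_ℂ

namespace Setting

variable (S : Setting M N E ξ)

include S

lemma dense_comm : Dense (orb M.commutant ξ : Set H) := dense_of_separating M ξ S.sep

lemma inner_self : ⟪ξ, ξ⟫_ℂ = 1 := by
  rw [inner_self_eq_norm_sq_to_K, S.norm_one]; simp

lemma E_inner {a b x : H →L[ℂ] H} (ha : a ∈ N) (hb : b ∈ N) (hx : x ∈ M) :
    ⟪a ξ, E x (b ξ)⟫_ℂ = ⟪a ξ, x (b ξ)⟫_ℂ := by
  have h := S.E_state (star a * x * b)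
    (mul_mem (mul_mem (star_mem (S.le a ha)) hx) (S.le b hb))
  rw [S.E_bimod _ (star_mem ha) _ hb _ hx] at h
  change ⟪ξ, (star a) (E x (b ξ))⟫_ℂ = ⟪ξ, (star a) (x (b ξ))⟫_ℂ at h
  rw [inner_star_right, inner_star_right] at h
  exact h

/-- Eigenoperators satisfy the eigenrelation against all of `M`. -/
lemma eigM {γ : ℝ} {a : H →L[ℂ] H} (ha : a ∈ eig N ξ γ) {x : H →L[ℂ] H} (hx : x ∈ M) :
    ⟪ξ, x (a ξ)⟫_ℂ = γ * ⟪ξ, a (x ξ)⟫_ℂ := by
  have h1 := S.E_state (1 * x * a) (mul_mem (mul_mem (one_mem M) hx) (S.le a ha.1))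
  rw [S.E_bimod _ (one_mem N) _ ha.1 _ hx] at h1
  have h2 := S.E_state (a * x * 1) (mul_mem (mul_mem (S.le a ha.1) hx) (one_mem M))
  rw [S.E_bimod _ ha.1 _ (one_mem N) _ hx] at h2
  have h3 := ha.2 (E x) (S.E_mem x hx)
  simp only [one_mul, mul_one] at h1 h2
  change ⟪ξ, E x (a ξ)⟫_ℂ = ⟪ξ, x (a ξ)⟫_ℂ at h1
  change ⟪ξ, a (E x ξ)⟫_ℂ = ⟪ξ, a (x ξ)⟫_ℂ at h2
  rw [← h1, h3, h2]

/-- unitaries of the centralizer act isometrically from the right -/
lemma norm_right_unitary {u y : H →L[ℂ] H} (hu : u ∈ eig N ξ 1) (hu' : u * star u = 1)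
    (hy : y ∈ M) : ‖y (u ξ)‖ = ‖y ξ‖ := by
  have h := S.eigM hu (x := star u * (star y * y))
    (mul_mem (star_mem (S.le u hu.1)) (mul_mem (star_mem hy) hy))
  change ⟪ξ, (star u) ((star y) (y (u ξ)))⟫_ℂ = _ * ⟪ξ, (u * star u) ((star y) (y ξ))⟫_ℂ at h
  rw [hu', inner_star_right, inner_star_right] at h
  simp only [Complex.ofReal_one, one_mul, one_apply_eq_self] at h
  rw [inner_star_right, inner_self_eq_norm_sq_to_K, inner_self_eq_norm_sq_to_K] at h
  have h2 : ‖y (u ξ)‖ ^ 2 = ‖y ξ‖ ^ 2 := by exact_mod_cast h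
  exact (pow_left_inj₀ (norm_nonneg _) (norm_nonneg _) two_ne_zero).1 h2

lemma norm_right_cent {c y : H →L[ℂ] H} (hc : c ∈ eig N ξ 1) (hy : y ∈ M) :
    ‖y (c ξ)‖ ≤ 2 * ‖c‖ * ‖y ξ‖ := by
  obtain ⟨u, k, hk, hkn⟩ := CStarAlgebra.exists_sum_four_unitary (⟨c, hc⟩ : cent N ξ)
  have hc' : c = ∑ i, k i • ((u i : cent N ξ) : H →L[ℂ] H) := by
    have := congrArg (fun z : cent N ξ => (z : H →L[ℂ] H)) hk
    simpa using this
  have hnorm : ∀ i, ‖y (((u i : cent N ξ) : H →L[ℂ] H) ξ)‖ = ‖y ξ‖ := by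
    intro i
    refine S.norm_right_unitary (u i : cent N ξ).2 ?_ hy
    have := Unitary.mul_star_self_of_mem (u i).2
    exact congrArg (fun z : cent N ξ => (z : H →L[ℂ] H)) this
  have e1 : y (c ξ) = ∑ i, k i • y (((u i : cent N ξ) : H →L[ℂ] H) ξ) := by
    rw [hc']
    simp only [sum_apply, FunLike.coe_smul, Pi.smul_apply, map_sum, map_smul]
  have hkn' : ∀ i, ‖k i‖ ≤ ‖c‖ / 2 := hkn
  calc ‖y (c ξ)‖ ≤ ∑ i, ‖k i • y (((u i : cent N ξ) : H →L[ℂ] H) ξ)‖ := by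
        rw [e1]; exact norm_sum_le _ _
    _ ≤ ∑ _i : Fin 4, ‖c‖ / 2 * ‖y ξ‖ := by
        refine Finset.sum_le_sum fun i _ => ?_
        rw [norm_smul, hnorm]
        gcongr
        exact hkn' i
    _ = 2 * ‖c‖ * ‖y ξ‖ := by
        simp only [Finset.sum_const, Finset.card_univ, Fintype.card_fin, nsmul_eq_mul]
        push_cast
        ring

lemma norm_right_eig_sq {γ : ℝ} {a y : H →L[ℂ] H} (ha : a ∈ eig N ξ γ) (hy : y ∈ M) :
    ((‖y (a ξ)‖ ^ 2 : ℝ) : ℂ) = γ * ⟪y ((a * star a) ξ), y ξ⟫_ℂ := by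
  have h := S.eigM ha (x := star a * (star y * y))
    (mul_mem (star_mem (S.le a ha.1)) (mul_mem (star_mem hy) hy))
  change ⟪ξ, (star a) ((star y) (y (a ξ)))⟫_ℂ = _ * ⟪ξ, (a * star a) ((star y) (y ξ))⟫_ℂ at h
  rw [inner_star_right, inner_star_right, inner_self_eq_norm_sq_to_K] at h
  have h3 : ⟪ξ, (a * star a) ((star y) (y ξ))⟫_ℂ = ⟪y ((a * star a) ξ), y ξ⟫_ℂ := by
    rw [← inner_star_left, star_mul, star_star, inner_star_right]
  rw [h3] at h
  push_cast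
  exact h

/-- Right multiplication by an eigenoperator is given by an operator of the commutant of `M`. -/
lemma exists_right {γ : ℝ} (hγ : 0 < γ) {a : H →L[ℂ] H} (ha : a ∈ eig N ξ γ) :
    ∃ a' ∈ M.commutant, ∀ y ∈ M, a' (y ξ) = y (a ξ) := by
  have hc : a * star a ∈ eig N ξ 1 := by
    have := eig_mul ha (eig_star hγ.ne' ha)
    rwa [mul_inv_cancel₀ hγ.ne'] at this
  obtain ⟨a', h1, h2, -⟩ := exists_op M (ξ := ξ) (η := a ξ)
    (C := Real.sqrt (γ * (2 * ‖a * star a‖))) (Real.sqrt_nonneg _) S.cyc (by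
      intro y hy
      have h := S.norm_right_eig_sq ha hy
      have h3 : ‖y (a ξ)‖ ^ 2 ≤ γ * (2 * ‖a * star a‖) * ‖y ξ‖ ^ 2 := by
        have h4 : ‖((‖y (a ξ)‖ ^ 2 : ℝ) : ℂ)‖ ≤ γ * (2 * ‖a * star a‖ * ‖y ξ‖ * ‖y ξ‖) := by
          rw [h, norm_mul, Complex.norm_real, Real.norm_of_nonneg hγ.le]
          gcongr
          exact (norm_inner_le_norm _ _).trans
            (mul_le_mul_of_nonneg_right (S.norm_right_cent hc hy) (norm_nonneg _))
        rw [Complex.norm_real, Real.norm_of_nonneg (by positivity)] at h4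
        linarith
      rw [← Real.sqrt_sq (norm_nonneg (y ξ)), ← Real.sqrt_mul (by positivity)]
      exact Real.le_sqrt_of_sq_le h3)
  exact ⟨a', h1, h2⟩

end Setting

end Pool.Agent.Helper23

end

section

open scoped InnerProductSpace

open ContinuousLinearMap

namespace Pool.Agent.Helper23

variable {H : Type*} [NormedAddCommGroup H] [InnerProductSpace ℂ H] [CompleteSpace H]

variable {M N : VonNeumannAlgebra H} {ξ : H} {E : (H →L[ℂ] H) → (H →L[ℂ] H)}

section Density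

variable {ι : Type*} [Fintype ι] [DecidableEq ι]

/-- Diagonal amplification. -/
noncomputable def diag (ι : Type*) [Fintype ι] (a : H →L[ℂ] H) :
    PiLp 2 (fun _ : ι => H) →L[ℂ] PiLp 2 (fun _ : ι => H) :=
  ((PiLp.continuousLinearEquiv 2 ℂ (fun _ : ι => H)).symm : _ →L[ℂ] _).comp
    (ContinuousLinearMap.pi fun i => a.comp (PiLp.proj 2 (fun _ : ι => H) i))

omit [CompleteSpace H] [DecidableEq ι] in
lemma diag_apply (a : H →L[ℂ] H) (x : PiLp 2 (fun _ : ι => H)) (i : ι) :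
    diag ι a x i = a (x i) := rfl

end Density

end Pool.Agent.Helper23

end

section

open scoped InnerProductSpace TensorProduct

open ContinuousLinearMap

namespace Pool.Agent.Helper23

variable {H : Type*} [NormedAddCommGroup H] [InnerProductSpace ℂ H] [CompleteSpace H]

variable {M N : VonNeumannAlgebra H} {ξ : H} {E : (H →L[ℂ] H) → (H →L[ℂ] H)}

/-- The relative commutant of the centralizer `N_φ` in `M`. -/
noncomputable def Qalg (M N : VonNeumannAlgebra H) (ξ : H) : VonNeumannAlgebra H where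
  toStarSubalgebra := StarSubalgebra.centralizer ℂ
    ((M.commutant : Set (H →L[ℂ] H)) ∪ (eig N ξ 1 : Set (H →L[ℂ] H)))
  centralizer_centralizer' := by simp

lemma mem_Qalg {y : H →L[ℂ] H} :
    y ∈ Qalg M N ξ ↔ y ∈ M ∧ ∀ a ∈ eig N ξ 1, a * y = y * a := by
  have h1 : y ∈ Qalg M N ξ ↔ y ∈ StarSubalgebra.centralizer ℂ
    ((M.commutant : Set (H →L[ℂ] H)) ∪ (eig N ξ 1 : Set (H →L[ℂ] H))) := Iff.rfl
  rw [h1, StarSubalgebra.mem_centralizer_iff]
  constructor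
  · intro h
    refine ⟨mem_iff_commutes.2 fun g hg => (h g (Or.inl hg)).1, fun a ha => (h a (Or.inr ha)).1⟩
  · rintro ⟨h2, h3⟩ g (hg | hg)
    · exact ⟨mem_iff_commutes.1 h2 g hg, mem_iff_commutes.1 h2 _ (star_mem hg)⟩
    · exact ⟨h3 g hg, h3 _ (by
        have := eig_star one_ne_zero hg
        rwa [inv_one] at this)⟩

/-- The centralizer of the state has trivial relative commutant in `N`. -/
def TrivialRelComm (N : VonNeumannAlgebra H) (ξ : H) : Prop :=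
  ∀ x ∈ N, (∀ a ∈ eig N ξ 1, a * x = x * a) → ∃ c : ℂ, x = c • (1 : H →L[ℂ] H)

instance instClosedVN (A : VonNeumannAlgebra H) :
    IsClosed (A.toStarSubalgebra : Set (H →L[ℂ] H)) := vN_isClosed A

namespace Setting

variable (S : Setting M N E ξ) (hirr : TrivialRelComm N ξ)

include S hirr

lemma E_Q {y : H →L[ℂ] H} (hy : y ∈ Qalg M N ξ) :
    E y = ⟪ξ, y ξ⟫_ℂ • (1 : H →L[ℂ] H) := by
  have hy' := mem_Qalg.1 hy
  obtain ⟨c, hc⟩ := hirr (E y) (S.E_mem y hy'.1) (by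
    intro a ha
    have h1 := S.E_bimod a ha.1 1 (one_mem N) y hy'.1
    have h2 := S.E_bimod 1 (one_mem N) a ha.1 y hy'.1
    rw [mul_one, mul_one] at h1
    rw [one_mul, one_mul] at h2
    rw [← h1, ← h2, hy'.2 a ha])
  have h3 := S.E_state y hy'.1
  rw [hc] at h3 ⊢
  rw [← h3, smul_apply, one_apply_eq_self, inner_smul_right, S.inner_self, mul_one]

/-- independence of `Q` and `N` (matrix coefficient form) -/
lemma inner_Q {y a b : H →L[ℂ] H} (hy : y ∈ Qalg M N ξ) (ha : a ∈ N) (hb : b ∈ N) :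
    ⟪a ξ, y (b ξ)⟫_ℂ = ⟪ξ, y ξ⟫_ℂ * ⟪a ξ, b ξ⟫_ℂ := by
  rw [← S.E_inner ha hb (mem_Qalg.1 hy).1, S.E_Q hirr hy, smul_apply, one_apply_eq_self,
    inner_smul_right]

end Setting

end Pool.Agent.Helper23

end

section

open scoped InnerProductSpace

open ContinuousLinearMap

namespace Pool.Agent.Helper23

variable {H : Type*} [NormedAddCommGroup H] [InnerProductSpace ℂ H] [CompleteSpace H]

variable {M N : VonNeumannAlgebra H} {ξ : H} {E : (H →L[ℂ] H) → (H →L[ℂ] H)}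

lemma norm_sq_of_inner {x : H} {r : ℝ} (h : ⟪x, x⟫_ℂ = (r : ℂ)) : ‖x‖ ^ 2 = r := by
  rw [inner_self_eq_norm_sq_to_K] at h
  have h2 : ((‖x‖ ^ 2 : ℝ) : ℂ) = (r : ℂ) := by
    push_cast
    exact h
  exact Complex.ofReal_injective h2

end Pool.Agent.Helper23

end

section

open scoped InnerProductSpace

open ContinuousLinearMap

namespace Pool.Agent.Helper23

variable {H : Type*} [NormedAddCommGroup H] [InnerProductSpace ℂ H] [CompleteSpace H]

variable {M N : VonNeumannAlgebra H} {ξ : H} {E : (H →L[ℂ] H) → (H →L[ℂ] H)}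

/-- the set of eigenvalues -/
def Gam (N : VonNeumannAlgebra H) (ξ : H) : Set ℝ := {γ | 0 < γ ∧ ∃ a ∈ eig N ξ γ, a ≠ 0}

lemma norm_of_isom {u : H →L[ℂ] H} (hu : star u * u = 1) (v : H) : ‖u v‖ = ‖v‖ := by
  have h1 := norm_sq_apply u v
  have h2 : (star u) (u v) = v := congrArg (fun T : H →L[ℂ] H => T v) hu
  rw [h2] at h1
  have h3 := norm_sq_of_inner h1.symm
  exact ((pow_left_inj₀ (norm_nonneg _) (norm_nonneg _) two_ne_zero).1 h3).symm

end Pool.Agent.Helper23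

end

section

open scoped InnerProductSpace

open ContinuousLinearMap Filter

namespace Pool.Agent.Helper23

variable {H : Type*} [NormedAddCommGroup H] [InnerProductSpace ℂ H] [CompleteSpace H]

variable {M N : VonNeumannAlgebra H} {ξ : H} {E : (H →L[ℂ] H) → (H →L[ℂ] H)}

/-- The setting with a state whose centralizer has trivial relative commutant, and with
dense eigenvalues. -/
structure AP (M N : VonNeumannAlgebra H) (E : (H →L[ℂ] H) → (H →L[ℂ] H)) (ξ : H) : Prop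
    extends Setting M N E ξ where
  irr : TrivialRelComm N ξ
  dns : ∀ a b : ℝ, 0 < a → a < b → ∃ γ ∈ Gam N ξ, a < γ ∧ γ < b

end Pool.Agent.Helper23

end

section

open scoped InnerProductSpace

open ContinuousLinearMap Filter

namespace Pool.Agent.Helper23

variable {H : Type*} [NormedAddCommGroup H] [InnerProductSpace ℂ H] [CompleteSpace H]

variable {M N : VonNeumannAlgebra H} {ξ : H} {E : (H →L[ℂ] H) → (H →L[ℂ] H)}

/-- unitaries of the centralizer -/
def Ucent (N : VonNeumannAlgebra H) (ξ : H) : Set (H →L[ℂ] H) :=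
  {u | u ∈ eig N ξ 1 ∧ star u * u = 1 ∧ u * star u = 1}

lemma eig_mul_one {a b : H →L[ℂ] H} (ha : a ∈ eig N ξ 1) (hb : b ∈ eig N ξ 1) :
    a * b ∈ eig N ξ 1 := by
  have := eig_mul ha hb
  rwa [mul_one] at this

lemma one_mem_Ucent : (1 : H →L[ℂ] H) ∈ Ucent N ξ := ⟨one_mem_eig, by simp, by simp⟩

lemma Ucent_mul {u v : H →L[ℂ] H} (hu : u ∈ Ucent N ξ) (hv : v ∈ Ucent N ξ) :
    u * v ∈ Ucent N ξ := by
  refine ⟨eig_mul_one hu.1 hv.1, ?_, ?_⟩
  · rw [star_mul, mul_assoc, ← mul_assoc (star u), hu.2.1, one_mul, hv.2.1]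
  · rw [star_mul, mul_assoc, ← mul_assoc v, hv.2.2, one_mul, hu.2.2]

/-- operators commuting with the unitaries of the centralizer commute with the centralizer. -/
lemma commute_of_Ucent {x : H →L[ℂ] H} (h : ∀ u ∈ Ucent N ξ, u * x = x * u) {a : H →L[ℂ] H}
    (ha : a ∈ eig N ξ 1) : a * x = x * a := by
  obtain ⟨u, k, hk, -⟩ := CStarAlgebra.exists_sum_four_unitary (⟨a, ha⟩ : cent N ξ)
  have ha' : a = ∑ i, k i • ((u i : cent N ξ) : H →L[ℂ] H) := by
    have := congrArg (fun z : cent N ξ => (z : H →L[ℂ] H)) hk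
    simpa using this
  rw [ha', Finset.sum_mul, Finset.mul_sum]
  refine Finset.sum_congr rfl fun i _ => ?_
  rw [smul_mul_assoc, mul_smul_comm, h]
  refine ⟨(u i : cent N ξ).2, ?_, ?_⟩
  · have := Unitary.star_mul_self_of_mem (u i).2
    exact congrArg (fun z : cent N ξ => (z : H →L[ℂ] H)) this
  · have := Unitary.mul_star_self_of_mem (u i).2
    exact congrArg (fun z : cent N ξ => (z : H →L[ℂ] H)) this

namespace Setting

variable (S : Setting M N E ξ)

include S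

/-- the conjugation isometry -/
lemma exists_conj {u : H →L[ℂ] H} (hu : u ∈ Ucent N ξ) :
    ∃ T : H →L[ℂ] H, (∀ y ∈ M, T (y ξ) = (star u * y * u) ξ) ∧ ∀ ζ, ‖T ζ‖ = ‖ζ‖ := by
  obtain ⟨u', hu', h⟩ := S.exists_right one_pos hu.1
  refine ⟨star u * u', fun y hy => ?_, fun ζ => ?_⟩
  · change (star u) (u' (y ξ)) = (star u) (y (u ξ))
    rw [h y hy]
  · have hcl : IsClosed {ζ : H | ‖(star u * u') ζ‖ = ‖ζ‖} :=
      isClosed_eq (by fun_prop) (by fun_prop)
    have hsub : (orb M ξ : Set H) ⊆ {ζ : H | ‖(star u * u') ζ‖ = ‖ζ‖} := by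
      rintro _ ⟨y, hy, rfl⟩
      change ‖(star u) (u' (y ξ))‖ = ‖y ξ‖
      rw [norm_of_isom (by rw [star_star]; exact hu.2.2), h y hy,
        S.norm_right_unitary hu.1 hu.2.2 hy]
    exact closure_minimal hsub hcl (S.cyc ζ)

end Setting

/-- an element of minimal norm of a closed convex hull is fixed by the isometries preserving
the generating set. -/
lemma exists_fixed_min {G : Type*} [NormedAddCommGroup G] [InnerProductSpace ℂ G]
    [CompleteSpace G] (S0 : Set G) (hne : S0.Nonempty) :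
    ∃ η ∈ closure (convexHull ℝ S0), ∀ T : G →L[ℂ] G, (∀ w ∈ S0, T w ∈ S0) →
      (∀ w, ‖T w‖ = ‖w‖) → T η = η := by
  let _ : InnerProductSpace ℝ G := InnerProductSpace.rclikeToReal ℂ G
  set K := closure (convexHull ℝ S0) with hK
  have hKconv : Convex ℝ K := (convex_convexHull ℝ S0).closure
  have hKne : K.Nonempty := by
    obtain ⟨v, hv⟩ := hne
    exact ⟨v, subset_closure (subset_convexHull ℝ S0 hv)⟩
  have hKcomp : IsComplete K := isClosed_closure.isComplete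
  obtain ⟨η, hηK, hη⟩ := exists_norm_eq_iInf_of_complete_convex hKne hKcomp hKconv (0 : G)
  have hmin : ∀ w ∈ K, ‖η‖ ≤ ‖w‖ := by
    intro w hw
    have h1 : ‖(0 : G) - η‖ ≤ ‖(0 : G) - w‖ := by
      rw [hη]
      refine ciInf_le_of_le ⟨0, ?_⟩ (⟨w, hw⟩ : K) le_rfl
      rintro _ ⟨v, rfl⟩
      exact norm_nonneg _
    simpa using h1
  have huniq : ∀ w ∈ K, ‖w‖ = ‖η‖ → w = η := by
    intro w hw hwn
    have hmid : (1 / 2 : ℝ) • w + (1 / 2 : ℝ) • η ∈ K :=
      hKconv hw hηK (by norm_num) (by norm_num) (by norm_num)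
    have h1 := hmin _ hmid
    have h2 := parallelogram_law_with_norm ℝ w η
    have h3 : ‖(1 / 2 : ℝ) • w + (1 / 2 : ℝ) • η‖ = (1 / 2) * ‖w + η‖ := by
      rw [← smul_add, norm_smul]
      norm_num
    rw [h3] at h1
    rw [hwn] at h2
    have h4 : ‖w - η‖ * ‖w - η‖ ≤ 0 := by
      have h5 : 2 * ‖η‖ ≤ ‖w + η‖ := by linarith
      have h6 : (2 * ‖η‖) * (2 * ‖η‖) ≤ ‖w + η‖ * ‖w + η‖ :=
        mul_self_le_mul_self (by positivity) h5
      nlinarith
    have h5 : ‖w - η‖ = 0 := by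
      by_contra hne
      have : 0 < ‖w - η‖ := lt_of_le_of_ne (norm_nonneg _) (Ne.symm hne)
      nlinarith
    exact sub_eq_zero.1 (norm_eq_zero.1 h5)
  refine ⟨η, hηK, fun T hTG hTn => ?_⟩
  have hTK : ∀ w ∈ K, T w ∈ K := by
    have h1 : convexHull ℝ S0 ⊆ T ⁻¹' K := by
      refine convexHull_min (fun w hw => subset_closure (subset_convexHull ℝ S0 (hTG w hw))) ?_
      exact hKconv.linear_preimage (T.restrictScalars ℝ : G →ₗ[ℝ] G)
    exact fun w hw => closure_minimal h1 (isClosed_closure.preimage T.continuous) hw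
  exact huniq _ (hTK η hηK) (hTn η)

lemma Ucent_conj_norm {u : H →L[ℂ] H} (hu : u ∈ Ucent N ξ) (x : H →L[ℂ] H) :
    ‖star u * x * u‖ ≤ ‖x‖ := by
  refine ContinuousLinearMap.opNorm_le_bound _ (norm_nonneg _) fun ζ => ?_
  change ‖(star u) (x (u ζ))‖ ≤ _
  rw [norm_of_isom (by rw [star_star]; exact hu.2.2)]
  refine (x.le_opNorm _).trans ?_
  rw [norm_of_isom hu.2.1]

namespace Setting

variable (S : Setting M N E ξ)

include S

/-- simultaneous averaging of a finite family -/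
theorem exists_hull {ι : Type*} [Fintype ι] (x : ι → H →L[ℂ] H) (hx : ∀ i, x i ∈ M) :
    ∃ y : ι → H →L[ℂ] H, (∀ i, y i ∈ Qalg M N ξ ∧ ‖y i‖ ≤ ‖x i‖ ∧
        ∀ q ∈ Qalg M N ξ, ⟪q ξ, y i ξ⟫_ℂ = ⟪q ξ, x i ξ⟫_ℂ) ∧
      (WithLp.toLp 2 (fun i => y i ξ) : PiLp 2 (fun _ : ι => H)) ∈
        closure (convexHull ℝ {v : PiLp 2 (fun _ : ι => H) | ∃ u ∈ Ucent N ξ,
          v = WithLp.toLp 2 (fun i => (star u * x i * u) ξ)}) := by
  set G0 : Set (PiLp 2 (fun _ : ι => H)) := {v | ∃ u ∈ Ucent N ξ,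
    v = WithLp.toLp 2 (fun i => (star u * x i * u) ξ)} with hG0
  have hG0ne : G0.Nonempty := ⟨_, 1, one_mem_Ucent, rfl⟩
  obtain ⟨η, hηK, hfix⟩ := exists_fixed_min G0 hG0ne
  set K := closure (convexHull ℝ G0) with hK
  have hball : ∀ w ∈ K, ∀ i, ∃ y ∈ M, y ξ = w i ∧ ‖y‖ ≤ ‖x i‖ ∧
      ∀ q ∈ Qalg M N ξ, ⟪q ξ, w i⟫_ℂ = ⟪q ξ, x i ξ⟫_ℂ := by
    set Bl : Set (PiLp 2 (fun _ : ι => H)) := {w | ∀ i, ∃ y ∈ M, y ξ = w i ∧ ‖y‖ ≤ ‖x i‖ ∧
      ∀ q ∈ Qalg M N ξ, ⟪q ξ, w i⟫_ℂ = ⟪q ξ, x i ξ⟫_ℂ} with hBl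
    have hBconv : Convex ℝ Bl := by
      intro w hw w' hw' s t hs ht hst i
      obtain ⟨y, hy, hyw, hyn, hyφ⟩ := hw i
      obtain ⟨y', hy', hyw', hyn', hyφ'⟩ := hw' i
      have e1 : (s • w + t • w') i = (s : ℂ) • w i + (t : ℂ) • w' i := by
        rw [Complex.coe_smul, Complex.coe_smul]; rfl
      refine ⟨(s : ℂ) • y + (t : ℂ) • y', add_mem (smul_mem' _ hy) (smul_mem' _ hy'), ?_, ?_,
        fun q hq => ?_⟩
      · rw [e1, add_apply, smul_apply, smul_apply, hyw, hyw']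
      · calc ‖(s : ℂ) • y + (t : ℂ) • y'‖ ≤ ‖(s : ℂ) • y‖ + ‖(t : ℂ) • y'‖ := norm_add_le _ _
          _ ≤ s * ‖x i‖ + t * ‖x i‖ := by
              rw [norm_smul, norm_smul, Complex.norm_real, Complex.norm_real,
                Real.norm_of_nonneg hs, Real.norm_of_nonneg ht]
              gcongr
          _ = ‖x i‖ := by rw [← add_mul, hst, one_mul]
      · rw [e1, inner_add_right, inner_smul_right, inner_smul_right, hyφ q hq, hyφ' q hq,
          ← add_mul, ← Complex.ofReal_add, hst]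
        simp
    have hBcl : IsClosed Bl := by
      rw [← isSeqClosed_iff_isClosed]
      intro f w hf hfw i
      choose y hy hyf hyn hyφ using fun n => hf n i
      have hproj : Tendsto (fun n => f n i) atTop (nhds (w i)) :=
        ((PiLp.proj (𝕜 := ℂ) 2 (fun _ : ι => H) i).continuous.tendsto w).comp hfw
      have hyf' : Tendsto (fun n => y n ξ) atTop (nhds (w i)) :=
        hproj.congr fun n => (hyf n).symm
      obtain ⟨z, hz, hzw, hzn⟩ := exists_limit M S.dense_comm (norm_nonneg (x i)) hy hyn hyf'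
      refine ⟨z, hz, hzw, hzn, fun q hq => ?_⟩
      have h1 : Tendsto (fun n => ⟪q ξ, f n i⟫_ℂ) atTop (nhds ⟪q ξ, w i⟫_ℂ) :=
        tendsto_const_nhds.inner hproj
      refine tendsto_nhds_unique h1 ?_
      refine tendsto_const_nhds.congr fun n => ?_
      exact (hyφ n q hq).symm
    have hGB : G0 ⊆ Bl := by
      rintro _ ⟨u, hu, rfl⟩ i
      have huM : u ∈ M := S.le u hu.1.1
      refine ⟨star u * x i * u, mul_mem (mul_mem (star_mem huM) (hx i)) huM, rfl,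
        Ucent_conj_norm hu (x i), fun q hq => ?_⟩
      change ⟪q ξ, (star u) (x i (u ξ))⟫_ℂ = _
      obtain ⟨u', hu', h⟩ := S.exists_right one_pos hu.1
      have huξ : u' ξ = u ξ := by
        have := h 1 (one_mem M)
        simpa using this
      have hqM := (mem_Qalg.1 hq).1
      have e1 : u (q ξ) = u' (q ξ) := by
        have := congrArg (fun T : H →L[ℂ] H => T ξ) ((mem_Qalg.1 hq).2 u hu.1)
        change u (q ξ) = q (u ξ) at this
        rw [this, h q hqM]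
      have e2 : x i (u ξ) = u' (x i ξ) := (h _ (hx i)).symm
      have hiso : ∀ ζ, ‖u' ζ‖ = ‖ζ‖ := by
        intro ζ
        have hcl : IsClosed {ζ : H | ‖u' ζ‖ = ‖ζ‖} := isClosed_eq (by fun_prop) (by fun_prop)
        have hsub : (orb M ξ : Set H) ⊆ {ζ : H | ‖u' ζ‖ = ‖ζ‖} := by
          rintro _ ⟨y, hy, rfl⟩
          change ‖u' (y ξ)‖ = ‖y ξ‖
          rw [h y hy, S.norm_right_unitary hu.1 hu.2.2 hy]
        exact closure_minimal hsub hcl (S.cyc ζ)
      rw [inner_star_right, e1, e2]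
      let L : H →ₗᵢ[ℂ] H := ⟨u'.toLinearMap, hiso⟩
      exact L.inner_map_map (q ξ) (x i ξ)
    have hKB : K ⊆ Bl := closure_minimal (convexHull_min hGB hBconv) hBcl
    exact fun w hw => hKB hw
  choose y hy hyη hyn hyq using hball η hηK
  refine ⟨y, fun i => ⟨?_, hyn i, fun q hq => by rw [hyη]; exact hyq i q hq⟩, ?_⟩
  · rw [mem_Qalg]
    refine ⟨hy i, fun a ha => commute_of_Ucent (fun v hv => ?_) ha⟩
    obtain ⟨T, hT, hTn⟩ := S.exists_conj hv
    have h1 := hfix (diag ι T) (by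
      rintro _ ⟨u, hu, rfl⟩
      refine ⟨u * v, Ucent_mul hu hv, ?_⟩
      ext j
      rw [diag_apply]
      have huM : u ∈ M := S.le u hu.1.1
      change T ((star u * x j * u) ξ) = _
      rw [hT _ (mul_mem (mul_mem (star_mem huM) (hx j)) huM)]
      rw [star_mul]
      simp only [mul_assoc]) (by
      intro w
      rw [PiLp.norm_eq_of_L2, PiLp.norm_eq_of_L2]
      congr 1
      refine Finset.sum_congr rfl fun j _ => ?_
      rw [diag_apply, hTn])
    have h2 := congrArg (fun w : PiLp 2 (fun _ : ι => H) => w i) h1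
    change diag ι T η i = η i at h2
    rw [diag_apply, ← hyη i, hT _ (hy i)] at h2
    have hvM : v ∈ M := S.le v hv.1.1
    have h3 : star v * y i * v = y i := eq_of_dense M S.dense_comm
      (mul_mem (mul_mem (star_mem hvM) (hy i)) hvM) (hy i) h2
    calc v * y i = v * (star v * y i * v) := by rw [h3]
      _ = (v * star v) * y i * v := by simp only [mul_assoc]
      _ = y i * v := by rw [hv.2.2, one_mul]
  · have : (WithLp.toLp 2 (fun i => y i ξ) : PiLp 2 (fun _ : ι => H)) = η := by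
      ext i
      exact hyη i
    rw [this]
    exact hηK

end Setting

open Classical in
/-- the conditional expectation onto the relative commutant of the centralizer -/
noncomputable def EQ (M N : VonNeumannAlgebra H) (ξ : H) (x : H →L[ℂ] H) : H →L[ℂ] H :=
  if h : ∃ y ∈ Qalg M N ξ, ‖y‖ ≤ ‖x‖ ∧ ∀ q ∈ Qalg M N ξ, ⟪q ξ, y ξ⟫_ℂ = ⟪q ξ, x ξ⟫_ℂ
  then h.choose else 0

namespace Setting

variable (S : Setting M N E ξ)

include S

lemma EQ_spec {x : H →L[ℂ] H} (hx : x ∈ M) : EQ M N ξ x ∈ Qalg M N ξ ∧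
    ‖EQ M N ξ x‖ ≤ ‖x‖ ∧ ∀ q ∈ Qalg M N ξ, ⟪q ξ, EQ M N ξ x ξ⟫_ℂ = ⟪q ξ, x ξ⟫_ℂ := by
  have h : ∃ y ∈ Qalg M N ξ, ‖y‖ ≤ ‖x‖ ∧ ∀ q ∈ Qalg M N ξ, ⟪q ξ, y ξ⟫_ℂ = ⟪q ξ, x ξ⟫_ℂ := by
    obtain ⟨y, hy, -⟩ := S.exists_hull (ι := Unit) (fun _ => x) (fun _ => hx)
    exact ⟨y (), (hy ()).1, (hy ()).2.1, (hy ()).2.2⟩
  rw [EQ, dif_pos h]
  exact h.choose_spec

lemma EQ_mem {x : H →L[ℂ] H} (hx : x ∈ M) : EQ M N ξ x ∈ Qalg M N ξ := (S.EQ_spec hx).1

lemma EQ_inner {x q : H →L[ℂ] H} (hx : x ∈ M) (hq : q ∈ Qalg M N ξ) :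
    ⟪q ξ, EQ M N ξ x ξ⟫_ℂ = ⟪q ξ, x ξ⟫_ℂ := (S.EQ_spec hx).2.2 q hq

lemma EQ_unique {x y : H →L[ℂ] H} (hx : x ∈ M) (hy : y ∈ Qalg M N ξ)
    (h : ∀ q ∈ Qalg M N ξ, ⟪q ξ, y ξ⟫_ℂ = ⟪q ξ, x ξ⟫_ℂ) : EQ M N ξ x = y := by
  have hd : EQ M N ξ x - y ∈ Qalg M N ξ := sub_mem (S.EQ_mem hx) hy
  have h1 : ⟪(EQ M N ξ x - y) ξ, (EQ M N ξ x - y) ξ⟫_ℂ = 0 := by
    have e1 : (EQ M N ξ x - y) ξ = EQ M N ξ x ξ - y ξ := rfl
    conv_lhs => rw [show ⟪(EQ M N ξ x - y) ξ, (EQ M N ξ x - y) ξ⟫_ℂ =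
      ⟪(EQ M N ξ x - y) ξ, EQ M N ξ x ξ - y ξ⟫_ℂ from rfl]
    rw [inner_sub_right, S.EQ_inner hx hd, h _ hd, sub_self]
  exact sub_eq_zero.1 (S.sep _ (mem_Qalg.1 hd).1 (inner_self_eq_zero.1 h1))

end Setting

end Pool.Agent.Helper23

end

section

open scoped InnerProductSpace Topology BoundedContinuousFunction CompactlySupported

open ContinuousLinearMap Filter MeasureTheory

namespace Pool.Agent.Helper88.CS

open Pool.Agent.Helper23

variable {H : Type*} [NormedAddCommGroup H] [InnerProductSpace ℂ H] [CompleteSpace H]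

variable {A : VonNeumannAlgebra H} {J : H →L[ℝ] H} {κ : H}

namespace Trick1Aux

lemma cfc_mem {X : H →L[ℂ] H} (hX : X ∈ A) (g : ℝ → ℝ) : cfc g X ∈ A := by
  rw [mem_iff_commutes]
  intro b hb
  have h1 : Commute X b := mem_comm_iff.1 hb X hX
  exact ((h1.cfc_real g).eq).symm

end Trick1Aux

end Pool.Agent.Helper88.CS

end
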