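import Pool.Agent.Helper23.FA.Ns

/-!
Parts of Helper23.Conc, Helper23.Acs, Helper23.Bic, Helper23.UDefs, Helper94.LbBicent, Helper23.UDefs2, Helper4.PU.U2, Helper72.UPow.Hup, Helper23.UOc, Helper5.PU.SeqSurj, Helper95.UAvg, Helper4.PU.U10, Helper5.PU.U11, Helper75.UFlow
-/

section

open scoped InnerProductSpace

open ContinuousLinearMap

namespace Pool.Agent.Helper23

variable {H : Type*} [NormedAddCommGroup H] [InnerProductSpace ℂ H] [CompleteSpace H]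

variable {M N : VonNeumannAlgebra H} {ξ : H} {E : (H →L[ℂ] H) → (H →L[ℂ] H)}

/-- `a φ - l φ a` has norm at most `δ` -/
def Defect (N : VonNeumannAlgebra H) (ξ : H) (l δ : ℝ) (a : H →L[ℂ] H) : Prop :=
  ∀ z ∈ N, ‖⟪ξ, z (a ξ)⟫_ℂ - l * ⟪ξ, a (z ξ)⟫_ℂ‖ ≤ δ * ‖z‖

end Pool.Agent.Helper23

end

section

open scoped InnerProductSpace BoundedContinuousFunction

open ContinuousLinearMap Filter

namespace Pool.Agent.Helper23

variable {H : Type*} [NormedAddCommGroup H] [InnerProductSpace ℂ H] [CompleteSpace H]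

variable {M N : VonNeumannAlgebra H} {ξ : H} {E : (H →L[ℂ] H) → (H →L[ℂ] H)}

lemma Defect.mono {l δ δ' : ℝ} {a : H →L[ℂ] H} (h : Defect N ξ l δ a) (hδ : δ ≤ δ') :
    Defect N ξ l δ' a := fun z hz =>
  (h z hz).trans (mul_le_mul_of_nonneg_right hδ (norm_nonneg _))

lemma Defect.add {l δ δ' : ℝ} {a b : H →L[ℂ] H} (h : Defect N ξ l δ a)
    (h' : Defect N ξ l δ' b) : Defect N ξ l (δ + δ') (a + b) := by
  intro z hz
  have e : ⟪ξ, z ((a + b) ξ)⟫_ℂ - l * ⟪ξ, (a + b) (z ξ)⟫_ℂ =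
      (⟪ξ, z (a ξ)⟫_ℂ - l * ⟪ξ, a (z ξ)⟫_ℂ) + (⟪ξ, z (b ξ)⟫_ℂ - l * ⟪ξ, b (z ξ)⟫_ℂ) := by
    rw [add_apply, add_apply, map_add, inner_add_right, inner_add_right]
    ring
  rw [e, add_mul]
  exact (norm_add_le _ _).trans (add_le_add (h z hz) (h' z hz))

lemma Defect.smul {l δ : ℝ} {a : H →L[ℂ] H} (c : ℂ) (h : Defect N ξ l δ a) :
    Defect N ξ l (‖c‖ * δ) (c • a) := by
  intro z hz
  have e : ⟪ξ, z ((c • a) ξ)⟫_ℂ - l * ⟪ξ, (c • a) (z ξ)⟫_ℂ =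
      c * (⟪ξ, z (a ξ)⟫_ℂ - l * ⟪ξ, a (z ξ)⟫_ℂ) := by
    rw [smul_apply, smul_apply, map_smul, inner_smul_right, inner_smul_right]
    ring
  rw [e, norm_mul, mul_assoc]
  exact mul_le_mul_of_nonneg_left (h z hz) (norm_nonneg _)

lemma Defect.mul {l l' δ δ' : ℝ} {a b : H →L[ℂ] H} (ha : a ∈ N) (hb : b ∈ N)
    (h : Defect N ξ l δ a) (h' : Defect N ξ l' δ' b) (hδ : 0 ≤ δ) (hδ' : 0 ≤ δ') :
    Defect N ξ (l * l') (δ' * ‖a‖ + |l'| * (δ * ‖b‖)) (a * b) := by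
  intro z hz
  have e : ⟪ξ, z ((a * b) ξ)⟫_ℂ - (l * l' : ℝ) * ⟪ξ, (a * b) (z ξ)⟫_ℂ =
      (⟪ξ, (z * a) (b ξ)⟫_ℂ - l' * ⟪ξ, b ((z * a) ξ)⟫_ℂ) +
        l' * (⟪ξ, (b * z) (a ξ)⟫_ℂ - l * ⟪ξ, a ((b * z) ξ)⟫_ℂ) := by
    change ⟪ξ, z (a (b ξ))⟫_ℂ - (l * l' : ℝ) * ⟪ξ, a (b (z ξ))⟫_ℂ =
      (⟪ξ, z (a (b ξ))⟫_ℂ - l' * ⟪ξ, b (z (a ξ))⟫_ℂ) +
        l' * (⟪ξ, b (z (a ξ))⟫_ℂ - l * ⟪ξ, a (b (z ξ))⟫_ℂ)
    push_cast
    ring
  rw [e]
  have h1 := h' (z * a) (mul_mem hz ha)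
  have h2 := h (b * z) (mul_mem hb hz)
  calc _ ≤ ‖⟪ξ, (z * a) (b ξ)⟫_ℂ - l' * ⟪ξ, b ((z * a) ξ)⟫_ℂ‖ +
        ‖(l' : ℂ) * (⟪ξ, (b * z) (a ξ)⟫_ℂ - l * ⟪ξ, a ((b * z) ξ)⟫_ℂ)‖ := norm_add_le _ _
    _ ≤ δ' * (‖z‖ * ‖a‖) + |l'| * (δ * (‖b‖ * ‖z‖)) := by
        rw [norm_mul, Complex.norm_real, Real.norm_eq_abs]
        gcongr
        · exact h1.trans (mul_le_mul_of_nonneg_left (norm_mul_le _ _) hδ')
        · exact h2.trans (mul_le_mul_of_nonneg_left (norm_mul_le _ _) hδ)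
    _ = _ := by ring

lemma Defect.change {l l' δ : ℝ} (hξ : ‖ξ‖ = 1) {a : H →L[ℂ] H} (h : Defect N ξ l δ a) :
    Defect N ξ l' (δ + |l - l'| * ‖a‖) a := by
  intro z hz
  have e : ⟪ξ, z (a ξ)⟫_ℂ - l' * ⟪ξ, a (z ξ)⟫_ℂ =
      (⟪ξ, z (a ξ)⟫_ℂ - l * ⟪ξ, a (z ξ)⟫_ℂ) + ((l - l' : ℝ) : ℂ) * ⟪ξ, a (z ξ)⟫_ℂ := by
    push_cast
    ring
  rw [e]
  have h1 : ‖⟪ξ, a (z ξ)⟫_ℂ‖ ≤ ‖a‖ * ‖z‖ := by
    calc ‖⟪ξ, a (z ξ)⟫_ℂ‖ ≤ ‖ξ‖ * ‖a (z ξ)‖ := norm_inner_le_norm _ _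
      _ ≤ 1 * (‖a‖ * (‖z‖ * ‖ξ‖)) := by
          rw [hξ]
          gcongr
          exact (a.le_opNorm _).trans (mul_le_mul_of_nonneg_left (by
            have := z.le_opNorm ξ
            rwa [hξ] at this) (norm_nonneg _))
      _ = ‖a‖ * ‖z‖ := by rw [hξ]; ring
  calc _ ≤ ‖⟪ξ, z (a ξ)⟫_ℂ - l * ⟪ξ, a (z ξ)⟫_ℂ‖ +
        ‖((l - l' : ℝ) : ℂ) * ⟪ξ, a (z ξ)⟫_ℂ‖ := norm_add_le _ _
    _ ≤ δ * ‖z‖ + |l - l'| * (‖a‖ * ‖z‖) := by
        rw [norm_mul, Complex.norm_real, Real.norm_eq_abs]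
        gcongr
        exact h z hz
    _ = _ := by ring

/-- any operator has defect at most twice its norm. -/
lemma Defect.trivial (hξ : ‖ξ‖ = 1) (a : H →L[ℂ] H) : Defect N ξ 1 (2 * ‖a‖) a := by
  intro z _
  have h1 : ‖⟪ξ, a (z ξ)⟫_ℂ‖ ≤ ‖a‖ * ‖z‖ := by
    calc ‖⟪ξ, a (z ξ)⟫_ℂ‖ ≤ ‖ξ‖ * ‖a (z ξ)‖ := norm_inner_le_norm _ _
      _ ≤ 1 * (‖a‖ * (‖z‖ * ‖ξ‖)) := by
          rw [hξ]
          gcongr
          exact (a.le_opNorm _).trans (mul_le_mul_of_nonneg_left (by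
            have := z.le_opNorm ξ
            rwa [hξ] at this) (norm_nonneg _))
      _ = ‖a‖ * ‖z‖ := by rw [hξ]; ring
  have h2 : ‖⟪ξ, z (a ξ)⟫_ℂ‖ ≤ ‖a‖ * ‖z‖ := by
    calc ‖⟪ξ, z (a ξ)⟫_ℂ‖ ≤ ‖ξ‖ * ‖z (a ξ)‖ := norm_inner_le_norm _ _
      _ ≤ 1 * (‖z‖ * (‖a‖ * ‖ξ‖)) := by
          rw [hξ]
          gcongr
          exact (z.le_opNorm _).trans (mul_le_mul_of_nonneg_left (by
            have := a.le_opNorm ξ
            rwa [hξ] at this) (norm_nonneg _))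
      _ = ‖a‖ * ‖z‖ := by rw [hξ]; ring
  rw [Complex.ofReal_one, one_mul]
  calc _ ≤ ‖⟪ξ, z (a ξ)⟫_ℂ‖ + ‖⟪ξ, a (z ξ)⟫_ℂ‖ := norm_sub_le _ _
    _ ≤ _ := by linarith

lemma Defect.one {δ : ℝ} (hδ : 0 ≤ δ) : Defect N ξ 1 δ (1 : H →L[ℂ] H) := by
  intro z _
  simp only [one_apply_eq_self, Complex.ofReal_one, one_mul, sub_self, norm_zero]
  positivity

/-- Sequences with `‖a_n φ - l φ a_n‖ → 0` -/
def Dseq (N : VonNeumannAlgebra H) (ξ : H) (l : ℝ) (a : ℕ → H →L[ℂ] H) : Prop :=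
  ∀ ε : ℝ, 0 < ε → ∀ᶠ n in atTop, Defect N ξ l ε (a n)

lemma Dseq.mul {l l' : ℝ} {a b : ℕ → H →L[ℂ] H} (ha : ∀ n, a n ∈ N) (hb : ∀ n, b n ∈ N)
    {C : ℝ} (hC : ∀ n, ‖a n‖ ≤ C) (hC' : ∀ n, ‖b n‖ ≤ C)
    (h : Dseq N ξ l a) (h' : Dseq N ξ l' b) : Dseq N ξ (l * l') (fun n => a n * b n) := by
  intro ε hε
  have hC0 : 0 ≤ C := (norm_nonneg _).trans (hC 0)
  set t := ε / (C + |l'| * C + 1) with ht
  have hden : 0 < C + |l'| * C + 1 := by positivity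
  have htpos : 0 < t := div_pos hε hden
  filter_upwards [h t htpos, h' t htpos] with n h1 h2
  refine (h1.mul (ha n) (hb n) h2 htpos.le htpos.le).mono ?_
  have e1 : t * ‖a n‖ + |l'| * (t * ‖b n‖) ≤ t * C + |l'| * (t * C) := by
    gcongr
    · exact hC n
    · exact hC' n
  have e2 : t * C + |l'| * (t * C) ≤ t * (C + |l'| * C + 1) := by nlinarith
  have e3 : t * (C + |l'| * C + 1) = ε := by rw [ht]; field_simp
  linarith

lemma Dseq.change (hξ : ‖ξ‖ = 1) {l : ℝ} {l' : ℕ → ℝ} (hl : Tendsto l' atTop (nhds l))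
    {a : ℕ → H →L[ℂ] H} {C : ℝ} (hC : ∀ n, ‖a n‖ ≤ C)
    (h : ∀ ε : ℝ, 0 < ε → ∀ᶠ n in atTop, Defect N ξ (l' n) ε (a n)) : Dseq N ξ l a := by
  intro ε hε
  have hC0 : 0 ≤ C := (norm_nonneg _).trans (hC 0)
  have h1 := (Metric.tendsto_nhds.1 hl) (ε / 2 / (C + 1)) (by positivity)
  filter_upwards [h (ε / 2) (by positivity), h1] with n h2 h3
  refine (h2.change (l' := l) hξ).mono ?_
  rw [Real.dist_eq] at h3
  have h4 : |l' n - l| * ‖a n‖ ≤ ε / 2 / (C + 1) * (C + 1) := by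
    gcongr
    exact (hC n).trans (by linarith)
  rw [div_mul_cancel₀ _ (by positivity)] at h4
  linarith

end Pool.Agent.Helper23

end

section

open scoped InnerProductSpace Topology BoundedContinuousFunction

open ContinuousLinearMap Filter

namespace Pool.Agent.Helper23

variable {H : Type*} [NormedAddCommGroup H] [InnerProductSpace ℂ H] [CompleteSpace H]

variable {M N : VonNeumannAlgebra H} {ξ : H} {E : (H →L[ℂ] H) → (H →L[ℂ] H)}

/-- bounded sequences in `N` with `‖a_n φ - l φ a_n‖ → 0` -/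
def LamSeq (N : VonNeumannAlgebra H) (ξ : H) (l : ℝ) (a : ℕ → H →L[ℂ] H) : Prop :=
  (∀ n, a n ∈ N) ∧ (∃ C : ℝ, ∀ n, ‖a n‖ ≤ C) ∧ Dseq N ξ l a

/-- sequences of unitaries asymptotically commuting with the state -/
def ACU (N : VonNeumannAlgebra H) (ξ : H) (u : ℕ → H →L[ℂ] H) : Prop :=
  (∀ n, u n ∈ N) ∧ (∀ n, star (u n) * u n = 1) ∧ (∀ n, u n * star (u n) = 1) ∧ Dseq N ξ 1 u

/-- the relative bicentralizer -/
def Bicent (M N : VonNeumannAlgebra H) (ξ : H) : Set (H →L[ℂ] H) :=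
  {x | x ∈ M ∧ ∀ a, LamSeq N ξ 1 a → ∀ η,
    Tendsto (fun n => x (a n η) - a n (x η)) atTop (𝓝 0)}

end Pool.Agent.Helper23

end

section

open scoped InnerProductSpace Topology

open ContinuousLinearMap Filter

namespace Pool.Agent.Helper23

variable {H : Type*} [NormedAddCommGroup H] [InnerProductSpace ℂ H] [CompleteSpace H]

variable {K : Type*} [NormedAddCommGroup K] [InnerProductSpace ℂ K] [CompleteSpace K]

/-- the ultrafilter -/
noncomputable def UU : Ultrafilter ℕ := Filter.hyperfilter ℕ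

/-- bounded sequences -/
def Bdd {G : Type*} [NormedAddCommGroup G] (x : ℕ → G) : Prop := ∃ C : ℝ, ∀ n, ‖x n‖ ≤ C

/-- `K` is the ultrapower of the Hilbert space `H`; `mk x` is the class of a bounded sequence. -/
structure HUP (mk : (ℕ → H) → K) : Prop where
  add : ∀ x y : ℕ → H, Bdd x → Bdd y → mk (fun n => x n + y n) = mk x + mk y
  smul : ∀ (c : ℂ) (x : ℕ → H), Bdd x → mk (fun n => c • x n) = c • mk x
  inner : ∀ x y : ℕ → H, Bdd x → Bdd y →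
    Tendsto (fun n => ⟪x n, y n⟫_ℂ) (UU : Filter ℕ) (𝓝 ⟪mk x, mk y⟫_ℂ)
  surj : ∀ v : K, ∃ x : ℕ → H, (∀ n, ‖x n‖ ≤ ‖v‖) ∧ mk x = v

/-- bounded sequences `x` in `M` such that `x ξ` is uniformly close to bounded sequences `r ξ`
with `r` in the commutant of `M` -/
def AppR (M : VonNeumannAlgebra H) (ξ : H) : Set (ℕ → H →L[ℂ] H) :=
  {x | (∀ n, x n ∈ M) ∧ Bdd x ∧ ∀ ε : ℝ, 0 < ε → ∃ r : ℕ → H →L[ℂ] H,
    (∀ n, r n ∈ M.commutant) ∧ Bdd r ∧ ∀ᶠ n in (UU : Filter ℕ), ‖x n ξ - r n ξ‖ ≤ ε}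

/-- the sequences defining the elements of the (Ocneanu) ultrapower of `M` -/
def AppS (M : VonNeumannAlgebra H) (ξ : H) : Set (ℕ → H →L[ℂ] H) :=
  {x | x ∈ AppR M ξ ∧ (fun n => star (x n)) ∈ AppR M ξ}

/-- bounded sequences of `N` which are asymptotic eigenoperators along the ultrafilter -/
def LamU (N : VonNeumannAlgebra H) (ξ : H) (l : ℝ) (a : ℕ → H →L[ℂ] H) : Prop :=
  (∀ n, a n ∈ N) ∧ Bdd a ∧ ∀ ε : ℝ, 0 < ε → ∀ᶠ n in (UU : Filter ℕ), Defect N ξ l ε (a n)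

/-- the relative bicentralizer flow -/
noncomputable def btU (M N : VonNeumannAlgebra H) (ξ : H) (l : ℝ) (x : H →L[ℂ] H) :
    H →L[ℂ] H :=
  open Classical in
  if h : ∃ y ∈ Bicent M N ξ, ∀ a, LamSeq N ξ l a →
    Tendsto (fun n => a n (x ξ) - y (a n ξ)) atTop (𝓝 0) then h.choose else 0

end Pool.Agent.Helper23

end

section

open scoped InnerProductSpace Topology

open ContinuousLinearMap Filter

namespace Pool.Agent.Helper23

variable {H : Type*} [NormedAddCommGroup H] [InnerProductSpace ℂ H] [CompleteSpace H]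

variable {M N : VonNeumannAlgebra H} {ξ : H} {E : (H →L[ℂ] H) → (H →L[ℂ] H)}

/-- STEP 0: a modulus of almost commutation on the unit ball. -/
lemma bicent_modulus (hξ : ‖ξ‖ = 1) {y : H →L[ℂ] H} (hy : y ∈ Bicent M N ξ) {k0 : ℝ}
    (hk0 : 0 < k0) : ∃ K0 : ℝ, 0 ≤ K0 ∧ ∀ T ∈ N, ‖T‖ ≤ 1 → ∀ d : ℝ, 0 ≤ d → Defect N ξ 1 d T →
      ‖(y * T - T * y) ξ‖ ^ 2 ≤ k0 + K0 * d ^ 2 := by
  have h1 : ∃ d0 : ℝ, 0 < d0 ∧ ∀ T ∈ N, ‖T‖ ≤ 1 → Defect N ξ 1 d0 T →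
      ‖(y * T - T * y) ξ‖ ^ 2 ≤ k0 := by
    by_contra hcon
    push Not at hcon
    choose T hT using fun n : ℕ => hcon (1 / ((n : ℝ) + 1)) (by positivity)
    have hL : LamSeq N ξ 1 T := by
      refine ⟨fun n => (hT n).1, ⟨1, fun n => (hT n).2.1⟩, fun ε hε => ?_⟩
      have h2 := tendsto_one_div_add_atTop_nhds_zero_nat (𝕜 := ℝ)
      filter_upwards [h2.eventually (gt_mem_nhds hε)] with n hn
      exact (hT n).2.2.1.mono hn.le
    have h3 := ((hy.2 T hL ξ).norm.pow 2)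
    rw [norm_zero, zero_pow two_ne_zero] at h3
    have h4 : ∀ᶠ n in atTop, ‖y (T n ξ) - T n (y ξ)‖ ^ 2 < k0 := h3.eventually (gt_mem_nhds hk0)
    obtain ⟨n, hn⟩ := h4.exists
    exact absurd (hT n).2.2.2 (not_lt.2 hn.le)
  obtain ⟨d0, hd0, h2⟩ := h1
  refine ⟨4 * ‖y‖ ^ 2 / d0 ^ 2, by positivity, fun T hT hT1 d hd hD => ?_⟩
  by_cases h : d ≤ d0
  · have := h2 T hT hT1 (hD.mono h)
    have h3 : 0 ≤ 4 * ‖y‖ ^ 2 / d0 ^ 2 * d ^ 2 := by positivity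
    linarith
  · push Not at h
    have h3 : ‖(y * T - T * y) ξ‖ ≤ 2 * ‖y‖ := by
      have h4 : ‖y * T - T * y‖ ≤ 2 * ‖y‖ := by
        refine (norm_sub_le _ _).trans ?_
        have h5 := norm_mul_le y T
        have h6 := norm_mul_le T y
        have h7 := norm_nonneg y
        nlinarith
      have := (y * T - T * y).le_of_opNorm_le h4 ξ
      rwa [hξ, mul_one] at this
    have h4 : ‖(y * T - T * y) ξ‖ ^ 2 ≤ (2 * ‖y‖) ^ 2 := by gcongr
    have h5 : 4 * ‖y‖ ^ 2 / d0 ^ 2 * d0 ^ 2 ≤ 4 * ‖y‖ ^ 2 / d0 ^ 2 * d ^ 2 := by gcongr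
    rw [div_mul_cancel₀ _ (by positivity)] at h5
    nlinarith

end Pool.Agent.Helper23

end

section

open scoped InnerProductSpace Topology

open ContinuousLinearMap Filter

namespace Pool.Agent.Helper23

variable {H : Type*} [NormedAddCommGroup H] [InnerProductSpace ℂ H] [CompleteSpace H]

variable {K : Type*} [NormedAddCommGroup K] [InnerProductSpace ℂ K] [CompleteSpace K]

/-- `P` is an algebra of bounded sequences in `A`, closed in the sense of `closed`, and `rep` is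
a representation of `P` with `‖rep x ζ‖ = lim ‖x n ξ‖`. -/
structure SeqRep (A : VonNeumannAlgebra H) (P : Set (ℕ → H →L[ℂ] H)) (ξ : H) (ζ : K)
    (rep : (ℕ → H →L[ℂ] H) → (K →L[ℂ] K)) : Prop where
  memA : ∀ x ∈ P, ∀ n, x n ∈ A
  bdd : ∀ x ∈ P, Bdd x
  add : ∀ x ∈ P, ∀ y ∈ P, (fun n => x n + y n) ∈ P ∧ rep (fun n => x n + y n) = rep x + rep y
  smul : ∀ c : ℂ, ∀ x ∈ P, (fun n => c • x n) ∈ P ∧ rep (fun n => c • x n) = c • rep x
  mul : ∀ x ∈ P, ∀ y ∈ P, (fun n => x n * y n) ∈ P ∧ rep (fun n => x n * y n) = rep x * rep y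
  star_mem : ∀ x ∈ P, (fun n => star (x n)) ∈ P ∧ rep (fun n => star (x n)) = star (rep x)
  one : (fun _ => (1 : H →L[ℂ] H)) ∈ P ∧ rep (fun _ => 1) = 1
  norm : ∀ x ∈ P, Tendsto (fun n => ‖x n ξ‖) (UU : Filter ℕ) (𝓝 ‖rep x ζ‖)
  opNorm : ∀ x ∈ P, ∀ C : ℝ, (∀ n, ‖x n‖ ≤ C) → ‖rep x‖ ≤ C
  closed : ∀ x : ℕ → H →L[ℂ] H, (∀ n, x n ∈ A) → Bdd x →
    (∀ ε : ℝ, 0 < ε → ∃ y ∈ P, ∀ᶠ n in (UU : Filter ℕ), ‖x n ξ - y n ξ‖ ≤ ε ∧
      ‖(star (x n)) ξ - (star (y n)) ξ‖ ≤ ε) → x ∈ P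

end Pool.Agent.Helper23

end

section

open scoped InnerProductSpace Topology

open ContinuousLinearMap Filter

namespace Pool.Agent.Helper23

universe u

variable {H : Type u} [NormedAddCommGroup H] [InnerProductSpace ℂ H] [CompleteSpace H]

variable {M N : VonNeumannAlgebra H} {ξ : H} {E : (H →L[ℂ] H) → (H →L[ℂ] H)}

section U2

lemma U2.bdd_nonneg {G : Type*} [NormedAddCommGroup G] {x : ℕ → G} (h : Bdd x) :
    ∃ C : ℝ, 0 ≤ C ∧ ∀ n, ‖x n‖ ≤ C := by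
  obtain ⟨C, hC⟩ := h
  exact ⟨C, (norm_nonneg _).trans (hC 0), hC⟩

theorem AppR_add {x y : ℕ → H →L[ℂ] H} (hx : x ∈ AppR M ξ) (hy : y ∈ AppR M ξ) :
    (fun n => x n + y n) ∈ AppR M ξ := by
  obtain ⟨hxM, ⟨C, hC⟩, hx⟩ := hx
  obtain ⟨hyM, ⟨D, hD⟩, hy⟩ := hy
  refine ⟨fun n => add_mem (hxM n) (hyM n), ⟨C + D, fun n => ?_⟩, fun ε hε => ?_⟩
  · exact (norm_add_le _ _).trans (add_le_add (hC n) (hD n))
  · obtain ⟨r, hr, ⟨A, hA⟩, h1⟩ := hx (ε / 2) (by positivity)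
    obtain ⟨s, hs, ⟨B, hB⟩, h2⟩ := hy (ε / 2) (by positivity)
    refine ⟨fun n => r n + s n, fun n => add_mem (hr n) (hs n),
      ⟨A + B, fun n => (norm_add_le _ _).trans (add_le_add (hA n) (hB n))⟩, ?_⟩
    filter_upwards [h1, h2] with n h3 h4
    have e1 : (x n + y n) ξ - (r n + s n) ξ = (x n ξ - r n ξ) + (y n ξ - s n ξ) := by
      rw [add_apply, add_apply]; abel
    rw [e1]
    linarith [norm_add_le (x n ξ - r n ξ) (y n ξ - s n ξ)]

end U2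

end Pool.Agent.Helper23

end

section

open scoped InnerProductSpace Topology

open ContinuousLinearMap Filter

namespace Pool.Agent.Helper23

universe u

section lims

theorem UU_neBot : (UU : Filter ℕ).NeBot := UU.neBot

end lims

section bdd

variable {G : Type*} [NormedAddCommGroup G]

theorem Bdd.add {x y : ℕ → G} (hx : Bdd x) (hy : Bdd y) : Bdd (fun n => x n + y n) := by
  obtain ⟨C, hC⟩ := hx
  obtain ⟨D, hD⟩ := hy
  exact ⟨C + D, fun n => (norm_add_le _ _).trans (add_le_add (hC n) (hD n))⟩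

theorem Bdd.sub {x y : ℕ → G} (hx : Bdd x) (hy : Bdd y) : Bdd (fun n => x n - y n) := by
  obtain ⟨C, hC⟩ := hx
  obtain ⟨D, hD⟩ := hy
  exact ⟨C + D, fun n => (norm_sub_le _ _).trans (add_le_add (hC n) (hD n))⟩

theorem Bdd.smul {𝕜 : Type*} [NormedField 𝕜] [NormedSpace 𝕜 G] (c : 𝕜) {x : ℕ → G} (hx : Bdd x) :
    Bdd (fun n => c • x n) := by
  obtain ⟨C, hC⟩ := hx
  exact ⟨‖c‖ * C, fun n => by
    rw [norm_smul]; exact mul_le_mul_of_nonneg_left (hC n) (norm_nonneg _)⟩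

theorem Bdd.app {H : Type*} [NormedAddCommGroup H] [InnerProductSpace ℂ H] {a : ℕ → H →L[ℂ] H}
    {x : ℕ → H} (ha : Bdd a) (hx : Bdd x) : Bdd (fun n => a n (x n)) := by
  obtain ⟨C, hC⟩ := ha
  obtain ⟨D, hD⟩ := hx
  refine ⟨C * D, fun n => ((a n).le_opNorm _).trans ?_⟩
  exact mul_le_mul (hC n) (hD n) (norm_nonneg _) ((norm_nonneg _).trans (hC n))

end bdd

section BSeq

variable (H : Type u) [NormedAddCommGroup H] [InnerProductSpace ℂ H]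

variable {H}

theorem norm_tendsto_of_inner {H K : Type*} [NormedAddCommGroup H] [InnerProductSpace ℂ H]
    [SeminormedAddCommGroup K] [InnerProductSpace ℂ K] {x : ℕ → H} {v : K}
    (h : Tendsto (fun n => ⟪x n, x n⟫_ℂ) (UU : Filter ℕ) (𝓝 ⟪v, v⟫_ℂ)) :
    Tendsto (fun n => ‖x n‖) (UU : Filter ℕ) (𝓝 ‖v‖) := by
  have h1 := (Complex.continuous_re.tendsto _).comp h
  have h2 := (Real.continuous_sqrt.tendsto _).comp h1
  have e1 : Real.sqrt (Complex.re ⟪v, v⟫_ℂ) = ‖v‖ := (norm_eq_sqrt_re_inner (𝕜 := ℂ) v).symm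
  rw [e1] at h2
  refine h2.congr fun n => ?_
  exact (norm_eq_sqrt_re_inner (𝕜 := ℂ) (x n)).symm

end BSeq

variable {H : Type u} [NormedAddCommGroup H] [InnerProductSpace ℂ H] [CompleteSpace H]

variable {K : Type u} [NormedAddCommGroup K] [InnerProductSpace ℂ K] [CompleteSpace K]

namespace HUP

variable {mk : (ℕ → H) → K} (h : HUP mk)

include h

theorem norm_tendsto {x : ℕ → H} (hx : Bdd x) :
    Tendsto (fun n => ‖x n‖) (UU : Filter ℕ) (𝓝 ‖mk x‖) :=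
  norm_tendsto_of_inner (h.inner x x hx hx)

theorem mk_sub {x y : ℕ → H} (hx : Bdd x) (hy : Bdd y) :
    mk (fun n => x n - y n) = mk x - mk y := by
  have h1 := h.smul (-1) y hy
  have h2 := h.add x (fun n => (-1 : ℂ) • y n) hx (hy.smul _)
  rw [h1] at h2
  simp only [neg_smul, one_smul, ← sub_eq_add_neg] at h2
  exact h2

theorem mk_eq {x y : ℕ → H} (hx : Bdd x) (hy : Bdd y) :
    mk x = mk y ↔ Tendsto (fun n => ‖x n - y n‖) (UU : Filter ℕ) (𝓝 0) := by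
  have := UU_neBot
  have h1 := h.norm_tendsto (hx.sub hy)
  rw [h.mk_sub hx hy] at h1
  constructor
  · intro h2
    rw [h2, sub_self, norm_zero] at h1
    exact h1
  · intro h2
    have := tendsto_nhds_unique h1 h2
    rwa [norm_eq_zero, sub_eq_zero] at this

/-- the class of `a x` depends only on the class of `x` -/
theorem mk_app_eq {a : ℕ → H →L[ℂ] H} (ha : Bdd a) {x y : ℕ → H} (hx : Bdd x) (hy : Bdd y)
    (hxy : mk x = mk y) : mk (fun n => a n (x n)) = mk (fun n => a n (y n)) := by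
  rw [h.mk_eq (ha.app hx) (ha.app hy)]
  rw [h.mk_eq hx hy] at hxy
  obtain ⟨C, hC⟩ := ha
  have h2 := hxy.const_mul C
  rw [mul_zero] at h2
  refine squeeze_zero (fun n => norm_nonneg _) (fun n => ?_) h2
  rw [← map_sub]
  exact ((a n).le_opNorm _).trans (mul_le_mul_of_nonneg_right (hC n) (norm_nonneg _))

/-- norm bound -/
theorem norm_mk_le {x : ℕ → H} {C : ℝ} (hx : ∀ n, ‖x n‖ ≤ C) : ‖mk x‖ ≤ C := by
  have := UU_neBot
  exact le_of_tendsto (h.norm_tendsto ⟨C, hx⟩) (Filter.Eventually.of_forall hx)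

theorem exists_op {a : ℕ → H →L[ℂ] H} (ha : Bdd a) :
    ∃ T : K →L[ℂ] K, ∀ x, Bdd x → T (mk x) = mk (fun n => a n (x n)) := by
  obtain ⟨C, hC⟩ := id ha
  have hC0 : 0 ≤ C := (norm_nonneg _).trans (hC 0)
  choose s hs1 hs2 using h.surj
  have hsb : ∀ v, Bdd (s v) := fun v => ⟨_, hs1 v⟩
  have key : ∀ x, Bdd x → mk (fun n => a n (s (mk x) n)) = mk (fun n => a n (x n)) :=
    fun x hx => h.mk_app_eq ha (hsb _) hx (hs2 _)
  let L : K →ₗ[ℂ] K :=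
    { toFun := fun v => mk (fun n => a n (s v n))
      map_add' := fun v w => by
        have e1 : mk (fun n => s v n + s w n) = v + w := by
          rw [h.add _ _ (hsb v) (hsb w), hs2, hs2]
        have e2 := key _ ((hsb v).add (hsb w))
        rw [e1] at e2
        rw [e2, ← h.add _ _ (ha.app (hsb v)) (ha.app (hsb w))]
        simp only [map_add]
      map_smul' := fun c v => by
        have e1 : mk (fun n => c • s v n) = c • v := by
          rw [h.smul _ _ (hsb v), hs2]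
        have e2 := key _ ((hsb v).smul c)
        rw [e1] at e2
        rw [e2, RingHom.id_apply, ← h.smul _ _ (ha.app (hsb v))]
        simp only [map_smul] }
  refine ⟨L.mkContinuous C fun v => ?_, fun x hx => key x hx⟩
  exact h.norm_mk_le fun n => ((a n).le_opNorm _).trans
    (mul_le_mul (hC n) (hs1 v n) (norm_nonneg _) hC0)

end HUP

end Pool.Agent.Helper23

end

section

open scoped InnerProductSpace Topology

open ContinuousLinearMap Filter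

namespace Pool.Agent.Helper23

universe u

variable {H : Type u} [NormedAddCommGroup H] [InnerProductSpace ℂ H] [CompleteSpace H]

variable {L : Type u} [NormedAddCommGroup L] [InnerProductSpace ℂ L] [CompleteSpace L]

variable {K : Type u} [NormedAddCommGroup K] [InnerProductSpace ℂ K] [CompleteSpace K]

variable {M N A : VonNeumannAlgebra H} {ξ : H} {E : (H →L[ℂ] H) → (H →L[ℂ] H)}

section AppS

lemma ocS_add {x y : ℕ → H →L[ℂ] H} (hx : x ∈ AppS M ξ) (hy : y ∈ AppS M ξ) :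
    (fun n => x n + y n) ∈ AppS M ξ := by
  refine ⟨AppR_add hx.1 hy.1, ?_⟩
  have h := AppR_add hx.2 hy.2
  have e : (fun n => star (x n) + star (y n)) = fun n => star (x n + y n) := by
    funext n; rw [star_add]
  rwa [e] at h

lemma ocS_bdd {x : ℕ → H →L[ℂ] H} (hx : x ∈ AppS M ξ) : Bdd x := hx.1.2.1

lemma ocB_const {G : Type*} [NormedAddCommGroup G] (v : G) : Bdd (fun _ : ℕ => v) :=
  ⟨‖v‖, fun _ => le_rfl⟩

lemma ocB_app {x : ℕ → H →L[ℂ] H} (hx : Bdd x) (v : H) : Bdd (fun n => x n v) :=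
  hx.app (ocB_const v)

end AppS

/-- the space of the ultrapower -/
def Vs (M : VonNeumannAlgebra H) (ξ : H) (mk : (ℕ → H) → L) : Submodule ℂ L :=
  (Submodule.span ℂ {v | ∃ x ∈ AppS M ξ, v = mk fun n => x n ξ}).topologicalClosure

namespace HUP

variable {mk : (ℕ → H) → L} (h : HUP mk)

lemma mem_Vs {x : ℕ → H →L[ℂ] H} (hx : x ∈ AppS M ξ) : (mk fun n => x n ξ) ∈ Vs M ξ mk :=
  Submodule.le_topologicalClosure _ (Submodule.subset_span ⟨x, hx, rfl⟩)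

end HUP

end Pool.Agent.Helper23

end

section

open scoped InnerProductSpace Topology

open ContinuousLinearMap Filter

namespace Pool.Agent.Helper23

universe u

variable {H : Type u} [NormedAddCommGroup H] [InnerProductSpace ℂ H] [CompleteSpace H]

variable {K : Type u} [NormedAddCommGroup K] [InnerProductSpace ℂ K] [CompleteSpace K]

variable {A : VonNeumannAlgebra H} {P : Set (ℕ → H →L[ℂ] H)} {ξ : H} {ζ : K}
  {rep : (ℕ → H →L[ℂ] H) → (K →L[ℂ] K)}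

namespace SeqRep

lemma pow_mem (h : SeqRep A P ξ ζ rep) {x : ℕ → H →L[ℂ] H} (hx : x ∈ P) (k : ℕ) :
    (fun n => x n ^ k) ∈ P ∧ rep (fun n => x n ^ k) = rep x ^ k := by
  induction k with
  | zero => simpa using h.one
  | succ k ih =>
    have h1 := h.mul _ ih.1 x hx
    rw [ih.2] at h1
    simpa [pow_succ] using h1

lemma aeval_mem (h : SeqRep A P ξ ζ rep) {x : ℕ → H →L[ℂ] H} (hx : x ∈ P) (p : Polynomial ℂ) :
    (fun n => Polynomial.aeval (x n) p) ∈ P ∧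
      rep (fun n => Polynomial.aeval (x n) p) = Polynomial.aeval (rep x) p := by
  induction p using Polynomial.induction_on' with
  | add p q hp hq =>
    have h1 := h.add _ hp.1 _ hq.1
    rw [hp.2, hq.2] at h1
    simpa using h1
  | monomial k a =>
    have h1 := h.pow_mem hx k
    have h2 := h.smul a _ h1.1
    rw [h1.2] at h2
    simpa [Polynomial.aeval_monomial, Algebra.smul_def] using h2

lemma sub_mem (h : SeqRep A P ξ ζ rep) {x y : ℕ → H →L[ℂ] H} (hx : x ∈ P) (hy : y ∈ P) :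
    (fun n => x n - y n) ∈ P ∧ rep (fun n => x n - y n) = rep x - rep y := by
  have h1 := h.smul (-1) y hy
  have h2 := h.add x hx _ h1.1
  rw [h1.2] at h2
  have e : (fun n => x n + (-1 : ℂ) • y n) = fun n => x n - y n := by
    funext n; rw [neg_one_smul, sub_eq_add_neg]
  rw [e, neg_one_smul, ← sub_eq_add_neg] at h2
  exact h2

end SeqRep

/-- the image of a representation of sequences as a star subalgebra -/
noncomputable def SeqRep.alg (h : SeqRep A P ξ ζ rep) : StarSubalgebra ℂ (K →L[ℂ] K) where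
  carrier := rep '' P
  mul_mem' := by
    rintro _ _ ⟨x, hx, rfl⟩ ⟨y, hy, rfl⟩
    exact ⟨_, (h.mul x hx y hy).1, (h.mul x hx y hy).2⟩
  one_mem' := ⟨_, h.one.1, h.one.2⟩
  add_mem' := by
    rintro _ _ ⟨x, hx, rfl⟩ ⟨y, hy, rfl⟩
    exact ⟨_, (h.add x hx y hy).1, (h.add x hx y hy).2⟩
  zero_mem' := ⟨_, (h.smul 0 _ h.one.1).1, by rw [(h.smul 0 _ h.one.1).2, zero_smul]⟩
  algebraMap_mem' := fun c => ⟨_, (h.smul c _ h.one.1).1, by
    rw [(h.smul c _ h.one.1).2, h.one.2, Algebra.algebraMap_eq_smul_one]⟩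
  star_mem' := by
    rintro _ ⟨x, hx, rfl⟩
    exact ⟨_, (h.star_mem x hx).1, (h.star_mem x hx).2⟩

end Pool.Agent.Helper23

end

section

open scoped InnerProductSpace Topology

open ContinuousLinearMap Filter

namespace Pool.Agent.Helper23

universe u

variable {H : Type u} [NormedAddCommGroup H] [InnerProductSpace ℂ H] [CompleteSpace H]

variable {M N : VonNeumannAlgebra H} {ξ : H} {E : (H →L[ℂ] H) → (H →L[ℂ] H)}

/-- conjugates of `x` by unitaries of `N` of small defect -/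
def avG (N : VonNeumannAlgebra H) (ξ : H) (x : H →L[ℂ] H) (d : ℝ) : Set (H →L[ℂ] H) :=
  {z | ∃ u ∈ N, star u * u = 1 ∧ u * star u = 1 ∧ Defect N ξ 1 d u ∧ z = star u * x * u}

/-- convex hull of the conjugates -/
def avK (N : VonNeumannAlgebra H) (ξ : H) (x : H →L[ℂ] H) (d : ℝ) : Set (H →L[ℂ] H) :=
  convexHull ℝ (avG N ξ x d)

lemma avK_mono {x : H →L[ℂ] H} {d d' : ℝ} (h : d ≤ d') : avK N ξ x d ⊆ avK N ξ x d' := by
  refine convexHull_mono ?_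
  rintro z ⟨u, hu, h1, h2, h3, rfl⟩
  exact ⟨u, hu, h1, h2, h3.mono h, rfl⟩

lemma self_mem_avK {x : H →L[ℂ] H} {d : ℝ} (hd : 0 ≤ d) : x ∈ avK N ξ x d :=
  subset_convexHull _ _ ⟨1, one_mem N, by simp, by simp, Defect.one hd, by simp⟩

/-- minimal norm -/
noncomputable def avm (N : VonNeumannAlgebra H) (ξ : H) (x : H →L[ℂ] H) (d : ℝ) : ℝ :=
  sInf ((fun z : H →L[ℂ] H => ‖z ξ‖) '' avK N ξ x d)

lemma avm_bdd (x : H →L[ℂ] H) (d : ℝ) :
    BddBelow ((fun z : H →L[ℂ] H => ‖z ξ‖) '' avK N ξ x d) :=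
  ⟨0, by rintro _ ⟨z, _, rfl⟩; exact norm_nonneg _⟩

lemma avm_le {x z : H →L[ℂ] H} {d : ℝ} (hz : z ∈ avK N ξ x d) : avm N ξ x d ≤ ‖z ξ‖ :=
  csInf_le (avm_bdd x d) ⟨z, hz, rfl⟩

lemma avm_nonneg (x : H →L[ℂ] H) (d : ℝ) : 0 ≤ avm N ξ x d :=
  Real.sInf_nonneg (by rintro _ ⟨z, _, rfl⟩; exact norm_nonneg _)

lemma avm_exists {x : H →L[ℂ] H} {d : ℝ} (hd : 0 ≤ d) {ε : ℝ} (hε : 0 < ε) :
    ∃ z ∈ avK N ξ x d, ‖z ξ‖ < avm N ξ x d + ε := by
  have hne : ((fun z : H →L[ℂ] H => ‖z ξ‖) '' avK N ξ x d).Nonempty :=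
    ⟨_, x, self_mem_avK hd, rfl⟩
  obtain ⟨_, ⟨z, hz, rfl⟩, h⟩ := exists_lt_of_csInf_lt hne
    (lt_add_of_pos_right (avm N ξ x d) hε)
  exact ⟨z, hz, h⟩

lemma avm_anti {x : H →L[ℂ] H} {d d' : ℝ} (hd : 0 ≤ d) (h : d ≤ d') :
    avm N ξ x d' ≤ avm N ξ x d :=
  csInf_le_csInf (avm_bdd x d') ⟨_, x, self_mem_avK hd, rfl⟩ (Set.image_mono (avK_mono h))

lemma avK_par {x z z' : H →L[ℂ] H} {d : ℝ} (hz : z ∈ avK N ξ x d) (hz' : z' ∈ avK N ξ x d) :
    ‖z ξ - z' ξ‖ ^ 2 ≤ 2 * ‖z ξ‖ ^ 2 + 2 * ‖z' ξ‖ ^ 2 - 4 * avm N ξ x d ^ 2 := by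
  have hmid : (1 / 2 : ℝ) • z + (1 / 2 : ℝ) • z' ∈ avK N ξ x d :=
    convex_convexHull ℝ _ hz hz' (by norm_num) (by norm_num) (by norm_num)
  have h1 := avm_le (ξ := ξ) hmid
  have h2 : ((1 / 2 : ℝ) • z + (1 / 2 : ℝ) • z') ξ = (1 / 2 : ℝ) • (z ξ + z' ξ) := by
    change (1 / 2 : ℝ) • z ξ + (1 / 2 : ℝ) • z' ξ = _
    rw [smul_add]
  rw [h2, norm_smul, Real.norm_of_nonneg (by norm_num)] at h1
  have h3 := parallelogram_law_with_norm ℂ (z ξ) (z' ξ)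
  have h4 := avm_nonneg (N := N) (ξ := ξ) x d
  have h5 : avm N ξ x d ^ 2 ≤ (1 / 2 * ‖z ξ + z' ξ‖) ^ 2 := by gcongr
  nlinarith

lemma avK_half {x z : H →L[ℂ] H} {d : ℝ} (w w' : H) {c : ℝ}
    (h : ∀ u ∈ N, star u * u = 1 → u * star u = 1 → Defect N ξ 1 d u →
      c ≤ (⟪w, (star u * x * u) w'⟫_ℂ).re) (hz : z ∈ avK N ξ x d) :
    c ≤ (⟪w, z w'⟫_ℂ).re := by
  have hconv : Convex ℝ {z : H →L[ℂ] H | c ≤ (⟪w, z w'⟫_ℂ).re} := by
    intro a ha b hb s t hs ht hst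
    change c ≤ (⟪w, (s • a + t • b) w'⟫_ℂ).re
    have e2 : (s • a + t • b) w' = (s : ℂ) • a w' + (t : ℂ) • b w' := by
      change s • a w' + t • b w' = _
      rw [Complex.coe_smul, Complex.coe_smul]
    have ha' : c ≤ (⟪w, a w'⟫_ℂ).re := ha
    have hb' : c ≤ (⟪w, b w'⟫_ℂ).re := hb
    rw [e2, inner_add_right, inner_smul_right, inner_smul_right, Complex.add_re,
      Complex.re_ofReal_mul, Complex.re_ofReal_mul]
    calc c = s * c + t * c := by rw [← add_mul, hst, one_mul]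
      _ ≤ _ := by gcongr
  refine convexHull_min ?_ hconv hz
  rintro _ ⟨u, hu, g1, g2, g3, rfl⟩
  exact h u hu g1 g2 g3

end Pool.Agent.Helper23

end

section

open scoped InnerProductSpace Topology

open ContinuousLinearMap Filter

namespace Pool.Agent.Helper23

universe u

variable {H : Type u} [NormedAddCommGroup H] [InnerProductSpace ℂ H] [CompleteSpace H]

variable {K : Type u} [NormedAddCommGroup K] [InnerProductSpace ℂ K] [CompleteSpace K]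

variable {M N : VonNeumannAlgebra H} {ξ : H} {E : (H →L[ℂ] H) → (H →L[ℂ] H)}

namespace U10

lemma eventually_ge (k : ℕ) : ∀ᶠ n in (UU : Filter ℕ), k ≤ n := by
  have h1 : (UU : Filter ℕ) ≤ atTop := by
    rw [← Nat.cofinite_eq_atTop]
    exact Filter.hyperfilter_le_cofinite
  exact h1 (eventually_ge_atTop k)

/-- diagonalisation along the ultrafilter -/
lemma exists_diag {P : ℕ → ℕ → Prop} (h : ∀ k, ∀ᶠ n in (UU : Filter ℕ), P k n) :
    ∃ k : ℕ → ℕ, (∀ᶠ n in (UU : Filter ℕ), P (k n) n) ∧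
      ∀ m, ∀ᶠ n in (UU : Filter ℕ), m ≤ k n := by
  classical
  refine ⟨fun n => Nat.findGreatest (fun k => P k n) n, ?_, fun m => ?_⟩
  · filter_upwards [h 0] with n hn
    exact Nat.findGreatest_spec (P := fun k => P k n) (Nat.zero_le n) hn
  · filter_upwards [h m, eventually_ge m] with n hn hm
    exact Nat.le_findGreatest (P := fun k => P k n) hm hn

lemma not_eventually {p : ℕ → Prop} (h : ¬ ∀ᶠ n in (UU : Filter ℕ), p n) :
    ∀ᶠ n in (UU : Filter ℕ), ¬ p n := Ultrafilter.eventually_not.2 h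

lemma appS_add {x y : ℕ → H →L[ℂ] H} (hx : x ∈ AppS M ξ) (hy : y ∈ AppS M ξ) :
    (fun n => x n + y n) ∈ AppS M ξ := by
  refine ⟨AppR_add hx.1 hy.1, ?_⟩
  have := AppR_add hx.2 hy.2
  simpa only [star_add] using this

end U10

end Pool.Agent.Helper23

end

section

open scoped InnerProductSpace Topology BoundedContinuousFunction

open ContinuousLinearMap Filter

namespace Pool.Agent.Helper23

universe u

variable {H : Type u} [NormedAddCommGroup H] [InnerProductSpace ℂ H] [CompleteSpace H]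

variable {K : Type u} [NormedAddCommGroup K] [InnerProductSpace ℂ K] [CompleteSpace K]

variable {M N : VonNeumannAlgebra H} {ξ : H} {E : (H →L[ℂ] H) → (H →L[ℂ] H)}

lemma U11.AppS_add {x y : ℕ → H →L[ℂ] H} (hx : x ∈ AppS M ξ) (hy : y ∈ AppS M ξ) :
    (fun n => x n + y n) ∈ AppS M ξ := by
  refine ⟨AppR_add hx.1 hy.1, ?_⟩
  have h := AppR_add hx.2 hy.2
  have e : (fun n => star (x n + y n)) = fun n => star (x n) + star (y n) := by
    funext n; rw [star_add]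
  rw [e]
  exact h

end Pool.Agent.Helper23

end

section

open scoped InnerProductSpace Topology

open ContinuousLinearMap Filter

namespace Pool.Agent.Helper23

universe u

variable {H : Type u} [NormedAddCommGroup H] [InnerProductSpace ℂ H] [CompleteSpace H]

variable {K : Type u} [NormedAddCommGroup K] [InnerProductSpace ℂ K] [CompleteSpace K]

variable {M N : VonNeumannAlgebra H} {ξ : H} {E : (H →L[ℂ] H) → (H →L[ℂ] H)}

lemma u12_AppS_add {x y : ℕ → H →L[ℂ] H} (hx : x ∈ AppS M ξ) (hy : y ∈ AppS M ξ) :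
    (fun n => x n + y n) ∈ AppS M ξ := by
  refine ⟨AppR_add hx.1 hy.1, ?_⟩
  have := AppR_add hx.2 hy.2
  simpa only [star_add] using this

lemma u12_UU_le : (UU : Filter ℕ) ≤ atTop := by
  rw [← Nat.cofinite_eq_atTop]
  exact Filter.hyperfilter_le_cofinite

lemma u12_lamU {l : ℝ} {a : ℕ → H →L[ℂ] H} (ha : LamSeq N ξ l a) : LamU N ξ l a :=
  ⟨ha.1, ha.2.1, fun ε hε => (ha.2.2 ε hε).filter_mono u12_UU_le⟩

lemma u12_comp {l : ℝ} {a : ℕ → H →L[ℂ] H} (ha : LamSeq N ξ l a) {φ : ℕ → ℕ}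
    (hφ : Tendsto φ atTop atTop) : LamSeq N ξ l (fun n => a (φ n)) := by
  obtain ⟨C, hC⟩ := ha.2.1
  exact ⟨fun n => ha.1 _, ⟨C, fun n => hC _⟩, fun ε hε => hφ.eventually (ha.2.2 ε hε)⟩

end Pool.Agent.Helper23

end
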