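import Pool.Agent.Helper23.FA.Ns
import Pool.Agent.Helper23.RBFDefs

/-!
Parts of Helper43.TTF.D, Helper43.TTF.E, Helper43.TTF.F, Helper70.TTE, Helper23.UMain, Helper23.ED.Defs, Helper23.ED.SmA, Helper23.ED.SmB, Helper23.ED.SmD, Helper23.ED.FcC, Helper23.ED.GgB, Helper23.ED.GgC, Helper23.ED.MnA, Helper23.ED.WuA, Helper23.ED.WuB
-/

section

open scoped InnerProductSpace Topology BoundedContinuousFunction

open ContinuousLinearMap Filter MeasureTheory

namespace Pool.Agent.Helper43.TTF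

open Pool.Agent.Helper23

variable {H : Type*} [NormedAddCommGroup H] [InnerProductSpace ℂ H] [CompleteSpace H]

lemma psi_norm (Ψ : (ℝ →ᵇ ℂ) →⋆ₐ[ℂ] (H →L[ℂ] H)) (G : ℝ →ᵇ ℂ) : ‖Ψ G‖ ≤ ‖G‖ :=
  NonUnitalStarAlgHom.norm_apply_le Ψ G

lemma psi_norm_apply (Ψ : (ℝ →ᵇ ℂ) →⋆ₐ[ℂ] (H →L[ℂ] H)) (G : ℝ →ᵇ ℂ) (v : H) :
    ‖Ψ G v‖ ≤ ‖G‖ * ‖v‖ :=
  ((Ψ G).le_opNorm v).trans (by gcongr; exact psi_norm Ψ G)

/-- the homomorphism as a continuous linear map -/
noncomputable def psiL (Ψ : (ℝ →ᵇ ℂ) →⋆ₐ[ℂ] (H →L[ℂ] H)) : (ℝ →ᵇ ℂ) →L[ℂ] (H →L[ℂ] H) :=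
  LinearMap.mkContinuous
    { toFun := fun G => Ψ G
      map_add' := fun _ _ => map_add Ψ _ _
      map_smul' := fun c G => map_smul Ψ c G } 1 (by
      intro G
      rw [one_mul]
      exact psi_norm Ψ G)

/-- truncation of the identity function -/
noncomputable def gt (L : ℝ) (ρ : ℝ) : ℝ := max (-|L|) (min |L| ρ)

lemma gt_abs (L ρ : ℝ) : |gt L ρ| ≤ |L| := by
  unfold gt
  rw [abs_le]
  constructor
  · exact le_max_left _ _
  · refine max_le ?_ (min_le_left _ _)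
    have := abs_nonneg L
    linarith

lemma gt_eq {L ρ : ℝ} (h : |ρ| ≤ L) : gt L ρ = ρ := by
  have hL : 0 ≤ L := (abs_nonneg ρ).trans h
  rw [abs_le] at h
  unfold gt
  rw [abs_of_nonneg hL, min_eq_right h.2, max_eq_right h.1]

noncomputable def gB (L : ℝ) : ℝ →ᵇ ℂ :=
  BoundedContinuousFunction.ofNormedAddCommGroup (fun ρ : ℝ => ((gt L ρ : ℝ) : ℂ))
    (by unfold gt; fun_prop) |L| (by
      intro ρ
      rw [Complex.norm_real, Real.norm_eq_abs]
      exact gt_abs L ρ)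

/-- evaluation at a point as a ring homomorphism -/
noncomputable def evR (ρ : ℝ) : (ℝ →ᵇ ℂ) →+* ℂ where
  toFun G := G ρ
  map_one' := rfl
  map_mul' _ _ := rfl
  map_zero' := rfl
  map_add' _ _ := rfl

/-- `ρ ↦ exp (i z g(ρ))` -/
noncomputable def ez (L : ℝ) (z : ℂ) : ℝ →ᵇ ℂ := NormedSpace.exp (z • (Complex.I • gB L))

lemma ez_apply (L : ℝ) (z : ℂ) (ρ : ℝ) : ez L z ρ = Complex.exp (Complex.I * z * (gt L ρ : ℝ)) := by
  have hc : Continuous (evR ρ) := (BoundedContinuousFunction.evalCLM ℂ ρ).continuous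
  have h := NormedSpace.map_exp (evR ρ) hc (z • (Complex.I • gB L))
  have h2 : (evR ρ) (z • (Complex.I • gB L)) = Complex.I * z * (gt L ρ : ℝ) := by
    change z * (Complex.I * ((gt L ρ : ℝ) : ℂ)) = _
    ring
  rw [h2] at h
  rw [Complex.exp_eq_exp_ℂ]
  exact h

lemma ez_diff (L : ℝ) : Differentiable ℂ (ez L) := fun z =>
  (hasDerivAt_exp_smul_const (𝕂 := ℂ) (Complex.I • gB L) z).differentiableAt

lemma ez_norm (L : ℝ) (z : ℂ) : ‖ez L z‖ ≤ Real.exp (|z.im| * |L|) := by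
  rw [BoundedContinuousFunction.norm_le (Real.exp_pos _).le]
  intro ρ
  rw [ez_apply, Complex.norm_exp]
  apply Real.exp_le_exp.2
  have h1 : (Complex.I * z * ((gt L ρ : ℝ) : ℂ)).re = - (z.im * gt L ρ) := by
    simp [Complex.mul_re]
  rw [h1]
  have h2 := gt_abs L ρ
  calc -(z.im * gt L ρ) ≤ |z.im * gt L ρ| := neg_le_abs _
    _ = |z.im| * |gt L ρ| := abs_mul _ _
    _ ≤ |z.im| * |L| := by gcongr

lemma ez_zero (L : ℝ) : ez L 0 = 1 := by
  unfold ez
  rw [zero_smul, NormedSpace.exp_zero]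

lemma ez_star (L : ℝ) (z : ℂ) : star (ez L z) = ez L (-(starRingEnd ℂ) z) := by
  ext ρ
  rw [BoundedContinuousFunction.star_apply, ez_apply, ez_apply, RCLike.star_def, ← Complex.exp_conj,
    map_mul, map_mul, Complex.conj_ofReal, Complex.conj_I]
  congr 1
  ring

/-- the analytic function of the proof -/
noncomputable def cz (Ψ : (ℝ →ᵇ ℂ) →⋆ₐ[ℂ] (H →L[ℂ] H)) (L : ℝ) (x : H →L[ℂ] H) (v w : H) (z : ℂ) :
    ℂ := ⟪v, Ψ (ez L z) (x (Ψ (ez L (-z)) w))⟫_ℂ

lemma cz_zero (Ψ : (ℝ →ᵇ ℂ) →⋆ₐ[ℂ] (H →L[ℂ] H)) (L : ℝ) (x : H →L[ℂ] H) (v w : H) :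
    cz Ψ L x v w 0 = ⟪v, x w⟫_ℂ := by
  unfold cz
  rw [neg_zero, ez_zero, map_one, one_apply_eq_self, one_apply_eq_self]

lemma cz_diff (Ψ : (ℝ →ᵇ ℂ) →⋆ₐ[ℂ] (H →L[ℂ] H)) (L : ℝ) (x : H →L[ℂ] H) (v w : H) :
    Differentiable ℂ (cz Ψ L x v w) := by
  have h1 : Differentiable ℂ (fun z => psiL Ψ (ez L z)) :=
    (psiL Ψ).differentiable.comp (ez_diff L)
  have h2 : Differentiable ℂ (fun z => psiL Ψ (ez L (-z)) w) :=
    (h1.comp differentiable_neg).clm_apply (differentiable_const w)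
  have h3 : Differentiable ℂ (fun z => psiL Ψ (ez L z) (x (psiL Ψ (ez L (-z)) w))) :=
    h1.clm_apply (x.differentiable.comp h2)
  exact (innerSL ℂ v).differentiable.comp h3

lemma cz_bound (Ψ : (ℝ →ᵇ ℂ) →⋆ₐ[ℂ] (H →L[ℂ] H)) (L : ℝ) (x : H →L[ℂ] H) (v w : H) (z : ℂ)
    (hz : |z.im| ≤ 1 / 2) : ‖cz Ψ L x v w z‖ ≤
      ‖v‖ * (Real.exp (1 / 2 * |L|) * (‖x‖ * (Real.exp (1 / 2 * |L|) * ‖w‖))) := by
  have he : ∀ z : ℂ, |z.im| ≤ 1 / 2 → ‖ez L z‖ ≤ Real.exp (1 / 2 * |L|) := by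
    intro z hz
    refine (ez_norm L z).trans (Real.exp_le_exp.2 ?_)
    gcongr
  unfold cz
  refine (norm_inner_le_norm _ _).trans ?_
  gcongr
  refine (psi_norm_apply _ _ _).trans ?_
  gcongr
  · exact he z hz
  refine (x.le_opNorm _).trans ?_
  gcongr
  refine (psi_norm_apply _ _ _).trans ?_
  gcongr
  refine he _ ?_
  rw [Complex.neg_im, abs_neg]
  exact hz

end Pool.Agent.Helper43.TTF

end

section

open scoped InnerProductSpace Topology BoundedContinuousFunction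

open ContinuousLinearMap Filter MeasureTheory

namespace Pool.Agent.Helper43.TTF

open Pool.Agent.Helper23

variable {H : Type*} [NormedAddCommGroup H] [InnerProductSpace ℂ H] [CompleteSpace H]

/-- cut-off function -/
noncomputable def ct (n : ℕ) (ρ : ℝ) : ℝ := max 0 (min 1 ((n : ℝ) + 1 - |ρ|))

lemma ct_nonneg (n : ℕ) (ρ : ℝ) : 0 ≤ ct n ρ := le_max_left _ _

lemma ct_le (n : ℕ) (ρ : ℝ) : ct n ρ ≤ 1 := max_le zero_le_one (min_le_left _ _)

lemma ct_zero {n : ℕ} {ρ : ℝ} (h : (n : ℝ) + 1 ≤ |ρ|) : ct n ρ = 0 := by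
  unfold ct
  apply max_eq_left
  refine (min_le_right _ _).trans ?_
  linarith

lemma ct_one {n : ℕ} {ρ : ℝ} (h : |ρ| ≤ n) : ct n ρ = 1 := by
  unfold ct
  rw [min_eq_left (by linarith), max_eq_right zero_le_one]

lemma ct_cont (n : ℕ) : Continuous (ct n) := by
  unfold ct; fun_prop

noncomputable def ctB (n : ℕ) : ℝ →ᵇ ℂ :=
  BoundedContinuousFunction.ofNormedAddCommGroup (fun ρ : ℝ => ((ct n ρ : ℝ) : ℂ))
    (Complex.continuous_ofReal.comp (ct_cont n)) 1 (by
      intro ρ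
      rw [Complex.norm_real, Real.norm_of_nonneg (ct_nonneg n ρ)]
      exact ct_le n ρ)

lemma ctB_apply (n : ℕ) (ρ : ℝ) : ctB n ρ = ((ct n ρ : ℝ) : ℂ) := rfl

lemma ctB_norm (n : ℕ) : ‖ctB n‖ ≤ 1 :=
  BoundedContinuousFunction.norm_ofNormedAddCommGroup_le _ zero_le_one _

noncomputable def kB (n : ℕ) (t : ℝ) : ℝ →ᵇ ℂ :=
  BoundedContinuousFunction.ofNormedAddCommGroup
    (fun ρ : ℝ => ((ct n ρ * Real.cosh (ρ / 2) : ℝ) : ℂ) * Complex.exp ((t * ρ : ℝ) * Complex.I))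
    (by
      have := ct_cont n
      fun_prop) (Real.cosh (((n : ℝ) + 1) / 2)) (by
      intro ρ
      rw [norm_mul, Complex.norm_exp_ofReal_mul_I, mul_one, Complex.norm_real, Real.norm_of_nonneg
        (mul_nonneg (ct_nonneg n ρ) (Real.cosh_pos _).le)]
      rcases le_total ((n : ℝ) + 1) |ρ| with h | h
      · rw [ct_zero h, zero_mul]
        exact (Real.cosh_pos _).le
      · calc ct n ρ * Real.cosh (ρ / 2) ≤ 1 * Real.cosh (ρ / 2) := by
              gcongr
              exact ct_le n ρ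
          _ ≤ Real.cosh (((n : ℝ) + 1) / 2) := by
              rw [one_mul, Real.cosh_le_cosh, abs_div, abs_div,
                abs_of_nonneg (a := (n : ℝ) + 1) (by positivity)]
              gcongr)

lemma kB_apply (n : ℕ) (t : ℝ) (ρ : ℝ) : kB n t ρ =
    ((ct n ρ * Real.cosh (ρ / 2) : ℝ) : ℂ) * Complex.exp ((t * ρ : ℝ) * Complex.I) := rfl

variable {R : H →L[ℂ] H} {D : H →L[ℝ] H} {Ψ : (ℝ →ᵇ ℂ) →⋆ₐ[ℂ] (H →L[ℂ] H)} {J : H →L[ℝ] H}

/-- the kernel -/
noncomputable def ker (β t : ℝ) : ℂ :=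
  Complex.exp (Complex.I * ((-β : ℝ) : ℂ) * t) / (2 * Real.cosh (Real.pi * t) : ℝ)

lemma ker_norm (β t : ℝ) : ‖ker β t‖ = (2 * Real.cosh (Real.pi * t))⁻¹ := by
  unfold ker
  rw [norm_div, Complex.norm_real, Real.norm_of_nonneg (by positivity [Real.cosh_pos (Real.pi * t)])]
  have : Complex.I * ((-β : ℝ) : ℂ) * t = ((-β * t : ℝ) : ℂ) * Complex.I := by
    push_cast; ring
  rw [this, Complex.norm_exp_ofReal_mul_I, one_div]

lemma ker_cont (β : ℝ) : Continuous (ker β) := by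
  unfold ker
  refine Continuous.div (by fun_prop) (by fun_prop) ?_
  intro t
  have := Real.cosh_pos (Real.pi * t)
  exact_mod_cast (by positivity : (2 * Real.cosh (Real.pi * t) : ℝ) ≠ 0)

end Pool.Agent.Helper43.TTF

end

section

open scoped InnerProductSpace Topology BoundedContinuousFunction FourierTransform

open ContinuousLinearMap Filter MeasureTheory

namespace Pool.Agent.Helper43.TTF

open Pool.Agent.Helper23

variable {H : Type*} [NormedAddCommGroup H] [InnerProductSpace ℂ H] [CompleteSpace H]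

variable {R : H →L[ℂ] H} {D : H →L[ℝ] H} {Ψ : (ℝ →ᵇ ℂ) →⋆ₐ[ℂ] (H →L[ℂ] H)} {J : H →L[ℝ] H}

/-- uniqueness of the Fourier transform -/
lemma eq_zero_of_fourier {F : ℝ → ℂ} (hc : Continuous F)
    (hi : Integrable (fun t => ((2 * Real.cosh (Real.pi * t) : ℝ) : ℂ)⁻¹ * F t))
    (h0 : ∀ β : ℝ, ∫ t : ℝ, ker β t * F t = 0) (t : ℝ) : F t = 0 := by
  set g : ℝ → ℂ := fun t => ((2 * Real.cosh (Real.pi * t) : ℝ) : ℂ)⁻¹ * F t with hg
  have hne : ∀ t : ℝ, ((2 * Real.cosh (Real.pi * t) : ℝ) : ℂ) ≠ 0 := by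
    intro t
    have := Real.cosh_pos (Real.pi * t)
    exact_mod_cast (by positivity : (2 * Real.cosh (Real.pi * t) : ℝ) ≠ 0)
  have hgc : Continuous g := by
    refine Continuous.mul (Continuous.inv₀ (by fun_prop) hne) hc
  have hF : 𝓕 g = 0 := by
    funext b
    rw [Real.fourier_eq', Pi.zero_apply, ← h0 (2 * Real.pi * b)]
    congr 1
    funext t
    unfold ker
    simp only [smul_eq_mul, hg, div_eq_mul_inv]
    rw [← mul_assoc]
    congr 3
    simp only [RCLike.inner_apply, conj_trivial]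
    push_cast
    ring
  have h1 := Continuous.fourierInv_fourier_eq hgc hi (by rw [hF]; exact integrable_zero _ _ _)
  rw [hF] at h1
  have h2 : g t = 0 := by
    rw [← h1]
    rw [Real.fourierInv_eq']
    simp
  exact (mul_eq_zero.1 h2).resolve_left (inv_ne_zero (hne t))

end Pool.Agent.Helper43.TTF

end

section

open scoped InnerProductSpace Topology BoundedContinuousFunction FourierTransform SchwartzMap

open ContinuousLinearMap Filter MeasureTheory

set_option linter.unusedSectionVars false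

namespace Pool.Agent.Helper23

variable {G : Type*} [NormedAddCommGroup G] [InnerProductSpace ℂ G] [CompleteSpace G]

variable {G' : Type*} [NormedAddCommGroup G'] [InnerProductSpace ℂ G'] [CompleteSpace G']

variable {H : Type*} [NormedAddCommGroup H] [InnerProductSpace ℂ H] [CompleteSpace H]

/-- `s ↦ exp(-2 π i t s)` -/
noncomputable def chr (t : ℝ) (s : ℝ) : ℂ := Complex.exp (-(2 * Real.pi * t * s : ℝ) * Complex.I)

lemma chr_norm (t s : ℝ) : ‖chr t s‖ = 1 := by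
  unfold chr
  rw [← Complex.ofReal_neg, Complex.norm_exp_ofReal_mul_I]

/-- the translate of a Schwartz function -/
noncomputable def trS (t : ℝ) (f : 𝓢(ℝ, G)) : 𝓢(ℝ, G) :=
  SchwartzMap.compCLMOfAntilipschitz ℂ (K := 1) (g := fun s : ℝ => s - t)
    (by fun_prop) (AntilipschitzWith.of_le_mul_dist fun x y => by
      rw [dist_sub_right, NNReal.coe_one, one_mul]) f

lemma trS_apply (t : ℝ) (f : 𝓢(ℝ, G)) (s : ℝ) : trS t f s = f (s - t) := rfl

lemma fourier_trS (t : ℝ) (f : 𝓢(ℝ, G)) (w : ℝ) : 𝓕 (trS t f) w = chr t w • 𝓕 f w := by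
  rw [SchwartzMap.fourier_coe, SchwartzMap.fourier_coe]
  have h := congrFun (VectorFourier.fourierIntegral_comp_add_right Real.fourierChar
    (volume : Measure ℝ) (innerₗ ℝ) (f : ℝ → G) (-t)) w
  have h1 : ((f : ℝ → G) ∘ fun v => v + -t) = (trS t f : ℝ → G) := by
    ext v
    rw [trS_apply, Function.comp_apply, sub_eq_add_neg]
  rw [h1] at h
  refine h.trans ?_
  rw [Circle.smul_def, Real.fourierChar_apply]
  congr 1
  unfold chr
  congr 1
  simp
  ring

end Pool.Agent.Helper23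

end

section

open scoped InnerProductSpace Topology ENNReal BoundedContinuousFunction

open ContinuousLinearMap Filter MeasureTheory

namespace Pool.Agent.Helper23

variable {H : Type*} [NormedAddCommGroup H] [InnerProductSpace ℂ H] [CompleteSpace H]

variable {M N : VonNeumannAlgebra H} {ξ : H} {E : (H →L[ℂ] H) → (H →L[ℂ] H)}

open RBF

/-- two isometries with orthogonal ranges -/
def TwoIsom (N : VonNeumannAlgebra H) : Prop :=
  ∃ v ∈ N, ∃ w ∈ N, star v * v = 1 ∧ star w * w = 1 ∧ star v * w = 0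

end Pool.Agent.Helper23

end

section

open scoped InnerProductSpace Topology ENNReal BoundedContinuousFunction

open ContinuousLinearMap Filter MeasureTheory

namespace Pool.Agent.Helper23.ED

open Pool.Agent.Helper23 Pool.Agent.Helper23.RBF

universe u

section fc

variable {H : Type*} [NormedAddCommGroup H] [InnerProductSpace ℂ H] [CompleteSpace H]

/-- the phase `e^{i t c}` -/
noncomputable def ph (t c : ℝ) : ℂ := Complex.exp (((t * c : ℝ) : ℂ) * Complex.I)

end fc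

section smear

variable {K : Type*} [NormedAddCommGroup K] [InnerProductSpace ℂ K] [CompleteSpace K]

/-- `∫ f(t) U_t Y U_{-t} dt` -/
noncomputable def smear (U : ℝ → K →L[ℂ] K) (f : ℝ → ℂ) (Y : K →L[ℂ] K) : K →L[ℂ] K :=
  open Classical in
  if h : ∃ T : K →L[ℂ] K, ∀ v w, ⟪v, T w⟫_ℂ = ∫ t, f t * ⟪v, U t (Y (U (-t) w))⟫_ℂ
    then h.choose else 0

/-- the Gaussian `exp(-m (t - z)²)` -/
noncomputable def gau (m : ℝ) (z : ℂ) (t : ℝ) : ℂ := Complex.exp (-(m : ℂ) * ((t : ℂ) - z) ^ 2)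

/-- a strongly continuous one-parameter unitary group -/
structure UG (U : ℝ → K →L[ℂ] K) : Prop where
  cont : ∀ v, Continuous fun t => U t v
  zero : U 0 = 1
  add : ∀ s t, U (s + t) = U s * U t
  star : ∀ t, star (U t) = U (-t)

end smear

section amp

variable {H : Type*} [NormedAddCommGroup H] [InnerProductSpace ℂ H] [CompleteSpace H]

/-- the character `s ↦ e^{i a s}` -/
noncomputable def ems (a s : ℝ) : ℂ := ph a s

/-- the cocycle of a weight `ψ` on `N` with respect to the group `V` -/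
structure Coc (N : VonNeumannAlgebra H) (V : ℝ → H →L[ℂ] H) (ψ : (H →L[ℂ] H) → ℝ≥0∞)
    (c : ℝ → H →L[ℂ] H) : Prop where
  mem : ∀ t, c t ∈ N
  unit : ∀ t, star (c t) * c t = 1 ∧ c t * star (c t) = 1
  cont : ∀ v, Continuous fun t => c t v
  cocycle : ∀ s t, c (s + t) = c s * (V s * c t * V (-s))
  scal : ∀ u ∈ N, star u * u = 1 → u * star u = 1 → ∀ l : ℝ, 0 < l →
    (ScalingUnitary N ψ l u ↔ ∀ t, u * (c t * V t) = ph t (Real.log l) • (c t * V t * u))

end amp

end Pool.Agent.Helper23.ED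

end

section

open scoped InnerProductSpace Topology ENNReal BoundedContinuousFunction

open ContinuousLinearMap Filter MeasureTheory

namespace Pool.Agent.Helper23.ED

open Pool.Agent.Helper23 Pool.Agent.Helper23.RBF

universe u

variable {K : Type*} [NormedAddCommGroup K] [InnerProductSpace ℂ K] [CompleteSpace K]

variable {U : ℝ → K →L[ℂ] K} {f : ℝ → ℂ}

namespace SmA

lemma inner_U (hU : UG U) (t : ℝ) (v w : K) : ⟪U t v, w⟫_ℂ = ⟪v, U (-t) w⟫_ℂ := by
  rw [← hU.star t, ContinuousLinearMap.star_eq_adjoint, ContinuousLinearMap.adjoint_inner_right]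

lemma inner_U' (hU : UG U) (t : ℝ) (v w : K) : ⟪v, U t w⟫_ℂ = ⟪U (-t) v, w⟫_ℂ := by
  rw [inner_U hU, neg_neg]

lemma neg_U (hU : UG U) (t : ℝ) (v : K) : U (-t) (U t v) = v := by
  have h := hU.add (-t) t
  rw [neg_add_cancel, hU.zero] at h
  exact (congrArg (fun T : K →L[ℂ] K => T v) h).symm

lemma norm_U (hU : UG U) (t : ℝ) (v : K) : ‖U t v‖ = ‖v‖ := by
  have h : ‖U t v‖ ^ 2 = ‖v‖ ^ 2 := by
    have h1 : ⟪U t v, U t v⟫_ℂ = ⟪v, v⟫_ℂ := by
      rw [inner_U hU, neg_U hU]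
    rw [inner_self_eq_norm_sq_to_K, inner_self_eq_norm_sq_to_K] at h1
    exact_mod_cast h1
  exact (sq_eq_sq₀ (norm_nonneg _) (norm_nonneg _)).1 h

lemma cont_conj (hU : UG U) (Y : K →L[ℂ] K) (w : K) :
    Continuous fun t => U t (Y (U (-t) w)) := by
  have hg : Continuous fun t => Y (U (-t) w) := Y.continuous.comp ((hU.cont w).comp continuous_neg)
  rw [continuous_iff_continuousAt]
  intro t0
  have h1 : Tendsto (fun t => U t (Y (U (-t) w) - Y (U (-t0) w))) (𝓝 t0) (𝓝 0) := by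
    rw [tendsto_zero_iff_norm_tendsto_zero]
    have h2 : Tendsto (fun t => ‖Y (U (-t) w) - Y (U (-t0) w)‖) (𝓝 t0) (𝓝 0) := by
      have := (hg.tendsto t0).sub_const (Y (U (-t0) w))
      rw [sub_self] at this
      simpa using this.norm
    refine h2.congr fun t => ?_
    rw [norm_U hU]
  have h3 := h1.add ((hU.cont (Y (U (-t0) w))).tendsto t0)
  rw [zero_add] at h3
  refine h3.congr fun t => ?_
  rw [map_sub, sub_add_cancel]

lemma norm_conj (hU : UG U) (Y : K →L[ℂ] K) (t : ℝ) (w : K) :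
    ‖U t (Y (U (-t) w))‖ ≤ ‖Y‖ * ‖w‖ := by
  rw [norm_U hU]
  exact (Y.le_opNorm _).trans (by rw [norm_U hU])

lemma integrable_conj (hU : UG U) (hf : Integrable f) (Y : K →L[ℂ] K) (w : K) :
    Integrable fun t => f t • U t (Y (U (-t) w)) :=
  hf.smul_bdd (‖Y‖ * ‖w‖) (cont_conj hU Y w).aestronglyMeasurable
    (Eventually.of_forall fun t => norm_conj hU Y t w)

lemma norm_int (hU : UG U) (hf : Integrable f) (Y : K →L[ℂ] K) (w : K) :
    ‖∫ t, f t • U t (Y (U (-t) w))‖ ≤ (∫ t, ‖f t‖) * ‖Y‖ * ‖w‖ := by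
  calc ‖∫ t, f t • U t (Y (U (-t) w))‖ ≤ ∫ t, ‖f t‖ * (‖Y‖ * ‖w‖) := by
        refine norm_integral_le_of_norm_le (hf.norm.mul_const _) (Eventually.of_forall fun t => ?_)
        rw [norm_smul]
        exact mul_le_mul_of_nonneg_left (norm_conj hU Y t w) (norm_nonneg _)
    _ = (∫ t, ‖f t‖) * ‖Y‖ * ‖w‖ := by
        rw [integral_mul_const, mul_assoc]

lemma inner_int (hU : UG U) (hf : Integrable f) (Y : K →L[ℂ] K) (v w : K) :
    ⟪v, ∫ t, f t • U t (Y (U (-t) w))⟫_ℂ = ∫ t, f t * ⟪v, U t (Y (U (-t) w))⟫_ℂ := by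
  rw [← integral_inner (integrable_conj hU hf Y w)]
  refine integral_congr_ae (Eventually.of_forall fun t => ?_)
  simp only [inner_smul_right]

lemma exists_smear (hU : UG U) (hf : Integrable f) (Y : K →L[ℂ] K) :
    ∃ T : K →L[ℂ] K, ∀ v w, ⟪v, T w⟫_ℂ = ∫ t, f t * ⟪v, U t (Y (U (-t) w))⟫_ℂ := by
  refine ⟨LinearMap.mkContinuous
    { toFun := fun w => ∫ t, f t • U t (Y (U (-t) w))
      map_add' := fun w w' => ?_
      map_smul' := fun c w => ?_ } ((∫ t, ‖f t‖) * ‖Y‖) fun w => ?_, fun v w => ?_⟩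
  · rw [← integral_add (integrable_conj hU hf Y w) (integrable_conj hU hf Y w')]
    refine integral_congr_ae (Eventually.of_forall fun t => ?_)
    simp only [map_add, smul_add]
  · simp only [RingHom.id_apply]
    rw [← integral_smul]
    refine integral_congr_ae (Eventually.of_forall fun t => ?_)
    simp only [map_smul]
    rw [smul_comm]
  · exact norm_int hU hf Y w
  · exact inner_int hU hf Y v w

end SmA

theorem UG.norm (hU : UG U) (t : ℝ) (v : K) : ‖U t v‖ = ‖v‖ := SmA.norm_U hU t v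

theorem smear_spec (hU : UG U) (hf : Integrable f) (Y : K →L[ℂ] K) (v w : K) :
    ⟪v, smear U f Y w⟫_ℂ = ∫ t, f t * ⟪v, U t (Y (U (-t) w))⟫_ℂ := by
  have h := SmA.exists_smear hU hf Y
  rw [smear, dif_pos h]
  exact h.choose_spec v w

lemma SmA.smear_apply (hU : UG U) (hf : Integrable f) (Y : K →L[ℂ] K) (w : K) :
    smear U f Y w = ∫ t, f t • U t (Y (U (-t) w)) := by
  refine ext_inner_left ℂ fun v => ?_
  rw [smear_spec hU hf, SmA.inner_int hU hf]

theorem smear_norm (hU : UG U) (hf : Integrable f) (Y : K →L[ℂ] K) :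
    ‖smear U f Y‖ ≤ (∫ t, ‖f t‖) * ‖Y‖ := by
  refine ContinuousLinearMap.opNorm_le_bound _
    (mul_nonneg (integral_nonneg fun t => norm_nonneg _) (norm_nonneg _)) fun w => ?_
  rw [SmA.smear_apply hU hf]
  exact SmA.norm_int hU hf Y w

end Pool.Agent.Helper23.ED

end

section

open scoped InnerProductSpace Topology ENNReal BoundedContinuousFunction

open ContinuousLinearMap Filter MeasureTheory

namespace Pool.Agent.Helper23.ED

open Pool.Agent.Helper23 Pool.Agent.Helper23.RBF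

universe u

variable {K : Type*} [NormedAddCommGroup K] [InnerProductSpace ℂ K] [CompleteSpace K]

variable {U : ℝ → K →L[ℂ] K}

namespace SmB

lemma norm_gau (m : ℝ) (z : ℂ) (t : ℝ) :
    ‖gau m z t‖ = Real.exp (m * z.im ^ 2) * Real.exp (-m * (t - z.re) ^ 2) := by
  rw [gau, Complex.norm_exp, ← Real.exp_add]
  congr 1
  have : (-(m : ℂ) * ((t : ℂ) - z) ^ 2).re = -m * ((t - z.re) ^ 2 - z.im ^ 2) := by
    simp only [sq, Complex.neg_re, Complex.mul_re, Complex.sub_re, Complex.ofReal_re,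
      Complex.ofReal_im, Complex.neg_im, Complex.sub_im]
    ring
  rw [this]
  ring

lemma cont_gau (m : ℝ) (z : ℂ) : Continuous (gau m z) := by
  unfold gau
  fun_prop

lemma int_gauss {m : ℝ} (hm : 0 < m) (x : ℝ) :
    Integrable fun t : ℝ => Real.exp (-m * (t - x) ^ 2) :=
  (integrable_exp_neg_mul_sq hm).comp_sub_right x

/-- the derivative of the Gaussian in `z` -/
noncomputable def dgau (m : ℝ) (z : ℂ) (t : ℝ) : ℂ := 2 * (m : ℂ) * ((t : ℂ) - z) * gau m z t

lemma cont_dgau (m : ℝ) (z : ℂ) : Continuous (dgau m z) := by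
  unfold dgau
  have := cont_gau m z
  fun_prop

lemma gau_add (m : ℝ) (z h : ℂ) (t : ℝ) :
    gau m (z + h) t = gau m z t * Complex.exp (2 * (m : ℂ) * ((t : ℂ) - z) * h - (m : ℂ) * h ^ 2) := by
  rw [gau, gau, ← Complex.exp_add]
  congr 1
  ring

/-- the constant in the second order estimate -/
noncomputable def cst (m y : ℝ) : ℝ :=
  (m + 2 * m ^ 2) * Real.exp (m * y ^ 2 + (m + 1) * (2 * |y| + 1) + 2 * (m + 1) ^ 2 / m)

lemma bound_aux {m : ℝ} (hm : 0 < m) (z : ℂ) (t : ℝ) {q : ℝ} (hq : q = 2 * ‖(t : ℂ) - z‖ + 1) :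
    ‖gau m z t‖ * (m + m ^ 2 * q ^ 2 * Real.exp (m * q))
      ≤ cst m z.im * Real.exp (-(m / 2) * (t - z.re) ^ 2) := by
  have hn : ‖(t : ℂ) - z‖ ≤ |t - z.re| + |z.im| := by
    have := Complex.norm_le_abs_re_add_abs_im ((t : ℂ) - z)
    simpa using this
  have hq1 : 1 ≤ q := by have := norm_nonneg ((t : ℂ) - z); linarith
  have hq2 : q ≤ 2 * |t - z.re| + (2 * |z.im| + 1) := by linarith
  have hqq : q ^ 2 ≤ 2 * Real.exp q := by
    have := Real.quadratic_le_exp_of_nonneg (x := q) (by linarith)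
    nlinarith
  have h1 : m + m ^ 2 * q ^ 2 * Real.exp (m * q) ≤ (m + 2 * m ^ 2) * Real.exp ((m + 1) * q) := by
    have e1 : (1 : ℝ) ≤ Real.exp ((m + 1) * q) := Real.one_le_exp (by positivity)
    have e2 : Real.exp ((m + 1) * q) = Real.exp (m * q) * Real.exp q := by
      rw [← Real.exp_add]; congr 1; ring
    have e3 : m ^ 2 * q ^ 2 * Real.exp (m * q) ≤ m ^ 2 * (2 * Real.exp q) * Real.exp (m * q) := by
      gcongr
    have e4 : m ≤ m * Real.exp ((m + 1) * q) := by nlinarith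
    have e5 : m ^ 2 * (2 * Real.exp q) * Real.exp (m * q) = 2 * m ^ 2 * Real.exp ((m + 1) * q) := by
      rw [e2]; ring
    linarith
  have h2 : Real.exp ((m + 1) * q)
      ≤ Real.exp ((m + 1) * (2 * |t - z.re| + (2 * |z.im| + 1))) := by
    apply Real.exp_le_exp.mpr
    have : 0 < m + 1 := by linarith
    nlinarith
  have h3 : ‖gau m z t‖ * (m + m ^ 2 * q ^ 2 * Real.exp (m * q))
      ≤ (Real.exp (m * z.im ^ 2) * Real.exp (-m * (t - z.re) ^ 2)) *
        ((m + 2 * m ^ 2) * Real.exp ((m + 1) * (2 * |t - z.re| + (2 * |z.im| + 1)))) := by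
    rw [norm_gau]
    have : (m + 2 * m ^ 2) * Real.exp ((m + 1) * q) ≤
        (m + 2 * m ^ 2) * Real.exp ((m + 1) * (2 * |t - z.re| + (2 * |z.im| + 1))) := by
      gcongr
    have h4 := h1.trans this
    gcongr
  refine h3.trans ?_
  have key : m * z.im ^ 2 + -m * (t - z.re) ^ 2 + (m + 1) * (2 * |t - z.re| + (2 * |z.im| + 1))
      ≤ (m * z.im ^ 2 + (m + 1) * (2 * |z.im| + 1) + 2 * (m + 1) ^ 2 / m)
        + -(m / 2) * (t - z.re) ^ 2 := by
    have hs : (t - z.re) ^ 2 = |t - z.re| ^ 2 := (sq_abs _).symm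
    rw [hs]
    generalize |t - z.re| = s
    have : 0 ≤ (m / 2) * (s - 2 * (m + 1) / m) ^ 2 := by positivity
    have e : (m / 2) * (s - 2 * (m + 1) / m) ^ 2
        = (m / 2) * s ^ 2 - 2 * (m + 1) * s + 2 * (m + 1) ^ 2 / m := by
      field_simp
      ring
    rw [e] at this
    nlinarith
  calc (Real.exp (m * z.im ^ 2) * Real.exp (-m * (t - z.re) ^ 2)) *
        ((m + 2 * m ^ 2) * Real.exp ((m + 1) * (2 * |t - z.re| + (2 * |z.im| + 1))))
      = (m + 2 * m ^ 2) * Real.exp (m * z.im ^ 2 + -m * (t - z.re) ^ 2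
          + (m + 1) * (2 * |t - z.re| + (2 * |z.im| + 1))) := by
        rw [Real.exp_add, Real.exp_add]; ring
    _ ≤ (m + 2 * m ^ 2) * Real.exp ((m * z.im ^ 2 + (m + 1) * (2 * |z.im| + 1)
          + 2 * (m + 1) ^ 2 / m) + -(m / 2) * (t - z.re) ^ 2) := by
        gcongr
    _ = cst m z.im * Real.exp (-(m / 2) * (t - z.re) ^ 2) := by
        rw [cst, Real.exp_add]; ring

lemma norm_exp_sub (u : ℂ) : ‖Complex.exp u - 1 - u‖ ≤ ‖u‖ ^ 2 * Real.exp ‖u‖ := by
  have := Complex.norm_exp_sub_sum_le_norm_mul_exp u 2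
  simpa [Finset.sum_range_succ, sub_sub] using this

lemma taylor {m : ℝ} (hm : 0 < m) (z h : ℂ) (hh : ‖h‖ ≤ 1) (t : ℝ) :
    ‖gau m (z + h) t - gau m z t - h * dgau m z t‖
      ≤ ‖h‖ ^ 2 * (cst m z.im * Real.exp (-(m / 2) * (t - z.re) ^ 2)) := by
  set q : ℝ := 2 * ‖(t : ℂ) - z‖ + 1 with hq
  set w : ℂ := 2 * (m : ℂ) * ((t : ℂ) - z) * h - (m : ℂ) * h ^ 2 with hw
  have hid : gau m (z + h) t - gau m z t - h * dgau m z t
      = gau m z t * ((Complex.exp w - 1 - w) - (m : ℂ) * h ^ 2) := by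
    rw [gau_add, dgau, hw]
    ring
  have hwn : ‖w‖ ≤ ‖h‖ * (m * q) := by
    calc ‖w‖ ≤ ‖2 * (m : ℂ) * ((t : ℂ) - z) * h‖ + ‖(m : ℂ) * h ^ 2‖ := norm_sub_le _ _
      _ = 2 * m * ‖(t : ℂ) - z‖ * ‖h‖ + m * ‖h‖ ^ 2 := by
          simp [abs_of_pos hm]
      _ ≤ ‖h‖ * (m * q) := by
          rw [hq]
          have : m * ‖h‖ ^ 2 ≤ m * ‖h‖ := by
            have := norm_nonneg h
            nlinarith [mul_nonneg this (sub_nonneg.mpr hh)]
          nlinarith
  have hq0 : 0 ≤ q := by positivity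
  have hwm : ‖w‖ ≤ m * q := by
    refine hwn.trans ?_
    have : 0 ≤ m * q := by positivity
    nlinarith
  have h1 : ‖Complex.exp w - 1 - w‖ ≤ ‖h‖ ^ 2 * (m ^ 2 * q ^ 2 * Real.exp (m * q)) := by
    calc ‖Complex.exp w - 1 - w‖ ≤ ‖w‖ ^ 2 * Real.exp ‖w‖ := norm_exp_sub w
      _ ≤ (‖h‖ * (m * q)) ^ 2 * Real.exp (m * q) := by
          gcongr
      _ = ‖h‖ ^ 2 * (m ^ 2 * q ^ 2 * Real.exp (m * q)) := by ring
  have h2 : ‖(Complex.exp w - 1 - w) - (m : ℂ) * h ^ 2‖
      ≤ ‖h‖ ^ 2 * (m + m ^ 2 * q ^ 2 * Real.exp (m * q)) := by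
    calc ‖(Complex.exp w - 1 - w) - (m : ℂ) * h ^ 2‖
        ≤ ‖Complex.exp w - 1 - w‖ + ‖(m : ℂ) * h ^ 2‖ := norm_sub_le _ _
      _ ≤ ‖h‖ ^ 2 * (m ^ 2 * q ^ 2 * Real.exp (m * q)) + m * ‖h‖ ^ 2 := by
          gcongr
          simp [abs_of_pos hm]
      _ = ‖h‖ ^ 2 * (m + m ^ 2 * q ^ 2 * Real.exp (m * q)) := by ring
  rw [hid, norm_mul]
  calc ‖gau m z t‖ * ‖(Complex.exp w - 1 - w) - (m : ℂ) * h ^ 2‖
      ≤ ‖gau m z t‖ * (‖h‖ ^ 2 * (m + m ^ 2 * q ^ 2 * Real.exp (m * q))) := by gcongr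
    _ = ‖h‖ ^ 2 * (‖gau m z t‖ * (m + m ^ 2 * q ^ 2 * Real.exp (m * q))) := by ring
    _ ≤ ‖h‖ ^ 2 * (cst m z.im * Real.exp (-(m / 2) * (t - z.re) ^ 2)) :=
        mul_le_mul_of_nonneg_left (bound_aux hm z t hq) (by positivity)

lemma int_dgau {m : ℝ} (hm : 0 < m) (z : ℂ) : Integrable (dgau m z) := by
  have hi : Integrable fun t : ℝ => 4 * (m + 1) * (cst m z.im / m * Real.exp (-(m / 2) * (t - z.re) ^ 2)) := by
    exact (((int_gauss (half_pos hm) z.re).const_mul _).const_mul _)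
  refine hi.mono' (cont_dgau m z).aestronglyMeasurable (Eventually.of_forall fun t => ?_)
  have h1 := bound_aux hm z t rfl
  set q : ℝ := 2 * ‖(t : ℂ) - z‖ + 1 with hq
  have hq1 : 1 ≤ q := by have := norm_nonneg ((t : ℂ) - z); linarith
  have hg := norm_nonneg (gau m z t)
  have he : 1 ≤ Real.exp (m * q) := Real.one_le_exp (by positivity)
  have h2 : ‖dgau m z t‖ ≤ m * q * ‖gau m z t‖ := by
    rw [dgau, norm_mul, norm_mul, norm_mul]
    have : ‖(2 : ℂ)‖ * ‖(m : ℂ)‖ * ‖(t : ℂ) - z‖ ≤ m * q := by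
      simp only [Complex.norm_real, Real.norm_eq_abs, abs_of_pos hm, Complex.norm_ofNat]
      rw [hq]
      nlinarith
    exact mul_le_mul_of_nonneg_right this hg
  have h3 : m * (m * q * ‖gau m z t‖) ≤ ‖gau m z t‖ * (m + m ^ 2 * q ^ 2 * Real.exp (m * q)) := by
    have : m ^ 2 * q ≤ m + m ^ 2 * q ^ 2 * Real.exp (m * q) := by
      have a1 : q ≤ q ^ 2 := by nlinarith
      have a2 : q ^ 2 ≤ q ^ 2 * Real.exp (m * q) := by
        have : 0 ≤ q ^ 2 := by positivity
        nlinarith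
      have a3 : m ^ 2 * q ≤ m ^ 2 * (q ^ 2 * Real.exp (m * q)) := by
        gcongr
        exact a1.trans a2
      nlinarith
    calc m * (m * q * ‖gau m z t‖) = ‖gau m z t‖ * (m ^ 2 * q) := by ring
      _ ≤ _ := by gcongr
  have h4 := h3.trans h1
  have h5 : m * q * ‖gau m z t‖ ≤ cst m z.im / m * Real.exp (-(m / 2) * (t - z.re) ^ 2) := by
    rw [div_mul_eq_mul_div, le_div_iff₀ hm]
    linarith
  have h6 : 0 ≤ cst m z.im / m * Real.exp (-(m / 2) * (t - z.re) ^ 2) := by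
    unfold cst
    positivity
  calc ‖dgau m z t‖ ≤ m * q * ‖gau m z t‖ := h2
    _ ≤ 1 * (cst m z.im / m * Real.exp (-(m / 2) * (t - z.re) ^ 2)) := by rw [one_mul]; exact h5
    _ ≤ _ := by
      apply mul_le_mul_of_nonneg_right _ h6
      nlinarith

end SmB

open SmB

theorem gau_int {m : ℝ} (hm : 0 < m) (z : ℂ) : Integrable (gau m z) := by
  have hi : Integrable fun t : ℝ => Real.exp (m * z.im ^ 2) * Real.exp (-m * (t - z.re) ^ 2) :=
    (int_gauss hm z.re).const_mul _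
  refine hi.mono' (cont_gau m z).aestronglyMeasurable (Eventually.of_forall fun t => ?_)
  rw [norm_gau]

theorem gau_norm {m : ℝ} (hm : 0 < m) (z : ℂ) :
    ∫ t, ‖gau m z t‖ = Real.sqrt (Real.pi / m) * Real.exp (m * z.im ^ 2) := by
  simp_rw [norm_gau]
  rw [integral_const_mul, integral_sub_right_eq_self (fun t : ℝ => Real.exp (-m * t ^ 2)) z.re,
    integral_gaussian, mul_comm]

namespace SmB

lemma mat_eq (hU : UG U) (Y : K →L[ℂ] K) (v w : K) (t : ℝ) :
    ⟪v, U t (Y (U (-t) w))⟫_ℂ = ⟪U (-t) v, Y (U (-t) w)⟫_ℂ := by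
  rw [← hU.star t, ContinuousLinearMap.star_eq_adjoint, ContinuousLinearMap.adjoint_inner_left]

lemma int_mat (hU : UG U) {f : ℝ → ℂ} (hf : Integrable f) (Y : K →L[ℂ] K) (v w : K) :
    Integrable fun t => f t * ⟪v, U t (Y (U (-t) w))⟫_ℂ := by
  have hc : Continuous fun t : ℝ => ⟪v, U t (Y (U (-t) w))⟫_ℂ := by
    simp_rw [mat_eq hU]
    have h1 : Continuous fun t : ℝ => U (-t) v := (hU.cont v).comp continuous_neg
    have h2 : Continuous fun t : ℝ => U (-t) w := (hU.cont w).comp continuous_neg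
    exact h1.inner (Y.continuous.comp h2)
  have hb : ∀ t, ‖⟪v, U t (Y (U (-t) w))⟫_ℂ‖ ≤ ‖v‖ * (‖Y‖ * ‖w‖) := by
    intro t
    refine (norm_inner_le_norm _ _).trans ?_
    rw [hU.norm]
    gcongr
    refine (Y.le_opNorm _).trans ?_
    rw [hU.norm]
  refine (hf.norm.mul_const (‖v‖ * (‖Y‖ * ‖w‖))).mono'
    (hf.1.mul hc.aestronglyMeasurable) (Eventually.of_forall fun t => ?_)
  rw [norm_mul]
  exact mul_le_mul_of_nonneg_left (hb t) (norm_nonneg _)

lemma smear_sub (hU : UG U) {f g : ℝ → ℂ} (hf : Integrable f) (hg : Integrable g)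
    (Y : K →L[ℂ] K) : smear U (fun t => f t - g t) Y = smear U f Y - smear U g Y := by
  ext w
  refine ext_inner_left ℂ fun v => ?_
  have hfg : Integrable fun t => f t - g t := hf.sub hg
  rw [ContinuousLinearMap.sub_apply, inner_sub_right, smear_spec hU hfg, smear_spec hU hf,
    smear_spec hU hg, ← integral_sub (int_mat hU hf Y v w) (int_mat hU hg Y v w)]
  refine integral_congr_ae (Eventually.of_forall fun t => ?_)
  simp only [sub_mul]

lemma smear_smul (hU : UG U) {f : ℝ → ℂ} (hf : Integrable f) (c : ℂ)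
    (Y : K →L[ℂ] K) : smear U (fun t => c * f t) Y = c • smear U f Y := by
  ext w
  refine ext_inner_left ℂ fun v => ?_
  rw [ContinuousLinearMap.smul_apply, inner_smul_right, smear_spec hU (hf.const_mul c),
    smear_spec hU hf, ← integral_const_mul]
  refine integral_congr_ae (Eventually.of_forall fun t => ?_)
  simp only [mul_assoc]

lemma smear_est (hU : UG U) {m : ℝ} (hm : 0 < m) (Y : K →L[ℂ] K) (z h : ℂ) (hh : ‖h‖ ≤ 1) :
    ‖smear U (gau m (z + h)) Y - smear U (gau m z) Y - h • smear U (dgau m z) Y‖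
      ≤ ((cst m z.im * ∫ t : ℝ, Real.exp (-(m / 2) * (t - z.re) ^ 2)) * ‖Y‖) * ‖h‖ ^ 2 := by
  have i1 := gau_int hm (z + h)
  have i2 := gau_int hm z
  have i3 : Integrable fun t => h * dgau m z t := (int_dgau hm z).const_mul h
  have i4 : Integrable fun t => gau m (z + h) t - gau m z t := i1.sub i2
  have e : smear U (gau m (z + h)) Y - smear U (gau m z) Y - h • smear U (dgau m z) Y
      = smear U (fun t => gau m (z + h) t - gau m z t - h * dgau m z t) Y := by
    rw [smear_sub hU i4 i3 Y, smear_smul hU (int_dgau hm z) h Y, smear_sub hU i1 i2 Y]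
  rw [e]
  refine (smear_norm hU ((i1.sub i2).sub i3) Y).trans ?_
  have hI : ∫ t : ℝ, ‖gau m (z + h) t - gau m z t - h * dgau m z t‖
      ≤ ∫ t : ℝ, ‖h‖ ^ 2 * (cst m z.im * Real.exp (-(m / 2) * (t - z.re) ^ 2)) := by
    refine integral_mono ((i1.sub i2).sub i3).norm
      (((int_gauss (half_pos hm) z.re).const_mul _).const_mul _) fun t => ?_
    exact taylor hm z h hh t
  rw [integral_const_mul, integral_const_mul] at hI
  calc (∫ t : ℝ, ‖gau m (z + h) t - gau m z t - h * dgau m z t‖) * ‖Y‖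
      ≤ (‖h‖ ^ 2 * (cst m z.im * ∫ t : ℝ, Real.exp (-(m / 2) * (t - z.re) ^ 2))) * ‖Y‖ :=
        mul_le_mul_of_nonneg_right hI (norm_nonneg _)
    _ = _ := by ring

end SmB

/-- the smeared operators depend analytically on `z` -/
theorem smear_diff (hU : UG U) {m : ℝ} (hm : 0 < m) (Y : K →L[ℂ] K) :
    Differentiable ℂ (fun z : ℂ => smear U (gau m z) Y) := by
  intro z
  have hd : HasDerivAt (fun z : ℂ => smear U (gau m z) Y) (smear U (dgau m z) Y) z := by
    rw [hasDerivAt_iff_isLittleO]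
    refine Asymptotics.IsBigO.trans_isLittleO ?_
      (Asymptotics.isLittleO_pow_sub_sub z (m := 2) (by norm_num))
    refine Asymptotics.IsBigO.of_bound
      ((cst m z.im * ∫ t : ℝ, Real.exp (-(m / 2) * (t - z.re) ^ 2)) * ‖Y‖) ?_
    filter_upwards [Metric.ball_mem_nhds z one_pos] with x hx
    have hx' : ‖x - z‖ ≤ 1 := by
      rw [← dist_eq_norm]
      exact (Metric.mem_ball.mp hx).le
    have := smear_est hU hm Y z (x - z) hx'
    rw [add_sub_cancel] at this
    simpa using this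
  exact hd.differentiableAt

end Pool.Agent.Helper23.ED

end

section

open scoped InnerProductSpace Topology ENNReal BoundedContinuousFunction

open ContinuousLinearMap Filter MeasureTheory

namespace Pool.Agent.Helper23.ED

open Pool.Agent.Helper23 Pool.Agent.Helper23.RBF

universe u

variable {K : Type*} [NormedAddCommGroup K] [InnerProductSpace ℂ K] [CompleteSpace K]

variable {U : ℝ → K →L[ℂ] K}

namespace SmD

open Pool.Agent.Helper43.TTF

/-- a bounded cut off version of `1 + e ^ (s ρ)` -/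
noncomputable def E (n : ℕ) (s : ℝ) : ℝ →ᵇ ℂ :=
  BoundedContinuousFunction.ofNormedAddCommGroup
    (fun ρ : ℝ => ((ct n ρ * (1 + Real.exp (s * gt ((n : ℝ) + 1) ρ)) : ℝ) : ℂ))
    (by
      have h1 := ct_cont n
      have h2 : Continuous (gt ((n : ℝ) + 1)) := by unfold gt; fun_prop
      fun_prop) (1 * (1 + Real.exp (|s| * |(n : ℝ) + 1|))) (by
      intro ρ
      rw [Complex.norm_real, Real.norm_eq_abs, abs_mul, abs_of_nonneg (ct_nonneg n ρ)]
      have h3 : s * gt ((n : ℝ) + 1) ρ ≤ |s| * |(n : ℝ) + 1| := by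
        refine (le_abs_self _).trans ?_
        rw [abs_mul]
        exact mul_le_mul_of_nonneg_left (gt_abs _ _) (abs_nonneg _)
      have h4 : 0 < 1 + Real.exp (s * gt ((n : ℝ) + 1) ρ) := by positivity
      rw [abs_of_pos h4]
      have h5 := Real.exp_le_exp.2 h3
      exact mul_le_mul (ct_le n ρ) (by linarith) h4.le zero_le_one)

lemma E_apply (n : ℕ) (s ρ : ℝ) : E n s ρ =
    ((ct n ρ * (1 + Real.exp (s * gt ((n : ℝ) + 1) ρ)) : ℝ) : ℂ) := rfl

variable {T : K →L[ℂ] K} {Ψ : (ℝ →ᵇ ℂ) →⋆ₐ[ℂ] (K →L[ℂ] K)}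

/-- the operator valued function -/
noncomputable def g (U : ℝ → K →L[ℂ] K) (Ψ : (ℝ →ᵇ ℂ) →⋆ₐ[ℂ] (K →L[ℂ] K)) (m : ℝ)
    (Y : K →L[ℂ] K) (n : ℕ) (z : ℂ) : K →L[ℂ] K :=
  Ψ (ctB n * ez ((n : ℝ) + 1) (-z)) * smear U (gau m z) Y * Ψ (ez ((n : ℝ) + 1) z * ctB n)

lemma g_bound (hU : UG U) (Ψ : (ℝ →ᵇ ℂ) →⋆ₐ[ℂ] (K →L[ℂ] K)) {m : ℝ} (hm : 0 < m)
    (Y : K →L[ℂ] K) (n : ℕ) : ∃ C : ℝ, ∀ z : ℂ, |z.im| ≤ 1 → ‖g U Ψ m Y n z‖ ≤ C := by
  refine ⟨Real.exp (1 * |(n : ℝ) + 1|) * ((Real.sqrt (Real.pi / m) * Real.exp (m * 1 ^ 2)) * ‖Y‖) *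
    Real.exp (1 * |(n : ℝ) + 1|), fun z hz => ?_⟩
  have hez : ∀ z : ℂ, |z.im| ≤ 1 → ‖ez ((n : ℝ) + 1) z‖ ≤ Real.exp (1 * |(n : ℝ) + 1|) := by
    intro z hz
    refine (ez_norm _ z).trans (Real.exp_le_exp.2 ?_)
    gcongr
  have hA : ‖Ψ (ctB n * ez ((n : ℝ) + 1) (-z))‖ ≤ Real.exp (1 * |(n : ℝ) + 1|) := by
    refine (psi_norm Ψ _).trans ((norm_mul_le _ _).trans ?_)
    have h1 := hez (-z) (by rwa [Complex.neg_im, abs_neg])
    calc ‖ctB n‖ * ‖ez ((n : ℝ) + 1) (-z)‖ ≤ 1 * Real.exp (1 * |(n : ℝ) + 1|) := by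
          gcongr
          exact ctB_norm n
      _ = _ := one_mul _
  have hB : ‖Ψ (ez ((n : ℝ) + 1) z * ctB n)‖ ≤ Real.exp (1 * |(n : ℝ) + 1|) := by
    refine (psi_norm Ψ _).trans ((norm_mul_le _ _).trans ?_)
    have h1 := hez z hz
    calc ‖ez ((n : ℝ) + 1) z‖ * ‖ctB n‖ ≤ Real.exp (1 * |(n : ℝ) + 1|) * 1 := by
          gcongr
          exact ctB_norm n
      _ = _ := mul_one _
  have hF : ‖smear U (gau m z) Y‖ ≤ (Real.sqrt (Real.pi / m) * Real.exp (m * 1 ^ 2)) * ‖Y‖ := by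
    refine (smear_norm hU (gau_int hm z) Y).trans ?_
    rw [gau_norm hm]
    have h2 : z.im ^ 2 ≤ 1 ^ 2 := sq_le_sq' (neg_le_of_abs_le hz) (le_of_abs_le hz)
    gcongr
  unfold g
  refine (norm_mul_le _ _).trans ?_
  refine mul_le_mul ((norm_mul_le _ _).trans ?_) hB (norm_nonneg _) (by positivity)
  exact mul_le_mul hA hF (norm_nonneg _) (by positivity)

end SmD

end Pool.Agent.Helper23.ED

end

section

open scoped InnerProductSpace Topology ENNReal BoundedContinuousFunction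

open ContinuousLinearMap Filter MeasureTheory

namespace Pool.Agent.Helper23.ED

open Pool.Agent.Helper23 Pool.Agent.Helper23.RBF

universe u

variable {H : Type*} [NormedAddCommGroup H] [InnerProductSpace ℂ H] [CompleteSpace H]

variable {K : Type*} [NormedAddCommGroup K] [InnerProductSpace ℂ K] [CompleteSpace K]

namespace FcC

open Pool.Agent.Helper43.TTF (psi_norm_apply)

theorem fact2pi : Fact (0 < 2 * Real.pi) := ⟨by positivity⟩

attribute [local instance] fact2pi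

/-- the functions `G` with `Y Ψ₁(G) = Ψ₂(G) Y` -/
def S (Ψ₁ : (ℝ →ᵇ ℂ) →⋆ₐ[ℂ] (H →L[ℂ] H)) (Ψ₂ : (ℝ →ᵇ ℂ) →⋆ₐ[ℂ] (K →L[ℂ] K))
    (Y : H →L[ℂ] K) : Submodule ℂ (ℝ →ᵇ ℂ) where
  carrier := {G | ∀ v, Y (Ψ₁ G v) = Ψ₂ G (Y v)}
  add_mem' := by
    intro a b ha hb v
    rw [map_add, map_add, add_apply, add_apply, map_add, ha v, hb v]
  zero_mem' := by
    intro v
    simp
  smul_mem' := by
    intro c G hG v
    rw [map_smul, map_smul, smul_apply, smul_apply, map_smul, hG v]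

theorem mem_S {Ψ₁ : (ℝ →ᵇ ℂ) →⋆ₐ[ℂ] (H →L[ℂ] H)} {Ψ₂ : (ℝ →ᵇ ℂ) →⋆ₐ[ℂ] (K →L[ℂ] K)}
    {Y : H →L[ℂ] K} {G : ℝ →ᵇ ℂ} : G ∈ S Ψ₁ Ψ₂ Y ↔ ∀ v, Y (Ψ₁ G v) = Ψ₂ G (Y v) := Iff.rfl

theorem cont_apply (Ψ : (ℝ →ᵇ ℂ) →⋆ₐ[ℂ] (H →L[ℂ] H)) (v : H) : Continuous fun G => Ψ G v := by
  let f : (ℝ →ᵇ ℂ) →ₗ[ℂ] H :=
    { toFun := fun G => Ψ G v
      map_add' := fun a b => by rw [map_add, add_apply]
      map_smul' := fun c a => by rw [map_smul, smul_apply]; rfl }
  have : Continuous f := (f.mkContinuous ‖v‖ fun G => by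
    refine (psi_norm_apply Ψ G v).trans ?_
    rw [mul_comm]).continuous
  exact this

theorem isClosed_S (Ψ₁ : (ℝ →ᵇ ℂ) →⋆ₐ[ℂ] (H →L[ℂ] H)) (Ψ₂ : (ℝ →ᵇ ℂ) →⋆ₐ[ℂ] (K →L[ℂ] K))
    (Y : H →L[ℂ] K) : IsClosed (S Ψ₁ Ψ₂ Y : Set (ℝ →ᵇ ℂ)) := by
  have h1 : (S Ψ₁ Ψ₂ Y : Set (ℝ →ᵇ ℂ)) = ⋂ v, {G | Y (Ψ₁ G v) = Ψ₂ G (Y v)} := by
    ext G
    simp [mem_S]
  rw [h1]
  exact isClosed_iInter fun v =>
    isClosed_eq (Y.continuous.comp (cont_apply Ψ₁ v)) (cont_apply Ψ₂ (Y v))

/-- pull back of a function on the circle -/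
noncomputable def pull (c : ℝ) : C(AddCircle (2 * Real.pi), ℂ) →ₗ[ℂ] (ℝ →ᵇ ℂ) where
  toFun p := BoundedContinuousFunction.ofNormedAddCommGroup
    (fun ρ : ℝ => p ((c * ρ : ℝ) : AddCircle (2 * Real.pi)))
    (p.continuous.comp ((AddCircle.continuous_mk' _).comp (by fun_prop))) ‖p‖
    (fun ρ => p.norm_coe_le_norm _)
  map_add' := fun p q => by ext; rfl
  map_smul' := fun a p => by ext; rfl

theorem pull_apply (c : ℝ) (p : C(AddCircle (2 * Real.pi), ℂ)) (ρ : ℝ) :
    pull c p ρ = p ((c * ρ : ℝ) : AddCircle (2 * Real.pi)) := rfl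

theorem pull_cont (c : ℝ) : Continuous (pull c) := by
  have : Continuous ((pull c).mkContinuous 1 fun p => by
    rw [one_mul]
    exact (BoundedContinuousFunction.norm_le (norm_nonneg _)).2 fun ρ => p.norm_coe_le_norm _) :=
      ContinuousLinearMap.continuous _
  exact this

end FcC

end Pool.Agent.Helper23.ED

end

section

open scoped InnerProductSpace Topology ENNReal BoundedContinuousFunction FourierTransform SchwartzMap

open ContinuousLinearMap Filter MeasureTheory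

namespace Pool.Agent.Helper23.ED

open Pool.Agent.Helper23 Pool.Agent.Helper23.RBF

universe u

variable {H : Type*} [NormedAddCommGroup H] [InnerProductSpace ℂ H] [CompleteSpace H]

variable {M N : VonNeumannAlgebra H} {ξ : H} {E : (H →L[ℂ] H) → (H →L[ℂ] H)}

namespace GgB

lemma fourierInv_trS (t : ℝ) (f : 𝓢(ℝ, H)) (w : ℝ) :
    𝓕⁻ (trS t f) w = chr (-t) w • 𝓕⁻ f w := by
  have h0 : ∀ g : 𝓢(ℝ, H), 𝓕⁻ g w = 𝓕 g (-w) := fun g => by
    rw [SchwartzMap.fourierInv_coe, SchwartzMap.fourier_coe, Real.fourierInv_eq_fourier_neg]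
  rw [h0, h0, fourier_trS]
  congr 1
  unfold chr
  congr 2
  push_cast
  ring

lemma ems_eq (a : ℝ) : ems a = chr (-(a / (2 * Real.pi))) := by
  funext s
  unfold ems ph chr
  congr 2
  have : (2 * Real.pi) ≠ 0 := by positivity
  rw [← Complex.ofReal_neg]
  congr 1
  field_simp

end GgB

end Pool.Agent.Helper23.ED

end

section

open scoped InnerProductSpace Topology ENNReal BoundedContinuousFunction

open ContinuousLinearMap Filter MeasureTheory

namespace Pool.Agent.Helper23.ED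

open Pool.Agent.Helper23 Pool.Agent.Helper23.RBF

universe u

variable {H : Type*} [NormedAddCommGroup H] [InnerProductSpace ℂ H] [CompleteSpace H]

variable {A : VonNeumannAlgebra H} {ξ : H} {R : H →L[ℂ] H} {D : H →L[ℝ] H}
  {Ψ : (ℝ →ᵇ ℂ) →⋆ₐ[ℂ] (H →L[ℂ] H)}

namespace GgC

lemma inj_real {g : ℝ → ℝ} (hg : Integrable g) (h0 : ∀ a : ℝ, ∫ s, ems a s * (g s : ℂ) = 0) :
    g =ᵐ[volume] 0 := by
  have hmeas : AEMeasurable (fun s => ENNReal.ofReal (g s)) volume :=
    hg.aestronglyMeasurable.aemeasurable.ennreal_ofReal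
  have hmeas' : AEMeasurable (fun s => ENNReal.ofReal (-g s)) volume :=
    hg.neg.aestronglyMeasurable.aemeasurable.ennreal_ofReal
  have hμ : IsFiniteMeasure (volume.withDensity fun s => ENNReal.ofReal (g s)) :=
    isFiniteMeasure_withDensity_ofReal hg.2
  have hν : IsFiniteMeasure (volume.withDensity fun s => ENNReal.ofReal (-g s)) :=
    isFiniteMeasure_withDensity_ofReal hg.neg.2
  have key : ∀ t : ℝ, ∀ f : ℝ → ℝ, Integrable f →
      charFun (volume.withDensity fun s => ENNReal.ofReal (f s)) t =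
        ∫ s, ems t s * ((max (f s) 0 : ℝ) : ℂ) := by
    intro t f hf
    rw [charFun_apply_real, integral_withDensity_eq_integral_toReal_smul₀
      hf.aestronglyMeasurable.aemeasurable.ennreal_ofReal
      (Eventually.of_forall fun s => ENNReal.ofReal_lt_top)]
    refine integral_congr_ae (Eventually.of_forall fun s => ?_)
    simp only [ems, ph, ENNReal.toReal_ofReal', Complex.real_smul]
    push_cast
    ring
  have hi : ∀ t : ℝ, ∀ f : ℝ → ℝ, Integrable f →
      Integrable fun s => ems t s * ((max (f s) 0 : ℝ) : ℂ) := by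
    intro t f hf
    have h1 : Integrable fun s => ((max (f s) 0 : ℝ) : ℂ) := hf.pos_part.ofReal
    refine h1.bdd_mul (c := 1) ?_ (Eventually.of_forall fun s => ?_)
    · refine Continuous.aestronglyMeasurable ?_
      unfold ems ph
      fun_prop
    · unfold ems ph
      rw [Complex.norm_exp_ofReal_mul_I]
  have h1 : (volume.withDensity fun s => ENNReal.ofReal (g s)) =
      (volume.withDensity fun s => ENNReal.ofReal (-g s)) := by
    apply Measure.ext_of_charFun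
    ext t
    rw [key t g hg, key t (fun s => -g s) hg.neg, ← sub_eq_zero,
      ← integral_sub (hi t g hg) (hi t (fun s => -g s) hg.neg), ← h0 t]
    refine integral_congr_ae (Eventually.of_forall fun s => ?_)
    simp only []
    rw [← mul_sub, ← Complex.ofReal_sub]
    congr 2
    rcases le_total (g s) 0 with h | h
    · rw [max_eq_right h, max_eq_left (by linarith)]; ring
    · rw [max_eq_left h, max_eq_right (by linarith)]; ring
  have h2 := (withDensity_eq_iff hmeas hmeas' ?_).1 h1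
  · filter_upwards [h2] with s hs
    have hs' := congrArg ENNReal.toReal hs
    rw [ENNReal.toReal_ofReal', ENNReal.toReal_ofReal'] at hs'
    simp only [Pi.zero_apply]
    rcases le_total (g s) 0 with h | h
    · rw [max_eq_right h, max_eq_left (by linarith)] at hs'; linarith
    · rw [max_eq_left h, max_eq_right (by linarith)] at hs'; linarith
  · exact (hg.lintegral_lt_top).ne

lemma ems_cont (a : ℝ) : Continuous (ems a) := by
  unfold ems ph
  fun_prop

lemma ems_norm (a s : ℝ) : ‖ems a s‖ = 1 := by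
  unfold ems ph
  rw [Complex.norm_exp_ofReal_mul_I]

lemma ems_conj (a s : ℝ) : (starRingEnd ℂ) (ems a s) = ems (-a) s := by
  unfold ems ph
  rw [← Complex.exp_conj, map_mul, Complex.conj_I, Complex.conj_ofReal]
  congr 1
  push_cast
  ring

lemma inj_cplx {h : ℝ → ℂ} (hh : Integrable h) (h0 : ∀ a : ℝ, ∫ s, ems a s * h s = 0) :
    h =ᵐ[volume] 0 := by
  have hi : ∀ a : ℝ, ∀ f : ℝ → ℂ, Integrable f → Integrable fun s => ems a s * f s := fun a f hf =>
    hf.bdd_mul (c := 1) (ems_cont a).aestronglyMeasurable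
      (Eventually.of_forall fun s => (ems_norm a s).le)
  have hc : ∀ a : ℝ, ∫ s, ems a s * (starRingEnd ℂ) (h s) = 0 := by
    intro a
    have h1 := congrArg (starRingEnd ℂ) (h0 (-a))
    rw [← integral_conj, map_zero] at h1
    rw [← h1]
    refine integral_congr_ae (Eventually.of_forall fun s => ?_)
    simp only [map_mul, ems_conj, neg_neg]
  have hhc : Integrable fun s => (starRingEnd ℂ) (h s) := by
    refine ⟨Complex.continuous_conj.comp_aestronglyMeasurable hh.1, ?_⟩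
    refine hh.2.congr' ?_
    exact Eventually.of_forall fun s => by rw [RCLike.norm_conj]
  have hre : (fun s => (h s).re) =ᵐ[volume] 0 := by
    refine inj_real hh.re fun a => ?_
    have h1 : ∫ s, (ems a s * h s + ems a s * (starRingEnd ℂ) (h s)) = 0 := by
      rw [integral_add (hi a _ hh) (hi a _ hhc), h0, hc, add_zero]
    have h2 : ∫ s, ems a s * ((h s).re : ℂ) =
        (1 / 2 : ℂ) * ∫ s, (ems a s * h s + ems a s * (starRingEnd ℂ) (h s)) := by
      rw [← integral_const_mul]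
      refine integral_congr_ae (Eventually.of_forall fun s => ?_)
      simp only []
      rw [← mul_add, Complex.add_conj]
      push_cast
      ring
    rw [h1, mul_zero] at h2
    exact h2
  have him : (fun s => (h s).im) =ᵐ[volume] 0 := by
    refine inj_real hh.im fun a => ?_
    have h1 : ∫ s, (ems a s * h s - ems a s * (starRingEnd ℂ) (h s)) = 0 := by
      rw [integral_sub (hi a _ hh) (hi a _ hhc), h0, hc, sub_zero]
    have h2 : ∫ s, ems a s * ((h s).im : ℂ) =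
        (1 / (2 * Complex.I) : ℂ) *
          ∫ s, (ems a s * h s - ems a s * (starRingEnd ℂ) (h s)) := by
      rw [← integral_const_mul]
      refine integral_congr_ae (Eventually.of_forall fun s => ?_)
      simp only []
      rw [← mul_sub, Complex.sub_conj]
      push_cast
      have := Complex.I_ne_zero
      field_simp
    rw [h1, mul_zero] at h2
    exact h2
  filter_upwards [hre, him] with s h1 h2
  exact Complex.ext h1 h2

end GgC

end Pool.Agent.Helper23.ED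

end

section

open scoped InnerProductSpace Topology ENNReal BoundedContinuousFunction

open ContinuousLinearMap Filter MeasureTheory

namespace Pool.Agent.Helper23.ED

open Pool.Agent.Helper23 Pool.Agent.Helper23.RBF

universe u

variable {H : Type*} [NormedAddCommGroup H] [InnerProductSpace ℂ H] [CompleteSpace H]

variable {M N : VonNeumannAlgebra H} {ξ : H} {E : (H →L[ℂ] H) → (H →L[ℂ] H)}

namespace MnA

omit [CompleteSpace H] in
lemma ph_zero_right (a : ℝ) : ph a 0 = 1 := by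
  simp [ph]

end MnA

end Pool.Agent.Helper23.ED

end

section

open scoped InnerProductSpace Topology ENNReal BoundedContinuousFunction

open ContinuousLinearMap Filter MeasureTheory

namespace Pool.Agent.Helper23.ED

open Pool.Agent.Helper23 Pool.Agent.Helper23.RBF

universe u

open TopologicalSpace

variable {H : Type*} [NormedAddCommGroup H] [InnerProductSpace ℂ H] [CompleteSpace H]

variable {N : VonNeumannAlgebra H} {ξ : H} {W : ℝ → H →L[ℂ] H}

namespace WuA

lemma ems_conj (a : ℝ) : (fun s => (starRingEnd ℂ) (ems a s)) = ems (-a) := by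
  funext s
  unfold ems ph
  rw [← Complex.exp_conj, map_mul, Complex.conj_I, Complex.conj_ofReal]
  congr 1
  push_cast
  ring

end WuA

end Pool.Agent.Helper23.ED

end

section

open scoped InnerProductSpace Topology ENNReal BoundedContinuousFunction

open ContinuousLinearMap Filter MeasureTheory

namespace Pool.Agent.Helper23.ED

open Pool.Agent.Helper23 Pool.Agent.Helper23.RBF

universe u

open TopologicalSpace

variable {H : Type*} [NormedAddCommGroup H] [InnerProductSpace ℂ H] [CompleteSpace H]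

variable {N : VonNeumannAlgebra H} {ξ : H} {V c : ℝ → H →L[ℂ] H} {ψ : (H →L[ℂ] H) → ℝ≥0∞}

namespace WuB

lemma V_neg (hV : UG V) (t : ℝ) : V t * V (-t) = 1 := by
  rw [← hV.add, add_neg_cancel, hV.zero]

lemma V_neg' (hV : UG V) (t : ℝ) : V (-t) * V t = 1 := by
  rw [← hV.add, neg_add_cancel, hV.zero]

lemma c_zero (hV : UG V) (hc : Coc N V ψ c) : c 0 = 1 := by
  have h1 := hc.cocycle 0 0
  rw [neg_zero, hV.zero, add_zero, one_mul, mul_one] at h1
  have h2 : star (c 0) * c 0 = star (c 0) * (c 0 * c 0) := by rw [← h1]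
  rw [← mul_assoc, (hc.unit 0).1, one_mul] at h2
  exact h2.symm

end WuB

end Pool.Agent.Helper23.ED

end
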