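import Pool.Agent.Helper23.FA.Ns
import Pool.Agent.Helper23.RBFDefs

/-!
Parts of Helper78.BC.Transport, Helper88.CS.CornerSpec, Helper88.CS.Real, Helper23.ED.DefsW, Helper23.ED.WtA, Helper23.ED.WtF, Helper23.ED.CoC, Helper23.ED.WtE, Helper23.ED.WtB
-/

section

open scoped InnerProductSpace Topology

open ContinuousLinearMap Filter

open Pool.Agent.Helper23 Pool.Agent.Helper23.RBF

namespace Pool.Agent.Helper78.BC

universe u

namespace Transport

variable {H : Type u} [NormedAddCommGroup H] [InnerProductSpace ℂ H] [CompleteSpace H]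

variable {K : Type u} [NormedAddCommGroup K] [InnerProductSpace ℂ K] [CompleteSpace K]

/-- The compression of an operator. -/
noncomputable def r (i : K →L[ℂ] H) (x : H →L[ℂ] H) : K →L[ℂ] K := adjoint i ∘L (x ∘L i)

/-- The hypotheses: `i` is an isometry onto the closure of `A ξ`. -/
structure Sub (A : VonNeumannAlgebra H) (ξ : H) (i : K →L[ℂ] H) (κ : K) : Prop where
  isom : ∀ k, adjoint i (i k) = k
  inv : ∀ x ∈ A, ∀ k, i (adjoint i (x (i k))) = x (i k)
  vec : i κ = ξ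
  cyc : ∀ (k : K) (ε : ℝ), 0 < ε → ∃ a ∈ A, ‖a ξ - i k‖ < ε

variable {A : VonNeumannAlgebra H} {ξ : H} {i : K →L[ℂ] H} {κ : K}

lemma r_apply (x : H →L[ℂ] H) (k : K) : r i x k = adjoint i (x (i k)) := rfl

lemma inner_i (k : K) (v : H) : ⟪i k, v⟫_ℂ = ⟪k, adjoint i v⟫_ℂ := (adjoint_inner_right i k v).symm

lemma inner_i' (k : K) (v : H) : ⟪v, i k⟫_ℂ = ⟪adjoint i v, k⟫_ℂ := (adjoint_inner_left i k v).symm

namespace Sub

variable (S : Sub A ξ i κ)

include S

lemma i_norm (k : K) : ‖i k‖ = ‖k‖ := by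
  have h : ⟪i k, i k⟫_ℂ = ⟪k, k⟫_ℂ := by rw [inner_i, S.isom]
  rw [inner_self_eq_norm_sq_to_K, inner_self_eq_norm_sq_to_K] at h
  have h2 : ‖i k‖ ^ 2 = ‖k‖ ^ 2 := by exact_mod_cast h
  exact (sq_eq_sq₀ (norm_nonneg _) (norm_nonneg _)).1 h2

lemma adj_norm (v : H) : ‖adjoint i v‖ ≤ ‖v‖ := by
  have h1 : ‖i‖ ≤ 1 := opNorm_le_bound _ zero_le_one fun k => by rw [S.i_norm, one_mul]
  have h2 := (adjoint i).le_opNorm v
  have h3 : ‖adjoint i‖ = ‖i‖ := LinearIsometryEquiv.norm_map adjoint i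
  rw [h3] at h2
  exact h2.trans (mul_le_of_le_one_left (norm_nonneg v) h1)

lemma i_r {x : H →L[ℂ] H} (hx : x ∈ A) (k : K) : i (r i x k) = x (i k) := S.inv x hx k

lemma i_inj {k k' : K} (h : i k = i k') : k = k' := by rw [← S.isom k, h, S.isom]

/-- the projection commutes with `A` -/
lemma proj_comm {x : H →L[ℂ] H} (hx : x ∈ A) (v : H) :
    x (i (adjoint i v)) = i (adjoint i (x v)) := by
  have h1 : ∀ k : K, ⟪i k, x (i (adjoint i v))⟫_ℂ = ⟪i k, x v⟫_ℂ := by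
    intro k
    have e1 : ∀ w, ⟪i k, x w⟫_ℂ = ⟪(star x) (i k), w⟫_ℂ := fun w => by
      rw [ContinuousLinearMap.star_eq_adjoint, adjoint_inner_left]
    rw [e1, e1, ← S.inv (star x) (star_mem hx) k]
    rw [inner_i (i := i), S.isom, inner_i (i := i)]
  have h2 : adjoint i (x (i (adjoint i v))) = adjoint i (x v) := by
    refine ext_inner_left ℂ fun k => ?_
    rw [← inner_i, ← inner_i]
    exact h1 k
  rw [← h2, S.inv x hx]

lemma r_mul {x : H →L[ℂ] H} {y : H →L[ℂ] H} (hx : x ∈ A) : r i x * r i y = r i (x * y) := by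
  ext k
  change adjoint i (x (i (adjoint i (y (i k))))) = adjoint i (x (y (i k)))
  rw [S.proj_comm hx, S.isom]

lemma r_mul' {x : H →L[ℂ] H} {y : H →L[ℂ] H} (hy : y ∈ A) : r i x * r i y = r i (x * y) := by
  ext k
  change adjoint i (x (i (adjoint i (y (i k))))) = adjoint i (x (y (i k)))
  rw [S.inv y hy]

omit S in
lemma r_star (x : H →L[ℂ] H) : star (r i x) = r i (star x) := by
  refine ContinuousLinearMap.ext fun k => ext_inner_left ℂ fun l => ?_
  rw [ContinuousLinearMap.star_eq_adjoint, adjoint_inner_right, r_apply, r_apply, ← inner_i,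
    ContinuousLinearMap.star_eq_adjoint, adjoint_inner_right, ← inner_i']

lemma r_one : r i (1 : H →L[ℂ] H) = 1 := by
  ext k
  change adjoint i (i k) = k
  exact S.isom k

lemma r_norm (x : H →L[ℂ] H) : ‖r i x‖ ≤ ‖x‖ := by
  refine opNorm_le_bound _ (norm_nonneg x) fun k => ?_
  rw [r_apply]
  refine (S.adj_norm _).trans ((x.le_opNorm _).trans ?_)
  rw [S.i_norm]

lemma r_inj (hsep : ∀ a ∈ A, a ξ = 0 → a = 0) {x y : H →L[ℂ] H} (hx : x ∈ A) (hy : y ∈ A)
    (h : r i x = r i y) : x = y := by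
  have h1 : (x - y) ξ = 0 := by
    have h2 : i (r i x κ) = i (r i y κ) := by rw [h]
    rw [S.i_r hx, S.i_r hy, S.vec] at h2
    rw [sub_apply, h2, sub_self]
  exact sub_eq_zero.1 (hsep _ (sub_mem hx hy) h1)

end Sub

/-- The von Neumann algebra generated by the compressions. -/
noncomputable def B (A : VonNeumannAlgebra H) (i : K →L[ℂ] H) : VonNeumannAlgebra K where
  toStarSubalgebra := StarSubalgebra.centralizer ℂ {c | ∀ x ∈ A, c * r i x = r i x * c}
  centralizer_centralizer' := Set.centralizer_centralizer_centralizer _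

variable (S : Sub A ξ i κ)

include S

/-- inner products -/
lemma inner_r {a : H →L[ℂ] H} (k l : K) : ⟪k, r i a l⟫_ℂ = ⟪i k, a (i l)⟫_ℂ := by
  have _ := S
  rw [r_apply, ← inner_i]

end Transport

end Pool.Agent.Helper78.BC

end

section

open scoped InnerProductSpace Topology BoundedContinuousFunction

open ContinuousLinearMap Filter MeasureTheory

namespace Pool.Agent.Helper88.CS

open Pool.Agent.Helper23

variable {H : Type*} [NormedAddCommGroup H] [InnerProductSpace ℂ H] [CompleteSpace H]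

variable {A : VonNeumannAlgebra H} {ξ : H} {J : H →L[ℝ] H}
  {Ψ : (ℝ →ᵇ ℂ) →⋆ₐ[ℂ] (H →L[ℂ] H)} {R : H →L[ℂ] H} {D : H →L[ℝ] H}

namespace CornerSpecAux

theorem psiv (Ψ : (ℝ →ᵇ ℂ) →⋆ₐ[ℂ] (H →L[ℂ] H)) (G : ℝ →ᵇ ℂ) (v : H) :
    ‖Ψ G v‖ ≤ ‖G‖ * ‖v‖ :=
  ((Ψ G).le_opNorm v).trans (mul_le_mul_of_nonneg_right
    (NonUnitalStarAlgHom.norm_apply_le Ψ G) (norm_nonneg _))

end CornerSpecAux

end Pool.Agent.Helper88.CS

end

section

open scoped InnerProductSpace Topology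

open ContinuousLinearMap Filter

namespace Pool.Agent.Helper88.CS

open Pool.Agent.Helper23

universe u

variable {H : Type u} [NormedAddCommGroup H] [InnerProductSpace ℂ H] [CompleteSpace H]

namespace RealAux

open Pool.Agent.Helper78.BC Pool.Agent.Helper78.BC.Transport

lemma r_add {K : Type u} [NormedAddCommGroup K] [InnerProductSpace ℂ K] [CompleteSpace K]
    {L : Type u} [NormedAddCommGroup L] [InnerProductSpace ℂ L] [CompleteSpace L]
    (i : K →L[ℂ] L) (x y : L →L[ℂ] L) : r i (x + y) = r i x + r i y := by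
  ext k
  change adjoint i (x (i k) + y (i k)) = adjoint i (x (i k)) + adjoint i (y (i k))
  rw [map_add]

lemma r_smul {K : Type u} [NormedAddCommGroup K] [InnerProductSpace ℂ K] [CompleteSpace K]
    {L : Type u} [NormedAddCommGroup L] [InnerProductSpace ℂ L] [CompleteSpace L]
    (i : K →L[ℂ] L) (c : ℂ) (x : L →L[ℂ] L) : r i (c • x) = c • r i x := by
  ext k
  change adjoint i (c • x (i k)) = c • adjoint i (x (i k))
  rw [map_smul]

end RealAux

end Pool.Agent.Helper88.CS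

end

section

open scoped InnerProductSpace Topology ENNReal BoundedContinuousFunction

open ContinuousLinearMap Filter MeasureTheory

namespace Pool.Agent.Helper23.ED

open Pool.Agent.Helper23 Pool.Agent.Helper23.RBF

open Pool.Agent.Helper78.BC.Transport (Sub r)

universe u

section gns

variable {H : Type u} [NormedAddCommGroup H] [InnerProductSpace ℂ H] [CompleteSpace H]

variable {K : Type u} [NormedAddCommGroup K] [InnerProductSpace ℂ K] [CompleteSpace K]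

variable {L : Type u} [NormedAddCommGroup L] [InnerProductSpace ℂ L] [CompleteSpace L]

/-- the domain `{a ∈ N | ψ(a a*) < ∞}` -/
def Dm (N : VonNeumannAlgebra H) (ψ : (H →L[ℂ] H) → ℝ≥0∞) : Set (H →L[ℂ] H) :=
  {a | a ∈ N ∧ ψ (a * star a) ≠ ⊤}

/-- the Hilbert space of the weight; `ρ p` is right multiplication by `p` -/
structure Gns (N : VonNeumannAlgebra H) (ψ : (H →L[ℂ] H) → ℝ≥0∞) (Λ : (H →L[ℂ] H) → L)
    (ρ : (H →L[ℂ] H) → (L →L[ℂ] L)) : Prop where
  add : ∀ a ∈ Dm N ψ, ∀ b ∈ Dm N ψ, Λ (a + b) = Λ a + Λ b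
  smul : ∀ (c : ℂ), ∀ a ∈ Dm N ψ, Λ (c • a) = c • Λ a
  norm : ∀ a ∈ Dm N ψ, ‖Λ a‖ ^ 2 = (ψ (a * star a)).toReal
  mul : ∀ p ∈ N, ∀ a ∈ Dm N ψ, ρ p (Λ a) = Λ (a * p)
  star : ∀ p ∈ N, star (ρ p) = ρ (star p)

/-- the pairs `(a ξ, Λ a)` -/
def Gp (N : VonNeumannAlgebra H) (ψ : (H →L[ℂ] H) → ℝ≥0∞) (ξ : H) (i : K →L[ℂ] H)
    (Λ : (H →L[ℂ] H) → L) : Set (K × L) :=
  {p | ∃ a ∈ Dm N ψ, i p.1 = a ξ ∧ p.2 = Λ a}

end gns

end Pool.Agent.Helper23.ED

end

section

open scoped InnerProductSpace Topology ENNReal BoundedContinuousFunction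

open ContinuousLinearMap Filter MeasureTheory

namespace Pool.Agent.Helper23.ED

open Pool.Agent.Helper23 Pool.Agent.Helper23.RBF

open Pool.Agent.Helper78.BC.Transport (Sub r)

universe u

variable {H : Type u} [NormedAddCommGroup H] [InnerProductSpace ℂ H] [CompleteSpace H]

variable {N : VonNeumannAlgebra H} {ψ : (H →L[ℂ] H) → ℝ≥0∞}

theorem wt_mono (hψ : IsNSFWeight N ψ) {x y : H →L[ℂ] H} (hx : x ∈ N) (hy : y ∈ N)
    (h0 : 0 ≤ x) (h : x ≤ y) : ψ x ≤ ψ y := by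
  have h1 := hψ.add x hx (y - x) (sub_mem hy hx) h0 (sub_nonneg.2 h)
  rw [add_sub_cancel] at h1
  rw [h1]
  exact le_self_add

theorem wt_zero (hψ : IsNSFWeight N ψ) : ψ 0 = 0 := by
  have h := hψ.smul 0 (zero_mem N) le_rfl 0 le_rfl
  rw [smul_zero, ENNReal.ofReal_zero, zero_mul] at h
  exact h

theorem WtA_mem {a : H →L[ℂ] H} (ha : a ∈ N) : a * star a ∈ N :=
  mul_mem ha (star_mem ha)

theorem WtA_nonneg (a : H →L[ℂ] H) : 0 ≤ a * star a := mul_star_self_nonneg a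

theorem Dm_add (hψ : IsNSFWeight N ψ) {a b : H →L[ℂ] H} (ha : a ∈ Dm N ψ) (hb : b ∈ Dm N ψ) :
    a + b ∈ Dm N ψ := by
  refine ⟨add_mem ha.1 hb.1, ?_⟩
  have hA := WtA_mem ha.1
  have hB := WtA_mem hb.1
  have hA0 := WtA_nonneg a
  have hB0 := WtA_nonneg b
  have hle : (a + b) * star (a + b) ≤
      (a * star a + a * star a) + (b * star b + b * star b) := by
    rw [← sub_nonneg]
    have e : (a * star a + a * star a) + (b * star b + b * star b) - (a + b) * star (a + b) =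
        (a - b) * star (a - b) := by
      rw [star_add, star_sub]
      noncomm_ring
    rw [e]
    exact WtA_nonneg _
  have h1 := wt_mono hψ (WtA_mem (add_mem ha.1 hb.1))
    (add_mem (add_mem hA hA) (add_mem hB hB)) (WtA_nonneg _) hle
  refine ne_top_of_le_ne_top ?_ h1
  rw [hψ.add _ (add_mem hA hA) _ (add_mem hB hB) (add_nonneg hA0 hA0) (add_nonneg hB0 hB0),
    hψ.add _ hA _ hA hA0 hA0, hψ.add _ hB _ hB hB0 hB0]
  exact ENNReal.add_ne_top.2 ⟨ENNReal.add_ne_top.2 ⟨ha.2, ha.2⟩,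
    ENNReal.add_ne_top.2 ⟨hb.2, hb.2⟩⟩

theorem Dm_smul (hψ : IsNSFWeight N ψ) (c : ℂ) {a : H →L[ℂ] H} (ha : a ∈ Dm N ψ) :
    c • a ∈ Dm N ψ := by
  refine ⟨N.toStarSubalgebra.smul_mem ha.1 c, ?_⟩
  have e : (c • a) * star (c • a) = ((‖c‖ ^ 2 : ℝ) : ℂ) • (a * star a) := by
    rw [star_smul, smul_mul_smul_comm]
    congr 1
    rw [Complex.star_def, Complex.mul_conj, Complex.normSq_eq_norm_sq]
  rw [e, hψ.smul _ (WtA_mem ha.1) (WtA_nonneg a) _ (by positivity)]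
  exact ENNReal.mul_ne_top ENNReal.ofReal_ne_top ha.2

theorem Dm_mul (hψ : IsNSFWeight N ψ) {a p : H →L[ℂ] H} (ha : a ∈ Dm N ψ) (hp : p ∈ N) :
    a * p ∈ Dm N ψ := by
  refine ⟨mul_mem ha.1 hp, ?_⟩
  have hle : (a * p) * star (a * p) ≤ ((‖p * star p‖ : ℝ) : ℂ) • (a * star a) := by
    have h := CStarAlgebra.star_right_conjugate_le_norm_smul (a := a) (b := p * star p)
      (IsSelfAdjoint.mul_star_self p)
    have e1 : (a * p) * star (a * p) = a * (p * star p) * star a := by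
      rw [star_mul]
      noncomm_ring
    rw [e1]
    refine h.trans (le_of_eq ?_)
    exact (Complex.coe_smul _ _).symm
  have hmem : ((‖p * star p‖ : ℝ) : ℂ) • (a * star a) ∈ N :=
    N.toStarSubalgebra.smul_mem (WtA_mem ha.1) _
  have h1 := wt_mono hψ (WtA_mem (mul_mem ha.1 hp)) hmem (WtA_nonneg _) hle
  refine ne_top_of_le_ne_top ?_ h1
  rw [hψ.smul _ (WtA_mem ha.1) (WtA_nonneg a) _ (norm_nonneg _)]
  exact ENNReal.mul_ne_top ENNReal.ofReal_ne_top ha.2

end Pool.Agent.Helper23.ED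

end

section

open scoped InnerProductSpace Topology ENNReal BoundedContinuousFunction

open ContinuousLinearMap Filter MeasureTheory

namespace Pool.Agent.Helper23.ED

open Pool.Agent.Helper23 Pool.Agent.Helper23.RBF

open Pool.Agent.Helper78.BC.Transport (Sub r)

universe u

variable {H : Type u} [NormedAddCommGroup H] [InnerProductSpace ℂ H] [CompleteSpace H]

variable {K : Type u} [NormedAddCommGroup K] [InnerProductSpace ℂ K] [CompleteSpace K]

variable {L : Type u} [NormedAddCommGroup L] [InnerProductSpace ℂ L] [CompleteSpace L]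

variable {N : VonNeumannAlgebra H} {ψ : (H →L[ℂ] H) → ℝ≥0∞} {ξ : H} {i : K →L[ℂ] H} {κ : K}
  {Λ : (H →L[ℂ] H) → L} {ρ : (H →L[ℂ] H) → (L →L[ℂ] L)}

namespace WtF

theorem Dm_zero (hψ : IsNSFWeight N ψ) : (0 : H →L[ℂ] H) ∈ Dm N ψ := by
  refine ⟨zero_mem N, ?_⟩
  rw [zero_mul, wt_zero hψ]
  exact ENNReal.zero_ne_top

theorem Lam_zero (hψ : IsNSFWeight N ψ) (hG : Gns N ψ Λ ρ) : Λ 0 = 0 := by
  have h := hG.smul 0 0 (Dm_zero hψ)
  rwa [zero_smul, zero_smul] at h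

end WtF

theorem Gp_sub (Sb : Sub N ξ i κ) (hψ : IsNSFWeight N ψ) (hG : Gns N ψ Λ ρ) :
    ∃ Γ : Submodule ℂ (K × L), (Γ : Set (K × L)) = Gp N ψ ξ i Λ := by
  refine ⟨{ carrier := Gp N ψ ξ i Λ, add_mem' := ?_, zero_mem' := ?_, smul_mem' := ?_ }, rfl⟩
  · rintro p q ⟨a, ha, h1, h2⟩ ⟨b, hb, h3, h4⟩
    refine ⟨a + b, Dm_add hψ ha hb, ?_, ?_⟩
    · rw [Prod.fst_add, map_add, h1, h3, add_apply]
    · rw [Prod.snd_add, hG.add a ha b hb, h2, h4]
  · refine ⟨0, WtF.Dm_zero hψ, ?_, ?_⟩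
    · rw [Prod.fst_zero, map_zero, zero_apply]
    · rw [Prod.snd_zero, WtF.Lam_zero hψ hG]
  · rintro c p ⟨a, ha, h1, h2⟩
    refine ⟨c • a, Dm_smul hψ c ha, ?_, ?_⟩
    · rw [Prod.smul_fst, map_smul, h1, smul_apply]
    · rw [Prod.smul_snd, hG.smul c a ha, h2]

end Pool.Agent.Helper23.ED

end

section

open scoped InnerProductSpace Topology ENNReal BoundedContinuousFunction

open ContinuousLinearMap Filter MeasureTheory

namespace Pool.Agent.Helper23.ED

open Pool.Agent.Helper23 Pool.Agent.Helper23.RBF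

open Pool.Agent.Helper78.BC.Transport (Sub r)

universe u

variable {H : Type u} [NormedAddCommGroup H] [InnerProductSpace ℂ H] [CompleteSpace H]

variable {K : Type u} [NormedAddCommGroup K] [InnerProductSpace ℂ K] [CompleteSpace K]

variable {M N : VonNeumannAlgebra H} {E : (H →L[ℂ] H) → (H →L[ℂ] H)} {ξ : H}
  {i : K →L[ℂ] H} {κ : K}

namespace CoC

lemma r_smul (z : ℂ) (x : H →L[ℂ] H) : r i (z • x) = z • r i x := by
  ext k
  change adjoint i (z • x (i k)) = z • adjoint i (x (i k))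
  rw [map_smul]

end CoC

end Pool.Agent.Helper23.ED

end

section

open scoped InnerProductSpace Topology ENNReal BoundedContinuousFunction

open ContinuousLinearMap Filter MeasureTheory

namespace Pool.Agent.Helper23.ED

open Pool.Agent.Helper23 Pool.Agent.Helper23.RBF

open Pool.Agent.Helper78.BC.Transport (Sub r)

universe u

variable {H : Type u} [NormedAddCommGroup H] [InnerProductSpace ℂ H] [CompleteSpace H]

variable {K : Type u} [NormedAddCommGroup K] [InnerProductSpace ℂ K] [CompleteSpace K]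

variable {L : Type u} [NormedAddCommGroup L] [InnerProductSpace ℂ L] [CompleteSpace L]

variable {N : VonNeumannAlgebra H} {ψ : (H →L[ℂ] H) → ℝ≥0∞} {ξ : H} {i : K →L[ℂ] H} {κ : K}
  {Λ : (H →L[ℂ] H) → L} {ρ : (H →L[ℂ] H) → (L →L[ℂ] L)}

namespace WtE

omit [CompleteSpace H] in
lemma re_mono {x y : H →L[ℂ] H} (h : x ≤ y) (v : H) :
    (⟪v, x v⟫_ℂ).re ≤ (⟪v, y v⟫_ℂ).re := by
  have h1 := ((ContinuousLinearMap.le_def x y).1 h).re_inner_nonneg_right v
  rw [sub_apply, inner_sub_right, map_sub] at h1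
  simp only [RCLike.re_to_complex] at h1
  linarith

/-- the weighted sums -/
noncomputable def w (a : ℕ → H →L[ℂ] H) (k n : ℕ) : H →L[ℂ] H :=
  ∑ j ∈ Finset.Ico k n, (((2 : ℝ) ^ (j + 1) : ℝ) : ℂ) • (a j * star (a j))

open scoped ComplexOrder in
lemma term_nonneg (a : ℕ → H →L[ℂ] H) (j : ℕ) :
    0 ≤ (((2 : ℝ) ^ (j + 1) : ℝ) : ℂ) • (a j * star (a j)) := by
  have h1 : 0 ≤ a j * star (a j) := mul_star_self_nonneg _
  have h2 : (0 : ℂ) ≤ (((2 : ℝ) ^ (j + 1) : ℝ) : ℂ) := by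
    exact_mod_cast (by positivity : (0 : ℝ) ≤ 2 ^ (j + 1))
  exact smul_nonneg h2 h1

lemma w_nonneg (a : ℕ → H →L[ℂ] H) (k n : ℕ) : 0 ≤ w a k n :=
  Finset.sum_nonneg fun j _ => term_nonneg a j

lemma w_mem {a : ℕ → H →L[ℂ] H} (ha : ∀ j, a j ∈ N) (k n : ℕ) : w a k n ∈ N := by
  refine sum_mem fun j _ => ?_
  exact N.toStarSubalgebra.smul_mem (mul_mem (ha j) (star_mem (ha j))) _

lemma w_mono (a : ℕ → H →L[ℂ] H) (k : ℕ) : Monotone (w a k) := by
  intro n m hnm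
  exact Finset.sum_le_sum_of_subset_of_nonneg (Finset.Ico_subset_Ico_right hnm)
    fun j _ _ => term_nonneg a j

lemma w_anti (a : ℕ → H →L[ℂ] H) {k l : ℕ} (hkl : k ≤ l) (n : ℕ) : w a l n ≤ w a k n :=
  Finset.sum_le_sum_of_subset_of_nonneg (Finset.Ico_subset_Ico_left hkl)
    fun j _ _ => term_nonneg a j

lemma w_psi (hψ : IsNSFWeight N ψ) (hG : Gns N ψ Λ ρ) {a : ℕ → H →L[ℂ] H}
    (ha : ∀ j, a j ∈ Dm N ψ) (hn : ∀ j, ‖Λ (a j)‖ ^ 2 ≤ (1 / 8 : ℝ) ^ j) (k n : ℕ) :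
    ψ (w a k n) ≤ ENNReal.ofReal (∑ j ∈ Finset.Ico k n, 2 * (1 / 4 : ℝ) ^ j) := by
  have haN : ∀ j, a j ∈ N := fun j => (ha j).1
  induction n with
  | zero =>
    have : w a k 0 = 0 := by simp [w]
    rw [this, wt_zero hψ]
    exact bot_le
  | succ n ih =>
    by_cases hk : k ≤ n
    · have e1 : w a k (n + 1) = w a k n +
          (((2 : ℝ) ^ (n + 1) : ℝ) : ℂ) • (a n * star (a n)) := by
        rw [w, Finset.sum_Ico_succ_top hk]
        rfl
      have h0 : 0 ≤ a n * star (a n) := mul_star_self_nonneg _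
      have hm : a n * star (a n) ∈ N := mul_mem (haN n) (star_mem (haN n))
      rw [e1, hψ.add _ (w_mem haN k n) _ (N.toStarSubalgebra.smul_mem hm _) (w_nonneg a k n)
        (term_nonneg a n), hψ.smul _ hm h0 _ (by positivity), Finset.sum_Ico_succ_top hk,
        ENNReal.ofReal_add (Finset.sum_nonneg fun j _ => by positivity) (by positivity)]
      refine add_le_add ih ?_
      have h1 : ψ (a n * star (a n)) = ENNReal.ofReal (‖Λ (a n)‖ ^ 2) := by
        rw [hG.norm _ (ha n), ENNReal.ofReal_toReal (ha n).2]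
      rw [h1, ← ENNReal.ofReal_mul (by positivity)]
      refine ENNReal.ofReal_le_ofReal ?_
      calc (2 : ℝ) ^ (n + 1) * ‖Λ (a n)‖ ^ 2 ≤ 2 ^ (n + 1) * (1 / 8) ^ n := by
            gcongr
            exact hn n
        _ = 2 * (1 / 4) ^ n := by
            rw [pow_succ]
            have : (2 : ℝ) ^ n * (1 / 8) ^ n = (1 / 4) ^ n := by
              rw [← mul_pow]; norm_num
            linear_combination 2 * this
    · have h1 : Finset.Ico k (n + 1) = ∅ := Finset.Ico_eq_empty (by omega)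
      have : w a k (n + 1) = 0 := by simp [w, h1]
      rw [this, wt_zero hψ]
      exact bot_le

lemma term_le (a : ℕ → H →L[ℂ] H) {k j : ℕ} (hkj : k ≤ j) (u : H) :
    (2 : ℝ) ^ (j + 1) * ‖(star (a j)) u‖ ^ 2 ≤ (⟪u, w a k (j + 1) u⟫_ℂ).re := by
  have h1 : (((2 : ℝ) ^ (j + 1) : ℝ) : ℂ) • (a j * star (a j)) ≤ w a k (j + 1) := by
    rw [w]
    exact Finset.single_le_sum (f := fun j => (((2 : ℝ) ^ (j + 1) : ℝ) : ℂ) • (a j * star (a j)))
      (fun j _ => term_nonneg a j) (Finset.mem_Ico.2 ⟨hkj, Nat.lt_succ_self j⟩)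
  refine le_trans (le_of_eq ?_) (re_mono h1 u)
  have h2 : ⟪u, (a j * star (a j)) u⟫_ℂ = ((‖(star (a j)) u‖ ^ 2 : ℝ) : ℂ) := by
    change ⟪u, a j ((star (a j)) u)⟫_ℂ = _
    have h3 : ⟪u, a j ((star (a j)) u)⟫_ℂ = ⟪(star (a j)) u, (star (a j)) u⟫_ℂ := by
      conv_rhs => rw [ContinuousLinearMap.star_eq_adjoint, adjoint_inner_left]
      rw [ContinuousLinearMap.star_eq_adjoint]
    rw [h3, inner_self_eq_norm_sq_to_K]
    simp
  rw [smul_apply, inner_smul_right, h2, ← Complex.ofReal_mul, Complex.ofReal_re]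

end WtE

end Pool.Agent.Helper23.ED

end

section

open scoped InnerProductSpace Topology ENNReal BoundedContinuousFunction

open ContinuousLinearMap Filter MeasureTheory

namespace Pool.Agent.Helper23.ED

open Pool.Agent.Helper23 Pool.Agent.Helper23.RBF

open Pool.Agent.Helper78.BC.Transport (Sub r)

universe u

variable {H : Type u} [NormedAddCommGroup H] [InnerProductSpace ℂ H] [CompleteSpace H]

variable {N : VonNeumannAlgebra H} {ψ : (H →L[ℂ] H) → ℝ≥0∞}

namespace WtB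

/-- the squares -/
noncomputable def sq (a : H →L[ℂ] H) : H →L[ℂ] H := a * star a

theorem sq_nonneg' (a : H →L[ℂ] H) : 0 ≤ sq a := mul_star_self_nonneg a

theorem sq_mem {a : H →L[ℂ] H} (ha : a ∈ N) : sq a ∈ N := mul_mem ha (star_mem ha)

/-- the square of the norm -/
noncomputable def q (ψ : (H →L[ℂ] H) → ℝ≥0∞) (a : H →L[ℂ] H) : ℝ := (ψ (sq a)).toReal

theorem q_nonneg (a : H →L[ℂ] H) : 0 ≤ q ψ a := ENNReal.toReal_nonneg

theorem psi_smul (hψ : IsNSFWeight N ψ) {a : H →L[ℂ] H} (ha : a ∈ Dm N ψ) {c : ℝ} (hc : 0 ≤ c) :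
    (ψ ((c : ℂ) • sq a)).toReal = c * q ψ a := by
  rw [hψ.smul _ (sq_mem ha.1) (sq_nonneg' a) c hc, ENNReal.toReal_mul, ENNReal.toReal_ofReal hc]
  rfl

theorem sq_smul (c : ℂ) (a : H →L[ℂ] H) : sq (c • a) = ((‖c‖ ^ 2 : ℝ) : ℂ) • sq a := by
  unfold sq
  rw [star_smul, smul_mul_smul_comm]
  congr 1
  rw [RCLike.star_def, Complex.mul_conj, Complex.normSq_eq_norm_sq]

theorem q_smul (hψ : IsNSFWeight N ψ) (c : ℂ) {a : H →L[ℂ] H} (ha : a ∈ Dm N ψ) :
    q ψ (c • a) = ‖c‖ ^ 2 * q ψ a := by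
  unfold q
  rw [sq_smul]
  exact psi_smul hψ ha (by positivity)

theorem q_zero_iff (hψ : IsNSFWeight N ψ) {a : H →L[ℂ] H} (ha : a ∈ Dm N ψ) :
    q ψ a = 0 ↔ a = 0 := by
  constructor
  · intro h
    unfold q at h
    rw [ENNReal.toReal_eq_zero_iff] at h
    rcases h with h | h
    · have h2 := hψ.faithful _ (sq_mem ha.1) (sq_nonneg' a) h
      exact (CStarRing.mul_star_self_eq_zero_iff a).mp h2
    · exact absurd h ha.2
  · rintro rfl
    unfold q sq
    rw [zero_mul, wt_zero hψ]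
    rfl

theorem zero_mem' (hψ : IsNSFWeight N ψ) : (0 : H →L[ℂ] H) ∈ Dm N ψ := by
  refine ⟨zero_mem N, ?_⟩
  rw [zero_mul, wt_zero hψ]
  simp

/-- the norm -/
noncomputable def s (ψ : (H →L[ℂ] H) → ℝ≥0∞) (a : H →L[ℂ] H) : ℝ := √(q ψ a)

/-- the domain as a submodule -/
noncomputable def DS (hψ : IsNSFWeight N ψ) : Submodule ℂ (H →L[ℂ] H) where
  carrier := Dm N ψ
  add_mem' ha hb := Dm_add hψ ha hb
  zero_mem' := zero_mem' hψ
  smul_mem' c _ ha := Dm_smul hψ c ha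

/-- the domain with the norm of the weight -/
def WD (hψ : IsNSFWeight N ψ) : Type u := ↥(DS hψ)

noncomputable instance (hψ : IsNSFWeight N ψ) : AddCommGroup (WD hψ) :=
  inferInstanceAs (AddCommGroup ↥(DS hψ))

noncomputable instance (hψ : IsNSFWeight N ψ) : Module ℂ (WD hψ) :=
  inferInstanceAs (Module ℂ ↥(DS hψ))

/-- the underlying operator -/
def op {hψ : IsNSFWeight N ψ} (a : WD hψ) : H →L[ℂ] H := (show ↥(DS hψ) from a).1

theorem op_mem {hψ : IsNSFWeight N ψ} (a : WD hψ) : op a ∈ Dm N ψ := (show ↥(DS hψ) from a).2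

theorem op_ext {hψ : IsNSFWeight N ψ} {a b : WD hψ} (h : op a = op b) : a = b := Subtype.ext h

theorem op_add {hψ : IsNSFWeight N ψ} (a b : WD hψ) : op (a + b) = op a + op b := rfl

theorem op_sub {hψ : IsNSFWeight N ψ} (a b : WD hψ) : op (a - b) = op a - op b := rfl

theorem op_zero {hψ : IsNSFWeight N ψ} : op (0 : WD hψ) = 0 := rfl

theorem op_smul {hψ : IsNSFWeight N ψ} (c : ℂ) (a : WD hψ) : op (c • a) = c • op a := rfl

/-- an element of the domain -/
def mk {hψ : IsNSFWeight N ψ} (a : H →L[ℂ] H) (ha : a ∈ Dm N ψ) : WD hψ :=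
  (⟨a, ha⟩ : ↥(DS hψ))

theorem op_mk {hψ : IsNSFWeight N ψ} (a : H →L[ℂ] H) (ha : a ∈ Dm N ψ) :
    op (mk (hψ := hψ) a ha) = a := rfl

noncomputable instance (hψ : IsNSFWeight N ψ) : Norm (WD hψ) := ⟨fun a => s ψ (op a)⟩

theorem norm_def {hψ : IsNSFWeight N ψ} (a : WD hψ) : ‖a‖ = s ψ (op a) := rfl

theorem norm_def' {hψ : IsNSFWeight N ψ} (a : WD hψ) : ‖a‖ = s ψ (op a) := rfl

theorem norm_sq' {hψ : IsNSFWeight N ψ} (a : WD hψ) : ‖a‖ ^ 2 = q ψ (op a) :=
  Real.sq_sqrt (q_nonneg _)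

/-- right multiplication -/
noncomputable def Rl (hψ : IsNSFWeight N ψ) {p : H →L[ℂ] H} (hp : p ∈ N) : WD hψ →ₗ[ℂ] WD hψ where
  toFun a := mk (op a * p) (Dm_mul hψ (op_mem a) hp)
  map_add' a b := op_ext (by
    rw [op_mk, op_add, op_add, op_mk, op_mk, add_mul])
  map_smul' c a := op_ext (by
    rw [op_mk, op_smul, RingHom.id_apply, op_smul, op_mk, smul_mul_assoc])

end WtB

end Pool.Agent.Helper23.ED

end
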