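import Pool.Agent.Helper23.FA.Ns

/-!
Parts of Helper88.CS.Trick1
-/

section

open scoped InnerProductSpace Topology BoundedContinuousFunction CompactlySupported

open ContinuousLinearMap Filter MeasureTheory

namespace Pool.Agent.Helper88.CS

open Pool.Agent.Helper23

variable {H : Type*} [NormedAddCommGroup H] [InnerProductSpace ℂ H] [CompleteSpace H]

variable {A : VonNeumannAlgebra H} {J : H →L[ℝ] H} {κ : H}

namespace Trick1Aux

section two

variable {X Y : H →L[ℂ] H} (hX : star X = X) (hY : star Y = Y) (hXY : X * Y = Y * X)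

include hX hY hXY

lemma normal : IsStarNormal (X + Complex.I • Y) := by
  refine ⟨?_⟩
  have h1 : star (X + Complex.I • Y) = X - Complex.I • Y := by
    rw [star_add, star_smul, hX, hY]
    simp [sub_eq_add_neg]
  rw [h1, commute_iff_eq]
  simp only [sub_mul, mul_add, mul_sub, add_mul, smul_mul_assoc, mul_smul_comm, hXY, smul_add,
    smul_sub]
  abel

lemma X_eq : cfc (fun z : ℂ => ((z.re : ℝ) : ℂ)) (X + Complex.I • Y) = X := by
  have hN := normal hX hY hXY
  have h1 : star (X + Complex.I • Y) = X - Complex.I • Y := by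
    rw [star_add, star_smul, hX, hY]
    simp [sub_eq_add_neg]
  have h2 : (fun z : ℂ => ((z.re : ℝ) : ℂ)) = fun z : ℂ => (1 / 2 : ℂ) * (z + star z) := by
    funext z
    rw [Complex.re_eq_add_conj]
    simp only [Complex.star_def]
    ring
  have hN' : IsStarNormal (X + Complex.I • Y) := hN
  rw [h2, cfc_const_mul (1 / 2 : ℂ) (fun z : ℂ => z + star z) (X + Complex.I • Y) (by fun_prop),
    cfc_add (a := X + Complex.I • Y) (fun z : ℂ => z) (fun z : ℂ => star z) (by fun_prop)
      (by fun_prop), cfc_id' ℂ (X + Complex.I • Y),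
    cfc_star_id (R := ℂ) (a := X + Complex.I • Y) (ha := hN), h1]
  rw [show X + Complex.I • Y + (X - Complex.I • Y) = (2 : ℂ) • X by rw [two_smul]; abel, smul_smul]
  norm_num

lemma Y_eq : cfc (fun z : ℂ => ((z.im : ℝ) : ℂ)) (X + Complex.I • Y) = Y := by
  have hN := normal hX hY hXY
  have h1 : star (X + Complex.I • Y) = X - Complex.I • Y := by
    rw [star_add, star_smul, hX, hY]
    simp [sub_eq_add_neg]
  have h2 : (fun z : ℂ => ((z.im : ℝ) : ℂ)) = fun z : ℂ => (-Complex.I / 2 : ℂ) * (z - star z) := by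
    funext z
    rw [Complex.im_eq_sub_conj]
    simp only [Complex.star_def]
    field_simp
    ring_nf
    rw [Complex.I_sq]
    ring
  rw [h2, cfc_const_mul (-Complex.I / 2 : ℂ) (fun z : ℂ => z - star z) (X + Complex.I • Y)
      (by fun_prop),
    cfc_sub (a := X + Complex.I • Y) (fun z : ℂ => z) (fun z : ℂ => star z) (by fun_prop)
      (by fun_prop), cfc_id' ℂ (X + Complex.I • Y),
    cfc_star_id (R := ℂ) (a := X + Complex.I • Y) (ha := hN), h1]
  rw [show X + Complex.I • Y - (X - Complex.I • Y) = (2 : ℂ) • Complex.I • Y by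
    rw [two_smul]; abel, smul_smul, smul_smul]
  rw [show (-Complex.I / 2 * 2 * Complex.I : ℂ) = 1 by
    rw [show (-Complex.I / 2 * 2 * Complex.I : ℂ) = -(Complex.I * Complex.I) by ring,
      Complex.I_mul_I]; ring, one_smul]

lemma cfc_X {g : ℝ → ℝ} (hg : Continuous g) :
    cfc (fun z : ℂ => ((g z.re : ℝ) : ℂ)) (X + Complex.I • Y) = cfc g X := by
  have hN := normal hX hY hXY
  have hsX : IsSelfAdjoint X := hX
  rw [cfc_real_eq_complex g hsX]
  conv_rhs => rw [← X_eq hX hY hXY]
  rw [← cfc_comp' (fun x : ℂ => ((g x.re : ℝ) : ℂ)) (fun z : ℂ => ((z.re : ℝ) : ℂ)) _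
    (by fun_prop) (by fun_prop)]
  simp

lemma cfc_Y {g : ℝ → ℝ} (hg : Continuous g) :
    cfc (fun z : ℂ => ((g z.im : ℝ) : ℂ)) (X + Complex.I • Y) = cfc g Y := by
  have hN := normal hX hY hXY
  have hsY : IsSelfAdjoint Y := hY
  rw [cfc_real_eq_complex g hsY]
  conv_rhs => rw [← Y_eq hX hY hXY]
  rw [← cfc_comp' (fun x : ℂ => ((g x.re : ℝ) : ℂ)) (fun z : ℂ => ((z.im : ℝ) : ℂ)) _
    (by fun_prop) (by fun_prop)]
  simp

end two

lemma star_cfc (X : H →L[ℂ] H) (g : ℝ → ℝ) : star (cfc g X) = cfc g X :=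
  IsSelfAdjoint.star_eq (cfc_predicate g X)

end Trick1Aux

end Pool.Agent.Helper88.CS

end
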