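import Pool.Agent.Helper23.FA.Ns
import Pool.Agent.Helper23.RBFDefs

/-!
Parts of Helper23.Main, Helper88.CS.SuppA, Helper88.CS.Trick1
-/

section

open scoped InnerProductSpace Topology ENNReal

open ContinuousLinearMap Filter MeasureTheory

set_option linter.unusedSectionVars false

set_option linter.unusedVariables false

namespace Pool.Agent.Helper23

variable {H : Type*} [NormedAddCommGroup H] [InnerProductSpace ℂ H] [CompleteSpace H]

variable {M N : VonNeumannAlgebra H} {ξ : H} {E : (H →L[ℂ] H) → (H →L[ℂ] H)}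

section transport

variable {K : Type*} [NormedAddCommGroup K] [InnerProductSpace ℂ K] [CompleteSpace K]

lemma conj_nonneg (W : H ≃ₗᵢ[ℂ] K) {x : H →L[ℂ] H} (hx : 0 ≤ x) : 0 ≤ W.conjStarAlgEquiv x :=
  map_nonneg W.conjStarAlgEquiv hx

lemma conj_le (W : H ≃ₗᵢ[ℂ] K) {x y : H →L[ℂ] H} (hx : x ≤ y) :
    W.conjStarAlgEquiv x ≤ W.conjStarAlgEquiv y := by
  rw [← sub_nonneg, ← map_sub]
  exact conj_nonneg W (sub_nonneg.2 hx)

lemma conj_symm_nonneg (W : H ≃ₗᵢ[ℂ] K) {x : K →L[ℂ] K} (hx : 0 ≤ x) :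
    0 ≤ W.conjStarAlgEquiv.symm x :=
  map_nonneg W.conjStarAlgEquiv.symm hx

lemma inner_conj (W : H ≃ₗᵢ[ℂ] K) (x : H →L[ℂ] H) (η : K) :
    ⟪η, W.conjStarAlgEquiv x η⟫_ℂ = ⟪W.symm η, x (W.symm η)⟫_ℂ := by
  rw [LinearIsometryEquiv.conjStarAlgEquiv_apply_apply]
  have := W.inner_map_map (W.symm η) (x (W.symm η))
  rw [W.apply_symm_apply] at this
  exact this

open RBF

lemma transport_scaling {A : VonNeumannAlgebra H} {A' : VonNeumannAlgebra K} (W : H ≃ₗᵢ[ℂ] K)
    (hA : ∀ x, x ∈ A ↔ W.conjStarAlgEquiv x ∈ A') (ψ : (K →L[ℂ] K) → ℝ≥0∞) (l : ℝ)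
    (u : H →L[ℂ] H) :
    ScalingUnitary A (fun x => ψ (W.conjStarAlgEquiv x)) l u ↔
      ScalingUnitary A' ψ l (W.conjStarAlgEquiv u) := by
  have hinj : Function.Injective ⇑W.conjStarAlgEquiv := EquivLike.injective _
  have hone : W.conjStarAlgEquiv (1 : H →L[ℂ] H) = 1 := map_one _
  constructor
  · rintro ⟨h1, h2, h3, h4⟩
    refine ⟨(hA u).1 h1, ?_, ?_, fun X hX hX0 => ?_⟩
    · rw [← map_star, ← map_mul, h2, hone]
    · rw [← map_star, ← map_mul, h3, hone]
    · have e1 : W.conjStarAlgEquiv (W.conjStarAlgEquiv.symm X) = X :=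
        W.conjStarAlgEquiv.apply_symm_apply X
      have h5 := h4 (W.conjStarAlgEquiv.symm X) ((hA _).2 (by rw [e1]; exact hX))
        (conj_symm_nonneg W hX0)
      change ψ (W.conjStarAlgEquiv (star u * W.conjStarAlgEquiv.symm X * u)) =
        _ * ψ (W.conjStarAlgEquiv (W.conjStarAlgEquiv.symm X)) at h5
      rw [map_mul, map_mul, map_star, e1] at h5
      exact h5
  · rintro ⟨h1, h2, h3, h4⟩
    refine ⟨(hA u).2 h1, ?_, ?_, fun X hX hX0 => ?_⟩
    · apply hinj
      rw [map_mul, map_star, h2, hone]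
    · apply hinj
      rw [map_mul, map_star, h3, hone]
    · have h5 := h4 _ ((hA X).1 hX) (conj_nonneg W hX0)
      change ψ (W.conjStarAlgEquiv (star u * X * u)) = _
      rw [map_mul, map_mul, map_star]
      exact h5

theorem transport_dominant {A : VonNeumannAlgebra H} {A' : VonNeumannAlgebra K} (W : H ≃ₗᵢ[ℂ] K)
    (hA : ∀ x, x ∈ A ↔ W.conjStarAlgEquiv x ∈ A') {ψ : (K →L[ℂ] K) → ℝ≥0∞}
    (hψ : IsDominant A' ψ) : IsDominant A (fun x => ψ (W.conjStarAlgEquiv x)) where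
  add x hx y hy hx0 hy0 := by
    rw [map_add]
    exact hψ.add _ ((hA x).1 hx) _ ((hA y).1 hy) (conj_nonneg W hx0) (conj_nonneg W hy0)
  smul x hx hx0 c hc := by
    rw [map_smul]
    exact hψ.smul _ ((hA x).1 hx) (conj_nonneg W hx0) c hc
  faithful x hx hx0 h := by
    have := hψ.faithful _ ((hA x).1 hx) (conj_nonneg W hx0) h
    exact (map_eq_zero_iff W.conjStarAlgEquiv (EquivLike.injective _)).1 this
  normal D x hD hdir hDA hx hlub := by
    have h1 := hψ.normal (W.conjStarAlgEquiv '' D) (W.conjStarAlgEquiv x) (hD.image _) ?_ ?_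
      ((hA x).1 hx) ?_
    · rw [h1, iSup_image]
    · rintro _ ⟨d, hd, rfl⟩ _ ⟨d', hd', rfl⟩
      obtain ⟨e, he, h2, h3⟩ := hdir d hd d' hd'
      exact ⟨_, ⟨e, he, rfl⟩, conj_le W h2, conj_le W h3⟩
    · rintro _ ⟨d, hd, rfl⟩
      exact ⟨(hA d).1 (hDA d hd).1, conj_nonneg W (hDA d hd).2⟩
    · intro η
      rw [inner_conj]
      have h2 := hlub (W.symm η)
      have h3 : {r : ℝ | ∃ d ∈ W.conjStarAlgEquiv '' D, r = (⟪η, d η⟫_ℂ).re} =
          {r : ℝ | ∃ d ∈ D, r = (⟪W.symm η, d (W.symm η)⟫_ℂ).re} := by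
        ext r
        constructor
        · rintro ⟨_, ⟨d, hd, rfl⟩, rfl⟩
          exact ⟨d, hd, by rw [inner_conj]⟩
        · rintro ⟨d, hd, rfl⟩
          exact ⟨_, ⟨d, hd, rfl⟩, by rw [inner_conj]⟩
      rw [h3]
      exact h2
  semifinite η h := by
    have h1 : W η = 0 := by
      refine hψ.semifinite (W η) fun X hX hX0 hXt => ?_
      have e1 : W.conjStarAlgEquiv (W.conjStarAlgEquiv.symm X) = X :=
        W.conjStarAlgEquiv.apply_symm_apply X
      have h2 := h (W.conjStarAlgEquiv.symm X) ((hA _).2 (by rw [e1]; exact hX))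
        (conj_symm_nonneg W hX0) (by
          change ψ (W.conjStarAlgEquiv (W.conjStarAlgEquiv.symm X)) ≠ ⊤
          rw [e1]; exact hXt)
      rw [LinearIsometryEquiv.symm_conjStarAlgEquiv_apply_apply] at h2
      exact (map_eq_zero_iff W.symm W.symm.injective).1 h2
    exact (map_eq_zero_iff W W.injective).1 h1
  scale l hl := by
    obtain ⟨u, hu⟩ := hψ.scale l hl
    refine ⟨W.conjStarAlgEquiv.symm u, (transport_scaling W hA ψ l _).2 ?_⟩
    have e1 : W.conjStarAlgEquiv (W.conjStarAlgEquiv.symm u) = u :=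
      W.conjStarAlgEquiv.apply_symm_apply u
    rw [e1]; exact hu
  properlyInfinite := by
    obtain ⟨v, w, h1, h2, h3, h4⟩ := hψ.properlyInfinite
    have hinj : Function.Injective ⇑W.conjStarAlgEquiv := EquivLike.injective _
    have e1 : ∀ X, W.conjStarAlgEquiv (W.conjStarAlgEquiv.symm X) = X :=
      W.conjStarAlgEquiv.apply_symm_apply
    have hone : W.conjStarAlgEquiv (1 : H →L[ℂ] H) = 1 := map_one _
    refine ⟨W.conjStarAlgEquiv.symm v, W.conjStarAlgEquiv.symm w, ?_, ?_, ?_, fun T hT => ?_⟩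
    · apply hinj; rw [map_mul, map_star, e1, hone, h1]
    · apply hinj; rw [map_mul, map_star, e1, hone, h2]
    · apply hinj; rw [map_mul, map_star, e1, e1, map_zero, h3]
    · have h5 := h4 (W.conjStarAlgEquiv T) fun u hu => by
        have h6 := hT (W.conjStarAlgEquiv.symm u) ((transport_scaling W hA ψ 1 _).2 (by
          rw [e1]; exact hu))
        have h7 := congrArg W.conjStarAlgEquiv h6
        rwa [map_mul, map_mul, e1] at h7
      constructor
      · apply hinj; rw [map_mul, map_mul, e1]; exact h5.1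
      · apply hinj; rw [map_mul, map_mul, e1]; exact h5.2

end transport

end Pool.Agent.Helper23

end

section

open scoped InnerProductSpace Topology BoundedContinuousFunction

open ContinuousLinearMap Filter MeasureTheory

namespace Pool.Agent.Helper88.CS

open Pool.Agent.Helper23

variable {H : Type*} [NormedAddCommGroup H] [InnerProductSpace ℂ H] [CompleteSpace H]

variable {A : VonNeumannAlgebra H} {ξ : H} {J : H →L[ℝ] H}
  {Ψ : (ℝ →ᵇ ℂ) →⋆ₐ[ℂ] (H →L[ℂ] H)} {R : H →L[ℂ] H} {D : H →L[ℝ] H}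

namespace SuppAAux

/-- the ramp `0` up to `x`, `1` from `x + η / 2` on -/
noncomputable def ra (η x ρ : ℝ) : ℝ := min 1 (max 0 (2 / η * (ρ - x)))

theorem ra_cont (η x : ℝ) : Continuous (ra η x) := by
  unfold ra
  fun_prop

theorem ra_nonneg (η x ρ : ℝ) : 0 ≤ ra η x ρ := le_min zero_le_one (le_max_left _ _)

theorem ra_le (η x ρ : ℝ) : ra η x ρ ≤ 1 := min_le_left _ _

theorem ra_zero {η x ρ : ℝ} (hη : 0 < η) (h : ρ ≤ x) : ra η x ρ = 0 := by
  unfold ra
  have h1 : 2 / η * (ρ - x) ≤ 0 :=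
    mul_nonpos_of_nonneg_of_nonpos (by positivity) (by linarith)
  rw [max_eq_left h1]
  exact min_eq_right zero_le_one

theorem ra_one {η x ρ : ℝ} (hη : 0 < η) (h : x + η / 2 ≤ ρ) : ra η x ρ = 1 := by
  unfold ra
  have h1 : 1 ≤ 2 / η * (ρ - x) := by
    rw [div_mul_eq_mul_div, le_div_iff₀ hη]
    linarith
  exact min_eq_left (h1.trans (le_max_right _ _))

noncomputable def Ra (η x : ℝ) : ℝ →ᵇ ℂ :=
  BoundedContinuousFunction.ofNormedAddCommGroup (fun ρ : ℝ => ((ra η x ρ : ℝ) : ℂ))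
    (Complex.continuous_ofReal.comp (ra_cont η x)) 1 (fun ρ => by
      rw [Complex.norm_real, Real.norm_of_nonneg (ra_nonneg η x ρ)]
      exact ra_le η x ρ)

theorem Ra_apply (η x ρ : ℝ) : Ra η x ρ = ((ra η x ρ : ℝ) : ℂ) := rfl

theorem norm_Ra_le (η x : ℝ) : ‖Ra η x‖ ≤ 1 :=
  BoundedContinuousFunction.norm_ofNormedAddCommGroup_le _ zero_le_one _

/-- ramps moving to the right tend to `0` -/
theorem Ra_right {η : ℝ} (hη : 0 < η) (x L : ℝ) :
    TendstoUniformlyOn (fun (n : ℕ) ρ => Ra η (x + n * (η / 2)) ρ)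
      (fun ρ => (0 : ℝ →ᵇ ℂ) ρ) atTop (Set.Icc (-L) L) := by
  rw [Metric.tendstoUniformlyOn_iff]
  intro ε hε
  obtain ⟨N, hN⟩ := exists_nat_ge ((L - x) / (η / 2))
  filter_upwards [eventually_ge_atTop N] with n hn ρ hρ
  have h1 : (N : ℝ) ≤ n := by exact_mod_cast hn
  have h2 : (L - x) / (η / 2) ≤ n := hN.trans h1
  rw [div_le_iff₀ (by positivity)] at h2
  rw [Ra_apply, ra_zero hη (by linarith [hρ.2])]
  simpa using hε

/-- ramps moving to the left tend to `1` -/
theorem Ra_left {η : ℝ} (hη : 0 < η) (L : ℝ) :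
    TendstoUniformlyOn (fun (n : ℕ) ρ => Ra η (-(n : ℝ)) ρ)
      (fun ρ => (1 : ℝ →ᵇ ℂ) ρ) atTop (Set.Icc (-L) L) := by
  rw [Metric.tendstoUniformlyOn_iff]
  intro ε hε
  obtain ⟨N, hN⟩ := exists_nat_ge (L + η / 2)
  filter_upwards [eventually_ge_atTop N] with n hn ρ hρ
  have h1 : (N : ℝ) ≤ n := by exact_mod_cast hn
  rw [Ra_apply, ra_one hη (by linarith [hρ.1])]
  simpa using hε

end SuppAAux

namespace SuppAAux

/-- the clamp -/
noncomputable def cl (η ρ : ℝ) : ℝ := max (-η) (min η ρ)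

theorem cl_bound {η : ℝ} (hη : 0 < η) (ρ : ℝ) :
    ‖((1 - Real.exp (cl η ρ / 2) : ℝ) : ℂ)‖ ≤ Real.exp (η / 2) - 1 := by
  have h1 : -η ≤ cl η ρ := le_max_left _ _
  have h2 : cl η ρ ≤ η := max_le (by linarith) (min_le_left _ _)
  have h3 : Real.exp (cl η ρ / 2) ≤ Real.exp (η / 2) := Real.exp_le_exp.2 (by linarith)
  have h4 : Real.exp (-(η / 2)) ≤ Real.exp (cl η ρ / 2) := Real.exp_le_exp.2 (by linarith)
  have h5 : 2 ≤ Real.exp (η / 2) + Real.exp (-(η / 2)) := by
    have h6 := Real.exp_pos (η / 2)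
    have h7 : Real.exp (η / 2) * Real.exp (-(η / 2)) = 1 := by
      rw [← Real.exp_add, add_neg_cancel, Real.exp_zero]
    have h8 := Real.exp_pos (-(η / 2))
    nlinarith [sq_nonneg (Real.exp (η / 2) - Real.exp (-(η / 2)))]
  rw [Complex.norm_real, Real.norm_eq_abs, abs_le]
  constructor <;> linarith

noncomputable def Cl (η : ℝ) (hη : 0 < η) : ℝ →ᵇ ℂ :=
  BoundedContinuousFunction.ofNormedAddCommGroup
    (fun ρ : ℝ => ((1 - Real.exp (cl η ρ / 2) : ℝ) : ℂ))
    (Complex.continuous_ofReal.comp (by unfold cl; fun_prop)) (Real.exp (η / 2) - 1)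
    (cl_bound hη)

theorem Cl_apply {η : ℝ} (hη : 0 < η) (ρ : ℝ) :
    Cl η hη ρ = ((1 - Real.exp (cl η ρ / 2) : ℝ) : ℂ) := rfl

theorem norm_Cl_le {η : ℝ} (hη : 0 < η) : ‖Cl η hη‖ ≤ Real.exp (η / 2) - 1 :=
  BoundedContinuousFunction.norm_ofNormedAddCommGroup_le _
    (sub_nonneg.2 (Real.one_le_exp (by linarith))) _

end SuppAAux

end Pool.Agent.Helper88.CS

end

section

open scoped InnerProductSpace Topology BoundedContinuousFunction CompactlySupported

open ContinuousLinearMap Filter MeasureTheory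

namespace Pool.Agent.Helper88.CS

open Pool.Agent.Helper23

variable {H : Type*} [NormedAddCommGroup H] [InnerProductSpace ℂ H] [CompleteSpace H]

variable {A : VonNeumannAlgebra H} {J : H →L[ℝ] H} {κ : H}

namespace Trick1Aux

lemma meas_layer {μ : Measure ℂ} (f : ℂ → ℝ) : Measurable (fun u : ℝ => μ {z | u < f z}) := by
  apply Antitone.measurable
  intro u v huv
  apply measure_mono
  intro z hz
  exact huv.trans_lt hz

/-- the integrated inequality -/
lemma layer {μ : Measure ℂ} [IsFiniteMeasure μ] {al be ga gb : ℂ → ℝ} {c : ℝ} (hc : 0 ≤ c)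
    (h1 : Integrable al μ) (h2 : Integrable be μ) (h3 : Integrable ga μ) (h4 : Integrable gb μ)
    (n1 : ∀ z, 0 ≤ al z) (n2 : ∀ z, 0 ≤ be z) (n3 : ∀ z, 0 ≤ ga z) (n4 : ∀ z, 0 ≤ gb z)
    (h : ∀ u : ℝ, 0 < u → c * μ.real {z | u < al z} + 2 * μ.real {z | u < ga z} ≤
      μ.real {z | u < al z} + μ.real {z | u < be z} + 2 * μ.real {z | u < gb z}) :
    c * ∫ z, al z ∂μ + 2 * ∫ z, ga z ∂μ ≤ ∫ z, al z ∂μ + ∫ z, be z ∂μ + 2 * ∫ z, gb z ∂μ := by
  have key : ∀ u : ℝ, 0 < u → ENNReal.ofReal c * μ {z | u < al z} + 2 * μ {z | u < ga z} ≤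
      μ {z | u < al z} + μ {z | u < be z} + 2 * μ {z | u < gb z} := by
    intro u hu
    have f1 : ∀ s : Set ℂ, μ s ≠ ⊤ := fun s => measure_ne_top μ s
    have f2 : ∀ s : Set ℂ, ENNReal.ofReal (μ.real s) = μ s := fun s =>
      ENNReal.ofReal_toReal (f1 s)
    have h5 := ENNReal.ofReal_le_ofReal (h u hu)
    rw [ENNReal.ofReal_add (by positivity) (by positivity),
      ENNReal.ofReal_add (by positivity) (by positivity),
      ENNReal.ofReal_add (by positivity) (by positivity),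
      ENNReal.ofReal_mul hc, ENNReal.ofReal_mul (by norm_num), ENNReal.ofReal_mul (by norm_num),
      f2, f2, f2, f2] at h5
    simpa using h5
  have key2 : ∫⁻ u in Set.Ioi (0 : ℝ), (ENNReal.ofReal c * μ {z | u < al z} +
        2 * μ {z | u < ga z}) ≤
      ∫⁻ u in Set.Ioi (0 : ℝ), (μ {z | u < al z} + μ {z | u < be z} + 2 * μ {z | u < gb z}) := by
    apply lintegral_mono_ae
    filter_upwards [ae_restrict_mem measurableSet_Ioi] with u hu
    exact key u hu
  rw [lintegral_add_left ((meas_layer al).const_mul _),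
    lintegral_add_left (f := fun u => μ {z | u < al z} + μ {z | u < be z})
      ((meas_layer al).add (meas_layer be)),
    lintegral_add_left (meas_layer al), lintegral_const_mul _ (meas_layer al),
    lintegral_const_mul _ (meas_layer ga), lintegral_const_mul _ (meas_layer gb)] at key2
  have L : ∀ f : ℂ → ℝ, Integrable f μ → (∀ z, 0 ≤ f z) →
      ∫⁻ u in Set.Ioi (0 : ℝ), μ {z | u < f z} = ENNReal.ofReal (∫ z, f z ∂μ) := by
    intro f hf hf0
    rw [← lintegral_eq_lintegral_meas_lt μ (Filter.Eventually.of_forall hf0) hf.aemeasurable,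
      ← ofReal_integral_eq_lintegral_ofReal hf (Filter.Eventually.of_forall hf0)]
  rw [L al h1 n1, L be h2 n2, L ga h3 n3, L gb h4 n4] at key2
  have i1 : 0 ≤ ∫ z, al z ∂μ := integral_nonneg n1
  have i2 : 0 ≤ ∫ z, be z ∂μ := integral_nonneg n2
  have i3 : 0 ≤ ∫ z, ga z ∂μ := integral_nonneg n3
  have i4 : 0 ≤ ∫ z, gb z ∂μ := integral_nonneg n4
  have e2 : (2 : ENNReal) = ENNReal.ofReal 2 := by simp
  rw [e2, ← ENNReal.ofReal_mul hc, ← ENNReal.ofReal_mul (by norm_num),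
    ← ENNReal.ofReal_mul (by norm_num), ← ENNReal.ofReal_add (by positivity) (by positivity),
    ← ENNReal.ofReal_add (by positivity) (by positivity),
    ← ENNReal.ofReal_add (by positivity) (by positivity),
    ENNReal.ofReal_le_ofReal_iff (by positivity)] at key2
  exact key2

end Trick1Aux

end Pool.Agent.Helper88.CS

end
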