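import Pool.Agent.Helper23.FA.Ns

/-!
Parts of Helper78.BC.Energy, Helper23.Gk, Helper23.ED.SlA
-/

section

open scoped InnerProductSpace

open ContinuousLinearMap

namespace Pool.Agent.Helper78.BC

variable {H : Type*} [NormedAddCommGroup H] [InnerProductSpace ℂ H] [CompleteSpace H]

namespace Energy

open Finset

attribute [local instance] InnerProductSpace.complexToReal

set_option linter.unusedSectionVars false

/-- The operator as a real linear endomorphism. -/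
noncomputable def L (a : H →L[ℂ] H) : Module.End ℝ H := (a.restrictScalars ℝ : H →ₗ[ℝ] H)

@[simp] theorem L_apply (a : H →L[ℂ] H) (x : H) : L a x = a x := rfl

theorem L_mul (a b : H →L[ℂ] H) : L (a * b) = L a * L b := by
  ext x
  rfl

theorem L_one : L (1 : H →L[ℂ] H) = 1 := by
  ext x
  rfl

theorem inner_star (a : H →L[ℂ] H) (x y : H) : ⟪a x, y⟫_ℝ = ⟪x, (star a) y⟫_ℝ := by
  have h : ⟪a x, y⟫_ℂ = ⟪x, (star a) y⟫_ℂ := by
    rw [star_eq_adjoint, adjoint_inner_right]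
  exact congrArg Complex.re h

theorem norm_uni {a : H →L[ℂ] H} (h : star a * a = 1) (x : H) : ‖a x‖ = ‖x‖ := by
  have h1 : ⟪a x, a x⟫_ℝ = ⟪x, x⟫_ℝ := by
    rw [inner_star]
    have : (star a) (a x) = (star a * a) x := rfl
    rw [this, h]
    rfl
  rw [real_inner_self_eq_norm_sq, real_inner_self_eq_norm_sq] at h1
  exact (pow_left_inj₀ (norm_nonneg _) (norm_nonneg _) two_ne_zero).1 h1

theorem norm_sub_sq' {a : H →L[ℂ] H} (h : star a * a = 1) (x : H) :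
    ‖a x - x‖ ^ 2 = 2 * (‖x‖ ^ 2 - ⟪a x, x⟫_ℝ) := by
  rw [@norm_sub_sq_real, norm_uni h]
  ring

/-- The set of all averages of the operators. -/
def Av (S : Set (H →L[ℂ] H)) : Set (Module.End ℝ H) := convexHull ℝ (L '' S)

theorem L_mem_av {S : Set (H →L[ℂ] H)} {a : H →L[ℂ] H} (ha : a ∈ S) : L a ∈ Av S :=
  subset_convexHull ℝ _ ⟨a, ha, rfl⟩

theorem convex_av (S : Set (H →L[ℂ] H)) : Convex ℝ (Av S) := convex_convexHull ℝ _

section Sets

variable {S : Set (H →L[ℂ] H)}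

theorem one_mem_av (hone : 1 ∈ S) : (1 : Module.End ℝ H) ∈ Av S := by
  rw [← L_one]; exact L_mem_av hone

theorem L_mul_mem_av (hmul : ∀ a ∈ S, ∀ b ∈ S, a * b ∈ S) {a : H →L[ℂ] H} (ha : a ∈ S)
    {B : Module.End ℝ H} (hB : B ∈ Av S) : L a * B ∈ Av S := by
  have h : Av S ⊆ (LinearMap.mulLeft ℝ (L a)) ⁻¹' Av S := by
    refine convexHull_min ?_ ((convex_av S).linear_preimage _)
    rintro _ ⟨b, hb, rfl⟩
    simp only [Set.mem_preimage, LinearMap.mulLeft_apply]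
    rw [← L_mul]
    exact L_mem_av (hmul a ha b hb)
  exact h hB

theorem av_apply_mem {V : Set H} (hVc : Convex ℝ V) (hVi : ∀ a ∈ S, ∀ v ∈ V, a v ∈ V)
    {B : Module.End ℝ H} (hB : B ∈ Av S) {v : H} (hv : v ∈ V) : B v ∈ V := by
  have h : Av S ⊆ (LinearMap.applyₗ v : Module.End ℝ H →ₗ[ℝ] H) ⁻¹' V := by
    refine convexHull_min ?_ (hVc.linear_preimage _)
    rintro _ ⟨b, hb, rfl⟩
    exact hVi b hb v hv
  exact h hB

variable {n : ℕ} {a : Fin n → H →L[ℂ] H} {w : Fin n → ℝ}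

/-- The mixed operator. -/
noncomputable def T (a : Fin n → H →L[ℂ] H) (w : Fin n → ℝ) : Module.End ℝ H :=
  ∑ i, w i • ((1 / 2 : ℝ) • L (a i) + (1 / 2 : ℝ) • L (star (a i)))

theorem T_mul_mem_av (hmul : ∀ a ∈ S, ∀ b ∈ S, a * b ∈ S) (hstar : ∀ a ∈ S, star a ∈ S)
    (ha : ∀ i, a i ∈ S) (hw : ∀ i, 0 ≤ w i) (h1 : ∑ i, w i = 1) {B : Module.End ℝ H}
    (hB : B ∈ Av S) : T a w * B ∈ Av S := by
  have h := (convex_av S).sum_mem (t := Finset.univ) (w := w)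
    (z := fun i => ((1 / 2 : ℝ) • L (a i) + (1 / 2 : ℝ) • L (star (a i))) * B)
    (fun i _ => hw i) h1 (fun i _ => by
      rw [add_mul, smul_mul_assoc, smul_mul_assoc]
      exact convex_av S (L_mul_mem_av hmul (ha i) hB) (L_mul_mem_av hmul (hstar _ (ha i)) hB)
        (by norm_num) (by norm_num) (by norm_num))
  have e : T a w * B = ∑ i, w i • (((1 / 2 : ℝ) • L (a i) + (1 / 2 : ℝ) • L (star (a i))) * B) := by
    rw [T, Finset.sum_mul]
    exact Finset.sum_congr rfl fun g _ => smul_mul_assoc _ _ _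
  rw [e]
  exact h

theorem T_pow_mem_av (hone : 1 ∈ S) (hmul : ∀ a ∈ S, ∀ b ∈ S, a * b ∈ S)
    (hstar : ∀ a ∈ S, star a ∈ S) (ha : ∀ i, a i ∈ S) (hw : ∀ i, 0 ≤ w i)
    (h1 : ∑ i, w i = 1) (m : ℕ) : T a w ^ m ∈ Av S := by
  induction m with
  | zero => rw [pow_zero]; exact one_mem_av hone
  | succ m ih => rw [pow_succ']; exact T_mul_mem_av hmul hstar ha hw h1 ih

theorem T_apply (x : H) :
    T a w x = ∑ i, w i • ((1 / 2 : ℝ) • a i x + (1 / 2 : ℝ) • (star (a i)) x) := by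
  simp [T, LinearMap.sum_apply]

theorem T_symm (x y : H) : ⟪T a w x, y⟫_ℝ = ⟪x, T a w y⟫_ℝ := by
  rw [T_apply, T_apply, sum_inner, inner_sum]
  refine Finset.sum_congr rfl fun g _ => ?_
  rw [inner_smul_left, inner_smul_right, inner_add_left, inner_add_right, inner_smul_left,
    inner_smul_left, inner_smul_right, inner_smul_right, inner_star (a g) x y,
    inner_star (star (a g)) x y, star_star]
  simp only [conj_trivial]
  ring

theorem T_sum (huni : ∀ i, star (a i) * a i = 1) (x : H) (h1 : ∑ i, w i = 1) :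
    ∑ i, w i * ‖a i x - x‖ ^ 2 = 2 * (‖x‖ ^ 2 - ⟪T a w x, x⟫_ℝ) := by
  have h2 : ∀ i, w i * ‖a i x - x‖ ^ 2 = 2 * (w i * ‖x‖ ^ 2 -
      ⟪w i • ((1 / 2 : ℝ) • a i x + (1 / 2 : ℝ) • (star (a i)) x), x⟫_ℝ) := by
    intro i
    have h3 : ⟪(star (a i)) x, x⟫_ℝ = ⟪a i x, x⟫_ℝ := by
      rw [inner_star (star (a i)) x x, star_star, real_inner_comm]
    rw [norm_sub_sq' (huni i), inner_smul_left, inner_add_left, inner_smul_left,
      inner_smul_left, h3]
    simp only [conj_trivial]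
    ring
  rw [Finset.sum_congr rfl fun g _ => h2 g, ← Finset.mul_sum, Finset.sum_sub_distrib,
    ← Finset.sum_mul, h1, one_mul, T_apply, sum_inner]

theorem T_norm (huni : ∀ i, star (a i) * a i = 1) (huni' : ∀ i, a i * star (a i) = 1)
    (hw : ∀ i, 0 ≤ w i) (h1 : ∑ i, w i = 1) (x : H) : ‖T a w x‖ ≤ ‖x‖ := by
  rw [T_apply]
  refine (norm_sum_le _ _).trans ?_
  have h : ∀ i ∈ (Finset.univ : Finset (Fin n)),
      ‖w i • ((1 / 2 : ℝ) • a i x + (1 / 2 : ℝ) • (star (a i)) x)‖ ≤ w i * ‖x‖ := by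
    intro i _
    rw [norm_smul, Real.norm_of_nonneg (hw i)]
    refine mul_le_mul_of_nonneg_left ?_ (hw i)
    refine (norm_add_le _ _).trans ?_
    rw [norm_smul, norm_smul, norm_uni (huni i), norm_uni (a := star (a i))
      (by rw [star_star]; exact huni' i)]
    norm_num
    linarith
  refine (Finset.sum_le_sum h).trans ?_
  rw [← Finset.sum_mul, h1, one_mul]

end Sets

section Form

variable {A : Module.End ℝ H} (hs : ∀ x y, ⟪A x, y⟫_ℝ = ⟪x, A y⟫_ℝ) (hn : ∀ x, ‖A x‖ ≤ ‖x‖)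

include hs hn

theorem pow_norm (k : ℕ) (x : H) : ‖(A ^ k) x‖ ≤ ‖x‖ := by
  induction k with
  | zero => simp
  | succ k ih => rw [pow_succ', Module.End.mul_apply]; exact (hn _).trans ih

theorem form_nonneg (x : H) : 0 ≤ ⟪x - A x, x⟫_ℝ := by
  rw [inner_sub_left, real_inner_self_eq_norm_sq]
  have h := real_inner_le_norm (A x) x
  nlinarith [hn x, norm_nonneg x, norm_nonneg (A x)]

theorem form_nonneg' (x : H) : 0 ≤ ⟪x + A x, x⟫_ℝ := by
  rw [inner_add_left, real_inner_self_eq_norm_sq]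
  have h := neg_le_of_abs_le (abs_real_inner_le_norm (A x) x)
  nlinarith [hn x, norm_nonneg x, norm_nonneg (A x)]

theorem form_step (x : H) : ⟪A x - A (A x), A x⟫_ℝ ≤ ⟪x - A x, x⟫_ℝ := by
  have h := form_nonneg' hs hn (x - A x)
  have h2 : ⟪x - A x + A (x - A x), x - A x⟫_ℝ = ⟪x - A x, x⟫_ℝ - ⟪A x - A (A x), A x⟫_ℝ := by
    rw [map_sub]
    have e1 : x - A x + (A x - A (A x)) = x - A (A x) := by abel
    rw [e1]
    simp only [inner_sub_left, inner_sub_right]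
    have e2 : ⟪A (A x), x⟫_ℝ = ⟪A x, A x⟫_ℝ := hs _ _
    have e3 : ⟪x, A x⟫_ℝ = ⟪A x, x⟫_ℝ := (hs _ _).symm
    rw [e2, e3]
    ring
  linarith

theorem form_pow (k : ℕ) (x : H) :
    ⟪(A ^ k) x - A ((A ^ k) x), (A ^ k) x⟫_ℝ ≤ ⟪x - A x, x⟫_ℝ := by
  induction k with
  | zero => simp
  | succ k ih =>
    rw [pow_succ', Module.End.mul_apply]
    exact (form_step hs hn _).trans ih

/-- Cauchy-Schwarz for the form of `1 - A`. -/
theorem form_cs (x y : H) :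
    ⟪x - A x, y⟫_ℝ ≤ (⟪x - A x, x⟫_ℝ + ⟪y - A y, y⟫_ℝ) / 2 := by
  have h := form_nonneg hs hn (x - y)
  have h2 : ⟪x - y - A (x - y), x - y⟫_ℝ =
      ⟪x - A x, x⟫_ℝ + ⟪y - A y, y⟫_ℝ - 2 * ⟪x - A x, y⟫_ℝ := by
    rw [map_sub]
    simp only [inner_sub_left, inner_sub_right]
    have e1 : ⟪A y, x⟫_ℝ = ⟪A x, y⟫_ℝ := by rw [hs y x, real_inner_comm]
    have e2 : ⟪y, x⟫_ℝ = ⟪x, y⟫_ℝ := real_inner_comm _ _
    rw [e1, e2]
    ring
  linarith

theorem one_sub_pow (m : ℕ) (x : H) :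
    ⟪x - (A ^ m) x, x⟫_ℝ ≤ m * ⟪x - A x, x⟫_ℝ := by
  induction m with
  | zero => simp
  | succ m ih =>
    have e : x - (A ^ (m + 1)) x = (x - (A ^ m) x) + ((A ^ m) x - A ((A ^ m) x)) := by
      rw [pow_succ', Module.End.mul_apply]; abel
    rw [e, inner_add_left]
    have h1 := form_cs hs hn ((A ^ m) x) x
    have h2 := form_pow hs hn m x
    push_cast
    linarith

end Form

theorem av_le {S : Set (H →L[ℂ] H)} (huni : ∀ a ∈ S, star a * a = 1) {ξ η : H} {ε C : ℝ}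
    (hyp : ∀ a ∈ S, ‖a η - η‖ ^ 2 ≤ ε + C * ‖a ξ - ξ‖ ^ 2)
    {B : Module.End ℝ H} (hB : B ∈ Av S) :
    ‖B η - η‖ ^ 2 ≤ ε + 2 * C * ⟪ξ - B ξ, ξ⟫_ℝ := by
  have hconv : Convex ℝ {B : Module.End ℝ H | ‖B η - η‖ ^ 2 ≤ ε + 2 * C * ⟪ξ - B ξ, ξ⟫_ℝ} := by
    intro S hS S' hS' a b ha hb hab
    change ‖S η - η‖ ^ 2 ≤ ε + 2 * C * ⟪ξ - S ξ, ξ⟫_ℝ at hS
    change ‖S' η - η‖ ^ 2 ≤ ε + 2 * C * ⟪ξ - S' ξ, ξ⟫_ℝ at hS'
    change ‖(a • S + b • S') η - η‖ ^ 2 ≤ ε + 2 * C * ⟪ξ - (a • S + b • S') ξ, ξ⟫_ℝ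
    have e1 : (a • S + b • S') η - η = a • (S η - η) + b • (S' η - η) := by
      have : η = a • η + b • η := by rw [← add_smul, hab, one_smul]
      simp only [LinearMap.add_apply, LinearMap.smul_apply, smul_sub]
      nth_rewrite 3 [this]
      abel
    have e2 : ⟪ξ - (a • S + b • S') ξ, ξ⟫_ℝ =
        a * ⟪ξ - S ξ, ξ⟫_ℝ + b * ⟪ξ - S' ξ, ξ⟫_ℝ := by
      simp only [LinearMap.add_apply, LinearMap.smul_apply, inner_sub_left, inner_add_left,
        inner_smul_left, conj_trivial]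
      have : ⟪ξ, ξ⟫_ℝ = (a + b) * ⟪ξ, ξ⟫_ℝ := by rw [hab, one_mul]
      linarith
    have h1 : ‖a • (S η - η) + b • (S' η - η)‖ ^ 2 ≤ a * ‖S η - η‖ ^ 2 + b * ‖S' η - η‖ ^ 2 := by
      have h2 : ‖a • (S η - η) + b • (S' η - η)‖ ≤ a * ‖S η - η‖ + b * ‖S' η - η‖ := by
        refine (norm_add_le _ _).trans ?_
        rw [norm_smul, norm_smul, Real.norm_of_nonneg ha, Real.norm_of_nonneg hb]
      have h3 : ‖a • (S η - η) + b • (S' η - η)‖ ^ 2 ≤ (a * ‖S η - η‖ + b * ‖S' η - η‖) ^ 2 :=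
        pow_le_pow_left₀ (norm_nonneg _) h2 2
      refine h3.trans ?_
      have h4 : a = 1 - b := by linarith
      subst h4
      nlinarith [mul_nonneg ha hb, sq_nonneg (‖S η - η‖ - ‖S' η - η‖),
        mul_nonneg (mul_nonneg ha hb) (sq_nonneg (‖S η - η‖ - ‖S' η - η‖))]
    rw [e1, e2]
    have h5 : a * (ε + 2 * C * ⟪ξ - S ξ, ξ⟫_ℝ) + b * (ε + 2 * C * ⟪ξ - S' ξ, ξ⟫_ℝ) =
        ε + 2 * C * (a * ⟪ξ - S ξ, ξ⟫_ℝ + b * ⟪ξ - S' ξ, ξ⟫_ℝ) := by
      have : ε = (a + b) * ε := by rw [hab, one_mul]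
      linarith
    rw [← h5]
    exact h1.trans (add_le_add (mul_le_mul_of_nonneg_left hS ha)
      (mul_le_mul_of_nonneg_left hS' hb))
  refine convexHull_min ?_ hconv hB
  rintro _ ⟨g, hg, rfl⟩
  change ‖g η - η‖ ^ 2 ≤ ε + 2 * C * ⟪ξ - g ξ, ξ⟫_ℝ
  refine (hyp g hg).trans (le_of_eq ?_)
  rw [norm_sub_sq' (huni g hg) ξ, inner_sub_left, real_inner_self_eq_norm_sq]
  ring

/-- The averaged Lipschitz bound with a constant not depending on the weights. -/
theorem averaged {S : Set (H →L[ℂ] H)} (hone : 1 ∈ S) (hmul : ∀ a ∈ S, ∀ b ∈ S, a * b ∈ S)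
    (hstar : ∀ a ∈ S, star a ∈ S) (huni : ∀ a ∈ S, star a * a = 1) {V : Set H}
    (hVc : Convex ℝ V) (hVi : ∀ a ∈ S, ∀ v ∈ V, a v ∈ V) {ξ η : H} (hη : η ∈ V)
    {r C : ℝ} (hr : 0 < r) (hC : 0 < C)
    (hyp : ∀ a ∈ S, ‖a η - η‖ ^ 2 ≤ r ^ 2 / 2 + C * ‖a ξ - ξ‖ ^ 2)
    {k : ℕ} {a : Fin k → H →L[ℂ] H} {w : Fin k → ℝ} (ha : ∀ i, a i ∈ S)
    (hw : ∀ i, 0 ≤ w i) (h1 : ∑ i, w i = 1) {d : ℝ} (hd : 0 < d) :
    ∃ ζ ∈ V, ‖ζ - η‖ ≤ r ∧ ∑ i, w i * ‖a i ζ - ζ‖ ^ 2 ≤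
      16 * ‖η‖ ^ 2 * C / r ^ 2 * (∑ i, w i * ‖a i ξ - ξ‖ ^ 2 + d) := by
  have huni1 : ∀ i, star (a i) * a i = 1 := fun i => huni _ (ha i)
  have huni2 : ∀ i, a i * star (a i) = 1 := fun i => by
    have := huni _ (hstar _ (ha i))
    rwa [star_star] at this
  set E := ∑ i, w i * ‖a i ξ - ξ‖ ^ 2 with hE
  have hE0 : 0 ≤ E := Finset.sum_nonneg fun g _ => mul_nonneg (hw g) (by positivity)
  set τ := r ^ 2 / (2 * C) with hτ
  have hτ0 : 0 < τ := by positivity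
  have hsym := T_symm (a := a) (w := w)
  have hnorm := T_norm huni1 huni2 hw h1
  have hform : ∀ x : H, ∑ i, w i * ‖a i x - x‖ ^ 2 = 2 * ⟪x - T a w x, x⟫_ℝ := by
    intro x
    rw [T_sum huni1 x h1, inner_sub_left, real_inner_self_eq_norm_sq]
  rcases le_or_gt (E + d) τ with hcase | hcase
  · -- long averages
    set n := ⌊τ / (E + d)⌋₊ with hn
    have hx1 : 1 ≤ τ / (E + d) := (one_le_div (by linarith)).2 hcase
    have hn1 : 1 ≤ n := Nat.le_floor (by exact_mod_cast hx1)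
    have hnle : (n : ℝ) ≤ τ / (E + d) := Nat.floor_le (by positivity)
    have hnlt : τ / (E + d) < n + 1 := Nat.lt_floor_add_one _
    have hn0 : (0 : ℝ) < n := by exact_mod_cast hn1
    have hnge : τ / (E + d) ≤ 2 * n := by
      have : (1 : ℝ) ≤ n := by exact_mod_cast hn1
      linarith
    set ζ := (n : ℝ)⁻¹ • ∑ m ∈ range n, (T a w ^ m) η with hζ
    have hdist : ∀ m ∈ range n, ‖(T a w ^ m) η - η‖ ≤ r := by
      intro m hm
      have hm' : (m : ℝ) ≤ n := by exact_mod_cast (Finset.mem_range.1 hm).le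
      have h2 := av_le huni hyp (T_pow_mem_av hone hmul hstar ha hw h1 m)
      have h3 := one_sub_pow hsym hnorm m ξ
      have h4 := form_nonneg hsym hnorm ξ
      have h5 : 2 * ⟪ξ - T a w ξ, ξ⟫_ℝ = E := (hform ξ).symm
      have h6 : 2 * C * ⟪ξ - (T a w ^ m) ξ, ξ⟫_ℝ ≤ C * (n * E) := by
        have h7 : ⟪ξ - (T a w ^ m) ξ, ξ⟫_ℝ ≤ n * ⟪ξ - T a w ξ, ξ⟫_ℝ :=
          h3.trans (mul_le_mul_of_nonneg_right hm' h4)
        calc 2 * C * ⟪ξ - (T a w ^ m) ξ, ξ⟫_ℝ ≤ 2 * C * (n * ⟪ξ - T a w ξ, ξ⟫_ℝ) :=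
              mul_le_mul_of_nonneg_left h7 (by positivity)
          _ = C * (n * (2 * ⟪ξ - T a w ξ, ξ⟫_ℝ)) := by ring
          _ = C * (n * E) := by rw [h5]
      have h8 : C * (n * E) ≤ r ^ 2 / 2 := by
        have h9 : (n : ℝ) * E ≤ τ := by
          have := (le_div_iff₀ (by linarith : 0 < E + d)).1 hnle
          nlinarith
        calc C * (n * E) ≤ C * τ := mul_le_mul_of_nonneg_left h9 hC.le
          _ = r ^ 2 / 2 := by rw [hτ]; field_simp
      have h10 : ‖(T a w ^ m) η - η‖ ^ 2 ≤ r ^ 2 := by linarith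
      exact le_of_sq_le_sq h10 hr.le
    refine ⟨ζ, ?_, ?_, ?_⟩
    · have h2 := hVc.sum_mem (t := range n) (w := fun _ => (n : ℝ)⁻¹)
        (z := fun m => (T a w ^ m) η) (fun _ _ => by positivity) (by
          rw [Finset.sum_const, Finset.card_range, nsmul_eq_mul, mul_inv_cancel₀ hn0.ne'])
        (fun m _ => av_apply_mem hVc hVi (T_pow_mem_av hone hmul hstar ha hw h1 m) hη)
      rw [hζ, Finset.smul_sum]
      exact h2
    · have e : ζ - η = (n : ℝ)⁻¹ • ∑ m ∈ range n, ((T a w ^ m) η - η) := by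
        rw [Finset.sum_sub_distrib, smul_sub, ← hζ, Finset.sum_const, Finset.card_range,
          ← Nat.cast_smul_eq_nsmul ℝ, smul_smul, inv_mul_cancel₀ hn0.ne', one_smul]
      rw [e, norm_smul, norm_inv, Real.norm_of_nonneg hn0.le]
      have h2 : ‖∑ m ∈ range n, ((T a w ^ m) η - η)‖ ≤ n * r := by
        refine (norm_sum_le _ _).trans ((Finset.sum_le_sum hdist).trans ?_)
        simp
      calc (n : ℝ)⁻¹ * ‖∑ m ∈ range n, ((T a w ^ m) η - η)‖ ≤ (n : ℝ)⁻¹ * (n * r) :=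
            mul_le_mul_of_nonneg_left h2 (by positivity)
        _ = r := by field_simp
    · rw [hform ζ]
      have e : ζ - T a w ζ = (n : ℝ)⁻¹ • (η - (T a w ^ n) η) := by
        rw [hζ, map_smul, ← smul_sub, map_sum, ← Finset.sum_sub_distrib]
        congr 1
        have h3 := Finset.sum_range_sub' (fun m => (T a w ^ m) η) n
        simp only [pow_zero, Module.End.one_apply] at h3
        rw [← h3]
        refine Finset.sum_congr rfl fun m _ => ?_
        rw [pow_succ', Module.End.mul_apply]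
      have h2 : ‖ζ - T a w ζ‖ ≤ (n : ℝ)⁻¹ * (2 * ‖η‖) := by
        rw [e, norm_smul, norm_inv, Real.norm_of_nonneg hn0.le]
        refine mul_le_mul_of_nonneg_left ?_ (by positivity)
        refine (norm_sub_le _ _).trans ?_
        have := pow_norm hsym hnorm n η
        linarith
      have h3 : ‖ζ‖ ≤ ‖η‖ := by
        rw [hζ, norm_smul, norm_inv, Real.norm_of_nonneg hn0.le]
        have h4 : ‖∑ m ∈ range n, (T a w ^ m) η‖ ≤ n * ‖η‖ := by
          refine (norm_sum_le _ _).trans ((Finset.sum_le_sum fun m _ =>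
            pow_norm hsym hnorm m η).trans ?_)
          simp
        calc (n : ℝ)⁻¹ * ‖∑ m ∈ range n, (T a w ^ m) η‖ ≤ (n : ℝ)⁻¹ * (n * ‖η‖) :=
              mul_le_mul_of_nonneg_left h4 (by positivity)
          _ = ‖η‖ := by field_simp
      have h5 : ⟪ζ - T a w ζ, ζ⟫_ℝ ≤ (n : ℝ)⁻¹ * (2 * ‖η‖) * ‖η‖ :=
        (real_inner_le_norm _ _).trans (mul_le_mul h2 h3 (norm_nonneg _) (by positivity))
      have h6 : (n : ℝ)⁻¹ ≤ 2 * (E + d) / τ := by
        rw [inv_le_comm₀ hn0 (by positivity)]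
        rw [inv_div, div_le_iff₀ (by positivity)]
        have := (div_le_iff₀ (by linarith : 0 < E + d)).1 hnge
        linarith
      calc 2 * ⟪ζ - T a w ζ, ζ⟫_ℝ ≤ 2 * ((n : ℝ)⁻¹ * (2 * ‖η‖) * ‖η‖) := by linarith
        _ = 4 * ‖η‖ ^ 2 * (n : ℝ)⁻¹ := by ring
        _ ≤ 4 * ‖η‖ ^ 2 * (2 * (E + d) / τ) := mul_le_mul_of_nonneg_left h6 (by positivity)
        _ = 16 * ‖η‖ ^ 2 * C / r ^ 2 * (E + d) := by rw [hτ]; field_simp; ring
  · refine ⟨η, hη, by simpa using hr.le, ?_⟩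
    have h2 : ∑ i, w i * ‖a i η - η‖ ^ 2 ≤ 4 * ‖η‖ ^ 2 := by
      have h3 : ∀ i ∈ (Finset.univ : Finset (Fin k)),
          w i * ‖a i η - η‖ ^ 2 ≤ w i * (4 * ‖η‖ ^ 2) := by
        intro i _
        refine mul_le_mul_of_nonneg_left ?_ (hw i)
        have h4 : ‖a i η - η‖ ≤ 2 * ‖η‖ := by
          refine (norm_sub_le _ _).trans ?_
          rw [norm_uni (huni1 i)]; linarith
        nlinarith [norm_nonneg (a i η - η), norm_nonneg η]
      refine (Finset.sum_le_sum h3).trans ?_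
      rw [← Finset.sum_mul, h1, one_mul]
    refine h2.trans ?_
    have h5 : 1 ≤ (E + d) / τ := (one_le_div hτ0).2 hcase.le
    have h6 : 16 * ‖η‖ ^ 2 * C / r ^ 2 * (E + d) = 8 * ‖η‖ ^ 2 * ((E + d) / τ) := by
      rw [hτ]; field_simp; ring
    rw [h6]
    nlinarith [sq_nonneg ‖η‖]

end Energy

/-- Energy estimate for finitely supported measures on a set `S` of unitaries. -/
theorem energy {S : Set (H →L[ℂ] H)} (hone : 1 ∈ S) (hmul : ∀ a ∈ S, ∀ b ∈ S, a * b ∈ S)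
    (hstar : ∀ a ∈ S, star a ∈ S) (huni : ∀ a ∈ S, star a * a = 1) {V : Set H}
    (hVc : Convex ℝ V) (hVi : ∀ a ∈ S, ∀ v ∈ V, a v ∈ V) {ξ η : H} (hη : η ∈ V)
    (h : ∀ ε : ℝ, 0 < ε → ∃ C : ℝ, ∀ a ∈ S, ‖a η - η‖ ^ 2 ≤ ε + C * ‖a ξ - ξ‖ ^ 2)
    {r : ℝ} (hr : 0 < r) :
    ∃ K : ℝ, 0 ≤ K ∧ ∀ (n : ℕ) (a : Fin n → H →L[ℂ] H), (∀ i, a i ∈ S) →
      ∀ t : Fin n → ℝ, (∀ i, 0 ≤ t i) → ∀ δ : ℝ, 0 < δ →
        ∃ ζ ∈ V, ‖ζ - η‖ ≤ r ∧
          ∑ i, t i * ‖a i ζ - ζ‖ ^ 2 ≤ ∑ i, t i * (K * ‖a i ξ - ξ‖ ^ 2 + δ) := by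
  obtain ⟨C₀, hC₀⟩ := h (r ^ 2 / 2) (by positivity)
  set C := max C₀ 1 with hCdef
  have hC : 0 < C := lt_of_lt_of_le one_pos (le_max_right _ _)
  have hyp' : ∀ a ∈ S, ‖a η - η‖ ^ 2 ≤ r ^ 2 / 2 + C * ‖a ξ - ξ‖ ^ 2 := fun a ha =>
    (hC₀ a ha).trans (by
      have := mul_le_mul_of_nonneg_right (le_max_left C₀ 1) (sq_nonneg ‖a ξ - ξ‖)
      linarith)
  set K := 16 * ‖η‖ ^ 2 * C / r ^ 2 with hK
  have hK0 : 0 ≤ K := by positivity
  refine ⟨K, hK0, ?_⟩
  intro n a ha t ht δ hδ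
  have hW0 : 0 ≤ ∑ i, t i := Finset.sum_nonneg fun i _ => ht i
  rcases eq_or_lt_of_le hW0 with h0 | hW
  · have h1 : ∀ i, t i = 0 := fun i =>
      (Finset.sum_eq_zero_iff_of_nonneg (fun i _ => ht i)).1 h0.symm i (Finset.mem_univ _)
    exact ⟨η, hη, by simpa using hr.le, by simp [h1]⟩
  set W := ∑ i, t i with hWdef
  have hw1 : ∑ i, t i / W = 1 := by
    rw [← Finset.sum_div, ← hWdef, div_self hW.ne']
  obtain ⟨ζ, hζV, hζ1, hζ2⟩ := Energy.averaged hone hmul hstar huni hVc hVi hη hr hC hyp'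
    (a := a) (w := fun i => t i / W) ha (fun i => div_nonneg (ht i) hW.le) hw1
    (d := δ / (K + 1)) (by positivity)
  refine ⟨ζ, hζV, hζ1, ?_⟩
  rw [← hK] at hζ2
  have hs : ∀ F : Fin n → ℝ, ∑ i, t i * F i = W * ∑ i, t i / W * F i := by
    intro F
    rw [Finset.mul_sum]
    refine Finset.sum_congr rfl fun i _ => ?_
    field_simp
  have e2 : ∑ i, t i * (K * ‖a i ξ - ξ‖ ^ 2 + δ) =
      W * (K * ∑ i, t i / W * ‖a i ξ - ξ‖ ^ 2 + δ) := by
    rw [hs, Finset.mul_sum (a := K)]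
    congr 1
    have : δ = ∑ i, t i / W * δ := by rw [← Finset.sum_mul, hw1, one_mul]
    conv_rhs => rw [this]
    rw [← Finset.sum_add_distrib]
    refine Finset.sum_congr rfl fun i _ => ?_
    ring
  rw [hs, e2]
  refine mul_le_mul_of_nonneg_left (hζ2.trans ?_) hW.le
  have h3 : K * (δ / (K + 1)) ≤ δ := by
    have h4 : K * (δ / (K + 1)) = δ * (K / (K + 1)) := by ring
    rw [h4]
    have h5 : K / (K + 1) ≤ 1 := (div_le_one (by linarith)).2 (by linarith)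
    nlinarith
  rw [mul_add]
  linarith

end Pool.Agent.Helper78.BC

end

section

open scoped InnerProductSpace Topology ENNReal

open ContinuousLinearMap Filter MeasureTheory

set_option linter.unusedSectionVars false

set_option linter.unusedVariables false

namespace Pool.Agent.Helper23

variable {H : Type*} [NormedAddCommGroup H] [InnerProductSpace ℂ H] [CompleteSpace H]

variable {M N : VonNeumannAlgebra H} {ξ : H} {E : (H →L[ℂ] H) → (H →L[ℂ] H)}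

lemma two_mul_ofReal (x : ℝ) : 2 * ENNReal.ofReal x = ENNReal.ofReal (2 * x) := by
  rw [ENNReal.ofReal_mul (by norm_num)]
  norm_num

end Pool.Agent.Helper23

end

section

open scoped InnerProductSpace Topology ENNReal BoundedContinuousFunction

open ContinuousLinearMap Filter MeasureTheory

namespace Pool.Agent.Helper23.ED

open Pool.Agent.Helper23 Pool.Agent.Helper23.RBF

universe u

variable {H : Type*} [NormedAddCommGroup H] [InnerProductSpace ℂ H] [CompleteSpace H]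

/-- bounded families have weak limits along ultrafilters -/
theorem SlA_ultra (F : Ultrafilter ℝ) (v : ℝ → H) {c : ℝ} (hv : ∀ s, ‖v s‖ ≤ c) :
    ∃ v₀ : H, ∀ w : H, Tendsto (fun s => ⟪w, v s⟫_ℂ) (F : Filter ℝ) (𝓝 ⟪w, v₀⟫_ℂ) := by
  have hc : 0 ≤ c := (norm_nonneg _).trans (hv 0)
  have hex : ∀ w : H, ∃ l : ℂ, Tendsto (fun s => ⟪v s, w⟫_ℂ) (F : Filter ℝ) (𝓝 l) ∧
      ‖l‖ ≤ c * ‖w‖ := by
    intro w
    have hK : IsCompact (Metric.closedBall (0 : ℂ) (c * ‖w‖)) := isCompact_closedBall _ _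
    obtain ⟨l, hl, hFl⟩ := hK.ultrafilter_le_nhds (F.map fun s => ⟪v s, w⟫_ℂ) (by
      rw [Ultrafilter.coe_map, le_principal_iff, mem_map]
      refine Filter.univ_mem' fun s => ?_
      rw [Set.mem_preimage, mem_closedBall_zero_iff]
      exact (norm_inner_le_norm _ _).trans (mul_le_mul_of_nonneg_right (hv s) (norm_nonneg _)))
    exact ⟨l, hFl, mem_closedBall_zero_iff.1 hl⟩
  choose L hL hLn using hex
  have hadd : ∀ x y, L (x + y) = L x + L y := fun x y =>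
    tendsto_nhds_unique (hL (x + y)) (by simpa only [inner_add_right] using (hL x).add (hL y))
  have hsmul : ∀ (a : ℂ) x, L (a • x) = a * L x := fun a x =>
    tendsto_nhds_unique (hL (a • x)) (by
      simpa only [inner_smul_right] using (hL x).const_mul a)
  let L' : H →L[ℂ] ℂ := LinearMap.mkContinuous
    { toFun := L, map_add' := hadd, map_smul' := by simpa using hsmul } c hLn
  refine ⟨(InnerProductSpace.toDual ℂ H).symm L', fun w => ?_⟩
  have h1 : ⟪(InnerProductSpace.toDual ℂ H).symm L', w⟫_ℂ = L w :=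
    InnerProductSpace.toDual_symm_apply
  have h2 : ⟪w, (InnerProductSpace.toDual ℂ H).symm L'⟫_ℂ = (starRingEnd ℂ) (L w) := by
    rw [← h1, inner_conj_symm]
  rw [h2]
  have h3 : (fun s => ⟪w, v s⟫_ℂ) = fun s => (starRingEnd ℂ) ⟪v s, w⟫_ℂ := by
    funext s; rw [inner_conj_symm]
  rw [h3]
  exact (Complex.continuous_conj.tendsto _).comp (hL w)

/-- nearest points -/
theorem SlA_near {K : Set H} (hne : K.Nonempty) (hcv : Convex ℝ K) (hcl : IsClosed K)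
    (x : H) : ∃ p ∈ K, (∀ v ∈ K, ‖x - p‖ ≤ ‖x - v‖) ∧
      ∀ v ∈ K, (⟪x - p, v - p⟫_ℂ).re ≤ 0 := by
  letI : InnerProductSpace ℝ H := InnerProductSpace.rclikeToReal ℂ H
  obtain ⟨p, hp, he⟩ := exists_norm_eq_iInf_of_complete_convex hne hcl.isComplete hcv x
  refine ⟨p, hp, fun v hv => ?_, fun v hv => ?_⟩
  · rw [he]
    exact ciInf_le ⟨0, by rintro _ ⟨w, rfl⟩; exact norm_nonneg _⟩ (⟨v, hv⟩ : K)
  · exact (norm_eq_iInf_iff_real_inner_le_zero hcv hp).1 he v hv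

theorem exists_sel {C : ℝ → Set H} (hne : ∀ s, (C s).Nonempty) (hcv : ∀ s, Convex ℝ (C s))
    (hcl : ∀ s, IsClosed (C s)) {r : ℝ} (hbd : ∀ s, ∀ v ∈ C s, ‖v‖ ≤ r)
    (hgr : ∀ (F : Ultrafilter ℝ) (s : ℝ), (F : Filter ℝ) ≤ 𝓝 s → ∀ (v : ℝ → H) (v₀ : H),
      (∀ s', v s' ∈ C s') →
      (∀ w : H, Tendsto (fun s' => ⟪w, v s'⟫_ℂ) (F : Filter ℝ) (𝓝 ⟪w, v₀⟫_ℂ)) → v₀ ∈ C s)
    (η : H) : ∃ p : ℝ → H, (∀ s, p s ∈ C s) ∧ (∀ s, ∀ v ∈ C s, ‖p s - v‖ ≤ ‖η - v‖) ∧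
      ∀ w : H, Measurable fun s => ⟪w, p s⟫_ℂ := by
  have hN := fun (s : ℝ) (x : H) => SlA_near (hne s) (hcv s) (hcl s) x
  choose P hPC hPd hPi using hN
  -- measurability of the distance
  have hdm : ∀ x : H, Measurable fun s => ‖x - P s x‖ := by
    intro x
    have hlsc : LowerSemicontinuous fun s => ‖x - P s x‖ := by
      rw [lowerSemicontinuous_iff_isClosed_preimage]
      intro α
      rw [isClosed_iff_ultrafilter]
      intro s₀ F hF hmem
      obtain ⟨v₀, hv₀⟩ := SlA_ultra F (fun s => P s x) (fun s => hbd s _ (hPC s x))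
      have hv₀C : v₀ ∈ C s₀ := hgr F s₀ hF _ v₀ (fun s' => hPC s' x) hv₀
      have h1 : Tendsto (fun s => (⟪x - v₀, x - P s x⟫_ℂ).re) (F : Filter ℝ)
          (𝓝 (⟪x - v₀, x - v₀⟫_ℂ).re) := by
        refine (Complex.continuous_re.tendsto _).comp ?_
        simp_rw [inner_sub_right]
        exact tendsto_const_nhds.sub (hv₀ _)
      have h2 : ∀ᶠ s in (F : Filter ℝ), (⟪x - v₀, x - P s x⟫_ℂ).re ≤ ‖x - v₀‖ * α := by
        filter_upwards [hmem] with s hs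
        refine (Complex.re_le_norm _).trans ((norm_inner_le_norm _ _).trans ?_)
        exact mul_le_mul_of_nonneg_left hs (norm_nonneg _)
      have h3 := le_of_tendsto h1 h2
      have h4 : (⟪x - v₀, x - v₀⟫_ℂ).re = ‖x - v₀‖ * ‖x - v₀‖ := by
        have := inner_self_eq_norm_mul_norm (𝕜 := ℂ) (x - v₀)
        simpa using this
      rw [h4] at h3
      have h5 : ‖x - v₀‖ ≤ α := by
        rcases (norm_nonneg (x - v₀)).eq_or_lt with h0 | h0
        · obtain ⟨s, hs⟩ := (F.neBot.nonempty_of_mem hmem)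
          rw [← h0]
          exact (norm_nonneg _).trans hs
        · exact le_of_mul_le_mul_left h3 h0
      exact (hPd s₀ x v₀ hv₀C).trans h5
    exact hlsc.measurable
  refine ⟨fun s => P s η, fun s => hPC s η, fun s v hv => ?_, ?_⟩
  · have h1 := hPi s η v hv
    have h2 : ‖η - v‖ ^ 2 = ‖η - P s η‖ ^ 2 - 2 * (⟪η - P s η, v - P s η⟫_ℂ).re +
        ‖v - P s η‖ ^ 2 := by
      have := norm_sub_sq (𝕜 := ℂ) (η - P s η) (v - P s η)
      rw [sub_sub_sub_cancel_right] at this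
      exact this
    have h3 : ‖P s η - v‖ ^ 2 ≤ ‖η - v‖ ^ 2 := by
      rw [norm_sub_rev (P s η) v, h2]
      nlinarith [sq_nonneg ‖η - P s η‖]
    exact le_of_sq_le_sq h3 (norm_nonneg _)
  · -- contraction
    have hcon : ∀ s x y, ‖P s x - P s y‖ ≤ ‖x - y‖ := by
      intro s x y
      have h1 := hPi s x (P s y) (hPC s y)
      have h2 := hPi s y (P s x) (hPC s x)
      have h3 : (⟪x - y, P s x - P s y⟫_ℂ).re =
          ‖P s x - P s y‖ ^ 2 - (⟪x - P s x, P s y - P s x⟫_ℂ).re -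
            (⟪y - P s y, P s x - P s y⟫_ℂ).re := by
        have h4 : x - y = (P s x - P s y) + (x - P s x) - (y - P s y) := by abel
        rw [h4, inner_sub_left, inner_add_left, Complex.sub_re, Complex.add_re]
        have h5 : (⟪P s x - P s y, P s x - P s y⟫_ℂ).re = ‖P s x - P s y‖ ^ 2 := by
          have := inner_self_eq_norm_sq (𝕜 := ℂ) (P s x - P s y)
          simpa using this
        have h6 : ⟪x - P s x, P s y - P s x⟫_ℂ = -⟪x - P s x, P s x - P s y⟫_ℂ := by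
          rw [← inner_neg_right, neg_sub]
        rw [h5, h6, Complex.neg_re]
        ring
      have h4 : (⟪x - y, P s x - P s y⟫_ℂ).re ≤ ‖x - y‖ * ‖P s x - P s y‖ :=
        (Complex.re_le_norm _).trans (norm_inner_le_norm _ _)
      by_contra hlt
      rw [not_le] at hlt
      nlinarith [norm_nonneg (x - y), norm_nonneg (P s x - P s y)]
    -- the derivative of the square of the distance
    have hup : ∀ s x h, ‖x + h - P s (x + h)‖ ^ 2 ≤
        ‖x - P s x‖ ^ 2 + 2 * (⟪h, x - P s x⟫_ℂ).re + ‖h‖ ^ 2 := by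
      intro s x h
      have h1 := hPd s (x + h) (P s x) (hPC s x)
      have h2 : ‖x + h - P s x‖ ^ 2 = ‖h‖ ^ 2 + 2 * (⟪h, x - P s x⟫_ℂ).re +
          ‖x - P s x‖ ^ 2 := by
        have := norm_add_sq (𝕜 := ℂ) h (x - P s x)
        rw [show h + (x - P s x) = x + h - P s x by abel] at this
        exact this
      have h3 : ‖x + h - P s (x + h)‖ ^ 2 ≤ ‖x + h - P s x‖ ^ 2 :=
        pow_le_pow_left₀ (norm_nonneg _) h1 2
      linarith
    have hlow : ∀ s x h, ‖x - P s x‖ ^ 2 + 2 * (⟪h, x - P s x⟫_ℂ).re - ‖h‖ ^ 2 ≤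
        ‖x + h - P s (x + h)‖ ^ 2 := by
      intro s x h
      have h1 := hup s (x + h) (-h)
      rw [add_neg_cancel_right, inner_neg_left, Complex.neg_re, norm_neg] at h1
      have h2 : (⟪h, x + h - P s (x + h)⟫_ℂ).re = (⟪h, x - P s x⟫_ℂ).re + ‖h‖ ^ 2 +
          (⟪h, P s x - P s (x + h)⟫_ℂ).re := by
        have h3 : x + h - P s (x + h) = (x - P s x) + h + (P s x - P s (x + h)) := by abel
        rw [h3, inner_add_right, inner_add_right, Complex.add_re, Complex.add_re]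
        have h5 : (⟪h, h⟫_ℂ).re = ‖h‖ ^ 2 := by
          have := inner_self_eq_norm_sq (𝕜 := ℂ) h
          simpa using this
        rw [h5]
      have h4 : -(‖h‖ ^ 2) ≤ (⟪h, P s x - P s (x + h)⟫_ℂ).re := by
        have h5 : |(⟪h, P s x - P s (x + h)⟫_ℂ).re| ≤ ‖h‖ * ‖P s x - P s (x + h)‖ :=
          (Complex.abs_re_le_norm _).trans (norm_inner_le_norm _ _)
        have h6 : ‖P s x - P s (x + h)‖ ≤ ‖h‖ := by
          have := hcon s x (x + h)
          rwa [sub_add_cancel_left, norm_neg] at this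
        have h7 := (abs_le.1 h5).1
        nlinarith [norm_nonneg h]
      linarith
    have hre : ∀ w : H, Measurable fun s => (⟪w, P s η⟫_ℂ).re := by
      intro w
      let q : ℕ → ℝ → ℝ := fun n s => ((n : ℝ) + 1) *
        (‖η + (((n : ℝ) + 1)⁻¹ : ℂ) • w - P s (η + (((n : ℝ) + 1)⁻¹ : ℂ) • w)‖ ^ 2 -
          ‖η - P s η‖ ^ 2) / 2
      have hq : ∀ n, Measurable (q n) := fun n =>
        ((((hdm _).pow_const 2).sub ((hdm _).pow_const 2)).const_mul _).div_const _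
      have hlim : ∀ s, Tendsto (fun n => q n s) atTop (𝓝 (⟪w, η - P s η⟫_ℂ).re) := by
        intro s
        rw [tendsto_iff_norm_sub_tendsto_zero]
        have hb : ∀ n : ℕ, ‖q n s - (⟪w, η - P s η⟫_ℂ).re‖ ≤ ‖w‖ ^ 2 / 2 * (1 / ((n : ℝ) + 1)) := by
          intro n
          have hn : (0 : ℝ) < (n : ℝ) + 1 := by positivity
          have h1 := hup s η ((((n : ℝ) + 1)⁻¹ : ℂ) • w)
          have h2 := hlow s η ((((n : ℝ) + 1)⁻¹ : ℂ) • w)
          have h3 : (⟪(((n : ℝ) + 1)⁻¹ : ℂ) • w, η - P s η⟫_ℂ).re =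
              ((n : ℝ) + 1)⁻¹ * (⟪w, η - P s η⟫_ℂ).re := by
            rw [inner_smul_left]
            have h0 : (((n : ℝ) + 1)⁻¹ : ℂ) = ((((n : ℝ) + 1)⁻¹ : ℝ) : ℂ) := by push_cast; rfl
            rw [h0, Complex.conj_ofReal, Complex.re_ofReal_mul]
          have h4 : ‖(((n : ℝ) + 1)⁻¹ : ℂ) • w‖ = ((n : ℝ) + 1)⁻¹ * ‖w‖ := by
            rw [norm_smul]
            congr 1
            have : (((n : ℝ) + 1)⁻¹ : ℂ) = ((((n : ℝ) + 1)⁻¹ : ℝ) : ℂ) := by push_cast; rfl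
            rw [this, Complex.norm_real, Real.norm_eq_abs, abs_of_pos (inv_pos.2 hn)]
          rw [h3, h4] at h1 h2
          rw [Real.norm_eq_abs, abs_le]
          set D := ‖η + (((n : ℝ) + 1)⁻¹ : ℂ) • w - P s (η + (((n : ℝ) + 1)⁻¹ : ℂ) • w)‖ ^ 2
          set E := ‖η - P s η‖ ^ 2
          set I := (⟪w, η - P s η⟫_ℂ).re
          have hq' : q n s = ((n : ℝ) + 1) * (D - E) / 2 := rfl
          rw [hq']
          have e1 : ((n : ℝ) + 1) * (((n : ℝ) + 1)⁻¹) = 1 := mul_inv_cancel₀ hn.ne'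
          have e2 : ((n : ℝ) + 1) * ((((n : ℝ) + 1)⁻¹ * ‖w‖) ^ 2) = ‖w‖ ^ 2 * (1 / ((n : ℝ) + 1)) := by
            field_simp
          have u1 : ((n : ℝ) + 1) * (D - E) ≤ 2 * I + ‖w‖ ^ 2 * (1 / ((n : ℝ) + 1)) := by
            have : ((n : ℝ) + 1) * (D - E) ≤ ((n : ℝ) + 1) *
                (2 * (((n : ℝ) + 1)⁻¹ * I) + (((n : ℝ) + 1)⁻¹ * ‖w‖) ^ 2) :=
              mul_le_mul_of_nonneg_left (by linarith) hn.le
            refine this.trans (le_of_eq ?_)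
            rw [mul_add, e2]
            linear_combination (2 * I) * e1
          have u2 : 2 * I - ‖w‖ ^ 2 * (1 / ((n : ℝ) + 1)) ≤ ((n : ℝ) + 1) * (D - E) := by
            have : ((n : ℝ) + 1) * (2 * (((n : ℝ) + 1)⁻¹ * I) - (((n : ℝ) + 1)⁻¹ * ‖w‖) ^ 2) ≤
                ((n : ℝ) + 1) * (D - E) :=
              mul_le_mul_of_nonneg_left (by linarith) hn.le
            refine le_trans (le_of_eq ?_) this
            rw [mul_sub, e2]
            linear_combination (-2 * I) * e1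
          constructor <;> linarith
        refine squeeze_zero (fun n => norm_nonneg _) hb ?_
        have := (tendsto_one_div_add_atTop_nhds_zero_nat (𝕜 := ℝ)).const_mul (‖w‖ ^ 2 / 2)
        simpa using this
      have hm : Measurable fun s => (⟪w, η - P s η⟫_ℂ).re :=
        measurable_of_tendsto_metrizable hq (tendsto_pi_nhds.2 hlim)
      have he : (fun s => (⟪w, P s η⟫_ℂ).re) =
          fun s => (⟪w, η⟫_ℂ).re - (⟪w, η - P s η⟫_ℂ).re := by
        funext s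
        rw [inner_sub_right, Complex.sub_re]
        ring
      rw [he]
      exact measurable_const.sub hm
    intro w
    refine measurable_of_re_im (hre w) ?_
    have him : (fun s => RCLike.im ⟪w, P s η⟫_ℂ) = fun s => (⟪Complex.I • w, P s η⟫_ℂ).re := by
      funext s
      rw [inner_smul_left, Complex.conj_I]
      simp
    rw [him]
    exact hre _

end Pool.Agent.Helper23.ED

end
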