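import Pool.Agent.Helper23.FA.Ns

/-!
Parts of Helper78.BC.Defs, Helper78.BC.Lip2, Helper78.BC.LipAll, Helper43.TTF.E, Helper23.Dom, Helper23.Dom2, Helper88.CS.Defs, Helper88.CS.SuppA, Helper88.CS.Step, Helper88.CS.Exh, Helper88.CS.Full, Helper23.ED.NgE
-/

section

open scoped InnerProductSpace Topology BoundedContinuousFunction

open ContinuousLinearMap Filter

namespace Pool.Agent.Helper78.BC

variable {H : Type*} [NormedAddCommGroup H] [InnerProductSpace ℂ H] [CompleteSpace H]

/-- right multiplication `η y = J y* J η` -/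
noncomputable def rm (J : H →L[ℝ] H) (y : H →L[ℂ] H) (η : H) : H := J ((star y) (J η))

/-- the commutator `[y, η] = y η - η y` -/
noncomputable def cm (J : H →L[ℝ] H) (y : H →L[ℂ] H) (η : H) : H := y η - rm J y η

/-- `v` is a coisometry of `A` with `v ξ ≈ √l ξ v` up to `ε` -/
def Lev (A : VonNeumannAlgebra H) (ξ : H) (J : H →L[ℝ] H) (l ε : ℝ) (v : H →L[ℂ] H) : Prop :=
  v ∈ A ∧ v * star v = 1 ∧ ‖v ξ - ((Real.sqrt l : ℝ) : ℂ) • rm J v ξ‖ ≤ ε

/-- the natural family of a Lipschitz vector `ζ`; `z l` belongs to the functional `l φ` -/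
structure LevFam (A : VonNeumannAlgebra H) (ξ : H) (J : H →L[ℝ] H) (C : ℝ) (ζ : H)
    (z : ℝ → H) : Prop where
  one : z 1 = ζ
  norm : ∀ l : ℝ, 0 < l → l ≤ 1 → ‖z l‖ ≤ ‖ζ‖
  rel : ∀ l m : ℝ, 0 < l → l ≤ 1 → 0 < m → m ≤ 1 → ∀ y ∈ A,
    ‖y (z l) - rm J y (z m)‖ ≤
      C * ‖((Real.sqrt l : ℝ) : ℂ) • y ξ - ((Real.sqrt m : ℝ) : ℂ) • rm J y ξ‖

end Pool.Agent.Helper78.BC

end

section

open scoped InnerProductSpace Topology BoundedContinuousFunction

open ContinuousLinearMap Filter

namespace Pool.Agent.Helper78.BC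

variable {H : Type*} [NormedAddCommGroup H] [InnerProductSpace ℂ H] [CompleteSpace H]

variable {A : VonNeumannAlgebra H} {ξ : H} {J : H →L[ℝ] H}
  {Ψ : (ℝ →ᵇ ℂ) →⋆ₐ[ℂ] (H →L[ℂ] H)}

namespace Lip2

lemma cm_add (u : H →L[ℂ] H) (v w : H) : cm J u (v + w) = cm J u v + cm J u w := by
  simp only [cm, rm, map_add]
  abel

lemma cm_sub (u : H →L[ℂ] H) (v w : H) : cm J u (v - w) = cm J u v - cm J u w := by
  simp only [cm, rm, map_sub]
  abel

end Lip2

end Pool.Agent.Helper78.BC

end

section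

open scoped InnerProductSpace Topology BoundedContinuousFunction

open ContinuousLinearMap Filter

namespace Pool.Agent.Helper78.BC

variable {H : Type*} [NormedAddCommGroup H] [InnerProductSpace ℂ H] [CompleteSpace H]

variable {A : VonNeumannAlgebra H} {ξ : H} {J : H →L[ℝ] H}
  {Ψ : (ℝ →ᵇ ℂ) →⋆ₐ[ℂ] (H →L[ℂ] H)}

namespace LipAll

/-- `cm` is complex linear in the operator: additivity -/
theorem cm_add (J : H →L[ℝ] H) (x y : H →L[ℂ] H) (v : H) :
    cm J (x + y) v = cm J x v + cm J y v := by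
  simp only [cm, rm, star_add, add_apply, map_add]
  abel

/-- `cm` is complex linear in the operator: homogeneity -/
theorem cm_smul (hJ : ∀ (c : ℂ) (v : H), J (c • v) = (starRingEnd ℂ) c • J v)
    (c : ℂ) (y : H →L[ℂ] H) (v : H) : cm J (c • y) v = c • cm J y v := by
  simp only [cm, rm, star_smul, smul_apply, hJ, smul_sub]
  simp

/-- the derivative at `0` of the commutator with `exp (t x)` -/
theorem hasDerivAt_cm (x : H →L[ℂ] H) (v : H) :
    HasDerivAt (fun t : ℝ => cm J (NormedSpace.exp (t • x)) v) (cm J x v) 0 := by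
  have key : ∀ (z : H →L[ℂ] H) (w : H),
      HasDerivAt (fun t : ℝ => (NormedSpace.exp (t • z)) w) (z w) 0 := by
    intro z w
    have h1 := hasDerivAt_exp_smul_const (𝕂 := ℝ) z 0
    rw [zero_smul, NormedSpace.exp_zero, one_mul] at h1
    have h2 := (((ContinuousLinearMap.apply ℂ H w).restrictScalars ℝ).hasFDerivAt
      (x := NormedSpace.exp ((0 : ℝ) • z))).comp_hasDerivAt (0 : ℝ) h1
    exact h2
  have h1 := key x v
  have h2 := key (star x) (J v)
  have h3 := (J.hasFDerivAt (x := (NormedSpace.exp ((0 : ℝ) • star x)) (J v))).comp_hasDerivAt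
    (0 : ℝ) h2
  have h4 := h1.sub h3
  refine h4.congr_of_eventuallyEq (Eventually.of_forall fun t => ?_)
  show NormedSpace.exp (t • x) v - J ((star (NormedSpace.exp (t • x))) (J v)) = _
  rw [NormedSpace.star_exp, star_smul, star_trivial]
  rfl

end LipAll

end Pool.Agent.Helper78.BC

end

section

open scoped InnerProductSpace Topology BoundedContinuousFunction

open ContinuousLinearMap Filter MeasureTheory

namespace Pool.Agent.Helper43.TTF

open Pool.Agent.Helper23

variable {H : Type*} [NormedAddCommGroup H] [InnerProductSpace ℂ H] [CompleteSpace H]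

lemma two_bcf (ρ : ℝ) : (2 : ℝ →ᵇ ℂ) ρ = 2 := rfl

end Pool.Agent.Helper43.TTF

end

section

open scoped InnerProductSpace ComplexOrder ComplexStarModule

open ContinuousLinearMap

namespace Pool.Agent.Helper23

variable {H : Type*} [NormedAddCommGroup H] [InnerProductSpace ℂ H] [CompleteSpace H]

lemma exists_ext' {F K L : Type*} [AddCommGroup F] [Module ℂ F] [NormedAddCommGroup K]
    [NormedSpace ℂ K] [NormedAddCommGroup L] [NormedSpace ℂ L] [CompleteSpace L]
    (f : F →ₗ[ℂ] L) (e : F →ₗ[ℂ] K) (hd : DenseRange e)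
    {C : ℝ} (hC : 0 ≤ C) (h : ∀ t, ‖f t‖ ≤ C * ‖e t‖) :
    ∃ z : K →L[ℂ] L, (∀ t, z (e t) = f t) ∧ ‖z‖ ≤ C :=
  ⟨f.extendOfNorm e, fun t => LinearMap.extendOfNorm_eq hd ⟨C, h⟩ t,
    LinearMap.opNorm_extendOfNorm_le hd hC h⟩

end Pool.Agent.Helper23

end

section

open scoped InnerProductSpace ComplexOrder ComplexStarModule

open ContinuousLinearMap

namespace Pool.Agent.Helper23

variable {H : Type*} [NormedAddCommGroup H] [InnerProductSpace ℂ H] [CompleteSpace H]

section Abstract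

variable {A : Type*} [CStarAlgebra A]

/-- vector functional as a linear map -/
noncomputable def vecL (ρ : A →⋆ₐ[ℂ] (H →L[ℂ] H)) (ξ : H) : A →ₗ[ℂ] ℂ where
  toFun x := ⟪ξ, ρ x ξ⟫_ℂ
  map_add' x y := by
    rw [map_add, add_apply, inner_add_right]
  map_smul' c x := by
    rw [map_smul, smul_apply, inner_smul_right]
    rfl

/-- evaluation as a linear map -/
noncomputable def evR (ρ : A →⋆ₐ[ℂ] (H →L[ℂ] H)) (ξ : H) : A →ₗ[ℂ] H where
  toFun x := ρ x ξ
  map_add' x y := by
    rw [map_add, add_apply]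
  map_smul' c x := by
    rw [map_smul, smul_apply]
    rfl

variable [PartialOrder A] [StarOrderedRing A]

/-- The extension of `[x] ↦ ρ(x) ζ` to the GNS space of a functional dominating the vector
functional of `ζ`. -/
lemma exists_gns_op (ρ : A →⋆ₐ[ℂ] (H →L[ℂ] H)) (ζ : H) (χ : A →ₚ[ℂ] ℂ)
    (h : ∀ x : A, ‖ρ x ζ‖ ^ 2 ≤ (χ (star x * x)).re) :
    ∃ T : χ.GNS →L[ℂ] H, (∀ x : A, T ((χ.toPreGNS x : χ.PreGNS) : χ.GNS) = ρ x ζ) ∧
      ‖T‖ ≤ 1 ∧ ∀ a : A, ∀ v : χ.GNS, T (χ.gnsStarAlgHom a v) = ρ a (T v) := by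
  let e : A →ₗ[ℂ] χ.GNS :=
    (UniformSpace.Completion.toComplL (𝕜 := ℂ) (E := χ.PreGNS)).toLinearMap ∘ₗ
      χ.toPreGNS.toLinearMap
  have he : ∀ x, e x = ((χ.toPreGNS x : χ.PreGNS) : χ.GNS) := fun x => rfl
  have hd : DenseRange e := by
    have h1 : DenseRange ((↑) : χ.PreGNS → χ.GNS) := UniformSpace.Completion.denseRange_coe
    have h2 : Set.range e = Set.range ((↑) : χ.PreGNS → χ.GNS) := by
      ext v
      constructor
      · rintro ⟨x, rfl⟩
        exact ⟨χ.toPreGNS x, rfl⟩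
      · rintro ⟨x, rfl⟩
        exact ⟨χ.ofPreGNS x, rfl⟩
    rw [DenseRange, h2]
    exact h1
  have hbound : ∀ x : A, ‖evR ρ ζ x‖ ≤ 1 * ‖e x‖ := by
    intro x
    rw [one_mul, he, UniformSpace.Completion.norm_coe]
    refine (pow_le_pow_iff_left₀ (norm_nonneg _) (norm_nonneg _) two_ne_zero).1 ?_
    have h1 := χ.preGNS_norm_sq (χ.toPreGNS x)
    rw [PositiveLinearMap.ofPreGNS_toPreGNS] at h1
    have h2 : ‖χ.toPreGNS x‖ ^ 2 = (χ (star x * x)).re := by
      rw [← h1]
      norm_cast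
    rw [h2]
    exact h x
  obtain ⟨T, hT, hT1⟩ := exists_ext' (evR ρ ζ) e hd zero_le_one hbound
  refine ⟨T, hT, hT1, fun a v => ?_⟩
  have hcl : IsClosed {v : χ.GNS | T (χ.gnsStarAlgHom a v) = ρ a (T v)} :=
    isClosed_eq (T.continuous.comp (χ.gnsStarAlgHom a).continuous)
      ((ρ a).continuous.comp T.continuous)
  have hsub : Set.range e ⊆ {v : χ.GNS | T (χ.gnsStarAlgHom a v) = ρ a (T v)} := by
    rintro _ ⟨x, rfl⟩
    change T (χ.gnsStarAlgHom a (e x)) = ρ a (T (e x))
    have h3 : χ.gnsStarAlgHom a (e x) = e (a * x) := by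
      rw [he, he]
      change χ.gnsNonUnitalStarAlgHom a _ = _
      rw [PositiveLinearMap.gnsNonUnitalStarAlgHom_apply_coe]
      rfl
    rw [h3, hT, hT]
    change ρ (a * x) ζ = ρ a (ρ x ζ)
    rw [map_mul]
    rfl
  exact closure_minimal hsub hcl (hd v)

end Abstract

end Pool.Agent.Helper23

end

section

open scoped InnerProductSpace Topology BoundedContinuousFunction

open ContinuousLinearMap Filter MeasureTheory

namespace Pool.Agent.Helper88.CS

open Pool.Agent.Helper23

open Pool.Agent.Helper78.BC (rm)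

variable {H : Type*} [NormedAddCommGroup H] [InnerProductSpace ℂ H] [CompleteSpace H]

/-- the spectral measure of `v` is supported in `[a, b]` -/
def Supp (Ψ : (ℝ →ᵇ ℂ) →⋆ₐ[ℂ] (H →L[ℂ] H)) (v : H) (a b : ℝ) : Prop :=
  ∀ G : ℝ →ᵇ ℂ, (∀ ρ ∈ Set.Icc a b, G ρ = 0) → Ψ G v = 0

/-- the potential -/
noncomputable def Phi (J : H →L[ℝ] H) (ξ : H) (e f v : H →L[ℂ] H) : ℝ :=
  ‖v (rm J (star v * v) ξ) - (v * star v) (rm J v ξ)‖ ^ 2 +
    4 * ‖(star v * v) (rm J (e - star v * v) ξ)‖ ^ 2 +
    4 * ‖(f - v * star v) (rm J (v * star v) ξ)‖ ^ 2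

end Pool.Agent.Helper88.CS

end

section

open scoped InnerProductSpace Topology BoundedContinuousFunction

open ContinuousLinearMap Filter MeasureTheory

namespace Pool.Agent.Helper88.CS

open Pool.Agent.Helper23

open Pool.Agent.Helper78.BC (rm)

variable {H : Type*} [NormedAddCommGroup H] [InnerProductSpace ℂ H] [CompleteSpace H]

variable {A : VonNeumannAlgebra H} {ξ : H} {J : H →L[ℝ] H}
  {Ψ : (ℝ →ᵇ ℂ) →⋆ₐ[ℂ] (H →L[ℂ] H)} {R : H →L[ℂ] H} {D : H →L[ℝ] H}

theorem Supp.mono {v : H} {a b a' b' : ℝ} (h : Supp Ψ v a b) (ha : a' ≤ a) (hb : b ≤ b') :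
    Supp Ψ v a' b' :=
  fun G hG => h G fun ρ hρ => hG ρ ⟨ha.trans hρ.1, hρ.2.trans hb⟩

end Pool.Agent.Helper88.CS

end

section

open scoped InnerProductSpace Topology BoundedContinuousFunction

open ContinuousLinearMap Filter MeasureTheory

namespace Pool.Agent.Helper88.CS

open Pool.Agent.Helper23

open Pool.Agent.Helper78.BC (rm)

variable {H : Type*} [NormedAddCommGroup H] [InnerProductSpace ℂ H] [CompleteSpace H]

variable {A : VonNeumannAlgebra H} {ξ : H} {J : H →L[ℝ] H}

namespace StepAux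

lemma rm_add (J : H →L[ℝ] H) (y z : H →L[ℂ] H) (η : H) :
    rm J (y + z) η = rm J y η + rm J z η := by
  simp only [rm, star_add, add_apply, map_add]

lemma rm_vadd (J : H →L[ℝ] H) (y : H →L[ℂ] H) (η ζ : H) :
    rm J y (η + ζ) = rm J y η + rm J y ζ := by
  simp only [rm, map_add]

lemma rm_vsub (J : H →L[ℝ] H) (y : H →L[ℂ] H) (η ζ : H) :
    rm J y (η - ζ) = rm J y η - rm J y ζ := by
  simp only [rm, map_sub]

lemma rm_zero (J : H →L[ℝ] H) (η : H) : rm J 0 η = 0 := by
  simp only [rm, star_zero, zero_apply, map_zero]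

end StepAux

end Pool.Agent.Helper88.CS

end

section

open scoped InnerProductSpace Topology BoundedContinuousFunction

open ContinuousLinearMap Filter MeasureTheory

namespace Pool.Agent.Helper88.CS

open Pool.Agent.Helper23

open Pool.Agent.Helper78.BC (rm)

variable {H : Type*} [NormedAddCommGroup H] [InnerProductSpace ℂ H] [CompleteSpace H]

variable {A : VonNeumannAlgebra H} {ξ : H} {J : H →L[ℝ] H}
  {Ψ : (ℝ →ᵇ ℂ) →⋆ₐ[ℂ] (H →L[ℂ] H)} {R : H →L[ℂ] H} {D : H →L[ℝ] H}

namespace ExhAux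

/-- the restriction order of partial isometries -/
def Le (v w : H →L[ℂ] H) : Prop := w * (star v * v) = v ∧ (v * star v) * w = v

lemma star_pi {v : H →L[ℂ] H} (hv : v * star v * v = v) : star v * v * star v = star v := by
  have := congrArg star hv
  simpa [star_mul, mul_assoc] using this

lemma ss {v : H →L[ℂ] H} (hv : v * star v * v = v) : star v * (v * star v) = star v := by
  rw [← mul_assoc]; exact star_pi hv

lemma Le.refl {v : H →L[ℂ] H} (hv : v * star v * v = v) : Le v v :=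
  ⟨by rw [← mul_assoc]; exact hv, hv⟩

lemma Le.star_mul_right {v w : H →L[ℂ] H} (hv : v * star v * v = v) (h : Le v w) :
    star v * w = star v * v := by
  have h1 : star v * ((v * star v) * w) = star v * v := by rw [h.2]
  rwa [← mul_assoc, ss hv] at h1

lemma Le.mul_star_left {v w : H →L[ℂ] H} (hv : v * star v * v = v) (h : Le v w) :
    w * star v = v * star v := by
  have h1 : (w * (star v * v)) * star v = v * star v := by rw [h.1]
  rwa [mul_assoc, star_pi hv] at h1

lemma Le.star_mul_left {v w : H →L[ℂ] H} (hv : v * star v * v = v) (h : Le v w) :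
    star w * v = star v * v := by
  have := congrArg star (h.star_mul_right hv)
  simpa [star_mul] using this

lemma Le.mul_star_right {v w : H →L[ℂ] H} (hv : v * star v * v = v) (h : Le v w) :
    v * star w = v * star v := by
  have := congrArg star (h.mul_star_left hv)
  simpa [star_mul] using this

lemma Le.trans {u v w : H →L[ℂ] H} (hu : u * star u * u = u) (hv : v * star v * v = v)
    (h : Le u v) (h' : Le v w) : Le u w := by
  have e1 : (star v * v) * (star u * u) = star u * u := by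
    have : v * (star u * u) = u := h.1
    rw [mul_assoc, this, h.star_mul_left hu]
  have e2 : (u * star u) * (v * star v) = u * star u := by
    rw [← mul_assoc, h.2, h.mul_star_right hu]
  constructor
  · calc w * (star u * u) = w * ((star v * v) * (star u * u)) := by rw [e1]
      _ = (w * (star v * v)) * (star u * u) := by rw [mul_assoc w]
      _ = v * (star u * u) := by rw [h'.1]
      _ = u := h.1
  · calc (u * star u) * w = ((u * star u) * (v * star v)) * w := by rw [e2]
      _ = (u * star u) * ((v * star v) * w) := by rw [mul_assoc]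
      _ = (u * star u) * v := by rw [h'.2]
      _ = u := h.2

lemma norm_proj_le {p : H →L[ℂ] H} (hp : star p = p) (hp2 : p * p = p) (x : H) :
    ‖p x‖ ≤ ‖x‖ := by
  have h1 : ⟪p x, p x⟫_ℂ = ⟪x, p x⟫_ℂ := by
    have : ⟪p x, p x⟫_ℂ = ⟪x, (star p) (p x)⟫_ℂ := by
      rw [ContinuousLinearMap.star_eq_adjoint, ContinuousLinearMap.adjoint_inner_right]
    rw [this, hp]
    have : p (p x) = (p * p) x := rfl
    rw [this, hp2]
  have h2 : ‖p x‖ ^ 2 = ‖⟪p x, p x⟫_ℂ‖ := by
    rw [inner_self_eq_norm_sq_to_K]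
    simp
  have h3 : ‖p x‖ ^ 2 ≤ ‖x‖ * ‖p x‖ := by
    rw [h2, h1]
    exact norm_inner_le_norm _ _
  by_contra hc
  push Not at hc
  have : 0 < ‖p x‖ := lt_of_le_of_lt (norm_nonneg _) hc
  nlinarith

lemma norm_pi_le {v : H →L[ℂ] H} (hv : v * star v * v = v) (x : H) : ‖v x‖ ≤ ‖x‖ := by
  have hp : star (star v * v) = star v * v := by simp [star_mul]
  have hp2 : (star v * v) * (star v * v) = star v * v := by
    rw [mul_assoc, ← mul_assoc v, hv]
  have h1 : ‖v x‖ ^ 2 = ‖⟪x, (star v * v) x⟫_ℂ‖ := by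
    have : ⟪x, (star v * v) x⟫_ℂ = ⟪v x, v x⟫_ℂ := by
      rw [show (star v * v) x = star v (v x) from rfl, ContinuousLinearMap.star_eq_adjoint,
        ContinuousLinearMap.adjoint_inner_right]
    rw [this, inner_self_eq_norm_sq_to_K]
    simp
  have h2 : ‖v x‖ ^ 2 ≤ ‖x‖ ^ 2 := by
    rw [h1]
    refine (norm_inner_le_norm _ _).trans ?_
    have := norm_proj_le hp hp2 x
    nlinarith [norm_nonneg x]
  exact le_of_sq_le_sq h2 (norm_nonneg _)
where
  le_of_sq_le_sq {a b : ℝ} (h : a ^ 2 ≤ b ^ 2) (hb : 0 ≤ b) : a ≤ b := by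
    by_contra hc
    push Not at hc
    nlinarith

lemma q_proj {v : H →L[ℂ] H} (hv : v * star v * v = v) :
    star (v * star v) = v * star v ∧ (v * star v) * (v * star v) = v * star v := by
  refine ⟨by simp [star_mul], ?_⟩
  rw [← mul_assoc, hv]

lemma Le.norm_le {v w : H →L[ℂ] H} (hv : v * star v * v = v) (h : Le v w) (x : H) :
    ‖v x‖ ≤ ‖w x‖ := by
  have : v x = (v * star v) (w x) := by
    conv_lhs => rw [← h.2]
    rfl
  rw [this]
  exact norm_proj_le (q_proj hv).1 (q_proj hv).2 _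

/-- the difference -/
lemma Le.diff {v w : H →L[ℂ] H} (hv : v * star v * v = v) (hw : w * star w * w = w)
    (h : Le v w) :
    star (w - v) * (w - v) = star w * w - star v * v ∧
      (w - v) * star (w - v) = w * star w - v * star v ∧
      (w - v) * star (w - v) * (w - v) = w - v := by
  have a1 := h.star_mul_right hv
  have a2 := h.mul_star_left hv
  have a3 := h.star_mul_left hv
  have a4 := h.mul_star_right hv
  have b1 : star (w - v) * (w - v) = star w * w - star v * v := by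
    rw [star_sub, sub_mul, mul_sub, mul_sub, a1, a3]; abel
  have b2 : (w - v) * star (w - v) = w * star w - v * star v := by
    rw [star_sub, sub_mul, mul_sub, mul_sub, a2, a4]; abel
  refine ⟨b1, b2, ?_⟩
  rw [b2, sub_mul, mul_sub, mul_sub, hw, hv]
  have c1 : w * star w * v = v := by
    rw [mul_assoc, a3]; exact h.1
  have c2 : v * star v * w = v := h.2
  rw [c1, c2]; abel

/-- admissible partial isometries -/
def Adm (A : VonNeumannAlgebra H) (ξ : H) (J : H →L[ℝ] H) (e f : H →L[ℂ] H) (δ : ℝ) :=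
  {v : H →L[ℂ] H // v ∈ A ∧ v * star v * v = v ∧ f * v = v ∧ v * e = v ∧
    Phi J ξ e f v ≤ δ * ‖v ξ‖ ^ 2}

instance (A : VonNeumannAlgebra H) (ξ : H) (J : H →L[ℝ] H) (e f : H →L[ℂ] H) (δ : ℝ) :
    Preorder (Adm A ξ J e f δ) where
  le a b := Le a.1 b.1
  le_refl a := Le.refl a.2.2.1
  le_trans a b c h h' := Le.trans a.2.2.1 b.2.2.1 h h'

end ExhAux

end Pool.Agent.Helper88.CS

end

section

open scoped InnerProductSpace Topology BoundedContinuousFunction

open ContinuousLinearMap Filter MeasureTheory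

namespace Pool.Agent.Helper88.CS

open Pool.Agent.Helper23

open Pool.Agent.Helper78.BC (rm)

variable {H : Type*} [NormedAddCommGroup H] [InnerProductSpace ℂ H] [CompleteSpace H]

variable {A : VonNeumannAlgebra H} {ξ : H} {J : H →L[ℝ] H}
  {Ψ : (ℝ →ᵇ ℂ) →⋆ₐ[ℂ] (H →L[ℂ] H)} {R : H →L[ℂ] H} {D : H →L[ℝ] H}

namespace FullAux

open ExhAux InftyAux

lemma rm_sub (b : H →L[ℂ] H) (v w : H) : rm J b (v - w) = rm J b v - rm J b w := by
  simp [rm]

lemma rm_add_left (b c : H →L[ℂ] H) (v : H) : rm J (b + c) v = rm J b v + rm J c v := by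
  simp [rm]

end FullAux

end Pool.Agent.Helper88.CS

end

section

open scoped InnerProductSpace Topology ENNReal BoundedContinuousFunction

open ContinuousLinearMap Filter MeasureTheory

namespace Pool.Agent.Helper23.ED

open Pool.Agent.Helper23 Pool.Agent.Helper23.RBF

universe u

variable {H : Type u} [NormedAddCommGroup H] [InnerProductSpace ℂ H] [CompleteSpace H]

variable {K : Type u} [NormedAddCommGroup K] [InnerProductSpace ℂ K] [CompleteSpace K]

variable {L : Type u} [NormedAddCommGroup L] [InnerProductSpace ℂ L] [CompleteSpace L]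

variable {N : VonNeumannAlgebra H} {ψ : (H →L[ℂ] H) → ℝ≥0∞} {ξ : H} {i : K →L[ℂ] H} {κ : K}
  {Λ : (H →L[ℂ] H) → L} {ρ : (H →L[ℂ] H) → (L →L[ℂ] L)}

omit [CompleteSpace K] [CompleteSpace L] in
lemma NgE_closure {A B : Set (K × L)} (X : K →L[ℂ] K) (P : L →L[ℂ] L)
    (h : ∀ p ∈ A, ((X p.1, P p.2) : K × L) ∈ closure B) {p : K × L} (hp : p ∈ closure A) :
    ((X p.1, P p.2) : K × L) ∈ closure B := by
  have hc : Continuous fun p : K × L => ((X p.1, P p.2) : K × L) := by fun_prop
  exact closure_minimal (t := (fun p : K × L => ((X p.1, P p.2) : K × L)) ⁻¹' closure B)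
    (fun p hp => h p hp) (isClosed_closure.preimage hc) hp

end Pool.Agent.Helper23.ED

end
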