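import Pool.Agent.Helper23.FA.Ns
import Pool.Agent.Helper23.FA.Defs

/-!
Parts of Helper68.G2b3, V.Sum, Helper78.BC.PsiZero, Helper88.CS.AmpA, Helper88.CS.Real, Helper88.CS.Final
-/

section

open scoped InnerProductSpace Topology BoundedContinuousFunction FourierTransform ENNReal

open ContinuousLinearMap Filter MeasureTheory

set_option linter.unusedSectionVars false

namespace Pool.Agent.Helper23

variable {H : Type*} [NormedAddCommGroup H] [InnerProductSpace ℂ H] [CompleteSpace H]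

/-- the multiplier `(2 - FR)⁻²` cut off at `-2m` -/
noncomputable def GB (m : ℕ) : ℝ →ᵇ ℂ :=
  BoundedContinuousFunction.ofNormedAddCommGroup
    (fun ρ : ℝ => ((((1 + Real.exp (-(max ρ (-(2 * m))))) / 2) ^ 2 : ℝ) : ℂ)) (by fun_prop)
    (((1 + Real.exp (2 * m)) / 2) ^ 2) (by
      intro ρ
      rw [Complex.norm_real, Real.norm_of_nonneg (by positivity)]
      gcongr
      have := le_max_right ρ (-(2 * (m : ℝ)))
      linarith)

lemma GB_apply {m : ℕ} {ρ : ℝ} (h : -(2 * (m : ℝ)) ≤ ρ) :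
    GB m ρ = ((((1 + Real.exp (-ρ)) / 2) ^ 2 : ℝ) : ℂ) := by
  change ((((1 + Real.exp (-(max ρ (-(2 * m))))) / 2) ^ 2 : ℝ) : ℂ) = _
  rw [max_eq_left h]

end Pool.Agent.Helper23

end

section

open scoped InnerProductSpace Topology ENNReal BoundedContinuousFunction

open ContinuousLinearMap Filter MeasureTheory

namespace Pool.Agent.Helper23

universe u

variable {H : Type u} [NormedAddCommGroup H] [InnerProductSpace ℂ H] [CompleteSpace H]

namespace Sum

/-- the quadratic form `q(G) = re ⟨v, Ψ(G) v⟩` -/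
noncomputable def q (Ψ : (ℝ →ᵇ ℂ) →⋆ₐ[ℂ] (H →L[ℂ] H)) (v : H) (G : ℝ →ᵇ ℂ) : ℝ :=
  (⟪v, Ψ G v⟫_ℂ).re

variable (Ψ : (ℝ →ᵇ ℂ) →⋆ₐ[ℂ] (H →L[ℂ] H)) (v : H)

lemma q_star_mul (S : ℝ →ᵇ ℂ) : q Ψ v (star S * S) = ‖Ψ S v‖ ^ 2 := by
  unfold q
  rw [map_mul, map_star]
  change (⟪v, (star (Ψ S)) (Ψ S v)⟫_ℂ).re = _
  rw [star_eq_adjoint, adjoint_inner_right, inner_self_eq_norm_sq_to_K]
  norm_cast

lemma q_add (F G : ℝ →ᵇ ℂ) : q Ψ v (F + G) = q Ψ v F + q Ψ v G := by
  unfold q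
  rw [map_add]
  change (⟪v, Ψ F v + Ψ G v⟫_ℂ).re = _
  rw [inner_add_right, Complex.add_re]

lemma q_sum {ι : Type*} (s : Finset ι) (G : ι → ℝ →ᵇ ℂ) :
    q Ψ v (∑ j ∈ s, G j) = ∑ j ∈ s, q Ψ v (G j) := by
  classical
  induction s using Finset.induction_on with
  | empty => simp [q]
  | insert a s ha ih => rw [Finset.sum_insert ha, Finset.sum_insert ha, q_add, ih]

end Sum

end Pool.Agent.Helper23

end

section

open scoped InnerProductSpace Topology BoundedContinuousFunction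

open ContinuousLinearMap Filter

namespace Pool.Agent.Helper78.BC

variable {H : Type*} [NormedAddCommGroup H] [InnerProductSpace ℂ H] [CompleteSpace H]

namespace PsiZero

/-- the clamp function -/
noncomputable def cl (t : ℝ) : ℝ := max 0 (min 1 t)

lemma cl_cont : Continuous cl := by unfold cl; fun_prop

lemma cl_zero {t : ℝ} (h : t ≤ 0) : cl t = 0 := by
  unfold cl
  rw [max_eq_left ((min_le_right _ _).trans h)]

lemma cl_one {t : ℝ} (h : 1 ≤ t) : cl t = 1 := by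
  unfold cl
  rw [min_eq_left h, max_eq_right zero_le_one]

lemma cl_mono {s t : ℝ} (h : s ≤ t) : cl s ≤ cl t :=
  max_le_max le_rfl (min_le_min le_rfl h)

lemma cl_nonneg (t : ℝ) : 0 ≤ cl t := le_max_left _ _

lemma cl_le (t : ℝ) : cl t ≤ 1 := max_le zero_le_one (min_le_left _ _)

/-- the tent function -/
noncomputable def tn (a w : ℝ) (k : ℕ) (ρ : ℝ) : ℝ :=
  cl ((ρ - a) / w - k + 1) - cl ((ρ - a) / w - k)

lemma tn_nonneg (a w : ℝ) (k : ℕ) (ρ : ℝ) : 0 ≤ tn a w k ρ :=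
  sub_nonneg.2 (cl_mono (by linarith))

lemma tn_le (a w : ℝ) (k : ℕ) (ρ : ℝ) : tn a w k ρ ≤ 1 := by
  unfold tn
  linarith [cl_le ((ρ - a) / w - k + 1), cl_nonneg ((ρ - a) / w - k)]

lemma tn_zero {a w : ℝ} (hw : 0 < w) {k : ℕ} {ρ : ℝ} (h : w < |ρ - (a + k * w)|) :
    tn a w k ρ = 0 := by
  unfold tn
  have e : (ρ - a) / w - k = (ρ - (a + k * w)) / w := by field_simp; ring
  rw [e]
  rcases lt_abs.1 h with h1 | h1
  · have h2 : 1 < (ρ - (a + k * w)) / w := (one_lt_div hw).2 h1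
    rw [cl_one (by linarith), cl_one h2.le, sub_self]
  · have h2 : (ρ - (a + k * w)) / w < -1 := by
      rw [div_lt_iff₀ hw]; linarith
    rw [cl_zero (by linarith), cl_zero (by linarith), sub_self]

lemma tn_sum {a w : ℝ} (hw : 0 < w) (m : ℕ) {ρ : ℝ} (h1 : a ≤ ρ) (h2 : ρ ≤ a + m * w) :
    ∑ k ∈ Finset.range (m + 1), tn a w k ρ = 1 := by
  have h := Finset.sum_range_sub' (fun k : ℕ => cl ((ρ - a) / w - k + 1)) (m + 1)
  have e : ∀ k : ℕ, cl ((ρ - a) / w - k + 1) - cl ((ρ - a) / w - ((k + 1 : ℕ) : ℝ) + 1) =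
      tn a w k ρ := by
    intro k
    unfold tn
    congr 2
    push_cast
    ring
  simp only [e] at h
  rw [h, cl_one, cl_zero, sub_zero]
  · have : (ρ - a) / w ≤ m := by rw [div_le_iff₀ hw]; linarith
    push_cast
    linarith
  · have : 0 ≤ (ρ - a) / w := div_nonneg (by linarith) hw.le
    push_cast
    linarith

lemma tn_cont (a w : ℝ) (k : ℕ) : Continuous (tn a w k) := by
  have h1 : Continuous fun ρ : ℝ => (ρ - a) / w - k + 1 := by fun_prop
  have h2 : Continuous fun ρ : ℝ => (ρ - a) / w - k := by fun_prop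
  exact (cl_cont.comp h1).sub (cl_cont.comp h2)

/-- the square root of the tent -/
noncomputable def fB (a w : ℝ) (k : ℕ) : ℝ →ᵇ ℂ :=
  BoundedContinuousFunction.ofNormedAddCommGroup
    (fun ρ : ℝ => ((Real.sqrt (tn a w k ρ) : ℝ) : ℂ))
    (Complex.continuous_ofReal.comp (Real.continuous_sqrt.comp (tn_cont a w k))) 1 (by
      intro ρ
      rw [Complex.norm_real, Real.norm_of_nonneg (Real.sqrt_nonneg _)]
      exact Real.sqrt_le_one.2 (tn_le _ _ _ _))

lemma fB_apply (a w : ℝ) (k : ℕ) (ρ : ℝ) : fB a w k ρ = ((Real.sqrt (tn a w k ρ) : ℝ) : ℂ) := rfl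

/-- the exponential on the support of the window, truncated -/
noncomputable def eB (q : ℝ) (hq : 0 ≤ q) : ℝ →ᵇ ℂ :=
  BoundedContinuousFunction.ofNormedAddCommGroup
    (fun ρ : ℝ => ((min q (Real.exp (-ρ / 2)) : ℝ) : ℂ)) (by fun_prop) q (by
      intro ρ
      rw [Complex.norm_real, Real.norm_of_nonneg (le_min hq (Real.exp_pos _).le)]
      exact min_le_left _ _)

lemma eB_apply (q : ℝ) (hq : 0 ≤ q) (ρ : ℝ) :
    eB q hq ρ = ((min q (Real.exp (-ρ / 2)) : ℝ) : ℂ) := rfl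

lemma eB_norm (q : ℝ) (hq : 0 ≤ q) : ‖eB q hq‖ ≤ q :=
  BoundedContinuousFunction.norm_ofNormedAddCommGroup_le _ hq _

lemma psi_le (Ψ : (ℝ →ᵇ ℂ) →⋆ₐ[ℂ] (H →L[ℂ] H)) (G : ℝ →ᵇ ℂ) (v : H) :
    ‖Ψ G v‖ ≤ ‖G‖ * ‖v‖ :=
  ((Ψ G).le_opNorm v).trans (mul_le_mul_of_nonneg_right
    (NonUnitalStarAlgHom.norm_apply_le Ψ G) (norm_nonneg _))

lemma exp_lip {x y : ℝ} (hx : 0 ≤ x) (hy : 0 ≤ y) :
    |Real.exp (-x / 2) - Real.exp (-y / 2)| ≤ |x - y| / 2 := by
  wlog h : x ≤ y generalizing x y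
  · rw [abs_sub_comm, abs_sub_comm x y]
    exact this hy hx (le_of_not_ge h)
  have h1 : Real.exp (-y / 2) ≤ Real.exp (-x / 2) := Real.exp_le_exp.2 (by linarith)
  rw [abs_of_nonneg (sub_nonneg.2 h1), abs_of_nonpos (by linarith)]
  have h2 : Real.exp (-y / 2) = Real.exp (-x / 2) * Real.exp (-(y - x) / 2) := by
    rw [← Real.exp_add]; congr 1; ring
  have h3 := Real.add_one_le_exp (-(y - x) / 2)
  have h4 : Real.exp (-x / 2) ≤ 1 := Real.exp_le_one_iff.2 (by linarith)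
  have h5 := Real.exp_pos (-x / 2)
  rw [h2]
  nlinarith

/-- one window -/
lemma window {Ψ : (ℝ →ᵇ ℂ) →⋆ₐ[ℂ] (H →L[ℂ] H)} {C : ℝ} (hC : 0 ≤ C) {ζ : H} {z : ℝ → H}
    (h1 : z 1 = ζ) (hn : ∀ l : ℝ, 0 < l → l ≤ 1 → ‖z l‖ ≤ ‖ζ‖)
    (hp : ∀ l m : ℝ, 0 < l → l ≤ 1 → 0 < m → m ≤ 1 → ∀ G G' : ℝ →ᵇ ℂ, HasCompactSupport G →
      (∀ ρ, (G ρ).im = 0) → (∀ ρ, G' ρ = ((Real.exp (ρ / 2) : ℝ) : ℂ) * G ρ) → ∀ s : ℝ,
      (∀ ρ, ‖G ρ‖ * |Real.sqrt l * Real.exp (ρ / 2) - Real.sqrt m| ≤ s) →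
      ‖Ψ G (z l) - Ψ G' (z m)‖ ≤ C * s)
    {c κ w : ℝ} (hc : 0 < c) (hκ : 2 * c ≤ κ) (hw : 0 < w) (hwc : w ≤ c) {F : ℝ →ᵇ ℂ}
    {f : ℝ → ℝ} (hF : ∀ ρ, F ρ = f ρ) (hf0 : ∀ ρ, 0 ≤ f ρ) (hf1 : ∀ ρ, f ρ ≤ 1)
    (hfw : ∀ ρ, w < |ρ - κ| → f ρ = 0) :
    ‖Ψ F ζ‖ ≤ C * w / (2 * (1 - Real.exp (-c / 2))) := by
  set q := Real.exp (-c / 2) with hq
  have hq0 : 0 < q := Real.exp_pos _
  have hq1 : q < 1 := by rw [hq, Real.exp_lt_one_iff]; linarith
  set u : ℕ → ℝ := fun n => ‖Ψ F (z (Real.exp (-(n * κ))))‖ with hu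
  have hκ0 : 0 < κ := by linarith
  have hl : ∀ n : ℕ, 0 < Real.exp (-(n * κ)) ∧ Real.exp (-(n * κ)) ≤ 1 := fun n =>
    ⟨Real.exp_pos _, Real.exp_le_one_iff.2 (by
      have : (0 : ℝ) ≤ n := Nat.cast_nonneg n
      nlinarith)⟩
  have hsupp : ∀ ρ, f ρ ≠ 0 → κ - w ≤ ρ ∧ ρ ≤ κ + w := by
    intro ρ h
    have h2 : |ρ - κ| ≤ w := by
      by_contra hcon
      exact h (hfw ρ (not_le.1 hcon))
    rw [abs_le] at h2
    exact ⟨by linarith [h2.1], by linarith [h2.2]⟩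
  have hsqrt : ∀ n : ℕ, Real.sqrt (Real.exp (-(n * κ))) = Real.exp (-(n * κ) / 2) := by
    intro n
    rw [← Real.exp_half]
  have hmulF : ∀ ρ, (eB q hq0.le * F) ρ = ((Real.exp (-ρ / 2) * f ρ : ℝ) : ℂ) := by
    intro ρ
    rw [BoundedContinuousFunction.mul_apply, eB_apply, hF]
    by_cases h : f ρ = 0
    · rw [h]; simp
    · have h2 := (hsupp ρ h).1
      have h3 : Real.exp (-ρ / 2) ≤ q := Real.exp_le_exp.2 (by linarith)
      rw [min_eq_right h3]
      push_cast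
      rfl
  have hrec : ∀ n : ℕ, u n ≤ q * u (n + 1) + C * w / 2 := by
    intro n
    have h2 := hp (Real.exp (-((n + 1 : ℕ) * κ))) (Real.exp (-(n * κ))) (hl _).1 (hl _).2
      (hl _).1 (hl _).2 (eB q hq0.le * F) F (by
        refine HasCompactSupport.of_support_subset_isCompact (isCompact_Icc (a := κ - w)
          (b := κ + w)) fun ρ hρ => ?_
        rw [Function.mem_support, hmulF] at hρ
        refine hsupp ρ fun h0 => hρ ?_
        rw [h0, mul_zero, Complex.ofReal_zero]) (fun ρ => by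
        rw [hmulF, Complex.ofReal_im]) (fun ρ => by
        rw [hmulF, hF, ← Complex.ofReal_mul, ← mul_assoc, ← Real.exp_add]
        have : ρ / 2 + -ρ / 2 = 0 := by ring
        rw [this, Real.exp_zero, one_mul]) (w / 2) (by
        intro ρ
        rw [hmulF, Complex.norm_real, Real.norm_of_nonneg
          (mul_nonneg (Real.exp_pos _).le (hf0 ρ)), hsqrt, hsqrt]
        by_cases h : f ρ = 0
        · rw [h, mul_zero, zero_mul]; positivity
        · have h2 := hsupp ρ h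
          have e1 : Real.exp (-((n + 1 : ℕ) * κ) / 2) * Real.exp (ρ / 2) -
              Real.exp (-(n * κ) / 2) =
              Real.exp (-(n * κ) / 2) * Real.exp (ρ / 2) *
                (Real.exp (-κ / 2) - Real.exp (-ρ / 2)) := by
            rw [mul_sub, ← Real.exp_add, ← Real.exp_add, ← Real.exp_add, ← Real.exp_add]
            congr 1
            · congr 1; push_cast; ring
            · congr 1; ring
          rw [e1, abs_mul, abs_mul, abs_of_pos (Real.exp_pos _), abs_of_pos (Real.exp_pos _)]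
          have h3 := exp_lip (x := κ) (y := ρ) hκ0.le (by linarith)
          have h4 : |κ - ρ| ≤ w := abs_le.2 ⟨by linarith, by linarith⟩
          have h5 : Real.exp (-(n * κ) / 2) ≤ 1 := Real.exp_le_one_iff.2 (by
            have : (0 : ℝ) ≤ n := Nat.cast_nonneg n
            nlinarith)
          have e2 : Real.exp (-ρ / 2) * f ρ * (Real.exp (-(n * κ) / 2) * Real.exp (ρ / 2) *
              |Real.exp (-κ / 2) - Real.exp (-ρ / 2)|) =
              (Real.exp (-ρ / 2) * Real.exp (ρ / 2)) * (f ρ * Real.exp (-(n * κ) / 2)) *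
                |Real.exp (-κ / 2) - Real.exp (-ρ / 2)| := by ring
          have e3 : Real.exp (-ρ / 2) * Real.exp (ρ / 2) = 1 := by
            rw [← Real.exp_add]
            have : -ρ / 2 + ρ / 2 = 0 := by ring
            rw [this, Real.exp_zero]
          rw [e2, e3, one_mul]
          have h6 : f ρ * Real.exp (-(n * κ) / 2) ≤ 1 := by
            have := mul_le_mul (hf1 ρ) h5 (Real.exp_pos _).le zero_le_one
            linarith
          calc f ρ * Real.exp (-(n * κ) / 2) * |Real.exp (-κ / 2) - Real.exp (-ρ / 2)| ≤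
                1 * |Real.exp (-κ / 2) - Real.exp (-ρ / 2)| :=
                mul_le_mul_of_nonneg_right h6 (abs_nonneg _)
            _ ≤ w / 2 := by linarith)
    have h3 : ‖Ψ (eB q hq0.le * F) (z (Real.exp (-((n + 1 : ℕ) * κ))))‖ ≤ q * u (n + 1) := by
      rw [map_mul]
      change ‖Ψ (eB q hq0.le) (Ψ F (z (Real.exp (-((n + 1 : ℕ) * κ)))))‖ ≤ _
      exact (psi_le Ψ _ _).trans (mul_le_mul_of_nonneg_right (eB_norm q hq0.le) (norm_nonneg _))
    have h4 : u n ≤ ‖Ψ (eB q hq0.le * F) (z (Real.exp (-((n + 1 : ℕ) * κ))))‖ +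
        ‖Ψ (eB q hq0.le * F) (z (Real.exp (-((n + 1 : ℕ) * κ)))) -
          Ψ F (z (Real.exp (-(n * κ))))‖ := norm_le_norm_add_norm_sub _ _
    linarith
  have hall : ∀ n : ℕ, u 0 ≤ q ^ n * u n + C * w / 2 * ((1 - q ^ n) / (1 - q)) := by
    intro n
    induction n with
    | zero => simp
    | succ n ih =>
      have h2 := mul_le_mul_of_nonneg_left (hrec n) (pow_nonneg hq0.le n)
      have e : (1 - q ^ (n + 1)) / (1 - q) = (1 - q ^ n) / (1 - q) + q ^ n := by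
        have : (1 : ℝ) - q ≠ 0 := by linarith
        field_simp
        ring
      rw [e, pow_succ]
      nlinarith
  have hub : ∀ n, u n ≤ ‖F‖ * ‖ζ‖ := fun n =>
    (psi_le Ψ F _).trans (mul_le_mul_of_nonneg_left (hn _ (hl n).1 (hl n).2) (norm_nonneg _))
  have hlim : Tendsto (fun n : ℕ => q ^ n * (‖F‖ * ‖ζ‖) + C * w / 2 * ((1 - q ^ n) / (1 - q)))
      atTop (𝓝 (0 * (‖F‖ * ‖ζ‖) + C * w / 2 * ((1 - 0) / (1 - q)))) := by
    have h2 := tendsto_pow_atTop_nhds_zero_of_lt_one hq0.le hq1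
    exact (h2.mul_const _).add (((h2.const_sub 1).div_const _).const_mul _)
  have h0 : u 0 ≤ 0 * (‖F‖ * ‖ζ‖) + C * w / 2 * ((1 - 0) / (1 - q)) := by
    refine ge_of_tendsto' hlim fun n => (hall n).trans ?_
    have := mul_le_mul_of_nonneg_left (hub n) (pow_nonneg hq0.le n)
    linarith
  have e0 : u 0 = ‖Ψ F ζ‖ := by
    simp only [hu, Nat.cast_zero, zero_mul, neg_zero, Real.exp_zero, h1]
  rw [← e0]
  refine h0.trans (le_of_eq ?_)
  have : (1 : ℝ) - q ≠ 0 := by linarith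
  field_simp
  ring

end PsiZero

open PsiZero Pool.Agent.Helper23 in
theorem psi_zero {Ψ : (ℝ →ᵇ ℂ) →⋆ₐ[ℂ] (H →L[ℂ] H)} {C : ℝ} (hC : 0 ≤ C) {ζ : H} {z : ℝ → H}
    (h1 : z 1 = ζ) (hn : ∀ l : ℝ, 0 < l → l ≤ 1 → ‖z l‖ ≤ ‖ζ‖)
    (hc : ∀ l m : ℝ, 0 < l → l ≤ 1 → 0 < m → m ≤ 1 →
      ‖z l - z m‖ ≤ C * |Real.sqrt l - Real.sqrt m|)
    (hp : ∀ l m : ℝ, 0 < l → l ≤ 1 → 0 < m → m ≤ 1 → ∀ G G' : ℝ →ᵇ ℂ, HasCompactSupport G →
      (∀ ρ, (G ρ).im = 0) → (∀ ρ, G' ρ = ((Real.exp (ρ / 2) : ℝ) : ℂ) * G ρ) → ∀ s : ℝ,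
      (∀ ρ, ‖G ρ‖ * |Real.sqrt l * Real.exp (ρ / 2) - Real.sqrt m| ≤ s) →
      ‖Ψ G (z l) - Ψ G' (z m)‖ ≤ C * s)
    {a b : ℝ} (ha : 0 < a) (hab : a < b) {G : ℝ →ᵇ ℂ}
    (hG : ∀ ρ, ρ ∉ Set.Icc a b → G ρ = 0) : Ψ G ζ = 0 := by
  set c := a / 2 with hcdef
  have hc0 : 0 < c := by positivity
  set B := C / (2 * (1 - Real.exp (-c / 2))) with hB
  have hq1 : Real.exp (-c / 2) < 1 := by rw [Real.exp_lt_one_iff]; linarith
  have hB0 : 0 ≤ B := div_nonneg hC (by linarith)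
  have main : ∀ m : ℕ, 1 ≤ m → (b - a) / m ≤ c →
      ‖Ψ G ζ‖ ^ 2 ≤ (m + 1) * (‖G‖ * (B * ((b - a) / m))) ^ 2 := by
    intro m hm hwc
    have hm0 : (0 : ℝ) < m := by exact_mod_cast hm
    set w := (b - a) / m with hw
    have hw0 : 0 < w := div_pos (by linarith) hm0
    have hbw : a + m * w = b := by rw [hw]; field_simp; ring
    have e1 : star G * G = ∑ k ∈ Finset.range (m + 1), star (G * fB a w k) * (G * fB a w k) := by
      ext ρ
      rw [BoundedContinuousFunction.coe_sum, Finset.sum_apply,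
        BoundedContinuousFunction.mul_apply, BoundedContinuousFunction.star_apply]
      have e2 : ∀ k ∈ Finset.range (m + 1), (star (G * fB a w k) * (G * fB a w k)) ρ =
          (star (G ρ) * G ρ) * ((tn a w k ρ : ℝ) : ℂ) := by
        intro k _
        rw [BoundedContinuousFunction.mul_apply, BoundedContinuousFunction.star_apply,
          BoundedContinuousFunction.mul_apply, fB_apply, star_mul, Complex.star_def,
          Complex.conj_ofReal]
        have h2 : ((tn a w k ρ : ℝ) : ℂ) = ((Real.sqrt (tn a w k ρ) : ℝ) : ℂ) *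
            ((Real.sqrt (tn a w k ρ) : ℝ) : ℂ) := by
          rw [← Complex.ofReal_mul, Real.mul_self_sqrt (tn_nonneg _ _ _ _)]
        rw [h2]
        ring
      rw [Finset.sum_congr rfl e2, ← Finset.mul_sum, ← Complex.ofReal_sum]
      by_cases hρ : ρ ∈ Set.Icc a b
      · rw [tn_sum hw0 m hρ.1 (by rw [hbw]; exact hρ.2), Complex.ofReal_one, mul_one]
      · rw [hG ρ hρ, mul_zero, zero_mul]
    rw [← Sum.q_star_mul, e1, Sum.q_sum]
    have h2 : ∀ k ∈ Finset.range (m + 1), Sum.q Ψ ζ (star (G * fB a w k) * (G * fB a w k)) ≤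
        (‖G‖ * (B * w)) ^ 2 := by
      intro k _
      rw [Sum.q_star_mul]
      refine pow_le_pow_left₀ (norm_nonneg _) ?_ 2
      rw [map_mul]
      change ‖Ψ G (Ψ (fB a w k) ζ)‖ ≤ _
      refine (psi_le Ψ _ _).trans (mul_le_mul_of_nonneg_left ?_ (norm_nonneg _))
      have h3 := window hC h1 hn hp (c := c) (κ := a + k * w) (w := w) hc0
        (by have : (0 : ℝ) ≤ k * w := by positivity
            rw [hcdef]; linarith) hw0 hwc
        (F := fB a w k) (f := fun ρ => Real.sqrt (tn a w k ρ)) (fun ρ => rfl)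
        (fun ρ => Real.sqrt_nonneg _) (fun ρ => Real.sqrt_le_one.2 (tn_le _ _ _ _))
        (fun ρ hρ => by
          change Real.sqrt (tn a w k ρ) = 0
          rw [tn_zero hw0 hρ, Real.sqrt_zero])
      refine h3.trans (le_of_eq ?_)
      rw [hB]
      ring
    refine (Finset.sum_le_sum h2).trans (le_of_eq ?_)
    rw [Finset.sum_const, Finset.card_range, nsmul_eq_mul]
    push_cast
    ring
  have hlim : Tendsto (fun m : ℕ => ((m : ℝ) + 1) * (‖G‖ * (B * ((b - a) / m))) ^ 2) atTop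
      (𝓝 0) := by
    have e : ∀ m : ℕ, 1 ≤ m → ((m : ℝ) + 1) * (‖G‖ * (B * ((b - a) / m))) ^ 2 =
        (‖G‖ * (B * (b - a))) ^ 2 * ((1 : ℝ) / m + ((1 : ℝ) / m) * ((1 : ℝ) / m)) := by
      intro m hm
      have hm0 : (0 : ℝ) < m := by exact_mod_cast hm
      field_simp
    have h2 : Tendsto (fun m : ℕ => (‖G‖ * (B * (b - a))) ^ 2 *
        ((1 : ℝ) / m + ((1 : ℝ) / m) * ((1 : ℝ) / m))) atTop
        (𝓝 ((‖G‖ * (B * (b - a))) ^ 2 * (0 + 0 * 0))) := by
      have h3 := tendsto_one_div_atTop_nhds_zero_nat (𝕜 := ℝ)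
      exact (h3.add (h3.mul h3)).const_mul _
    rw [mul_zero, add_zero, mul_zero] at h2
    refine h2.congr' ?_
    filter_upwards [eventually_ge_atTop 1] with m hm
    exact (e m hm).symm
  have hev : ∀ᶠ m : ℕ in atTop, (b - a) / m ≤ c := by
    have h2 : Tendsto (fun m : ℕ => (b - a) * ((1 : ℝ) / m)) atTop (𝓝 ((b - a) * 0)) :=
      (tendsto_one_div_atTop_nhds_zero_nat (𝕜 := ℝ)).const_mul _
    rw [mul_zero] at h2
    filter_upwards [h2.eventually (gt_mem_nhds hc0)] with m hm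
    have : (b - a) / m = (b - a) * ((1 : ℝ) / m) := by ring
    rw [this]
    exact hm.le
  have h3 : ‖Ψ G ζ‖ ^ 2 ≤ 0 := by
    refine ge_of_tendsto hlim ?_
    filter_upwards [hev, eventually_ge_atTop 1] with m hm1 hm2
    exact main m hm2 hm1
  have h4 : ‖Ψ G ζ‖ = 0 := by
    have := sq_nonneg ‖Ψ G ζ‖
    exact pow_eq_zero_iff (two_ne_zero) |>.1 (le_antisymm h3 this)
  exact norm_eq_zero.1 h4

end Pool.Agent.Helper78.BC

end

section

open scoped InnerProductSpace Topology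

open ContinuousLinearMap Filter

namespace Pool.Agent.Helper88.CS

open Pool.Agent.Helper23

universe u

variable {H : Type u} [NormedAddCommGroup H] [InnerProductSpace ℂ H] [CompleteSpace H]

/-- the direct sum of `m` copies of `H` -/
abbrev HS (H : Type u) [NormedAddCommGroup H] (m : ℕ) : Type u := PiLp 2 (fun _ : Fin m => H)

/-- the operator `x ⊕ ... ⊕ x` -/
noncomputable def diag (m : ℕ) (x : H →L[ℂ] H) : HS H m →L[ℂ] HS H m :=
  (PiLp.continuousLinearEquiv 2 ℂ (fun _ : Fin m => H)).symm.toContinuousLinearMap ∘L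
    (ContinuousLinearMap.pi fun i => x ∘L ContinuousLinearMap.proj i) ∘L
      (PiLp.continuousLinearEquiv 2 ℂ (fun _ : Fin m => H)).toContinuousLinearMap

theorem diag_apply (m : ℕ) (x : H →L[ℂ] H) (F : HS H m) (i : Fin m) : diag m x F i = x (F i) := by
  rfl

theorem inner_diag (m : ℕ) (x : H →L[ℂ] H) (F G : HS H m) :
    ⟪F, diag m x G⟫_ℂ = ∑ i, ⟪F i, x (G i)⟫_ℂ := by
  rw [PiLp.inner_apply]
  rfl

theorem diag_mul (m : ℕ) (x y : H →L[ℂ] H) : diag m (x * y) = diag m x * diag m y := by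
  ext F i
  rfl

theorem diag_add (m : ℕ) (x y : H →L[ℂ] H) : diag m (x + y) = diag m x + diag m y := by
  ext F i
  rfl

theorem diag_smul (m : ℕ) (c : ℂ) (x : H →L[ℂ] H) : diag m (c • x) = c • diag m x := by
  ext F i
  rfl

theorem diag_star (m : ℕ) (x : H →L[ℂ] H) : diag m (star x) = star (diag m x) := by
  refine ContinuousLinearMap.ext fun F => ext_inner_left ℂ fun G => ?_
  rw [ContinuousLinearMap.star_eq_adjoint (diag m x), ContinuousLinearMap.adjoint_inner_right,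
    PiLp.inner_apply, PiLp.inner_apply]
  refine Finset.sum_congr rfl fun i _ => ?_
  rw [diag_apply, diag_apply, ContinuousLinearMap.star_eq_adjoint,
    ContinuousLinearMap.adjoint_inner_right]

theorem diag_one (m : ℕ) : diag m (1 : H →L[ℂ] H) = 1 := by
  ext F i
  rfl

theorem diag_norm_le (m : ℕ) (x : H →L[ℂ] H) : ‖diag m x‖ ≤ ‖x‖ := by
  refine ContinuousLinearMap.opNorm_le_bound _ (norm_nonneg _) fun F => ?_
  rw [PiLp.norm_eq_of_L2, PiLp.norm_eq_of_L2]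
  rw [← Real.sqrt_sq (norm_nonneg x), ← Real.sqrt_mul (sq_nonneg _)]
  refine Real.sqrt_le_sqrt ?_
  rw [Finset.mul_sum]
  refine Finset.sum_le_sum fun i _ => ?_
  rw [diag_apply, ← mul_pow]
  exact pow_le_pow_left₀ (norm_nonneg _) (x.le_opNorm _) 2

/-- the amplification of `N` -/
noncomputable def amp (m : ℕ) (N : VonNeumannAlgebra H) : VonNeumannAlgebra (HS H m) where
  toStarSubalgebra := StarSubalgebra.centralizer ℂ {T | ∀ x ∈ N, T * diag m x = diag m x * T}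
  centralizer_centralizer' := Set.centralizer_centralizer_centralizer _

namespace AmpAAux

/-- inclusion of the summand `i` -/
noncomputable def inj (m : ℕ) (i : Fin m) : H →L[ℂ] HS H m :=
  (PiLp.continuousLinearEquiv 2 ℂ (fun _ : Fin m => H)).symm.toContinuousLinearMap ∘L
    (ContinuousLinearMap.single ℂ (fun _ : Fin m => H) i)

/-- projection to the summand `i` -/
noncomputable def prj (m : ℕ) (i : Fin m) : HS H m →L[ℂ] H :=
  (ContinuousLinearMap.proj i) ∘L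
      (PiLp.continuousLinearEquiv 2 ℂ (fun _ : Fin m => H)).toContinuousLinearMap

theorem inj_apply (m : ℕ) (i j : Fin m) (v : H) :
    inj m i v j = if j = i then v else 0 := by
  show (Pi.single i v : Fin m → H) j = _
  rw [Pi.single_apply]

theorem prj_apply (m : ℕ) (i : Fin m) (F : HS H m) : prj m i F = F i := rfl

theorem sum_app (m : ℕ) (f : Fin m → HS H m) (j : Fin m) : (∑ i, f i) j = ∑ i, f i j := by
  rw [WithLp.ofLp_sum, Finset.sum_apply]

theorem sum_inj (m : ℕ) (F : HS H m) : F = ∑ i, inj m i (F i) := by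
  ext j
  rw [sum_app]
  simp [inj_apply]

end AmpAAux

open AmpAAux in
theorem mem_amp {m : ℕ} (hm : 0 < m) (N : VonNeumannAlgebra H) {T : HS H m →L[ℂ] HS H m} :
    T ∈ amp m N ↔ ∃ x ∈ N, diag m x = T := by
  have hmem : T ∈ amp m N ↔ ∀ g : HS H m →L[ℂ] HS H m,
      (∀ x ∈ N, g * diag m x = diag m x * g) → g * T = T * g ∧ star g * T = T * star g := by
    change T ∈ StarSubalgebra.centralizer ℂ _ ↔ _
    rw [StarSubalgebra.mem_centralizer_iff]
    rfl
  rw [hmem]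
  constructor
  · intro h
    let i0 : Fin m := ⟨0, hm⟩
    let t : H →L[ℂ] H := prj m i0 ∘L T ∘L inj m i0
    have hE : ∀ i j : Fin m, (inj m i ∘L prj m j) * T = T * (inj m i ∘L prj m j) := by
      intro i j
      refine (h _ fun x _ => ?_).1
      refine ContinuousLinearMap.ext fun F => ?_
      ext k
      show (inj m i (x (F j))) k = x ((inj m i (F j)) k)
      rw [inj_apply, inj_apply]
      split_ifs
      · rfl
      · rw [map_zero]
    have hT : diag m t = T := by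
      refine ContinuousLinearMap.ext fun F => ?_
      ext k
      have h1 : ∀ j : Fin m, T (inj m j (F j)) = inj m j (t (F j)) := by
        intro j
        have h2 := congrArg (fun S : HS H m →L[ℂ] HS H m => S (inj m i0 (F j))) (hE j i0)
        have h3 : (inj m j) (prj m i0 (T (inj m i0 (F j)))) =
            T (inj m j (prj m i0 (inj m i0 (F j)))) := h2
        have h4 : prj m i0 (inj m i0 (F j)) = F j := by
          rw [prj_apply, inj_apply, if_pos rfl]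
        rw [h4] at h3
        rw [← h3]
        rfl
      rw [diag_apply]
      conv_rhs => rw [sum_inj m F, map_sum, sum_app]
      simp only [h1, inj_apply]
      simp
    refine ⟨t, ?_, hT⟩
    rw [← N.commutant_commutant, VonNeumannAlgebra.mem_commutant_iff]
    intro y hy
    rw [VonNeumannAlgebra.mem_commutant_iff] at hy
    have h5 := (h (diag m y) fun x hx => by rw [← diag_mul, ← diag_mul, hy x hx]).1
    refine ContinuousLinearMap.ext fun v => ?_
    have h6 := congrArg (fun S : HS H m →L[ℂ] HS H m => S (inj m i0 v) i0) h5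
    have h7 : y (T (inj m i0 v) i0) = T (diag m y (inj m i0 v)) i0 := h6
    have h8 : diag m y (inj m i0 v) = inj m i0 (y v) := by
      ext k
      rw [diag_apply, inj_apply, inj_apply]
      split_ifs
      · rfl
      · rw [map_zero]
    rw [h8] at h7
    exact h7
  · rintro ⟨x, hx, rfl⟩ g hg
    refine ⟨hg x hx, ?_⟩
    have h1 := congrArg star (hg (star x) (star_mem hx))
    rw [star_mul, star_mul, ← diag_star, star_star] at h1
    exact h1.symm

end Pool.Agent.Helper88.CS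

end

section

open scoped InnerProductSpace Topology

open ContinuousLinearMap Filter

namespace Pool.Agent.Helper88.CS

open Pool.Agent.Helper23

universe u

variable {H : Type u} [NormedAddCommGroup H] [InnerProductSpace ℂ H] [CompleteSpace H]

namespace RealAux

open Pool.Agent.Helper78.BC Pool.Agent.Helper78.BC.Transport

lemma norm_le_diag {m : ℕ} (hm : 0 < m) (x : H →L[ℂ] H) : ‖x‖ ≤ ‖diag m x‖ := by
  refine opNorm_le_bound _ (norm_nonneg _) fun h => ?_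
  set i0 : Fin m := ⟨0, hm⟩
  set G : HS H m := PiLp.single 2 i0 h with hG
  have h1 : ‖G‖ = ‖h‖ := by
    rw [hG]
    exact PiLp.norm_single 2 (fun _ : Fin m => H) i0 h
  have h2 : ‖x h‖ ≤ ‖diag m x G‖ := by
    have h3 := PiLp.norm_apply_le (diag m x G) i0
    rw [diag_apply] at h3
    have h4 : G i0 = h := by
      rw [hG]
      simp
    rwa [h4] at h3
  calc ‖x h‖ ≤ ‖diag m x G‖ := h2
    _ ≤ ‖diag m x‖ * ‖G‖ := (diag m x).le_opNorm G
    _ = ‖diag m x‖ * ‖h‖ := by rw [h1]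

lemma diag_zero (m : ℕ) : diag m (0 : H →L[ℂ] H) = 0 := by
  have h := diag_smul m (0 : ℂ) (0 : H →L[ℂ] H)
  rw [zero_smul ℂ (0 : H →L[ℂ] H)] at h
  exact h.trans (ContinuousLinearMap.ext fun G => by
    rw [smul_apply, zero_smul, zero_apply])

lemma diag_inj {m : ℕ} (hm : 0 < m) {x y : H →L[ℂ] H} (h : diag m x = diag m y) : x = y := by
  have h1 : diag m (x - y) = 0 := by
    rw [sub_eq_add_neg, diag_add, ← neg_one_smul ℂ y, diag_smul, h]
    exact (congrArg (diag m y + ·) (neg_one_smul ℂ (diag m y))).trans (add_neg_cancel _)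
  have h2 := norm_le_diag hm (x - y)
  rw [h1, norm_zero] at h2
  exact sub_eq_zero.1 (norm_le_zero_iff.1 h2)

/-- the sequence of the components of a vector -/
noncomputable def comp {m : ℕ} (G : HS H m) (n : ℕ) : H := if h : n < m then G ⟨n, h⟩ else 0

omit [InnerProductSpace ℂ H] [CompleteSpace H] in
lemma comp_fin {m : ℕ} (G : HS H m) (i : Fin m) : comp G i = G i := by
  unfold comp
  rw [dif_pos i.2]

omit [InnerProductSpace ℂ H] [CompleteSpace H] in
lemma comp_ge {m : ℕ} (G : HS H m) {n : ℕ} (h : m ≤ n) : comp G n = 0 := by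
  unfold comp
  rw [dif_neg (not_lt.2 h)]

lemma tsum_comp {E : Type*} [AddCommMonoid E] [TopologicalSpace E] {m : ℕ}
    (f : ℕ → E) (hf : ∀ n, m ≤ n → f n = 0) : ∑' n, f n = ∑ i : Fin m, f i := by
  rw [tsum_eq_sum (s := Finset.range m) (fun n hn => hf n (by simpa using hn))]
  exact Finset.sum_range f

lemma st_comp {m : ℕ} (G : HS H m) (x : H →L[ℂ] H) : st (comp G) x = ⟪G, diag m x G⟫_ℂ := by
  unfold st
  rw [tsum_comp (m := m) _ (fun n hn => by rw [comp_ge G hn, inner_zero_left]), inner_diag]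
  exact Finset.sum_congr rfl fun i _ => by rw [comp_fin]

omit [InnerProductSpace ℂ H] [CompleteSpace H] in
lemma sum_comp {m : ℕ} (G : HS H m) : ∑' n, ‖comp G n‖ ^ 2 = ‖G‖ ^ 2 := by
  rw [tsum_comp (m := m) _ (fun n hn => by rw [comp_ge G hn, norm_zero]; norm_num),
    PiLp.norm_sq_eq_of_L2]
  exact Finset.sum_congr rfl fun i _ => by rw [comp_fin]

omit [InnerProductSpace ℂ H] [CompleteSpace H] in
lemma summable_comp {m : ℕ} (G : HS H m) : Summable (fun n => ‖comp G n‖ ^ 2) := by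
  refine summable_of_ne_finset_zero (s := Finset.range m) fun n hn => ?_
  rw [comp_ge G (by simpa using hn), norm_zero]
  norm_num

end RealAux

end Pool.Agent.Helper88.CS

end

section

open scoped InnerProductSpace Topology

open ContinuousLinearMap Filter

namespace Pool.Agent.Helper88.CS

open Pool.Agent.Helper23

universe u

variable {H : Type u} [NormedAddCommGroup H] [InnerProductSpace ℂ H] [CompleteSpace H]

namespace FinalAux

theorem sq_of_inner {L : Type*} [NormedAddCommGroup L] [InnerProductSpace ℂ L]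
    {v : L} {r : ℝ} (h : ⟪v, v⟫_ℂ = (r : ℂ)) : ‖v‖ ^ 2 = r := by
  have h1 : RCLike.re ⟪v, v⟫_ℂ = ‖v‖ ^ 2 := inner_self_eq_norm_sq v
  rw [h] at h1
  rw [← h1]
  exact Complex.ofReal_re r

/-- the functional `s² (⟪η, · η⟫ + ⟪η', · η'⟫) + t² ⟪ξ, · ξ⟫` -/
noncomputable def fn (s t : ℝ) (η η' ξ : H) (z : H →L[ℂ] H) : ℂ :=
  ((s ^ 2 : ℝ) : ℂ) * (⟪η, z η⟫_ℂ + ⟪η', z η'⟫_ℂ) + ((t ^ 2 : ℝ) : ℂ) * ⟪ξ, z ξ⟫_ℂ

theorem fn_zero (s t : ℝ) (η η' ξ : H) : fn s t η η' ξ 0 = 0 := by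
  simp [fn]

theorem fn_one {s t : ℝ} {η η' ξ : H} (hξ : ‖ξ‖ = 1) (h1 : ‖η‖ ^ 2 + ‖η'‖ ^ 2 = 1) :
    fn s t η η' ξ 1 = ((s ^ 2 + t ^ 2 : ℝ) : ℂ) := by
  unfold fn
  simp only [ContinuousLinearMap.one_apply]
  rw [inner_self_eq_norm_sq_to_K, inner_self_eq_norm_sq_to_K, inner_self_eq_norm_sq_to_K, hξ]
  have h2 : (((‖η‖ ^ 2 + ‖η'‖ ^ 2 : ℝ)) : ℂ) = 1 := by rw [h1]; simp
  push_cast at h2 ⊢
  simp only [Complex.coe_algebraMap] at *
  rw [h2]
  simp

theorem inner_smul_self (c : ℝ) (v : H) (x a : H →L[ℂ] H) :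
    ⟪(c : ℂ) • a v, x ((c : ℂ) • a v)⟫_ℂ = ((c ^ 2 : ℝ) : ℂ) * ⟪v, (star a * x * a) v⟫_ℂ := by
  rw [map_smul, inner_smul_left, inner_smul_right, Complex.conj_ofReal]
  have h : ⟪v, (star a * x * a) v⟫_ℂ = ⟪a v, x (a v)⟫_ℂ := by
    show ⟪v, (star a) (x (a v))⟫_ℂ = _
    rw [star_eq_adjoint, adjoint_inner_right]
  rw [h]
  push_cast
  ring

/-- the vector of `H⁶` -/
noncomputable def vec (s t : ℝ) (a b : H →L[ℂ] H) (η η' ζ ζ' ξ : H) : HS H 6 :=
  WithLp.toLp 2 ![(s : ℂ) • a η, (s : ℂ) • a η', (t : ℂ) • a ξ, (s : ℂ) • b ζ, (s : ℂ) • b ζ',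
    (t : ℂ) • b ξ]

theorem vec_sum (s t : ℝ) (a b : H →L[ℂ] H) (η η' ζ ζ' ξ : H) (x : H →L[ℂ] H) :
    ∑ i, ⟪vec s t a b η η' ζ ζ' ξ i, x (vec s t a b η η' ζ ζ' ξ i)⟫_ℂ =
      fn s t η η' ξ (star a * x * a) + fn s t ζ ζ' ξ (star b * x * b) := by
  have h : ∀ i, vec s t a b η η' ζ ζ' ξ i = (![(s : ℂ) • a η, (s : ℂ) • a η', (t : ℂ) • a ξ,
    (s : ℂ) • b ζ, (s : ℂ) • b ζ', (t : ℂ) • b ξ] : Fin 6 → H) i := fun i => rfl
  simp only [h]
  rw [Fin.sum_univ_six]
  simp only [Matrix.cons_val]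
  rw [inner_smul_self, inner_smul_self, inner_smul_self, inner_smul_self, inner_smul_self,
    inner_smul_self]
  unfold fn
  ring

theorem vec_norm {s t : ℝ} (hst : s ^ 2 + t ^ 2 = 1 / 2) {a b : H →L[ℂ] H}
    (ha : star a * a = 1) (hb : star b * b = 1) {η η' ζ ζ' ξ : H} (hξ : ‖ξ‖ = 1)
    (h1 : ‖η‖ ^ 2 + ‖η'‖ ^ 2 = 1) (h2 : ‖ζ‖ ^ 2 + ‖ζ'‖ ^ 2 = 1) :
    ‖vec s t a b η η' ζ ζ' ξ‖ = 1 := by
  have h := vec_sum s t a b η η' ζ ζ' ξ 1
  rw [mul_one, mul_one, ha, hb, fn_one hξ h1, fn_one hξ h2, hst] at h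
  simp only [ContinuousLinearMap.one_apply] at h
  have h3 : ⟪vec s t a b η η' ζ ζ' ξ, vec s t a b η η' ζ ζ' ξ⟫_ℂ = 1 := by
    rw [PiLp.inner_apply, h]
    push_cast
    norm_num
  have h4 : ‖vec s t a b η η' ζ ζ' ξ‖ ^ 2 = 1 := sq_of_inner (by rw [h3, Complex.ofReal_one])
  exact (pow_eq_one_iff_of_nonneg (norm_nonneg _) two_ne_zero).1 h4

theorem vec_sep (N : VonNeumannAlgebra H) {s t : ℝ} (ht : t ≠ 0) {a b : H →L[ℂ] H}
    (ha : a ∈ N) (hb : b ∈ N) (hab : a * star a + b * star b = 1) {η η' ζ ζ' ξ : H}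
    (hsep : ∀ x ∈ N, x ξ = 0 → x = 0) (x : H →L[ℂ] H) (hx : x ∈ N)
    (h : ∀ i, x (vec s t a b η η' ζ ζ' ξ i) = 0) : x = 0 := by
  have ht' : (t : ℂ) ≠ 0 := by exact_mod_cast ht
  have h2 : x ((t : ℂ) • a ξ) = 0 := h 2
  have h5 : x ((t : ℂ) • b ξ) = 0 := h 5
  rw [map_smul, smul_eq_zero] at h2 h5
  have h3 : x * a = 0 := hsep _ (mul_mem hx ha) (h2.resolve_left ht')
  have h6 : x * b = 0 := hsep _ (mul_mem hx hb) (h5.resolve_left ht')
  calc x = x * (a * star a + b * star b) := by rw [hab, mul_one]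
    _ = x * a * star a + x * b * star b := by rw [mul_add, mul_assoc, mul_assoc]
    _ = 0 := by rw [h3, h6, zero_mul, zero_mul, add_zero]

end FinalAux

end Pool.Agent.Helper88.CS

end
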