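import Pool.Agent.Helper23.FA.Ns

/-!
Parts of Helper78.BC.Fip, Helper95.UKap, Helper5.PU.SeqSurj, Helper88.CS.Cone, Helper23.ED.Defs, Helper23.ED.GrB, Helper23.ED.GrD, Helper23.ED.GrA, Helper23.ED.GrC
-/

section

namespace Pool.Agent.Helper78.BC

theorem fip {H : Type*} [NormedAddCommGroup H] [InnerProductSpace ℝ H] [CompleteSpace H]
    {ι : Type*} (F : ι → Set H) (hc : ∀ i, Convex ℝ (F i)) (hcl : ∀ i, IsClosed (F i))
    (hb : ∀ i, Bornology.IsBounded (F i))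
    (h : ∀ s : Finset ι, (⋂ i ∈ s, F i).Nonempty) : (⋂ i, F i).Nonempty := by
  classical
  rcases isEmpty_or_nonempty ι with hι | ⟨⟨i0⟩⟩
  · rw [Set.iInter_of_empty]
    exact ⟨0, trivial⟩
  have hconv : ∀ s : Finset ι, Convex ℝ (⋂ i ∈ s, F i) := fun s =>
    convex_iInter₂ fun i _ => hc i
  have hclos : ∀ s : Finset ι, IsClosed (⋂ i ∈ s, F i) := fun s =>
    isClosed_biInter fun i _ => hcl i
  have hex : ∀ s : Finset ι, ∃ v ∈ (⋂ i ∈ s, F i), ∀ w ∈ (⋂ i ∈ s, F i), ‖v‖ ≤ ‖w‖ := by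
    intro s
    obtain ⟨v, hv, hmin⟩ := exists_norm_eq_iInf_of_complete_convex (h s) (hclos s).isComplete
      (hconv s) (0 : H)
    refine ⟨v, hv, fun w hw => ?_⟩
    have h1 : (⨅ w : ((⋂ i ∈ s, F i : Set H)), ‖(0 : H) - w‖) ≤ ‖(0 : H) - w‖ :=
      ciInf_le ⟨0, by rintro _ ⟨y, rfl⟩; exact norm_nonneg _⟩ (⟨w, hw⟩ : ((⋂ i ∈ s, F i : Set H)))
    rw [← hmin, zero_sub, zero_sub, norm_neg, norm_neg] at h1
    exact h1
  choose m hm hmin using hex
  have hsub : ∀ s t : Finset ι, s ⊆ t → m t ∈ (⋂ i ∈ s, F i) := by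
    intro s t hst
    have := hm t
    rw [Set.mem_iInter₂] at this ⊢
    exact fun i hi => this i (hst hi)
  have hmono : Monotone fun s : Finset ι => ‖m s‖ ^ 2 := by
    intro s t hst
    have h1 := hmin s (m t) (hsub s t hst)
    show ‖m s‖ ^ 2 ≤ ‖m t‖ ^ 2
    gcongr
  have hpar : ∀ s t : Finset ι, s ⊆ t → ‖m t - m s‖ ^ 2 ≤ 2 * (‖m t‖ ^ 2 - ‖m s‖ ^ 2) := by
    intro s t hst
    have hmid : (1 / 2 : ℝ) • m s + (1 / 2 : ℝ) • m t ∈ (⋂ i ∈ s, F i) :=
      hconv s (hm s) (hsub s t hst) (by norm_num) (by norm_num) (by norm_num)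
    have h1 := hmin s _ hmid
    rw [← smul_add, norm_smul] at h1
    have h2 : ‖(1 / 2 : ℝ)‖ = 1 / 2 := by norm_num
    rw [h2] at h1
    have h3 := parallelogram_law_with_norm ℝ (m t) (m s)
    have h4 : 2 * ‖m s‖ ≤ ‖m t + m s‖ := by rw [add_comm (m t)]; linarith
    have h5 := norm_nonneg (m s)
    nlinarith [norm_nonneg (m t - m s), norm_nonneg (m t + m s)]
  obtain ⟨R, hR⟩ := (hb i0).exists_norm_le
  have hbdd : BddAbove (Set.range fun s : Finset ι => ‖m s‖ ^ 2) := by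
    refine ⟨R ^ 2, ?_⟩
    rintro _ ⟨s, rfl⟩
    have h1 : m (insert i0 s) ∈ F i0 := by
      have := hm (insert i0 s)
      rw [Set.mem_iInter₂] at this
      exact this i0 (Finset.mem_insert_self _ _)
    have h2 := hR _ h1
    have h3 : ‖m s‖ ^ 2 ≤ ‖m (insert i0 s)‖ ^ 2 := hmono (Finset.subset_insert _ _)
    have h4 : ‖m (insert i0 s)‖ ^ 2 ≤ R ^ 2 := by gcongr
    exact h3.trans h4
  have hcau : CauchySeq m := by
    rw [Metric.cauchySeq_iff']
    intro ε hε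
    obtain ⟨s, hs⟩ := exists_lt_of_lt_ciSup
      (show (⨆ s : Finset ι, ‖m s‖ ^ 2) - ε ^ 2 / 4 < ⨆ s : Finset ι, ‖m s‖ ^ 2 by
        have := pow_pos hε 2
        linarith)
    refine ⟨s, fun t ht => ?_⟩
    rw [dist_eq_norm]
    have h1 := hpar s t ht
    have h2 : ‖m t‖ ^ 2 ≤ ⨆ s : Finset ι, ‖m s‖ ^ 2 := le_ciSup hbdd t
    have h3 : ‖m t - m s‖ ^ 2 < ε ^ 2 := by
      have := pow_pos hε 2
      linarith
    exact lt_of_pow_lt_pow_left₀ 2 hε.le h3
  obtain ⟨v, hv⟩ := cauchySeq_tendsto_of_complete hcau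
  refine ⟨v, Set.mem_iInter.2 fun i => ?_⟩
  refine (hcl i).mem_of_tendsto hv ?_
  filter_upwards [Filter.eventually_ge_atTop ({i} : Finset ι)] with s hs
  have := hm s
  rw [Set.mem_iInter₂] at this
  exact this i (hs (Finset.mem_singleton_self i))

end Pool.Agent.Helper78.BC

end

section

open scoped InnerProductSpace Topology BoundedContinuousFunction

open ContinuousLinearMap Filter

namespace Pool.Agent.Helper23

universe u

variable {K : Type u} [NormedAddCommGroup K] [InnerProductSpace ℂ K] [CompleteSpace K]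

/-- `f(B) = 2 B (1 + B²)⁻¹` -/
noncomputable def kap2 {G : Type*} [NormedAddCommGroup G] [InnerProductSpace ℂ G]
    [CompleteSpace G] (B : G →L[ℂ] G) : G →L[ℂ] G :=
  (2 : ℂ) • (B * Ring.inverse (1 + B * B))

section basic

variable {G : Type*} [NormedAddCommGroup G] [InnerProductSpace ℂ G] [CompleteSpace G]

lemma kap_isUnit {B : G →L[ℂ] G} (hB : star B = B) : IsUnit (1 + B * B) := by
  have h1 : (-1 : ℝ) ∉ spectrum ℝ (star B * B) := fun h => by
    have := spectrum_star_mul_self_nonneg (b := B) _ h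
    norm_num at this
  rw [spectrum.notMem_iff, hB] at h1
  have h2 := h1.neg
  have h3 : -((algebraMap ℝ (G →L[ℂ] G)) (-1) - B * B) = 1 + B * B := by
    rw [map_neg, map_one]; abel
  rwa [h3] at h2

/-- `w = (1 + B²)⁻¹ x` -/
lemma kap_inv_apply {B : G →L[ℂ] G} (hB : star B = B) (x : G) :
    Ring.inverse (1 + B * B) x + B (B (Ring.inverse (1 + B * B) x)) = x := by
  have h := Ring.mul_inverse_cancel _ (kap_isUnit hB)
  have h2 := congrArg (fun T : G →L[ℂ] G => T x) h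
  exact h2

lemma kap_sa {B : G →L[ℂ] G} (hB : star B = B) (x y : G) : ⟪B x, y⟫_ℂ = ⟪x, B y⟫_ℂ := by
  rw [← ContinuousLinearMap.adjoint_inner_left, ← ContinuousLinearMap.star_eq_adjoint, hB]

lemma kap_key {B : G →L[ℂ] G} (hB : star B = B) (w : G) :
    ‖w + B (B w)‖ ^ 2 = ‖w‖ ^ 2 + 2 * ‖B w‖ ^ 2 + ‖B (B w)‖ ^ 2 ∧
    ‖w + B (B w)‖ ^ 2 = ‖w - B (B w)‖ ^ 2 + 4 * ‖B w‖ ^ 2 := by
  have h1 : RCLike.re ⟪w, B (B w)⟫_ℂ = ‖B w‖ ^ 2 := by
    rw [← kap_sa hB, inner_self_eq_norm_sq]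
  have h2 := @norm_add_sq ℂ G _ _ _ w (B (B w))
  have h3 := @norm_sub_sq ℂ G _ _ _ w (B (B w))
  rw [h1] at h2 h3
  constructor
  · rw [h2]
  · rw [h2, h3]; ring

lemma kap_inv_norm {B : G →L[ℂ] G} (hB : star B = B) (x : G) :
    ‖Ring.inverse (1 + B * B) x‖ ≤ ‖x‖ := by
  have h := kap_inv_apply hB x
  have h2 := (kap_key hB (Ring.inverse (1 + B * B) x)).1
  rw [h] at h2
  refine le_of_sq_le_sq ?_ (norm_nonneg _)
  nlinarith [sq_nonneg ‖B (Ring.inverse (1 + B * B) x)‖,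
    sq_nonneg ‖B (B (Ring.inverse (1 + B * B) x))‖]

lemma kap2_apply (B : G →L[ℂ] G) (x : G) :
    kap2 B x = (2 : ℂ) • B (Ring.inverse (1 + B * B) x) := rfl

lemma kap2_apply_norm {B : G →L[ℂ] G} (hB : star B = B) (x : G) : ‖kap2 B x‖ ≤ ‖x‖ := by
  have h := kap_inv_apply hB x
  have h2 := (kap_key hB (Ring.inverse (1 + B * B) x)).2
  rw [h] at h2
  rw [kap2_apply, norm_smul]
  refine le_of_sq_le_sq ?_ (norm_nonneg _)
  rw [h2, mul_pow]
  have h3 : ‖(2 : ℂ)‖ ^ 2 = 4 := by norm_num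
  rw [h3]
  nlinarith [sq_nonneg ‖Ring.inverse (1 + B * B) x - B (B (Ring.inverse (1 + B * B) x))‖]

end basic

theorem kap2_norm {B : K →L[ℂ] K} (hB : star B = B) : ‖kap2 B‖ ≤ 1 :=
  ContinuousLinearMap.opNorm_le_bound _ zero_le_one fun x => by
    rw [one_mul]; exact kap2_apply_norm hB x

section alg

variable {G : Type*} [NormedAddCommGroup G] [InnerProductSpace ℂ G] [CompleteSpace G]

/-- `B P - S Q = P (B - S) Q + P B (S - B) S Q` -/
lemma kap2_diff {B S : G →L[ℂ] G} (hB : star B = B) (hS : star S = S) (v : G) :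
    ‖kap2 B v - kap2 S v‖ ≤ 2 * ‖(B - S) (Ring.inverse (1 + S * S) v)‖ +
      ‖(B - S) (kap2 S v)‖ := by
  set P := Ring.inverse (1 + B * B) with hP
  set Q := Ring.inverse (1 + S * S) with hQ
  have h1 : P * (1 + B * B) = 1 := Ring.inverse_mul_cancel _ (kap_isUnit hB)
  have h2 : (1 + S * S) * Q = 1 := Ring.mul_inverse_cancel _ (kap_isUnit hS)
  have h1' : (1 + B * B) * P = 1 := Ring.mul_inverse_cancel _ (kap_isUnit hB)
  -- `P` commutes with `B`
  have hPB : P * B = B * P := by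
    have e : (1 + B * B) * B = B * (1 + B * B) := by noncomm_ring
    calc P * B = P * B * ((1 + B * B) * P) := by rw [h1', mul_one]
      _ = P * (B * (1 + B * B)) * P := by noncomm_ring
      _ = P * ((1 + B * B) * B) * P := by rw [e]
      _ = (P * (1 + B * B)) * B * P := by noncomm_ring
      _ = B * P := by rw [h1, one_mul]
  have key : B * P - S * Q = P * ((B - S) * Q) + (B * P) * ((S - B) * (S * Q)) := by
    have e1 : B * P = P * B * ((1 + S * S) * Q) := by rw [h2, mul_one, hPB]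
    have e2 : S * Q = (P * (1 + B * B)) * (S * Q) := by rw [h1, one_mul]
    calc B * P - S * Q = P * B * ((1 + S * S) * Q) - (P * (1 + B * B)) * (S * Q) := by
          rw [← e1, ← e2]
      _ = P * ((B - S) * Q) + (P * B) * ((S - B) * (S * Q)) := by noncomm_ring
      _ = _ := by rw [hPB]
  have hv : kap2 B v - kap2 S v = (2 : ℂ) • P ((B - S) (Q v)) -
      (2 : ℂ) • (B * P) ((B - S) ((S * Q) v)) := by
    have h3 := congrArg (fun T : G →L[ℂ] G => (2 : ℂ) • T v) key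
    have h4 : kap2 B v - kap2 S v = (2 : ℂ) • (B * P - S * Q) v := by
      rw [kap2_apply, kap2_apply]
      change _ = (2 : ℂ) • (B (P v) - S (Q v))
      rw [smul_sub]
    rw [h4]
    refine h3.trans ?_
    change (2 : ℂ) • (P ((B - S) (Q v)) + (B * P) ((S - B) ((S * Q) v))) = _
    have h5 : (S - B) ((S * Q) v) = -((B - S) ((S * Q) v)) := by
      change S _ - B _ = -(B _ - S _)
      abel
    rw [smul_add, h5, map_neg, smul_neg, ← sub_eq_add_neg]
  have hkS : kap2 S v = (2 : ℂ) • (S * Q) v := rfl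
  have hkB : ∀ x, (2 : ℂ) • (B * P) x = kap2 B x := fun x => rfl
  rw [hv, hkB]
  refine (norm_sub_le _ _).trans (add_le_add ?_ ?_)
  · rw [norm_smul]
    have : ‖(2 : ℂ)‖ = 2 := by norm_num
    rw [this]
    exact mul_le_mul_of_nonneg_left (kap_inv_norm hB _) (by norm_num)
  · refine (kap2_apply_norm hB _).trans ?_
    rw [hkS, map_smul, norm_smul]
    have : ‖(2 : ℂ)‖ = 2 := by norm_num
    rw [this]
    nlinarith [norm_nonneg ((B - S) ((S * Q) v))]

end alg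

lemma spec_abs_le {G : Type*} [NormedAddCommGroup G] [InnerProductSpace ℂ G] [CompleteSpace G]
    {B : G →L[ℂ] G} {C : ℝ} (hC : ‖B‖ ≤ C) {s : ℝ} (hs : s ∈ spectrum ℝ B) : |s| ≤ C := by
  have hG : Nontrivial G := by
    by_contra h
    rw [not_nontrivial_iff_subsingleton] at h
    have : Subsingleton (G →L[ℂ] G) := inferInstance
    rw [spectrum.of_subsingleton] at hs
    exact hs
  have h1 := spectrum.subset_closedBall_norm B hs
  rw [Metric.mem_closedBall, dist_zero_right, Real.norm_eq_abs] at h1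
  exact h1.trans hC

/-- `f(B)` is a norm limit of polynomials in `B`, uniformly for `‖B‖ ≤ C` -/
theorem kap2_poly (C : ℝ) {ε : ℝ} (hε : 0 < ε) : ∃ p : Polynomial ℂ,
    ∀ (G : Type u) [NormedAddCommGroup G] [InnerProductSpace ℂ G] [CompleteSpace G]
      (B : G →L[ℂ] G), star B = B → ‖B‖ ≤ C → ‖kap2 B - Polynomial.aeval B p‖ ≤ ε := by
  have hf : Continuous fun t : ℝ => 2 * t / (1 + t ^ 2) :=
    (by fun_prop : Continuous fun t : ℝ => 2 * t).div (by fun_prop) fun t => by positivity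
  obtain ⟨q, hq⟩ := exists_polynomial_near_of_continuousOn (-C) C _ hf.continuousOn ε hε
  refine ⟨q.map (algebraMap ℝ ℂ), ?_⟩
  intro G _ _ _ B hB hBC
  have hBsa : IsSelfAdjoint B := hB
  have e1 : kap2 B = cfc (fun t : ℝ => 2 * t / (1 + t ^ 2)) B := by
    have h1 : cfc (fun t : ℝ => 2 * t / (1 + t ^ 2)) B * (1 + B * B) = (2 : ℂ) • B := by
      have e2 : (1 + B * B) = cfc (fun t : ℝ => 1 + t ^ 2) B := by
        rw [cfc_add B (fun _ => (1 : ℝ)) (fun t => t ^ 2) (by fun_prop) (by fun_prop),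
          cfc_const_one ℝ B, cfc_pow_id B 2, pow_two]
      have e3 : (2 : ℂ) • B = cfc (fun t : ℝ => 2 * t) B := by
        rw [cfc_const_mul (2 : ℝ) (fun t => t) B (by fun_prop), cfc_id' ℝ B]
        exact (two_smul ℂ B).trans (two_smul ℝ B).symm
      rw [e2, e3, ← cfc_mul _ _ B hf.continuousOn (by fun_prop)]
      refine cfc_congr fun t _ => ?_
      have : (1 + t ^ 2 : ℝ) ≠ 0 := by positivity
      field_simp
    have h2 := Ring.mul_inverse_cancel _ (kap_isUnit hB)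
    calc kap2 B = ((2 : ℂ) • B) * Ring.inverse (1 + B * B) := by
          rw [kap2, smul_mul_assoc]
      _ = _ := by rw [← h1, mul_assoc, h2, mul_one]
  have e4 : Polynomial.aeval B (q.map (algebraMap ℝ ℂ)) = cfc q.eval B := by
    rw [Polynomial.aeval_map_algebraMap, cfc_polynomial q B]
  rw [e1, e4, ← cfc_sub _ _ B hf.continuousOn q.continuous.continuousOn]
  refine norm_cfc_le hε.le fun t ht => ?_
  have h5 := spec_abs_le hBC ht
  rw [Real.norm_eq_abs, abs_sub_comm]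
  exact (hq t (abs_le.1 h5)).le

end Pool.Agent.Helper23

end

section

open scoped InnerProductSpace Topology

open ContinuousLinearMap Filter

namespace Pool.Agent.Helper23

universe u

variable {H : Type u} [NormedAddCommGroup H] [InnerProductSpace ℂ H] [CompleteSpace H]

variable {K : Type u} [NormedAddCommGroup K] [InnerProductSpace ℂ K] [CompleteSpace K]

variable {A : VonNeumannAlgebra H} {P : Set (ℕ → H →L[ℂ] H)} {ξ : H} {ζ : K}
  {rep : (ℕ → H →L[ℂ] H) → (K →L[ℂ] K)}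

lemma kap2_star {G : Type*} [NormedAddCommGroup G] [InnerProductSpace ℂ G]
    [CompleteSpace G] {B : G →L[ℂ] G} (hs : star B = B) : star (kap2 B) = kap2 B := by
  have h2 : Commute B (1 + B * B) :=
    (Commute.one_right B).add_right ((Commute.refl B).mul_right (Commute.refl B))
  obtain ⟨u, hu⟩ := kap_isUnit hs
  have h3 : Commute B (Ring.inverse (1 + B * B)) := by
    rw [← hu, Ring.inverse_unit]
    rw [← hu] at h2
    exact h2.units_inv_right
  have h4 : star (Ring.inverse (1 + B * B)) = Ring.inverse (1 + B * B) := by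
    rw [← Ring.inverse_star, star_add, star_one, star_mul, hs]
  rw [kap2, star_smul, star_mul, h4, hs, ← h3.eq]
  congr 1
  exact Complex.conj_ofNat 2

end Pool.Agent.Helper23

end

section

open scoped InnerProductSpace Topology BoundedContinuousFunction

open ContinuousLinearMap Filter MeasureTheory

namespace Pool.Agent.Helper88.CS

open Pool.Agent.Helper23

variable {H : Type*} [NormedAddCommGroup H] [InnerProductSpace ℂ H] [CompleteSpace H]

variable {A : VonNeumannAlgebra H} {ξ : H} {J : H →L[ℝ] H}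
  {Ψ : (ℝ →ᵇ ℂ) →⋆ₐ[ℂ] (H →L[ℂ] H)} {R : H →L[ℂ] H} {D : H →L[ℝ] H}

/-- the vector `u* ξ u` -/
noncomputable def kap (J : H →L[ℝ] H) (ξ : H) (u : H →L[ℂ] H) : H := (star u) (J ((star u) ξ))

end Pool.Agent.Helper88.CS

end

section

open scoped InnerProductSpace Topology ENNReal BoundedContinuousFunction

open ContinuousLinearMap Filter MeasureTheory

namespace Pool.Agent.Helper23.ED

open Pool.Agent.Helper23 Pool.Agent.Helper23.RBF

universe u

section graph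

variable {K : Type*} [NormedAddCommGroup K] [InnerProductSpace ℂ K] [CompleteSpace K]

variable {L : Type*} [NormedAddCommGroup L] [InnerProductSpace ℂ L] [CompleteSpace L]

/-- `(T η, S η)` is the projection of `(η, 0)` on the closure of `Γ`. -/
structure GT (Γ : Set (K × L)) (T : K →L[ℂ] K) (S : K →L[ℂ] L) : Prop where
  mem : ∀ η, (T η, S η) ∈ closure Γ
  orth : ∀ p ∈ Γ, ∀ η, ⟪p.1, η⟫_ℂ = ⟪p.1, T η⟫_ℂ + ⟪p.2, S η⟫_ℂ

end graph

end Pool.Agent.Helper23.ED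

end

section

open scoped InnerProductSpace Topology ENNReal BoundedContinuousFunction

open ContinuousLinearMap Filter MeasureTheory

namespace Pool.Agent.Helper23.ED

open Pool.Agent.Helper23 Pool.Agent.Helper23.RBF

universe u

variable {K : Type*} [NormedAddCommGroup K] [InnerProductSpace ℂ K] [CompleteSpace K]

variable {L : Type*} [NormedAddCommGroup L] [InnerProductSpace ℂ L] [CompleteSpace L]

variable {Γ : Submodule ℂ (K × L)} {T : K →L[ℂ] K} {S : K →L[ℂ] L}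

theorem GT.orth' (h : GT (Γ : Set (K × L)) T S) {p : K × L} (hp : p ∈ closure (Γ : Set (K × L)))
    (η : K) : ⟪p.1, η⟫_ℂ = ⟪p.1, T η⟫_ℂ + ⟪p.2, S η⟫_ℂ := by
  have hc : IsClosed {q : K × L | ⟪q.1, η⟫_ℂ = ⟪q.1, T η⟫_ℂ + ⟪q.2, S η⟫_ℂ} := by
    apply isClosed_eq
    · exact (continuous_fst.inner continuous_const)
    · exact (continuous_fst.inner continuous_const).add (continuous_snd.inner continuous_const)
  exact closure_minimal (fun q hq => h.orth q hq η) hc hp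

theorem GT.eq_of (h : GT (Γ : Set (K × L)) T S) {η : K} {p₀ : K × L}
    (hp₀ : p₀ ∈ closure (Γ : Set (K × L)))
    (ho : ∀ p ∈ Γ, ⟪p.1, η⟫_ℂ = ⟪p.1, p₀.1⟫_ℂ + ⟪p.2, p₀.2⟫_ℂ) : T η = p₀.1 ∧ S η = p₀.2 := by
  have hd : (T η - p₀.1, S η - p₀.2) ∈ closure (Γ : Set (K × L)) := by
    have h1 : (T η, S η) ∈ Γ.topologicalClosure := h.mem η
    have h2 : p₀ ∈ Γ.topologicalClosure := hp₀
    have h3 := Γ.topologicalClosure.sub_mem h1 h2
    exact h3
  have hz : ∀ p : K × L, p ∈ closure (Γ : Set (K × L)) →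
      ⟪p.1, T η - p₀.1⟫_ℂ + ⟪p.2, S η - p₀.2⟫_ℂ = 0 := by
    intro p hp
    have hc : IsClosed {q : K × L | ⟪q.1, T η - p₀.1⟫_ℂ + ⟪q.2, S η - p₀.2⟫_ℂ = 0} := by
      apply isClosed_eq
      · exact (continuous_fst.inner continuous_const).add (continuous_snd.inner continuous_const)
      · exact continuous_const
    refine closure_minimal (fun q hq => ?_) hc hp
    have h1 := h.orth q hq η
    have h2 := ho q hq
    simp only [Set.mem_setOf_eq, inner_sub_right]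
    linear_combination (-1 : ℂ) * h1 + h2
  have h0 := hz _ hd
  simp only [inner_self_eq_norm_sq_to_K] at h0
  have h1 : ((‖T η - p₀.1‖ ^ 2 + ‖S η - p₀.2‖ ^ 2 : ℝ) : ℂ) = 0 := by
    push_cast
    exact h0
  have h2 : ‖T η - p₀.1‖ ^ 2 + ‖S η - p₀.2‖ ^ 2 = 0 := by exact_mod_cast h1
  have h3 : ‖T η - p₀.1‖ = 0 := by
    have := sq_nonneg ‖T η - p₀.1‖
    have := sq_nonneg ‖S η - p₀.2‖
    exact pow_eq_zero_iff (two_ne_zero) |>.1 (by linarith)
  have h4 : ‖S η - p₀.2‖ = 0 := by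
    have := sq_nonneg ‖T η - p₀.1‖
    have := sq_nonneg ‖S η - p₀.2‖
    exact pow_eq_zero_iff (two_ne_zero) |>.1 (by linarith)
  exact ⟨sub_eq_zero.1 (norm_eq_zero.1 h3), sub_eq_zero.1 (norm_eq_zero.1 h4)⟩

theorem GT.S_inner (h : GT (Γ : Set (K × L)) T S) (η η' : K) :
    ⟪S η', S η⟫_ℂ = ⟪T η', η - T η⟫_ℂ := by
  have h1 := h.orth' (h.mem η') η
  simp only at h1
  rw [inner_sub_right, h1]
  ring

theorem GT.T_star (h : GT (Γ : Set (K × L)) T S) : star T = T := by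
  have key : ∀ a b : K, ⟪T a, b⟫_ℂ = ⟪a, T b⟫_ℂ := by
    intro a b
    have h1 := h.orth' (h.mem a) b
    have h2 := h.orth' (h.mem b) a
    simp only at h1 h2
    rw [h1, ← inner_conj_symm a (T b), h2, map_add, inner_conj_symm, inner_conj_symm]
  rw [ContinuousLinearMap.star_eq_adjoint]
  refine ContinuousLinearMap.ext fun v => ?_
  refine ext_inner_left ℂ fun w => ?_
  rw [ContinuousLinearMap.adjoint_inner_right, key]

theorem GrB_norm (h : GT (Γ : Set (K × L)) T S) (v : K) :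
    (⟪v, T v⟫_ℂ).re = ‖T v‖ ^ 2 + ‖S v‖ ^ 2 := by
  have h1 := h.orth' (h.mem v) v
  simp only at h1
  rw [← inner_conj_symm v (T v), h1, Complex.conj_re, Complex.add_re]
  rw [inner_self_eq_norm_sq_to_K, inner_self_eq_norm_sq_to_K]
  norm_cast

theorem GT.T_nonneg (h : GT (Γ : Set (K × L)) T S) (v : K) : 0 ≤ (⟪v, T v⟫_ℂ).re := by
  rw [GrB_norm h v]
  positivity

theorem GT.T_le (h : GT (Γ : Set (K × L)) T S) (v : K) : (⟪v, T v⟫_ℂ).re ≤ ‖v‖ ^ 2 := by
  have h1 := GrB_norm h v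
  have h2 : (⟪v, T v⟫_ℂ).re ≤ ‖v‖ * ‖T v‖ :=
    (Complex.re_le_norm _).trans (norm_inner_le_norm _ _)
  have h3 := sq_nonneg ‖S v‖
  have h4 : ‖T v‖ ≤ ‖v‖ := by
    by_contra hcon
    push Not at hcon
    have h5 : 0 < ‖T v‖ := lt_of_le_of_lt (norm_nonneg _) hcon
    nlinarith
  have h5 : ‖v‖ * ‖T v‖ ≤ ‖v‖ * ‖v‖ := mul_le_mul_of_nonneg_left h4 (norm_nonneg _)
  calc (⟪v, T v⟫_ℂ).re ≤ ‖v‖ * ‖T v‖ := h2
    _ ≤ ‖v‖ * ‖v‖ := h5
    _ = ‖v‖ ^ 2 := by ring

theorem GT.T_inj (h : GT (Γ : Set (K × L)) T S)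
    (hd : ∀ η : K, (∀ p ∈ Γ, ⟪p.1, η⟫_ℂ = 0) → η = 0) (v : K) (hv : T v = 0) : v = 0 := by
  have h1 := GrB_norm h v
  rw [hv] at h1
  simp only [inner_zero_right, Complex.zero_re, norm_zero] at h1
  have h2 : S v = 0 := by
    have : ‖S v‖ ^ 2 = 0 := by nlinarith
    exact norm_eq_zero.1 (pow_eq_zero_iff (two_ne_zero) |>.1 this)
  refine hd v fun p hp => ?_
  have h3 := h.orth p hp v
  rw [h3, hv, h2, inner_zero_right, inner_zero_right, add_zero]

theorem GT.T_inj' (h : GT (Γ : Set (K × L)) T S)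
    (hz : ∀ v : K, ((v, 0) : K × L) ∈ closure (Γ : Set (K × L)) → v = 0) (v : K)
    (hv : T v = v) : v = 0 := by
  have h1 := GrB_norm h v
  rw [hv] at h1
  have h0 : (⟪v, v⟫_ℂ).re = ‖v‖ ^ 2 := by
    rw [inner_self_eq_norm_sq_to_K]
    norm_cast
  have h2 : S v = 0 := by
    have : ‖S v‖ ^ 2 = 0 := by linarith
    exact norm_eq_zero.1 (pow_eq_zero_iff (two_ne_zero) |>.1 this)
  apply hz
  have h3 := h.mem v
  rw [hv, h2] at h3
  exact h3

end Pool.Agent.Helper23.ED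

end

section

open scoped InnerProductSpace Topology ENNReal BoundedContinuousFunction

open ContinuousLinearMap Filter MeasureTheory

namespace Pool.Agent.Helper23.ED

open Pool.Agent.Helper23 Pool.Agent.Helper23.RBF

universe u

variable {K : Type*} [NormedAddCommGroup K] [InnerProductSpace ℂ K] [CompleteSpace K]

variable {L : Type*} [NormedAddCommGroup L] [InnerProductSpace ℂ L] [CompleteSpace L]

variable {Γ Γ₁ Γ₂ : Submodule ℂ (K × L)}

lemma GrD_closure {A B : Set (K × L)} (X : K →L[ℂ] K) (P : L →L[ℂ] L)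
    (h : ∀ p ∈ A, ((X p.1, P p.2) : K × L) ∈ closure B) {p : K × L} (hp : p ∈ closure A) :
    ((X p.1, P p.2) : K × L) ∈ closure B := by
  have hc : Continuous fun p : K × L => ((X p.1, P p.2) : K × L) := by fun_prop
  exact closure_minimal (t := (fun p : K × L => ((X p.1, P p.2) : K × L)) ⁻¹' closure B)
    (fun p hp => h p hp) (isClosed_closure.preimage hc) hp

lemma GrD_star_inner (A : K →L[ℂ] K) (x y : K) : ⟪(star A) x, y⟫_ℂ = ⟪x, A y⟫_ℂ := by
  rw [ContinuousLinearMap.star_eq_adjoint, ContinuousLinearMap.adjoint_inner_left]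

theorem GT.rel {T : K →L[ℂ] K} {S : K →L[ℂ] L} (h : GT (Γ : Set (K × L)) T S)
    (X X' : K →L[ℂ] K) (P : L →L[ℂ] L)
    (hX : ∀ p ∈ Γ, ((X p.1, P p.2) : K × L) ∈ closure (Γ : Set (K × L)))
    (hX' : ∀ p ∈ Γ, (((star X') p.1, (star P) p.2) : K × L) ∈ closure (Γ : Set (K × L)))
    (v : K) : X (T v) - T (X (T v)) = T (X' (v - T v)) := by
  have hT : ∀ x y : K, ⟪T x, y⟫_ℂ = ⟪x, T y⟫_ℂ := fun x y => by
    conv_lhs => rw [← h.T_star]
    exact GrD_star_inner T x y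
  refine ext_inner_left ℂ fun η' => ?_
  have h1 := h.orth' (GrD_closure X P hX (h.mem v)) η'
  have h2 := h.orth' (GrD_closure (star X') (star P) hX' (h.mem η')) v
  simp only [GrD_star_inner] at h1 h2
  have h3 : ⟪T η', X' (v - T v)⟫_ℂ = ⟪S η', P (S v)⟫_ℂ := by
    rw [map_sub, inner_sub_right]
    linear_combination h2
  have h4 : ⟪X (T v), η' - T η'⟫_ℂ = ⟪P (S v), S η'⟫_ℂ := by
    rw [inner_sub_right]
    linear_combination h1
  have h5 : ⟪η' - T η', X (T v)⟫_ℂ = ⟪S η', P (S v)⟫_ℂ := by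
    rw [← inner_conj_symm, h4, inner_conj_symm]
  rw [← hT, h3, ← h5, inner_sub_left, inner_sub_right, hT]

theorem GT.scale {T₁ T₂ : K →L[ℂ] K} {S₁ S₂ : K →L[ℂ] L}
    (h₁ : GT (Γ₁ : Set (K × L)) T₁ S₁) (h₂ : GT (Γ₂ : Set (K × L)) T₂ S₂) {c : ℝ} (hc : 0 < c)
    (hΓ : ∀ v w, ((v, w) : K × L) ∈ Γ₁ ↔ ((v, (c : ℂ) • w) : K × L) ∈ Γ₂) (v : K) :
    T₂ (T₁ v + ((c ^ 2 : ℝ) : ℂ) • (v - T₁ v)) = T₁ v := by
  have hc' : (c : ℂ) ≠ 0 := by exact_mod_cast hc.ne'
  have hmem : ((T₁ v, (c : ℂ) • S₁ v) : K × L) ∈ closure (Γ₂ : Set (K × L)) := by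
    have := GrD_closure (A := (Γ₁ : Set (K × L))) (B := (Γ₂ : Set (K × L)))
      (ContinuousLinearMap.id ℂ K) ((c : ℂ) • ContinuousLinearMap.id ℂ L)
      (fun p hp => subset_closure ((hΓ p.1 p.2).1 hp)) (h₁.mem v)
    simpa using this
  refine (h₂.eq_of hmem fun p hp => ?_).1
  have hp' : ((p.1, (c : ℂ)⁻¹ • p.2) : K × L) ∈ Γ₁ := by
    rw [hΓ, smul_smul, mul_inv_cancel₀ hc', one_smul]
    exact hp
  have ho := h₁.orth _ hp' v
  simp only [inner_smul_left, map_inv₀, Complex.conj_ofReal] at ho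
  simp only [inner_add_right, inner_smul_right, inner_sub_right]
  have h6 : ⟪p.1, v⟫_ℂ - ⟪p.1, T₁ v⟫_ℂ = (c : ℂ)⁻¹ * ⟪p.2, S₁ v⟫_ℂ := by
    linear_combination ho
  rw [h6]
  push_cast
  field_simp

theorem GT.conj {T₁ T₂ : K →L[ℂ] K} {S₁ S₂ : K →L[ℂ] L}
    (h₁ : GT (Γ₁ : Set (K × L)) T₁ S₁) (h₂ : GT (Γ₂ : Set (K × L)) T₂ S₂)
    {U : K →L[ℂ] K} (hU : star U * U = 1) (hU' : U * star U = 1)
    (hΓ : ∀ v w, ((v, w) : K × L) ∈ Γ₁ ↔ ((U v, w) : K × L) ∈ Γ₂) : T₂ = U * T₁ * star U := by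
  have hUU : ∀ x, U ((star U) x) = x := fun x => by
    have := congrArg (fun A : K →L[ℂ] K => A x) hU'
    simpa using this
  ext η
  have hmem : ((U (T₁ ((star U) η)), S₁ ((star U) η)) : K × L) ∈ closure (Γ₂ : Set (K × L)) := by
    have := GrD_closure (A := (Γ₁ : Set (K × L))) (B := (Γ₂ : Set (K × L)))
      U (ContinuousLinearMap.id ℂ L)
      (fun p hp => subset_closure ((hΓ p.1 p.2).1 hp)) (h₁.mem ((star U) η))
    simpa using this
  refine (h₂.eq_of hmem fun p hp => ?_).1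
  have hp' : (((star U) p.1, p.2) : K × L) ∈ Γ₁ := by
    rw [hΓ, hUU]
    exact hp
  have ho := h₁.orth _ hp' ((star U) η)
  simp only [GrD_star_inner, hUU] at ho
  exact ho

end Pool.Agent.Helper23.ED

end

section

open scoped InnerProductSpace Topology ENNReal BoundedContinuousFunction

open ContinuousLinearMap Filter MeasureTheory

namespace Pool.Agent.Helper23.ED

open Pool.Agent.Helper23 Pool.Agent.Helper23.RBF

universe u

variable {K : Type*} [NormedAddCommGroup K] [InnerProductSpace ℂ K] [CompleteSpace K]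

variable {L : Type*} [NormedAddCommGroup L] [InnerProductSpace ℂ L] [CompleteSpace L]

theorem exists_GT (Γ : Submodule ℂ (K × L)) :
    ∃ (T : K →L[ℂ] K) (S : K →L[ℂ] L), GT (Γ : Set (K × L)) T S := by
  let e : WithLp 2 (K × L) ≃L[ℂ] K × L := WithLp.prodContinuousLinearEquiv 2 ℂ K L
  let V : Submodule ℂ (WithLp 2 (K × L)) :=
    (Γ.comap (e : WithLp 2 (K × L) →L[ℂ] K × L).toLinearMap).topologicalClosure
  have hVc : CompleteSpace V := inferInstance
  let P : WithLp 2 (K × L) →L[ℂ] WithLp 2 (K × L) := V.starProjection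
  let Q : K →L[ℂ] K × L := ((e : WithLp 2 (K × L) →L[ℂ] K × L) ∘L P ∘L
    (e.symm : K × L →L[ℂ] WithLp 2 (K × L))) ∘L ContinuousLinearMap.inl ℂ K L
  have hQ : ∀ η, Q η = e (P (e.symm (η, 0))) := fun η => rfl
  refine ⟨ContinuousLinearMap.fst ℂ K L ∘L Q, ContinuousLinearMap.snd ℂ K L ∘L Q, ?_, ?_⟩
  · intro η
    have h1 : P (e.symm (η, 0)) ∈ V := Submodule.starProjection_apply_mem V _
    have h2 : P (e.symm (η, 0)) ∈ closure ((Γ.comap
        (e : WithLp 2 (K × L) →L[ℂ] K × L).toLinearMap : Submodule ℂ (WithLp 2 (K × L))) :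
          Set (WithLp 2 (K × L))) := h1
    have h3 := map_mem_closure e.continuous h2 (t := (Γ : Set (K × L))) fun x hx => hx
    exact h3
  · intro p hp η
    have h1 : e.symm p ∈ V := Submodule.le_topologicalClosure _ (by
      show e (e.symm p) ∈ Γ
      rw [e.apply_symm_apply]
      exact hp)
    have h2 : P (e.symm p) = e.symm p := Submodule.starProjection_eq_self_iff.2 h1
    have h3 : ⟪e.symm p, e.symm (η, 0)⟫_ℂ = ⟪e.symm p, P (e.symm (η, 0))⟫_ℂ := by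
      conv_lhs => rw [← h2]
      exact Submodule.inner_starProjection_left_eq_right V _ _
    have h4 : ∀ x y : WithLp 2 (K × L), ⟪x, y⟫_ℂ = ⟪(e x).1, (e y).1⟫_ℂ + ⟪(e x).2, (e y).2⟫_ℂ :=
      fun x y => WithLp.prod_inner_apply x y
    rw [h4, h4, e.apply_symm_apply, e.apply_symm_apply] at h3
    simpa [hQ] using h3

end Pool.Agent.Helper23.ED

end

section

open scoped InnerProductSpace Topology ENNReal BoundedContinuousFunction

open ContinuousLinearMap Filter MeasureTheory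

namespace Pool.Agent.Helper23.ED

open Pool.Agent.Helper23 Pool.Agent.Helper23.RBF

universe u

variable {K : Type*} [NormedAddCommGroup K] [InnerProductSpace ℂ K] [CompleteSpace K]

variable {L₁ : Type*} [NormedAddCommGroup L₁] [InnerProductSpace ℂ L₁] [CompleteSpace L₁]

variable {L₂ : Type*} [NormedAddCommGroup L₂] [InnerProductSpace ℂ L₂] [CompleteSpace L₂]

variable {Γ₁ : Submodule ℂ (K × L₁)} {Γ₂ : Submodule ℂ (K × L₂)}

lemma GrC_inner
    (hn : ∀ p ∈ Γ₁, ∀ q ∈ Γ₂, p.1 = q.1 → ‖p.2‖ = ‖q.2‖) {p p' : K × L₁} {q q' : K × L₂}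
    (hp : p ∈ Γ₁) (hp' : p' ∈ Γ₁) (hq : q ∈ Γ₂) (hq' : q' ∈ Γ₂) (h : p.1 = q.1)
    (h' : p'.1 = q'.1) : ⟪p.2, p'.2⟫_ℂ = ⟪q.2, q'.2⟫_ℂ := by
  have e1 := hn _ (Γ₁.add_mem hp hp') _ (Γ₂.add_mem hq hq') (by simp [h, h'])
  have e2 := hn _ (Γ₁.sub_mem hp hp') _ (Γ₂.sub_mem hq hq') (by simp [h, h'])
  have e3 := hn _ (Γ₁.add_mem hp (Γ₁.smul_mem Complex.I hp')) _
    (Γ₂.add_mem hq (Γ₂.smul_mem Complex.I hq')) (by simp [h, h'])
  have e4 := hn _ (Γ₁.sub_mem hp (Γ₁.smul_mem Complex.I hp')) _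
    (Γ₂.sub_mem hq (Γ₂.smul_mem Complex.I hq')) (by simp [h, h'])
  simp only [Prod.snd_add, Prod.snd_sub, Prod.smul_snd] at e1 e2 e3 e4
  rw [inner_eq_sum_norm_sq_div_four (𝕜 := ℂ) p.2 p'.2,
    inner_eq_sum_norm_sq_div_four (𝕜 := ℂ) q.2 q'.2]
  simp only [RCLike.I_to_complex]
  rw [e1, e2, e3, e4]

theorem T_unique {T₁ T₂ : K →L[ℂ] K} {S₁ : K →L[ℂ] L₁} {S₂ : K →L[ℂ] L₂}
    (h₁ : GT (Γ₁ : Set (K × L₁)) T₁ S₁) (h₂ : GT (Γ₂ : Set (K × L₂)) T₂ S₂)
    (hf : ∀ p ∈ Γ₁, ∃ q ∈ Γ₂, q.1 = p.1) (hf' : ∀ q ∈ Γ₂, ∃ p ∈ Γ₁, p.1 = q.1)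
    (hn : ∀ p ∈ Γ₁, ∀ q ∈ Γ₂, p.1 = q.1 → ‖p.2‖ = ‖q.2‖) : T₁ = T₂ := by
  refine ContinuousLinearMap.ext fun η => ?_
  obtain ⟨p, hp, hlim⟩ := mem_closure_iff_seq_limit.1 (h₁.mem η)
  choose q hq hq1 using fun n => hf (p n) (hp n)
  have hp1 : Tendsto (fun n => (p n).1) atTop (𝓝 (T₁ η)) :=
    (continuous_fst.tendsto _).comp hlim
  have hp2 : Tendsto (fun n => (p n).2) atTop (𝓝 (S₁ η)) :=
    (continuous_snd.tendsto _).comp hlim
  have hcau : CauchySeq fun n => (q n).2 := by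
    have hc := hp2.cauchySeq
    rw [Metric.cauchySeq_iff] at hc ⊢
    intro ε hε
    obtain ⟨N, hN⟩ := hc ε hε
    refine ⟨N, fun m hm n hn' => ?_⟩
    have h3 := hN m hm n hn'
    have h4 := hn _ (Γ₁.sub_mem (hp m) (hp n)) _ (Γ₂.sub_mem (hq m) (hq n))
      (by simp [hq1])
    rw [dist_eq_norm] at h3 ⊢
    simp only [Prod.snd_sub] at h4
    rw [← h4]
    exact h3
  obtain ⟨w, hw⟩ := cauchySeq_tendsto_of_complete hcau
  have hmem : ((T₁ η, w) : K × L₂) ∈ closure (Γ₂ : Set (K × L₂)) := by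
    refine mem_closure_iff_seq_limit.2 ⟨q, hq, ?_⟩
    have h5 : Tendsto (fun n => (q n).1) atTop (𝓝 (T₁ η)) := by
      simp only [hq1]
      exact hp1
    exact h5.prodMk_nhds hw
  have hfin := h₂.eq_of (η := η) hmem (fun q' hq' => by
    obtain ⟨p', hp', hpq⟩ := hf' q' hq'
    have ho := h₁.orth p' hp' η
    have l1 : Tendsto (fun n => ⟪p'.2, (p n).2⟫_ℂ) atTop (𝓝 ⟪p'.2, S₁ η⟫_ℂ) :=
      tendsto_const_nhds.inner hp2
    have l2 : Tendsto (fun n => ⟪q'.2, (q n).2⟫_ℂ) atTop (𝓝 ⟪q'.2, w⟫_ℂ) :=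
      tendsto_const_nhds.inner hw
    have l3 : (fun n => ⟪q'.2, (q n).2⟫_ℂ) = fun n => ⟪p'.2, (p n).2⟫_ℂ := by
      funext n
      exact (GrC_inner hn hp' (hp n) hq' (hq n) hpq (hq1 n).symm).symm
    rw [l3] at l2
    have l4 := tendsto_nhds_unique l1 l2
    rw [← hpq, ← l4]
    exact ho)
  exact hfin.1.symm

lemma GrC_dense {T : K →L[ℂ] K} {S₁ : K →L[ℂ] L₁}
    (h₁ : GT (Γ₁ : Set (K × L₁)) T S₁)
    (hc : ∀ w : L₁, ((0, w) : K × L₁) ∈ closure (Γ₁ : Set (K × L₁)) → w = 0)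
    {p : K × L₁} (hp : p ∈ closure (Γ₁ : Set (K × L₁))) :
    p ∈ closure (Set.range fun η : K => ((T η, S₁ η) : K × L₁)) := by
  let e : WithLp 2 (K × L₁) ≃L[ℂ] K × L₁ := WithLp.prodContinuousLinearEquiv 2 ℂ K L₁
  let f : K →ₗ[ℂ] K × L₁ := (T.prod S₁).toLinearMap
  let V : Submodule ℂ (WithLp 2 (K × L₁)) :=
    ((LinearMap.range f).comap
      (e : WithLp 2 (K × L₁) →L[ℂ] K × L₁).toLinearMap).topologicalClosure
  have hVc : CompleteSpace V := inferInstance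
  let P : WithLp 2 (K × L₁) →L[ℂ] WithLp 2 (K × L₁) := V.starProjection
  have h4 : ∀ x y : WithLp 2 (K × L₁), ⟪x, y⟫_ℂ = ⟪(e x).1, (e y).1⟫_ℂ + ⟪(e x).2, (e y).2⟫_ℂ :=
    fun x y => WithLp.prod_inner_apply x y
  have hV : ∀ x ∈ V, e x ∈ closure (Set.range fun η : K => ((T η, S₁ η) : K × L₁)) := by
    intro x hx
    have h2 : x ∈ closure (((LinearMap.range f).comap
        (e : WithLp 2 (K × L₁) →L[ℂ] K × L₁).toLinearMap : Submodule ℂ (WithLp 2 (K × L₁))) :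
          Set (WithLp 2 (K × L₁))) := hx
    refine map_mem_closure e.continuous h2 fun x hx => ?_
    obtain ⟨η, hη⟩ := hx
    exact ⟨η, hη⟩
  have hsub : closure (Set.range fun η : K => ((T η, S₁ η) : K × L₁)) ⊆
      closure (Γ₁ : Set (K × L₁)) := by
    refine closure_minimal ?_ isClosed_closure
    rintro _ ⟨η, rfl⟩
    exact h₁.mem η
  have hPm : P (e.symm p) ∈ V := Submodule.starProjection_apply_mem V _
  set b : WithLp 2 (K × L₁) := e.symm p - P (e.symm p) with hb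
  have hbmem : e b ∈ closure (Γ₁ : Set (K × L₁)) := by
    have h5 : e b = p - e (P (e.symm p)) := by
      rw [hb, map_sub, e.apply_symm_apply]
    rw [h5]
    have h6 : p ∈ Γ₁.topologicalClosure := hp
    have h7 : e (P (e.symm p)) ∈ Γ₁.topologicalClosure := hsub (hV _ hPm)
    exact Γ₁.topologicalClosure.sub_mem h6 h7
  have horth : ∀ η : K, ⟪(e b).1, T η⟫_ℂ + ⟪(e b).2, S₁ η⟫_ℂ = 0 := by
    intro η
    have h8 : e.symm (T η, S₁ η) ∈ V := Submodule.le_topologicalClosure _ (by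
      show e (e.symm (T η, S₁ η)) ∈ LinearMap.range f
      rw [e.apply_symm_apply]
      exact ⟨η, rfl⟩)
    have h9 : ⟪e.symm (T η, S₁ η), b⟫_ℂ = 0 := by
      have h10 : b ∈ Vᗮ := by
        rw [hb]
        exact Submodule.sub_starProjection_mem_orthogonal _
      exact (Submodule.mem_orthogonal _ _).1 h10 _ h8
    have h11 : ⟪b, e.symm (T η, S₁ η)⟫_ℂ = 0 := by
      rw [← inner_conj_symm, h9, map_zero]
    rw [h4, e.apply_symm_apply] at h11
    exact h11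
  have hb1 : (e b).1 = 0 := by
    have h12 : ∀ η : K, ⟪(e b).1, η⟫_ℂ = 0 := fun η => by
      rw [h₁.orth' hbmem η]
      exact horth η
    exact inner_self_eq_zero.1 (h12 _)
  have hb2 : (e b).2 = 0 := by
    apply hc
    have h13 : e b = ((0, (e b).2) : K × L₁) := Prod.ext hb1 rfl
    rw [← h13]
    exact hbmem
  have hb0 : e b = 0 := Prod.ext hb1 hb2
  have hpe : p = e (P (e.symm p)) := by
    have h5 : e b = p - e (P (e.symm p)) := by
      rw [hb, map_sub, e.apply_symm_apply]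
    rw [hb0] at h5
    exact (sub_eq_zero.1 h5.symm)
  rw [hpe]
  exact hV _ hPm

theorem exists_of_T_eq {T : K →L[ℂ] K} {S₁ : K →L[ℂ] L₁} {S₂ : K →L[ℂ] L₂}
    (h₁ : GT (Γ₁ : Set (K × L₁)) T S₁) (h₂ : GT (Γ₂ : Set (K × L₂)) T S₂)
    (hc : ∀ w : L₁, ((0, w) : K × L₁) ∈ closure (Γ₁ : Set (K × L₁)) → w = 0)
    {p : K × L₁} (hp : p ∈ closure (Γ₁ : Set (K × L₁))) :
    ∃ w : L₂, ((p.1, w) : K × L₂) ∈ closure (Γ₂ : Set (K × L₂)) ∧ ‖w‖ = ‖p.2‖ := by
  obtain ⟨x, hx, hlim⟩ := mem_closure_iff_seq_limit.1 (GrC_dense h₁ hc hp)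
  choose η hη using hx
  simp only at hη
  have hnorm : ∀ v : K, ‖S₂ v‖ = ‖S₁ v‖ := by
    intro v
    have e1 := h₁.S_inner v v
    have e2 := h₂.S_inner v v
    rw [← e1, inner_self_eq_norm_sq_to_K, inner_self_eq_norm_sq_to_K] at e2
    have e3 : ‖S₂ v‖ ^ 2 = ‖S₁ v‖ ^ 2 := by exact_mod_cast e2
    exact (sq_eq_sq₀ (norm_nonneg _) (norm_nonneg _)).1 e3
  have hx1 : Tendsto (fun n => T (η n)) atTop (𝓝 p.1) := by
    have := (continuous_fst.tendsto _).comp hlim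
    refine this.congr fun n => ?_
    simp only [Function.comp, ← hη n]
  have hx2 : Tendsto (fun n => S₁ (η n)) atTop (𝓝 p.2) := by
    have := (continuous_snd.tendsto _).comp hlim
    refine this.congr fun n => ?_
    simp only [Function.comp, ← hη n]
  have hcau : CauchySeq fun n => S₂ (η n) := by
    have hc := hx2.cauchySeq
    rw [Metric.cauchySeq_iff] at hc ⊢
    intro ε hε
    obtain ⟨N, hN⟩ := hc ε hε
    refine ⟨N, fun m hm n hn' => ?_⟩
    have h3 := hN m hm n hn'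
    rw [dist_eq_norm, ← map_sub] at h3 ⊢
    rw [hnorm]
    exact h3
  obtain ⟨w, hw⟩ := cauchySeq_tendsto_of_complete hcau
  refine ⟨w, ?_, ?_⟩
  · have h5 : Tendsto (fun n => ((T (η n), S₂ (η n)) : K × L₂)) atTop (𝓝 (p.1, w)) :=
      hx1.prodMk_nhds hw
    have h6 : ∀ n, ((T (η n), S₂ (η n)) : K × L₂) ∈ closure (Γ₂ : Set (K × L₂)) :=
      fun n => h₂.mem (η n)
    exact isClosed_closure.mem_of_tendsto h5 (Eventually.of_forall h6)
  · have l1 : Tendsto (fun n => ‖S₂ (η n)‖) atTop (𝓝 ‖w‖) := hw.norm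
    have l2 : Tendsto (fun n => ‖S₁ (η n)‖) atTop (𝓝 ‖p.2‖) := hx2.norm
    simp only [hnorm] at l1
    exact tendsto_nhds_unique l1 l2

end Pool.Agent.Helper23.ED

end
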