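import Pool.Agent.Helper23.FA.Ns

/-!
Parts of Helper23.Wt, Helper23.Csb, Helper88.CS.Trick1, Helper23.ED.DefsW, Helper23.ED.FdA, Helper23.ED.FdB
-/

section

open scoped InnerProductSpace Topology ENNReal

open ContinuousLinearMap Filter MeasureTheory

set_option linter.unusedSectionVars false

set_option linter.unusedVariables false

namespace Pool.Agent.Helper23

variable {H : Type*} [NormedAddCommGroup H] [InnerProductSpace ℂ H] [CompleteSpace H]

variable {M N : VonNeumannAlgebra H} {ξ : H} {E : (H →L[ℂ] H) → (H →L[ℂ] H)}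

section general

variable {L : Type*} [NormedAddCommGroup L] [InnerProductSpace ℂ L] [CompleteSpace L]

lemma re_inner_nonneg {X : L →L[ℂ] L} (h0 : 0 ≤ X) (η : L) : 0 ≤ (⟪η, X η⟫_ℂ).re :=
  ((nonneg_iff_isPositive X).1 h0).re_inner_nonneg_right η

lemma le_re_inner {X Y : L →L[ℂ] L} (h : X ≤ Y) (η : L) : (⟪η, X η⟫_ℂ).re ≤ (⟪η, Y η⟫_ℂ).re := by
  have h1 := re_inner_nonneg (sub_nonneg.2 h) η
  rw [sub_apply, inner_sub_right, Complex.sub_re] at h1
  linarith

end general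

end Pool.Agent.Helper23

end

section

open scoped InnerProductSpace Topology ENNReal

open ContinuousLinearMap Filter MeasureTheory

set_option linter.unusedSectionVars false

set_option linter.unusedVariables false

namespace Pool.Agent.Helper23

section CSB

variable {H : Type*} [NormedAddCommGroup H] [InnerProductSpace ℂ H] [CompleteSpace H]

variable {K : Type*} [NormedAddCommGroup K] [InnerProductSpace ℂ K] [CompleteSpace K]

/-- Cantor-Bernstein for isometries intertwining families of operators. -/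
theorem csb (I : H →L[ℂ] K) (J : K →L[ℂ] H) (hI : ∀ x y, ⟪I x, I y⟫_ℂ = ⟪x, y⟫_ℂ)
    (hJ : ∀ x y, ⟪J x, J y⟫_ℂ = ⟪x, y⟫_ℂ) :
    ∃ W : H ≃ₗᵢ[ℂ] K, ∀ (a : H →L[ℂ] H) (b : K →L[ℂ] K),
      (∀ x, I (a x) = b (I x)) → (∀ x, J (b x) = a (J x)) →
      (∀ x, I (star a x) = star b (I x)) → (∀ x, J (star b x) = star a (J x)) →
      ∀ x, W (a x) = b (W x) := by
  have hII : ∀ x, (adjoint I) (I x) = x := fun x =>
    ext_inner_left ℂ fun y => by rw [adjoint_inner_right, hI]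
  have hJJ : ∀ x, (adjoint J) (J x) = x := fun x =>
    ext_inner_left ℂ fun y => by rw [adjoint_inner_right, hJ]
  set A : H →L[ℂ] H := J.comp I with hA
  have hAx : ∀ x, A x = J (I x) := fun _ => rfl
  set T : Set H := {x | ∃ (n : ℕ) (ζ : H), (∀ k, ⟪ζ, J k⟫_ℂ = 0) ∧ x = (A ^ n) ζ} with hT
  set V : Submodule ℂ H := (Submodule.span ℂ T).topologicalClosure with hV
  have hVc : IsClosed (V : Set H) := Submodule.isClosed_topologicalClosure _
  have : CompleteSpace V := hVc.completeSpace_coe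
  have hTV : ∀ x ∈ T, x ∈ V := fun x hx =>
    Submodule.le_topologicalClosure _ (Submodule.subset_span hx)
  -- induction principle
  have hind : ∀ (p : H → Prop), IsClosed {x | p x} → p 0 → (∀ x y, p x → p y → p (x + y)) →
      (∀ (c : ℂ) x, p x → p (c • x)) → (∀ x ∈ T, p x) → ∀ x ∈ V, p x := by
    intro p hcl h0 hadd hsmul hT x hx
    have hsub : (Submodule.span ℂ T : Set H) ⊆ {x | p x} := by
      intro x hx
      exact Submodule.span_induction (p := fun x _ => p x) hT h0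
        (fun x y _ _ => hadd x y) (fun c x _ => hsmul c x) hx
    exact closure_minimal hsub hcl hx
  set P : H →L[ℂ] H := V.starProjection with hP
  have hPmem : ∀ x, P x ∈ V := fun x => Submodule.starProjection_apply_mem _ x
  have hPfix : ∀ x ∈ V, P x = x := fun x hx => Submodule.starProjection_eq_self_iff.2 hx
  have hPsa : ∀ x y, ⟪P x, y⟫_ℂ = ⟪x, P y⟫_ℂ := fun x y =>
    Submodule.inner_starProjection_left_eq_right _ x y
  have hPo : ∀ v ∈ V, ∀ x, ⟪v, x - P x⟫_ℂ = 0 := by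
    intro v hv x
    rw [inner_sub_right, ← hPsa, hPfix v hv, sub_self]
  -- `A V ⊆ V`
  have hAV : ∀ x ∈ V, A x ∈ V := by
    refine hind (fun x => A x ∈ V) (hVc.preimage A.continuous) ?_ ?_ ?_ ?_
    · rw [map_zero]; exact V.zero_mem
    · intro x y hx hy; rw [map_add]; exact V.add_mem hx hy
    · intro c x hx; rw [map_smul]; exact V.smul_mem c hx
    · rintro _ ⟨n, ζ, hζ, rfl⟩
      refine hTV _ ⟨n + 1, ζ, hζ, ?_⟩
      rw [pow_succ']
      rfl
  -- complement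
  have hcomp : ∀ x, (∀ v ∈ V, ⟪v, x⟫_ℂ = 0) → J ((adjoint J) x) = x := by
    intro x hx
    have h1 : ∀ k, ⟪x - J ((adjoint J) x), J k⟫_ℂ = 0 := by
      intro k
      rw [inner_sub_left, hJ, adjoint_inner_left, sub_self]
    have h2 : x - J ((adjoint J) x) ∈ V := hTV _ ⟨0, _, h1, by simp⟩
    have h3 : ⟪x - J ((adjoint J) x), x - J ((adjoint J) x)⟫_ℂ = 0 := by
      rw [inner_sub_right, hx _ h2, h1, sub_zero]
    exact (sub_eq_zero.1 (inner_self_eq_zero.1 h3)).symm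
  set W : H →L[ℂ] K := I.comp P + (adjoint J).comp (1 - P) with hW
  have hWx : ∀ x, W x = I (P x) + (adjoint J) (x - P x) := fun _ => rfl
  have hcross : ∀ x y, ⟪I (P x), (adjoint J) (y - P y)⟫_ℂ = 0 := by
    intro x y
    rw [adjoint_inner_right, ← hAx, hPo _ (hAV _ (hPmem x))]
  have hWW : ∀ x y, ⟪W x, W y⟫_ℂ = ⟪x, y⟫_ℂ := by
    intro x y
    rw [hWx, hWx, inner_add_left, inner_add_right, inner_add_right, hI, hcross]
    have h1 : ⟪(adjoint J) (x - P x), I (P y)⟫_ℂ = 0 := by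
      rw [← inner_conj_symm, hcross, map_zero]
    have h2 : ⟪(adjoint J) (x - P x), (adjoint J) (y - P y)⟫_ℂ = ⟪x - P x, y - P y⟫_ℂ := by
      rw [adjoint_inner_left, hcomp (y - P y) (fun v hv => hPo v hv y)]
    have h3 : ⟪P x, y - P y⟫_ℂ = 0 := hPo _ (hPmem x) y
    have h4 : ⟪x - P x, P y⟫_ℂ = 0 := by
      rw [← inner_conj_symm, hPo _ (hPmem y) x, map_zero]
    rw [h1, h2]
    have h5 : ⟪x, y⟫_ℂ = ⟪P x + (x - P x), P y + (y - P y)⟫_ℂ := by
      rw [add_sub_cancel, add_sub_cancel]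
    rw [h5, inner_add_left, inner_add_right, inner_add_right, h3, h4]
  have hsurj : ∀ k, W (P ((adjoint I) k) + (J k - P (J k))) = k := by
    intro k
    have h1 : P (J k) = J (I (P ((adjoint I) k))) := by
      have hmem : J (I (P ((adjoint I) k))) ∈ V := hAV _ (hPmem _)
      have ho : ∀ v ∈ V, ⟪v, J k - J (I (P ((adjoint I) k)))⟫_ℂ = 0 := by
        refine hind _ (isClosed_eq (by fun_prop) (by fun_prop)) (inner_zero_left _) ?_ ?_ ?_
        · intro x y hx hy; rw [inner_add_left, hx, hy, add_zero]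
        · intro c x hx; rw [inner_smul_left, hx, mul_zero]
        · rintro _ ⟨n, ζ, hζ, rfl⟩
          rw [← map_sub]
          cases n with
          | zero => rw [pow_zero, one_apply_eq_self, hζ]
          | succ n =>
            have e1 : (A ^ (n + 1)) ζ = J (I ((A ^ n) ζ)) := by rw [pow_succ']; rfl
            rw [e1, hJ, inner_sub_right, hI, ← adjoint_inner_right, ← inner_sub_right]
            exact hPo _ (hTV _ ⟨n, ζ, hζ, rfl⟩) _
      have h2 : P (J k - J (I (P ((adjoint I) k)))) = 0 := by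
        rw [← inner_self_eq_zero (𝕜 := ℂ), hPsa, hPfix _ (hPmem _), ← inner_conj_symm,
          ho _ (hPmem _), map_zero]
      rw [map_sub, sub_eq_zero, hPfix _ hmem] at h2
      exact h2
    have hp1 : P (P ((adjoint I) k) + (J k - P (J k))) = P ((adjoint I) k) := by
      rw [map_add, map_sub, hPfix _ (hPmem _), hPfix _ (hPmem _), sub_self, add_zero]
    rw [hWx, hp1, add_sub_cancel_left, map_sub, hJJ, h1, hJJ, add_sub_cancel]
  let Wl : H →ₗᵢ[ℂ] K := ⟨W.toLinearMap, fun x => by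
    have h1 := hWW x x
    rw [inner_self_eq_norm_sq_to_K, inner_self_eq_norm_sq_to_K] at h1
    have h2 : ‖W x‖ ^ 2 = ‖x‖ ^ 2 := by exact_mod_cast h1
    exact (pow_left_inj₀ (norm_nonneg _) (norm_nonneg _) two_ne_zero).1 h2⟩
  refine ⟨LinearIsometryEquiv.ofSurjective Wl fun k => ⟨_, hsurj k⟩, ?_⟩
  intro a b h1 h2 h3 h4 x
  have hstab : ∀ (a : H →L[ℂ] H) (b : K →L[ℂ] K), (∀ x, I (a x) = b (I x)) →
      (∀ x, J (b x) = a (J x)) → (∀ x, J (star b x) = star a (J x)) → ∀ x ∈ V, a x ∈ V := by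
    intro a b h1 h2 h4
    refine hind (fun x => a x ∈ V) (hVc.preimage a.continuous) ?_ ?_ ?_ ?_
    · rw [map_zero]; exact V.zero_mem
    · intro x y hx hy; rw [map_add]; exact V.add_mem hx hy
    · intro c x hx; rw [map_smul]; exact V.smul_mem c hx
    · rintro _ ⟨n, ζ, hζ, rfl⟩
      refine hTV _ ⟨n, a ζ, fun k => ?_, ?_⟩
      · rw [← star_star a, ContinuousLinearMap.star_eq_adjoint (star a), adjoint_inner_left,
          ← h4, hζ]
      · induction n with
        | zero => rfl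
        | succ n ih =>
          have e1 : ∀ z, (A ^ (n + 1)) z = J (I ((A ^ n) z)) := fun z => by
            rw [pow_succ']; rfl
          rw [e1, e1, ← ih, h1, h2]
  have hPa : P (a x) = a (P x) := by
    have e1 : ∀ v ∈ V, ⟪v, a x - a (P x)⟫_ℂ = 0 := by
      intro v hv
      rw [← map_sub, ← adjoint_inner_left, ← ContinuousLinearMap.star_eq_adjoint]
      refine hPo _ (hstab (star a) (star b) h3 h4 ?_ v hv) x
      intro y
      rw [star_star, star_star]; exact h2 y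
    have e2 : a (P x) ∈ V := hstab a b h1 h2 h4 _ (hPmem x)
    have h2 : P (a x - a (P x)) = 0 := by
      rw [← inner_self_eq_zero (𝕜 := ℂ), hPsa, hPfix _ (hPmem _), ← inner_conj_symm,
        e1 _ (hPmem _), map_zero]
    rw [map_sub, sub_eq_zero, hPfix _ e2] at h2
    exact h2
  change W (a x) = b (W x)
  rw [hWx, hWx, hPa, h1, map_add]
  congr 1
  refine ext_inner_left ℂ fun k => ?_
  rw [adjoint_inner_right, ← map_sub]
  have e1 : ⟪k, b ((adjoint J) (x - P x))⟫_ℂ = ⟪J (star b k), x - P x⟫_ℂ := by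
    rw [← adjoint_inner_right, ContinuousLinearMap.star_eq_adjoint b, adjoint_inner_left]
  rw [e1, h4, ContinuousLinearMap.star_eq_adjoint a, adjoint_inner_left]

end CSB

end Pool.Agent.Helper23

end

section

open scoped InnerProductSpace Topology BoundedContinuousFunction CompactlySupported

open ContinuousLinearMap Filter MeasureTheory

namespace Pool.Agent.Helper88.CS

open Pool.Agent.Helper23

variable {H : Type*} [NormedAddCommGroup H] [InnerProductSpace ℂ H] [CompleteSpace H]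

variable {A : VonNeumannAlgebra H} {J : H →L[ℝ] H} {κ : H}

namespace Trick1Aux

/-- the cut function -/
noncomputable def sg (t s : ℝ) : ℝ := (if t < s then 1 else 0) - (if s < -t then 1 else 0)

/-- `min (a², b²)` if the signs agree -/
noncomputable def gp (a b : ℝ) : ℝ := if 0 < a * b then min (a ^ 2) (b ^ 2) else 0

/-- `min (a², b²)` if the signs are opposite -/
noncomputable def gm (a b : ℝ) : ℝ := if a * b < 0 then min (a ^ 2) (b ^ 2) else 0

lemma gp_nonneg (a b : ℝ) : 0 ≤ gp a b := by unfold gp; split_ifs <;> positivity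

lemma gm_nonneg (a b : ℝ) : 0 ≤ gm a b := by unfold gm; split_ifs <;> positivity

lemma gp_le (a b : ℝ) : gp a b ≤ a ^ 2 := by
  unfold gp; split_ifs
  · exact min_le_left _ _
  · positivity

lemma gm_le (a b : ℝ) : gm a b ≤ a ^ 2 := by
  unfold gm; split_ifs
  · exact min_le_left _ _
  · positivity

lemma gp_meas : Measurable (fun z : ℂ => gp z.re z.im) := by
  unfold gp
  exact Measurable.ite (measurableSet_lt measurable_const (by fun_prop)) (by fun_prop)
    measurable_const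

lemma gm_meas : Measurable (fun z : ℂ => gm z.re z.im) := by
  unfold gm
  exact Measurable.ite (measurableSet_lt (by fun_prop) measurable_const) (by fun_prop)
    measurable_const

/-- indicator of a proposition -/
noncomputable def ch (p : Prop) : ℝ := by classical exact if p then 1 else 0

lemma ch_true {p : Prop} (h : p) : ch p = 1 := by simp [ch, h]

lemma ch_false {p : Prop} (h : ¬ p) : ch p = 0 := by simp [ch, h]

lemma sg_cases {t : ℝ} (ht : 0 < t) (s : ℝ) :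
    (t < s ∧ sg t s = 1) ∨ (s < -t ∧ sg t s = -1) ∨ (-t ≤ s ∧ s ≤ t ∧ sg t s = 0) := by
  unfold sg
  by_cases h1 : t < s
  · left
    refine ⟨h1, ?_⟩
    rw [if_pos h1, if_neg (by linarith)]
    ring
  · by_cases h2 : s < -t
    · right; left
      refine ⟨h2, ?_⟩
      rw [if_neg h1, if_pos h2]
      ring
    · right; right
      refine ⟨by linarith, by linarith, ?_⟩
      rw [if_neg h1, if_neg h2]
      ring

lemma sg_sq {t : ℝ} (ht : 0 < t) (a : ℝ) : sg t a ^ 2 = ch (t ^ 2 < a ^ 2) := by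
  rcases sg_cases ht a with ⟨h, h'⟩ | ⟨h, h'⟩ | ⟨h1, h2, h'⟩
  · rw [h', ch_true (by nlinarith)]; norm_num
  · rw [h', ch_true (by nlinarith)]; norm_num
  · rw [h', ch_false (by nlinarith)]; norm_num

lemma sg_diff {t : ℝ} (ht : 0 < t) (a b : ℝ) :
    (sg t a - sg t b) ^ 2 + 2 * ch (t ^ 2 < gp a b) =
      ch (t ^ 2 < a ^ 2) + ch (t ^ 2 < b ^ 2) + 2 * ch (t ^ 2 < gm a b) := by
  have ht2 : 0 < t ^ 2 := by positivity
  rcases sg_cases ht a with ⟨h, h'⟩ | ⟨h, h'⟩ | ⟨h1, h2, h'⟩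
  · have ha : t ^ 2 < a ^ 2 := by nlinarith
    rcases sg_cases ht b with ⟨k, k'⟩ | ⟨k, k'⟩ | ⟨k1, k2, k'⟩
    · have hb : t ^ 2 < b ^ 2 := by nlinarith
      have hab : 0 < a * b := mul_pos (by linarith) (by linarith)
      rw [h', k', ch_true ha, ch_true hb, ch_true (by unfold gp; rw [if_pos hab]; exact lt_min ha hb),
        ch_false (by unfold gm; rw [if_neg (by linarith)]; linarith)]
      norm_num
    · have hb : t ^ 2 < b ^ 2 := by nlinarith
      have hab : a * b < 0 := mul_neg_of_pos_of_neg (by linarith) (by linarith)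
      rw [h', k', ch_true ha, ch_true hb, ch_false (by unfold gp; rw [if_neg (by linarith)]; linarith),
        ch_true (by unfold gm; rw [if_pos hab]; exact lt_min ha hb)]
      norm_num
    · have hb : ¬ t ^ 2 < b ^ 2 := by nlinarith
      have h5 : ¬ t ^ 2 < gp a b := by
        unfold gp; split_ifs
        · rw [lt_min_iff]; tauto
        · linarith
      have h6 : ¬ t ^ 2 < gm a b := by
        unfold gm; split_ifs
        · rw [lt_min_iff]; tauto
        · linarith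
      rw [h', k', ch_true ha, ch_false hb, ch_false h5, ch_false h6]
      norm_num
  · have ha : t ^ 2 < a ^ 2 := by nlinarith
    rcases sg_cases ht b with ⟨k, k'⟩ | ⟨k, k'⟩ | ⟨k1, k2, k'⟩
    · have hb : t ^ 2 < b ^ 2 := by nlinarith
      have hab : a * b < 0 := mul_neg_of_neg_of_pos (by linarith) (by linarith)
      rw [h', k', ch_true ha, ch_true hb, ch_false (by unfold gp; rw [if_neg (by linarith)]; linarith),
        ch_true (by unfold gm; rw [if_pos hab]; exact lt_min ha hb)]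
      norm_num
    · have hb : t ^ 2 < b ^ 2 := by nlinarith
      have hab : 0 < a * b := mul_pos_of_neg_of_neg (by linarith) (by linarith)
      rw [h', k', ch_true ha, ch_true hb, ch_true (by unfold gp; rw [if_pos hab]; exact lt_min ha hb),
        ch_false (by unfold gm; rw [if_neg (by linarith)]; linarith)]
      norm_num
    · have hb : ¬ t ^ 2 < b ^ 2 := by nlinarith
      have h5 : ¬ t ^ 2 < gp a b := by
        unfold gp; split_ifs
        · rw [lt_min_iff]; tauto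
        · linarith
      have h6 : ¬ t ^ 2 < gm a b := by
        unfold gm; split_ifs
        · rw [lt_min_iff]; tauto
        · linarith
      rw [h', k', ch_true ha, ch_false hb, ch_false h5, ch_false h6]
      norm_num
  · have ha : ¬ t ^ 2 < a ^ 2 := by nlinarith
    have h5 : ¬ t ^ 2 < gp a b := by
      have := gp_le a b
      linarith
    have h6 : ¬ t ^ 2 < gm a b := by
      have := gm_le a b
      linarith
    rcases sg_cases ht b with ⟨k, k'⟩ | ⟨k, k'⟩ | ⟨k1, k2, k'⟩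
    · have hb : t ^ 2 < b ^ 2 := by nlinarith
      rw [h', k', ch_false ha, ch_true hb, ch_false h5, ch_false h6]
      norm_num
    · have hb : t ^ 2 < b ^ 2 := by nlinarith
      rw [h', k', ch_false ha, ch_true hb, ch_false h5, ch_false h6]
      norm_num
    · have hb : ¬ t ^ 2 < b ^ 2 := by nlinarith
      rw [h', k', ch_false ha, ch_false hb, ch_false h5, ch_false h6]
      norm_num

/-- the pointwise inequality -/
lemma pointwise {δ : ℝ} (hδ : 0 < δ) (a b : ℝ) :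
    a ^ 2 + b ^ 2 + 2 * gm a b - 2 * gp a b ≤ 1 / (2 * δ) * (a - b) ^ 2 + δ * (a ^ 2 + b ^ 2) := by
  have h1 : a ^ 2 + b ^ 2 + 2 * gm a b - 2 * gp a b ≤ |a - b| * (|a| + |b|) := by
    unfold gm gp
    rcases lt_trichotomy (a * b) 0 with h | h | h
    · rw [if_pos h, if_neg (by linarith)]
      have e1 : |a - b| = |a| + |b| := by
        rcases mul_neg_iff.1 h with ⟨h2, h3⟩ | ⟨h2, h3⟩
        · rw [abs_of_pos h2, abs_of_neg h3, abs_of_pos (by linarith)]; ring
        · rw [abs_of_neg h2, abs_of_pos h3, abs_of_neg (by linarith)]; ring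
      rw [e1]
      have e2 : min (a ^ 2) (b ^ 2) ≤ |a| * |b| := by
        rcases le_total |a| |b| with h4 | h4
        · refine (min_le_left _ _).trans ?_
          rw [← sq_abs a]
          nlinarith [abs_nonneg a]
        · refine (min_le_right _ _).trans ?_
          rw [← sq_abs b]
          nlinarith [abs_nonneg b]
      nlinarith [sq_abs a, sq_abs b]
    · rw [if_neg (by linarith), if_neg (by linarith)]
      rcases mul_eq_zero.1 h with h2 | h2
      · subst h2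
        simp [sq]
      · subst h2
        simp [sq]
    · rw [if_neg (by linarith), if_pos h]
      rcases le_total |a| |b| with h4 | h4
      · have h5 : a ^ 2 ≤ b ^ 2 := sq_le_sq.2 h4
        rw [min_eq_left h5]
        have e1 : |a - b| = |b| - |a| := by
          rcases pos_and_pos_or_neg_and_neg_of_mul_pos h with ⟨h2, h3⟩ | ⟨h2, h3⟩
          · rw [abs_of_pos h2, abs_of_pos h3] at h4 ⊢
            rw [abs_of_nonpos (by linarith)]; ring
          · rw [abs_of_neg h2, abs_of_neg h3] at h4 ⊢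
            rw [abs_of_nonneg (by linarith)]; ring
        rw [e1]
        nlinarith [sq_abs a, sq_abs b]
      · have h5 : b ^ 2 ≤ a ^ 2 := sq_le_sq.2 h4
        rw [min_eq_right h5]
        have e1 : |a - b| = |a| - |b| := by
          rcases pos_and_pos_or_neg_and_neg_of_mul_pos h with ⟨h2, h3⟩ | ⟨h2, h3⟩
          · rw [abs_of_pos h2, abs_of_pos h3] at h4 ⊢
            rw [abs_of_nonneg (by linarith)]
          · rw [abs_of_neg h2, abs_of_neg h3] at h4 ⊢
            rw [abs_of_nonpos (by linarith)]; ring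
        rw [e1]
        nlinarith [sq_abs a, sq_abs b]
  have h2 : |a - b| * (|a| + |b|) ≤ 1 / (2 * δ) * (a - b) ^ 2 + δ / 2 * (|a| + |b|) ^ 2 := by
    rw [← sq_abs (a - b)]
    set x := |a - b|
    set y := |a| + |b|
    have h3 : 0 ≤ (x - δ * y) ^ 2 := sq_nonneg _
    have h4 : 1 / (2 * δ) * x ^ 2 + δ / 2 * y ^ 2 - x * y = 1 / (2 * δ) * (x - δ * y) ^ 2 := by
      field_simp
      ring
    have h5 : 0 ≤ 1 / (2 * δ) * (x - δ * y) ^ 2 := by positivity
    linarith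
  have h3 : (|a| + |b|) ^ 2 ≤ 2 * (a ^ 2 + b ^ 2) := by
    nlinarith [sq_abs a, sq_abs b, sq_nonneg (|a| - |b|)]
  have h4 : δ / 2 * (|a| + |b|) ^ 2 ≤ δ / 2 * (2 * (a ^ 2 + b ^ 2)) := by gcongr
  linarith

lemma integral_ch {μ : Measure ℂ} [IsFiniteMeasure μ] {f : ℂ → ℝ} (hf : Measurable f) (u : ℝ) :
    Integrable (fun z => ch (u < f z)) μ ∧ ∫ z, ch (u < f z) ∂μ = μ.real {z | u < f z} := by
  have hS : MeasurableSet {z | u < f z} := measurableSet_lt measurable_const hf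
  have e : (fun z => ch (u < f z)) = ({z | u < f z} : Set ℂ).indicator (1 : ℂ → ℝ) := by
    funext z
    by_cases h : u < f z
    · rw [ch_true h, Set.indicator_of_mem (by exact h)]; rfl
    · rw [ch_false h, Set.indicator_of_notMem (by exact h)]
  rw [e]
  exact ⟨(integrable_const (1 : ℝ)).indicator hS, integral_indicator_one hS⟩

end Trick1Aux

end Pool.Agent.Helper88.CS

end

section

open scoped InnerProductSpace Topology ENNReal BoundedContinuousFunction

open ContinuousLinearMap Filter MeasureTheory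

namespace Pool.Agent.Helper23.ED

open Pool.Agent.Helper23 Pool.Agent.Helper23.RBF

universe u

section fd

variable {H : Type*} [NormedAddCommGroup H] [InnerProductSpace ℂ H] [CompleteSpace H]

/-- `x (1 + δ x)⁻¹` for positive `x` -/
noncomputable def fd (δ : ℝ) (x : H →L[ℂ] H) : H →L[ℂ] H :=
  x * Ring.inverse (1 + (δ : ℂ) • x)

end fd

end Pool.Agent.Helper23.ED

end

section

open scoped InnerProductSpace Topology ENNReal BoundedContinuousFunction

open ContinuousLinearMap Filter MeasureTheory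

namespace Pool.Agent.Helper23.ED

open Pool.Agent.Helper23 Pool.Agent.Helper23.RBF

universe u

variable {H : Type*} [NormedAddCommGroup H] [InnerProductSpace ℂ H] [CompleteSpace H]

namespace FdA

theorem isUnit_one_add {x : H →L[ℂ] H} (hx : 0 ≤ x) {δ : ℝ} (hδ : 0 < δ) :
    IsUnit (1 + (δ : ℂ) • x) := by
  have h1 : IsStrictlyPositive (1 : H →L[ℂ] H) := IsStrictlyPositive.iff_of_unital.mpr
    ⟨zero_le_one, isUnit_one⟩
  have h2 : 0 ≤ (δ : ℂ) • x := by
    rw [nonneg_iff_isPositive] at hx ⊢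
    exact hx.smul_of_nonneg (by exact_mod_cast hδ.le)
  exact CStarAlgebra.isUnit_of_le (1 : H →L[ℂ] H) (le_add_of_nonneg_right h2) h1

/-- the basic solution `w = (1 + δ x)⁻¹ v` -/
theorem exists_sol {x : H →L[ℂ] H} (hx : 0 ≤ x) {δ : ℝ} (hδ : 0 < δ) (v : H) :
    ∃ w, v = w + (δ : ℂ) • x w ∧ fd δ x v = x w := by
  have hu := isUnit_one_add hx hδ
  refine ⟨Ring.inverse (1 + (δ : ℂ) • x) v, ?_, rfl⟩
  have h := Ring.mul_inverse_cancel _ hu
  have h2 := congrArg (fun T : H →L[ℂ] H => T v) h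
  simpa using h2.symm

omit [CompleteSpace H] in
theorem inner_sa {x : H →L[ℂ] H} (hx : 0 ≤ x) (a b : H) : ⟪x a, b⟫_ℂ = ⟪a, x b⟫_ℂ :=
  ((nonneg_iff_isPositive x).1 hx).inner_left_eq_inner_right a b

omit [CompleteSpace H] in
theorem re_nonneg {x : H →L[ℂ] H} (hx : 0 ≤ x) (a : H) : 0 ≤ (⟪a, x a⟫_ℂ).re :=
  ((nonneg_iff_isPositive x).1 hx).re_inner_nonneg_right a

omit [CompleteSpace H] in
theorem re_symm (a b : H) : (⟪a, b⟫_ℂ).re = (⟪b, a⟫_ℂ).re := by
  rw [← inner_conj_symm, Complex.conj_re]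

omit [CompleteSpace H] in
theorem val_eq {x : H →L[ℂ] H} {δ : ℝ} {v w : H} (h1 : v = w + (δ : ℂ) • x w)
    (h2 : fd δ x v = x w) :
    (⟪v, fd δ x v⟫_ℂ).re = (⟪w, x w⟫_ℂ).re + δ * ‖x w‖ ^ 2 := by
  have e : (⟪x w, x w⟫_ℂ).re = ‖x w‖ ^ 2 := by
    rw [inner_self_eq_norm_sq_to_K]
    norm_cast
  have e2 : (⟪v, fd δ x v⟫_ℂ).re = (⟪w + (δ : ℂ) • x w, x w⟫_ℂ).re := by
    rw [h2]
    exact congrArg (fun z => (⟪z, x w⟫_ℂ).re) h1
  rw [e2, inner_add_left, inner_smul_left, Complex.add_re, Complex.conj_ofReal,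
    Complex.re_ofReal_mul, e]

theorem isSelfAdjoint_fd {x : H →L[ℂ] H} (hx : 0 ≤ x) {δ : ℝ} (hδ : 0 < δ) (a b : H) :
    ⟪fd δ x a, b⟫_ℂ = ⟪a, fd δ x b⟫_ℂ := by
  obtain ⟨w, h1, h2⟩ := exists_sol hx hδ a
  obtain ⟨w', h1', h2'⟩ := exists_sol hx hδ b
  rw [h2, h2']
  have e1 : ⟪x w, b⟫_ℂ = ⟪x w, w'⟫_ℂ + (δ : ℂ) * ⟪x w, x w'⟫_ℂ := by
    rw [h1', inner_add_right, inner_smul_right]
  have e2 : ⟪a, x w'⟫_ℂ = ⟪w, x w'⟫_ℂ + (δ : ℂ) * ⟪x w, x w'⟫_ℂ := by
    rw [h1, inner_add_left, inner_smul_left, Complex.conj_ofReal]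
  rw [e1, e2, inner_sa hx]

omit [CompleteSpace H] in
theorem le_of_re {S T : H →L[ℂ] H} (hS : ∀ a b, ⟪S a, b⟫_ℂ = ⟪a, S b⟫_ℂ)
    (hT : ∀ a b, ⟪T a, b⟫_ℂ = ⟪a, T b⟫_ℂ)
    (h : ∀ v, (⟪v, S v⟫_ℂ).re ≤ (⟪v, T v⟫_ℂ).re) : S ≤ T := by
  rw [ContinuousLinearMap.le_def]
  refine ⟨?_, fun v => ?_⟩
  · intro a b
    have e1 : ((T - S : H →L[ℂ] H) : H →ₗ[ℂ] H) a = T a - S a := rfl
    have e2 : ((T - S : H →L[ℂ] H) : H →ₗ[ℂ] H) b = T b - S b := rfl
    rw [e1, e2, inner_sub_left, inner_sub_right, hS, hT]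
  · have e1 : (T - S : H →L[ℂ] H).reApplyInnerSelf v = RCLike.re ⟪T v - S v, v⟫_ℂ := rfl
    rw [e1]
    have h1 := h v
    have e2 : RCLike.re ⟪T v - S v, v⟫_ℂ = (⟪v, T v⟫_ℂ).re - (⟪v, S v⟫_ℂ).re := by
      rw [inner_sub_left, map_sub, hT, hS]
      rfl
    rw [e2]
    linarith

end FdA

open FdA

/-- the minimizer of the quadratic functional (it is `u₀ = (1 + δ x)⁻¹ v`) -/
theorem fd_exact {x : H →L[ℂ] H} (hx : 0 ≤ x) {δ : ℝ} (hδ : 0 < δ) (v : H) :
    ∃ u₀, ∀ u, δ⁻¹ * ‖v - u‖ ^ 2 + (⟪u, x u⟫_ℂ).re =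
      (⟪v, fd δ x v⟫_ℂ).re + δ⁻¹ * ‖u - u₀‖ ^ 2 + (⟪u - u₀, x (u - u₀)⟫_ℂ).re := by
  obtain ⟨w, h1, h2⟩ := exists_sol hx hδ v
  refine ⟨w, fun u => ?_⟩
  rw [val_eq h1 h2]
  obtain ⟨h, rfl⟩ : ∃ h, u = w + h := ⟨u - w, by abel⟩
  have e0 : w + h - w = h := by abel
  have e1 : v - (w + h) = (δ : ℂ) • x w - h := by
    rw [h1]
    abel
  have e2 : ‖(δ : ℂ) • x w - h‖ ^ 2 = δ ^ 2 * ‖x w‖ ^ 2 - 2 * (δ * (⟪x w, h⟫_ℂ).re) + ‖h‖ ^ 2 := by
    rw [norm_sub_sq (𝕜 := ℂ), norm_smul, inner_smul_left, Complex.conj_ofReal]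
    have : RCLike.re ((δ : ℂ) * ⟪x w, h⟫_ℂ) = δ * (⟪x w, h⟫_ℂ).re := Complex.re_ofReal_mul _ _
    rw [this, Complex.norm_real, Real.norm_of_nonneg hδ.le, mul_pow]
  have e3 : (⟪w + h, x (w + h)⟫_ℂ).re =
      (⟪w, x w⟫_ℂ).re + 2 * (⟪x w, h⟫_ℂ).re + (⟪h, x h⟫_ℂ).re := by
    rw [map_add, inner_add_left, inner_add_right, inner_add_right]
    simp only [Complex.add_re]
    have a1 : (⟪w, x h⟫_ℂ).re = (⟪x w, h⟫_ℂ).re := by rw [inner_sa hx]
    have a2 : (⟪h, x w⟫_ℂ).re = (⟪x w, h⟫_ℂ).re := re_symm _ _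
    rw [a1, a2]
    ring
  rw [e0, e1, e2, e3]
  field_simp
  ring

theorem fd_var {x : H →L[ℂ] H} (hx : 0 ≤ x) {δ : ℝ} (hδ : 0 < δ) (v u : H) :
    (⟪v, fd δ x v⟫_ℂ).re ≤ δ⁻¹ * ‖v - u‖ ^ 2 + (⟪u, x u⟫_ℂ).re := by
  obtain ⟨w, hw⟩ := fd_exact hx hδ v
  rw [hw u]
  have h1 : 0 ≤ δ⁻¹ * ‖u - w‖ ^ 2 := by positivity
  have h2 := re_nonneg hx (u - w)
  linarith

theorem fd_attain {x : H →L[ℂ] H} (hx : 0 ≤ x) {δ : ℝ} (hδ : 0 < δ) (v : H) :
    ∃ u, δ⁻¹ * ‖v - u‖ ^ 2 + (⟪u, x u⟫_ℂ).re = (⟪v, fd δ x v⟫_ℂ).re := by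
  obtain ⟨w, hw⟩ := fd_exact hx hδ v
  refine ⟨w, ?_⟩
  rw [hw w]
  simp

theorem fd_nonneg {x : H →L[ℂ] H} (hx : 0 ≤ x) {δ : ℝ} (hδ : 0 < δ) : 0 ≤ fd δ x := by
  refine le_of_re (fun a b => by simp) (isSelfAdjoint_fd hx hδ) fun v => ?_
  obtain ⟨u, hu⟩ := fd_attain hx hδ v
  rw [← hu]
  have h2 := re_nonneg hx u
  have h1 : 0 ≤ δ⁻¹ * ‖v - u‖ ^ 2 := by positivity
  simp only [zero_apply, inner_zero_right, Complex.zero_re]
  linarith

theorem fd_le {x : H →L[ℂ] H} (hx : 0 ≤ x) {δ : ℝ} (hδ : 0 < δ) : fd δ x ≤ x := by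
  refine le_of_re (isSelfAdjoint_fd hx hδ) (inner_sa hx) fun v => ?_
  have := fd_var hx hδ v v
  simpa using this

theorem fd_mono {x y : H →L[ℂ] H} (hx : 0 ≤ x) (hxy : x ≤ y) {δ : ℝ} (hδ : 0 < δ) :
    fd δ x ≤ fd δ y := by
  have hy := hx.trans hxy
  refine le_of_re (isSelfAdjoint_fd hx hδ) (isSelfAdjoint_fd hy hδ) fun v => ?_
  obtain ⟨u, hu⟩ := fd_attain hy hδ v
  have h1 := fd_var hx hδ v u
  have h2 := re_nonneg (sub_nonneg.2 hxy) u
  rw [sub_apply, inner_sub_right, Complex.sub_re] at h2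
  linarith

theorem fd_anti {x : H →L[ℂ] H} (hx : 0 ≤ x) {δ δ' : ℝ} (hδ : 0 < δ) (h : δ ≤ δ') :
    fd δ' x ≤ fd δ x := by
  have hδ' := hδ.trans_le h
  refine le_of_re (isSelfAdjoint_fd hx hδ') (isSelfAdjoint_fd hx hδ) fun v => ?_
  obtain ⟨u, hu⟩ := fd_attain hx hδ v
  have h1 := fd_var hx hδ' v u
  have h2 : δ'⁻¹ * ‖v - u‖ ^ 2 ≤ δ⁻¹ * ‖v - u‖ ^ 2 :=
    mul_le_mul_of_nonneg_right (inv_anti₀ hδ h) (by positivity)
  linarith

theorem fd_mem {N : VonNeumannAlgebra H} {x : H →L[ℂ] H} (hN : x ∈ N) (hx : 0 ≤ x) {δ : ℝ}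
    (hδ : 0 < δ) : fd δ x ∈ N := by
  have hu := isUnit_one_add hx hδ
  set A : H →L[ℂ] H := 1 + (δ : ℂ) • x with hA
  have hAinv : Ring.inverse A ∈ N := by
    rw [← VonNeumannAlgebra.commutant_commutant N, VonNeumannAlgebra.mem_commutant_iff]
    intro z hz
    have hzx : x * z = z * x := (VonNeumannAlgebra.mem_commutant_iff.1 hz) x hN
    have hzA : A * z = z * A := by
      rw [hA, add_mul, mul_add, one_mul, mul_one, smul_mul_assoc, mul_smul_comm, hzx]
    have i1 := Ring.mul_inverse_cancel _ hu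
    have i2 := Ring.inverse_mul_cancel _ hu
    calc z * Ring.inverse A = Ring.inverse A * A * z * Ring.inverse A := by rw [i2, one_mul]
      _ = Ring.inverse A * (z * (A * Ring.inverse A)) := by
          rw [mul_assoc (Ring.inverse A) A z, hzA]
          simp only [mul_assoc]
      _ = Ring.inverse A * z := by rw [i1, mul_one]
  exact mul_mem hN hAinv

theorem fd_lub {x : H →L[ℂ] H} (hx : 0 ≤ x) (v : H) :
    IsLUB (Set.range fun n : ℕ => (⟪v, fd (1 / ((n : ℝ) + 1)) x v⟫_ℂ).re) (⟪v, x v⟫_ℂ).re := by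
  constructor
  · rintro _ ⟨n, rfl⟩
    have hδ : (0 : ℝ) < 1 / ((n : ℝ) + 1) := by positivity
    have := fd_var hx hδ v v
    simpa using this
  · intro b hb
    have key : ∀ n : ℕ, (⟪v, x v⟫_ℂ).re ≤ b + (1 / ((n : ℝ) + 1)) * ‖x v‖ ^ 2 := by
      intro n
      set δ : ℝ := 1 / ((n : ℝ) + 1) with hδd
      have hδ : 0 < δ := by positivity
      have hbn : (⟪v, fd δ x v⟫_ℂ).re ≤ b := hb ⟨n, rfl⟩
      obtain ⟨w, h1, h2⟩ := exists_sol hx hδ v
      have e1 : ‖x w‖ ^ 2 ≤ ‖x v‖ ^ 2 := by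
        have a1 : x v = x w + (δ : ℂ) • x (x w) := by
          conv_lhs => rw [h1]
          rw [map_add, map_smul]
        rw [a1, norm_add_sq (𝕜 := ℂ), inner_smul_right]
        have a2 : RCLike.re ((δ : ℂ) * ⟪x w, x (x w)⟫_ℂ) = δ * (⟪x w, x (x w)⟫_ℂ).re :=
          Complex.re_ofReal_mul _ _
        rw [a2]
        have a3 := re_nonneg hx (x w)
        have a4 : 0 ≤ δ * (⟪x w, x (x w)⟫_ℂ).re := mul_nonneg hδ.le a3
        have a5 : 0 ≤ ‖(δ : ℂ) • x (x w)‖ ^ 2 := by positivity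
        linarith
      have e2 : (⟪v, x v⟫_ℂ).re = (⟪v, fd δ x v⟫_ℂ).re + δ * (⟪x v, x w⟫_ℂ).re := by
        have b1 : x v = x w + (δ : ℂ) • x (x w) := by
          conv_lhs => rw [h1]
          rw [map_add, map_smul]
        have b2 : ⟪v, x v⟫_ℂ = ⟪v, x w⟫_ℂ + (δ : ℂ) * ⟪v, x (x w)⟫_ℂ := by
          conv_lhs => rw [b1]
          rw [inner_add_right, inner_smul_right]
        rw [b2, h2, Complex.add_re, Complex.re_ofReal_mul, ← inner_sa hx v (x w)]
      have e3 : (⟪x v, x w⟫_ℂ).re ≤ ‖x v‖ * ‖x w‖ :=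
        (Complex.re_le_norm _).trans (norm_inner_le_norm _ _)
      have e4 : ‖x v‖ * ‖x w‖ ≤ ‖x v‖ ^ 2 := by
        have : ‖x w‖ ≤ ‖x v‖ := by
          exact (pow_le_pow_iff_left₀ (norm_nonneg _) (norm_nonneg _) two_ne_zero).1 e1
        rw [sq]
        exact mul_le_mul_of_nonneg_left this (norm_nonneg _)
      rw [e2]
      have e5 : δ * (⟪x v, x w⟫_ℂ).re ≤ δ * ‖x v‖ ^ 2 :=
        mul_le_mul_of_nonneg_left (e3.trans e4) hδ.le
      linarith
    have hlim : Tendsto (fun n : ℕ => b + (1 / ((n : ℝ) + 1)) * ‖x v‖ ^ 2) atTop (𝓝 b) := by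
      have h1 := (tendsto_one_div_add_atTop_nhds_zero_nat (𝕜 := ℝ)).mul_const (‖x v‖ ^ 2)
      have h2 := h1.const_add b
      simpa using h2
    exact ge_of_tendsto' hlim key

end Pool.Agent.Helper23.ED

end

section

open scoped InnerProductSpace Topology ENNReal BoundedContinuousFunction

open ContinuousLinearMap Filter MeasureTheory

namespace Pool.Agent.Helper23.ED

open Pool.Agent.Helper23 Pool.Agent.Helper23.RBF

universe u

variable {H : Type*} [NormedAddCommGroup H] [InnerProductSpace ℂ H] [CompleteSpace H]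

theorem fd_min {w : ℕ → H →L[ℂ] H} (hw : ∀ n, 0 ≤ w n) (hm : Monotone w) {δ : ℝ} (hδ : 0 < δ)
    (v : H) : ∃ u, BddAbove (Set.range fun n => (⟪u, w n u⟫_ℂ).re) ∧
      δ⁻¹ * ‖v - u‖ ^ 2 + ⨆ n, (⟪u, w n u⟫_ℂ).re ≤ ⨆ n, (⟪v, fd δ (w n) v⟫_ℂ).re := by
  have hδi : 0 < δ⁻¹ := inv_pos.2 hδ
  choose u hu using fun n => fd_exact (hw n) hδ v
  set f : ℕ → ℝ := fun n => (⟪v, fd δ (w n) v⟫_ℂ).re with hf
  have hfb : ∀ n, f n ≤ δ⁻¹ * ‖v‖ ^ 2 := by
    intro n
    have := fd_var (hw n) hδ v 0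
    simpa using this
  have hfB : BddAbove (Set.range f) := ⟨_, by rintro _ ⟨n, rfl⟩; exact hfb n⟩
  have hat : ∀ n, δ⁻¹ * ‖v - u n‖ ^ 2 + (⟪u n, w n (u n)⟫_ℂ).re = f n := by
    intro n
    have := hu n (u n)
    simpa using this
  have hmid : ∀ m n, m ≤ n → f m + δ⁻¹ * ‖u n - u m‖ ^ 2 ≤
      δ⁻¹ * ‖v - u n‖ ^ 2 + (⟪u n, w m (u n)⟫_ℂ).re := by
    intro m n _
    have h1 := hu m (u n)
    have h2 := re_inner_nonneg (hw m) (u n - u m)
    linarith
  have hmid2 : ∀ m n, m ≤ n →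
      δ⁻¹ * ‖v - u n‖ ^ 2 + (⟪u n, w m (u n)⟫_ℂ).re ≤ f n := by
    intro m n hmn
    have h1 := hat n
    have h2 := le_re_inner (hm hmn) (u n)
    linarith
  have hfm : Monotone f := by
    intro m n hmn
    have h1 := hmid m n hmn
    have h2 := hmid2 m n hmn
    have h3 : 0 ≤ δ⁻¹ * ‖u n - u m‖ ^ 2 := by positivity
    linarith
  have hft : Tendsto f atTop (𝓝 (⨆ n, f n)) := tendsto_atTop_ciSup hfm hfB
  have hcau : CauchySeq u := by
    rw [Metric.cauchySeq_iff']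
    intro ε hε
    have h1 := hft.cauchySeq
    rw [Metric.cauchySeq_iff'] at h1
    obtain ⟨N, hN⟩ := h1 (δ⁻¹ * ε ^ 2) (by positivity)
    refine ⟨N, fun n hn => ?_⟩
    have h2 := hN n hn
    rw [Real.dist_eq, abs_lt] at h2
    have h3 := hmid N n hn
    have h4 := hmid2 N n hn
    rw [dist_eq_norm]
    have h5 : δ⁻¹ * ‖u n - u N‖ ^ 2 < δ⁻¹ * ε ^ 2 := by linarith [h2.2]
    have h6 : ‖u n - u N‖ ^ 2 < ε ^ 2 := lt_of_mul_lt_mul_left h5 hδi.le
    exact lt_of_pow_lt_pow_left₀ 2 hε.le h6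
  obtain ⟨u₀, hu₀⟩ := cauchySeq_tendsto_of_complete hcau
  have hkey : ∀ m, δ⁻¹ * ‖v - u₀‖ ^ 2 + (⟪u₀, w m u₀⟫_ℂ).re ≤ ⨆ n, f n := by
    intro m
    have h1 : Tendsto (fun n => δ⁻¹ * ‖v - u n‖ ^ 2 + (⟪u n, w m (u n)⟫_ℂ).re) atTop
        (𝓝 (δ⁻¹ * ‖v - u₀‖ ^ 2 + (⟪u₀, w m u₀⟫_ℂ).re)) := by
      refine Tendsto.add ?_ ?_
      · exact (((tendsto_const_nhds.sub hu₀).norm).pow 2).const_mul _
      · exact (Complex.continuous_re.tendsto _).comp
          (hu₀.inner (((w m).continuous.tendsto u₀).comp hu₀))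
    refine le_of_tendsto_of_tendsto h1 hft ?_
    filter_upwards [eventually_ge_atTop m] with n hn
    exact hmid2 m n hn
  refine ⟨u₀, ⟨(⨆ n, f n) - δ⁻¹ * ‖v - u₀‖ ^ 2, ?_⟩, ?_⟩
  · rintro _ ⟨m, rfl⟩
    have := hkey m
    change (⟪u₀, w m u₀⟫_ℂ).re ≤ _
    linarith
  · have h1 : ⨆ n, (⟪u₀, w n u₀⟫_ℂ).re ≤ (⨆ n, f n) - δ⁻¹ * ‖v - u₀‖ ^ 2 :=
      ciSup_le fun m => by
        have := hkey m
        linarith
    linarith

end Pool.Agent.Helper23.ED

end
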