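import Pool.Agent.Helper23.FA.Ns

/-!
Parts of Helper43.TTF.A, Helper43.TTF.B, Helper43.TTF.C, Helper70.U8, Helper75.UDom, Helper72.UPow.Near, Helper88.CS.Triple, Helper88.CS.Polar, Helper23.ED.GgE
-/

section

open scoped InnerProductSpace Topology BoundedContinuousFunction

open ContinuousLinearMap Filter MeasureTheory

namespace Pool.Agent.Helper43.TTF

open Pool.Agent.Helper23

variable {H : Type*} [NormedAddCommGroup H] [InnerProductSpace ℂ H] [CompleteSpace H]

/-- composition with `ρ ↦ -ρ` -/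
noncomputable def refl : (ℝ →ᵇ ℂ) →⋆ₐ[ℂ] (ℝ →ᵇ ℂ) where
  toFun G := G.compContinuous ⟨fun ρ => -ρ, continuous_neg⟩
  map_one' := by ext; simp
  map_mul' _ _ := by ext; simp
  map_zero' := by ext; simp
  map_add' _ _ := by ext; simp
  commutes' _ := by ext; simp
  map_star' _ := by ext; simp

@[simp] lemma refl_apply (G : ℝ →ᵇ ℂ) (ρ : ℝ) : refl G ρ = G (-ρ) := rfl

lemma refl_norm (G : ℝ →ᵇ ℂ) : ‖refl G‖ ≤ ‖G‖ := by
  rw [BoundedContinuousFunction.norm_le (norm_nonneg _)]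
  intro ρ
  exact G.norm_coe_le_norm _

/-- the function `1 / cosh (ρ / 2)` -/
noncomputable def FT : ℝ →ᵇ ℂ :=
  BoundedContinuousFunction.ofNormedAddCommGroup
    (fun ρ : ℝ => (((Real.cosh (ρ / 2))⁻¹ : ℝ) : ℂ))
    (by
      refine Complex.continuous_ofReal.comp (Continuous.inv₀ (by fun_prop) ?_)
      intro ρ
      exact (Real.cosh_pos _).ne') 1 (by
      intro ρ
      rw [Complex.norm_real, Real.norm_of_nonneg (by positivity [Real.cosh_pos (ρ / 2)])]
      exact inv_le_one_of_one_le₀ (Real.one_le_cosh _))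

@[simp] lemma FT_apply (ρ : ℝ) : FT ρ = (((Real.cosh (ρ / 2))⁻¹ : ℝ) : ℂ) := rfl

lemma FT_star : star FT = FT := by
  ext ρ
  rw [BoundedContinuousFunction.star_apply, FT_apply]
  exact Complex.conj_ofReal _

end Pool.Agent.Helper43.TTF

end

section

open scoped InnerProductSpace Topology BoundedContinuousFunction

open ContinuousLinearMap Filter MeasureTheory

namespace Pool.Agent.Helper43.TTF

open Pool.Agent.Helper23

variable {H : Type*} [NormedAddCommGroup H] [InnerProductSpace ℂ H] [CompleteSpace H]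

lemma one_bcf (ρ : ℝ) : (1 : ℝ →ᵇ ℂ) ρ = 1 := rfl

end Pool.Agent.Helper43.TTF

end

section

open scoped InnerProductSpace Topology BoundedContinuousFunction

open ContinuousLinearMap Filter MeasureTheory

namespace Pool.Agent.Helper43.TTF

open Pool.Agent.Helper23

variable {H : Type*} [NormedAddCommGroup H] [InnerProductSpace ℂ H] [CompleteSpace H]

/-- properties of the modular conjugation `J` -/
structure JD (D : H →L[ℝ] H) (Ψ : (ℝ →ᵇ ℂ) →⋆ₐ[ℂ] (H →L[ℂ] H)) (J : H →L[ℝ] H) : Prop where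
  J_T : ∀ v, J (Ψ FT v) = D v
  T_J : ∀ v, Ψ FT (J v) = D v
  J_J : ∀ v, J (J v) = v
  J_conj : ∀ (c : ℂ) (v : H), J (c • v) = (starRingEnd ℂ) c • J v
  J_norm : ∀ v, ‖J v‖ = ‖v‖

variable {A : VonNeumannAlgebra H} {ξ : H}

variable {R : H →L[ℂ] H} {D : H →L[ℝ] H} {Ψ : (ℝ →ᵇ ℂ) →⋆ₐ[ℂ] (H →L[ℂ] H)}

lemma JD.symm {J : H →L[ℝ] H} (h : JD D Ψ J) : JD D (Ψ.comp refl) J := by
  have h1 : refl FT = FT := by
    ext ρ
    rw [refl_apply, FT_apply, FT_apply, neg_div, Real.cosh_neg]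
  have h2 : (Ψ.comp refl) FT = Ψ FT := by
    rw [StarAlgHom.comp_apply, h1]
  refine ⟨?_, ?_, h.J_J, h.J_conj, h.J_norm⟩
  · intro v
    rw [h2, h.J_T]
  · intro v
    rw [h2, h.T_J]

lemma JD.J_add_inner {J : H →L[ℝ] H} (h : JD D Ψ J) (v w : H) : ⟪J v, J w⟫_ℂ = ⟪w, v⟫_ℂ := by
  have hre : ∀ a b : H, (⟪J a, J b⟫_ℂ).re = (⟪a, b⟫_ℂ).re := by
    intro a b
    have h1 := h.J_norm (a + b)
    rw [map_add] at h1
    have h2 := @norm_add_sq ℂ H _ _ _ (J a) (J b)
    have h3 := @norm_add_sq ℂ H _ _ _ a b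
    rw [h1, h.J_norm, h.J_norm, h3] at h2
    simp only [RCLike.re_to_complex] at h2
    linarith
  apply Complex.ext
  · rw [hre, ← inner_conj_symm, Complex.conj_re]
  · have h1 := hre (Complex.I • v) w
    rw [h.J_conj, inner_smul_left, inner_smul_left, Complex.conj_I] at h1
    simp only [Complex.conj_I, map_neg, neg_neg, Complex.mul_re, Complex.I_re, Complex.I_im,
      Complex.neg_re, Complex.neg_im, zero_mul, one_mul, zero_sub, neg_zero, neg_neg] at h1
    have h2 : (⟪w, v⟫_ℂ).im = -(⟪v, w⟫_ℂ).im := by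
      rw [← inner_conj_symm, Complex.conj_im]
    rw [h2]
    linarith

/-- the operator `J x J` -/
noncomputable def JD.cj {J : H →L[ℝ] H} (h : JD D Ψ J) (x : H →L[ℂ] H) : H →L[ℂ] H :=
  LinearMap.mkContinuous
    { toFun := fun v => J (x (J v))
      map_add' := by intro v w; simp only [map_add]
      map_smul' := by
        intro c v
        rw [h.J_conj, map_smul, h.J_conj, Complex.conj_conj, RingHom.id_apply] } ‖x‖
    (by
      intro v
      change ‖J (x (J v))‖ ≤ _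
      rw [h.J_norm]
      refine (x.le_opNorm _).trans ?_
      rw [h.J_norm])

lemma JD.cj_apply {J : H →L[ℝ] H} (h : JD D Ψ J) (x : H →L[ℂ] H) (v : H) :
    h.cj x v = J (x (J v)) := rfl

lemma JD.cj_cj {J : H →L[ℝ] H} (h : JD D Ψ J) (x : H →L[ℂ] H) : h.cj (h.cj x) = x := by
  ext v
  rw [h.cj_apply, h.cj_apply, h.J_J, h.J_J]

lemma JD.T_cj_T {J : H →L[ℝ] H} (h : JD D Ψ J) (x : H →L[ℂ] H) (v : H) :
    Ψ FT (h.cj x (Ψ FT v)) = D (x (D v)) := by
  rw [h.cj_apply, h.T_J, h.J_T]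

end Pool.Agent.Helper43.TTF

end

section

open scoped InnerProductSpace Topology BoundedContinuousFunction

open ContinuousLinearMap Filter MeasureTheory

namespace Pool.Agent.Helper70.U8

open Pool.Agent.Helper23

variable {H : Type*} [NormedAddCommGroup H] [InnerProductSpace ℂ H] [CompleteSpace H]

variable {A : VonNeumannAlgebra H} {ξ : H} {R : H →L[ℂ] H} {D : H →L[ℝ] H}
  {Ψ : (ℝ →ᵇ ℂ) →⋆ₐ[ℂ] (H →L[ℂ] H)} {J : H →L[ℝ] H}

open Pool.Agent.Helper43.TTF (JD FT FT_apply)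

lemma cj_norm (hJ : JD D Ψ J) (x : H →L[ℂ] H) : ‖hJ.cj x‖ ≤ ‖x‖ := by
  refine ContinuousLinearMap.opNorm_le_bound _ (norm_nonneg _) fun v => ?_
  rw [hJ.cj_apply, hJ.J_norm]
  refine (x.le_opNorm _).trans ?_
  rw [hJ.J_norm]

end Pool.Agent.Helper70.U8

end

section

open scoped InnerProductSpace ComplexOrder ComplexStarModule

open ContinuousLinearMap

namespace Pool.Agent.Helper23

variable {H : Type*} [NormedAddCommGroup H] [InnerProductSpace ℂ H] [CompleteSpace H]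

section Jordan

variable {A : Type*} [CStarAlgebra A] [PartialOrder A] [StarOrderedRing A]

/-- A one-sided form of the Jordan decomposition. -/
theorem exists_jordan_one [Nontrivial A]
    (ψ : selfAdjoint A →ₗ[ℝ] ℝ) {δ : ℝ} (hδ : ∀ x : selfAdjoint A, 0 ≤ (x : A) → ψ x ≤ δ * ‖x‖)
    (hδ0 : 0 ≤ δ) :
    ∃ κ : selfAdjoint A →ₗ[ℝ] ℝ, (∀ x : selfAdjoint A, 0 ≤ (x : A) → 0 ≤ κ x) ∧
      (∀ x : selfAdjoint A, 0 ≤ (x : A) → ψ x ≤ κ x) ∧ κ 1 ≤ δ := by
  let V := selfAdjoint A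
  let L : (V × ℝ) →ₗ[ℝ] (V × V) :=
    { toFun := fun p => (p.1 + p.2 • (1 : V), -p.1)
      map_add' := by
        intro p q
        ext <;> simp [add_smul] <;> abel
      map_smul' := by
        intro c p
        ext <;> simp [smul_add, mul_smul] }
  have hLinj : Function.Injective L := by
    rw [← LinearMap.ker_eq_bot, LinearMap.ker_eq_bot']
    rintro ⟨x, t⟩ h
    have h1 : x + t • (1 : V) = 0 := congrArg Prod.fst h
    have h2 : -x = 0 := congrArg Prod.snd h
    have hx : x = 0 := neg_eq_zero.1 h2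
    subst hx
    rw [zero_add] at h1
    have h5 : (t • (1 : A)) = 0 := congrArg (fun v : V => (v : A)) h1
    have h4 : t = 0 := by
      rcases smul_eq_zero.1 h5 with h | h
      · exact h
      · exact absurd h one_ne_zero
    rw [h4]; rfl
  let e := LinearEquiv.ofInjective L hLinj
  let g₀ : (V × ℝ) →ₗ[ℝ] ℝ := ψ.comp (LinearMap.fst ℝ V ℝ) + δ • LinearMap.snd ℝ V ℝ
  have hg₀ : ∀ x t, g₀ (x, t) = ψ x + δ * t := by
    intro x t
    simp [g₀]
  let f : (V × V) →ₗ.[ℝ] ℝ := ⟨LinearMap.range L, g₀.comp e.symm.toLinearMap⟩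
  have hf : ∀ x t, f ⟨L (x, t), ⟨(x, t), rfl⟩⟩ = ψ x + δ * t := by
    intro x t
    have h1 : e (x, t) = ⟨L (x, t), ⟨(x, t), rfl⟩⟩ := by
      apply Subtype.ext
      exact LinearEquiv.ofInjective_apply (f := L) (h := hLinj) _
    change g₀ (e.symm ⟨L (x, t), ⟨(x, t), rfl⟩⟩) = _
    rw [← h1, LinearEquiv.symm_apply_apply, hg₀]
  let s : PointedCone ℝ (V × V) :=
    { carrier := {p | 0 ≤ (p.1 : A) ∧ 0 ≤ (p.2 : A)}
      add_mem' := by
        rintro p q ⟨h1, h2⟩ ⟨h3, h4⟩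
        exact ⟨add_nonneg h1 h3, add_nonneg h2 h4⟩
      zero_mem' := ⟨le_rfl, le_rfl⟩
      smul_mem' := by
        rintro c p ⟨h1, h2⟩
        exact ⟨smul_nonneg c.2 h1, smul_nonneg c.2 h2⟩ }
  have hs : ∀ p : V × V, p ∈ s ↔ 0 ≤ (p.1 : A) ∧ 0 ≤ (p.2 : A) := fun p => Iff.rfl
  have hnn : ∀ a : V, 0 ≤ ‖(a : A)‖ • (1 : A) + (a : A) := by
    intro a
    have h1 := IsSelfAdjoint.neg_algebraMap_norm_le_self (a := (a : A)) a.2
    have := add_le_add_left h1 (algebraMap ℝ A ‖(a : A)‖)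
    rw [Algebra.algebraMap_eq_smul_one] at this
    simpa [add_comm] using this
  obtain ⟨g, hgf, hgs⟩ := riesz_extension s f (by
    rintro ⟨_, ⟨⟨x, t⟩, rfl⟩⟩ hx
    rw [hf]
    obtain ⟨h1, h2⟩ := (hs _).1 hx
    change 0 ≤ (x : A) + t • (1 : A) at h1
    change 0 ≤ -(x : A) at h2
    have h0 := add_nonneg h1 h2
    rw [add_neg_cancel_comm] at h0
    have ht : 0 ≤ t := by
      by_contra hneg
      have h3 : t • (1 : A) ≤ 0 :=
        smul_nonpos_of_nonpos_of_nonneg (not_le.1 hneg).le zero_le_one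
      have h4 := le_antisymm h3 h0
      rcases smul_eq_zero.1 h4 with h | h
      · exact hneg h.ge
      · exact absurd h one_ne_zero
    have h5 : -(x : A) ≤ algebraMap ℝ A t := by
      rw [Algebra.algebraMap_eq_smul_one]
      have := add_le_add_left h1 (-(x : A))
      simpa [add_comm, add_assoc] using this
    have h6 : ‖-(x : A)‖ ≤ t :=
      (CStarAlgebra.norm_le_iff_le_algebraMap _ ht h2).2 h5
    have h9 := hδ (-x) h2
    have h10 : ‖(-x : V)‖ = ‖-(x : A)‖ := rfl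
    rw [h10, map_neg] at h9
    have h11 : δ * ‖-(x : A)‖ ≤ δ * t := mul_le_mul_of_nonneg_left h6 hδ0
    linarith) (by
    rintro ⟨a, b⟩
    refine ⟨⟨L (-(‖(b : A)‖ • (1 : V)), ‖(a : A)‖ + ‖(b : A)‖),
      ⟨(-(‖(b : A)‖ • (1 : V)), ‖(a : A)‖ + ‖(b : A)‖), rfl⟩⟩, (hs _).2 ⟨?_, ?_⟩⟩
    · change 0 ≤ -(‖(b : A)‖ • (1 : A)) + (‖(a : A)‖ + ‖(b : A)‖) • (1 : A) + (a : A)
      have h1 := hnn a
      have e1 : -(‖(b : A)‖ • (1 : A)) + (‖(a : A)‖ + ‖(b : A)‖) • (1 : A) + (a : A) =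
          ‖(a : A)‖ • (1 : A) + (a : A) := by
        rw [add_smul]; abel
      rw [e1]; exact h1
    · change 0 ≤ -(-(‖(b : A)‖ • (1 : A))) + (b : A)
      rw [neg_neg]
      exact hnn b)
  have hκpos : ∀ x : V, 0 ≤ (x : A) → 0 ≤ g (x, 0) := fun x hx => hgs _ ((hs _).2 ⟨hx, le_rfl⟩)
  have hκ2pos : ∀ x : V, 0 ≤ (x : A) → 0 ≤ g (0, x) := fun x hx => hgs _ ((hs _).2 ⟨le_rfl, hx⟩)
  have hdiff : ∀ x : V, g (x, 0) - g (0, x) = ψ x := by
    intro x
    have h1 := hgf ⟨L (x, 0), ⟨(x, 0), rfl⟩⟩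
    rw [hf] at h1
    have h2 : (L (x, 0) : V × V) = (x, 0) - (0, x) := by
      ext <;> simp [L]
    change g (L (x, 0)) = _ at h1
    rw [h2, map_sub] at h1
    linarith
  have hsum : g (1, 0) = δ := by
    have h1 := hgf ⟨L (0, 1), ⟨(0, 1), rfl⟩⟩
    rw [hf] at h1
    have h2 : (L (0, 1) : V × V) = (1, 0) := by
      ext <;> simp [L]
    change g (L (0, 1)) = _ at h1
    rw [h2, map_zero] at h1
    linarith
  refine ⟨g.comp (LinearMap.inl ℝ V V), fun x hx => hκpos x hx, fun x hx => ?_, ?_⟩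
  · have h1 := hdiff x
    have h2 := hκ2pos x hx
    change ψ x ≤ g (x, 0)
    linarith
  · change g (1, 0) ≤ δ
    exact hsum.le

end Jordan

end Pool.Agent.Helper23

end

section

open scoped InnerProductSpace Topology BoundedContinuousFunction ComplexOrder

open ContinuousLinearMap Filter

namespace Pool.Agent.Helper23

variable {H : Type*} [NormedAddCommGroup H] [InnerProductSpace ℂ H] [CompleteSpace H]

variable {M N : VonNeumannAlgebra H} {ξ : H} {E : (H →L[ℂ] H) → (H →L[ℂ] H)}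

/-- a self-adjoint element of norm at most one is at most `1`; square root of the difference. -/
lemma exists_sqrt_one_sub {A : Type*} [CStarAlgebra A] {α : A} (hα : IsSelfAdjoint α)
    (h1 : ‖α‖ ≤ 1) : ∃ b : A, 1 - α = star b * b := by
  let _ : PartialOrder A := CStarAlgebra.spectralOrder _
  let _ : StarOrderedRing A := CStarAlgebra.spectralOrderedRing _
  refine CStarAlgebra.nonneg_iff_eq_star_mul_self.1 ?_
  rw [sub_nonneg]
  refine (IsSelfAdjoint.le_algebraMap_norm_self (a := α) hα).trans ?_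
  rw [Algebra.algebraMap_eq_smul_one]
  calc ‖α‖ • (1 : A) ≤ (1 : ℝ) • (1 : A) := smul_le_smul_of_nonneg_right h1 zero_le_one
    _ = 1 := one_smul _ _

end Pool.Agent.Helper23

end

section

open scoped InnerProductSpace Topology BoundedContinuousFunction

open ContinuousLinearMap Filter MeasureTheory

namespace Pool.Agent.Helper88.CS

open Pool.Agent.Helper23

variable {H : Type*} [NormedAddCommGroup H] [InnerProductSpace ℂ H] [CompleteSpace H]

namespace TripleAux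

theorem shear : MeasurePreserving
    (fun z : ℝ × (ℝ × ℝ) => (z.1, ((z.2.1 - z.1, z.2.2 - z.1) : ℝ × ℝ)))
    ((volume : Measure ℝ).prod ((volume : Measure ℝ).prod (volume : Measure ℝ)))
    ((volume : Measure ℝ).prod ((volume : Measure ℝ).prod (volume : Measure ℝ))) := by
  have h := MeasurePreserving.skew_product (μa := (volume : Measure ℝ)) (μb := (volume : Measure ℝ))
    (μc := (volume : Measure ℝ).prod (volume : Measure ℝ))
    (μd := (volume : Measure ℝ).prod (volume : Measure ℝ))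
    (f := fun r : ℝ => r) (MeasurePreserving.id _)
    (g := fun r (q : ℝ × ℝ) => ((q.1 - r, q.2 - r) : ℝ × ℝ))
    (by
      show Measurable (fun z : ℝ × (ℝ × ℝ) => ((z.2.1 - z.1, z.2.2 - z.1) : ℝ × ℝ))
      fun_prop)
    (Eventually.of_forall fun r => by
      have := (measurePreserving_sub_right (volume : Measure ℝ) r).prod
        (measurePreserving_sub_right (volume : Measure ℝ) r)
      exact this.map_eq)
  exact h

theorem integrable3 {h k l : ℝ → ℂ} (hh : Integrable h) (hk : Integrable k) (hl : Integrable l)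
    {Φ : ℝ → ℝ → ℂ} (hΦ : Continuous fun p : ℝ × ℝ => Φ p.1 p.2) {C : ℝ}
    (hC : ∀ t s, ‖Φ t s‖ ≤ C) :
    Integrable (fun z : ℝ × (ℝ × ℝ) =>
      h z.1 * (k (z.2.1 - z.1) * (l (z.2.2 - z.1) * Φ z.2.1 z.2.2)))
      ((volume : Measure ℝ).prod ((volume : Measure ℝ).prod (volume : Measure ℝ))) := by
  have h1 : Integrable (fun z : ℝ × (ℝ × ℝ) => h z.1 * (k z.2.1 * l z.2.2))
      ((volume : Measure ℝ).prod ((volume : Measure ℝ).prod (volume : Measure ℝ))) :=
    hh.mul_prod (hk.mul_prod hl)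
  have h2 := (shear.integrable_comp h1.aestronglyMeasurable).2 h1
  have h3 := h2.mul_bdd (c := C) (g := fun z : ℝ × (ℝ × ℝ) => Φ z.2.1 z.2.2)
    (hΦ.comp continuous_snd).aestronglyMeasurable
    (Eventually.of_forall fun z => hC _ _)
  refine h3.congr (Eventually.of_forall fun z => ?_)
  simp only [Function.comp]
  ring

theorem core {h k l : ℝ → ℂ} (hh : Integrable h) (hk : Integrable k) (hl : Integrable l)
    (hid : ∀ t s, ∫ r, h r * (k (t - r) * l (s - r)) = k t * l s)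
    {Φ : ℝ → ℝ → ℂ} (hΦ : Continuous fun p : ℝ × ℝ => Φ p.1 p.2) {C : ℝ}
    (hC : ∀ t s, ‖Φ t s‖ ≤ C) :
    ∫ r, h r * ∫ t, k t * ∫ s, l s * Φ (t + r) (s + r) = ∫ t, k t * ∫ s, l s * Φ t s := by
  have hI := integrable3 hh hk hl hΦ hC
  -- integrability on the plane
  have hP : ∀ r : ℝ, Integrable (fun q : ℝ × ℝ => k (q.1 - r) * (l (q.2 - r) * Φ q.1 q.2))
      ((volume : Measure ℝ).prod (volume : Measure ℝ)) := by
    intro r
    have h1 : Integrable (fun q : ℝ × ℝ => k (q.1 - r) * l (q.2 - r))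
        ((volume : Measure ℝ).prod (volume : Measure ℝ)) :=
      (hk.comp_sub_right r).mul_prod (hl.comp_sub_right r)
    have h3 := h1.mul_bdd (c := C) (g := fun q : ℝ × ℝ => Φ q.1 q.2)
      hΦ.aestronglyMeasurable (Eventually.of_forall fun z => hC _ _)
    refine h3.congr (Eventually.of_forall fun z => ?_)
    simp only
    ring
  have hprod : ∀ r : ℝ, ∫ q, k (q.1 - r) * (l (q.2 - r) * Φ q.1 q.2)
      ∂((volume : Measure ℝ).prod (volume : Measure ℝ)) =
      ∫ t, k (t - r) * ∫ s, l (s - r) * Φ t s := by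
    intro r
    rw [integral_prod _ (hP r)]
    refine integral_congr_ae (Eventually.of_forall fun t => ?_)
    simp only
    exact integral_const_mul _ _
  have htr : ∀ r : ℝ, ∫ t, k t * ∫ s, l s * Φ (t + r) (s + r) =
      ∫ t, k (t - r) * ∫ s, l (s - r) * Φ t s := by
    intro r
    rw [← integral_add_right_eq_self (fun t => k (t - r) * ∫ s, l (s - r) * Φ t s) r]
    refine integral_congr_ae (Eventually.of_forall fun t => ?_)
    simp only [add_sub_cancel_right]
    congr 1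
    rw [← integral_add_right_eq_self (fun s => l (s - r) * Φ (t + r) s) r]
    simp only [add_sub_cancel_right]
  calc ∫ r, h r * ∫ t, k t * ∫ s, l s * Φ (t + r) (s + r)
      = ∫ r, ∫ q : ℝ × ℝ, h r * (k (q.1 - r) * (l (q.2 - r) * Φ q.1 q.2))
          ∂((volume : Measure ℝ).prod (volume : Measure ℝ)) := by
        refine integral_congr_ae (Eventually.of_forall fun r => ?_)
        simp only
        rw [htr r, ← hprod r, integral_const_mul]
    _ = ∫ q : ℝ × ℝ, (∫ r, h r * (k (q.1 - r) * (l (q.2 - r) * Φ q.1 q.2)))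
          ∂((volume : Measure ℝ).prod (volume : Measure ℝ)) :=
        integral_integral_swap hI
    _ = ∫ q : ℝ × ℝ, k (q.1 - 0) * (l (q.2 - 0) * Φ q.1 q.2)
          ∂((volume : Measure ℝ).prod (volume : Measure ℝ)) := by
        refine integral_congr_ae (Eventually.of_forall fun q => ?_)
        simp only [sub_zero]
        have h1 : ∀ r, h r * (k (q.1 - r) * (l (q.2 - r) * Φ q.1 q.2)) =
            (h r * (k (q.1 - r) * l (q.2 - r))) * Φ q.1 q.2 := fun r => by ring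
        simp only [h1]
        rw [integral_mul_const, hid]
        ring
    _ = ∫ t, k t * ∫ s, l s * Φ t s := by
        rw [hprod 0]
        simp only [sub_zero]

end TripleAux

end Pool.Agent.Helper88.CS

end

section

open scoped InnerProductSpace Topology BoundedContinuousFunction

open ContinuousLinearMap Filter MeasureTheory

namespace Pool.Agent.Helper88.CS

open Pool.Agent.Helper23

set_option linter.unusedSectionVars false

set_option linter.unusedVariables false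

variable {H : Type*} [NormedAddCommGroup H] [InnerProductSpace ℂ H] [CompleteSpace H]

variable {A : VonNeumannAlgebra H}

open PolarAux

namespace PolarAux

theorem abs_star' (a : H →L[ℂ] H) : star (CFC.abs a) = CFC.abs a :=
  (CFC.abs_nonneg a).star_eq

theorem norm_abs (a : H →L[ℂ] H) (w : H) : ‖(CFC.abs a) w‖ = ‖a w‖ := by
  have h1 : ⟪(CFC.abs a) w, (CFC.abs a) w⟫_ℂ = ⟪a w, a w⟫_ℂ := by
    have h2 : (CFC.abs a) ((CFC.abs a) w) = (star a) (a w) :=
      congrArg (fun T : H →L[ℂ] H => T w) (CFC.abs_mul_abs a)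
    have h3 : ⟪(star (CFC.abs a)) ((CFC.abs a) w), w⟫_ℂ = ⟪(star a) (a w), w⟫_ℂ := by
      rw [abs_star', h2]
    rwa [star_eq_adjoint, star_eq_adjoint, adjoint_inner_left, adjoint_inner_left] at h3
  rw [inner_self_eq_norm_sq_to_K, inner_self_eq_norm_sq_to_K] at h1
  have h4 : ‖(CFC.abs a) w‖ ^ 2 = ‖a w‖ ^ 2 := by exact_mod_cast h1
  exact (sq_eq_sq₀ (norm_nonneg _) (norm_nonneg _)).1 h4

end PolarAux

end Pool.Agent.Helper88.CS

end

section

open scoped InnerProductSpace Topology ENNReal BoundedContinuousFunction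

open ContinuousLinearMap Filter MeasureTheory

namespace Pool.Agent.Helper23.ED

open Pool.Agent.Helper23 Pool.Agent.Helper23.RBF

universe u

variable {H : Type*} [NormedAddCommGroup H] [InnerProductSpace ℂ H] [CompleteSpace H]

variable {A : VonNeumannAlgebra H} {ξ : H} {R : H →L[ℂ] H} {D : H →L[ℝ] H}
  {Ψ : (ℝ →ᵇ ℂ) →⋆ₐ[ℂ] (H →L[ℂ] H)}

namespace GgE

open Pool.Agent.Helper43.TTF

/-- the square of `1 / cosh (ρ / 2)` -/
noncomputable def gg (ρ : ℝ) : ℝ := (Real.cosh (ρ / 2))⁻¹ * (Real.cosh (ρ / 2))⁻¹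

lemma gg_pos (ρ : ℝ) : 0 < gg ρ := by
  have := Real.cosh_pos (ρ / 2)
  unfold gg
  positivity

lemma gg_cont : Continuous gg := by
  have h : Continuous fun ρ : ℝ => (Real.cosh (ρ / 2))⁻¹ :=
    Continuous.inv₀ (by fun_prop) fun ρ => (Real.cosh_pos _).ne'
  exact h.mul h

lemma gg_neg (ρ : ℝ) : gg (-ρ) = gg ρ := by
  unfold gg
  rw [neg_div, Real.cosh_neg]

lemma gg_ge {L ρ : ℝ} (h : |ρ| ≤ L) : gg L ≤ gg ρ := by
  have h1 : Real.cosh (ρ / 2) ≤ Real.cosh (L / 2) := by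
    rw [Real.cosh_le_cosh, abs_div, abs_div]
    have : |ρ| ≤ |L| := h.trans (le_abs_self L)
    gcongr
  have h2 := Real.cosh_pos (ρ / 2)
  have h3 : (Real.cosh (L / 2))⁻¹ ≤ (Real.cosh (ρ / 2))⁻¹ := inv_anti₀ h2 h1
  have h4 : 0 ≤ (Real.cosh (L / 2))⁻¹ := by positivity [Real.cosh_pos (L / 2)]
  unfold gg
  exact mul_le_mul h3 h3 h4 (h4.trans h3)

lemma FT_sq_apply (ρ : ℝ) : (FT * FT : ℝ →ᵇ ℂ) ρ = (gg ρ : ℂ) := by
  rw [BoundedContinuousFunction.mul_apply, FT_apply, ← Complex.ofReal_mul]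
  rfl

/-- regularised inverse of `gg` -/
noncomputable def kB (n : ℕ) : ℝ →ᵇ ℂ :=
  BoundedContinuousFunction.ofNormedAddCommGroup
    (fun ρ : ℝ => ((1 / (gg ρ + 1 / ((n : ℝ) + 1)) : ℝ) : ℂ))
    (by
      refine Complex.continuous_ofReal.comp (Continuous.div continuous_const
        (gg_cont.add continuous_const) ?_)
      intro ρ
      have := gg_pos ρ
      positivity) ((n : ℝ) + 1) (by
      intro ρ
      have h0 := gg_pos ρ
      rw [Complex.norm_real, Real.norm_of_nonneg (by positivity), div_le_iff₀ (by positivity)]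
      have h2 : (0 : ℝ) < (n : ℝ) + 1 := by positivity
      have h3 : ((n : ℝ) + 1) * (gg ρ + 1 / ((n : ℝ) + 1)) = ((n : ℝ) + 1) * gg ρ + 1 := by
        field_simp
      rw [h3]
      nlinarith [mul_pos h2 h0])

lemma kB_apply (n : ℕ) (ρ : ℝ) :
    kB n ρ = ((1 / (gg ρ + 1 / ((n : ℝ) + 1)) : ℝ) : ℂ) := rfl

lemma kB_conj (n : ℕ) (ρ : ℝ) : kB n ρ = (starRingEnd ℂ) (kB n (-ρ)) := by
  rw [kB_apply, kB_apply, Complex.conj_ofReal, gg_neg]

lemma kB_star (n : ℕ) : star (kB n) = kB n := by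
  ext ρ
  rw [BoundedContinuousFunction.star_apply, kB_apply]
  exact Complex.conj_ofReal _

lemma mul_apply' (n : ℕ) (ρ : ℝ) : (FT * FT * kB n : ℝ →ᵇ ℂ) ρ =
    ((gg ρ / (gg ρ + 1 / ((n : ℝ) + 1)) : ℝ) : ℂ) := by
  rw [BoundedContinuousFunction.mul_apply, FT_sq_apply, kB_apply, ← Complex.ofReal_mul]
  congr 1
  ring

lemma norm_le' (n : ℕ) : ‖(FT * FT * kB n : ℝ →ᵇ ℂ)‖ ≤ 1 := by
  rw [BoundedContinuousFunction.norm_le zero_le_one]
  intro ρ
  have h0 := gg_pos ρ
  rw [mul_apply', Complex.norm_real, Real.norm_of_nonneg (by positivity),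
    div_le_one (by positivity)]
  have : (0 : ℝ) < 1 / ((n : ℝ) + 1) := by positivity
  linarith

lemma tendsto' (L : ℝ) :
    TendstoUniformlyOn (fun n ρ => (FT * FT * kB n : ℝ →ᵇ ℂ) ρ) (fun ρ => (1 : ℝ →ᵇ ℂ) ρ) atTop
      (Set.Icc (-L) L) := by
  rw [Metric.tendstoUniformlyOn_iff]
  intro ε hε
  have hd := gg_pos L
  obtain ⟨m, hm⟩ := exists_nat_gt (1 / (ε * gg L))
  filter_upwards [eventually_ge_atTop m] with n hn ρ hρ
  have h0 := gg_pos ρ
  have h1 : gg L ≤ gg ρ := gg_ge (abs_le.2 hρ)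
  have hn' : (0 : ℝ) < (n : ℝ) + 1 := by positivity
  have h2 : (1 : ℂ) - ((gg ρ / (gg ρ + 1 / ((n : ℝ) + 1)) : ℝ) : ℂ) =
      (((1 / ((n : ℝ) + 1)) / (gg ρ + 1 / ((n : ℝ) + 1)) : ℝ) : ℂ) := by
    have h3 : ((1 / ((n : ℝ) + 1)) / (gg ρ + 1 / ((n : ℝ) + 1)) : ℝ) =
        1 - gg ρ / (gg ρ + 1 / ((n : ℝ) + 1)) := by
      have h4 : gg ρ + 1 / ((n : ℝ) + 1) ≠ 0 := by positivity
      rw [eq_sub_iff_add_eq, ← add_div, div_eq_one_iff_eq h4]
      ring
    rw [h3]
    push_cast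
    ring
  rw [mul_apply', one_bcf, dist_eq_norm, h2, Complex.norm_real,
    Real.norm_of_nonneg (by positivity)]
  have h5 : (1 / ((n : ℝ) + 1)) / (gg ρ + 1 / ((n : ℝ) + 1)) ≤ (1 / ((n : ℝ) + 1)) / gg L := by
    apply div_le_div_of_nonneg_left (by positivity) hd
    have : (0 : ℝ) < 1 / ((n : ℝ) + 1) := by positivity
    linarith
  refine h5.trans_lt ?_
  have h6 : 1 / (ε * gg L) < (n : ℝ) + 1 := by
    have : (m : ℝ) ≤ n := by exact_mod_cast hn
    linarith
  rw [div_lt_iff₀ (by positivity)] at h6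
  rw [div_lt_iff₀ hd, div_lt_iff₀ hn']
  linarith [h6]

end GgE

end Pool.Agent.Helper23.ED

end
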