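import Pool.Agent.Helper23.FA.Ns

/-!
Parts of Helper78.BC.Minimax, Helper78.BC.Lev, Helper5.TTD, Helper43.TTF.F, Helper88.CS.Defs, Helper88.CS.Sums, Helper88.CS.Infty, Helper88.CS.Max, Helper23.ED.SmC, Helper23.ED.IsA
-/

section

namespace Pool.Agent.Helper78.BC

theorem minimax {E : Type*} [AddCommGroup E] [Module ℝ E] {W : Set E} (hW : Convex ℝ W)
    (hne : W.Nonempty) {n : ℕ} (f : Fin n → E → ℝ) (hf : ∀ i, ConvexOn ℝ W (f i))
    (c : Fin n → ℝ)
    (h : ∀ t : Fin n → ℝ, (∀ i, 0 ≤ t i) → ∀ δ : ℝ, 0 < δ →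
      ∃ ζ ∈ W, ∑ i, t i * f i ζ ≤ ∑ i, t i * (c i + δ)) :
    ∀ δ : ℝ, 0 < δ → ∃ ζ ∈ W, ∀ i, f i ζ ≤ c i + δ := by
  intro δ hδ
  by_contra hcon
  push Not at hcon
  set U : Set (Fin n → ℝ) := {a | ∃ z ∈ W, ∀ i, f i z < a i} with hU
  have hUo : IsOpen U := by
    have : U = ⋃ z ∈ W, ⋂ i, {a : Fin n → ℝ | f i z < a i} := by
      ext a
      simp [hU]
    rw [this]
    exact isOpen_biUnion fun z _ => isOpen_iInter_of_finite fun i =>
      isOpen_lt continuous_const (continuous_apply i)
  have hUc : Convex ℝ U := by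
    rintro a ⟨z, hz, hza⟩ b ⟨w, hw, hwb⟩ s t hs ht hst
    refine ⟨s • z + t • w, hW hz hw hs ht hst, fun i => ?_⟩
    have h1 := (hf i).2 hz hw hs ht hst
    refine h1.trans_lt ?_
    simp only [Pi.add_apply, Pi.smul_apply, smul_eq_mul]
    rcases hs.eq_or_lt with h0 | h0
    · have ht1 : t = 1 := by linarith
      rw [← h0, ht1]
      linarith [hwb i]
    · have h2 : s * f i z < s * a i := mul_lt_mul_of_pos_left (hza i) h0
      have h3 : t * f i w ≤ t * b i := mul_le_mul_of_nonneg_left (hwb i).le ht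
      linarith
  have hx : (fun i => c i + δ) ∉ U := by
    rintro ⟨z, hz, hzi⟩
    obtain ⟨i, hi⟩ := hcon z hz
    exact absurd (hzi i) (not_lt.2 hi.le)
  obtain ⟨g, hg⟩ := geometric_hahn_banach_open_point hUc hUo hx
  set e : Fin n → (Fin n → ℝ) := fun i => Pi.single i 1 with he
  have hsum : ∀ a : Fin n → ℝ, g a = ∑ i, a i * g (e i) := by
    intro a
    have h1 : a = ∑ i, a i • e i := by
      ext j
      simp [he, Finset.sum_apply, Pi.single_apply]
    conv_lhs => rw [h1]
    rw [map_sum]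
    refine Finset.sum_congr rfl fun i _ => ?_
    rw [map_smul, smul_eq_mul]
  obtain ⟨z0, hz0⟩ := hne
  have hup : ∀ a ∈ U, ∀ i, ∀ s : ℝ, 0 ≤ s → a + s • e i ∈ U := by
    rintro a ⟨z, hz, hza⟩ i s hs
    refine ⟨z, hz, fun j => ?_⟩
    have h1 : 0 ≤ s * e i j := by
      refine mul_nonneg hs ?_
      simp only [he, Pi.single_apply]
      split_ifs <;> norm_num
    simp only [Pi.add_apply, Pi.smul_apply, smul_eq_mul]
    linarith [hza j]
  have hneg : ∀ i, g (e i) ≤ 0 := by
    intro i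
    by_contra hpos
    push Not at hpos
    have ha : (fun i => f i z0 + 1) ∈ U := ⟨z0, hz0, fun i => by linarith⟩
    set a : Fin n → ℝ := fun i => f i z0 + 1 with haa
    set M : ℝ := g (fun i => c i + δ) - g a with hM
    have hMpos : 0 < M := by
      have := hg a ha
      linarith
    have h1 := hg _ (hup a ha i (M / g (e i)) (by positivity))
    rw [map_add, map_smul, smul_eq_mul, div_mul_cancel₀ _ hpos.ne'] at h1
    linarith
  obtain ⟨ζ, hζ, hle⟩ := h (fun i => - g (e i)) (fun i => by linarith [hneg i]) (δ / 2)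
    (by linarith)
  have h2 := hg (fun i => f i ζ + δ / 4) ⟨ζ, hζ, fun i => by linarith⟩
  rw [hsum, hsum] at h2
  have h3 : ∑ i, (c i + δ) * g (e i) - ∑ i, (f i ζ + δ / 4) * g (e i) =
      (∑ i, -g (e i) * f i ζ - ∑ i, -g (e i) * (c i + δ / 2)) + ∑ i, (δ / 4) * g (e i) := by
    rw [← Finset.sum_sub_distrib, ← Finset.sum_sub_distrib, ← Finset.sum_add_distrib]
    refine Finset.sum_congr rfl fun i _ => ?_
    ring
  have h4 : ∑ i, (δ / 4) * g (e i) ≤ 0 :=
    Finset.sum_nonpos fun i _ => mul_nonpos_of_nonneg_of_nonpos (by linarith) (hneg i)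
  linarith

end Pool.Agent.Helper78.BC

end

section

open scoped InnerProductSpace Topology BoundedContinuousFunction

open ContinuousLinearMap Filter

namespace Pool.Agent.Helper78.BC

variable {H : Type*} [NormedAddCommGroup H] [InnerProductSpace ℂ H] [CompleteSpace H]

variable {A : VonNeumannAlgebra H} {ξ : H} {J : H →L[ℝ] H}
  {Ψ : (ℝ →ᵇ ℂ) →⋆ₐ[ℂ] (H →L[ℂ] H)}

namespace LevAux

lemma inner_iso {S : H →L[ℂ] H} (hS : star S * S = 1) (v w : H) : ⟪S v, S w⟫_ℂ = ⟪v, w⟫_ℂ := by
  have h1 : (star S) (S w) = w := by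
    have := congrArg (fun T : H →L[ℂ] H => T w) hS
    simpa using this
  have h2 : ⟪v, (star S) (S w)⟫_ℂ = ⟪S v, S w⟫_ℂ := by
    rw [star_eq_adjoint, adjoint_inner_right]
  rw [← h2, h1]

lemma norm_iso {S : H →L[ℂ] H} (hS : star S * S = 1) (v : H) : ‖S v‖ = ‖v‖ := by
  have h1 := inner_iso hS v v
  rw [inner_self_eq_norm_sq_to_K, inner_self_eq_norm_sq_to_K] at h1
  have h2 : ‖S v‖ ^ 2 = ‖v‖ ^ 2 := by exact_mod_cast h1
  exact (pow_left_inj₀ (norm_nonneg _) (norm_nonneg _) two_ne_zero).1 h2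

lemma norm_star_le {S : H →L[ℂ] H} (hS : star S * S = 1) (v : H) : ‖(star S) v‖ ≤ ‖v‖ := by
  have h1 : ‖star S‖ ≤ 1 := by
    rw [norm_star]
    refine opNorm_le_bound _ zero_le_one fun v => ?_
    rw [norm_iso hS, one_mul]
  calc ‖(star S) v‖ ≤ ‖star S‖ * ‖v‖ := le_opNorm _ _
    _ ≤ 1 * ‖v‖ := by gcongr
    _ = ‖v‖ := one_mul _

end LevAux

end Pool.Agent.Helper78.BC

end

section

set_option autoImplicit false

open Filter MeasureTheory Topology

namespace Pool.Agent.Helper5.TTD

lemma norm_sinh_ge (z : ℂ) : |Real.sinh z.re| ≤ ‖Complex.sinh z‖ := by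
  have h1 : ‖Complex.sinh z‖ = ‖Complex.exp z - Complex.exp (-z)‖ / 2 := by
    rw [Complex.sinh, norm_div]; norm_num
  have h2 : |‖Complex.exp z‖ - ‖Complex.exp (-z)‖| ≤ ‖Complex.exp z - Complex.exp (-z)‖ :=
    abs_norm_sub_norm_le _ _
  rw [Complex.norm_exp, Complex.norm_exp, Complex.neg_re] at h2
  rw [h1, Real.sinh_eq, abs_div]
  have : |(2 : ℝ)| = 2 := by norm_num
  rw [this]
  linarith

lemma sinh_ne_zero {z : ℂ} (hz : z ≠ 0) (him : |z.im| ≤ 1 / 2) :
    Complex.sinh (Real.pi * z) ≠ 0 := by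
  intro h
  by_cases hre : z.re = 0
  · have hzi : z = z.im * Complex.I := by
      apply Complex.ext <;> simp [hre]
    rw [hzi, ← mul_assoc, ← Complex.ofReal_mul, Complex.sinh_mul_I, ← Complex.ofReal_sin] at h
    have hs : Real.sin (Real.pi * z.im) = 0 := by
      rcases mul_eq_zero.1 h with h | h
      · exact_mod_cast h
      · exact absurd h Complex.I_ne_zero
    have hne : z.im ≠ 0 := by
      intro h0
      apply hz
      rw [hzi, h0]; simp
    have h3 : -Real.pi < Real.pi * z.im := by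
      have := (abs_le.1 him).1
      nlinarith [Real.pi_pos]
    have h4 : Real.pi * z.im < Real.pi := by
      have := (abs_le.1 him).2
      nlinarith [Real.pi_pos]
    rw [Real.sin_eq_zero_iff_of_lt_of_lt h3 h4] at hs
    rcases mul_eq_zero.1 hs with h5 | h5
    · exact Real.pi_ne_zero h5
    · exact hne h5
  · have h1 := norm_sinh_ge (Real.pi * z)
    rw [h, norm_zero] at h1
    have h2 : Real.sinh ((Real.pi * z : ℂ).re) = 0 := abs_eq_zero.1 (le_antisymm h1 (abs_nonneg _))
    rw [Real.sinh_eq_zero] at h2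
    simp at h2
    exact hre h2

lemma cosh_ge_pos {x : ℝ} (hx : 0 ≤ x) : 1 + x ^ 2 / 2 ≤ Real.cosh x := by
  have h1 : Real.cosh x = 1 + 2 * Real.sinh (x / 2) ^ 2 := by
    have := Real.cosh_two_mul (x / 2)
    rw [mul_div_cancel₀ x two_ne_zero] at this
    rw [this, Real.cosh_sq]
    ring
  have h2 : x / 2 ≤ Real.sinh (x / 2) := Real.self_le_sinh_iff.2 (by linarith)
  nlinarith

lemma cosh_ge (x : ℝ) : 1 + x ^ 2 / 2 ≤ Real.cosh x := by
  have := cosh_ge_pos (abs_nonneg x)
  rwa [sq_abs, Real.cosh_abs] at this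

lemma inv_cosh_le (t : ℝ) : (Real.cosh (Real.pi * t))⁻¹ ≤ (1 + t ^ 2)⁻¹ := by
  have h1 := cosh_ge (Real.pi * t)
  have h2 : 1 + t ^ 2 ≤ Real.cosh (Real.pi * t) := by
    have h3 : (2 : ℝ) ≤ Real.pi ^ 2 := by nlinarith [Real.pi_gt_three]
    have h4 : 2 * t ^ 2 ≤ Real.pi ^ 2 * t ^ 2 := by
      apply mul_le_mul_of_nonneg_right h3 (sq_nonneg t)
    nlinarith
  exact inv_anti₀ (by positivity) h2

lemma continuous_inv_cosh : Continuous fun t : ℝ => (Real.cosh (Real.pi * t))⁻¹ := by
  apply Continuous.inv₀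
  · fun_prop
  · intro t; exact (Real.cosh_pos _).ne'

lemma integrable_inv_cosh : Integrable fun t : ℝ => (Real.cosh (Real.pi * t))⁻¹ := by
  refine Integrable.mono' integrable_inv_one_add_sq continuous_inv_cosh.aestronglyMeasurable ?_
  filter_upwards with t
  rw [Real.norm_of_nonneg (inv_nonneg.2 (Real.cosh_pos _).le)]
  exact inv_cosh_le t

lemma integral_inv_cosh : ∫ t : ℝ, (Real.cosh (Real.pi * t))⁻¹ = 1 := by
  have hd : ∀ t : ℝ, HasDerivAt (fun t : ℝ => Real.arctan (Real.sinh (Real.pi * t)) / Real.pi)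
      ((Real.cosh (Real.pi * t))⁻¹) t := by
    intro t
    have h1 : HasDerivAt (fun t : ℝ => Real.pi * t) Real.pi t := by
      simpa using (hasDerivAt_id t).const_mul Real.pi
    have h2 := ((Real.hasDerivAt_arctan _).comp t ((Real.hasDerivAt_sinh _).comp t h1)).div_const
      Real.pi
    refine HasDerivAt.congr_deriv (f := fun t : ℝ => Real.arctan (Real.sinh (Real.pi * t)) / Real.pi)
      h2 ?_
    have hc : Real.cosh (Real.pi * t) ≠ 0 := (Real.cosh_pos _).ne'
    have hs : 1 + Real.sinh (Real.pi * t) ^ 2 = Real.cosh (Real.pi * t) ^ 2 := by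
      rw [Real.cosh_sq]; ring
    change 1 / (1 + Real.sinh (Real.pi * t) ^ 2) * (Real.cosh (Real.pi * t) * Real.pi) / Real.pi =
      (Real.cosh (Real.pi * t))⁻¹
    rw [hs]
    have := Real.pi_ne_zero
    field_simp
  have hsinh_top : Tendsto Real.sinh atTop atTop := by
    refine tendsto_atTop_mono' _ ?_ tendsto_id
    filter_upwards [eventually_ge_atTop (0 : ℝ)] with x hx
    exact Real.self_le_sinh_iff.2 hx
  have hsinh_bot : Tendsto Real.sinh atBot atBot := by
    refine tendsto_atBot_mono' _ ?_ tendsto_id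
    filter_upwards [eventually_le_atBot (0 : ℝ)] with x hx
    have := Real.self_le_sinh_iff.2 (neg_nonneg.2 hx)
    rw [Real.sinh_neg] at this
    simp only [id]
    linarith
  have htop : Tendsto (fun t : ℝ => Real.arctan (Real.sinh (Real.pi * t)) / Real.pi) atTop
      (𝓝 (Real.pi / 2 / Real.pi)) := by
    apply Tendsto.div_const
    have h1 : Tendsto Real.arctan atTop (𝓝 (Real.pi / 2)) :=
      Real.tendsto_arctan_atTop.mono_right nhdsWithin_le_nhds
    exact h1.comp (hsinh_top.comp (tendsto_id.const_mul_atTop Real.pi_pos))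
  have hbot : Tendsto (fun t : ℝ => Real.arctan (Real.sinh (Real.pi * t)) / Real.pi) atBot
      (𝓝 (-(Real.pi / 2) / Real.pi)) := by
    apply Tendsto.div_const
    have h1 : Tendsto Real.arctan atBot (𝓝 (-(Real.pi / 2))) :=
      Real.tendsto_arctan_atBot.mono_right nhdsWithin_le_nhds
    exact h1.comp (hsinh_bot.comp (tendsto_id.const_mul_atBot Real.pi_pos))
  rw [integral_of_hasDerivAt_of_tendsto hd integrable_inv_cosh hbot htop]
  have := Real.pi_ne_zero
  field_simp
  norm_num

/-- The case of `β = 0` after absorbing the exponential. -/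
lemma strip_aux (F : ℂ → ℂ) (hF : Differentiable ℂ F) (C : ℝ)
    (hC : ∀ z : ℂ, |z.im| ≤ 1 / 2 → ‖F z‖ ≤ C) :
    ∫ t : ℝ, (((Real.cosh (Real.pi * t))⁻¹ : ℝ) : ℂ) *
      (F (t - Complex.I / 2) + F (t + Complex.I / 2)) = 2 * F 0 := by
  have hC0 : 0 ≤ C := (norm_nonneg _).trans (hC 0 (by norm_num))
  let S : ℂ → ℂ := fun z => Complex.sinh (Real.pi * z)
  have hS : Differentiable ℂ S := by
    intro z
    exact (Complex.differentiable_sinh _).comp z (by fun_prop)
  have hS0 : S 0 = 0 := by simp [S]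
  have hSd : deriv S 0 = Real.pi := by
    have h1 : HasDerivAt (fun z : ℂ => (Real.pi : ℂ) * z) (Real.pi : ℂ) 0 := by
      simpa using (hasDerivAt_id (0 : ℂ)).const_mul (Real.pi : ℂ)
    have h2 := (Complex.hasDerivAt_sinh ((Real.pi : ℂ) * 0)).comp (0 : ℂ) h1
    have h3 : HasDerivAt S (Complex.cosh ((Real.pi : ℂ) * 0) * Real.pi) 0 := h2
    rw [h3.deriv]
    simp
  have hdF : Differentiable ℂ (dslope F 0) := by
    have := (Complex.differentiableOn_dslope (c := (0 : ℂ)) (s := Set.univ) univ_mem).2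
      hF.differentiableOn
    exact differentiableOn_univ.1 this
  have hdS : Differentiable ℂ (dslope S 0) := by
    have := (Complex.differentiableOn_dslope (c := (0 : ℂ)) (s := Set.univ) univ_mem).2
      hS.differentiableOn
    exact differentiableOn_univ.1 this
  have hne : ∀ z : ℂ, |z.im| ≤ 1 / 2 → dslope S 0 z ≠ 0 := by
    intro z hz
    by_cases h0 : z = 0
    · rw [h0, dslope_same, hSd]
      exact_mod_cast Real.pi_ne_zero
    · rw [dslope_of_ne _ h0, slope_def_field, hS0, sub_zero, sub_zero]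
      exact div_ne_zero (sinh_ne_zero h0 hz) h0
  let G : ℂ → ℂ := fun z => dslope F 0 z / dslope S 0 z
  have hG : ∀ z : ℂ, z ≠ 0 → G z = (F z - F 0) / S z := by
    intro z hz
    simp only [G]
    rw [dslope_of_ne _ hz, dslope_of_ne _ hz, slope_def_field, slope_def_field, hS0, sub_zero,
      sub_zero, div_div_div_cancel_right₀ hz]
  have hGb : ∀ z : ℂ, |z.im| ≤ 1 / 2 → z.re ≠ 0 →
      ‖G z‖ ≤ 2 * C / Real.sinh (Real.pi * |z.re|) := by
    intro z hz hre
    have hz0 : z ≠ 0 := by rintro rfl; simp at hre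
    rw [hG z hz0, norm_div]
    have h1 : Real.sinh (Real.pi * |z.re|) ≤ ‖S z‖ := by
      have := norm_sinh_ge (Real.pi * z)
      rw [show ((Real.pi : ℂ) * z).re = Real.pi * z.re by simp] at this
      have h2 : |Real.sinh (Real.pi * z.re)| = Real.sinh (Real.pi * |z.re|) := by
        rw [Real.abs_sinh, abs_mul, abs_of_pos Real.pi_pos]
      rw [h2] at this
      exact this
    have h3 : 0 < Real.sinh (Real.pi * |z.re|) :=
      Real.sinh_pos_iff.2 (mul_pos Real.pi_pos (abs_pos.2 hre))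
    have h4 : ‖F z - F 0‖ ≤ 2 * C := by
      have := norm_sub_le (F z) (F 0)
      have h5 := hC z hz
      have h6 := hC 0 (by norm_num)
      linarith
    exact div_le_div₀ (by positivity) h4 h3 h1
  -- values on the horizontal lines
  have hminus : ∀ t : ℝ, G (t - Complex.I / 2) =
      Complex.I * ((((Real.cosh (Real.pi * t))⁻¹ : ℝ) : ℂ) * (F (t - Complex.I / 2) - F 0)) := by
    intro t
    rw [hG _ (by
      intro h
      have := congrArg Complex.im h
      simp at this)]
    have h1 : S (t - Complex.I / 2) = -Complex.I * Complex.cosh (Real.pi * t) := by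
      simp only [S]
      rw [mul_sub, Complex.sinh_sub, show (Real.pi : ℂ) * (Complex.I / 2) =
        (Real.pi / 2 : ℂ) * Complex.I by ring, Complex.cosh_mul_I, Complex.sinh_mul_I,
        Complex.cos_pi_div_two, Complex.sin_pi_div_two]
      ring
    rw [h1]
    push_cast
    have hc : Complex.cosh (Real.pi * t) ≠ 0 := by
      have := (Real.cosh_pos (Real.pi * t)).ne'
      exact_mod_cast this
    field_simp
    ring_nf
    simp
  have hplus : ∀ t : ℝ, G (t + Complex.I / 2) =
      -(Complex.I * ((((Real.cosh (Real.pi * t))⁻¹ : ℝ) : ℂ) *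
        (F (t + Complex.I / 2) - F 0))) := by
    intro t
    rw [hG _ (by
      intro h
      have := congrArg Complex.im h
      simp at this)]
    have h1 : S (t + Complex.I / 2) = Complex.I * Complex.cosh (Real.pi * t) := by
      simp only [S]
      rw [mul_add, Complex.sinh_add, show (Real.pi : ℂ) * (Complex.I / 2) =
        (Real.pi / 2 : ℂ) * Complex.I by ring, Complex.cosh_mul_I, Complex.sinh_mul_I,
        Complex.cos_pi_div_two, Complex.sin_pi_div_two]
      ring
    rw [h1]
    push_cast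
    have hc : Complex.cosh (Real.pi * t) ≠ 0 := by
      have := (Real.cosh_pos (Real.pi * t)).ne'
      exact_mod_cast this
    field_simp
    ring_nf
    simp
    ring
  have hrect : ∀ L : ℝ, 0 < L →
      (∫ x in (-L)..L, G (x - Complex.I / 2)) - (∫ x in (-L)..L, G (x + Complex.I / 2)) +
      Complex.I • (∫ y in (-(1 / 2 : ℝ))..(1 / 2), G (L + y * Complex.I)) -
      Complex.I • (∫ y in (-(1 / 2 : ℝ))..(1 / 2), G ((-L : ℝ) + y * Complex.I)) = 0 := by
    intro L hL
    have h := Complex.integral_boundary_rect_eq_zero_of_differentiableOn G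
      (⟨-L, -(1 / 2)⟩ : ℂ) (⟨L, 1 / 2⟩ : ℂ) (by
        intro z hz
        have hz2 := hz.2
        rw [Set.mem_preimage] at hz2
        rw [Set.uIcc_of_le (by norm_num : -(1 / 2 : ℝ) ≤ 1 / 2)] at hz2
        exact ((hdF z).div (hdS z) (hne z (abs_le.2 ⟨hz2.1, hz2.2⟩))).differentiableWithinAt)
    simp only at h
    have e1 : ∀ x : ℝ, (x : ℂ) + ((-(1 / 2) : ℝ) : ℂ) * Complex.I = x - Complex.I / 2 := by
      intro x; push_cast; ring
    have e2 : ∀ x : ℝ, (x : ℂ) + ((1 / 2 : ℝ) : ℂ) * Complex.I = x + Complex.I / 2 := by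
      intro x; push_cast; ring
    simp only [e1, e2] at h
    exact h
  have hint : ∀ φ : ℝ → ℂ, Continuous φ → (∀ t, ‖φ t‖ ≤ 2 * C) →
      Integrable fun t : ℝ => (((Real.cosh (Real.pi * t))⁻¹ : ℝ) : ℂ) * φ t := by
    intro φ hφ hb
    refine Integrable.mono' (integrable_inv_cosh.mul_const (2 * C)) ?_ ?_
    · exact ((Complex.continuous_ofReal.comp continuous_inv_cosh).mul hφ).aestronglyMeasurable
    · filter_upwards with t
      rw [norm_mul, Complex.norm_real, Real.norm_of_nonneg (inv_nonneg.2 (Real.cosh_pos _).le)]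
      exact mul_le_mul_of_nonneg_left (hb t) (inv_nonneg.2 (Real.cosh_pos _).le)
  have hFm : Continuous fun t : ℝ => F (t - Complex.I / 2) := hF.continuous.comp (by fun_prop)
  have hFp : Continuous fun t : ℝ => F (t + Complex.I / 2) := hF.continuous.comp (by fun_prop)
  have hbm : ∀ t : ℝ, ‖F (t - Complex.I / 2)‖ ≤ C := fun t => hC _ (by simp)
  have hbp : ∀ t : ℝ, ‖F (t + Complex.I / 2)‖ ≤ C := fun t => hC _ (by simp)
  have hb0 : ‖F 0‖ ≤ C := hC 0 (by norm_num)
  have hIm := hint (fun t => F (t - Complex.I / 2) - F 0) (hFm.sub continuous_const) (fun t => by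
    have := norm_sub_le (F (t - Complex.I / 2)) (F 0)
    linarith [hbm t])
  have hIp := hint (fun t => F (t + Complex.I / 2) - F 0) (hFp.sub continuous_const) (fun t => by
    have := norm_sub_le (F (t + Complex.I / 2)) (F 0)
    linarith [hbp t])
  have hGm : Integrable fun t : ℝ => G (t - Complex.I / 2) := by
    simp only [hminus]
    exact hIm.const_mul _
  have hGp : Integrable fun t : ℝ => G (t + Complex.I / 2) := by
    simp only [hplus]
    exact (hIp.const_mul _).neg
  have hlm : Tendsto (fun L : ℝ => ∫ x in (-L)..L, G (x - Complex.I / 2)) atTop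
      (𝓝 (∫ x : ℝ, G (x - Complex.I / 2))) :=
    intervalIntegral_tendsto_integral hGm tendsto_neg_atTop_atBot tendsto_id
  have hlp : Tendsto (fun L : ℝ => ∫ x in (-L)..L, G (x + Complex.I / 2)) atTop
      (𝓝 (∫ x : ℝ, G (x + Complex.I / 2))) :=
    intervalIntegral_tendsto_integral hGp tendsto_neg_atTop_atBot tendsto_id
  have hsinh_top : Tendsto Real.sinh atTop atTop := by
    refine tendsto_atTop_mono' _ ?_ tendsto_id
    filter_upwards [eventually_ge_atTop (0 : ℝ)] with x hx
    exact Real.self_le_sinh_iff.2 hx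
  have hlim0 : Tendsto (fun L : ℝ => 2 * C / Real.sinh (Real.pi * L)) atTop (𝓝 0) :=
    Tendsto.div_atTop tendsto_const_nhds
      (hsinh_top.comp (tendsto_id.const_mul_atTop Real.pi_pos))
  have hv : ∀ s : ℝ → ℝ, (∀ L, 0 < L → |s L| = L) →
      Tendsto (fun L : ℝ => ∫ y in (-(1 / 2 : ℝ))..(1 / 2), G (s L + y * Complex.I)) atTop
      (𝓝 0) := by
    intro s hs
    apply squeeze_zero_norm' (a := fun L : ℝ => 2 * C / Real.sinh (Real.pi * L)) _ hlim0
    filter_upwards [eventually_gt_atTop (0 : ℝ)] with L hL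
    have := intervalIntegral.norm_integral_le_of_norm_le_const
      (a := -(1 / 2 : ℝ)) (b := 1 / 2) (f := fun y : ℝ => G (s L + y * Complex.I))
      (C := 2 * C / Real.sinh (Real.pi * L)) (by
        intro y hy
        rw [Set.uIoc_of_le (by norm_num)] at hy
        have h1 := hGb (s L + y * Complex.I) (by
          simp only [Complex.add_im, Complex.ofReal_im, Complex.mul_im, Complex.ofReal_re,
            Complex.I_im, Complex.I_re, mul_one, mul_zero, add_zero, zero_add]
          exact abs_le.2 ⟨hy.1.le, hy.2⟩) (by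
          simp only [Complex.add_re, Complex.ofReal_re, Complex.mul_re, Complex.I_re, mul_zero,
            Complex.ofReal_im, Complex.I_im, mul_one, sub_self, add_zero]
          intro h0
          have := hs L hL
          rw [h0, abs_zero] at this
          linarith)
        have h2 : ((s L : ℂ) + y * Complex.I).re = s L := by simp
        rw [h2, hs L hL] at h1
        exact h1)
    rw [show |1 / 2 - -(1 / 2 : ℝ)| = 1 by norm_num, mul_one] at this
    exact this
  have hv1 := hv (fun L => L) (fun L hL => abs_of_pos hL)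
  have hv2 := hv (fun L => -L) (fun L hL => by rw [abs_neg, abs_of_pos hL])
  have hsum := (((hlm.sub hlp).add (hv1.const_smul Complex.I)).sub (hv2.const_smul Complex.I))
  have hzero : Tendsto (fun _ : ℝ => (0 : ℂ)) atTop (𝓝
      (((∫ x : ℝ, G (x - Complex.I / 2)) - (∫ x : ℝ, G (x + Complex.I / 2)) +
        Complex.I • (0 : ℂ)) - Complex.I • (0 : ℂ))) := by
    refine hsum.congr' ?_
    filter_upwards [eventually_gt_atTop (0 : ℝ)] with L hL
    exact hrect L hL
  have hAB := tendsto_nhds_unique hzero tendsto_const_nhds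
  rw [smul_zero, add_zero, sub_zero] at hAB
  have hA : ∫ x : ℝ, G (x - Complex.I / 2) = Complex.I *
      ∫ t : ℝ, (((Real.cosh (Real.pi * t))⁻¹ : ℝ) : ℂ) * (F (t - Complex.I / 2) - F 0) := by
    rw [← integral_const_mul]
    exact integral_congr_ae (by filter_upwards with t using hminus t)
  have hB : ∫ x : ℝ, G (x + Complex.I / 2) = -(Complex.I *
      ∫ t : ℝ, (((Real.cosh (Real.pi * t))⁻¹ : ℝ) : ℂ) * (F (t + Complex.I / 2) - F 0)) := by
    rw [← integral_const_mul, ← integral_neg]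
    exact integral_congr_ae (by filter_upwards with t using hplus t)
  rw [hA, hB, sub_neg_eq_add, ← mul_add] at hAB
  have hAB' := (mul_eq_zero.1 hAB).resolve_left Complex.I_ne_zero
  rw [← integral_add hIm hIp] at hAB'
  have hk : ∫ t : ℝ, (((Real.cosh (Real.pi * t))⁻¹ : ℝ) : ℂ) * (2 * F 0) = 2 * F 0 := by
    rw [integral_mul_const, integral_complex_ofReal, integral_inv_cosh]
    simp
  have hI0 : Integrable fun t : ℝ => (((Real.cosh (Real.pi * t))⁻¹ : ℝ) : ℂ) * (2 * F 0) :=
    hint (fun _ => 2 * F 0) continuous_const (fun t => by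
      rw [norm_mul]
      have : ‖(2 : ℂ)‖ = 2 := by norm_num
      rw [this]; linarith)
  have hfin : ∫ t : ℝ, (((Real.cosh (Real.pi * t))⁻¹ : ℝ) : ℂ) *
      (F (t - Complex.I / 2) + F (t + Complex.I / 2)) =
      (∫ t : ℝ, ((((Real.cosh (Real.pi * t))⁻¹ : ℝ) : ℂ) * (F (t - Complex.I / 2) - F 0) +
        (((Real.cosh (Real.pi * t))⁻¹ : ℝ) : ℂ) * (F (t + Complex.I / 2) - F 0))) +
      ∫ t : ℝ, (((Real.cosh (Real.pi * t))⁻¹ : ℝ) : ℂ) * (2 * F 0) := by
    have e := integral_add (hIm.add hIp) hI0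
    simp only [Pi.add_apply] at e
    rw [← e]
    apply integral_congr_ae
    filter_upwards with t
    ring
  rw [hfin, hAB', hk, zero_add]

/-- MODULE TT-D -/
theorem strip_formula (c : ℂ → ℂ) (hc : Differentiable ℂ c) (C : ℝ)
    (hC : ∀ z : ℂ, |z.im| ≤ 1 / 2 → ‖c z‖ ≤ C) (β : ℝ) :
    c 0 = ∫ t : ℝ, (Complex.exp (Complex.I * β * t) / (2 * Real.cosh (Real.pi * t) : ℝ)) *
      (((Real.exp (β / 2) : ℝ) : ℂ) * c (t - Complex.I / 2) +
        ((Real.exp (-β / 2) : ℝ) : ℂ) * c (t + Complex.I / 2)) := by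
  have hC0 : 0 ≤ C := (norm_nonneg _).trans (hC 0 (by norm_num))
  have h := strip_aux (fun z => Complex.exp (Complex.I * β * z) * c z)
    (by
      intro z
      exact ((by fun_prop : DifferentiableAt ℂ (fun z => Complex.exp (Complex.I * β * z)) z)).mul
        (hc z)) (Real.exp (|β| / 2) * C) (by
      intro z hz
      rw [norm_mul]
      apply mul_le_mul _ (hC z hz) (norm_nonneg _) (Real.exp_nonneg _)
      rw [Complex.norm_exp]
      apply Real.exp_le_exp.2
      have h1 : (Complex.I * β * z).re = -(β * z.im) := by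
        simp [Complex.mul_re]
      rw [h1]
      calc -(β * z.im) ≤ |β * z.im| := neg_le_abs _
        _ = |β| * |z.im| := abs_mul _ _
        _ ≤ |β| * (1 / 2) := mul_le_mul_of_nonneg_left hz (abs_nonneg _)
        _ = |β| / 2 := by ring)
  simp only [mul_zero, Complex.exp_zero, one_mul] at h
  have h2 : ∫ t : ℝ, (Complex.exp (Complex.I * β * t) / (2 * Real.cosh (Real.pi * t) : ℝ)) *
      (((Real.exp (β / 2) : ℝ) : ℂ) * c (t - Complex.I / 2) +
        ((Real.exp (-β / 2) : ℝ) : ℂ) * c (t + Complex.I / 2)) =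
      (1 / 2 : ℂ) * ∫ t : ℝ, (((Real.cosh (Real.pi * t))⁻¹ : ℝ) : ℂ) *
      (Complex.exp (Complex.I * β * (t - Complex.I / 2)) * c (t - Complex.I / 2) +
        Complex.exp (Complex.I * β * (t + Complex.I / 2)) * c (t + Complex.I / 2)) := by
    rw [← integral_const_mul]
    apply integral_congr_ae
    filter_upwards with t
    have e1 : Complex.exp (Complex.I * β * (t - Complex.I / 2)) =
        Complex.exp (Complex.I * β * t) * ((Real.exp (β / 2) : ℝ) : ℂ) := by
      rw [Complex.ofReal_exp, ← Complex.exp_add]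
      congr 1
      push_cast
      linear_combination (-(β : ℂ) / 2) * Complex.I_sq
    have e2 : Complex.exp (Complex.I * β * (t + Complex.I / 2)) =
        Complex.exp (Complex.I * β * t) * ((Real.exp (-β / 2) : ℝ) : ℂ) := by
      rw [Complex.ofReal_exp, ← Complex.exp_add]
      congr 1
      push_cast
      linear_combination ((β : ℂ) / 2) * Complex.I_sq
    rw [e1, e2]
    push_cast
    have hc : Complex.cosh (Real.pi * t) ≠ 0 := by
      have := (Real.cosh_pos (Real.pi * t)).ne'
      exact_mod_cast this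
    field_simp
  rw [h2, h]
  ring

end Pool.Agent.Helper5.TTD

end

section

open scoped InnerProductSpace Topology BoundedContinuousFunction FourierTransform

open ContinuousLinearMap Filter MeasureTheory

namespace Pool.Agent.Helper43.TTF

open Pool.Agent.Helper23

variable {H : Type*} [NormedAddCommGroup H] [InnerProductSpace ℂ H] [CompleteSpace H]

variable {R : H →L[ℂ] H} {D : H →L[ℝ] H} {Ψ : (ℝ →ᵇ ℂ) →⋆ₐ[ℂ] (H →L[ℂ] H)} {J : H →L[ℝ] H}

lemma ker_int : Integrable (fun t : ℝ => (2 * Real.cosh (Real.pi * t))⁻¹) := by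
  have h := Pool.Agent.Helper5.TTD.integrable_inv_cosh.const_mul (2⁻¹ : ℝ)
  refine h.congr (Eventually.of_forall fun t => ?_)
  change 2⁻¹ * (Real.cosh (Real.pi * t))⁻¹ = (2 * Real.cosh (Real.pi * t))⁻¹
  rw [mul_inv]

end Pool.Agent.Helper43.TTF

end

section

open scoped InnerProductSpace Topology BoundedContinuousFunction

open ContinuousLinearMap Filter MeasureTheory

namespace Pool.Agent.Helper88.CS

open Pool.Agent.Helper23

variable {H : Type*} [NormedAddCommGroup H] [InnerProductSpace ℂ H] [CompleteSpace H]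

/-- projections of `A` -/
def IsP (A : VonNeumannAlgebra H) (e : H →L[ℂ] H) : Prop := e ∈ A ∧ star e = e ∧ e * e = e

/-- a factor all of whose nonzero projections are infinite -/
structure FInf (A : VonNeumannAlgebra H) : Prop where
  factor : ∀ z ∈ A, z ∈ A.commutant → ∃ c : ℂ, z = c • (1 : H →L[ℂ] H)
  infinite : ∀ e, IsP A e → e ≠ 0 → ∃ v ∈ A, star v * v = e ∧ e * v = v ∧ v * star v ≠ e

/-- `l` is in the spectrum of the modular operator of the vector `ζ`, i.e. for each `ε > 0` there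
is `a ∈ A` with `‖a ζ‖ = 1` and `‖(Δ - l) a ζ‖ ≤ ε`; here `⟪x* ζ, Δ a ζ⟫ = ⟪a* ζ, x ζ⟫`. -/
def SpecAt (A : VonNeumannAlgebra H) (ζ : H) (l : ℝ) : Prop := ∀ ε : ℝ, 0 < ε → ∃ a ∈ A,
  ‖a ζ‖ = 1 ∧ ∀ x ∈ A, ‖⟪(star a) ζ, x ζ⟫_ℂ - (l : ℂ) * ⟪(star x) ζ, a ζ⟫_ℂ‖ ≤ ε * ‖(star x) ζ‖

/-- type III factor, `S(A) = [0, ∞)`, vector form -/
structure III1V (A : VonNeumannAlgebra H) : Prop extends FInf A where
  spec : ∀ ζ : H, ‖ζ‖ = 1 → (∀ a ∈ A, a ζ = 0 → a = 0) → ∀ l : ℝ, 0 < l → SpecAt A ζ l

end Pool.Agent.Helper88.CS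

end

section

open scoped InnerProductSpace Topology BoundedContinuousFunction

open ContinuousLinearMap Filter MeasureTheory

namespace Pool.Agent.Helper88.CS

open Pool.Agent.Helper23

variable {H : Type*} [NormedAddCommGroup H] [InnerProductSpace ℂ H] [CompleteSpace H]

namespace SumsAux

lemma inner_star (T : H →L[ℂ] H) (x y : H) : ⟪T x, y⟫_ℂ = ⟪x, (star T) y⟫_ℂ := by
  rw [star_eq_adjoint]; exact (adjoint_inner_right T x y).symm

/-- the orthogonality of the ranges -/
lemma inner_zero {w : ℕ → H →L[ℂ] H} (h1 : ∀ m n, m ≠ n → star (w m) * w n = 0)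
    {m n : ℕ} (hmn : m ≠ n) (x y : H) : ⟪w m x, w n y⟫_ℂ = 0 := by
  rw [inner_star]
  have : (star (w m)) (w n y) = (star (w m) * w n) y := rfl
  rw [this, h1 m n hmn]
  simp

lemma norm_sq_sum {w : ℕ → H →L[ℂ] H} (h1 : ∀ m n, m ≠ n → star (w m) * w n = 0)
    (F : Finset ℕ) (x : H) : ‖∑ n ∈ F, w n x‖ ^ 2 = ∑ n ∈ F, ‖w n x‖ ^ 2 := by
  classical
  induction F using Finset.induction_on with
  | empty => simp
  | insert a s ha ih =>
    rw [Finset.sum_insert ha, Finset.sum_insert ha, ← ih]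
    have h0 : ⟪w a x, ∑ n ∈ s, w n x⟫_ℂ = 0 := by
      rw [inner_sum]
      refine Finset.sum_eq_zero fun n hn => inner_zero h1 ?_ x x
      rintro rfl
      exact ha hn
    have h2 := norm_add_sq (𝕜 := ℂ) (w a x) (∑ n ∈ s, w n x)
    rw [h0] at h2
    simpa using h2

lemma sum_sq_le {w : ℕ → H →L[ℂ] H} (hw : ∀ n, w n * star (w n) * w n = w n)
    (h2 : ∀ m n, m ≠ n → w m * star (w n) = 0)
    (F : Finset ℕ) (x : H) : ∑ n ∈ F, ‖w n x‖ ^ 2 ≤ ‖x‖ ^ 2 := by
  classical
  set P : H →L[ℂ] H := ∑ n ∈ F, star (w n) * w n with hP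
  have hstar : star P = P := by
    rw [hP, star_sum]
    refine Finset.sum_congr rfl fun n _ => ?_
    rw [star_mul, star_star]
  have hidem : P * P = P := by
    rw [hP, Finset.sum_mul]
    refine Finset.sum_congr rfl fun n hn => ?_
    rw [Finset.mul_sum, Finset.sum_eq_single n]
    · rw [show star (w n) * w n * (star (w n) * w n) = star (w n) * (w n * star (w n) * w n) by
        simp only [mul_assoc], hw n]
    · intro m _ hm
      rw [show star (w n) * w n * (star (w m) * w m) = star (w n) * (w n * star (w m)) * w m by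
        simp only [mul_assoc], h2 n m (Ne.symm hm)]
      simp
    · intro h; exact absurd hn h
  have e1 : (∑ n ∈ F, ‖w n x‖ ^ 2 : ℝ) = RCLike.re ⟪x, P x⟫_ℂ := by
    rw [hP]
    simp only [sum_apply, inner_sum, map_sum]
    refine Finset.sum_congr rfl fun n _ => ?_
    have : (star (w n) * w n) x = (star (w n)) (w n x) := rfl
    rw [this, ← inner_star, inner_self_eq_norm_sq]
  have e2 : RCLike.re ⟪x, P x⟫_ℂ = ‖P x‖ ^ 2 := by
    have : ⟪P x, P x⟫_ℂ = ⟪x, P x⟫_ℂ := by
      rw [inner_star, hstar]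
      have : P (P x) = (P * P) x := rfl
      rw [this, hidem]
    rw [← this, inner_self_eq_norm_sq]
  have e3 : ‖P x‖ ^ 2 ≤ ‖x‖ * ‖P x‖ := by
    rw [← e2]
    exact (RCLike.re_le_norm _).trans (norm_inner_le_norm _ _)
  rw [e1, e2]
  have e4 : ‖P x‖ ≤ ‖x‖ := by
    by_cases h0 : ‖P x‖ = 0
    · rw [h0]; exact norm_nonneg x
    · have : 0 < ‖P x‖ := lt_of_le_of_ne (norm_nonneg _) (Ne.symm h0)
      nlinarith
  exact pow_le_pow_left₀ (norm_nonneg _) e4 2

lemma norm_sum_le' {w : ℕ → H →L[ℂ] H} (hw : ∀ n, w n * star (w n) * w n = w n)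
    (h1 : ∀ m n, m ≠ n → star (w m) * w n = 0) (h2 : ∀ m n, m ≠ n → w m * star (w n) = 0)
    (F : Finset ℕ) (x : H) : ‖∑ n ∈ F, w n x‖ ≤ ‖x‖ := by
  have h := sum_sq_le hw h2 F x
  rw [← norm_sq_sum h1 F x] at h
  exact (pow_le_pow_iff_left₀ (norm_nonneg _) (norm_nonneg _) two_ne_zero).1 h

lemma summable_app {w : ℕ → H →L[ℂ] H} (hw : ∀ n, w n * star (w n) * w n = w n)
    (h1 : ∀ m n, m ≠ n → star (w m) * w n = 0) (h2 : ∀ m n, m ≠ n → w m * star (w n) = 0)
    (x : H) : Summable (fun n => w n x) := by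
  have hs : Summable (fun n => ‖w n x‖ ^ 2) :=
    summable_of_sum_le (fun n => by positivity) (fun F => sum_sq_le hw h2 F x)
  rw [summable_iff_vanishing_norm]
  intro ε hε
  obtain ⟨s, hs'⟩ := summable_iff_vanishing_norm.1 hs (ε ^ 2) (by positivity)
  refine ⟨s, fun t ht => ?_⟩
  have h3 := hs' t ht
  rw [← norm_sq_sum h1 t x, Real.norm_of_nonneg (by positivity)] at h3
  exact (pow_lt_pow_iff_left₀ (norm_nonneg _) hε.le two_ne_zero).1 h3

lemma exists_lim {w : ℕ → H →L[ℂ] H} (hw : ∀ n, w n * star (w n) * w n = w n)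
    (h1 : ∀ m n, m ≠ n → star (w m) * w n = 0) (h2 : ∀ m n, m ≠ n → w m * star (w n) = 0) :
    ∃ v : H →L[ℂ] H, ∀ x, HasSum (fun n => w n x) (v x) := by
  have hsum := summable_app hw h1 h2
  refine ⟨LinearMap.mkContinuous
    { toFun := fun x => ∑' n, w n x
      map_add' := fun x y => ?_
      map_smul' := fun c x => ?_ } 1 fun x => ?_, fun x => ?_⟩
  · rw [← (hsum x).tsum_add (hsum y)]
    exact tsum_congr fun n => map_add _ _ _
  · rw [RingHom.id_apply, ← (hsum x).tsum_const_smul]
    exact tsum_congr fun n => map_smul _ _ _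
  · rw [one_mul]
    refine le_of_tendsto (hsum x).hasSum.norm (Eventually.of_forall fun F => ?_)
    exact norm_sum_le' hw h1 h2 F x
  · exact (hsum x).hasSum

end SumsAux

end Pool.Agent.Helper88.CS

end

section

open scoped InnerProductSpace Topology BoundedContinuousFunction

open ContinuousLinearMap Filter MeasureTheory

namespace Pool.Agent.Helper88.CS

open Pool.Agent.Helper23

variable {H : Type*} [NormedAddCommGroup H] [InnerProductSpace ℂ H] [CompleteSpace H]

variable {A : VonNeumannAlgebra H} {ξ : H}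

namespace InftyAux

theorem eq_zero_of_star_mul {a : H →L[ℂ] H} (h : star a * a = 0) : a = 0 :=
  CStarRing.star_mul_self_eq_zero_iff a |>.1 h

theorem eq_zero_of_mul_star {a : H →L[ℂ] H} (h : a * star a = 0) : a = 0 :=
  CStarRing.mul_star_self_eq_zero_iff a |>.1 h

/-- `v e = v` if `v* v = e` is a projection -/
theorem mul_eq {v e : H →L[ℂ] H} (he1 : star e = e) (he2 : e * e = e) (hv : star v * v = e) :
    v * e = v := by
  have h : star (v * e - v) * (v * e - v) = 0 := by
    rw [star_sub, star_mul, he1]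
    calc (e * star v - star v) * (v * e - v)
        = e * (star v * v) * e - e * (star v * v) - (star v * v) * e + star v * v := by noncomm_ring
      _ = 0 := by rw [hv]; simp only [he2]; abel
  exact sub_eq_zero.1 (eq_zero_of_star_mul h)

end InftyAux

open InftyAux

/-- an infinite projection contains a sequence of orthogonal equivalent nonzero projections -/
theorem exists_seq (hA : FInf A) {e : H →L[ℂ] H} (he : IsP A e) (he0 : e ≠ 0) :
    ∃ p : ℕ → H →L[ℂ] H, ∃ x : ℕ → H →L[ℂ] H, (∀ n, IsP A (p n) ∧ p n ≠ 0 ∧ e * p n = p n) ∧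
      (∀ m n, m ≠ n → p m * p n = 0) ∧
      ∀ n, x n ∈ A ∧ star (x n) * x n = p 0 ∧ x n * star (x n) = p n := by
  obtain ⟨v, hvA, hv1, hv2, hv3⟩ := hA.infinite e he he0
  obtain ⟨heA, he1, he2⟩ := he
  have hve : v * e = v := mul_eq he1 he2 hv1
  have hev : e * star v = star v := by
    have := congrArg star hve
    rwa [star_mul, he1] at this
  have hve' : star v * e = star v := by
    have := congrArg star hv2
    rwa [star_mul, he1] at this
  set d : H →L[ℂ] H := e - v * star v with hd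
  have hdA : d ∈ A := sub_mem heA (mul_mem hvA (star_mem hvA))
  have hd0 : d ≠ 0 := fun h => hv3 (sub_eq_zero.1 h).symm
  have hd1 : star d = d := by rw [hd, star_sub, star_mul, star_star, he1]
  have hvd : star v * d = 0 := by
    rw [hd, mul_sub, hve', ← mul_assoc, hv1, hev, sub_self]
  have hed : e * d = d := by
    rw [hd, mul_sub, he2, ← mul_assoc, hv2]
  have hde : d * e = d := by
    have := congrArg star hed
    rwa [star_mul, he1, hd1] at this
  have hdd : d * d = d := by
    have h1 : d * v = 0 := by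
      have := congrArg star hvd
      rwa [star_mul, star_star, hd1, star_zero] at this
    calc d * d = d * e - d * v * star v := by rw [hd]; noncomm_ring
      _ = d := by rw [hde, h1, zero_mul, sub_zero]
  let y : ℕ → H →L[ℂ] H := fun n => v ^ n * d
  have hy0 : y 0 = d := by simp [y]
  have hyS : ∀ n, y (n + 1) = v * y n := fun n => by
    simp only [y, pow_succ', mul_assoc]
  have hyA : ∀ n, y n ∈ A := fun n => mul_mem (pow_mem hvA n) hdA
  have hey : ∀ n, e * y n = y n := by
    intro n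
    cases n with
    | zero => rw [hy0, hed]
    | succ n => rw [hyS, ← mul_assoc, hv2]
  have hyd : ∀ n, y n * d = y n := fun n => by
    simp only [y, mul_assoc, hdd]
  have hort : ∀ m n, star (y m) * y n = if m = n then d else 0 := by
    intro m
    induction m with
    | zero =>
      intro n
      cases n with
      | zero => rw [hy0, hd1, hdd]; simp
      | succ n =>
        rw [hy0, hyS, ← mul_assoc]
        have : star d * v = 0 := by
          have := congrArg star hvd
          rwa [star_mul, star_star, star_zero] at this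
        rw [this, zero_mul]; simp
    | succ m ih =>
      intro n
      cases n with
      | zero =>
        rw [hyS, hy0, star_mul, mul_assoc, hvd, mul_zero]; simp
      | succ n =>
        rw [hyS, hyS, star_mul, mul_assoc, ← mul_assoc (star v) v, hv1, hey, ih]
        simp
  refine ⟨fun n => y n * star (y n), y, fun n => ⟨⟨?_, ?_, ?_⟩, ?_, ?_⟩, ?_, fun n => ⟨?_, ?_, ?_⟩⟩
  · exact mul_mem (hyA n) (star_mem (hyA n))
  · rw [star_mul, star_star]
  · calc y n * star (y n) * (y n * star (y n)) = y n * (star (y n) * y n) * star (y n) := by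
          noncomm_ring
      _ = y n * star (y n) := by rw [hort, if_pos rfl, hyd]
  · intro h
    have h1 := eq_zero_of_mul_star h
    have h2 := hort n n
    rw [h1, mul_zero, if_pos rfl] at h2
    exact hd0 h2.symm
  · show e * (y n * star (y n)) = y n * star (y n)
    rw [← mul_assoc, hey]
  · intro m n hmn
    show y m * star (y m) * (y n * star (y n)) = 0
    calc y m * star (y m) * (y n * star (y n)) = y m * (star (y m) * y n) * star (y n) := by
          noncomm_ring
      _ = 0 := by rw [hort, if_neg hmn, mul_zero, zero_mul]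
  · exact hyA n
  · show star (y n) * y n = y 0 * star (y 0)
    rw [hort, if_pos rfl, hy0, hd1, hdd]
  · rfl

end Pool.Agent.Helper88.CS

end

section

open scoped InnerProductSpace Topology BoundedContinuousFunction

open ContinuousLinearMap Filter MeasureTheory

namespace Pool.Agent.Helper88.CS

open Pool.Agent.Helper23

variable {H : Type*} [NormedAddCommGroup H] [InnerProductSpace ℂ H] [CompleteSpace H]

theorem exists_max {α : Type*} [Preorder α] (m : α → ℝ) {C : ℝ} (hC : ∀ a, m a ≤ C)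
    (hm : Monotone m) (hseq : ∀ s : ℕ → α, Monotone s → ∃ b, ∀ n, s n ≤ b) (a : α) :
    ∃ b, a ≤ b ∧ ∀ c, b ≤ c → m c = m b := by
  have key : ∀ x : α, ∃ y, x ≤ y ∧ ∀ c, x ≤ c → (m x + m c) / 2 ≤ m y := by
    intro x
    by_contra hcon
    push Not at hcon
    have hb : BddAbove (m '' Set.Ici x) := ⟨C, by rintro _ ⟨c, _, rfl⟩; exact hC c⟩
    have hne : (m '' Set.Ici x).Nonempty := ⟨m x, x, le_refl x, rfl⟩
    obtain ⟨c₀, hc₀, h₀⟩ := hcon x (le_refl x)
    have h1 : m x < m c₀ := by linarith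
    have h2 : m c₀ ≤ sSup (m '' Set.Ici x) := le_csSup hb ⟨c₀, hc₀, rfl⟩
    obtain ⟨_, ⟨y, hy, rfl⟩, h3⟩ := exists_lt_of_lt_csSup hne
      (show (m x + sSup (m '' Set.Ici x)) / 2 < sSup (m '' Set.Ici x) by linarith)
    obtain ⟨c, hc, h4⟩ := hcon y hy
    have h5 : m c ≤ sSup (m '' Set.Ici x) := le_csSup hb ⟨c, hc, rfl⟩
    linarith
  choose f hf hf2 using key
  let s : ℕ → α := fun n => f^[n] a
  have hs : ∀ n, s (n + 1) = f (s n) := fun n => Function.iterate_succ_apply' f n a
  have hmono : Monotone s := monotone_nat_of_le_succ fun n => by rw [hs]; exact hf _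
  obtain ⟨b, hb⟩ := hseq s hmono
  refine ⟨b, hb 0, fun c hc => le_antisymm ?_ (hm hc)⟩
  have h1 : ∀ n, m c - m (s n) ≤ (m c - m a) * (1 / 2) ^ n := by
    intro n
    induction n with
    | zero => simp [s]
    | succ n ih =>
      have := hf2 (s n) c ((hb n).trans hc)
      rw [hs, pow_succ]
      linarith
  have h2 : ∀ n, m c - m b ≤ (m c - m a) * (1 / 2) ^ n := fun n => by
    have := hm (hb n)
    linarith [h1 n]
  have h3 : Filter.Tendsto (fun n : ℕ => (m c - m a) * (1 / 2 : ℝ) ^ n) Filter.atTop (nhds 0) := by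
    have := (tendsto_pow_atTop_nhds_zero_of_lt_one (r := (1 / 2 : ℝ)) (by norm_num)
      (by norm_num)).const_mul (m c - m a)
    simpa using this
  have := ge_of_tendsto' h3 h2
  linarith

end Pool.Agent.Helper88.CS

end

section

open scoped InnerProductSpace Topology ENNReal BoundedContinuousFunction

open ContinuousLinearMap Filter MeasureTheory

namespace Pool.Agent.Helper23.ED

open Pool.Agent.Helper23 Pool.Agent.Helper23.RBF

universe u

variable {K : Type*} [NormedAddCommGroup K] [InnerProductSpace ℂ K] [CompleteSpace K]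

variable {A : VonNeumannAlgebra K} {κ : K} {R : K →L[ℂ] K} {D : K →L[ℝ] K}
  {Ψ : (ℝ →ᵇ ℂ) →⋆ₐ[ℂ] (K →L[ℂ] K)}

/-- the Fourier transform of the Gaussian -/
noncomputable def GZ (m : ℝ) (hm : 0 < m) (z : ℂ) : ℝ →ᵇ ℂ :=
  BoundedContinuousFunction.ofNormedAddCommGroup
    (fun ρ : ℝ => ((Real.sqrt (Real.pi / m) : ℝ) : ℂ) *
      Complex.exp (Complex.I * z * ρ - (ρ : ℂ) ^ 2 / (4 * m))) (by fun_prop)
    (Real.sqrt (Real.pi / m) * Real.exp (m * z.im ^ 2)) (by
      intro ρ
      rw [norm_mul, Complex.norm_real, Real.norm_of_nonneg (Real.sqrt_nonneg _),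
        Complex.norm_exp]
      refine mul_le_mul_of_nonneg_left (Real.exp_le_exp.2 ?_) (Real.sqrt_nonneg _)
      have h1 : (Complex.I * z * ρ - (ρ : ℂ) ^ 2 / (4 * m)).re = -(z.im * ρ) - ρ ^ 2 / (4 * m) := by
        have h2 : (ρ : ℂ) ^ 2 / (4 * m) = ((ρ ^ 2 / (4 * m) : ℝ) : ℂ) := by push_cast; ring
        rw [h2, Complex.sub_re, Complex.ofReal_re]
        simp [Complex.mul_re]
      rw [h1]
      have h3 : m * z.im ^ 2 - (-(z.im * ρ) - ρ ^ 2 / (4 * m)) =
          (2 * m * z.im + ρ) ^ 2 / (4 * m) := by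
        field_simp
        ring
      have h4 : 0 ≤ (2 * m * z.im + ρ) ^ 2 / (4 * m) := by positivity
      linarith)

end Pool.Agent.Helper23.ED

end

section

open scoped InnerProductSpace Topology ENNReal BoundedContinuousFunction

open ContinuousLinearMap Filter MeasureTheory

namespace Pool.Agent.Helper23.ED

open Pool.Agent.Helper23 Pool.Agent.Helper23.RBF

universe u

variable {H : Type*} [NormedAddCommGroup H] [InnerProductSpace ℂ H] [CompleteSpace H]

variable {K : Type*} [NormedAddCommGroup K] [InnerProductSpace ℂ K] [CompleteSpace K]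

theorem exists_isom_of_inj (A : H →L[ℂ] K) (hA : ∀ v, A v = 0 → v = 0) :
    ∃ I : H →L[ℂ] K, (∀ x y, ⟪I x, I y⟫_ℂ = ⟪x, y⟫_ℂ) ∧
      ∀ (a : H →L[ℂ] H) (b : K →L[ℂ] K), (∀ x, A (a x) = b (A x)) →
        (∀ x, A ((star a) x) = (star b) (A x)) → ∀ x, I (a x) = b (I x) := by
  set B : H →L[ℂ] H := (adjoint A).comp A with hB
  have hB0 : 0 ≤ B := by
    rw [ContinuousLinearMap.nonneg_iff_isPositive]
    exact ContinuousLinearMap.isPositive_adjoint_comp_self A
  set P : H →L[ℂ] H := CFC.sqrt B with hP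
  have hP0 : 0 ≤ P := CFC.sqrt_nonneg B
  have hPP : P * P = B := CFC.sqrt_mul_sqrt_self B hB0
  have hPs : star P = P := hP0.star_eq
  have hPi : ∀ x y, ⟪P x, y⟫_ℂ = ⟪x, P y⟫_ℂ := by
    intro x y
    have h := adjoint_inner_left P y x
    rw [← star_eq_adjoint, hPs] at h
    exact h
  have hin : ∀ x y, ⟪P x, P y⟫_ℂ = ⟪A x, A y⟫_ℂ := by
    intro x y
    have h1 : P (P y) = adjoint A (A y) := congrArg (fun T : H →L[ℂ] H => T y) hPP
    rw [hPi, h1, adjoint_inner_right]
  have hnorm : ∀ x, ‖P x‖ = ‖A x‖ := by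
    intro x
    have h1 := hin x x
    rw [inner_self_eq_norm_sq_to_K, inner_self_eq_norm_sq_to_K] at h1
    have h4 : ‖P x‖ ^ 2 = ‖A x‖ ^ 2 := by exact_mod_cast h1
    exact (sq_eq_sq₀ (norm_nonneg _) (norm_nonneg _)).1 h4
  have hPinj : ∀ v, P v = 0 → v = 0 := by
    intro v hv
    apply hA
    have := hnorm v
    rw [hv, norm_zero] at this
    exact norm_eq_zero.1 this.symm
  -- dense range
  have hd : DenseRange P := by
    have h1 : (LinearMap.range (P : H →ₗ[ℂ] H)).topologicalClosure = ⊤ := by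
      rw [Submodule.topologicalClosure_eq_top_iff, Submodule.eq_bot_iff]
      intro y hy
      rw [Submodule.mem_orthogonal] at hy
      apply hPinj
      have h2 : ⟪P y, P y⟫_ℂ = 0 := by
        rw [← hPi]
        exact hy (P (P y)) ⟨P y, rfl⟩
      exact inner_self_eq_zero.1 h2
    have h2 := Submodule.dense_iff_topologicalClosure_eq_top.2 h1
    exact h2
  have hd' : DenseRange (P : H →ₗ[ℂ] H) := hd
  have hC : ∀ x, ‖(A : H →ₗ[ℂ] K) x‖ ≤ 1 * ‖(P : H →ₗ[ℂ] H) x‖ := by
    intro x
    rw [one_mul]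
    exact (hnorm x).ge
  refine ⟨(A : H →ₗ[ℂ] K).extendOfNorm (P : H →ₗ[ℂ] H), ?_, ?_⟩
  · set I := (A : H →ₗ[ℂ] K).extendOfNorm (P : H →ₗ[ℂ] H) with hI
    have hIP : ∀ x, I (P x) = A x := fun x => LinearMap.extendOfNorm_eq hd' ⟨1, hC⟩ x
    intro x y
    have h1 : ∀ x y, ⟪I (P x), I y⟫_ℂ = ⟪P x, y⟫_ℂ := by
      intro x y
      refine hd.induction_on (p := fun y => ⟪I (P x), I y⟫_ℂ = ⟪P x, y⟫_ℂ) y ?_ ?_
      · exact isClosed_eq (by fun_prop) (by fun_prop)
      · intro z
        rw [hIP, hIP, hin]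
    refine hd.induction_on (p := fun x => ⟪I x, I y⟫_ℂ = ⟪x, y⟫_ℂ) x ?_ ?_
    · exact isClosed_eq (by fun_prop) (by fun_prop)
    · intro z
      exact h1 z y
  · set I := (A : H →ₗ[ℂ] K).extendOfNorm (P : H →ₗ[ℂ] H) with hI
    have hIP : ∀ x, I (P x) = A x := fun x => LinearMap.extendOfNorm_eq hd' ⟨1, hC⟩ x
    intro a b hab hab' x
    have hc : Commute B a := by
      change B * a = a * B
      ext v
      change (adjoint A) (A (a v)) = a ((adjoint A) (A v))
      refine ext_inner_left ℂ (fun y => ?_)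
      rw [adjoint_inner_right, hab, ← adjoint_inner_left a, adjoint_inner_right,
        ← star_eq_adjoint a, hab', star_eq_adjoint, adjoint_inner_left]
    have hc' : Commute P a := Commute.cfcₙ_nnreal hc _
    have hPa : ∀ v, P (a v) = a (P v) := fun v => congrArg (fun T : H →L[ℂ] H => T v) hc'.eq
    refine hd.induction_on (p := fun x => I (a x) = b (I x)) x ?_ ?_
    · exact isClosed_eq (by fun_prop) (by fun_prop)
    · intro z
      rw [← hPa, hIP, hIP, hab]

end Pool.Agent.Helper23.ED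

end
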