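import Pool.Agent.Helper23.FA.Ns

/-!
Parts of Helper78.BC.Defs, Helper78.BC.Lip2, Helper43.TTF.B, Helper60.TTA, Helper23.Dom2, Helper23.Partner, Helper23.UDefs, Helper23.Irr, Helper23.UOc, Helper5.PU.SeqSurj, Helper5.PU.U11, Helper88.CS.Infty, Helper88.CS.Equiv, Helper88.CS.CornerSpec, Helper88.CS.Corner, Helper88.CS.Step, Helper88.CS.Real, Helper23.ED.FcB, Helper23.ED.NgE, Helper23.ED.SlB
-/

section

open scoped InnerProductSpace Topology BoundedContinuousFunction

open ContinuousLinearMap Filter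

namespace Pool.Agent.Helper78.BC

variable {H : Type*} [NormedAddCommGroup H] [InnerProductSpace ℂ H] [CompleteSpace H]

/-- unitaries of `A` -/
def Un (A : VonNeumannAlgebra H) (u : H →L[ℂ] H) : Prop :=
  u ∈ A ∧ star u * u = 1 ∧ u * star u = 1

end Pool.Agent.Helper78.BC

end

section

open scoped InnerProductSpace Topology BoundedContinuousFunction

open ContinuousLinearMap Filter

namespace Pool.Agent.Helper78.BC

variable {H : Type*} [NormedAddCommGroup H] [InnerProductSpace ℂ H] [CompleteSpace H]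

variable {A : VonNeumannAlgebra H} {ξ : H} {J : H →L[ℝ] H}
  {Ψ : (ℝ →ᵇ ℂ) →⋆ₐ[ℂ] (H →L[ℂ] H)}

namespace Lip2

lemma un_star {u : H →L[ℂ] H} (hu : Un A u) : Un A (star u) :=
  ⟨star_mem hu.1, by rw [star_star]; exact hu.2.2, by rw [star_star]; exact hu.2.1⟩

lemma un_one : Un A (1 : H →L[ℂ] H) := ⟨one_mem A, by simp, by simp⟩

lemma un_mul {u w : H →L[ℂ] H} (hu : Un A u) (hw : Un A w) : Un A (u * w) := by
  refine ⟨mul_mem hu.1 hw.1, ?_, ?_⟩
  · rw [star_mul, mul_assoc, ← mul_assoc (star u), hu.2.1, one_mul, hw.2.1]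
  · rw [star_mul, mul_assoc, ← mul_assoc w, hw.2.2, one_mul, hu.2.2]

lemma un_norm {u : H →L[ℂ] H} (hu : Un A u) (v : H) : ‖u v‖ = ‖v‖ := by
  have h1 : ⟪u v, u v⟫_ℂ = ⟪v, v⟫_ℂ := by
    rw [← ContinuousLinearMap.adjoint_inner_right, ← ContinuousLinearMap.star_eq_adjoint]
    have : (star u) (u v) = v := by
      have := congrArg (fun T : H →L[ℂ] H => T v) hu.2.1
      exact this
    rw [this]
  rw [inner_self_eq_norm_sq_to_K, inner_self_eq_norm_sq_to_K] at h1
  have h2 : ‖u v‖ ^ 2 = ‖v‖ ^ 2 := by exact_mod_cast h1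
  exact (sq_eq_sq₀ (norm_nonneg _) (norm_nonneg _)).1 h2

end Lip2

end Pool.Agent.Helper78.BC

end

section

open scoped InnerProductSpace Topology BoundedContinuousFunction

open ContinuousLinearMap Filter MeasureTheory

namespace Pool.Agent.Helper43.TTF

open Pool.Agent.Helper23

variable {H : Type*} [NormedAddCommGroup H] [InnerProductSpace ℂ H] [CompleteSpace H]

/-- `f = FR - 1`, real version -/
noncomputable def fr (ρ : ℝ) : ℝ := 2 / (1 + Real.exp ρ) - 1

lemma fr_cont : Continuous fr := by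
  unfold fr
  refine Continuous.sub (Continuous.div (by fun_prop) (by fun_prop) ?_) continuous_const
  intro ρ
  positivity

lemma fr_anti {a b : ℝ} (h : a ≤ b) : fr b ≤ fr a := by
  unfold fr
  have h1 : Real.exp a ≤ Real.exp b := Real.exp_le_exp.2 h
  have h2 : 2 / (1 + Real.exp b) ≤ 2 / (1 + Real.exp a) := by
    apply div_le_div_of_nonneg_left (by norm_num) (by positivity)
    linarith
  linarith

lemma fr_neg (a : ℝ) : fr (-a) = - fr a := by
  unfold fr
  rw [Real.exp_neg]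
  have : (0 : ℝ) < Real.exp a := Real.exp_pos a
  field_simp
  ring

lemma fr_pos_lt {a : ℝ} (h : 0 < a) : fr a < 0 := by
  unfold fr
  have h1 : 1 < Real.exp a := by rw [← Real.exp_zero]; exact Real.exp_lt_exp.2 h
  rw [sub_neg, div_lt_one (by positivity)]
  linarith

lemma fr_sq_ge {δ ρ : ℝ} (hδ : 0 < δ) (h : δ ≤ |ρ|) : fr δ ^ 2 ≤ fr ρ ^ 2 := by
  have h1 := fr_pos_lt hδ
  rcases le_abs.1 h with h2 | h2
  · have h3 := fr_anti h2
    nlinarith
  · have h3 := fr_anti h2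
    rw [fr_neg] at h3
    nlinarith

lemma fr_abs_le (ρ : ℝ) : |fr ρ| ≤ 1 := by
  unfold fr
  have h0 : (0 : ℝ) < Real.exp ρ := Real.exp_pos ρ
  have h1 : 0 < 2 / (1 + Real.exp ρ) := by positivity
  have h2 : 2 / (1 + Real.exp ρ) ≤ 2 := by
    rw [div_le_iff₀ (by positivity)]; nlinarith
  rw [abs_le]
  constructor <;> linarith

/-- regularised inverse of `fr` -/
noncomputable def hB (n : ℕ) : ℝ →ᵇ ℂ :=
  BoundedContinuousFunction.ofNormedAddCommGroup
    (fun ρ : ℝ => ((fr ρ / (fr ρ ^ 2 + 1 / ((n : ℝ) + 1)) : ℝ) : ℂ))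
    (by
      refine Complex.continuous_ofReal.comp (Continuous.div fr_cont
        ((fr_cont.pow 2).add continuous_const) ?_)
      intro ρ
      positivity) ((n : ℝ) + 1) (by
      intro ρ
      rw [Complex.norm_real, Real.norm_eq_abs, abs_div,
        abs_of_pos (a := fr ρ ^ 2 + 1 / ((n : ℝ) + 1)) (by positivity), div_le_iff₀ (by positivity)]
      have h1 := fr_abs_le ρ
      have h2 : (0 : ℝ) < (n : ℝ) + 1 := by positivity
      have h3 : ((n : ℝ) + 1) * (fr ρ ^ 2 + 1 / ((n : ℝ) + 1)) = ((n : ℝ) + 1) * fr ρ ^ 2 + 1 := by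
        field_simp
      rw [h3]
      have := sq_nonneg (fr ρ)
      nlinarith)

lemma hB_apply (n : ℕ) (ρ : ℝ) :
    hB n ρ = ((fr ρ / (fr ρ ^ 2 + 1 / ((n : ℝ) + 1)) : ℝ) : ℂ) := rfl

end Pool.Agent.Helper43.TTF

end

section

open scoped InnerProductSpace Topology BoundedContinuousFunction

open ContinuousLinearMap Filter MeasureTheory

namespace Pool.Agent.Helper23

variable {H : Type*} [NormedAddCommGroup H] [InnerProductSpace ℂ H] [CompleteSpace H]

namespace TTA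

set_option linter.unusedSectionVars false

/-- real part of the inner product -/
noncomputable def rho (v w : H) : ℝ := (⟪v, w⟫_ℂ).re

lemma rho_comm (v w : H) : rho v w = rho w v := by
  unfold rho
  rw [← inner_conj_symm, Complex.conj_re]

lemma rho_add_right (v w z : H) : rho v (w + z) = rho v w + rho v z := by
  unfold rho; rw [inner_add_right, Complex.add_re]

lemma rho_sub_right (v w z : H) : rho v (w - z) = rho v w - rho v z := by
  unfold rho; rw [inner_sub_right, Complex.sub_re]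

lemma rho_add_left (v w z : H) : rho (v + w) z = rho v z + rho w z := by
  unfold rho; rw [inner_add_left, Complex.add_re]

lemma rho_sub_left (v w z : H) : rho (v - w) z = rho v z - rho w z := by
  unfold rho; rw [inner_sub_left, Complex.sub_re]

lemma rho_neg_left (v w : H) : rho (-v) w = - rho v w := by
  unfold rho; rw [inner_neg_left, Complex.neg_re]

lemma rho_neg_right (v w : H) : rho v (-w) = - rho v w := by
  unfold rho; rw [inner_neg_right, Complex.neg_re]

lemma rho_I_right (v w : H) : rho v (Complex.I • w) = - (⟪v, w⟫_ℂ).im := by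
  unfold rho; rw [inner_smul_right]; simp

lemma rho_I_left (v w : H) : rho (Complex.I • v) w = (⟪v, w⟫_ℂ).im := by
  unfold rho; rw [inner_smul_left]; simp

lemma rho_I_I (v w : H) : rho (Complex.I • v) w = - rho v (Complex.I • w) := by
  rw [rho_I_left, rho_I_right]; ring

lemma rho_self (v : H) : rho v v = ‖v‖ ^ 2 := by
  unfold rho
  rw [inner_self_eq_norm_sq_to_K]
  norm_cast

lemma inner_ext_rho {v w v' w' : H} (h1 : rho v w = rho v' w')
    (h2 : (⟪v, w⟫_ℂ).im = (⟪v', w'⟫_ℂ).im) : ⟪v, w⟫_ℂ = ⟪v', w'⟫_ℂ := Complex.ext h1 h2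

variable (A : VonNeumannAlgebra H) (ξ : H)

/-- the real inner product -/
noncomputable abbrev rips : InnerProductSpace ℝ H := InnerProductSpace.complexToReal

attribute [local instance] rips

lemma smul_split (c : ℂ) (v : H) : c • v = c.re • v + c.im • (Complex.I • v) := by
  conv_lhs => rw [← Complex.re_add_im c]
  rw [add_smul, mul_smul, Complex.coe_smul, Complex.coe_smul]

lemma inner_zero_of {v w : H} (h1 : rho v w = 0) (h2 : rho v (Complex.I • w) = 0) :
    ⟪v, w⟫_ℂ = 0 := by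
  apply Complex.ext
  · exact h1
  · rw [rho_I_right] at h2
    simpa using h2

lemma zero_of_dense {V : Set H} (hV : Dense V) {v : H} (h : ∀ w ∈ V, ⟪w, v⟫_ℂ = 0) : v = 0 := by
  have hcl : IsClosed {w : H | ⟪w, v⟫_ℂ = 0} :=
    isClosed_eq (continuous_id.inner continuous_const) continuous_const
  have h1 : ⟪v, v⟫_ℂ = 0 := closure_minimal (fun w hw => h w hw) hcl (hV v)
  exact inner_self_eq_zero.1 h1

end TTA

end Pool.Agent.Helper23

end

section

open scoped InnerProductSpace ComplexOrder ComplexStarModule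

open ContinuousLinearMap

namespace Pool.Agent.Helper23

variable {H : Type*} [NormedAddCommGroup H] [InnerProductSpace ℂ H] [CompleteSpace H]

section Abstract

variable {A : Type*} [CStarAlgebra A]

/-- complexification of a real-linear functional on the self-adjoint part -/
noncomputable def cplx (κ : selfAdjoint A →ₗ[ℝ] ℝ) : A →ₗ[ℂ] ℂ where
  toFun x := (κ (ℜ x) : ℂ) + Complex.I * (κ (ℑ x) : ℂ)
  map_add' x y := by
    simp only [map_add]
    push_cast
    ring
  map_smul' c x := by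
    simp only [realPart_smul, imaginaryPart_smul, map_sub, map_add, map_smul, smul_eq_mul,
      RingHom.id_apply]
    apply Complex.ext
    · simp
    · simp

lemma cplx_apply (κ : selfAdjoint A →ₗ[ℝ] ℝ) (x : A) :
    cplx κ x = (κ (ℜ x) : ℂ) + Complex.I * (κ (ℑ x) : ℂ) := rfl

lemma cplx_sa (κ : selfAdjoint A →ₗ[ℝ] ℝ) (x : selfAdjoint A) :
    cplx κ (x : A) = (κ x : ℂ) := by
  rw [cplx_apply, selfAdjoint.imaginaryPart_coe]
  have h : ℜ (x : A) = x := by
    apply Subtype.ext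
    exact x.property.coe_realPart
  rw [h, map_zero]
  simp

end Abstract

end Pool.Agent.Helper23

end

section

open scoped InnerProductSpace

open ContinuousLinearMap Filter

namespace Pool.Agent.Helper23

variable {H : Type*} [NormedAddCommGroup H] [InnerProductSpace ℂ H] [CompleteSpace H]

variable {M N : VonNeumannAlgebra H} {ξ : H} {E : (H →L[ℂ] H) → (H →L[ℂ] H)}

/-- `C' = σ_{-i}(C)`: `φ(C z) = φ(z C')` for all `z` in `N`. -/
def Partner (N : VonNeumannAlgebra H) (ξ : H) (C C' : H →L[ℂ] H) : Prop :=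
  C ∈ N ∧ C' ∈ N ∧ ∀ z ∈ N, ⟪ξ, C (z ξ)⟫_ℂ = ⟪ξ, z (C' ξ)⟫_ℂ

/-- quantitative almost commutation of `y` with partner pairs -/
def LB (N : VonNeumannAlgebra H) (ξ : H) (y : H →L[ℂ] H) (κ K : ℝ) : Prop :=
  ∀ C C', Partner N ξ C C' →
    ‖(y * C - C * y) ξ‖ ^ 2 ≤ κ * ‖C ξ‖ ^ 2 + K * ‖(C' - C) ξ‖ ^ 2

lemma Partner.zero : Partner N ξ 0 0 := ⟨zero_mem N, zero_mem N, fun _ _ => by simp⟩

lemma Partner.one : Partner N ξ 1 1 := ⟨one_mem N, one_mem N, fun z _ => rfl⟩

lemma Partner.add {C C' D D' : H →L[ℂ] H} (h : Partner N ξ C C') (k : Partner N ξ D D') :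
    Partner N ξ (C + D) (C' + D') :=
  ⟨add_mem h.1 k.1, add_mem h.2.1 k.2.1, fun z hz => by
    rw [add_apply, add_apply, inner_add_right, map_add, inner_add_right, h.2.2 z hz,
      k.2.2 z hz]⟩

lemma Partner.sub {C C' D D' : H →L[ℂ] H} (h : Partner N ξ C C') (k : Partner N ξ D D') :
    Partner N ξ (C - D) (C' - D') :=
  ⟨sub_mem h.1 k.1, sub_mem h.2.1 k.2.1, fun z hz => by
    rw [sub_apply, sub_apply, inner_sub_right, map_sub, inner_sub_right, h.2.2 z hz,
      k.2.2 z hz]⟩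

lemma Partner.mul {C C' D D' : H →L[ℂ] H} (h : Partner N ξ C C') (k : Partner N ξ D D') :
    Partner N ξ (C * D) (C' * D') :=
  ⟨mul_mem h.1 k.1, mul_mem h.2.1 k.2.1, fun z hz => by
    have h1 := h.2.2 (D * z) (mul_mem k.1 hz)
    have h2 := k.2.2 (z * C') (mul_mem hz h.2.1)
    change ⟪ξ, C ((D * z) ξ)⟫_ℂ = ⟪ξ, (z * C') (D' ξ)⟫_ℂ
    rw [h1, ← h2]
    rfl⟩

end Pool.Agent.Helper23

end

section

open scoped InnerProductSpace Topology

open ContinuousLinearMap Filter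

namespace Pool.Agent.Helper23

variable {H : Type*} [NormedAddCommGroup H] [InnerProductSpace ℂ H] [CompleteSpace H]

variable {K : Type*} [NormedAddCommGroup K] [InnerProductSpace ℂ K] [CompleteSpace K]

/-- the von Neumann algebra generated by a set -/
noncomputable def genVN (S : Set (K →L[ℂ] K)) : VonNeumannAlgebra K where
  toStarSubalgebra := StarSubalgebra.centralizer ℂ
    ((StarSubalgebra.centralizer ℂ S : StarSubalgebra ℂ (K →L[ℂ] K)) : Set (K →L[ℂ] K))
  centralizer_centralizer' := by simp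

end Pool.Agent.Helper23

end

section

open scoped InnerProductSpace Topology ENNReal

open ContinuousLinearMap Filter MeasureTheory

set_option linter.unusedSectionVars false

set_option linter.unusedVariables false

namespace Pool.Agent.Helper23

/-- the function `(1 + s²)⁻¹` -/
noncomputable def w0 (s : ℝ) : ℂ := (((1 + s ^ 2)⁻¹ : ℝ) : ℂ)

lemma w0_ne (s : ℝ) : w0 s ≠ 0 := by
  have : (0 : ℝ) < 1 + s ^ 2 := by positivity
  exact Complex.ofReal_ne_zero.2 (inv_ne_zero this.ne')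

lemma w0_cont : Continuous w0 := by
  refine Complex.continuous_ofReal.comp ?_
  exact (by fun_prop : Continuous fun s : ℝ => 1 + s ^ 2).inv₀ fun s => by positivity

lemma w0_norm (s : ℝ) : ‖w0 s‖ = (1 + s ^ 2)⁻¹ := by
  rw [w0, Complex.norm_real, Real.norm_of_nonneg (by positivity)]

lemma w0_memLp : MemLp w0 2 volume := by
  rw [memLp_two_iff_integrable_sq_norm w0_cont.aestronglyMeasurable]
  refine Integrable.mono integrable_inv_one_add_sq ?_ (Eventually.of_forall fun s => ?_)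
  · exact (w0_cont.norm.pow 2).aestronglyMeasurable
  · rw [w0_norm, Real.norm_of_nonneg (by positivity), Real.norm_of_nonneg (by positivity)]
    have h1 : (1 + s ^ 2)⁻¹ ≤ 1 := inv_le_one_of_one_le₀ (by nlinarith [sq_nonneg s])
    have h2 : (0 : ℝ) ≤ (1 + s ^ 2)⁻¹ := by positivity
    nlinarith

end Pool.Agent.Helper23

end

section

open scoped InnerProductSpace Topology

open ContinuousLinearMap Filter

namespace Pool.Agent.Helper23

universe u

variable {H : Type u} [NormedAddCommGroup H] [InnerProductSpace ℂ H] [CompleteSpace H]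

variable {L : Type u} [NormedAddCommGroup L] [InnerProductSpace ℂ L] [CompleteSpace L]

variable {K : Type u} [NormedAddCommGroup K] [InnerProductSpace ℂ K] [CompleteSpace K]

variable {M N A : VonNeumannAlgebra H} {ξ : H} {E : (H →L[ℂ] H) → (H →L[ℂ] H)}

section genVN

lemma oc_mem_genVN {S : Set (K →L[ℂ] K)} {T : K →L[ℂ] K} :
    T ∈ genVN S ↔ ∀ r : K →L[ℂ] K, (∀ s ∈ S, s * r = r * s ∧ star s * r = r * star s) →
      r * T = T * r := by
  have h0 : T ∈ genVN S ↔ T ∈ StarSubalgebra.centralizer ℂ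
    ((StarSubalgebra.centralizer ℂ S : StarSubalgebra ℂ (K →L[ℂ] K)) : Set (K →L[ℂ] K)) := Iff.rfl
  rw [h0, StarSubalgebra.mem_centralizer_iff]
  constructor
  · intro h r hr
    exact (h r ((StarSubalgebra.mem_centralizer_iff ℂ).2 hr)).1
  · intro h r hr
    refine ⟨h r ((StarSubalgebra.mem_centralizer_iff ℂ).1 hr), h (star r) ?_⟩
    exact (StarSubalgebra.mem_centralizer_iff ℂ).1 (star_mem hr)

lemma oc_genVN_mono {S S' : Set (K →L[ℂ] K)} (h : S ⊆ S') {T : K →L[ℂ] K} (hT : T ∈ genVN S) :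
    T ∈ genVN S' := by
  rw [oc_mem_genVN] at hT ⊢
  exact fun r hr => hT r fun s hs => hr s (h hs)

lemma oc_sub_genVN {S : Set (K →L[ℂ] K)} {T : K →L[ℂ] K} (hT : T ∈ S) : T ∈ genVN S := by
  rw [oc_mem_genVN]
  exact fun r hr => (hr T hT).1.symm

end genVN

end Pool.Agent.Helper23

end

section

open scoped InnerProductSpace Topology

open ContinuousLinearMap Filter

namespace Pool.Agent.Helper23

universe u

variable {H : Type u} [NormedAddCommGroup H] [InnerProductSpace ℂ H] [CompleteSpace H]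

variable {K : Type u} [NormedAddCommGroup K] [InnerProductSpace ℂ K] [CompleteSpace K]

variable {A : VonNeumannAlgebra H} {P : Set (ℕ → H →L[ℂ] H)} {ξ : H} {ζ : K}
  {rep : (ℕ → H →L[ℂ] H) → (K →L[ℂ] K)}

lemma subset_genVN (S : Set (K →L[ℂ] K)) {T : K →L[ℂ] K} (hT : T ∈ S) : T ∈ genVN S := by
  change T ∈ StarSubalgebra.centralizer ℂ
    ((StarSubalgebra.centralizer ℂ S : StarSubalgebra ℂ (K →L[ℂ] K)) : Set (K →L[ℂ] K))
  rw [StarSubalgebra.mem_centralizer_iff]
  intro g hg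
  have h1 := (StarSubalgebra.mem_centralizer_iff ℂ).1 hg T hT
  refine ⟨h1.1.symm, ?_⟩
  have h2 := congrArg star h1.2
  rw [star_mul, star_mul, star_star] at h2
  exact h2

end Pool.Agent.Helper23

end

section

open scoped InnerProductSpace Topology BoundedContinuousFunction

open ContinuousLinearMap Filter

namespace Pool.Agent.Helper23

universe u

variable {H : Type u} [NormedAddCommGroup H] [InnerProductSpace ℂ H] [CompleteSpace H]

variable {K : Type u} [NormedAddCommGroup K] [InnerProductSpace ℂ K] [CompleteSpace K]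

variable {M N : VonNeumannAlgebra H} {ξ : H} {E : (H →L[ℂ] H) → (H →L[ℂ] H)}

section aux

set_option linter.unusedSectionVars false

/-- weak convergence on dense sets of vectors and boundedness -/
lemma U11.weak_of_dense {ι : Type*} {F : Filter ι} {x : ι → H →L[ℂ] H} {C : ℝ} (hC : ∀ i, ‖x i‖ ≤ C)
    (y : H →L[ℂ] H) {D : Set H} (hD : Dense D)
    (h : ∀ v ∈ D, ∀ w ∈ D, Tendsto (fun i => ⟪v, x i w⟫_ℂ) F (𝓝 ⟪v, y w⟫_ℂ)) (v w : H) :
    Tendsto (fun i => ⟪v, x i w⟫_ℂ) F (𝓝 ⟪v, y w⟫_ℂ) := by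
  rcases F.eq_or_neBot with hbot | hne
  · rw [hbot]; exact Filter.tendsto_bot
  have hC0 : 0 ≤ C := by
    obtain ⟨i⟩ : Nonempty ι := Filter.nonempty_of_neBot F
    exact (norm_nonneg _).trans (hC i)
  -- first extend in `w`
  have h1 : ∀ v ∈ D, ∀ w : H, Tendsto (fun i => ⟪v, x i w⟫_ℂ) F (𝓝 ⟪v, y w⟫_ℂ) := by
    intro v hv w
    rw [Metric.tendsto_nhds]
    intro ε hε
    obtain ⟨w', hw'm, hw'⟩ := Metric.dense_iff.1 hD w (ε / (3 * ((‖v‖ + 1) * (C + ‖y‖ + 1))))
      (by positivity)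
    rw [Metric.mem_ball, dist_eq_norm, norm_sub_rev] at hw'm
    filter_upwards [(Metric.tendsto_nhds.1 (h v hv w' hw')) (ε / 3) (by positivity)] with i hi
    rw [dist_eq_norm] at hi ⊢
    have e1 : ⟪v, x i w⟫_ℂ - ⟪v, y w⟫_ℂ = ⟪v, x i (w - w')⟫_ℂ - ⟪v, y (w - w')⟫_ℂ +
        (⟪v, x i w'⟫_ℂ - ⟪v, y w'⟫_ℂ) := by
      rw [map_sub, map_sub, inner_sub_right, inner_sub_right]; ring
    have hk : ‖v‖ * ((C + ‖y‖) * ‖w - w'‖) ≤ ε / 3 := by
      have h3 : ‖v‖ * ((C + ‖y‖) * ‖w - w'‖) ≤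
          ((‖v‖ + 1) * (C + ‖y‖ + 1)) * (ε / (3 * ((‖v‖ + 1) * (C + ‖y‖ + 1)))) := by
        rw [← mul_assoc]
        refine mul_le_mul (mul_le_mul ?_ ?_ ?_ ?_) hw'm.le (norm_nonneg _) ?_ <;>
          first | positivity | linarith
      refine h3.trans (le_of_eq ?_)
      field_simp
    rw [e1]
    calc ‖⟪v, x i (w - w')⟫_ℂ - ⟪v, y (w - w')⟫_ℂ + (⟪v, x i w'⟫_ℂ - ⟪v, y w'⟫_ℂ)‖
        ≤ ‖⟪v, x i (w - w')⟫_ℂ‖ + ‖⟪v, y (w - w')⟫_ℂ‖ + ‖⟪v, x i w'⟫_ℂ - ⟪v, y w'⟫_ℂ‖ :=
          (norm_add_le _ _).trans (add_le_add (norm_sub_le _ _) le_rfl)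
      _ ≤ ‖v‖ * (C * ‖w - w'‖) + ‖v‖ * (‖y‖ * ‖w - w'‖) + ‖⟪v, x i w'⟫_ℂ - ⟪v, y w'⟫_ℂ‖ := by
          gcongr
          · exact (norm_inner_le_norm _ _).trans (by
              gcongr; exact (x i).le_of_opNorm_le (hC i) _)
          · exact (norm_inner_le_norm _ _).trans (by
              gcongr; exact y.le_opNorm _)
      _ = ‖v‖ * ((C + ‖y‖) * ‖w - w'‖) + ‖⟪v, x i w'⟫_ℂ - ⟪v, y w'⟫_ℂ‖ := by ring
      _ < ε := by linarith
  rw [Metric.tendsto_nhds]
  intro ε hε
  obtain ⟨v', hv'm, hv'⟩ := Metric.dense_iff.1 hD v (ε / (3 * ((‖w‖ + 1) * (C + ‖y‖ + 1))))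
    (by positivity)
  rw [Metric.mem_ball, dist_eq_norm, norm_sub_rev] at hv'm
  filter_upwards [(Metric.tendsto_nhds.1 (h1 v' hv' w)) (ε / 3) (by positivity)] with i hi
  rw [dist_eq_norm] at hi ⊢
  have e1 : ⟪v, x i w⟫_ℂ - ⟪v, y w⟫_ℂ = ⟪v - v', x i w⟫_ℂ - ⟪v - v', y w⟫_ℂ +
      (⟪v', x i w⟫_ℂ - ⟪v', y w⟫_ℂ) := by
    rw [inner_sub_left, inner_sub_left]; ring
  have hk : ‖v - v'‖ * ((C + ‖y‖) * ‖w‖) ≤ ε / 3 := by
    have h3 : ‖v - v'‖ * ((C + ‖y‖) * ‖w‖) ≤
        (ε / (3 * ((‖w‖ + 1) * (C + ‖y‖ + 1)))) * ((C + ‖y‖ + 1) * (‖w‖ + 1)) := by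
      refine mul_le_mul hv'm.le (mul_le_mul ?_ ?_ ?_ ?_) ?_ ?_ <;>
        first | positivity | linarith
    refine h3.trans (le_of_eq ?_)
    field_simp
  rw [e1]
  calc ‖⟪v - v', x i w⟫_ℂ - ⟪v - v', y w⟫_ℂ + (⟪v', x i w⟫_ℂ - ⟪v', y w⟫_ℂ)‖
      ≤ ‖⟪v - v', x i w⟫_ℂ‖ + ‖⟪v - v', y w⟫_ℂ‖ + ‖⟪v', x i w⟫_ℂ - ⟪v', y w⟫_ℂ‖ :=
        (norm_add_le _ _).trans (add_le_add (norm_sub_le _ _) le_rfl)
    _ ≤ ‖v - v'‖ * (C * ‖w‖) + ‖v - v'‖ * (‖y‖ * ‖w‖) + ‖⟪v', x i w⟫_ℂ - ⟪v', y w⟫_ℂ‖ := by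
        gcongr
        · exact (norm_inner_le_norm _ _).trans (by
            gcongr; exact (x i).le_of_opNorm_le (hC i) _)
        · exact (norm_inner_le_norm _ _).trans (by
            gcongr; exact y.le_opNorm _)
    _ = ‖v - v'‖ * ((C + ‖y‖) * ‖w‖) + ‖⟪v', x i w⟫_ℂ - ⟪v', y w⟫_ℂ‖ := by ring
    _ < ε := by linarith

end aux

end Pool.Agent.Helper23

end

section

open scoped InnerProductSpace Topology BoundedContinuousFunction

open ContinuousLinearMap Filter MeasureTheory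

namespace Pool.Agent.Helper88.CS

open Pool.Agent.Helper23

variable {H : Type*} [NormedAddCommGroup H] [InnerProductSpace ℂ H] [CompleteSpace H]

variable {A : VonNeumannAlgebra H} {ξ : H}

open InftyAux

namespace InftyAux

/-- the candidates: partial isometries with initial projection below `r` and range below `p` -/
def Cand (A : VonNeumannAlgebra H) (p r w : H →L[ℂ] H) : Prop :=
  w ∈ A ∧ w * star w * w = w ∧ w * r = w ∧ p * w = w

theorem cand_norm_le {p r w : H →L[ℂ] H} (h : Cand A p r w) (ξ : H) :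
    ‖(star w * w) ξ‖ ≤ ‖ξ‖ := by
  have h1 : star (star w * w) * (star w * w) = star w * w := by
    rw [star_mul, star_star]
    calc star w * w * (star w * w) = star w * (w * star w * w) := by noncomm_ring
      _ = star w * w := by rw [h.2.1]
  have h2 : ‖star w * w‖ * ‖star w * w‖ = ‖star w * w‖ := by
    rw [← CStarRing.norm_star_mul_self, h1]
  have h3 : ‖star w * w‖ ≤ 1 := by
    by_contra hc
    push Not at hc
    nlinarith [norm_nonneg (star w * w)]
  calc ‖(star w * w) ξ‖ ≤ ‖star w * w‖ * ‖ξ‖ := (star w * w).le_opNorm ξ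
    _ ≤ 1 * ‖ξ‖ := by gcongr
    _ = ‖ξ‖ := one_mul _

theorem exists_best (A : VonNeumannAlgebra H) (ξ : H) (p r : H →L[ℂ] H) :
    ∃ w, Cand A p r w ∧ ∀ w', Cand A p r w' → ‖(star w' * w') ξ‖ ≤ 2 * ‖(star w * w) ξ‖ := by
  have h0 : Cand A p r 0 := ⟨zero_mem A, by simp, by simp, by simp⟩
  let T : Set ℝ := {s | ∃ w, Cand A p r w ∧ s = ‖(star w * w) ξ‖}
  have hne : T.Nonempty := ⟨_, 0, h0, rfl⟩
  have hb : BddAbove T := ⟨‖ξ‖, by rintro s ⟨w, hw, rfl⟩; exact cand_norm_le hw ξ⟩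
  by_cases hS : sSup T ≤ 0
  · refine ⟨0, h0, fun w' hw' => ?_⟩
    have h1 : ‖(star w' * w') ξ‖ ≤ sSup T := le_csSup hb ⟨w', hw', rfl⟩
    have h2 : 0 ≤ ‖(star (0 : H →L[ℂ] H) * 0) ξ‖ := norm_nonneg _
    linarith
  · push Not at hS
    obtain ⟨s, ⟨w, hw, rfl⟩, hs⟩ := exists_lt_of_lt_csSup hne (show sSup T / 2 < sSup T by linarith)
    refine ⟨w, hw, fun w' hw' => ?_⟩
    have h1 : ‖(star w' * w') ξ‖ ≤ sSup T := le_csSup hb ⟨w', hw', rfl⟩
    linarith

/-- the choice at stage `n` -/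
noncomputable def ch (A : VonNeumannAlgebra H) (ξ : H) (p r : H →L[ℂ] H) : H →L[ℂ] H :=
  (exists_best A ξ p r).choose

theorem ch_cand (A : VonNeumannAlgebra H) (ξ : H) (p r : H →L[ℂ] H) :
    Cand A p r (ch A ξ p r) := (exists_best A ξ p r).choose_spec.1

theorem ch_best (A : VonNeumannAlgebra H) (ξ : H) (p r : H →L[ℂ] H) {w' : H →L[ℂ] H}
    (h : Cand A p r w') :
    ‖(star w' * w') ξ‖ ≤ 2 * ‖(star (ch A ξ p r) * ch A ξ p r) ξ‖ :=
  (exists_best A ξ p r).choose_spec.2 w' h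

/-- the remaining projections -/
noncomputable def rr (A : VonNeumannAlgebra H) (ξ : H) (p : ℕ → H →L[ℂ] H) : ℕ → H →L[ℂ] H
  | 0 => 1
  | n + 1 => rr A ξ p n - star (ch A ξ (p n) (rr A ξ p n)) * ch A ξ (p n) (rr A ξ p n)

end InftyAux

end Pool.Agent.Helper88.CS

end

section

open scoped InnerProductSpace Topology BoundedContinuousFunction

open ContinuousLinearMap Filter MeasureTheory

namespace Pool.Agent.Helper88.CS

open Pool.Agent.Helper23

variable {H : Type*} [NormedAddCommGroup H] [InnerProductSpace ℂ H] [CompleteSpace H]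

variable {A : VonNeumannAlgebra H} {ξ : H}

namespace EquivAux

/-- orthogonality of the shifted projections -/
theorem shift_ortho {q w : H →L[ℂ] H} (hq : star q = q) (h1 : star w * w = 1)
    (h2 : q * w = 0) (m n : ℕ) (hmn : m ≠ n) :
    (w ^ m * q * star w ^ m) * (w ^ n * q * star w ^ n) = 0 := by
  have hws : ∀ k : ℕ, star w ^ k * w ^ k = 1 := by
    intro k
    induction k with
    | zero => simp
    | succ k ih =>
      rw [pow_succ (star w) k, pow_succ' w k]
      calc star w ^ k * star w * (w * w ^ k) = star w ^ k * (star w * w) * w ^ k := by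
            simp only [mul_assoc]
        _ = 1 := by rw [h1, mul_one, ih]
  have h3 : star w * q = 0 := by
    have := congrArg star h2
    simpa [hq] using this
  rcases lt_or_gt_of_ne hmn with h | h
  · obtain ⟨k, rfl⟩ := Nat.exists_eq_add_of_lt h
    have e1 : w ^ (m + k + 1) = w ^ m * (w * w ^ k) := by
      rw [← pow_succ', ← pow_add]; ring_nf
    calc (w ^ m * q * star w ^ m) * (w ^ (m + k + 1) * q * star w ^ (m + k + 1))
        = w ^ m * q * (star w ^ m * w ^ m) * w * w ^ k * q * star w ^ (m + k + 1) := by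
          rw [e1]; simp only [mul_assoc]
      _ = w ^ m * (q * w) * w ^ k * q * star w ^ (m + k + 1) := by
          rw [hws]; simp only [mul_assoc, one_mul, mul_one]
      _ = 0 := by rw [h2]; simp
  · obtain ⟨k, rfl⟩ := Nat.exists_eq_add_of_lt h
    have e1 : star w ^ (n + k + 1) = star w ^ k * star w * star w ^ n := by
      rw [← pow_succ, ← pow_add]; ring_nf
    calc (w ^ (n + k + 1) * q * star w ^ (n + k + 1)) * (w ^ n * q * star w ^ n)
        = w ^ (n + k + 1) * q * star w ^ k * star w * (star w ^ n * w ^ n) * q * star w ^ n := by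
          rw [e1]; simp only [mul_assoc]
      _ = w ^ (n + k + 1) * q * star w ^ k * (star w * q) * star w ^ n := by
          rw [hws]; simp only [mul_assoc, one_mul, mul_one]
      _ = 0 := by rw [h3]; simp

end EquivAux

end Pool.Agent.Helper88.CS

end

section

open scoped InnerProductSpace Topology BoundedContinuousFunction

open ContinuousLinearMap Filter MeasureTheory

namespace Pool.Agent.Helper88.CS

open Pool.Agent.Helper23

variable {H : Type*} [NormedAddCommGroup H] [InnerProductSpace ℂ H] [CompleteSpace H]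

variable {A : VonNeumannAlgebra H} {ξ : H} {J : H →L[ℝ] H}
  {Ψ : (ℝ →ᵇ ℂ) →⋆ₐ[ℂ] (H →L[ℂ] H)} {R : H →L[ℂ] H} {D : H →L[ℝ] H}

namespace CornerSpecAux

theorem norm_proj_le {q : H →L[ℂ] H} (h1 : star q = q) (h2 : q * q = q) (v : H) :
    ‖q v‖ ≤ ‖v‖ := by
  have h3 : ⟪q v, q v⟫_ℂ = ⟪v, q v⟫_ℂ := by
    have h4 : ⟪q v, q v⟫_ℂ = ⟪v, (star q) (q v)⟫_ℂ := by
      rw [ContinuousLinearMap.star_eq_adjoint, ContinuousLinearMap.adjoint_inner_right]
    rw [h4, h1]
    have h5 : q (q v) = q v := congrArg (fun T : H →L[ℂ] H => T v) h2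
    rw [h5]
  have h6 : ‖q v‖ * ‖q v‖ ≤ ‖v‖ * ‖q v‖ := by
    calc ‖q v‖ * ‖q v‖ = ‖⟪q v, q v⟫_ℂ‖ := by
          rw [inner_self_eq_norm_sq_to_K, norm_pow, RCLike.norm_ofReal, abs_norm, sq]
      _ = ‖⟪v, q v⟫_ℂ‖ := by rw [h3]
      _ ≤ ‖v‖ * ‖q v‖ := norm_inner_le_norm _ _
  rcases (norm_nonneg (q v)).eq_or_lt with h0 | h0
  · rw [← h0]
    exact norm_nonneg _
  · exact le_of_mul_le_mul_right h6 h0

end CornerSpecAux

end Pool.Agent.Helper88.CS

end

section

open scoped InnerProductSpace Topology BoundedContinuousFunction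

open ContinuousLinearMap Filter MeasureTheory

namespace Pool.Agent.Helper88.CS

open Pool.Agent.Helper23

variable {H : Type*} [NormedAddCommGroup H] [InnerProductSpace ℂ H] [CompleteSpace H]

variable {A : VonNeumannAlgebra H} {ξ : H} {J : H →L[ℝ] H}
  {Ψ : (ℝ →ᵇ ℂ) →⋆ₐ[ℂ] (H →L[ℂ] H)} {R : H →L[ℂ] H} {D : H →L[ℝ] H}

namespace CornerAux

lemma norm_proj_le {s : H →L[ℂ] H} (h1 : star s = s) (h2 : s * s = s) (v : H) : ‖s v‖ ≤ ‖v‖ := by
  have h3 : ‖s v‖ ^ 2 ≤ ‖s v‖ * ‖v‖ := by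
    have h4 : (⟪s v, s v⟫_ℂ) = ⟪s v, v⟫_ℂ := by
      have h5 : ⟪s v, s v⟫_ℂ = ⟪(star s) (s v), v⟫_ℂ := by
        rw [star_eq_adjoint, adjoint_inner_left]
      rw [h5, h1]
      show ⟪(s * s) v, v⟫_ℂ = _
      rw [h2]
    have h6 : ((‖s v‖ : ℂ)) ^ 2 = ⟪s v, v⟫_ℂ := by
      rw [← h4, inner_self_eq_norm_sq_to_K]; rfl
    have h7 : ‖s v‖ ^ 2 = ‖⟪s v, v⟫_ℂ‖ := by
      rw [← h6, norm_pow, Complex.norm_real, norm_norm]
    rw [h7]
    exact norm_inner_le_norm _ _
  by_contra hc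
  push Not at hc
  have h8 : 0 < ‖s v‖ := lt_of_le_of_lt (norm_nonneg _) hc
  nlinarith

end CornerAux

end Pool.Agent.Helper88.CS

end

section

open scoped InnerProductSpace Topology BoundedContinuousFunction

open ContinuousLinearMap Filter MeasureTheory

namespace Pool.Agent.Helper88.CS

open Pool.Agent.Helper23

variable {H : Type*} [NormedAddCommGroup H] [InnerProductSpace ℂ H] [CompleteSpace H]

variable {A : VonNeumannAlgebra H} {ξ : H} {J : H →L[ℝ] H}

namespace StepAux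

lemma pyth {p : H →L[ℂ] H} (hp : star p = p) (hpp : p * p = p) (η : H) :
    ‖η‖ ^ 2 = ‖p η‖ ^ 2 + ‖η - p η‖ ^ 2 := by
  have h0 : ⟪p η, η - p η⟫_ℂ = 0 := by
    have : ⟪p η, η - p η⟫_ℂ = ⟪η, p (η - p η)⟫_ℂ := by
      have h2 := ContinuousLinearMap.adjoint_inner_left p (η - p η) η
      rw [← ContinuousLinearMap.star_eq_adjoint, hp] at h2
      exact h2
    rw [this, map_sub, ← mul_apply_eq_comp, hpp, sub_self, inner_zero_right]
  have h1 : ‖p η + (η - p η)‖ ^ 2 = ‖p η‖ ^ 2 + ‖η - p η‖ ^ 2 := by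
    have := norm_add_pow_two (𝕜 := ℂ) (p η) (η - p η)
    rw [this, h0]
    simp
  rwa [add_sub_cancel] at h1

lemma pyth_l {p : H →L[ℂ] H} (hp : star p = p) (hpp : p * p = p) {η α β : H}
    (h1 : p η = α) (h2 : η = α + β) : ‖η‖ ^ 2 = ‖α‖ ^ 2 + ‖β‖ ^ 2 := by
  have := pyth hp hpp η
  rw [h1] at this
  rw [this, show η - α = β by rw [h2]; abel]

end StepAux

end Pool.Agent.Helper88.CS

end

section

open scoped InnerProductSpace Topology

open ContinuousLinearMap Filter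

namespace Pool.Agent.Helper88.CS

open Pool.Agent.Helper23

universe u

variable {H : Type u} [NormedAddCommGroup H] [InnerProductSpace ℂ H] [CompleteSpace H]

/-- `π` is a `*`-isomorphism of `N` onto `B` -/
structure IsoPi {K : Type u} [NormedAddCommGroup K] [InnerProductSpace ℂ K] [CompleteSpace K]
    (N : VonNeumannAlgebra H) (B : VonNeumannAlgebra K)
    (π : (H →L[ℂ] H) → (K →L[ℂ] K)) : Prop where
  mem : ∀ x ∈ N, π x ∈ B
  surj : ∀ b ∈ B, ∃ x ∈ N, ‖x‖ ≤ ‖b‖ ∧ π x = b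
  inj : ∀ x ∈ N, π x = 0 → x = 0
  add : ∀ x ∈ N, ∀ y ∈ N, π (x + y) = π x + π y
  mul : ∀ x ∈ N, ∀ y ∈ N, π (x * y) = π x * π y
  star : ∀ x ∈ N, π (star x) = star (π x)
  one : π 1 = 1
  smul : ∀ (c : ℂ), ∀ x ∈ N, π (c • x) = c • π x
  norm_le : ∀ x ∈ N, ‖π x‖ ≤ ‖x‖

end Pool.Agent.Helper88.CS

end

section

open scoped InnerProductSpace Topology ENNReal BoundedContinuousFunction

open ContinuousLinearMap Filter MeasureTheory

namespace Pool.Agent.Helper23.ED

open Pool.Agent.Helper23 Pool.Agent.Helper23.RBF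

universe u

variable {H : Type*} [NormedAddCommGroup H] [InnerProductSpace ℂ H] [CompleteSpace H]

variable {K : Type*} [NormedAddCommGroup K] [InnerProductSpace ℂ K] [CompleteSpace K]

namespace FcB

variable {R₁ : H →L[ℂ] H} {Ψ₁ : (ℝ →ᵇ ℂ) →⋆ₐ[ℂ] (H →L[ℂ] H)}
  {R₂ : K →L[ℂ] K} {Ψ₂ : (ℝ →ᵇ ℂ) →⋆ₐ[ℂ] (K →L[ℂ] K)} {Y : H →L[ℂ] K}

/-- the real function `2 / (1 + e^ρ)` -/
noncomputable def w (ρ : ℝ) : ℝ := 2 / (1 + Real.exp ρ)

lemma w_pos (ρ : ℝ) : 0 < w ρ := by
  unfold w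
  have := Real.exp_pos ρ
  positivity

lemma w_lt (ρ : ℝ) : w ρ < 2 := by
  unfold w
  have := Real.exp_pos ρ
  rw [div_lt_iff₀ (by positivity)]
  linarith

lemma w_anti : Antitone w := by
  intro a b h
  unfold w
  have := Real.exp_pos a
  have := Real.exp_le_exp.2 h
  gcongr

lemma log_w (ρ : ℝ) : Real.log ((2 - w ρ) / w ρ) = ρ := by
  have h : (2 - w ρ) / w ρ = Real.exp ρ := by
    have h0 := Real.exp_pos ρ
    have h1 : (1 + Real.exp ρ) ≠ 0 := by positivity
    unfold w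
    field_simp
    ring
  rw [h, Real.log_exp]

/-- clamping to `[w L, w (-L)]` -/
noncomputable def cl (L x : ℝ) : ℝ := max (w L) (min (w (-L)) x)

lemma cl_pos (L x : ℝ) : 0 < cl L x := (w_pos L).trans_le (le_max_left _ _)

lemma cl_lt (L x : ℝ) : cl L x < 2 :=
  max_lt (w_lt L) ((min_le_left _ _).trans_lt (w_lt (-L)))

lemma cl_cont (L : ℝ) : Continuous (cl L) := by
  unfold cl; fun_prop

lemma cut_eq {h : ℝ → ℝ} {L : ℝ} (hL : 0 ≤ L) (h0 : ∀ ρ, L ≤ |ρ| → h ρ = 0) (ρ : ℝ) :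
    h (Real.log ((2 - cl L (w ρ)) / cl L (w ρ))) = h ρ := by
  rcases le_total |ρ| L with h1 | h1
  · rw [abs_le] at h1
    have e : cl L (w ρ) = w ρ := by
      unfold cl
      rw [min_eq_right (w_anti h1.1), max_eq_right (w_anti h1.2)]
    rw [e, log_w]
  · rw [h0 ρ h1]
    rcases le_abs.1 h1 with h2 | h2
    · have e : cl L (w ρ) = w L := by
        unfold cl
        exact max_eq_left ((min_le_right _ _).trans (w_anti h2))
      rw [e, log_w]
      exact h0 L (le_abs_self L)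
    · have h3 : w (-L) ≤ w ρ := w_anti (by linarith)
      have e : cl L (w ρ) = w (-L) := by
        unfold cl
        rw [min_eq_left h3]
        exact max_eq_right (w_anti (by linarith))
      rw [e, log_w]
      exact h0 (-L) (by rw [abs_neg]; exact le_abs_self L)

end FcB

end Pool.Agent.Helper23.ED

end

section

open scoped InnerProductSpace Topology ENNReal BoundedContinuousFunction

open ContinuousLinearMap Filter MeasureTheory

namespace Pool.Agent.Helper23.ED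

open Pool.Agent.Helper23 Pool.Agent.Helper23.RBF

universe u

variable {H : Type u} [NormedAddCommGroup H] [InnerProductSpace ℂ H] [CompleteSpace H]

variable {K : Type u} [NormedAddCommGroup K] [InnerProductSpace ℂ K] [CompleteSpace K]

variable {L : Type u} [NormedAddCommGroup L] [InnerProductSpace ℂ L] [CompleteSpace L]

variable {N : VonNeumannAlgebra H} {ψ : (H →L[ℂ] H) → ℝ≥0∞} {ξ : H} {i : K →L[ℂ] H} {κ : K}
  {Λ : (H →L[ℂ] H) → L} {ρ : (H →L[ℂ] H) → (L →L[ℂ] L)}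

/-- two positive contractions with the same scaled transform are equal -/
lemma NgE_eq {T T₁ T₂ : K →L[ℂ] K} (h0 : star T = T) (h1 : star T₁ = T₁)
    (h2 : star T₂ = T₂) (hp : ∀ v : K, 0 ≤ (⟪v, T v⟫_ℂ).re)
    (hq : ∀ v : K, (⟪v, T v⟫_ℂ).re ≤ ‖v‖ ^ 2) {l : ℝ} (hl : 0 < l)
    (h : ∀ v, T₁ (T v + (l : ℂ) • (v - T v)) = T₂ (T v + (l : ℂ) • (v - T v))) : T₁ = T₂ := by
  have hs : ∀ (A : K →L[ℂ] K), star A = A → ∀ x y, ⟪A x, y⟫_ℂ = ⟪x, A y⟫_ℂ := by
    intro A hA x y
    conv_lhs => rw [← hA]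
    rw [ContinuousLinearMap.star_eq_adjoint, ContinuousLinearMap.adjoint_inner_left]
  set X : K →L[ℂ] K := T + (l : ℂ) • (1 - T) with hX
  have hXv : ∀ v, X v = T v + (l : ℂ) • (v - T v) := fun v => rfl
  have hXs : star X = X := by
    rw [hX, star_add, star_smul, star_sub, star_one, h0]
    simp
  have hinj : ∀ y, X y = 0 → y = 0 := by
    intro y hy
    have e1 : (⟪y, X y⟫_ℂ).re = 0 := by rw [hy, inner_zero_right, Complex.zero_re]
    rw [hXv, inner_add_right, inner_smul_right, inner_sub_right, Complex.add_re,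
      Complex.re_ofReal_mul, Complex.sub_re] at e1
    have e2 : (⟪y, y⟫_ℂ).re = ‖y‖ ^ 2 := by
      rw [inner_self_eq_norm_sq_to_K]
      norm_cast
    rw [e2] at e1
    have e3 := hp y
    have e4 := hq y
    have e5 : 0 ≤ l * (‖y‖ ^ 2 - (⟪y, T y⟫_ℂ).re) := mul_nonneg hl.le (by linarith)
    have e6 : (⟪y, T y⟫_ℂ).re = 0 := by linarith
    have e7 : l * ‖y‖ ^ 2 = 0 := by rw [e6] at e1; linarith
    rcases mul_eq_zero.1 e7 with h8 | h8
    · exact (hl.ne' h8).elim
    · exact norm_eq_zero.1 (pow_eq_zero_iff two_ne_zero |>.1 h8)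
  ext w
  rw [← sub_eq_zero]
  apply hinj
  refine ext_inner_right ℂ fun v => ?_
  rw [hs X hXs, inner_sub_left, hs T₁ h1, hs T₂ h2, hXv, h v, sub_self, inner_zero_left]

end Pool.Agent.Helper23.ED

end

section

open scoped InnerProductSpace Topology ENNReal BoundedContinuousFunction

open ContinuousLinearMap Filter MeasureTheory

namespace Pool.Agent.Helper23.ED

open Pool.Agent.Helper23 Pool.Agent.Helper23.RBF

universe u

open TopologicalSpace

variable {H : Type*} [NormedAddCommGroup H] [InnerProductSpace ℂ H] [CompleteSpace H]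

variable {N : VonNeumannAlgebra H} {ξ : H} {W : ℝ → H →L[ℂ] H}

/-- weak operator ultralimits of contractions -/
lemma slB_ulim {ι : Type*} (F : Ultrafilter ι) {x : ι → H →L[ℂ] H}
    (hx : ∀ i, ‖x i‖ ≤ 1) : ∃ X : H →L[ℂ] H, ‖X‖ ≤ 1 ∧
      ∀ w v, Tendsto (fun i => ⟪w, x i v⟫_ℂ) (F : Filter ι) (𝓝 ⟪w, X v⟫_ℂ) := by
  have hb : ∀ w v i, ‖⟪w, x i v⟫_ℂ‖ ≤ ‖w‖ * ‖v‖ := by
    intro w v i
    refine (norm_inner_le_norm _ _).trans ?_
    refine mul_le_mul_of_nonneg_left ?_ (norm_nonneg _)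
    refine ((x i).le_opNorm v).trans ?_
    have := mul_le_mul_of_nonneg_right (hx i) (norm_nonneg v)
    rwa [one_mul] at this
  have hL : ∀ w v, ∃ l : ℂ, ‖l‖ ≤ ‖w‖ * ‖v‖ ∧
      Tendsto (fun i => ⟪w, x i v⟫_ℂ) (F : Filter ι) (𝓝 l) := by
    intro w v
    obtain ⟨l, hl, hl'⟩ := (isCompact_closedBall (0 : ℂ) (‖w‖ * ‖v‖)).ultrafilter_le_nhds
      (F.map fun i => ⟪w, x i v⟫_ℂ) (by
        rw [le_principal_iff]
        refine Filter.mem_map.2 (Filter.univ_mem' fun i => ?_)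
        rw [Set.mem_preimage, mem_closedBall_zero_iff]
        exact hb w v i)
    exact ⟨l, mem_closedBall_zero_iff.1 hl, hl'⟩
  choose L hLn hLt using hL
  have huniq : ∀ w v l, Tendsto (fun i => ⟪w, x i v⟫_ℂ) (F : Filter ι) (𝓝 l) → L w v = l :=
    fun w v l h => tendsto_nhds_unique (hLt w v) h
  set B : H →ₗ⋆[ℂ] H →ₗ[ℂ] ℂ := LinearMap.mk₂'ₛₗ (starRingEnd ℂ) (RingHom.id ℂ) L
    (by
      intro w w' v
      refine huniq _ _ _ ?_
      have := (hLt w v).add (hLt w' v)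
      refine this.congr fun i => ?_
      rw [inner_add_left])
    (by
      intro c w v
      refine huniq _ _ _ ?_
      have := (hLt w v).const_mul ((starRingEnd ℂ) c)
      refine this.congr fun i => ?_
      rw [inner_smul_left])
    (by
      intro w v v'
      refine huniq _ _ _ ?_
      have := (hLt w v).add (hLt w v')
      refine this.congr fun i => ?_
      rw [map_add, inner_add_right])
    (by
      intro c w v
      refine huniq _ _ _ ?_
      have := (hLt w v).const_mul c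
      refine this.congr fun i => ?_
      rw [map_smul, inner_smul_right]) with hB
  have hB' : ∀ w v, B w v = L w v := fun w v => rfl
  set B' : H →L⋆[ℂ] H →L[ℂ] ℂ := B.mkContinuous₂ 1 (fun w v => by
    rw [hB', one_mul]; exact hLn w v) with hB'd
  have hBa : ∀ w v, B' w v = L w v := fun w v => rfl
  set Y : H →L[ℂ] H := InnerProductSpace.continuousLinearMapOfBilin B' with hY
  have hYa : ∀ w v, ⟪Y w, v⟫_ℂ = L w v := fun w v => by
    rw [hY, InnerProductSpace.continuousLinearMapOfBilin_apply, hBa]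
  have hYn : ‖Y‖ ≤ 1 := by
    refine ContinuousLinearMap.opNorm_le_bound _ zero_le_one fun w => ?_
    have h1 : ‖⟪Y w, Y w⟫_ℂ‖ ≤ ‖w‖ * ‖Y w‖ := by
      rw [hYa]; exact hLn _ _
    rw [inner_self_eq_norm_sq_to_K, norm_pow, RCLike.norm_ofReal, abs_norm, sq] at h1
    rw [one_mul]
    by_cases h0 : ‖Y w‖ = 0
    · rw [h0]; exact norm_nonneg _
    · have hpos : 0 < ‖Y w‖ := lt_of_le_of_ne (norm_nonneg _) (Ne.symm h0)
      exact le_of_mul_le_mul_right h1 hpos
  refine ⟨ContinuousLinearMap.adjoint Y, ?_, ?_⟩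
  · rw [LinearIsometryEquiv.norm_map]
    exact hYn
  · intro w v
    rw [ContinuousLinearMap.adjoint_inner_right, hYa]
    exact hLt w v

end Pool.Agent.Helper23.ED

end
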