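import Pool.Agent.Helper23.FA.Ns
import Pool.Agent.Helper23.RBFDefs

/-!
Parts of Helper78.BC.Lipschitz, Helper78.BC.Lip1, Helper78.BC.PS, Helper78.BC.Lev, Helper78.BC.FamPsi, Helper43.TTF.A, Helper43.TTF.C, Helper72.TTB, Helper23.Four, Helper23.Iso, Helper70.TTE, Helper53.U.III1, Helper23.Ampl, Helper23.Main2, Helper72.UPow.Hup, Helper95.UKap, Helper95.UAvg, Helper88.CS.SuppB, Helper88.CS.Equiv, Helper88.CS.CornerSpec, Helper88.CS.Trick2, Helper88.CS.Corner, Helper88.CS.Step, Helper88.CS.Exh, Helper88.CS.Final, Helper23.ED.Defs, Helper23.ED.SmE, Helper23.ED.CoC, Helper23.ED.WtC, Helper23.ED.WtD, Helper23.ED.WtE, Helper23.ED.FcD, Helper23.ED.SlB, Helper23.ED.WuA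
-/

section

open scoped InnerProductSpace

open ContinuousLinearMap

namespace Pool.Agent.Helper78.BC

variable {H : Type*} [NormedAddCommGroup H] [InnerProductSpace ℂ H] [CompleteSpace H]

omit [CompleteSpace H] in
theorem convexOn_move (a : H →L[ℂ] H) :
    ConvexOn ℝ Set.univ (fun ζ : H => ‖a ζ - ζ‖ ^ 2) := by
  have h1 : ConvexOn ℝ Set.univ (fun ζ : H => ‖a ζ - ζ‖) := by
    refine ⟨convex_univ, fun x _ y _ s t hs ht hst => ?_⟩
    have e : a (s • x + t • y) - (s • x + t • y) = s • (a x - x) + t • (a y - y) := by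
      rw [map_add]
      have e1 : a (s • x) = s • a x := by
        rw [← Complex.coe_smul, map_smul, Complex.coe_smul]
      have e2 : a (t • y) = t • a y := by
        rw [← Complex.coe_smul, map_smul, Complex.coe_smul]
      rw [e1, e2, smul_sub, smul_sub]
      abel
    simp only
    rw [e]
    refine (norm_add_le _ _).trans ?_
    rw [norm_smul, norm_smul, Real.norm_of_nonneg hs, Real.norm_of_nonneg ht, smul_eq_mul,
      smul_eq_mul]
  exact h1.pow (fun _ _ => norm_nonneg _) 2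

end Pool.Agent.Helper78.BC

end

section

open scoped InnerProductSpace Topology BoundedContinuousFunction

open ContinuousLinearMap Filter

namespace Pool.Agent.Helper78.BC

variable {H : Type*} [NormedAddCommGroup H] [InnerProductSpace ℂ H] [CompleteSpace H]

variable {A : VonNeumannAlgebra H} {ξ : H} {J : H →L[ℝ] H}
  {Ψ : (ℝ →ᵇ ℂ) →⋆ₐ[ℂ] (H →L[ℂ] H)}

namespace Lip1

theorem inner_star (y : H →L[ℂ] H) (v w : H) : ⟪(star y) v, w⟫_ℂ = ⟪v, y w⟫_ℂ := by
  rw [ContinuousLinearMap.star_eq_adjoint, ContinuousLinearMap.adjoint_inner_left]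

theorem norm_le_one {u : H →L[ℂ] H} (hu : star u * u = 1) : ‖u‖ ≤ 1 := by
  have h1 : ‖u‖ * ‖u‖ ≤ 1 := by
    rw [← CStarRing.norm_star_mul_self, hu]
    exact ContinuousLinearMap.norm_id_le
  nlinarith [norm_nonneg u]

end Lip1

end Pool.Agent.Helper78.BC

end

section

open scoped InnerProductSpace Topology BoundedContinuousFunction

open ContinuousLinearMap Filter

namespace Pool.Agent.Helper78.BC

variable {H : Type*} [NormedAddCommGroup H] [InnerProductSpace ℂ H] [CompleteSpace H]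

variable {A : VonNeumannAlgebra H} {ξ : H} {J : H →L[ℝ] H}
  {Ψ : (ℝ →ᵇ ℂ) →⋆ₐ[ℂ] (H →L[ℂ] H)}

namespace PS

omit [CompleteSpace H] in
/-- nearest point in a closed convex cone -/
lemma cone_proj (K : Set H) (hK : IsComplete K) (h0 : (0 : H) ∈ K)
    (hadd : ∀ v ∈ K, ∀ w ∈ K, v + w ∈ K)
    (hsm : ∀ t : ℝ, 0 ≤ t → ∀ v ∈ K, (t : ℂ) • v ∈ K) (d : H) :
    ∃ p ∈ K, (∀ q ∈ K, 0 ≤ (⟪p - d, q⟫_ℂ).re) ∧ (⟪p - d, p⟫_ℂ).re = 0 := by
  let _ : InnerProductSpace ℝ H := InnerProductSpace.rclikeToReal ℂ H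
  have hsm' : ∀ t : ℝ, 0 ≤ t → ∀ v ∈ K, t • v ∈ K := by
    intro t ht v hv
    have := hsm t ht v hv
    have h2 : (t : ℂ) • v = t • v := by
      exact (RCLike.real_smul_eq_coe_smul (K := ℂ) t v).symm
    rw [← h2]; exact this
  have hconv : Convex ℝ K := by
    intro v hv w hw s t hs ht hst
    exact hadd _ (hsm' s hs v hv) _ (hsm' t ht w hw)
  obtain ⟨p, hp, hmin⟩ := exists_norm_eq_iInf_of_complete_convex ⟨0, h0⟩ hK hconv d
  have h1 := (norm_eq_iInf_iff_real_inner_le_zero hconv hp).1 hmin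
  have h2 : ∀ q ∈ K, (⟪d - p, q - p⟫_ℂ).re ≤ 0 := by
    intro q hq
    have := h1 q hq
    exact this
  have h3 := h2 0 h0
  have h4 := h2 (p + p) (hadd p hp p hp)
  rw [zero_sub, inner_neg_right] at h3
  rw [add_sub_cancel_right] at h4
  rw [Complex.neg_re] at h3
  have h5 : (⟪d - p, p⟫_ℂ).re = 0 := le_antisymm h4 (by linarith)
  have h6 : p - d = -(d - p) := by abel
  refine ⟨p, hp, ?_, ?_⟩
  · intro q hq
    have := h2 q hq
    rw [inner_sub_right, Complex.sub_re, h5] at this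
    rw [h6, inner_neg_left, Complex.neg_re]
    linarith
  · rw [h6, inner_neg_left, Complex.neg_re, h5, neg_zero]

end PS

end Pool.Agent.Helper78.BC

end

section

open scoped InnerProductSpace Topology BoundedContinuousFunction

open ContinuousLinearMap Filter

namespace Pool.Agent.Helper78.BC

variable {H : Type*} [NormedAddCommGroup H] [InnerProductSpace ℂ H] [CompleteSpace H]

variable {A : VonNeumannAlgebra H} {ξ : H} {J : H →L[ℝ] H}
  {Ψ : (ℝ →ᵇ ℂ) →⋆ₐ[ℂ] (H →L[ℂ] H)}

namespace LevAux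

lemma inner_orth {S T : H →L[ℂ] H} (h : star S * T = 0) (v w : H) : ⟪S v, T w⟫_ℂ = 0 := by
  have h1 : (star S) (T w) = 0 := by
    have := congrArg (fun T : H →L[ℂ] H => T w) h
    simpa using this
  have h2 : ⟪v, (star S) (T w)⟫_ℂ = ⟪S v, T w⟫_ℂ := by
    rw [star_eq_adjoint, adjoint_inner_right]
  rw [← h2, h1, inner_zero_right]

end LevAux

end Pool.Agent.Helper78.BC

end

section

open scoped InnerProductSpace Topology BoundedContinuousFunction

open ContinuousLinearMap Filter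

namespace Pool.Agent.Helper78.BC

variable {H : Type*} [NormedAddCommGroup H] [InnerProductSpace ℂ H] [CompleteSpace H]

variable {A : VonNeumannAlgebra H} {ξ : H} {J : H →L[ℝ] H}
  {Ψ : (ℝ →ᵇ ℂ) →⋆ₐ[ℂ] (H →L[ℂ] H)}

namespace FamPsi

/-- `Ψ` is a contraction. -/
lemma norm_psi_le (Ψ : (ℝ →ᵇ ℂ) →⋆ₐ[ℂ] (H →L[ℂ] H)) (F : ℝ →ᵇ ℂ) : ‖Ψ F‖ ≤ ‖F‖ := by
  exact NonUnitalStarAlgHom.norm_apply_le Ψ F

end FamPsi

end Pool.Agent.Helper78.BC

end

section

open scoped InnerProductSpace Topology BoundedContinuousFunction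

open ContinuousLinearMap Filter MeasureTheory

namespace Pool.Agent.Helper43.TTF

open Pool.Agent.Helper23

variable {H : Type*} [NormedAddCommGroup H] [InnerProductSpace ℂ H] [CompleteSpace H]

section

variable {R : H →L[ℂ] H} {D : H →L[ℝ] H} {Ψ : (ℝ →ᵇ ℂ) →⋆ₐ[ℂ] (H →L[ℂ] H)}

lemma psi_two (Ψ : (ℝ →ᵇ ℂ) →⋆ₐ[ℂ] (H →L[ℂ] H)) : Ψ 2 = (2 : ℂ) • (1 : H →L[ℂ] H) := by
  have h : (2 : ℝ →ᵇ ℂ) = (2 : ℂ) • (1 : ℝ →ᵇ ℂ) := by
    rw [two_smul, one_add_one_eq_two]
  rw [h, map_smul, map_one]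

end

end Pool.Agent.Helper43.TTF

end

section

open scoped InnerProductSpace Topology BoundedContinuousFunction

open ContinuousLinearMap Filter MeasureTheory

namespace Pool.Agent.Helper43.TTF

open Pool.Agent.Helper23

variable {H : Type*} [NormedAddCommGroup H] [InnerProductSpace ℂ H] [CompleteSpace H]

variable {A : VonNeumannAlgebra H} {ξ : H}

variable {R : H →L[ℂ] H} {D : H →L[ℝ] H} {Ψ : (ℝ →ᵇ ℂ) →⋆ₐ[ℂ] (H →L[ℂ] H)}

lemma psi_mul_apply (Ψ : (ℝ →ᵇ ℂ) →⋆ₐ[ℂ] (H →L[ℂ] H)) (F G : ℝ →ᵇ ℂ) (v : H) :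
    Ψ (F * G) v = Ψ F (Ψ G v) := by
  rw [map_mul, mul_apply_eq_comp]

lemma psi_comm_apply (Ψ : (ℝ →ᵇ ℂ) →⋆ₐ[ℂ] (H →L[ℂ] H)) (F G : ℝ →ᵇ ℂ) (v : H) :
    Ψ F (Ψ G v) = Ψ G (Ψ F v) := by
  rw [← psi_mul_apply, mul_comm, psi_mul_apply]

end Pool.Agent.Helper43.TTF

end

section

open scoped InnerProductSpace

open ContinuousLinearMap

namespace Pool.Agent.Helper72

open Pool.Agent.Helper23

variable {H : Type*} [NormedAddCommGroup H] [InnerProductSpace ℂ H] [CompleteSpace H]

lemma arith {p q m α β : ℝ} (hpq : m ^ 2 < 4 * p * q) (hq : 0 < q)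
    (h : p * α ^ 2 + q * β ^ 2 ≤ m * (α * β)) : α = 0 := by
  have h1 : (4 * p * q - m ^ 2) * α ^ 2 ≤ 0 := by
    nlinarith [sq_nonneg (2 * q * β - m * α), mul_le_mul_of_nonneg_left h (by positivity :
      (0 : ℝ) ≤ 4 * q)]
  have h2 : α ^ 2 ≤ 0 := by
    by_contra h3
    push Not at h3
    have := mul_pos (sub_pos.2 hpq) h3
    linarith
  exact pow_eq_zero_iff (two_ne_zero) |>.1 (le_antisymm h2 (sq_nonneg _))

end Pool.Agent.Helper72

end

section

open scoped InnerProductSpace BoundedContinuousFunction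

open ContinuousLinearMap Filter

namespace Pool.Agent.Helper23

variable {H : Type*} [NormedAddCommGroup H] [InnerProductSpace ℂ H] [CompleteSpace H]

variable {N : VonNeumannAlgebra H} {ξ : H}

omit [CompleteSpace H] in
/-- passing from the four sequences to the combination -/
lemma tendsto_of_four {x : H →L[ℂ] H} {a : ℕ → H →L[ℂ] H} {k : Fin 4 → ℂ}
    {b : Fin 4 → ℕ → (H →L[ℂ] H)} (hsum : ∀ n, a n = ∑ i, k i • b i n)
    (hi : ∀ i, Tendsto (fun n => x (b i n ξ) - b i n (x ξ)) atTop (nhds 0)) :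
    Tendsto (fun n => x (a n ξ) - a n (x ξ)) atTop (nhds 0) := by
  have hfin : Tendsto (fun n => ∑ i, k i • (x (b i n ξ) - b i n (x ξ))) atTop
      (nhds (∑ i, k i • (0 : H))) :=
    tendsto_finsetSum _ fun i _ => (hi i).const_smul (k i)
  simp only [smul_zero, Finset.sum_const_zero] at hfin
  refine hfin.congr fun n => ?_
  rw [hsum n, sum_apply, sum_apply, map_sum, ← Finset.sum_sub_distrib]
  refine Finset.sum_congr rfl fun i _ => ?_
  rw [smul_apply, smul_apply, map_smul, smul_sub]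

end Pool.Agent.Helper23

end

section

open scoped InnerProductSpace

open ContinuousLinearMap Filter

namespace Pool.Agent.Helper23

variable {H : Type*} [NormedAddCommGroup H] [InnerProductSpace ℂ H] [CompleteSpace H]

variable {M N : VonNeumannAlgebra H} {ξ : H} {E : (H →L[ℂ] H) → (H →L[ℂ] H)}

lemma exists_sqrt_abs {A : Type*} [CStarAlgebra A] {x : A} (hx : IsSelfAdjoint x)
    (hx1 : ‖x‖ ≤ 1) : ∃ a k : A, star a = a ∧ star k = k ∧ a * a = 1 - x ∧
      (1 + a) * k = 1 ∧ k * (1 + a) = 1 := by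
  let _ : PartialOrder A := CStarAlgebra.spectralOrder _
  let _ : StarOrderedRing A := CStarAlgebra.spectralOrderedRing _
  have hp : 0 ≤ 1 - x := by
    rw [sub_nonneg]
    have h1 := IsSelfAdjoint.le_algebraMap_norm_self hx
    have h2 : algebraMap ℝ A ‖x‖ ≤ algebraMap ℝ A 1 := algebraMap_mono A hx1
    rw [map_one] at h2
    exact h1.trans h2
  set a := CFC.sqrt (1 - x) with ha
  have ha0 : 0 ≤ a := CFC.sqrt_nonneg _
  have hsa : star a = a := IsSelfAdjoint.of_nonneg ha0
  have hunit : IsUnit (1 + a) := by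
    by_contra hcon
    have h1 : (-1 : ℝ) ∈ spectrum ℝ a := by
      rw [spectrum.mem_iff]
      intro h
      apply hcon
      have h2 : algebraMap ℝ A (-1) - a = -(1 + a) := by
        rw [map_neg, map_one]; abel
      rw [h2] at h
      exact (IsUnit.neg_iff _).1 h
    have h2 := spectrum_nonneg_of_nonneg ha0 h1
    linarith
  obtain ⟨u, hu⟩ := hunit
  refine ⟨a, ((u⁻¹ : Aˣ) : A), hsa, ?_, CFC.sqrt_mul_sqrt_self _ hp, ?_, ?_⟩
  · have h1 : star (1 + a) = 1 + a := by rw [star_add, star_one, hsa]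
    have h2 : star ((u⁻¹ : Aˣ) : A) * (1 + a) = 1 := by
      have h3 : (1 + a) * ((u⁻¹ : Aˣ) : A) = 1 := by rw [← hu]; exact Units.mul_inv u
      have := congrArg star h3
      rwa [star_mul, star_one, h1] at this
    calc star ((u⁻¹ : Aˣ) : A) = star ((u⁻¹ : Aˣ) : A) * ((1 + a) * ((u⁻¹ : Aˣ) : A)) := by
          rw [← hu, Units.mul_inv, mul_one]
      _ = ((u⁻¹ : Aˣ) : A) := by rw [← mul_assoc, h2, one_mul]
  · rw [← hu]; exact Units.mul_inv u
  · rw [← hu]; exact Units.inv_mul u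

end Pool.Agent.Helper23

end

section

open scoped InnerProductSpace Topology BoundedContinuousFunction FourierTransform SchwartzMap

open ContinuousLinearMap Filter MeasureTheory

set_option linter.unusedSectionVars false

namespace Pool.Agent.Helper23

variable {G : Type*} [NormedAddCommGroup G] [InnerProductSpace ℂ G] [CompleteSpace G]

variable {G' : Type*} [NormedAddCommGroup G'] [InnerProductSpace ℂ G'] [CompleteSpace G']

variable {H : Type*} [NormedAddCommGroup H] [InnerProductSpace ℂ H] [CompleteSpace H]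

lemma fourier_postcomp (a : G →L[ℂ] G') (f : 𝓢(ℝ, G)) :
    𝓕 (f.postcompCLM a) = (𝓕 f).postcompCLM a := by
  ext w
  rw [SchwartzMap.postcompCLM_apply, SchwartzMap.fourier_coe, SchwartzMap.fourier_coe,
    Real.fourier_eq, Real.fourier_eq, ← ContinuousLinearMap.integral_comp_comm]
  · refine integral_congr_ae (Eventually.of_forall fun v => ?_)
    simp only [SchwartzMap.postcompCLM_apply]
    rw [Circle.smul_def, Circle.smul_def, map_smul]
  · rw [Real.fourierIntegral_convergent_iff]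
    exact f.integrable

end Pool.Agent.Helper23

end

section

open scoped InnerProductSpace Topology

open ContinuousLinearMap Filter

namespace Pool.Agent.Helper23

universe u

variable {H : Type u} [NormedAddCommGroup H] [InnerProductSpace ℂ H] [CompleteSpace H]
  {N : VonNeumannAlgebra H} {ξ : H}

theorem inner_star_mul_self (p : H →L[ℂ] H) (ξ : H) :
    ⟪ξ, (star p * p) ξ⟫_ℂ = ((‖p ξ‖ ^ 2 : ℝ) : ℂ) := by
  have a1 : ⟪ξ, (star p * p) ξ⟫_ℂ = ⟪p ξ, p ξ⟫_ℂ := by
    rw [ContinuousLinearMap.star_eq_adjoint]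
    exact ContinuousLinearMap.adjoint_inner_right p ξ (p ξ)
  rw [a1, inner_self_eq_norm_sq_to_K]
  norm_cast

theorem norm_isom_apply {p : H →L[ℂ] H} (hp : star p * p = 1) (x : H) : ‖p x‖ = ‖x‖ := by
  have h := inner_star_mul_self p x
  rw [hp] at h
  have h1 : ⟪x, (1 : H →L[ℂ] H) x⟫_ℂ = ((‖x‖ ^ 2 : ℝ) : ℂ) := by
    have : (1 : H →L[ℂ] H) x = x := rfl
    rw [this, inner_self_eq_norm_sq_to_K]
    norm_cast
  rw [h1] at h
  have h2 : ‖p x‖ ^ 2 = ‖x‖ ^ 2 := by exact_mod_cast h.symm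
  exact (pow_left_inj₀ (norm_nonneg _) (norm_nonneg _) two_ne_zero).1 h2

end Pool.Agent.Helper23

end

section

open scoped InnerProductSpace Topology ENNReal

open ContinuousLinearMap Filter MeasureTheory

set_option linter.unusedSectionVars false

set_option linter.unusedVariables false

namespace Pool.Agent.Helper23

variable {H : Type*} [NormedAddCommGroup H] [InnerProductSpace ℂ H] [CompleteSpace H]

variable {M N : VonNeumannAlgebra H} {ξ : H} {E : (H →L[ℂ] H) → (H →L[ℂ] H)}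

/-- the isometries `v ^ n w` -/
lemma pow_isom {v w : H →L[ℂ] H} (hv : star v * v = 1) (hw : star w * w = 1)
    (hvw : star v * w = 0) :
    (∀ n : ℕ, star (v ^ n * w) * (v ^ n * w) = 1) ∧
      ∀ m n : ℕ, m ≠ n → star (v ^ m * w) * (v ^ n * w) = 0 := by
  have hwv : star w * v = 0 := by
    have := congrArg star hvw
    rwa [star_mul, star_star, star_zero] at this
  have hpow : ∀ n : ℕ, star (v ^ n) * v ^ n = 1 := by
    intro n
    induction n with
    | zero => simp
    | succ n ih =>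
      rw [pow_succ', star_mul, mul_assoc, ← mul_assoc (star v), hv, one_mul, ih]
  have hlt : ∀ m n : ℕ, m < n → star (v ^ m * w) * (v ^ n * w) = 0 := by
    intro m n hmn
    obtain ⟨k, rfl⟩ := Nat.exists_eq_add_of_lt hmn
    have e1 : v ^ (m + k + 1) = v ^ m * (v * v ^ k) := by
      rw [← pow_succ', ← pow_add, add_assoc]
    rw [e1, star_mul, mul_assoc (star w), mul_assoc (v ^ m), ← mul_assoc (star (v ^ m)), hpow,
      one_mul, mul_assoc v, ← mul_assoc (star w), hwv, zero_mul]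
  refine ⟨fun n => ?_, fun m n hmn => ?_⟩
  · rw [star_mul, mul_assoc, ← mul_assoc (star (v ^ n)), hpow, one_mul, hw]
  · rcases lt_or_gt_of_ne hmn with h | h
    · exact hlt m n h
    · have := congrArg star (hlt n m h)
      rwa [star_mul, star_star, star_zero] at this

end Pool.Agent.Helper23

end

section

open scoped InnerProductSpace Topology ENNReal

open ContinuousLinearMap Filter MeasureTheory

set_option linter.unusedSectionVars false

set_option linter.unusedVariables false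

namespace Pool.Agent.Helper23

variable {H : Type*} [NormedAddCommGroup H] [InnerProductSpace ℂ H] [CompleteSpace H]

variable {M N : VonNeumannAlgebra H} {ξ : H} {E : (H →L[ℂ] H) → (H →L[ℂ] H)}

open RBF

/-- the relative commutant as a von Neumann algebra -/
noncomputable def Calg (M N : VonNeumannAlgebra H) (ψ : (H →L[ℂ] H) → ℝ≥0∞) :
    VonNeumannAlgebra H where
  toStarSubalgebra := StarSubalgebra.centralizer ℂ
    ((M.commutant : Set (H →L[ℂ] H)) ∪ {u | ScalingUnitary N ψ 1 u})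
  centralizer_centralizer' := by simp

lemma scaling_star {A : VonNeumannAlgebra H} {ψ : (H →L[ℂ] H) → ℝ≥0∞} {u : H →L[ℂ] H}
    (h : ScalingUnitary A ψ 1 u) : ScalingUnitary A ψ 1 (star u) := by
  refine ⟨star_mem h.1, by rw [star_star]; exact h.2.2.1, by rw [star_star]; exact h.2.1,
    fun x hx hx0 => ?_⟩
  have hpos : 0 ≤ u * x * star u := by
    have := star_left_conjugate_nonneg hx0 (star u)
    rwa [star_star] at this
  have h1 := h.2.2.2 (u * x * star u) (mul_mem (mul_mem h.1 hx) (star_mem h.1)) hpos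
  have h2 : star u * (u * x * star u) * u = x := by
    rw [← mul_assoc, ← mul_assoc, h.2.1, one_mul, mul_assoc, h.2.1, mul_one]
  rw [h2, ENNReal.ofReal_one, one_mul] at h1
  rw [star_star, ENNReal.ofReal_one, one_mul, h1]

end Pool.Agent.Helper23

end

section

open scoped InnerProductSpace Topology

open ContinuousLinearMap Filter

namespace Pool.Agent.Helper23

universe u

/-- truncation of a vector -/
theorem hup_exists_trunc {H : Type*} [NormedAddCommGroup H] [InnerProductSpace ℂ H] (x : H) {r : ℝ}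
    (hr : 0 ≤ r) : ∃ y : H, ‖y‖ ≤ r ∧ ‖x - y‖ ≤ |‖x‖ - r| := by
  by_cases h : ‖x‖ ≤ r
  · exact ⟨x, h, by rw [sub_self, norm_zero]; positivity⟩
  · push Not at h
    have hx : 0 < ‖x‖ := hr.trans_lt h
    have hq : r / ‖x‖ ≤ 1 := (div_le_one hx).2 h.le
    have hq0 : 0 ≤ r / ‖x‖ := by positivity
    refine ⟨((r / ‖x‖ : ℝ) : ℂ) • x, ?_, ?_⟩
    · rw [norm_smul, Complex.norm_real, Real.norm_of_nonneg hq0, div_mul_cancel₀ _ hx.ne']
    · have e : x - ((r / ‖x‖ : ℝ) : ℂ) • x = ((1 - r / ‖x‖ : ℝ) : ℂ) • x := by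
        rw [Complex.ofReal_sub, Complex.ofReal_one, sub_smul, one_smul]
      rw [e, norm_smul, Complex.norm_real, Real.norm_of_nonneg (by linarith), sub_mul, one_mul,
        div_mul_cancel₀ _ hx.ne']
      exact le_abs_self _

end Pool.Agent.Helper23

end

section

open scoped InnerProductSpace Topology BoundedContinuousFunction

open ContinuousLinearMap Filter

namespace Pool.Agent.Helper23

universe u

variable {K : Type u} [NormedAddCommGroup K] [InnerProductSpace ℂ K] [CompleteSpace K]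

/-- the inverse of `2 t / (1 + t ^ 2)` on `[-1, 1]` -/
noncomputable def kapg (s : ℝ) : ℝ := s / (1 + Real.sqrt (1 - s ^ 2))

lemma kapg_pos (s : ℝ) : 0 < 1 + Real.sqrt (1 - s ^ 2) := by positivity

lemma kapg_cont : Continuous kapg := by
  unfold kapg
  exact continuous_id.div (by fun_prop) fun s => (kapg_pos s).ne'

lemma kapg_spec {s : ℝ} (hs : |s| ≤ 1) : 2 * kapg s = s * (1 + kapg s ^ 2) := by
  have h1 : Real.sqrt (1 - s ^ 2) ^ 2 = 1 - s ^ 2 :=
    Real.sq_sqrt (by have := (sq_le_one_iff_abs_le_one s).2 hs; linarith)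
  have h2 := (kapg_pos s).ne'
  unfold kapg
  set c := Real.sqrt (1 - s ^ 2)
  have h3 : s ^ 2 = 1 - c ^ 2 := by rw [h1]; ring
  field_simp
  linear_combination (-s) * h3

end Pool.Agent.Helper23

end

section

open scoped InnerProductSpace Topology

open ContinuousLinearMap Filter

namespace Pool.Agent.Helper23

universe u

variable {H : Type u} [NormedAddCommGroup H] [InnerProductSpace ℂ H] [CompleteSpace H]

variable {M N : VonNeumannAlgebra H} {ξ : H} {E : (H →L[ℂ] H) → (H →L[ℂ] H)}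

/-- the sequence of radii -/
noncomputable def avd (n : ℕ) : ℝ := (1 / 2 : ℝ) ^ n

lemma avd_pos (n : ℕ) : 0 < avd n := by unfold avd; positivity

lemma avd_anti {n k : ℕ} (h : n ≤ k) : avd k ≤ avd n :=
  pow_le_pow_of_le_one (by norm_num) (by norm_num) h

lemma avd_tendsto : Tendsto avd atTop (𝓝 0) :=
  tendsto_pow_atTop_nhds_zero_of_lt_one (by norm_num) (by norm_num)

lemma avd_succ (n : ℕ) : avd (n + 1) + avd (n + 1) = avd n := by
  unfold avd; rw [pow_succ]; ring

end Pool.Agent.Helper23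

end

section

open scoped InnerProductSpace Topology BoundedContinuousFunction

open ContinuousLinearMap Filter MeasureTheory

namespace Pool.Agent.Helper88.CS

open Pool.Agent.Helper23

variable {H : Type*} [NormedAddCommGroup H] [InnerProductSpace ℂ H] [CompleteSpace H]

variable {A : VonNeumannAlgebra H} {ξ : H} {J : H →L[ℝ] H}
  {Ψ : (ℝ →ᵇ ℂ) →⋆ₐ[ℂ] (H →L[ℂ] H)} {R : H →L[ℂ] H} {D : H →L[ℝ] H}

namespace SuppBAux

omit [CompleteSpace H] in
theorem cont_apply' {X : Type*} [TopologicalSpace X] {T : X → H →L[ℂ] H}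
    (hT : ∀ t v, ‖T t v‖ ≤ ‖v‖) (hc : ∀ v, Continuous fun t => T t v) {f : X → H}
    (hf : Continuous f) : Continuous fun t => T t (f t) := by
  rw [continuous_iff_continuousAt]
  intro t₀
  rw [ContinuousAt, tendsto_iff_norm_sub_tendsto_zero]
  have h1 : Tendsto (fun t => ‖f t - f t₀‖ + ‖T t (f t₀) - T t₀ (f t₀)‖) (𝓝 t₀) (𝓝 0) := by
    have e1 := tendsto_iff_norm_sub_tendsto_zero.1 (hf.tendsto t₀)
    have e2 := tendsto_iff_norm_sub_tendsto_zero.1 ((hc (f t₀)).tendsto t₀)
    simpa using e1.add e2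
  refine squeeze_zero (fun _ => norm_nonneg _) (fun t => ?_) h1
  have h2 : T t (f t) - T t₀ (f t₀) = T t (f t - f t₀) + (T t (f t₀) - T t₀ (f t₀)) := by
    rw [map_sub]; abel
  rw [h2]
  refine (norm_add_le _ _).trans ?_
  gcongr
  exact hT _ _

end SuppBAux

end Pool.Agent.Helper88.CS

end

section

open scoped InnerProductSpace Topology BoundedContinuousFunction

open ContinuousLinearMap Filter MeasureTheory

namespace Pool.Agent.Helper88.CS

open Pool.Agent.Helper23

variable {H : Type*} [NormedAddCommGroup H] [InnerProductSpace ℂ H] [CompleteSpace H]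

variable {A : VonNeumannAlgebra H} {ξ : H}

namespace EquivAux

/-- the shifted projections are projections -/
theorem shift_proj {q w : H →L[ℂ] H} (hq : star q = q) (hq2 : q * q = q) (h1 : star w * w = 1)
    (n : ℕ) : star (w ^ n * q * star w ^ n) = w ^ n * q * star w ^ n ∧
      (w ^ n * q * star w ^ n) * (w ^ n * q * star w ^ n) = w ^ n * q * star w ^ n := by
  have hws : ∀ k : ℕ, star w ^ k * w ^ k = 1 := by
    intro k
    induction k with
    | zero => simp
    | succ k ih =>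
      rw [pow_succ (star w) k, pow_succ' w k]
      calc star w ^ k * star w * (w * w ^ k) = star w ^ k * (star w * w) * w ^ k := by
            simp only [mul_assoc]
        _ = 1 := by rw [h1, mul_one, ih]
  constructor
  · rw [star_mul, star_mul, star_pow, star_pow, star_star, hq, mul_assoc]
  · calc (w ^ n * q * star w ^ n) * (w ^ n * q * star w ^ n)
        = w ^ n * q * (star w ^ n * w ^ n) * q * star w ^ n := by simp only [mul_assoc]
      _ = w ^ n * (q * q) * star w ^ n := by rw [hws]; simp only [mul_assoc, mul_one, one_mul]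
      _ = _ := by rw [hq2]

end EquivAux

end Pool.Agent.Helper88.CS

end

section

open scoped InnerProductSpace Topology BoundedContinuousFunction

open ContinuousLinearMap Filter MeasureTheory

namespace Pool.Agent.Helper88.CS

open Pool.Agent.Helper23

variable {H : Type*} [NormedAddCommGroup H] [InnerProductSpace ℂ H] [CompleteSpace H]

variable {A : VonNeumannAlgebra H} {ξ : H} {J : H →L[ℝ] H}
  {Ψ : (ℝ →ᵇ ℂ) →⋆ₐ[ℂ] (H →L[ℂ] H)} {R : H →L[ℂ] H} {D : H →L[ℝ] H}

namespace CornerSpecAux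

/-- the regularized inverse of a continuous function -/
theorem exists_inv (f : ℝ → ℂ) (hf : Continuous f) {m : ℝ} (hm : 0 < m) :
    ∃ p : ℝ →ᵇ ℂ, ∀ ρ, m ≤ ‖f ρ‖ → f ρ * p ρ = 1 := by
  have hpos : ∀ ρ, 0 < max (‖f ρ‖ ^ 2) (m ^ 2) := fun ρ =>
    lt_max_of_lt_right (by positivity)
  have hc : Continuous fun ρ : ℝ =>
      (starRingEnd ℂ) (f ρ) / (((max (‖f ρ‖ ^ 2) (m ^ 2) : ℝ)) : ℂ) := by
    refine Continuous.div (Complex.continuous_conj.comp hf)
      (Complex.continuous_ofReal.comp (by fun_prop)) fun ρ => ?_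
    exact_mod_cast (hpos ρ).ne'
  have hb : ∀ ρ : ℝ,
      ‖(starRingEnd ℂ) (f ρ) / (((max (‖f ρ‖ ^ 2) (m ^ 2) : ℝ)) : ℂ)‖ ≤ 1 / m := by
    intro ρ
    rw [norm_div, RCLike.norm_conj, Complex.norm_real, Real.norm_of_nonneg (hpos ρ).le,
      div_le_div_iff₀ (hpos ρ) hm, one_mul]
    rcases le_or_gt m ‖f ρ‖ with h | h
    · refine le_trans ?_ (le_max_left _ _)
      nlinarith [norm_nonneg (f ρ)]
    · refine le_trans ?_ (le_max_right _ _)
      nlinarith [norm_nonneg (f ρ)]
  refine ⟨BoundedContinuousFunction.ofNormedAddCommGroup _ hc (1 / m) hb, fun ρ hρ => ?_⟩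
  change f ρ * ((starRingEnd ℂ) (f ρ) / (((max (‖f ρ‖ ^ 2) (m ^ 2) : ℝ)) : ℂ)) = 1
  have h1 : m ^ 2 ≤ ‖f ρ‖ ^ 2 := by
    have := hm.le
    gcongr
  rw [max_eq_left h1, ← mul_div_assoc, Complex.mul_conj, Complex.normSq_eq_norm_sq, div_self]
  have h2 : (0 : ℝ) < ‖f ρ‖ ^ 2 := lt_of_lt_of_le (by positivity) h1
  exact_mod_cast h2.ne'

/-- multiplication of a compactly supported function by a continuous function -/
theorem exists_mul (f : ℝ → ℂ) (hf : Continuous f) (G : ℝ →ᵇ ℂ) (hG : HasCompactSupport G) :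
    ∃ F : ℝ →ᵇ ℂ, (∀ ρ, F ρ = f ρ * G ρ) ∧ HasCompactSupport F := by
  have hc : Continuous fun ρ : ℝ => f ρ * G ρ := by fun_prop
  have hs : HasCompactSupport fun ρ : ℝ => f ρ * G ρ := hG.mul_left
  obtain ⟨C, hC⟩ := hs.exists_bound_of_continuous hc
  exact ⟨BoundedContinuousFunction.ofNormedAddCommGroup _ hc C hC, fun ρ => rfl, hs⟩

theorem norm_iso {u : H →L[ℂ] H} (h1 : star u * u = 1) (v : H) : ‖u v‖ = ‖v‖ := by
  have h3 : ⟪u v, u v⟫_ℂ = ⟪v, v⟫_ℂ := by
    have h4 : ⟪u v, u v⟫_ℂ = ⟪v, (star u) (u v)⟫_ℂ := by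
      rw [ContinuousLinearMap.star_eq_adjoint, ContinuousLinearMap.adjoint_inner_right]
    rw [h4]
    have h5 : (star u) (u v) = v := congrArg (fun T : H →L[ℂ] H => T v) h1
    rw [h5]
  rw [inner_self_eq_norm_sq_to_K, inner_self_eq_norm_sq_to_K] at h3
  have h6 : ‖u v‖ ^ 2 = ‖v‖ ^ 2 := by exact_mod_cast h3
  exact (sq_eq_sq₀ (norm_nonneg _) (norm_nonneg _)).1 h6

end CornerSpecAux

end Pool.Agent.Helper88.CS

end

section

open scoped InnerProductSpace Topology BoundedContinuousFunction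

open ContinuousLinearMap Filter MeasureTheory

namespace Pool.Agent.Helper88.CS

open Pool.Agent.Helper23

variable {H : Type*} [NormedAddCommGroup H] [InnerProductSpace ℂ H] [CompleteSpace H]

variable {A : VonNeumannAlgebra H} {J : H →L[ℝ] H} {κ : H}

namespace Trick2Aux

theorem pyth {e f : H →L[ℂ] H} (hes : star e = e) (hef0 : e * f = 0) (v w : H) :
    ‖e v + f w‖ ^ 2 = ‖e v‖ ^ 2 + ‖f w‖ ^ 2 := by
  have h0 : ⟪e v, f w⟫_ℂ = 0 := by
    rw [← hes, ContinuousLinearMap.star_eq_adjoint, ContinuousLinearMap.adjoint_inner_left]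
    have : e (f w) = (e * f) w := rfl
    rw [this, hef0]
    simp
  have h := @norm_add_sq ℂ H _ _ _ (e v) (f w)
  rw [h, h0]
  simp

/-- the arithmetic of the constants -/
theorem arith {a b S t δ : ℝ} (ha : 0 ≤ a) (hb : 0 ≤ b) (hS : 0 < S) (ht : 0 ≤ t)
    (hδ1 : δ ≤ 1 / 100) (hS2 : S ^ 2 = a ^ 2 + b ^ 2) (hab : b ≤ a + t)
    (htS : 2 * t ^ 2 ≤ 32 * δ * S ^ 2) (hδ : 0 < δ) : t ^ 2 ≤ 100 * δ * a ^ 2 := by
  have h1 : t ≤ 4 / 10 * S := by
    have h2 : t ^ 2 ≤ (4 / 10 * S) ^ 2 := by nlinarith [sq_nonneg S]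
    exact abs_le_of_sq_le_sq' h2 (by positivity) |>.2
  have h3 : S ≤ 5 / 2 * a := by
    by_contra hcon
    push Not at hcon
    have h4 : a ≤ 2 / 5 * S := by linarith
    have h5 : b ≤ 4 / 5 * S := by linarith
    have h6 : a ^ 2 ≤ (2 / 5 * S) ^ 2 := pow_le_pow_left₀ ha h4 2
    have h7 : b ^ 2 ≤ (4 / 5 * S) ^ 2 := pow_le_pow_left₀ hb h5 2
    nlinarith [sq_pos_of_pos hS]
  have h8 : S ^ 2 ≤ (5 / 2 * a) ^ 2 := pow_le_pow_left₀ hS.le h3 2
  nlinarith

end Trick2Aux

end Pool.Agent.Helper88.CS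

end

section

open scoped InnerProductSpace Topology BoundedContinuousFunction

open ContinuousLinearMap Filter MeasureTheory

namespace Pool.Agent.Helper88.CS

open Pool.Agent.Helper23

variable {H : Type*} [NormedAddCommGroup H] [InnerProductSpace ℂ H] [CompleteSpace H]

variable {A : VonNeumannAlgebra H} {ξ : H} {J : H →L[ℝ] H}
  {Ψ : (ℝ →ᵇ ℂ) →⋆ₐ[ℂ] (H →L[ℂ] H)} {R : H →L[ℂ] H} {D : H →L[ℝ] H}

namespace CornerAux

lemma norm_isom {u : H →L[ℂ] H} (h1 : star u * u = 1) (v : H) : ‖u v‖ = ‖v‖ := by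
  have h4 : (⟪u v, u v⟫_ℂ) = ⟪v, v⟫_ℂ := by
    have h5 : ⟪u v, u v⟫_ℂ = ⟪(star u) (u v), v⟫_ℂ := by
      rw [star_eq_adjoint, adjoint_inner_left]
    rw [h5]
    show ⟪(star u * u) v, v⟫_ℂ = _
    rw [h1]; rfl
  rw [inner_self_eq_norm_sq_to_K, inner_self_eq_norm_sq_to_K] at h4
  have h6 : ‖u v‖ ^ 2 = ‖v‖ ^ 2 := by exact_mod_cast h4
  exact (sq_eq_sq₀ (norm_nonneg _) (norm_nonneg _)).1 h6

end CornerAux

end Pool.Agent.Helper88.CS

end

section

open scoped InnerProductSpace Topology BoundedContinuousFunction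

open ContinuousLinearMap Filter MeasureTheory

namespace Pool.Agent.Helper88.CS

open Pool.Agent.Helper23

variable {H : Type*} [NormedAddCommGroup H] [InnerProductSpace ℂ H] [CompleteSpace H]

variable {A : VonNeumannAlgebra H} {ξ : H} {J : H →L[ℝ] H}

namespace StepAux

lemma norm_l {v : H →L[ℂ] H} (hv : v * star v * v = v) (η : H) :
    ‖v η‖ ^ 2 = ‖(star v * v) η‖ ^ 2 := by
  have h1 : ⟪v η, v η⟫_ℂ = ⟪(star v * v) η, (star v * v) η⟫_ℂ := by
    have e1 : ⟪(star v * v) η, (star v * v) η⟫_ℂ = ⟪v η, v ((star v * v) η)⟫_ℂ := by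
      rw [mul_apply_eq_comp, ContinuousLinearMap.star_eq_adjoint,
        ContinuousLinearMap.adjoint_inner_left]
    rw [e1, ← mul_apply_eq_comp, ← mul_assoc, hv]
  rw [inner_self_eq_norm_sq_to_K, inner_self_eq_norm_sq_to_K] at h1
  exact_mod_cast h1

end StepAux

end Pool.Agent.Helper88.CS

end

section

open scoped InnerProductSpace Topology BoundedContinuousFunction

open ContinuousLinearMap Filter MeasureTheory

namespace Pool.Agent.Helper88.CS

open Pool.Agent.Helper23

variable {H : Type*} [NormedAddCommGroup H] [InnerProductSpace ℂ H] [CompleteSpace H]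

variable {A : VonNeumannAlgebra H} {ξ : H} {J : H →L[ℝ] H}
  {Ψ : (ℝ →ᵇ ℂ) →⋆ₐ[ℂ] (H →L[ℂ] H)} {R : H →L[ℂ] H} {D : H →L[ℝ] H}

namespace ExhAux

lemma tendsto_apply {T : ℕ → H →L[ℂ] H} {S : H →L[ℂ] H} (hT : ∀ n x, ‖T n x‖ ≤ ‖x‖)
    (h : ∀ x, Tendsto (fun n => T n x) atTop (𝓝 (S x))) {x : ℕ → H} {y : H}
    (hx : Tendsto x atTop (𝓝 y)) : Tendsto (fun n => T n (x n)) atTop (𝓝 (S y)) := by
  have h1 : Tendsto (fun n => T n (x n - y)) atTop (𝓝 0) := by
    rw [tendsto_zero_iff_norm_tendsto_zero]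
    have h2 : Tendsto (fun n => ‖x n - y‖) atTop (𝓝 0) := by
      have := (hx.sub_const y).norm
      simpa using this
    exact squeeze_zero (fun n => norm_nonneg _) (fun n => hT n _) h2
  have h3 := h1.add (h y)
  simp only [zero_add] at h3
  refine h3.congr fun n => ?_
  rw [map_sub]; abel

end ExhAux

end Pool.Agent.Helper88.CS

end

section

open scoped InnerProductSpace Topology

open ContinuousLinearMap Filter

namespace Pool.Agent.Helper88.CS

open Pool.Agent.Helper23

universe u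

variable {H : Type u} [NormedAddCommGroup H] [InnerProductSpace ℂ H] [CompleteSpace H]

namespace FinalAux

theorem norm_iso {a : H →L[ℂ] H} (h : star a * a = 1) (v : H) : ‖a v‖ = ‖v‖ := by
  have h1 : ⟪a v, a v⟫_ℂ = ⟪v, v⟫_ℂ := by
    have h2 : ⟪v, (star a) (a v)⟫_ℂ = ⟪a v, a v⟫_ℂ := by
      rw [star_eq_adjoint, adjoint_inner_right]
    rw [← h2]
    have h3 : (star a) (a v) = v := congrArg (fun T : H →L[ℂ] H => T v) h
    rw [h3]
  rw [inner_self_eq_norm_sq_to_K, inner_self_eq_norm_sq_to_K] at h1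
  have h4 : ‖a v‖ ^ 2 = ‖v‖ ^ 2 := by exact_mod_cast h1
  exact (sq_eq_sq₀ (norm_nonneg _) (norm_nonneg _)).1 h4

theorem op_le_one {a : H →L[ℂ] H} (h : star a * a = 1) : ‖a‖ ≤ 1 :=
  ContinuousLinearMap.opNorm_le_bound _ zero_le_one fun v => by rw [norm_iso h, one_mul]

theorem st_le {η η' : H} (h1 : ‖η‖ ^ 2 + ‖η'‖ ^ 2 = 1) (z : H →L[ℂ] H) :
    ‖⟪η, z η⟫_ℂ + ⟪η', z η'⟫_ℂ‖ ≤ ‖z‖ := by
  have h : ∀ v : H, ‖⟪v, z v⟫_ℂ‖ ≤ ‖z‖ * ‖v‖ ^ 2 := by
    intro v
    refine (norm_inner_le_norm _ _).trans ?_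
    have := mul_le_mul_of_nonneg_left (z.le_opNorm v) (norm_nonneg v)
    nlinarith
  refine (norm_add_le _ _).trans ((add_le_add (h η) (h η')).trans ?_)
  rw [← mul_add, h1, mul_one]

end FinalAux

end Pool.Agent.Helper88.CS

end

section

open scoped InnerProductSpace Topology ENNReal BoundedContinuousFunction

open ContinuousLinearMap Filter MeasureTheory

namespace Pool.Agent.Helper23.ED

open Pool.Agent.Helper23 Pool.Agent.Helper23.RBF

universe u

section fc

variable {H : Type*} [NormedAddCommGroup H] [InnerProductSpace ℂ H] [CompleteSpace H]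

/-- the translate `ρ ↦ G (ρ + c)` -/
noncomputable def shiftB (c : ℝ) (G : ℝ →ᵇ ℂ) : ℝ →ᵇ ℂ :=
  G.compContinuous ⟨fun ρ : ℝ => ρ + c, by fun_prop⟩

@[simp] lemma shiftB_apply (c : ℝ) (G : ℝ →ᵇ ℂ) (ρ : ℝ) : shiftB c G ρ = G (ρ + c) := rfl

end fc

end Pool.Agent.Helper23.ED

end

section

open scoped InnerProductSpace Topology ENNReal BoundedContinuousFunction

open ContinuousLinearMap Filter MeasureTheory

namespace Pool.Agent.Helper23.ED

open Pool.Agent.Helper23 Pool.Agent.Helper23.RBF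

universe u

variable {K : Type*} [NormedAddCommGroup K] [InnerProductSpace ℂ K] [CompleteSpace K]

variable {U : ℝ → K →L[ℂ] K}

namespace SmE

lemma gauss_ne : (∫ u : ℝ, Complex.exp (-((u : ℂ) ^ 2))) ≠ 0 := by
  have h1 : (∫ u : ℝ, Complex.exp (-((u : ℂ) ^ 2))) = ((∫ u : ℝ, Real.exp (-1 * u ^ 2) : ℝ) : ℂ) := by
    rw [← integral_complex_ofReal]
    refine integral_congr_ae (Eventually.of_forall fun u => ?_)
    simp only
    push_cast
    congr 1
    ring
  rw [h1, integral_gaussian]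
  have h2 : Real.sqrt (Real.pi / 1) ≠ 0 := by
    rw [div_one]
    exact (Real.sqrt_pos.2 Real.pi_pos).ne'
  exact_mod_cast h2

end SmE

end Pool.Agent.Helper23.ED

end

section

open scoped InnerProductSpace Topology ENNReal BoundedContinuousFunction

open ContinuousLinearMap Filter MeasureTheory

namespace Pool.Agent.Helper23.ED

open Pool.Agent.Helper23 Pool.Agent.Helper23.RBF

universe u

variable {H : Type u} [NormedAddCommGroup H] [InnerProductSpace ℂ H] [CompleteSpace H]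

variable {K : Type u} [NormedAddCommGroup K] [InnerProductSpace ℂ K] [CompleteSpace K]

variable {M N : VonNeumannAlgebra H} {E : (H →L[ℂ] H) → (H →L[ℂ] H)} {ξ : H}
  {i : K →L[ℂ] H} {κ : K}

namespace CoC

lemma norm_le_one {T : H →L[ℂ] H} (h : star T * T = 1) (v : H) : ‖T v‖ ≤ ‖v‖ := by
  have h1 : ⟪T v, T v⟫_ℂ = ⟪v, v⟫_ℂ := by
    have h2 : (star T) (T v) = v := congrArg (fun U : H →L[ℂ] H => U v) h
    rw [← adjoint_inner_right, ← ContinuousLinearMap.star_eq_adjoint, h2]
  rw [inner_self_eq_norm_sq_to_K, inner_self_eq_norm_sq_to_K] at h1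
  have h2 : ‖T v‖ ^ 2 = ‖v‖ ^ 2 := by exact_mod_cast h1
  exact ((sq_eq_sq₀ (norm_nonneg _) (norm_nonneg _)).1 h2).le

end CoC

end Pool.Agent.Helper23.ED

end

section

open scoped InnerProductSpace Topology ENNReal BoundedContinuousFunction

open ContinuousLinearMap Filter MeasureTheory

namespace Pool.Agent.Helper23.ED

open Pool.Agent.Helper23 Pool.Agent.Helper23.RBF

universe u

variable {H : Type u} [NormedAddCommGroup H] [InnerProductSpace ℂ H] [CompleteSpace H]

variable {N : VonNeumannAlgebra H} {ψ : (H →L[ℂ] H) → ℝ≥0∞}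

namespace WtC

lemma selfAdj {x : H →L[ℂ] H} (hx : 0 ≤ x) : IsSelfAdjoint x :=
  ((nonneg_iff_isPositive x).1 hx).isSelfAdjoint

lemma le_of_re {x y : H →L[ℂ] H} (hx : 0 ≤ x) (hy : 0 ≤ y)
    (h : ∀ v, (⟪v, x v⟫_ℂ).re ≤ (⟪v, y v⟫_ℂ).re) : x ≤ y := by
  rw [ContinuousLinearMap.le_def, isPositive_def']
  refine ⟨(selfAdj hy).sub (selfAdj hx), fun v => ?_⟩
  have h1 : ((y - x).reApplyInnerSelf v) = (⟪v, (y - x) v⟫_ℂ).re := by
    rw [reApplyInnerSelf_apply]
    exact inner_re_symm (𝕜 := ℂ) _ _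
  rw [h1, sub_apply, inner_sub_right, Complex.sub_re]
  linarith [h v]

end WtC

end Pool.Agent.Helper23.ED

end

section

open scoped InnerProductSpace Topology ENNReal BoundedContinuousFunction

open ContinuousLinearMap Filter MeasureTheory

namespace Pool.Agent.Helper23.ED

open Pool.Agent.Helper23 Pool.Agent.Helper23.RBF

universe u

variable {H : Type u} [NormedAddCommGroup H] [InnerProductSpace ℂ H] [CompleteSpace H]

variable {K : Type u} [NormedAddCommGroup K] [InnerProductSpace ℂ K] [CompleteSpace K]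

variable {L : Type u} [NormedAddCommGroup L] [InnerProductSpace ℂ L] [CompleteSpace L]

variable {N : VonNeumannAlgebra H} {ψ : (H →L[ℂ] H) → ℝ≥0∞} {ξ : H} {i : K →L[ℂ] H} {κ : K}
  {Λ : (H →L[ℂ] H) → L} {ρ : (H →L[ℂ] H) → (L →L[ℂ] L)}

namespace WtD

/-- weighted increments -/
noncomputable def inc (b : ℕ → H →L[ℂ] H) (k j : ℕ) : H →L[ℂ] H :=
  ((((2 : ℝ) ^ (k + j + 1) : ℝ)) : ℂ) •
    ((b (k + j + 1) - b (k + j)) * star (b (k + j + 1) - b (k + j)))

/-- the increasing sequence of the graph argument -/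
noncomputable def wseq (b : ℕ → H →L[ℂ] H) (k n : ℕ) : H →L[ℂ] H :=
  ∑ j ∈ Finset.range n, inc b k j

lemma wseq_succ (b : ℕ → H →L[ℂ] H) (k n : ℕ) : wseq b k (n + 1) = wseq b k n + inc b k n :=
  Finset.sum_range_succ _ _

lemma inc_nonneg (b : ℕ → H →L[ℂ] H) (k j : ℕ) : 0 ≤ inc b k j := by
  rw [nonneg_iff_isPositive]
  have h1 : (0 : H →L[ℂ] H) ≤ (b (k + j + 1) - b (k + j)) * star (b (k + j + 1) - b (k + j)) :=
    mul_star_self_nonneg _
  rw [nonneg_iff_isPositive] at h1
  refine h1.smul_of_nonneg ?_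
  have : (0 : ℝ) ≤ 2 ^ (k + j + 1) := by positivity
  exact_mod_cast this

lemma wseq_nonneg (b : ℕ → H →L[ℂ] H) (k n : ℕ) : 0 ≤ wseq b k n :=
  Finset.sum_nonneg fun j _ => inc_nonneg b k j

lemma wseq_mono (b : ℕ → H →L[ℂ] H) (k : ℕ) : Monotone (wseq b k) := by
  refine monotone_nat_of_le_succ fun n => ?_
  rw [wseq_succ]
  exact le_add_of_nonneg_right (inc_nonneg b k n)

lemma tele (b : ℕ → H →L[ℂ] H) (k n : ℕ) (v : H) :
    ‖star (b (k + n) - b k) v‖ ≤
      ∑ j ∈ Finset.range n, ‖star (b (k + j + 1) - b (k + j)) v‖ := by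
  induction n with
  | zero => simp
  | succ n ih =>
    rw [Finset.sum_range_succ]
    have h1 : star (b (k + (n + 1)) - b k) v =
        star (b (k + n) - b k) v + star (b (k + n + 1) - b (k + n)) v := by
      rw [← add_apply, ← star_add]
      congr 2
      rw [← add_assoc]
      abel
    rw [h1]
    exact (norm_add_le _ _).trans (add_le_add ih le_rfl)

end WtD

end Pool.Agent.Helper23.ED

end

section

open scoped InnerProductSpace Topology ENNReal BoundedContinuousFunction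

open ContinuousLinearMap Filter MeasureTheory

namespace Pool.Agent.Helper23.ED

open Pool.Agent.Helper23 Pool.Agent.Helper23.RBF

universe u

variable {H : Type u} [NormedAddCommGroup H] [InnerProductSpace ℂ H] [CompleteSpace H]

variable {K : Type u} [NormedAddCommGroup K] [InnerProductSpace ℂ K] [CompleteSpace K]

variable {L : Type u} [NormedAddCommGroup L] [InnerProductSpace ℂ L] [CompleteSpace L]

variable {N : VonNeumannAlgebra H} {ψ : (H →L[ℂ] H) → ℝ≥0∞} {ξ : H} {i : K →L[ℂ] H} {κ : K}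
  {Λ : (H →L[ℂ] H) → L} {ρ : (H →L[ℂ] H) → (L →L[ℂ] L)}

namespace WtE

lemma geo (k n : ℕ) : ∑ j ∈ Finset.Ico k n, 2 * (1 / 4 : ℝ) ^ j ≤ 3 * (1 / 4 : ℝ) ^ k := by
  by_cases hk : k ≤ n
  · have h : ∑ j ∈ Finset.Ico k n, 2 * (1 / 4 : ℝ) ^ j =
        8 / 3 * ((1 / 4 : ℝ) ^ k - (1 / 4) ^ n) := by
      induction n, hk using Nat.le_induction with
      | base => simp
      | succ m hm ih =>
        rw [Finset.sum_Ico_succ_top hm, ih, pow_succ]
        ring
    rw [h]
    have h1 : (0 : ℝ) ≤ (1 / 4) ^ n := by positivity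
    have h2 : (0 : ℝ) ≤ (1 / 4) ^ k := by positivity
    linarith
  · rw [Finset.Ico_eq_empty (by omega)]
    simp

end WtE

end Pool.Agent.Helper23.ED

end

section

open scoped InnerProductSpace Topology ENNReal BoundedContinuousFunction

open ContinuousLinearMap Filter MeasureTheory

namespace Pool.Agent.Helper23.ED

open Pool.Agent.Helper23 Pool.Agent.Helper23.RBF

universe u

variable {H : Type*} [NormedAddCommGroup H] [InnerProductSpace ℂ H] [CompleteSpace H]

namespace FcD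

/-- translation as a star homomorphism -/
noncomputable def shiftHom (c : ℝ) : (ℝ →ᵇ ℂ) →⋆ₐ[ℂ] (ℝ →ᵇ ℂ) where
  toFun := shiftB c
  map_one' := by
    ext ρ
    rfl
  map_mul' G G' := by
    ext ρ
    rfl
  map_zero' := by
    ext ρ
    rfl
  map_add' G G' := by
    ext ρ
    rfl
  commutes' z := by
    ext ρ
    rfl
  map_star' G := by
    ext ρ
    rfl

theorem norm_shiftB_le (c : ℝ) (G : ℝ →ᵇ ℂ) : ‖shiftB c G‖ ≤ ‖G‖ := by
  refine (BoundedContinuousFunction.norm_le (norm_nonneg G)).2 fun ρ => ?_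
  rw [shiftB_apply]
  exact G.norm_coe_le_norm _

end FcD

end Pool.Agent.Helper23.ED

end

section

open scoped InnerProductSpace Topology ENNReal BoundedContinuousFunction

open ContinuousLinearMap Filter MeasureTheory

namespace Pool.Agent.Helper23.ED

open Pool.Agent.Helper23 Pool.Agent.Helper23.RBF

universe u

open TopologicalSpace

variable {H : Type*} [NormedAddCommGroup H] [InnerProductSpace ℂ H] [CompleteSpace H]

variable {N : VonNeumannAlgebra H} {ξ : H} {W : ℝ → H →L[ℂ] H}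

omit [CompleteSpace H] in
/-- countability of a Hilbert basis -/
lemma slB_countable [SeparableSpace H] {ι : Type*} (b : HilbertBasis ι ℂ H) :
    Countable ι := by
  refine Pairwise.countable_of_isOpen_disjoint
    (s := fun i : ι => Metric.ball (b i : H) (1 / 2)) ?_ (fun i => Metric.isOpen_ball)
    (fun i => ⟨b i, Metric.mem_ball_self (by norm_num)⟩)
  intro i j hij
  refine Set.disjoint_left.2 fun x hx hy => ?_
  rw [Metric.mem_ball] at hx hy
  have h1 : dist (b i : H) (b j) < 1 := by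
    calc dist (b i : H) (b j) ≤ dist (b i : H) x + dist x (b j) := dist_triangle _ _ _
      _ = dist x (b i : H) + dist x (b j) := by rw [dist_comm]
      _ < 1 := by linarith
  have h2 : ‖(b i : H) - b j‖ ^ 2 = 2 := by
    have h4 := @norm_sub_sq ℂ H _ _ _ (b i) (b j)
    rw [b.orthonormal.2 hij, b.orthonormal.1 i, b.orthonormal.1 j] at h4
    rw [h4]
    simp
    norm_num
  rw [dist_eq_norm] at h1
  nlinarith [norm_nonneg ((b i : H) - b j)]

end Pool.Agent.Helper23.ED

end

section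

open scoped InnerProductSpace Topology ENNReal BoundedContinuousFunction

open ContinuousLinearMap Filter MeasureTheory

namespace Pool.Agent.Helper23.ED

open Pool.Agent.Helper23 Pool.Agent.Helper23.RBF

universe u

open TopologicalSpace

variable {H : Type*} [NormedAddCommGroup H] [InnerProductSpace ℂ H] [CompleteSpace H]

variable {N : VonNeumannAlgebra H} {ξ : H} {W : ℝ → H →L[ℂ] H}

namespace WuA

/-- a von Neumann algebra from a set of operators: its commutant -/
noncomputable def cvn (S : Set (H →L[ℂ] H)) : VonNeumannAlgebra H where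
  toStarSubalgebra := StarSubalgebra.centralizer ℂ S
  centralizer_centralizer' := by simp

lemma mem_cvn {S : Set (H →L[ℂ] H)} {x : H →L[ℂ] H} :
    x ∈ cvn S ↔ ∀ g ∈ S, g * x = x * g ∧ star g * x = x * star g := by
  have h1 : x ∈ cvn S ↔ x ∈ StarSubalgebra.centralizer ℂ S := Iff.rfl
  rw [h1, StarSubalgebra.mem_centralizer_iff]

end WuA

end Pool.Agent.Helper23.ED

end
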