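import Pool.Agent.Helper23.FA.Ns
import Pool.Agent.Helper23.RBFDefs

/-!
Parts of Helper78.BC.Fam, Helper43.TTF.A, Helper72.TTB, Helper43.TTF.F, Helper23.Qalg, Helper23.Spec, Helper23.Frame, Helper70.U8a, Helper23.UDefs, Helper68.G2b3, Helper75.GKWeak, Helper53.U.III1, Helper23.Pin1, Helper19.APSmooth, Helper23.PinAux, Helper23.Wt, Helper78.BC.NoProj, Helper5.PU.U11, Helper88.CS.Sums, Helper88.CS.CornerSpec, Helper88.CS.Trick1, Helper88.CS.Full, Helper88.CS.Final, Helper23.ED.Defs, Helper23.ED.SmD, Helper23.ED.WtC, Helper23.ED.WtD, Helper23.ED.WtE, Helper23.ED.WtB, Helper23.ED.SlC, Helper23.ED.WuA, Helper23.ED.WuB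
-/

section

open scoped InnerProductSpace Topology BoundedContinuousFunction

open ContinuousLinearMap Filter

namespace Pool.Agent.Helper78.BC

variable {H : Type*} [NormedAddCommGroup H] [InnerProductSpace ℂ H] [CompleteSpace H]

variable {A : VonNeumannAlgebra H} {ξ : H} {J : H →L[ℝ] H}
  {Ψ : (ℝ →ᵇ ℂ) →⋆ₐ[ℂ] (H →L[ℂ] H)}

namespace Fam

theorem coiso_apply {v : H →L[ℂ] H} (hv : v * star v = 1) (x : H) : v ((star v) x) = x := by
  have := congrArg (fun T : H →L[ℂ] H => T x) hv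
  simpa using this

end Fam

end Pool.Agent.Helper78.BC

end

section

open scoped InnerProductSpace Topology BoundedContinuousFunction

open ContinuousLinearMap Filter MeasureTheory

namespace Pool.Agent.Helper43.TTF

open Pool.Agent.Helper23

variable {H : Type*} [NormedAddCommGroup H] [InnerProductSpace ℂ H] [CompleteSpace H]

lemma cosh_half (ρ : ℝ) : Real.cosh (ρ / 2) = (1 + Real.exp ρ) / (2 * Real.exp (ρ / 2)) := by
  rw [Real.cosh_eq, Real.exp_neg]
  have h1 : Real.exp ρ = Real.exp (ρ / 2) * Real.exp (ρ / 2) := by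
    rw [← Real.exp_add]; ring_nf
  rw [h1]
  have : (0 : ℝ) < Real.exp (ρ / 2) := Real.exp_pos _
  field_simp
  ring

end Pool.Agent.Helper43.TTF

end

section

open scoped InnerProductSpace

open ContinuousLinearMap

namespace Pool.Agent.Helper72

open Pool.Agent.Helper23

variable {H : Type*} [NormedAddCommGroup H] [InnerProductSpace ℂ H] [CompleteSpace H]

omit [CompleteSpace H] in
lemma inner_re_nonneg_of_nonneg {T : H →L[ℂ] H} (hT : 0 ≤ T) (v : H) : 0 ≤ (⟪v, T v⟫_ℂ).re :=
  ((ContinuousLinearMap.nonneg_iff_isPositive T).1 hT).re_inner_nonneg_right v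

end Pool.Agent.Helper72

end

section

open scoped InnerProductSpace Topology BoundedContinuousFunction FourierTransform

open ContinuousLinearMap Filter MeasureTheory

namespace Pool.Agent.Helper43.TTF

open Pool.Agent.Helper23

variable {H : Type*} [NormedAddCommGroup H] [InnerProductSpace ℂ H] [CompleteSpace H]

variable {R : H →L[ℂ] H} {D : H →L[ℝ] H} {Ψ : (ℝ →ᵇ ℂ) →⋆ₐ[ℂ] (H →L[ℂ] H)} {J : H →L[ℝ] H}

lemma exp_sub (a b : ℝ) : ‖Complex.exp (a * Complex.I) - Complex.exp (b * Complex.I)‖ ≤ |a - b| := by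
  have h1 : Complex.exp (a * Complex.I) - Complex.exp (b * Complex.I) =
      Complex.exp (b * Complex.I) * (Complex.exp (Complex.I * ((a - b : ℝ) : ℂ)) - 1) := by
    rw [mul_sub, ← Complex.exp_add, mul_one]
    congr 2
    push_cast
    ring
  rw [h1, norm_mul, Complex.norm_exp_ofReal_mul_I, one_mul]
  exact Real.norm_exp_I_mul_ofReal_sub_one_le

end Pool.Agent.Helper43.TTF

end

section

open scoped InnerProductSpace TensorProduct

open ContinuousLinearMap

namespace Pool.Agent.Helper23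

variable {H : Type*} [NormedAddCommGroup H] [InnerProductSpace ℂ H] [CompleteSpace H]

variable {M N : VonNeumannAlgebra H} {ξ : H} {E : (H →L[ℂ] H) → (H →L[ℂ] H)}

lemma exists_ext {F : Type*} [AddCommGroup F] [Module ℂ F] (f e : F →ₗ[ℂ] H) (hd : DenseRange e)
    {C : ℝ} (hC : 0 ≤ C) (h : ∀ t, ‖f t‖ ≤ C * ‖e t‖) :
    ∃ z : H →L[ℂ] H, (∀ t, z (e t) = f t) ∧ ‖z‖ ≤ C :=
  ⟨f.extendOfNorm e, fun t => LinearMap.extendOfNorm_eq hd ⟨C, h⟩ t,
    LinearMap.opNorm_extendOfNorm_le hd hC h⟩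

lemma exists_ext_monoid {F : Type*} [AddCommMonoid F] [Module ℂ F] (f e : F →ₗ[ℂ] H)
    (hd : DenseRange e) {C : ℝ} (hC : 0 ≤ C) (h : ∀ t, ‖f t‖ ≤ C * ‖e t‖) :
    ∃ z : H →L[ℂ] H, (∀ t, z (e t) = f t) ∧ ‖z‖ ≤ C := by
  let _ : AddCommGroup F := Module.addCommMonoidToAddCommGroup ℂ
  exact exists_ext f e hd hC h

end Pool.Agent.Helper23

end

section

open scoped InnerProductSpace

open ContinuousLinearMap

namespace Pool.Agent.Helper23

variable {H : Type*} [NormedAddCommGroup H] [InnerProductSpace ℂ H] [CompleteSpace H]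

variable {M N : VonNeumannAlgebra H} {ξ : H} {E : (H →L[ℂ] H) → (H →L[ℂ] H)}

/-- evaluation at `ξ` -/
def evξ (ξ : H) : (H →L[ℂ] H) →ₗ[ℂ] H where
  toFun a := a ξ
  map_add' _ _ := rfl
  map_smul' _ _ := rfl

end Pool.Agent.Helper23

end

section

open scoped InnerProductSpace Topology ENNReal

open ContinuousLinearMap Filter MeasureTheory

set_option linter.unusedSectionVars false

set_option linter.unusedVariables false

namespace Pool.Agent.Helper23

section general

variable {E : Type*} [NormedAddCommGroup E] [InnerProductSpace ℂ E] [CompleteSpace E]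

lemma parseval_enn {ι : Type*} (b : HilbertBasis ι ℂ E) (x : E) :
    ∑' i, ENNReal.ofReal (‖⟪b i, x⟫_ℂ‖ ^ 2) = ENNReal.ofReal (‖x‖ ^ 2) := by
  have h := b.hasSum_inner_mul_inner x x
  have h1 : ∀ i, ⟪x, b i⟫_ℂ * ⟪b i, x⟫_ℂ = ((‖⟪b i, x⟫_ℂ‖ ^ 2 : ℝ) : ℂ) := by
    intro i
    rw [← inner_conj_symm x (b i), RCLike.conj_mul]
    norm_cast
  simp only [h1] at h
  have h2 : ⟪x, x⟫_ℂ = ((‖x‖ ^ 2 : ℝ) : ℂ) := by
    rw [inner_self_eq_norm_sq_to_K]; norm_cast
  rw [h2] at h
  have h3 : HasSum (fun i => ‖⟪b i, x⟫_ℂ‖ ^ 2) (‖x‖ ^ 2) := by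
    exact_mod_cast h
  rw [← h3.tsum_eq, ENNReal.ofReal_tsum_of_nonneg (fun _ => by positivity) h3.summable]

end general

end Pool.Agent.Helper23

end

section

open scoped InnerProductSpace Topology BoundedContinuousFunction

open ContinuousLinearMap Filter MeasureTheory

namespace Pool.Agent.Helper70.U8

open Pool.Agent.Helper23

variable {H : Type*} [NormedAddCommGroup H] [InnerProductSpace ℂ H] [CompleteSpace H]

variable {A : VonNeumannAlgebra H} {ξ : H} {R : H →L[ℂ] H} {D : H →L[ℝ] H}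
  {Ψ : (ℝ →ᵇ ℂ) →⋆ₐ[ℂ] (H →L[ℂ] H)}

lemma cont_apply {T : ℝ → H →L[ℂ] H} (hT : ∀ t v, ‖T t v‖ ≤ ‖v‖)
    (hc : ∀ v, Continuous fun t => T t v) {f : ℝ → H} (hf : Continuous f) :
    Continuous fun t => T t (f t) := by
  rw [continuous_iff_continuousAt]
  intro t₀
  rw [ContinuousAt, tendsto_iff_norm_sub_tendsto_zero]
  have h1 : Tendsto (fun t => ‖f t - f t₀‖ + ‖T t (f t₀) - T t₀ (f t₀)‖) (𝓝 t₀) (𝓝 0) := by
    have e1 := tendsto_iff_norm_sub_tendsto_zero.1 (hf.tendsto t₀)
    have e2 := tendsto_iff_norm_sub_tendsto_zero.1 ((hc (f t₀)).tendsto t₀)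
    simpa using e1.add e2
  refine squeeze_zero (fun _ => norm_nonneg _) (fun t => ?_) h1
  have h2 : T t (f t) - T t₀ (f t₀) = T t (f t - f t₀) + (T t (f t₀) - T t₀ (f t₀)) := by
    rw [map_sub]; abel
  rw [h2]
  refine (norm_add_le _ _).trans ?_
  gcongr
  exact hT _ _

end Pool.Agent.Helper70.U8

end

section

open scoped InnerProductSpace Topology

open ContinuousLinearMap Filter

namespace Pool.Agent.Helper23

variable {H : Type*} [NormedAddCommGroup H] [InnerProductSpace ℂ H] [CompleteSpace H]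

variable {K : Type*} [NormedAddCommGroup K] [InnerProductSpace ℂ K] [CompleteSpace K]

/-- the compression of an operator on the ultrapower to `H` -/
noncomputable def ccU (M : VonNeumannAlgebra H) (ξ : H) (rep : (ℕ → H →L[ℂ] H) → (K →L[ℂ] K))
    (ζ : K) (T : K →L[ℂ] K) : H →L[ℂ] H :=
  open Classical in
  if h : ∃ y ∈ M, ∀ a ∈ M, ∀ b ∈ M,
    ⟪a ξ, y (b ξ)⟫_ℂ = ⟪rep (fun _ => a) ζ, T (rep (fun _ => b) ζ)⟫_ℂ then h.choose else 0

end Pool.Agent.Helper23

end

section

open scoped InnerProductSpace Topology BoundedContinuousFunction FourierTransform ENNReal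

open ContinuousLinearMap Filter MeasureTheory

set_option linter.unusedSectionVars false

namespace Pool.Agent.Helper23

variable {H : Type*} [NormedAddCommGroup H] [InnerProductSpace ℂ H] [CompleteSpace H]

/-- reflection of a bounded continuous function, with complex conjugation -/
noncomputable def refl (G : ℝ →ᵇ ℂ) : ℝ →ᵇ ℂ :=
  star (G.compContinuous ⟨fun ρ : ℝ => -ρ, continuous_neg⟩)

lemma refl_apply (G : ℝ →ᵇ ℂ) (ρ : ℝ) : refl G ρ = (starRingEnd ℂ) (G (-ρ)) := rfl

end Pool.Agent.Helper23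

end

section

open scoped InnerProductSpace Topology ENNReal

open ContinuousLinearMap Filter MeasureTheory

set_option linter.unusedSectionVars false

set_option linter.unusedVariables false

namespace Pool.Agent.Helper23

variable {H : Type*} [NormedAddCommGroup H] [InnerProductSpace ℂ H] [CompleteSpace H]

variable {M N : VonNeumannAlgebra H} {ξ : H} {E : (H →L[ℂ] H) → (H →L[ℂ] H)}

namespace GKW

/-- the inverse cut off exponentials -/
noncomputable def dmi (m : ℤ) (s : ℝ) : ℂ :=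
  Set.indicator (Set.Ico (m : ℝ) (m + 1)) (fun s => ((Real.exp (-s / 2) : ℝ) : ℂ)) s

lemma dmi_of_mem {m : ℤ} {s : ℝ} (h : s ∈ Set.Ico (m : ℝ) (m + 1)) :
    dmi m s = ((Real.exp (-s / 2) : ℝ) : ℂ) := Set.indicator_of_mem h _

lemma dmi_of_notMem {m : ℤ} {s : ℝ} (h : s ∉ Set.Ico (m : ℝ) (m + 1)) : dmi m s = 0 :=
  Set.indicator_of_notMem h _

/-- a bound for the intervals -/
noncomputable def bd (n : ℕ) (m : ℤ) : ℕ := max n (m.natAbs + 1)

lemma Ico_sub (n : ℕ) (m : ℤ) {s : ℝ} (h : s ∈ Set.Ico (m : ℝ) (m + 1)) :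
    s ∈ Set.Ico (-((bd n m : ℕ) : ℝ)) (bd n m : ℕ) := by
  have h1 : m.natAbs + 1 ≤ bd n m := le_max_right _ _
  have h2 : (m.natAbs : ℤ) + 1 ≤ (bd n m : ℕ) := by exact_mod_cast h1
  have h3 : m ≤ m.natAbs := Int.le_natAbs
  have h4 : -m ≤ m.natAbs := by omega
  have h5 : (m : ℝ) + 1 ≤ (bd n m : ℕ) := by
    have : m + 1 ≤ (bd n m : ℕ) := by omega
    exact_mod_cast this
  have h6 : -((bd n m : ℕ) : ℝ) ≤ m := by
    have : -((bd n m : ℕ) : ℤ) ≤ m := by omega
    exact_mod_cast this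
  exact ⟨h6.trans h.1, lt_of_lt_of_le h.2 h5⟩

/-- sums of squares -/
lemma tsum_ofReal_of_hasSum {ι : Type*} {f : ι → ℝ} (hf : ∀ i, 0 ≤ f i) {A : ℂ}
    (h : HasSum (fun i => ((f i : ℝ) : ℂ)) A) :
    ∑' i, ENNReal.ofReal (f i) = ENNReal.ofReal A.re ∧ 0 ≤ A.re := by
  have h1 : HasSum f A.re := by
    have := Complex.hasSum_re h
    simpa only [Complex.ofReal_re] using this
  refine ⟨?_, HasSum.nonneg hf h1⟩
  rw [← ENNReal.ofReal_tsum_of_nonneg hf h1.summable, h1.tsum_eq]

/-- `e^{s/2}` and `e^{-s/2}` on `[-n,n)` -/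
noncomputable def hs (σ : ℝ) (n : ℕ) (s : ℝ) : ℂ :=
  Set.indicator (Set.Ico (-(n : ℝ)) n) (fun s => ((Real.exp (σ * s / 2) : ℝ) : ℂ)) s

lemma hs_of_mem {σ : ℝ} {n : ℕ} {s : ℝ} (h : s ∈ Set.Ico (-(n : ℝ)) n) :
    hs σ n s = ((Real.exp (σ * s / 2) : ℝ) : ℂ) := Set.indicator_of_mem h _

lemma hs_of_notMem {σ : ℝ} {n : ℕ} {s : ℝ} (h : s ∉ Set.Ico (-(n : ℝ)) n) :
    hs σ n s = 0 := Set.indicator_of_notMem h _

lemma hs_conj (σ : ℝ) (n : ℕ) : (fun s => (starRingEnd ℂ) (hs σ n s)) = hs σ n := by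
  funext s
  by_cases h : s ∈ Set.Ico (-(n : ℝ)) n
  · rw [hs_of_mem h, Complex.conj_ofReal]
  · rw [hs_of_notMem h, map_zero]

end GKW

end Pool.Agent.Helper23

end

section

open scoped InnerProductSpace Topology

open ContinuousLinearMap Filter

namespace Pool.Agent.Helper23

universe u

variable {H : Type u} [NormedAddCommGroup H] [InnerProductSpace ℂ H] [CompleteSpace H]
  {N : VonNeumannAlgebra H} {ξ : H}

/-- Type III₁ in the form of Connes and Størmer: `N` is properly infinite, and any two normal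
states of `N` (given here by pairs of vectors) are approximately unitarily equivalent. -/
def TypeIIIOne (N : VonNeumannAlgebra H) : Prop :=
  (∃ v ∈ N, ∃ w ∈ N, star v * v = 1 ∧ star w * w = 1 ∧ star v * w = 0) ∧
  ∀ η η' ζ ζ' : H, ‖η‖ ^ 2 + ‖η'‖ ^ 2 = 1 → ‖ζ‖ ^ 2 + ‖ζ'‖ ^ 2 = 1 → ∀ ε : ℝ, 0 < ε →
    ∃ u ∈ N, star u * u = 1 ∧ u * star u = 1 ∧ ∀ x ∈ N,
      ‖⟪u η, x (u η)⟫_ℂ + ⟪u η', x (u η')⟫_ℂ - (⟪ζ, x ζ⟫_ℂ + ⟪ζ', x ζ'⟫_ℂ)‖ ≤ ε * ‖x‖

theorem inner_conj_aux (p q x : H →L[ℂ] H) (c : ℝ) (ξ : H) :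
    ⟪p ((c : ℂ) • q ξ), x (p ((c : ℂ) • q ξ))⟫_ℂ =
      ((c ^ 2 : ℝ) : ℂ) * ⟪ξ, (star (p * q) * x * (p * q)) ξ⟫_ℂ := by
  have h : ⟪ξ, (star (p * q) * x * (p * q)) ξ⟫_ℂ = ⟪p (q ξ), x (p (q ξ))⟫_ℂ := by
    rw [ContinuousLinearMap.star_eq_adjoint]
    exact ContinuousLinearMap.adjoint_inner_right (p * q) ξ (x ((p * q) ξ))
  rw [h]
  simp only [map_smul, inner_smul_left, inner_smul_right, Complex.conj_ofReal]
  push_cast
  ring

section algebra

variable {A : Type*} [Ring A] [StarRing A] {u v w : A}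

theorem iii_e1 (hu : star u * u = 1) (hwv : star w * v = 0) (z : A) :
    star (u * v) * (z * (u * (v * star w) * star u)) * (u * v) = 0 := by
  have : star (u * v) * (z * (u * (v * star w) * star u)) * (u * v) =
      star (u * v) * z * u * v * (star w * ((star u * u) * v)) := by noncomm_ring
  rw [this, hu, one_mul, hwv, mul_zero]

theorem iii_e2 (hu : star u * u = 1) (hww : star w * w = 1) (z : A) :
    star (u * w) * (z * (u * (v * star w) * star u)) * (u * w) =
      star w * (star u * (z * (u * v))) := by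
  have : star (u * w) * (z * (u * (v * star w) * star u)) * (u * w) =
      star (u * w) * z * u * v * (star w * ((star u * u) * w)) := by noncomm_ring
  rw [this, hu, one_mul, hww, mul_one, star_mul]
  noncomm_ring

theorem iii_e3 (hu : star u * u = 1) (hvv : star v * v = 1) (z : A) :
    star (u * v) * ((u * (v * star w) * star u) * z) * (u * v) =
      star w * (star u * (z * (u * v))) := by
  have : star (u * v) * ((u * (v * star w) * star u) * z) * (u * v) =
      star v * (star u * u) * v * (star w * (star u * (z * (u * v)))) := by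
    rw [star_mul]; noncomm_ring
  rw [this, hu, mul_one, hvv, one_mul]

theorem iii_e4 (hu : star u * u = 1) (hwv : star w * v = 0) (z : A) :
    star (u * w) * ((u * (v * star w) * star u) * z) * (u * w) = 0 := by
  have : star (u * w) * ((u * (v * star w) * star u) * z) * (u * w) =
      star w * (star u * u) * v * (star w * (star u * (z * (u * w)))) := by
    rw [star_mul]; noncomm_ring
  rw [this, hu, mul_one, hwv, zero_mul]

theorem iii_ss (hu : star u * u = 1) (hvv : star v * v = 1) :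
    star (u * (v * star w) * star u) * (u * (v * star w) * star u) =
      u * w * (star w * star u) := by
  have : star (u * (v * star w) * star u) * (u * (v * star w) * star u) =
      u * w * (star v * ((star u * u) * v)) * (star w * star u) := by
    simp only [star_mul, star_star]; noncomm_ring
  rw [this, hu, one_mul, hvv, mul_one]

theorem iii_e5 (hu : star u * u = 1) (hwv : star w * v = 0) :
    star (u * v) * (u * w * (star w * star u)) * (u * v) = 0 := by
  have : star (u * v) * (u * w * (star w * star u)) * (u * v) =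
      star (u * v) * u * w * (star w * ((star u * u) * v)) := by noncomm_ring
  rw [this, hu, one_mul, hwv, mul_zero]

theorem iii_e6 (hu : star u * u = 1) (hww : star w * w = 1) :
    star (u * w) * (u * w * (star w * star u)) * (u * w) = 1 := by
  have : star (u * w) * (u * w * (star w * star u)) * (u * w) =
      (star w * (star u * u) * w) * (star w * ((star u * u) * w)) := by
    rw [star_mul]; noncomm_ring
  rw [this, hu, one_mul, mul_one, hww, one_mul]

end algebra

end Pool.Agent.Helper23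

end

section

open scoped InnerProductSpace Topology ENNReal

open ContinuousLinearMap Filter MeasureTheory

namespace Pool.Agent.Helper23

variable {H : Type*} [NormedAddCommGroup H] [InnerProductSpace ℂ H] [CompleteSpace H]

variable {G : Type*} [NormedAddCommGroup G] [InnerProductSpace ℂ G] [CompleteSpace G]

variable {M N : VonNeumannAlgebra H} {ξ : H} {E : (H →L[ℂ] H) → (H →L[ℂ] H)}

/-- truncated inverse exponential -/
noncomputable def hi (n : ℕ) (s : ℝ) : ℂ :=
  Set.indicator (Set.Ico (-(n : ℝ)) n) (fun s => ((Real.exp (-s) : ℝ) : ℂ)) s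

lemma hi_of_mem {n : ℕ} {s : ℝ} (h : s ∈ Set.Ico (-(n : ℝ)) n) :
    hi n s = ((Real.exp (-s) : ℝ) : ℂ) := Set.indicator_of_mem h _

end Pool.Agent.Helper23

end

section

open scoped InnerProductSpace Topology

open ContinuousLinearMap Filter

namespace Pool.Agent.Helper23

variable {H : Type*} [NormedAddCommGroup H] [InnerProductSpace ℂ H] [CompleteSpace H]

variable {M N : VonNeumannAlgebra H} {ξ : H} {E : (H →L[ℂ] H) → (H →L[ℂ] H)}

omit [CompleteSpace H] in
/-- expansion of a squared norm of a difference -/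
lemma norm_sub_sq_re (a b : H) : ‖a - b‖ ^ 2 = ‖a‖ ^ 2 - 2 * (⟪a, b⟫_ℂ).re + ‖b‖ ^ 2 := by
  have h := norm_sub_sq (𝕜 := ℂ) a b
  exact h

end Pool.Agent.Helper23

end

section

open scoped InnerProductSpace Topology ENNReal

open ContinuousLinearMap Filter MeasureTheory

namespace Pool.Agent.Helper23

variable {H : Type*} [NormedAddCommGroup H] [InnerProductSpace ℂ H] [CompleteSpace H]

lemma two_sq {G : Type*} [SeminormedAddCommGroup G] (a b : G) :
    ‖a + b‖ ^ 2 ≤ 2 * ‖a‖ ^ 2 + 2 * ‖b‖ ^ 2 := by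
  have := norm_add_le a b
  nlinarith [norm_nonneg (a + b), sq_nonneg (‖a‖ - ‖b‖)]

lemma sqrt_add_sqrt_sq {κ : ℝ} (hκ : 0 ≤ κ) :
    (Real.sqrt κ + Real.sqrt (2 * κ)) ^ 2 ≤ 6 * κ := by
  have a1 := Real.sq_sqrt hκ
  have a2 := Real.sq_sqrt (show 0 ≤ 2 * κ by positivity)
  nlinarith [sq_nonneg (Real.sqrt κ - Real.sqrt (2 * κ))]

lemma last_le {κ g m n : ℝ} (hκ : 0 ≤ κ) (hn : 0 < n) (h : 192 * g * m ≤ n) :
    (2 * m) * (96 * g * κ / n) ≤ κ := by
  rw [← mul_div_assoc, div_le_iff₀ hn]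
  have := mul_le_mul_of_nonneg_left h hκ
  linarith

lemma fin_le {a b c d e g κ q : ℝ} (h1 : a ≤ b + c) (h2 : b ≤ d + κ) (h3 : c ≤ κ)
    (h4 : d ≤ 2 * q + 2 * (4 * e)) (h5 : q ≤ κ) (h6 : e ≤ 6 * κ * g) :
    a ≤ (4 + 48 * g) * κ := by
  linarith

end Pool.Agent.Helper23

end

section

open scoped InnerProductSpace Topology ENNReal

open ContinuousLinearMap Filter MeasureTheory

set_option linter.unusedSectionVars false

set_option linter.unusedVariables false

namespace Pool.Agent.Helper23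

variable {H : Type*} [NormedAddCommGroup H] [InnerProductSpace ℂ H] [CompleteSpace H]

variable {M N : VonNeumannAlgebra H} {ξ : H} {E : (H →L[ℂ] H) → (H →L[ℂ] H)}

lemma isLUB_ofReal {ι : Type*} {g : ι → ℝ} {S : Set ℝ} {a : ℝ} (hS : ∀ r, r ∈ S ↔ ∃ i, r = g i)
    (h : IsLUB S a) : ENNReal.ofReal a = ⨆ i, ENNReal.ofReal (g i) := by
  refine le_antisymm ?_ (iSup_le fun i => ENNReal.ofReal_le_ofReal (h.1 ((hS _).2 ⟨i, rfl⟩)))
  refine le_of_forall_lt fun c hc => ?_
  have hc' : c ≠ ⊤ := (lt_of_lt_of_le hc le_top).ne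
  rw [ENNReal.lt_ofReal_iff_toReal_lt hc'] at hc
  obtain ⟨r, hr, hcr⟩ := (lt_isLUB_iff h).1 hc
  obtain ⟨i, rfl⟩ := (hS r).1 hr
  refine lt_of_lt_of_le ((ENNReal.lt_ofReal_iff_toReal_lt hc').2 hcr) (le_iSup
    (fun i => ENNReal.ofReal (g i)) i)

lemma tsum_iSup_directed {ι J : Type*} {f : J → ι → ℝ≥0∞}
    (hf : ∀ i k, ∃ l, ∀ a, f a i ≤ f a l ∧ f a k ≤ f a l) :
    ∑' a, ⨆ i, f a i = ⨆ i, ∑' a, f a i := by
  rw [ENNReal.tsum_eq_iSup_sum]
  simp only [ENNReal.tsum_eq_iSup_sum]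
  rw [iSup_comm]
  refine iSup_congr fun s => ?_
  exact ENNReal.finsetSum_iSup hf

end Pool.Agent.Helper23

end

section

open scoped InnerProductSpace Topology BoundedContinuousFunction

open ContinuousLinearMap Filter

namespace Pool.Agent.Helper78.BC

variable {H : Type*} [NormedAddCommGroup H] [InnerProductSpace ℂ H] [CompleteSpace H]

variable {A : VonNeumannAlgebra H} {ξ : H} {J : H →L[ℝ] H}
  {Ψ : (ℝ →ᵇ ℂ) →⋆ₐ[ℂ] (H →L[ℂ] H)}

namespace NoProj

lemma opnorm_proj {p : H →L[ℂ] H} (hpp : p * p = p) (hps : star p = p) : ‖p‖ ≤ 1 := by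
  have h1 : ‖star p * p‖ = ‖p‖ * ‖p‖ := CStarRing.norm_star_mul_self
  rw [hps, hpp] at h1
  by_contra hcon
  push Not at hcon
  nlinarith

end NoProj

end Pool.Agent.Helper78.BC

end

section

open scoped InnerProductSpace Topology BoundedContinuousFunction

open ContinuousLinearMap Filter

namespace Pool.Agent.Helper23

universe u

variable {H : Type u} [NormedAddCommGroup H] [InnerProductSpace ℂ H] [CompleteSpace H]

variable {K : Type u} [NormedAddCommGroup K] [InnerProductSpace ℂ K] [CompleteSpace K]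

variable {M N : VonNeumannAlgebra H} {ξ : H} {E : (H →L[ℂ] H) → (H →L[ℂ] H)}

section aux

set_option linter.unusedSectionVars false

/-- operators with equal matrix coefficients are equal -/
lemma U11.op_ext_inner {x y : H →L[ℂ] H} (h : ∀ v w : H, ⟪v, x w⟫_ℂ = ⟪v, y w⟫_ℂ) : x = y := by
  ext w
  exact ext_inner_left ℂ fun v => h v w

lemma U11.norm_le_of_weak {ι : Type*} {F : Filter ι} [F.NeBot] {x : ι → H} {y : H} {ε : ℝ}
    (h : ∀ v : H, Tendsto (fun i => ⟪v, x i⟫_ℂ) F (𝓝 ⟪v, y⟫_ℂ))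
    (hx : ∀ᶠ i in F, ‖x i‖ ≤ ε) : ‖y‖ ≤ ε := by
  have h1 : ‖⟪y, y⟫_ℂ‖ ≤ ‖y‖ * ε := by
    refine le_of_tendsto (h y).norm (hx.mono fun i hi => ?_)
    exact (norm_inner_le_norm _ _).trans (mul_le_mul_of_nonneg_left hi (norm_nonneg _))
  rw [inner_self_eq_norm_sq_to_K, norm_pow] at h1
  have h2 : ‖((‖y‖ : ℝ) : ℂ)‖ = ‖y‖ := by rw [Complex.norm_real, norm_norm]
  change ‖((‖y‖ : ℝ) : ℂ)‖ ^ 2 ≤ _ at h1
  rw [h2] at h1
  obtain ⟨i, hi⟩ := hx.exists
  have hε : 0 ≤ ε := (norm_nonneg _).trans hi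
  by_cases h0 : ‖y‖ = 0
  · rw [h0]; exact hε
  · have : 0 < ‖y‖ := lt_of_le_of_ne (norm_nonneg _) (Ne.symm h0)
    nlinarith

end aux

end Pool.Agent.Helper23

end

section

open scoped InnerProductSpace Topology BoundedContinuousFunction

open ContinuousLinearMap Filter MeasureTheory

namespace Pool.Agent.Helper88.CS

open Pool.Agent.Helper23

variable {H : Type*} [NormedAddCommGroup H] [InnerProductSpace ℂ H] [CompleteSpace H]

namespace SumsAux

lemma star_inner (T : H →L[ℂ] H) (x y : H) : ⟪(star T) x, y⟫_ℂ = ⟪x, T y⟫_ℂ := by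
  rw [star_eq_adjoint]; exact adjoint_inner_left T y x

end SumsAux

end Pool.Agent.Helper88.CS

end

section

open scoped InnerProductSpace Topology BoundedContinuousFunction

open ContinuousLinearMap Filter MeasureTheory

namespace Pool.Agent.Helper88.CS

open Pool.Agent.Helper23

variable {H : Type*} [NormedAddCommGroup H] [InnerProductSpace ℂ H] [CompleteSpace H]

variable {A : VonNeumannAlgebra H} {ξ : H} {J : H →L[ℝ] H}
  {Ψ : (ℝ →ᵇ ℂ) →⋆ₐ[ℂ] (H →L[ℂ] H)} {R : H →L[ℂ] H} {D : H →L[ℝ] H}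

namespace CornerSpecAux

theorem psi_mul' (Ψ : (ℝ →ᵇ ℂ) →⋆ₐ[ℂ] (H →L[ℂ] H)) (G G' : ℝ →ᵇ ℂ) (v : H) :
    Ψ (G * G') v = Ψ G (Ψ G' v) := by
  rw [map_mul]
  rfl

end CornerSpecAux

end Pool.Agent.Helper88.CS

end

section

open scoped InnerProductSpace Topology BoundedContinuousFunction CompactlySupported

open ContinuousLinearMap Filter MeasureTheory

namespace Pool.Agent.Helper88.CS

open Pool.Agent.Helper23

variable {H : Type*} [NormedAddCommGroup H] [InnerProductSpace ℂ H] [CompleteSpace H]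

variable {A : VonNeumannAlgebra H} {J : H →L[ℝ] H} {κ : H}

namespace Trick1Aux

lemma integral_comb {μ : Measure ℂ} {f g h k : ℂ → ℝ} (hf : Integrable f μ) (hg : Integrable g μ)
    (hh : Integrable h μ) (hk : Integrable k μ) :
    ∫ z, (f z + g z + 2 * h z - 2 * k z) ∂μ =
      ∫ z, f z ∂μ + ∫ z, g z ∂μ + 2 * ∫ z, h z ∂μ - 2 * ∫ z, k z ∂μ := by
  have e1 : Integrable (fun z => f z + g z) μ := hf.add hg
  have e2 : Integrable (fun z => 2 * h z) μ := hh.const_mul 2
  have e3 : Integrable (fun z => f z + g z + 2 * h z) μ := e1.add e2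
  have e4 : Integrable (fun z => 2 * k z) μ := hk.const_mul 2
  rw [integral_sub e3 e4, integral_add e1 e2, integral_add hf hg, integral_const_mul,
    integral_const_mul]

end Trick1Aux

end Pool.Agent.Helper88.CS

end

section

open scoped InnerProductSpace Topology BoundedContinuousFunction

open ContinuousLinearMap Filter MeasureTheory

namespace Pool.Agent.Helper88.CS

open Pool.Agent.Helper23

variable {H : Type*} [NormedAddCommGroup H] [InnerProductSpace ℂ H] [CompleteSpace H]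

variable {A : VonNeumannAlgebra H} {ξ : H} {J : H →L[ℝ] H}
  {Ψ : (ℝ →ᵇ ℂ) →⋆ₐ[ℂ] (H →L[ℂ] H)} {R : H →L[ℂ] H} {D : H →L[ℝ] H}

namespace FullAux

open ExhAux InftyAux

omit [CompleteSpace H] in
lemma apply_mul (a b : H →L[ℂ] H) (x : H) : (a * b) x = a (b x) := rfl

lemma pyth {p : H →L[ℂ] H} (hp : star p = p) (hp2 : p * p = p) (x : H) :
    ‖x - p x‖ ^ 2 = ‖x‖ ^ 2 - ‖p x‖ ^ 2 := by
  have h0 : ⟪p x, x - p x⟫_ℂ = 0 := by
    have h1 : ⟪p x, p x⟫_ℂ = ⟪p x, x⟫_ℂ := by
      have : ⟪p x, p x⟫_ℂ = ⟪(star p) (p x), x⟫_ℂ := by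
        rw [ContinuousLinearMap.star_eq_adjoint, ContinuousLinearMap.adjoint_inner_left]
      rw [this, hp]
      have : p (p x) = (p * p) x := rfl
      rw [this, hp2]
    rw [inner_sub_right, h1, sub_self]
  have h2 : ‖p x + (x - p x)‖ ^ 2 = ‖p x‖ ^ 2 + ‖x - p x‖ ^ 2 := by
    have := norm_add_sq (𝕜 := ℂ) (p x) (x - p x)
    rw [h0] at this
    simpa using this
  have h3 : p x + (x - p x) = x := by abel
  rw [h3] at h2
  linarith

lemma proj_pi {p : H →L[ℂ] H} (hp : star p = p) (hp2 : p * p = p) : p * star p * p = p := by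
  rw [hp, hp2, hp2]

end FullAux

end Pool.Agent.Helper88.CS

end

section

open scoped InnerProductSpace Topology

open ContinuousLinearMap Filter

namespace Pool.Agent.Helper88.CS

open Pool.Agent.Helper23

universe u

variable {H : Type u} [NormedAddCommGroup H] [InnerProductSpace ℂ H] [CompleteSpace H]

namespace FinalAux

theorem adj {L : Type*} [NormedAddCommGroup L] [InnerProductSpace ℂ L] [CompleteSpace L]
    (T : L →L[ℂ] L) (v w : L) : ⟪v, (star T) w⟫_ℂ = ⟪T v, w⟫_ℂ := by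
  rw [star_eq_adjoint, adjoint_inner_right]

theorem adj_sa {L : Type*} [NormedAddCommGroup L] [InnerProductSpace ℂ L] [CompleteSpace L]
    {T : L →L[ℂ] L} (hT : star T = T) (v w : L) : ⟪v, T w⟫_ℂ = ⟪T v, w⟫_ℂ := by
  conv_lhs => rw [← hT]
  exact adj T v w

end FinalAux

end Pool.Agent.Helper88.CS

end

section

open scoped InnerProductSpace Topology ENNReal BoundedContinuousFunction

open ContinuousLinearMap Filter MeasureTheory

namespace Pool.Agent.Helper23.ED

open Pool.Agent.Helper23 Pool.Agent.Helper23.RBF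

universe u

section fc

variable {H : Type*} [NormedAddCommGroup H] [InnerProductSpace ℂ H] [CompleteSpace H]

/-- the weight `x ↦ Σ ⟪ζ n, x ζ n⟫` -/
noncomputable def wt (ζ : ℕ → H) (x : H →L[ℂ] H) : ℝ≥0∞ :=
  ∑' n, ENNReal.ofReal (⟪ζ n, x (ζ n)⟫_ℂ).re

end fc

section weight

variable {H : Type u} [NormedAddCommGroup H] [InnerProductSpace ℂ H] [CompleteSpace H]

variable {K : Type u} [NormedAddCommGroup K] [InnerProductSpace ℂ K] [CompleteSpace K]

/-- square summable sequences -/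
abbrev LN (H : Type u) [NormedAddCommGroup H] [InnerProductSpace ℂ H] [CompleteSpace H] : Type u :=
  lp (fun _ : ℕ => H) 2

end weight

end Pool.Agent.Helper23.ED

end

section

open scoped InnerProductSpace Topology ENNReal BoundedContinuousFunction

open ContinuousLinearMap Filter MeasureTheory

namespace Pool.Agent.Helper23.ED

open Pool.Agent.Helper23 Pool.Agent.Helper23.RBF

universe u

variable {K : Type*} [NormedAddCommGroup K] [InnerProductSpace ℂ K] [CompleteSpace K]

variable {U : ℝ → K →L[ℂ] K}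

namespace SmD

open Pool.Agent.Helper43.TTF

lemma one_add_exp_ne (ρ : ℝ) : (1 + Complex.exp (ρ : ℂ)) ≠ 0 := by
  have h : (0 : ℝ) < 1 + Real.exp ρ := by positivity
  have h2 : ((1 + Real.exp ρ : ℝ) : ℂ) ≠ 0 := by exact_mod_cast h.ne'
  push_cast at h2
  exact h2

end SmD

end Pool.Agent.Helper23.ED

end

section

open scoped InnerProductSpace Topology ENNReal BoundedContinuousFunction

open ContinuousLinearMap Filter MeasureTheory

namespace Pool.Agent.Helper23.ED

open Pool.Agent.Helper23 Pool.Agent.Helper23.RBF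

universe u

variable {H : Type u} [NormedAddCommGroup H] [InnerProductSpace ℂ H] [CompleteSpace H]

variable {N : VonNeumannAlgebra H} {ψ : (H →L[ℂ] H) → ℝ≥0∞}

namespace WtC

lemma star_mul_nonneg (y : H →L[ℂ] H) : 0 ≤ star y * y := star_mul_self_nonneg y

/-- normality for increasing sequences -/
lemma psi_sup (hψ : IsNSFWeight N ψ) {g : ℕ → H →L[ℂ] H} {B : H →L[ℂ] H} (hg : ∀ n, g n ∈ N)
    (hg0 : ∀ n, 0 ≤ g n) (hm : Monotone g) (hB : B ∈ N)
    (hl : ∀ v, IsLUB (Set.range fun n => (⟪v, g n v⟫_ℂ).re) (⟪v, B v⟫_ℂ).re) :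
    ψ B = ⨆ n, ψ (g n) := by
  have h1 := hψ.normal (Set.range g) B ⟨g 0, 0, rfl⟩ hm.directed_le.directedOn_range
    (by rintro _ ⟨n, rfl⟩; exact ⟨hg n, hg0 n⟩) hB (fun η => by
      have h2 : {r : ℝ | ∃ d ∈ Set.range g, r = (⟪η, d η⟫_ℂ).re} =
          Set.range fun n => (⟪η, g n η⟫_ℂ).re := by
        ext t
        constructor
        · rintro ⟨_, ⟨n, rfl⟩, rfl⟩
          exact ⟨n, rfl⟩
        · rintro ⟨n, rfl⟩
          exact ⟨_, ⟨n, rfl⟩, rfl⟩
      rw [h2]
      exact hl η)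
  rw [h1, iSup_range]

end WtC

end Pool.Agent.Helper23.ED

end

section

open scoped InnerProductSpace Topology ENNReal BoundedContinuousFunction

open ContinuousLinearMap Filter MeasureTheory

namespace Pool.Agent.Helper23.ED

open Pool.Agent.Helper23 Pool.Agent.Helper23.RBF

universe u

variable {H : Type u} [NormedAddCommGroup H] [InnerProductSpace ℂ H] [CompleteSpace H]

variable {K : Type u} [NormedAddCommGroup K] [InnerProductSpace ℂ K] [CompleteSpace K]

variable {L : Type u} [NormedAddCommGroup L] [InnerProductSpace ℂ L] [CompleteSpace L]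

variable {N : VonNeumannAlgebra H} {ψ : (H →L[ℂ] H) → ℝ≥0∞} {ξ : H} {i : K →L[ℂ] H} {κ : K}
  {Λ : (H →L[ℂ] H) → L} {ρ : (H →L[ℂ] H) → (L →L[ℂ] L)}

namespace WtD

lemma base_mem {b : ℕ → H →L[ℂ] H} (hb : ∀ j, b j ∈ N) (j : ℕ) :
    (b (j + 1) - b j) * star (b (j + 1) - b j) ∈ N :=
  mul_mem (sub_mem (hb _) (hb _)) (star_mem (sub_mem (hb _) (hb _)))

end WtD

end Pool.Agent.Helper23.ED

end

section

open scoped InnerProductSpace Topology ENNReal BoundedContinuousFunction

open ContinuousLinearMap Filter MeasureTheory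

namespace Pool.Agent.Helper23.ED

open Pool.Agent.Helper23 Pool.Agent.Helper23.RBF

universe u

variable {H : Type u} [NormedAddCommGroup H] [InnerProductSpace ℂ H] [CompleteSpace H]

variable {K : Type u} [NormedAddCommGroup K] [InnerProductSpace ℂ K] [CompleteSpace K]

variable {L : Type u} [NormedAddCommGroup L] [InnerProductSpace ℂ L] [CompleteSpace L]

variable {N : VonNeumannAlgebra H} {ψ : (H →L[ℂ] H) → ℝ≥0∞} {ξ : H} {i : K →L[ℂ] H} {κ : K}
  {Λ : (H →L[ℂ] H) → L} {ρ : (H →L[ℂ] H) → (L →L[ℂ] L)}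

namespace WtE

lemma le_of_re {x y : H →L[ℂ] H} (hx : 0 ≤ x) (hy : 0 ≤ y)
    (h : ∀ v, (⟪v, x v⟫_ℂ).re ≤ (⟪v, y v⟫_ℂ).re) : x ≤ y := by
  rw [ContinuousLinearMap.le_def]
  have hx' := (ContinuousLinearMap.nonneg_iff_isPositive _).1 hx
  have hy' := (ContinuousLinearMap.nonneg_iff_isPositive _).1 hy
  have hs : IsSelfAdjoint (y - x) := hy'.isSelfAdjoint.sub hx'.isSelfAdjoint
  rw [ContinuousLinearMap.isPositive_def']
  refine ⟨hs, fun v => ?_⟩
  rw [ContinuousLinearMap.reApplyInnerSelf_apply]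
  have h1 := h v
  rw [sub_apply, inner_sub_left, map_sub]
  have e : ∀ z : H →L[ℂ] H, RCLike.re ⟪z v, v⟫_ℂ = (⟪v, z v⟫_ℂ).re := fun z =>
    inner_re_symm (𝕜 := ℂ) _ _
  rw [e, e]
  linarith

end WtE

end Pool.Agent.Helper23.ED

end

section

open scoped InnerProductSpace Topology ENNReal BoundedContinuousFunction

open ContinuousLinearMap Filter MeasureTheory

namespace Pool.Agent.Helper23.ED

open Pool.Agent.Helper23 Pool.Agent.Helper23.RBF

universe u

variable {H : Type u} [NormedAddCommGroup H] [InnerProductSpace ℂ H] [CompleteSpace H]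

variable {N : VonNeumannAlgebra H} {ψ : (H →L[ℂ] H) → ℝ≥0∞}

namespace WtB

theorem norm_sqrt {r : ℝ} (hr : 0 ≤ r) : ‖((√r : ℝ) : ℂ)‖ ^ 2 = r := by
  rw [Complex.norm_real, Real.norm_eq_abs, sq_abs, Real.sq_sqrt hr]

end WtB

end Pool.Agent.Helper23.ED

end

section

open scoped InnerProductSpace Topology ENNReal BoundedContinuousFunction

open ContinuousLinearMap Filter MeasureTheory

namespace Pool.Agent.Helper23.ED

open Pool.Agent.Helper23 Pool.Agent.Helper23.RBF

universe u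

open TopologicalSpace

variable {H : Type*} [NormedAddCommGroup H] [InnerProductSpace ℂ H] [CompleteSpace H]

variable {N : VonNeumannAlgebra H} {ξ : H} {W : ℝ → H →L[ℂ] H}

namespace SlC

theorem norm_le_one {u : H →L[ℂ] H} (hu : star u * u = 1) : ‖u‖ ≤ 1 := by
  refine ContinuousLinearMap.opNorm_le_bound _ zero_le_one fun v => ?_
  have h1 : ‖u v‖ ^ 2 = ‖v‖ ^ 2 := by
    have h2 : ⟪u v, u v⟫_ℂ = ⟪v, v⟫_ℂ := by
      rw [← ContinuousLinearMap.adjoint_inner_right, ← ContinuousLinearMap.star_eq_adjoint]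
      congr 1
      exact congrArg (fun T : H →L[ℂ] H => T v) hu
    rw [inner_self_eq_norm_sq_to_K, inner_self_eq_norm_sq_to_K] at h2
    exact_mod_cast h2
  rw [one_mul]
  exact (sq_eq_sq₀ (norm_nonneg _) (norm_nonneg _)).1 h1 |>.le

end SlC

end Pool.Agent.Helper23.ED

end

section

open scoped InnerProductSpace Topology ENNReal BoundedContinuousFunction

open ContinuousLinearMap Filter MeasureTheory

namespace Pool.Agent.Helper23.ED

open Pool.Agent.Helper23 Pool.Agent.Helper23.RBF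

universe u

open TopologicalSpace

variable {H : Type*} [NormedAddCommGroup H] [InnerProductSpace ℂ H] [CompleteSpace H]

variable {N : VonNeumannAlgebra H} {ξ : H} {W : ℝ → H →L[ℂ] H}

namespace WuA

lemma norm_le_one {s : H →L[ℂ] H} (h : star s * s = 1) : ‖s‖ ≤ 1 := by
  have h1 : ‖s‖ * ‖s‖ ≤ 1 := by
    rw [← CStarRing.norm_star_mul_self, h]
    exact ContinuousLinearMap.norm_id_le
  nlinarith [norm_nonneg s]

end WuA

end Pool.Agent.Helper23.ED

end

section

open scoped InnerProductSpace Topology ENNReal BoundedContinuousFunction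

open ContinuousLinearMap Filter MeasureTheory

namespace Pool.Agent.Helper23.ED

open Pool.Agent.Helper23 Pool.Agent.Helper23.RBF

universe u

open TopologicalSpace

variable {H : Type*} [NormedAddCommGroup H] [InnerProductSpace ℂ H] [CompleteSpace H]

variable {N : VonNeumannAlgebra H} {ξ : H} {V c : ℝ → H →L[ℂ] H} {ψ : (H →L[ℂ] H) → ℝ≥0∞}

namespace WuB

/-- joint continuity of the product of two bounded strongly continuous fields -/
lemma cont_comp {S T : ℝ → H →L[ℂ] H} (hS1 : ∀ t, ‖S t‖ ≤ 1)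
    (hS : ∀ v, Continuous fun t => S t v) (hT : ∀ v, Continuous fun t => T t v) (v : H) :
    Continuous fun t => S t (T t v) := by
  have h1 : Continuous (fun p : ℝ × H => S p.1 p.2) := by
    refine continuous_prod_of_continuous_lipschitzWith' (fun p : ℝ × H => S p.1 p.2) 1 ?_ hS
    intro s
    refine LipschitzWith.of_dist_le_mul fun x y => ?_
    rw [dist_eq_norm, dist_eq_norm, ← map_sub, NNReal.coe_one]
    exact (S s).le_of_opNorm_le (hS1 s) _
  exact h1.comp (continuous_id.prodMk (hT v))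

end WuB

end Pool.Agent.Helper23.ED

end
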