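import Pool.Agent.Helper23.FA.Ns
import Pool.Agent.Helper23.FA.L00_02
import Pool.Agent.Helper23.FA.L00_03
import Pool.Agent.Helper23.FA.L00_04
import Pool.Agent.Helper23.FA.L00_15
import Pool.Agent.Helper23.FA.L00_18

/-!
Parts of Helper23.Basic, Helper23.Acs, Helper23.Four, Helper23.Bic, Helper23.UBic, Helper72.UPow.Near, Helper23.UPi
-/

section

open scoped InnerProductSpace

open ContinuousLinearMap

namespace Pool.Agent.Helper23

variable {H : Type*} [NormedAddCommGroup H] [InnerProductSpace ℂ H] [CompleteSpace H]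

/-- Boundedness and convergence on a cyclic vector of the commutant give strong convergence. -/
lemma tendsto_of_bounded {ι : Type*} {l : Filter ι} (A : VonNeumannAlgebra H) {ξ : H}
    (hd : Dense (orb A.commutant ξ : Set H)) {x : ι → H →L[ℂ] H} {C : ℝ}
    (hx : ∀ i, x i ∈ A) (hC : ∀ i, ‖x i‖ ≤ C)
    (h0 : Filter.Tendsto (fun i => x i ξ) l (nhds 0)) (ζ : H) :
    Filter.Tendsto (fun i => x i ζ) l (nhds 0) := by
  rcases l.eq_or_neBot with hbot | hne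
  · rw [hbot]; exact Filter.tendsto_bot
  have hC0 : 0 ≤ C := by
    obtain ⟨i⟩ : Nonempty ι := Filter.nonempty_of_neBot l
    exact (norm_nonneg _).trans (hC i)
  rw [Metric.tendsto_nhds]
  intro ε hε
  obtain ⟨z, hz, hzζ⟩ := Metric.dense_iff.1 hd ζ (ε / (2 * (C + 1))) (by positivity)
  obtain ⟨y, hy, rfl⟩ := hzζ
  have h1 : Filter.Tendsto (fun i => ‖y‖ * ‖x i ξ‖) l (nhds 0) := by
    have := h0.norm.const_mul ‖y‖
    simpa using this
  have h2 := (Metric.tendsto_nhds.1 h1) (ε / 2) (by positivity)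
  filter_upwards [h2] with i hi
  rw [dist_zero_right]
  rw [Real.dist_eq, sub_zero, abs_of_nonneg (by positivity)] at hi
  have h3 : x i ζ = x i (ζ - y ξ) + y (x i ξ) := by
    rw [map_sub, commute_apply (hx i) hy]
    abel
  rw [h3]
  have h4 : ‖ζ - y ξ‖ < ε / (2 * (C + 1)) := by
    rw [Metric.mem_ball, dist_eq_norm, norm_sub_rev] at hz
    exact hz
  calc ‖x i (ζ - y ξ) + y (x i ξ)‖ ≤ ‖x i (ζ - y ξ)‖ + ‖y (x i ξ)‖ := norm_add_le _ _
    _ ≤ C * ‖ζ - y ξ‖ + ‖y‖ * ‖x i ξ‖ := by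
        gcongr
        · exact (x i).le_of_opNorm_le (hC i) _
        · exact y.le_opNorm _
    _ ≤ (C + 1) * ‖ζ - y ξ‖ + ‖y‖ * ‖x i ξ‖ := by
        gcongr
        linarith
    _ < (C + 1) * (ε / (2 * (C + 1))) + ε / 2 := by
        have : 0 < C + 1 := by positivity
        nlinarith
    _ = ε := by
        field_simp
        ring

end Pool.Agent.Helper23

end

section

open scoped InnerProductSpace BoundedContinuousFunction

open ContinuousLinearMap Filter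

namespace Pool.Agent.Helper23

variable {H : Type*} [NormedAddCommGroup H] [InnerProductSpace ℂ H] [CompleteSpace H]

variable {M N : VonNeumannAlgebra H} {ξ : H} {E : (H →L[ℂ] H) → (H →L[ℂ] H)}

lemma Defect.star {l δ : ℝ} (hl : 0 < l) {a : H →L[ℂ] H} (h : Defect N ξ l δ a) :
    Defect N ξ l⁻¹ (l⁻¹ * δ) (star a) := by
  intro z hz
  have h1 := h (Star.star z) (star_mem hz)
  have e1 : ⟪ξ, z ((Star.star a) ξ)⟫_ℂ = (starRingEnd ℂ) ⟪ξ, a ((Star.star z) ξ)⟫_ℂ := by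
    rw [inner_conj_symm, ← inner_star_right, ← inner_star_left z]
  have e2 : ⟪ξ, (Star.star a) (z ξ)⟫_ℂ = (starRingEnd ℂ) ⟪ξ, (Star.star z) (a ξ)⟫_ℂ := by
    rw [inner_conj_symm, inner_star_left z, inner_star_right]
  have e : ⟪ξ, z ((Star.star a) ξ)⟫_ℂ - (l⁻¹ : ℝ) * ⟪ξ, (Star.star a) (z ξ)⟫_ℂ =
      -((l⁻¹ : ℝ) : ℂ) * (starRingEnd ℂ) (⟪ξ, (Star.star z) (a ξ)⟫_ℂ -
        l * ⟪ξ, a ((Star.star z) ξ)⟫_ℂ) := by
    rw [e1, e2, map_sub, map_mul, Complex.conj_ofReal]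
    have hl' : (l : ℂ) ≠ 0 := by exact_mod_cast hl.ne'
    push_cast
    field_simp
    ring
  rw [e, norm_mul, norm_neg, Complex.norm_real, Real.norm_of_nonneg (inv_pos.2 hl).le,
    RCLike.norm_conj, mul_assoc]
  rw [norm_star] at h1
  exact mul_le_mul_of_nonneg_left h1 (inv_pos.2 hl).le

lemma Dseq.star {l : ℝ} (hl : 0 < l) {a : ℕ → H →L[ℂ] H} (h : Dseq N ξ l a) :
    Dseq N ξ l⁻¹ (fun n => star (a n)) := by
  intro ε hε
  filter_upwards [h (l * ε) (by positivity)] with n hn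
  have := hn.star hl
  rwa [← mul_assoc, inv_mul_cancel₀ hl.ne', one_mul] at this

section ACalgebra

/-- The algebra of almost centralizing bounded sequences. -/
noncomputable def ACalg (N : VonNeumannAlgebra H) (ξ : H) :
    StarSubalgebra ℂ (ℕ →ᵇ N.toStarSubalgebra) where
  carrier := {a | Dseq N ξ 1 (fun n => ((a n : N.toStarSubalgebra) : H →L[ℂ] H))}
  mul_mem' := by
    intro a b ha hb
    have h1 := Dseq.mul (N := N) (ξ := ξ) (C := ‖a‖ + ‖b‖)
      (fun n => (a n).2) (fun n => (b n).2)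
      (fun n => (a.norm_coe_le_norm n).trans (by linarith [norm_nonneg b]))
      (fun n => (b.norm_coe_le_norm n).trans (by linarith [norm_nonneg a])) ha hb
    rw [one_mul] at h1
    exact h1
  add_mem' := by
    intro a b ha hb ε hε
    filter_upwards [ha (ε / 2) (by positivity), hb (ε / 2) (by positivity)] with n h1 h2
    have := h1.add h2
    rwa [add_halves] at this
  algebraMap_mem' := by
    intro c ε hε
    refine Filter.Eventually.of_forall fun n => ?_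
    change Defect N ξ 1 ε (c • (1 : H →L[ℂ] H))
    have h2 := (Defect.one (N := N) (ξ := ξ) (δ := 0) le_rfl).smul c
    rw [mul_zero] at h2
    exact h2.mono hε.le
  star_mem' := by
    intro a ha
    have h1 := Dseq.star one_pos ha
    rw [inv_one] at h1
    exact h1

lemma ACalg_isClosed (hξ : ‖ξ‖ = 1) :
    IsClosed (ACalg N ξ : Set (ℕ →ᵇ N.toStarSubalgebra)) := by
  rw [← isSeqClosed_iff_isClosed]
  intro f a hf hfa ε hε
  have h1 := (Metric.tendsto_nhds.1 hfa) (ε / 4) (by positivity)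
  obtain ⟨k, hk⟩ := h1.exists
  have h2 : Dseq N ξ 1 (fun n => ((f k n : N.toStarSubalgebra) : H →L[ℂ] H)) := hf k
  filter_upwards [h2 (ε / 2) (by positivity)] with n hn
  have h3 := Defect.trivial (N := N) hξ
    (((a n : N.toStarSubalgebra) : H →L[ℂ] H) - ((f k n : N.toStarSubalgebra) : H →L[ℂ] H))
  have h4 := hn.add h3
  rw [add_sub_cancel] at h4
  refine h4.mono ?_
  have h5 : ‖((a n : N.toStarSubalgebra) : H →L[ℂ] H) -
      ((f k n : N.toStarSubalgebra) : H →L[ℂ] H)‖ ≤ ‖a - f k‖ := (a - f k).norm_coe_le_norm n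
  rw [dist_comm, dist_eq_norm] at hk
  linarith

end ACalgebra

end Pool.Agent.Helper23

end

section

open scoped InnerProductSpace BoundedContinuousFunction

open ContinuousLinearMap Filter

namespace Pool.Agent.Helper23

variable {H : Type*} [NormedAddCommGroup H] [InnerProductSpace ℂ H] [CompleteSpace H]

variable {N : VonNeumannAlgebra H} {ξ : H}

lemma exists_four (hξ : ‖ξ‖ = 1) {a : ℕ → H →L[ℂ] H} (ha : ∀ n, a n ∈ N) {C : ℝ}
    (hC : ∀ n, ‖a n‖ ≤ C) (hD : Dseq N ξ 1 a) :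
    ∃ (k : Fin 4 → ℂ) (b : Fin 4 → ℕ → (H →L[ℂ] H)), (∀ i n, b i n ∈ N) ∧
      (∀ i n, star (b i n) * b i n = 1) ∧ (∀ i n, b i n * star (b i n) = 1) ∧
      (∀ i, Dseq N ξ 1 (b i)) ∧ ∀ n, a n = ∑ i, k i • b i n := by
  have hcl : IsClosed (ACalg N ξ : Set (ℕ →ᵇ N.toStarSubalgebra)) := ACalg_isClosed hξ
  let a' : ℕ →ᵇ N.toStarSubalgebra :=
    BoundedContinuousFunction.ofNormedAddCommGroup (fun n => (⟨a n, ha n⟩ : N.toStarSubalgebra))
      continuous_of_discreteTopology C (fun n => hC n)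
  have ha' : a' ∈ ACalg N ξ := hD
  obtain ⟨u, k, hk, -⟩ := CStarAlgebra.exists_sum_four_unitary (⟨a', ha'⟩ : ACalg N ξ)
  refine ⟨k, fun i n => ((((u i : ACalg N ξ) : ℕ →ᵇ N.toStarSubalgebra) n :
    N.toStarSubalgebra) : H →L[ℂ] H),
    fun i n => ((((u i : ACalg N ξ) : ℕ →ᵇ N.toStarSubalgebra) n).2), fun i n => ?_,
    fun i n => ?_, fun i => (u i : ACalg N ξ).2, fun n => ?_⟩
  · have := Unitary.star_mul_self_of_mem (u i).2
    exact congrArg (fun z : ACalg N ξ => (((z : ℕ →ᵇ N.toStarSubalgebra) n :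
      N.toStarSubalgebra) : H →L[ℂ] H)) this
  · have := Unitary.mul_star_self_of_mem (u i).2
    exact congrArg (fun z : ACalg N ξ => (((z : ℕ →ᵇ N.toStarSubalgebra) n :
      N.toStarSubalgebra) : H →L[ℂ] H)) this
  · have h1 : a' = ∑ i, k i • (((u i : ACalg N ξ) : ℕ →ᵇ N.toStarSubalgebra)) := by
      have := congrArg (fun z : ACalg N ξ => (z : ℕ →ᵇ N.toStarSubalgebra)) hk
      simpa using this
    have h2 : a' n = ∑ i, k i • (((u i : ACalg N ξ) : ℕ →ᵇ N.toStarSubalgebra)) n :=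
      (congrArg (fun z : ℕ →ᵇ N.toStarSubalgebra => z n) h1).trans
        (BoundedContinuousFunction.sum_apply _ _ _)
    have h3 := congrArg (fun z : N.toStarSubalgebra => (z : H →L[ℂ] H)) h2
    exact h3.trans (by simp)

end Pool.Agent.Helper23

end

section

open scoped InnerProductSpace Topology BoundedContinuousFunction

open ContinuousLinearMap Filter

namespace Pool.Agent.Helper23

variable {H : Type*} [NormedAddCommGroup H] [InnerProductSpace ℂ H] [CompleteSpace H]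

variable {M N : VonNeumannAlgebra H} {ξ : H} {E : (H →L[ℂ] H) → (H →L[ℂ] H)}

lemma norm_le_one_of_isom {v : H →L[ℂ] H} (h : star v * v = 1) : ‖v‖ ≤ 1 :=
  ContinuousLinearMap.opNorm_le_bound _ zero_le_one fun ζ => by
    rw [norm_of_isom h, one_mul]

namespace AP

variable (S : AP M N E ξ)

include S

omit S in
lemma ACU_lamSeq {u : ℕ → H →L[ℂ] H} (hu : ACU N ξ u) : LamSeq N ξ 1 u :=
  ⟨hu.1, ⟨1, fun n => norm_le_one_of_isom (hu.2.1 n)⟩, hu.2.2.2⟩

omit S in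
lemma bicent_mul {x y : H →L[ℂ] H} (hx : x ∈ Bicent M N ξ) (hy : y ∈ Bicent M N ξ) :
    x * y ∈ Bicent M N ξ := by
  refine ⟨mul_mem hx.1 hy.1, fun a ha η => ?_⟩
  have h1 := (x.continuous.tendsto 0).comp (hy.2 a ha η)
  rw [map_zero] at h1
  have h := h1.add (hx.2 a ha (y η))
  rw [add_zero] at h
  refine h.congr fun n => ?_
  change x (y (a n η) - a n (y η)) + (x (a n (y η)) - a n (x (y η))) =
    x (y (a n η)) - a n (x (y η))
  rw [map_sub]
  abel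

end AP

end Pool.Agent.Helper23

end

section

open scoped InnerProductSpace Topology BoundedContinuousFunction

open ContinuousLinearMap Filter

namespace Pool.Agent.Helper23

variable {H : Type*} [NormedAddCommGroup H] [InnerProductSpace ℂ H] [CompleteSpace H]

variable {M N : VonNeumannAlgebra H} {ξ : H} {E : (H →L[ℂ] H) → (H →L[ℂ] H)}

namespace Setting

variable (S : Setting M N E ξ)

include S

/-- it suffices to test commutation on unitaries, at the vector `ξ`. -/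
theorem bicent_of_unitary {x : H →L[ℂ] H} (hx : x ∈ M)
    (h : ∀ u, ACU N ξ u → Tendsto (fun n => x (u n ξ) - u n (x ξ)) atTop (𝓝 0)) :
    x ∈ Bicent M N ξ := by
  refine ⟨hx, fun a ha η => ?_⟩
  obtain ⟨haN, ⟨C, hC⟩, hD⟩ := ha
  have h2 : Tendsto (fun n => (x * a n - a n * x) ξ) atTop (𝓝 0) := by
    obtain ⟨k, b, hbN, hb1, hb2, hbD, hsum⟩ := exists_four S.norm_one haN hC hD
    exact tendsto_of_four hsum fun i => h _ ⟨hbN i, hb1 i, hb2 i, hbD i⟩
  exact tendsto_of_bounded M S.dense_comm (x := fun n => x * a n - a n * x)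
    (C := ‖x‖ * C + C * ‖x‖)
    (fun n => sub_mem (mul_mem hx (S.le _ (haN n))) (mul_mem (S.le _ (haN n)) hx))
    (fun n => (norm_sub_le _ _).trans (add_le_add
      ((norm_mul_le _ _).trans (mul_le_mul_of_nonneg_left (hC n) (norm_nonneg _)))
      ((norm_mul_le _ _).trans (mul_le_mul_of_nonneg_right (hC n) (norm_nonneg _))))) h2 η

/-- the bicentralizer is star closed -/
lemma bicent_star {x : H →L[ℂ] H} (hx : x ∈ Bicent M N ξ) : star x ∈ Bicent M N ξ := by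
  refine S.bicent_of_unitary (star_mem hx.1) fun u hu => ?_
  -- `star u x u → x` strongly
  have hT : ∀ η, Tendsto (fun n => (star (u n) * x * u n) η) atTop (𝓝 (x η)) := by
    intro η
    rw [tendsto_iff_norm_sub_tendsto_zero]
    refine (tendsto_zero_iff_norm_tendsto_zero.1 (hx.2 u (AP.ACU_lamSeq hu) η)).congr fun n => ?_
    have e1 : (star (u n) * x * u n) η - x η =
        (star (u n)) (x (u n η) - u n (x η)) := by
      rw [map_sub]
      have : (star (u n)) (u n (x η)) = x η :=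
        congrArg (fun T : H →L[ℂ] H => T (x η)) (hu.2.1 n)
      rw [this]; rfl
    rw [e1, norm_of_isom (by rw [star_star]; exact hu.2.2.1 n)]
  -- the state of `star u (x star x) u`
  have hφ : Tendsto (fun n => ⟪ξ, (star (u n) * (x * star x) * u n) ξ⟫_ℂ) atTop
      (𝓝 ⟪ξ, (x * star x) ξ⟫_ℂ) := by
    rw [tendsto_iff_norm_sub_tendsto_zero]
    rw [Metric.tendsto_atTop]
    intro ε hε
    have hxx : x * star x ∈ M := mul_mem hx.1 (star_mem hx.1)
    have hEx : E (x * star x) ∈ N := S.E_mem _ hxx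
    have h1 := hu.2.2.2 (ε / (2 * (‖E (x * star x)‖ + 1))) (by positivity)
    obtain ⟨n0, hn0⟩ := eventually_atTop.1 h1
    refine ⟨n0, fun n hn => ?_⟩
    have h2 := hn0 n hn (star (u n) * E (x * star x))
      (mul_mem (star_mem (hu.1 n)) hEx)
    rw [Real.dist_eq, sub_zero, abs_of_nonneg (norm_nonneg _)]
    have e1 : ⟪ξ, (star (u n) * (x * star x) * u n) ξ⟫_ℂ =
        ⟪ξ, (star (u n) * E (x * star x)) (u n ξ)⟫_ℂ := by
      rw [← S.E_state _ (mul_mem (mul_mem (star_mem (S.le _ (hu.1 n))) hxx) (S.le _ (hu.1 n))),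
        S.E_bimod _ (star_mem (hu.1 n)) _ (hu.1 n) _ hxx]
      rfl
    have e2 : ⟪ξ, (x * star x) ξ⟫_ℂ = ⟪ξ, u n ((star (u n) * E (x * star x)) ξ)⟫_ℂ := by
      rw [← S.E_state _ hxx]
      have : u n ((star (u n) * E (x * star x)) ξ) = E (x * star x) ξ :=
        congrArg (fun T : H →L[ℂ] H => T (E (x * star x) ξ)) (hu.2.2.1 n)
      rw [this]
    rw [e1, e2]
    rw [Complex.ofReal_one, one_mul] at h2
    refine lt_of_le_of_lt h2 ?_
    have e3 : ‖star (u n) * E (x * star x)‖ ≤ ‖E (x * star x)‖ := by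
      refine (norm_mul_le _ _).trans ?_
      rw [norm_star]
      calc ‖u n‖ * ‖E (x * star x)‖ ≤ 1 * ‖E (x * star x)‖ := by
            gcongr; exact norm_le_one_of_isom (hu.2.1 n)
        _ = _ := one_mul _
    calc ε / (2 * (‖E (x * star x)‖ + 1)) * ‖star (u n) * E (x * star x)‖ ≤
          ε / (2 * (‖E (x * star x)‖ + 1)) * (‖E (x * star x)‖ + 1) := by
            gcongr; linarith
      _ = ε / 2 := by field_simp
      _ < ε := by linarith
  -- the norms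
  have hkey : ∀ n, ‖(star x) (u n ξ) - u n ((star x) ξ)‖ ^ 2 =
      (⟪ξ, (star (u n) * (x * star x) * u n) ξ⟫_ℂ).re + (⟪ξ, (x * star x) ξ⟫_ℂ).re -
        2 * (⟪ξ, (star (u n) * x * u n) ((star x) ξ)⟫_ℂ).re := by
    intro n
    have e1 : ‖(star x) (u n ξ)‖ ^ 2 = (⟪ξ, (star (u n) * (x * star x) * u n) ξ⟫_ℂ).re := by
      have h1 : ⟪ξ, (star (u n) * (x * star x) * u n) ξ⟫_ℂ =
          ⟪(star x) (u n ξ), (star x) (u n ξ)⟫_ℂ := by
        rw [inner_star_left]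
        change ⟪ξ, (star (u n)) ((x * star x) (u n ξ))⟫_ℂ = _
        rw [inner_star_right]; rfl
      rw [h1, inner_self_eq_norm_sq_to_K]
      norm_cast
    have e2 : ‖u n ((star x) ξ)‖ ^ 2 = (⟪ξ, (x * star x) ξ⟫_ℂ).re := by
      rw [norm_of_isom (hu.2.1 n)]
      have h1 : ⟪ξ, (x * star x) ξ⟫_ℂ = ⟪(star x) ξ, (star x) ξ⟫_ℂ := by
        rw [inner_star_left]; rfl
      rw [h1, inner_self_eq_norm_sq_to_K]
      norm_cast
    rw [@norm_sub_sq ℂ, e1, e2]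
    have e3 : ⟪(star x) (u n ξ), u n ((star x) ξ)⟫_ℂ =
        ⟪ξ, (star (u n) * x * u n) ((star x) ξ)⟫_ℂ := by
      rw [inner_star_left]
      change _ = ⟪ξ, (star (u n)) ((x * u n) ((star x) ξ))⟫_ℂ
      rw [inner_star_right]; rfl
    rw [e3]
    change _ - 2 * (⟪ξ, (star (u n) * x * u n) ((star x) ξ)⟫_ℂ).re + _ = _
    ring
  have hlim : Tendsto (fun n => ‖(star x) (u n ξ) - u n ((star x) ξ)‖ ^ 2) atTop (𝓝 0) := by
    simp only [hkey]
    have h1 : Tendsto (fun n => ⟪ξ, (star (u n) * x * u n) ((star x) ξ)⟫_ℂ) atTop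
        (𝓝 ⟪ξ, x ((star x) ξ)⟫_ℂ) := tendsto_const_nhds.inner (hT _)
    have h2 := (((Complex.continuous_re.tendsto _).comp hφ).add_const
      (⟪ξ, (x * star x) ξ⟫_ℂ).re).sub (((Complex.continuous_re.tendsto _).comp h1).const_mul 2)
    have e1 : (⟪ξ, (x * star x) ξ⟫_ℂ).re + (⟪ξ, (x * star x) ξ⟫_ℂ).re -
        2 * (⟪ξ, x ((star x) ξ)⟫_ℂ).re = 0 := by
      change (⟪ξ, x ((star x) ξ)⟫_ℂ).re + (⟪ξ, x ((star x) ξ)⟫_ℂ).re - _ = _
      ring
    rw [e1] at h2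
    exact h2
  rw [tendsto_zero_iff_norm_tendsto_zero]
  have h3 := (Real.continuous_sqrt.tendsto _).comp hlim
  rw [Real.sqrt_zero] at h3
  refine h3.congr fun n => ?_
  exact Real.sqrt_sq (norm_nonneg _)

end Setting

end Pool.Agent.Helper23

end

section

open scoped InnerProductSpace Topology BoundedContinuousFunction ComplexOrder

open ContinuousLinearMap Filter

namespace Pool.Agent.Helper23

variable {H : Type*} [NormedAddCommGroup H] [InnerProductSpace ℂ H] [CompleteSpace H]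

variable {M N : VonNeumannAlgebra H} {ξ : H} {E : (H →L[ℂ] H) → (H →L[ℂ] H)}

/-- For a bounded sequence of asymptotic eigenoperators `a` with `‖a n‖ ≤ 1` there are `b n` in
`N`, asymptotically in the centralizer, with `a n (a n)* + (b n)* b n = 1`. -/
lemma exists_sqrt_seq (hξ : ‖ξ‖ = 1) {l : ℝ} (hl : 0 < l) {a : ℕ → H →L[ℂ] H}
    (haN : ∀ n, a n ∈ N) (ha1 : ∀ n, ‖a n‖ ≤ 1) (ha : Dseq N ξ l a) :
    ∃ (b : ℕ → H →L[ℂ] H) (C : ℝ), (∀ n, b n ∈ N) ∧ (∀ n, ‖b n‖ ≤ C) ∧ Dseq N ξ 1 b ∧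
      ∀ n, a n * star (a n) = 1 - star (b n) * b n := by
  have hcl : IsClosed (ACalg N ξ : Set (ℕ →ᵇ N.toStarSubalgebra)) := ACalg_isClosed hξ
  have hnorm : ∀ n, ‖a n * star (a n)‖ ≤ 1 := by
    intro n
    refine (norm_mul_le _ _).trans ?_
    rw [norm_star]
    have := ha1 n
    nlinarith [norm_nonneg (a n)]
  let α' : ℕ →ᵇ N.toStarSubalgebra :=
    BoundedContinuousFunction.ofNormedAddCommGroup
      (fun n => (⟨a n * star (a n), mul_mem (haN n) (star_mem (haN n))⟩ : N.toStarSubalgebra))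
      continuous_of_discreteTopology 1 (fun n => hnorm n)
  have hα'n : ∀ n, ((α' n : N.toStarSubalgebra) : H →L[ℂ] H) = a n * star (a n) := fun n => rfl
  have hα' : α' ∈ ACalg N ξ := by
    have h1 := Dseq.mul (C := 1) haN (fun n => star_mem (haN n)) ha1
      (fun n => by rw [norm_star]; exact ha1 n) ha (ha.star hl)
    rw [mul_inv_cancel₀ hl.ne'] at h1
    exact h1
  have hsa : IsSelfAdjoint (⟨α', hα'⟩ : ACalg N ξ) := by
    rw [isSelfAdjoint_iff]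
    apply Subtype.ext
    ext n
    change star (a n * star (a n)) _ = _
    rw [star_mul, star_star]
    rfl
  have hn1 : ‖(⟨α', hα'⟩ : ACalg N ξ)‖ ≤ 1 := by
    change ‖α'‖ ≤ 1
    exact BoundedContinuousFunction.norm_ofNormedAddCommGroup_le _ zero_le_one _
  obtain ⟨b, hb⟩ := exists_sqrt_one_sub (A := ACalg N ξ) hsa hn1
  refine ⟨fun n => (((b : ℕ →ᵇ N.toStarSubalgebra) n : N.toStarSubalgebra) : H →L[ℂ] H),
    ‖(b : ℕ →ᵇ N.toStarSubalgebra)‖, fun n => Subtype.prop _,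
    fun n => (b : ℕ →ᵇ N.toStarSubalgebra).norm_coe_le_norm n, b.2, fun n => ?_⟩
  have h1 := congrArg (fun z : ACalg N ξ => (((z : ℕ →ᵇ N.toStarSubalgebra) n :
    N.toStarSubalgebra) : H →L[ℂ] H)) hb
  change (1 : H →L[ℂ] H) - a n * star (a n) = star (((b : ℕ →ᵇ N.toStarSubalgebra) n :
    N.toStarSubalgebra) : H →L[ℂ] H) * (((b : ℕ →ᵇ N.toStarSubalgebra) n :
    N.toStarSubalgebra) : H →L[ℂ] H) at h1
  rw [← h1, sub_sub_cancel]

end Pool.Agent.Helper23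

end

section

open scoped InnerProductSpace Topology ENNReal

open ContinuousLinearMap Filter MeasureTheory

namespace Pool.Agent.Helper23

variable {H : Type*} [NormedAddCommGroup H] [InnerProductSpace ℂ H] [CompleteSpace H]

variable {M N : VonNeumannAlgebra H} {ξ : H} {E : (H →L[ℂ] H) → (H →L[ℂ] H)}

/-- The properties of the relative bicentralizer and its flow used in the construction of the
isomorphism. -/
structure BFlow (M N : VonNeumannAlgebra H) (E : (H →L[ℂ] H) → (H →L[ℂ] H)) (ξ : H) : Prop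
    extends Setting M N E ξ where
  scal : ∀ x ∈ Bicent M N ξ, E x = ⟪ξ, x ξ⟫_ℂ • (1 : H →L[ℂ] H)
  bt_mem : ∀ x ∈ Bicent M N ξ, ∀ l : ℝ, 0 < l → btU M N ξ l x ∈ Bicent M N ξ
  bt_add : ∀ x ∈ Bicent M N ξ, ∀ y ∈ Bicent M N ξ, ∀ l : ℝ, 0 < l →
    btU M N ξ l (x + y) = btU M N ξ l x + btU M N ξ l y
  bt_smul : ∀ c : ℂ, ∀ x ∈ Bicent M N ξ, ∀ l : ℝ, 0 < l →
    btU M N ξ l (c • x) = c • btU M N ξ l x
  bt_mul : ∀ x ∈ Bicent M N ξ, ∀ y ∈ Bicent M N ξ, ∀ l : ℝ, 0 < l →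
    btU M N ξ l (x * y) = btU M N ξ l x * btU M N ξ l y
  bt_star : ∀ x ∈ Bicent M N ξ, ∀ l : ℝ, 0 < l →
    btU M N ξ l (star x) = star (btU M N ξ l x)
  bt_bt : ∀ x ∈ Bicent M N ξ, ∀ l : ℝ, 0 < l → ∀ m : ℝ, 0 < m →
    btU M N ξ l (btU M N ξ m x) = btU M N ξ (l * m) x
  bt_one_act : ∀ x ∈ Bicent M N ξ, btU M N ξ 1 x = x
  bt_opNorm : ∀ x ∈ Bicent M N ξ, ∀ l : ℝ, 0 < l → ‖btU M N ξ l x‖ ≤ 2 * ‖x‖
  bt_state : ∀ x ∈ Bicent M N ξ, ∀ l : ℝ, 0 < l → ⟪ξ, btU M N ξ l x ξ⟫_ℂ = ⟪ξ, x ξ⟫_ℂ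
  bt_cont : ∀ x ∈ Bicent M N ξ, ∀ v : H,
    ContinuousOn (fun l : ℝ => btU M N ξ l x v) (Set.Ioi 0)
  flow : ∀ x ∈ Bicent M N ξ, ∀ l : ℝ, 0 < l → ∀ a, LamSeq N ξ l a →
    Tendsto (fun n => a n (x ξ) - btU M N ξ l x (a n ξ)) atTop (𝓝 0)
  flow_uniq : ∀ x ∈ Bicent M N ξ, ∀ y ∈ M, ∀ l : ℝ, 0 < l →
    (∀ a, LamSeq N ξ l a → Tendsto (fun n => (a n * x - y * a n) ξ) atTop (𝓝 0)) →
      y = btU M N ξ l x
  core : ∀ u ∈ GK N ξ, ∀ y ∈ Bicent M N ξ, ∀ κ : ℝ, 0 < κ → ∃ K : ℝ, 0 ≤ K ∧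
    ∀ γ₀ : ℝ, 1 < γ₀ → Real.log γ₀ ≤ 1 / 2 → ∀ (m : ℕ) (g : L2R ℂ), g ≠ 0 →
      ∀ (B : Finset hw) (n : ℕ), 0 < n → K * ((1 + 2 * Real.log γ₀ ^ 2) ^ n - 1) ≤ κ →
        ∃ z ∈ Bicent M N ξ, ‖(z - btU M N ξ (γ₀ ^ m) y) ξ‖ ^ 2 ≤ 2 * κ ∧
          ∑ j ∈ Finset.Ico (-(m : ℤ)) m, ∑ i ∈ Finset.Ico (-(m : ℤ)) m, ∑ k ∈ B,
            ‖(btU M N ξ (γ₀ ^ (i - m)) z * sa u (Real.log γ₀) g (i, k, j) -
              sa u (Real.log γ₀) g (i, k, j) * btU M N ξ (γ₀ ^ (j - m)) z) ξ‖ ^ 2 ≤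
            96 * ‖g‖ ^ 2 * κ / n
  sl_mem : ∀ X ∈ Rk M N ξ, ∀ f g : L2R ℂ, slX X f g ∈ Bicent M N ξ
  sl_bt : ∀ X ∈ Rk M N ξ, ∀ (f g : L2R ℂ) (l : ℝ), 0 < l →
    btU M N ξ l (slX X f g) = slX X (tr ℂ (Real.log l) f) (tr ℂ (Real.log l) g)

namespace BFlow

variable (S : BFlow M N E ξ)

include S

lemma bt_exp_cont {x : H →L[ℂ] H} (hx : x ∈ Bicent M N ξ) (v : H) :
    Continuous fun s : ℝ => btU M N ξ (Real.exp s) x v := by
  rw [← continuousOn_univ]
  exact (S.bt_cont x hx v).comp (Real.continuous_exp.continuousOn) fun s _ => Real.exp_pos s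

/-- independence of the bicentralizer and `N` -/
lemma inner_BN {x a b : H →L[ℂ] H} (hx : x ∈ Bicent M N ξ) (ha : a ∈ N) (hb : b ∈ N) :
    ⟪a ξ, x (b ξ)⟫_ℂ = ⟪ξ, x ξ⟫_ℂ * ⟪a ξ, b ξ⟫_ℂ := by
  rw [← S.E_inner ha hb hx.1, S.scal x hx, smul_apply, one_apply_eq_self, inner_smul_right]

lemma inner_BB {y z a b : H →L[ℂ] H} (hy : y ∈ Bicent M N ξ) (hz : z ∈ Bicent M N ξ)
    (ha : a ∈ N) (hb : b ∈ N) :
    ⟪y (a ξ), z (b ξ)⟫_ℂ = ⟪y ξ, z ξ⟫_ℂ * ⟪a ξ, b ξ⟫_ℂ := by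
  have h := S.inner_BN (AP.bicent_mul (S.bicent_star hy) hz) ha hb
  change ⟪a ξ, (star y) (z (b ξ))⟫_ℂ = ⟪ξ, (star y) (z ξ)⟫_ℂ * _ at h
  rwa [inner_star_right, inner_star_right] at h

lemma bt_inner {x y : H →L[ℂ] H} (hx : x ∈ Bicent M N ξ) (hy : y ∈ Bicent M N ξ) {l : ℝ}
    (hl : 0 < l) : ⟪btU M N ξ l y ξ, btU M N ξ l x ξ⟫_ℂ = ⟪y ξ, x ξ⟫_ℂ := by
  have h1 := S.bt_state (star y * x) (AP.bicent_mul (S.bicent_star hy) hx) l hl
  rw [S.bt_mul _ (S.bicent_star hy) _ hx l hl, S.bt_star _ hy l hl] at h1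
  change ⟪ξ, (star (btU M N ξ l y)) (btU M N ξ l x ξ)⟫_ℂ = ⟪ξ, (star y) (x ξ)⟫_ℂ at h1
  rwa [inner_star_right, inner_star_right] at h1

end BFlow

end Pool.Agent.Helper23

end
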