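import Pool.Agent.Helper23.FA.Ns
import Pool.Agent.Helper23.FA.L00_01
import Pool.Agent.Helper23.FA.L00_02
import Pool.Agent.Helper23.FA.L00_03
import Pool.Agent.Helper23.FA.L00_04
import Pool.Agent.Helper23.FA.L00_05
import Pool.Agent.Helper23.FA.L00_18
import Pool.Agent.Helper23.FA.L00_19

/-!
Parts of Helper23.Eigen, Helper23.Spec, Helper23.Amp1, Helper23.Amp2, Helper23.Pi, Helper70.TTE, Helper68.G2b1, Helper68.G2b2, Helper78.USlices0, Helper23.Pi2, Helper23.Pin4, Helper23.UPi, Helper23.ED.Defs, Helper23.ED.RkA, Helper23.ED.GgB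
-/

section

open scoped InnerProductSpace

open ContinuousLinearMap

namespace Pool.Agent.Helper23

variable {H : Type*} [NormedAddCommGroup H] [InnerProductSpace ℂ H] [CompleteSpace H]

variable {M N : VonNeumannAlgebra H} {ξ : H} {E : (H →L[ℂ] H) → (H →L[ℂ] H)}

namespace Setting

variable (S : Setting M N E ξ)

include S

lemma comm_le {y : H →L[ℂ] H} (hy : y ∈ M.commutant) : y ∈ N.commutant := by
  rw [mem_comm_iff] at hy ⊢
  exact fun g hg => hy g (S.le g hg)

lemma dense_commN : Dense (orb N.commutant ξ : Set H) := by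
  refine S.dense_comm.mono ?_
  rintro _ ⟨a, ha, rfl⟩
  exact ⟨a, S.comm_le ha, rfl⟩

end Setting

end Pool.Agent.Helper23

end

section

open scoped InnerProductSpace

open ContinuousLinearMap

namespace Pool.Agent.Helper23

variable {H : Type*} [NormedAddCommGroup H] [InnerProductSpace ℂ H] [CompleteSpace H]

variable {M N : VonNeumannAlgebra H} {ξ : H} {E : (H →L[ℂ] H) → (H →L[ℂ] H)}

/-- The closure of `N ξ`. -/
noncomputable def K0 (N : VonNeumannAlgebra H) (ξ : H) : Submodule ℂ H :=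
  (orb N ξ).topologicalClosure

lemma K0_isClosed : IsClosed (K0 N ξ : Set H) := Submodule.isClosed_topologicalClosure _

instance : CompleteSpace (K0 N ξ) := K0_isClosed.completeSpace_coe

lemma mem_K0 {a : H →L[ℂ] H} (ha : a ∈ N) : a ξ ∈ K0 N ξ :=
  Submodule.le_topologicalClosure _ ⟨a, ha, rfl⟩

end Pool.Agent.Helper23

end

section

open scoped InnerProductSpace Topology ENNReal

open ContinuousLinearMap Filter MeasureTheory

set_option linter.unusedSectionVars false

set_option linter.unusedVariables false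

namespace Pool.Agent.Helper23

variable {G : Type*} [NormedAddCommGroup G] [InnerProductSpace ℂ G] [CompleteSpace G]

variable {G' : Type*} [NormedAddCommGroup G'] [InnerProductSpace ℂ G'] [CompleteSpace G']

variable {G'' : Type*} [NormedAddCommGroup G''] [InnerProductSpace ℂ G''] [CompleteSpace G'']

omit [CompleteSpace G] [CompleteSpace G'] [CompleteSpace G''] in
lemma Dec.comp {T : ℝ → G' →L[ℂ] G''} {T' : ℝ → G →L[ℂ] G'} (h : Dec T) (h' : Dec T') :
    Dec (fun s => (T s).comp (T' s)) := by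
  obtain ⟨C, hC0, hC⟩ := h.bdd
  obtain ⟨C', hC'0, hC'⟩ := h'.bdd
  refine ⟨fun F hF => h.meas _ (h'.meas F hF), C * C', by positivity, fun s => ?_⟩
  exact (ContinuousLinearMap.opNorm_comp_le _ _).trans
    (mul_le_mul (hC s) (hC' s) (norm_nonneg _) hC0)

omit [CompleteSpace G] [CompleteSpace G'] [CompleteSpace G''] in
lemma dec_comp {T : ℝ → G' →L[ℂ] G''} {T' : ℝ → G →L[ℂ] G'} (h : Dec T) (h' : Dec T')
    (F : L2R G) : dec T (dec T' F) = dec (fun s => (T s).comp (T' s)) F := by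
  ext1
  filter_upwards [dec_coe h (dec T' F), dec_coe h' F, dec_coe (h.comp h') F] with s h1 h2 h3
  rw [h1, h2, h3]
  rfl

omit [CompleteSpace G] [CompleteSpace G'] in
lemma Dec.add {T T' : ℝ → G →L[ℂ] G'} (h : Dec T) (h' : Dec T') :
    Dec (fun s => T s + T' s) := by
  obtain ⟨C, hC0, hC⟩ := h.bdd
  obtain ⟨C', hC'0, hC'⟩ := h'.bdd
  exact ⟨fun F hF => (h.meas F hF).add (h'.meas F hF), C + C', by positivity, fun s =>
    (norm_add_le _ _).trans (add_le_add (hC s) (hC' s))⟩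

omit [CompleteSpace G] [CompleteSpace G'] in
lemma dec_add {T T' : ℝ → G →L[ℂ] G'} (h : Dec T) (h' : Dec T') :
    dec (fun s => T s + T' s) = dec T + dec T' := by
  ext F : 1
  ext1
  rw [add_apply]
  filter_upwards [dec_coe (h.add h') F, dec_coe h F, dec_coe h' F,
    Lp.coeFn_add (dec T F) (dec T' F)] with s h1 h2 h3 h4
  rw [h1, h4, Pi.add_apply, h2, h3]
  rfl

omit [CompleteSpace G] [CompleteSpace G'] in
lemma dec_smul {T : ℝ → G →L[ℂ] G'} (c : ℂ) (h : Dec T) :
    dec (fun s => c • T s) = c • dec T := by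
  ext F : 1
  ext1
  rw [smul_apply]
  filter_upwards [dec_coe (h.smul c) F, dec_coe h F, Lp.coeFn_smul c (dec T F)] with s h1 h2 h3
  rw [h1, h3, Pi.smul_apply, h2]
  rfl

/-- strongly continuous bounded fields -/
lemma Dec.of_cont {T : ℝ → G →L[ℂ] G'} {C : ℝ} (hC0 : 0 ≤ C) (hC : ∀ s, ‖T s‖ ≤ C)
    (hT : ∀ v, Continuous fun s => T s v) : Dec T := by
  refine ⟨fun F hF => ?_, C, hC0, hC⟩
  have h1 : Continuous (fun p : ℝ × G => T p.1 p.2) := by
    refine continuous_prod_of_continuous_lipschitzWith' (fun p : ℝ × G => T p.1 p.2) C.toNNReal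
      ?_ hT
    intro s
    refine LipschitzWith.of_dist_le_mul fun x y => ?_
    rw [dist_eq_norm, dist_eq_norm, ← map_sub, Real.coe_toNNReal _ hC0]
    exact (T s).le_of_opNorm_le (hC s) _
  exact h1.comp_aestronglyMeasurable
    ((continuous_id.aestronglyMeasurable (μ := volume)).prodMk hF)

omit [CompleteSpace G] [CompleteSpace G'] in
lemma lift_norm (a : G →L[ℂ] G') : ‖lift a‖ ≤ ‖a‖ := dec_norm (norm_nonneg _) fun _ => le_rfl

omit [CompleteSpace G] [CompleteSpace G'] [CompleteSpace G''] in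
lemma lift_lift (a : G' →L[ℂ] G'') (b : G →L[ℂ] G') (F : L2R G) :
    lift a (lift b F) = lift (a.comp b) F := dec_comp (Dec.const a) (Dec.const b) F

omit [CompleteSpace G] in
lemma lift_mul (a b : G →L[ℂ] G) : lift (a * b) = lift a * lift b := by
  ext F : 1
  exact (lift_lift a b F).symm

omit [CompleteSpace G] in
lemma tr_coe (t : ℝ) (F : L2R G) : tr G t F =ᵐ[volume] fun s => F (s - t) :=
  Lp.coeFn_compMeasurePreserving F (mp_sub t)

omit [CompleteSpace G] in
lemma tr_norm (t : ℝ) (F : L2R G) : ‖tr G t F‖ = ‖F‖ :=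
  Lp.norm_compMeasurePreserving F (mp_sub t)

/-- almost everywhere statements are translation invariant -/
lemma ae_tr {p : ℝ → Prop} (t : ℝ) (h : ∀ᵐ s : ℝ, p s) : ∀ᵐ s : ℝ, p (s - t) :=
  (mp_sub t).quasiMeasurePreserving.ae h

omit [CompleteSpace G] [CompleteSpace G'] in
lemma tr_lift (t : ℝ) (a : G →L[ℂ] G') (F : L2R G) : tr G' t (lift a F) = lift a (tr G t F) := by
  ext1
  filter_upwards [tr_coe t (lift a F), ae_tr t (lift_coe a F), lift_coe a (tr G t F),
    tr_coe t F] with s h1 h2 h3 h4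
  rw [h1, h2, h3, h4]

end Pool.Agent.Helper23

end

section

open scoped InnerProductSpace Topology ENNReal

open ContinuousLinearMap Filter MeasureTheory

set_option linter.unusedSectionVars false

set_option linter.unusedVariables false

namespace Pool.Agent.Helper23

variable {H : Type*} [NormedAddCommGroup H] [InnerProductSpace ℂ H] [CompleteSpace H]

lemma sl_lift (f : L2R ℂ) (a : H →L[ℂ] H) (F : L2R H) : sl f (lift a F) = a (sl f F) := by
  refine ext_inner_left ℂ fun ζ => ?_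
  rw [inner_sl]
  have h1 : ⟪ten f ζ, lift a F⟫_ℂ = ⟪(star (lift a)) (ten f ζ), F⟫_ℂ := by
    rw [inner_star_left]
  have h2 : ⟪ζ, a (sl f F)⟫_ℂ = ⟪(star a) ζ, sl f F⟫_ℂ := by
    rw [inner_star_left]
  rw [h1, h2, inner_sl, ← lift_star, lift_ten]

lemma tr_ten (t : ℝ) (f : L2R ℂ) (η : H) : tr H t (ten f η) = ten (tr ℂ t f) η :=
  tr_lift t _ f

lemma mem_amp {A : VonNeumannAlgebra H} {X : L2R H →L[ℂ] L2R H} :
    X ∈ amp A ↔ ∀ a ∈ A.commutant, lift a * X = X * lift a := by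
  have h1 : X ∈ amp A ↔ X ∈ StarSubalgebra.centralizer ℂ
    (lift '' (A.commutant : Set (H →L[ℂ] H))) := Iff.rfl
  rw [h1, StarSubalgebra.mem_centralizer_iff]
  constructor
  · intro h a ha
    exact (h _ ⟨a, ha, rfl⟩).1
  · rintro h _ ⟨a, ha, rfl⟩
    exact ⟨h a ha, by rw [← lift_star]; exact h _ (star_mem ha)⟩

variable {A : VonNeumannAlgebra H}

lemma amp_comm {X : L2R H →L[ℂ] L2R H} (hX : X ∈ amp A) {a : H →L[ℂ] H} (ha : a ∈ A.commutant)
    (F : L2R H) : lift a (X F) = X (lift a F) :=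
  congrArg (fun T : L2R H →L[ℂ] L2R H => T F) (mem_amp.1 hX a ha)

lemma amp_ten {X : L2R H →L[ℂ] L2R H} (hX : X ∈ amp A) {a : H →L[ℂ] H} (ha : a ∈ A.commutant)
    (f : L2R ℂ) (η : H) : X (ten f (a η)) = lift a (X (ten f η)) := by
  rw [amp_comm hX ha, lift_ten]

lemma slX_mem {X : L2R H →L[ℂ] L2R H} (hX : X ∈ amp A) (f g : L2R ℂ) : slX X f g ∈ A := by
  rw [mem_iff_commutes]
  intro a ha
  ext η
  change a (sl f (X (ten g η))) = sl f (X (ten g (a η)))
  rw [amp_ten hX ha, sl_lift]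

lemma lift_mem_amp {a : H →L[ℂ] H} (ha : a ∈ A) : lift a ∈ amp A := by
  rw [mem_amp]
  intro b hb
  rw [← lift_mul, ← lift_mul, mem_comm_iff.1 hb a ha]

lemma tr_mem_amp (t : ℝ) : tr H t ∈ amp A := by
  rw [mem_amp]
  intro b _
  ext F : 1
  exact (tr_lift t b F).symm

lemma dec_mem_amp {T : ℝ → H →L[ℂ] H} (h : Dec T) (hT : ∀ s, T s ∈ A) : dec T ∈ amp A := by
  rw [mem_amp]
  intro b hb
  ext F : 1
  change lift b (dec T F) = dec T (lift b F)
  ext1
  filter_upwards [lift_coe b (dec T F), dec_coe h F, dec_coe h (lift b F), lift_coe b F]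
    with s h1 h2 h3 h4
  rw [h1, h2, h3, h4, commute_apply (hT s) hb]

end Pool.Agent.Helper23

end

section

open scoped InnerProductSpace Topology ENNReal

open ContinuousLinearMap Filter MeasureTheory

set_option linter.unusedSectionVars false

set_option linter.unusedVariables false

namespace Pool.Agent.Helper23

variable {H : Type*} [NormedAddCommGroup H] [InnerProductSpace ℂ H] [CompleteSpace H]

variable {M N : VonNeumannAlgebra H} {ξ : H} {E : (H →L[ℂ] H) → (H →L[ℂ] H)}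

lemma ae_mem (V : Submodule ℂ H) [CompleteSpace V] {G : L2R H} (h : ∀ f : L2R ℂ, sl f G ∈ V) :
    ∀ᵐ s, G s ∈ V := by
  set P : H →L[ℂ] H := V.starProjection with hP
  have h2 : lift P G = G := by
    rw [← sub_eq_zero]
    refine eq_zero_of_ten fun f η => ?_
    rw [inner_sub_right, ← inner_sl, ← inner_sl, sl_lift, ← inner_sub_right]
    have : P (sl f G) = sl f G := Submodule.starProjection_eq_self_iff.2 (h f)
    rw [this, sub_self, inner_zero_right]
  have h3 : (lift P G : ℝ → H) =ᵐ[volume] fun s => P (G s) := lift_coe P G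
  rw [h2] at h3
  filter_upwards [h3] with s e1
  rw [e1]
  exact Submodule.starProjection_apply_mem _ _

end Pool.Agent.Helper23

end

section

open scoped InnerProductSpace Topology BoundedContinuousFunction FourierTransform SchwartzMap

open ContinuousLinearMap Filter MeasureTheory

set_option linter.unusedSectionVars false

namespace Pool.Agent.Helper23

variable {G : Type*} [NormedAddCommGroup G] [InnerProductSpace ℂ G] [CompleteSpace G]

variable {G' : Type*} [NormedAddCommGroup G'] [InnerProductSpace ℂ G'] [CompleteSpace G']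

variable {H : Type*} [NormedAddCommGroup H] [InnerProductSpace ℂ H] [CompleteSpace H]

theorem fourier_lift' (a : G →L[ℂ] G') (F : L2R G) : 𝓕 (lift a F) = lift a (𝓕 F) := by
  refine L2R_ext_schwartz (φ := fun F : L2R G => (𝓕 (lift a F) : L2R G'))
    (ψ := fun F : L2R G => lift a (𝓕 F)) ?_ ?_ (fun f => ?_) F
  · exact (Lp.fourierTransformₗᵢ ℝ G').continuous.comp (lift a).continuous
  · exact (lift a).continuous.comp (Lp.fourierTransformₗᵢ ℝ G).continuous
  · rw [lift_toLp, SchwartzMap.toLp_fourier_eq, SchwartzMap.toLp_fourier_eq, lift_toLp,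
      fourier_postcomp]

/-- MODULE TT-E: the `L²` Fourier transform and the operators `lift`, `ten`, `tr` -/
theorem fourier_lift (a : H →L[ℂ] H) (F : L2R H) : 𝓕 (lift a F) = lift a (𝓕 F) :=
  fourier_lift' a F

lemma chr_bm (t : ℝ) : BM (chr t) := by
  refine ⟨?_, 1, zero_le_one, fun s => (chr_norm t s).le⟩
  unfold chr
  fun_prop

lemma tr_toLp (t : ℝ) (f : 𝓢(ℝ, G)) : tr G t (f.toLp 2) = (trS t f).toLp 2 := by
  have h0 : ∀ᵐ s : ℝ, f.toLp 2 (volume : Measure ℝ) (s - t) = f (s - t) :=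
    ae_tr (p := fun s => f.toLp 2 (volume : Measure ℝ) s = f s) t
      (f.coeFn_toLp 2 (volume : Measure ℝ))
  ext1
  filter_upwards [tr_coe t (f.toLp 2), h0, (trS t f).coeFn_toLp 2] with s h1 h2 h3
  rw [h1, h2, h3, trS_apply]

theorem fourier_tr (t : ℝ) (F : L2R H) : 𝓕 (tr H t F) = mulOp H (chr t) (𝓕 F) := by
  refine L2R_ext_schwartz (φ := fun F : L2R H => (𝓕 (tr H t F) : L2R H))
    (ψ := fun F : L2R H => mulOp H (chr t) (𝓕 F)) ?_ ?_ (fun f => ?_) F
  · exact (Lp.fourierTransformₗᵢ ℝ H).continuous.comp (tr H t).continuous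
  · exact (mulOp H (chr t)).continuous.comp (Lp.fourierTransformₗᵢ ℝ H).continuous
  · rw [tr_toLp, SchwartzMap.toLp_fourier_eq, SchwartzMap.toLp_fourier_eq]
    ext1
    filter_upwards [mulOp_coe (chr_bm t) ((𝓕 f).toLp 2), (𝓕 f).coeFn_toLp 2,
      (𝓕 (trS t f)).coeFn_toLp 2] with s h1 h2 h3
    rw [h1, h2, h3, fourier_trS]

end Pool.Agent.Helper23

end

section

open scoped InnerProductSpace Topology BoundedContinuousFunction FourierTransform ENNReal

open ContinuousLinearMap Filter MeasureTheory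

set_option linter.unusedSectionVars false

namespace Pool.Agent.Helper23

variable {H : Type*} [NormedAddCommGroup H] [InnerProductSpace ℂ H] [CompleteSpace H]

namespace Modular

variable {A : VonNeumannAlgebra H} {ξ : H} {R : H →L[ℂ] H} {D : H →L[ℝ] H}
  {Ψ : (ℝ →ᵇ ℂ) →⋆ₐ[ℂ] (H →L[ℂ] H)} (h : Modular A ξ R D Ψ)

include h

lemma U_dec : Dec (fun t : ℝ => Ψ (expB (2 * Real.pi * t))) :=
  Dec.of_cont zero_le_one (fun s => (psi_norm_le Ψ _).trans (expB_norm _))
    (fun v => (h.U_cont v).comp (by fun_prop))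

lemma U_dec' : Dec (fun t : ℝ => Ψ (expB (-(2 * Real.pi * t)))) :=
  Dec.of_cont zero_le_one (fun s => (psi_norm_le Ψ _).trans (expB_norm _))
    (fun v => (h.U_cont v).comp (by fun_prop))

end Modular

end Pool.Agent.Helper23

end

section

open scoped InnerProductSpace Topology BoundedContinuousFunction FourierTransform ENNReal

open ContinuousLinearMap Filter MeasureTheory

set_option linter.unusedSectionVars false

namespace Pool.Agent.Helper23

variable {H : Type*} [NormedAddCommGroup H] [InnerProductSpace ℂ H] [CompleteSpace H]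

lemma Fo_lift (a : H →L[ℂ] H) (F : L2R H) : Fo H (lift a F) = lift a (Fo H F) :=
  fourier_lift a F

lemma Fo_tr (t : ℝ) (F : L2R H) : Fo H (tr H t F) = mulOp H (chr t) (Fo H F) := fourier_tr t F

/-- conjugation of a decomposable operator by the Fourier transform -/
noncomputable def fco (T : ℝ → H →L[ℂ] H) : L2R H →L[ℂ] L2R H :=
  ((Fo H).symm : L2R H →L[ℂ] L2R H).comp ((dec T).comp (Fo H : L2R H →L[ℂ] L2R H))

lemma fco_apply (T : ℝ → H →L[ℂ] H) (F : L2R H) : fco T F = (Fo H).symm (dec T (Fo H F)) := rfl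

lemma Fo_fco (T : ℝ → H →L[ℂ] H) (F : L2R H) : Fo H (fco T F) = dec T (Fo H F) := by
  rw [fco_apply, LinearIsometryEquiv.apply_symm_apply]

lemma fco_mem_amp {A : VonNeumannAlgebra H} {T : ℝ → H →L[ℂ] H} (hT : Dec T)
    (hA : ∀ s, T s ∈ A) : fco T ∈ amp A := by
  rw [mem_amp]
  intro b hb
  ext F : 1
  refine (Fo H).injective ?_
  change Fo H (lift b (fco T F)) = Fo H (fco T (lift b F))
  rw [Fo_lift, Fo_fco, Fo_fco, Fo_lift]
  exact amp_comm (dec_mem_amp hT hA) hb _

end Pool.Agent.Helper23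

end

section

open scoped InnerProductSpace Topology BoundedContinuousFunction

open ContinuousLinearMap Filter MeasureTheory

namespace Pool.Agent.Helper23

variable {H : Type*} [NormedAddCommGroup H] [InnerProductSpace ℂ H] [CompleteSpace H]

variable {M N : VonNeumannAlgebra H} {ξ : H} {E : (H →L[ℂ] H) → (H →L[ℂ] H)}

namespace U14

lemma fld_dec {A : VonNeumannAlgebra H} {R : H →L[ℂ] H} {D : H →L[ℝ] H}
    {Ψ : (ℝ →ᵇ ℂ) →⋆ₐ[ℂ] (H →L[ℂ] H)} (hΨ : Modular A ξ R D Ψ) (a : H →L[ℂ] H) :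
    Dec (fld Ψ a) :=
  (hΨ.U_dec.comp (Dec.const a)).comp hΨ.U_dec'

lemma fco_add {T T' : ℝ → H →L[ℂ] H} (h : Dec T) (h' : Dec T') :
    fco (fun s => T s + T' s) = fco T + fco T' := by
  ext F : 1
  rw [fco_apply, dec_add h h']
  change (Fo H).symm (dec T (Fo H F) + dec T' (Fo H F)) = _
  rw [map_add]
  rfl

lemma fco_smul {T : ℝ → H →L[ℂ] H} (c : ℂ) (h : Dec T) :
    fco (fun s => c • T s) = c • fco T := by
  ext F : 1
  rw [fco_apply, dec_smul c h]
  change (Fo H).symm (c • dec T (Fo H F)) = _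
  rw [map_smul]
  rfl

lemma fco_norm {T : ℝ → H →L[ℂ] H} {C : ℝ} (hC0 : 0 ≤ C) (hC : ∀ s, ‖T s‖ ≤ C) :
    ‖fco T‖ ≤ C := by
  refine ContinuousLinearMap.opNorm_le_bound _ hC0 fun F => ?_
  rw [fco_apply, LinearIsometryEquiv.norm_map]
  have h1 := (dec T).le_of_opNorm_le (dec_norm hC0 hC) (Fo H F)
  rwa [LinearIsometryEquiv.norm_map] at h1

/-- convergence on all vectors -/
lemma conv_all (S : Setting M N E ξ) {R : H →L[ℂ] H} {D : H →L[ℝ] H}
    {Ψ : (ℝ →ᵇ ℂ) →⋆ₐ[ℂ] (H →L[ℂ] H)} (hΨ : Modular M ξ R D Ψ)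
    (hN : ∀ (t : ℝ), ∀ a ∈ N, Ψ (expB t) * a * Ψ (expB (-t)) ∈ N)
    {l : ℝ} {a : ℕ → H →L[ℂ] H} (ha : LamSeq N ξ l a)
    (hconj : ∀ f : L2R ℂ, Tendsto (fun n => ‖fco (fld Ψ (a n)) (ten f ξ) -
      ten (tr ℂ (Real.log l) f) (a n ξ)‖) atTop (𝓝 0)) (G : L2R H) :
    Tendsto (fun n => (fco (fld Ψ (a n)) - tr H (Real.log l) * lift (a n)) G) atTop (𝓝 0) := by
  obtain ⟨haN, ⟨C, hC⟩, -⟩ := ha
  have hC0 : 0 ≤ C := (norm_nonneg _).trans (hC 0)
  have htr : ‖tr H (Real.log l)‖ ≤ 1 :=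
    ContinuousLinearMap.opNorm_le_bound _ zero_le_one fun F => by rw [tr_norm, one_mul]
  have hbd : ∀ n, ‖fco (fld Ψ (a n)) - tr H (Real.log l) * lift (a n)‖ ≤ C + 1 * C := by
    intro n
    refine (norm_sub_le _ _).trans (add_le_add ?_ ?_)
    · exact fco_norm hC0 fun s => (fld_norm Ψ _ _).trans (hC n)
    · refine (norm_mul_le _ _).trans ?_
      exact mul_le_mul htr ((lift_norm _).trans (hC n)) (norm_nonneg _) zero_le_one
  refine tendsto_of_ten hbd (fun f η => ?_) G
  -- the set of good vectors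
  have hamp : ∀ n, fco (fld Ψ (a n)) - tr H (Real.log l) * lift (a n) ∈ amp N := fun n =>
    sub_mem (fco_mem_amp (fld_dec hΨ _) fun s => hN _ _ (haN n))
      (mul_mem (tr_mem_amp _) (lift_mem_amp (haN n)))
  have h0 : Tendsto (fun n => (fco (fld Ψ (a n)) - tr H (Real.log l) * lift (a n)) (ten f ξ))
      atTop (𝓝 0) := by
    rw [tendsto_zero_iff_norm_tendsto_zero]
    refine (hconj f).congr fun n => ?_
    congr 1
    change _ = fco (fld Ψ (a n)) (ten f ξ) - tr H (Real.log l) (lift (a n) (ten f ξ))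
    rw [lift_ten, tr_ten]
  rw [Metric.tendsto_nhds]
  intro ε hε
  have hd := S.dense_comm η
  obtain ⟨_, ⟨r, hr, rfl⟩, hrη⟩ := Metric.mem_closure_iff.1 hd
    (ε / (2 * ((C + 1 * C + 1) * (‖f‖ + 1)))) (by positivity)
  have h1 : Tendsto (fun n => ‖lift r‖ * ‖(fco (fld Ψ (a n)) -
      tr H (Real.log l) * lift (a n)) (ten f ξ)‖) atTop (𝓝 0) := by
    have := (tendsto_zero_iff_norm_tendsto_zero.1 h0).const_mul ‖lift r‖
    rwa [mul_zero] at this
  have h2 := (Metric.tendsto_nhds.1 h1) (ε / 2) (by positivity)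
  filter_upwards [h2] with n hn
  rw [Real.dist_eq, sub_zero, abs_of_nonneg (by positivity)] at hn
  rw [dist_zero_right]
  set Dn := fco (fld Ψ (a n)) - tr H (Real.log l) * lift (a n) with hDn
  have e1 : Dn (ten f η) = Dn (ten f (η - r ξ)) + lift r (Dn (ten f ξ)) := by
    rw [← amp_ten (hamp n) (S.comm_le hr), ← map_add]
    congr 1
    have h3 : η - r ξ + r ξ = η := sub_add_cancel _ _
    rw [← ten_add_right, h3]
  rw [e1]
  have e2 : ‖Dn (ten f (η - r ξ))‖ ≤ (C + 1 * C + 1) * ((‖f‖ + 1) * ‖η - r ξ‖) := by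
    refine (Dn.le_of_opNorm_le ((hbd n).trans (by linarith : C + 1 * C ≤ C + 1 * C + 1)) _).trans ?_
    rw [norm_ten]
    gcongr
    linarith
  rw [dist_eq_norm] at hrη
  calc _ ≤ ‖Dn (ten f (η - r ξ))‖ + ‖lift r (Dn (ten f ξ))‖ := norm_add_le _ _
    _ ≤ (C + 1 * C + 1) * ((‖f‖ + 1) * ‖η - r ξ‖) + ‖lift r‖ * ‖Dn (ten f ξ)‖ :=
        add_le_add e2 ((lift r).le_opNorm _)
    _ < (C + 1 * C + 1) * ((‖f‖ + 1) * (ε / (2 * ((C + 1 * C + 1) * (‖f‖ + 1))))) + ε / 2 := by
        gcongr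
    _ = ε := by field_simp; ring

end U14

end Pool.Agent.Helper23

end

section

open scoped InnerProductSpace Topology ENNReal

open ContinuousLinearMap Filter MeasureTheory

set_option linter.unusedSectionVars false

set_option linter.unusedVariables false

namespace Pool.Agent.Helper23

variable {H : Type*} [NormedAddCommGroup H] [InnerProductSpace ℂ H] [CompleteSpace H]

variable {M N : VonNeumannAlgebra H} {ξ : H} {E : (H →L[ℂ] H) → (H →L[ℂ] H)}

lemma GK_slice_mem {u : L2R H →L[ℂ] L2R H} (hu : u ∈ amp N) (g : L2R ℂ) :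
    ∀ᵐ s, u (ten g ξ) s ∈ K0 N ξ :=
  ae_mem (K0 N ξ) fun f => mem_K0 (slX_mem hu f g)

end Pool.Agent.Helper23

end

section

open scoped InnerProductSpace Topology ENNReal

open ContinuousLinearMap Filter MeasureTheory

namespace Pool.Agent.Helper23

variable {H : Type*} [NormedAddCommGroup H] [InnerProductSpace ℂ H] [CompleteSpace H]

variable {M N : VonNeumannAlgebra H} {ξ : H} {E : (H →L[ℂ] H) → (H →L[ℂ] H)}

/-- the components of the commutator with the block diagonal operator -/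
lemma comp_blk {t : ℝ} (ht : 0 < t) {m : ℕ} {A : Finset ℤ} (hA : A = Finset.Ico (-(m : ℤ)) m)
    (z : ℤ → H →L[ℂ] H) (u : L2R H →L[ℂ] L2R H) {g : L2R ℂ}
    (hg : ∀ᵐ s, s ∉ Set.Ico (-(m * t)) (m * t) → g s = 0) {i : ℤ} (hi : i ∈ A) (k : hw) :
    sl (mulOp ℂ (ind (win t i)) (hb k)) (u (blk t A z (ten g ξ)) - blk t A z (u (ten g ξ))) =
      ∑ j ∈ A, (sa u t g (i, k, j) * z j - z i * sa u t g (i, k, j)) ξ := by
  have h1 : sl (mulOp ℂ (ind (win t i)) (hb k)) (u (blk t A z (ten g ξ))) =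
      ∑ j ∈ A, (sa u t g (i, k, j) * z j) ξ := by
    rw [blk_ten, map_sum, map_sum]
    rfl
  have hgs : g = ∑ j ∈ A, mulOp ℂ (ind (win t j)) g := by
    rw [hA]
    exact (sum_win ht hg).symm
  have h2 : sl (mulOp ℂ (ind (win t i)) (hb k)) (blk t A z (u (ten g ξ))) =
      ∑ j ∈ A, (z i * sa u t g (i, k, j)) ξ := by
    have e1 : ∀ F : L2R H, sl (mulOp ℂ (ind (win t i)) (hb k)) F =
        sl (hb k) (mulOp H (ind (win t i)) F) := by
      intro F
      rw [sl_mulOp' (ind_bm (win_meas t i)), ind_conj]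
    rw [e1, blk_win ht hi, ← e1, sl_lift]
    have e2 : u (ten g ξ) = ∑ j ∈ A, u (ten (mulOp ℂ (ind (win t j)) g) ξ) := by
      have e3 : ten g ξ = ∑ j ∈ A, ten (mulOp ℂ (ind (win t j)) g) ξ := by
        conv_lhs => rw [hgs]
        exact map_sum (axi ξ) _ _
      rw [e3, map_sum]
    rw [e2, map_sum, map_sum]
    rfl
  rw [map_sub, h1, h2, ← Finset.sum_sub_distrib]
  rfl

end Pool.Agent.Helper23

end

section

open scoped InnerProductSpace Topology ENNReal

open ContinuousLinearMap Filter MeasureTheory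

namespace Pool.Agent.Helper23

variable {H : Type*} [NormedAddCommGroup H] [InnerProductSpace ℂ H] [CompleteSpace H]

variable {M N : VonNeumannAlgebra H} {ξ : H} {E : (H →L[ℂ] H) → (H →L[ℂ] H)}

namespace Setting

variable (S : Setting M N E ξ)

include S

lemma xi_mem_K0 : ξ ∈ K0 N ξ := by
  have := mem_K0 (ξ := ξ) (one_mem N)
  simpa using this

end Setting

end Pool.Agent.Helper23

end

section

open scoped InnerProductSpace Topology ENNReal BoundedContinuousFunction

open ContinuousLinearMap Filter MeasureTheory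

namespace Pool.Agent.Helper23.ED

open Pool.Agent.Helper23 Pool.Agent.Helper23.RBF

universe u

section amp

variable {H : Type*} [NormedAddCommGroup H] [InnerProductSpace ℂ H] [CompleteSpace H]

/-- the group `V_a ⊗ e^{i a s}` on `L²(ℝ; H)` -/
noncomputable def UV (V : ℝ → H →L[ℂ] H) (a : ℝ) : L2R H →L[ℂ] L2R H :=
  lift (V a) * mulOp H (ems a)

/-- the field `t ↦ U_{2πt} c U_{-2πt}` in the Fourier picture -/
noncomputable def fcn (Ψ : (ℝ →ᵇ ℂ) →⋆ₐ[ℂ] (H →L[ℂ] H)) (c : H →L[ℂ] H) :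
    L2R H →L[ℂ] L2R H :=
  fco fun t : ℝ => Ψ (expB (2 * Real.pi * t)) * c * Ψ (expB (-(2 * Real.pi * t)))

/-- elements of the amplification of `M` commuting with the explicit unitaries -/
def Rk1 (M N : VonNeumannAlgebra H) (Ψ : (ℝ →ᵇ ℂ) →⋆ₐ[ℂ] (H →L[ℂ] H)) :
    Set (L2R H →L[ℂ] L2R H) :=
  {X | X ∈ amp M ∧ (∀ m, BM m → (∀ s, ‖m s‖ = 1) → mulOp H m * X = X * mulOp H m) ∧
    ∀ u ∈ N, star u * u = 1 → u * star u = 1 → fcn Ψ u * X = X * fcn Ψ u}

end amp

end Pool.Agent.Helper23.ED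

end

section

open scoped InnerProductSpace Topology ENNReal BoundedContinuousFunction

open ContinuousLinearMap Filter MeasureTheory

namespace Pool.Agent.Helper23.ED

open Pool.Agent.Helper23 Pool.Agent.Helper23.RBF

universe u

variable {H : Type*} [NormedAddCommGroup H] [InnerProductSpace ℂ H] [CompleteSpace H]

variable {M N : VonNeumannAlgebra H} {ξ : H} {E : (H →L[ℂ] H) → (H →L[ℂ] H)}

namespace RkA

/-- commutation with the fields of all elements of `N` -/
lemma comm_fld1 {R : H →L[ℂ] H} {D : H →L[ℝ] H} {Ψ : (ℝ →ᵇ ℂ) →⋆ₐ[ℂ] (H →L[ℂ] H)}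
    (hΨ : Modular M ξ R D Ψ)
    {X : L2R H →L[ℂ] L2R H} (hX : X ∈ Rk1 M N Ψ) {a : H →L[ℂ] H} (ha : a ∈ N) :
    fco (U14.fld Ψ a) * X = X * fco (U14.fld Ψ a) := by
  have hadd : ∀ b c : H →L[ℂ] H,
      fco (U14.fld Ψ (b + c)) = fco (U14.fld Ψ b) + fco (U14.fld Ψ c) := by
    intro b c
    rw [U14.fld_add, U14.fco_add (U14.fld_dec hΨ b) (U14.fld_dec hΨ c)]
  have hsmul : ∀ (c : ℂ) (b : H →L[ℂ] H),
      fco (U14.fld Ψ (c • b)) = c • fco (U14.fld Ψ b) := by
    intro c b
    rw [U14.fld_smul, U14.fco_smul c (U14.fld_dec hΨ b)]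
  obtain ⟨u, k, hk, -⟩ := CStarAlgebra.exists_sum_four_unitary (⟨a, ha⟩ : N.toStarSubalgebra)
  have ha' : a = ∑ i, k i • ((u i : N.toStarSubalgebra) : H →L[ℂ] H) := by
    have := congrArg (fun z : N.toStarSubalgebra => (z : H →L[ℂ] H)) hk
    simpa using this
  have hl : fco (U14.fld Ψ a) =
      ∑ i, k i • fco (U14.fld Ψ ((u i : N.toStarSubalgebra) : H →L[ℂ] H)) := by
    rw [ha', Fin.sum_univ_four, Fin.sum_univ_four, hadd, hadd, hadd, hsmul, hsmul, hsmul, hsmul]
  rw [hl, Finset.sum_mul, Finset.mul_sum]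
  refine Finset.sum_congr rfl fun i _ => ?_
  rw [smul_mul_assoc, mul_smul_comm]
  congr 1
  refine hX.2.2 _ (u i : N.toStarSubalgebra).2 ?_ ?_
  · have := Unitary.star_mul_self_of_mem (u i).2
    exact congrArg (fun z : N.toStarSubalgebra => (z : H →L[ℂ] H)) this
  · have := Unitary.mul_star_self_of_mem (u i).2
    exact congrArg (fun z : N.toStarSubalgebra => (z : H →L[ℂ] H)) this

end RkA

end Pool.Agent.Helper23.ED

end

section

open scoped InnerProductSpace Topology ENNReal BoundedContinuousFunction FourierTransform SchwartzMap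

open ContinuousLinearMap Filter MeasureTheory

namespace Pool.Agent.Helper23.ED

open Pool.Agent.Helper23 Pool.Agent.Helper23.RBF

universe u

variable {H : Type*} [NormedAddCommGroup H] [InnerProductSpace ℂ H] [CompleteSpace H]

variable {M N : VonNeumannAlgebra H} {ξ : H} {E : (H →L[ℂ] H) → (H →L[ℂ] H)}

namespace GgB

lemma ems_bm (a : ℝ) : BM (ems a) := by
  rw [ems_eq]
  exact chr_bm _

end GgB

end Pool.Agent.Helper23.ED

end
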