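import Pool.Agent.Helper23.FA.Ns
import Pool.Agent.Helper23.FA.L00_01
import Pool.Agent.Helper23.FA.L00_02
import Pool.Agent.Helper23.FA.L00_05
import Pool.Agent.Helper23.FA.L00_06
import Pool.Agent.Helper23.FA.L00_13
import Pool.Agent.Helper23.FA.L00_17
import Pool.Agent.Helper23.FA.L00_18
import Pool.Agent.Helper23.RBFDefs2

/-!
Parts of Helper60.TTA, Helper43.TTF.P, Helper78.BC.Transport, Helper88.CS.JUniq, Helper23.ED.NgF, Helper23.ED.CoC, Helper23.ED.TrA
-/

section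

open scoped InnerProductSpace Topology BoundedContinuousFunction

open ContinuousLinearMap Filter MeasureTheory

namespace Pool.Agent.Helper23

variable {H : Type*} [NormedAddCommGroup H] [InnerProductSpace ℂ H] [CompleteSpace H]

namespace TTA

set_option linter.unusedSectionVars false

lemma sa_decomp {A : VonNeumannAlgebra H} {a : H →L[ℂ] H} (ha : a ∈ A) :
    ∃ a1 ∈ A, ∃ a2 ∈ A, star a1 = a1 ∧ star a2 = a2 ∧ a = a1 + Complex.I • a2 ∧
      star a = a1 - Complex.I • a2 := by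
  refine ⟨(1 / 2 : ℂ) • (a + star a), smul_mem' _ (add_mem ha (star_mem ha)),
    (-Complex.I / 2 : ℂ) • (a - star a), smul_mem' _ (sub_mem ha (star_mem ha)), ?_, ?_, ?_, ?_⟩
  · rw [star_smul, star_add, star_star, add_comm (star a)]
    congr 1
    simp
  · rw [star_smul, star_sub, star_star, ← neg_sub a (star a), smul_neg, ← neg_smul]
    congr 1
    simp
    ring
  · rw [smul_smul, show Complex.I * (-Complex.I / 2) = 1 / 2 by
      linear_combination (-1 / 2 : ℂ) * Complex.I_mul_I, ← smul_add]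
    rw [show a + star a + (a - star a) = (2 : ℂ) • a by rw [two_smul]; abel, smul_smul]
    norm_num
  · rw [smul_smul, show Complex.I * (-Complex.I / 2) = 1 / 2 by
      linear_combination (-1 / 2 : ℂ) * Complex.I_mul_I, ← smul_sub]
    rw [show a + star a - (a - star a) = (2 : ℂ) • star a by rw [two_smul]; abel, smul_smul]
    norm_num

variable (A : VonNeumannAlgebra H) (ξ : H)

attribute [local instance] rips

/-- the real subspace of vectors `a ξ`, `a` selfadjoint -/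
def K0 : Submodule ℝ H where
  carrier := {x | ∃ a ∈ A, star a = a ∧ a ξ = x}
  add_mem' := by
    rintro _ _ ⟨a, ha, ha', rfl⟩ ⟨b, hb, hb', rfl⟩
    exact ⟨a + b, add_mem ha hb, by rw [star_add, ha', hb'], rfl⟩
  zero_mem' := ⟨0, zero_mem A, star_zero _, rfl⟩
  smul_mem' := by
    rintro c _ ⟨a, ha, ha', rfl⟩
    refine ⟨(c : ℂ) • a, smul_mem' _ ha, ?_, ?_⟩
    · rw [star_smul, ha']; simp
    · change (c : ℂ) • a ξ = c • a ξ
      rw [Complex.coe_smul]

/-- its closure -/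
noncomputable def K : Submodule ℝ H := (K0 A ξ).topologicalClosure

noncomputable instance : (K A ξ).HasOrthogonalProjection := by
  unfold K; infer_instance

/-- the real projection -/
noncomputable def P : H →L[ℝ] H := (K A ξ).starProjection

lemma K_closed : IsClosed (K A ξ : Set H) := Submodule.isClosed_topologicalClosure _

lemma mem_K_of {a : H →L[ℂ] H} (ha : a ∈ A) (ha' : star a = a) : a ξ ∈ K A ξ :=
  Submodule.le_topologicalClosure _ ⟨a, ha, ha', rfl⟩

lemma P_of_mem {v : H} (hv : v ∈ K A ξ) : P A ξ v = v :=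
  Submodule.starProjection_eq_self_iff.2 hv

lemma P_mem (v : H) : P A ξ v ∈ K A ξ := Submodule.starProjection_apply_mem _ _

lemma P_P (v : H) : P A ξ (P A ξ v) = P A ξ v := P_of_mem A ξ (P_mem A ξ v)

lemma rho_P (v w : H) : rho (P A ξ v) w = rho v (P A ξ w) := by
  have h := Submodule.inner_starProjection_left_eq_right (K A ξ) v w
  rw [real_inner_eq_re_inner ℂ, real_inner_eq_re_inner ℂ] at h
  exact h

lemma norm_P_le (v : H) : ‖P A ξ v‖ ≤ ‖v‖ := Submodule.norm_starProjection_apply_le _ _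

lemma mem_K_of_norm {v : H} (h : ‖P A ξ v‖ = ‖v‖) : v ∈ K A ξ :=
  (Submodule.mem_iff_norm_starProjection _ _).2 h

lemma P_eq_zero {v : H} (h : ∀ a ∈ A, star a = a → rho (a ξ) v = 0) : P A ξ v = 0 := by
  have h1 : ∀ k ∈ K A ξ, rho k v = 0 := by
    intro k hk
    have hcl : IsClosed {k : H | rho k v = 0} := by
      refine isClosed_eq ?_ continuous_const
      unfold rho
      exact Complex.continuous_re.comp (continuous_id.inner continuous_const)
    have hsub : (K0 A ξ : Set H) ⊆ {k : H | rho k v = 0} := by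
      rintro _ ⟨a, ha, ha', rfl⟩
      exact h a ha ha'
    exact closure_minimal hsub hcl hk
  have h2 := h1 _ (P_mem A ξ v)
  rw [rho_P, rho_comm, ← P_P, rho_P, rho_self] at h2
  simpa using h2

/-- the projection onto `i K` -/
noncomputable def Q (v : H) : H := -(Complex.I • P A ξ (Complex.I • v))

lemma I_smul_Q (v : H) : Complex.I • Q A ξ v = P A ξ (Complex.I • v) := by
  unfold Q
  rw [smul_neg, smul_smul, Complex.I_mul_I, neg_one_smul, neg_neg]

lemma Q_I_smul (v : H) : Q A ξ (Complex.I • v) = Complex.I • P A ξ v := by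
  unfold Q
  rw [smul_smul, Complex.I_mul_I, neg_one_smul, map_neg, smul_neg, neg_neg]

lemma Q_add (v w : H) : Q A ξ (v + w) = Q A ξ v + Q A ξ w := by
  unfold Q
  rw [smul_add, map_add, smul_add, neg_add]

lemma Q_sub (v w : H) : Q A ξ (v - w) = Q A ξ v - Q A ξ w := by
  unfold Q
  rw [smul_sub, map_sub, smul_sub]; abel

lemma Q_Q (v : H) : Q A ξ (Q A ξ v) = Q A ξ v := by
  rw [Q, I_smul_Q, P_P]; rfl

lemma norm_Q_le (v : H) : ‖Q A ξ v‖ ≤ ‖v‖ := by
  unfold Q
  rw [norm_neg, norm_smul, Complex.norm_I, one_mul]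
  refine (norm_P_le A ξ _).trans ?_
  rw [norm_smul, Complex.norm_I, one_mul]

lemma rho_Q (v w : H) : rho (Q A ξ v) w = rho v (Q A ξ w) := by
  unfold Q
  rw [rho_neg_left, rho_I_I, rho_P, rho_I_I, rho_neg_right, neg_neg]

lemma Q_real_smul (c : ℝ) (v : H) : Q A ξ (c • v) = c • Q A ξ v := by
  unfold Q
  rw [smul_comm Complex.I c v, map_smul, smul_comm Complex.I c, smul_neg]

/-- `Q` as a real linear operator -/
noncomputable def QL : H →L[ℝ] H :=
  LinearMap.mkContinuous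
    { toFun := Q A ξ, map_add' := Q_add A ξ, map_smul' := Q_real_smul A ξ } 1
    (fun v => by rw [one_mul]; exact norm_Q_le A ξ v)

/-- `D = P - Q` -/
noncomputable def Dop : H →L[ℝ] H := P A ξ - QL A ξ

lemma Dop_apply (v : H) : Dop A ξ v = P A ξ v - Q A ξ v := rfl

lemma Dop_I (v : H) : Dop A ξ (Complex.I • v) = -(Complex.I • Dop A ξ v) := by
  rw [Dop_apply, Dop_apply, Q_I_smul, smul_sub, I_smul_Q]
  abel

/-- `R = P + Q` -/
noncomputable def Rop : H →L[ℂ] H :=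
  LinearMap.mkContinuous
    { toFun := fun v => P A ξ v + Q A ξ v
      map_add' := by
        intro v w
        rw [map_add, Q_add]; abel
      map_smul' := by
        intro c v
        rw [RingHom.id_apply, smul_split c v, smul_split c (P A ξ v + Q A ξ v), map_add, Q_add,
          map_smul, map_smul, Q_real_smul, Q_real_smul, Q_I_smul, ← I_smul_Q, smul_add, smul_add,
          smul_add]
        abel } 2
    (fun v => by
      change ‖P A ξ v + Q A ξ v‖ ≤ 2 * ‖v‖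
      have h1 := norm_P_le A ξ v
      have h2 := norm_Q_le A ξ v
      have h3 := norm_add_le (P A ξ v) (Q A ξ v)
      linarith)

lemma Rop_apply (v : H) : Rop A ξ v = P A ξ v + Q A ξ v := rfl

lemma rho_R (v w : H) : rho (Rop A ξ v) w = rho v (Rop A ξ w) := by
  rw [Rop_apply, Rop_apply, rho_add_left, rho_add_right, rho_P, rho_Q]

lemma rho_D (v w : H) : rho (Dop A ξ v) w = rho v (Dop A ξ w) := by
  rw [Dop_apply, Dop_apply, rho_sub_left, rho_sub_right, rho_P, rho_Q]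

lemma rho_R_self (v : H) : (⟪v, Rop A ξ v⟫_ℂ).re = ‖P A ξ v‖ ^ 2 + ‖Q A ξ v‖ ^ 2 := by
  change rho v (Rop A ξ v) = _
  rw [Rop_apply, rho_add_right, ← P_P, ← rho_P, rho_self, ← Q_Q, ← rho_Q, rho_self, P_P, Q_Q]

lemma inner_real {a' b : H →L[ℂ] H} (ha : a' ∈ A.commutant) (ha' : star a' = a') (hb : b ∈ A)
    (hb' : star b = b) : (⟪b ξ, a' ξ⟫_ℂ).im = 0 := by
  have h1 : ⟪b ξ, a' ξ⟫_ℂ = ⟪a' ξ, b ξ⟫_ℂ := by
    rw [← inner_star_right b, hb', ← inner_star_right a', ha', commute_apply hb ha]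
  have h2 := congrArg Complex.im h1
  rw [← inner_conj_symm (a' ξ), Complex.conj_im] at h2
  linarith

lemma Q_comm_zero {a' : H →L[ℂ] H} (ha : a' ∈ A.commutant) (ha' : star a' = a') :
    Q A ξ (a' ξ) = 0 := by
  unfold Q
  rw [P_eq_zero, smul_zero, neg_zero]
  intro b hb hb'
  rw [rho_I_right, inner_real A ξ ha ha' hb hb', neg_zero]

end TTA

end Pool.Agent.Helper23

end

section

open scoped InnerProductSpace Topology BoundedContinuousFunction

open ContinuousLinearMap Filter MeasureTheory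

namespace Pool.Agent.Helper43.TTF

open Pool.Agent.Helper23 Pool.Agent.Helper23.TTA

variable {H : Type*} [NormedAddCommGroup H] [InnerProductSpace ℂ H] [CompleteSpace H]

/-- the Rieffel - van Daele operators satisfy the interface -/
theorem ttdata (A : VonNeumannAlgebra H) (ξ : H) (hcyc : Dense (orb A ξ : Set H))
    (hsep : ∀ a ∈ A, a ξ = 0 → a = 0) : TTData A ξ (Rop A ξ) (Dop A ξ) := by
  have hcyc' : Dense (orb A.commutant ξ : Set H) := dense_of_separating A ξ hsep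
  have hDconj : ∀ (c : ℂ) (v : H), Dop A ξ (c • v) = (starRingEnd ℂ) c • Dop A ξ v := by
    intro c v
    rw [smul_split c v, smul_split ((starRingEnd ℂ) c), map_add, map_smul, map_smul, Dop_I,
      Complex.conj_re, Complex.conj_im, smul_neg, neg_smul]
  refine ⟨?_, ?_, ?_, ?_, ?_, hDconj, ?_, ?_, ?_, ?_, ?_⟩
  · -- star R = R
    apply ContinuousLinearMap.ext
    intro v
    apply ext_inner_right ℂ
    intro w
    rw [inner_star_left]
    apply inner_ext_rho
    · rw [rho_R]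
    · rw [← rho_I_left, ← rho_I_left, rho_I_I, rho_I_I, rho_R, map_smul]
  · intro v
    rw [rho_R_self]; positivity
  · intro v
    rw [rho_R_self]
    have h1 := norm_P_le A ξ v
    have h2 := norm_Q_le A ξ v
    nlinarith [norm_nonneg (P A ξ v), norm_nonneg (Q A ξ v), norm_nonneg v]
  · intro v hv
    have h1 := rho_R_self A ξ v
    rw [hv, inner_zero_right, Complex.zero_re] at h1
    have hP : P A ξ v = 0 := by
      have : ‖P A ξ v‖ ^ 2 = 0 := by nlinarith [sq_nonneg ‖P A ξ v‖, sq_nonneg ‖Q A ξ v‖]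
      simpa using this
    have hQ : Q A ξ v = 0 := by
      have : ‖Q A ξ v‖ ^ 2 = 0 := by nlinarith [sq_nonneg ‖P A ξ v‖, sq_nonneg ‖Q A ξ v‖]
      simpa using this
    have hQ' : P A ξ (Complex.I • v) = 0 := by rw [← I_smul_Q, hQ, smul_zero]
    have hsa : ∀ b ∈ A, star b = b → ⟪b ξ, v⟫_ℂ = 0 := by
      intro b hb hb'
      have hbK := P_of_mem A ξ (mem_K_of A ξ hb hb')
      apply inner_zero_of
      · rw [← hbK, rho_P, hP, rho, inner_zero_right, Complex.zero_re]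
      · rw [← hbK, rho_P, hQ', rho, inner_zero_right, Complex.zero_re]
    apply zero_of_dense hcyc
    rintro _ ⟨a, ha, rfl⟩
    obtain ⟨a1, h1, a2, h2, hs1, hs2, hdec, -⟩ := sa_decomp ha
    rw [hdec, add_apply, inner_add_left, hsa a1 h1 hs1, smul_apply, inner_smul_left, hsa a2 h2 hs2,
      mul_zero, add_zero]
  · intro v hv
    have h1 := rho_R_self A ξ v
    rw [hv, inner_smul_right, inner_self_eq_norm_sq_to_K] at h1
    have h2 : ((2 : ℂ) * ((‖v‖ : ℂ)) ^ 2).re = 2 * ‖v‖ ^ 2 := by norm_cast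
    have h1' : 2 * ‖v‖ ^ 2 = ‖P A ξ v‖ ^ 2 + ‖Q A ξ v‖ ^ 2 := by rw [← h1, ← h2]; rfl
    have hP := norm_P_le A ξ v
    have hQ := norm_Q_le A ξ v
    have hPe : ‖P A ξ v‖ = ‖v‖ := by
      apply le_antisymm hP
      nlinarith [norm_nonneg (P A ξ v), norm_nonneg (Q A ξ v), norm_nonneg v]
    have hQe : ‖Q A ξ v‖ = ‖v‖ := by
      apply le_antisymm hQ
      nlinarith [norm_nonneg (P A ξ v), norm_nonneg (Q A ξ v), norm_nonneg v]
    have hvK : v ∈ K A ξ := mem_K_of_norm A ξ hPe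
    have hIvK : Complex.I • v ∈ K A ξ := by
      apply mem_K_of_norm
      rw [← I_smul_Q, norm_smul, norm_smul, hQe]
    have hsa : ∀ a' ∈ A.commutant, star a' = a' → ∀ k ∈ K A ξ, (⟪a' ξ, k⟫_ℂ).im = 0 := by
      intro a' ha ha' k hk
      have hcl : IsClosed {k : H | (⟪a' ξ, k⟫_ℂ).im = 0} :=
        isClosed_eq (Complex.continuous_im.comp (continuous_const.inner continuous_id))
          continuous_const
      have hsub : (K0 A ξ : Set H) ⊆ {k : H | (⟪a' ξ, k⟫_ℂ).im = 0} := by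
        rintro _ ⟨b, hb, hb', rfl⟩
        change (⟪a' ξ, b ξ⟫_ℂ).im = 0
        rw [← inner_conj_symm, Complex.conj_im, inner_real A ξ ha ha' hb hb', neg_zero]
      exact closure_minimal hsub hcl hk
    have hsa' : ∀ a' ∈ A.commutant, star a' = a' → ⟪a' ξ, v⟫_ℂ = 0 := by
      intro a' ha ha'
      have e1 := hsa a' ha ha' v hvK
      have e2 := hsa a' ha ha' _ hIvK
      rw [inner_smul_right] at e2
      apply Complex.ext
      · simpa using e2
      · exact e1
    apply zero_of_dense hcyc'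
    rintro _ ⟨a, ha, rfl⟩
    obtain ⟨a1, h1, a2, h2, hs1, hs2, hdec, -⟩ := sa_decomp ha
    rw [hdec, add_apply, inner_add_left, hsa' a1 h1 hs1, smul_apply, inner_smul_left,
      hsa' a2 h2 hs2, mul_zero, add_zero]
  · -- D_symm
    intro v w
    apply inner_ext_rho
    · rw [← rho_D, rho_comm]
    · have h1 : (⟪v, Dop A ξ w⟫_ℂ).im = rho v (Dop A ξ (Complex.I • w)) := by
        rw [Dop_I, rho_neg_right, rho_I_right, neg_neg]
      rw [h1, ← rho_D, rho_comm, rho_I_left]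
  · -- D_sq
    intro v
    rw [map_sub, map_smul, two_smul, Rop_apply, Rop_apply, Dop_apply, Dop_apply, map_sub, Q_sub,
      map_add, Q_add, P_P, Q_Q]
    abel
  · -- D_R
    intro v
    rw [two_smul, Rop_apply, Rop_apply, Dop_apply, Dop_apply, map_add, Q_add, map_sub, Q_sub, P_P,
      Q_Q]
    abel
  · -- D_mem
    have hsa : ∀ b ∈ A, star b = b → Dop A ξ (b ξ) = (2 : ℂ) • b ξ - Rop A ξ (b ξ) := by
      intro b hb hb'
      rw [Dop_apply, Rop_apply, P_of_mem A ξ (mem_K_of A ξ hb hb'), two_smul]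
      abel
    intro a ha
    obtain ⟨a1, h1, a2, h2, hs1, hs2, hdec, hdec'⟩ := sa_decomp ha
    have e1 : a ξ = a1 ξ + Complex.I • a2 ξ := by rw [hdec]; rfl
    have e2 : (star a) ξ = a1 ξ - Complex.I • a2 ξ := by rw [hdec']; rfl
    rw [e1, e2, map_add, Dop_I, hsa a1 h1 hs1, hsa a2 h2 hs2, map_sub, map_smul, smul_sub, smul_sub,
      smul_comm (2 : ℂ) Complex.I]
    abel
  · -- D_comm
    have hsa : ∀ b ∈ A.commutant, star b = b → Dop A ξ (b ξ) = Rop A ξ (b ξ) := by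
      intro b hb hb'
      rw [Dop_apply, Rop_apply, Q_comm_zero A ξ hb hb', sub_zero, add_zero]
    intro a ha
    obtain ⟨a1, h1, a2, h2, hs1, hs2, hdec, hdec'⟩ := sa_decomp ha
    have e1 : a ξ = a1 ξ + Complex.I • a2 ξ := by rw [hdec]; rfl
    have e2 : (star a) ξ = a1 ξ - Complex.I • a2 ξ := by rw [hdec']; rfl
    rw [e1, e2, map_add, Dop_I, hsa a1 h1 hs1, hsa a2 h2 hs2, map_sub, map_smul]
    abel

end Pool.Agent.Helper43.TTF

end

section

open scoped InnerProductSpace Topology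

open ContinuousLinearMap Filter

open Pool.Agent.Helper23 Pool.Agent.Helper23.RBF

namespace Pool.Agent.Helper78.BC

universe u

namespace Transport

variable {H : Type u} [NormedAddCommGroup H] [InnerProductSpace ℂ H] [CompleteSpace H]

variable {K : Type u} [NormedAddCommGroup K] [InnerProductSpace ℂ K] [CompleteSpace K]

variable {A : VonNeumannAlgebra H} {ξ : H} {i : K →L[ℂ] H} {κ : K}

namespace Sub

variable (S : Sub A ξ i κ)

include S

lemma r_comm {x b : H →L[ℂ] H} (hx : x ∈ A) (hb : b ∈ A.commutant) :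
    r i b * r i x = r i x * r i b := by
  rw [S.r_mul' hx, S.r_mul hx, mem_comm_iff.1 hb x hx]

/-- the key lemma -/
theorem lift (hsep : ∀ a ∈ A, a ξ = 0 → a = 0) (T : K →L[ℂ] K)
    (hT : ∀ b ∈ A.commutant, T * r i b = r i b * T) : ∃ a ∈ A, ‖a‖ ≤ ‖T‖ ∧ r i a = T := by
  have hκ : i κ = ξ := S.vec
  have key : ∀ b ∈ A.commutant, ‖b (i (T κ))‖ ≤ ‖T‖ * ‖b ξ‖ := by
    intro b hb
    have hbb : star b * b ∈ A.commutant := mul_mem (star_mem hb) hb
    set c : K →L[ℂ] K := r i (star b * b) with hc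
    have hcq : ∀ k : K, ⟪k, c k⟫_ℂ = ⟪b (i k), b (i k)⟫_ℂ := by
      intro k
      rw [hc, r_apply, ← inner_i]
      change ⟪i k, (star b) (b (i k))⟫_ℂ = _
      rw [ContinuousLinearMap.star_eq_adjoint, adjoint_inner_right]
    have hcpos : (0 : K →L[ℂ] K) ≤ c := by
      rw [ContinuousLinearMap.nonneg_iff_isPositive]
      refine (ContinuousLinearMap.isPositive_iff_complex _).2 fun k => ?_
      have h1 : ⟪c k, k⟫_ℂ = ((‖b (i k)‖ ^ 2 : ℝ) : ℂ) := by
        have h2 := hcq k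
        have h3 : ⟪c k, k⟫_ℂ = (starRingEnd ℂ) ⟪k, c k⟫_ℂ := (inner_conj_symm _ _).symm
        rw [h3, h2, inner_self_eq_norm_sq_to_K]
        simp
      rw [h1]
      refine ⟨?_, ?_⟩
      · rw [RCLike.re_to_complex, Complex.ofReal_re]
      · rw [RCLike.re_to_complex, Complex.ofReal_re]
        positivity
    have hd2 : CFC.sqrt c * CFC.sqrt c = c := CFC.sqrt_mul_sqrt_self c hcpos
    have hcomm : Commute c T := (hT _ hbb).symm
    have hdT : Commute (CFC.sqrt c) T := by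
      unfold CFC.sqrt
      exact hcomm.cfcₙ_nnreal _
    have hds : star (CFC.sqrt c) = CFC.sqrt c := (IsSelfAdjoint.of_nonneg (CFC.sqrt_nonneg c)).star_eq
    set d := CFC.sqrt c with hd
    have hdk : ∀ k : K, ‖d k‖ = ‖b (i k)‖ := by
      intro k
      have h1 : ⟪d k, d k⟫_ℂ = ⟪b (i k), b (i k)⟫_ℂ := by
        rw [← hcq, ← hd2]
        change _ = ⟪k, d (d k)⟫_ℂ
        nth_rewrite 3 [← hds]
        rw [ContinuousLinearMap.star_eq_adjoint, adjoint_inner_right]
      rw [inner_self_eq_norm_sq_to_K, inner_self_eq_norm_sq_to_K] at h1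
      have h2 : ‖d k‖ ^ 2 = ‖b (i k)‖ ^ 2 := by exact_mod_cast h1
      exact (sq_eq_sq₀ (norm_nonneg _) (norm_nonneg _)).1 h2
    have h3 : d (T κ) = T (d κ) := congrArg (fun U : K →L[ℂ] K => U κ) hdT
    rw [← hdk, h3, ← hκ, ← hdk]
    exact T.le_opNorm _
  obtain ⟨a, ha, ha1, ha2⟩ := exists_op A.commutant (norm_nonneg T) (dense_of_separating A ξ hsep)
    key
  rw [VonNeumannAlgebra.commutant_commutant] at ha
  refine ⟨a, ha, ha2, ?_⟩
  have hcl : IsClosed {v : H | r i a (adjoint i v) = T (adjoint i v)} :=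
    isClosed_eq ((r i a).continuous.comp (adjoint i).continuous)
      (T.continuous.comp (adjoint i).continuous)
  have hsub : (orb A.commutant ξ : Set H) ⊆ {v : H | r i a (adjoint i v) = T (adjoint i v)} := by
    rintro _ ⟨b, hb, rfl⟩
    change r i a (adjoint i (b ξ)) = T (adjoint i (b ξ))
    have e1 : adjoint i (b ξ) = r i b κ := by rw [r_apply, hκ]
    have e2 : T (r i b κ) = r i b (T κ) := congrArg (fun U : K →L[ℂ] K => U κ) (hT b hb)
    have e3 : r i a (r i b κ) = r i b (r i a κ) :=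
      (congrArg (fun U : K →L[ℂ] K => U κ) (S.r_comm ha hb)).symm
    have e4 : r i a κ = T κ := by
      refine S.i_inj ?_
      rw [S.i_r ha, hκ]
      have := ha1 1 (one_mem _)
      exact this
    rw [e1, e2, e3, e4]
  ext k
  have h1 : i k ∈ closure (orb A.commutant ξ : Set H) := dense_of_separating A ξ hsep (i k)
  have h2 : r i a (adjoint i (i k)) = T (adjoint i (i k)) := (closure_minimal hsub hcl) h1
  rwa [S.isom] at h2

end Sub

variable (S : Sub A ξ i κ)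

include S

lemma mem_B (hsep : ∀ a ∈ A, a ξ = 0 → a = 0) (T : K →L[ℂ] K) :
    T ∈ B A i ↔ ∃ a ∈ A, r i a = T := by
  have h0 : T ∈ B A i ↔ ∀ g ∈ {c : K →L[ℂ] K | ∀ x ∈ A, c * r i x = r i x * c},
      g * T = T * g ∧ star g * T = T * star g := StarSubalgebra.mem_centralizer_iff ℂ
  rw [h0]
  constructor
  · intro h
    obtain ⟨a, ha, -, h1⟩ := S.lift hsep T fun b hb => (h (r i b) fun x hx => S.r_comm hx hb).1.symm
    exact ⟨a, ha, h1⟩
  · rintro ⟨a, ha, rfl⟩ g hg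
    refine ⟨hg a ha, ?_⟩
    have h1 := congrArg star (hg (star a) (star_mem ha))
    rw [star_mul, star_mul, Sub.r_star, star_star] at h1
    exact h1.symm

lemma exists_lift (hsep : ∀ a ∈ A, a ξ = 0 → a = 0) {T : K →L[ℂ] K} (hT : T ∈ B A i) :
    ∃ a ∈ A, ‖a‖ ≤ ‖T‖ ∧ r i a = T := by
  obtain ⟨a, ha, rfl⟩ := (mem_B S hsep T).1 hT
  exact S.lift hsep _ fun b hb => (S.r_comm ha hb).symm

lemma r_mem (hsep : ∀ a ∈ A, a ξ = 0 → a = 0) {a : H →L[ℂ] H} (ha : a ∈ A) : r i a ∈ B A i :=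
  (mem_B S hsep _).2 ⟨a, ha, rfl⟩

lemma dense_B (hsep : ∀ a ∈ A, a ξ = 0 → a = 0) : Dense (orb (B A i) κ : Set K) := by
  intro k
  rw [Metric.mem_closure_iff]
  intro ε hε
  obtain ⟨a, ha, h1⟩ := S.cyc k ε hε
  refine ⟨r i a κ, ⟨r i a, r_mem S hsep ha, rfl⟩, ?_⟩
  rw [dist_eq_norm, ← S.i_norm, map_sub, S.i_r ha, S.vec, norm_sub_rev]
  exact h1

lemma sep_B (hsep : ∀ a ∈ A, a ξ = 0 → a = 0) : ∀ b ∈ B A i, b κ = 0 → b = 0 := by
  intro b hb hbκ
  obtain ⟨a, ha, rfl⟩ := (mem_B S hsep b).1 hb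
  have h1 : a ξ = 0 := by
    rw [← S.vec, ← S.i_r ha, hbκ, map_zero]
  rw [hsep a ha h1]
  ext k
  change adjoint i ((0 : H →L[ℂ] H) (i k)) = (0 : K →L[ℂ] K) k
  simp

lemma typeIII (hsep : ∀ a ∈ A, a ξ = 0 → a = 0) (hA : TypeIIIOne A) : TypeIIIOne (B A i) := by
  obtain ⟨⟨v, hv, w, hw, hvv, hww, hvw⟩, h2⟩ := hA
  refine ⟨⟨r i v, r_mem S hsep hv, r i w, r_mem S hsep hw, ?_, ?_, ?_⟩, ?_⟩
  · rw [Sub.r_star, S.r_mul' hv, hvv, S.r_one]
  · rw [Sub.r_star, S.r_mul' hw, hww, S.r_one]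
  · rw [Sub.r_star, S.r_mul' hw, hvw]
    ext k
    change adjoint i ((0 : H →L[ℂ] H) (i k)) = (0 : K →L[ℂ] K) k
    simp
  · intro η η' ζ ζ' h3 h4 ε hε
    obtain ⟨u, hu, hu1, hu2, hu3⟩ := h2 (i η) (i η') (i ζ) (i ζ')
      (by rw [S.i_norm, S.i_norm]; exact h3) (by rw [S.i_norm, S.i_norm]; exact h4) ε hε
    refine ⟨r i u, r_mem S hsep hu, ?_, ?_, fun x hx => ?_⟩
    · rw [Sub.r_star, S.r_mul' hu, hu1, S.r_one]
    · rw [Sub.r_star, S.r_mul hu, hu2, S.r_one]
    · obtain ⟨a, ha, ha1, rfl⟩ := exists_lift S hsep hx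
      rw [inner_r S, inner_r S, inner_r S, inner_r S, S.i_r hu, S.i_r hu]
      exact (hu3 a ha).trans (mul_le_mul_of_nonneg_left ha1 hε.le)

end Transport

end Pool.Agent.Helper78.BC

end

section

open scoped InnerProductSpace Topology BoundedContinuousFunction

open ContinuousLinearMap Filter MeasureTheory

namespace Pool.Agent.Helper88.CS

open Pool.Agent.Helper23

variable {H : Type*} [NormedAddCommGroup H] [InnerProductSpace ℂ H] [CompleteSpace H]

variable {A : VonNeumannAlgebra H} {J : H →L[ℝ] H}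

namespace JUniqAux

open Pool.Agent.Helper43.TTF Pool.Agent.Helper23.TTA Pool.Agent.Helper70.U8

variable {κ : H}

/-- uniqueness of the operators of Rieffel and van Daele -/
lemma uniq {R' : H →L[ℂ] H} {D' : H →L[ℝ] H}
    (hconj : ∀ (c : ℂ) (v : H), D' (c • v) = (starRingEnd ℂ) c • D' v)
    (h1 : ∀ a ∈ A, D' (a κ) = (2 : ℂ) • (star a) κ - R' ((star a) κ))
    (h2 : ∀ a ∈ A.commutant, D' (a κ) = R' ((star a) κ))
    (key : ∀ v, P A κ v = 0 →
      v ∈ closure {x : H | ∃ b ∈ A.commutant, star b = b ∧ x = Complex.I • b κ}) (v : H) :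
    R' v = Rop A κ v ∧ D' v = Dop A κ v := by
  have hK : ∀ u ∈ K A κ, R' u + D' u = (2 : ℂ) • u := by
    intro u hu
    have hcl : IsClosed {u : H | R' u + D' u = (2 : ℂ) • u} :=
      isClosed_eq (by fun_prop) (by fun_prop)
    have hsub : (TTA.K0 A κ : Set H) ⊆ {u : H | R' u + D' u = (2 : ℂ) • u} := by
      rintro _ ⟨a, ha, ha', rfl⟩
      change R' (a κ) + D' (a κ) = (2 : ℂ) • a κ
      rw [h1 a ha, ha']
      abel
    exact closure_minimal hsub hcl hu
  have h0 : ∀ u, P A κ u = 0 → R' u + D' u = 0 := by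
    intro u hu
    have hcl : IsClosed {u : H | R' u + D' u = 0} :=
      isClosed_eq (by fun_prop) (by fun_prop)
    have hsub : {x : H | ∃ b ∈ A.commutant, star b = b ∧ x = Complex.I • b κ} ⊆
        {u : H | R' u + D' u = 0} := by
      rintro _ ⟨b, hb, hb', rfl⟩
      change R' (Complex.I • b κ) + D' (Complex.I • b κ) = 0
      rw [hconj, h2 b hb, hb', map_smul, Complex.conj_I, neg_smul, add_neg_cancel]
    exact closure_minimal hsub hcl (key u hu)
  have hP : ∀ u, R' u + D' u = (2 : ℂ) • P A κ u := by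
    intro u
    have e1 := hK _ (P_mem A κ u)
    have e2 := h0 (u - P A κ u) (by rw [map_sub, P_P, sub_self])
    rw [map_sub, map_sub] at e2
    calc R' u + D' u = (R' u - R' (P A κ u) + (D' u - D' (P A κ u))) +
          (R' (P A κ u) + D' (P A κ u)) := by abel
      _ = _ := by rw [e2, e1, zero_add]
  have hQ : R' v - D' v = (2 : ℂ) • Q A κ v := by
    have e1 := hP (Complex.I • v)
    rw [hconj, map_smul, Complex.conj_I, ← I_smul_Q, smul_comm (2 : ℂ) Complex.I, neg_smul,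
      ← sub_eq_add_neg, ← smul_sub] at e1
    exact smul_right_injective H Complex.I_ne_zero e1
  have hP' := hP v
  have h3 : (2 : ℂ) • R' v = (2 : ℂ) • Rop A κ v := by
    rw [Rop_apply, smul_add, ← hP', ← hQ, two_smul]
    abel
  have h4 : (2 : ℂ) • D' v = (2 : ℂ) • Dop A κ v := by
    rw [Dop_apply, smul_sub, ← hP', ← hQ, two_smul]
    abel
  exact ⟨smul_right_injective H two_ne_zero h3, smul_right_injective H two_ne_zero h4⟩

end JUniqAux

end Pool.Agent.Helper88.CS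

end

section

open scoped InnerProductSpace Topology ENNReal BoundedContinuousFunction

open ContinuousLinearMap Filter MeasureTheory

namespace Pool.Agent.Helper23.ED

open Pool.Agent.Helper23 Pool.Agent.Helper23.RBF

open Pool.Agent.Helper78.BC.Transport (Sub r)

universe u

variable {H : Type u} [NormedAddCommGroup H] [InnerProductSpace ℂ H] [CompleteSpace H]

variable {K : Type u} [NormedAddCommGroup K] [InnerProductSpace ℂ K] [CompleteSpace K]

variable {L : Type u} [NormedAddCommGroup L] [InnerProductSpace ℂ L] [CompleteSpace L]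

variable {N : VonNeumannAlgebra H} {ψ : (H →L[ℂ] H) → ℝ≥0∞} {ξ : H} {i : K →L[ℂ] H} {κ : K}
  {Λ : (H →L[ℂ] H) → L} {ρ : (H →L[ℂ] H) → (L →L[ℂ] L)}

open Pool.Agent.Helper78.BC in
lemma NgF_mem (Sb : Sub N ξ i κ) (hsep : ∀ a ∈ N, a ξ = 0 → a = 0)
    (hψ : IsNSFWeight N ψ) (hG : Gns N ψ Λ ρ) {X : K →L[ℂ] K}
    (hX : X ∈ (Transport.B N i).commutant) {p : H →L[ℂ] H} (hp : p ∈ N)
    (h1 : i (X κ) = p ξ) {q : K × L} (hq : q ∈ Gp N ψ ξ i Λ) :
    ((X q.1, ρ p q.2) : K × L) ∈ Gp N ψ ξ i Λ := by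
  obtain ⟨a, ha, h2, h3⟩ := hq
  refine ⟨a * p, Dm_mul hψ ha hp, ?_, ?_⟩
  · have h4 : q.1 = r i a κ := Sb.i_inj (by rw [h2, Sb.i_r ha.1, Sb.vec])
    have h5 : X (r i a κ) = r i a (X κ) :=
      (commute_apply (Transport.r_mem Sb hsep ha.1) hX κ).symm
    change i (X q.1) = a (p ξ)
    rw [h4, h5, Sb.i_r ha.1, h1]
  · change ρ p q.2 = Λ (a * p)
    rw [h3, hG.mul p hp a ha]

open Pool.Agent.Helper78.BC in
theorem n_rel' (Sb : Sub N ξ i κ) (hsep : ∀ a ∈ N, a ξ = 0 → a = 0) (hψ : IsNSFWeight N ψ)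
    (hG : Gns N ψ Λ ρ) {T : K →L[ℂ] K} {S : K →L[ℂ] L} (hT : GT (Gp N ψ ξ i Λ) T S)
    {X X' : K →L[ℂ] K} (hX : X ∈ (Transport.B N i).commutant)
    (hX' : X' ∈ (Transport.B N i).commutant) {p : H →L[ℂ] H} (hp : p ∈ N)
    (h1 : i (X κ) = p ξ) (h2 : i ((star X') κ) = (star p) ξ) (v : K) :
    X (T v) - T (X (T v)) = T (X' (v - T v)) := by
  obtain ⟨Γ, hΓ⟩ := Gp_sub Sb hψ hG
  have hT' : GT (Γ : Set (K × L)) T S := by rw [hΓ]; exact hT
  have hmem : ∀ q : K × L, q ∈ Γ → q ∈ Gp N ψ ξ i Λ := fun q hq => by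
    rw [← hΓ]
    exact hq
  refine hT'.rel X X' (ρ p) (fun q hq => ?_) (fun q hq => ?_) v
  · rw [hΓ]
    exact subset_closure (NgF_mem Sb hsep hψ hG hX hp h1 (hmem q hq))
  · rw [hΓ, hG.star p hp]
    exact subset_closure
      (NgF_mem Sb hsep hψ hG (star_mem hX') (star_mem hp) h2 (hmem q hq))

end Pool.Agent.Helper23.ED

end

section

open scoped InnerProductSpace Topology ENNReal BoundedContinuousFunction

open ContinuousLinearMap Filter MeasureTheory

namespace Pool.Agent.Helper23.ED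

open Pool.Agent.Helper23 Pool.Agent.Helper23.RBF

open Pool.Agent.Helper78.BC.Transport (Sub r)

universe u

variable {H : Type u} [NormedAddCommGroup H] [InnerProductSpace ℂ H] [CompleteSpace H]

variable {K : Type u} [NormedAddCommGroup K] [InnerProductSpace ℂ K] [CompleteSpace K]

variable {M N : VonNeumannAlgebra H} {E : (H →L[ℂ] H) → (H →L[ℂ] H)} {ξ : H}
  {i : K →L[ℂ] H} {κ : K}

namespace CoC

lemma expB_zero : expB 0 = 1 := by
  ext ρ
  change Complex.exp (((0 * ρ : ℝ) : ℂ) * Complex.I) = 1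
  simp

lemma expB_add (s t : ℝ) : expB (s + t) = expB s * expB t := by
  ext ρ
  change Complex.exp ((((s + t) * ρ : ℝ) : ℂ) * Complex.I) =
    Complex.exp (((s * ρ : ℝ) : ℂ) * Complex.I) * Complex.exp (((t * ρ : ℝ) : ℂ) * Complex.I)
  rw [← Complex.exp_add]
  congr 1
  push_cast
  ring

lemma V_add (Ψ : (ℝ →ᵇ ℂ) →⋆ₐ[ℂ] (H →L[ℂ] H)) (s t : ℝ) :
    Ψ (expB (s + t)) = Ψ (expB s) * Ψ (expB t) := by
  rw [expB_add, map_mul]

lemma V_inv (Ψ : (ℝ →ᵇ ℂ) →⋆ₐ[ℂ] (H →L[ℂ] H)) (t : ℝ) :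
    Ψ (expB t) * Ψ (expB (-t)) = 1 := by
  rw [← V_add, add_neg_cancel, expB_zero, map_one]

lemma V_inv' (Ψ : (ℝ →ᵇ ℂ) →⋆ₐ[ℂ] (H →L[ℂ] H)) (t : ℝ) :
    Ψ (expB (-t)) * Ψ (expB t) = 1 := by
  rw [← V_add, neg_add_cancel, expB_zero, map_one]

/-- conjugation by the modular group -/
lemma r_conj (Sb : Sub N ξ i κ) {Ψ : (ℝ →ᵇ ℂ) →⋆ₐ[ℂ] (H →L[ℂ] H)}
    {Ψ₀ : (ℝ →ᵇ ℂ) →⋆ₐ[ℂ] (K →L[ℂ] K)}
    (hi : ∀ t v, i (Ψ₀ (expB t) v) = Ψ (expB t) (i v)) {x : H →L[ℂ] H} (hx : x ∈ N) (t : ℝ) :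
    r i (Ψ (expB t) * x * Ψ (expB (-t))) = Ψ₀ (expB t) * r i x * Ψ₀ (expB (-t)) := by
  ext k
  change adjoint i (Ψ (expB t) (x (Ψ (expB (-t)) (i k)))) =
    Ψ₀ (expB t) (r i x (Ψ₀ (expB (-t)) k))
  rw [← hi, ← Sb.i_r hx, ← hi, Sb.isom]

end CoC

open CoC

open Pool.Agent.Helper78.BC in
theorem transfer (S : Setting M N E ξ) (Sb : Sub N ξ i κ) {R : H →L[ℂ] H} {D : H →L[ℝ] H}
    {Ψ : (ℝ →ᵇ ℂ) →⋆ₐ[ℂ] (H →L[ℂ] H)} (hΨ : Modular M ξ R D Ψ)
    (hN : ∀ (t : ℝ), ∀ a ∈ N, Ψ (expB t) * a * Ψ (expB (-t)) ∈ N)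
    {Ψ₀ Ψ' : (ℝ →ᵇ ℂ) →⋆ₐ[ℂ] (K →L[ℂ] K)} (h₀ : UG (fun t => Ψ₀ (expB t)))
    (hi : ∀ t v, i (Ψ₀ (expB t) v) = Ψ (expB t) (i v)) (h' : UG (fun t => Ψ' (expB t)))
    (hc : ∀ t, Ψ' (expB t) * Ψ₀ (expB (-t)) ∈ Transport.B N i) :
    ∃ c : ℝ → H →L[ℂ] H, (∀ t, c t ∈ N) ∧
      (∀ t, star (c t) * c t = 1 ∧ c t * star (c t) = 1) ∧
      (∀ v, Continuous fun t => c t v) ∧
      (∀ s t, c (s + t) = c s * (Ψ (expB s) * c t * Ψ (expB (-s)))) ∧
      (∀ t, r i (c t) = Ψ' (expB t) * Ψ₀ (expB (-t))) ∧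
      ∀ u ∈ N, ∀ (t : ℝ) (z : ℂ), (r i u * Ψ' (expB t) = z • (Ψ' (expB t) * r i u) ↔
        u * (c t * Ψ (expB t)) = z • (c t * Ψ (expB t) * u)) := by
  have hsep : ∀ a ∈ N, a ξ = 0 → a = 0 := fun a ha h => S.sep a (S.le a ha) h
  have hex : ∀ t : ℝ, ∃ a ∈ N, ‖a‖ ≤ ‖Ψ' (expB t) * Ψ₀ (expB (-t))‖ ∧
      r i a = Ψ' (expB t) * Ψ₀ (expB (-t)) := fun t =>
    Transport.exists_lift Sb hsep (hc t)
  choose c hcN _ hcr using hex
  have hst : ∀ t, star (Ψ' (expB t) * Ψ₀ (expB (-t))) = Ψ₀ (expB t) * Ψ' (expB (-t)) := by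
    intro t
    rw [star_mul]
    have e1 : star (Ψ₀ (expB (-t))) = Ψ₀ (expB t) := by
      have := h₀.star (-t)
      simpa using this
    have e2 : star (Ψ' (expB t)) = Ψ' (expB (-t)) := h'.star t
    rw [e1, e2]
  have hun : ∀ t, star (c t) * c t = 1 ∧ c t * star (c t) = 1 := by
    intro t
    constructor
    · refine Sb.r_inj hsep (mul_mem (star_mem (hcN t)) (hcN t)) (one_mem _) ?_
      rw [← Sb.r_mul' (hcN t), ← Transport.Sub.r_star, hcr, hst, Sb.r_one]
      calc Ψ₀ (expB t) * Ψ' (expB (-t)) * (Ψ' (expB t) * Ψ₀ (expB (-t)))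
          = Ψ₀ (expB t) * (Ψ' (expB (-t)) * Ψ' (expB t)) * Ψ₀ (expB (-t)) := by
            simp only [mul_assoc]
        _ = 1 := by rw [V_inv', mul_one, V_inv]
    · refine Sb.r_inj hsep (mul_mem (hcN t) (star_mem (hcN t))) (one_mem _) ?_
      rw [← Sb.r_mul (hcN t), ← Transport.Sub.r_star, hcr, hst, Sb.r_one]
      calc Ψ' (expB t) * Ψ₀ (expB (-t)) * (Ψ₀ (expB t) * Ψ' (expB (-t)))
          = Ψ' (expB t) * (Ψ₀ (expB (-t)) * Ψ₀ (expB t)) * Ψ' (expB (-t)) := by
            simp only [mul_assoc]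
        _ = 1 := by rw [V_inv', mul_one, V_inv]
  have hle : ∀ t v, ‖c t v‖ ≤ ‖v‖ := fun t v => norm_le_one (hun t).1 v
  refine ⟨c, hcN, hun, ?_, ?_, hcr, ?_⟩
  · -- continuity
    have hk : Continuous fun t : ℝ => i (Ψ' (expB t) (Ψ₀ (expB (-t)) κ)) := by
      refine i.continuous.comp ?_
      have hn : ∀ t v, ‖Ψ' (expB t) v‖ ≤ ‖v‖ := fun t v => norm_le_one (by
        have e2 : star (Ψ' (expB t)) = Ψ' (expB (-t)) := h'.star t
        rw [e2, V_inv']) v
      have hneg : Continuous fun t : ℝ => Ψ₀ (expB (-t)) κ := (h₀.cont κ).comp continuous_neg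
      rw [continuous_iff_continuousAt]
      intro t₀
      have h1 : Tendsto (fun t : ℝ => Ψ' (expB t) (Ψ₀ (expB (-t₀)) κ)) (𝓝 t₀)
          (𝓝 (Ψ' (expB t₀) (Ψ₀ (expB (-t₀)) κ))) := (h'.cont _).continuousAt
      have h2 : Tendsto (fun t : ℝ => Ψ' (expB t) (Ψ₀ (expB (-t)) κ - Ψ₀ (expB (-t₀)) κ)) (𝓝 t₀)
          (𝓝 0) := by
        refine squeeze_zero_norm (fun t => hn t _) ?_
        have h3 : Tendsto (fun t : ℝ => Ψ₀ (expB (-t)) κ - Ψ₀ (expB (-t₀)) κ) (𝓝 t₀)
            (𝓝 (Ψ₀ (expB (-t₀)) κ - Ψ₀ (expB (-t₀)) κ)) :=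
          (hneg.continuousAt (x := t₀)).sub tendsto_const_nhds
        rw [sub_self] at h3
        have h4 := h3.norm
        rwa [norm_zero] at h4
      have h5 := h1.add h2
      rw [add_zero] at h5
      refine h5.congr fun t => ?_
      rw [map_sub]
      abel
    have hd : Dense (orb N.commutant ξ : Set H) := dense_of_separating N ξ hsep
    have horb : ∀ b ∈ N.commutant, Continuous fun t => c t (b ξ) := by
      intro b hb
      have h1 : (fun t => c t (b ξ)) =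
          fun t => b (i (Ψ' (expB t) (Ψ₀ (expB (-t)) κ))) := by
        funext t
        rw [commute_apply (hcN t) hb]
        have h2 : i (r i (c t) κ) = c t ξ := by rw [Sb.i_r (hcN t), Sb.vec]
        rw [← h2, hcr]
        rfl
      rw [h1]
      exact b.continuous.comp hk
    intro v
    refine continuous_of_uniform_approx_of_continuous fun U hU => ?_
    obtain ⟨ε, hε, hεU⟩ := Metric.mem_uniformity_dist.1 hU
    obtain ⟨_, ⟨b, hb, rfl⟩, h1⟩ := Metric.mem_closure_iff.1 (hd v) ε hε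
    refine ⟨fun t => c t (b ξ), horb b hb, fun t => hεU ?_⟩
    rw [dist_eq_norm, ← map_sub]
    refine (hle t _).trans_lt ?_
    rwa [← dist_eq_norm]
  · -- cocycle
    intro s t
    have hm := hN s (c t) (hcN t)
    refine Sb.r_inj hsep (hcN _) (mul_mem (hcN s) hm) ?_
    rw [← Sb.r_mul (hcN s), r_conj Sb hi (hcN t), hcr, hcr, hcr]
    calc Ψ' (expB (s + t)) * Ψ₀ (expB (-(s + t)))
        = Ψ' (expB s) * Ψ' (expB t) * (Ψ₀ (expB (-t)) * Ψ₀ (expB (-s))) := by
          rw [V_add, neg_add_rev, V_add]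
      _ = Ψ' (expB s) * (Ψ₀ (expB (-s)) * Ψ₀ (expB s)) * (Ψ' (expB t) * Ψ₀ (expB (-t))) *
            Ψ₀ (expB (-s)) := by
          rw [V_inv', mul_one]
          simp only [mul_assoc]
      _ = _ := by simp only [mul_assoc]
  · -- commutation
    intro u hu t z
    have hm := hN t u hu
    have hE : Ψ' (expB t) = r i (c t) * Ψ₀ (expB t) := by
      rw [hcr, mul_assoc, V_inv', mul_one]
    have hF : Ψ₀ (expB t) * r i u = r i (Ψ (expB t) * u * Ψ (expB (-t))) * Ψ₀ (expB t) := by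
      rw [r_conj Sb hi hu, mul_assoc, V_inv', mul_one]
    have hL : r i u * Ψ' (expB t) = r i (u * c t) * Ψ₀ (expB t) := by
      rw [hE, ← mul_assoc, Sb.r_mul hu]
    have hR : z • (Ψ' (expB t) * r i u) =
        r i (z • (c t * (Ψ (expB t) * u * Ψ (expB (-t))))) * Ψ₀ (expB t) := by
      rw [hE, mul_assoc, hF, ← mul_assoc, Sb.r_mul (hcN t), r_smul, smul_mul_assoc]
    have hG : z • (c t * Ψ (expB t) * u) =
        (z • (c t * (Ψ (expB t) * u * Ψ (expB (-t))))) * Ψ (expB t) := by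
      rw [smul_mul_assoc, mul_assoc (c t), mul_assoc (c t), mul_assoc (Ψ (expB t) * u), V_inv',
        mul_one]
    rw [hL, hR, hG, ← mul_assoc u]
    constructor
    · intro h
      have h1 : r i (u * c t) = r i (z • (c t * (Ψ (expB t) * u * Ψ (expB (-t))))) := by
        have h2 := congrArg (fun T => T * Ψ₀ (expB (-t))) h
        rwa [mul_assoc, V_inv, mul_one, mul_assoc, V_inv, mul_one] at h2
      rw [Sb.r_inj hsep (mul_mem hu (hcN t)) (smul_mem' z (mul_mem (hcN t) hm)) h1]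
    · intro h
      have h1 : u * c t = z • (c t * (Ψ (expB t) * u * Ψ (expB (-t)))) := by
        have h2 := congrArg (fun T => T * Ψ (expB (-t))) h
        rwa [mul_assoc (u * c t), V_inv, mul_one, mul_assoc (z • _), V_inv, mul_one] at h2
      rw [h1]

end Pool.Agent.Helper23.ED

end

section

open scoped InnerProductSpace Topology ENNReal BoundedContinuousFunction

open ContinuousLinearMap Filter MeasureTheory

namespace Pool.Agent.Helper23.ED

open Pool.Agent.Helper23 Pool.Agent.Helper23.RBF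

open Pool.Agent.Helper78.BC.Transport (Sub r)

universe u

open Pool.Agent.Helper23.TTA (Rop Dop)

variable {H : Type u} [NormedAddCommGroup H] [InnerProductSpace ℂ H] [CompleteSpace H]

variable {K : Type u} [NormedAddCommGroup K] [InnerProductSpace ℂ K] [CompleteSpace K]

variable {M N : VonNeumannAlgebra H} {E : (H →L[ℂ] H) → (H →L[ℂ] H)}

variable {ξ : H} {i : K →L[ℂ] H} {κ : K}

namespace TrA

open Pool.Agent.Helper78.BC in
lemma i_K (S : Setting M N E ξ) (Sb : Sub N ξ i κ) {u : K}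
    (hu : u ∈ TTA.K (Transport.B N i) κ) : i u ∈ TTA.K M ξ := by
  have hsep : ∀ a ∈ N, a ξ = 0 → a = 0 := fun a ha h => S.sep a (S.le a ha) h
  have hcl : IsClosed {u : K | i u ∈ TTA.K M ξ} :=
    (TTA.K_closed M ξ).preimage i.continuous
  have hsub : (TTA.K0 (Transport.B N i) κ : Set K) ⊆ {u : K | i u ∈ TTA.K M ξ} := by
    rintro _ ⟨b, hb, hb', rfl⟩
    obtain ⟨a, ha, -, rfl⟩ := Transport.exists_lift Sb hsep hb
    have ha' : star a = a := by
      refine Sb.r_inj hsep (star_mem ha) ha ?_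
      rw [← Transport.Sub.r_star, hb']
    change i (r i a κ) ∈ TTA.K M ξ
    rw [Sb.i_r ha, Sb.vec]
    exact TTA.mem_K_of M ξ (S.le _ ha) ha'
  exact closure_minimal hsub hcl hu

end TrA

end Pool.Agent.Helper23.ED

end
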