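import Pool.Agent.Helper23.FA.Ns
import Pool.Agent.Helper23.FA.L00_00
import Pool.Agent.Helper23.FA.L00_01
import Pool.Agent.Helper23.FA.L00_02
import Pool.Agent.Helper23.FA.L00_05
import Pool.Agent.Helper23.FA.L00_06
import Pool.Agent.Helper23.FA.L00_08
import Pool.Agent.Helper23.FA.L00_11
import Pool.Agent.Helper23.FA.L00_15
import Pool.Agent.Helper23.FA.L00_16
import Pool.Agent.Helper23.FA.L00_18
import Pool.Agent.Helper23.FA.L00_19

/-!
Parts of Helper43.TTF.A, Helper43.TTF.C, Helper43.TTF.E, Helper43.TTF.F, Helper68.G2b1, Helper68.G2b2, Helper70.U8a, Helper88.CS.Defs, Helper88.CS.Cone, Helper88.CS.JUniq, Helper88.CS.SuppB, Helper88.CS.Cent, Helper88.CS.CornerSpec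
-/

section

open scoped InnerProductSpace Topology BoundedContinuousFunction

open ContinuousLinearMap Filter MeasureTheory

namespace Pool.Agent.Helper43.TTF

open Pool.Agent.Helper23

variable {H : Type*} [NormedAddCommGroup H] [InnerProductSpace ℂ H] [CompleteSpace H]

/-- the functional calculus part of the modular data -/
structure FC (R : H →L[ℂ] H) (D : H →L[ℝ] H) (Ψ : (ℝ →ᵇ ℂ) →⋆ₐ[ℂ] (H →L[ℂ] H)) : Prop where
  psi_FR : Ψ FR = R
  psi_comm : ∀ X : H →L[ℂ] H, X * R = R * X → ∀ G, X * Ψ G = Ψ G * X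
  psi_D : ∀ G G' : ℝ →ᵇ ℂ, (∀ ρ, G' ρ = (starRingEnd ℂ) (G (-ρ))) →
    ∀ v : H, D (Ψ G v) = Ψ G' (D v)
  psi_cont : ∀ (G : ℕ → (ℝ →ᵇ ℂ)) (G₀ : ℝ →ᵇ ℂ) (C : ℝ), (∀ n, ‖G n‖ ≤ C) →
    (∀ L : ℝ, TendstoUniformlyOn (fun n ρ => G n ρ) (fun ρ => G₀ ρ) atTop (Set.Icc (-L) L)) →
    ∀ v : H, Tendsto (fun n => Ψ (G n) v) atTop (𝓝 (Ψ G₀ v))

@[simp] lemma expB_apply (t ρ : ℝ) : expB t ρ = Complex.exp ((t * ρ : ℝ) * Complex.I) := rfl

end Pool.Agent.Helper43.TTF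

end

section

open scoped InnerProductSpace Topology BoundedContinuousFunction

open ContinuousLinearMap Filter MeasureTheory

namespace Pool.Agent.Helper43.TTF

open Pool.Agent.Helper23

variable {H : Type*} [NormedAddCommGroup H] [InnerProductSpace ℂ H] [CompleteSpace H]

variable {A : VonNeumannAlgebra H} {ξ : H}

variable {R : H →L[ℂ] H} {D : H →L[ℝ] H} {Ψ : (ℝ →ᵇ ℂ) →⋆ₐ[ℂ] (H →L[ℂ] H)}

lemma psi_star (Ψ : (ℝ →ᵇ ℂ) →⋆ₐ[ℂ] (H →L[ℂ] H)) (G : ℝ →ᵇ ℂ) (v w : H) :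
    ⟪Ψ G v, w⟫_ℂ = ⟪v, Ψ (star G) w⟫_ℂ := by
  rw [map_star, inner_star_right]

lemma T_symm (v w : H) : ⟪Ψ FT v, w⟫_ℂ = ⟪v, Ψ FT w⟫_ℂ := by
  rw [psi_star, FT_star]

end Pool.Agent.Helper43.TTF

end

section

open scoped InnerProductSpace Topology BoundedContinuousFunction

open ContinuousLinearMap Filter MeasureTheory

namespace Pool.Agent.Helper43.TTF

open Pool.Agent.Helper23

variable {H : Type*} [NormedAddCommGroup H] [InnerProductSpace ℂ H] [CompleteSpace H]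

lemma kB_a (n : ℕ) (t : ℝ) : expB t * ctB n = FT * kB n t := by
  ext ρ
  rw [BoundedContinuousFunction.mul_apply, BoundedContinuousFunction.mul_apply, expB_apply,
    ctB_apply, FT_apply, kB_apply]
  have h : ((Real.cosh (ρ / 2) : ℝ) : ℂ) ≠ 0 := by
    exact_mod_cast (Real.cosh_pos _).ne'
  push_cast at h ⊢
  field_simp

lemma kB_b (n : ℕ) (t : ℝ) :
    (2 - FR) * kB n t = ez ((n : ℝ) + 1) (t - Complex.I / 2) * ctB n := by
  ext ρ
  rw [BoundedContinuousFunction.mul_apply, BoundedContinuousFunction.mul_apply,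
    BoundedContinuousFunction.sub_apply, FR_apply, ctB_apply, ez_apply, kB_apply, two_bcf]
  rcases le_total ((n : ℝ) + 1) |ρ| with h | h
  · rw [ct_zero h]
    simp
  · rw [gt_eq h]
    have h1 : Complex.exp (Complex.I * (t - Complex.I / 2) * (ρ : ℝ)) =
        Complex.exp ((t * ρ : ℝ) * Complex.I) * ((Real.exp (ρ / 2) : ℝ) : ℂ) := by
      rw [Complex.ofReal_exp, ← Complex.exp_add]
      congr 1
      push_cast
      ring_nf
      rw [Complex.I_sq]
      ring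
    have h2 : (2 - 2 / (1 + Real.exp ρ)) * Real.cosh (ρ / 2) = Real.exp (ρ / 2) := by
      rw [cosh_half]
      have h1 : Real.exp ρ = Real.exp (ρ / 2) * Real.exp (ρ / 2) := by
        rw [← Real.exp_add]; ring_nf
      have h2 : (0 : ℝ) < Real.exp (ρ / 2) := Real.exp_pos _
      have h4 : (0 : ℝ) < 1 + Real.exp ρ := by positivity
      rw [h1] at h4 ⊢
      field_simp
      ring
    rw [h1, ← h2]
    push_cast
    ring

lemma kB_c (n : ℕ) (t : ℝ) :
    FR * kB n t = ez ((n : ℝ) + 1) (t + Complex.I / 2) * ctB n := by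
  ext ρ
  rw [BoundedContinuousFunction.mul_apply, BoundedContinuousFunction.mul_apply,
    FR_apply, ctB_apply, ez_apply, kB_apply]
  rcases le_total ((n : ℝ) + 1) |ρ| with h | h
  · rw [ct_zero h]
    simp
  · rw [gt_eq h]
    have h1 : Complex.exp (Complex.I * (t + Complex.I / 2) * (ρ : ℝ)) =
        Complex.exp ((t * ρ : ℝ) * Complex.I) * ((Real.exp (-(ρ / 2)) : ℝ) : ℂ) := by
      rw [Complex.ofReal_exp, ← Complex.exp_add]
      congr 1
      push_cast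
      ring_nf
      rw [Complex.I_sq]
      ring
    have h2 : (2 / (1 + Real.exp ρ)) * Real.cosh (ρ / 2) = Real.exp (-(ρ / 2)) := by
      rw [cosh_half, Real.exp_neg]
      have h2 : (0 : ℝ) < Real.exp (ρ / 2) := Real.exp_pos _
      have h4 : (0 : ℝ) < 1 + Real.exp ρ := by positivity
      field_simp
    rw [h1, ← h2]
    push_cast
    ring

lemma expB_star (t : ℝ) : star (expB t) = expB (-t) := by
  ext ρ
  rw [BoundedContinuousFunction.star_apply, expB_apply, expB_apply, RCLike.star_def,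
    ← Complex.exp_conj, map_mul, Complex.conj_ofReal, Complex.conj_I]
  congr 1
  push_cast
  ring

variable {R : H →L[ℂ] H} {D : H →L[ℝ] H} {Ψ : (ℝ →ᵇ ℂ) →⋆ₐ[ℂ] (H →L[ℂ] H)} {J : H →L[ℝ] H}

lemma psi_b (h : FC R D Ψ) (n : ℕ) (t : ℝ) (v : H) :
    (2 : ℂ) • Ψ (kB n t) v - R (Ψ (kB n t) v) =
      Ψ (ez ((n : ℝ) + 1) (t - Complex.I / 2)) (Ψ (ctB n) v) := by
  rw [← psi_mul_apply, ← kB_b, psi_mul_apply, map_sub, h.psi_FR, psi_two, sub_apply, smul_apply,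
    one_apply_eq_self]

lemma psi_c (h : FC R D Ψ) (n : ℕ) (t : ℝ) (v : H) :
    R (Ψ (kB n t) v) = Ψ (ez ((n : ℝ) + 1) (t + Complex.I / 2)) (Ψ (ctB n) v) := by
  rw [← psi_mul_apply, ← kB_c, psi_mul_apply, h.psi_FR]

lemma R_symm (h : FC R D Ψ) (v w : H) : ⟪v, R w⟫_ℂ = ⟪R v, w⟫_ℂ := by
  have hs : star FR = FR := by
    ext ρ
    rw [BoundedContinuousFunction.star_apply, FR_apply]
    exact Complex.conj_ofReal _
  rw [← h.psi_FR, psi_star, hs]

lemma R_symm' (h : FC R D Ψ) (v w : H) : ⟪v, (2 : ℂ) • w - R w⟫_ℂ = ⟪(2 : ℂ) • v - R v, w⟫_ℂ := by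
  rw [inner_sub_right, inner_sub_left, R_symm h, inner_smul_left, inner_smul_right,
    Complex.conj_ofNat]

lemma boundary (h : FC R D Ψ) (hJ : JD D Ψ J) {x' x : H →L[ℂ] H} {β : ℝ}
    (hx : ∀ v : H, D (x' (D v)) =
      ((Real.exp (-β / 2) : ℝ) : ℂ) • ((2 : ℂ) • x (R v) - R (x (R v))) +
      ((Real.exp (β / 2) : ℝ) : ℂ) • R (x ((2 : ℂ) • v - R v))) (n : ℕ) (v1 w1 : H) (t : ℝ) :
    ((Real.exp (-β / 2) : ℝ) : ℂ) *
        cz Ψ ((n : ℝ) + 1) x (Ψ (ctB n) v1) (Ψ (ctB n) w1) (t - Complex.I / 2) +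
      ((Real.exp (β / 2) : ℝ) : ℂ) *
        cz Ψ ((n : ℝ) + 1) x (Ψ (ctB n) v1) (Ψ (ctB n) w1) (t + Complex.I / 2) =
      ⟪Ψ (ctB n) v1, Ψ (expB t) (hJ.cj x' (Ψ (expB (-t)) (Ψ (ctB n) w1)))⟫_ℂ := by
  have hv : Ψ (expB (-t)) (Ψ (ctB n) v1) = Ψ FT (Ψ (kB n (-t)) v1) := by
    rw [← psi_mul_apply, kB_a, psi_mul_apply]
  have hw : Ψ (expB (-t)) (Ψ (ctB n) w1) = Ψ FT (Ψ (kB n (-t)) w1) := by
    rw [← psi_mul_apply, kB_a, psi_mul_apply]
  have h1 : star (expB t) = expB (-t) := expB_star t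
  have h2 : ⟪Ψ (ctB n) v1, Ψ (expB t) (hJ.cj x' (Ψ (expB (-t)) (Ψ (ctB n) w1)))⟫_ℂ =
      ⟪Ψ (kB n (-t)) v1, D (x' (D (Ψ (kB n (-t)) w1)))⟫_ℂ := by
    rw [← hJ.T_cj_T, ← T_symm, ← hw, ← hv, psi_star Ψ (expB (-t)), expB_star, neg_neg]
  rw [h2, hx, inner_add_right, inner_smul_right, inner_smul_right, R_symm' h, R_symm h,
    psi_b h, psi_b h, psi_c h, psi_c h]
  unfold cz
  rw [psi_star Ψ (ez _ _), psi_star Ψ (ez _ _), ez_star, ez_star]
  have e1 : -(starRingEnd ℂ) (((-t : ℝ) : ℂ) - Complex.I / 2) = (t : ℂ) - Complex.I / 2 := by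
    rw [map_sub, Complex.conj_ofReal, map_div₀, Complex.conj_I, Complex.conj_ofNat]
    push_cast
    ring
  have e2 : -(starRingEnd ℂ) (((-t : ℝ) : ℂ) + Complex.I / 2) = (t : ℂ) + Complex.I / 2 := by
    rw [map_add, Complex.conj_ofReal, map_div₀, Complex.conj_I, Complex.conj_ofNat]
    push_cast
    ring
  have e3 : -((t : ℂ) - Complex.I / 2) = ((-t : ℝ) : ℂ) + Complex.I / 2 := by
    push_cast
    ring
  have e4 : -((t : ℂ) + Complex.I / 2) = ((-t : ℝ) : ℂ) - Complex.I / 2 := by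
    push_cast
    ring
  rw [e1, e2, e3, e4]

lemma integral_cut (h : FC R D Ψ) (hJ : JD D Ψ J) {x' x : H →L[ℂ] H} {β : ℝ}
    (hx : ∀ v : H, D (x' (D v)) =
      ((Real.exp (-β / 2) : ℝ) : ℂ) • ((2 : ℂ) • x (R v) - R (x (R v))) +
      ((Real.exp (β / 2) : ℝ) : ℂ) • R (x ((2 : ℂ) • v - R v))) (n : ℕ) (v1 w1 : H) :
    ⟪Ψ (ctB n) v1, x (Ψ (ctB n) w1)⟫_ℂ = ∫ t : ℝ, ker β t *
      ⟪Ψ (ctB n) v1, Ψ (expB t) (hJ.cj x' (Ψ (expB (-t)) (Ψ (ctB n) w1)))⟫_ℂ := by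
  rw [← cz_zero Ψ ((n : ℝ) + 1) x (Ψ (ctB n) v1) (Ψ (ctB n) w1)]
  rw [Pool.Agent.Helper5.TTD.strip_formula _ (cz_diff Ψ _ x _ _) _ (cz_bound Ψ _ x _ _) (-β)]
  congr 1
  funext t
  rw [← boundary h hJ hx]
  unfold ker
  rw [neg_neg]

end Pool.Agent.Helper43.TTF

end

section

open scoped InnerProductSpace Topology BoundedContinuousFunction FourierTransform

open ContinuousLinearMap Filter MeasureTheory

namespace Pool.Agent.Helper43.TTF

open Pool.Agent.Helper23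

variable {H : Type*} [NormedAddCommGroup H] [InnerProductSpace ℂ H] [CompleteSpace H]

variable {R : H →L[ℂ] H} {D : H →L[ℝ] H} {Ψ : (ℝ →ᵇ ℂ) →⋆ₐ[ℂ] (H →L[ℂ] H)} {J : H →L[ℝ] H}

lemma tendsto_ct (h : FC R D Ψ) (v : H) : Tendsto (fun n => Ψ (ctB n) v) atTop (𝓝 v) := by
  have h1 := h.psi_cont ctB 1 1 ctB_norm ?_ v
  · rwa [map_one, one_apply_eq_self] at h1
  · intro L
    rw [Metric.tendstoUniformlyOn_iff]
    intro ε hε
    obtain ⟨m, hm⟩ := exists_nat_ge L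
    filter_upwards [eventually_ge_atTop m] with n hn ρ hρ
    have h2 : |ρ| ≤ n := by
      have h3 : (m : ℝ) ≤ n := by exact_mod_cast hn
      rw [Set.mem_Icc] at hρ
      rw [abs_le]
      constructor <;> linarith [hρ.1, hρ.2]
    rw [ctB_apply, ct_one h2, one_bcf, Complex.ofReal_one, dist_self]
    exact hε

lemma expB_norm (t : ℝ) : ‖expB t‖ ≤ 1 :=
  BoundedContinuousFunction.norm_ofNormedAddCommGroup_le _ zero_le_one _

lemma U_norm (Ψ : (ℝ →ᵇ ℂ) →⋆ₐ[ℂ] (H →L[ℂ] H)) (t : ℝ) (v : H) : ‖Ψ (expB t) v‖ ≤ ‖v‖ := by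
  refine (psi_norm_apply Ψ _ v).trans ?_
  calc ‖expB t‖ * ‖v‖ ≤ 1 * ‖v‖ := by gcongr; exact expB_norm t
    _ = ‖v‖ := one_mul _

lemma U_cont (h : FC R D Ψ) (v : H) : Continuous (fun t : ℝ => Ψ (expB t) v) := by
  apply SeqContinuous.continuous
  intro s t hs
  refine h.psi_cont (fun n => expB (s n)) (expB t) 1 (fun n => expB_norm _) ?_ v
  intro L
  rw [Metric.tendstoUniformlyOn_iff]
  intro ε hε
  have h1 := Metric.tendsto_atTop.1 hs (ε / (|L| + 1)) (by positivity)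
  obtain ⟨m, hm⟩ := h1
  filter_upwards [eventually_ge_atTop m] with n hn ρ hρ
  have h2 := hm n hn
  rw [Real.dist_eq] at h2
  rw [dist_eq_norm, expB_apply, expB_apply]
  refine (exp_sub _ _).trans_lt ?_
  rw [← sub_mul, abs_mul, abs_sub_comm]
  have h3 : |ρ| ≤ |L| := by
    rw [Set.mem_Icc] at hρ
    rw [abs_le]
    constructor <;> linarith [hρ.1, hρ.2, le_abs_self L]
  have h5 : 0 < |L| + 1 := by positivity
  rw [lt_div_iff₀ h5] at h2
  have h4 : 0 ≤ |s n - t| := abs_nonneg _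
  nlinarith

end Pool.Agent.Helper43.TTF

end

section

open scoped InnerProductSpace Topology BoundedContinuousFunction FourierTransform ENNReal

open ContinuousLinearMap Filter MeasureTheory

set_option linter.unusedSectionVars false

namespace Pool.Agent.Helper23

variable {H : Type*} [NormedAddCommGroup H] [InnerProductSpace ℂ H] [CompleteSpace H]

lemma psi_expB_norm (Ψ : (ℝ →ᵇ ℂ) →⋆ₐ[ℂ] (H →L[ℂ] H)) (t : ℝ) (v : H) :
    ‖Ψ (expB t) v‖ = ‖v‖ := norm_of_isom (psi_expB_isom Ψ t) v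

end Pool.Agent.Helper23

end

section

open scoped InnerProductSpace Topology BoundedContinuousFunction FourierTransform ENNReal

open ContinuousLinearMap Filter MeasureTheory

set_option linter.unusedSectionVars false

namespace Pool.Agent.Helper23

variable {H : Type*} [NormedAddCommGroup H] [InnerProductSpace ℂ H] [CompleteSpace H]

namespace Modular

variable {A : VonNeumannAlgebra H} {ξ : H} {R : H →L[ℂ] H} {D : H →L[ℝ] H}
  {Ψ : (ℝ →ᵇ ℂ) →⋆ₐ[ℂ] (H →L[ℂ] H)} (h : Modular A ξ R D Ψ)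

include h

/-- the Fourier integral formula -/
theorem integral_psi {k : ℝ → ℂ} (hk : Integrable k) {K : ℝ →ᵇ ℂ}
    (hK : ∀ ρ, K ρ = ∫ t, k t * expB (2 * Real.pi * t) ρ) (v w : H) :
    ∫ t, k t * ⟪v, Ψ (expB (2 * Real.pi * t)) w⟫_ℂ = ⟪v, Ψ K w⟫_ℂ := by
  have hlim : Tendsto (fun n : ℕ => Ψ (cutB n) w) atTop (𝓝 w) := by
    have := h.psi_cont cutB 1 1 cutB_norm cutB_tendsto w
    rwa [map_one, one_apply_eq_self] at this
  have h1 : Tendsto (fun n : ℕ => ⟪v, Ψ K (Ψ (cutB n) w)⟫_ℂ) atTop (𝓝 ⟪v, Ψ K w⟫_ℂ) := by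
    have hc : Continuous fun w : H => ⟪v, Ψ K w⟫_ℂ := by fun_prop
    exact (hc.tendsto w).comp hlim
  have hm : ∀ w : H, AEStronglyMeasurable
      (fun t : ℝ => k t * ⟪v, Ψ (expB (2 * Real.pi * t)) w⟫_ℂ) volume := by
    intro w
    refine hk.aestronglyMeasurable.mul ?_
    exact ((continuous_const.inner (h.U_cont w)).comp
      (by fun_prop : Continuous fun t : ℝ => 2 * Real.pi * t)).aestronglyMeasurable
  have h2 : Tendsto (fun n : ℕ => ∫ t, k t * ⟪v, Ψ (expB (2 * Real.pi * t)) (Ψ (cutB n) w)⟫_ℂ)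
      atTop (𝓝 (∫ t, k t * ⟪v, Ψ (expB (2 * Real.pi * t)) w⟫_ℂ)) := by
    refine tendsto_integral_of_dominated_convergence (fun t => ‖k t‖ * (‖v‖ * ‖w‖))
      (fun n => hm _) (hk.norm.mul_const _) (fun n => Eventually.of_forall fun t => ?_)
      (Eventually.of_forall fun t => ?_)
    · rw [norm_mul]
      refine mul_le_mul_of_nonneg_left ?_ (norm_nonneg _)
      refine (norm_inner_le_norm _ _).trans ?_
      rw [psi_expB_norm]
      refine mul_le_mul_of_nonneg_left ?_ (norm_nonneg _)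
      have := (Ψ (cutB n)).le_of_opNorm_le ((psi_norm_le Ψ _).trans (cutB_norm n)) w
      rwa [one_mul] at this
    · have hc : Continuous fun w : H => k t * ⟪v, Ψ (expB (2 * Real.pi * t)) w⟫_ℂ := by fun_prop
      exact (hc.tendsto w).comp hlim
  refine tendsto_nhds_unique h2 ?_
  simp only [h.integral_cut hk hK]
  exact h1

end Modular

end Pool.Agent.Helper23

end

section

open scoped InnerProductSpace Topology BoundedContinuousFunction

open ContinuousLinearMap Filter MeasureTheory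

namespace Pool.Agent.Helper70.U8

open Pool.Agent.Helper23

variable {H : Type*} [NormedAddCommGroup H] [InnerProductSpace ℂ H] [CompleteSpace H]

variable {A : VonNeumannAlgebra H} {ξ : H} {R : H →L[ℂ] H} {D : H →L[ℝ] H}
  {Ψ : (ℝ →ᵇ ℂ) →⋆ₐ[ℂ] (H →L[ℂ] H)}

lemma U_norm (t : ℝ) (v : H) : ‖U Ψ t v‖ = ‖v‖ := psi_expB_norm Ψ _ v

lemma V_norm (t : ℝ) (v : H) : ‖V Ψ t v‖ = ‖v‖ := psi_expB_norm Ψ _ v

lemma orbit_cont (h : Modular A ξ R D Ψ) (z : H →L[ℂ] H) (w : H) :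
    Continuous fun t => U Ψ t (z (V Ψ t w)) :=
  cont_apply (fun t v => (U_norm t v).le) (U_cont h) (z.continuous.comp (V_cont h w))

lemma orbit_norm (z : H →L[ℂ] H) (w : H) (t : ℝ) : ‖U Ψ t (z (V Ψ t w))‖ ≤ ‖z‖ * ‖w‖ := by
  rw [U_norm]
  refine (z.le_opNorm _).trans ?_
  rw [V_norm]

lemma orbit_int (h : Modular A ξ R D Ψ) {k : ℝ → ℂ} (hk : Integrable k) (z : H →L[ℂ] H) (w : H) :
    Integrable fun t => k t • U Ψ t (z (V Ψ t w)) :=
  hk.smul_bdd (C := ‖z‖ * ‖w‖) (orbit_cont h z w).aestronglyMeasurable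
    (Eventually.of_forall fun t => orbit_norm z w t)

/-- the smoothing operator -/
noncomputable def sm (h : Modular A ξ R D Ψ) {k : ℝ → ℂ} (hk : Integrable k) (z : H →L[ℂ] H) :
    H →L[ℂ] H :=
  LinearMap.mkContinuous
    { toFun := fun w => ∫ t, k t • U Ψ t (z (V Ψ t w))
      map_add' := by
        intro v w
        rw [← integral_add (orbit_int h hk z v) (orbit_int h hk z w)]
        congr 1
        funext t
        simp only [map_add, smul_add]
      map_smul' := by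
        intro c w
        rw [RingHom.id_apply, ← integral_smul]
        congr 1
        funext t
        simp only [map_smul]
        rw [smul_comm] }
    ((∫ t, ‖k t‖) * ‖z‖) (by
      intro w
      refine (norm_integral_le_integral_norm _).trans ?_
      have h1 : ∫ t, ‖k t • U Ψ t (z (V Ψ t w))‖ ≤ ∫ t, ‖k t‖ * (‖z‖ * ‖w‖) := by
        refine integral_mono (orbit_int h hk z w).norm (hk.norm.mul_const _) fun t => ?_
        change ‖k t • U Ψ t (z (V Ψ t w))‖ ≤ ‖k t‖ * (‖z‖ * ‖w‖)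
        rw [norm_smul]
        gcongr
        exact orbit_norm z w t
      refine h1.trans ?_
      rw [integral_mul_const, mul_assoc])

lemma sm_apply (h : Modular A ξ R D Ψ) {k : ℝ → ℂ} (hk : Integrable k) (z : H →L[ℂ] H) (w : H) :
    sm h hk z w = ∫ t, k t • U Ψ t (z (V Ψ t w)) := rfl

lemma inner_sm (h : Modular A ξ R D Ψ) {k : ℝ → ℂ} (hk : Integrable k) (z : H →L[ℂ] H) (v w : H) :
    ⟪v, sm h hk z w⟫_ℂ = ∫ t, k t * ⟪v, U Ψ t (z (V Ψ t w))⟫_ℂ := by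
  rw [sm_apply, ← integral_inner (orbit_int h hk z w)]
  congr 1
  funext t
  rw [inner_smul_right]

lemma V_xi (h : Modular A ξ R D Ψ) (t : ℝ) : V Ψ t ξ = ξ := by
  unfold V
  rw [h.psi_xi, expB_apply, mul_zero, Complex.ofReal_zero, zero_mul, Complex.exp_zero, one_smul]

end Pool.Agent.Helper70.U8

end

section

open scoped InnerProductSpace Topology BoundedContinuousFunction

open ContinuousLinearMap Filter MeasureTheory

namespace Pool.Agent.Helper88.CS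

open Pool.Agent.Helper23

open Pool.Agent.Helper78.BC (Std rm Fixed)

variable {H : Type*} [NormedAddCommGroup H] [InnerProductSpace ℂ H] [CompleteSpace H]

/-- The standard form of project BC with the operators of Rieffel and van Daele. -/
structure St (A : VonNeumannAlgebra H) (ξ : H) (J : H →L[ℝ] H)
    (Ψ : (ℝ →ᵇ ℂ) →⋆ₐ[ℂ] (H →L[ℂ] H)) (R : H →L[ℂ] H) (D : H →L[ℝ] H) : Prop
    extends Std A ξ J Ψ where
  mod : Modular A ξ R D Ψ
  jd : Pool.Agent.Helper43.TTF.JD D Ψ J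
  dense : Dense (orb A ξ : Set H)

theorem St.conj {A : VonNeumannAlgebra H} {ξ : H} {J : H →L[ℝ] H}
    {Ψ : (ℝ →ᵇ ℂ) →⋆ₐ[ℂ] (H →L[ℂ] H)} {R : H →L[ℂ] H} {D : H →L[ℝ] H} (h : St A ξ J Ψ R D) :
    Conj A J :=
  ⟨h.J_J, h.J_conj, h.J_norm, h.J_inner, h.J_comm, h.J_mem⟩

end Pool.Agent.Helper88.CS

end

section

open scoped InnerProductSpace Topology BoundedContinuousFunction

open ContinuousLinearMap Filter MeasureTheory

namespace Pool.Agent.Helper88.CS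

open Pool.Agent.Helper23

open Pool.Agent.Helper78.BC (Std rm Fixed)

variable {H : Type*} [NormedAddCommGroup H] [InnerProductSpace ℂ H] [CompleteSpace H]

variable {A : VonNeumannAlgebra H} {ξ : H} {J : H →L[ℝ] H}
  {Ψ : (ℝ →ᵇ ℂ) →⋆ₐ[ℂ] (H →L[ℂ] H)} {R : H →L[ℂ] H} {D : H →L[ℝ] H}

namespace ConeAux

variable (h : St A ξ J Ψ R D)

include h

/-- right multiplication: `J (a (J (y ξ))) = y (J (a ξ))` -/
theorem jc {a y : H →L[ℂ] H} (ha : a ∈ A) (hy : y ∈ A) :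
    J (a (J (y ξ))) = y (J (a ξ)) := by
  rw [h.J_comm a ha y hy, h.J_xi]

end ConeAux

end Pool.Agent.Helper88.CS

end

section

open scoped InnerProductSpace Topology BoundedContinuousFunction

open ContinuousLinearMap Filter MeasureTheory

namespace Pool.Agent.Helper88.CS

open Pool.Agent.Helper23

open Pool.Agent.Helper78.BC (Std rm Fixed)

variable {H : Type*} [NormedAddCommGroup H] [InnerProductSpace ℂ H] [CompleteSpace H]

variable {A : VonNeumannAlgebra H} {J : H →L[ℝ] H}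

namespace JUniqAux

open Pool.Agent.Helper43.TTF Pool.Agent.Helper23.TTA Pool.Agent.Helper70.U8

variable {κ : H}

/-- `J R v = (2 - R) J v` for the canonical conjugation -/
lemma J_R {ξ : H} {Ψ : (ℝ →ᵇ ℂ) →⋆ₐ[ℂ] (H →L[ℂ] H)} {R : H →L[ℂ] H} {D : H →L[ℝ] H}
    (h : St A ξ J Ψ R D) (v : H) : J (R v) = (2 : ℂ) • J v - R (J v) := by
  have h1 := h.psi_J FR (2 - FR) (fun ρ => by
    have h3 : (2 : ℝ →ᵇ ℂ) ρ = 2 := rfl
    rw [BoundedContinuousFunction.sub_apply, Pool.Agent.Helper43.TTF.FR_apply, Pool.Agent.Helper43.TTF.FR_apply, h3, Complex.conj_ofReal]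
    have h4 : (0 : ℝ) < Real.exp ρ := Real.exp_pos _
    have h5 : (2 : ℝ) - 2 / (1 + Real.exp ρ) = 2 / (1 + Real.exp (-ρ)) := by
      rw [Real.exp_neg]
      field_simp
      ring
    rw [← h5]
    push_cast
    rfl) v
  rw [h.mod.psi_FR, map_sub, h.mod.psi_FR, Pool.Agent.Helper43.TTF.psi_two, sub_apply, smul_apply,
    one_apply_eq_self] at h1
  exact h1

lemma J_D {ξ : H} {Ψ : (ℝ →ᵇ ℂ) →⋆ₐ[ℂ] (H →L[ℂ] H)} {R : H →L[ℂ] H} {D : H →L[ℝ] H}
    (h : St A ξ J Ψ R D) (v : H) : J (D v) = D (J v) := by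
  rw [← h.jd.T_J v, ← h.jd.J_T (J v)]

end JUniqAux

end Pool.Agent.Helper88.CS

end

section

open scoped InnerProductSpace Topology BoundedContinuousFunction

open ContinuousLinearMap Filter MeasureTheory

namespace Pool.Agent.Helper88.CS

open Pool.Agent.Helper23

open Pool.Agent.Helper78.BC (Std rm Fixed)

variable {H : Type*} [NormedAddCommGroup H] [InnerProductSpace ℂ H] [CompleteSpace H]

variable {A : VonNeumannAlgebra H} {ξ : H} {J : H →L[ℝ] H}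
  {Ψ : (ℝ →ᵇ ℂ) →⋆ₐ[ℂ] (H →L[ℂ] H)} {R : H →L[ℂ] H} {D : H →L[ℝ] H}

namespace SuppBAux

open Pool.Agent.Helper70.U8 (sm U V)

theorem U_add (Ψ : (ℝ →ᵇ ℂ) →⋆ₐ[ℂ] (H →L[ℂ] H)) (t r : ℝ) (v : H) :
    U Ψ (t + r) v = U Ψ r (U Ψ t v) := by
  unfold U
  rw [← Pool.Agent.Helper43.TTF.psi_mul_apply, expB_mul]
  congr 3
  ring

theorem V_U (Ψ : (ℝ →ᵇ ℂ) →⋆ₐ[ℂ] (H →L[ℂ] H)) (t s r : ℝ) (v : H) :
    V Ψ (t + r) (U Ψ (s + r) v) = V Ψ t (U Ψ s v) := by
  unfold U V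
  rw [← Pool.Agent.Helper43.TTF.psi_mul_apply, expB_mul,
    ← Pool.Agent.Helper43.TTF.psi_mul_apply, expB_mul]
  congr 3
  ring

theorem sm_zero (h : Modular A ξ R D Ψ) {k : ℝ → ℂ} (hk : Integrable k) (hz : ∀ t, k t = 0)
    (x : H →L[ℂ] H) (w : H) : sm h hk x w = 0 := by
  rw [Pool.Agent.Helper70.U8.sm_apply]
  simp only [hz, zero_smul, integral_zero]

/-- the inner product formula -/
theorem formula (h : Modular A ξ R D Ψ) {k l : ℝ → ℂ} (hk : Integrable k) (hl : Integrable l)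
    (x y : H →L[ℂ] H) (v : H) (r : ℝ) :
    ⟪v, U Ψ r ((sm h hk x * sm h hl y) ξ)⟫_ℂ = ∫ t, k t * ∫ s, l s *
      ⟪v, U Ψ (t + r) (x (V Ψ (t + r) (U Ψ (s + r) (y ξ))))⟫_ℂ := by
  have e1 : ⟪v, U Ψ r ((sm h hk x * sm h hl y) ξ)⟫_ℂ =
      ⟪star (U Ψ r) v, sm h hk x (sm h hl y ξ)⟫_ℂ := by
    rw [ContinuousLinearMap.star_eq_adjoint, ContinuousLinearMap.adjoint_inner_left,
      mul_apply_eq_comp]
  rw [e1, Pool.Agent.Helper70.U8.inner_sm]
  congr 1
  funext t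
  congr 1
  have e2 : ∀ w : H, ⟪star (U Ψ r) v, U Ψ t (x (V Ψ t w))⟫_ℂ =
      ⟪star (V Ψ t) (star x (star (U Ψ t) (star (U Ψ r) v))), w⟫_ℂ := by
    intro w
    simp only [ContinuousLinearMap.star_eq_adjoint, ContinuousLinearMap.adjoint_inner_left]
  rw [e2, Pool.Agent.Helper70.U8.inner_sm]
  congr 1
  funext s
  congr 1
  rw [← e2, Pool.Agent.Helper70.U8.V_xi h, ContinuousLinearMap.star_eq_adjoint,
    ContinuousLinearMap.adjoint_inner_left, V_U, U_add]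

end SuppBAux

end Pool.Agent.Helper88.CS

end

section

open scoped InnerProductSpace Topology BoundedContinuousFunction

open ContinuousLinearMap Filter MeasureTheory

namespace Pool.Agent.Helper88.CS

open Pool.Agent.Helper23

open Pool.Agent.Helper78.BC (Std rm Fixed)

variable {H : Type*} [NormedAddCommGroup H] [InnerProductSpace ℂ H] [CompleteSpace H]

variable {A : VonNeumannAlgebra H} {ξ : H} {J : H →L[ℝ] H}
  {Ψ : (ℝ →ᵇ ℂ) →⋆ₐ[ℂ] (H →L[ℂ] H)} {R : H →L[ℂ] H} {D : H →L[ℝ] H}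

namespace CentAux

open Pool.Agent.Helper78.BC (fixed_of J_of_fixed)

open Pool.Agent.Helper78.BC.FixAux (Pl Pl_apply plat plat_cont norm_Pl_le Pl_tendsto mm_zero mm_nonneg mm_le)

open Pool.Agent.Helper70.U8 (GB GB_apply kg kg_int kg_fourier)

/-- commutation with the Gaussians -/
theorem comm_GB (h : Modular A ξ R D Ψ) {e : H →L[ℂ] H}
    (hc : ∀ t : ℝ, e * Ψ (expB t) = Ψ (expB t) * e) {ε : ℝ} (hε : 0 < ε) (κ : ℝ) :
    e * Ψ (GB ε hε κ) = Ψ (GB ε hε κ) * e := by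
  ext w
  refine ext_inner_left ℂ fun v => ?_
  have hK : ∀ ρ, GB ε hε κ ρ = ∫ t, kg ε κ t * expB (2 * Real.pi * t) ρ := fun ρ => by
    rw [GB_apply]
    exact kg_fourier hε κ ρ
  rw [mul_apply_eq_comp, mul_apply_eq_comp, ← h.integral_psi (kg_int hε κ) hK v (e w),
    ← star_star e, inner_star_right, ← h.integral_psi (kg_int hε κ) hK (star e v) w]
  congr 1
  funext t
  have h1 := congrArg (fun T : H →L[ℂ] H => T w) (hc (2 * Real.pi * t))
  simp only [mul_apply_eq_comp] at h1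
  rw [star_star, ← h1, ← inner_star_right, star_star]

/-- commutation with the unitary group implies commutation with the functional calculus -/
theorem comm_all (h : St A ξ J Ψ R D) {e : H →L[ℂ] H}
    (hc : ∀ t : ℝ, e * Ψ (expB t) = Ψ (expB t) * e) (G : ℝ →ᵇ ℂ) : e * Ψ G = Ψ G * e := by
  refine h.mod.psi_comm e ?_ G
  have e0 := comm_GB h.mod hc one_pos 0
  have e1 := comm_GB h.mod hc one_pos 1
  have hS : ∀ ρ, (GB 1 one_pos 0 + GB 1 one_pos 1 : ℝ →ᵇ ℂ) ρ ≠ 0 := by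
    intro ρ
    rw [BoundedContinuousFunction.coe_add, Pi.add_apply, GB_apply, GB_apply,
      ← Complex.ofReal_add]
    have : (0 : ℝ) < Real.exp (-(1 * ρ ^ 2) + 0 * ρ) + Real.exp (-(1 * ρ ^ 2) + 1 * ρ) := by
      positivity
    exact_mod_cast this.ne'
  have hm : (GB 1 one_pos 0 + GB 1 one_pos 1 : ℝ →ᵇ ℂ) * FR = (2 : ℂ) • GB 1 one_pos 0 := by
    ext ρ
    have h0 : ((2 : ℂ) • GB 1 one_pos 0 : ℝ →ᵇ ℂ) ρ = (2 : ℂ) * GB 1 one_pos 0 ρ := rfl
    have h2 : (2 : ℂ) = ((2 : ℝ) : ℂ) := by norm_num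
    rw [h0, BoundedContinuousFunction.mul_apply, BoundedContinuousFunction.coe_add, Pi.add_apply,
      GB_apply, GB_apply, Pool.Agent.Helper43.TTF.FR_apply, h2, ← Complex.ofReal_add,
      ← Complex.ofReal_mul, ← Complex.ofReal_mul]
    congr 1
    have h3 : Real.exp (-(1 * ρ ^ 2) + 1 * ρ) =
        Real.exp (-(1 * ρ ^ 2) + 0 * ρ) * Real.exp ρ := by
      rw [← Real.exp_add]
      congr 1
      ring
    rw [h3]
    have h4 : (0 : ℝ) < 1 + Real.exp ρ := by positivity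
    field_simp
  have hm' : Ψ (GB 1 one_pos 0 + GB 1 one_pos 1) * R = (2 : ℂ) • Ψ (GB 1 one_pos 0) := by
    rw [← h.mod.psi_FR, ← map_mul, hm, map_smul]
  have hS' : e * Ψ (GB 1 one_pos 0 + GB 1 one_pos 1) =
      Ψ (GB 1 one_pos 0 + GB 1 one_pos 1) * e := by
    rw [map_add, mul_add, add_mul, e0, e1]
  have key : Ψ (GB 1 one_pos 0 + GB 1 one_pos 1) * (e * R - R * e) = 0 := by
    rw [mul_sub, ← mul_assoc, ← hS', mul_assoc, hm', ← mul_assoc, hm', mul_smul_comm,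
      smul_mul_assoc, e0, sub_self]
  rw [← sub_eq_zero]
  ext v
  have h5 := congrArg (fun T : H →L[ℂ] H => T v) key
  simp only [mul_apply_eq_comp] at h5
  exact inj_of_ne h.toStd h5 hS

end CentAux

open CentAux

open Pool.Agent.Helper78.BC (fixed_of J_of_fixed)

open Pool.Agent.Helper78.BC.FixAux (Pl Pl_apply plat plat_cont norm_Pl_le Pl_tendsto mm_zero mm_nonneg mm_le)

open Pool.Agent.Helper70.U8 (GB GB_apply)

/-- elements of the centralizer: `e ξ` is fixed -/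
theorem fixed_of_J (h : St A ξ J Ψ R D) {e : H →L[ℂ] H} (he : e ∈ A) (hs : star e = e)
    (hJ : J (e ξ) = e ξ) : Fixed Ψ (e ξ) := by
  refine fixed_of h.toStd hJ fun a b ha hab G hG => ?_
  have h1 := h.psi_half (GB 1 one_pos 0) (GB 1 one_pos (1 / 2)) (fun ρ => by
    rw [GB_apply, GB_apply, ← Complex.ofReal_mul, ← Real.exp_add]
    congr 2
    ring) e he
  rw [hs, hJ] at h1
  have h2 : Ψ (GB 1 one_pos (1 / 2) - GB 1 one_pos 0) (e ξ) = 0 := by
    rw [map_sub, ContinuousLinearMap.sub_apply, h1, sub_self]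
  have hsub : tsupport (G : ℝ → ℂ) ⊆ Set.Icc a b := by
    refine closure_minimal ?_ isClosed_Icc
    intro ρ hρ
    by_contra hh
    exact hρ (hG ρ hh)
  have hGc : HasCompactSupport (G : ℝ → ℂ) :=
    HasCompactSupport.intro isCompact_Icc fun ρ hρ => hG ρ hρ
  refine kill h2 hGc fun ρ hρ => ?_
  have hρ0 : 0 < ρ := ha.trans_le (hsub hρ).1
  rw [BoundedContinuousFunction.coe_sub, Pi.sub_apply, GB_apply, GB_apply, sub_ne_zero]
  intro h3
  have h4 := Complex.ofReal_injective h3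
  have h5 := Real.exp_injective h4
  linarith

/-- elements of the centralizer commute with the modular group -/
theorem comm_psi (h : St A ξ J Ψ R D) {e : H →L[ℂ] H} (he : e ∈ A) (hs : star e = e)
    (hJ : J (e ξ) = e ξ) (G : ℝ →ᵇ ℂ) : e * Ψ G = Ψ G * e := by
  refine comm_all h (fun t => ?_) G
  have hf := fixed_of_J h he hs hJ
  have hx : (Ψ (expB t) * e * Ψ (expB (-t)) - e) ξ = 0 := by
    rw [sub_apply, mul_apply_eq_comp, mul_apply_eq_comp, h.mod.psi_xi,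
      Pool.Agent.Helper43.TTF.expB_apply, mul_zero, Complex.ofReal_zero, zero_mul,
      Complex.exp_zero, one_smul, hf (expB t), Pool.Agent.Helper43.TTF.expB_apply, mul_zero,
      Complex.ofReal_zero, zero_mul, Complex.exp_zero, one_smul, sub_self]
  have h1 := h.sep _ (sub_mem (h.mod.mem t e he) he) hx
  rw [sub_eq_zero] at h1
  have h2 : Ψ (expB (-t)) * Ψ (expB t) = 1 := by
    rw [← map_mul]
    have : expB (-t) * expB t = 1 := by
      ext ρ
      rw [BoundedContinuousFunction.mul_apply, Pool.Agent.Helper43.TTF.expB_apply,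
        Pool.Agent.Helper43.TTF.expB_apply, ← Complex.exp_add, Pool.Agent.Helper43.TTF.one_bcf]
      have : ((-t * ρ : ℝ) : ℂ) * Complex.I + ((t * ρ : ℝ) : ℂ) * Complex.I = 0 := by
        push_cast
        ring
      rw [this, Complex.exp_zero]
    rw [this, map_one]
  calc e * Ψ (expB t) = Ψ (expB t) * e * Ψ (expB (-t)) * Ψ (expB t) := by rw [h1]
    _ = Ψ (expB t) * e := by rw [mul_assoc, h2, mul_one]

/-- a projection of `A` commuting with the modular group is in the centralizer -/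
theorem J_of_comm (h : St A ξ J Ψ R D) {e : H →L[ℂ] H} (he : e ∈ A) (hs : star e = e)
    (hc : ∀ t : ℝ, e * Ψ (expB t) = Ψ (expB t) * e) : J (e ξ) = e ξ := by
  have hf : Fixed Ψ (e ξ) := by
    intro G
    have h1 := congrArg (fun T : H →L[ℂ] H => T ξ) (comm_all h hc G)
    simp only [mul_apply_eq_comp] at h1
    rw [← h1, h.mod.psi_xi, map_smul]
  have h2 := J_of_fixed h.toStd he hf
  rwa [hs] at h2

end Pool.Agent.Helper88.CS

end

section

open scoped InnerProductSpace Topology BoundedContinuousFunction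

open ContinuousLinearMap Filter MeasureTheory

namespace Pool.Agent.Helper88.CS

open Pool.Agent.Helper23

open Pool.Agent.Helper78.BC (Std rm Fixed)

variable {H : Type*} [NormedAddCommGroup H] [InnerProductSpace ℂ H] [CompleteSpace H]

variable {A : VonNeumannAlgebra H} {ξ : H} {J : H →L[ℝ] H}
  {Ψ : (ℝ →ᵇ ℂ) →⋆ₐ[ℂ] (H →L[ℂ] H)} {R : H →L[ℂ] H} {D : H →L[ℝ] H}

namespace CornerSpecAux

open Pool.Agent.Helper78.BC.FixAux (Pl Pl_apply plat mm_zero norm_Pl_le Pl_tendsto)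

/-- the spectral estimate -/
theorem est (h : St A ξ J Ψ R D) {b : H →L[ℂ] H} (hb : b ∈ A) {l κ : ℝ}
    (hκ : 0 ≤ κ) (he : ∀ w ∈ A, ‖⟪J ((star w) ξ), J ((star b) ξ)⟫_ℂ - (l : ℂ) * ⟪w ξ, b ξ⟫_ℂ‖ ≤
      κ * ‖w ξ‖) {G F : ℝ →ᵇ ℂ} (hG : HasCompactSupport G)
    (hF : ∀ ρ, F ρ = ((Real.exp ρ : ℝ) : ℂ) * G ρ - (l : ℂ) * G ρ) :
    ‖Ψ F (b ξ)‖ ≤ κ * ‖G‖ := by
  set θ := Ψ F (b ξ) with hθ
  have hGs : HasCompactSupport (star G : ℝ →ᵇ ℂ) := by
    refine HasCompactSupport.intro hG fun ρ hρ => ?_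
    rw [BoundedContinuousFunction.star_apply, image_eq_zero_of_notMem_tsupport hρ, star_zero]
  obtain ⟨G1, hG1, hG1c⟩ := exists_mul (fun ρ => ((Real.exp (ρ / 2) : ℝ) : ℂ))
    (by fun_prop) (star G) hGs
  obtain ⟨G2, hG2, hG2c⟩ := exists_mul (fun ρ => ((Real.exp ρ : ℝ) : ℂ)) (by fun_prop) G hG
  -- the inner products
  have e1 : ⟪Ψ (star G) θ, b ξ⟫_ℂ = ⟪θ, Ψ G (b ξ)⟫_ℂ := by
    rw [map_star, ContinuousLinearMap.star_eq_adjoint, ContinuousLinearMap.adjoint_inner_left]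
  have e2 : ⟪Ψ G1 θ, J ((star b) ξ)⟫_ℂ = ⟪θ, Ψ G2 (b ξ)⟫_ℂ := by
    have h1 : ⟪Ψ G1 θ, J ((star b) ξ)⟫_ℂ = ⟪θ, Ψ (star G1) (J ((star b) ξ))⟫_ℂ := by
      rw [map_star, ContinuousLinearMap.star_eq_adjoint (Ψ G1),
        ContinuousLinearMap.adjoint_inner_right]
    rw [h1, h.psi_half (star G1) G2 (fun ρ => ?_) b hb]
    rw [hG2, BoundedContinuousFunction.star_apply, hG1, star_mul',
      BoundedContinuousFunction.star_apply, star_star, Complex.star_def, Complex.conj_ofReal,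
      ← mul_assoc, ← Complex.ofReal_mul, ← Real.exp_add, add_halves]
  have e3 : F = G2 - (l : ℂ) • G := by
    ext ρ
    rw [BoundedContinuousFunction.sub_apply, BoundedContinuousFunction.smul_apply, hF, hG2,
      smul_eq_mul]
  have e4 : ⟪θ, θ⟫_ℂ = ⟪Ψ G1 θ, J ((star b) ξ)⟫_ℂ - (l : ℂ) * ⟪Ψ (star G) θ, b ξ⟫_ℂ := by
    rw [e1, e2]
    nth_rewrite 2 [hθ]
    rw [e3, map_sub, map_smul, ContinuousLinearMap.sub_apply, ContinuousLinearMap.smul_apply,
      inner_sub_right, inner_smul_right]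
  -- the limit
  have e5 : ‖⟪Ψ G1 θ, J ((star b) ξ)⟫_ℂ - (l : ℂ) * ⟪Ψ (star G) θ, b ξ⟫_ℂ‖ ≤
      κ * ‖Ψ (star G) θ‖ := by
    have hex : ∀ n : ℕ, ∃ w ∈ A, ‖w ξ - Ψ (star G) θ‖ ≤ 1 / ((n : ℝ) + 1) ∧
        ‖J ((star w) ξ) - Ψ G1 θ‖ ≤ 1 / ((n : ℝ) + 1) := fun n =>
      h.core (star G) G1 hGs hG1 θ _ (by positivity)
    choose w hwA hw1 hw2 using hex
    have hz : Tendsto (fun n : ℕ => 1 / ((n : ℝ) + 1)) atTop (𝓝 0) :=
      tendsto_one_div_add_atTop_nhds_zero_nat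
    have t1 : Tendsto (fun n => w n ξ) atTop (𝓝 (Ψ (star G) θ)) := by
      rw [tendsto_iff_norm_sub_tendsto_zero]
      exact squeeze_zero (fun n => norm_nonneg _) hw1 hz
    have t2 : Tendsto (fun n => J ((star (w n)) ξ)) atTop (𝓝 (Ψ G1 θ)) := by
      rw [tendsto_iff_norm_sub_tendsto_zero]
      exact squeeze_zero (fun n => norm_nonneg _) hw2 hz
    refine le_of_tendsto_of_tendsto' (((t2.inner tendsto_const_nhds).sub
      ((t1.inner tendsto_const_nhds).const_mul (l : ℂ))).norm) (t1.norm.const_mul κ)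
      fun n => he (w n) (hwA n)
  rw [← e4, inner_self_eq_norm_sq_to_K] at e5
  have e6 : ‖θ‖ * ‖θ‖ ≤ κ * (‖G‖ * ‖θ‖) := by
    have h1 : ‖((‖θ‖ : ℂ)) ^ 2‖ = ‖θ‖ * ‖θ‖ := by
      rw [norm_pow, Complex.norm_real, norm_norm, sq]
    have h2 : ‖Ψ (star G) θ‖ ≤ ‖G‖ * ‖θ‖ := by
      refine (psiv Ψ (star G) θ).trans ?_
      rw [norm_star]
    calc ‖θ‖ * ‖θ‖ = ‖((‖θ‖ : ℂ)) ^ 2‖ := h1.symm
      _ ≤ κ * ‖Ψ (star G) θ‖ := e5
      _ ≤ κ * (‖G‖ * ‖θ‖) := mul_le_mul_of_nonneg_left h2 hκ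
  rcases (norm_nonneg θ).eq_or_lt with h0 | h0
  · rw [← h0]
    positivity
  · refine le_of_mul_le_mul_right ?_ h0
    linarith

/-- all vectors orthogonal to the spectral point vanish -/
theorem norm_le_of (h : St A ξ J Ψ R D) (γ : ℝ) (G : ℝ →ᵇ ℂ) (hG : G γ ≠ 0) :
    ∃ C : ℝ, 0 ≤ C ∧ ∀ b ∈ A, Ψ G (b ξ) = 0 → ∀ κ : ℝ, 0 ≤ κ →
      (∀ w ∈ A, ‖⟪J ((star w) ξ), J ((star b) ξ)⟫_ℂ -
        ((Real.exp γ : ℝ) : ℂ) * ⟪w ξ, b ξ⟫_ℂ‖ ≤ κ * ‖w ξ‖) → ‖b ξ‖ ≤ κ * C := by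
  have hm : 0 < ‖G γ‖ / 2 := by
    have := norm_pos_iff.2 hG
    positivity
  -- a neighbourhood of `e ^ γ`
  have hc : ContinuousAt (fun t : ℝ => ‖G (Real.log t)‖) (Real.exp γ) := by
    refine (G.continuous.norm.continuousAt).comp ?_
    exact Real.continuousAt_log (Real.exp_pos γ).ne'
  have hlt : ‖G γ‖ / 2 < ‖G (Real.log (Real.exp γ))‖ := by
    rw [Real.log_exp]
    linarith
  obtain ⟨m', hm', hball⟩ := Metric.eventually_nhds_iff.1 (hc.eventually (lt_mem_nhds hlt))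
  obtain ⟨p, hp⟩ := exists_inv (fun ρ => G ρ) G.continuous hm
  obtain ⟨r, hr⟩ := exists_inv (fun ρ => ((Real.exp ρ - Real.exp γ : ℝ) : ℂ))
    (Complex.continuous_ofReal.comp (by fun_prop)) hm'
  set G4 : ℝ →ᵇ ℂ := r * (1 - G * p) with hG4
  have key : ∀ ρ, 1 = G ρ * p ρ + ((Real.exp ρ - Real.exp γ : ℝ) : ℂ) * G4 ρ := by
    intro ρ
    have h1 : G4 ρ = r ρ * (1 - G ρ * p ρ) := rfl
    rw [h1]
    by_cases hρ : m' ≤ ‖((Real.exp ρ - Real.exp γ : ℝ) : ℂ)‖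
    · rw [← mul_assoc, hr ρ hρ]
      ring
    · have h2 : ‖G γ‖ / 2 ≤ ‖G ρ‖ := by
        have h3 := @hball (Real.exp ρ) (by
          rw [Real.dist_eq]
          rw [Complex.norm_real, Real.norm_eq_abs] at hρ
          exact not_le.1 hρ)
        rw [Real.log_exp] at h3
        exact h3.le
      rw [hp ρ h2]
      ring
  refine ⟨‖G4‖, norm_nonneg _, fun b hb hzero κ hκ he => ?_⟩
  have hbound : ∀ n : ℕ, ‖Ψ (Pl n) (b ξ)‖ ≤ κ * ‖G4‖ := by
    intro n
    have hcs : HasCompactSupport (G4 * Pl n : ℝ →ᵇ ℂ) := by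
      refine HasCompactSupport.intro (Pl_compact n) fun ρ hρ => ?_
      rw [BoundedContinuousFunction.mul_apply, image_eq_zero_of_notMem_tsupport hρ, mul_zero]
    obtain ⟨F, hF, -⟩ := exists_mul (fun ρ => ((Real.exp ρ - Real.exp γ : ℝ) : ℂ))
      (Complex.continuous_ofReal.comp (by fun_prop)) (G4 * Pl n) hcs
    have h1 := est h hb (l := Real.exp γ) hκ he (G := G4 * Pl n) (F := F) hcs (fun ρ => by
      rw [hF, Complex.ofReal_sub]
      ring)
    have h2 : Pl n = (p * Pl n) * G + F := by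
      ext ρ
      rw [BoundedContinuousFunction.add_apply, BoundedContinuousFunction.mul_apply,
        BoundedContinuousFunction.mul_apply, hF, BoundedContinuousFunction.mul_apply]
      have h3 := key ρ
      linear_combination (Pl n ρ) * h3
    rw [h2, map_add, ContinuousLinearMap.add_apply, psi_mul', hzero, map_zero, zero_add]
    refine h1.trans (mul_le_mul_of_nonneg_left ?_ hκ)
    exact (norm_mul_le _ _).trans (mul_le_of_le_one_right (norm_nonneg _) (norm_Pl_le n))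
  have hlim := h.psi_cont (fun n => Pl n) 1 1 norm_Pl_le Pl_tendsto (b ξ)
  rw [map_one, ContinuousLinearMap.one_apply] at hlim
  exact le_of_tendsto' hlim.norm hbound

end CornerSpecAux

end Pool.Agent.Helper88.CS

end
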