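import Pool.Agent.Helper23.FA.Ns
import Pool.Agent.Helper23.FA.L00_02
import Pool.Agent.Helper23.FA.L00_04
import Pool.Agent.Helper23.FA.L00_10
import Pool.Agent.Helper23.FA.L00_19

/-!
Parts of Helper23.Amp1, Helper23.Amp2, Helper23.Frame, Helper23.Gk, Helper23.Pol, Helper23.Pol2, Helper75.GKWeak, Helper23.Pin1, Helper23.Pin2, Helper23.Pin4, Helper23.Wt, Helper23.ED.MnA
-/

section

open scoped InnerProductSpace Topology ENNReal

open ContinuousLinearMap Filter MeasureTheory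

set_option linter.unusedSectionVars false

set_option linter.unusedVariables false

namespace Pool.Agent.Helper23

variable {G : Type*} [NormedAddCommGroup G] [InnerProductSpace ℂ G] [CompleteSpace G]

variable {G' : Type*} [NormedAddCommGroup G'] [InnerProductSpace ℂ G'] [CompleteSpace G']

variable {G'' : Type*} [NormedAddCommGroup G''] [InnerProductSpace ℂ G''] [CompleteSpace G'']

lemma mulOp_star {m : ℝ → ℂ} (h : BM m) :
    star (mulOp G m) = mulOp G (fun s => (starRingEnd ℂ) (m s)) := by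
  rw [ContinuousLinearMap.star_eq_adjoint]
  symm
  rw [ContinuousLinearMap.eq_adjoint_iff]
  intro x y
  exact mulOp_adj h x y

end Pool.Agent.Helper23

end

section

open scoped InnerProductSpace Topology ENNReal

open ContinuousLinearMap Filter MeasureTheory

set_option linter.unusedSectionVars false

set_option linter.unusedVariables false

namespace Pool.Agent.Helper23

variable {H : Type*} [NormedAddCommGroup H] [InnerProductSpace ℂ H] [CompleteSpace H]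

lemma ten_sub_left (f g : L2R ℂ) (η : H) : ten (f - g) η = ten f η - ten g η := map_sub _ _ _

lemma ten_smul_left (c : ℂ) (f : L2R ℂ) (η : H) : ten (c • f) η = c • ten f η := map_smul _ _ _

lemma inner_sl' (f : L2R ℂ) (F : L2R H) (η : H) : ⟪sl f F, η⟫_ℂ = ⟪F, ten f η⟫_ℂ := by
  rw [sl, adjoint_inner_left, iot_apply]

lemma sl_ten (f g : L2R ℂ) (η : H) : sl f (ten g η) = ⟪f, g⟫_ℂ • η := by
  refine ext_inner_left ℂ fun ζ => ?_
  rw [inner_sl, inner_ten, inner_smul_right]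

lemma slX_apply (X : L2R H →L[ℂ] L2R H) (f g : L2R ℂ) (η : H) :
    slX X f g η = sl f (X (ten g η)) := rfl

lemma inner_slX (X : L2R H →L[ℂ] L2R H) (f g : L2R ℂ) (η ζ : H) :
    ⟪η, slX X f g ζ⟫_ℂ = ⟪ten f η, X (ten g ζ)⟫_ℂ := by
  rw [slX_apply, inner_sl]

variable {A : VonNeumannAlgebra H}

/-- rank one type operators -/
noncomputable def rk (b : H →L[ℂ] H) (f g : L2R ℂ) : L2R H →L[ℂ] L2R H :=
  (iot H f).comp (b.comp (sl g))

lemma rk_apply (b : H →L[ℂ] H) (f g : L2R ℂ) (F : L2R H) : rk b f g F = ten f (b (sl g F)) := rfl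

lemma slX_norm_sub (X : L2R H →L[ℂ] L2R H) (f g f' g' : L2R ℂ) (η : H) :
    ‖slX X f g η - slX X f' g' η‖ ≤ ‖X‖ * (‖f - f'‖ * ‖g‖ + ‖f'‖ * ‖g - g'‖) * ‖η‖ := by
  have h1 : ∀ (f g : L2R ℂ) (η : H), ‖slX X f g η‖ ≤ ‖X‖ * (‖f‖ * ‖g‖) * ‖η‖ := by
    intro f g η
    have e1 : ‖slX X f g η‖ ^ 2 ≤ ‖slX X f g η‖ * (‖X‖ * (‖f‖ * ‖g‖) * ‖η‖) := by
      have e2 := inner_slX X f g (slX X f g η) η
      have e3 : ‖⟪slX X f g η, slX X f g η⟫_ℂ‖ = ‖slX X f g η‖ ^ 2 := by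
        rw [inner_self_eq_norm_sq_to_K]
        simp
      rw [← e3, e2]
      refine (norm_inner_le_norm _ _).trans ?_
      rw [norm_ten]
      have e4 : ‖X (ten g η)‖ ≤ ‖X‖ * (‖g‖ * ‖η‖) := by
        refine (X.le_opNorm _).trans ?_
        rw [norm_ten]
      calc ‖f‖ * ‖slX X f g η‖ * ‖X (ten g η)‖ ≤ ‖f‖ * ‖slX X f g η‖ * (‖X‖ * (‖g‖ * ‖η‖)) := by
            gcongr
        _ = _ := by ring
    by_contra hcon
    push Not at hcon
    have e2 : 0 ≤ ‖X‖ * (‖f‖ * ‖g‖) * ‖η‖ := by positivity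
    nlinarith [norm_nonneg (slX X f g η)]
  have h2 : slX X f g η - slX X f' g' η = slX X (f - f') g η + slX X f' (g - g') η := by
    refine ext_inner_left ℂ fun ζ => ?_
    rw [inner_sub_right, inner_add_right, inner_slX, inner_slX, inner_slX, inner_slX,
      ten_sub_left, ten_sub_left, map_sub, inner_sub_left, inner_sub_right]
    ring
  rw [h2]
  calc _ ≤ ‖slX X (f - f') g η‖ + ‖slX X f' (g - g') η‖ := norm_add_le _ _
    _ ≤ ‖X‖ * (‖f - f'‖ * ‖g‖) * ‖η‖ + ‖X‖ * (‖f'‖ * ‖g - g'‖) * ‖η‖ :=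
        add_le_add (h1 _ _ _) (h1 _ _ _)
    _ = _ := by ring

end Pool.Agent.Helper23

end

section

open scoped InnerProductSpace Topology ENNReal

open ContinuousLinearMap Filter MeasureTheory

set_option linter.unusedSectionVars false

set_option linter.unusedVariables false

namespace Pool.Agent.Helper23

lemma dm_of_mem {m : ℤ} {s : ℝ} (h : s ∈ Set.Ico (m : ℝ) (m + 1)) :
    dm m s = ((Real.exp (s / 2) : ℝ) : ℂ) := Set.indicator_of_mem h _

lemma dm_of_notMem {m : ℤ} {s : ℝ} (h : s ∉ Set.Ico (m : ℝ) (m + 1)) : dm m s = 0 :=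
  Set.indicator_of_notMem h _

lemma dm_bm (m : ℤ) : BM (dm m) := by
  refine ⟨?_, Real.exp ((m + 1) / 2), by positivity, fun s => ?_⟩
  · exact (by fun_prop : Measurable fun s : ℝ => ((Real.exp (s / 2) : ℝ) : ℂ)).indicator
      measurableSet_Ico
  · by_cases h : s ∈ Set.Ico (m : ℝ) (m + 1)
    · rw [dm_of_mem h, Complex.norm_real, Real.norm_of_nonneg (by positivity)]
      exact Real.exp_le_exp.2 (by have := h.2; linarith)
    · rw [dm_of_notMem h, norm_zero]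
      positivity

lemma dm_conj (m : ℤ) : (fun s => (starRingEnd ℂ) (dm m s)) = dm m := by
  funext s
  by_cases h : s ∈ Set.Ico (m : ℝ) (m + 1)
  · rw [dm_of_mem h, Complex.conj_ofReal]
  · rw [dm_of_notMem h, map_zero]

/-- the quadratic form `∫ e^s |f(s)|² ds` -/
noncomputable def q0 (f : L2R ℂ) : ℝ≥0∞ := ∫⁻ s, ENNReal.ofReal (Real.exp s * ‖f s‖ ^ 2)

lemma inner_gJ (j : JJ) (f : L2R ℂ) : ⟪gJ j, f⟫_ℂ = ⟪hb j.2, mulOp ℂ (dm j.1) f⟫_ℂ := by
  have := mulOp_adj (dm_bm j.1) (hb j.2) f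
  rw [dm_conj] at this
  exact this

/-- the frame identity -/
theorem frame (f : L2R ℂ) : ∑' j : JJ, ENNReal.ofReal (‖⟪gJ j, f⟫_ℂ‖ ^ 2) = q0 f := by
  rw [ENNReal.tsum_prod']
  have h1 : ∀ m : ℤ, ∑' k : hw, ENNReal.ofReal (‖⟪gJ (m, k), f⟫_ℂ‖ ^ 2) =
      ∫⁻ s, Set.indicator (Set.Ico (m : ℝ) (m + 1))
        (fun s => ENNReal.ofReal (Real.exp s * ‖f s‖ ^ 2)) s := by
    intro m
    have h2 : ∀ k : hw, ENNReal.ofReal (‖⟪gJ (m, k), f⟫_ℂ‖ ^ 2) =
        ENNReal.ofReal (‖⟪hb k, mulOp ℂ (dm m) f⟫_ℂ‖ ^ 2) := by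
      intro k
      rw [inner_gJ]
    simp only [h2]
    rw [parseval_enn, norm_sq_lint]
    refine lintegral_congr_ae ?_
    filter_upwards [mulOp_coe (dm_bm m) f] with s hs
    rw [hs]
    by_cases h : s ∈ Set.Ico (m : ℝ) (m + 1)
    · rw [dm_of_mem h, Set.indicator_of_mem h, smul_eq_mul, norm_mul, mul_pow,
        Complex.norm_real, Real.norm_of_nonneg (by positivity), ← Real.exp_nat_mul]
      congr 3
      push_cast
      ring
    · rw [dm_of_notMem h, Set.indicator_of_notMem h, zero_smul, norm_zero]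
      norm_num
  simp only [h1]
  rw [q0, ← lintegral_tsum]
  · refine lintegral_congr fun s => ?_
    rw [tsum_eq_single ⌊s⌋]
    · rw [Set.indicator_of_mem]
      exact ⟨Int.floor_le s, Int.lt_floor_add_one s⟩
    · intro m hm
      rw [Set.indicator_of_notMem]
      rintro ⟨h2, h3⟩
      exact hm (Int.floor_eq_iff.2 ⟨h2, h3⟩).symm
  · intro m
    have hf : AEMeasurable (fun s => ENNReal.ofReal (Real.exp s * ‖f s‖ ^ 2)) volume := by
      refine ENNReal.measurable_ofReal.comp_aemeasurable ?_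
      exact Real.measurable_exp.aemeasurable.mul
        ((Lp.aestronglyMeasurable f).norm.aemeasurable.pow_const 2)
    exact hf.indicator measurableSet_Ico

section SS

variable {K : Type*} [NormedAddCommGroup K] [InnerProductSpace ℂ K] [CompleteSpace K]

lemma SS_eq {ι : Type*} (b : HilbertBasis ι ℂ K) (Θ : L2R ℂ →L[ℂ] K) :
    SS Θ = ∑' i, q0 ((adjoint Θ) (b i)) := by
  have h1 : ∀ j : JJ, ENNReal.ofReal (‖Θ (gJ j)‖ ^ 2) =
      ∑' i, ENNReal.ofReal (‖⟪gJ j, (adjoint Θ) (b i)⟫_ℂ‖ ^ 2) := by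
    intro j
    rw [← parseval_enn b]
    refine tsum_congr fun i => ?_
    rw [adjoint_inner_right, ← norm_inner_symm]
  rw [SS]
  simp only [h1]
  rw [ENNReal.tsum_comm]
  exact tsum_congr fun i => frame _

lemma q0_mulOp {m : ℝ → ℂ} (h : BM m) (h1 : ∀ s, ‖m s‖ = 1) (f : L2R ℂ) :
    q0 (mulOp ℂ m f) = q0 f := by
  rw [q0, q0]
  refine lintegral_congr_ae ?_
  filter_upwards [mulOp_coe h f] with s hs
  rw [hs, smul_eq_mul, norm_mul, h1, one_mul]

lemma SS_mulOp {m : ℝ → ℂ} (h : BM m) (h1 : ∀ s, ‖m s‖ = 1) (Θ : L2R ℂ →L[ℂ] K) :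
    SS (Θ.comp (mulOp ℂ m)) = SS Θ := by
  obtain ⟨w, b, -⟩ := exists_hilbertBasis ℂ K
  rw [SS_eq b, SS_eq b]
  refine tsum_congr fun i => ?_
  rw [adjoint_comp, ← ContinuousLinearMap.star_eq_adjoint (mulOp ℂ m), mulOp_star h]
  change q0 (mulOp ℂ _ ((adjoint Θ) (b i))) = _
  rw [q0_mulOp h.conj (fun s => by rw [RCLike.norm_conj, h1])]

end SS

end Pool.Agent.Helper23

end

section

open scoped InnerProductSpace Topology ENNReal

open ContinuousLinearMap Filter MeasureTheory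

set_option linter.unusedSectionVars false

set_option linter.unusedVariables false

namespace Pool.Agent.Helper23

variable {H : Type*} [NormedAddCommGroup H] [InnerProductSpace ℂ H] [CompleteSpace H]

variable {M N : VonNeumannAlgebra H} {ξ : H} {E : (H →L[ℂ] H) → (H →L[ℂ] H)}

lemma SX_def (ξ : H) (Y : L2R H →L[ℂ] L2R H) :
    SX ξ Y = ∑' j : JJ, ENNReal.ofReal (‖Y (ten (gJ j) ξ)‖ ^ 2) := rfl

end Pool.Agent.Helper23

end

section

open scoped InnerProductSpace Topology ENNReal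

open ContinuousLinearMap Filter MeasureTheory

set_option linter.unusedSectionVars false

set_option linter.unusedVariables false

namespace Pool.Agent.Helper23

variable {H : Type*} [NormedAddCommGroup H] [InnerProductSpace ℂ H] [CompleteSpace H]

variable {M N : VonNeumannAlgebra H} {ξ : H} {E : (H →L[ℂ] H) → (H →L[ℂ] H)}

lemma hasSum_TT {W : L2R H →L[ℂ] L2R H} (h : SX ξ W ≠ ⊤) :
    HasSum (fun j : JJ => (((‖W (ten (gJ j) ξ)‖ : ℝ) : ℂ)) ^ 2) (((SX ξ W).toReal : ℝ) : ℂ) := by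
  rw [SX_def] at h
  have h1 := ENNReal.hasSum_toReal h
  rw [← ENNReal.tsum_toReal_eq (fun j => ENNReal.ofReal_ne_top)] at h1
  have h2 : (fun j : JJ => (ENNReal.ofReal (‖W (ten (gJ j) ξ)‖ ^ 2)).toReal) =
      fun j => ‖W (ten (gJ j) ξ)‖ ^ 2 := by
    funext j
    exact ENNReal.toReal_ofReal (by positivity)
  rw [h2, ← SX_def] at h1
  have h3 := Complex.hasSum_ofReal.2 h1
  have h4 : (fun j : JJ => (((‖W (ten (gJ j) ξ)‖ : ℝ) : ℂ)) ^ 2) =
      fun j : JJ => ((‖W (ten (gJ j) ξ)‖ ^ 2 : ℝ) : ℂ) := by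
    funext j
    push_cast
    rfl
  rw [h4]
  exact h3

lemma SX_add_ne_top {W Z : L2R H →L[ℂ] L2R H} (hW : SX ξ W ≠ ⊤) (hZ : SX ξ Z ≠ ⊤) :
    SX ξ (W + Z) ≠ ⊤ := by
  have h1 : SX ξ (W + Z) ≤ 2 * (SX ξ W + SX ξ Z) := by
    rw [SX_def, SX_def, SX_def, ← ENNReal.tsum_add, ← ENNReal.tsum_mul_left]
    refine ENNReal.tsum_le_tsum fun j => ?_
    rw [← ENNReal.ofReal_add (by positivity) (by positivity), two_mul_ofReal]
    refine ENNReal.ofReal_le_ofReal ?_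
    rw [add_apply]
    have h2 := parallelogram_law_with_norm ℂ (W (ten (gJ j) ξ)) (Z (ten (gJ j) ξ))
    nlinarith [sq_nonneg (‖W (ten (gJ j) ξ) - Z (ten (gJ j) ξ)‖)]
  refine ne_top_of_le_ne_top ?_ h1
  exact ENNReal.mul_ne_top (by norm_num) (ENNReal.add_ne_top.2 ⟨hW, hZ⟩)

lemma SX_smul (c : ℂ) (W : L2R H →L[ℂ] L2R H) :
    SX ξ (c • W) = ENNReal.ofReal (‖c‖ ^ 2) * SX ξ W := by
  rw [SX_def, SX_def, ← ENNReal.tsum_mul_left]
  refine tsum_congr fun j => ?_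
  rw [smul_apply, norm_smul, mul_pow, ENNReal.ofReal_mul (by positivity)]

lemma SX_smul_ne_top (c : ℂ) {W : L2R H →L[ℂ] L2R H} (hW : SX ξ W ≠ ⊤) : SX ξ (c • W) ≠ ⊤ := by
  rw [SX_smul]
  exact ENNReal.mul_ne_top ENNReal.ofReal_ne_top hW

lemma he_bm (n : ℕ) : BM (he n) := by
  refine ⟨?_, Real.exp n, by positivity, fun s => ?_⟩
  · exact (by fun_prop : Measurable fun s : ℝ => ((Real.exp s : ℝ) : ℂ)).indicator
      measurableSet_Ico
  · by_cases h : s ∈ Set.Ico (-(n : ℝ)) n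
    · rw [he, Set.indicator_of_mem h, Complex.norm_real, Real.norm_of_nonneg (by positivity)]
      exact Real.exp_le_exp.2 h.2.le
    · rw [he, Set.indicator_of_notMem h, norm_zero]
      positivity

lemma sum_dm (n : ℕ) (s : ℝ) : ∑ m ∈ Finset.Ico (-(n : ℤ)) n, dm m s * dm m s = he n s := by
  by_cases h : s ∈ Set.Ico (-(n : ℝ)) n
  · rw [he, Set.indicator_of_mem h]
    have hk : ⌊s⌋ ∈ Finset.Ico (-(n : ℤ)) n := by
      rw [Finset.mem_Ico]
      constructor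
      · rw [Int.le_floor]; push_cast; exact h.1
      · rw [Int.floor_lt]; push_cast; exact h.2
    rw [Finset.sum_eq_single ⌊s⌋]
    · rw [dm_of_mem ⟨Int.floor_le s, Int.lt_floor_add_one s⟩, ← Complex.ofReal_mul,
        ← Real.exp_add, add_halves]
    · intro m _ hm
      rw [dm_of_notMem, mul_zero]
      rintro ⟨h2, h3⟩
      exact hm (Int.floor_eq_iff.2 ⟨h2, h3⟩).symm
    · intro h'; exact absurd hk h'
  · rw [he, Set.indicator_of_notMem h]
    refine Finset.sum_eq_zero fun m hm => ?_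
    rw [dm_of_notMem, mul_zero]
    rintro ⟨h2, h3⟩
    apply h
    rw [Finset.mem_Ico] at hm
    have h4 : (-(n : ℝ)) ≤ m := by exact_mod_cast hm.1
    have h5 : (m : ℝ) + 1 ≤ n := by exact_mod_cast hm.2
    exact ⟨h4.trans h2, lt_of_lt_of_le h3 h5⟩

lemma q0_lt_top {n : ℕ} {f : L2R ℂ} (hf : Pn n f = f) : q0 f ≠ ⊤ := by
  have h1 : q0 f ≤ ENNReal.ofReal (Real.exp n) * ENNReal.ofReal (‖f‖ ^ 2) := by
    rw [norm_sq_lint, q0, ← lintegral_const_mul' _ _ ENNReal.ofReal_ne_top]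
    refine lintegral_mono_ae ?_
    have h2 := mulOp_coe (ind_bm (measurableSet_Ico (a := -(n : ℝ)) (b := n))) f
    change (Pn n f : ℝ → ℂ) =ᵐ[volume] _ at h2
    rw [hf] at h2
    filter_upwards [h2] with s hs
    rw [← ENNReal.ofReal_mul (by positivity)]
    refine ENNReal.ofReal_le_ofReal ?_
    by_cases h : s ∈ Set.Ico (-(n : ℝ)) n
    · gcongr
      exact h.2.le
    · rw [ind_of_notMem h, zero_smul] at hs
      rw [hs, norm_zero]
      simp
  exact ne_top_of_le_ne_top (ENNReal.mul_ne_top ENNReal.ofReal_ne_top ENNReal.ofReal_ne_top) h1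

lemma SX_rk (b : H →L[ℂ] H) (e f : L2R ℂ) :
    SX ξ (rk b e f) = ENNReal.ofReal (‖e‖ ^ 2 * ‖b ξ‖ ^ 2) * q0 f := by
  rw [SX_def, ← frame, ← ENNReal.tsum_mul_left]
  refine tsum_congr fun j => ?_
  rw [rk_apply, sl_ten, map_smul, ten_smul_right, norm_smul, norm_ten,
    ← ENNReal.ofReal_mul (by positivity), norm_inner_symm]
  congr 1
  ring

end Pool.Agent.Helper23

end

section

open scoped InnerProductSpace Topology ENNReal

open ContinuousLinearMap Filter MeasureTheory Polynomial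

set_option linter.unusedSectionVars false

set_option linter.unusedVariables false

namespace Pool.Agent.Helper23

variable {H : Type*} [NormedAddCommGroup H] [InnerProductSpace ℂ H] [CompleteSpace H]

variable {M N : VonNeumannAlgebra H} {ξ : H} {E : (H →L[ℂ] H) → (H →L[ℂ] H)}

lemma he_of_mem {n : ℕ} {s : ℝ} (h : s ∈ Set.Ico (-(n : ℝ)) n) :
    he n s = ((Real.exp s : ℝ) : ℂ) := Set.indicator_of_mem h _

end Pool.Agent.Helper23

end

section

open scoped InnerProductSpace Topology ENNReal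

open ContinuousLinearMap Filter MeasureTheory

set_option linter.unusedSectionVars false

set_option linter.unusedVariables false

namespace Pool.Agent.Helper23

variable {H : Type*} [NormedAddCommGroup H] [InnerProductSpace ℂ H] [CompleteSpace H]

variable {M N : VonNeumannAlgebra H} {ξ : H} {E : (H →L[ℂ] H) → (H →L[ℂ] H)}

namespace GKW

lemma he_conj (n : ℕ) : (fun s => (starRingEnd ℂ) (he n s)) = he n := by
  funext s
  by_cases h : s ∈ Set.Ico (-(n : ℝ)) n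
  · rw [he, Set.indicator_of_mem h, Complex.conj_ofReal]
  · rw [he, Set.indicator_of_notMem h, map_zero]

lemma WkC_one : WkC N ξ (1 : L2R H →L[ℂ] L2R H) := by
  intro n f f' hf hf' b hb
  rw [one_apply_eq_self, one_apply_eq_self, inner_ten, inner_ten, inner_star_right]
  have h3 := mulOp_adj (he_bm n) f' f
  rw [he_conj] at h3
  rw [h3]

lemma sl_mulOp {m : ℝ → ℂ} (hm : BM m) (hc : (fun s => (starRingEnd ℂ) (m s)) = m) (f : L2R ℂ)
    (F : L2R H) : sl (mulOp ℂ m f) F = sl f (mulOp H m F) := by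
  refine ext_inner_left ℂ fun ζ => ?_
  rw [inner_sl, inner_sl, ← mulOp_ten hm]
  have := mulOp_adj hm (ten f ζ) F
  rw [hc] at this
  exact this

lemma dmi_bm (m : ℤ) : BM (dmi m) := by
  refine ⟨?_, Real.exp (-m / 2), by positivity, fun s => ?_⟩
  · exact (by fun_prop : Measurable fun s : ℝ => ((Real.exp (-s / 2) : ℝ) : ℂ)).indicator
      measurableSet_Ico
  · by_cases h : s ∈ Set.Ico (m : ℝ) (m + 1)
    · rw [dmi_of_mem h, Complex.norm_real, Real.norm_of_nonneg (by positivity)]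
      exact Real.exp_le_exp.2 (by have := h.1; linarith)
    · rw [dmi_of_notMem h, norm_zero]
      positivity

lemma dmi_dm (m : ℤ) : (fun s => dmi m s * dm m s) = ind (Set.Ico (m : ℝ) (m + 1)) := by
  funext s
  by_cases h : s ∈ Set.Ico (m : ℝ) (m + 1)
  · rw [dmi_of_mem h, dm_of_mem h, ind_of_mem h, ← Complex.ofReal_mul, ← Real.exp_add]
    have : -s / 2 + s / 2 = 0 := by ring
    rw [this, Real.exp_zero, Complex.ofReal_one]
  · rw [dmi_of_notMem h, ind_of_notMem h, zero_mul]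

/-- the dual frame -/
noncomputable def fJ (j : JJ) : L2R ℂ := mulOp ℂ (dmi j.1) (hb j.2)

lemma he_fJ (n : ℕ) (j : JJ) : mulOp ℂ (he (bd n j.1)) (fJ j) = gJ j := by
  rw [fJ, gJ, mulOp_mulOp (he_bm _) (dmi_bm _)]
  congr 2
  funext s
  by_cases h : s ∈ Set.Ico (j.1 : ℝ) (j.1 + 1)
  · rw [dmi_of_mem h, dm_of_mem h, he_of_mem (Ico_sub n j.1 h), ← Complex.ofReal_mul,
      ← Real.exp_add]
    congr 2
    ring
  · rw [dmi_of_notMem h, dm_of_notMem h, mul_zero]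

lemma Pn_fJ (n : ℕ) (j : JJ) : Pn (bd n j.1) (fJ j) = fJ j := by
  rw [fJ, Pn, mulOp_mulOp (ind_bm measurableSet_Ico) (dmi_bm _)]
  congr 2
  funext s
  by_cases h : s ∈ Set.Ico (j.1 : ℝ) (j.1 + 1)
  · rw [ind_of_mem (Ico_sub n j.1 h), one_mul]
  · rw [dmi_of_notMem h, mul_zero]

lemma he_cut {n n' : ℕ} (h : n ≤ n') {c : L2R ℂ} (hc : Pn n c = c) :
    mulOp ℂ (he n') c = mulOp ℂ (he n) c := by
  conv_lhs => rw [← hc]
  conv_rhs => rw [← hc]
  rw [Pn, mulOp_mulOp (he_bm _) (ind_bm measurableSet_Ico),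
    mulOp_mulOp (he_bm _) (ind_bm measurableSet_Ico)]
  congr 2
  funext s
  by_cases hs : s ∈ Set.Ico (-(n : ℝ)) n
  · have h' : (n : ℝ) ≤ n' := by exact_mod_cast h
    rw [he_of_mem hs, he_of_mem (show s ∈ Set.Ico (-(n' : ℝ)) n' from
      ⟨by linarith [hs.1], by linarith [hs.2]⟩)]
  · rw [ind_of_notMem hs, mul_zero, mul_zero]

/-- the finite rank operators -/
noncomputable def fr {ι : Type*} (H : Type*) [NormedAddCommGroup H] [InnerProductSpace ℂ H]
    [CompleteSpace H] (t : Finset ι) (a c : ι → L2R ℂ) : L2R H →L[ℂ] L2R H :=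
  ∑ i ∈ t, rk 1 (a i) (c i)

lemma fr_apply {ι : Type*} (t : Finset ι) (a c : ι → L2R ℂ) (F : L2R H) :
    fr H t a c F = ∑ i ∈ t, ten (a i) (sl (c i) F) := by
  rw [fr, sum_apply]
  rfl

lemma norm_fr {ι : Type*} (Y : L2R H →L[ℂ] L2R H) (t : Finset ι) (a c : ι → L2R ℂ) (w : L2R H) :
    ((‖(Y * fr H t a c) w‖ ^ 2 : ℝ) : ℂ) =
      ∑ i' ∈ t, ∑ i ∈ t, ⟪w, rk (slX (star Y * Y) (a i') (a i)) (c i') (c i) w⟫_ℂ := by
  have h1 : (Y * fr H t a c) w = ∑ i ∈ t, Y (ten (a i) (sl (c i) w)) := by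
    change Y (fr H t a c w) = _
    rw [fr_apply, map_sum]
  have h2 : ((‖(Y * fr H t a c) w‖ ^ 2 : ℝ) : ℂ) =
      ⟪(Y * fr H t a c) w, (Y * fr H t a c) w⟫_ℂ := by
    rw [inner_self_eq_norm_sq_to_K]; norm_cast
  rw [h2, h1, sum_inner]
  refine Finset.sum_congr rfl fun i' _ => ?_
  rw [inner_sum]
  refine Finset.sum_congr rfl fun i _ => ?_
  rw [rk_apply, ← inner_sl', slX_apply, inner_sl]
  change _ = ⟪ten (a i') (sl (c i') w), (star Y) (Y (ten (a i) (sl (c i) w)))⟫_ℂ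
  rw [inner_star_right]

lemma hs_bm (σ : ℝ) (n : ℕ) : BM (hs σ n) := by
  refine ⟨?_, Real.exp (|σ| * n / 2), by positivity, fun s => ?_⟩
  · exact (by fun_prop : Measurable fun s : ℝ => ((Real.exp (σ * s / 2) : ℝ) : ℂ)).indicator
      measurableSet_Ico
  · by_cases h : s ∈ Set.Ico (-(n : ℝ)) n
    · rw [hs_of_mem h, Complex.norm_real, Real.norm_of_nonneg (by positivity)]
      refine Real.exp_le_exp.2 ?_
      have h1 : |s| ≤ n := abs_le.2 ⟨h.1, h.2.le⟩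
      have h2 : σ * s ≤ |σ| * n := (le_abs_self _).trans (by rw [abs_mul]; gcongr)
      linarith
    · rw [hs_of_notMem h, norm_zero]
      positivity

lemma hs_mul (n : ℕ) : (fun s => hs 1 n s * hs (-1) n s) = ind (Set.Ico (-(n : ℝ)) n) := by
  funext s
  by_cases h : s ∈ Set.Ico (-(n : ℝ)) n
  · rw [hs_of_mem h, hs_of_mem h, ind_of_mem h, ← Complex.ofReal_mul, ← Real.exp_add]
    have : 1 * s / 2 + -1 * s / 2 = 0 := by ring
    rw [this, Real.exp_zero, Complex.ofReal_one]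
  · rw [hs_of_notMem h, ind_of_notMem h, zero_mul]

lemma Pn_hs (σ : ℝ) (n : ℕ) (f : L2R ℂ) : Pn n (mulOp ℂ (hs σ n) f) = mulOp ℂ (hs σ n) f := by
  rw [Pn, mulOp_mulOp (ind_bm measurableSet_Ico) (hs_bm σ n)]
  congr 2
  funext s
  by_cases h : s ∈ Set.Ico (-(n : ℝ)) n
  · rw [ind_of_mem h, one_mul]
  · rw [hs_of_notMem h, mul_zero]

/-- the finite rank projections -/
noncomputable def qs (t : Finset hw) : L2R ℂ →L[ℂ] L2R ℂ :=
  ∑ k ∈ t, (toSpanSingleton ℂ (hb k)).comp (innerSL ℂ (hb k))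

lemma qs_apply (t : Finset hw) (f : L2R ℂ) : qs t f = ∑ k ∈ t, ⟪hb k, f⟫_ℂ • hb k := by
  rw [qs, sum_apply]
  rfl

lemma qs_symm (t : Finset hw) (f g : L2R ℂ) : ⟪qs t f, g⟫_ℂ = ⟪f, qs t g⟫_ℂ := by
  rw [qs_apply, qs_apply, sum_inner, inner_sum]
  refine Finset.sum_congr rfl fun k _ => ?_
  rw [inner_smul_left, inner_smul_right, inner_conj_symm, mul_comm]

lemma qs_norm (t : Finset hw) (f : L2R ℂ) : ‖qs t f‖ ≤ ‖f‖ := by
  have h1 : ((‖qs t f‖ ^ 2 : ℝ) : ℂ) = ((∑ k ∈ t, ‖⟪hb k, f⟫_ℂ‖ ^ 2 : ℝ) : ℂ) := by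
    have h2 : ((‖qs t f‖ ^ 2 : ℝ) : ℂ) = ⟪qs t f, qs t f⟫_ℂ := by
      rw [inner_self_eq_norm_sq_to_K]; norm_cast
    rw [h2, qs_apply, hb.orthonormal.inner_sum]
    push_cast
    refine Finset.sum_congr rfl fun k _ => ?_
    rw [RCLike.conj_mul]
    norm_cast
  have h2 : ‖qs t f‖ ^ 2 = ∑ k ∈ t, ‖⟪hb k, f⟫_ℂ‖ ^ 2 := Complex.ofReal_injective h1
  have h3 := hb.orthonormal.sum_inner_products_le (s := t) f
  have h4 : ‖qs t f‖ ^ 2 ≤ ‖f‖ ^ 2 := by rw [h2]; exact h3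
  exact (pow_le_pow_iff_left₀ (norm_nonneg _) (norm_nonneg _) two_ne_zero).1 h4

lemma q0_hs_neg (n : ℕ) (f : L2R ℂ) :
    q0 (mulOp ℂ (hs (-1) n) f) ≤ ENNReal.ofReal (‖f‖ ^ 2) := by
  rw [norm_sq_lint, q0]
  refine lintegral_mono_ae ?_
  filter_upwards [mulOp_coe (hs_bm (-1) n) f] with s hs'
  refine ENNReal.ofReal_le_ofReal ?_
  rw [hs', norm_smul]
  by_cases h : s ∈ Set.Ico (-(n : ℝ)) n
  · rw [hs_of_mem h, Complex.norm_real, Real.norm_of_nonneg (by positivity), mul_pow, ← mul_assoc,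
      ← Real.exp_nat_mul, ← Real.exp_add]
    have : s + ((2 : ℕ) : ℝ) * (-1 * s / 2) = 0 := by push_cast; ring
    rw [this, Real.exp_zero, one_mul]
  · rw [hs_of_notMem h]
    simp

lemma norm_hs (n : ℕ) (f : L2R ℂ) :
    ENNReal.ofReal (‖mulOp ℂ (hs 1 n) f‖ ^ 2) ≤ q0 f := by
  rw [norm_sq_lint, q0]
  refine lintegral_mono_ae ?_
  filter_upwards [mulOp_coe (hs_bm 1 n) f] with s hs'
  refine ENNReal.ofReal_le_ofReal ?_
  rw [hs', norm_smul]
  by_cases h : s ∈ Set.Ico (-(n : ℝ)) n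
  · rw [hs_of_mem h, Complex.norm_real, Real.norm_of_nonneg (by positivity), mul_pow,
      ← Real.exp_nat_mul]
    have : ((2 : ℕ) : ℝ) * (1 * s / 2) = s := by push_cast; ring
    rw [this]
  · rw [hs_of_notMem h]
    simp
    positivity

/-- the approximating operators -/
noncomputable def Pns (H : Type*) [NormedAddCommGroup H] [InnerProductSpace ℂ H]
    [CompleteSpace H] (n : ℕ) (t : Finset hw) : L2R H →L[ℂ] L2R H :=
  fr H t (fun k => mulOp ℂ (hs 1 n) (hb k)) (fun k => mulOp ℂ (hs (-1) n) (hb k))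

lemma Pns_ten (n : ℕ) (t : Finset hw) (f : L2R ℂ) :
    Pns H n t (ten f ξ) = ten (mulOp ℂ (hs 1 n) (qs t (mulOp ℂ (hs (-1) n) f))) ξ := by
  rw [Pns, fr_apply, qs_apply, map_sum]
  have h0 : ∀ g : hw → L2R ℂ, ten (∑ k ∈ t, g k) ξ = ∑ k ∈ t, ten (g k) ξ := fun g =>
    map_sum (axi ξ) g t
  rw [h0]
  refine Finset.sum_congr rfl fun k _ => ?_
  rw [sl_ten, ten_smul_right, map_smul, ten_smul_left]
  congr 1
  have := mulOp_adj (hs_bm (-1) n) (hb k) f
  rw [hs_conj] at this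
  exact this

lemma SX_Pns_le (n : ℕ) (t : Finset hw) (Y : L2R H →L[ℂ] L2R H) :
    SX ξ (Y * Pns H n t) ≤ SX ξ Y := by
  obtain ⟨w, b, -⟩ := exists_hilbertBasis ℂ (L2R H)
  set p : L2R ℂ →L[ℂ] L2R ℂ := (mulOp ℂ (hs 1 n)).comp ((qs t).comp (mulOp ℂ (hs (-1) n))) with hp
  have h1 : (Y * Pns H n t).comp (axi ξ) = (Y.comp (axi ξ)).comp p := by
    ext f : 1
    change Y (Pns H n t (ten f ξ)) = Y (ten (p f) ξ)
    rw [Pns_ten]
    rfl
  have h2 : adjoint p = (mulOp ℂ (hs (-1) n)).comp ((qs t).comp (mulOp ℂ (hs 1 n))) := by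
    symm
    rw [eq_adjoint_iff]
    intro x y
    change ⟪mulOp ℂ (hs (-1) n) (qs t (mulOp ℂ (hs 1 n) x)), y⟫_ℂ =
      ⟪x, mulOp ℂ (hs 1 n) (qs t (mulOp ℂ (hs (-1) n) y))⟫_ℂ
    have e1 := mulOp_adj (hs_bm (-1) n) (qs t (mulOp ℂ (hs 1 n) x)) y
    have e2 := mulOp_adj (hs_bm 1 n) x (qs t (mulOp ℂ (hs (-1) n) y))
    rw [hs_conj] at e1 e2
    rw [e1, qs_symm, e2]
  rw [SX, SX, h1, SS_eq b, SS_eq b]
  refine ENNReal.tsum_le_tsum fun i => ?_
  rw [adjoint_comp, h2]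
  set f := (adjoint (Y.comp (axi ξ))) (b i) with hf
  change q0 (mulOp ℂ (hs (-1) n) (qs t (mulOp ℂ (hs 1 n) f))) ≤ q0 f
  refine (q0_hs_neg n _).trans (le_trans (ENNReal.ofReal_le_ofReal ?_) (norm_hs n f))
  gcongr
  exact qs_norm t _

lemma Pns_apply (n : ℕ) (t : Finset hw) (F : L2R H) :
    Pns H n t F = mulOp H (hs 1 n) (∑ k ∈ t, ten (hb k) (sl (hb k) (mulOp H (hs (-1) n) F))) := by
  rw [Pns, fr_apply, map_sum]
  refine Finset.sum_congr rfl fun k _ => ?_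
  rw [mulOp_ten (hs_bm 1 n), sl_mulOp (hs_bm (-1) n) (hs_conj (-1) n)]

lemma Pns_tendsto (n : ℕ) (F : L2R H) :
    Tendsto (fun t => Pns H n t F) atTop (𝓝 (mulOp H (ind (Set.Ico (-(n : ℝ)) n)) F)) := by
  have h1 := (hasSum_hb (mulOp H (hs (-1) n) F))
  have h2 : Tendsto (fun t : Finset hw =>
      ∑ k ∈ t, ten (hb k) (sl (hb k) (mulOp H (hs (-1) n) F))) atTop
      (𝓝 (mulOp H (hs (-1) n) F)) := by
    simpa [HasSum] using h1
  have h3 := ((mulOp H (hs 1 n)).continuous.tendsto _).comp h2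
  rw [mulOp_mulOp (hs_bm 1 n) (hs_bm (-1) n), hs_mul] at h3
  refine h3.congr fun t => ?_
  rw [Pns_apply]
  rfl

end GKW

end Pool.Agent.Helper23

end

section

open scoped InnerProductSpace Topology ENNReal

open ContinuousLinearMap Filter MeasureTheory

namespace Pool.Agent.Helper23

variable {H : Type*} [NormedAddCommGroup H] [InnerProductSpace ℂ H] [CompleteSpace H]

variable {G : Type*} [NormedAddCommGroup G] [InnerProductSpace ℂ G] [CompleteSpace G]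

variable {M N : VonNeumannAlgebra H} {ξ : H} {E : (H →L[ℂ] H) → (H →L[ℂ] H)}

/-- Parseval on the fibres -/
lemma hasSum_sq (F : L2R H) : HasSum (fun k : hw => ‖sl (hb k) F‖ ^ 2) (‖F‖ ^ 2) := by
  have h1 := (innerSL ℂ F).hasSum (GKW.hasSum_hb F)
  have h2 : (fun k : hw => (innerSL ℂ F) (ten (hb k) (sl (hb k) F))) =
      fun k : hw => (((‖sl (hb k) F‖ ^ 2 : ℝ)) : ℂ) := by
    funext k
    change ⟪F, ten (hb k) (sl (hb k) F)⟫_ℂ = _
    rw [← inner_sl', inner_self_eq_norm_sq_to_K]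
    norm_cast
  have h3 : (innerSL ℂ F) F = (((‖F‖ ^ 2 : ℝ)) : ℂ) := by
    change ⟪F, F⟫_ℂ = _
    rw [inner_self_eq_norm_sq_to_K]
    norm_cast
  change HasSum (fun k : hw => (innerSL ℂ F) (ten (hb k) (sl (hb k) F))) ((innerSL ℂ F) F) at h1
  rw [h2, h3] at h1
  exact_mod_cast h1

lemma bessel_sq (A : Finset hw) (F : L2R H) : ∑ k ∈ A, ‖sl (hb k) F‖ ^ 2 ≤ ‖F‖ ^ 2 :=
  sum_le_hasSum A (fun _ _ => by positivity) (hasSum_sq F)

/-- the two Bessel inequalities together -/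
lemma bessel_both {t : ℝ} (ht : 0 < t) (A : Finset ℤ) (B : Finset hw) {μ : ℤ → ℝ → ℂ}
    (hμ : ∀ i, BM (μ i)) (hμ0 : ∀ i s, s ∉ win t i → μ i s = 0) {c : ℝ} (hc : 0 ≤ c)
    (hμc : ∀ i s, ‖μ i s‖ ≤ c) (V : L2R H) :
    ∑ i ∈ A, ∑ k ∈ B, ‖sl (mulOp ℂ (μ i) (hb k)) V‖ ^ 2 ≤ c ^ 2 * ‖V‖ ^ 2 := by
  have h1 : ∀ i ∈ A, ∑ k ∈ B, ‖sl (mulOp ℂ (μ i) (hb k)) V‖ ^ 2 ≤
      ‖mulOp H (fun s => (starRingEnd ℂ) (μ i s)) V‖ ^ 2 := by
    intro i _
    refine le_trans (le_of_eq (Finset.sum_congr rfl fun k _ => ?_)) (bessel_sq B _)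
    rw [sl_mulOp' (hμ i)]
  refine (Finset.sum_le_sum h1).trans ?_
  exact bessel_mul ht A (fun i => (hμ i).conj) (fun i s h => by rw [hμ0 i s h, map_zero]) hc
    (fun i s => by rw [RCLike.norm_conj]; exact hμc i s) V

end Pool.Agent.Helper23

end

section

open scoped InnerProductSpace Topology ENNReal

open ContinuousLinearMap Filter MeasureTheory

namespace Pool.Agent.Helper23

variable {H : Type*} [NormedAddCommGroup H] [InnerProductSpace ℂ H] [CompleteSpace H]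

variable {M N : VonNeumannAlgebra H} {ξ : H} {E : (H →L[ℂ] H) → (H →L[ℂ] H)}

lemma sl_sub_left (f f' : L2R ℂ) (F : L2R H) : sl (f - f') F = sl f F - sl f' F := by
  refine ext_inner_left ℂ fun η => ?_
  rw [inner_sub_right, inner_sl, inner_sl, inner_sl, ten_sub_left, inner_sub_left]

end Pool.Agent.Helper23

end

section

open scoped InnerProductSpace Topology ENNReal

open ContinuousLinearMap Filter MeasureTheory

namespace Pool.Agent.Helper23

variable {H : Type*} [NormedAddCommGroup H] [InnerProductSpace ℂ H] [CompleteSpace H]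

variable {M N : VonNeumannAlgebra H} {ξ : H} {E : (H →L[ℂ] H) → (H →L[ℂ] H)}

/-- finite approximation of the Parseval sums -/
lemma exists_finite {t : ℝ} (A : Finset ℤ) (D : L2R H) {ε : ℝ} (hε : 0 < ε) :
    ∃ B : Finset hw, ∑ i ∈ A, ‖mulOp H (ind (win t i)) D‖ ^ 2 ≤
      ∑ i ∈ A, ∑ k ∈ B, ‖sl (mulOp ℂ (ind (win t i)) (hb k)) D‖ ^ 2 + ε := by
  classical
  have h1 : HasSum (fun k : hw => ∑ i ∈ A, ‖sl (hb k) (mulOp H (ind (win t i)) D)‖ ^ 2)
      (∑ i ∈ A, ‖mulOp H (ind (win t i)) D‖ ^ 2) :=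
    hasSum_sum fun i _ => hasSum_sq (mulOp H (ind (win t i)) D)
  have h2 := (h1.eventually (lt_mem_nhds (show ∑ i ∈ A, ‖mulOp H (ind (win t i)) D‖ ^ 2 - ε <
    ∑ i ∈ A, ‖mulOp H (ind (win t i)) D‖ ^ 2 by linarith))).exists
  obtain ⟨B, hB⟩ := h2
  refine ⟨B, ?_⟩
  have h3 : ∑ k ∈ B, ∑ i ∈ A, ‖sl (hb k) (mulOp H (ind (win t i)) D)‖ ^ 2 =
      ∑ i ∈ A, ∑ k ∈ B, ‖sl (mulOp ℂ (ind (win t i)) (hb k)) D‖ ^ 2 := by
    rw [Finset.sum_comm]
    refine Finset.sum_congr rfl fun i _ => Finset.sum_congr rfl fun k _ => ?_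
    rw [sl_mulOp' (ind_bm (win_meas t i)), ind_conj]
  rw [← h3]
  linarith

end Pool.Agent.Helper23

end

section

open scoped InnerProductSpace Topology ENNReal

open ContinuousLinearMap Filter MeasureTheory

set_option linter.unusedSectionVars false

set_option linter.unusedVariables false

namespace Pool.Agent.Helper23

variable {H : Type*} [NormedAddCommGroup H] [InnerProductSpace ℂ H] [CompleteSpace H]

variable {M N : VonNeumannAlgebra H} {ξ : H} {E : (H →L[ℂ] H) → (H →L[ℂ] H)}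

/-- the weight on the amplification -/
noncomputable def wK (ξ : H) (X : L2R H →L[ℂ] L2R H) : ℝ≥0∞ :=
  ∑' j : JJ, ENNReal.ofReal (⟪ten (gJ j) ξ, X (ten (gJ j) ξ)⟫_ℂ).re

lemma wK_star_mul (ξ : H) (Y : L2R H →L[ℂ] L2R H) : wK ξ (star Y * Y) = SX ξ Y := by
  rw [wK, SX_def]
  refine tsum_congr fun j => ?_
  congr 1
  have h := norm_sq_apply Y (ten (gJ j) ξ)
  change (⟪ten (gJ j) ξ, (star Y) (Y (ten (gJ j) ξ))⟫_ℂ).re = _
  rw [← h, Complex.ofReal_re]

lemma q0_eq_zero {f : L2R ℂ} (h : q0 f = 0) : f = 0 := by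
  rw [q0, lintegral_eq_zero_iff'] at h
  · ext1
    filter_upwards [h, Lp.coeFn_zero ℂ 2 volume] with s e1 e2
    rw [e2]
    have e3 : Real.exp s * ‖f s‖ ^ 2 ≤ 0 := ENNReal.ofReal_eq_zero.1 e1
    have e4 : 0 < Real.exp s := Real.exp_pos s
    have e5 : ‖f s‖ ^ 2 ≤ 0 := by
      by_contra hcon
      push Not at hcon
      nlinarith [mul_pos e4 hcon]
    have e6 : ‖f s‖ = 0 := by nlinarith [norm_nonneg (f s)]
    exact norm_eq_zero.1 e6
  · refine ENNReal.measurable_ofReal.comp_aemeasurable ?_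
    exact Real.measurable_exp.aemeasurable.mul
      ((Lp.aestronglyMeasurable f).norm.aemeasurable.pow_const 2)

lemma SX_eq_zero {Y : L2R H →L[ℂ] L2R H} (h : SX ξ Y = 0) (f : L2R ℂ) : Y (ten f ξ) = 0 := by
  rw [SX_def, ENNReal.tsum_eq_zero] at h
  have h1 : ∀ j : JJ, Y (ten (gJ j) ξ) = 0 := by
    intro j
    have := h j
    rw [ENNReal.ofReal_eq_zero] at this
    have h2 : ‖Y (ten (gJ j) ξ)‖ = 0 := by nlinarith [norm_nonneg (Y (ten (gJ j) ξ))]
    exact norm_eq_zero.1 h2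
  refine ext_inner_right ℂ fun k => ?_
  rw [inner_zero_left]
  have h3 : (adjoint (Y.comp (axi ξ))) k = 0 := by
    refine q0_eq_zero ?_
    rw [← frame]
    refine ENNReal.tsum_eq_zero.2 fun j => ?_
    rw [adjoint_inner_right]
    change ENNReal.ofReal (‖⟪Y (ten (gJ j) ξ), k⟫_ℂ‖ ^ 2) = 0
    rw [h1, inner_zero_left]
    simp
  have h4 : ⟪f, (adjoint (Y.comp (axi ξ))) k⟫_ℂ = ⟪Y (ten f ξ), k⟫_ℂ := by
    rw [adjoint_inner_right]; rfl
  rw [← h4, h3, inner_zero_right]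

end Pool.Agent.Helper23

end

section

open scoped InnerProductSpace Topology ENNReal BoundedContinuousFunction

open ContinuousLinearMap Filter MeasureTheory

namespace Pool.Agent.Helper23.ED

open Pool.Agent.Helper23 Pool.Agent.Helper23.RBF

universe u

variable {H : Type*} [NormedAddCommGroup H] [InnerProductSpace ℂ H] [CompleteSpace H]

variable {M N : VonNeumannAlgebra H} {ξ : H} {E : (H →L[ℂ] H) → (H →L[ℂ] H)}

namespace MnA

/-- multiplication operators by unimodular functions are unitary -/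
lemma mulOp_unit {m : ℝ → ℂ} (hm : BM m) (h1 : ∀ s, ‖m s‖ = 1) :
    star (mulOp H m) * mulOp H m = 1 ∧ mulOp H m * star (mulOp H m) = 1 := by
  have hc : ∀ s, (starRingEnd ℂ) (m s) * m s = 1 := by
    intro s
    rw [mul_comm, Complex.mul_conj, Complex.normSq_eq_norm_sq, h1 s]
    norm_num
  have h0 : ∀ F : L2R H, mulOp H (fun _ : ℝ => (1 : ℂ)) F = F := by
    intro F
    ext1
    have hb : BM (fun _ : ℝ => (1 : ℂ)) := ⟨measurable_const, 1, zero_le_one, fun s => by simp⟩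
    filter_upwards [mulOp_coe hb F] with s hs
    rw [hs, one_smul]
  constructor
  · rw [mulOp_star hm]
    ext F : 1
    change mulOp H (fun s => (starRingEnd ℂ) (m s)) (mulOp H m F) = F
    rw [mulOp_mulOp hm.conj hm]
    simp only [hc]
    exact h0 F
  · rw [mulOp_star hm]
    ext F : 1
    change mulOp H m (mulOp H (fun s => (starRingEnd ℂ) (m s)) F) = F
    rw [mulOp_mulOp hm hm.conj]
    simp only [mul_comm (m _), hc]
    exact h0 F

end MnA

end Pool.Agent.Helper23.ED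

end
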