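import Pool.Agent.Helper23.FA.Ns
import Pool.Agent.Helper23.FA.L00_00
import Pool.Agent.Helper23.FA.L00_02
import Pool.Agent.Helper23.FA.L00_03
import Pool.Agent.Helper23.FA.L00_11
import Pool.Agent.Helper23.FA.L00_17
import Pool.Agent.Helper23.FA.L00_19

/-!
Parts of Helper23.UDefs, Helper4.PU.U2, Helper72.UPow.Hup, Helper23.UOc, Helper23.UOc2, Helper53.U.Eig, Helper4.PU.U10, Helper5.PU.U11, Helper75.UFlow, Helper23.UBF, Helper88.CS.Trick1
-/

section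

open scoped InnerProductSpace Topology

open ContinuousLinearMap Filter

namespace Pool.Agent.Helper23

variable {H : Type*} [NormedAddCommGroup H] [InnerProductSpace ℂ H] [CompleteSpace H]

variable {K : Type*} [NormedAddCommGroup K] [InnerProductSpace ℂ K] [CompleteSpace K]

/-- the operator on the ultrapower given by a bounded sequence of operators -/
noncomputable def opU (mk : (ℕ → H) → K) (a : ℕ → H →L[ℂ] H) : K →L[ℂ] K :=
  open Classical in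
  if h : ∃ T : K →L[ℂ] K, ∀ x, Bdd x → T (mk x) = mk (fun n => a n (x n)) then h.choose else 0

/-- The ultrapower of the inclusion `N ⊆ M` with its expectation and vector; `rep x` is the
element of the ultrapower of `M` given by the sequence `x` in `AppS M ξ`. -/
structure Oc (M N : VonNeumannAlgebra H) (E : (H →L[ℂ] H) → (H →L[ℂ] H)) (ξ : H)
    (MT NT : VonNeumannAlgebra K) (ET : (K →L[ℂ] K) → (K →L[ℂ] K)) (ζ : K)
    (rep : (ℕ → H →L[ℂ] H) → (K →L[ℂ] K)) : Prop where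
  set : Setting MT NT ET ζ
  add : ∀ x ∈ AppS M ξ, ∀ y ∈ AppS M ξ, rep (fun n => x n + y n) = rep x + rep y
  smul : ∀ (c : ℂ), ∀ x ∈ AppS M ξ, rep (fun n => c • x n) = c • rep x
  mul : ∀ x ∈ AppS M ξ, ∀ y ∈ AppS M ξ, rep (fun n => x n * y n) = rep x * rep y
  star : ∀ x ∈ AppS M ξ, rep (fun n => star (x n)) = star (rep x)
  one : rep (fun _ => 1) = 1
  norm : ∀ x ∈ AppS M ξ, ∀ C : ℝ, (∀ n, ‖x n‖ ≤ C) → ‖rep x‖ ≤ C
  inner : ∀ x ∈ AppS M ξ, ∀ y ∈ AppS M ξ,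
    Tendsto (fun n => ⟪x n ξ, y n ξ⟫_ℂ) (UU : Filter ℕ) (𝓝 ⟪rep x ζ, rep y ζ⟫_ℂ)
  memM : ∀ x ∈ AppS M ξ, rep x ∈ MT
  memN : ∀ x ∈ AppS M ξ, (∀ n, x n ∈ N) → rep x ∈ NT
  surjM : ∀ T ∈ MT, ∃ x ∈ AppS M ξ, (∀ n, ‖x n‖ ≤ 2 * ‖T‖) ∧ T = rep x
  surjN : ∀ T ∈ NT, ∃ x ∈ AppS M ξ, (∀ n, x n ∈ N) ∧ (∀ n, ‖x n‖ ≤ 2 * ‖T‖) ∧ T = rep x
  expect : ∀ x ∈ AppS M ξ, ET (rep x) = rep (fun n => E (x n))

end Pool.Agent.Helper23

end

section

open scoped InnerProductSpace Topology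

open ContinuousLinearMap Filter

namespace Pool.Agent.Helper23

universe u

variable {H : Type u} [NormedAddCommGroup H] [InnerProductSpace ℂ H] [CompleteSpace H]

variable {M N : VonNeumannAlgebra H} {ξ : H} {E : (H →L[ℂ] H) → (H →L[ℂ] H)}

section U2

theorem AppR_smul (c : ℂ) {x : ℕ → H →L[ℂ] H} (hx : x ∈ AppR M ξ) :
    (fun n => c • x n) ∈ AppR M ξ := by
  obtain ⟨hxM, ⟨C, hC⟩, hx⟩ := hx
  refine ⟨fun n => smul_mem' c (hxM n), ⟨‖c‖ * C, fun n => ?_⟩, fun ε hε => ?_⟩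
  · rw [norm_smul]
    exact mul_le_mul_of_nonneg_left (hC n) (norm_nonneg _)
  · obtain ⟨r, hr, ⟨A, hA⟩, h1⟩ := hx (ε / (‖c‖ + 1)) (by positivity)
    refine ⟨fun n => c • r n, fun n => smul_mem' c (hr n), ⟨‖c‖ * A, fun n => ?_⟩, ?_⟩
    · rw [norm_smul]
      exact mul_le_mul_of_nonneg_left (hA n) (norm_nonneg _)
    filter_upwards [h1] with n h3
    have e1 : (c • x n) ξ - (c • r n) ξ = c • (x n ξ - r n ξ) := by
      rw [smul_apply, smul_apply, smul_sub]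
    rw [e1, norm_smul]
    calc ‖c‖ * ‖x n ξ - r n ξ‖ ≤ (‖c‖ + 1) * (ε / (‖c‖ + 1)) := by gcongr; linarith
      _ = ε := by field_simp

theorem AppR_mul {x y : ℕ → H →L[ℂ] H} (hx : x ∈ AppR M ξ) (hy : y ∈ AppR M ξ) :
    (fun n => x n * y n) ∈ AppR M ξ := by
  obtain ⟨hxM, hxB, hx⟩ := hx
  obtain ⟨hyM, hyB, hy⟩ := hy
  obtain ⟨C, hC0, hC⟩ := U2.bdd_nonneg hxB
  obtain ⟨D, hD0, hD⟩ := U2.bdd_nonneg hyB
  refine ⟨fun n => mul_mem (hxM n) (hyM n), ⟨C * D, fun n => ?_⟩, fun ε hε => ?_⟩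
  · exact (norm_mul_le _ _).trans (mul_le_mul (hC n) (hD n) (norm_nonneg _) hC0)
  · obtain ⟨s, hs, hsB, h2⟩ := hy (ε / (2 * (C + 1))) (by positivity)
    obtain ⟨B, hB0, hB⟩ := U2.bdd_nonneg hsB
    obtain ⟨r, hr, hrB, h1⟩ := hx (ε / (2 * (B + 1))) (by positivity)
    obtain ⟨A, hA0, hA⟩ := U2.bdd_nonneg hrB
    refine ⟨fun n => s n * r n, fun n => mul_mem (hs n) (hr n), ⟨B * A, fun n => ?_⟩, ?_⟩
    · exact (norm_mul_le _ _).trans (mul_le_mul (hB n) (hA n) (norm_nonneg _) hB0)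
    filter_upwards [h1, h2] with n h3 h4
    have e1 : (x n * y n) ξ - (s n * r n) ξ = x n (y n ξ - s n ξ) + s n (x n ξ - r n ξ) := by
      have := commute_apply (hxM n) (hs n) ξ
      change x n (y n ξ) - s n (r n ξ) = _
      rw [map_sub, map_sub, this]
      abel
    rw [e1]
    calc ‖x n (y n ξ - s n ξ) + s n (x n ξ - r n ξ)‖
        ≤ ‖x n (y n ξ - s n ξ)‖ + ‖s n (x n ξ - r n ξ)‖ := norm_add_le _ _
      _ ≤ C * (ε / (2 * (C + 1))) + B * (ε / (2 * (B + 1))) := by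
          gcongr
          · exact ((x n).le_of_opNorm_le (hC n) _).trans (mul_le_mul_of_nonneg_left h4 hC0)
          · exact ((s n).le_of_opNorm_le (hB n) _).trans (mul_le_mul_of_nonneg_left h3 hB0)
      _ ≤ (C + 1) * (ε / (2 * (C + 1))) + (B + 1) * (ε / (2 * (B + 1))) := by
          gcongr <;> linarith
      _ = ε := by field_simp; ring

/-- bounded sequences of scalars -/
theorem AppR_scalar {c : ℕ → ℂ} (hc : Bdd c) :
    (fun n => c n • (1 : H →L[ℂ] H)) ∈ AppR M ξ := by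
  obtain ⟨C, hC0, hC⟩ := U2.bdd_nonneg hc
  have hB : Bdd fun n => c n • (1 : H →L[ℂ] H) := by
    refine ⟨C * 1, fun n => ?_⟩
    rw [norm_smul]
    exact mul_le_mul (hC n) (ContinuousLinearMap.norm_id_le) (norm_nonneg _) hC0
  refine ⟨fun n => smul_mem' _ (one_mem M), hB, fun ε hε => ?_⟩
  refine ⟨fun n => c n • (1 : H →L[ℂ] H), fun n => smul_mem' _ (one_mem _), hB, ?_⟩
  filter_upwards with n
  rw [sub_self, norm_zero]
  exact hε.le

/-- constant sequences -/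
theorem AppR_const (hd : Dense (orb M.commutant ξ : Set H)) {x : H →L[ℂ] H} (hx : x ∈ M) :
    (fun _ => x) ∈ AppR M ξ := by
  refine ⟨fun _ => hx, ⟨‖x‖, fun _ => le_rfl⟩, fun ε hε => ?_⟩
  obtain ⟨z, hz, r, hr, hrz⟩ := Metric.dense_iff.1 hd (x ξ) ε hε
  refine ⟨fun _ => r, fun _ => hr, ⟨‖r‖, fun _ => le_rfl⟩, ?_⟩
  filter_upwards with n
  rw [Metric.mem_ball, dist_eq_norm, norm_sub_rev] at hz
  rw [hrz]
  exact hz.le

/-- closedness -/
theorem AppR_limit {x : ℕ → H →L[ℂ] H} (hx : ∀ n, x n ∈ M) (hb : Bdd x)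
    (h : ∀ ε : ℝ, 0 < ε → ∃ y ∈ AppR M ξ, ∀ᶠ n in (UU : Filter ℕ), ‖x n ξ - y n ξ‖ ≤ ε) :
    x ∈ AppR M ξ := by
  refine ⟨hx, hb, fun ε hε => ?_⟩
  obtain ⟨y, ⟨-, -, hy⟩, h1⟩ := h (ε / 2) (by positivity)
  obtain ⟨r, hr, hrB, h2⟩ := hy (ε / 2) (by positivity)
  refine ⟨r, hr, hrB, ?_⟩
  filter_upwards [h1, h2] with n h3 h4
  have e1 : x n ξ - r n ξ = (x n ξ - y n ξ) + (y n ξ - r n ξ) := by abel
  rw [e1]
  linarith [norm_add_le (x n ξ - y n ξ) (y n ξ - r n ξ)]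

end U2

end Pool.Agent.Helper23

end

section

open scoped InnerProductSpace Topology

open ContinuousLinearMap Filter

namespace Pool.Agent.Helper23

universe u

variable {H : Type u} [NormedAddCommGroup H] [InnerProductSpace ℂ H] [CompleteSpace H]

variable {K : Type u} [NormedAddCommGroup K] [InnerProductSpace ℂ K] [CompleteSpace K]

namespace HUP

variable {mk : (ℕ → H) → K} (h : HUP mk)

include h

theorem opU_mk {a : ℕ → H →L[ℂ] H} (ha : Bdd a) {x : ℕ → H} (hx : Bdd x) :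
    opU mk a (mk x) = mk (fun n => a n (x n)) := by
  unfold opU
  rw [dif_pos (h.exists_op ha)]
  exact (h.exists_op ha).choose_spec x hx

theorem opU_norm {a : ℕ → H →L[ℂ] H} {C : ℝ} (ha : ∀ n, ‖a n‖ ≤ C) : ‖opU mk a‖ ≤ C := by
  have hC0 : 0 ≤ C := (norm_nonneg _).trans (ha 0)
  refine ContinuousLinearMap.opNorm_le_bound _ hC0 fun v => ?_
  obtain ⟨x, hx, rfl⟩ := h.surj v
  rw [h.opU_mk ⟨C, ha⟩ ⟨_, hx⟩]
  exact h.norm_mk_le fun n => ((a n).le_opNorm _).trans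
    (mul_le_mul (ha n) (hx n) (norm_nonneg _) hC0)

theorem opU_add {a b : ℕ → H →L[ℂ] H} (ha : Bdd a) (hb : Bdd b) :
    opU mk (fun n => a n + b n) = opU mk a + opU mk b := by
  ext v
  obtain ⟨x, hx, rfl⟩ := h.surj v
  have hx : Bdd x := ⟨_, hx⟩
  rw [_root_.add_apply, h.opU_mk (ha.add hb) hx, h.opU_mk ha hx, h.opU_mk hb hx,
    ← h.add _ _ (ha.app hx) (hb.app hx)]
  rfl

theorem opU_smul (c : ℂ) {a : ℕ → H →L[ℂ] H} (ha : Bdd a) :
    opU mk (fun n => c • a n) = c • opU mk a := by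
  ext v
  obtain ⟨x, hx, rfl⟩ := h.surj v
  have hx : Bdd x := ⟨_, hx⟩
  rw [_root_.smul_apply, h.opU_mk (ha.smul c) hx, h.opU_mk ha hx,
    ← h.smul _ _ (ha.app hx)]
  rfl

theorem bdd_mul {a b : ℕ → H →L[ℂ] H} (ha : Bdd a) (hb : Bdd b) : Bdd (fun n => a n * b n) := by
  obtain ⟨C, hC⟩ := ha
  obtain ⟨D, hD⟩ := hb
  exact ⟨C * D, fun n => (norm_mul_le _ _).trans
    (mul_le_mul (hC n) (hD n) (norm_nonneg _) ((norm_nonneg _).trans (hC n)))⟩

theorem opU_mul {a b : ℕ → H →L[ℂ] H} (ha : Bdd a) (hb : Bdd b) :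
    opU mk (fun n => a n * b n) = opU mk a * opU mk b := by
  ext v
  obtain ⟨x, hx, rfl⟩ := h.surj v
  have hx : Bdd x := ⟨_, hx⟩
  rw [mul_apply_eq_comp, h.opU_mk (h.bdd_mul ha hb) hx, h.opU_mk hb hx,
    h.opU_mk ha (hb.app hx)]
  rfl

theorem opU_star {a : ℕ → H →L[ℂ] H} (ha : Bdd a) :
    opU mk (fun n => star (a n)) = star (opU mk a) := by
  have := UU_neBot
  have ha' : Bdd (fun n => star (a n)) := by
    obtain ⟨C, hC⟩ := ha
    exact ⟨C, fun n => by rw [norm_star]; exact hC n⟩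
  refine ContinuousLinearMap.ext fun v => ?_
  refine ext_inner_right ℂ fun w => ?_
  obtain ⟨x, hx, rfl⟩ := h.surj v
  obtain ⟨y, hy, rfl⟩ := h.surj w
  have hx : Bdd x := ⟨_, hx⟩
  have hy : Bdd y := ⟨_, hy⟩
  rw [ContinuousLinearMap.star_eq_adjoint, ContinuousLinearMap.adjoint_inner_left,
    h.opU_mk ha' hx, h.opU_mk ha hy]
  refine tendsto_nhds_unique (h.inner _ _ (ha'.app hx) hy) ?_
  refine (h.inner _ _ hx (ha.app hy)).congr fun n => ?_
  rw [ContinuousLinearMap.star_eq_adjoint, ContinuousLinearMap.adjoint_inner_left]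

theorem opU_one : opU mk (fun _ => (1 : H →L[ℂ] H)) = 1 := by
  ext v
  obtain ⟨x, hx, rfl⟩ := h.surj v
  rw [h.opU_mk ⟨‖(1 : H →L[ℂ] H)‖, fun _ => le_rfl⟩ ⟨_, hx⟩]
  rfl

end HUP

end Pool.Agent.Helper23

end

section

open scoped InnerProductSpace Topology

open ContinuousLinearMap Filter

namespace Pool.Agent.Helper23

universe u

variable {H : Type u} [NormedAddCommGroup H] [InnerProductSpace ℂ H] [CompleteSpace H]

variable {L : Type u} [NormedAddCommGroup L] [InnerProductSpace ℂ L] [CompleteSpace L]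

variable {K : Type u} [NormedAddCommGroup K] [InnerProductSpace ℂ K] [CompleteSpace K]

variable {M N A : VonNeumannAlgebra H} {ξ : H} {E : (H →L[ℂ] H) → (H →L[ℂ] H)}

section AppS

lemma ocS_smul (c : ℂ) {x : ℕ → H →L[ℂ] H} (hx : x ∈ AppS M ξ) :
    (fun n => c • x n) ∈ AppS M ξ := by
  refine ⟨AppR_smul c hx.1, ?_⟩
  have h := AppR_smul (star c) hx.2
  have e : (fun n => star c • star (x n)) = fun n => star (c • x n) := by
    funext n; rw [star_smul]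
  rwa [e] at h

lemma ocS_mul {x y : ℕ → H →L[ℂ] H} (hx : x ∈ AppS M ξ) (hy : y ∈ AppS M ξ) :
    (fun n => x n * y n) ∈ AppS M ξ := by
  refine ⟨AppR_mul hx.1 hy.1, ?_⟩
  have h := AppR_mul hy.2 hx.2
  have e : (fun n => star (y n) * star (x n)) = fun n => star (x n * y n) := by
    funext n; rw [star_mul]
  rwa [e] at h

lemma ocS_star {x : ℕ → H →L[ℂ] H} (hx : x ∈ AppS M ξ) : (fun n => star (x n)) ∈ AppS M ξ :=
  ⟨hx.2, by simpa using hx.1⟩

lemma ocS_one : (fun _ => (1 : H →L[ℂ] H)) ∈ AppS M ξ := by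
  have h : (fun _ => (1 : H →L[ℂ] H)) ∈ AppR M ξ := by
    have h1 := AppR_scalar (M := M) (ξ := ξ) (c := fun _ => 1) ⟨1, fun _ => by simp⟩
    simpa using h1
  exact ⟨h, by simpa using h⟩

lemma ocS_mem {x : ℕ → H →L[ℂ] H} (hx : x ∈ AppS M ξ) (n : ℕ) : x n ∈ M := hx.1.1 n

end AppS

instance (M : VonNeumannAlgebra H) (ξ : H) (mk : (ℕ → H) → L) : CompleteSpace (Vs M ξ mk) :=
  (Submodule.isClosed_topologicalClosure _).completeSpace_coe

/-- the representation on the space of the ultrapower -/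
noncomputable def rp (M : VonNeumannAlgebra H) (ξ : H) (mk : (ℕ → H) → L)
    (x : ℕ → H →L[ℂ] H) : Vs M ξ mk →L[ℂ] Vs M ξ mk :=
  ((Vs M ξ mk).orthogonalProjectionOnto).comp ((opU mk x).comp (Vs M ξ mk).subtypeL)

namespace HUP

variable {mk : (ℕ → H) → L} (h : HUP mk)

include h

lemma Vs_dense {v : L} (hv : v ∈ Vs M ξ mk) {ε : ℝ} (hε : 0 < ε) :
    ∃ x ∈ AppS M ξ, ‖v - mk fun n => x n ξ‖ < ε := by
  have h1 : v ∈ closure ((Submodule.span ℂ {v | ∃ x ∈ AppS M ξ, v = mk fun n => x n ξ} :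
      Submodule ℂ L) : Set L) := by
    rw [← Submodule.topologicalClosure_coe]; exact hv
  obtain ⟨w, hw, hvw⟩ := Metric.mem_closure_iff.1 h1 ε hε
  rw [dist_eq_norm] at hvw
  have h2 : ∃ x ∈ AppS M ξ, w = mk fun n => x n ξ := by
    refine Submodule.span_induction (p := fun w _ => ∃ x ∈ AppS M ξ, w = mk fun n => x n ξ)
      ?_ ?_ ?_ ?_ hw
    · intro w hw; exact hw
    · refine ⟨_, ocS_smul 0 ocS_one, ?_⟩
      have h3 := h.smul 0 (fun _ => ξ) (ocB_const ξ)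
      have e : (0 : ℂ) • (mk fun _ => ξ) = 0 := zero_smul _ _
      rw [e] at h3
      exact h3.symm
    · rintro _ _ _ _ ⟨x, hx, rfl⟩ ⟨y, hy, rfl⟩
      refine ⟨_, ocS_add hx hy, ?_⟩
      rw [← h.add _ _ (ocB_app (ocS_bdd hx) ξ) (ocB_app (ocS_bdd hy) ξ)]
      rfl
    · rintro c _ _ ⟨x, hx, rfl⟩
      refine ⟨_, ocS_smul c hx, ?_⟩
      rw [← h.smul c _ (ocB_app (ocS_bdd hx) ξ)]
      rfl
  obtain ⟨x, hx, rfl⟩ := h2
  exact ⟨x, hx, hvw⟩

lemma Vs_inv {x : ℕ → H →L[ℂ] H} (hx : x ∈ AppS M ξ) {v : L} (hv : v ∈ Vs M ξ mk) :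
    opU mk x v ∈ Vs M ξ mk := by
  have hcl : IsClosed {v : L | opU mk x v ∈ Vs M ξ mk} :=
    (Submodule.isClosed_topologicalClosure _).preimage (opU mk x).continuous
  have : v ∈ closure {v : L | opU mk x v ∈ Vs M ξ mk} := by
    rw [Metric.mem_closure_iff]
    intro ε hε
    obtain ⟨y, hy, hvy⟩ := h.Vs_dense hv hε
    refine ⟨_, ?_, by rw [dist_eq_norm]; exact hvy⟩
    change opU mk x (mk fun n => y n ξ) ∈ Vs M ξ mk
    rw [h.opU_mk (ocS_bdd hx) (ocB_app (ocS_bdd hy) ξ)]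
    exact HUP.mem_Vs (ocS_mul hx hy)
  exact hcl.closure_subset this

lemma rp_coe {x : ℕ → H →L[ℂ] H} (hx : x ∈ AppS M ξ) (v : Vs M ξ mk) :
    ((rp M ξ mk x v : Vs M ξ mk) : L) = opU mk x v := by
  have h1 : opU mk x (v : L) ∈ Vs M ξ mk := h.Vs_inv hx v.2
  exact congrArg Subtype.val
    (Submodule.orthogonalProjectionOnto_mem_subspace_eq_self (K := Vs M ξ mk) ⟨_, h1⟩)

lemma rp_add {x y : ℕ → H →L[ℂ] H} (hx : x ∈ AppS M ξ) (hy : y ∈ AppS M ξ) :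
    rp M ξ mk (fun n => x n + y n) = rp M ξ mk x + rp M ξ mk y := by
  ext v
  rw [h.rp_coe (ocS_add hx hy), h.opU_add (ocS_bdd hx) (ocS_bdd hy)]
  rw [add_apply, add_apply, Submodule.coe_add, h.rp_coe hx, h.rp_coe hy]

lemma rp_smul (c : ℂ) {x : ℕ → H →L[ℂ] H} (hx : x ∈ AppS M ξ) :
    rp M ξ mk (fun n => c • x n) = c • rp M ξ mk x := by
  ext v
  rw [h.rp_coe (ocS_smul c hx), h.opU_smul c (ocS_bdd hx)]
  rw [smul_apply, smul_apply, Submodule.coe_smul, h.rp_coe hx]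

lemma rp_mul {x y : ℕ → H →L[ℂ] H} (hx : x ∈ AppS M ξ) (hy : y ∈ AppS M ξ) :
    rp M ξ mk (fun n => x n * y n) = rp M ξ mk x * rp M ξ mk y := by
  ext v
  rw [h.rp_coe (ocS_mul hx hy), h.opU_mul (ocS_bdd hx) (ocS_bdd hy)]
  change _ = ((rp M ξ mk x (rp M ξ mk y v) : Vs M ξ mk) : L)
  rw [h.rp_coe hx, h.rp_coe hy]
  rfl

lemma rp_star {x : ℕ → H →L[ℂ] H} (hx : x ∈ AppS M ξ) :
    rp M ξ mk (fun n => Star.star (x n)) = Star.star (rp M ξ mk x) := by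
  rw [ContinuousLinearMap.star_eq_adjoint, ContinuousLinearMap.eq_adjoint_iff]
  intro v w
  rw [Submodule.coe_inner, Submodule.coe_inner, h.rp_coe (ocS_star hx), h.rp_coe hx,
    h.opU_star (ocS_bdd hx), inner_star_left]

lemma rp_one : rp M ξ mk (fun _ => (1 : H →L[ℂ] H)) = 1 := by
  ext v
  rw [h.rp_coe ocS_one, h.opU_one]
  rfl

lemma rp_norm {x : ℕ → H →L[ℂ] H} {C : ℝ} (hC : ∀ n, ‖x n‖ ≤ C) : ‖rp M ξ mk x‖ ≤ C := by
  have hC0 : 0 ≤ C := (norm_nonneg _).trans (hC 0)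
  refine ContinuousLinearMap.opNorm_le_bound _ hC0 fun v => ?_
  change ‖(Vs M ξ mk).orthogonalProjectionOnto (opU mk x (v : L))‖ ≤ _
  refine (Submodule.norm_orthogonalProjectionOnto_apply_le _ _).trans ?_
  exact (opU mk x).le_of_opNorm_le (h.opU_norm hC) _

end HUP

/-- the vector of the ultrapower -/
def zt (M : VonNeumannAlgebra H) (ξ : H) {mk : (ℕ → H) → L} (h : HUP mk) : Vs M ξ mk :=
  ⟨mk fun _ => ξ, by
    have := HUP.mem_Vs (mk := mk) (M := M) (ξ := ξ) ocS_one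
    exact this⟩

namespace HUP

variable {mk : (ℕ → H) → L} (h : HUP mk)

include h

lemma rp_zt {x : ℕ → H →L[ℂ] H} (hx : x ∈ AppS M ξ) :
    ((rp M ξ mk x (zt M ξ h) : Vs M ξ mk) : L) = mk fun n => x n ξ := by
  rw [h.rp_coe hx]
  exact h.opU_mk (ocS_bdd hx) (ocB_const ξ)

lemma rp_inner {x y : ℕ → H →L[ℂ] H} (hx : x ∈ AppS M ξ) (hy : y ∈ AppS M ξ) :
    Tendsto (fun n => ⟪x n ξ, y n ξ⟫_ℂ) (UU : Filter ℕ)
      (𝓝 ⟪rp M ξ mk x (zt M ξ h), rp M ξ mk y (zt M ξ h)⟫_ℂ) := by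
  rw [Submodule.coe_inner, h.rp_zt hx, h.rp_zt hy]
  exact h.inner _ _ (ocB_app (ocS_bdd hx) ξ) (ocB_app (ocS_bdd hy) ξ)

lemma seqRep (hA : ∀ x ∈ A, x ∈ M) :
    SeqRep A {x | x ∈ AppS M ξ ∧ ∀ n, x n ∈ A} ξ (zt M ξ h) (rp M ξ mk) where
  memA x hx n := hx.2 n
  bdd x hx := ocS_bdd hx.1
  add x hx y hy := ⟨⟨ocS_add hx.1 hy.1, fun n => add_mem (hx.2 n) (hy.2 n)⟩,
    h.rp_add hx.1 hy.1⟩
  smul c x hx := ⟨⟨ocS_smul c hx.1, fun n => smul_mem' c (hx.2 n)⟩, h.rp_smul c hx.1⟩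
  mul x hx y hy := ⟨⟨ocS_mul hx.1 hy.1, fun n => mul_mem (hx.2 n) (hy.2 n)⟩,
    h.rp_mul hx.1 hy.1⟩
  star_mem x hx := ⟨⟨ocS_star hx.1, fun n => star_mem (hx.2 n)⟩, h.rp_star hx.1⟩
  one := ⟨⟨ocS_one, fun _ => one_mem A⟩, h.rp_one⟩
  norm x hx := by
    have := h.norm_tendsto (ocB_app (ocS_bdd hx.1) ξ)
    rw [← h.rp_zt hx.1] at this
    exact this
  opNorm x _ C hC := h.rp_norm hC
  closed x hxA hb hx := by
    refine ⟨⟨?_, ?_⟩, hxA⟩
    · refine AppR_limit (fun n => hA _ (hxA n)) hb fun ε hε => ?_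
      obtain ⟨y, hy, h1⟩ := hx ε hε
      exact ⟨y, hy.1.1, h1.mono fun n hn => hn.1⟩
    · refine AppR_limit (fun n => star_mem (hA _ (hxA n))) ?_ fun ε hε => ?_
      · obtain ⟨C, hC⟩ := hb
        exact ⟨C, fun n => by rw [norm_star]; exact hC n⟩
      · obtain ⟨y, hy, h1⟩ := hx ε hε
        exact ⟨_, hy.1.2, h1.mono fun n hn => hn.2⟩

/-- density of the orbit -/
lemma rp_cyclic (v : Vs M ξ mk) {ε : ℝ} (hε : 0 < ε) :
    ∃ x ∈ AppS M ξ, ‖v - rp M ξ mk x (zt M ξ h)‖ < ε := by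
  obtain ⟨x, hx, h1⟩ := h.Vs_dense v.2 hε
  refine ⟨x, hx, ?_⟩
  have e1 : ‖v - rp M ξ mk x (zt M ξ h)‖ = ‖(v : L) - mk fun n => x n ξ‖ := by
    rw [← h.rp_zt hx]; rfl
  rw [e1]; exact h1

/-- compressions of the sequences of the commutant -/
lemma rp_comm {x : ℕ → H →L[ℂ] H} (hx : x ∈ AppS M ξ) {r : ℕ → H →L[ℂ] H}
    (hr : ∀ n, r n ∈ M.commutant) (hb : Bdd r) :
    rp M ξ mk x * rp M ξ mk r = rp M ξ mk r * rp M ξ mk x := by
  refine ContinuousLinearMap.ext fun v => ?_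
  refine ext_inner_left ℂ fun w => ?_
  have hc : (opU mk x) * (opU mk r) = opU mk r * opU mk x := by
    rw [← h.opU_mul (ocS_bdd hx) hb, ← h.opU_mul hb (ocS_bdd hx)]
    congr 1
    funext n
    ext η
    exact commute_apply (ocS_mem hx n) (hr n) η
  have h1 : ∀ (y : ℕ → H →L[ℂ] H) (a b : Vs M ξ mk), ⟪a, rp M ξ mk y b⟫_ℂ =
      ⟪(a : L), opU mk y (b : L)⟫_ℂ := by
    intro y a b
    change ⟪a, (Vs M ξ mk).orthogonalProjectionOnto (opU mk y (b : L))⟫_ℂ = _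
    rw [Submodule.inner_orthogonalProjectionOnto_eq_of_mem_left]
  have h2 : ⟪w, (rp M ξ mk x * rp M ξ mk r) v⟫_ℂ =
      ⟪rp M ξ mk (fun n => Star.star (x n)) w, rp M ξ mk r v⟫_ℂ := by
    rw [h.rp_star hx, inner_star_left]
    rfl
  have h3 : ⟪w, (rp M ξ mk r * rp M ξ mk x) v⟫_ℂ = ⟪(w : L), opU mk r (opU mk x (v : L))⟫_ℂ := by
    change ⟪w, rp M ξ mk r (rp M ξ mk x v)⟫_ℂ = _
    rw [h1, h.rp_coe hx]
  rw [h2, h3, h1, h.rp_coe (ocS_star hx), h.opU_star (ocS_bdd hx), inner_star_left]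
  exact congrArg (fun T : L →L[ℂ] L => ⟪(w : L), T (v : L)⟫_ℂ) hc

/-- separation -/
lemma rp_sep {T : Vs M ξ mk →L[ℂ] Vs M ξ mk}
    (hT : T ∈ genVN (rp M ξ mk '' {x | x ∈ AppS M ξ ∧ ∀ n, x n ∈ M}))
    (h0 : T (zt M ξ h) = 0) : T = 0 := by
  have hUU := UU_neBot
  -- `T` vanishes on the compressions of the commutant
  have h1 : ∀ r : ℕ → H →L[ℂ] H, (∀ n, r n ∈ M.commutant) → Bdd r →
      T (rp M ξ mk r (zt M ξ h)) = 0 := by
    intro r hr hb
    have h2 : rp M ξ mk r * T = T * rp M ξ mk r := by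
      refine oc_mem_genVN.1 hT _ ?_
      rintro _ ⟨x, ⟨hx, hxM⟩, rfl⟩
      refine ⟨h.rp_comm hx hr hb, ?_⟩
      rw [← h.rp_star hx]
      exact h.rp_comm (ocS_star hx) hr hb
    have h3 := congrArg (fun X : Vs M ξ mk →L[ℂ] Vs M ξ mk => X (zt M ξ h)) h2
    change rp M ξ mk r (T (zt M ξ h)) = T (rp M ξ mk r (zt M ξ h)) at h3
    rw [← h3, h0, map_zero]
  refine ContinuousLinearMap.ext fun v => ?_
  rw [zero_apply]
  have hcl : IsClosed {v : Vs M ξ mk | T v = 0} := isClosed_eq T.continuous continuous_const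
  have hv : v ∈ closure {v : Vs M ξ mk | T v = 0} := by
    rw [Metric.mem_closure_iff]
    intro ε hε
    obtain ⟨x, hx, h2⟩ := h.rp_cyclic v (half_pos hε)
    obtain ⟨r, hr, hrb, h3⟩ := hx.1.2.2 (ε / 4) (by positivity)
    refine ⟨rp M ξ mk r (zt M ξ h), h1 r hr hrb, ?_⟩
    rw [dist_eq_norm]
    have h4 : ‖rp M ξ mk x (zt M ξ h) - rp M ξ mk r (zt M ξ h)‖ ≤ ε / 4 := by
      have e1 : rp M ξ mk x (zt M ξ h) - rp M ξ mk r (zt M ξ h) =
          (Vs M ξ mk).orthogonalProjectionOnto (mk fun n => x n ξ - r n ξ) := by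
        rw [h.mk_sub (ocB_app (ocS_bdd hx) ξ) (ocB_app hrb ξ), map_sub]
        congr 1
        · change (Vs M ξ mk).orthogonalProjectionOnto (opU mk x (mk fun _ => ξ)) = _
          rw [h.opU_mk (ocS_bdd hx) (ocB_const ξ)]
        · change (Vs M ξ mk).orthogonalProjectionOnto (opU mk r (mk fun _ => ξ)) = _
          rw [h.opU_mk hrb (ocB_const ξ)]
      rw [e1]
      refine (Submodule.norm_orthogonalProjectionOnto_apply_le _ _).trans ?_
      exact le_of_tendsto (h.norm_tendsto ((ocB_app (ocS_bdd hx) ξ).sub (ocB_app hrb ξ))) h3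
    calc ‖v - rp M ξ mk r (zt M ξ h)‖ ≤ ‖v - rp M ξ mk x (zt M ξ h)‖ +
          ‖rp M ξ mk x (zt M ξ h) - rp M ξ mk r (zt M ξ h)‖ := by
          have := norm_add_le (v - rp M ξ mk x (zt M ξ h))
            (rp M ξ mk x (zt M ξ h) - rp M ξ mk r (zt M ξ h))
          rwa [sub_add_sub_cancel] at this
      _ < ε := by linarith
  exact hcl.closure_subset hv

end HUP

end Pool.Agent.Helper23

end

section

open scoped InnerProductSpace Topology

open ContinuousLinearMap Filter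

namespace Pool.Agent.Helper23

universe u

variable {H : Type u} [NormedAddCommGroup H] [InnerProductSpace ℂ H] [CompleteSpace H]

variable {L : Type u} [NormedAddCommGroup L] [InnerProductSpace ℂ L] [CompleteSpace L]

variable {M N A : VonNeumannAlgebra H} {ξ : H} {E : (H →L[ℂ] H) → (H →L[ℂ] H)}

/-- the algebra generated by the sequences with values in `A` -/
noncomputable def Mt (M : VonNeumannAlgebra H) (ξ : H) (mk : (ℕ → H) → L)
    (A : VonNeumannAlgebra H) : VonNeumannAlgebra (Vs M ξ mk) :=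
  genVN (rp M ξ mk '' {x | x ∈ AppS M ξ ∧ ∀ n, x n ∈ A})

/-- the expectation on the ultrapower -/
noncomputable def Et (M : VonNeumannAlgebra H) (E : (H →L[ℂ] H) → (H →L[ℂ] H)) (ξ : H)
    (mk : (ℕ → H) → L) (T : Vs M ξ mk →L[ℂ] Vs M ξ mk) : Vs M ξ mk →L[ℂ] Vs M ξ mk :=
  open Classical in
  if h : ∃ x ∈ AppS M ξ, rp M ξ mk x = T then rp M ξ mk (fun n => E (h.choose n)) else 0

section

variable {mk : (ℕ → H) → L} (h : HUP mk)

include h

lemma HUP.rp_eq (hd : Dense (orb M.commutant ξ : Set H)) {x y : ℕ → H →L[ℂ] H}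
    (hx : x ∈ AppS M ξ) (hy : y ∈ AppS M ξ)
    (hxy : rp M ξ mk x (zt M ξ h) = rp M ξ mk y (zt M ξ h)) : rp M ξ mk x = rp M ξ mk y := by
  have h1 : (fun n => x n + (-1 : ℂ) • y n) ∈ AppS M ξ := ocS_add hx (ocS_smul _ hy)
  have h2 : rp M ξ mk (fun n => x n + (-1 : ℂ) • y n) = rp M ξ mk x - rp M ξ mk y := by
    rw [h.rp_add hx (ocS_smul _ hy), h.rp_smul _ hy]
    refine ContinuousLinearMap.ext fun v => ?_
    rw [add_apply, smul_apply, sub_apply, neg_one_smul, sub_eq_add_neg]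
  have h3 := h.rp_sep (T := rp M ξ mk x - rp M ξ mk y) (by
    rw [← h2]
    exact oc_sub_genVN ⟨_, ⟨h1, fun n => ocS_mem h1 n⟩, rfl⟩) (by
    rw [sub_apply, hxy, sub_self])
  exact sub_eq_zero.1 h3

end

end Pool.Agent.Helper23

end

section

open scoped InnerProductSpace Topology BoundedContinuousFunction

open ContinuousLinearMap Filter

namespace Pool.Agent.Helper23

universe u

variable {H : Type u} [NormedAddCommGroup H] [InnerProductSpace ℂ H] [CompleteSpace H]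

variable {K : Type u} [NormedAddCommGroup K] [InnerProductSpace ℂ K] [CompleteSpace K]

variable {M N : VonNeumannAlgebra H} {ξ : H} {E : (H →L[ℂ] H) → (H →L[ℂ] H)}

theorem AppS_one : (fun _ => (1 : H →L[ℂ] H)) ∈ AppS M ξ := by
  have h : (fun _ : ℕ => (1 : H →L[ℂ] H)) ∈ AppR M ξ := by
    have := AppR_scalar (M := M) (ξ := ξ) (c := fun _ => (1 : ℂ)) ⟨1, fun n => by simp⟩
    simpa using this
  refine ⟨h, ?_⟩
  simpa using h

theorem AppS_mul {x y : ℕ → H →L[ℂ] H} (hx : x ∈ AppS M ξ) (hy : y ∈ AppS M ξ) :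
    (fun n => x n * y n) ∈ AppS M ξ := by
  refine ⟨AppR_mul hx.1 hy.1, ?_⟩
  have := AppR_mul hy.2 hx.2
  simpa only [star_mul] using this

theorem AppS_scalar {c : ℕ → ℂ} (hc : Bdd c) :
    (fun n => c n • (1 : H →L[ℂ] H)) ∈ AppS M ξ := by
  refine ⟨AppR_scalar hc, ?_⟩
  have hc' : Bdd (fun n => star (c n)) := by
    obtain ⟨C, hC⟩ := hc
    exact ⟨C, fun n => by rw [norm_star]; exact hC n⟩
  have := AppR_scalar (M := M) (ξ := ξ) hc'
  simpa only [star_smul, star_one] using this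

namespace Oc

variable {MT NT : VonNeumannAlgebra K} {ET : (K →L[ℂ] K) → (K →L[ℂ] K)} {ζ : K}
  {rep : (ℕ → H →L[ℂ] H) → (K →L[ℂ] K)} (O : Oc M N E ξ MT NT ET ζ rep)

include O

theorem inner_one {x : ℕ → H →L[ℂ] H} (hx : x ∈ AppS M ξ) :
    Tendsto (fun n => ⟪ξ, x n ξ⟫_ℂ) (UU : Filter ℕ) (𝓝 ⟪ζ, rep x ζ⟫_ℂ) := by
  have h := O.inner _ AppS_one x hx
  rw [O.one] at h
  exact h

/-- scalar sequences -/
theorem rep_scalar (S : Setting M N E ξ) {c : ℕ → ℂ} (hc : Bdd c) :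
    ∃ c' : ℂ, rep (fun n => c n • (1 : H →L[ℂ] H)) = c' • 1 := by
  obtain ⟨C, hC⟩ := hc
  have hcomp : IsCompact (Metric.closedBall (0 : ℂ) C) := isCompact_closedBall 0 C
  obtain ⟨c', -, hc'⟩ := hcomp.ultrafilter_le_nhds (UU.map c) (by
    rw [Filter.le_principal_iff]
    exact Filter.mem_map.2 (Filter.univ_mem' fun n => by
      rw [Set.mem_preimage, Metric.mem_closedBall, dist_zero_right]; exact hC n))
  have hlim : Tendsto c (UU : Filter ℕ) (𝓝 c') := hc'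
  refine ⟨c', ?_⟩
  have hz : Bdd (fun n => c n - c') := ⟨C + ‖c'‖, fun n => (norm_sub_le _ _).trans (by
    have := hC n; linarith)⟩
  have hzS : (fun n => (c n - c') • (1 : H →L[ℂ] H)) ∈ AppS M ξ := AppS_scalar hz
  have h1 := O.inner _ hzS _ hzS
  have h2 : Tendsto (fun n => ⟪((c n - c') • (1 : H →L[ℂ] H)) ξ,
      ((c n - c') • (1 : H →L[ℂ] H)) ξ⟫_ℂ) (UU : Filter ℕ) (𝓝 0) := by
    have h3 : Tendsto (fun n => ((c n - c') • (1 : H →L[ℂ] H)) ξ) (UU : Filter ℕ) (𝓝 0) := by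
      have h4 : Tendsto (fun n => c n - c') (UU : Filter ℕ) (𝓝 0) := by
        have := hlim.sub_const c'
        rwa [sub_self] at this
      have h5 := h4.smul_const ξ
      rw [zero_smul] at h5
      exact h5
    have h6 := Filter.Tendsto.inner (𝕜 := ℂ) h3 h3
    rwa [inner_zero_left] at h6
  have h3 := tendsto_nhds_unique h1 h2
  have h4 : rep (fun n => (c n - c') • (1 : H →L[ℂ] H)) ζ = 0 := inner_self_eq_zero.1 h3
  have h5 := O.set.sep _ (O.memM _ hzS) h4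
  have h6 : (fun n => c n • (1 : H →L[ℂ] H)) =
      fun n => (c n - c') • (1 : H →L[ℂ] H) + (fun _ : ℕ => c' • (1 : H →L[ℂ] H)) n := by
    funext n
    rw [← add_smul, sub_add_cancel]
  have h7 : (fun _ : ℕ => c' • (1 : H →L[ℂ] H)) ∈ AppS M ξ :=
    AppS_scalar (c := fun _ => c') ⟨‖c'‖, fun _ => le_rfl⟩
  rw [h6, O.add _ hzS _ h7, h5, zero_add, O.smul c' _ AppS_one, O.one]

end Oc

end Pool.Agent.Helper23

end

section

open scoped InnerProductSpace Topology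

open ContinuousLinearMap Filter

namespace Pool.Agent.Helper23

universe u

variable {H : Type u} [NormedAddCommGroup H] [InnerProductSpace ℂ H] [CompleteSpace H]

variable {K : Type u} [NormedAddCommGroup K] [InnerProductSpace ℂ K] [CompleteSpace K]

variable {M N : VonNeumannAlgebra H} {ξ : H} {E : (H →L[ℂ] H) → (H →L[ℂ] H)}

namespace U10

lemma appS_smul (c : ℂ) {x : ℕ → H →L[ℂ] H} (hx : x ∈ AppS M ξ) :
    (fun n => c • x n) ∈ AppS M ξ := by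
  refine ⟨AppR_smul c hx.1, ?_⟩
  have := AppR_smul (star c) hx.2
  simpa only [star_smul] using this

lemma appS_mul {x y : ℕ → H →L[ℂ] H} (hx : x ∈ AppS M ξ) (hy : y ∈ AppS M ξ) :
    (fun n => x n * y n) ∈ AppS M ξ := by
  refine ⟨AppR_mul hx.1 hy.1, ?_⟩
  have := AppR_mul hy.2 hx.2
  simpa only [star_mul] using this

lemma appS_const (S : Setting M N E ξ) {x : H →L[ℂ] H} (hx : x ∈ M) :
    (fun _ => x) ∈ AppS M ξ :=
  ⟨AppR_const S.dense_comm hx, AppR_const S.dense_comm (star_mem hx)⟩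

end U10

open U10

namespace Oc

variable {MT NT : VonNeumannAlgebra K} {ET : (K →L[ℂ] K) → (K →L[ℂ] K)} {ζ : K}
  {rep : (ℕ → H →L[ℂ] H) → (K →L[ℂ] K)} (O : Oc M N E ξ MT NT ET ζ rep)

include O

/-- the vector state of the ultrapower -/
lemma U10_state (S : Setting M N E ξ) {x : ℕ → H →L[ℂ] H} (hx : x ∈ AppS M ξ) :
    Tendsto (fun n => ⟪ξ, x n ξ⟫_ℂ) (UU : Filter ℕ) (𝓝 ⟪ζ, rep x ζ⟫_ℂ) := by
  have h := O.inner (fun _ => 1) (appS_const S (one_mem M)) x hx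
  rw [O.one] at h
  simpa only [one_apply_eq_self] using h

lemma U10_norm {x : ℕ → H →L[ℂ] H} (hx : x ∈ AppS M ξ) :
    Tendsto (fun n => ‖x n ξ‖) (UU : Filter ℕ) (𝓝 ‖rep x ζ‖) := by
  have h := O.inner x hx x hx
  have h2 : Tendsto (fun n => ‖x n ξ‖ ^ 2) (UU : Filter ℕ) (𝓝 (‖rep x ζ‖ ^ 2)) := by
    have h3 := (Complex.continuous_re.tendsto _).comp h
    have e1 : ∀ {G : Type u} [NormedAddCommGroup G] [InnerProductSpace ℂ G] (v : G),
        (⟪v, v⟫_ℂ).re = ‖v‖ ^ 2 := by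
      intro G _ _ v
      rw [inner_self_eq_norm_sq_to_K]
      norm_cast
    rw [e1] at h3
    refine h3.congr fun n => ?_
    exact e1 _
  have h4 := (Real.continuous_sqrt.tendsto _).comp h2
  rw [Real.sqrt_sq (norm_nonneg _)] at h4
  refine h4.congr fun n => ?_
  exact Real.sqrt_sq (norm_nonneg _)

lemma U10_comm {x y a : ℕ → H →L[ℂ] H} (hx : x ∈ AppS M ξ) (hy : y ∈ AppS M ξ)
    (ha : a ∈ AppS M ξ) :
    (fun n => a n * x n - y n * a n) ∈ AppS M ξ ∧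
      rep (fun n => a n * x n - y n * a n) = rep a * rep x - rep y * rep a := by
  have e1 : (fun n => a n * x n - y n * a n) = fun n => a n * x n + (-1 : ℂ) • (y n * a n) := by
    funext n
    rw [neg_one_smul, sub_eq_add_neg]
  have m1 := appS_mul ha hx
  have m2 := appS_mul hy ha
  have m3 := appS_smul (-1) m2
  rw [e1]
  refine ⟨appS_add m1 m3, ?_⟩
  rw [O.add _ m1 _ m3, O.smul _ _ m2, O.mul _ ha _ hx, O.mul _ hy _ ha, neg_one_smul,
    sub_eq_add_neg]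

end Oc

end Pool.Agent.Helper23

end

section

open scoped InnerProductSpace Topology BoundedContinuousFunction

open ContinuousLinearMap Filter

namespace Pool.Agent.Helper23

universe u

variable {H : Type u} [NormedAddCommGroup H] [InnerProductSpace ℂ H] [CompleteSpace H]

variable {K : Type u} [NormedAddCommGroup K] [InnerProductSpace ℂ K] [CompleteSpace K]

variable {M N : VonNeumannAlgebra H} {ξ : H} {E : (H →L[ℂ] H) → (H →L[ℂ] H)}

section aux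

set_option linter.unusedSectionVars false

/-- a weak limit of operators of `A` belongs to `A` -/
lemma U11.mem_of_weak {ι : Type*} {F : Filter ι} [F.NeBot] (A : VonNeumannAlgebra H)
    {x : ι → H →L[ℂ] H} (hx : ∀ i, x i ∈ A) {y : H →L[ℂ] H}
    (h : ∀ v w : H, Tendsto (fun i => ⟪v, x i w⟫_ℂ) F (𝓝 ⟪v, y w⟫_ℂ)) : y ∈ A := by
  rw [mem_iff_commutes]
  intro g hg
  refine U11.op_ext_inner fun v w => ?_
  have h1 := h ((star g) v) w
  have h2 := h v (g w)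
  have h3 : ∀ i, ⟪(star g) v, x i w⟫_ℂ = ⟪v, x i (g w)⟫_ℂ := fun i => by
    rw [inner_star_left, commute_apply (hx i) hg]
  simp only [h3] at h1
  have h4 := tendsto_nhds_unique h1 h2
  rw [inner_star_left] at h4
  exact h4

end aux

lemma U11.const_mem_AppS (S : Setting M N E ξ) {a : H →L[ℂ] H} (ha : a ∈ M) :
    (fun _ : ℕ => a) ∈ AppS M ξ :=
  ⟨AppR_const S.dense_comm ha, AppR_const S.dense_comm (star_mem ha)⟩

lemma U11.AppS_mul {x y : ℕ → H →L[ℂ] H} (hx : x ∈ AppS M ξ) (hy : y ∈ AppS M ξ) :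
    (fun n => x n * y n) ∈ AppS M ξ := by
  refine ⟨AppR_mul hx.1 hy.1, ?_⟩
  have h := AppR_mul hy.2 hx.2
  have e : (fun n => star (x n * y n)) = fun n => star (y n) * star (x n) := by
    funext n; rw [star_mul]
  rw [e]
  exact h

lemma U11.AppS_smul (c : ℂ) {x : ℕ → H →L[ℂ] H} (hx : x ∈ AppS M ξ) :
    (fun n => c • x n) ∈ AppS M ξ := by
  refine ⟨AppR_smul c hx.1, ?_⟩
  have h := AppR_smul (star c) hx.2
  have e : (fun n => star (c • x n)) = fun n => star c • star (x n) := by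
    funext n; rw [star_smul]
  rw [e]
  exact h

lemma U11.AppS_sub {x y : ℕ → H →L[ℂ] H} (hx : x ∈ AppS M ξ) (hy : y ∈ AppS M ξ) :
    (fun n => x n - y n) ∈ AppS M ξ := by
  have h := U11.AppS_add hx (U11.AppS_smul (-1 : ℂ) hy)
  have e : (fun n => x n - y n) = fun n => x n + (-1 : ℂ) • y n := by
    funext n; rw [neg_one_smul, sub_eq_add_neg]
  rw [e]
  exact h

namespace Oc

variable {MT NT : VonNeumannAlgebra K} {ET : (K →L[ℂ] K) → (K →L[ℂ] K)} {ζ : K}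
  {rep : (ℕ → H →L[ℂ] H) → (K →L[ℂ] K)} (O : Oc M N E ξ MT NT ET ζ rep)

include O

lemma u11_rep_sub {x y : ℕ → H →L[ℂ] H} (hx : x ∈ AppS M ξ) (hy : y ∈ AppS M ξ) :
    rep (fun n => x n - y n) = rep x - rep y := by
  have h := O.add x hx _ (U11.AppS_smul (-1 : ℂ) hy)
  rw [O.smul _ y hy, neg_one_smul, ← sub_eq_add_neg] at h
  rw [← h]
  congr 1
  funext n
  rw [neg_one_smul, sub_eq_add_neg]

lemma u11_inner_const (S : Setting M N E ξ) {a b : H →L[ℂ] H} (ha : a ∈ M) (hb : b ∈ M) :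
    ⟪rep (fun _ => a) ζ, rep (fun _ => b) ζ⟫_ℂ = ⟪a ξ, b ξ⟫_ℂ :=
  tendsto_nhds_unique (O.inner _ (U11.const_mem_AppS S ha) _ (U11.const_mem_AppS S hb))
    tendsto_const_nhds

lemma u11_exists_iota (S : Setting M N E ξ) : ∃ ι : H →L[ℂ] K,
    (∀ a ∈ M, ι (a ξ) = rep (fun _ => a) ζ) ∧ ‖ι‖ ≤ 1 := by
  let f : M.toStarSubalgebra →ₗ[ℂ] K :=
    { toFun := fun a => rep (fun _ => (a : H →L[ℂ] H)) ζ
      map_add' := fun a b => by
        have := O.add _ (U11.const_mem_AppS S a.2) _ (U11.const_mem_AppS S b.2)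
        exact congrArg (fun T : K →L[ℂ] K => T ζ) this
      map_smul' := fun c a => by
        have := O.smul c _ (U11.const_mem_AppS S a.2)
        exact congrArg (fun T : K →L[ℂ] K => T ζ) this }
  have hd : DenseRange (evL M ξ) := by
    have : Set.range (evL M ξ) = (orb M ξ : Set H) := by
      ext x
      constructor
      · rintro ⟨a, rfl⟩
        exact ⟨a, a.2, rfl⟩
      · rintro ⟨a, ha, rfl⟩
        exact ⟨⟨a, ha⟩, rfl⟩
    rw [DenseRange, this]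
    exact S.cyc
  obtain ⟨ι, hι, hι1⟩ := exists_ext' f (evL M ξ) hd (C := 1) zero_le_one (by
    intro a
    rw [one_mul]
    change ‖rep (fun _ => (a : H →L[ℂ] H)) ζ‖ ≤ ‖(a : H →L[ℂ] H) ξ‖
    have h1 := O.u11_inner_const S a.2 a.2
    rw [inner_self_eq_norm_sq_to_K, inner_self_eq_norm_sq_to_K] at h1
    have h2 : ‖rep (fun _ => (a : H →L[ℂ] H)) ζ‖ ^ 2 = ‖(a : H →L[ℂ] H) ξ‖ ^ 2 := by
      exact_mod_cast h1
    exact ((pow_left_inj₀ (norm_nonneg _) (norm_nonneg _) two_ne_zero).1 h2).le)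
  exact ⟨ι, fun a ha => hι ⟨a, ha⟩, hι1⟩

lemma u11_weak_aux (S : Setting M N E ξ) {ι : H →L[ℂ] K}
    (hι : ∀ a ∈ M, ι (a ξ) = rep (fun _ => a) ζ) {x : ℕ → H →L[ℂ] H} (hx : x ∈ AppS M ξ)
    (v w : H) :
    Tendsto (fun n => ⟪v, x n w⟫_ℂ) (UU : Filter ℕ)
      (𝓝 ⟪v, ((adjoint ι).comp ((rep x).comp ι)) w⟫_ℂ) := by
  obtain ⟨C, hC⟩ := hx.1.2.1
  refine U11.weak_of_dense hC _ S.cyc ?_ v w
  rintro _ ⟨a, ha, rfl⟩ _ ⟨b, hb, rfl⟩
  have h1 := O.inner _ (U11.const_mem_AppS S ha) _ (U11.AppS_mul hx (U11.const_mem_AppS S hb))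
  rw [O.mul x hx _ (U11.const_mem_AppS S hb)] at h1
  have e1 : ⟪a ξ, ((adjoint ι).comp ((rep x).comp ι)) (b ξ)⟫_ℂ =
      ⟪rep (fun _ => a) ζ, (rep x * rep fun _ => b) ζ⟫_ℂ := by
    change ⟪a ξ, (adjoint ι) (rep x (ι (b ξ)))⟫_ℂ = _
    rw [adjoint_inner_right, hι a ha, hι b hb]
    rfl
  rw [e1]
  exact h1

lemma u11_exists_cc (S : Setting M N E ξ) : ∃ ι : H →L[ℂ] K,
    (∀ a ∈ M, ι (a ξ) = rep (fun _ => a) ζ) ∧ ‖ι‖ ≤ 1 ∧
    ∀ T ∈ MT, ccU M ξ rep ζ T = (adjoint ι).comp (T.comp ι) ∧ ccU M ξ rep ζ T ∈ M := by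
  obtain ⟨ι, hι, hι1⟩ := O.u11_exists_iota S
  refine ⟨ι, hι, hι1, fun T hT => ?_⟩
  have hmem : (adjoint ι).comp (T.comp ι) ∈ M := by
    obtain ⟨x, hx, -, rfl⟩ := O.surjM T hT
    exact U11.mem_of_weak (F := (UU : Filter ℕ)) M hx.1.1 (O.u11_weak_aux S hι hx)
  have hin : ∀ a ∈ M, ∀ b ∈ M, ⟪a ξ, ((adjoint ι).comp (T.comp ι)) (b ξ)⟫_ℂ =
      ⟪rep (fun _ => a) ζ, T (rep (fun _ => b) ζ)⟫_ℂ := by
    intro a ha b hb
    change ⟪a ξ, (adjoint ι) (T (ι (b ξ)))⟫_ℂ = _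
    rw [adjoint_inner_right, hι a ha, hι b hb]
  have h : ∃ y ∈ M, ∀ a ∈ M, ∀ b ∈ M,
    ⟪a ξ, y (b ξ)⟫_ℂ = ⟪rep (fun _ => a) ζ, T (rep (fun _ => b) ζ)⟫_ℂ := ⟨_, hmem, hin⟩
  have hc : ccU M ξ rep ζ T = h.choose := by rw [ccU, dif_pos h]
  obtain ⟨h1, h2⟩ := h.choose_spec
  rw [← hc] at h1 h2
  refine ⟨?_, h1⟩
  refine U11.op_ext_inner fun v w => ?_
  have hw : ∀ v ∈ (orb M ξ : Set H), ∀ w : H,
      ⟪v, ccU M ξ rep ζ T w⟫_ℂ = ⟪v, ((adjoint ι).comp (T.comp ι)) w⟫_ℂ := by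
    rintro _ ⟨a, ha, rfl⟩ w
    have hcl : IsClosed {w : H | ⟪a ξ, ccU M ξ rep ζ T w⟫_ℂ =
        ⟪a ξ, ((adjoint ι).comp (T.comp ι)) w⟫_ℂ} :=
      isClosed_eq (by fun_prop) (by fun_prop)
    refine closure_minimal ?_ hcl (S.cyc w)
    rintro _ ⟨b, hb, rfl⟩
    change ⟪a ξ, ccU M ξ rep ζ T (b ξ)⟫_ℂ = ⟪a ξ, ((adjoint ι).comp (T.comp ι)) (b ξ)⟫_ℂ
    rw [h2 a ha b hb, hin a ha b hb]
  have hcl : IsClosed {v : H | ⟪v, ccU M ξ rep ζ T w⟫_ℂ =
      ⟪v, ((adjoint ι).comp (T.comp ι)) w⟫_ℂ} :=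
    isClosed_eq (by fun_prop) (by fun_prop)
  exact closure_minimal (fun v hv => hw v hv w) hcl (S.cyc v)

/-- U11a -/
theorem cc_spec (S : Setting M N E ξ) {T : K →L[ℂ] K} (hT : T ∈ MT) :
    ccU M ξ rep ζ T ∈ M ∧ ∀ a ∈ M, ∀ b ∈ M,
      ⟪a ξ, ccU M ξ rep ζ T (b ξ)⟫_ℂ = ⟪rep (fun _ => a) ζ, T (rep (fun _ => b) ζ)⟫_ℂ := by
  obtain ⟨ι, hι, hι1, hc⟩ := O.u11_exists_cc S
  refine ⟨(hc T hT).2, fun a ha b hb => ?_⟩
  rw [(hc T hT).1]
  change ⟪a ξ, (adjoint ι) (T (ι (b ξ)))⟫_ℂ = _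
  rw [adjoint_inner_right, hι a ha, hι b hb]

theorem cc_norm_xi (S : Setting M N E ξ) {T : K →L[ℂ] K} (hT : T ∈ MT) :
    ‖ccU M ξ rep ζ T ξ‖ ≤ ‖T ζ‖ := by
  obtain ⟨ι, hι, hι1, hc⟩ := O.u11_exists_cc S
  rw [(hc T hT).1]
  have h1 : ι ξ = ζ := by
    have h := hι 1 (one_mem M)
    rw [O.one] at h
    exact h
  change ‖(adjoint ι) (T (ι ξ))‖ ≤ _
  rw [h1]
  calc ‖(adjoint ι) (T ζ)‖ ≤ ‖adjoint ι‖ * ‖T ζ‖ := le_opNorm _ _
    _ ≤ 1 * ‖T ζ‖ := by
        have : ‖adjoint ι‖ ≤ 1 := by rw [LinearIsometryEquiv.norm_map]; exact hι1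
        gcongr
    _ = ‖T ζ‖ := one_mul _

/-- the compression of `rep x` is the weak limit of `x` -/
theorem cc_rep (S : Setting M N E ξ) {x : ℕ → H →L[ℂ] H} (hx : x ∈ AppS M ξ) (v w : H) :
    Tendsto (fun n => ⟪v, x n w⟫_ℂ) (UU : Filter ℕ) (𝓝 ⟪v, ccU M ξ rep ζ (rep x) w⟫_ℂ) := by
  obtain ⟨ι, hι, hι1, hc⟩ := O.u11_exists_cc S
  rw [(hc (rep x) (O.memM x hx)).1]
  exact O.u11_weak_aux S hι hx v w

theorem cc_const (S : Setting M N E ξ) {x : H →L[ℂ] H} (hx : x ∈ M) :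
    ccU M ξ rep ζ (rep fun _ => x) = x :=
  U11.op_ext_inner fun v w => tendsto_nhds_unique (O.cc_rep S (U11.const_mem_AppS S hx) v w)
    tendsto_const_nhds

theorem cc_sub (S : Setting M N E ξ) {T T' : K →L[ℂ] K} (hT : T ∈ MT) (hT' : T' ∈ MT) :
    ccU M ξ rep ζ (T - T') = ccU M ξ rep ζ T - ccU M ξ rep ζ T' := by
  obtain ⟨ι, hι, hι1, hc⟩ := O.u11_exists_cc S
  rw [(hc T hT).1, (hc T' hT').1, (hc (T - T') (sub_mem hT hT')).1]
  ext w
  change (adjoint ι) (T (ι w) - T' (ι w)) = (adjoint ι) (T (ι w)) - (adjoint ι) (T' (ι w))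
  rw [map_sub]

theorem cc_mul_left (S : Setting M N E ξ) {a : H →L[ℂ] H} (ha : a ∈ M) {T : K →L[ℂ] K}
    (hT : T ∈ MT) : ccU M ξ rep ζ (rep (fun _ => a) * T) = a * ccU M ξ rep ζ T := by
  obtain ⟨x, hx, -, rfl⟩ := O.surjM T hT
  have hm := U11.AppS_mul (U11.const_mem_AppS S ha) hx
  rw [← O.mul _ (U11.const_mem_AppS S ha) x hx]
  refine U11.op_ext_inner fun v w => ?_
  have h1 := O.cc_rep S hm v w
  have h2 := O.cc_rep S hx ((Star.star a) v) w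
  have e : ∀ n, ⟪(Star.star a) v, x n w⟫_ℂ = ⟪v, (a * x n) w⟫_ℂ := fun n => by
    rw [inner_star_left]; rfl
  simp only [e] at h2
  rw [tendsto_nhds_unique h1 h2, inner_star_left]
  rfl

theorem cc_mul_right (S : Setting M N E ξ) {a : H →L[ℂ] H} (ha : a ∈ M) {T : K →L[ℂ] K}
    (hT : T ∈ MT) : ccU M ξ rep ζ (T * rep (fun _ => a)) = ccU M ξ rep ζ T * a := by
  obtain ⟨x, hx, -, rfl⟩ := O.surjM T hT
  have hm := U11.AppS_mul hx (U11.const_mem_AppS S ha)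
  rw [← O.mul x hx _ (U11.const_mem_AppS S ha)]
  refine U11.op_ext_inner fun v w => ?_
  have h1 := O.cc_rep S hm v w
  have h2 := O.cc_rep S hx v (a w)
  exact tendsto_nhds_unique h1 h2

/-- a sequence of `AppS` with `x n ξ → 0` along the ultrafilter represents `0` -/
lemma u11_rep_eq_zero {x : ℕ → H →L[ℂ] H} (hx : x ∈ AppS M ξ)
    (h : ∀ ε : ℝ, 0 < ε → ∀ᶠ n in (UU : Filter ℕ), ‖x n ξ‖ ≤ ε) : rep x = 0 := by
  refine O.set.sep _ (O.memM x hx) ?_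
  have h1 := O.inner x hx x hx
  have h2 : Tendsto (fun n => ⟪x n ξ, x n ξ⟫_ℂ) (UU : Filter ℕ) (𝓝 0) := by
    rw [tendsto_zero_iff_norm_tendsto_zero, Metric.tendsto_nhds]
    intro ε hε
    have h3 := h (Real.sqrt (ε / 2)) (Real.sqrt_pos.2 (half_pos hε))
    filter_upwards [h3] with n hn
    rw [dist_zero_right, norm_norm]
    calc ‖⟪x n ξ, x n ξ⟫_ℂ‖ ≤ ‖x n ξ‖ * ‖x n ξ‖ := norm_inner_le_norm _ _
      _ ≤ Real.sqrt (ε / 2) * Real.sqrt (ε / 2) := by gcongr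
      _ = ε / 2 := Real.mul_self_sqrt (by positivity)
      _ < ε := by linarith
  have h3 := tendsto_nhds_unique h1 h2
  exact inner_self_eq_zero.1 h3

end Oc

end Pool.Agent.Helper23

end

section

open scoped InnerProductSpace Topology

open ContinuousLinearMap Filter

namespace Pool.Agent.Helper23

universe u

variable {H : Type u} [NormedAddCommGroup H] [InnerProductSpace ℂ H] [CompleteSpace H]

variable {K : Type u} [NormedAddCommGroup K] [InnerProductSpace ℂ K] [CompleteSpace K]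

variable {M N : VonNeumannAlgebra H} {ξ : H} {E : (H →L[ℂ] H) → (H →L[ℂ] H)}

lemma u12_AppS_smul (c : ℂ) {x : ℕ → H →L[ℂ] H} (hx : x ∈ AppS M ξ) :
    (fun n => c • x n) ∈ AppS M ξ := by
  refine ⟨AppR_smul c hx.1, ?_⟩
  have := AppR_smul (star c) hx.2
  simpa only [star_smul] using this

lemma u12_AppS_mul {x y : ℕ → H →L[ℂ] H} (hx : x ∈ AppS M ξ) (hy : y ∈ AppS M ξ) :
    (fun n => x n * y n) ∈ AppS M ξ := by
  refine ⟨AppR_mul hx.1 hy.1, ?_⟩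
  have := AppR_mul hy.2 hx.2
  simpa only [star_mul] using this

lemma u12_AppS_const (S : Setting M N E ξ) {x : H →L[ℂ] H} (hx : x ∈ M) :
    (fun _ => x) ∈ AppS M ξ :=
  ⟨AppR_const S.dense_comm hx, AppR_const S.dense_comm (star_mem hx)⟩

namespace Oc

variable {MT NT : VonNeumannAlgebra K} {ET : (K →L[ℂ] K) → (K →L[ℂ] K)} {ζ : K}
  {rep : (ℕ → H →L[ℂ] H) → (K →L[ℂ] K)} (O : Oc M N E ξ MT NT ET ζ rep)

include O

lemma u12_sub {x y : ℕ → H →L[ℂ] H} (hx : x ∈ AppS M ξ) (hy : y ∈ AppS M ξ) :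
    rep (fun n => x n - y n) = rep x - rep y := by
  have h1 : (fun n => x n - y n) = fun n => x n + (-1 : ℂ) • y n := by
    funext n
    rw [neg_one_smul, sub_eq_add_neg]
  rw [h1, O.add x hx _ (u12_AppS_smul (-1) hy), O.smul (-1) y hy, neg_one_smul, sub_eq_add_neg]

/-- norms at the vector `ξ` -/
lemma u12_norm_sq {x : ℕ → H →L[ℂ] H} (hx : x ∈ AppS M ξ) :
    Tendsto (fun n => ‖x n ξ‖ ^ 2) (UU : Filter ℕ) (𝓝 (‖rep x ζ‖ ^ 2)) := by
  have h := O.inner x hx x hx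
  have h2 := (Complex.continuous_re.tendsto _).comp h
  have e : ∀ {G : Type u} [NormedAddCommGroup G] [InnerProductSpace ℂ G] (v : G),
      (⟪v, v⟫_ℂ).re = ‖v‖ ^ 2 := by
    intro G _ _ v
    rw [inner_self_eq_norm_sq_to_K]
    norm_cast
  rw [e] at h2
  refine h2.congr fun n => ?_
  change (⟪x n ξ, x n ξ⟫_ℂ).re = _
  rw [e]

lemma u12_rep_zero_const : rep (fun _ => (0 : H →L[ℂ] H)) = 0 := by
  have h0 : (fun _ => (0 : H →L[ℂ] H)) ∈ AppS M ξ := by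
    have hR : (fun _ : ℕ => (0 : H →L[ℂ] H)) ∈ AppR M ξ :=
      ⟨fun _ => zero_mem M, ⟨0, fun _ => by simp⟩, fun ε hε =>
        ⟨fun _ => 0, fun _ => zero_mem _, ⟨0, fun _ => by simp⟩, by
          filter_upwards with n
          simpa using hε.le⟩⟩
    refine ⟨hR, ?_⟩
    simpa only [star_zero] using hR
  have h := O.smul 0 _ h0
  simpa using h

/-- `z ↦ rep (const z)` is injective on `M` -/
lemma u12_inj (S : Setting M N E ξ) {z z' : H →L[ℂ] H} (hz : z ∈ M) (hz' : z' ∈ M)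
    (h : rep (fun _ => z) = rep (fun _ => z')) : z = z' := by
  rw [← O.cc_const S hz, ← O.cc_const S hz', h]

end Oc

end Pool.Agent.Helper23

end

section

open scoped InnerProductSpace Topology ENNReal BoundedContinuousFunction

open ContinuousLinearMap Filter MeasureTheory

namespace Pool.Agent.Helper23

universe u

variable {H : Type u} [NormedAddCommGroup H] [InnerProductSpace ℂ H] [CompleteSpace H]

variable {K : Type u} [NormedAddCommGroup K] [InnerProductSpace ℂ K] [CompleteSpace K]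

variable {M N : VonNeumannAlgebra H} {ξ : H} {E : (H →L[ℂ] H) → (H →L[ℂ] H)}

lemma ocS_const (hd : Dense (orb M.commutant ξ : Set H)) {x : H →L[ℂ] H} (hx : x ∈ M) :
    (fun _ => x) ∈ AppS M ξ :=
  ⟨AppR_const hd hx, AppR_const hd (star_mem hx)⟩

namespace Oc

variable {MT NT : VonNeumannAlgebra K} {ET : (K →L[ℂ] K) → (K →L[ℂ] K)} {ζ : K}
  {rep : (ℕ → H →L[ℂ] H) → (K →L[ℂ] K)} (O : Oc M N E ξ MT NT ET ζ rep)

include O

lemma const_mem (S : Setting M N E ξ) {x : H →L[ℂ] H} (hx : x ∈ M) : rep (fun _ => x) ∈ MT :=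
  O.memM _ (ocS_const S.dense_comm hx)

lemma const_memN (S : Setting M N E ξ) {x : H →L[ℂ] H} (hx : x ∈ N) : rep (fun _ => x) ∈ NT :=
  O.memN _ (ocS_const S.dense_comm (S.le x hx)) fun _ => hx

lemma const_inner (S : Setting M N E ξ) {x y : H →L[ℂ] H} (hx : x ∈ M) (hy : y ∈ M) :
    ⟪rep (fun _ => x) ζ, rep (fun _ => y) ζ⟫_ℂ = ⟪x ξ, y ξ⟫_ℂ :=
  tendsto_nhds_unique (O.inner _ (ocS_const S.dense_comm hx) _ (ocS_const S.dense_comm hy))
    tendsto_const_nhds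

lemma const_norm (S : Setting M N E ξ) {x : H →L[ℂ] H} (hx : x ∈ M) :
    ‖rep (fun _ => x) ζ‖ = ‖x ξ‖ := by
  have h1 := O.const_inner S hx hx
  rw [inner_self_eq_norm_sq_to_K, inner_self_eq_norm_sq_to_K] at h1
  have h2 : ‖rep (fun _ => x) ζ‖ ^ 2 = ‖x ξ‖ ^ 2 := by exact_mod_cast h1
  exact (pow_left_inj₀ (norm_nonneg _) (norm_nonneg _) two_ne_zero).1 h2

lemma const_add (S : Setting M N E ξ) {x y : H →L[ℂ] H} (hx : x ∈ M) (hy : y ∈ M) :
    rep (fun _ => x + y) = rep (fun _ => x) + rep (fun _ => y) :=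
  O.add _ (ocS_const S.dense_comm hx) _ (ocS_const S.dense_comm hy)

lemma const_smul (S : Setting M N E ξ) (c : ℂ) {x : H →L[ℂ] H} (hx : x ∈ M) :
    rep (fun _ => c • x) = c • rep (fun _ => x) :=
  O.smul c _ (ocS_const S.dense_comm hx)

lemma const_sub (S : Setting M N E ξ) {x y : H →L[ℂ] H} (hx : x ∈ M) (hy : y ∈ M) :
    rep (fun _ => x - y) = rep (fun _ => x) - rep (fun _ => y) := by
  have h1 : (fun _ : ℕ => x - y) = fun _ => x + (-1 : ℂ) • y := by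
    funext _
    simp [sub_eq_add_neg]
  rw [h1, O.const_add S hx (smul_mem' _ hy), O.const_smul S _ hy]
  simp [sub_eq_add_neg]

lemma const_star (S : Setting M N E ξ) {x : H →L[ℂ] H} (hx : x ∈ M) :
    rep (fun _ => Star.star x) = Star.star (rep (fun _ => x)) :=
  O.star _ (ocS_const S.dense_comm hx)

/-- partners in the ultrapower -/
lemma partner (S : Setting M N E ξ) {C C' : H →L[ℂ] H} (h : Partner N ξ C C') :
    Partner NT ζ (rep fun _ => C) (rep fun _ => C') := by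
  have hC := S.le _ h.1
  have hC' := S.le _ h.2.1
  refine ⟨O.const_memN S h.1, O.const_memN S h.2.1, fun Z hZ => ?_⟩
  obtain ⟨z, hz, hzN, -, rfl⟩ := O.surjN Z hZ
  have e1 : ⟪ζ, (rep fun _ => C) (rep z ζ)⟫_ℂ = ⟪rep (fun _ => Star.star C) ζ, rep z ζ⟫_ℂ := by
    rw [O.const_star S hC, inner_star_left]
  have hzs : (fun n => Star.star (z n)) ∈ AppS M ξ := ⟨hz.2, by simpa using hz.1⟩
  have e2 : ⟪ζ, rep z ((rep fun _ => C') ζ)⟫_ℂ =
      ⟪rep (fun n => Star.star (z n)) ζ, rep (fun _ => C') ζ⟫_ℂ := by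
    rw [O.star z hz, inner_star_left]
  have l1 := O.inner _ (ocS_const S.dense_comm (star_mem hC)) _ hz
  have l2 := O.inner _ hzs _ (ocS_const S.dense_comm hC')
  rw [e1, e2]
  refine tendsto_nhds_unique l1 (l2.congr fun n => ?_)
  rw [inner_star_left, inner_star_left]
  exact (h.2.2 (z n) (hzN n)).symm

end Oc

end Pool.Agent.Helper23

end

section

open scoped InnerProductSpace Topology BoundedContinuousFunction CompactlySupported

open ContinuousLinearMap Filter MeasureTheory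

namespace Pool.Agent.Helper88.CS

open Pool.Agent.Helper23

open Pool.Agent.Helper78.BC (rm)

variable {H : Type*} [NormedAddCommGroup H] [InnerProductSpace ℂ H] [CompleteSpace H]

variable {A : VonNeumannAlgebra H} {J : H →L[ℝ] H} {κ : H}

namespace Trick1Aux

lemma fn_cont (t : ℝ) (n : ℕ) : Continuous (fn t n) :=
  (cn_cont (pt_cont t) (pt_nonneg t) n).sub (cn_cont (qt_cont t) (qt_nonneg t) n)

end Trick1Aux

end Pool.Agent.Helper88.CS

end
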