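import Pool.Agent.Helper23.FA.Ns
import Pool.Agent.Helper23.FA.L00_02
import Pool.Agent.Helper23.FA.L00_04
import Pool.Agent.Helper23.FA.L00_17
import Pool.Agent.Helper23.FA.L00_18

/-!
Parts of Helper23.Eigen, Helper23.Qalg, Helper23.Avg, Helper23.Iso, Helper23.Avg2, Helper23.Partner, Helper75.GKWeak, Helper94.LbBicent
-/

section

open scoped InnerProductSpace

open ContinuousLinearMap

namespace Pool.Agent.Helper23

variable {H : Type*} [NormedAddCommGroup H] [InnerProductSpace ℂ H] [CompleteSpace H]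

variable {M N : VonNeumannAlgebra H} {ξ : H} {E : (H →L[ℂ] H) → (H →L[ℂ] H)}

namespace Setting

variable (S : Setting M N E ξ)

include S

lemma eigM_inner {γ : ℝ} {a : H →L[ℂ] H} (ha : a ∈ eig N ξ γ) {x : H →L[ℂ] H} (hx : x ∈ M) :
    ⟪x ξ, a ξ⟫_ℂ = γ * ⟪(star a) ξ, (star x) ξ⟫_ℂ := by
  have := S.eigM ha (star_mem hx)
  rwa [inner_star_right, ← inner_star_left a ξ] at this

lemma eig_norm_sq {γ : ℝ} {a : H →L[ℂ] H} (ha : a ∈ eig N ξ γ) :
    ‖a ξ‖ ^ 2 = γ * ‖(star a) ξ‖ ^ 2 := by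
  have := S.eigM_inner ha (S.le a ha.1)
  rw [inner_self_eq_norm_sq_to_K, inner_self_eq_norm_sq_to_K] at this
  have h2 : ((‖a ξ‖ ^ 2 : ℝ) : ℂ) = ((γ * ‖(star a) ξ‖ ^ 2 : ℝ) : ℂ) := by
    push_cast
    exact this
  exact Complex.ofReal_injective h2

end Setting

end Pool.Agent.Helper23

end

section

open scoped InnerProductSpace TensorProduct

open ContinuousLinearMap

namespace Pool.Agent.Helper23

variable {H : Type*} [NormedAddCommGroup H] [InnerProductSpace ℂ H] [CompleteSpace H]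

variable {M N : VonNeumannAlgebra H} {ξ : H} {E : (H →L[ℂ] H) → (H →L[ℂ] H)}

lemma star_mul_mem_eig_one {γ : ℝ} (hγ : γ ≠ 0) {a b : H →L[ℂ] H} (ha : a ∈ eig N ξ γ)
    (hb : b ∈ eig N ξ γ) : star a * b ∈ eig N ξ 1 := by
  have := eig_mul (eig_star hγ ha) hb
  rwa [inv_mul_cancel₀ hγ] at this

lemma mul_star_mem_eig_one {γ : ℝ} (hγ : γ ≠ 0) {a b : H →L[ℂ] H} (ha : a ∈ eig N ξ γ)
    (hb : b ∈ eig N ξ γ) : a * star b ∈ eig N ξ 1 := by
  have := eig_mul ha (eig_star hγ hb)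
  rwa [mul_inv_cancel₀ hγ] at this

end Pool.Agent.Helper23

end

section

open scoped InnerProductSpace

open ContinuousLinearMap Filter

namespace Pool.Agent.Helper23

variable {H : Type*} [NormedAddCommGroup H] [InnerProductSpace ℂ H] [CompleteSpace H]

variable {M N : VonNeumannAlgebra H} {ξ : H} {E : (H →L[ℂ] H) → (H →L[ℂ] H)}

lemma eig_star_one {a : H →L[ℂ] H} (ha : a ∈ eig N ξ 1) : star a ∈ eig N ξ 1 := by
  have := eig_star one_ne_zero ha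
  rwa [inv_one] at this

lemma eig_mul_left {γ : ℝ} {a b : H →L[ℂ] H} (ha : a ∈ eig N ξ 1) (hb : b ∈ eig N ξ γ) :
    a * b ∈ eig N ξ γ := by
  have := eig_mul ha hb
  rwa [one_mul] at this

lemma eig_mul_right {γ : ℝ} {a b : H →L[ℂ] H} (ha : a ∈ eig N ξ γ) (hb : b ∈ eig N ξ 1) :
    a * b ∈ eig N ξ γ := by
  have := eig_mul ha hb
  rwa [mul_one] at this

lemma Ucent_star {u : H →L[ℂ] H} (hu : u ∈ Ucent N ξ) : star u ∈ Ucent N ξ :=
  ⟨eig_star_one hu.1, by rw [star_star]; exact hu.2.2, by rw [star_star]; exact hu.2.1⟩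

namespace Setting

variable (S : Setting M N E ξ)

include S

/-- The averaging inequality. -/
theorem avg_le {ι : Type*} [Fintype ι] {x : ι → H →L[ℂ] H} (hx : ∀ i, x i ∈ M)
    (w w' : ι → H) {c : ℝ}
    (h : ∀ u ∈ Ucent N ξ, c ≤ ∑ i, (⟪w i, (star u * x i * u) (w' i)⟫_ℂ).re) :
    c ≤ ∑ i, (⟪w i, EQ M N ξ (x i) (w' i)⟫_ℂ).re := by
  classical
  obtain ⟨y, hy, hyK⟩ := S.exists_hull x hx
  have hyE : ∀ i, y i = EQ M N ξ (x i) := fun i =>
    (S.EQ_unique (hx i) (hy i).1 (hy i).2.2).symm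
  refine le_of_forall_pos_le_add fun ε hε => ?_
  -- approximate the vectors `w' i`
  set C : ℝ := ∑ i, ‖w i‖ * ‖x i‖ with hC
  have hC0 : 0 ≤ C := Finset.sum_nonneg fun i _ => by positivity
  have happ : ∀ i, ∃ m ∈ M.commutant, ‖w' i - m ξ‖ ≤ ε / (2 * (C + 1)) := by
    intro i
    obtain ⟨v, hv, hvw⟩ := Metric.dense_iff.1 S.dense_comm (w' i) (ε / (2 * (C + 1)))
      (by positivity)
    obtain ⟨m, hm, rfl⟩ := hvw
    refine ⟨m, hm, ?_⟩
    rw [Metric.mem_ball, dist_eq_norm, norm_sub_rev] at hv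
    exact hv.le
  choose m hm hmw using happ
  -- error estimate
  have herr : ∀ z : ι → H →L[ℂ] H, (∀ i, ‖z i‖ ≤ ‖x i‖) →
      |∑ i, (⟪w i, z i (w' i)⟫_ℂ).re - ∑ i, (⟪w i, z i (m i ξ)⟫_ℂ).re| ≤ ε / 2 := by
    intro z hz
    rw [← Finset.sum_sub_distrib]
    refine (Finset.abs_sum_le_sum_abs _ _).trans ?_
    have h1 : ∀ i ∈ Finset.univ, |(⟪w i, z i (w' i)⟫_ℂ).re - (⟪w i, z i (m i ξ)⟫_ℂ).re| ≤
        (‖w i‖ * ‖x i‖) * (ε / (2 * (C + 1))) := by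
      intro i _
      rw [← Complex.sub_re, ← inner_sub_right, ← map_sub]
      refine (Complex.abs_re_le_norm _).trans ((norm_inner_le_norm _ _).trans ?_)
      rw [mul_assoc]
      gcongr
      refine ((z i).le_opNorm _).trans ?_
      gcongr
      exacts [hz i, hmw i]
    refine (Finset.sum_le_sum h1).trans ?_
    rw [← Finset.sum_mul, ← hC]
    calc C * (ε / (2 * (C + 1))) ≤ (C + 1) * (ε / (2 * (C + 1))) := by gcongr; linarith
      _ = ε / 2 := by field_simp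
  -- the functional on the hull
  have hfun : ∀ z : ι → H →L[ℂ] H, (∀ i, z i ∈ M) → ∑ i, (⟪w i, z i (m i ξ)⟫_ℂ).re =
      ∑ i, (⟪(star (m i)) (w i), z i ξ⟫_ℂ).re := by
    intro z hz
    refine Finset.sum_congr rfl fun i _ => ?_
    rw [commute_apply (hz i) (hm i), inner_star_left]
  set F : Set (PiLp 2 (fun _ : ι => H)) :=
    {v | c - ε / 2 ≤ ∑ i, (⟪(star (m i)) (w i), v i⟫_ℂ).re} with hF
  have hFcl : IsClosed F := by
    refine isClosed_le continuous_const ?_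
    refine continuous_finsetSum _ fun i _ => ?_
    refine Complex.continuous_re.comp (Continuous.inner continuous_const ?_)
    exact (PiLp.proj (𝕜 := ℂ) 2 (fun _ : ι => H) i).continuous
  have hFconv : Convex ℝ F := by
    intro v hv v' hv' s t hs ht hst
    have e1 : ∀ i, (s • v + t • v') i = (s : ℂ) • v i + (t : ℂ) • v' i := by
      intro i
      rw [Complex.coe_smul, Complex.coe_smul]; rfl
    change c - ε / 2 ≤ ∑ i, (⟪(star (m i)) (w i), (s • v + t • v') i⟫_ℂ).re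
    have e2 : ∑ i, (⟪(star (m i)) (w i), (s • v + t • v') i⟫_ℂ).re =
        s * ∑ i, (⟪(star (m i)) (w i), v i⟫_ℂ).re +
          t * ∑ i, (⟪(star (m i)) (w i), v' i⟫_ℂ).re := by
      rw [Finset.mul_sum, Finset.mul_sum, ← Finset.sum_add_distrib]
      refine Finset.sum_congr rfl fun i _ => ?_
      rw [e1, inner_add_right, inner_smul_right, inner_smul_right, Complex.add_re,
        Complex.re_ofReal_mul, Complex.re_ofReal_mul]
    rw [e2]
    calc c - ε / 2 = s * (c - ε / 2) + t * (c - ε / 2) := by rw [← add_mul, hst, one_mul]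
      _ ≤ _ := by
        gcongr
        exacts [hv, hv']
  have hFsub : {v : PiLp 2 (fun _ : ι => H) | ∃ u ∈ Ucent N ξ,
          v = WithLp.toLp 2 (fun i => (star u * x i * u) ξ)} ⊆ F := by
    rintro _ ⟨u, hu, rfl⟩
    have huM : u ∈ M := S.le u hu.1.1
    change c - ε / 2 ≤ ∑ i, (⟪(star (m i)) (w i), (star u * x i * u) ξ⟫_ℂ).re
    rw [← hfun (fun i => star u * x i * u)
      (fun i => mul_mem (mul_mem (star_mem huM) (hx i)) huM)]
    have h1 := herr (fun i => star u * x i * u) (fun i => Ucent_conj_norm hu (x i))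
    have h2 := h u hu
    have h3 := (abs_le.1 h1).2
    linarith
  have h1 : c - ε / 2 ≤ ∑ i, (⟪(star (m i)) (w i), y i ξ⟫_ℂ).re :=
    closure_minimal (convexHull_min hFsub hFconv) hFcl hyK
  rw [← hfun y (fun i => (mem_Qalg.1 (hy i).1).1)] at h1
  have h2 := (abs_le.1 (herr y (fun i => (hy i).2.1))).1
  simp only [hyE] at h1 h2
  linarith

end Setting

namespace AP

variable (S : AP M N E ξ)

include S

/-- the inner product of an element of `Q` and an element of `N` -/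
lemma inner_Q_N {q x : H →L[ℂ] H} (hq : q ∈ Qalg M N ξ) (hx : x ∈ N) :
    ⟪q ξ, x ξ⟫_ℂ = ⟪q ξ, ξ⟫_ℂ * ⟪ξ, x ξ⟫_ℂ := by
  have h1 := S.inner_Q S.irr hq hx (one_mem N)
  rw [one_apply_eq_self] at h1
  rw [← inner_conj_symm, h1, map_mul, inner_conj_symm, inner_conj_symm]

lemma EQ_N {x : H →L[ℂ] H} (hx : x ∈ N) : EQ M N ξ x = ⟪ξ, x ξ⟫_ℂ • (1 : H →L[ℂ] H) := by
  refine S.EQ_unique (S.le x hx) (smul_mem' _ (one_mem _)) fun q hq => ?_
  rw [S.inner_Q_N hq hx, smul_apply, one_apply_eq_self, inner_smul_right, mul_comm]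

/-- averaging inequality for elements of `N` -/
theorem avgN_le {ι : Type*} [Fintype ι] {x : ι → H →L[ℂ] H} (hx : ∀ i, x i ∈ N)
    (w w' : ι → H) {c : ℝ}
    (h : ∀ u ∈ Ucent N ξ, c ≤ ∑ i, (⟪w i, (star u * x i * u) (w' i)⟫_ℂ).re) :
    c ≤ ∑ i, (⟪ξ, x i ξ⟫_ℂ * ⟪w i, w' i⟫_ℂ).re := by
  have h1 := S.avg_le (fun i => S.le _ (hx i)) w w' h
  refine h1.trans_eq (Finset.sum_congr rfl fun i _ => ?_)
  rw [S.EQ_N (hx i), smul_apply, one_apply_eq_self, inner_smul_right]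

/-- functional version -/
theorem exists_avg {x : H →L[ℂ] H} (hx : x ∈ N) (w : H) {c : ℝ}
    (hc : c < (⟪w, ⟪ξ, x ξ⟫_ℂ • ξ⟫_ℂ).re) :
    ∃ u ∈ Ucent N ξ, c < (⟪w, (star u * x * u) ξ⟫_ℂ).re := by
  by_contra hcon
  push Not at hcon
  have h1 := S.avgN_le (ι := Unit) (x := fun _ => x) (fun _ => hx) (fun _ => -w) (fun _ => ξ)
    (c := -c) (fun u hu => by
      have := hcon u hu
      simp only [Finset.univ_unique, Finset.sum_singleton, inner_neg_left, Complex.neg_re]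
      linarith)
  simp only [Finset.univ_unique, Finset.sum_singleton, inner_neg_left, mul_neg,
    Complex.neg_re] at h1
  rw [inner_smul_right] at hc
  linarith

/-- elements of `Q` and of `N` are independent -/
lemma inner_NQ {y z c : H →L[ℂ] H} (hy : y ∈ Qalg M N ξ)
    (hz : z ∈ Qalg M N ξ) (hc : c ∈ N) :
    ⟪y ξ, c (z ξ)⟫_ℂ = ⟪y ξ, z ξ⟫_ℂ * ⟪ξ, c ξ⟫_ℂ := by
  -- invariance
  have hinv : ∀ u ∈ Ucent N ξ, ⟪y ξ, (star u * c * u) (z ξ)⟫_ℂ = ⟪y ξ, c (z ξ)⟫_ℂ := by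
    intro u hu
    obtain ⟨u', hu', h⟩ := S.exists_right one_pos hu.1
    have hQ : ∀ q ∈ Qalg M N ξ, u (q ξ) = u' (q ξ) := by
      intro q hq
      have := congrArg (fun T : H →L[ℂ] H => T ξ) ((mem_Qalg.1 hq).2 u hu.1)
      change u (q ξ) = q (u ξ) at this
      rw [this, h q (mem_Qalg.1 hq).1]
    have hiso : ∀ ζ, ‖u' ζ‖ = ‖ζ‖ := by
      intro ζ
      have hcl : IsClosed {ζ : H | ‖u' ζ‖ = ‖ζ‖} := isClosed_eq (by fun_prop) (by fun_prop)
      have hsub : (orb M ξ : Set H) ⊆ {ζ : H | ‖u' ζ‖ = ‖ζ‖} := by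
        rintro _ ⟨y, hy, rfl⟩
        change ‖u' (y ξ)‖ = ‖y ξ‖
        rw [h y hy, S.norm_right_unitary hu.1 hu.2.2 hy]
      exact closure_minimal hsub hcl (S.cyc ζ)
    change ⟪y ξ, (star u) (c (u (z ξ)))⟫_ℂ = _
    rw [inner_star_right, hQ y hy, hQ z hz, commute_apply (S.le c hc) hu']
    let L : H →ₗᵢ[ℂ] H := ⟨u'.toLinearMap, hiso⟩
    exact L.inner_map_map _ _
  -- both inequalities for the real part, for all multiples
  have hre : ∀ k : ℂ, (k * ⟪y ξ, c (z ξ)⟫_ℂ).re ≤ (k * (⟪ξ, c ξ⟫_ℂ * ⟪y ξ, z ξ⟫_ℂ)).re := by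
    intro k
    have h1 := S.avgN_le (ι := Unit) (x := fun _ => c) (fun _ => hc) (fun _ => y ξ)
      (fun _ => k • z ξ) (c := (k * ⟪y ξ, c (z ξ)⟫_ℂ).re) (fun u hu => by
        simp only [Finset.univ_unique, Finset.sum_singleton, map_smul, inner_smul_right]
        rw [hinv u hu])
    simp only [Finset.univ_unique, Finset.sum_singleton, inner_smul_right] at h1
    refine h1.trans_eq ?_
    congr 1
    ring
  have h1 := hre 1
  have h2 := hre (-1)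
  have h3 := hre Complex.I
  have h4 := hre (-Complex.I)
  simp only [one_mul, neg_mul, Complex.neg_re, Complex.I_mul_re] at h1 h2 h3 h4
  apply Complex.ext
  · rw [mul_comm ⟪y ξ, z ξ⟫_ℂ]; linarith
  · rw [mul_comm ⟪y ξ, z ξ⟫_ℂ]; linarith

end AP

end Pool.Agent.Helper23

end

section

open scoped InnerProductSpace

open ContinuousLinearMap Filter

namespace Pool.Agent.Helper23

variable {H : Type*} [NormedAddCommGroup H] [InnerProductSpace ℂ H] [CompleteSpace H]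

variable {M N : VonNeumannAlgebra H} {ξ : H} {E : (H →L[ℂ] H) → (H →L[ℂ] H)}

lemma exists_sqrt {γ : ℝ} (hγ : γ ≠ 0) {v : H →L[ℂ] H} (hv : v ∈ eig N ξ γ) (hv1 : ‖v‖ ≤ 1) :
    ∃ a ∈ eig N ξ 1, ∃ k ∈ eig N ξ 1, star a = a ∧ star k = k ∧ a * a = 1 - star v * v ∧
      (1 + a) * k = 1 ∧ k * (1 + a) = 1 := by
  have hx : star v * v ∈ eig N ξ 1 := star_mul_mem_eig_one hγ hv hv
  obtain ⟨a, k, h1, h2, h3, h4, h5⟩ := exists_sqrt_abs (A := cent N ξ)
    (x := ⟨star v * v, hx⟩) (by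
      rw [IsSelfAdjoint]
      apply Subtype.ext
      change star (star v * v) = star v * v
      rw [star_mul, star_star]) (by
      change ‖star v * v‖ ≤ 1
      rw [CStarRing.norm_star_mul_self]
      nlinarith [norm_nonneg v])
  have hc : ∀ {x y : cent N ξ}, x = y → (x : H →L[ℂ] H) = y := fun h => by rw [h]
  exact ⟨a, a.2, k, k.2, hc h1, hc h2, hc h3, hc h4, hc h5⟩

namespace AP

variable (S : AP M N E ξ)

include S

/-- two-sided averaging: there is a rotated copy of `w₀` not orthogonal to the corners. -/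
lemma exists_rot {γ : ℝ} (hγ : 0 < γ) {w₀ : H →L[ℂ] H} (hw₀ : w₀ ∈ eig N ξ γ) (hw1 : ‖w₀‖ ≤ 1)
    {a b : H →L[ℂ] H} (ha : a ∈ eig N ξ 1) (hb : b ∈ eig N ξ 1) (ha0 : a ≠ 0) (hb0 : b ≠ 0)
    (hw0 : w₀ ≠ 0) :
    ∃ w ∈ eig N ξ γ, ‖w‖ ≤ 1 ∧
      ‖(b * w * a) ξ‖ ^ 2 ≥ (1 / 4) * (‖b ξ‖ ^ 2 * ‖w₀ ξ‖ ^ 2 * ‖a ξ‖ ^ 2) := by
  have hne : ∀ {c : H →L[ℂ] H}, c ∈ N → c ≠ 0 → 0 < ‖c ξ‖ := by
    intro c hc hc0
    exact norm_pos_iff.2 fun h => hc0 (S.sep c (S.le c hc) h)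
  have ha' := hne ha.1 ha0
  have hb' := hne hb.1 hb0
  have hw' := hne hw₀.1 hw0
  -- first average: rotate star w₀ * w₀ on the right
  have hφ : ∀ c : H →L[ℂ] H, ⟪ξ, (star c * c) ξ⟫_ℂ = ((‖c ξ‖ ^ 2 : ℝ) : ℂ) := by
    intro c
    rw [norm_sq_apply]; rfl
  -- conjugation of star c * c
  have hconj : ∀ c u : H →L[ℂ] H, star u * (star c * c) * u = star (c * u) * (c * u) := by
    intro c u
    rw [star_mul]; simp only [mul_assoc]
  -- step A
  have hx1 : star w₀ * w₀ ∈ eig N ξ 1 := star_mul_mem_eig_one hγ.ne' hw₀ hw₀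
  obtain ⟨a', ha'M, ha'⟩ := S.exists_right one_pos ha
  -- the functional y ↦ ⟪a ξ, y (a ξ)⟫ = ⟪a ξ, a' (y ξ)⟫
  obtain ⟨u₂, hu₂, h2⟩ := S.exists_avg hx1.1 ((star a') (a ξ))
    (c := (1 / 2) * (‖w₀ ξ‖ ^ 2 * ‖a ξ‖ ^ 2)) (by
      rw [inner_star_left, map_smul, inner_smul_right, hφ]
      have h3 : a' ξ = a ξ := by
        have := ha' 1 (one_mem M)
        simpa using this
      rw [h3, inner_self_eq_norm_sq_to_K]
      have : (((‖w₀ ξ‖ ^ 2 : ℝ) : ℂ) * ((‖a ξ‖ : ℂ)) ^ 2).re = ‖w₀ ξ‖ ^ 2 * ‖a ξ‖ ^ 2 := by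
        norm_cast
      change _ < (((‖w₀ ξ‖ ^ 2 : ℝ) : ℂ) * ((‖a ξ‖ : ℂ)) ^ 2).re
      rw [this]
      have : 0 < ‖w₀ ξ‖ ^ 2 * ‖a ξ‖ ^ 2 := by positivity
      linarith)
  have h2' : (1 / 2) * (‖w₀ ξ‖ ^ 2 * ‖a ξ‖ ^ 2) < ‖(w₀ * u₂ * a) ξ‖ ^ 2 := by
    rw [hconj, inner_star_left] at h2
    have hmem : star (w₀ * u₂) * (w₀ * u₂) ∈ M :=
      mul_mem (star_mem (mul_mem (S.le _ hw₀.1) (S.le _ hu₂.1.1)))
        (mul_mem (S.le _ hw₀.1) (S.le _ hu₂.1.1))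
    rw [ha' _ hmem] at h2
    have h4 : ⟪a ξ, (star (w₀ * u₂) * (w₀ * u₂)) (a ξ)⟫_ℂ =
        ((‖(w₀ * u₂ * a) ξ‖ ^ 2 : ℝ) : ℂ) := by
      rw [norm_sq_apply, inner_star_right]
      change ⟪a ξ, (star (w₀ * u₂)) ((w₀ * u₂) (a ξ))⟫_ℂ = _
      rw [inner_star_right]
      rfl
    rw [h4, Complex.ofReal_re] at h2
    exact h2
  -- step B
  set c := w₀ * u₂ * a with hc
  have hcg : c ∈ eig N ξ γ := eig_mul_right (eig_mul_right hw₀ hu₂.1) ha
  have hcpos : 0 < ‖c ξ‖ := by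
    have : 0 < ‖c ξ‖ ^ 2 := lt_of_le_of_lt (by positivity) h2'
    by_contra hcon
    push Not at hcon
    have : ‖c ξ‖ = 0 := le_antisymm hcon (norm_nonneg _)
    rw [this] at h2'
    have h5 : 0 ≤ (1 / 2) * (‖w₀ ξ‖ ^ 2 * ‖a ξ‖ ^ 2) := by positivity
    norm_num at h2'
    linarith
  obtain ⟨c', hc'M, hc'⟩ := S.exists_right hγ hcg
  have hx2 : star b * b ∈ eig N ξ 1 := star_mul_mem_eig_one one_ne_zero hb hb
  obtain ⟨u₁, hu₁, h1⟩ := S.exists_avg hx2.1 ((star c') (c ξ))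
    (c := (1 / 2) * (‖b ξ‖ ^ 2 * ‖c ξ‖ ^ 2)) (by
      rw [inner_star_left, map_smul, inner_smul_right, hφ]
      have h3 : c' ξ = c ξ := by
        have := hc' 1 (one_mem M)
        simpa using this
      rw [h3, inner_self_eq_norm_sq_to_K]
      have : (((‖b ξ‖ ^ 2 : ℝ) : ℂ) * ((‖c ξ‖ : ℂ)) ^ 2).re = ‖b ξ‖ ^ 2 * ‖c ξ‖ ^ 2 := by
        norm_cast
      change _ < (((‖b ξ‖ ^ 2 : ℝ) : ℂ) * ((‖c ξ‖ : ℂ)) ^ 2).re
      rw [this]
      have : 0 < ‖b ξ‖ ^ 2 * ‖c ξ‖ ^ 2 := by positivity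
      linarith)
  have h1' : (1 / 2) * (‖b ξ‖ ^ 2 * ‖c ξ‖ ^ 2) < ‖(b * u₁ * c) ξ‖ ^ 2 := by
    rw [hconj, inner_star_left] at h1
    have hmem : star (b * u₁) * (b * u₁) ∈ M :=
      mul_mem (star_mem (mul_mem (S.le _ hb.1) (S.le _ hu₁.1.1)))
        (mul_mem (S.le _ hb.1) (S.le _ hu₁.1.1))
    rw [hc' _ hmem] at h1
    have h4 : ⟪c ξ, (star (b * u₁) * (b * u₁)) (c ξ)⟫_ℂ =
        ((‖(b * u₁ * c) ξ‖ ^ 2 : ℝ) : ℂ) := by
      rw [norm_sq_apply, inner_star_right]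
      change ⟪c ξ, (star (b * u₁)) ((b * u₁) (c ξ))⟫_ℂ = _
      rw [inner_star_right]
      rfl
    rw [h4, Complex.ofReal_re] at h1
    exact h1
  refine ⟨u₁ * w₀ * u₂, eig_mul_right (eig_mul_left hu₁.1 hw₀) hu₂.1, ?_, ?_⟩
  · refine ContinuousLinearMap.opNorm_le_bound _ zero_le_one fun ζ => ?_
    change ‖u₁ (w₀ (u₂ ζ))‖ ≤ _
    rw [norm_of_isom hu₁.2.1]
    refine (w₀.le_of_opNorm_le hw1 _).trans ?_
    rw [norm_of_isom hu₂.2.1]
  · have h6 : b * (u₁ * w₀ * u₂) * a = b * u₁ * c := by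
      rw [hc]; simp only [mul_assoc]
    rw [h6]
    have h7 : (1 / 2) * (‖b ξ‖ ^ 2 * ((1 / 2) * (‖w₀ ξ‖ ^ 2 * ‖a ξ‖ ^ 2))) ≤
        (1 / 2) * (‖b ξ‖ ^ 2 * ‖c ξ‖ ^ 2) := by gcongr
    linarith

/-- one improvement step -/
lemma improve {γ : ℝ} (hγ : 0 < γ) {w₀ : H →L[ℂ] H} (hw₀ : w₀ ∈ eig N ξ γ) (hw1 : ‖w₀‖ ≤ 1)
    (hw0 : w₀ ≠ 0) {e : H →L[ℂ] H} (he : e ∈ eig N ξ 1) (hes : star e = e) (hee : e * e = e)
    (heφ : γ⁻¹ < ‖e ξ‖ ^ 2) {v : H →L[ℂ] H} (hv : v ∈ eig N ξ γ) (hv1 : ‖v‖ ≤ 1)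
    (hev : e * v = v) :
    ∃ v' ∈ eig N ξ γ, ‖v'‖ ≤ 1 ∧ e * v' = v' ∧ ‖v' ξ - v ξ‖ ^ 2 ≤ 1 - ‖v ξ‖ ^ 2 ∧
      1 - ‖v' ξ‖ ^ 2 ≤
        (1 - (1 / 25) * ((‖e ξ‖ ^ 2 - γ⁻¹) * ‖w₀ ξ‖ ^ 2)) * (1 - ‖v ξ‖ ^ 2) := by
  obtain ⟨a, ha, k, hk, has, hks, haa, hk1, hk2⟩ := exists_sqrt hγ.ne' hv hv1
  have hve : star v * e = star v := by
    have := congrArg star hev
    rwa [star_mul, hes] at this
  set b := e - v * k * star v with hb
  have hbg : b ∈ eig N ξ 1 :=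
    sub_mem he (mul_star_mem_eig_one hγ.ne' (eig_mul_right hv hk) hv)
  have hbs : star b = b := by
    rw [hb, star_sub, hes, star_mul, star_mul, star_star, hks, mul_assoc]
  have haa' : star v * v = 1 - a * a := by rw [haa]; abel
  have hak : (1 - a * a) * k = 1 - a := by
    have : (1 - a * a) = (1 - a) * (1 + a) := by
      rw [sub_mul, mul_add, mul_add, one_mul, one_mul, mul_one]; abel
    rw [this, mul_assoc, hk1, mul_one]
  have hbb : b * b = e - v * star v := by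
    have h1 : b * b = e * e - e * (v * k * star v) - v * k * star v * e +
        v * k * (star v * v) * k * star v := by
      rw [hb]
      simp only [sub_mul, mul_sub, mul_assoc]
      abel
    have h2 : e * (v * k * star v) = v * k * star v := by
      rw [← mul_assoc, ← mul_assoc, hev]
    have h3 : v * k * star v * e = v * k * star v := by
      rw [mul_assoc, hve]
    have h4 : v * k * (star v * v) * k * star v = v * (k * (1 - a)) * star v := by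
      rw [haa']
      calc v * k * (1 - a * a) * k * star v = v * (k * ((1 - a * a) * k)) * star v := by
            simp only [mul_assoc]
        _ = _ := by rw [hak]
    rw [h1, h2, h3, h4, hee]
    have h5 : v * (k * (1 - a)) * star v = v * k * star v + v * k * star v -
        v * (k * (1 + a)) * star v := by
      simp only [mul_sub, mul_add, sub_mul, add_mul, mul_one]
      abel
    rw [h5, hk2, mul_one]
    abel
  have hbv : b * v = v * a := by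
    rw [hb, sub_mul, hev, mul_assoc, haa']
    have h1 : v * k * (1 - a * a) = v * (1 - a) := by
      have h2 : k * (1 - a * a) = 1 - a := by
        have := congrArg star hak
        rw [star_mul, star_sub, star_sub, star_mul, star_one, has, hks] at this
        exact this
      rw [mul_assoc, h2]
    rw [h1, mul_sub, mul_one]
    abel
  -- norms
  have hcon : ∀ ζ, ‖v ζ‖ ≤ ‖ζ‖ := fun ζ => by
    have := v.le_of_opNorm_le hv1 ζ
    rwa [one_mul] at this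
  have hna : ∀ ζ, ‖a ζ‖ ^ 2 = ‖ζ‖ ^ 2 - ‖v ζ‖ ^ 2 := by
    intro ζ
    apply Complex.ofReal_injective
    rw [norm_sq_apply, has]
    change ⟪ζ, (a * a) ζ⟫_ℂ = _
    rw [haa, sub_apply, inner_sub_right, Complex.ofReal_sub, norm_sq_apply v]
    rw [one_apply_eq_self, inner_self_eq_norm_sq_to_K]
    push_cast
    rfl
  have hnb : ∀ ζ, ‖b ζ‖ ^ 2 = ‖e ζ‖ ^ 2 - ‖(star v) ζ‖ ^ 2 := by
    intro ζ
    apply Complex.ofReal_injective
    rw [norm_sq_apply, hbs]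
    change ⟪ζ, (b * b) ζ⟫_ℂ = _
    rw [hbb, sub_apply, inner_sub_right, Complex.ofReal_sub, norm_sq_apply e,
      norm_sq_apply (star v), hes, star_star]
    change _ = ⟪ζ, (e * e) ζ⟫_ℂ - _
    rw [hee]
    rfl
  have hne : ∀ ζ, ‖e ζ‖ ≤ ‖ζ‖ := by
    intro ζ
    have h1 : ‖e ζ‖ ^ 2 ≤ ‖ζ‖ * ‖e ζ‖ := by
      have h2 := norm_sq_apply e ζ
      rw [hes] at h2
      have h3 : ⟪ζ, e (e ζ)⟫_ℂ = ⟪ζ, e ζ⟫_ℂ := by
        change ⟪ζ, (e * e) ζ⟫_ℂ = _
        rw [hee]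
      rw [h3] at h2
      have h4 : ‖((‖e ζ‖ ^ 2 : ℝ) : ℂ)‖ ≤ ‖ζ‖ * ‖e ζ‖ := by
        rw [h2]; exact norm_inner_le_norm _ _
      rwa [Complex.norm_real, Real.norm_of_nonneg (by positivity)] at h4
    by_contra hcon
    push Not at hcon
    nlinarith [norm_nonneg ζ]
  have hnb1 : ∀ ζ, ‖b ζ‖ ≤ ‖ζ‖ := by
    intro ζ
    refine (pow_le_pow_iff_left₀ (norm_nonneg _) (norm_nonneg _) two_ne_zero).1 ?_
    rw [hnb]
    have h1 := pow_le_pow_left₀ (norm_nonneg _) (hne ζ) 2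
    nlinarith [sq_nonneg ‖(star v) ζ‖]
  have hbφ : ‖e ξ‖ ^ 2 - γ⁻¹ ≤ ‖b ξ‖ ^ 2 := by
    rw [hnb]
    have h1 := S.eig_norm_sq hv
    have h2 : ‖v ξ‖ ^ 2 ≤ 1 := by
      have h3 := hcon ξ
      rw [S.norm_one] at h3
      nlinarith [norm_nonneg (v ξ)]
    have h3 : ‖(star v) ξ‖ ^ 2 = γ⁻¹ * ‖v ξ‖ ^ 2 := by
      rw [h1, ← mul_assoc, inv_mul_cancel₀ hγ.ne', one_mul]
    rw [h3]
    have h4 : γ⁻¹ * ‖v ξ‖ ^ 2 ≤ γ⁻¹ * 1 := mul_le_mul_of_nonneg_left h2 (inv_pos.2 hγ).le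
    linarith
  have haξ : ‖a ξ‖ ^ 2 = 1 - ‖v ξ‖ ^ 2 := by rw [hna, S.norm_one]; norm_num
  by_cases ha0 : a = 0
  · have h1 : 1 - ‖v ξ‖ ^ 2 = 0 := by rw [← haξ, ha0]; simp
    refine ⟨v, hv, hv1, hev, ?_, ?_⟩
    · rw [sub_self, norm_zero, h1]; norm_num
    · rw [h1, mul_zero]
  have hb0 : b ≠ 0 := by
    intro h
    rw [h] at hbφ
    simp only [zero_apply, norm_zero] at hbφ
    norm_num at hbφ
    linarith
  obtain ⟨w₁, hw₁, hw₁n, hw₁r⟩ := S.exists_rot hγ hw₀ hw1 ha hbg ha0 hb0 hw0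
  -- sign choice
  obtain ⟨w, hw, hwn, hwr, hwpos⟩ : ∃ w ∈ eig N ξ γ, ‖w‖ ≤ 1 ∧
      ‖(b * w * a) ξ‖ ^ 2 ≥ (1 / 4) * (‖b ξ‖ ^ 2 * ‖w₀ ξ‖ ^ 2 * ‖a ξ‖ ^ 2) ∧
      0 ≤ (⟪v ξ, (b * w * a) ξ⟫_ℂ).re := by
    rcases le_total 0 (⟪v ξ, (b * w₁ * a) ξ⟫_ℂ).re with h | h
    · exact ⟨w₁, hw₁, hw₁n, hw₁r, h⟩
    · refine ⟨-w₁, Submodule.neg_mem _ hw₁, by rwa [norm_neg], ?_, ?_⟩
      · rw [mul_neg, neg_mul, neg_apply, norm_neg]
        exact hw₁r
      · rw [mul_neg, neg_mul, neg_apply, inner_neg_right, Complex.neg_re]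
        linarith
  set g := b * w * a with hg
  have hgg : g ∈ eig N ξ γ := eig_mul_right (eig_mul_left hbg hw) ha
  have heb : e * b = b := by
    rw [hb, mul_sub, hee, ← mul_assoc, ← mul_assoc, hev]
  have hng : ∀ ζ, ‖g ζ‖ ≤ ‖a ζ‖ := by
    intro ζ
    change ‖b (w (a ζ))‖ ≤ _
    refine (hnb1 _).trans ?_
    have := w.le_of_opNorm_le hwn (a ζ)
    rwa [one_mul] at this
  have hexp : ∀ ζ, ‖(v + (2 / 5 : ℂ) • g) ζ‖ ^ 2 =
      ‖v ζ‖ ^ 2 + (4 / 5) * (⟪v ζ, g ζ⟫_ℂ).re + (4 / 25) * ‖g ζ‖ ^ 2 := by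
    intro ζ
    rw [add_apply, smul_apply]
    have h1 := @norm_add_sq ℂ _ _ _ _ (v ζ) ((2 / 5 : ℂ) • g ζ)
    rw [h1, inner_smul_right, norm_smul]
    have h2 : (RCLike.re ((2 / 5 : ℂ) * ⟪v ζ, g ζ⟫_ℂ) : ℝ) = (2 / 5) * (⟪v ζ, g ζ⟫_ℂ).re := by
      have : (2 / 5 : ℂ) = ((2 / 5 : ℝ) : ℂ) := by push_cast; rfl
      rw [this, RCLike.re_to_complex, Complex.re_ofReal_mul]
    have h3 : ‖(2 / 5 : ℂ)‖ = 2 / 5 := by
      have : (2 / 5 : ℂ) = ((2 / 5 : ℝ) : ℂ) := by push_cast; rfl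
      rw [this, Complex.norm_real, Real.norm_of_nonneg (by norm_num)]
    rw [h2, h3, mul_pow]
    ring
  refine ⟨v + (2 / 5 : ℂ) • g, add_mem hv (Submodule.smul_mem _ _ hgg), ?_, ?_, ?_, ?_⟩
  · refine ContinuousLinearMap.opNorm_le_bound _ zero_le_one fun ζ => ?_
    rw [one_mul]
    refine (pow_le_pow_iff_left₀ (norm_nonneg _) (norm_nonneg _) two_ne_zero).1 ?_
    rw [hexp]
    have h1 : ⟪v ζ, g ζ⟫_ℂ = ⟪v (a ζ), w (a ζ)⟫_ℂ := by
      change ⟪v ζ, b (w (a ζ))⟫_ℂ = _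
      have h2 : b (w (a ζ)) = (star b) (w (a ζ)) := by rw [hbs]
      rw [h2, inner_star_right]
      have h3 : b (v ζ) = v (a ζ) := congrArg (fun T : H →L[ℂ] H => T ζ) hbv
      rw [h3]
    have h2 : (⟪v ζ, g ζ⟫_ℂ).re ≤ ‖a ζ‖ ^ 2 := by
      rw [h1]
      refine (Complex.re_le_norm _).trans ((norm_inner_le_norm _ _).trans ?_)
      rw [sq]
      have e1 := hcon (a ζ)
      have e2 : ‖w (a ζ)‖ ≤ ‖a ζ‖ := by
        have := w.le_of_opNorm_le hwn (a ζ)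
        rwa [one_mul] at this
      exact mul_le_mul e1 e2 (norm_nonneg _) (norm_nonneg _)
    have h3 : ‖g ζ‖ ^ 2 ≤ ‖a ζ‖ ^ 2 := pow_le_pow_left₀ (norm_nonneg _) (hng ζ) 2
    have h4 := hna ζ
    have h5 : 0 ≤ ‖a ζ‖ ^ 2 := by positivity
    nlinarith
  · rw [mul_add, hev, mul_smul_comm, hg, ← mul_assoc, ← mul_assoc, heb]
  · have h1 : (v + (2 / 5 : ℂ) • g) ξ - v ξ = (2 / 5 : ℂ) • g ξ := by
      rw [add_apply, smul_apply, add_sub_cancel_left]
    have h3 : ‖(2 / 5 : ℂ)‖ = 2 / 5 := by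
      have : (2 / 5 : ℂ) = ((2 / 5 : ℝ) : ℂ) := by push_cast; rfl
      rw [this, Complex.norm_real, Real.norm_of_nonneg (by norm_num)]
    rw [h1, norm_smul, h3, mul_pow, ← haξ]
    have h4 : ‖g ξ‖ ^ 2 ≤ ‖a ξ‖ ^ 2 := pow_le_pow_left₀ (norm_nonneg _) (hng ξ) 2
    nlinarith [sq_nonneg ‖g ξ‖]
  · rw [hexp, ← haξ]
    have h5 : (4 / 25) * ((1 / 4) * ((‖e ξ‖ ^ 2 - γ⁻¹) * ‖w₀ ξ‖ ^ 2 * ‖a ξ‖ ^ 2)) ≤
        (4 / 25) * ‖g ξ‖ ^ 2 := by
      refine mul_le_mul_of_nonneg_left (le_trans ?_ hwr) (by norm_num)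
      gcongr
    have h6 : ‖a ξ‖ ^ 2 = 1 - ‖v ξ‖ ^ 2 := haξ
    nlinarith

end AP

end Pool.Agent.Helper23

end

section

open scoped InnerProductSpace

open ContinuousLinearMap Filter

namespace Pool.Agent.Helper23

variable {H : Type*} [NormedAddCommGroup H] [InnerProductSpace ℂ H] [CompleteSpace H]

variable {M N : VonNeumannAlgebra H} {ξ : H} {E : (H →L[ℂ] H) → (H →L[ℂ] H)}

namespace AP

variable (S : AP M N E ξ)

include S

/-- explicit convex combinations approximating the state -/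
lemma exists_comb {ι : Type*} [Fintype ι] {x : ι → H →L[ℂ] H} (hx : ∀ i, x i ∈ N) {δ : ℝ}
    (hδ : 0 < δ) : ∃ (J : Type) (t : Finset J) (r : J → ℝ) (u : J → H →L[ℂ] H),
      (∀ j ∈ t, 0 ≤ r j) ∧ ∑ j ∈ t, r j = 1 ∧ (∀ j ∈ t, u j ∈ Ucent N ξ) ∧
      ∀ i, ‖(∑ j ∈ t, (r j : ℂ) • (star (u j) * x i * u j)) ξ - ⟪ξ, x i ξ⟫_ℂ • ξ‖ ≤ δ := by
  obtain ⟨y, hy, hyK⟩ := S.exists_hull x (fun i => S.le _ (hx i))
  have hyE : ∀ i, y i = ⟪ξ, x i ξ⟫_ℂ • (1 : H →L[ℂ] H) := by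
    intro i
    rw [← S.EQ_N (hx i), S.EQ_unique (S.le _ (hx i)) (hy i).1 (hy i).2.2]
  obtain ⟨v, hv, hvd⟩ := Metric.mem_closure_iff.1 hyK δ hδ
  rw [convexHull_eq] at hv
  obtain ⟨J, t, r, z, hr, hr1, hz, hzv⟩ := hv
  choose! u hu huz using hz
  refine ⟨J, t, r, u, hr, hr1, hu, fun i => ?_⟩
  have h1 : (∑ j ∈ t, (r j : ℂ) • (star (u j) * x i * u j)) ξ = v i := by
    rw [← hzv, Finset.centerMass_eq_of_sum_1 _ _ hr1]
    have h2 : (∑ j ∈ t, r j • z j) i = ∑ j ∈ t, (r j • z j) i := by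
      have := map_sum (PiLp.proj (𝕜 := ℂ) 2 (fun _ : ι => H) i) (fun j => r j • z j) t
      exact this
    rw [h2, sum_apply]
    refine Finset.sum_congr rfl fun j hj => ?_
    rw [huz j hj, smul_apply, Complex.coe_smul]
    rfl
  rw [h1, norm_sub_rev]
  have h3 : ⟪ξ, x i ξ⟫_ℂ • ξ - v i = (WithLp.toLp 2 (fun i => y i ξ) - v) i := by
    change _ = y i ξ - v i
    rw [hyE]; rfl
  rw [h3]
  refine (PiLp.norm_apply_le _ i).trans ?_
  rw [dist_eq_norm] at hvd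
  exact hvd.le

/-- The averaging inequality for both actions of the unitaries of the centralizer. -/
theorem avg_mix {ι κ : Type*} [Fintype ι] [Fintype κ] {x : ι → H →L[ℂ] H} (hx : ∀ i, x i ∈ N)
    (w w' : ι → H) {y : κ → H →L[ℂ] H} (hy : ∀ k, y k ∈ N) (z z' : κ → H) {c : ℝ}
    (h : ∀ u ∈ Ucent N ξ, c ≤ ∑ i, (⟪w i, (star u * x i * u) (w' i)⟫_ℂ).re +
      ∑ k, (⟪z k, (u * y k * star u) (z' k)⟫_ℂ).re) :
    c ≤ ∑ i, (⟪ξ, x i ξ⟫_ℂ * ⟪w i, w' i⟫_ℂ).re + ∑ k, (⟪ξ, y k ξ⟫_ℂ * ⟪z k, z' k⟫_ℂ).re := by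
  classical
  refine le_of_forall_pos_le_add fun ε hε => ?_
  set C : ℝ := ∑ i, 2 * (‖w i‖ * ‖x i‖) with hC
  have hC0 : 0 ≤ C := Finset.sum_nonneg fun i _ => by positivity
  have happ : ∀ i, ∃ m ∈ M.commutant, ‖w' i - m ξ‖ ≤ ε / (2 * (C + 1)) := by
    intro i
    obtain ⟨v, hv, hvw⟩ := Metric.dense_iff.1 S.dense_comm (w' i) (ε / (2 * (C + 1)))
      (by positivity)
    obtain ⟨m, hm, rfl⟩ := hvw
    refine ⟨m, hm, ?_⟩
    rw [Metric.mem_ball, dist_eq_norm, norm_sub_rev] at hv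
    exact hv.le
  choose m hm hmw using happ
  set D : ℝ := ∑ i, ‖w i‖ * ‖m i‖ with hD
  have hD0 : 0 ≤ D := Finset.sum_nonneg fun i _ => by positivity
  obtain ⟨J, t, r, u, hr, hr1, hu, hux⟩ := S.exists_comb hx (δ := ε / (2 * (D + 1)))
    (by positivity)
  set X : ι → H →L[ℂ] H := fun i => ∑ j ∈ t, (r j : ℂ) • (star (u j) * x i * u j) with hX
  have hXN : ∀ i, X i ∈ N := fun i => sum_mem fun j hj =>
    smul_mem' _ (mul_mem (mul_mem (star_mem (hu j hj).1.1) (hx i)) (hu j hj).1.1)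
  have hXn : ∀ i, ‖X i‖ ≤ ‖x i‖ := by
    intro i
    calc ‖X i‖ ≤ ∑ j ∈ t, ‖(r j : ℂ) • (star (u j) * x i * u j)‖ := norm_sum_le _ _
      _ ≤ ∑ j ∈ t, r j * ‖x i‖ := by
          refine Finset.sum_le_sum fun j hj => ?_
          rw [norm_smul, Complex.norm_real, Real.norm_of_nonneg (hr j hj)]
          exact mul_le_mul_of_nonneg_left (Ucent_conj_norm (hu j hj) _) (hr j hj)
      _ = ‖x i‖ := by rw [← Finset.sum_mul, hr1, one_mul]
  -- the first sum is controlled for all `s`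
  have hfirst : ∀ s ∈ Ucent N ξ, ∑ i, (⟪w i, (star s * X i * s) (w' i)⟫_ℂ).re ≤
      ∑ i, (⟪ξ, x i ξ⟫_ℂ * ⟪w i, w' i⟫_ℂ).re + ε := by
    intro s hs
    have hterm : ∀ i ∈ Finset.univ, (⟪w i, (star s * X i * s) (w' i)⟫_ℂ).re ≤
        (⟪ξ, x i ξ⟫_ℂ * ⟪w i, w' i⟫_ℂ).re + (2 * (‖w i‖ * ‖x i‖) * (ε / (2 * (C + 1))) +
          ‖w i‖ * ‖m i‖ * (ε / (2 * (D + 1)))) := by
      intro i _
      set Z : H →L[ℂ] H := star s * X i * s - ⟪ξ, x i ξ⟫_ℂ • (1 : H →L[ℂ] H) with hZ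
      have e1 : ⟪w i, (star s * X i * s) (w' i)⟫_ℂ = ⟪ξ, x i ξ⟫_ℂ * ⟪w i, w' i⟫_ℂ +
          (⟪w i, Z (w' i - m i ξ)⟫_ℂ + ⟪w i, Z (m i ξ)⟫_ℂ) := by
        rw [← inner_add_right, ← map_add, sub_add_cancel, hZ, sub_apply, inner_sub_right,
          smul_apply, one_apply_eq_self, inner_smul_right]
        ring
      rw [e1, Complex.add_re]
      gcongr
      refine (Complex.re_le_norm _).trans ((norm_add_le _ _).trans ?_)
      have hZN : Z ∈ N := sub_mem (mul_mem (mul_mem (star_mem hs.1.1) (hXN i)) hs.1.1)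
        (smul_mem' _ (one_mem N))
      have hφ : ‖⟪ξ, x i ξ⟫_ℂ‖ ≤ ‖x i‖ := by
        refine (norm_inner_le_norm _ _).trans ?_
        have := (x i).le_opNorm ξ
        rw [S.norm_one, mul_one] at this
        rw [S.norm_one, one_mul]
        exact this
      have hZn : ‖Z‖ ≤ 2 * ‖x i‖ := by
        refine (norm_sub_le _ _).trans ?_
        have h1 := (Ucent_conj_norm hs (X i)).trans (hXn i)
        have h2 : ‖⟪ξ, x i ξ⟫_ℂ • (1 : H →L[ℂ] H)‖ ≤ ‖x i‖ := by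
          refine (norm_smul_le _ _).trans ?_
          have h3 : ‖(1 : H →L[ℂ] H)‖ ≤ 1 := norm_id_le
          calc _ ≤ ‖x i‖ * 1 := by gcongr
            _ = ‖x i‖ := mul_one _
        linarith
      have hZξ : ‖Z ξ‖ ≤ ε / (2 * (D + 1)) := by
        have e2 : Z = star s * (X i - ⟪ξ, x i ξ⟫_ℂ • (1 : H →L[ℂ] H)) * s := by
          rw [hZ, mul_sub, sub_mul, mul_smul_comm, mul_one, smul_mul_assoc, hs.2.1]
        rw [e2]
        change ‖(star s) ((X i - ⟪ξ, x i ξ⟫_ℂ • (1 : H →L[ℂ] H)) (s ξ))‖ ≤ _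
        rw [norm_of_isom (by rw [star_star]; exact hs.2.2),
          S.norm_right_unitary hs.1 hs.2.2 (S.le _ (sub_mem (hXN i) (smul_mem' _ (one_mem N))))]
        exact hux i
      refine add_le_add ?_ ?_
      · refine (norm_inner_le_norm _ _).trans ?_
        calc ‖w i‖ * ‖Z (w' i - m i ξ)‖ ≤ ‖w i‖ * ((2 * ‖x i‖) * (ε / (2 * (C + 1)))) := by
              gcongr
              exact (Z.le_opNorm _).trans (mul_le_mul hZn (hmw i) (norm_nonneg _) (by positivity))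
          _ = _ := by ring
      · refine (norm_inner_le_norm _ _).trans ?_
        rw [commute_apply (S.le _ hZN) (hm i), mul_assoc]
        gcongr
        refine ((m i).le_opNorm _).trans ?_
        gcongr
    refine (Finset.sum_le_sum hterm).trans ?_
    rw [Finset.sum_add_distrib, Finset.sum_add_distrib, ← Finset.sum_mul, ← Finset.sum_mul,
      ← hC, ← hD]
    have h1 : C * (ε / (2 * (C + 1))) ≤ ε / 2 := by
      calc C * (ε / (2 * (C + 1))) ≤ (C + 1) * (ε / (2 * (C + 1))) := by gcongr; linarith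
        _ = ε / 2 := by field_simp
    have h2 : D * (ε / (2 * (D + 1))) ≤ ε / 2 := by
      calc D * (ε / (2 * (D + 1))) ≤ (D + 1) * (ε / (2 * (D + 1))) := by gcongr; linarith
        _ = ε / 2 := by field_simp
    linarith
  -- averaging of the second sum
  set A : ℝ := ∑ i, (⟪ξ, x i ξ⟫_ℂ * ⟪w i, w' i⟫_ℂ).re with hA
  have hsec := S.avgN_le (ι := t × κ) (x := fun p => y p.2) (fun p => hy p.2)
    (fun p => (r p.1 : ℂ) • (star (u p.1)) (z p.2)) (fun p => (star (u p.1)) (z' p.2))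
    (c := c - A - ε) (by
      intro s hs
      have hs' := Ucent_star hs
      have h1 := hfirst (star s) hs'
      have h2 : ∀ j ∈ t, r j * c ≤ r j * (∑ i, (⟪w i, (star (u j * star s) * x i *
          (u j * star s)) (w' i)⟫_ℂ).re +
          ∑ k, (⟪z k, ((u j * star s) * y k * star (u j * star s)) (z' k)⟫_ℂ).re) :=
        fun j hj => mul_le_mul_of_nonneg_left (h _ (Ucent_mul (hu j hj) hs')) (hr j hj)
      have h3 := Finset.sum_le_sum h2
      rw [← Finset.sum_mul, hr1, one_mul] at h3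
      simp only [mul_add] at h3
      rw [Finset.sum_add_distrib] at h3
      have h4 : ∑ j ∈ t, r j * ∑ i, (⟪w i, (star (u j * star s) * x i *
          (u j * star s)) (w' i)⟫_ℂ).re =
          ∑ i, (⟪w i, (star (star s) * X i * star s) (w' i)⟫_ℂ).re := by
        simp only [Finset.mul_sum]
        rw [Finset.sum_comm]
        refine Finset.sum_congr rfl fun i _ => ?_
        have e1 : star (star s) * X i * star s =
            ∑ j ∈ t, (r j : ℂ) • (star (u j * star s) * x i * (u j * star s)) := by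
          rw [hX]
          simp only [Finset.mul_sum, Finset.sum_mul]
          refine Finset.sum_congr rfl fun j _ => ?_
          rw [mul_smul_comm, smul_mul_assoc, star_mul, star_star]
          simp only [mul_assoc]
        rw [e1, sum_apply, inner_sum, Complex.re_sum]
        refine Finset.sum_congr rfl fun j _ => ?_
        rw [smul_apply, inner_smul_right, Complex.re_ofReal_mul]
      have h5 : ∑ j ∈ t, r j * ∑ k, (⟪z k, ((u j * star s) * y k *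
          star (u j * star s)) (z' k)⟫_ℂ).re = ∑ p : t × κ,
          (⟪((r p.1 : ℂ) • (star (u p.1)) (z p.2)), (star s * y p.2 * s)
            ((star (u p.1)) (z' p.2))⟫_ℂ).re := by
        rw [Fintype.sum_prod_type, ← Finset.sum_coe_sort t]
        refine Finset.sum_congr rfl fun j _ => ?_
        rw [Finset.mul_sum]
        refine Finset.sum_congr rfl fun k _ => ?_
        rw [inner_smul_left, Complex.conj_ofReal, Complex.re_ofReal_mul, inner_star_left,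
          star_mul, star_star]
        rfl
      rw [h4, h5] at h3
      linarith)
  have h6 : ∑ p : t × κ, (⟪ξ, y p.2 ξ⟫_ℂ * ⟪((r p.1 : ℂ) • (star (u p.1)) (z p.2)),
      (star (u p.1)) (z' p.2)⟫_ℂ).re = ∑ k, (⟪ξ, y k ξ⟫_ℂ * ⟪z k, z' k⟫_ℂ).re := by
    rw [Fintype.sum_prod_type, Finset.sum_coe_sort t (fun j => ∑ k, (⟪ξ, y k ξ⟫_ℂ *
      ⟪((r j : ℂ) • (star (u j)) (z k)), (star (u j)) (z' k)⟫_ℂ).re)]
    have e1 : ∀ j ∈ t, ∑ k, (⟪ξ, y k ξ⟫_ℂ *
        ⟪((r j : ℂ) • (star (u j)) (z k)), (star (u j)) (z' k)⟫_ℂ).re =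
        r j * ∑ k, (⟪ξ, y k ξ⟫_ℂ * ⟪z k, z' k⟫_ℂ).re := by
      intro j hj
      rw [Finset.mul_sum]
      refine Finset.sum_congr rfl fun k _ => ?_
      rw [inner_smul_left, Complex.conj_ofReal, inner_star_left]
      have e2 : u j ((star (u j)) (z' k)) = z' k :=
        congrArg (fun T : H →L[ℂ] H => T (z' k)) (hu j hj).2.2
      rw [e2, mul_left_comm, Complex.re_ofReal_mul]
    rw [Finset.sum_congr rfl e1, ← Finset.sum_mul, hr1, one_mul]
  rw [h6] at hsec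
  linarith

end AP

end Pool.Agent.Helper23

end

section

open scoped InnerProductSpace

open ContinuousLinearMap Filter

namespace Pool.Agent.Helper23

variable {H : Type*} [NormedAddCommGroup H] [InnerProductSpace ℂ H] [CompleteSpace H]

variable {M N : VonNeumannAlgebra H} {ξ : H} {E : (H →L[ℂ] H) → (H →L[ℂ] H)}

/-- the partner of an eigenoperator -/
lemma Partner.of_eig {γ : ℝ} (hγ : γ ≠ 0) {a : H →L[ℂ] H} (ha : a ∈ eig N ξ γ) :
    Partner N ξ a (((γ⁻¹ : ℝ) : ℂ) • a) :=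
  ⟨ha.1, smul_mem' _ ha.1, fun z hz => by
    rw [smul_apply, map_smul, inner_smul_right, ha.2 z hz, ← mul_assoc, ← Complex.ofReal_mul,
      inv_mul_cancel₀ hγ, Complex.ofReal_one, one_mul]⟩

lemma Partner.of_cent {u : H →L[ℂ] H} (hu : u ∈ eig N ξ 1) : Partner N ξ u u := by
  have := Partner.of_eig one_ne_zero hu
  simpa using this

/-- conjugation by a unitary of the centralizer -/
lemma Partner.conj {C C' u : H →L[ℂ] H} (h : Partner N ξ C C') (hu : u ∈ Ucent N ξ) :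
    Partner N ξ (u * C * star u) (u * C' * star u) :=
  ((Partner.of_cent hu.1).mul h).mul (Partner.of_cent (Ucent_star hu).1)

end Pool.Agent.Helper23

end

section

open scoped InnerProductSpace Topology ENNReal

open ContinuousLinearMap Filter MeasureTheory

set_option linter.unusedSectionVars false

set_option linter.unusedVariables false

namespace Pool.Agent.Helper23

variable {H : Type*} [NormedAddCommGroup H] [InnerProductSpace ℂ H] [CompleteSpace H]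

variable {M N : VonNeumannAlgebra H} {ξ : H} {E : (H →L[ℂ] H) → (H →L[ℂ] H)}

namespace GKW

lemma hasSum_int (G F : L2R H) :
    HasSum (fun m : ℤ => ⟪G, mulOp H (ind (Set.Ico (m : ℝ) (m + 1))) F⟫_ℂ) ⟪G, F⟫_ℂ := by
  have h1 : Integrable (fun s => ⟪G s, F s⟫_ℂ) volume := L2.integrable_inner G F
  have h2 := h1.hasSum_intervalIntegral 0
  have h3 : ∀ m : ℤ, ⟪G, mulOp H (ind (Set.Ico (m : ℝ) (m + 1))) F⟫_ℂ =
      ∫ s in (0 : ℝ) + m..0 + m + 1, ⟪G s, F s⟫_ℂ := by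
    intro m
    rw [zero_add, intervalIntegral.integral_of_le (by linarith), ← integral_Ico_eq_integral_Ioc,
      ← integral_indicator measurableSet_Ico, L2.inner_def]
    refine integral_congr_ae ?_
    filter_upwards [mulOp_coe (ind_bm (measurableSet_Ico (a := (m : ℝ)) (b := m + 1))) F] with s hs
    rw [hs, inner_smul_right]
    by_cases h : s ∈ Set.Ico (m : ℝ) (m + 1)
    · rw [ind_of_mem h, Set.indicator_of_mem h, one_mul]
    · rw [ind_of_notMem h, Set.indicator_of_notMem h, zero_mul]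
  simp only [h3]
  rw [L2.inner_def]
  exact h2

end GKW

end Pool.Agent.Helper23

end

section

open scoped InnerProductSpace Topology

open ContinuousLinearMap Filter

namespace Pool.Agent.Helper23

variable {H : Type*} [NormedAddCommGroup H] [InnerProductSpace ℂ H] [CompleteSpace H]

variable {M N : VonNeumannAlgebra H} {ξ : H} {E : (H →L[ℂ] H) → (H →L[ℂ] H)}

namespace AP

variable (S : AP M N E ξ)

include S

lemma norm_conj_xi {u Z : H →L[ℂ] H} (hu : u ∈ Ucent N ξ) (hZ : Z ∈ M) :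
    ‖(u * Z * star u) ξ‖ = ‖Z ξ‖ := by
  change ‖u (Z ((star u) ξ))‖ = _
  rw [norm_of_isom hu.2.1, S.norm_right_unitary (Ucent_star hu).1 (Ucent_star hu).2.2 hZ]

end AP

end Pool.Agent.Helper23

end
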