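import Pool.Agent.Helper23.FA.Ns
import Pool.Agent.Helper23.FA.L00_01
import Pool.Agent.Helper23.FA.L00_02
import Pool.Agent.Helper23.FA.L00_04
import Pool.Agent.Helper23.FA.L00_18
import Pool.Agent.Helper23.FA.L00_19

/-!
Parts of Helper23.Dens, Helper72.TTB, Helper23.Pol2, Helper68.U17a, Helper94.LbBicent
-/

section

open scoped InnerProductSpace

open ContinuousLinearMap

namespace Pool.Agent.Helper23

variable {H : Type*} [NormedAddCommGroup H] [InnerProductSpace ℂ H] [CompleteSpace H]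

variable {M N : VonNeumannAlgebra H} {ξ : H} {E : (H →L[ℂ] H) → (H →L[ℂ] H)}

section Density

variable {ι : Type*} [Fintype ι] [DecidableEq ι]

/-- coordinate embedding -/
noncomputable def sing (ι : Type*) [Fintype ι] [DecidableEq ι] (j : ι) :
    H →L[ℂ] PiLp 2 (fun _ : ι => H) :=
  ((PiLp.continuousLinearEquiv 2 ℂ (fun _ : ι => H)).symm : _ →L[ℂ] _).comp
    (ContinuousLinearMap.single ℂ (fun _ : ι => H) j)

omit [CompleteSpace H] in
lemma sing_apply (j : ι) (h : H) (i : ι) :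
    sing ι j h i = if i = j then h else 0 := by
  change (Pi.single j h : ι → H) i = _
  rw [Pi.single_apply]

omit [CompleteSpace H] in
lemma diag_sing (a : H →L[ℂ] H) (j : ι) (h : H) : diag ι a (sing ι j h) = sing ι j (a h) := by
  ext i
  rw [diag_apply, sing_apply, sing_apply]
  split_ifs <;> simp

omit [CompleteSpace H] in
lemma sum_sing (x : PiLp 2 (fun _ : ι => H)) : x = ∑ j, sing ι j (x j) := by
  ext i
  have h1 : (∑ j, sing ι j (x j)) i = ∑ j, (sing ι j (x j)) i := by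
    have := map_sum (PiLp.proj (𝕜 := ℂ) 2 (fun _ : ι => H) i) (fun j => sing ι j (x j)) Finset.univ
    exact this
  rw [h1]
  simp only [sing_apply]
  rw [Finset.sum_ite_eq]
  simp

omit [DecidableEq ι] in
lemma inner_diag (a : H →L[ℂ] H) (x y : PiLp 2 (fun _ : ι => H)) :
    ⟪diag ι a x, y⟫_ℂ = ⟪x, diag ι (star a) y⟫_ℂ := by
  rw [PiLp.inner_apply, PiLp.inner_apply]
  refine Finset.sum_congr rfl fun i _ => ?_
  rw [diag_apply, diag_apply, inner_star_right]

end Density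

end Pool.Agent.Helper23

end

section

open scoped InnerProductSpace

open ContinuousLinearMap

namespace Pool.Agent.Helper72

open Pool.Agent.Helper23

variable {H : Type*} [NormedAddCommGroup H] [InnerProductSpace ℂ H] [CompleteSpace H]

lemma inner_sa {S : H →L[ℂ] H} (hS : star S = S) (v w : H) : ⟪S v, w⟫_ℂ = ⟪v, S w⟫_ℂ := by
  conv_rhs => rw [← hS]
  rw [inner_star_right]

/-- functional calculus: a cut off of a positive operator. -/
lemma exists_cut (e : H →L[ℂ] H) (he : 0 ≤ e) {d : ℝ} (hd : 0 < d) :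
    ∃ S : H →L[ℂ] H, star S = S ∧ (∀ z, e * z = z * e → S * z = z * S) ∧
      (∀ v, (1 - d) * ‖S v‖ ^ 2 ≤ (⟪S v, S v - e (S v)⟫_ℂ).re) ∧
      (∀ v, ‖S (e v)‖ ^ 2 ≤ d * (⟪S v, S (e v)⟫_ℂ).re) ∧ (S = 0 → IsUnit e) := by
  have hsa : IsSelfAdjoint e := IsSelfAdjoint.of_nonneg he
  set f : ℝ → ℝ := fun t => max (d - t) 0 with hf
  have hfc : Continuous f := by fun_prop
  set S := cfc f e with hS
  have hS0 : 0 ≤ S := cfc_nonneg (fun x _ => le_max_right _ _)
  have hSsa : star S = S := (IsSelfAdjoint.of_nonneg hS0).star_eq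
  have hcomm : ∀ z, e * z = z * e → S * z = z * S := by
    intro z hz
    exact (Commute.cfc_real (A := H →L[ℂ] H) (a := e) (b := z) hz f)
  have heS : e * S = cfc (fun t => t * f t) e := by
    rw [cfc_mul (fun t => t) f e (by fun_prop) hfc.continuousOn, cfc_id' ℝ e]
  have heS0 : 0 ≤ e * S := by
    rw [heS]
    refine cfc_nonneg (fun x hx => mul_nonneg ?_ (le_max_right _ _))
    exact spectrum_nonneg_of_nonneg he hx
  have hSS : (d • (1 : H →L[ℂ] H) - e) * S = S * S := by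
    have h1 : (d • (1 : H →L[ℂ] H) - e) = cfc (fun t => d - t) e := by
      rw [cfc_sub (fun _ => d) (fun t => t) e (by fun_prop) (by fun_prop), cfc_const d e,
        cfc_id' ℝ e, Algebra.algebraMap_eq_smul_one]
    rw [h1, hS, ← cfc_mul (fun t => d - t) f e (by fun_prop) hfc.continuousOn,
      ← cfc_mul f f e hfc.continuousOn hfc.continuousOn]
    refine cfc_congr fun t _ => ?_
    simp only [hf]
    rcases le_total (d - t) 0 with h | h
    · rw [max_eq_right h]; ring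
    · rw [max_eq_left h]
  have heSc : ∀ v, e (S v) = S (e v) := by
    intro v
    have := hcomm e rfl
    exact (congrArg (fun T : H →L[ℂ] H => T v) this).symm
  have hSSv : ∀ v, ((d : ℂ)) • S v - e (S v) = S (S v) := by
    intro v
    have := congrArg (fun T : H →L[ℂ] H => T v) hSS
    exact this
  refine ⟨S, hSsa, hcomm, ?_, ?_, ?_⟩
  · intro v
    have h1 : e (S v) = (d : ℂ) • S v - S (S v) := by
      rw [← hSSv v]; abel
    rw [h1, inner_sub_right, inner_sub_right, inner_smul_right]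
    have h2 := inner_re_nonneg_of_nonneg hS0 (S v)
    have h3 : ⟪S v, S v⟫_ℂ = ((‖S v‖ ^ 2 : ℝ) : ℂ) := by
      rw [inner_self_eq_norm_sq_to_K]; norm_cast
    rw [h3]
    have h4 : ((d : ℂ) * ((‖S v‖ ^ 2 : ℝ) : ℂ)).re = d * ‖S v‖ ^ 2 := by
      rw [← Complex.ofReal_mul, Complex.ofReal_re]
    rw [Complex.sub_re, Complex.sub_re, h4, Complex.ofReal_re]
    linarith
  · intro v
    have h1 := inner_re_nonneg_of_nonneg heS0 (S v)
    have h3 : (⟪S (e v), S (e v)⟫_ℂ).re = ‖S (e v)‖ ^ 2 := by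
      rw [inner_self_eq_norm_sq_to_K]; norm_cast
    have h5 : ⟪S (e v), S (e v)⟫_ℂ = (d : ℂ) * ⟪S v, S (e v)⟫_ℂ - ⟪S v, (e * S) (S v)⟫_ℂ := by
      have h6 : (e * S) (S v) = e ((d : ℂ) • S v - e (S v)) := by
        rw [hSSv]; rfl
      have hee : star e = e := hsa.star_eq
      rw [h6, map_sub, map_smul, heSc v, inner_sub_right, inner_smul_right]
      rw [← inner_sa hee (S v) (S (e v)), heSc v]
      ring
    rw [← h3, h5, Complex.sub_re, Complex.re_ofReal_mul]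
    linarith
  · intro h0
    rw [← spectrum.zero_notMem_iff ℝ]
    intro hz
    have h1 : f 0 ∈ spectrum ℝ (cfc f e) := by
      rw [cfc_map_spectrum f e]
      exact ⟨0, hz, rfl⟩
    rw [← hS, h0] at h1
    rw [spectrum.mem_iff] at h1
    apply h1
    rw [sub_zero]
    have h2 : f 0 = d := by simp [hf, hd.le]
    rw [h2]
    exact (isUnit_iff_ne_zero.2 hd.ne').map (algebraMap ℝ (H →L[ℂ] H))

/-- the projection onto the closed graph generated by `(ξ, η)` over the commutant. -/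
lemma exists_graph (A : VonNeumannAlgebra H) {ξ η ζ : H}
    (hb : ∀ c ∈ A.commutant, ⟪c ξ, η⟫_ℂ = ⟪ζ, (star c) ξ⟫_ℂ) :
    ∃ e ∈ A, ∃ g ∈ A, 0 ≤ e ∧ e ξ + (star g) η = ξ ∧ (star g) ξ = e ζ := by
  set V0 : Submodule ℂ (PiLp 2 (fun _ : Fin 2 => H)) :=
    { carrier := {x | ∃ c ∈ A.commutant, x = WithLp.toLp 2 ![c ξ, c η]}
      add_mem' := by
        rintro _ _ ⟨a, ha, rfl⟩ ⟨b, hb, rfl⟩
        refine ⟨a + b, add_mem ha hb, ?_⟩
        ext i
        fin_cases i <;> rfl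
      zero_mem' := by
        refine ⟨0, zero_mem _, ?_⟩
        ext i
        fin_cases i <;> rfl
      smul_mem' := by
        rintro c _ ⟨a, ha, rfl⟩
        refine ⟨c • a, smul_mem' c ha, ?_⟩
        ext i
        fin_cases i <;> rfl } with hV0
  set V := V0.topologicalClosure with hV
  set P := V.starProjection with hP
  have hinv : ∀ b ∈ A.commutant, ∀ x ∈ V, diag (Fin 2) b x ∈ V := by
    intro b hb x hx
    have h1 : (V0 : Set (PiLp 2 (fun _ : Fin 2 => H))) ⊆ (diag (Fin 2) b) ⁻¹' (V : Set _) := by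
      rintro _ ⟨a, ha, rfl⟩
      refine Submodule.le_topologicalClosure _ ⟨b * a, mul_mem hb ha, ?_⟩
      ext i
      fin_cases i <;> rfl
    exact closure_minimal h1 ((Submodule.isClosed_topologicalClosure _).preimage
      (diag (Fin 2) b).continuous) hx
  have hinv' : ∀ b ∈ A.commutant, ∀ x ∈ Vᗮ, diag (Fin 2) b x ∈ Vᗮ := by
    intro b hb x hx
    rw [Submodule.mem_orthogonal] at hx ⊢
    intro u hu
    have := hx _ (hinv _ (star_mem hb) u hu)
    rw [inner_diag, star_star] at this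
    exact this
  have hcomm : ∀ b ∈ A.commutant, ∀ x, P (diag (Fin 2) b x) = diag (Fin 2) b (P x) := by
    intro b hb x
    refine Submodule.eq_starProjection_of_mem_orthogonal (K := V) ?_ ?_
    · exact hinv b hb _ (Submodule.starProjection_apply_mem V x)
    · rw [← map_sub]
      exact hinv' b hb _ (Submodule.sub_starProjection_mem_orthogonal x)
  let T : Fin 2 → Fin 2 → (H →L[ℂ] H) := fun i j =>
    (PiLp.proj 2 (fun _ : Fin 2 => H) i).comp (P.comp (sing (Fin 2) j))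
  have hT : ∀ i j h, T i j h = P (sing (Fin 2) j h) i := fun i j h => rfl
  have hTmem : ∀ i j, T i j ∈ A := by
    intro i j
    rw [mem_iff_commutes]
    intro b hb
    ext h
    change b (P (sing (Fin 2) j h) i) = P (sing (Fin 2) j (b h)) i
    rw [← diag_sing, hcomm b hb]
    rfl
  have hsing : ∀ i (h : H) (x : PiLp 2 (fun _ : Fin 2 => H)),
      ⟪sing (Fin 2) i h, x⟫_ℂ = ⟪h, x i⟫_ℂ := by
    intro i h x
    rw [PiLp.inner_apply, Finset.sum_eq_single i]
    · rw [sing_apply, if_pos rfl]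
    · intro j _ hj
      rw [sing_apply, if_neg hj, inner_zero_left]
    · intro h; exact absurd (Finset.mem_univ _) h
  have hsing' : ∀ i (h : H) (x : PiLp 2 (fun _ : Fin 2 => H)),
      ⟪x, sing (Fin 2) i h⟫_ℂ = ⟪x i, h⟫_ℂ := by
    intro i h x
    rw [← inner_conj_symm, hsing, inner_conj_symm]
  have hPsa : ∀ x y, ⟪P x, y⟫_ℂ = ⟪x, P y⟫_ℂ := fun x y => V.inner_starProjection_left_eq_right x y
  have hTstar : ∀ i j, star (T i j) = T j i := by
    intro i j
    ext v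
    refine ext_inner_left ℂ fun w => ?_
    rw [inner_star_right, hT, hT, ← hsing, ← hsing', hPsa]
  have hexp : ∀ x i, P x i = T i 0 (x 0) + T i 1 (x 1) := by
    intro x i
    conv_lhs => rw [sum_sing x]
    rw [map_sum, Fin.sum_univ_two]
    rfl
  have he0 : 0 ≤ T 0 0 := by
    rw [ContinuousLinearMap.nonneg_iff_isPositive, ContinuousLinearMap.isPositive_iff_complex]
    intro x
    have h1 : ⟪T 0 0 x, x⟫_ℂ = ((‖P (sing (Fin 2) 0 x)‖ ^ 2 : ℝ) : ℂ) := by
      have h2 : P (sing (Fin 2) 0 x) = P (P (sing (Fin 2) 0 x)) := by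
        have := Submodule.isIdempotentElem_starProjection V
        exact (congrArg (fun T : PiLp 2 (fun _ : Fin 2 => H) →L[ℂ] PiLp 2 (fun _ : Fin 2 => H) =>
          T (sing (Fin 2) 0 x)) this).symm
      rw [hT, ← hsing']
      conv_lhs => rw [h2, hPsa]
      rw [inner_self_eq_norm_sq_to_K]
      norm_cast
    rw [h1]
    have h3 : RCLike.re (((‖P (sing (Fin 2) 0 x)‖ ^ 2 : ℝ) : ℂ)) =
      ‖P (sing (Fin 2) 0 x)‖ ^ 2 := Complex.ofReal_re _
    rw [h3]
    exact ⟨rfl, by positivity⟩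
  refine ⟨T 0 0, hTmem 0 0, T 1 0, hTmem 1 0, he0, ?_, ?_⟩
  · rw [hTstar]
    have h1 : WithLp.toLp 2 ![ξ, η] ∈ V :=
      Submodule.le_topologicalClosure _ ⟨1, one_mem _, rfl⟩
    have h2 : P (WithLp.toLp 2 ![ξ, η]) = WithLp.toLp 2 ![ξ, η] :=
      Submodule.starProjection_eq_self_iff.2 h1
    have h3 := hexp (WithLp.toLp 2 ![ξ, η]) 0
    rw [h2] at h3
    exact h3.symm
  · rw [hTstar]
    have h1 : (WithLp.toLp 2 ![-ζ, ξ] : PiLp 2 (fun _ : Fin 2 => H)) ∈ Vᗮ := by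
      rw [hV, Submodule.orthogonal_closure, Submodule.mem_orthogonal]
      rintro _ ⟨c, hc, rfl⟩
      rw [PiLp.inner_apply, Fin.sum_univ_two]
      change ⟪c ξ, -ζ⟫_ℂ + ⟪c η, ξ⟫_ℂ = 0
      have h2 := hb (star c) (star_mem hc)
      rw [star_star] at h2
      rw [inner_neg_right, ← inner_star_right c η ξ, ← inner_conj_symm η, h2, inner_conj_symm]
      ring
    have h2 : P (WithLp.toLp 2 ![-ζ, ξ]) = 0 := by
      refine (Submodule.eq_starProjection_of_mem_orthogonal (K := V) (Submodule.zero_mem _) ?_)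
      rw [sub_zero]
      exact h1
    have h3 := hexp (WithLp.toLp 2 ![-ζ, ξ]) 0
    rw [h2] at h3
    change (0 : H) = T 0 0 (-ζ) + T 0 1 ξ at h3
    rw [map_neg] at h3
    have h4 := congrArg (fun x => T 0 0 ζ + x) h3
    simp only [add_zero, add_neg_cancel_left] at h4
    exact h4.symm

lemma nonneg_of_inner {T : H →L[ℂ] H} (hT : star T = T) (h : ∀ v, 0 ≤ (⟪v, T v⟫_ℂ).re) :
    0 ≤ T := by
  rw [ContinuousLinearMap.nonneg_iff_isPositive, ContinuousLinearMap.isPositive_iff_complex]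
  intro v
  have h1 : ((⟪T v, v⟫_ℂ).re : ℂ) = ⟪T v, v⟫_ℂ := by
    rw [← Complex.conj_eq_iff_re, inner_conj_symm, inner_sa hT]
  refine ⟨h1, ?_⟩
  have h2 := h v
  rw [← inner_sa hT] at h2
  exact h2

/-- `μ R + ν (2 - R)` is onto. -/
lemma exists_solve {R : H →L[ℂ] H} (hR : star R = R) (hR0 : ∀ v : H, 0 ≤ (⟪v, R v⟫_ℂ).re)
    (hR2 : ∀ v : H, (⟪v, R v⟫_ℂ).re ≤ 2 * ‖v‖ ^ 2) {μ ν : ℝ} (hμ : 0 < μ) (hν : 0 < ν) (u : H) :
    ∃ w : H, (μ : ℂ) • R w + (ν : ℂ) • ((2 : ℂ) • w - R w) = u := by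
  set T : H →L[ℂ] H := (μ : ℂ) • R + (ν : ℂ) • ((2 : ℂ) • (1 : H →L[ℂ] H) - R) with hT
  have hTv : ∀ w, T w = (μ : ℂ) • R w + (ν : ℂ) • ((2 : ℂ) • w - R w) := fun w => rfl
  set m : ℝ := 2 * min μ ν with hm
  have hm0 : 0 < m := by positivity
  have h1 : IsUnit T := by
    refine CStarAlgebra.isUnit_of_le ((m : ℂ) • (1 : H →L[ℂ] H)) ?_ ?_
    · rw [← sub_nonneg]
      refine nonneg_of_inner ?_ ?_
      · rw [hT]
        simp [star_sub, star_smul, hR]
      · intro v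
        have e1 : (T - (m : ℂ) • (1 : H →L[ℂ] H)) v =
          (μ : ℂ) • R v + (ν : ℂ) • ((2 : ℂ) • v - R v) - (m : ℂ) • v := rfl
        have e2 : ⟪v, v⟫_ℂ = ((‖v‖ ^ 2 : ℝ) : ℂ) := by
          rw [inner_self_eq_norm_sq_to_K]; norm_cast
        rw [e1, inner_sub_right, inner_add_right, inner_smul_right, inner_smul_right,
          inner_smul_right, inner_sub_right, inner_smul_right, e2, Complex.sub_re, Complex.add_re,
          Complex.re_ofReal_mul, Complex.re_ofReal_mul, Complex.re_ofReal_mul, Complex.sub_re]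
        have e3 : ((2 : ℂ) * ((‖v‖ ^ 2 : ℝ) : ℂ)).re = 2 * ‖v‖ ^ 2 := by
          rw [show (2 : ℂ) = ((2 : ℝ) : ℂ) by norm_cast, Complex.re_ofReal_mul, Complex.ofReal_re]
        rw [e3, Complex.ofReal_re]
        have a1 := hR0 v
        have a2 := hR2 v
        have a3 : min μ ν ≤ μ := min_le_left _ _
        have a4 : min μ ν ≤ ν := min_le_right _ _
        nlinarith [mul_nonneg (sub_nonneg.2 a3) a1, mul_nonneg (sub_nonneg.2 a4) (sub_nonneg.2 a2)]
    · refine ⟨?_, ?_⟩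
      · refine nonneg_of_inner ?_ ?_
        · simp [star_smul]
        · intro v
          have e2 : ⟪v, v⟫_ℂ = ((‖v‖ ^ 2 : ℝ) : ℂ) := by
            rw [inner_self_eq_norm_sq_to_K]; norm_cast
          change 0 ≤ (⟪v, (m : ℂ) • v⟫_ℂ).re
          rw [inner_smul_right, e2, Complex.re_ofReal_mul, Complex.ofReal_re]
          positivity
      · have : (m : ℂ) ≠ 0 := by exact_mod_cast hm0.ne'
        have h3 := (isUnit_iff_ne_zero.2 this).map (algebraMap ℂ (H →L[ℂ] H))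
        rwa [Algebra.algebraMap_eq_smul_one] at h3
  obtain ⟨U, hU⟩ := h1
  refine ⟨(↑U⁻¹ : H →L[ℂ] H) u, ?_⟩
  rw [← hTv, ← hU]
  have := U.mul_inv
  exact congrArg (fun T : H →L[ℂ] H => T u) this

/-- The complex Radon-Nikodym theorem at the level of vectors. -/
theorem exists_vec {A : VonNeumannAlgebra H} {ξ : H} {R : H →L[ℂ] H} {D : H →L[ℝ] H}
    (h : TTData A ξ R D) (hcyc' : Dense (orb A.commutant ξ : Set H))
    {x' : H →L[ℂ] H} (hx' : x' ∈ A.commutant) {μ ν : ℝ} (hμ : 0 < μ) (hν : 0 < ν) :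
    ∃ x ∈ A, ∃ w : H, (μ : ℂ) • R w + (ν : ℂ) • ((2 : ℂ) • w - R w) = (star x') ξ ∧
      x ξ = R w ∧ (star x) ξ = D w ∧
      ∀ y ∈ A, ⟪y ξ, (star x') ξ⟫_ℂ = (μ : ℂ) * ⟪y ξ, x ξ⟫_ℂ + (ν : ℂ) * ⟪(star x) ξ, (star y) ξ⟫_ℂ
      := by
  obtain ⟨w, hw⟩ := exists_solve h.R_star h.R_nonneg h.R_le hμ hν ((star x') ξ)
  -- (a)
  have ha : ∀ y ∈ A, ⟪y ξ, (star x') ξ⟫_ℂ =
      (μ : ℂ) * ⟪y ξ, R w⟫_ℂ + (ν : ℂ) * ⟪D w, (star y) ξ⟫_ℂ := by
    intro y hy
    have h1 : ⟪y ξ, (2 : ℂ) • w - R w⟫_ℂ = ⟪D w, (star y) ξ⟫_ℂ := by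
      have h2 := h.D_mem (star y) (star_mem hy)
      rw [star_star] at h2
      have h3 : ⟪y ξ, (2 : ℂ) • w - R w⟫_ℂ = ⟪(2 : ℂ) • y ξ - R (y ξ), w⟫_ℂ := by
        rw [inner_sub_right, inner_sub_left, inner_smul_left, inner_smul_right,
          inner_sa h.R_star, Complex.conj_ofNat]
      rw [h3, ← h2, ← inner_conj_symm, h.D_symm, inner_conj_symm]
    rw [← hw, inner_add_right, inner_smul_right, inner_smul_right, h1]
  -- (b)
  have hb : ∀ c ∈ A.commutant, ⟪c ξ, R w⟫_ℂ = ⟪D w, (star c) ξ⟫_ℂ := by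
    intro c hc
    have h2 := h.D_comm (star c) (star_mem hc)
    rw [star_star] at h2
    rw [← inner_sa h.R_star, ← h2, ← inner_conj_symm, h.D_symm, inner_conj_symm]
  obtain ⟨e, heA, g, hgA, he0, h1, h2⟩ := exists_graph A hb
  have hesa : star e = e := (IsSelfAdjoint.of_nonneg he0).star_eq
  set m : ℝ := ‖star x'‖ with hm
  set d : ℝ := 4 * μ * ν / (4 * μ * ν + m ^ 2 + 1) with hd
  have hμν : 0 < μ * ν := mul_pos hμ hν
  have hden : 0 < 4 * μ * ν + m ^ 2 + 1 := by positivity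
  have hd0 : 0 < d := by positivity
  obtain ⟨S, hSsa, hScomm, hS1, hS2, hS3⟩ := exists_cut e he0 hd0
  have hSA : S ∈ A := by
    rw [mem_iff_commutes]
    intro c hc
    exact (hScomm c (mem_comm_iff.1 hc e heA)).symm
  have hSe : ∀ v, S (e v) = e (S v) := fun v =>
    congrArg (fun T : H →L[ℂ] H => T v) (hScomm e rfl)
  have key : S ξ = 0 := by
    have hX := ha (g * (S * S)) (mul_mem hgA (mul_mem hSA hSA))
    have e1 : ⟪(g * (S * S)) ξ, R w⟫_ℂ = ⟪S ξ, S ξ - e (S ξ)⟫_ℂ := by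
      change ⟪g (S (S ξ)), R w⟫_ℂ = _
      have h3 : (star g) (R w) = ξ - e ξ := by
        rw [eq_sub_iff_add_eq', h1]
      rw [← inner_star_right, h3, inner_sa hSsa, map_sub, hSe]
    have e2 : ⟪D w, (star (g * (S * S))) ξ⟫_ℂ = ⟪S (D w), S (e (D w))⟫_ℂ := by
      rw [star_mul, star_mul, hSsa]
      change ⟪D w, S (S ((star g) ξ))⟫_ℂ = _
      rw [h2, ← inner_sa hSsa]
    have e3 : ⟪(g * (S * S)) ξ, (star x') ξ⟫_ℂ = ⟪S ξ, (star x') (S (e (D w)))⟫_ℂ := by
      change ⟪g (S (S ξ)), (star x') ξ⟫_ℂ = _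
      rw [← inner_star_right, commute_apply (star_mem hgA) (star_mem hx'), h2,
        inner_sa hSsa, commute_apply hSA (star_mem hx')]
    rw [e1, e2, e3] at hX
    have hX2 := congrArg Complex.re hX
    rw [Complex.add_re, Complex.re_ofReal_mul, Complex.re_ofReal_mul] at hX2
    have b1 := hS1 ξ
    have b2 := hS2 (D w)
    have b3 : (⟪S ξ, (star x') (S (e (D w)))⟫_ℂ).re ≤ m * (‖S ξ‖ * ‖S (e (D w))‖) := by
      have c1 : (⟪S ξ, (star x') (S (e (D w)))⟫_ℂ).re ≤ ‖S ξ‖ * ‖(star x') (S (e (D w)))‖ :=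
        re_inner_le_norm (𝕜 := ℂ) _ _
      have c2 := (star x').le_opNorm (S (e (D w)))
      have c3 := mul_le_mul_of_nonneg_left c2 (norm_nonneg (S ξ))
      calc _ ≤ _ := c1
        _ ≤ _ := c3
        _ = _ := by rw [hm]; ring
    have hd1 : 1 - d = (m ^ 2 + 1) / (4 * μ * ν + m ^ 2 + 1) := by
      rw [hd]; field_simp; ring
    have b4 : ‖S (e (D w))‖ ^ 2 / d ≤ (⟪S (D w), S (e (D w))⟫_ℂ).re := by
      rw [div_le_iff₀ hd0, mul_comm]; exact b2
    have b5 : ‖S ξ‖ = 0 := by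
      refine arith (p := μ * (1 - d)) (q := ν / d) (m := m) (β := ‖S (e (D w))‖) ?_ (by positivity)
        ?_
      · have : 4 * (μ * (1 - d)) * (ν / d) = m ^ 2 + 1 := by
          rw [hd1, hd]; field_simp
        rw [this]; linarith
      · calc μ * (1 - d) * ‖S ξ‖ ^ 2 + ν / d * ‖S (e (D w))‖ ^ 2
            = μ * ((1 - d) * ‖S ξ‖ ^ 2) + ν * (‖S (e (D w))‖ ^ 2 / d) := by ring
          _ ≤ μ * (⟪S ξ, S ξ - e (S ξ)⟫_ℂ).re + ν * (⟪S (D w), S (e (D w))⟫_ℂ).re := by
              gcongr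
          _ = _ := hX2.symm
          _ ≤ _ := b3
    exact norm_eq_zero.1 b5
  have hS0 : S = 0 := eq_of_dense A hcyc' hSA (zero_mem _) (by rw [key]; rfl)
  obtain ⟨U, hU⟩ := hS3 hS0
  set u : H →L[ℂ] H := (↑U⁻¹ : H →L[ℂ] H) with hu
  have hue : u * e = 1 := by rw [← hU]; exact U.inv_mul
  have heu : e * u = 1 := by rw [← hU]; exact U.mul_inv
  have husa : star u = u := by
    have h5 : e * star u = 1 := by
      have := congrArg star hue
      rwa [star_mul, hesa, star_one] at this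
    calc star u = (u * e) * star u := by rw [hue, one_mul]
      _ = u * (e * star u) := mul_assoc _ _ _
      _ = u := by rw [h5, mul_one]
  have huA : u ∈ A := by
    rw [mem_iff_commutes]
    intro c hc
    have h5 := mem_comm_iff.1 hc e heA
    calc c * u = (u * e) * (c * u) := by rw [hue, one_mul]
      _ = u * (e * c) * u := by simp only [mul_assoc]
      _ = u * c * (e * u) := by rw [h5]; simp only [mul_assoc]
      _ = u * c := by rw [heu, mul_one]
  have hxA : g * u ∈ A := mul_mem hgA huA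
  have hxs : (star (g * u)) ξ = D w := by
    rw [star_mul, husa]
    change u ((star g) ξ) = _
    rw [h2]
    exact congrArg (fun T : H →L[ℂ] H => T (D w)) hue
  have hxx : (g * u) ξ = R w := by
    have hden2 : Dense (orb A.commutant ξ : Set H) := hcyc'
    have h6 : ∀ z ∈ (orb A.commutant ξ : Set H), ⟪z, (g * u) ξ - R w⟫_ℂ = 0 := by
      rintro _ ⟨c, hc, rfl⟩
      rw [inner_sub_right, hb c hc, ← hxs, inner_star_left, commute_apply hxA (star_mem hc),
        inner_star_right, sub_self]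
    have h7 : (g * u) ξ - R w = 0 := by
      refine hden2.eq_zero_of_inner_right ℂ ?_
      intro v hv
      exact h6 v hv
    exact sub_eq_zero.1 h7
  refine ⟨g * u, hxA, w, hw, hxx, hxs, ?_⟩
  intro y hy
  rw [ha y hy, hxx, hxs]

/-- the case `μ = ν = 1`. -/
theorem exists_half {A : VonNeumannAlgebra H} {ξ : H} {R : H →L[ℂ] H} {D : H →L[ℝ] H}
    (h : TTData A ξ R D) (hcyc' : Dense (orb A.commutant ξ : Set H))
    {a' : H →L[ℂ] H} (ha' : a' ∈ A.commutant) :
    ∃ a ∈ A, R ((star a') ξ) = (2 : ℂ) • a ξ ∧ R (a' ξ) = (2 : ℂ) • (star a) ξ ∧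
      ∀ y ∈ A, ⟪y ξ, (star a') ξ⟫_ℂ = ⟪y ξ, a ξ⟫_ℂ + ⟪(star a) ξ, (star y) ξ⟫_ℂ := by
  obtain ⟨a, haA, w, hw, h1, h2, h3⟩ := exists_vec h hcyc' ha' one_pos one_pos
  have hw2 : (2 : ℂ) • w = (star a') ξ := by
    rw [← hw]; simp
  refine ⟨a, haA, ?_, ?_, ?_⟩
  · rw [← hw2, map_smul, h1]
  · have h4 := h.D_comm (star a') (star_mem ha')
    rw [star_star] at h4
    rw [← h4, ← hw2, h.D_conj, h2, Complex.conj_ofNat]
  · intro y hy
    have := h3 y hy
    simpa using this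

end Pool.Agent.Helper72

namespace Pool.Agent.Helper23

open Pool.Agent.Helper72

variable {H : Type*} [NormedAddCommGroup H] [InnerProductSpace ℂ H] [CompleteSpace H]

/-- The complex Radon-Nikodym theorem in operator form. -/
theorem TTData.exists_RN {A : VonNeumannAlgebra H} {ξ : H} {R : H →L[ℂ] H} {D : H →L[ℝ] H}
    (h : TTData A ξ R D) (hcyc : Dense (orb A ξ : Set H))
    (hcyc' : Dense (orb A.commutant ξ : Set H)) {x' : H →L[ℂ] H} (hx' : x' ∈ A.commutant)
    (β : ℝ) :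
    ∃ x ∈ A, ∀ v : H, D (x' (D v)) =
      ((Real.exp (-β / 2) : ℝ) : ℂ) • ((2 : ℂ) • x (R v) - R (x (R v))) +
      ((Real.exp (β / 2) : ℝ) : ℂ) • R (x ((2 : ℂ) • v - R v)) := by
  obtain ⟨x, hxA, w, hw, hx1, hx2, hx3⟩ := exists_vec h hcyc' hx' (Real.exp_pos (β / 2))
    (Real.exp_pos (-β / 2))
  refine ⟨x, hxA, ?_⟩
  set μ : ℂ := ((Real.exp (β / 2) : ℝ) : ℂ) with hμ
  set ν : ℂ := ((Real.exp (-β / 2) : ℝ) : ℂ) with hν
  -- test on the dense set
  have hD : ∀ c ∈ A.commutant, ∀ b ∈ A.commutant, ⟪b ξ, D (x' (D (c ξ)))⟫_ℂ =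
      ⟪b ξ, ν • ((2 : ℂ) • x (R (c ξ)) - R (x (R (c ξ)))) +
        μ • R (x ((2 : ℂ) • (c ξ) - R (c ξ)))⟫_ℂ := by
    intro a' ha' b' hb'
    obtain ⟨a, haA, a1, a2, a3⟩ := exists_half h hcyc' ha'
    obtain ⟨b, hbA, b1, b2, b3⟩ := exists_half h hcyc' hb'
    have hDa : D (a' ξ) = (2 : ℂ) • a ξ := by rw [h.D_comm a' ha', a1]
    have hDb : D (b' ξ) = (2 : ℂ) • b ξ := by rw [h.D_comm b' hb', b1]
    have L : ⟪b' ξ, D (x' (D (a' ξ)))⟫_ℂ =
        4 * (μ * ⟪a ξ, b (x ξ)⟫_ℂ + ν * ⟪a ((star x) ξ), b ξ⟫_ℂ) := by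
      rw [h.D_symm, hDa, hDb, map_smul, inner_smul_left, inner_smul_right, Complex.conj_ofNat]
      have h4 : ⟪x' (a ξ), b ξ⟫_ℂ = ⟪((star b) * a) ξ, (star x') ξ⟫_ℂ := by
        rw [← inner_star_right, ← commute_apply hbA (star_mem hx'), ← inner_star_left]
        rfl
      rw [h4, hx3 _ (mul_mem (star_mem hbA) haA), star_mul, star_star]
      change 2 * (2 * (μ * ⟪(star b) (a ξ), x ξ⟫_ℂ + ν * ⟪(star x) ξ, (star a) (b ξ)⟫_ℂ)) = _
      rw [inner_star_left, inner_star_right]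
      ring
    have b3' : ⟪b' ξ, x ((star a) ξ)⟫_ℂ - ⟪(star b) ξ, x ((star a) ξ)⟫_ℂ =
        ⟪a ((star x) ξ), b ξ⟫_ℂ := by
      have h5 := b3 (a * star x) (mul_mem haA (star_mem hxA))
      rw [star_mul, star_star] at h5
      change ⟪a ((star x) ξ), (star b') ξ⟫_ℂ = ⟪a ((star x) ξ), b ξ⟫_ℂ +
        ⟪(star b) ξ, x ((star a) ξ)⟫_ℂ at h5
      have h6 : ⟪b' ξ, x ((star a) ξ)⟫_ℂ = ⟪a ((star x) ξ), (star b') ξ⟫_ℂ := by
        rw [← inner_star_left x, inner_star_right a, commute_apply (star_mem hxA) hb',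
          commute_apply haA hb', ← inner_star_right b']
      rw [h6, h5]; ring
    have a3' : ⟪(star b) ξ, x (a' ξ)⟫_ℂ - ⟪(star b) ξ, x ((star a) ξ)⟫_ℂ =
        ⟪a ξ, b (x ξ)⟫_ℂ := by
      have h5 := a3 (b * x) (mul_mem hbA hxA)
      rw [star_mul] at h5
      change ⟪b (x ξ), (star a') ξ⟫_ℂ = ⟪b (x ξ), a ξ⟫_ℂ +
        ⟪(star a) ξ, (star x) ((star b) ξ)⟫_ℂ at h5
      have h6 := congrArg (starRingEnd ℂ) h5
      rw [map_add, inner_conj_symm, inner_conj_symm, inner_conj_symm] at h6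
      have h7 : ⟪(star b) ξ, x (a' ξ)⟫_ℂ = ⟪(star a') ξ, b (x ξ)⟫_ℂ := by
        rw [commute_apply hxA ha', ← inner_star_left a', ← commute_apply (star_mem hbA)
          (star_mem ha'), inner_star_left b]
      rw [h7, h6, inner_star_left x]
      ring
    have M1 : ⟪b' ξ, (2 : ℂ) • x (R (a' ξ)) - R (x (R (a' ξ)))⟫_ℂ =
        4 * ⟪a ((star x) ξ), b ξ⟫_ℂ := by
      rw [← b3', a2, map_smul, map_smul, inner_sub_right, inner_smul_right, inner_smul_right,
        inner_smul_right, ← inner_sa h.R_star, b2, inner_smul_left, Complex.conj_ofNat]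
      ring
    have M2 : ⟪b' ξ, R (x ((2 : ℂ) • (a' ξ) - R (a' ξ)))⟫_ℂ = 4 * ⟪a ξ, b (x ξ)⟫_ℂ := by
      rw [← a3', a2, ← inner_sa h.R_star, b2, map_sub, map_smul, map_smul, inner_sub_right,
        inner_smul_left, inner_smul_left, inner_smul_right, inner_smul_right, Complex.conj_ofNat]
      ring
    rw [L, inner_add_right, inner_smul_right, inner_smul_right, M1, M2]
    ring
  have hE : ∀ z ∈ (orb A.commutant ξ : Set H), D (x' (D z)) =
      ν • ((2 : ℂ) • x (R z) - R (x (R z))) + μ • R (x ((2 : ℂ) • z - R z)) := by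
    rintro _ ⟨c, hc, rfl⟩
    rw [← sub_eq_zero]
    refine hcyc'.eq_zero_of_inner_right ℂ ?_
    rintro _ ⟨b, hb, rfl⟩
    rw [inner_sub_right, hD c hc b hb, sub_self]
  intro v
  have hcl : IsClosed {z : H | D (x' (D z)) =
      ν • ((2 : ℂ) • x (R z) - R (x (R z))) + μ • R (x ((2 : ℂ) • z - R z))} := by
    refine isClosed_eq (by fun_prop) (by fun_prop)
  exact closure_minimal hE hcl (hcyc' v)

end Pool.Agent.Helper23

end

section

open scoped InnerProductSpace Topology ENNReal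

open ContinuousLinearMap Filter MeasureTheory Polynomial

set_option linter.unusedSectionVars false

set_option linter.unusedVariables false

namespace Pool.Agent.Helper23

variable {H : Type*} [NormedAddCommGroup H] [InnerProductSpace ℂ H] [CompleteSpace H]

variable {M N : VonNeumannAlgebra H} {ξ : H} {E : (H →L[ℂ] H) → (H →L[ℂ] H)}

lemma Pn_Pn (n : ℕ) (f : L2R ℂ) : Pn n (Pn n f) = Pn n f := by
  rw [Pn, mulOp_mulOp (ind_bm measurableSet_Ico) (ind_bm measurableSet_Ico), ind_sq]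

end Pool.Agent.Helper23

end

section

open scoped InnerProductSpace Topology BoundedContinuousFunction

open ContinuousLinearMap Filter MeasureTheory

set_option linter.unusedSectionVars false

namespace Pool.Agent.Helper23

universe u

variable {H : Type u} [NormedAddCommGroup H] [InnerProductSpace ℂ H] [CompleteSpace H]

variable {M N : VonNeumannAlgebra H} {ξ : H} {E : (H →L[ℂ] H) → (H →L[ℂ] H)}

/-- the Radon-Nikodym theorem at the level of vectors, with a uniform bound -/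
theorem TTData.exists_half_bound {A : VonNeumannAlgebra H} {R : H →L[ℂ] H} {D : H →L[ℝ] H}
    (h : TTData A ξ R D) (hcyc' : Dense (orb A.commutant ξ : Set H)) :
    ∃ K : ℝ, 0 ≤ K ∧ ∀ r ∈ A.commutant, ∃ b ∈ A, ‖b‖ ≤ K * ‖r‖ ∧ R (r ξ) = (2 : ℂ) • b ξ := by
  have hex : ∀ r : A.commutant.toStarSubalgebra, ∃ b : A.toStarSubalgebra,
      R ((r : H →L[ℂ] H) ξ) = (2 : ℂ) • (b : H →L[ℂ] H) ξ := by
    intro r
    obtain ⟨a, ha, -, h2, -⟩ := Pool.Agent.Helper72.exists_half h hcyc' r.2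
    exact ⟨⟨star a, star_mem ha⟩, h2⟩
  choose f hf using hex
  have hinj : ∀ b b' : A.toStarSubalgebra,
      (2 : ℂ) • (b : H →L[ℂ] H) ξ = (2 : ℂ) • (b' : H →L[ℂ] H) ξ → b = b' := by
    intro b b' hb
    have h1 : (b : H →L[ℂ] H) ξ = (b' : H →L[ℂ] H) ξ :=
      smul_right_injective H (two_ne_zero : (2 : ℂ) ≠ 0) hb
    exact Subtype.ext (eq_of_dense A hcyc' b.2 b'.2 h1)
  let F : A.commutant.toStarSubalgebra →ₗ[ℂ] A.toStarSubalgebra :=
    { toFun := f
      map_add' := fun r r' => by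
        apply hinj
        rw [← hf]
        change R ((r : H →L[ℂ] H) ξ + (r' : H →L[ℂ] H) ξ) =
          (2 : ℂ) • ((f r : H →L[ℂ] H) ξ + (f r' : H →L[ℂ] H) ξ)
        rw [map_add, hf, hf, smul_add]
      map_smul' := fun c r => by
        apply hinj
        rw [← hf]
        change R (c • (r : H →L[ℂ] H) ξ) = (2 : ℂ) • (c • (f r : H →L[ℂ] H) ξ)
        rw [map_smul, hf, smul_comm] }
  have : CompleteSpace A.toStarSubalgebra := (vN_isClosed A).completeSpace_coe
  have : CompleteSpace A.commutant.toStarSubalgebra :=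
    (vN_isClosed A.commutant).completeSpace_coe
  have hgr : IsClosed (F.graph : Set (A.commutant.toStarSubalgebra × A.toStarSubalgebra)) := by
    have e1 : (F.graph : Set (A.commutant.toStarSubalgebra × A.toStarSubalgebra)) =
        {p | R ((p.1 : H →L[ℂ] H) ξ) = (2 : ℂ) • (p.2 : H →L[ℂ] H) ξ} := by
      ext p
      simp only [SetLike.mem_coe, LinearMap.mem_graph_iff, Set.mem_ofPred_eq]
      constructor
      · intro hp
        rw [hp]
        exact hf p.1
      · intro hp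
        refine hinj _ _ ?_
        rw [← hp]
        exact hf p.1
    rw [e1]
    refine isClosed_eq ?_ ?_
    · fun_prop
    · fun_prop
  have hcont : Continuous F := F.continuous_of_isClosed_graph hgr
  let F' : A.commutant.toStarSubalgebra →L[ℂ] A.toStarSubalgebra := ⟨F, hcont⟩
  refine ⟨‖F'‖, norm_nonneg _, fun r hr => ⟨(f ⟨r, hr⟩ : H →L[ℂ] H), (f ⟨r, hr⟩).2, ?_,
    hf ⟨r, hr⟩⟩⟩
  exact F'.le_opNorm ⟨r, hr⟩

end Pool.Agent.Helper23

end

section

open scoped InnerProductSpace Topology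

open ContinuousLinearMap Filter

namespace Pool.Agent.Helper23

variable {H : Type*} [NormedAddCommGroup H] [InnerProductSpace ℂ H] [CompleteSpace H]

variable {M N : VonNeumannAlgebra H} {ξ : H} {E : (H →L[ℂ] H) → (H →L[ℂ] H)}

namespace AP

variable (S : AP M N E ξ)

include S

omit S [CompleteSpace H] in
lemma comm_smul_xi (y D : H →L[ℂ] H) (c : ℂ) :
    (y * (c • D) - (c • D) * y) ξ = c • ((y * D - D * y) ξ) := by
  rw [mul_smul_comm, smul_mul_assoc, ← smul_sub]; rfl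

end AP

end Pool.Agent.Helper23

end
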