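import Pool.Agent.Helper23.FA.Ns
import Pool.Agent.Helper23.FA.L00_01
import Pool.Agent.Helper23.FA.L00_02
import Pool.Agent.Helper23.FA.L00_08
import Pool.Agent.Helper23.FA.L00_10
import Pool.Agent.Helper23.FA.L00_11
import Pool.Agent.Helper23.FA.L00_13
import Pool.Agent.Helper23.FA.L00_16
import Pool.Agent.Helper23.FA.L00_17
import Pool.Agent.Helper23.FA.L00_18
import Pool.Agent.Helper23.FA.L00_19
import Pool.Agent.Helper23.RBFDefs2

/-!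
Parts of Helper78.BC.Lipschitz, Helper78.BC.Lip1, Helper78.BC.Lip2, Helper78.BC.PS, Helper78.BC.Lev, Helper95.TTC, Helper68.G2b5, Helper78.BC.NoProj
-/

section

open scoped InnerProductSpace

open ContinuousLinearMap

namespace Pool.Agent.Helper78.BC

variable {H : Type*} [NormedAddCommGroup H] [InnerProductSpace ℂ H] [CompleteSpace H]

/-- A vector `η` that moves uniformly little when `ξ` moves little can be approximated by vectors
that move at most proportionally to `ξ`. -/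
theorem lipschitz {S : Set (H →L[ℂ] H)} (hone : 1 ∈ S) (hmul : ∀ a ∈ S, ∀ b ∈ S, a * b ∈ S)
    (hstar : ∀ a ∈ S, star a ∈ S) (huni : ∀ a ∈ S, star a * a = 1) {V : Set H}
    (hVc : Convex ℝ V) (hVcl : IsClosed V) (hVi : ∀ a ∈ S, ∀ v ∈ V, a v ∈ V) {ξ η : H}
    (hη : η ∈ V)
    (h : ∀ ε : ℝ, 0 < ε → ∃ C : ℝ, ∀ a ∈ S, ‖a η - η‖ ^ 2 ≤ ε + C * ‖a ξ - ξ‖ ^ 2)
    {r : ℝ} (hr : 0 < r) :
    ∃ ζ ∈ V, ‖ζ - η‖ ≤ r ∧ ∃ K : ℝ, 0 ≤ K ∧ ∀ a ∈ S, ‖a ζ - ζ‖ ≤ K * ‖a ξ - ξ‖ := by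
  obtain ⟨K, hK, hen⟩ := energy hone hmul hstar huni hVc hVi hη h hr
  set W : Set H := V ∩ Metric.closedBall η r with hWdef
  have hWc : Convex ℝ W := hVc.inter (convex_closedBall η r)
  have hηW : η ∈ W := ⟨hη, Metric.mem_closedBall_self hr.le⟩
  -- finitely many elements at once
  have hfin : ∀ (n : ℕ) (a : Fin n → H →L[ℂ] H), (∀ i, a i ∈ S) → ∀ δ : ℝ, 0 < δ →
      ∃ ζ ∈ W, ∀ i, ‖a i ζ - ζ‖ ^ 2 ≤ K * ‖a i ξ - ξ‖ ^ 2 + δ := by
    intro n a ha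
    refine minimax hWc ⟨η, hηW⟩ (fun i ζ => ‖a i ζ - ζ‖ ^ 2)
      (fun i => (convexOn_move (a i)).subset (Set.subset_univ _) hWc)
      (fun i => K * ‖a i ξ - ξ‖ ^ 2) ?_
    intro t ht δ hδ
    obtain ⟨ζ, hζV, hζr, hζ⟩ := hen n a ha t ht δ hδ
    exact ⟨ζ, ⟨hζV, by rw [Metric.mem_closedBall, dist_eq_norm]; exact hζr⟩, hζ⟩
  -- all elements at once
  let F : S × ℕ → Set H := fun i =>
    W ∩ {ζ | ‖i.1.1 ζ - ζ‖ ^ 2 ≤ K * ‖i.1.1 ξ - ξ‖ ^ 2 + 1 / ((i.2 : ℝ) + 1)}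
  have hWcl : IsClosed W := hVcl.inter Metric.isClosed_closedBall
  have hF : (⋂ i, F i).Nonempty := by
    let _ : InnerProductSpace ℝ H := InnerProductSpace.rclikeToReal ℂ H
    refine fip F ?_ ?_ ?_ ?_
    · intro i
      refine hWc.inter ?_
      have := (convexOn_move (i.1.1)).convex_le
        (K * ‖i.1.1 ξ - ξ‖ ^ 2 + 1 / ((i.2 : ℝ) + 1))
      simpa using this
    · intro i
      refine hWcl.inter ?_
      exact isClosed_le (by fun_prop) continuous_const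
    · intro i
      exact (Metric.isBounded_closedBall (x := η) (r := r)).subset
        (Set.inter_subset_left.trans Set.inter_subset_right)
    · intro s
      set M : ℕ := s.sup (fun i => i.2) with hM
      obtain ⟨ζ, hζW, hζ⟩ := hfin s.card (fun j => (s.equivFin.symm j).1.1.1)
        (fun j => (s.equivFin.symm j).1.1.2) (1 / ((M : ℝ) + 1)) (by positivity)
      refine ⟨ζ, ?_⟩
      rw [Set.mem_iInter₂]
      intro i hi
      refine ⟨hζW, ?_⟩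
      have h1 := hζ (s.equivFin ⟨i, hi⟩)
      simp only [Equiv.symm_apply_apply] at h1
      refine h1.trans (add_le_add le_rfl ?_)
      have h2 : i.2 ≤ M := Finset.le_sup (f := fun i : S × ℕ => i.2) hi
      have h3 : (i.2 : ℝ) ≤ M := by exact_mod_cast h2
      exact one_div_le_one_div_of_le (by positivity) (by linarith)
  obtain ⟨ζ, hζ⟩ := hF
  rw [Set.mem_iInter] at hζ
  have h0 := (hζ (⟨1, hone⟩, 0)).1
  refine ⟨ζ, h0.1, by simpa [dist_eq_norm] using h0.2, Real.sqrt K, Real.sqrt_nonneg K, ?_⟩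
  intro a ha
  have h1 : ‖a ζ - ζ‖ ^ 2 ≤ K * ‖a ξ - ξ‖ ^ 2 := by
    refine le_of_forall_pos_le_add fun ε hε => ?_
    obtain ⟨m, hm⟩ := exists_nat_one_div_lt hε
    have h2 : ‖a ζ - ζ‖ ^ 2 ≤ K * ‖a ξ - ξ‖ ^ 2 + 1 / ((m : ℝ) + 1) := (hζ (⟨a, ha⟩, m)).2
    linarith
  have h2 : 0 ≤ Real.sqrt K * ‖a ξ - ξ‖ := by positivity
  refine abs_le_of_sq_le_sq' ?_ h2 |>.2
  rw [mul_pow, Real.sq_sqrt hK]
  exact h1

end Pool.Agent.Helper78.BC

end

section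

open scoped InnerProductSpace Topology BoundedContinuousFunction

open ContinuousLinearMap Filter

namespace Pool.Agent.Helper78.BC

variable {H : Type*} [NormedAddCommGroup H] [InnerProductSpace ℂ H] [CompleteSpace H]

variable {A : VonNeumannAlgebra H} {ξ : H} {J : H →L[ℝ] H}
  {Ψ : (ℝ →ᵇ ℂ) →⋆ₐ[ℂ] (H →L[ℂ] H)}

namespace Lip1

/-- commutator of a unitary with `x ξ` -/
theorem cm_eq (h : Std A ξ J Ψ) {x u : H →L[ℂ] H} (hx : x ∈ A) (hu : u ∈ A) :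
    cm J u (x ξ) = x (cm J u ξ) - (x * u - u * x) ξ := by
  unfold cm rm
  rw [h.J_comm (star u) (star_mem hu) x hx ξ]
  simp only [map_sub, ContinuousLinearMap.sub_apply, ContinuousLinearMap.mul_apply]
  abel

theorem norm_cm_le (h : Std A ξ J Ψ) {u : H →L[ℂ] H} (hu : Un A u) (v : H) :
    ‖cm J u v‖ ≤ 2 * ‖v‖ := by
  unfold cm rm
  have h1 : ‖u v‖ ≤ ‖v‖ := by
    calc ‖u v‖ ≤ ‖u‖ * ‖v‖ := u.le_opNorm v
      _ ≤ 1 * ‖v‖ := by gcongr; exact norm_le_one hu.2.1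
      _ = ‖v‖ := one_mul _
  have h2 : ‖J ((star u) (J v))‖ ≤ ‖v‖ := by
    rw [h.J_norm]
    calc ‖(star u) (J v)‖ ≤ ‖star u‖ * ‖J v‖ := (star u).le_opNorm _
      _ ≤ 1 * ‖J v‖ := by
        gcongr
        rw [norm_star]
        exact norm_le_one hu.2.1
      _ = ‖v‖ := by rw [one_mul, h.J_norm]
  calc ‖u v - J ((star u) (J v))‖ ≤ ‖u v‖ + ‖J ((star u) (J v))‖ := norm_sub_le _ _
    _ ≤ 2 * ‖v‖ := by linarith

end Lip1

/-- `|φ(x y) - φ(y x)| ≤ 2 ‖x‖ ‖y ξ - ξ y‖` -/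
theorem asymp_of_cm (h : Std A ξ J Ψ) {x y : H →L[ℂ] H} (hx : x ∈ A) (hy : y ∈ A) :
    ‖⟪ξ, (x * y) ξ⟫_ℂ - ⟪ξ, (y * x) ξ⟫_ℂ‖ ≤ 2 * ‖x‖ * ‖cm J y ξ‖ := by
  have e1 : ⟪ξ, (x * y) ξ⟫_ℂ = ⟪(star x) ξ, y ξ⟫_ℂ := by
    rw [ContinuousLinearMap.mul_apply, Lip1.inner_star]
  have e2 : ⟪ξ, (y * x) ξ⟫_ℂ = ⟪J (x ξ), J ((star y) ξ)⟫_ℂ := by
    rw [ContinuousLinearMap.mul_apply, h.J_inner, Lip1.inner_star]
  have e3 : ⟪(star x) ξ, J ((star y) ξ)⟫_ℂ = ⟪J (x ξ), y ξ⟫_ℂ := by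
    have h1 : ⟪(star x) ξ, J ((star y) ξ)⟫_ℂ = ⟪(star y) ξ, J ((star x) ξ)⟫_ℂ := by
      have := h.J_inner (J ((star x) ξ)) ((star y) ξ)
      rw [h.J_J] at this
      exact this
    have h2 : y (J ((star x) ξ)) = J ((star x) (J (y ξ))) := by
      rw [h.J_comm (star x) (star_mem hx) y hy ξ, h.J_xi]
    have h3 : ⟪ξ, J ((star x) (J (y ξ)))⟫_ℂ = ⟪(star x) (J (y ξ)), ξ⟫_ℂ := by
      have := h.J_inner ξ ((star x) (J (y ξ)))
      rw [h.J_xi] at this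
      exact this
    have h4 : ⟪J (y ξ), x ξ⟫_ℂ = ⟪J (x ξ), y ξ⟫_ℂ := by
      have := h.J_inner (y ξ) (J (x ξ))
      rw [h.J_J] at this
      exact this
    rw [h1, Lip1.inner_star, h2, h3, Lip1.inner_star, h4]
  have hd : cm J y ξ = y ξ - J ((star y) ξ) := by
    unfold cm rm
    rw [h.J_xi]
  have e4 : ⟪ξ, (x * y) ξ⟫_ℂ - ⟪ξ, (y * x) ξ⟫_ℂ =
      ⟪(star x) ξ, cm J y ξ⟫_ℂ + ⟪J (x ξ), cm J y ξ⟫_ℂ := by
    rw [e1, e2, hd, inner_sub_right, inner_sub_right, e3]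
    ring
  have hn1 : ‖(star x) ξ‖ ≤ ‖x‖ := by
    calc ‖(star x) ξ‖ ≤ ‖star x‖ * ‖ξ‖ := (star x).le_opNorm ξ
      _ = ‖x‖ := by rw [norm_star, h.norm_one, mul_one]
  have hn2 : ‖J (x ξ)‖ ≤ ‖x‖ := by
    rw [h.J_norm]
    calc ‖x ξ‖ ≤ ‖x‖ * ‖ξ‖ := x.le_opNorm ξ
      _ = ‖x‖ := by rw [h.norm_one, mul_one]
  rw [e4]
  calc ‖⟪(star x) ξ, cm J y ξ⟫_ℂ + ⟪J (x ξ), cm J y ξ⟫_ℂ‖
      ≤ ‖⟪(star x) ξ, cm J y ξ⟫_ℂ‖ + ‖⟪J (x ξ), cm J y ξ⟫_ℂ‖ := norm_add_le _ _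
    _ ≤ ‖(star x) ξ‖ * ‖cm J y ξ‖ + ‖J (x ξ)‖ * ‖cm J y ξ‖ :=
        add_le_add (norm_inner_le_norm _ _) (norm_inner_le_norm _ _)
    _ ≤ ‖x‖ * ‖cm J y ξ‖ + ‖x‖ * ‖cm J y ξ‖ := by gcongr
    _ = 2 * ‖x‖ * ‖cm J y ξ‖ := by ring

/-- The bicentralizer condition along unitaries, in uniform form. -/
theorem bic_uniform (h : Std A ξ J Ψ) {x : H →L[ℂ] H} (hx : Bic A ξ x) {ε : ℝ} (hε : 0 < ε) :
    ∃ C : ℝ, ∀ u, Un A u → ‖cm J u (x ξ)‖ ^ 2 ≤ ε + C * ‖cm J u ξ‖ ^ 2 := by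
  by_contra hcon
  push Not at hcon
  choose u hu hlt using fun n : ℕ => hcon n
  have hxn : ‖x ξ‖ ≤ ‖x‖ := by
    calc ‖x ξ‖ ≤ ‖x‖ * ‖ξ‖ := x.le_opNorm ξ
      _ = ‖x‖ := by rw [h.norm_one, mul_one]
  have hb : ∀ n : ℕ, ‖cm J (u n) (x ξ)‖ ^ 2 ≤ 4 * ‖x‖ ^ 2 := by
    intro n
    have h1 := Lip1.norm_cm_le h (hu n) (x ξ)
    have h2 : ‖cm J (u n) (x ξ)‖ ≤ 2 * ‖x‖ := h1.trans (by linarith)
    calc ‖cm J (u n) (x ξ)‖ ^ 2 ≤ (2 * ‖x‖) ^ 2 :=
          pow_le_pow_left₀ (norm_nonneg _) h2 2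
      _ = 4 * ‖x‖ ^ 2 := by ring
  have hsq : Tendsto (fun n : ℕ => ‖cm J (u n) ξ‖ ^ 2) atTop (𝓝 0) := by
    have h0 : Tendsto (fun n : ℕ => (4 * ‖x‖ ^ 2) / (n : ℝ)) atTop (𝓝 0) :=
      tendsto_const_div_atTop_nhds_zero_nat _
    refine squeeze_zero' (Eventually.of_forall fun n => by positivity) ?_ h0
    filter_upwards [eventually_gt_atTop 0] with n hn
    have hn' : (0 : ℝ) < n := by exact_mod_cast hn
    rw [le_div_iff₀ hn']
    have h1 := hlt n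
    have h2 := hb n
    linarith
  have hcm : Tendsto (fun n : ℕ => ‖cm J (u n) ξ‖) atTop (𝓝 0) := by
    have h1 := (Real.continuous_sqrt.tendsto 0).comp hsq
    rw [Real.sqrt_zero] at h1
    refine h1.congr fun n => ?_
    exact Real.sqrt_sq (norm_nonneg _)
  have has : Pool.Agent.Helper23.RBF.AsympEigen A ξ 1 u := by
    refine ⟨fun n => (hu n).1, ⟨1, fun n => Lip1.norm_le_one (hu n).2.1⟩, ?_⟩
    intro δ hδ
    have h1 : ∀ᶠ n in atTop, ‖cm J (u n) ξ‖ < δ / 2 :=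
      hcm.eventually_lt_const (by positivity)
    filter_upwards [h1] with n hn y hy
    have h2 := asymp_of_cm h hy (hu n).1
    rw [Complex.ofReal_one, one_mul]
    calc ‖⟪ξ, (y * u n) ξ⟫_ℂ - ⟪ξ, (u n * y) ξ⟫_ℂ‖ ≤ 2 * ‖y‖ * ‖cm J (u n) ξ‖ := h2
      _ ≤ 2 * ‖y‖ * (δ / 2) := by gcongr
      _ = δ * ‖y‖ := by ring
  have hlim := (hx.2 u has ξ).norm
  rw [norm_zero] at hlim
  have htot : Tendsto (fun n : ℕ => ‖x‖ * ‖cm J (u n) ξ‖ + ‖(x * u n - u n * x) ξ‖) atTop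
      (𝓝 (‖x‖ * 0 + 0)) := (hcm.const_mul _).add hlim
  rw [mul_zero, add_zero] at htot
  have hsmall : ∀ᶠ n in atTop, ‖x‖ * ‖cm J (u n) ξ‖ + ‖(x * u n - u n * x) ξ‖ < Real.sqrt ε :=
    htot.eventually_lt_const (Real.sqrt_pos.2 hε)
  obtain ⟨n, hn⟩ := hsmall.exists
  have h1 : ‖cm J (u n) (x ξ)‖ ≤ ‖x‖ * ‖cm J (u n) ξ‖ + ‖(x * u n - u n * x) ξ‖ := by
    rw [Lip1.cm_eq h hx.1 (hu n).1]
    exact (norm_sub_le _ _).trans (by gcongr; exact x.le_opNorm _)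
  have h2 : ‖cm J (u n) (x ξ)‖ ^ 2 < ε := by
    have h3 : ‖cm J (u n) (x ξ)‖ < Real.sqrt ε := lt_of_le_of_lt h1 hn
    calc ‖cm J (u n) (x ξ)‖ ^ 2 < Real.sqrt ε ^ 2 :=
          pow_lt_pow_left₀ h3 (norm_nonneg _) two_ne_zero
      _ = ε := Real.sq_sqrt hε.le
  have h3 := hlt n
  have h4 : (0 : ℝ) ≤ n * ‖cm J (u n) ξ‖ ^ 2 := by positivity
  linarith

end Pool.Agent.Helper78.BC

end

section

open scoped InnerProductSpace Topology BoundedContinuousFunction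

open ContinuousLinearMap Filter

namespace Pool.Agent.Helper78.BC

variable {H : Type*} [NormedAddCommGroup H] [InnerProductSpace ℂ H] [CompleteSpace H]

variable {A : VonNeumannAlgebra H} {ξ : H} {J : H →L[ℝ] H}
  {Ψ : (ℝ →ᵇ ℂ) →⋆ₐ[ℂ] (H →L[ℂ] H)}

namespace Lip2

lemma tt_norm (h : Std A ξ J Ψ) {u : H →L[ℂ] H} (hu : Un A u) (v : H) :
    ‖tt h u v - v‖ = ‖cm J u v‖ := by
  have h1 : jy h u (cm J u v) = tt h u v - v := by
    rw [cm, map_sub]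
    congr 1
    · exact h.J_comm u hu.1 u hu.1 v
    · rw [jy_apply, rm, h.J_J]
      have : u ((star u) (J v)) = J v := by
        have := congrArg (fun T : H →L[ℂ] H => T (J v)) hu.2.2
        exact this
      rw [this, h.J_J]
  rw [← h1, jy_apply, h.J_norm, un_norm hu, h.J_norm]

lemma cm_smul (h : Std A ξ J Ψ) (u : H →L[ℂ] H) (c : ℂ) (v : H) :
    cm J u (c • v) = c • cm J u v := by
  simp only [cm, rm]
  rw [h.J_conj, map_smul, map_smul, h.J_conj, smul_sub]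
  simp

lemma cm_J (h : Std A ξ J Ψ) (u : H →L[ℂ] H) (v : H) :
    ‖cm J u (J v)‖ = ‖cm J (star u) v‖ := by
  have : cm J u (J v) = - J (cm J (star u) v) := by
    simp only [cm, rm, map_sub, star_star, h.J_J]
    abel
  rw [this, norm_neg, h.J_norm]

lemma cm_star_xi (h : Std A ξ J Ψ) (u : H →L[ℂ] H) :
    ‖cm J (star u) ξ‖ = ‖cm J u ξ‖ := by
  rw [← cm_J h, h.J_xi]

end Lip2

open Lip2 in
theorem exists_lip (h : Std A ξ J Ψ) {x : H →L[ℂ] H} (hx : Bic A ξ x) {η : H}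
    (hη : η = x ξ + J (x ξ) ∨ η = Complex.I • (x ξ - J (x ξ))) {r : ℝ} (hr : 0 < r) :
    ∃ ζ : H, J ζ = ζ ∧ ‖ζ - η‖ ≤ r ∧ ∃ K : ℝ, 0 ≤ K ∧
      ∀ u, Un A u → ‖cm J u ζ‖ ≤ K * ‖cm J u ξ‖ := by
  have hηV : J η = η := by
    rcases hη with rfl | rfl
    · rw [map_add, h.J_J, add_comm]
    · rw [h.J_conj, map_sub, h.J_J, Complex.conj_I, neg_smul, ← smul_neg, neg_sub]
  have hbound : ∀ u : H →L[ℂ] H,
      ‖cm J u η‖ ≤ ‖cm J u (x ξ)‖ + ‖cm J (star u) (x ξ)‖ := by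
    intro u
    rcases hη with rfl | rfl
    · rw [cm_add, ← cm_J h]
      exact norm_add_le _ _
    · rw [cm_smul h, norm_smul, Complex.norm_I, one_mul, cm_sub, ← cm_J h]
      exact norm_sub_le _ _
  obtain ⟨ζ, hζ, hζη, K, hK, hKS⟩ := lipschitz
    (S := {T : H →L[ℂ] H | ∃ u, Un A u ∧ T = tt h u}) (V := {v : H | J v = v})
    (ξ := ξ) (η := η) (r := r)
    ⟨1, un_one, (tt_one h).symm⟩
    (by
      rintro _ ⟨u, hu, rfl⟩ _ ⟨w, hw, rfl⟩
      exact ⟨u * w, un_mul hu hw, tt_mul h hu.1 hw.1⟩)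
    (by
      rintro _ ⟨u, hu, rfl⟩
      exact ⟨star u, un_star hu, tt_star h hu.1⟩)
    (by
      rintro _ ⟨u, hu, rfl⟩
      rw [tt_star h hu.1, tt_mul h (star_mem hu.1) hu.1, hu.2.1, tt_one])
    (by
      intro v hv w hw a b _ _ _
      change J (a • v + b • w) = a • v + b • w
      rw [map_add, map_smul, map_smul]
      rw [Set.mem_setOf_eq] at hv hw
      rw [hv, hw])
    (isClosed_eq J.continuous continuous_id)
    (by
      rintro _ ⟨u, hu, rfl⟩ v hv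
      rw [Set.mem_setOf_eq] at hv ⊢
      rw [tt_apply]
      conv_lhs => rw [hv]
      exact h.J_comm u hu.1 u hu.1 v)
    hηV
    (by
      intro ε hε
      obtain ⟨C, hC⟩ := bic_uniform h hx (ε := ε / 4) (by positivity)
      refine ⟨4 * C, ?_⟩
      rintro _ ⟨u, hu, rfl⟩
      rw [tt_norm h hu, tt_norm h hu]
      have h1 := hC u hu
      have h2 := hC (star u) (un_star hu)
      rw [cm_star_xi h] at h2
      have h3 := hbound u
      have h4 : ‖cm J u η‖ ^ 2 ≤ (‖cm J u (x ξ)‖ + ‖cm J (star u) (x ξ)‖) ^ 2 :=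
        pow_le_pow_left₀ (norm_nonneg _) h3 2
      nlinarith [sq_nonneg (‖cm J u (x ξ)‖ - ‖cm J (star u) (x ξ)‖)])
    hr
  refine ⟨ζ, hζ, hζη, K, hK, ?_⟩
  intro u hu
  have := hKS _ ⟨u, hu, rfl⟩
  rwa [tt_norm h hu, tt_norm h hu] at this

end Pool.Agent.Helper78.BC

end

section

open scoped InnerProductSpace Topology BoundedContinuousFunction

open ContinuousLinearMap Filter

namespace Pool.Agent.Helper78.BC

variable {H : Type*} [NormedAddCommGroup H] [InnerProductSpace ℂ H] [CompleteSpace H]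

variable {A : VonNeumannAlgebra H} {ξ : H} {J : H →L[ℝ] H}
  {Ψ : (ℝ →ᵇ ℂ) →⋆ₐ[ℂ] (H →L[ℂ] H)}

namespace PS

lemma P0_smul (h : Std A ξ J Ψ) {t : ℝ} (ht : 0 ≤ t) {v : H} (hv : v ∈ P0 A ξ J) :
    (t : ℂ) • v ∈ P0 A ξ J := by
  obtain ⟨n, a, ha, rfl⟩ := hv
  refine ⟨n, fun i => ((Real.sqrt t : ℝ) : ℂ) • a i,
    fun i => Pool.Agent.Helper23.smul_mem' _ (ha i), ?_⟩
  rw [Finset.smul_sum]
  refine Finset.sum_congr rfl fun i _ => ?_
  rw [smul_apply, smul_apply, J_real h,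
    map_smul, smul_smul, ← Complex.ofReal_mul, Real.mul_self_sqrt ht]

lemma Pc_smul (h : Std A ξ J Ψ) {t : ℝ} (ht : 0 ≤ t) {v : H} (hv : v ∈ Pc A ξ J) :
    (t : ℂ) • v ∈ Pc A ξ J :=
  map_mem_closure (f := fun v : H => (t : ℂ) • v) (continuous_const_smul _) hv
    fun _ h1 => P0_smul h ht h1

/-- first variation: the real part -/
lemma orth_re (h : Std A ξ J Ψ) {p m : H} (hp : p ∈ Pc A ξ J) (hJm : J m = m)
    (h1 : ∀ q ∈ Pc A ξ J, 0 ≤ (⟪m, q⟫_ℂ).re) (h2 : (⟪m, p⟫_ℂ).re = 0)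
    {a : H →L[ℂ] H} (ha : a ∈ A) : (⟪m, a p⟫_ℂ).re = 0 := by
  have hJp := Pc_J h hp
  set α := (⟪m, a p⟫_ℂ).re with hα
  set β := (⟪m, a (J (a p))⟫_ℂ).re with hβ
  have e1 : (⟪m, J (a p)⟫_ℂ).re = α := by
    rw [inner_J h, hJm, ← inner_conj_symm, Complex.conj_re]
  have key : ∀ t : ℝ, 0 ≤ t * (2 * α) + t ^ 2 * β := by
    intro t
    have ht : (1 + (t : ℂ) • a) ∈ A :=
      add_mem (one_mem A) (Pool.Agent.Helper23.smul_mem' _ ha)
    have h3 := h1 _ (Pc_inv h ht hp)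
    have e2 : (1 + (t : ℂ) • a) (J ((1 + (t : ℂ) • a) (J p))) =
        p + (t : ℂ) • (a p + J (a p)) + ((t : ℂ) ^ 2) • a (J (a p)) := by
      rw [hJp]
      simp only [add_apply, one_apply_eq_self,
        smul_apply, map_add, J_real h, hJp, map_smul]
      module
    rw [e2, inner_add_right, inner_add_right, inner_smul_right, inner_smul_right,
      inner_add_right, Complex.add_re, Complex.add_re, h2, ← Complex.ofReal_pow,
      Complex.re_ofReal_mul, Complex.re_ofReal_mul, Complex.add_re, e1, ← hα, ← hβ] at h3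
    linarith
  by_contra hne
  have hα2 : 0 < α ^ 2 := by positivity
  have k1 := key (-α / (|β| + 1))
  have hb : 0 < |β| + 1 := by positivity
  have k2 : (-α / (|β| + 1)) * (2 * α) + (-α / (|β| + 1)) ^ 2 * β
      = α ^ 2 / (|β| + 1) * (-2 + β / (|β| + 1)) := by
    field_simp
  rw [k2] at k1
  have k3 : β / (|β| + 1) < 1 := by
    rw [div_lt_one hb]
    linarith [le_abs_self β]
  have k4 : 0 < α ^ 2 / (|β| + 1) := div_pos hα2 hb
  nlinarith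

/-- the parts are orthogonal in the sense of the algebra -/
lemma orth (h : Std A ξ J Ψ) {p m : H} (hp : p ∈ Pc A ξ J) (hJm : J m = m)
    (h1 : ∀ q ∈ Pc A ξ J, 0 ≤ (⟪m, q⟫_ℂ).re) (h2 : (⟪m, p⟫_ℂ).re = 0)
    {a : H →L[ℂ] H} (ha : a ∈ A) : ⟪m, a p⟫_ℂ = 0 := by
  have r1 := orth_re h hp hJm h1 h2 ha
  have r2 := orth_re h hp hJm h1 h2 (Pool.Agent.Helper23.smul_mem' Complex.I ha)
  rw [smul_apply, inner_smul_right, Complex.I_mul_re] at r2
  apply Complex.ext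
  · rw [r1, Complex.zero_re]
  · rw [Complex.zero_im]; linarith

lemma orth' (h : Std A ξ J Ψ) {p m : H} (hp : p ∈ Pc A ξ J) (hJm : J m = m)
    (h1 : ∀ q ∈ Pc A ξ J, 0 ≤ (⟪m, q⟫_ℂ).re) (h2 : (⟪m, p⟫_ℂ).re = 0)
    {b : H →L[ℂ] H} (hb : b ∈ A.commutant) : ⟪m, b p⟫_ℂ = 0 := by
  obtain ⟨a, ha, hab⟩ := h.J_mem b hb
  rw [hab, Pc_J h hp, inner_J h, hJm, ← inner_conj_symm, orth h hp hJm h1 h2 ha, map_zero]

end PS

open PS Pool.Agent.Helper23 in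
/-- Powers-Stormer inequality. -/
theorem powers_stormer (h : Std A ξ J Ψ) {κ κ' : H} (hκ : κ ∈ Pc A ξ J)
    (hκ' : κ' ∈ Pc A ξ J) {ε : ℝ}
    (hε : ∀ x ∈ A, ‖⟪κ, x κ⟫_ℂ - ⟪κ', x κ'⟫_ℂ‖ ≤ ε * ‖x‖) : ‖κ - κ'‖ ^ 2 ≤ ε := by
  have hcomp : IsComplete (Pc A ξ J) := isClosed_closure.isComplete
  obtain ⟨p, hp, h1, h2⟩ := cone_proj (Pc A ξ J) hcomp Pc_zero (fun v hv w hw => Pc_add hv hw)
    (fun t ht v hv => Pc_smul h ht hv) (κ - κ')
  set m := p - (κ - κ') with hm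
  have hJm : J m = m := by
    rw [hm, map_sub, map_sub, Pc_J h hp, Pc_J h hκ, Pc_J h hκ']
  have horth : ∀ b ∈ A.commutant, ⟪m, b p⟫_ℂ = 0 := fun b hb => orth' h hp hJm h1 h2 hb
  have hPm := proj_orb_mem A.commutant p
  rw [VonNeumannAlgebra.commutant_commutant] at hPm
  set V := (orb A.commutant p).topologicalClosure with hV
  have hpV : p ∈ V := Submodule.le_topologicalClosure _ ⟨1, one_mem _, rfl⟩
  have hmV : m ∈ Vᗮ := by
    rw [hV, Submodule.orthogonal_closure]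
    rw [Submodule.mem_orthogonal']
    rintro _ ⟨b, hb, rfl⟩
    exact horth b hb
  have ep : V.starProjection p = p := Submodule.starProjection_eq_self_iff.2 hpV
  have em : V.starProjection m = 0 := (Submodule.starProjection_apply_eq_zero_iff V).2 hmV
  set x : H →L[ℂ] H := (2 : ℂ) • V.starProjection - 1 with hx
  have hxA : x ∈ A := sub_mem (smul_mem' _ hPm) (one_mem A)
  have hxapp : ∀ v, x v = (2 : ℂ) • V.starProjection v - v := fun v => rfl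
  have hxn : ‖x‖ ≤ 1 := by
    refine ContinuousLinearMap.opNorm_le_bound _ zero_le_one fun v => ?_
    rw [one_mul, hxapp]
    have := V.reflection.norm_map v
    rw [Submodule.reflection_apply] at this
    rw [two_smul]
    rw [two_smul] at this
    exact this.le
  have hsa : ∀ v w : H, ⟪x v, w⟫_ℂ = ⟪v, x w⟫_ℂ := by
    intro v w
    rw [hxapp, hxapp, inner_sub_left, inner_sub_right, inner_smul_left, inner_smul_right,
      Submodule.inner_starProjection_left_eq_right]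
    have h2c : (starRingEnd ℂ) (2 : ℂ) = 2 := Complex.conj_ofNat 2
    rw [h2c]
  have xp : x p = p := by rw [hxapp, ep, two_smul, add_sub_cancel_right]
  have xm : x m = -m := by rw [hxapp, em, smul_zero, zero_sub]
  have hd : κ = κ' + (p - m) := by rw [hm]; abel
  have hpm : (⟪p, m⟫_ℂ).re = 0 := by rw [← inner_conj_symm, Complex.conj_re, h2]
  have hdn : ‖κ - κ'‖ ^ 2 = ‖p‖ ^ 2 + ‖m‖ ^ 2 := by
    have e : κ - κ' = p - m := by rw [hm]; abel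
    rw [e, @norm_sub_sq ℂ]
    have : RCLike.re ⟪p, m⟫_ℂ = 0 := hpm
    rw [this]; ring
  have np : (⟪p, p⟫_ℂ).re = ‖p‖ ^ 2 := by
    have := @inner_self_eq_norm_sq ℂ H _ _ _ p
    exact this
  have nm : (⟪m, m⟫_ℂ).re = ‖m‖ ^ 2 := by
    have := @inner_self_eq_norm_sq ℂ H _ _ _ m
    exact this
  have k1 : 0 ≤ (⟪p, κ'⟫_ℂ).re := Pc_pos h hp hκ'
  have k2 : 0 ≤ (⟪m, κ⟫_ℂ).re := h1 κ hκ
  -- the real part of the difference
  have hre : ‖p‖ ^ 2 + ‖m‖ ^ 2 ≤ (⟪κ, x κ⟫_ℂ - ⟪κ', x κ'⟫_ℂ).re := by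
    have f1 : ⟪κ, x κ⟫_ℂ - ⟪κ', x κ'⟫_ℂ
        = ⟪κ', p + m⟫_ℂ + ⟪p + m, κ'⟫_ℂ + ⟪p - m, p + m⟫_ℂ := by
      have xd : x (p - m) = p + m := by rw [map_sub, xp, xm, sub_neg_eq_add]
      have xs : ⟪p - m, x κ'⟫_ℂ = ⟪p + m, κ'⟫_ℂ := by rw [← hsa (p - m) κ', xd]
      rw [hd, map_add, xd, inner_add_left, inner_add_right κ', inner_add_right (p - m) (x κ'), xs]
      ring
    have f2 : (⟪κ', p + m⟫_ℂ).re = (⟪p + m, κ'⟫_ℂ).re := by
      rw [← inner_conj_symm, Complex.conj_re]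
    have f3 : (⟪p - m, p + m⟫_ℂ).re = ‖p‖ ^ 2 - ‖m‖ ^ 2 := by
      rw [inner_sub_left, inner_add_right, inner_add_right, Complex.sub_re, Complex.add_re,
        Complex.add_re, np, nm, hpm, h2]
      ring
    have f4 : (⟪m, κ⟫_ℂ).re = (⟪m, κ'⟫_ℂ).re - ‖m‖ ^ 2 := by
      rw [hd, inner_add_right, inner_sub_right, Complex.add_re, Complex.sub_re, nm, h2]
      ring
    have f5 : (⟪p + m, κ'⟫_ℂ).re = (⟪p, κ'⟫_ℂ).re + (⟪m, κ'⟫_ℂ).re := by
      rw [inner_add_left, Complex.add_re]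
    rw [f1, Complex.add_re, Complex.add_re, f2, f3, f5]
    linarith
  have hne : Nontrivial H := ⟨ξ, 0, fun h0 => by
    have := h.norm_one
    rw [h0, norm_zero] at this
    exact zero_ne_one this⟩
  have hε0 : 0 ≤ ε := by
    have := (norm_nonneg _).trans (hε 1 (one_mem A))
    rwa [norm_one, mul_one] at this
  rw [hdn]
  calc ‖p‖ ^ 2 + ‖m‖ ^ 2 ≤ (⟪κ, x κ⟫_ℂ - ⟪κ', x κ'⟫_ℂ).re := hre
    _ ≤ ‖⟪κ, x κ⟫_ℂ - ⟪κ', x κ'⟫_ℂ‖ := Complex.re_le_norm _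
    _ ≤ ε * ‖x‖ := hε x hxA
    _ ≤ ε * 1 := mul_le_mul_of_nonneg_left hxn hε0
    _ = ε := mul_one ε

end Pool.Agent.Helper78.BC

end

section

open scoped InnerProductSpace Topology BoundedContinuousFunction

open ContinuousLinearMap Filter

namespace Pool.Agent.Helper78.BC

variable {H : Type*} [NormedAddCommGroup H] [InnerProductSpace ℂ H] [CompleteSpace H]

variable {A : VonNeumannAlgebra H} {ξ : H} {J : H →L[ℝ] H}
  {Ψ : (ℝ →ᵇ ℂ) →⋆ₐ[ℂ] (H →L[ℂ] H)}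

open LevAux in
theorem exists_lev (h : Std A ξ J Ψ) (hN : Pool.Agent.Helper23.RBF.TypeIIIOne A) {l : ℝ}
    (hl : 0 < l) (hl1 : l ≤ 1) {ε : ℝ} (hε : 0 < ε) : ∃ v, Lev A ξ J l ε v := by
  obtain ⟨⟨S1, hS1, S2, hS2, h11, h22, h12⟩, htr⟩ := hN
  have h21 : star S2 * S1 = 0 := by
    have := congrArg star h12
    rwa [star_mul, star_star, star_zero] at this
  have hl' : 0 ≤ 1 - l := by linarith
  set s : ℝ := Real.sqrt l with hs
  set t : ℝ := Real.sqrt (1 - l) with ht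
  have hs0 : 0 ≤ s := Real.sqrt_nonneg _
  have ht0 : 0 ≤ t := Real.sqrt_nonneg _
  have hss : s ^ 2 = l := Real.sq_sqrt hl.le
  have htt : t ^ 2 = 1 - l := Real.sq_sqrt hl'
  have hn1 : ‖ξ‖ ^ 2 + ‖(0 : H)‖ ^ 2 = 1 := by rw [h.norm_one, norm_zero]; norm_num
  have hn2 : ‖(s : ℂ) • S1 ξ‖ ^ 2 + ‖(t : ℂ) • S2 ξ‖ ^ 2 = 1 := by
    rw [norm_smul, norm_smul, norm_iso h11, norm_iso h22, h.norm_one, Complex.norm_real,
      Complex.norm_real, Real.norm_of_nonneg hs0, Real.norm_of_nonneg ht0, mul_one, mul_one, hss,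
      htt]
    ring
  obtain ⟨u, hu, hu1, hu2, hux⟩ := htr ξ 0 ((s : ℂ) • S1 ξ) ((t : ℂ) • S2 ξ) hn1 hn2 (ε ^ 2)
    (by positivity)
  -- the two vectors of the cone
  set k1 : H := u (J (u ξ)) with hk1
  set k2 : H := (s : ℂ) • S1 (J (S1 ξ)) + (t : ℂ) • S2 (J (S2 ξ)) with hk2
  have hk1P : k1 ∈ Pc A ξ J := by
    refine subset_closure ⟨1, fun _ => u, fun _ => hu, ?_⟩
    simp [hk1]
  have hk2P : k2 ∈ Pc A ξ J := by
    set c1 : ℝ := Real.sqrt s with hc1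
    set c2 : ℝ := Real.sqrt t with hc2
    have e1 : (c1 : ℂ) * (c1 : ℂ) = (s : ℂ) := by
      rw [← Complex.ofReal_mul, hc1, Real.mul_self_sqrt hs0]
    have e2 : (c2 : ℂ) * (c2 : ℂ) = (t : ℂ) := by
      rw [← Complex.ofReal_mul, hc2, Real.mul_self_sqrt ht0]
    refine subset_closure ⟨2, ![(c1 : ℂ) • S1, (c2 : ℂ) • S2], ?_, ?_⟩
    · intro i
      fin_cases i
      · exact Pool.Agent.Helper23.smul_mem' _ hS1
      · exact Pool.Agent.Helper23.smul_mem' _ hS2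
    · rw [Fin.sum_univ_two]
      simp only [Matrix.cons_val_zero, Matrix.cons_val_one, smul_apply]
      rw [J_real h, J_real h, map_smul, map_smul, smul_smul, smul_smul, e1, e2]
  -- the states
  have hq1 : ∀ x ∈ A, ⟪k1, x k1⟫_ℂ = ⟪u ξ, x (u ξ)⟫_ℂ := by
    intro x hx
    rw [hk1, flip h hu, inner_J h hu hx, inner_iso hu1, h.J_inner]
  have hq2 : ∀ x ∈ A, ⟪k2, x k2⟫_ℂ = ⟪(s : ℂ) • S1 ξ, x ((s : ℂ) • S1 ξ)⟫_ℂ +
      ⟪(t : ℂ) • S2 ξ, x ((t : ℂ) • S2 ξ)⟫_ℂ := by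
    intro x hx
    have a11 : ⟪J (S1 (J (S1 ξ))), x (J (S1 (J (S1 ξ))))⟫_ℂ = ⟪S1 ξ, x (S1 ξ)⟫_ℂ := by
      rw [inner_J h hS1 hx, inner_iso h11, h.J_inner]
    have a22 : ⟪J (S2 (J (S2 ξ))), x (J (S2 (J (S2 ξ))))⟫_ℂ = ⟪S2 ξ, x (S2 ξ)⟫_ℂ := by
      rw [inner_J h hS2 hx, inner_iso h22, h.J_inner]
    have a12 : ⟪J (S1 (J (S1 ξ))), x (J (S2 (J (S2 ξ))))⟫_ℂ = 0 := by
      rw [inner_J h hS2 hx, inner_orth h21]
    have a21 : ⟪J (S2 (J (S2 ξ))), x (J (S1 (J (S1 ξ))))⟫_ℂ = 0 := by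
      rw [inner_J h hS1 hx, inner_orth h12]
    rw [hk2, flip h hS1, flip h hS2]
    simp only [map_add, map_smul, inner_add_left, inner_add_right, inner_smul_left,
      inner_smul_right, a11, a22, a12, a21, mul_zero, add_zero, zero_add]
  have hps : ‖k1 - k2‖ ^ 2 ≤ ε ^ 2 := by
    refine powers_stormer h hk1P hk2P ?_
    intro x hx
    have h3 := hux x hx
    rw [map_zero, map_zero, inner_zero_right, add_zero] at h3
    rw [hq1 x hx, hq2 x hx]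
    exact h3
  have hk : ‖k1 - k2‖ ≤ ε := by
    exact (pow_le_pow_iff_left₀ (norm_nonneg _) hε.le two_ne_zero).1 hps
  refine ⟨star S1 * u, ⟨mul_mem (star_mem hS1) hu, ?_, ?_⟩⟩
  · rw [star_mul, star_star]
    calc star S1 * u * (star u * S1) = star S1 * (u * star u) * S1 := by
          simp only [mul_assoc]
      _ = 1 := by rw [hu2, mul_one, h11]
  · have hS1k2 : (star S1) k2 = (s : ℂ) • J (S1 ξ) := by
      have e1 : (star S1) (S1 (J (S1 ξ))) = J (S1 ξ) := by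
        have := congrArg (fun T : H →L[ℂ] H => T (J (S1 ξ))) h11
        simpa using this
      have e2 : (star S1) (S2 (J (S2 ξ))) = 0 := by
        have := congrArg (fun T : H →L[ℂ] H => T (J (S2 ξ))) h12
        simpa using this
      rw [hk2, map_add, map_smul, map_smul, e1, e2, smul_zero, add_zero]
    have hstar : star (star S1 * u) = star u * S1 := by rw [star_mul, star_star]
    have huu : (star u) (u ξ) = ξ := by
      have := congrArg (fun T : H →L[ℂ] H => T ξ) hu1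
      simpa using this
    have hmem : star S1 * u ∈ A := mul_mem (star_mem hS1) hu
    -- apply `J u* J`
    have hkey : (star S1 * u) ξ - ((s : ℝ) : ℂ) • rm J (star S1 * u) ξ =
        J ((star u) (J ((star S1) (k1 - k2)))) := by
      rw [map_sub (star S1), hS1k2, map_sub, map_sub, map_sub, J_real h, h.J_J, map_smul,
        J_real h, rm, h.J_xi, hstar]
      congr 1
      rw [hk1]
      have h5 := h.J_comm (star u) (star_mem hu) (star S1 * u) hmem (J (u ξ))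
      rw [h.J_J, huu, h.J_xi] at h5
      exact h5.symm
    rw [hkey, h.J_norm]
    calc ‖(star u) (J ((star S1) (k1 - k2)))‖ ≤ ‖J ((star S1) (k1 - k2))‖ := norm_star_le hu1 _
      _ = ‖(star S1) (k1 - k2)‖ := h.J_norm _
      _ ≤ ‖k1 - k2‖ := norm_star_le h11 _
      _ ≤ ε := hk

end Pool.Agent.Helper78.BC

end

section

open scoped InnerProductSpace Topology BoundedContinuousFunction

open ContinuousLinearMap Filter

namespace Pool.Agent.Helper95.TTC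

lemma xG_le (G : ℝ →ᵇ ℂ) (z : sS) : ‖xG G z‖ ≤ ‖G‖ * ‖wS z‖ := by
  obtain ⟨r, h0, h2, h⟩ := sS_cases z
  rw [xG_apply G z r h, wS_apply z r h, norm_mul, mul_comm ‖G‖]
  exact mul_le_mul_of_nonneg_left (G.norm_coe_le_norm _) (norm_nonneg _)

lemma xG_mul (G G' : ℝ →ᵇ ℂ) : xG G * xG G' = wS * xG (G * G') := by
  ext z
  obtain ⟨r, h0, h2, h⟩ := sS_cases z
  rw [ContinuousMap.mul_apply, ContinuousMap.mul_apply, xG_apply _ z r h, xG_apply _ z r h,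
    xG_apply _ z r h, wS_apply z r h]
  simp only [BoundedContinuousFunction.mul_apply]
  ring

lemma xG_alg (c : ℂ) : xG (algebraMap ℂ (ℝ →ᵇ ℂ) c) = c • wS := by
  ext z
  obtain ⟨r, h0, h2, h⟩ := sS_cases z
  rw [ContinuousMap.smul_apply, xG_apply _ z r h, wS_apply z r h, smul_eq_mul]
  simp [mul_comm]

lemma xG_star (G : ℝ →ᵇ ℂ) : star (xG G) = xG (star G) := by
  ext z
  obtain ⟨r, h0, h2, h⟩ := sS_cases z
  rw [ContinuousMap.star_apply, xG_apply _ z r h, xG_apply _ z r h]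
  simp

end Pool.Agent.Helper95.TTC

namespace Pool.Agent.Helper23

open Pool.Agent.Helper95.TTC

variable {H : Type*} [NormedAddCommGroup H] [InnerProductSpace ℂ H] [CompleteSpace H]

/-- MODULE TT-C: bounded functional calculus of `log Δ` where `R = 2 (1 + Δ)⁻¹` -/
theorem exists_fc (R : H →L[ℂ] H) (hs : star R = R) (h0 : ∀ v : H, 0 ≤ (⟪v, R v⟫_ℂ).re)
    (h2 : ∀ v : H, (⟪v, R v⟫_ℂ).re ≤ 2 * ‖v‖ ^ 2) (hi : ∀ v : H, R v = 0 → v = 0)
    (hi' : ∀ v : H, R v = (2 : ℂ) • v → v = 0) :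
    ∃ Ψ : (ℝ →ᵇ ℂ) →⋆ₐ[ℂ] (H →L[ℂ] H), Ψ FR = R ∧
      (∀ X : H →L[ℂ] H, X * R = R * X → ∀ G, X * Ψ G = Ψ G * X) ∧
      (∀ D : H →L[ℝ] H, (∀ (c : ℂ) (v : H), D (c • v) = (starRingEnd ℂ) c • D v) →
        (∀ v : H, D (R v) = (2 : ℂ) • D v - R (D v)) → ∀ G G' : ℝ →ᵇ ℂ,
        (∀ ρ, G' ρ = (starRingEnd ℂ) (G (-ρ))) → ∀ v : H, D (Ψ G v) = Ψ G' (D v)) ∧
      (∀ (G : ℕ → (ℝ →ᵇ ℂ)) (G₀ : ℝ →ᵇ ℂ) (C : ℝ), (∀ n, ‖G n‖ ≤ C) →
        (∀ L : ℝ, TendstoUniformlyOn (fun n ρ => G n ρ) (fun ρ => G₀ ρ) atTop (Set.Icc (-L) L)) →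
        ∀ v : H, Tendsto (fun n => Ψ (G n) v) atTop (𝓝 (Ψ G₀ v))) := by
  have hR : IsStarNormal R := (show IsSelfAdjoint R from hs).isStarNormal
  have hsp := spectrum_subset R hs h0 h2
  let Φ := Phi R hR hsp
  have hΦz : Φ zS = R := Phi_z R hR hsp
  let W : H →L[ℂ] H := Φ wS
  have hWdef : W = R * ((2 : ℂ) • 1 - R) := by
    change Φ (zS * ((2 : ℂ) • 1 - zS)) = _
    rw [map_mul, map_sub, map_smul, map_one, hΦz]
  have hWinj : ∀ v, W v = 0 → v = 0 := by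
    intro v hv
    rw [hWdef] at hv
    have h3 := hi _ hv
    apply hi'
    have h4 : (2 : ℂ) • v - R v = 0 := h3
    exact (sub_eq_zero.mp h4).symm
  have hWstar : star W = W := by
    change star (Φ wS) = Φ wS
    rw [← map_star]
    congr 1
    ext z
    obtain ⟨r, h0, h2, h⟩ := sS_cases z
    rw [ContinuousMap.star_apply, wS_apply z r h]
    simp
  have hWdense : DenseRange W := by
    have h3 : (LinearMap.range (W : H →ₗ[ℂ] H))ᗮ = ⊥ := by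
      rw [Submodule.eq_bot_iff]
      intro x hx
      apply hWinj
      rw [Submodule.mem_orthogonal] at hx
      have h4 := hx (W (W x)) ⟨W x, rfl⟩
      have h5 : ⟪W (W x), x⟫_ℂ = ⟪W x, W x⟫_ℂ := by
        conv_lhs => rw [← hWstar]
        rw [ContinuousLinearMap.star_eq_adjoint, ContinuousLinearMap.adjoint_inner_left,
          ← ContinuousLinearMap.star_eq_adjoint, hWstar]
      rw [h5] at h4
      exact inner_self_eq_zero.mp h4
    have h4 := (Submodule.topologicalClosure_eq_top_iff).mpr h3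
    rw [DenseRange, dense_iff_closure_eq]
    have h5 := congrArg (fun K : Submodule ℂ H => (K : Set H)) h4
    exact h5
  have huniq : ∀ A B : H →L[ℂ] H, (∀ v, A (W v) = B (W v)) → A = B := by
    intro A B h
    ext x
    exact congrFun (hWdense.equalizer A.continuous B.continuous (funext h)) x
  have hext : ∀ G : ℝ →ᵇ ℂ, ∃ z : H →L[ℂ] H, (∀ v, z (W v) = Φ (xG G) v) ∧ ‖z‖ ≤ ‖G‖ := by
    intro G
    have h3 : ∀ v, ‖(Φ (xG G) : H →ₗ[ℂ] H) v‖ ≤ ‖G‖ * ‖(W : H →ₗ[ℂ] H) v‖ :=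
      fun v => Phi_le R hR hsp (xG G) wS ‖G‖ (norm_nonneg _) (xG_le G) v
    exact ⟨(Φ (xG G) : H →ₗ[ℂ] H).extendOfNorm (W : H →ₗ[ℂ] H),
      fun v => LinearMap.extendOfNorm_eq hWdense ⟨_, h3⟩ v,
      LinearMap.opNorm_extendOfNorm_le hWdense (norm_nonneg _) h3⟩
  choose Ψ₀ hΨ hΨn using hext
  have hcommW : ∀ f : C(sS, ℂ), Φ f * W = W * Φ f := by
    intro f
    change Φ f * Φ wS = Φ wS * Φ f
    rw [← map_mul, ← map_mul, mul_comm]
  have hΨW : ∀ G, Ψ₀ G * W = Φ (xG G) := fun G => by ext v; exact hΨ G v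
  have hWΨ : ∀ G, W * Ψ₀ G = Φ (xG G) := by
    intro G
    apply huniq
    intro v
    change W (Ψ₀ G (W v)) = Φ (xG G) (W v)
    rw [hΨ]
    exact congrArg (fun T : H →L[ℂ] H => T v) (hcommW (xG G)).symm
  have hcancel : ∀ A B : H →L[ℂ] H, W * A = W * B → A = B := by
    intro A B h
    ext v
    have h3 : W (A v - B v) = 0 := by
      rw [map_sub]
      exact sub_eq_zero.mpr (congrArg (fun T : H →L[ℂ] H => T v) h)
    exact sub_eq_zero.mp (hWinj _ h3)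
  let Ψ : (ℝ →ᵇ ℂ) →⋆ₐ[ℂ] (H →L[ℂ] H) :=
    { toFun := Ψ₀
      map_one' := by
        apply hcancel
        rw [hWΨ, ← map_one (algebraMap ℂ (ℝ →ᵇ ℂ)), xG_alg, one_smul, mul_one]
      map_mul' := by
        intro G G'
        apply hcancel
        rw [hWΨ]
        apply hcancel
        calc W * Φ (xG (G * G')) = Φ (wS * xG (G * G')) := (map_mul Φ _ _).symm
          _ = Φ (xG G * xG G') := by rw [xG_mul]
          _ = Φ (xG G) * Φ (xG G') := map_mul Φ _ _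
          _ = (W * Ψ₀ G) * (W * Ψ₀ G') := by rw [hWΨ, hWΨ]
          _ = W * ((Ψ₀ G * W) * Ψ₀ G') := by simp only [mul_assoc]
          _ = W * ((W * Ψ₀ G) * Ψ₀ G') := by rw [hΨW, hWΨ]
          _ = W * (W * (Ψ₀ G * Ψ₀ G')) := by simp only [mul_assoc]
      map_zero' := by
        apply hcancel
        rw [hWΨ, ← map_zero (algebraMap ℂ (ℝ →ᵇ ℂ)), xG_alg, zero_smul, map_zero, mul_zero]
      map_add' := by
        intro G G'
        apply hcancel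
        rw [hWΨ, mul_add, hWΨ, hWΨ, xG_add, map_add]
      commutes' := by
        intro c
        apply hcancel
        rw [hWΨ, xG_alg, map_smul]
        change c • W = W * algebraMap ℂ _ c
        rw [← Algebra.commutes, Algebra.smul_def]
      map_star' := by
        intro G
        apply hcancel
        rw [hWΨ, ← xG_star, map_star, ← hΨW, star_mul, hWstar] }
  have hΨΨ : ∀ G, Ψ G = Ψ₀ G := fun G => rfl
  refine ⟨Ψ, ?_, ?_, ?_, ?_⟩
  · rw [hΨΨ]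
    apply hcancel
    rw [hWΨ, xG_FR, map_mul, hΦz]
  · intro X hX G
    rw [hΨΨ]
    have h3 : ∀ f : C(sS, ℂ), X * Φ f = Φ f * X := Phi_comm R hR hsp hs X hX
    have h4 : W * X = X * W := (h3 wS).symm
    apply hcancel
    rw [← mul_assoc, ← mul_assoc, hWΨ, h4, mul_assoc, hWΨ, h3]
  · intro D hD hDR G G' hGG' v
    rw [hΨΨ, hΨΨ]
    have hDf := Phi_D R hR hsp D hD hDR
    have hparw : par wS = wS := by
      have h3 := xG_par (1 : ℝ →ᵇ ℂ) 1 (by intro ρ; simp)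
      have h4 : xG (1 : ℝ →ᵇ ℂ) = wS := by
        rw [← map_one (algebraMap ℂ (ℝ →ᵇ ℂ)), xG_alg, one_smul]
      rwa [h4] at h3
    have hDW : ∀ u, D (W u) = W (D u) := by
      intro u
      have := hDf wS u
      rwa [hparw] at this
    have h3 : W (D (Ψ₀ G v) - Ψ₀ G' (D v)) = 0 := by
      rw [map_sub, ← hDW]
      have h4 : W (Ψ₀ G v) = Φ (xG G) v := congrArg (fun T : H →L[ℂ] H => T v) (hWΨ G)
      have h5 : W (Ψ₀ G' (D v)) = Φ (xG G') (D v) :=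
        congrArg (fun T : H →L[ℂ] H => T (D v)) (hWΨ G')
      rw [h4, h5, hDf, xG_par G G' hGG', sub_self]
    exact sub_eq_zero.mp (hWinj _ h3)
  · intro G G₀ C hC hG v
    have hC0 : 0 ≤ C := (norm_nonneg _).trans (hC 0)
    have hΦG : ∀ u, Tendsto (fun n => Φ (xG (G n)) u) atTop (𝓝 (Φ (xG G₀) u)) := by
      intro u
      have h3 := tendsto_xG G G₀ C hC hG
      exact ((ContinuousLinearMap.apply ℂ H u).continuous.tendsto _).comp
        (((Phi_cont R hR hsp).tendsto _).comp h3)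
    rw [Metric.tendsto_atTop]
    intro ε hε
    set B := C + ‖G₀‖ + 1 with hB
    have hBpos : 0 < B := by positivity
    obtain ⟨u, hu⟩ := hWdense.exists_dist_lt v (show 0 < ε / (3 * B) by positivity)
    obtain ⟨N, hN⟩ := (Metric.tendsto_atTop.mp (hΦG u)) (ε / 3) (by positivity)
    refine ⟨N, fun n hn => ?_⟩
    have h3 := hN n hn
    rw [dist_eq_norm] at h3 hu ⊢
    have h4 : Ψ (G n) v - Ψ G₀ v = Ψ₀ (G n) (v - W u) + (Φ (xG (G n)) u - Φ (xG G₀) u) -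
        Ψ₀ G₀ (v - W u) := by
      rw [hΨΨ, hΨΨ, map_sub, map_sub, hΨ, hΨ]
      abel
    have hsm : ∀ K : ℝ →ᵇ ℂ, ‖K‖ ≤ B → ‖Ψ₀ K (v - W u)‖ ≤ ε / 3 := by
      intro K hK
      calc ‖Ψ₀ K (v - W u)‖ ≤ ‖Ψ₀ K‖ * ‖v - W u‖ := (Ψ₀ K).le_opNorm _
        _ ≤ B * (ε / (3 * B)) := mul_le_mul ((hΨn K).trans hK) hu.le (norm_nonneg _) hBpos.le
        _ = ε / 3 := by field_simp
    have h5 := hsm (G n) (by have := hC n; have := norm_nonneg G₀; linarith)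
    have h6 := hsm G₀ (by linarith)
    rw [h4]
    calc _ ≤ ‖Ψ₀ (G n) (v - W u) + (Φ (xG (G n)) u - Φ (xG G₀) u)‖ + ‖Ψ₀ G₀ (v - W u)‖ :=
          norm_sub_le _ _
      _ ≤ (‖Ψ₀ (G n) (v - W u)‖ + ‖Φ (xG (G n)) u - Φ (xG G₀) u‖) + ‖Ψ₀ G₀ (v - W u)‖ := by
          gcongr; exact norm_add_le _ _
      _ < ε := by linarith

end Pool.Agent.Helper23

end

section

open scoped InnerProductSpace Topology BoundedContinuousFunction FourierTransform ENNReal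

open ContinuousLinearMap Filter MeasureTheory

set_option linter.unusedSectionVars false

namespace Pool.Agent.Helper23

variable {H : Type*} [NormedAddCommGroup H] [InnerProductSpace ℂ H] [CompleteSpace H]

variable {M N : VonNeumannAlgebra H} {ξ : H} {E : (H →L[ℂ] H) → (H →L[ℂ] H)}

lemma psi_expB_mul (Ψ : (ℝ →ᵇ ℂ) →⋆ₐ[ℂ] (H →L[ℂ] H)) (s t : ℝ) :
    Ψ (expB s) * Ψ (expB t) = Ψ (expB (s + t)) := by
  rw [← map_mul, expB_mul]

end Pool.Agent.Helper23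

end

section

open scoped InnerProductSpace Topology BoundedContinuousFunction

open ContinuousLinearMap Filter

namespace Pool.Agent.Helper78.BC

variable {H : Type*} [NormedAddCommGroup H] [InnerProductSpace ℂ H] [CompleteSpace H]

variable {A : VonNeumannAlgebra H} {ξ : H} {J : H →L[ℝ] H}
  {Ψ : (ℝ →ᵇ ℂ) →⋆ₐ[ℂ] (H →L[ℂ] H)}

namespace NoProj

lemma step (h : Std A ξ J Ψ) (hN : Pool.Agent.Helper23.RBF.TypeIIIOne A)
    {p : H →L[ℂ] H} (hpA : p ∈ A) (hpp : p * p = p) (hps : star p = p)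
    (hJ : J (p ξ) = p ξ) (hl : ‖p ξ‖ ^ 2 ≤ 1 / 2) {ε : ℝ} (hε : 0 < ε) :
    ∃ y ∈ A, ‖y‖ ≤ 1 ∧ p * y = y ∧ y * p = 0 ∧ ‖cm J y ξ‖ ≤ Real.sqrt ε ∧
      ‖p ξ‖ - Real.sqrt ε ≤ ‖y ξ‖ := by
  obtain ⟨⟨S1, hS1A, S2, hS2A, h11, h22, h12⟩, hapx⟩ := hN
  have hsum := norm_sq_add h hpp hps
  set q : H →L[ℂ] H := 1 - p with hq
  have hqA : q ∈ A := sub_mem (one_mem A) hpA
  have hqq : q * q = q := by
    rw [hq, sub_mul, mul_sub, mul_sub, hpp]; simp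
  have hqs : star q = q := by rw [hq, star_sub, star_one, hps]
  have hqp : q * p = 0 := by rw [hq, sub_mul, hpp]; simp
  have hJq : J (q ξ) = q ξ := by
    rw [hq]
    simp only [sub_apply, one_apply_eq_self, map_sub, h.J_xi, hJ]
  set l : ℝ := ‖p ξ‖ ^ 2 with hldef
  have hl0 : 0 ≤ l := sq_nonneg _
  have hql : ‖q ξ‖ ^ 2 = 1 - l := by linarith
  have h1l : 0 < 1 - l := by linarith
  have h2l : 0 ≤ 1 - 2 * l := by linarith
  set c : ℝ := (Real.sqrt (1 - l))⁻¹ with hc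
  set d : ℝ := Real.sqrt ((1 - 2 * l) / (1 - l)) with hd
  set t : ℝ := Real.sqrt (1 - 2 * l) with ht
  have hc2 : c ^ 2 = 1 / (1 - l) := by
    rw [hc, inv_pow, Real.sq_sqrt h1l.le, one_div]
  have hd2 : d ^ 2 = c ^ 2 * (1 - 2 * l) := by
    rw [hd, Real.sq_sqrt (div_nonneg h2l h1l.le), hc2]; ring
  have ht2 : t ^ 2 = 1 - 2 * l := by rw [ht, Real.sq_sqrt h2l]
  have hc1 : 1 ≤ c ^ 2 := by
    rw [hc2, le_div_iff₀ h1l]; linarith
  have hn1 : ‖(c : ℂ) • q ξ‖ ^ 2 + ‖(0 : H)‖ ^ 2 = 1 := by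
    rw [norm_smul, mul_pow, hql, norm_zero, Complex.norm_real, Real.norm_eq_abs, sq_abs, hc2]
    field_simp
    ring
  have hn2 : ‖(c : ℂ) • S1 (p ξ)‖ ^ 2 + ‖(d : ℂ) • S2 ξ‖ ^ 2 = 1 := by
    rw [norm_smul, norm_smul, mul_pow, mul_pow, norm_iso h11, norm_iso h22, h.norm_one,
      Complex.norm_real, Complex.norm_real, Real.norm_eq_abs, Real.norm_eq_abs, sq_abs, sq_abs,
      hd2, hc2, ← hldef]
    field_simp
    ring
  obtain ⟨u, huA, hu1, hu2, hux⟩ := hapx _ _ _ _ hn1 hn2 ε hε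
  -- rescaled estimate
  have key : ∀ x ∈ A, ‖⟪u (q ξ), x (u (q ξ))⟫_ℂ -
      (⟪S1 (p ξ), x (S1 (p ξ))⟫_ℂ + ((1 - 2 * l : ℝ) : ℂ) * ⟪S2 ξ, x (S2 ξ)⟫_ℂ)‖ ≤ ε * ‖x‖ := by
    intro x hx
    have h1 := hux x hx
    have h2 : ⟪u ((c : ℂ) • q ξ), x (u ((c : ℂ) • q ξ))⟫_ℂ + ⟪u (0 : H), x (u (0 : H))⟫_ℂ -
        (⟪(c : ℂ) • S1 (p ξ), x ((c : ℂ) • S1 (p ξ))⟫_ℂ +
          ⟪(d : ℂ) • S2 ξ, x ((d : ℂ) • S2 ξ)⟫_ℂ) =
        ((c ^ 2 : ℝ) : ℂ) * (⟪u (q ξ), x (u (q ξ))⟫_ℂ -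
      (⟪S1 (p ξ), x (S1 (p ξ))⟫_ℂ + ((1 - 2 * l : ℝ) : ℂ) * ⟪S2 ξ, x (S2 ξ)⟫_ℂ)) := by
      have h3 : ((d : ℂ)) * d = ((c ^ 2 : ℝ) : ℂ) * ((1 - 2 * l : ℝ) : ℂ) := by
        rw [← Complex.ofReal_mul, ← Complex.ofReal_mul, ← hd2, sq]
      simp only [map_smul, inner_smul_left, inner_smul_right, Complex.conj_ofReal, map_zero,
        inner_zero_left, add_zero]
      rw [← mul_assoc, ← mul_assoc, ← mul_assoc, h3]
      push_cast
      ring
    rw [h2, norm_mul, Complex.norm_real, Real.norm_eq_abs, abs_of_nonneg (sq_nonneg c)] at h1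
    refine le_trans ?_ h1
    exact le_mul_of_one_le_left (norm_nonneg _) hc1
  set κ1 : H := u (q (J (u (q ξ)))) with hκ1
  set κ2 : H := S1 (p (J (S1 (p ξ)))) + (t : ℂ) • S2 (J (S2 ξ)) with hκ2
  have hP1 : κ1 ∈ P0 A ξ J := by
    refine ⟨1, fun _ => u * q, fun _ => mul_mem huA hqA, ?_⟩
    simp [hκ1]
  have hP2 : κ2 ∈ P0 A ξ J := by
    refine ⟨2, ![S1 * p, ((Real.sqrt t : ℝ) : ℂ) • S2], ?_, ?_⟩
    · intro i
      fin_cases i
      · exact mul_mem hS1A hpA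
      · exact A.toStarSubalgebra.smul_mem hS2A _
    · have h3 : ((Real.sqrt t : ℝ) : ℂ) * ((Real.sqrt t : ℝ) : ℂ) = (t : ℂ) := by
        rw [← Complex.ofReal_mul, Real.mul_self_sqrt (Real.sqrt_nonneg _)]
      rw [Fin.sum_univ_two, hκ2]
      simp only [Matrix.cons_val_zero, Matrix.cons_val_one, smul_apply]
      rw [h.J_conj, map_smul, smul_smul, Complex.conj_ofReal, h3]
      rfl
  have hκ1' : κ1 = J (u (J (u (q ξ)))) := cone_eq h huA hqA hqq hJq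
  have hκ2' : κ2 = J (S1 (J (S1 (p ξ)))) + (t : ℂ) • J (S2 (J (S2 ξ))) := by
    rw [hκ2, cone_eq h hS1A hpA hpp hJ]
    congr 2
    rw [h.J_comm S2 hS2A S2 hS2A, h.J_xi]
  have hin1 : ∀ x ∈ A, ⟪κ1, x κ1⟫_ℂ = ⟪u (q ξ), x (u (q ξ))⟫_ℂ := by
    intro x hx
    rw [hκ1', inner_cone h huA hx hu1]
  have h21 : star S2 * S1 = 0 := by
    have := congrArg star h12
    rwa [star_mul, star_star, star_zero] at this
  have hin2 : ∀ x ∈ A, ⟪κ2, x κ2⟫_ℂ = ⟪S1 (p ξ), x (S1 (p ξ))⟫_ℂ +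
      ((1 - 2 * l : ℝ) : ℂ) * ⟪S2 ξ, x (S2 ξ)⟫_ℂ := by
    intro x hx
    have h3 : (t : ℂ) * t = ((1 - 2 * l : ℝ) : ℂ) := by
      rw [← Complex.ofReal_mul, ← ht2, sq]
    rw [hκ2', map_add, map_smul, ← h.J_comm S1 hS1A x hx, ← h.J_comm S2 hS2A x hx]
    simp only [inner_add_left, inner_add_right, inner_smul_left, inner_smul_right,
      inner_jj h h11, inner_jj h h22, inner_jj_zero h h12, inner_jj_zero h h21,
      Complex.conj_ofReal]
    rw [← h3]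
    ring
  have hPS : ‖κ1 - κ2‖ ^ 2 ≤ ε := by
    refine powers_stormer h (subset_closure hP1) (subset_closure hP2) ?_
    intro x hx
    rw [hin1 x hx, hin2 x hx]
    exact key x hx
  have hD : ‖κ1 - κ2‖ ≤ Real.sqrt ε := Real.le_sqrt_of_sq_le hPS
  set y : H →L[ℂ] H := p * star S1 * u * q with hy
  have hyA : y ∈ A := mul_mem (mul_mem (mul_mem hpA (star_mem hS1A)) huA) hqA
  have hp1 : ‖p‖ ≤ 1 := opnorm_proj hpp hps
  have hq1 : ‖q‖ ≤ 1 := opnorm_proj hqq hqs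
  have hs1 : ‖star S1‖ ≤ 1 := by rw [norm_star]; exact opnorm_iso h11
  have hun : ‖u‖ ≤ 1 := opnorm_iso hu1
  have hus : ‖star u‖ ≤ 1 := by rw [norm_star]; exact hun
  have hyapp : ∀ v, y v = p ((star S1) (u (q v))) := fun v => rfl
  have hstary : star y = q * star u * S1 * p := by
    rw [hy, star_mul, star_mul, star_mul, star_star, hqs, hps]
    simp only [mul_assoc]
  -- `p S1* (κ1 - κ2)`
  have hD2 : p ((star S1) (κ1 - κ2)) = J (u (J (y ξ))) - J (S1 (J (p ξ))) := by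
    have e1 : p ((star S1) κ1) = J (u (J (y ξ))) := by
      rw [hκ1', hyapp, ← h.J_comm u huA _ (star_mem hS1A), ← h.J_comm u huA p hpA]
    have e2 : p ((star S1) κ2) = J (S1 (J (p ξ))) := by
      rw [hκ2, map_add, map_smul, apply_of_mul_eq_one h11, apply_of_mul_eq_zero h12, smul_zero,
        add_zero, apply_of_mul_eq_self hpp]
      conv_lhs => rw [← hJ]
      rw [← h.J_comm S1 hS1A p hpA, apply_of_mul_eq_self hpp]
    rw [map_sub, map_sub, e1, e2]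
  have hnD2 : ‖p ((star S1) (κ1 - κ2))‖ ≤ Real.sqrt ε :=
    ((norm_le_of_le_one hp1 _).trans (norm_le_of_le_one hs1 _)).trans hD
  refine ⟨y, hyA, ?_, ?_, ?_, ?_, ?_⟩
  · calc ‖y‖ ≤ ‖p‖ * ‖star S1‖ * ‖u‖ * ‖q‖ := by
          rw [hy]
          refine (norm_mul_le _ _).trans ?_
          gcongr
          refine (norm_mul_le _ _).trans ?_
          gcongr
          exact norm_mul_le _ _
      _ ≤ 1 * 1 * 1 * 1 := by gcongr
      _ = 1 := by norm_num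
  · rw [hy, ← mul_assoc, ← mul_assoc, ← mul_assoc, hpp]
  · rw [hy, mul_assoc, hqp, mul_zero]
  · have e3 : J (q (J (J ((star u) (J (p ((star S1) (κ1 - κ2)))))))) = cm J y ξ := by
      rw [h.J_J, hD2, map_sub, map_sub, h.J_J, h.J_J, apply_of_mul_eq_one hu1, hJ, map_sub,
        map_sub]
      have e4 : J (q (J (y ξ))) = y ξ := by
        rw [h.J_comm q hqA y hyA, h.J_xi, hJq, hyapp, hyapp, apply_of_mul_eq_self hqq]
      rw [e4]
      unfold cm rm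
      rw [h.J_xi, hstary]
      rfl
    rw [← e3]
    exact (norm_jj h hq1 _).trans ((norm_jj h hus _).trans hnD2)
  · rw [hD2] at hnD2
    have e5 := norm_sub_norm_le (J (S1 (J (p ξ)))) (J (u (J (y ξ))))
    rw [norm_jj_iso h hu1, norm_jj_iso h h11, norm_sub_rev] at e5
    linarith

/-- the case `φ(p) ≤ 1/2` -/
lemma half (h : Std A ξ J Ψ) (hN : Pool.Agent.Helper23.RBF.TypeIIIOne A)
    {p : H →L[ℂ] H} (hp : Bic A ξ p) (hpp : p * p = p) (hps : star p = p)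
    (hJ : J (p ξ) = p ξ) (hl : ‖p ξ‖ ^ 2 ≤ 1 / 2) : p = 0 := by
  refine h.sep p hp.1 ?_
  have hst : ∀ n : ℕ, ∃ y ∈ A, ‖y‖ ≤ 1 ∧ p * y = y ∧ y * p = 0 ∧
      ‖cm J y ξ‖ ≤ Real.sqrt (1 / ((n : ℝ) + 1)) ∧
      ‖p ξ‖ - Real.sqrt (1 / ((n : ℝ) + 1)) ≤ ‖y ξ‖ := fun n =>
    NoProj.step h hN hp.1 hpp hps hJ hl Nat.one_div_pos_of_nat
  choose y hyA hy1 hpy hyp hcm hyn using hst
  have hlim : Tendsto (fun n : ℕ => Real.sqrt (1 / ((n : ℝ) + 1))) atTop (𝓝 0) := by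
    have := (Real.continuous_sqrt.tendsto 0).comp
      (tendsto_one_div_add_atTop_nhds_zero_nat (𝕜 := ℝ))
    rw [Real.sqrt_zero] at this
    exact this
  have hAE : Pool.Agent.Helper23.RBF.AsympEigen A ξ 1 y := by
    refine ⟨hyA, ⟨1, hy1⟩, ?_⟩
    intro ε hε
    have hε2 : 0 < ε / 2 := by positivity
    filter_upwards [hlim.eventually_lt_const hε2] with n hn x hx
    have h1 := asymp_of_cm h hx (hyA n)
    have h2 : ((1 : ℝ) : ℂ) * ⟪ξ, (y n * x) ξ⟫_ℂ = ⟪ξ, (y n * x) ξ⟫_ℂ := by simp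
    rw [h2]
    refine h1.trans ?_
    have h3 : ‖cm J (y n) ξ‖ ≤ ε / 2 := (hcm n).trans hn.le
    calc 2 * ‖x‖ * ‖cm J (y n) ξ‖ ≤ 2 * ‖x‖ * (ε / 2) := by gcongr
      _ = ε * ‖x‖ := by ring
  have h4 := hp.2 y hAE ξ
  have h5 : (fun n => (p * y n - y n * p) ξ) = fun n => y n ξ := by
    funext n
    rw [hpy, hyp, sub_zero]
  rw [h5] at h4
  have h6 : Tendsto (fun n => ‖y n ξ‖) atTop (𝓝 0) := by
    have := h4.norm
    rwa [norm_zero] at this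
  have h7 : Tendsto (fun n : ℕ => ‖p ξ‖ - Real.sqrt (1 / ((n : ℝ) + 1))) atTop
      (𝓝 (‖p ξ‖ - 0)) := tendsto_const_nhds.sub hlim
  rw [sub_zero] at h7
  have h8 : ‖p ξ‖ ≤ 0 := le_of_tendsto_of_tendsto' h7 h6 hyn
  exact norm_le_zero_iff.1 h8

end NoProj

theorem no_proj (h : Std A ξ J Ψ) (hN : Pool.Agent.Helper23.RBF.TypeIIIOne A)
    {p : H →L[ℂ] H} (hp : Bic A ξ p) (hpp : p * p = p) (hps : star p = p)
    (hJ : J (p ξ) = p ξ) : p = 0 ∨ p = 1 := by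
  rcases le_total (‖p ξ‖ ^ 2) (1 / 2) with hl | hl
  · exact Or.inl (NoProj.half h hN hp hpp hps hJ hl)
  · right
    have hsum := NoProj.norm_sq_add h hpp hps
    have hq : Bic A ξ (1 - p) := by
      refine ⟨sub_mem (one_mem A) hp.1, fun a ha η => ?_⟩
      have h1 := (hp.2 a ha η).neg
      rw [neg_zero] at h1
      refine h1.congr fun n => ?_
      rw [← neg_apply]
      congr 1
      rw [sub_mul, mul_sub, one_mul, mul_one]
      abel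
    have h0 : 1 - p = 0 := by
      refine NoProj.half h hN hq ?_ ?_ ?_ (by linarith)
      · rw [sub_mul, mul_sub, mul_sub, hpp]; simp
      · rw [star_sub, star_one, hps]
      · simp only [sub_apply, one_apply_eq_self, map_sub, h.J_xi, hJ]
    exact (sub_eq_zero.1 h0).symm

end Pool.Agent.Helper78.BC

end
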