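import Pool.Agent.Helper23.FA.Ns
import Pool.Agent.Helper23.FA.L00_01
import Pool.Agent.Helper23.FA.L00_02
import Pool.Agent.Helper23.FA.L00_05
import Pool.Agent.Helper23.FA.L00_08
import Pool.Agent.Helper23.FA.L00_15
import Pool.Agent.Helper23.FA.L00_17
import Pool.Agent.Helper23.FA.L00_18
import Pool.Agent.Helper23.FA.L00_19

/-!
Parts of Helper23.Qalg, Helper88.CS.Fourier, Helper88.CS.Triple, Helper23.ED.Defs, Helper23.ED.FcA, Helper23.ED.FcB, Helper23.ED.SmD, Helper23.ED.FcC, Helper23.ED.FcD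
-/

section

open scoped InnerProductSpace TensorProduct

open ContinuousLinearMap

namespace Pool.Agent.Helper23

variable {H : Type*} [NormedAddCommGroup H] [InnerProductSpace ℂ H] [CompleteSpace H]

variable {M N : VonNeumannAlgebra H} {ξ : H} {E : (H →L[ℂ] H) → (H →L[ℂ] H)}

namespace Setting

variable (S : Setting M N E ξ) (hirr : TrivialRelComm N ξ)

include S hirr

lemma inner_QQ {y z a b : H →L[ℂ] H} (hy : y ∈ Qalg M N ξ) (hz : z ∈ Qalg M N ξ)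
    (ha : a ∈ N) (hb : b ∈ N) :
    ⟪y (a ξ), z (b ξ)⟫_ℂ = ⟪y ξ, z ξ⟫_ℂ * ⟪a ξ, b ξ⟫_ℂ := by
  have h := S.inner_Q hirr (mul_mem (star_mem hy) hz) ha hb
  change ⟪a ξ, (star y) (z (b ξ))⟫_ℂ = ⟪ξ, (star y) (z ξ)⟫_ℂ * _ at h
  rwa [inner_star_right, inner_star_right] at h

lemma norm_Q {y a : H →L[ℂ] H} (hy : y ∈ Qalg M N ξ) (ha : a ∈ N) :
    ‖y (a ξ)‖ = ‖y ξ‖ * ‖a ξ‖ := by
  have h := S.inner_QQ hirr hy hy ha ha
  simp only [inner_self_eq_norm_sq_to_K] at h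
  have h2 : ‖y (a ξ)‖ ^ 2 = (‖y ξ‖ * ‖a ξ‖) ^ 2 := by
    have h3 : ((‖y (a ξ)‖ ^ 2 : ℝ) : ℂ) = (((‖y ξ‖ * ‖a ξ‖) ^ 2 : ℝ) : ℂ) := by
      push_cast
      rw [mul_pow]
      exact h
    exact Complex.ofReal_injective h3
  exact (pow_left_inj₀ (norm_nonneg _) (by positivity) two_ne_zero).1 h2

end Setting

end Pool.Agent.Helper23

end

section

open scoped InnerProductSpace Topology BoundedContinuousFunction

open ContinuousLinearMap Filter MeasureTheory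

namespace Pool.Agent.Helper88.CS

open Pool.Agent.Helper23

open Pool.Agent.Helper78.BC (Std Fixed)

variable {H : Type*} [NormedAddCommGroup H] [InnerProductSpace ℂ H] [CompleteSpace H]

namespace FourierAux

theorem expB_apply' (t ρ : ℝ) : expB t ρ = Complex.exp ((t * ρ : ℝ) * Complex.I) := rfl

theorem norm_expB_apply (t ρ : ℝ) : ‖expB t ρ‖ = 1 := by
  rw [expB_apply', Complex.norm_exp_ofReal_mul_I]

theorem expB_add_left (t s ρ : ℝ) : expB (t + s) ρ = expB t ρ * expB s ρ := by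
  rw [expB_apply', expB_apply', expB_apply', ← Complex.exp_add]
  congr 1
  push_cast
  ring

theorem expB_add_right (t ρ σ : ℝ) : expB t (ρ + σ) = expB t ρ * expB t σ := by
  rw [expB_apply', expB_apply', expB_apply', ← Complex.exp_add]
  congr 1
  push_cast
  ring

theorem continuous_expB : Continuous fun p : ℝ × ℝ => expB p.1 p.2 := by
  have : (fun p : ℝ × ℝ => expB p.1 p.2) =
      fun p : ℝ × ℝ => Complex.exp ((p.1 * p.2 : ℝ) * Complex.I) := by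
    ext p
    rw [expB_apply']
  rw [this]
  fun_prop

end FourierAux

open FourierAux

open scoped FourierTransform ContDiff in
/-- a smooth function of compact support has a kernel -/
theorem exists_ker (K : ℝ →ᵇ ℂ) (hK : ContDiff ℝ ∞ (K : ℝ → ℂ))
    (hc : HasCompactSupport (K : ℝ → ℂ)) : ∃ k : ℝ → ℂ, Ker k K := by
  set f : SchwartzMap ℝ ℂ := hc.toSchwartzMap hK with hf
  have hfK : ∀ ρ, f ρ = K ρ := fun ρ => rfl
  refine ⟨fun t => (𝓕 f) t, (𝓕 f).continuous, (𝓕 f).integrable, f.integrable, ?_, ?_⟩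
  · intro ρ
    have h1 : 𝓕⁻ (𝓕 f) = f := FourierTransform.fourierInv_fourier_eq f
    have h2 : (𝓕⁻ (𝓕 f)) ρ = 𝓕⁻ ((𝓕 f : SchwartzMap ℝ ℂ) : ℝ → ℂ) ρ := by
      rw [SchwartzMap.fourierInv_coe]
    rw [← hfK, ← congrFun (congrArg DFunLike.coe h1) ρ, h2, Real.fourierInv_eq']
    refine integral_congr_ae (Eventually.of_forall fun t => ?_)
    simp only [smul_eq_mul, RCLike.inner_apply, conj_trivial]
    rw [expB_apply', mul_comm]
    congr 3
    push_cast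
    ring
  · intro t
    have h2 : (𝓕 f) t = 𝓕 (f : ℝ → ℂ) t := by
      rw [SchwartzMap.fourier_coe]
    simp only [h2]
    rw [Real.fourier_eq']
    refine integral_congr_ae (Eventually.of_forall fun ρ => ?_)
    simp only [smul_eq_mul, RCLike.inner_apply, conj_trivial]
    rw [expB_apply', mul_comm, hfK]
    congr 3
    push_cast
    ring

/-- bump kernels -/
theorem exists_bump (a b δ : ℝ) (hab : a ≤ b) (hδ : 0 < δ) :
    ∃ (k : ℝ → ℂ) (K : ℝ →ᵇ ℂ), Ker k K ∧ (∀ ρ, ∃ r : ℝ, 0 ≤ r ∧ r ≤ 1 ∧ K ρ = (r : ℂ)) ∧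
      (∀ ρ ∈ Set.Icc a b, K ρ = 1) ∧ ∀ ρ, ρ ∉ Set.Ioo (a - δ) (b + δ) → K ρ = 0 := by
  let φ : ContDiffBump ((a + b) / 2 : ℝ) :=
    ⟨(b - a) / 2 + δ / 4, (b - a) / 2 + δ / 2, by linarith, by linarith⟩
  have hφc : Continuous fun ρ : ℝ => ((φ ρ : ℝ) : ℂ) := Complex.continuous_ofReal.comp φ.continuous
  let K : ℝ →ᵇ ℂ := BoundedContinuousFunction.ofNormedAddCommGroup
    (fun ρ : ℝ => ((φ ρ : ℝ) : ℂ)) hφc 1 (by
      intro ρ
      rw [Complex.norm_real, Real.norm_eq_abs, abs_of_nonneg φ.nonneg]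
      exact φ.le_one)
  have hK : ∀ ρ, K ρ = ((φ ρ : ℝ) : ℂ) := fun ρ => rfl
  have hsm : ContDiff ℝ (⊤ : ℕ∞) (K : ℝ → ℂ) := by
    have h1 : ContDiff ℝ (⊤ : ℕ∞) (fun ρ : ℝ => (φ ρ : ℝ)) := φ.contDiff
    exact Complex.ofRealCLM.contDiff.comp h1
  have hcs : HasCompactSupport (K : ℝ → ℂ) := by
    have h1 : HasCompactSupport (fun ρ : ℝ => (φ ρ : ℝ)) := φ.hasCompactSupport
    exact h1.comp_left (g := fun x : ℝ => (x : ℂ)) Complex.ofReal_zero
  obtain ⟨k, hk⟩ := exists_ker K hsm hcs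
  refine ⟨k, K, hk, ?_, ?_, ?_⟩
  · intro ρ
    exact ⟨φ ρ, φ.nonneg, φ.le_one, hK ρ⟩
  · intro ρ hρ
    rw [hK, φ.one_of_mem_closedBall, Complex.ofReal_one]
    rw [Metric.mem_closedBall, Real.dist_eq, abs_le]
    have h1 := hρ.1
    have h2 := hρ.2
    change -((b - a) / 2 + δ / 4) ≤ _ ∧ _ ≤ ((b - a) / 2 + δ / 4)
    constructor <;> linarith
  · intro ρ hρ
    rw [hK, φ.zero_of_le_dist, Complex.ofReal_zero]
    rw [Real.dist_eq]
    change ((b - a) / 2 + δ / 2) ≤ _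
    by_contra hcon
    push Not at hcon
    rw [abs_lt] at hcon
    apply hρ
    constructor <;> linarith [hcon.1, hcon.2]

/-- translation of a kernel -/
theorem Ker.shift {k : ℝ → ℂ} {K : ℝ →ᵇ ℂ} (h : Ker k K) (s : ℝ) :
    ∃ K' : ℝ →ᵇ ℂ, Ker (fun t => k (t - s)) K' ∧
      ∀ ρ, K' ρ = expB (2 * Real.pi * s) ρ * K ρ := by
  refine ⟨expB (2 * Real.pi * s) * K, ⟨?_, ?_, ?_, ?_, ?_⟩, fun ρ => rfl⟩
  · exact h.cont.comp (continuous_id.sub continuous_const)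
  · exact h.int.comp_sub_right s
  · have h1 : ((expB (2 * Real.pi * s) * K : ℝ →ᵇ ℂ) : ℝ → ℂ) =
        fun ρ => expB (2 * Real.pi * s) ρ * K ρ := rfl
    rw [h1]
    refine h.Kint.bdd_mul (c := 1) (expB (2 * Real.pi * s)).continuous.aestronglyMeasurable ?_
    exact Eventually.of_forall fun ρ => (norm_expB_apply _ _).le
  · intro ρ
    have h1 : ∫ t, k (t - s) * expB (2 * Real.pi * t) ρ =
        ∫ t, k t * expB (2 * Real.pi * (t + s)) ρ := by
      rw [← integral_sub_right_eq_self (fun t => k t * expB (2 * Real.pi * (t + s)) ρ) s]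
      simp only [sub_add_cancel]
    rw [h1]
    have h2 : ∀ t, k t * expB (2 * Real.pi * (t + s)) ρ =
        expB (2 * Real.pi * s) ρ * (k t * expB (2 * Real.pi * t) ρ) := by
      intro t
      rw [mul_add, expB_add_left]
      ring
    simp_rw [h2]
    rw [integral_const_mul, ← h.four]
    rfl
  · intro t
    rw [h.inv]
    refine integral_congr_ae (Eventually.of_forall fun ρ => ?_)
    have h2 : -(2 * Real.pi * (t - s)) = -(2 * Real.pi * t) + 2 * Real.pi * s := by ring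
    change K ρ * expB (-(2 * Real.pi * (t - s))) ρ =
      (expB (2 * Real.pi * s) ρ * K ρ) * expB (-(2 * Real.pi * t)) ρ
    rw [h2, expB_add_left]
    ring

theorem kernel_identity {h k l : ℝ → ℂ} {H' K L : ℝ →ᵇ ℂ} (hh : Ker h H') (hk : Ker k K)
    (hl : Ker l L) (hs : ∀ α β, K α ≠ 0 → L β ≠ 0 → H' (α + β) = 1) (t s : ℝ) :
    ∫ r, h r * (k (t - r) * l (s - r)) = k t * l s := by
  -- the product kernel
  have hprod : ∀ t' s' : ℝ, k t' * l s' = ∫ z : ℝ × ℝ,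
      (K z.1 * expB (-(2 * Real.pi * t')) z.1) * (L z.2 * expB (-(2 * Real.pi * s')) z.2) := by
    intro t' s'
    rw [hk.inv t', hl.inv s']
    exact (integral_prod_mul (μ := (volume : Measure ℝ)) (ν := (volume : Measure ℝ))
      (fun α => K α * expB (-(2 * Real.pi * t')) α)
      (fun β => L β * expB (-(2 * Real.pi * s')) β)).symm
  have hKL : Integrable (fun z : ℝ × ℝ => K z.1 * L z.2)
      ((volume : Measure ℝ).prod (volume : Measure ℝ)) := hk.Kint.mul_prod hl.Kint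
  have hhKL : Integrable (fun w : ℝ × (ℝ × ℝ) => h w.1 * (K w.2.1 * L w.2.2))
      ((volume : Measure ℝ).prod ((volume : Measure ℝ).prod (volume : Measure ℝ))) :=
    hh.int.mul_prod hKL
  have hF : Integrable (fun w : ℝ × (ℝ × ℝ) =>
      (expB (-(2 * Real.pi * (t - w.1))) w.2.1 * expB (-(2 * Real.pi * (s - w.1))) w.2.2) *
        (h w.1 * (K w.2.1 * L w.2.2)))
      ((volume : Measure ℝ).prod ((volume : Measure ℝ).prod (volume : Measure ℝ))) := by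
    refine hhKL.bdd_mul (c := 1) ?_ ?_
    · refine Continuous.aestronglyMeasurable ?_
      refine Continuous.mul ?_ ?_
      · exact continuous_expB.comp (f := fun w : ℝ × (ℝ × ℝ) =>
          (-(2 * Real.pi * (t - w.1)), w.2.1)) (by fun_prop)
      · exact continuous_expB.comp (f := fun w : ℝ × (ℝ × ℝ) =>
          (-(2 * Real.pi * (s - w.1)), w.2.2)) (by fun_prop)
    · exact Eventually.of_forall fun w => by
        rw [norm_mul, norm_expB_apply, norm_expB_apply, one_mul]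
  have h1 : ∀ r, h r * (k (t - r) * l (s - r)) = ∫ z : ℝ × ℝ,
      (expB (-(2 * Real.pi * (t - r))) z.1 * expB (-(2 * Real.pi * (s - r))) z.2) *
        (h r * (K z.1 * L z.2)) := by
    intro r
    rw [hprod, ← integral_const_mul]
    refine integral_congr_ae (Eventually.of_forall fun z => ?_)
    simp only
    ring
  simp_rw [h1]
  have h2 := integral_integral_swap (μ := (volume : Measure ℝ))
    (ν := (volume : Measure ℝ).prod (volume : Measure ℝ))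
    (f := fun (r : ℝ) (z : ℝ × ℝ) =>
      (expB (-(2 * Real.pi * (t - r))) z.1 * expB (-(2 * Real.pi * (s - r))) z.2) *
        (h r * (K z.1 * L z.2))) hF
  change ∫ r, ∫ z, (expB (-(2 * Real.pi * (t - r))) z.1 * expB (-(2 * Real.pi * (s - r))) z.2) *
        (h r * (K z.1 * L z.2)) ∂((volume : Measure ℝ).prod (volume : Measure ℝ)) = k t * l s
  rw [h2, hprod t s]
  change _ = ∫ z : ℝ × ℝ,
      (K z.1 * expB (-(2 * Real.pi * t)) z.1) * (L z.2 * expB (-(2 * Real.pi * s)) z.2)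
      ∂((volume : Measure ℝ).prod (volume : Measure ℝ))
  refine integral_congr_ae (Eventually.of_forall fun z => ?_)
  obtain ⟨α, β⟩ := z
  simp only
  have h3 : ∀ r, (expB (-(2 * Real.pi * (t - r))) α * expB (-(2 * Real.pi * (s - r))) β) *
        (h r * (K α * L β)) =
      ((K α * expB (-(2 * Real.pi * t)) α) * (L β * expB (-(2 * Real.pi * s)) β)) *
        (h r * expB (2 * Real.pi * r) (α + β)) := by
    intro r
    have e1 : -(2 * Real.pi * (t - r)) = -(2 * Real.pi * t) + 2 * Real.pi * r := by ring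
    have e2 : -(2 * Real.pi * (s - r)) = -(2 * Real.pi * s) + 2 * Real.pi * r := by ring
    rw [e1, e2, expB_add_left, expB_add_left, expB_add_right]
    ring
  simp_rw [h3]
  rw [integral_const_mul, ← hh.four]
  by_cases hα : K α = 0
  · rw [hα]
    ring
  by_cases hβ : L β = 0
  · rw [hβ]
    ring
  rw [hs α β hα hβ, mul_one]

end Pool.Agent.Helper88.CS

end

section

open scoped InnerProductSpace Topology BoundedContinuousFunction

open ContinuousLinearMap Filter MeasureTheory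

namespace Pool.Agent.Helper88.CS

open Pool.Agent.Helper23

open Pool.Agent.Helper78.BC (Std Fixed)

variable {H : Type*} [NormedAddCommGroup H] [InnerProductSpace ℂ H] [CompleteSpace H]

theorem triple {h k l : ℝ → ℂ} {H' K L : ℝ →ᵇ ℂ} (hh : Ker h H') (hk : Ker k K)
    (hl : Ker l L) (hs : ∀ α β, K α ≠ 0 → L β ≠ 0 → H' (α + β) = 1) {Φ : ℝ → ℝ → ℂ}
    (hΦ : Continuous fun p : ℝ × ℝ => Φ p.1 p.2) {C : ℝ} (hC : ∀ t s, ‖Φ t s‖ ≤ C) :
    ∫ r, h r * ∫ t, k t * ∫ s, l s * Φ (t + r) (s + r) = ∫ t, k t * ∫ s, l s * Φ t s :=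
  TripleAux.core hh.int hk.int hl.int (kernel_identity hh hk hl hs) hΦ hC

end Pool.Agent.Helper88.CS

end

section

open scoped InnerProductSpace Topology ENNReal BoundedContinuousFunction

open ContinuousLinearMap Filter MeasureTheory

namespace Pool.Agent.Helper23.ED

open Pool.Agent.Helper23 Pool.Agent.Helper23.RBF

universe u

section fc

variable {H : Type*} [NormedAddCommGroup H] [InnerProductSpace ℂ H] [CompleteSpace H]

/-- `Ψ` is the bounded functional calculus of `log ((2 - R) / R)`. -/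
structure FCal (R : H →L[ℂ] H) (Ψ : (ℝ →ᵇ ℂ) →⋆ₐ[ℂ] (H →L[ℂ] H)) : Prop where
  psi_FR : Ψ FR = R
  psi_cont : ∀ (G : ℕ → (ℝ →ᵇ ℂ)) (G₀ : ℝ →ᵇ ℂ) (C : ℝ), (∀ n, ‖G n‖ ≤ C) →
    (∀ L : ℝ, TendstoUniformlyOn (fun n ρ => G n ρ) (fun ρ => G₀ ρ) atTop (Set.Icc (-L) L)) →
    ∀ v : H, Tendsto (fun n => Ψ (G n) v) atTop (𝓝 (Ψ G₀ v))

end fc

end Pool.Agent.Helper23.ED

end

section

open scoped InnerProductSpace Topology ENNReal BoundedContinuousFunction

open ContinuousLinearMap Filter MeasureTheory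

namespace Pool.Agent.Helper23.ED

open Pool.Agent.Helper23 Pool.Agent.Helper23.RBF

universe u

variable {H : Type*} [NormedAddCommGroup H] [InnerProductSpace ℂ H] [CompleteSpace H]

theorem FCal.conj {R : H →L[ℂ] H} {Ψ : (ℝ →ᵇ ℂ) →⋆ₐ[ℂ] (H →L[ℂ] H)} (h : FCal R Ψ)
    {U : H →L[ℂ] H} (h1 : star U * U = 1) (h2 : U * star U = 1) :
    ∃ Ψ' : (ℝ →ᵇ ℂ) →⋆ₐ[ℂ] (H →L[ℂ] H), FCal (U * R * star U) Ψ' ∧
      ∀ G, Ψ' G = U * Ψ G * star U := by
  let Ψ' : (ℝ →ᵇ ℂ) →⋆ₐ[ℂ] (H →L[ℂ] H) :=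
    { toFun := fun G => U * Ψ G * star U
      map_one' := by rw [map_one, mul_one, h2]
      map_mul' := by
        intro G G'
        rw [map_mul]
        calc U * (Ψ G * Ψ G') * star U = U * Ψ G * 1 * (Ψ G' * star U) := by
              simp only [mul_assoc, one_mul]
          _ = U * Ψ G * (star U * U) * (Ψ G' * star U) := by rw [h1]
          _ = U * Ψ G * star U * (U * Ψ G' * star U) := by simp only [mul_assoc]
      map_zero' := by rw [map_zero, mul_zero, zero_mul]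
      map_add' := by
        intro G G'
        rw [map_add, mul_add, add_mul]
      commutes' := by
        intro c
        rw [AlgHomClass.commutes Ψ c, ← Algebra.commutes, mul_assoc, h2, mul_one]
      map_star' := by
        intro G
        rw [map_star, star_mul, star_mul, star_star, mul_assoc] }
  have hΨ' : ∀ G, Ψ' G = U * Ψ G * star U := fun G => rfl
  refine ⟨Ψ', ⟨?_, ?_⟩, hΨ'⟩
  · rw [hΨ', h.psi_FR]
  · intro G G₀ C hC hG v
    have h3 := h.psi_cont G G₀ C hC hG (star U v)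
    have h4 := (U.continuous.tendsto (Ψ G₀ (star U v))).comp h3
    exact h4

theorem _root_.Pool.Agent.Helper23.Modular.fcal {A : VonNeumannAlgebra H} {ξ : H}
    {R : H →L[ℂ] H} {D : H →L[ℝ] H} {Ψ : (ℝ →ᵇ ℂ) →⋆ₐ[ℂ] (H →L[ℂ] H)}
    (h : Modular A ξ R D Ψ) : FCal R Ψ := ⟨h.psi_FR, h.psi_cont⟩

end Pool.Agent.Helper23.ED

end

section

open scoped InnerProductSpace Topology ENNReal BoundedContinuousFunction

open ContinuousLinearMap Filter MeasureTheory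

namespace Pool.Agent.Helper23.ED

open Pool.Agent.Helper23 Pool.Agent.Helper23.RBF

universe u

variable {H : Type*} [NormedAddCommGroup H] [InnerProductSpace ℂ H] [CompleteSpace H]

variable {K : Type*} [NormedAddCommGroup K] [InnerProductSpace ℂ K] [CompleteSpace K]

namespace FcB

open Pool.Agent.Helper43.TTF (ct ctB ct_zero ct_one ct_cont ctB_apply ctB_norm)

variable {R₁ : H →L[ℂ] H} {Ψ₁ : (ℝ →ᵇ ℂ) →⋆ₐ[ℂ] (H →L[ℂ] H)}
  {R₂ : K →L[ℂ] K} {Ψ₂ : (ℝ →ᵇ ℂ) →⋆ₐ[ℂ] (K →L[ℂ] K)} {Y : H →L[ℂ] K}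

lemma A_mul {G G' : ℝ →ᵇ ℂ} (h : G ∈ A Ψ₁ Ψ₂ Y) (h' : G' ∈ A Ψ₁ Ψ₂ Y) : G * G' ∈ A Ψ₁ Ψ₂ Y := by
  intro v
  rw [psi_mul_apply, psi_mul_apply, h, h' v]

lemma A_closed {G : ℝ →ᵇ ℂ} (h : ∀ ε > 0, ∃ P ∈ A Ψ₁ Ψ₂ Y, ‖G - P‖ ≤ ε) : G ∈ A Ψ₁ Ψ₂ Y := by
  intro v
  rw [← sub_eq_zero, ← norm_le_zero_iff]
  refine le_of_forall_pos_le_add fun δ hδ => ?_
  set M : ℝ := ‖Y‖ * ‖v‖ + ‖Y v‖ + 1 with hM
  have hM0 : 0 < M := by positivity
  obtain ⟨P, hP, hGP⟩ := h (δ / M) (by positivity)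
  have e1 : Y (Ψ₁ G v) - Ψ₂ G (Y v) = Y (Ψ₁ (G - P) v) - Ψ₂ (G - P) (Y v) := by
    rw [map_sub, map_sub, ContinuousLinearMap.sub_apply, ContinuousLinearMap.sub_apply, map_sub,
      hP v]
    abel
  have e2 : ‖Ψ₁ (G - P) v‖ ≤ δ / M * ‖v‖ :=
    (Ψ₁ (G - P)).le_of_opNorm_le ((psi_norm_le Ψ₁ _).trans hGP) v
  have e3 : ‖Ψ₂ (G - P) (Y v)‖ ≤ δ / M * ‖Y v‖ :=
    (Ψ₂ (G - P)).le_of_opNorm_le ((psi_norm_le Ψ₂ _).trans hGP) (Y v)
  rw [e1, zero_add]
  calc ‖Y (Ψ₁ (G - P) v) - Ψ₂ (G - P) (Y v)‖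
      ≤ ‖Y (Ψ₁ (G - P) v)‖ + ‖Ψ₂ (G - P) (Y v)‖ := norm_sub_le _ _
    _ ≤ ‖Y‖ * (δ / M * ‖v‖) + δ / M * ‖Y v‖ := by
        gcongr
        exact (Y.le_opNorm _).trans (by gcongr)
    _ = δ / M * (‖Y‖ * ‖v‖ + ‖Y v‖) := by ring
    _ ≤ δ / M * M := by
        have : ‖Y‖ * ‖v‖ + ‖Y v‖ ≤ M := by rw [hM]; linarith
        gcongr
    _ = δ := by field_simp

lemma A_poly (h : FR ∈ A Ψ₁ Ψ₂ Y) (q : Polynomial ℂ) : Polynomial.aeval FR q ∈ A Ψ₁ Ψ₂ Y := by
  induction q using Polynomial.induction_on' with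
  | add p q hp hq => rw [map_add]; exact A_add hp hq
  | monomial n a =>
    rw [Polynomial.aeval_monomial, ← Algebra.smul_def]
    refine A_smul a ?_
    induction n with
    | zero => rw [pow_zero]; exact A_one
    | succ n ih => rw [pow_succ]; exact A_mul ih h

lemma aeval_FR (q : Polynomial ℂ) (ρ : ℝ) :
    (Polynomial.aeval FR q : ℝ →ᵇ ℂ) ρ = q.eval (FR ρ) := by
  induction q using Polynomial.induction_on' with
  | add p q hp hq => rw [map_add, BoundedContinuousFunction.add_apply, hp, hq, Polynomial.eval_add]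
  | monomial n a =>
    rw [Polynomial.aeval_monomial, ← Algebra.smul_def, Polynomial.eval_monomial,
      BoundedContinuousFunction.smul_apply, BoundedContinuousFunction.pow_apply, smul_eq_mul]

lemma FR_w (ρ : ℝ) : FR ρ = ((w ρ : ℝ) : ℂ) := rfl

lemma A_real (h : FR ∈ A Ψ₁ Ψ₂ Y) {f : ℝ → ℝ} (hf : ContinuousOn f (Set.Icc 0 2)) {G : ℝ →ᵇ ℂ}
    (hG : ∀ ρ, G ρ = ((f (w ρ) : ℝ) : ℂ)) : G ∈ A Ψ₁ Ψ₂ Y := by
  refine A_closed fun ε hε => ?_
  obtain ⟨p, hp⟩ := exists_polynomial_near_of_continuousOn 0 2 f hf ε hε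
  refine ⟨Polynomial.aeval FR (p.map (algebraMap ℝ ℂ)), A_poly h _, ?_⟩
  refine (BoundedContinuousFunction.norm_le hε.le).2 fun ρ => ?_
  rw [BoundedContinuousFunction.sub_apply, aeval_FR, hG, FR_w]
  have e1 : (p.map (algebraMap ℝ ℂ)).eval ((w ρ : ℝ) : ℂ) = ((p.eval (w ρ) : ℝ) : ℂ) := by
    rw [Polynomial.eval_map, ← Complex.coe_algebraMap, Polynomial.eval₂_at_apply]
  rw [e1, ← Complex.ofReal_sub, Complex.norm_real, Real.norm_eq_abs, abs_sub_comm]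
  exact (hp (w ρ) ⟨(w_pos ρ).le, (w_lt ρ).le⟩).le

lemma A_cut (h : FR ∈ A Ψ₁ Ψ₂ Y) {g : ℝ → ℝ} (hg : Continuous g) {L : ℝ} (hL : 0 ≤ L)
    (h0 : ∀ ρ, L ≤ |ρ| → g ρ = 0) {G : ℝ →ᵇ ℂ} (hG : ∀ ρ, G ρ = ((g ρ : ℝ) : ℂ)) :
    G ∈ A Ψ₁ Ψ₂ Y := by
  refine A_real h (f := fun x => g (Real.log ((2 - cl L x) / cl L x))) ?_ ?_
  · apply Continuous.continuousOn
    refine hg.comp (Continuous.log ?_ ?_)
    · exact (continuous_const.sub (cl_cont L)).div (cl_cont L) fun x => (cl_pos L x).ne'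
    · intro x
      have h1 := cl_pos L x
      have h2 : 0 < 2 - cl L x := by linarith [cl_lt L x]
      positivity
  · intro ρ
    rw [hG, cut_eq hL h0]

lemma A_ct (h : FR ∈ A Ψ₁ Ψ₂ Y) (G : ℝ →ᵇ ℂ) (n : ℕ) : G * ctB n ∈ A Ψ₁ Ψ₂ Y := by
  have hn : (0 : ℝ) ≤ (n : ℝ) + 1 := by positivity
  have hc : Continuous fun ρ : ℝ => G ρ := G.continuous
  have hb : ∀ ρ, ‖G ρ‖ ≤ ‖G‖ := fun ρ => G.norm_coe_le_norm ρ
  have hct : ∀ ρ, |ct n ρ| ≤ 1 := fun ρ => by
    rw [abs_of_nonneg (Pool.Agent.Helper43.TTF.ct_nonneg n ρ)]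
    exact Pool.Agent.Helper43.TTF.ct_le n ρ
  have hcc := ct_cont n
  have c1 : Continuous fun ρ : ℝ => (G ρ).re * ct n ρ := (Complex.continuous_re.comp hc).mul hcc
  have c2 : Continuous fun ρ : ℝ => (G ρ).im * ct n ρ := (Complex.continuous_im.comp hc).mul hcc
  let G1 : ℝ →ᵇ ℂ := BoundedContinuousFunction.ofNormedAddCommGroup
    (fun ρ : ℝ => (((G ρ).re * ct n ρ : ℝ) : ℂ)) (Complex.continuous_ofReal.comp c1) ‖G‖ (by
      intro ρ
      rw [Complex.norm_real, Real.norm_eq_abs, abs_mul]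
      calc |(G ρ).re| * |ct n ρ| ≤ ‖G‖ * 1 := by
            gcongr
            · exact (Complex.abs_re_le_norm _).trans (hb ρ)
            · exact hct ρ
        _ = ‖G‖ := mul_one _)
  let G2 : ℝ →ᵇ ℂ := BoundedContinuousFunction.ofNormedAddCommGroup
    (fun ρ : ℝ => (((G ρ).im * ct n ρ : ℝ) : ℂ)) (Complex.continuous_ofReal.comp c2) ‖G‖ (by
      intro ρ
      rw [Complex.norm_real, Real.norm_eq_abs, abs_mul]
      calc |(G ρ).im| * |ct n ρ| ≤ ‖G‖ * 1 := by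
            gcongr
            · exact (Complex.abs_im_le_norm _).trans (hb ρ)
            · exact hct ρ
        _ = ‖G‖ := mul_one _)
  have e : G * ctB n = G1 + Complex.I • G2 := by
    ext ρ
    rw [BoundedContinuousFunction.mul_apply, BoundedContinuousFunction.add_apply,
      BoundedContinuousFunction.smul_apply, ctB_apply, smul_eq_mul]
    change G ρ * ((ct n ρ : ℝ) : ℂ) = (((G ρ).re * ct n ρ : ℝ) : ℂ) +
      Complex.I * (((G ρ).im * ct n ρ : ℝ) : ℂ)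
    conv_lhs => rw [← Complex.re_add_im (G ρ)]
    push_cast
    ring
  rw [e]
  refine A_add (A_cut h c1 hn ?_ fun ρ => rfl) (A_smul _ (A_cut h c2 hn ?_ fun ρ => rfl))
  · intro ρ hρ
    rw [ct_zero hρ, mul_zero]
  · intro ρ hρ
    rw [ct_zero hρ, mul_zero]

lemma tendsto_cut {R : H →L[ℂ] H} {Ψ : (ℝ →ᵇ ℂ) →⋆ₐ[ℂ] (H →L[ℂ] H)} (h : FCal R Ψ) (G : ℝ →ᵇ ℂ)
    (v : H) : Tendsto (fun n => Ψ (G * ctB n) v) atTop (𝓝 (Ψ G v)) := by
  refine h.psi_cont (fun n => G * ctB n) G ‖G‖ ?_ ?_ v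
  · intro n
    refine (norm_mul_le _ _).trans ?_
    calc ‖G‖ * ‖ctB n‖ ≤ ‖G‖ * 1 := by gcongr; exact ctB_norm n
      _ = ‖G‖ := mul_one _
  · intro L
    rw [Metric.tendstoUniformlyOn_iff]
    intro ε hε
    obtain ⟨m, hm⟩ := exists_nat_ge L
    filter_upwards [eventually_ge_atTop m] with n hn ρ hρ
    have h2 : |ρ| ≤ n := by
      have h3 : (m : ℝ) ≤ n := by exact_mod_cast hn
      rw [Set.mem_Icc] at hρ
      rw [abs_le]
      constructor <;> linarith [hρ.1, hρ.2]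
    rw [BoundedContinuousFunction.mul_apply, ctB_apply, ct_one h2, Complex.ofReal_one, mul_one,
      dist_self]
    exact hε

end FcB

theorem FCal.int {R₁ : H →L[ℂ] H} {Ψ₁ : (ℝ →ᵇ ℂ) →⋆ₐ[ℂ] (H →L[ℂ] H)} (h₁ : FCal R₁ Ψ₁)
    {R₂ : K →L[ℂ] K} {Ψ₂ : (ℝ →ᵇ ℂ) →⋆ₐ[ℂ] (K →L[ℂ] K)} (h₂ : FCal R₂ Ψ₂)
    (Y : H →L[ℂ] K) (hY : ∀ v, Y (R₁ v) = R₂ (Y v)) (G : ℝ →ᵇ ℂ) (v : H) :
    Y (Ψ₁ G v) = Ψ₂ G (Y v) := by
  have hFR : FR ∈ FcB.A Ψ₁ Ψ₂ Y := by
    intro v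
    rw [h₁.psi_FR, h₂.psi_FR, hY]
  have t1 := (Y.continuous.tendsto _).comp (FcB.tendsto_cut h₁ G v)
  have t2 := FcB.tendsto_cut h₂ G (Y v)
  refine tendsto_nhds_unique t1 (t2.congr fun n => ?_)
  exact (FcB.A_ct hFR G n v).symm

end Pool.Agent.Helper23.ED

end

section

open scoped InnerProductSpace Topology ENNReal BoundedContinuousFunction

open ContinuousLinearMap Filter MeasureTheory

namespace Pool.Agent.Helper23.ED

open Pool.Agent.Helper23 Pool.Agent.Helper23.RBF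

universe u

variable {K : Type*} [NormedAddCommGroup K] [InnerProductSpace ℂ K] [CompleteSpace K]

variable {U : ℝ → K →L[ℂ] K}

namespace SmD

open Pool.Agent.Helper43.TTF

/-- half of the function `FR` -/
noncomputable def tau : ℝ →ᵇ ℂ := (1 / 2 : ℂ) • FR

lemma tau_apply (ρ : ℝ) : tau ρ = (1 + Complex.exp ρ)⁻¹ := by
  change (1 / 2 : ℂ) * FR ρ = _
  rw [FR_apply]
  push_cast
  ring

/-- `ez z ctB = τ (ez z E)` -/
lemma id_a (n : ℕ) (z : ℂ) : ez ((n : ℝ) + 1) z * ctB n =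
    tau * (ez ((n : ℝ) + 1) z * E n 1) := by
  ext ρ
  simp only [BoundedContinuousFunction.mul_apply, tau_apply, ctB_apply, E_apply, ez_apply]
  rcases le_total ((n : ℝ) + 1) |ρ| with h | h
  · rw [ct_zero h]
    simp
  · rw [gt_eq h]
    have h1 := one_add_exp_ne ρ
    push_cast
    rw [one_mul]
    field_simp

lemma id_b (n : ℕ) (z : ℂ) : ez ((n : ℝ) + 1) (z - Complex.I) * ctB n =
    (1 - tau) * (ez ((n : ℝ) + 1) z * E n 1) := by
  ext ρ
  simp only [BoundedContinuousFunction.mul_apply, BoundedContinuousFunction.sub_apply, tau_apply,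
    ctB_apply, E_apply, ez_apply, one_bcf']
  rcases le_total ((n : ℝ) + 1) |ρ| with h | h
  · rw [ct_zero h]
    simp
  · rw [gt_eq h]
    have h1 := one_add_exp_ne ρ
    have h2 : Complex.exp (Complex.I * (z - Complex.I) * (ρ : ℝ)) =
        Complex.exp (Complex.I * z * (ρ : ℝ)) * Complex.exp (ρ : ℂ) := by
      rw [← Complex.exp_add]
      congr 1
      linear_combination (-(ρ : ℂ)) * Complex.I_sq
    rw [h2]
    push_cast
    rw [one_mul]
    field_simp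
    ring

lemma id_c (n : ℕ) (z : ℂ) : ctB n * ez ((n : ℝ) + 1) (-z) =
    (ez ((n : ℝ) + 1) (-z) * E n (-1)) * (1 - tau) := by
  ext ρ
  simp only [BoundedContinuousFunction.mul_apply, BoundedContinuousFunction.sub_apply, tau_apply,
    ctB_apply, E_apply, ez_apply, one_bcf']
  rcases le_total ((n : ℝ) + 1) |ρ| with h | h
  · rw [ct_zero h]
    simp
  · rw [gt_eq h]
    have h1 := one_add_exp_ne ρ
    have h3 : Complex.exp (ρ : ℂ) * Complex.exp (-(ρ : ℂ)) = 1 := by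
      rw [← Complex.exp_add, add_neg_cancel, Complex.exp_zero]
    push_cast
    rw [neg_one_mul]
    field_simp
    linear_combination (-(ct n ρ : ℂ)) * h3

lemma id_d (n : ℕ) (z : ℂ) : ctB n * ez ((n : ℝ) + 1) (-(z - Complex.I)) =
    (ez ((n : ℝ) + 1) (-z) * E n (-1)) * tau := by
  ext ρ
  simp only [BoundedContinuousFunction.mul_apply, tau_apply,
    ctB_apply, E_apply, ez_apply]
  rcases le_total ((n : ℝ) + 1) |ρ| with h | h
  · rw [ct_zero h]
    simp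
  · rw [gt_eq h]
    have h1 := one_add_exp_ne ρ
    have h3 : Complex.exp (ρ : ℂ) * Complex.exp (-(ρ : ℂ)) = 1 := by
      rw [← Complex.exp_add, add_neg_cancel, Complex.exp_zero]
    have h2 : Complex.exp (Complex.I * (-(z - Complex.I)) * (ρ : ℝ)) =
        Complex.exp (Complex.I * (-z) * (ρ : ℝ)) * Complex.exp (-(ρ : ℂ)) := by
      rw [← Complex.exp_add]
      congr 1
      linear_combination (ρ : ℂ) * Complex.I_sq
    rw [h2]
    push_cast
    rw [neg_one_mul]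
    field_simp
    linear_combination (ct n ρ : ℂ) * h3

lemma id_e (n : ℕ) (t : ℝ) : ez ((n : ℝ) + 1) t * ctB n = expB t * ctB n := by
  ext ρ
  simp only [BoundedContinuousFunction.mul_apply, ctB_apply, ez_apply, expB_apply]
  rcases le_total ((n : ℝ) + 1) |ρ| with h | h
  · rw [ct_zero h]
    simp
  · rw [gt_eq h]
    congr 2
    push_cast
    ring

variable {T : K →L[ℂ] K} {Ψ : (ℝ →ᵇ ℂ) →⋆ₐ[ℂ] (K →L[ℂ] K)}

lemma psi_tau (hΨ : FCal ((2 : ℂ) • T) Ψ) : Ψ tau = T := by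
  rw [tau, map_smul, hΨ.psi_FR, smul_smul]
  norm_num

lemma g_per (hΨ : FCal ((2 : ℂ) • T) Ψ) {m : ℝ} {Y : K →L[ℂ] K}
    (hrel : ∀ (z : ℂ) (v : K), smear U (gau m z) Y (T v) - T (smear U (gau m z) Y (T v)) =
      T (smear U (gau m (z - Complex.I)) Y (v - T v))) (n : ℕ) (z : ℂ) :
    g U Ψ m Y n (z - Complex.I) = g U Ψ m Y n z := by
  have h : T * smear U (gau m (z - Complex.I)) Y * (1 - T) =
      (1 - T) * smear U (gau m z) Y * T := by
    ext v
    exact (hrel z v).symm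
  rw [g, g, id_b n z, id_d n z, id_a n z, id_c n z]
  rw [map_mul Ψ _ tau, map_mul Ψ (1 - tau) _, map_mul Ψ _ (1 - tau), map_mul Ψ tau _, map_sub,
    map_one, psi_tau hΨ]
  generalize Ψ (ez ((n : ℝ) + 1) (-z) * E n (-1)) = P
  generalize Ψ (ez ((n : ℝ) + 1) z * E n 1) = Q
  calc P * T * smear U (gau m (z - Complex.I)) Y * ((1 - T) * Q)
      = P * (T * smear U (gau m (z - Complex.I)) Y * (1 - T)) * Q := by simp only [mul_assoc]
    _ = P * ((1 - T) * smear U (gau m z) Y * T) * Q := by rw [h]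
    _ = P * (1 - T) * smear U (gau m z) Y * (T * Q) := by simp only [mul_assoc]

lemma g_diff (hU : UG U) (Ψ : (ℝ →ᵇ ℂ) →⋆ₐ[ℂ] (K →L[ℂ] K)) {m : ℝ} (hm : 0 < m)
    (Y : K →L[ℂ] K) (n : ℕ) : Differentiable ℂ (g U Ψ m Y n) := by
  have h1 : Differentiable ℂ (fun z : ℂ => psiL Ψ (ctB n * ez ((n : ℝ) + 1) (-z))) :=
    (psiL Ψ).differentiable.comp
      ((differentiable_const _).mul ((ez_diff _).comp differentiable_neg))
  have h2 : Differentiable ℂ (fun z : ℂ => psiL Ψ (ez ((n : ℝ) + 1) z * ctB n)) :=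
    (psiL Ψ).differentiable.comp ((ez_diff _).mul (differentiable_const _))
  exact (h1.mul (smear_diff hU hm Y)).mul h2

lemma g_const (hΨ : FCal ((2 : ℂ) • T) Ψ) (hU : UG U) {m : ℝ} (hm : 0 < m) {Y : K →L[ℂ] K}
    (hrel : ∀ (z : ℂ) (v : K), smear U (gau m z) Y (T v) - T (smear U (gau m z) Y (T v)) =
      T (smear U (gau m (z - Complex.I)) Y (v - T v))) (n : ℕ) (z w : ℂ) :
    g U Ψ m Y n z = g U Ψ m Y n w := by
  obtain ⟨C, hC⟩ := g_bound hU Ψ hm Y n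
  have hp : Function.Periodic (g U Ψ m Y n) Complex.I := by
    intro z
    have := g_per hΨ hrel n (z + Complex.I)
    rw [add_sub_cancel_right] at this
    exact this.symm
  refine Differentiable.apply_eq_apply_of_bounded (g_diff hU Ψ hm Y n) ?_ z w
  rw [isBounded_iff_forall_norm_le]
  refine ⟨C, ?_⟩
  rintro _ ⟨z, rfl⟩
  rw [← hp.sub_zsmul_eq ⌊z.im⌋]
  refine hC _ ?_
  have h1 : (z - ⌊z.im⌋ • Complex.I).im = Int.fract z.im := by
    rw [zsmul_eq_mul, Complex.sub_im, Complex.mul_im, Complex.I_im, Complex.I_re, mul_zero, mul_one,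
      add_zero, Complex.intCast_re, Int.self_sub_floor]
  rw [h1, abs_of_nonneg (Int.fract_nonneg _)]
  exact (Int.fract_lt_one _).le

lemma tendsto_conj (hΨ : FCal ((2 : ℂ) • T) Ψ) (X : K →L[ℂ] K) (v : K) :
    Tendsto (fun n => Ψ (ctB n) (X (Ψ (ctB n) v))) atTop (𝓝 (X v)) := by
  have hc : ∀ w : K, Tendsto (fun n => Ψ (ctB n) w) atTop (𝓝 w) := by
    intro w
    have := FcB.tendsto_cut hΨ 1 w
    simpa using this
  have h1 : Tendsto (fun n => Ψ (ctB n) (X (Ψ (ctB n) v) - X v)) atTop (𝓝 0) := by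
    have h2 : Tendsto (fun n => ‖X (Ψ (ctB n) v) - X v‖) atTop (𝓝 0) := by
      have h3 := ((X.continuous.tendsto v).comp (hc v)).sub_const (X v)
      rw [sub_self] at h3
      simpa using h3.norm
    refine squeeze_zero_norm (fun n => ?_) h2
    refine (psi_norm_apply Ψ _ _).trans ?_
    calc ‖ctB n‖ * ‖X (Ψ (ctB n) v) - X v‖ ≤ 1 * ‖X (Ψ (ctB n) v) - X v‖ := by
          gcongr
          exact ctB_norm n
      _ = _ := one_mul _
  have h4 := h1.add (hc (X v))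
  rw [zero_add] at h4
  refine h4.congr fun n => ?_
  rw [map_sub, sub_add_cancel]

end SmD

theorem liou {T : K →L[ℂ] K} {Ψ : (ℝ →ᵇ ℂ) →⋆ₐ[ℂ] (K →L[ℂ] K)} (hΨ : FCal ((2 : ℂ) • T) Ψ)
    (hU : UG U) {m : ℝ} (hm : 0 < m) {Y : K →L[ℂ] K}
    (hrel : ∀ (z : ℂ) (v : K), smear U (gau m z) Y (T v) - T (smear U (gau m z) Y (T v)) =
      T (smear U (gau m (z - Complex.I)) Y (v - T v))) (t : ℝ) :
    Ψ (expB (-t)) * smear U (gau m t) Y * Ψ (expB t) = smear U (gau m 0) Y := by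
  open Pool.Agent.Helper43.TTF SmD in
  have key : ∀ n : ℕ, Ψ (ctB n) * (Ψ (expB (-t)) * smear U (gau m t) Y * Ψ (expB t)) * Ψ (ctB n) =
      Ψ (ctB n) * smear U (gau m 0) Y * Ψ (ctB n) := by
    intro n
    have h := g_const hΨ hU hm hrel n (t : ℂ) 0
    unfold g at h
    rw [neg_zero, ez_zero, one_mul, mul_one, ← Complex.ofReal_neg, mul_comm (ctB n),
      id_e, id_e, mul_comm (expB (-t)), map_mul, map_mul] at h
    rw [← h]
    simp only [mul_assoc]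
  ext v
  open Pool.Agent.Helper43.TTF SmD in
  have h1 := tendsto_conj hΨ (Ψ (expB (-t)) * smear U (gau m t) Y * Ψ (expB t)) v
  open Pool.Agent.Helper43.TTF SmD in
  have h2 := tendsto_conj hΨ (smear U (gau m 0) Y) v
  refine tendsto_nhds_unique h1 (h2.congr fun n => ?_)
  exact (congrArg (fun S : K →L[ℂ] K => S v) (key n)).symm

end Pool.Agent.Helper23.ED

end

section

open scoped InnerProductSpace Topology ENNReal BoundedContinuousFunction

open ContinuousLinearMap Filter MeasureTheory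

namespace Pool.Agent.Helper23.ED

open Pool.Agent.Helper23 Pool.Agent.Helper23.RBF

universe u

variable {H : Type*} [NormedAddCommGroup H] [InnerProductSpace ℂ H] [CompleteSpace H]

variable {K : Type*} [NormedAddCommGroup K] [InnerProductSpace ℂ K] [CompleteSpace K]

namespace FcC

open Pool.Agent.Helper43.TTF (psi_norm_apply)

attribute [local instance] fact2pi

theorem pull_fourier (c : ℝ) (k : ℤ) : pull c (fourier k) = expB (k * c) := by
  ext ρ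
  rw [pull_apply, fourier_coe_apply, expB_apply]
  congr 1
  have : (Real.pi : ℂ) ≠ 0 := by exact_mod_cast Real.pi_ne_zero
  push_cast
  field_simp

theorem pull_mem {Ψ₁ : (ℝ →ᵇ ℂ) →⋆ₐ[ℂ] (H →L[ℂ] H)} {Ψ₂ : (ℝ →ᵇ ℂ) →⋆ₐ[ℂ] (K →L[ℂ] K)}
    {Y : H →L[ℂ] K} (hY : ∀ t, expB t ∈ S Ψ₁ Ψ₂ Y) (c : ℝ)
    (p : C(AddCircle (2 * Real.pi), ℂ)) : pull c p ∈ S Ψ₁ Ψ₂ Y := by
  have h1 : (⊤ : Submodule ℂ C(AddCircle (2 * Real.pi), ℂ)) ≤ (S Ψ₁ Ψ₂ Y).comap (pull c) := by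
    rw [← span_fourier_closure_eq_top]
    apply Submodule.topologicalClosure_minimal
    · rw [Submodule.span_le]
      rintro _ ⟨k, rfl⟩
      show pull c (fourier k) ∈ S Ψ₁ Ψ₂ Y
      rw [pull_fourier]
      exact hY _
    · exact (isClosed_S Ψ₁ Ψ₂ Y).preimage (pull_cont c)
  exact h1 (Submodule.mem_top : p ∈ ⊤)

/-- the periodic extension of `FR` restricted to `[-(n+1), n+1]` -/
noncomputable def Gc (n : ℕ) : C(AddCircle (2 * Real.pi), ℂ) :=
  ⟨fun θ => FR ((2 * (n + 1) / Real.pi) * Real.arcsin (Real.Angle.sin θ)), by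
    exact FR.continuous.comp (continuous_const.mul
      (Real.continuous_arcsin.comp Real.Angle.continuous_sin))⟩

noncomputable def Gn (n : ℕ) : ℝ →ᵇ ℂ := pull (Real.pi / (2 * (n + 1))) (Gc n)

theorem Gn_apply (n : ℕ) (ρ : ℝ) : Gn n ρ =
    FR ((2 * (n + 1) / Real.pi) * Real.arcsin (Real.sin (Real.pi / (2 * (n + 1)) * ρ))) := rfl

theorem Gn_norm (n : ℕ) : ‖Gn n‖ ≤ ‖FR‖ := by
  rw [BoundedContinuousFunction.norm_le (norm_nonneg _)]
  intro ρ
  rw [Gn_apply]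
  exact BoundedContinuousFunction.norm_coe_le_norm _ _

theorem Gn_eq (n : ℕ) {ρ : ℝ} (h : |ρ| ≤ n + 1) : Gn n ρ = FR ρ := by
  rw [Gn_apply]
  have hn : (0 : ℝ) < n + 1 := by positivity
  have hpi := Real.pi_pos
  rw [abs_le] at h
  have h1 : Real.pi / (2 * (n + 1)) * ρ = (Real.pi / 2) * (ρ / (n + 1)) := by
    field_simp
  have h2 : -1 ≤ ρ / (n + 1) := by rw [le_div_iff₀ hn]; linarith [h.1]
  have h3 : ρ / (n + 1) ≤ 1 := by rw [div_le_iff₀ hn]; linarith [h.2]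
  rw [Real.arcsin_sin (by rw [h1]; nlinarith) (by rw [h1]; nlinarith)]
  congr 1
  field_simp

theorem Gn_tendsto (L : ℝ) :
    TendstoUniformlyOn (fun n ρ => Gn n ρ) (fun ρ => FR ρ) atTop (Set.Icc (-L) L) := by
  rw [Metric.tendstoUniformlyOn_iff]
  intro ε hε
  obtain ⟨m, hm⟩ := exists_nat_ge L
  filter_upwards [eventually_ge_atTop m] with n hn ρ hρ
  have h3 : (m : ℝ) ≤ n := by exact_mod_cast hn
  rw [Set.mem_Icc] at hρ
  rw [Gn_eq n (by rw [abs_le]; constructor <;> linarith [hρ.1, hρ.2]), dist_self]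
  exact hε

end FcC

theorem FCal.det {R₁ : H →L[ℂ] H} {Ψ₁ : (ℝ →ᵇ ℂ) →⋆ₐ[ℂ] (H →L[ℂ] H)} (h₁ : FCal R₁ Ψ₁)
    {R₂ : K →L[ℂ] K} {Ψ₂ : (ℝ →ᵇ ℂ) →⋆ₐ[ℂ] (K →L[ℂ] K)} (h₂ : FCal R₂ Ψ₂)
    (Y : H →L[ℂ] K) (hY : ∀ t v, Y (Ψ₁ (expB t) v) = Ψ₂ (expB t) (Y v)) (v : H) :
    Y (R₁ v) = R₂ (Y v) := by
  have hmem : ∀ n, FcC.Gn n ∈ FcC.S Ψ₁ Ψ₂ Y := fun n => FcC.pull_mem (fun t v => hY t v) _ _
  have h3 := h₁.psi_cont FcC.Gn FR ‖FR‖ FcC.Gn_norm FcC.Gn_tendsto v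
  have h4 := h₂.psi_cont FcC.Gn FR ‖FR‖ FcC.Gn_norm FcC.Gn_tendsto (Y v)
  rw [h₁.psi_FR] at h3
  rw [h₂.psi_FR] at h4
  have h5 := (Y.continuous.tendsto _).comp h3
  have h6 : (Y ∘ fun n => Ψ₁ (FcC.Gn n) v) = fun n => Ψ₂ (FcC.Gn n) (Y v) := by
    funext n
    exact hmem n v
  rw [h6] at h5
  exact tendsto_nhds_unique h5 h4

end Pool.Agent.Helper23.ED

end

section

open scoped InnerProductSpace Topology ENNReal BoundedContinuousFunction

open ContinuousLinearMap Filter MeasureTheory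

namespace Pool.Agent.Helper23.ED

open Pool.Agent.Helper23 Pool.Agent.Helper23.RBF

universe u

variable {H : Type*} [NormedAddCommGroup H] [InnerProductSpace ℂ H] [CompleteSpace H]

namespace FcD

theorem fcal_shift {R : H →L[ℂ] H} {Ψ : (ℝ →ᵇ ℂ) →⋆ₐ[ℂ] (H →L[ℂ] H)} (h : FCal R Ψ) (c : ℝ) :
    FCal (Ψ (shiftB c FR)) (Ψ.comp (shiftHom c)) := by
  refine ⟨rfl, ?_⟩
  intro G G₀ C hC hG v
  refine h.psi_cont (fun n => shiftB c (G n)) (shiftB c G₀) C
    (fun n => (norm_shiftB_le c (G n)).trans (hC n)) ?_ v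
  intro L
  have h1 := hG (L + |c|)
  rw [Metric.tendstoUniformlyOn_iff] at h1 ⊢
  intro ε hε
  filter_upwards [h1 ε hε] with n hn ρ hρ
  refine hn (ρ + c) ?_
  have h2 := neg_abs_le c
  have h3 := le_abs_self c
  rw [Set.mem_Icc] at hρ ⊢
  constructor <;> linarith [hρ.1, hρ.2]

theorem FR_val (ρ : ℝ) : FR ρ = ((2 / (1 + Real.exp ρ) : ℝ) : ℂ) := rfl

theorem key {l : ℝ} (hl : 0 < l) :
    shiftB (Real.log l) FR * (FR + (l : ℂ) • ((2 : ℂ) • 1 - FR)) = (2 : ℂ) • FR := by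
  ext ρ
  have h1 : 0 < Real.exp ρ := Real.exp_pos ρ
  have h2 : (1 + Real.exp ρ : ℝ) ≠ 0 := by positivity
  have h3 : (1 + Real.exp ρ * l : ℝ) ≠ 0 := by positivity
  have e1 : (2 / (1 + Real.exp (ρ + Real.log l)) : ℝ) *
      (2 / (1 + Real.exp ρ) + l * (2 * 1 - 2 / (1 + Real.exp ρ))) = 2 * (2 / (1 + Real.exp ρ)) := by
    rw [Real.exp_add, Real.exp_log hl]
    field_simp
    ring
  have e2 := congrArg (fun x : ℝ => (x : ℂ)) e1
  simp only [Complex.ofReal_mul, Complex.ofReal_add, Complex.ofReal_sub, Complex.ofReal_ofNat,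
    Complex.ofReal_one] at e2
  simpa only [BoundedContinuousFunction.coe_mul, BoundedContinuousFunction.coe_add,
    BoundedContinuousFunction.coe_smul, BoundedContinuousFunction.coe_sub,
    BoundedContinuousFunction.coe_one, Pi.mul_apply, Pi.add_apply, Pi.sub_apply, Pi.smul_apply,
    Pi.one_apply, smul_eq_mul, shiftB_apply, FR_val] using e2

theorem key' {l : ℝ} (hl : 0 < l) :
    (FR + (l : ℂ) • ((2 : ℂ) • 1 - FR)) *
      (((1 / (2 * l) : ℝ) : ℂ) • (1 + (((l - 1) / 2 : ℝ) : ℂ) • shiftB (Real.log l) FR)) = 1 := by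
  ext ρ
  have h1 : 0 < Real.exp ρ := Real.exp_pos ρ
  have h2 : (1 + Real.exp ρ : ℝ) ≠ 0 := by positivity
  have h3 : (1 + Real.exp ρ * l : ℝ) ≠ 0 := by positivity
  have e1 : (2 / (1 + Real.exp ρ) + l * (2 * 1 - 2 / (1 + Real.exp ρ))) *
      ((1 / (2 * l)) * (1 + ((l - 1) / 2) * (2 / (1 + Real.exp (ρ + Real.log l))))) = (1 : ℝ) := by
    rw [Real.exp_add, Real.exp_log hl]
    field_simp
    ring
  have e2 := congrArg (fun x : ℝ => (x : ℂ)) e1
  simp only [Complex.ofReal_mul, Complex.ofReal_add, Complex.ofReal_sub, Complex.ofReal_ofNat,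
    Complex.ofReal_one] at e2
  simp only [BoundedContinuousFunction.coe_mul, BoundedContinuousFunction.coe_add,
    BoundedContinuousFunction.coe_smul, BoundedContinuousFunction.coe_sub,
    BoundedContinuousFunction.coe_one, Pi.mul_apply, Pi.add_apply, Pi.sub_apply, Pi.smul_apply,
    Pi.one_apply, smul_eq_mul, shiftB_apply, FR_val]
  exact e2

theorem shift_expB (c t : ℝ) : shiftB c (expB t) = ph t c • expB t := by
  ext ρ
  have h1 : ∀ x : ℝ, expB t x = Complex.exp ((t * x : ℝ) * Complex.I) := fun _ => rfl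
  have h2 : (ph t c • expB t) ρ = ph t c * expB t ρ := rfl
  rw [shiftB_apply, h2, h1, h1, ph, ← Complex.exp_add]
  congr 1
  push_cast
  ring

end FcD

open FcD in
/-- `R = 2 (1 + Δ)⁻¹`, `R' = 2 (1 + l Δ)⁻¹`. -/
theorem FCal.scale_iff {R R' : H →L[ℂ] H} {Ψ Ψ' : (ℝ →ᵇ ℂ) →⋆ₐ[ℂ] (H →L[ℂ] H)}
    (h : FCal R Ψ) (h' : FCal R' Ψ') {l : ℝ} (hl : 0 < l) :
    (∀ v, R' (R v + (l : ℂ) • ((2 : ℂ) • v - R v)) = (2 : ℂ) • R v) ↔
      ∀ t, Ψ' (expB t) = ph t (Real.log l) • Ψ (expB t) := by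
  have h2 := fcal_shift h (Real.log l)
  set R2 := Ψ (shiftB (Real.log l) FR) with hR2
  have hX : Ψ (FR + (l : ℂ) • ((2 : ℂ) • 1 - FR)) = R + (l : ℂ) • ((2 : ℂ) • 1 - R) := by
    rw [map_add, map_smul, map_sub, map_smul, map_one, h.psi_FR]
  have k1 : R2 * (R + (l : ℂ) • ((2 : ℂ) • 1 - R)) = (2 : ℂ) • R := by
    rw [hR2, ← hX, ← map_mul, key hl, map_smul, h.psi_FR]
  obtain ⟨Z, hZ⟩ : ∃ Z : H →L[ℂ] H, (R + (l : ℂ) • ((2 : ℂ) • 1 - R)) * Z = 1 := by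
    refine ⟨Ψ (((1 / (2 * l) : ℝ) : ℂ) • (1 + (((l - 1) / 2 : ℝ) : ℂ) •
      shiftB (Real.log l) FR)), ?_⟩
    rw [← hX, ← map_mul, key' hl, map_one]
  have hΨ2 : ∀ t, (Ψ.comp (shiftHom (Real.log l))) (expB t) =
      ph t (Real.log l) • Ψ (expB t) := by
    intro t
    have : (Ψ.comp (shiftHom (Real.log l))) (expB t) = Ψ (shiftB (Real.log l) (expB t)) := rfl
    rw [this, shift_expB, map_smul]
  constructor
  · intro hv t
    have e1 : R' * (R + (l : ℂ) • ((2 : ℂ) • 1 - R)) = (2 : ℂ) • R := by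
      ext v
      exact hv v
    have e2 : R' = R2 := by
      calc R' = R' * ((R + (l : ℂ) • ((2 : ℂ) • 1 - R)) * Z) := by rw [hZ, mul_one]
        _ = R2 * ((R + (l : ℂ) • ((2 : ℂ) • 1 - R)) * Z) := by
          rw [← mul_assoc, e1, ← k1, mul_assoc]
        _ = R2 := by rw [hZ, mul_one]
    rw [← hΨ2]
    ext v
    exact FCal.int h' h2 (1 : H →L[ℂ] H) (fun w => by rw [e2]; rfl) (expB t) v
  · intro ht
    have e2 : R' = R2 := by
      ext v
      exact FCal.det h' h2 (1 : H →L[ℂ] H) (fun t w => by rw [ht t, hΨ2 t]; rfl) v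
    intro v
    have e3 := congrArg (fun T : H →L[ℂ] H => T v) k1
    rw [e2]
    exact e3

end Pool.Agent.Helper23.ED

end
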