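import Pool.Agent.Helper23.FA.Ns
import Pool.Agent.Helper23.FA.L00_00
import Pool.Agent.Helper23.FA.L00_02
import Pool.Agent.Helper23.FA.L00_03
import Pool.Agent.Helper23.FA.L00_07
import Pool.Agent.Helper23.FA.L00_16

/-!
Parts of Helper78.BC.Scalar, Helper53.U.Eig, Helper88.CS.Polar, Helper88.CS.Trick1
-/

section

open scoped InnerProductSpace Topology

open ContinuousLinearMap

namespace Pool.Agent.Helper78.BC

variable {H : Type*} [NormedAddCommGroup H] [InnerProductSpace ℂ H] [CompleteSpace H]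

theorem cfc_mem (B : VonNeumannAlgebra H) {x : H →L[ℂ] H} (hx : x ∈ B) (f : ℝ → ℝ) :
    cfc f x ∈ B := by
  rw [Pool.Agent.Helper23.mem_iff_commutes]
  intro g hg
  have h1 : Commute x g := by
    have := Pool.Agent.Helper23.mem_comm_iff.1 hg x hx
    exact this
  exact (h1.cfc_real f).symm

/-- The two halves of the spectrum. -/
theorem half (B : VonNeumannAlgebra H)
    (hB : ∀ p ∈ B, p * p = p → star p = p → p = 0 ∨ p = 1) {x : H →L[ℂ] H} (hx : x ∈ B)
    (hsa : IsSelfAdjoint x) (c : ℝ) :
    (∀ t ∈ spectrum ℝ x, t ≤ c) ∨ (∀ t ∈ spectrum ℝ x, c ≤ t) := by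
  set f := cfc (fun t : ℝ => max (t - c) 0) x with hf
  set g := cfc (fun t : ℝ => max (c - t) 0) x with hg
  have hfB : f ∈ B := cfc_mem B hx _
  have hgf : g * f = 0 := by
    rw [hf, hg, ← cfc_mul (fun t : ℝ => max (c - t) 0) (fun t : ℝ => max (t - c) 0) x]
    have h0 : (fun t : ℝ => max (c - t) 0 * max (t - c) 0) = fun _ => 0 := by
      funext t
      rcases le_total t c with h | h
      · rw [max_eq_right (sub_nonpos.2 h), mul_zero]
      · rw [max_eq_right (sub_nonpos.2 h), zero_mul]
    rw [h0, cfc_const_zero]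
  set V := (f.range).topologicalClosure with hV
  set e := V.starProjection with he
  have hsp : IsStarProjection e := isStarProjection_starProjection
  have heB : e ∈ B := by
    rw [VonNeumannAlgebra.IsStarProjection.mem_iff hsp]
    intro y hy
    rw [he, Submodule.range_starProjection, Module.End.mem_invtSubmodule]
    intro v hv
    rw [Submodule.mem_comap]
    have h1 : (f.range : Set H) ⊆ y ⁻¹' (V : Set H) := by
      rintro _ ⟨w, rfl⟩
      refine Submodule.le_topologicalClosure _ ⟨y w, ?_⟩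
      exact Pool.Agent.Helper23.commute_apply hfB hy w
    have h2 : closure (f.range : Set H) ⊆ y ⁻¹' (V : Set H) :=
      closure_minimal h1 ((Submodule.isClosed_topologicalClosure _).preimage y.continuous)
    exact h2 hv
  rcases hB e heB hsp.isIdempotentElem hsp.isSelfAdjoint with h0 | h1
  · left
    have hf0 : f = 0 := by
      ext v
      have h2 : f v ∈ V := Submodule.le_topologicalClosure _ ⟨v, rfl⟩
      have h3 : e (f v) = f v := Submodule.starProjection_eq_self_iff.2 h2
      rw [← h3, h0]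
      rfl
    have h2 : cfc (fun t : ℝ => max (t - c) 0) x = cfc (fun _ : ℝ => (0 : ℝ)) x := by
      rw [← hf, hf0, cfc_const_zero]
    have h3 := eqOn_of_cfc_eq_cfc h2
    intro t ht
    have h4 := h3 ht
    have h5 : max (t - c) 0 = 0 := h4
    have := le_max_left (t - c) 0
    linarith
  · right
    have hg0 : g = 0 := by
      ext v
      have h2 : v ∈ V := by
        rw [← Submodule.starProjection_eq_self_iff, ← he, h1]
        rfl
      have h3 : (f.range : Set H) ⊆ {w | g w = 0} := by
        rintro _ ⟨w, rfl⟩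
        exact congrArg (fun T : H →L[ℂ] H => T w) hgf
      have h4 : closure (f.range : Set H) ⊆ {w | g w = 0} :=
        closure_minimal h3 (isClosed_eq g.continuous continuous_const)
      exact h4 h2
    have h2 : cfc (fun t : ℝ => max (c - t) 0) x = cfc (fun _ : ℝ => (0 : ℝ)) x := by
      rw [← hg, hg0, cfc_const_zero]
    have h3 := eqOn_of_cfc_eq_cfc h2
    intro t ht
    have h4 := h3 ht
    have h5 : max (c - t) 0 = 0 := h4
    have := le_max_left (c - t) 0
    linarith

theorem sa_scalar (B : VonNeumannAlgebra H)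
    (hB : ∀ p ∈ B, p * p = p → star p = p → p = 0 ∨ p = 1) {x : H →L[ℂ] H} (hx : x ∈ B)
    (hsa : IsSelfAdjoint x) : ∃ c : ℂ, x = c • (1 : H →L[ℂ] H) := by
  have h1 : ∃ s : ℝ, ∀ t ∈ spectrum ℝ x, t = s := by
    rcases (spectrum ℝ x).eq_empty_or_nonempty with he | ⟨s, hs⟩
    · exact ⟨0, fun t ht => by rw [he] at ht; exact ht.elim⟩
    · refine ⟨s, fun t ht => ?_⟩
      by_contra hne
      rcases lt_or_gt_of_ne hne with h | h
      · rcases half B hB hx hsa ((t + s) / 2) with h2 | h2
        · have := h2 s hs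
          linarith
        · have := h2 t ht
          linarith
      · rcases half B hB hx hsa ((t + s) / 2) with h2 | h2
        · have := h2 t ht
          linarith
        · have := h2 s hs
          linarith
  obtain ⟨s, hs⟩ := h1
  refine ⟨(s : ℂ), ?_⟩
  have h2 : cfc (fun t : ℝ => t) x = cfc (fun _ : ℝ => s) x := cfc_congr fun t ht => hs t ht
  have h3 : cfc (fun t : ℝ => t) x = x := cfc_id' ℝ x
  rw [h3, cfc_const s x hsa] at h2
  rw [h2, Algebra.algebraMap_eq_smul_one]
  ext v
  simp

theorem scalar_of_proj (B : VonNeumannAlgebra H)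
    (hB : ∀ p ∈ B, p * p = p → star p = p → p = 0 ∨ p = 1) :
    ∀ x ∈ B, ∃ c : ℂ, x = c • (1 : H →L[ℂ] H) := by
  intro x hx
  have hx' : star x ∈ B := star_mem hx
  have ha : ((2 : ℂ)⁻¹ • (x + star x)) ∈ B :=
    Pool.Agent.Helper23.smul_mem' _ (add_mem hx hx')
  have hb : ((-Complex.I * (2 : ℂ)⁻¹) • (x - star x)) ∈ B :=
    Pool.Agent.Helper23.smul_mem' _ (sub_mem hx hx')
  have ha' : IsSelfAdjoint ((2 : ℂ)⁻¹ • (x + star x)) := by
    rw [IsSelfAdjoint, star_smul, star_add, star_star, add_comm (star x) x]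
    congr 1
    simp
  have hb' : IsSelfAdjoint ((-Complex.I * (2 : ℂ)⁻¹) • (x - star x)) := by
    rw [IsSelfAdjoint, star_smul, star_sub, star_star, ← neg_sub x (star x), smul_neg, ← neg_smul]
    congr 1
    simp
  obtain ⟨c, hc⟩ := sa_scalar B hB ha ha'
  obtain ⟨d, hd⟩ := sa_scalar B hB hb hb'
  refine ⟨c + Complex.I * d, ?_⟩
  rw [add_smul, mul_smul, ← hc, ← hd, smul_smul]
  have h1 : Complex.I * (-Complex.I * (2 : ℂ)⁻¹) = (2 : ℂ)⁻¹ := by
    rw [← mul_assoc, mul_neg, Complex.I_mul_I, neg_neg, one_mul]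
  rw [h1, ← smul_add]
  have h2 : x + star x + (x - star x) = (2 : ℂ) • x := by
    rw [two_smul]
    abel
  rw [h2, smul_smul]
  norm_num

end Pool.Agent.Helper78.BC

end

section

open scoped InnerProductSpace Topology BoundedContinuousFunction

open ContinuousLinearMap Filter

namespace Pool.Agent.Helper23

universe u

variable {H : Type u} [NormedAddCommGroup H] [InnerProductSpace ℂ H] [CompleteSpace H]

variable {K : Type u} [NormedAddCommGroup K] [InnerProductSpace ℂ K] [CompleteSpace K]

variable {M N : VonNeumannAlgebra H} {ξ : H} {E : (H →L[ℂ] H) → (H →L[ℂ] H)}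

theorem LamSeq.subseq {l : ℝ} {a : ℕ → H →L[ℂ] H} (h : LamSeq N ξ l a) {φ : ℕ → ℕ}
    (hφ : StrictMono φ) : LamSeq N ξ l (fun n => a (φ n)) :=
  ⟨fun n => h.1 _, ⟨h.2.1.choose, fun n => h.2.1.choose_spec _⟩, fun ε hε =>
    hφ.tendsto_atTop.eventually (h.2.2 ε hε)⟩

end Pool.Agent.Helper23

end

section

open scoped InnerProductSpace Topology BoundedContinuousFunction

open ContinuousLinearMap Filter MeasureTheory

namespace Pool.Agent.Helper88.CS

open Pool.Agent.Helper23

set_option linter.unusedSectionVars false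

set_option linter.unusedVariables false

variable {H : Type*} [NormedAddCommGroup H] [InnerProductSpace ℂ H] [CompleteSpace H]

variable {A : VonNeumannAlgebra H}

open PolarAux

theorem rp_isP {a : H →L[ℂ] H} (ha : a ∈ A) : IsP A (rp a) := by
  refine ⟨?_, rp_star a, rp_rp a⟩
  have hsp : IsStarProjection
      (LinearMap.range (a : H →ₗ[ℂ] H)).topologicalClosure.starProjection :=
    isStarProjection_starProjection
  rw [rp, VonNeumannAlgebra.IsStarProjection.mem_iff hsp]
  intro y hy
  rw [Submodule.range_starProjection, Module.End.mem_invtSubmodule]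
  intro x hx
  rw [Submodule.mem_comap]
  have h1 : ((LinearMap.range (a : H →ₗ[ℂ] H)) : Set H) ⊆
      y ⁻¹' ((LinearMap.range (a : H →ₗ[ℂ] H)).topologicalClosure : Set H) := by
    rintro _ ⟨w, rfl⟩
    change y (a w) ∈ (LinearMap.range (a : H →ₗ[ℂ] H)).topologicalClosure
    rw [← commute_apply ha hy]
    exact apply_mem a (y w)
  exact closure_minimal h1 ((Submodule.isClosed_topologicalClosure _).preimage y.continuous) hx

end Pool.Agent.Helper88.CS

end

section

open scoped InnerProductSpace Topology BoundedContinuousFunction CompactlySupported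

open ContinuousLinearMap Filter MeasureTheory

namespace Pool.Agent.Helper88.CS

open Pool.Agent.Helper23

variable {H : Type*} [NormedAddCommGroup H] [InnerProductSpace ℂ H] [CompleteSpace H]

variable {A : VonNeumannAlgebra H} {J : H →L[ℝ] H} {κ : H}

namespace Trick1Aux

lemma rp_star {X : H →L[ℂ] H} (hX : X ∈ A) : star (rp X) = rp X := (rp_isP hX).2.1

lemma rp_idem {X : H →L[ℂ] H} (hX : X ∈ A) : rp X * rp X = rp X := (rp_isP hX).2.2

lemma Ft_mem {X : H →L[ℂ] H} (hX : X ∈ A) (t : ℝ) : Ft X t ∈ A :=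
  A.toStarSubalgebra.sub_mem (rp_isP (cfc_mem hX _)).1 (rp_isP (cfc_mem hX _)).1

lemma Ft_star {X : H →L[ℂ] H} (hX : X ∈ A) (t : ℝ) : star (Ft X t) = Ft X t := by
  unfold Ft
  rw [star_sub, rp_star (cfc_mem hX _), rp_star (cfc_mem hX _)]

lemma rp_mul_rp {X : H →L[ℂ] H} (hX : X ∈ A) {t : ℝ} (ht : 0 ≤ t) :
    rp (cfc (pt t) X) * rp (cfc (qt t) X) = 0 ∧ rp (cfc (qt t) X) * rp (cfc (pt t) X) = 0 := by
  have h1 : cfc (pt t) X * cfc (qt t) X = 0 := by
    rw [← cfc_mul (pt t) (qt t) X (pt_cont t).continuousOn (qt_cont t).continuousOn]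
    simp_rw [pq_zero ht]
    exact cfc_const_zero ℝ X
  have h2 : cfc (pt t) X * rp (cfc (qt t) X) = 0 := zero_mul_rp h1
  have h3 : rp (cfc (qt t) X) * cfc (pt t) X = 0 := by
    have := congrArg star h2
    rwa [star_mul, star_cfc, rp_star (cfc_mem hX _), star_zero] at this
  have h4 : rp (cfc (qt t) X) * rp (cfc (pt t) X) = 0 := zero_mul_rp h3
  refine ⟨?_, h4⟩
  have := congrArg star h4
  rwa [star_mul, rp_star (cfc_mem hX _), rp_star (cfc_mem hX _), star_zero] at this

lemma Ft_cube {X : H →L[ℂ] H} (hX : X ∈ A) {t : ℝ} (ht : 0 ≤ t) :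
    Ft X t * Ft X t * Ft X t = Ft X t := by
  obtain ⟨h1, h2⟩ := rp_mul_rp hX ht
  have h3 := rp_idem (cfc_mem (A := A) hX (pt t))
  have h4 := rp_idem (cfc_mem (A := A) hX (qt t))
  unfold Ft
  set p := rp (cfc (pt t) X)
  set q := rp (cfc (qt t) X)
  rw [show (p - q) * (p - q) = p + q by
    rw [sub_mul, mul_sub, mul_sub, h1, h2, h3, h4]; abel]
  rw [add_mul, mul_sub, mul_sub, h1, h2, h3, h4]
  abel

lemma Ft_anti {X : H →L[ℂ] H} (hX : X ∈ A) (hs : star X = X) (t : ℝ) {U : H →L[ℂ] H}
    (hU : star U = U) (hUU : U * U = 1) (hUX : U * X = -(X * U)) :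
    U * Ft X t = -(Ft X t * U) := by
  have hsX : IsSelfAdjoint X := hs
  have hUm : U ∈ unitary (H →L[ℂ] H) := by
    rw [Unitary.mem_iff, hU]
    exact ⟨hUU, hUU⟩
  set u : unitary (H →L[ℂ] H) := ⟨U, hUm⟩ with hu
  have h0 : Unitary.conjStarAlgAut ℝ (H →L[ℂ] H) u X = -X := by
    rw [Unitary.conjStarAlgAut_apply]
    change U * X * star U = -X
    rw [hU, hUX, neg_mul, mul_assoc, hUU, mul_one]
  have hc : Continuous (Unitary.conjStarAlgAut ℝ (H →L[ℂ] H) u) := by
    have : (Unitary.conjStarAlgAut ℝ (H →L[ℂ] H) u : (H →L[ℂ] H) → (H →L[ℂ] H)) =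
        fun x => U * x * star U := rfl
    rw [this]
    fun_prop
  have h1 : U * cfc (pt t) X * U = cfc (qt t) X := by
    have e1 := StarAlgHomClass.map_cfc (S := ℝ) (Unitary.conjStarAlgAut ℝ (H →L[ℂ] H) u) (pt t) X
      (pt_cont t).continuousOn hc hsX (by rw [h0]; exact hsX.neg)
    rw [h0, ← cfc_comp_neg (pt t) X (pt_cont t).continuousOn hsX] at e1
    rw [Unitary.conjStarAlgAut_apply] at e1
    change U * cfc (pt t) X * star U = _ at e1
    rw [hU] at e1
    exact e1
  have h2 : U * cfc (qt t) X * U = cfc (pt t) X := by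
    rw [← h1]
    calc U * (U * cfc (pt t) X * U) * U = (U * U) * cfc (pt t) X * (U * U) := by
          simp only [mul_assoc]
      _ = _ := by rw [hUU, one_mul, mul_one]
  set P := cfc (pt t) X with hP
  set Q := cfc (qt t) X with hQ
  have hpP : rp P * P = P := rp_mul P
  have hqQ : rp Q * Q = Q := rp_mul Q
  have h3 : (U * rp P * U) * rp Q = rp Q := by
    apply mul_rp
    calc U * rp P * U * Q = U * rp P * U * (U * P * U) := by rw [h1]
      _ = U * (rp P * ((U * U) * P)) * U := by simp only [mul_assoc]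
      _ = Q := by rw [hUU, one_mul, hpP, h1]
  have h4 : (U * rp Q * U) * rp P = rp P := by
    apply mul_rp
    calc U * rp Q * U * P = U * rp Q * U * (U * Q * U) := by rw [h2]
      _ = U * (rp Q * ((U * U) * Q)) * U := by simp only [mul_assoc]
      _ = P := by rw [hUU, one_mul, hqQ, h2]
  have hps : star (rp P) = rp P := rp_star (cfc_mem (A := A) hX (pt t))
  have hqs : star (rp Q) = rp Q := rp_star (cfc_mem (A := A) hX (qt t))
  have h5 : rp Q * (U * rp P * U) = rp Q := by
    have := congrArg star h3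
    rw [star_mul, star_mul, star_mul, hps, hqs, hU] at this
    rw [← mul_assoc] at this
    simpa only [mul_assoc] using this
  have h6 : rp Q * (U * rp P * U) = U * rp P * U := by
    calc rp Q * (U * rp P * U) = (U * U) * rp Q * (U * rp P * U) := by rw [hUU, one_mul]
      _ = U * ((U * rp Q * U) * rp P) * U := by simp only [mul_assoc]
      _ = U * rp P * U := by rw [h4]
  have h7 : U * rp P * U = rp Q := h6.symm.trans h5
  have h8 : U * rp P = rp Q * U := by
    rw [← h7, mul_assoc, hUU, mul_one]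
  have h9 : U * rp Q = rp P * U := by
    rw [← h7]
    calc U * (U * rp P * U) = (U * U) * rp P * U := by simp only [mul_assoc]
      _ = _ := by rw [hUU, one_mul]
  unfold Ft
  rw [mul_sub, sub_mul, h8, h9]
  abel

end Trick1Aux

end Pool.Agent.Helper88.CS

end
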