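import Pool.Agent.Helper23.FA.Ns
import Pool.Agent.Helper23.FA.L00_01
import Pool.Agent.Helper23.FA.L00_02
import Pool.Agent.Helper23.FA.L00_03
import Pool.Agent.Helper23.FA.L00_04
import Pool.Agent.Helper23.FA.L00_06
import Pool.Agent.Helper23.FA.L00_19

/-!
Parts of Helper68.G2b4, Helper72.UPow.Near, Helper68.U17, Helper23.UMain, Helper23.ED.WtB
-/

section

open scoped InnerProductSpace Topology BoundedContinuousFunction FourierTransform ENNReal

open ContinuousLinearMap Filter MeasureTheory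

set_option linter.unusedSectionVars false

namespace Pool.Agent.Helper23

variable {H : Type*} [NormedAddCommGroup H] [InnerProductSpace ℂ H] [CompleteSpace H]

variable {M N : VonNeumannAlgebra H} {ξ : H} {E : (H →L[ℂ] H) → (H →L[ℂ] H)}

/-- the negative part of a self-adjoint element of a von Neumann algebra -/
lemma exists_negPart (A : VonNeumannAlgebra H) {b : H →L[ℂ] H} (hb : b ∈ A)
    (hbs : IsSelfAdjoint b) : ∃ n ∈ A, ∃ s : H →L[ℂ] H, star s * s = n ∧ b * n = -(n * n) ∧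
      (n = 0 → ∀ v : H, 0 ≤ (⟪v, b v⟫_ℂ).re) := by
  have : IsClosed (A : Set (H →L[ℂ] H)) := vN_isClosed A
  have : IsClosed (A.toStarSubalgebra : Set (H →L[ℂ] H)) := vN_isClosed A
  have h1 : b⁻ ∈ A.toStarSubalgebra := by
    rw [CFC.negPart_def]
    exact cfcₙ_mem (s := A.toStarSubalgebra) _ hb
  have h2 := CFC.posPart_sub_negPart b hbs
  refine ⟨b⁻, h1, CFC.sqrt b⁻, ?_, ?_, ?_⟩
  · rw [(IsSelfAdjoint.of_nonneg (CFC.sqrt_nonneg b⁻)).star_eq]
    exact CFC.sqrt_mul_sqrt_self b⁻ (CFC.negPart_nonneg b)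
  · nth_rw 1 [← h2]
    rw [sub_mul, CFC.posPart_mul_negPart, zero_sub]
  · intro h0 v
    have h3 : b = b⁺ := by
      nth_rw 1 [← h2]
      rw [h0, sub_zero]
    rw [h3]
    exact ((nonneg_iff_isPositive _).1 (CFC.posPart_nonneg b)).re_inner_nonneg_right v

namespace Setting

variable (S : Setting M N E ξ)

include S

lemma norm_le_of_orb {c : H →L[ℂ] H} (hc : c ∈ N) {C : ℝ} (hC : 0 ≤ C)
    (h : ∀ a ∈ N, ‖c (a ξ)‖ ≤ C * ‖a ξ‖) : ‖c‖ ≤ C := by
  set b : H →L[ℂ] H := ((C ^ 2 : ℝ) : ℂ) • (1 : H →L[ℂ] H) - star c * c with hb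
  have hbN : b ∈ N := sub_mem (smul_mem' _ (one_mem N)) (mul_mem (star_mem hc) hc)
  have hbs : IsSelfAdjoint b := by
    rw [isSelfAdjoint_iff, hb, star_sub, star_smul, star_one, star_mul, star_star]
    simp
  have hbv : ∀ v : H, (⟪v, b v⟫_ℂ).re = C ^ 2 * ‖v‖ ^ 2 - ‖c v‖ ^ 2 := by
    intro v
    have e1 : ⟪v, b v⟫_ℂ = ((C ^ 2 * ‖v‖ ^ 2 - ‖c v‖ ^ 2 : ℝ) : ℂ) := by
      rw [hb, sub_apply, smul_apply, one_apply_eq_self, inner_sub_right, inner_smul_right]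
      change _ - ⟪v, (star c) (c v)⟫_ℂ = _
      rw [← norm_sq_apply, inner_self_eq_norm_sq_to_K]
      push_cast
      rfl
    rw [e1, Complex.ofReal_re]
  obtain ⟨n, hn, s, hs, hbn, hpos⟩ := exists_negPart N hbN hbs
  have hsn : ∀ v : H, ⟪v, n v⟫_ℂ = ((‖s v‖ ^ 2 : ℝ) : ℂ) := by
    intro v
    rw [norm_sq_apply, ← hs]
    rfl
  have hns : star n = n := by rw [← hs, star_mul, star_star]
  have h1 : (⟪n ξ, b (n ξ)⟫_ℂ).re = -(‖s (n ξ)‖ ^ 2) := by
    have e1 : b (n ξ) = -(n (n ξ)) := congrArg (fun T : H →L[ℂ] H => T ξ) hbn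
    rw [e1, inner_neg_right, hsn, Complex.neg_re, Complex.ofReal_re]
  have h2 : 0 ≤ (⟪n ξ, b (n ξ)⟫_ℂ).re := by
    rw [hbv]
    have := pow_le_pow_left₀ (norm_nonneg _) (h n hn) 2
    rw [mul_pow] at this
    linarith
  have h3 : s (n ξ) = 0 := by
    have : ‖s (n ξ)‖ ^ 2 ≤ 0 := by linarith
    have h4 : ‖s (n ξ)‖ = 0 := by nlinarith [norm_nonneg (s (n ξ))]
    exact norm_eq_zero.1 h4
  have h4 : (n * n) ξ = 0 := by
    change n (n ξ) = 0
    rw [← hs]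
    change (star s) (s ((star s * s) ξ)) = 0
    rw [hs, h3, map_zero]
  have h5 : n * n = 0 := S.sep _ (S.le _ (mul_mem hn hn)) h4
  have h6 : n = 0 := by
    ext v
    have e1 := norm_sq_apply n v
    have e2 : (star n) (n v) = 0 := by
      rw [hns]
      exact congrArg (fun T : H →L[ℂ] H => T v) h5
    rw [e2, inner_zero_right] at e1
    have e3 : ‖n v‖ ^ 2 = 0 := by exact_mod_cast e1
    exact norm_eq_zero.1 (pow_eq_zero_iff two_ne_zero |>.1 e3)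
  refine ContinuousLinearMap.opNorm_le_bound _ hC fun v => ?_
  refine (pow_le_pow_iff_left₀ (norm_nonneg _) (by positivity) two_ne_zero).1 ?_
  have := hpos h6 v
  rw [hbv] at this
  rw [mul_pow]
  linarith

/-- the conditional expectation is contractive -/
lemma E_norm {x : H →L[ℂ] H} (hx : x ∈ M) : ‖E x‖ ≤ ‖x‖ := by
  refine S.norm_le_of_orb (S.E_mem x hx) (norm_nonneg _) fun a ha => ?_
  have h1 := S.E_inner (mul_mem (S.E_mem x hx) ha) ha hx
  have h2 : ⟪E x (a ξ), E x (a ξ)⟫_ℂ = ⟪E x (a ξ), x (a ξ)⟫_ℂ := h1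
  have h3 : ‖E x (a ξ)‖ ^ 2 ≤ ‖E x (a ξ)‖ * (‖x‖ * ‖a ξ‖) := by
    have h4 : ‖⟪E x (a ξ), E x (a ξ)⟫_ℂ‖ = ‖E x (a ξ)‖ ^ 2 := by
      rw [inner_self_eq_norm_sq_to_K]
      simp
    rw [← h4, h2]
    exact (norm_inner_le_norm _ _).trans
      (mul_le_mul_of_nonneg_left (x.le_opNorm _) (norm_nonneg _))
  by_contra hcon
  push Not at hcon
  have h5 : 0 ≤ ‖x‖ * ‖a ξ‖ := by positivity
  nlinarith [norm_nonneg (E x (a ξ))]

end Setting

end Pool.Agent.Helper23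

end

section

open scoped InnerProductSpace Topology BoundedContinuousFunction ComplexOrder

open ContinuousLinearMap Filter

namespace Pool.Agent.Helper23

variable {H : Type*} [NormedAddCommGroup H] [InnerProductSpace ℂ H] [CompleteSpace H]

variable {M N : VonNeumannAlgebra H} {ξ : H} {E : (H →L[ℂ] H) → (H →L[ℂ] H)}

namespace Setting

variable (S : Setting M N E ξ)

include S

/-- one-sided domination -/
lemma dom_of_defect {l δ δ' Cb : ℝ} (hl : 0 < l) (hδ : 0 ≤ δ) (hδ' : 0 ≤ δ')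
    {a b : H →L[ℂ] H} (ha : a ∈ N) (ha1 : ‖a‖ ≤ 1)
    (hb : b ∈ N) (hb1 : ‖b‖ ≤ Cb) (hab : a * star a = 1 - star b * b)
    (hD : Defect N ξ l δ a) (hD' : Defect N ξ 1 δ' (star b)) {x : H →L[ℂ] H} (hx : x ∈ M)
    (hx0 : 0 ≤ x) :
    (⟪a ξ, x (a ξ)⟫_ℂ).re ≤ l * (⟪ξ, x ξ⟫_ℂ).re + (δ + l * (δ' * Cb)) * ‖x‖ := by
  have hCb : 0 ≤ Cb := (norm_nonneg _).trans hb1
  have hEx := S.E_mem x hx
  have hEn := S.E_norm hx
  have e1 : ⟪a ξ, x (a ξ)⟫_ℂ = ⟪ξ, (star a * E x) (a ξ)⟫_ℂ := by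
    rw [← S.E_inner ha ha hx]
    change _ = ⟪ξ, (star a) (E x (a ξ))⟫_ℂ
    rw [inner_star_right]
  have h1 := hD (star a * E x) (mul_mem (star_mem ha) hEx)
  have n1 : ‖star a * E x‖ ≤ ‖x‖ := by
    refine (norm_mul_le _ _).trans ?_
    rw [norm_star]
    calc ‖a‖ * ‖E x‖ ≤ 1 * ‖x‖ := mul_le_mul ha1 hEn (norm_nonneg _) zero_le_one
      _ = ‖x‖ := one_mul _
  have e2 : ⟪ξ, a ((star a * E x) ξ)⟫_ℂ = ⟪ξ, x ξ⟫_ℂ - ⟪ξ, (star b) ((b * E x) ξ)⟫_ℂ := by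
    have e3 : a ((star a * E x) ξ) = E x ξ - (star b) ((b * E x) ξ) := by
      have := congrArg (fun T : H →L[ℂ] H => T (E x ξ)) hab
      change a ((star a) (E x ξ)) = E x ξ - (star b) (b (E x ξ)) at this
      exact this
    rw [e3, inner_sub_right, S.E_state x hx]
  have h2 := hD' (b * E x) (mul_mem hb hEx)
  have n2 : ‖b * E x‖ ≤ Cb * ‖x‖ :=
    (norm_mul_le _ _).trans (mul_le_mul hb1 hEn (norm_nonneg _) hCb)
  have e4 : ⟪ξ, (b * E x) ((star b) ξ)⟫_ℂ = ⟪(star b) ξ, x ((star b) ξ)⟫_ℂ := by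
    rw [← S.E_inner (star_mem hb) (star_mem hb) hx]
    change ⟪ξ, b (E x ((star b) ξ))⟫_ℂ = _
    rw [inner_star_left]
  have h3 : 0 ≤ (⟪(star b) ξ, x ((star b) ξ)⟫_ℂ).re :=
    ((nonneg_iff_isPositive _).1 hx0).re_inner_nonneg_right _
  rw [e4, Complex.ofReal_one, one_mul] at h2
  have h4 := (Complex.abs_re_le_norm _).trans h2
  rw [Complex.sub_re] at h4
  have h5 : -(δ' * (Cb * ‖x‖)) ≤ (⟪ξ, (star b) ((b * E x) ξ)⟫_ℂ).re := by
    have := (abs_le.1 h4).2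
    have h6 : δ' * ‖b * E x‖ ≤ δ' * (Cb * ‖x‖) := mul_le_mul_of_nonneg_left n2 hδ'
    linarith
  rw [← e1] at h1
  have h7 := (Complex.abs_re_le_norm _).trans h1
  rw [Complex.sub_re, Complex.re_ofReal_mul, e2, Complex.sub_re] at h7
  have h8 := (abs_le.1 h7).2
  have h9 : δ * ‖star a * E x‖ ≤ δ * ‖x‖ := mul_le_mul_of_nonneg_left n1 hδ
  have h10 : l * (-(δ' * (Cb * ‖x‖))) ≤ l * (⟪ξ, (star b) ((b * E x) ξ)⟫_ℂ).re :=
    mul_le_mul_of_nonneg_left h5 hl.le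
  nlinarith

end Setting

end Pool.Agent.Helper23

end

section

open scoped InnerProductSpace Topology BoundedContinuousFunction

open ContinuousLinearMap Filter MeasureTheory

set_option linter.unusedSectionVars false

namespace Pool.Agent.Helper23

universe u

variable {H : Type u} [NormedAddCommGroup H] [InnerProductSpace ℂ H] [CompleteSpace H]

variable {M N : VonNeumannAlgebra H} {ξ : H} {E : (H →L[ℂ] H) → (H →L[ℂ] H)}

namespace Setting

variable (S : Setting M N E ξ)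

include S

lemma defect_M_gen {u : H →L[ℂ] H} (hu : u ∈ N) {l δ : ℝ} (hδ : 0 ≤ δ) (hD : Defect N ξ l δ u) :
    Defect M ξ l δ u := by
  intro z hz
  have h1 := S.E_inner (one_mem N) hu hz
  rw [one_apply_eq_self] at h1
  have h2 := S.E_inner (star_mem hu) (one_mem N) hz
  rw [one_apply_eq_self, inner_star_left, inner_star_left] at h2
  have h3 := hD (E z) (S.E_mem z hz)
  rw [h1, h2] at h3
  exact h3.trans (mul_le_mul_of_nonneg_left (S.E_norm hz) hδ)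

/-- the quantitative form of the concentration -/
lemma near_eig {R : H →L[ℂ] H} {D : H →L[ℝ] H} (hR : TTData M ξ R D) {K : ℝ} (hK : 0 ≤ K)
    (hKb : ∀ r ∈ M.commutant, ∃ b ∈ M, ‖b‖ ≤ K * ‖r‖ ∧ R (r ξ) = (2 : ℂ) • b ξ)
    {l : ℝ} (hl : 0 < l) {C ε : ℝ} (hC : 0 ≤ C) (hε : 0 ≤ ε) {a r : H →L[ℂ] H} (ha : a ∈ N)
    (haC : ‖a‖ ≤ C) (hD : Defect N ξ l ε a) (hr : r ∈ M.commutant)
    (hrC : ‖r‖ ≤ Real.sqrt l * C) (har : ‖a ξ - r ξ‖ ≤ ε) :
    ‖(2 : ℂ) • (star a) ξ - ((1 + l : ℝ) : ℂ) • R ((star a) ξ)‖ ≤ ‖D‖ * ε +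
      Real.sqrt (2 * (ε * (4 * (K * (Real.sqrt l * C)) + l * (4 * C + (4 * (K *
        (Real.sqrt l * C)) + (Real.sqrt l * C + l * C) * ‖D‖))))) := by
  have hsl : 0 ≤ Real.sqrt l := Real.sqrt_nonneg l
  have haM : a ∈ M := S.le a ha
  have hξ : ‖ξ‖ = 1 := S.norm_one
  set d : H := (star r) ξ - (l : ℂ) • (star a) ξ with hd
  have hsa : ‖(star a) ξ‖ ≤ C := by
    have := (star a).le_opNorm ξ
    rw [hξ, mul_one, norm_star] at this
    exact this.trans haC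
  have hsr : ‖(star r) ξ‖ ≤ Real.sqrt l * C := by
    have := (star r).le_opNorm ξ
    rw [hξ, mul_one, norm_star] at this
    exact this.trans hrC
  have hdn : ‖d‖ ≤ Real.sqrt l * C + l * C := by
    refine (norm_sub_le _ _).trans (add_le_add hsr ?_)
    rw [norm_smul, Complex.norm_real, Real.norm_of_nonneg hl.le]
    exact mul_le_mul_of_nonneg_left hsa hl.le
  -- testing against `M`
  have htest : ∀ x ∈ M, ‖⟪d, x ξ⟫_ℂ‖ ≤ 2 * ε * ‖x‖ := by
    intro x hx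
    have e1 : ⟪d, x ξ⟫_ℂ = ⟪ξ, x (r ξ - a ξ)⟫_ℂ +
        (⟪ξ, x (a ξ)⟫_ℂ - l * ⟪ξ, a (x ξ)⟫_ℂ) := by
      rw [hd, inner_sub_left, inner_smul_left, Complex.conj_ofReal, inner_star_left,
        inner_star_left, ← commute_apply hx hr, map_sub, inner_sub_right]
      ring
    rw [e1]
    have e2 : ‖⟪ξ, x (r ξ - a ξ)⟫_ℂ‖ ≤ ε * ‖x‖ := by
      refine (norm_inner_le_norm _ _).trans ?_
      rw [hξ, one_mul]
      refine (x.le_opNorm _).trans ?_
      rw [norm_sub_rev, mul_comm]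
      exact mul_le_mul_of_nonneg_right har (norm_nonneg _)
    have e3 := S.defect_M_gen ha hε hD x hx
    calc _ ≤ _ := norm_add_le _ _
      _ ≤ ε * ‖x‖ + ε * ‖x‖ := add_le_add e2 e3
      _ = _ := by ring
  -- `R r* ξ`
  obtain ⟨b, hb, hbn, hb2⟩ := hKb (star r) (star_mem hr)
  rw [norm_star] at hbn
  have hbC : ‖b‖ ≤ K * (Real.sqrt l * C) := hbn.trans (mul_le_mul_of_nonneg_left hrC hK)
  have h1 : ‖⟪d, R ((star r) ξ)⟫_ℂ‖ ≤ ε * (4 * (K * (Real.sqrt l * C))) := by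
    rw [hb2, inner_smul_right, norm_mul, Complex.norm_ofNat]
    have := htest b hb
    have h2 : 2 * ε * ‖b‖ ≤ 2 * ε * (K * (Real.sqrt l * C)) :=
      mul_le_mul_of_nonneg_left hbC (by positivity)
    linarith
  -- the difference
  have h2 : (2 : ℂ) • (star a) ξ - R ((star a) ξ) = R ((star r) ξ) + D (a ξ - r ξ) := by
    rw [map_sub, hR.D_mem a haM, hR.D_comm r hr]
    abel
  have hDn : ‖D (a ξ - r ξ)‖ ≤ ‖D‖ * ε :=
    (D.le_opNorm _).trans (mul_le_mul_of_nonneg_left har (norm_nonneg _))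
  have h3 : ‖⟪d, R ((star a) ξ)⟫_ℂ‖ ≤ ε * (4 * C + (4 * (K * (Real.sqrt l * C)) +
      (Real.sqrt l * C + l * C) * ‖D‖)) := by
    have e1 : R ((star a) ξ) = (2 : ℂ) • (star a) ξ - (R ((star r) ξ) + D (a ξ - r ξ)) := by
      rw [← h2]; abel
    rw [e1, inner_sub_right, inner_add_right, inner_smul_right]
    have e2 : ‖(2 : ℂ) * ⟪d, (star a) ξ⟫_ℂ‖ ≤ ε * (4 * C) := by
      rw [norm_mul, Complex.norm_ofNat]
      have := htest (star a) (star_mem haM)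
      rw [norm_star] at this
      have h4 : 2 * ε * ‖a‖ ≤ 2 * ε * C := mul_le_mul_of_nonneg_left haC (by positivity)
      linarith
    have e3 : ‖⟪d, D (a ξ - r ξ)⟫_ℂ‖ ≤ ε * ((Real.sqrt l * C + l * C) * ‖D‖) := by
      refine (norm_inner_le_norm _ _).trans ?_
      calc ‖d‖ * ‖D (a ξ - r ξ)‖ ≤ (Real.sqrt l * C + l * C) * (‖D‖ * ε) :=
            mul_le_mul hdn hDn (norm_nonneg _) (by positivity)
        _ = _ := by ring
    calc _ ≤ _ := norm_sub_le _ _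
      _ ≤ ‖(2 : ℂ) * ⟪d, (star a) ξ⟫_ℂ‖ + (‖⟪d, R ((star r) ξ)⟫_ℂ‖ +
          ‖⟪d, D (a ξ - r ξ)⟫_ℂ‖) := by gcongr; exact norm_add_le _ _
      _ ≤ _ := by linarith
  set B : ℝ := ε * (4 * (K * (Real.sqrt l * C)) + l * (4 * C + (4 * (K *
        (Real.sqrt l * C)) + (Real.sqrt l * C + l * C) * ‖D‖))) with hB
  have h4 : ‖⟪d, R d⟫_ℂ‖ ≤ B := by
    have e1 : ⟪d, R d⟫_ℂ = ⟪d, R ((star r) ξ)⟫_ℂ - l * ⟪d, R ((star a) ξ)⟫_ℂ := by
      conv_lhs => rw [show R d = R ((star r) ξ) - (l : ℂ) • R ((star a) ξ) by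
        rw [hd, map_sub, map_smul]]
      rw [inner_sub_right, inner_smul_right]
    rw [e1]
    refine (norm_sub_le _ _).trans ?_
    rw [norm_mul, Complex.norm_real, Real.norm_of_nonneg hl.le]
    have := mul_le_mul_of_nonneg_left h3 hl.le
    rw [hB]
    nlinarith
  have h5 : ‖R d‖ ^ 2 ≤ 2 * B := by
    have e1 : ⟪D d, D d⟫_ℂ = 2 * ⟪d, R d⟫_ℂ - ⟪R d, R d⟫_ℂ := by
      rw [hR.D_symm, hR.D_sq, map_sub, map_smul, inner_sub_right, inner_smul_right]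
      congr 1
      rw [← inner_star_left, hR.R_star]
    have e2 := congrArg Complex.re e1
    rw [inner_self_eq_norm_sq_to_K, inner_self_eq_norm_sq_to_K, Complex.sub_re] at e2
    have e3 : (((‖D d‖ : ℝ) : ℂ) ^ 2).re = ‖D d‖ ^ 2 := by norm_cast
    have e4 : (((‖R d‖ : ℝ) : ℂ) ^ 2).re = ‖R d‖ ^ 2 := by norm_cast
    change (((‖D d‖ : ℝ) : ℂ) ^ 2).re = _ - (((‖R d‖ : ℝ) : ℂ) ^ 2).re at e2
    rw [e3, e4] at e2
    have e5 : (2 * ⟪d, R d⟫_ℂ).re = 2 * (⟪d, R d⟫_ℂ).re := by simp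
    rw [e5] at e2
    have e6 := (Complex.re_le_norm ⟪d, R d⟫_ℂ).trans h4
    nlinarith [sq_nonneg ‖D d‖]
  have h6 : ‖R d‖ ≤ Real.sqrt (2 * B) := Real.le_sqrt_of_sq_le h5
  have h7 : (2 : ℂ) • (star a) ξ - ((1 + l : ℝ) : ℂ) • R ((star a) ξ) =
      D (a ξ - r ξ) + R d := by
    have e1 : R d = R ((star r) ξ) - (l : ℂ) • R ((star a) ξ) := by
      rw [hd, map_sub, map_smul]
    rw [e1]
    have e2 : (2 : ℂ) • (star a) ξ - ((1 + l : ℝ) : ℂ) • R ((star a) ξ) =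
        ((2 : ℂ) • (star a) ξ - R ((star a) ξ)) - (l : ℂ) • R ((star a) ξ) := by
      push_cast
      rw [add_smul, one_smul]
      abel
    rw [e2, h2]
    abel
  rw [h7]
  exact (norm_add_le _ _).trans (add_le_add hDn h6)

end Setting

end Pool.Agent.Helper23

end

section

open scoped InnerProductSpace Topology ENNReal BoundedContinuousFunction

open ContinuousLinearMap Filter MeasureTheory

namespace Pool.Agent.Helper23

variable {H : Type*} [NormedAddCommGroup H] [InnerProductSpace ℂ H] [CompleteSpace H]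

variable {M N : VonNeumannAlgebra H} {ξ : H} {E : (H →L[ℂ] H) → (H →L[ℂ] H)}

open RBF

/-- a unitary conjugating the amplification of the unitaries of `N` into the unitaries preserving
the weight -/
def ConjGK (N : VonNeumannAlgebra H) (ξ : H) : Prop :=
  ∃ V V' : L2R H →L[ℂ] L2R H, star V = V' ∧ V * V' = 1 ∧ V' * V = 1 ∧
    ∀ u ∈ N, star u * u = 1 → u * star u = 1 → V * lift u * V' ∈ GK N ξ

end Pool.Agent.Helper23

end

section

open scoped InnerProductSpace Topology ENNReal BoundedContinuousFunction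

open ContinuousLinearMap Filter MeasureTheory

namespace Pool.Agent.Helper23.ED

open Pool.Agent.Helper23 Pool.Agent.Helper23.RBF

open Pool.Agent.Helper78.BC.Transport (Sub r)

universe u

variable {H : Type u} [NormedAddCommGroup H] [InnerProductSpace ℂ H] [CompleteSpace H]

variable {N : VonNeumannAlgebra H} {ψ : (H →L[ℂ] H) → ℝ≥0∞}

namespace WtB

theorem smulN (c : ℂ) {a : H →L[ℂ] H} (ha : a ∈ N) : c • a ∈ N := smul_mem' c ha

theorem psi_add (hψ : IsNSFWeight N ψ) {a b : H →L[ℂ] H} (ha : a ∈ Dm N ψ) (hb : b ∈ Dm N ψ) :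
    (ψ (sq a + sq b)).toReal = q ψ a + q ψ b := by
  rw [hψ.add _ (sq_mem ha.1) _ (sq_mem hb.1) (sq_nonneg' a) (sq_nonneg' b)]
  exact ENNReal.toReal_add ha.2 hb.2

/-- four squares -/
theorem q_four (hψ : IsNSFWeight N ψ) {a b c d : H →L[ℂ] H} (ha : a ∈ Dm N ψ) (hb : b ∈ Dm N ψ)
    (hc : c ∈ Dm N ψ) (hd : d ∈ Dm N ψ) (h : sq a + sq b = sq c + sq d) :
    q ψ a + q ψ b = q ψ c + q ψ d := by
  rw [← psi_add hψ ha hb, ← psi_add hψ hc hd, h]

theorem q_par (hψ : IsNSFWeight N ψ) {a b : H →L[ℂ] H} (ha : a ∈ Dm N ψ) (hb : b ∈ Dm N ψ) :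
    q ψ (a + b) + q ψ (a - b) = 2 * (q ψ a + q ψ b) := by
  have hn : -b ∈ Dm N ψ := by
    have := Dm_smul hψ (-1) hb
    rwa [neg_one_smul] at this
  have hs : a - b ∈ Dm N ψ := by
    rw [sub_eq_add_neg]; exact Dm_add hψ ha hn
  have h1 : sq (a + b) + sq (a - b) = ((2 : ℝ) : ℂ) • (sq a + sq b) := by
    unfold sq
    rw [star_add, star_sub]
    push_cast
    rw [two_smul]
    noncomm_ring
  have h2 := psi_add hψ (Dm_add hψ ha hb) hs
  rw [← h2, h1, hψ.smul _ (add_mem (sq_mem ha.1) (sq_mem hb.1))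
    (add_nonneg (sq_nonneg' a) (sq_nonneg' b)) 2 (by norm_num), ENNReal.toReal_mul,
    ENNReal.toReal_ofReal (by norm_num), psi_add hψ ha hb]

theorem q_tri (hψ : IsNSFWeight N ψ) {a b : H →L[ℂ] H} (ha : a ∈ Dm N ψ) (hb : b ∈ Dm N ψ)
    {c : ℝ} (hc : 0 < c) :
    q ψ (a + b) ≤ (1 + c ^ 2) * q ψ a + (1 + (c⁻¹) ^ 2) * q ψ b := by
  have p1 : (0 : ℝ) ≤ 1 + c ^ 2 := by positivity
  have p2 : (0 : ℝ) ≤ 1 + (c⁻¹) ^ 2 := by positivity
  have h1 : sq (a + b) + sq ((c : ℂ) • a + (-(c⁻¹ : ℝ) : ℂ) • b) =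
      sq (((√(1 + c ^ 2) : ℝ) : ℂ) • a) + sq (((√(1 + (c⁻¹) ^ 2) : ℝ) : ℂ) • b) := by
    rw [sq_smul, sq_smul, norm_sqrt p1, norm_sqrt p2]
    unfold sq
    have hcc : (c : ℂ) * (c⁻¹ : ℂ) = 1 := mul_inv_cancel₀ (by exact_mod_cast hc.ne')
    simp only [star_add, star_smul, add_mul, mul_add, smul_mul_smul_comm, RCLike.star_def,
      Complex.conj_ofReal, map_neg]
    push_cast
    have e1 : (c : ℂ) * -(c : ℂ)⁻¹ = -1 := by rw [mul_neg, hcc]
    have e2 : -(c : ℂ)⁻¹ * (c : ℂ) = -1 := by rw [neg_mul, mul_comm, hcc]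
    rw [e1, e2]
    module
  have hx : (c : ℂ) • a + (-(c⁻¹ : ℝ) : ℂ) • b ∈ Dm N ψ :=
    Dm_add hψ (Dm_smul hψ _ ha) (Dm_smul hψ _ hb)
  have h2 := q_four hψ (Dm_add hψ ha hb) hx (Dm_smul hψ _ ha) (Dm_smul hψ _ hb) h1
  rw [q_smul hψ _ ha, q_smul hψ _ hb, norm_sqrt p1, norm_sqrt p2] at h2
  have := q_nonneg (ψ := ψ) ((c : ℂ) • a + (-(c⁻¹ : ℝ) : ℂ) • b)
  linarith

theorem s_tri (hψ : IsNSFWeight N ψ) {a b : H →L[ℂ] H} (ha : a ∈ Dm N ψ) (hb : b ∈ Dm N ψ) :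
    s ψ (a + b) ≤ s ψ a + s ψ b := by
  rcases eq_or_lt_of_le (q_nonneg (ψ := ψ) a) with h | h
  · have h0 := (q_zero_iff hψ ha).mp h.symm
    subst h0
    rw [zero_add]
    have : 0 ≤ s ψ (0 : H →L[ℂ] H) := Real.sqrt_nonneg _
    linarith
  rcases eq_or_lt_of_le (q_nonneg (ψ := ψ) b) with h' | h'
  · have h0 := (q_zero_iff hψ hb).mp h'.symm
    subst h0
    rw [add_zero]
    have : 0 ≤ s ψ (0 : H →L[ℂ] H) := Real.sqrt_nonneg _
    linarith
  have ha0 : 0 < s ψ a := Real.sqrt_pos.mpr h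
  have hb0 : 0 < s ψ b := Real.sqrt_pos.mpr h'
  have ha2 : s ψ a ^ 2 = q ψ a := Real.sq_sqrt h.le
  have hb2 : s ψ b ^ 2 = q ψ b := Real.sq_sqrt h'.le
  have hc : 0 < √(s ψ b / s ψ a) := Real.sqrt_pos.mpr (div_pos hb0 ha0)
  have h1 := q_tri hψ ha hb hc
  have h2 : √(s ψ b / s ψ a) ^ 2 = s ψ b / s ψ a := Real.sq_sqrt (div_pos hb0 ha0).le
  rw [inv_pow, h2, ← ha2, ← hb2] at h1
  have h3 : (1 + s ψ b / s ψ a) * s ψ a ^ 2 + (1 + (s ψ b / s ψ a)⁻¹) * s ψ b ^ 2 =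
      (s ψ a + s ψ b) ^ 2 := by
    field_simp
    ring
  rw [h3] at h1
  unfold s at h1 ⊢
  exact Real.sqrt_le_iff.mpr ⟨by positivity, h1⟩

theorem core (hψ : IsNSFWeight N ψ) : NormedSpace.Core ℂ (WD hψ) where
  norm_nonneg a := Real.sqrt_nonneg _
  norm_smul c a := by
    rw [norm_def, norm_def, op_smul]
    unfold s
    rw [q_smul hψ c (op_mem a), Real.sqrt_mul (by positivity), Real.sqrt_sq (norm_nonneg c)]
  norm_triangle a b := by
    rw [norm_def, norm_def, norm_def, op_add]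
    exact s_tri hψ (op_mem a) (op_mem b)
  norm_eq_zero_iff a := by
    rw [norm_def]
    unfold s
    rw [Real.sqrt_eq_zero (q_nonneg _), q_zero_iff hψ (op_mem a)]
    constructor
    · intro h
      exact op_ext (h.trans op_zero.symm)
    · rintro rfl
      rfl

noncomputable instance (hψ : IsNSFWeight N ψ) : NormedAddCommGroup (WD hψ) :=
  NormedAddCommGroup.ofCore (core hψ)

noncomputable instance (hψ : IsNSFWeight N ψ) : NormedSpace ℂ (WD hψ) :=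
  NormedSpace.ofCore (core hψ)

noncomputable instance (hψ : IsNSFWeight N ψ) : InnerProductSpace ℂ (WD hψ) :=
  InnerProductSpace.ofNorm ℂ fun a b => by
    rw [← pow_two, ← pow_two, ← pow_two, ← pow_two, norm_sq', norm_sq', norm_sq', norm_sq',
      op_add, op_sub]
    exact q_par hψ (op_mem a) (op_mem b)

theorem sq_mul_le (a p : H →L[ℂ] H) : sq (a * p) ≤ sq (((‖p‖ : ℝ) : ℂ) • a) := by
  have h1 : sq (a * p) = a * (p * star p) * star a := by
    unfold sq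
    rw [star_mul]
    simp only [mul_assoc]
  have h2 : IsSelfAdjoint (p * star p) := IsSelfAdjoint.mul_star_self p
  have h3 := CStarAlgebra.star_right_conjugate_le_norm_smul (a := a) (b := p * star p) h2
  rw [h1, sq_smul]
  refine h3.trans (le_of_eq ?_)
  rw [CStarRing.norm_self_mul_star, Complex.norm_real, norm_norm, Complex.coe_smul, ← pow_two]
  rfl

theorem Rl_bound (hψ : IsNSFWeight N ψ) {p : H →L[ℂ] H} (hp : p ∈ N) (a : WD hψ) :
    ‖Rl hψ hp a‖ ≤ ‖p‖ * ‖a‖ := by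
  rw [norm_def', norm_def']
  have h1 : q ψ (op (Rl hψ hp a)) ≤ q ψ (((‖p‖ : ℝ) : ℂ) • op a) := by
    refine ENNReal.toReal_mono (Dm_smul hψ _ (op_mem a)).2 ?_
    exact wt_mono hψ (sq_mem (mul_mem (op_mem a).1 hp)) (sq_mem (smulN _ (op_mem a).1))
      (sq_nonneg' _) (sq_mul_le (op a) p)
  rw [q_smul hψ _ (op_mem a), Complex.norm_real, norm_norm] at h1
  unfold s
  refine (Real.sqrt_le_sqrt h1).trans (le_of_eq ?_)
  rw [Real.sqrt_mul (by positivity), Real.sqrt_sq (norm_nonneg p)]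

/-- the four squares of the polarization -/
theorem pol (hψ : IsNSFWeight N ψ) {p : H →L[ℂ] H} (hp : p ∈ N) (a b : WD hψ) :
    ‖Rl hψ hp a + b‖ ^ 2 - ‖Rl hψ hp a - b‖ ^ 2 =
      ‖a + Rl hψ (star_mem hp) b‖ ^ 2 - ‖a - Rl hψ (star_mem hp) b‖ ^ 2 := by
  rw [norm_sq', norm_sq', norm_sq', norm_sq']
  have h := q_four hψ (op_mem (Rl hψ hp a + b)) (op_mem (a - Rl hψ (star_mem hp) b))
    (op_mem (a + Rl hψ (star_mem hp) b)) (op_mem (Rl hψ hp a - b)) (by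
      rw [op_add, op_sub, op_add, op_sub]
      change sq (op a * p + op b) + sq (op a - op b * star p) =
        sq (op a + op b * star p) + sq (op a * p - op b)
      unfold sq
      simp only [star_add, star_sub, star_mul, star_star]
      noncomm_ring)
  linarith

theorem adj (hψ : IsNSFWeight N ψ) {p : H →L[ℂ] H} (hp : p ∈ N) (a b : WD hψ) :
    ⟪Rl hψ hp a, b⟫_ℂ = ⟪a, Rl hψ (star_mem hp) b⟫_ℂ := by
  rw [inner_eq_sum_norm_sq_div_four, inner_eq_sum_norm_sq_div_four]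
  have h1 := pol hψ hp a b
  have h2 := pol hψ hp a ((RCLike.I : ℂ) • b)
  rw [map_smul] at h2
  have h3 : (‖Rl hψ hp a + b‖ : ℂ) ^ 2 - (‖Rl hψ hp a - b‖ : ℂ) ^ 2 =
      (‖a + Rl hψ (star_mem hp) b‖ : ℂ) ^ 2 - (‖a - Rl hψ (star_mem hp) b‖ : ℂ) ^ 2 := by
    exact_mod_cast h1
  have h4 : (‖Rl hψ hp a + (RCLike.I : ℂ) • b‖ : ℂ) ^ 2 -
      (‖Rl hψ hp a - (RCLike.I : ℂ) • b‖ : ℂ) ^ 2 =
      (‖a + (RCLike.I : ℂ) • Rl hψ (star_mem hp) b‖ : ℂ) ^ 2 -
        (‖a - (RCLike.I : ℂ) • Rl hψ (star_mem hp) b‖ : ℂ) ^ 2 := by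
    exact_mod_cast h2
  simp only [Complex.coe_algebraMap] at *
  linear_combination h3 / 4 - (RCLike.I : ℂ) * h4 / 4

/-- right multiplication as a continuous map -/
noncomputable def RC (hψ : IsNSFWeight N ψ) {p : H →L[ℂ] H} (hp : p ∈ N) : WD hψ →L[ℂ] WD hψ :=
  (Rl hψ hp).mkContinuous ‖p‖ (Rl_bound hψ hp)

open UniformSpace in
/-- the embedding in the completion -/
noncomputable def em (hψ : IsNSFWeight N ψ) : WD hψ →L[ℂ] Completion (WD hψ) :=
  Completion.toComplL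

open UniformSpace in
/-- the extension of right multiplication -/
noncomputable def RE (hψ : IsNSFWeight N ψ) {p : H →L[ℂ] H} (hp : p ∈ N) :
    Completion (WD hψ) →L[ℂ] Completion (WD hψ) :=
  ((em hψ).comp (RC hψ hp)).extend (em hψ)

open UniformSpace in
theorem RE_coe (hψ : IsNSFWeight N ψ) {p : H →L[ℂ] H} (hp : p ∈ N) (a : WD hψ) :
    RE hψ hp (a : Completion (WD hψ)) = ((Rl hψ hp a : WD hψ) : Completion (WD hψ)) := by
  have h1 := ContinuousLinearMap.extend_eq (e := em hψ) ((em hψ).comp (RC hψ hp))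
    Completion.denseRange_coe (Completion.isUniformInducing_coe _) a
  exact h1

open UniformSpace in
theorem RE_star (hψ : IsNSFWeight N ψ) {p : H →L[ℂ] H} (hp : p ∈ N) :
    star (RE hψ hp) = RE hψ (star_mem hp) := by
  symm
  rw [ContinuousLinearMap.star_eq_adjoint (RE hψ hp), ContinuousLinearMap.eq_adjoint_iff]
  intro x y
  refine Completion.induction_on₂ x y ?_ ?_
  · exact isClosed_eq (by fun_prop) (by fun_prop)
  · intro a b
    rw [RE_coe, RE_coe, Completion.inner_coe, Completion.inner_coe]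
    have h := adj hψ hp b a
    rw [← inner_conj_symm, ← inner_conj_symm (𝕜 := ℂ) a, h]

end WtB

open WtB UniformSpace in
theorem exists_gns (hψ : IsNSFWeight N ψ) : ∃ (L : Type u) (_ : NormedAddCommGroup L)
    (_ : InnerProductSpace ℂ L) (_ : CompleteSpace L) (Λ : (H →L[ℂ] H) → L)
    (ρ : (H →L[ℂ] H) → (L →L[ℂ] L)), Gns N ψ Λ ρ := by
  classical
  refine ⟨Completion (WD hψ), inferInstance, inferInstance, inferInstance,
    fun a => if ha : a ∈ Dm N ψ then ((mk a ha : WD hψ) : Completion (WD hψ)) else 0,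
    fun p => if hp : p ∈ N then RE hψ hp else 0, ?_, ?_, ?_, ?_, ?_⟩
  · intro a ha b hb
    rw [dif_pos ha, dif_pos hb, dif_pos (Dm_add hψ ha hb), ← Completion.coe_add]
    rfl
  · intro c a ha
    rw [dif_pos ha, dif_pos (Dm_smul hψ c ha), ← Completion.coe_smul]
    rfl
  · intro a ha
    rw [dif_pos ha, Completion.norm_coe, norm_sq', op_mk]
    rfl
  · intro p hp a ha
    rw [dif_pos ha, dif_pos (Dm_mul hψ ha hp), dif_pos hp, RE_coe]
    rfl
  · intro p hp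
    rw [dif_pos hp, dif_pos (star_mem hp)]
    exact RE_star hψ hp

end Pool.Agent.Helper23.ED

end
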