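import Pool.Agent.Helper23.FA.Ns
import Pool.Agent.Helper23.FA.L00_02
import Pool.Agent.Helper23.FA.L00_04
import Pool.Agent.Helper23.FA.L00_06
import Pool.Agent.Helper23.FA.L00_14
import Pool.Agent.Helper23.FA.L00_18
import Pool.Agent.Helper23.FA.L00_19

/-!
Parts of Helper23.Qalg, Helper23.Comm, Helper23.Cont, Helper23.Flow, Helper23.Pol2, Helper23.Pin3, Helper23.ED.FdB, Helper23.ED.WtC, Helper23.ED.WtD, Helper23.ED.WtE
-/

section

open scoped InnerProductSpace TensorProduct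

open ContinuousLinearMap

namespace Pool.Agent.Helper23

variable {H : Type*} [NormedAddCommGroup H] [InnerProductSpace ℂ H] [CompleteSpace H]

variable {M N : VonNeumannAlgebra H} {ξ : H} {E : (H →L[ℂ] H) → (H →L[ℂ] H)}

/-- evaluation map `a ⊗ η ↦ a η` -/
noncomputable def evT (N : VonNeumannAlgebra H) (ξ : H) (γ : ℝ) :
    (eig N ξ γ) ⊗[ℂ] H →ₗ[ℂ] H :=
  TensorProduct.lift
    { toFun := fun a => ((a : H →L[ℂ] H) : H →ₗ[ℂ] H)
      map_add' := fun _ _ => rfl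
      map_smul' := fun _ _ => rfl }

lemma evT_tmul (γ : ℝ) (a : eig N ξ γ) (η : H) : evT N ξ γ (a ⊗ₜ η) = (a : H →L[ℂ] H) η := rfl

/-- twisted evaluation map `a ⊗ η ↦ a (u η)` -/
noncomputable def evTu (N : VonNeumannAlgebra H) (ξ : H) (γ : ℝ) (u : H →L[ℂ] H) :
    (eig N ξ γ) ⊗[ℂ] H →ₗ[ℂ] H :=
  TensorProduct.lift
    { toFun := fun a => (((a : H →L[ℂ] H) * u : H →L[ℂ] H) : H →ₗ[ℂ] H)
      map_add' := fun a b => by
        ext η; rfl
      map_smul' := fun c a => by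
        ext η; rfl }

lemma evTu_tmul (γ : ℝ) (u : H →L[ℂ] H) (a : eig N ξ γ) (η : H) :
    evTu N ξ γ u (a ⊗ₜ η) = (a : H →L[ℂ] H) (u η) := rfl

/-- The ranges of the eigenoperators of a fixed eigenvalue span a dense subspace. -/
lemma evT_denseRange (hirr : TrivialRelComm N ξ) {γ : ℝ}
    (hne : ∃ a ∈ eig N ξ γ, a ≠ 0) : DenseRange (evT N ξ γ) := by
  set V := (LinearMap.range (evT N ξ γ)).topologicalClosure with hV
  set R := V.starProjection with hR
  have hinv : ∀ T : H →L[ℂ] H, (∀ a ∈ eig N ξ γ, ∀ η, T (a η) ∈ V) → ∀ x ∈ V, T x ∈ V := by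
    intro T hT x hx
    have h1 : ((LinearMap.range (evT N ξ γ) : Submodule ℂ H) : Set H) ⊆ T ⁻¹' (V : Set H) := by
      rintro _ ⟨t, rfl⟩
      induction t using TensorProduct.induction_on with
      | zero => simp
      | add t₁ t₂ h₁ h₂ =>
        rw [map_add, Set.mem_preimage, map_add]
        exact Submodule.add_mem _ h₁ h₂
      | tmul a η => exact hT a a.2 η
    exact closure_minimal h1 ((Submodule.isClosed_topologicalClosure _).preimage T.continuous) hx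
  have hmemV : ∀ a ∈ eig N ξ γ, ∀ η, a η ∈ V := fun a ha η =>
    Submodule.le_topologicalClosure _ ⟨(⟨a, ha⟩ : eig N ξ γ) ⊗ₜ η, rfl⟩
  have hRN : R ∈ N := by
    rw [VonNeumannAlgebra.IsStarProjection.mem_iff isStarProjection_starProjection]
    intro y hy
    rw [Submodule.range_starProjection, Module.End.mem_invtSubmodule]
    intro x hx
    rw [Submodule.mem_comap]
    refine hinv y (fun a ha η => ?_) x hx
    rw [← commute_apply ha.1 hy]
    exact hmemV a ha _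
  have hRc : ∀ c ∈ eig N ξ 1, ∀ x ∈ V, c x ∈ V := by
    intro c hc x hx
    refine hinv c (fun a ha η => ?_) x hx
    have h1 := eig_mul hc ha
    rw [one_mul] at h1
    exact hmemV _ h1 η
  have hRcomm : ∀ c ∈ eig N ξ 1, c * R = R * c := by
    intro c hc
    have hc' : star c ∈ eig N ξ 1 := by
      have := eig_star one_ne_zero hc
      rwa [inv_one] at this
    ext x
    change c (R x) = R (c x)
    symm
    refine Submodule.eq_starProjection_of_mem_orthogonal (K := V) ?_ ?_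
    · exact hRc c hc _ (Submodule.starProjection_apply_mem V x)
    · rw [← map_sub, Submodule.mem_orthogonal]
      intro w hw
      have h2 := Submodule.sub_starProjection_mem_orthogonal (K := V) x
      rw [Submodule.mem_orthogonal] at h2
      have h3 := h2 _ (hRc _ hc' w hw)
      rwa [inner_star_left] at h3
  obtain ⟨k, hk⟩ := hirr R hRN hRcomm
  obtain ⟨a, ha, ha0⟩ := hne
  obtain ⟨η, hη⟩ : ∃ η, a η ≠ 0 := by
    by_contra hcon
    push Not at hcon
    exact ha0 (ContinuousLinearMap.ext fun η => by simpa using hcon η)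
  have h1 : R (a η) = a η := Submodule.starProjection_eq_self_iff.2 (hmemV a ha η)
  rw [hk] at h1
  have h2 : k = 1 := by
    have h3 : (k - 1) • (a η) = 0 := by
      rw [sub_smul, one_smul, sub_eq_zero]
      simpa using h1
    rcases smul_eq_zero.1 h3 with h | h
    · exact sub_eq_zero.1 h
    · exact absurd h hη
  rw [h2, one_smul] at hk
  intro x
  have h4 : R x = x := by rw [hk]; rfl
  exact Submodule.starProjection_eq_self_iff.1 h4

/-- `Rel γ y z` : `a y = z a` for every eigenoperator `a` with eigenvalue `γ`. -/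
def Rel (N : VonNeumannAlgebra H) (ξ : H) (γ : ℝ) (y z : H →L[ℂ] H) : Prop :=
  ∀ a ∈ eig N ξ γ, a * y = z * a

lemma Rel.unique (hirr : TrivialRelComm N ξ) {γ : ℝ} (hγ : γ ≠ 0)
    (hne : ∃ a ∈ eig N ξ γ, a ≠ 0) {z z' : H →L[ℂ] H}
    (h : ∀ a ∈ eig N ξ γ, z * a = z' * a) : z = z' := by
  have hd := evT_denseRange hirr hne
  have hcl : IsClosed {x : H | z x = z' x} := isClosed_eq z.continuous z'.continuous
  have hsub : Set.range (evT N ξ γ) ⊆ {x : H | z x = z' x} := by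
    rintro _ ⟨t, rfl⟩
    induction t using TensorProduct.induction_on with
    | zero => simp
    | add t₁ t₂ h₁ h₂ =>
      change z _ = z' _ at h₁ h₂ ⊢
      rw [map_add, map_add, map_add, h₁, h₂]
    | tmul a η => exact congrArg (fun T : H →L[ℂ] H => T η) (h a a.2)
  ext x
  exact closure_minimal hsub hcl (hd x)

lemma star_ne {γ : ℝ} (hγ : γ ≠ 0) (hne : ∃ a ∈ eig N ξ γ, a ≠ 0) :
    ∃ a ∈ eig N ξ γ⁻¹, a ≠ 0 := by
  obtain ⟨a, ha, ha0⟩ := hne
  exact ⟨star a, eig_star hγ ha, fun h => ha0 (by simpa using congrArg star h)⟩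

/-- `Rel` and adjoints of the eigenoperators. -/
lemma Rel.star_left {γ : ℝ} {y z : H →L[ℂ] H} (h : Rel N ξ γ y z) {a : H →L[ℂ] H}
    (ha : a ∈ eig N ξ γ) : star y * star a = star a * star z := by
  have := congrArg star (h a ha)
  simpa [star_mul] using this

lemma Rel.star' (hirr : TrivialRelComm N ξ) {γ : ℝ} (hγ : γ ≠ 0)
    (hne : ∃ a ∈ eig N ξ γ, a ≠ 0) {y z : H →L[ℂ] H} (hz : z ∈ Qalg M N ξ)
    (h : Rel N ξ γ y z) : Rel N ξ γ (star y) (star z) := by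
  intro a ha
  refine Rel.unique hirr (inv_ne_zero hγ) (star_ne hγ hne) fun b hb => ?_
  -- b ∈ eig γ⁻¹, b = star c
  have hc : star b ∈ eig N ξ γ := by
    have := eig_star (inv_ne_zero hγ) hb
    rwa [inv_inv] at this
  have h1 := h.star_left hc
  rw [star_star] at h1
  -- star y * b = b * star z
  have h2 : a * b ∈ eig N ξ 1 := by
    have := eig_mul ha hb
    rwa [mul_inv_cancel₀ hγ] at this
  have h3 := (mem_Qalg.1 (star_mem hz)).2 _ h2
  -- (a*b) * star z = star z * (a*b)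
  rw [mul_assoc, h1, ← mul_assoc, h3, mul_assoc]

lemma Rel.mul {γ : ℝ} {y z y' z' : H →L[ℂ] H} (h : Rel N ξ γ y z) (h' : Rel N ξ γ y' z') :
    Rel N ξ γ (y * y') (z * z') := by
  intro a ha
  rw [← mul_assoc, h a ha, mul_assoc, h' a ha, mul_assoc]

lemma Rel.add {γ : ℝ} {y z y' z' : H →L[ℂ] H} (h : Rel N ξ γ y z) (h' : Rel N ξ γ y' z') :
    Rel N ξ γ (y + y') (z + z') := by
  intro a ha
  rw [mul_add, add_mul, h a ha, h' a ha]

lemma Rel.sub {γ : ℝ} {y z y' z' : H →L[ℂ] H} (h : Rel N ξ γ y z) (h' : Rel N ξ γ y' z') :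
    Rel N ξ γ (y - y') (z - z') := by
  intro a ha
  rw [mul_sub, sub_mul, h a ha, h' a ha]

lemma Rel.smul {γ : ℝ} {y z : H →L[ℂ] H} (k : ℂ) (h : Rel N ξ γ y z) :
    Rel N ξ γ (k • y) (k • z) := by
  intro a ha
  rw [mul_smul_comm, smul_mul_assoc, h a ha]

/-- `a* z = y a*` -/
lemma Rel.adj (hirr : TrivialRelComm N ξ) {γ : ℝ} (hγ : γ ≠ 0)
    (hne : ∃ a ∈ eig N ξ γ, a ≠ 0) {y z : H →L[ℂ] H} (hz : z ∈ Qalg M N ξ)
    (h : Rel N ξ γ y z) {b : H →L[ℂ] H} (hb : b ∈ eig N ξ γ⁻¹) : b * z = y * b := by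
  have h1 := h.star' hirr hγ hne hz
  have hc : Star.star b ∈ eig N ξ γ := by
    have := eig_star (inv_ne_zero hγ) hb
    rwa [inv_inv] at this
  have h2 := h1.star_left hc
  simpa using h2.symm

lemma Rel.comp (hirr : TrivialRelComm N ξ) {γ δ : ℝ} (hγ : γ ≠ 0)
    (hne : ∃ a ∈ eig N ξ γ, a ≠ 0) {y z w : H →L[ℂ] H} (hz : z ∈ Qalg M N ξ)
    (h : Rel N ξ γ y z) (h' : Rel N ξ δ z w) : Rel N ξ (δ * γ) y w := by
  intro c hc
  refine Rel.unique hirr (inv_ne_zero hγ) (star_ne hγ hne) fun b hb => ?_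
  have h1 : c * b ∈ eig N ξ δ := by
    have := eig_mul hc hb
    rwa [mul_assoc, mul_inv_cancel₀ hγ, mul_one] at this
  have h2 := h' _ h1
  have h3 := h.adj hirr hγ hne hz hb
  rw [mul_assoc, ← h3, ← mul_assoc, h2, mul_assoc]

namespace Setting

variable (S : Setting M N E ξ) (hirr : TrivialRelComm N ξ)

include S hirr

/-- `Rel` preserves the state. -/
lemma rel_state {γ : ℝ} (hne : ∃ a ∈ eig N ξ γ, a ≠ 0) {y z : H →L[ℂ] H}
    (hy : y ∈ Qalg M N ξ) (hz : z ∈ Qalg M N ξ) (h : Rel N ξ γ y z) :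
    ⟪ξ, z ξ⟫_ℂ = ⟪ξ, y ξ⟫_ℂ := by
  obtain ⟨a, ha, ha0⟩ := hne
  have h1 := S.inner_Q hirr hz ha.1 ha.1
  have h2 : z (a ξ) = a (y ξ) := (congrArg (fun T : H →L[ℂ] H => T ξ) (h a ha)).symm
  rw [h2, ← inner_star_left] at h1
  have h3 := S.inner_Q hirr hy (a := star a * a) (b := 1) (mul_mem (star_mem ha.1) ha.1)
    (one_mem N)
  change ⟪(star a) (a ξ), y ξ⟫_ℂ = _ * ⟪(star a) (a ξ), ξ⟫_ℂ at h3
  rw [h3, inner_star_left] at h1
  have haξ : a ξ ≠ 0 := fun h0 => ha0 (S.sep a (S.le a ha.1) h0)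
  have h4 : ⟪a ξ, a ξ⟫_ℂ ≠ 0 := inner_self_ne_zero.2 haξ
  exact (mul_right_cancel₀ h4 h1).symm

lemma rel_norm {γ : ℝ} (hγ : γ ≠ 0) (hne : ∃ a ∈ eig N ξ γ, a ≠ 0) {y z : H →L[ℂ] H}
    (hy : y ∈ Qalg M N ξ) (hz : z ∈ Qalg M N ξ) (h : Rel N ξ γ y z) : ‖z ξ‖ = ‖y ξ‖ := by
  have h1 := S.rel_state hirr hne (mul_mem (star_mem hy) hy) (mul_mem (star_mem hz) hz)
    ((h.star' hirr hγ hne hz).mul h)
  change ⟪ξ, (star z) (z ξ)⟫_ℂ = ⟪ξ, (star y) (y ξ)⟫_ℂ at h1
  rw [inner_star_right, inner_star_right, inner_self_eq_norm_sq_to_K,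
    inner_self_eq_norm_sq_to_K] at h1
  have h2 : ‖z ξ‖ ^ 2 = ‖y ξ‖ ^ 2 := by exact_mod_cast h1
  exact (pow_left_inj₀ (norm_nonneg _) (norm_nonneg _) two_ne_zero).1 h2

end Setting

end Pool.Agent.Helper23

end

section

open scoped InnerProductSpace

open ContinuousLinearMap Filter

namespace Pool.Agent.Helper23

variable {H : Type*} [NormedAddCommGroup H] [InnerProductSpace ℂ H] [CompleteSpace H]

variable {M N : VonNeumannAlgebra H} {ξ : H} {E : (H →L[ℂ] H) → (H →L[ℂ] H)}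

open Classical in
/-- the transported element -/
noncomputable def al (M N : VonNeumannAlgebra H) (ξ : H) (γ : ℝ) (x : H →L[ℂ] H) : H →L[ℂ] H :=
  if h : γ ∈ Gam N ξ ∧ ∃ z ∈ Qalg M N ξ, Rel N ξ γ x z then h.2.choose else 0

end Pool.Agent.Helper23

end

section

open scoped InnerProductSpace BoundedContinuousFunction

open ContinuousLinearMap Filter

namespace Pool.Agent.Helper23

variable {H : Type*} [NormedAddCommGroup H] [InnerProductSpace ℂ H] [CompleteSpace H]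

variable {M N : VonNeumannAlgebra H} {ξ : H} {E : (H →L[ℂ] H) → (H →L[ℂ] H)}

/-- continuity at `1` of the transports of `x`. -/
def ContAt (M N : VonNeumannAlgebra H) (ξ : H) (x : H →L[ℂ] H) : Prop :=
  ∀ ε : ℝ, 0 < ε → ∃ η : ℝ, 0 < η ∧ ∀ γ ∈ Gam N ξ, |γ - 1| < η →
    ‖(al M N ξ γ x - x) ξ‖ ≤ ε

end Pool.Agent.Helper23

end

section

open scoped InnerProductSpace Topology

open ContinuousLinearMap Filter

namespace Pool.Agent.Helper23

variable {H : Type*} [NormedAddCommGroup H] [InnerProductSpace ℂ H] [CompleteSpace H]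

variable {M N : VonNeumannAlgebra H} {ξ : H} {E : (H →L[ℂ] H) → (H →L[ℂ] H)}

/-- continuous elements of `Q` -/
def InB (M N : VonNeumannAlgebra H) (ξ : H) (x : H →L[ℂ] H) : Prop :=
  x ∈ Qalg M N ξ ∧ Tendsto (fun γ => al M N ξ γ x ξ) (𝓝[Gam N ξ] 1) (𝓝 (x ξ))

lemma Gam_inv {γ : ℝ} (hγ : γ ∈ Gam N ξ) : γ⁻¹ ∈ Gam N ξ :=
  ⟨inv_pos.2 hγ.1, star_ne hγ.1.ne' hγ.2⟩

open Classical in
/-- the flow -/
noncomputable def bet (M N : VonNeumannAlgebra H) (ξ : H) (l : ℝ) (x : H →L[ℂ] H) : H →L[ℂ] H :=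
  if h : ∃ y ∈ Qalg M N ξ, Tendsto (fun γ => al M N ξ γ x ξ) (𝓝[Gam N ξ] l) (𝓝 (y ξ))
  then h.choose else 0

namespace AP

variable (S : AP M N E ξ)

include S

lemma Gam_mul {γ δ : ℝ} (hγ : γ ∈ Gam N ξ) (hδ : δ ∈ Gam N ξ) : γ * δ ∈ Gam N ξ := by
  obtain ⟨hγ0, a, ha, ha0⟩ := hγ
  refine ⟨mul_pos hγ0 hδ.1, ?_⟩
  by_contra hcon
  push Not at hcon
  apply ha0
  refine Rel.unique S.irr hδ.1.ne' hδ.2 fun b hb => ?_
  rw [hcon _ (eig_mul ha hb), zero_mul]

lemma one_mem_Gam : (1 : ℝ) ∈ Gam N ξ := by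
  refine ⟨one_pos, 1, one_mem_eig, fun h => ?_⟩
  have h1 : ξ = 0 := by
    have := congrArg (fun T : H →L[ℂ] H => T ξ) h
    simpa using this
  have h2 := S.norm_one
  rw [h1, norm_zero] at h2
  exact zero_ne_one h2

omit S in
lemma InB.contAt {x : H →L[ℂ] H} (h : InB M N ξ x) : ContAt M N ξ x := by
  intro ε hε
  have h1 := h.2
  rw [Metric.tendsto_nhdsWithin_nhds] at h1
  obtain ⟨η, hη, h2⟩ := h1 ε hε
  refine ⟨η, hη, fun γ hγ hγ' => ?_⟩
  have := h2 hγ (by rwa [Real.dist_eq])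
  rw [dist_eq_norm] at this
  rw [sub_apply]
  exact this.le

end AP

end Pool.Agent.Helper23

end

section

open scoped InnerProductSpace Topology ENNReal

open ContinuousLinearMap Filter MeasureTheory Polynomial

set_option linter.unusedSectionVars false

set_option linter.unusedVariables false

namespace Pool.Agent.Helper23

variable {H : Type*} [NormedAddCommGroup H] [InnerProductSpace ℂ H] [CompleteSpace H]

variable {M N : VonNeumannAlgebra H} {ξ : H} {E : (H →L[ℂ] H) → (H →L[ℂ] H)}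

/-- pairs of functions intertwined by `R` on cut off functions -/
def Itw (R : L2R ℂ →L[ℂ] L2R ℂ) (n : ℕ) (c c' : ℝ → ℂ) : Prop :=
  ∀ f f' : L2R ℂ, Pn n f = f → Pn n f' = f' →
    ⟪f', R (mulOp ℂ c f)⟫_ℂ = ⟪f', mulOp ℂ c' (R f)⟫_ℂ

/-- the map `R_a = (⟨aξ| ⊗ 1) u (|ξ⟩ ⊗ 1)` -/
noncomputable def RR (u : L2R H →L[ℂ] L2R H) (η ξ : H) : L2R ℂ →L[ℂ] L2R ℂ :=
  (adjoint (axi η)).comp (u.comp (axi ξ))

lemma inner_RR (u : L2R H →L[ℂ] L2R H) (η ξ : H) (f' f : L2R ℂ) :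
    ⟪f', RR u η ξ f⟫_ℂ = ⟪ten f' η, u (ten f ξ)⟫_ℂ := by
  change ⟪f', (adjoint (axi η)) (u (axi ξ f))⟫_ℂ = _
  rw [adjoint_inner_right]
  rfl

end Pool.Agent.Helper23

end

section

open scoped InnerProductSpace Topology ENNReal

open ContinuousLinearMap Filter MeasureTheory

namespace Pool.Agent.Helper23

variable {H : Type*} [NormedAddCommGroup H] [InnerProductSpace ℂ H] [CompleteSpace H]

variable {M N : VonNeumannAlgebra H} {ξ : H} {E : (H →L[ℂ] H) → (H →L[ℂ] H)}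

namespace AP

variable (S : AP M N E ξ)

include S

lemma Gam_pow {γ : ℝ} (hγ : γ ∈ Gam N ξ) (k : ℕ) : γ ^ k ∈ Gam N ξ := by
  induction k with
  | zero => rw [pow_zero]; exact S.one_mem_Gam
  | succ k ih => rw [pow_succ]; exact S.Gam_mul ih hγ

lemma Gam_zpow {γ : ℝ} (hγ : γ ∈ Gam N ξ) (k : ℤ) : γ ^ k ∈ Gam N ξ := by
  cases k with
  | ofNat k => exact S.Gam_pow hγ k
  | negSucc k =>
    rw [zpow_negSucc]
    exact Gam_inv (S.Gam_pow hγ _)

end AP

end Pool.Agent.Helper23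

end

section

open scoped InnerProductSpace Topology ENNReal BoundedContinuousFunction

open ContinuousLinearMap Filter MeasureTheory

namespace Pool.Agent.Helper23.ED

open Pool.Agent.Helper23 Pool.Agent.Helper23.RBF

open Pool.Agent.Helper78.BC.Transport (Sub r)

universe u

variable {H : Type*} [NormedAddCommGroup H] [InnerProductSpace ℂ H] [CompleteSpace H]

/-- the supremum of a bounded increasing sequence of a von Neumann algebra -/
theorem exists_sup {N : VonNeumannAlgebra H} {w : ℕ → H →L[ℂ] H} (hN : ∀ n, w n ∈ N)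
    (hw : ∀ n, 0 ≤ w n) (hm : Monotone w) {C : ℝ} (hC : ∀ n v, (⟪v, w n v⟫_ℂ).re ≤ C * ‖v‖ ^ 2) :
    ∃ B ∈ N, 0 ≤ B ∧ ∀ v, IsLUB (Set.range fun n => (⟪v, w n v⟫_ℂ).re) (⟪v, B v⟫_ℂ).re := by
  have hmv : ∀ v, Monotone fun n => (⟪v, w n v⟫_ℂ).re := fun v m n hmn => le_re_inner (hm hmn) v
  have hbd : ∀ v, BddAbove (Set.range fun n => (⟪v, w n v⟫_ℂ).re) := fun v =>
    ⟨C * ‖v‖ ^ 2, by rintro _ ⟨n, rfl⟩; exact hC n v⟩
  have hsq : ∀ m n, m ≤ n → ∀ v, ‖w n v - w m v‖ ^ 2 ≤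
      |C| * ((⟪v, w n v⟫_ℂ).re - (⟪v, w m v⟫_ℂ).re) := by
    intro m n hmn v
    have h0 : 0 ≤ w n - w m := sub_nonneg.2 (hm hmn)
    obtain ⟨S, hS⟩ := CStarAlgebra.nonneg_iff_eq_star_mul_self.1 h0
    have hn : ∀ x, ‖S x‖ ^ 2 = (⟪x, w n x⟫_ℂ).re - (⟪x, w m x⟫_ℂ).re := by
      intro x
      have h1 : (⟪x, (w n - w m) x⟫_ℂ) = ⟪S x, S x⟫_ℂ := by
        rw [hS]
        change ⟪x, (star S) (S x)⟫_ℂ = _
        rw [inner_star_right]
      rw [sub_apply, inner_sub_right, inner_self_eq_norm_sq_to_K] at h1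
      have h2 := congrArg Complex.re h1
      rw [Complex.sub_re] at h2
      rw [h2]
      norm_cast
    have hSC : ∀ x, ‖S x‖ ^ 2 ≤ |C| * ‖x‖ ^ 2 := by
      intro x
      rw [hn x]
      have h1 := hC n x
      have h2 := re_inner_nonneg (hw m) x
      have h3 : C * ‖x‖ ^ 2 ≤ |C| * ‖x‖ ^ 2 :=
        mul_le_mul_of_nonneg_right (le_abs_self C) (by positivity)
      linarith
    have hSn : ‖S‖ ≤ √|C| := by
      refine S.opNorm_le_bound (Real.sqrt_nonneg _) fun x => ?_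
      have h1 := hSC x
      rw [← Real.sqrt_sq (norm_nonneg (S x)), ← Real.sqrt_sq (norm_nonneg x),
        ← Real.sqrt_mul (abs_nonneg C)]
      exact Real.sqrt_le_sqrt h1
    have h2 : w n v - w m v = (star S) (S v) := by
      rw [← sub_apply, hS]; rfl
    rw [h2, ← hn v]
    have h3 : ‖(star S) (S v)‖ ≤ √|C| * ‖S v‖ := by
      refine ((star S).le_opNorm _).trans ?_
      rw [norm_star]
      gcongr
    calc ‖(star S) (S v)‖ ^ 2 ≤ (√|C| * ‖S v‖) ^ 2 := by gcongr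
      _ = |C| * ‖S v‖ ^ 2 := by rw [mul_pow, Real.sq_sqrt (abs_nonneg C)]
  have hconv : ∀ v, ∃ y, Tendsto (fun n => w n v) atTop (𝓝 y) := by
    intro v
    refine cauchySeq_tendsto_of_complete ?_
    rw [Metric.cauchySeq_iff']
    intro ε hε
    have h1 := (tendsto_atTop_ciSup (hmv v) (hbd v)).cauchySeq
    rw [Metric.cauchySeq_iff'] at h1
    obtain ⟨M, hM⟩ := h1 (ε ^ 2 / (|C| + 1)) (by positivity)
    refine ⟨M, fun n hn => ?_⟩
    have h2 := hM n hn
    rw [Real.dist_eq, abs_lt] at h2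
    have h3 := hsq M n hn v
    have h5 : |C| * ((⟪v, w n v⟫_ℂ).re - (⟪v, w M v⟫_ℂ).re) ≤ |C| * (ε ^ 2 / (|C| + 1)) :=
      mul_le_mul_of_nonneg_left h2.2.le (abs_nonneg C)
    have h6 : |C| * (ε ^ 2 / (|C| + 1)) < ε ^ 2 := by
      rw [← mul_div_assoc, div_lt_iff₀ (by positivity)]
      nlinarith [abs_nonneg C, pow_pos hε 2]
    rw [dist_eq_norm]
    exact lt_of_pow_lt_pow_left₀ 2 hε.le (by linarith)
  choose b hb using hconv
  have hb' : Tendsto (fun n x => w n x) atTop (𝓝 b) := tendsto_pi_nhds.2 hb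
  set B : H →L[ℂ] H := continuousLinearMapOfTendsto w hb' with hB
  have hBv : ∀ v, Tendsto (fun n => w n v) atTop (𝓝 (B v)) := hb
  have hin : ∀ v, Tendsto (fun n => (⟪v, w n v⟫_ℂ).re) atTop (𝓝 (⟪v, B v⟫_ℂ).re) := fun v =>
    (Complex.continuous_re.tendsto _).comp (tendsto_const_nhds.inner (hBv v))
  refine ⟨B, ?_, ?_, fun v => isLUB_of_tendsto_atTop (hmv v) (hin v)⟩
  · rw [mem_iff_commutes]
    intro g hg
    ext v
    change g (B v) = B (g v)
    refine tendsto_nhds_unique ((g.continuous.tendsto _).comp (hBv v)) ?_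
    refine (hBv (g v)).congr fun n => ?_
    exact commute_apply (hN n) hg v
  · rw [nonneg_iff_isPositive]
    refine ⟨fun x y => ?_, fun x => ?_⟩
    · refine tendsto_nhds_unique ((hBv x).inner tendsto_const_nhds) ?_
      refine (tendsto_const_nhds.inner (hBv y)).congr fun n => ?_
      exact (((nonneg_iff_isPositive _).1 (hw n)).inner_left_eq_inner_right x y).symm
    · have h1 : 0 ≤ (⟪x, B x⟫_ℂ).re :=
        ge_of_tendsto' (hin x) fun n => re_inner_nonneg (hw n) x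
      change 0 ≤ RCLike.re ⟪B x, x⟫_ℂ
      rw [inner_re_symm]
      exact h1

end Pool.Agent.Helper23.ED

end

section

open scoped InnerProductSpace Topology ENNReal BoundedContinuousFunction

open ContinuousLinearMap Filter MeasureTheory

namespace Pool.Agent.Helper23.ED

open Pool.Agent.Helper23 Pool.Agent.Helper23.RBF

open Pool.Agent.Helper78.BC.Transport (Sub r)

universe u

variable {H : Type u} [NormedAddCommGroup H] [InnerProductSpace ℂ H] [CompleteSpace H]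

variable {N : VonNeumannAlgebra H} {ψ : (H →L[ℂ] H) → ℝ≥0∞}

namespace WtC

lemma inner_star_mul (y : H →L[ℂ] H) (u : H) : (⟪u, (star y * y) u⟫_ℂ).re = ‖y u‖ ^ 2 := by
  change (⟪u, (star y) (y u)⟫_ℂ).re = _
  rw [inner_star_right, inner_self_eq_norm_sq_to_K]
  norm_cast

end WtC

open WtC

/-- the regularized supremum of an increasing sequence with bounded weights -/
theorem exists_reg (hψ : IsNSFWeight N ψ) {w : ℕ → H →L[ℂ] H} (hN : ∀ n, w n ∈ N)
    (hw : ∀ n, 0 ≤ w n) (hm : Monotone w) {δ : ℝ} (hδ : 0 < δ) :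
    ∃ B ∈ N, 0 ≤ B ∧ ψ B ≤ ⨆ n, ψ (w n) ∧
      ∀ v, IsLUB (Set.range fun n => (⟪v, fd δ (w n) v⟫_ℂ).re) (⟪v, B v⟫_ℂ).re := by
  have hmono : Monotone fun n => fd δ (w n) := fun m n hmn => fd_mono (hw m) (hm hmn) hδ
  obtain ⟨B, hB, hB0, hl⟩ := exists_sup (N := N) (w := fun n => fd δ (w n))
    (fun n => fd_mem (hN n) (hw n) hδ) (fun n => fd_nonneg (hw n) hδ) hmono (C := δ⁻¹)
    (fun n v => by
      have h1 := fd_var (hw n) hδ v 0
      simpa using h1)
  refine ⟨B, hB, hB0, ?_, hl⟩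
  rw [psi_sup hψ (fun n => fd_mem (hN n) (hw n) hδ) (fun n => fd_nonneg (hw n) hδ) hmono hB hl]
  exact iSup_mono fun n => wt_mono hψ (fd_mem (hN n) (hw n) hδ) (hN n) (fd_nonneg (hw n) hδ)
    (fd_le (hw n) hδ)

theorem weight_le (hψ : IsNSFWeight N ψ) {w : ℕ → H →L[ℂ] H} (hN : ∀ n, w n ∈ N)
    (hw : ∀ n, 0 ≤ w n) (hm : Monotone w) {y : H →L[ℂ] H} (hy : y ∈ N)
    (h : ∀ v, BddAbove (Set.range fun n => (⟪v, w n v⟫_ℂ).re) →
      ‖y v‖ ^ 2 ≤ ⨆ n, (⟪v, w n v⟫_ℂ).re) : ψ (star y * y) ≤ ⨆ n, ψ (w n) := by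
  have hyN : star y * y ∈ N := mul_mem (star_mem hy) hy
  have hy0 := star_mul_nonneg y
  have key : ∀ δ : ℝ, 0 < δ → ψ (fd δ (star y * y)) ≤ ⨆ n, ψ (w n) := by
    intro δ hδ
    obtain ⟨B, hB, hB0, hψB, hl⟩ := exists_reg hψ hN hw hm hδ
    have hle : fd δ (star y * y) ≤ B := by
      refine le_of_re (fd_nonneg hy0 hδ) hB0 fun v => ?_
      obtain ⟨u, hu, hmin⟩ := fd_min hw hm hδ v
      have h1 := fd_var hy0 hδ v u
      rw [inner_star_mul] at h1
      have h2 := h u hu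
      have h3 : ⨆ n, (⟪v, fd δ (w n) v⟫_ℂ).re = (⟪v, B v⟫_ℂ).re :=
        (hl v).csSup_eq (Set.range_nonempty _)
      linarith
    exact (wt_mono hψ (fd_mem hyN hy0 hδ) hB (fd_nonneg hy0 hδ) hle).trans hψB
  have hpos : ∀ n : ℕ, (0 : ℝ) < 1 / ((n : ℝ) + 1) := fun n => by positivity
  have hmono : Monotone fun n : ℕ => fd (1 / ((n : ℝ) + 1)) (star y * y) := by
    intro m n hmn
    refine fd_anti hy0 (hpos n) ?_
    have : (m : ℝ) ≤ n := by exact_mod_cast hmn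
    exact one_div_le_one_div_of_le (by positivity) (by linarith)
  rw [psi_sup hψ (g := fun n : ℕ => fd (1 / ((n : ℝ) + 1)) (star y * y))
    (fun n => fd_mem hyN hy0 (hpos n)) (fun n => fd_nonneg hy0 (hpos n)) hmono hyN
    (fd_lub hy0)]
  exact iSup_le fun n => key _ (hpos n)

end Pool.Agent.Helper23.ED

end

section

open scoped InnerProductSpace Topology ENNReal BoundedContinuousFunction

open ContinuousLinearMap Filter MeasureTheory

namespace Pool.Agent.Helper23.ED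

open Pool.Agent.Helper23 Pool.Agent.Helper23.RBF

open Pool.Agent.Helper78.BC.Transport (Sub r)

universe u

variable {H : Type u} [NormedAddCommGroup H] [InnerProductSpace ℂ H] [CompleteSpace H]

variable {K : Type u} [NormedAddCommGroup K] [InnerProductSpace ℂ K] [CompleteSpace K]

variable {L : Type u} [NormedAddCommGroup L] [InnerProductSpace ℂ L] [CompleteSpace L]

variable {N : VonNeumannAlgebra H} {ψ : (H →L[ℂ] H) → ℝ≥0∞} {ξ : H} {i : K →L[ℂ] H} {κ : K}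
  {Λ : (H →L[ℂ] H) → L} {ρ : (H →L[ℂ] H) → (L →L[ℂ] L)}

namespace WtD

lemma inc_mem {b : ℕ → H →L[ℂ] H} (hb : ∀ j, b j ∈ N) (k j : ℕ) : inc b k j ∈ N :=
  smul_mem' _ (base_mem hb (k + j))

lemma wseq_mem {b : ℕ → H →L[ℂ] H} (hb : ∀ j, b j ∈ N) (k n : ℕ) : wseq b k n ∈ N :=
  sum_mem fun j _ => inc_mem hb k j

lemma inc_form (b : ℕ → H →L[ℂ] H) (k j : ℕ) (v : H) :
    (⟪v, inc b k j v⟫_ℂ).re = 2 ^ (k + j + 1) * ‖star (b (k + j + 1) - b (k + j)) v‖ ^ 2 := by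
  have h1 : inc b k j v = ((((2 : ℝ) ^ (k + j + 1) : ℝ)) : ℂ) •
      ((b (k + j + 1) - b (k + j)) (star (b (k + j + 1) - b (k + j)) v)) := rfl
  rw [h1, inner_smul_right, ← inner_star_left, Complex.re_ofReal_mul]
  congr 1
  rw [inner_self_eq_norm_sq_to_K]
  norm_cast

lemma wseq_form (b : ℕ → H →L[ℂ] H) (k n : ℕ) (v : H) :
    (⟪v, wseq b k n v⟫_ℂ).re =
      ∑ j ∈ Finset.range n, 2 ^ (k + j + 1) * ‖star (b (k + j + 1) - b (k + j)) v‖ ^ 2 := by
  induction n with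
  | zero => simp [wseq]
  | succ n ih =>
    rw [wseq_succ, Finset.sum_range_succ, ← ih, ← inc_form, add_apply, inner_add_right,
      Complex.add_re]

lemma psi_wseq (hψ : IsNSFWeight N ψ) {b : ℕ → H →L[ℂ] H} (hb : ∀ j, b j ∈ N)
    (hc : ∀ j, ψ ((b (j + 1) - b j) * star (b (j + 1) - b j)) ≤
      ENNReal.ofReal ((1 / 4) ^ (j + 1))) (k n : ℕ) :
    ψ (wseq b k n) ≤ ENNReal.ofReal ((1 / 2) ^ k - (1 / 2) ^ (k + n)) := by
  induction n with
  | zero =>
    have h0 : wseq b k 0 = 0 := by simp [wseq]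
    rw [h0, wt_zero hψ]
    exact zero_le
  | succ n ih =>
    rw [wseq_succ, hψ.add _ (wseq_mem hb k n) _ (inc_mem hb k n) (wseq_nonneg b k n)
      (inc_nonneg b k n)]
    have h1 : ψ (inc b k n) ≤ ENNReal.ofReal ((1 / 2) ^ (k + n + 1)) := by
      rw [inc, hψ.smul _ (base_mem hb (k + n)) (mul_star_self_nonneg _) _ (by positivity)]
      refine (mul_le_mul_right (hc (k + n)) _).trans (le_of_eq ?_)
      rw [← ENNReal.ofReal_mul (by positivity), ← mul_pow]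
      norm_num
    have h2 : ((1 : ℝ) / 2) ^ k - (1 / 2) ^ (k + (n + 1)) =
        ((1 / 2) ^ k - (1 / 2) ^ (k + n)) + (1 / 2) ^ (k + n + 1) := by
      rw [← add_assoc, pow_succ ((1 : ℝ) / 2) (k + n)]
      ring
    have h3 : (0 : ℝ) ≤ (1 / 2) ^ k - (1 / 2) ^ (k + n) := by
      have : ((1 : ℝ) / 2) ^ (k + n) ≤ (1 / 2) ^ k :=
        pow_le_pow_of_le_one (by norm_num) (by norm_num) (by omega)
      linarith
    rw [h2, ENNReal.ofReal_add h3 (by positivity)]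
    exact add_le_add ih h1

lemma cs (b : ℕ → H →L[ℂ] H) (k n : ℕ) (v : H) :
    ‖star (b (k + n) - b k) v‖ ^ 2 ≤ (⟪v, wseq b k n v⟫_ℂ).re := by
  rw [wseq_form]
  set f : ℕ → ℝ := fun j => ‖star (b (k + j + 1) - b (k + j)) v‖ with hf
  set g : ℕ → ℝ := fun j => (1 / 2) ^ (k + j + 1) with hg
  have hg0 : ∀ j, 0 < g j := fun j => by simp only [hg]; positivity
  have h1 := Finset.sq_sum_div_le_sum_sq_div (Finset.range n) f (g := g) (fun j _ => hg0 j)
  have h2 : ∀ m : ℕ, ∑ j ∈ Finset.range m, g j ≤ (1 / 2) ^ k - (1 / 2) ^ (k + m) := by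
    intro m
    induction m with
    | zero => simp
    | succ m ih =>
      rw [Finset.sum_range_succ]
      have h3 : ((1 : ℝ) / 2) ^ (k + (m + 1)) = (1 / 2) ^ (k + m) / 2 := by
        rw [← add_assoc, pow_succ]; ring
      have h4 : g m = (1 / 2) ^ (k + m) / 2 := by
        simp only [hg]; rw [pow_succ]; ring
      rw [h3, h4]
      linarith
  have h5 : ∑ j ∈ Finset.range n, g j ≤ 1 := by
    have h6 := h2 n
    have h7 : ((1 : ℝ) / 2) ^ k ≤ 1 := pow_le_one₀ (by norm_num) (by norm_num)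
    have h8 : (0 : ℝ) ≤ (1 / 2) ^ (k + n) := by positivity
    linarith
  have h6 : ‖star (b (k + n) - b k) v‖ ^ 2 ≤ (∑ j ∈ Finset.range n, f j) ^ 2 :=
    pow_le_pow_left₀ (norm_nonneg _) (tele b k n v) 2
  have h7 : ∑ j ∈ Finset.range n, f j ^ 2 / g j =
      ∑ j ∈ Finset.range n, 2 ^ (k + j + 1) * f j ^ 2 := by
    refine Finset.sum_congr rfl fun j _ => ?_
    simp only [hg]
    rw [div_pow, one_pow, div_div_eq_mul_div, div_one, mul_comm]
  rw [h7] at h1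
  refine h6.trans ?_
  rcases Nat.eq_zero_or_pos n with hn | hn
  · subst hn; simp
  · have hs : 0 < ∑ j ∈ Finset.range n, g j :=
      Finset.sum_pos (fun j _ => hg0 j) ⟨0, Finset.mem_range.2 hn⟩
    rw [div_le_iff₀ hs] at h1
    refine h1.trans ?_
    have h9 : 0 ≤ ∑ j ∈ Finset.range n, 2 ^ (k + j + 1) * f j ^ 2 :=
      Finset.sum_nonneg fun j _ => by positivity
    exact mul_le_of_le_one_right h9 h5

/-- the bound for the limit -/
lemma lim_bound (hsep : ∀ a ∈ N, a ξ = 0 → a = 0) {b : ℕ → H →L[ℂ] H} (hb : ∀ j, b j ∈ N)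
    {a : H →L[ℂ] H} (ha : a ∈ N) (hlim : Tendsto (fun n => b n ξ) atTop (𝓝 (a ξ))) (k : ℕ)
    (v : H) {C : ℝ} (hC : ∀ n, ‖star (b (k + n) - b k) v‖ ^ 2 ≤ C) :
    ‖star (a - b k) v‖ ^ 2 ≤ C := by
  have hC0 : 0 ≤ C := (sq_nonneg _).trans (hC 0)
  have hC' : ∀ n, ‖star (b (k + n) - b k) v‖ ≤ √C := fun n =>
    Real.le_sqrt_of_sq_le (hC n)
  have hd := dense_of_separating N ξ hsep
  -- the functional is bounded on a dense set
  have h1 : ∀ η ∈ (orb N.commutant ξ : Set H), ‖⟪star (a - b k) v, η⟫_ℂ‖ ≤ √C * ‖η‖ := by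
    rintro _ ⟨c, hc, rfl⟩
    have e1 : ∀ x ∈ N, ⟪star (x - b k) v, c ξ⟫_ℂ = ⟪v, c (x ξ)⟫_ℂ - ⟪v, c ((b k) ξ)⟫_ℂ := by
      intro x hx
      rw [inner_star_left, sub_apply, inner_sub_right, commute_apply hx hc,
        commute_apply (hb k) hc]
    have e2 : Tendsto (fun n => ⟪star (b (k + n) - b k) v, c ξ⟫_ℂ) atTop
        (𝓝 ⟪star (a - b k) v, c ξ⟫_ℂ) := by
      rw [e1 a ha]
      have e3 : (fun n => ⟪star (b (k + n) - b k) v, c ξ⟫_ℂ) =
          fun n => ⟪v, c (b (k + n) ξ)⟫_ℂ - ⟪v, c ((b k) ξ)⟫_ℂ := by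
        funext n
        exact e1 _ (hb _)
      rw [e3]
      refine Tendsto.sub_const ?_ _
      have e4 : Tendsto (fun n => b (k + n) ξ) atTop (𝓝 (a ξ)) := by
        have := (tendsto_add_atTop_iff_nat (f := fun n => b n ξ) k).2 hlim
        refine this.congr fun n => ?_
        rw [add_comm]
      exact tendsto_const_nhds.inner ((c.continuous.tendsto _).comp e4)
    refine le_of_tendsto e2.norm (Eventually.of_forall fun n => ?_)
    refine (norm_inner_le_norm _ _).trans ?_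
    exact mul_le_mul_of_nonneg_right (hC' n) (norm_nonneg _)
  have h2 : ∀ η : H, ‖⟪star (a - b k) v, η⟫_ℂ‖ ≤ √C * ‖η‖ := by
    have hcl : IsClosed {η : H | ‖⟪star (a - b k) v, η⟫_ℂ‖ ≤ √C * ‖η‖} :=
      isClosed_le (by fun_prop) (by fun_prop)
    intro η
    exact closure_minimal h1 hcl (hd η)
  have h3 := h2 (star (a - b k) v)
  rw [inner_self_eq_norm_sq_to_K] at h3
  have h4 : ‖((‖star (a - b k) v‖ : ℝ) : ℂ) ^ 2‖ = ‖star (a - b k) v‖ ^ 2 := by
    rw [norm_pow, Complex.norm_real, norm_norm]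
  have h5 : ‖star (a - b k) v‖ ^ 2 ≤ √C * ‖star (a - b k) v‖ := by
    rw [← h4]
    exact h3
  have h6 : ‖star (a - b k) v‖ ≤ √C := by
    by_contra hcon
    push Not at hcon
    have : 0 < ‖star (a - b k) v‖ := (Real.sqrt_nonneg C).trans_lt hcon
    nlinarith
  calc ‖star (a - b k) v‖ ^ 2 ≤ √C ^ 2 := pow_le_pow_left₀ (norm_nonneg _) h6 2
    _ = C := Real.sq_sqrt hC0

/-- the main step: a fast sequence in the domain -/
lemma main (hsep : ∀ a ∈ N, a ξ = 0 → a = 0) (hψ : IsNSFWeight N ψ) {b : ℕ → H →L[ℂ] H}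
    (hb : ∀ j, b j ∈ N)
    (hc : ∀ j, ψ ((b (j + 1) - b j) * star (b (j + 1) - b j)) ≤
      ENNReal.ofReal ((1 / 4) ^ (j + 1)))
    {a : H →L[ℂ] H} (ha : a ∈ N) (hlim : Tendsto (fun n => b n ξ) atTop (𝓝 (a ξ))) (k : ℕ) :
    ψ ((a - b k) * star (a - b k)) ≤ ENNReal.ofReal ((1 / 2) ^ k) := by
  have h1 := weight_le hψ (w := wseq b k) (wseq_mem hb k) (wseq_nonneg b k) (wseq_mono b k)
    (y := star (a - b k)) (star_mem (sub_mem ha (hb k))) (by
      intro v hv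
      refine lim_bound hsep hb ha hlim k v fun n => ?_
      exact (cs b k n v).trans (le_ciSup hv n))
  rw [star_star] at h1
  refine h1.trans (iSup_le fun n => (psi_wseq hψ hb hc k n).trans ?_)
  refine ENNReal.ofReal_le_ofReal ?_
  have : (0 : ℝ) ≤ (1 / 2) ^ (k + n) := by positivity
  linarith

end WtD

theorem Gp_snd (Sb : Sub N ξ i κ) (hsep : ∀ a ∈ N, a ξ = 0 → a = 0) (hψ : IsNSFWeight N ψ)
    (hG : Gns N ψ Λ ρ) {p : K × L} (hp : p ∈ closure (Gp N ψ ξ i Λ)) {a : H →L[ℂ] H}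
    (ha : a ∈ N) (h1 : i p.1 = a ξ) : a ∈ Dm N ψ ∧ p.2 = Λ a := by
  have _ := Sb
  -- a fast sequence
  have hex : ∀ j : ℕ, ∃ q ∈ Gp N ψ ξ i Λ, dist p q < (1 / 2) ^ (j + 2) := fun j =>
    Metric.mem_closure_iff.1 hp _ (by positivity)
  choose q hq hqd using hex
  choose b hbD hb1 hb2 using hq
  have hbN : ∀ j, b j ∈ N := fun j => (hbD j).1
  -- differences are in the domain
  have hneg : ∀ j, (-1 : ℂ) • b j ∈ Dm N ψ := fun j => Dm_smul hψ (-1) (hbD j)
  have hdiff : ∀ x ∈ Dm N ψ, ∀ y ∈ Dm N ψ, x - y ∈ Dm N ψ ∧ Λ (x - y) = Λ x - Λ y := by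
    intro x hx y hy
    have hy' := Dm_smul hψ (-1) hy
    have e : x - y = x + (-1 : ℂ) • y := by rw [neg_one_smul, sub_eq_add_neg]
    refine ⟨by rw [e]; exact Dm_add hψ hx hy', ?_⟩
    rw [e, hG.add x hx _ hy', hG.smul (-1) y hy, neg_one_smul, sub_eq_add_neg]
  have hpsi : ∀ x ∈ Dm N ψ, ∀ C : ℝ, ‖Λ x‖ ^ 2 ≤ C → ψ (x * star x) ≤ ENNReal.ofReal C := by
    intro x hx C hC
    rw [hG.norm x hx] at hC
    rw [← ENNReal.ofReal_toReal hx.2]
    exact ENNReal.ofReal_le_ofReal hC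
  have hLd : ∀ j, ‖p.2 - Λ (b j)‖ ≤ (1 / 2) ^ (j + 2) := by
    intro j
    rw [← hb2 j, ← dist_eq_norm]
    exact (le_max_right (dist p.1 (q j).1) (dist p.2 (q j).2)).trans (hqd j).le
  have hKd : ∀ j, ‖p.1 - (q j).1‖ ≤ (1 / 2) ^ (j + 2) := by
    intro j
    rw [← dist_eq_norm]
    exact (le_max_left (dist p.1 (q j).1) (dist p.2 (q j).2)).trans (hqd j).le
  have hc : ∀ j, ψ ((b (j + 1) - b j) * star (b (j + 1) - b j)) ≤
      ENNReal.ofReal ((1 / 4) ^ (j + 1)) := by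
    intro j
    obtain ⟨hd1, hd2⟩ := hdiff _ (hbD (j + 1)) _ (hbD j)
    refine hpsi _ hd1 _ ?_
    rw [hd2]
    have e1 : ‖Λ (b (j + 1)) - Λ (b j)‖ ≤ (1 / 2) ^ (j + 1) := by
      have e2 : Λ (b (j + 1)) - Λ (b j) = (p.2 - Λ (b j)) - (p.2 - Λ (b (j + 1))) := by abel
      rw [e2]
      refine (norm_sub_le _ _).trans ?_
      have e3 := hLd j
      have e4 := hLd (j + 1)
      have e5 : ((1 : ℝ) / 2) ^ (j + 1 + 2) ≤ (1 / 2) ^ (j + 2) :=
        pow_le_pow_of_le_one (by norm_num) (by norm_num) (by omega)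
      have e6 : ((1 : ℝ) / 2) ^ (j + 2) = (1 / 2) ^ (j + 1) / 2 := by
        rw [pow_succ _ (j + 1)]; ring
      linarith
    calc ‖Λ (b (j + 1)) - Λ (b j)‖ ^ 2 ≤ ((1 / 2) ^ (j + 1)) ^ 2 :=
          pow_le_pow_left₀ (norm_nonneg _) e1 2
      _ = (1 / 4) ^ (j + 1) := by
          rw [← pow_mul, mul_comm, pow_mul]; norm_num
  have hpow : Tendsto (fun j : ℕ => ((1 : ℝ) / 2) ^ (j + 2)) atTop (𝓝 0) := by
    have := tendsto_pow_atTop_nhds_zero_of_lt_one (r := (1 : ℝ) / 2) (by norm_num) (by norm_num)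
    exact (tendsto_add_atTop_iff_nat 2).2 this
  have hlim : Tendsto (fun n => b n ξ) atTop (𝓝 (a ξ)) := by
    have e1 : Tendsto (fun n => (q n).1) atTop (𝓝 p.1) := by
      rw [tendsto_iff_norm_sub_tendsto_zero]
      refine squeeze_zero (fun n => norm_nonneg _) (fun n => ?_) hpow
      rw [norm_sub_rev]
      exact hKd n
    have e2 := (i.continuous.tendsto _).comp e1
    rw [h1] at e2
    refine e2.congr fun n => ?_
    exact hb1 n
  have hmain := WtD.main hsep hψ hbN hc ha hlim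
  have hDk : ∀ k, a - b k ∈ Dm N ψ := fun k =>
    ⟨sub_mem ha (hbN k), ne_top_of_le_ne_top ENNReal.ofReal_ne_top (hmain k)⟩
  have haD : a ∈ Dm N ψ := by
    have := Dm_add hψ (hDk 0) (hbD 0)
    rwa [sub_add_cancel] at this
  refine ⟨haD, ?_⟩
  have hn : ∀ k, ‖Λ a - Λ (b k)‖ ^ 2 ≤ (1 / 2) ^ k := by
    intro k
    rw [← (hdiff _ haD _ (hbD k)).2, hG.norm _ (hDk k)]
    exact ENNReal.toReal_le_of_le_ofReal (by positivity) (hmain k)
  have hL1 : Tendsto (fun k => Λ (b k)) atTop (𝓝 (Λ a)) := by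
    rw [tendsto_iff_norm_sub_tendsto_zero]
    have e1 : Tendsto (fun k : ℕ => √(((1 : ℝ) / 2) ^ k)) atTop (𝓝 0) := by
      have := tendsto_pow_atTop_nhds_zero_of_lt_one (r := (1 : ℝ) / 2) (by norm_num)
        (by norm_num)
      have h := (Real.continuous_sqrt.tendsto 0).comp this
      rw [Real.sqrt_zero] at h
      exact h
    refine squeeze_zero (fun n => norm_nonneg _) (fun n => ?_) e1
    rw [norm_sub_rev]
    exact Real.le_sqrt_of_sq_le (hn n)
  have hL2 : Tendsto (fun k => Λ (b k)) atTop (𝓝 p.2) := by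
    rw [tendsto_iff_norm_sub_tendsto_zero]
    refine squeeze_zero (fun n => norm_nonneg _) (fun n => ?_) hpow
    rw [norm_sub_rev]
    exact hLd n
  exact tendsto_nhds_unique hL2 hL1

theorem Gp_zero (Sb : Sub N ξ i κ) (hsep : ∀ a ∈ N, a ξ = 0 → a = 0) (hψ : IsNSFWeight N ψ)
    (hG : Gns N ψ Λ ρ) {w : L} (hw : ((0, w) : K × L) ∈ closure (Gp N ψ ξ i Λ)) : w = 0 := by
  have h := Gp_snd Sb hsep hψ hG hw (a := 0) (zero_mem N) (by simp)
  have h2 := hG.smul 0 0 h.1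
  rw [zero_smul, zero_smul] at h2
  rw [← h2]
  exact h.2

end Pool.Agent.Helper23.ED

end

section

open scoped InnerProductSpace Topology ENNReal BoundedContinuousFunction

open ContinuousLinearMap Filter MeasureTheory

namespace Pool.Agent.Helper23.ED

open Pool.Agent.Helper23 Pool.Agent.Helper23.RBF

open Pool.Agent.Helper78.BC.Transport (Sub r)

universe u

variable {H : Type u} [NormedAddCommGroup H] [InnerProductSpace ℂ H] [CompleteSpace H]

variable {K : Type u} [NormedAddCommGroup K] [InnerProductSpace ℂ K] [CompleteSpace K]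

variable {L : Type u} [NormedAddCommGroup L] [InnerProductSpace ℂ L] [CompleteSpace L]

variable {N : VonNeumannAlgebra H} {ψ : (H →L[ℂ] H) → ℝ≥0∞} {ξ : H} {i : K →L[ℂ] H} {κ : K}
  {Λ : (H →L[ℂ] H) → L} {ρ : (H →L[ℂ] H) → (L →L[ℂ] L)}

open WtE in
theorem Gp_zero' (Sb : Sub N ξ i κ) (hψ : IsNSFWeight N ψ) (hG : Gns N ψ Λ ρ) {v : K}
    (hv : ((v, 0) : K × L) ∈ closure (Gp N ψ ξ i Λ)) : v = 0 := by
  -- the approximating sequence
  choose p hp hd using fun k : ℕ => Metric.mem_closure_iff.1 hv ((1 / 8 : ℝ) ^ k) (by positivity)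
  choose a ha hia hpa using hp
  have hd1 : ∀ k, dist v (p k).1 < (1 / 8 : ℝ) ^ k := fun k =>
    lt_of_le_of_lt (le_max_left _ _) (hd k)
  have hd2 : ∀ k, ‖Λ (a k)‖ ^ 2 ≤ (1 / 8 : ℝ) ^ k := by
    intro k
    have h1 : dist (0 : L) (p k).2 < (1 / 8 : ℝ) ^ k := lt_of_le_of_lt (le_max_right _ _) (hd k)
    rw [hpa, dist_zero_left] at h1
    have h2 : (1 / 8 : ℝ) ^ k ≤ 1 := pow_le_one₀ (by norm_num) (by norm_num)
    have h3 : 0 ≤ ‖Λ (a k)‖ := norm_nonneg _
    nlinarith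
  have haN : ∀ j, a j ∈ N := fun j => (ha j).1
  -- the regularizations
  choose g hgN hg0 hgψ hgl using fun k : ℕ =>
    exists_reg hψ (w_mem haN k) (w_nonneg a k) (w_mono a k) one_pos
  have hgψ' : ∀ k, ψ (g k) ≤ ENNReal.ofReal (3 * (1 / 4 : ℝ) ^ k) := by
    intro k
    refine (hgψ k).trans (iSup_le fun n => ?_)
    exact (w_psi hψ hG ha hd2 k n).trans (ENNReal.ofReal_le_ofReal (geo k n))
  have hganti : ∀ {k l : ℕ}, k ≤ l → g l ≤ g k := by
    intro k l hkl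
    refine le_of_re (hg0 l) (hg0 k) fun v => ?_
    refine (hgl l v).2 ?_
    rintro _ ⟨n, rfl⟩
    refine (re_mono (fd_mono (w_nonneg a l n) (w_anti a hkl n) one_pos) v).trans ?_
    exact (hgl k v).1 ⟨n, rfl⟩
  have hGmono : Monotone fun k => g 0 - g k := fun k l hkl => sub_le_sub_left (hganti hkl) _
  have hG0 : ∀ k, 0 ≤ g 0 - g k := fun k => sub_nonneg.2 (hganti (Nat.zero_le k))
  obtain ⟨B, hBN, hB0, hBl⟩ := exists_sup (N := N) (w := fun k => g 0 - g k)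
    (fun k => sub_mem (hgN 0) (hgN k)) hG0 hGmono (C := ‖g 0‖) (by
      intro n v
      have h1 : (g 0 - g n : H →L[ℂ] H) ≤ g 0 := sub_le_self _ (hg0 n)
      refine (re_mono h1 v).trans ?_
      calc (⟪v, g 0 v⟫_ℂ).re ≤ ‖⟪v, g 0 v⟫_ℂ‖ := Complex.re_le_norm _
        _ ≤ ‖v‖ * ‖g 0 v‖ := norm_inner_le_norm _ _
        _ ≤ ‖v‖ * (‖g 0‖ * ‖v‖) := by gcongr; exact (g 0).le_opNorm v
        _ = ‖g 0‖ * ‖v‖ ^ 2 := by ring)
  have hBg : B ≤ g 0 := by
    refine le_of_re hB0 (hg0 0) fun v => (hBl v).2 ?_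
    rintro _ ⟨n, rfl⟩
    exact re_mono (sub_le_self _ (hg0 n)) v
  have hgi0 : 0 ≤ g 0 - B := sub_nonneg.2 hBg
  have hgile : ∀ k, g 0 - B ≤ g k := by
    intro k
    refine le_of_re hgi0 (hg0 k) fun v => ?_
    have h1 := (hBl v).1 ⟨k, rfl⟩
    simp only [sub_apply, inner_sub_right, Complex.sub_re] at h1 ⊢
    linarith
  have hgiψ : ψ (g 0 - B) = 0 := by
    have h1 : ∀ k : ℕ, ψ (g 0 - B) ≤ ENNReal.ofReal (3 * (1 / 4 : ℝ) ^ k) := fun k =>
      (wt_mono hψ (sub_mem (hgN 0) hBN) (hgN k) hgi0 (hgile k)).trans (hgψ' k)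
    have h2 : Tendsto (fun k : ℕ => ENNReal.ofReal (3 * (1 / 4 : ℝ) ^ k)) atTop (𝓝 0) := by
      have h3 : Tendsto (fun k : ℕ => 3 * (1 / 4 : ℝ) ^ k) atTop (𝓝 (3 * 0)) :=
        (tendsto_pow_atTop_nhds_zero_of_lt_one (by norm_num) (by norm_num)).const_mul 3
      have h4 := ENNReal.tendsto_ofReal h3
      simpa using h4
    exact le_antisymm (ge_of_tendsto' h2 h1) bot_le
  have hgi : g 0 - B = 0 := hψ.faithful _ (sub_mem (hgN 0) hBN) hgi0 hgiψ
  have hBeq : B = g 0 := (sub_eq_zero.1 hgi).symm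
  -- convergence of the quadratic forms
  have hlim : ∀ h : H, Tendsto (fun k => (⟪h, g k h⟫_ℂ).re) atTop (𝓝 0) := by
    intro h
    have hm : Monotone fun k => (⟪h, (g 0 - g k) h⟫_ℂ).re := fun k l hkl =>
      re_mono (hGmono hkl) h
    have h1 := tendsto_atTop_isLUB hm (hBl h)
    rw [hBeq] at h1
    have h2 := (tendsto_const_nhds (x := (⟪h, g 0 h⟫_ℂ).re)).sub h1
    rw [sub_self] at h2
    refine h2.congr fun k => ?_
    rw [sub_apply, inner_sub_right, Complex.sub_re]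
    ring
  -- the vectors `v_k` converge
  have hpv : Tendsto (fun j => (p j).1) atTop (𝓝 v) := by
    rw [tendsto_iff_dist_tendsto_zero]
    refine squeeze_zero (fun j => dist_nonneg) (fun j => ?_)
      (tendsto_pow_atTop_nhds_zero_of_lt_one (by norm_num : (0 : ℝ) ≤ 1 / 8) (by norm_num))
    rw [dist_comm]
    exact (hd1 j).le
  have hort : ∀ h : H, ⟪h, i v⟫_ℂ = 0 := by
    intro h
    choose u hub hu using fun k : ℕ => fd_min (w_nonneg a k) (w_mono a k) one_pos h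
    have hu1 : ∀ k, ‖h - u k‖ ^ 2 ≤ (⟪h, g k h⟫_ℂ).re := by
      intro k
      have h1 := hu k
      rw [(hgl k h).ciSup_eq, inv_one, one_mul] at h1
      have h2 : 0 ≤ ⨆ n, (⟪u k, w a k n (u k)⟫_ℂ).re := by
        refine Real.iSup_nonneg fun n => ?_
        have := re_mono (w_nonneg a k n) (u k)
        simpa using this
      linarith
    have hu2 : Tendsto u atTop (𝓝 h) := by
      rw [tendsto_iff_norm_sub_tendsto_zero]
      have h1 : Tendsto (fun k => ‖h - u k‖ ^ 2) atTop (𝓝 0) :=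
        squeeze_zero (fun k => sq_nonneg _) hu1 (hlim h)
      have h2 := h1.sqrt
      rw [Real.sqrt_zero] at h2
      refine h2.congr fun k => ?_
      rw [Real.sqrt_sq (norm_nonneg _), norm_sub_rev]
    have hu3 : ∀ k, ⟪u k, i v⟫_ℂ = 0 := by
      intro k
      obtain ⟨C, hC⟩ := hub k
      have h1 : ∀ j, k ≤ j → ‖(star (a j)) (u k)‖ ^ 2 ≤ C * (1 / 2 : ℝ) ^ (j + 1) := by
        intro j hj
        have h2 := (term_le a hj (u k)).trans (hC ⟨j + 1, rfl⟩)
        have h3 : (1 / 2 : ℝ) ^ (j + 1) * 2 ^ (j + 1) = 1 := by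
          rw [← mul_pow]; norm_num
        calc ‖(star (a j)) (u k)‖ ^ 2 =
            (2 ^ (j + 1) * ‖(star (a j)) (u k)‖ ^ 2) * (1 / 2) ^ (j + 1) := by
              linear_combination -(‖(star (a j)) (u k)‖ ^ 2) * h3
          _ ≤ C * (1 / 2 : ℝ) ^ (j + 1) := by gcongr
      have h4 : Tendsto (fun j => ‖(star (a j)) (u k)‖ ^ 2) atTop (𝓝 0) := by
        have h5 : Tendsto (fun j : ℕ => C * (1 / 2 : ℝ) ^ (j + 1)) atTop (𝓝 0) := by
          have h6 := ((tendsto_pow_atTop_nhds_zero_of_lt_one (by norm_num : (0 : ℝ) ≤ 1 / 2)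
            (by norm_num)).comp (tendsto_add_atTop_nat 1)).const_mul C
          rw [mul_zero] at h6
          exact h6
        refine tendsto_of_tendsto_of_tendsto_of_le_of_le' tendsto_const_nhds h5
          (Eventually.of_forall fun j => sq_nonneg _) ?_
        filter_upwards [eventually_ge_atTop k] with j hj using h1 j hj
      have h7 : Tendsto (fun j => (star (a j)) (u k)) atTop (𝓝 0) := by
        rw [tendsto_zero_iff_norm_tendsto_zero]
        have h8 := h4.sqrt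
        rw [Real.sqrt_zero] at h8
        refine h8.congr fun j => ?_
        rw [Real.sqrt_sq (norm_nonneg _)]
      have h9 : Tendsto (fun j => ⟪(star (a j)) (u k), ξ⟫_ℂ) atTop (𝓝 0) := by
        have := h7.inner (𝕜 := ℂ) (tendsto_const_nhds (x := ξ))
        rwa [inner_zero_left] at this
      have h10 : Tendsto (fun j => ⟪u k, i (p j).1⟫_ℂ) atTop (𝓝 ⟪u k, i v⟫_ℂ) :=
        (tendsto_const_nhds (x := u k)).inner ((i.continuous.tendsto v).comp hpv)
      refine tendsto_nhds_unique h10 (h9.congr fun j => ?_)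
      rw [hia, ContinuousLinearMap.star_eq_adjoint, adjoint_inner_left]
    have h11 : Tendsto (fun k => ⟪u k, i v⟫_ℂ) atTop (𝓝 ⟪h, i v⟫_ℂ) :=
      hu2.inner tendsto_const_nhds
    refine tendsto_nhds_unique h11 ?_
    simp only [hu3]
    exact tendsto_const_nhds
  have hiv : i v = 0 := inner_self_eq_zero.1 (hort (i v))
  exact Sb.i_inj (by rw [hiv, map_zero])

end Pool.Agent.Helper23.ED

end
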