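import Pool.Agent.Helper23.FA.Ns
import Pool.Agent.Helper23.FA.L00_00
import Pool.Agent.Helper23.FA.L00_01
import Pool.Agent.Helper23.FA.L00_02
import Pool.Agent.Helper23.FA.L00_11
import Pool.Agent.Helper23.FA.L00_15
import Pool.Agent.Helper23.FA.L00_16
import Pool.Agent.Helper23.FA.L00_17
import Pool.Agent.Helper23.FA.L00_18

/-!
Parts of Helper23.Dom2, Helper75.UDom, Helper78.BC.StdEx, Helper88.CS.Polar, Helper88.CS.Step
-/

section

open scoped InnerProductSpace ComplexOrder ComplexStarModule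

open ContinuousLinearMap

namespace Pool.Agent.Helper23

variable {H : Type*} [NormedAddCommGroup H] [InnerProductSpace ℂ H] [CompleteSpace H]

section Abstract

variable {A : Type*} [CStarAlgebra A]

lemma vecL_star_mul (ρ : A →⋆ₐ[ℂ] (H →L[ℂ] H)) (ξ : H) (x : A) :
    vecL ρ ξ (star x * x) = ((‖ρ x ξ‖ ^ 2 : ℝ) : ℂ) := by
  change ⟪ξ, ρ (star x * x) ξ⟫_ℂ = _
  rw [map_mul, map_star]
  change ⟪ξ, (star (ρ x)) (ρ x ξ)⟫_ℂ = _
  rw [← norm_sq_apply]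

end Abstract

end Pool.Agent.Helper23

end

section

open scoped InnerProductSpace ComplexOrder ComplexStarModule

open ContinuousLinearMap

namespace Pool.Agent.Helper23

variable {H : Type*} [NormedAddCommGroup H] [InnerProductSpace ℂ H] [CompleteSpace H]

section Abstract

variable {A : Type*} [CStarAlgebra A] [PartialOrder A] [StarOrderedRing A]

/-- One-sided domination. -/
theorem exists_dom_abs [Nontrivial A] (ρ : A →⋆ₐ[ℂ] (H →L[ℂ] H)) {ξ η : H}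
    {l δ : ℝ} (hl : 0 ≤ l) (hδ : 0 ≤ δ)
    (h : ∀ x : A, 0 ≤ x → (⟪η, ρ x η⟫_ℂ).re ≤ l * (⟪ξ, ρ x ξ⟫_ℂ).re + δ * ‖x‖) :
    ∃ y : H →L[ℂ] H, (∀ a, ρ a * y = y * ρ a) ∧ ‖y‖ ≤ Real.sqrt l ∧ ‖y ξ - η‖ ^ 2 ≤ δ := by
  have hpos : ∀ (ζ : H) (x : A), 0 ≤ x → 0 ≤ (vecL ρ ζ x).re ∧ (vecL ρ ζ x).im = 0 := by
    intro ζ x hx
    obtain ⟨b, rfl⟩ := CStarAlgebra.nonneg_iff_eq_star_mul_self.1 hx
    rw [vecL_star_mul]
    exact ⟨by rw [Complex.ofReal_re]; positivity, Complex.ofReal_im _⟩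
  let ψ : selfAdjoint A →ₗ[ℝ] ℝ :=
    { toFun := fun x => (vecL ρ η (x : A)).re - l * (vecL ρ ξ (x : A)).re
      map_add' := by
        intro x y
        have : ((x + y : selfAdjoint A) : A) = (x : A) + (y : A) := rfl
        rw [this, map_add, map_add, Complex.add_re, Complex.add_re]
        ring
      map_smul' := by
        intro c x
        have : ((c • x : selfAdjoint A) : A) = (c : ℂ) • (x : A) := by
          rw [Complex.coe_smul]; rfl
        rw [this, map_smul, map_smul]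
        simp only [smul_eq_mul, Complex.re_ofReal_mul, RingHom.id_apply]
        ring }
  have hψ : ∀ x : selfAdjoint A, ψ x = (vecL ρ η (x : A)).re - l * (vecL ρ ξ (x : A)).re :=
    fun x => rfl
  obtain ⟨κ, hκ0, hκ1, hκ2⟩ := exists_jordan_one ψ (δ := δ) (by
      intro x hx
      rw [hψ]
      have h1 := h (x : A) hx
      have h2 : ‖x‖ = ‖(x : A)‖ := rfl
      rw [h2]
      change (⟪η, ρ (x : A) η⟫_ℂ).re - l * (⟪ξ, ρ (x : A) ξ⟫_ℂ).re ≤ _
      linarith) hδ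
  have hκx : ∀ (x : A) (hx : 0 ≤ x), cplx κ x = ((κ ⟨x, (IsSelfAdjoint.of_nonneg hx)⟩ : ℝ) : ℂ) :=
    fun x hx => cplx_sa κ ⟨x, (IsSelfAdjoint.of_nonneg hx)⟩
  have hre : ∀ (ζ : H) (x : A), 0 ≤ x → vecL ρ ζ x = (((vecL ρ ζ x).re : ℝ) : ℂ) := by
    intro ζ x hx
    apply Complex.ext
    · simp
    · simp [(hpos ζ x hx).2]
  let χ : A →ₚ[ℂ] ℂ := PositiveLinearMap.mk₀ ((l : ℂ) • vecL ρ ξ + cplx κ) (by
    intro x hx
    rw [LinearMap.add_apply, hκx x hx, LinearMap.smul_apply, hre ξ x hx, smul_eq_mul,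
      ← Complex.ofReal_mul, ← Complex.ofReal_add, Complex.zero_le_real]
    exact add_nonneg (mul_nonneg hl (hpos ξ x hx).1) (hκ0 _ hx))
  have hχ : ∀ x, χ x = (l : ℂ) * vecL ρ ξ x + cplx κ x := fun x => rfl
  have hχre : ∀ (x : A) (hx : 0 ≤ x), (χ x).re = l * (vecL ρ ξ x).re +
      κ ⟨x, (IsSelfAdjoint.of_nonneg hx)⟩ := by
    intro x hx
    rw [hχ, Complex.add_re, hκx x hx, Complex.ofReal_re, Complex.re_ofReal_mul]
  set s : ℝ := Real.sqrt l with hs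
  have hs2 : s ^ 2 = l := Real.sq_sqrt hl
  have hs0 : 0 ≤ s := Real.sqrt_nonneg l
  obtain ⟨T, hT, hT1, hTρ⟩ := exists_gns_op ρ ((s : ℂ) • ξ) χ (by
    intro x
    rw [hχre _ (star_mul_self_nonneg x), vecL_star_mul, Complex.ofReal_re, map_smul, norm_smul,
      mul_pow, Complex.norm_real, Real.norm_of_nonneg hs0, hs2]
    have := hκ0 ⟨star x * x, IsSelfAdjoint.of_nonneg (star_mul_self_nonneg x)⟩
      (star_mul_self_nonneg x)
    linarith)
  obtain ⟨U, hU, hU1, hUρ⟩ := exists_gns_op ρ η χ (by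
    intro x
    rw [hχre _ (star_mul_self_nonneg x)]
    have := hκ1 ⟨star x * x, IsSelfAdjoint.of_nonneg (star_mul_self_nonneg x)⟩
      (star_mul_self_nonneg x)
    rw [hψ, vecL_star_mul, Complex.ofReal_re] at this
    linarith)
  -- adjoint intertwining
  have hTadj : ∀ (a : A) (v : H), (ContinuousLinearMap.adjoint T) (ρ a v) =
      χ.gnsStarAlgHom a ((ContinuousLinearMap.adjoint T) v) := by
    intro a v
    apply ext_inner_right ℂ
    intro w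
    rw [ContinuousLinearMap.adjoint_inner_left]
    have h2 : χ.gnsStarAlgHom a = star (χ.gnsStarAlgHom (star a)) := by
      rw [← map_star, star_star]
    rw [h2, ContinuousLinearMap.star_eq_adjoint, ContinuousLinearMap.adjoint_inner_left,
      ContinuousLinearMap.adjoint_inner_left, hTρ, map_star, inner_star_right]
  set e1 : χ.GNS := ((χ.toPreGNS 1 : χ.PreGNS) : χ.GNS) with he1
  have hTe : T e1 = (s : ℂ) • ξ := by rw [he1, hT, map_one]; rfl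
  have hUe : U e1 = η := by rw [he1, hU, map_one]; rfl
  have hξ2 : (vecL ρ ξ 1).re = ‖ξ‖ ^ 2 := by
    change (⟪ξ, ρ 1 ξ⟫_ℂ).re = _
    rw [map_one, one_apply_eq_self, inner_self_eq_norm_sq_to_K]
    norm_cast
  have hne : ‖e1‖ ^ 2 ≤ l * ‖ξ‖ ^ 2 + δ := by
    rw [he1, UniformSpace.Completion.norm_coe]
    have h3 := χ.preGNS_norm_sq (χ.toPreGNS 1)
    rw [PositiveLinearMap.ofPreGNS_toPreGNS, star_one, one_mul] at h3
    have h2 : ‖χ.toPreGNS (1 : A)‖ ^ 2 = (χ 1).re := by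
      rw [← h3]
      norm_cast
    rw [h2, hχre 1 zero_le_one, hξ2]
    have : (⟨1, (IsSelfAdjoint.of_nonneg (zero_le_one : (0 : A) ≤ 1))⟩ : selfAdjoint A) = 1 := rfl
    rw [this]
    linarith
  have hadj1 : ‖ContinuousLinearMap.adjoint T‖ ≤ 1 := by
    rw [LinearIsometryEquiv.norm_map]
    exact hT1
  refine ⟨(s : ℂ) • (U.comp (ContinuousLinearMap.adjoint T)), fun a => ?_, ?_, ?_⟩
  · ext v
    change ρ a ((s : ℂ) • U ((ContinuousLinearMap.adjoint T) v)) =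
      (s : ℂ) • U ((ContinuousLinearMap.adjoint T) (ρ a v))
    rw [hTadj, hUρ, map_smul]
  · rw [norm_smul, Complex.norm_real, Real.norm_of_nonneg hs0]
    calc s * ‖U.comp (ContinuousLinearMap.adjoint T)‖ ≤
        s * (‖U‖ * ‖ContinuousLinearMap.adjoint T‖) := by
          gcongr
          exact ContinuousLinearMap.opNorm_comp_le _ _
      _ ≤ s * (1 * 1) := by gcongr
      _ = s := by ring
  · have h4 : ((s : ℂ) • (U.comp (ContinuousLinearMap.adjoint T))) ξ - η =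
        U ((ContinuousLinearMap.adjoint T) ((s : ℂ) • ξ) - e1) := by
      rw [map_sub, hUe, map_smul, map_smul]
      rfl
    have h5 : ‖((s : ℂ) • (U.comp (ContinuousLinearMap.adjoint T))) ξ - η‖ ≤
        ‖(ContinuousLinearMap.adjoint T) ((s : ℂ) • ξ) - e1‖ := by
      rw [h4]
      have := U.le_of_opNorm_le hU1 ((ContinuousLinearMap.adjoint T) ((s : ℂ) • ξ) - e1)
      rwa [one_mul] at this
    have h6 : ‖(ContinuousLinearMap.adjoint T) ((s : ℂ) • ξ)‖ ≤ ‖(s : ℂ) • ξ‖ := by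
      have := (ContinuousLinearMap.adjoint T).le_of_opNorm_le hadj1 ((s : ℂ) • ξ)
      rwa [one_mul] at this
    have h8 := @norm_sub_sq ℂ _ _ _ _ ((ContinuousLinearMap.adjoint T) ((s : ℂ) • ξ)) e1
    rw [ContinuousLinearMap.adjoint_inner_left, hTe, inner_self_eq_norm_sq_to_K] at h8
    have h12 : ‖(s : ℂ) • ξ‖ ^ 2 = l * ‖ξ‖ ^ 2 := by
      rw [norm_smul, mul_pow, Complex.norm_real, Real.norm_of_nonneg hs0, hs2]
    have h9 : ‖(ContinuousLinearMap.adjoint T) ((s : ℂ) • ξ) - e1‖ ^ 2 ≤ δ := by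
      rw [h8]
      have h10 := pow_le_pow_left₀ (norm_nonneg _) h6 2
      have h11 : RCLike.re ((‖(s : ℂ) • ξ‖ : ℂ) ^ 2) = ‖(s : ℂ) • ξ‖ ^ 2 := by
        norm_cast
      have h13 : RCLike.re ((((‖(s : ℂ) • ξ‖ : ℝ) : ℂ)) ^ 2) = ‖(s : ℂ) • ξ‖ ^ 2 := h11
      erw [h13]
      linarith
    exact (pow_le_pow_left₀ (norm_nonneg _) h5 2).trans h9

end Abstract

/-- One-sided domination for a von Neumann algebra. -/
theorem exists_dom_comm (M : VonNeumannAlgebra H) {ξ η : H} {l δ : ℝ} (hl : 0 ≤ l) (hδ : 0 ≤ δ)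
    (h : ∀ x ∈ M, 0 ≤ x → (⟪η, x η⟫_ℂ).re ≤ l * (⟪ξ, x ξ⟫_ℂ).re + δ * ‖x‖) :
    ∃ y ∈ M.commutant, ‖y‖ ≤ Real.sqrt l ∧ ‖y ξ - η‖ ^ 2 ≤ δ := by
  rcases subsingleton_or_nontrivial H with hsub | hnt
  · refine ⟨0, zero_mem _, by rw [norm_zero]; exact Real.sqrt_nonneg l, ?_⟩
    have : (0 : H →L[ℂ] H) ξ - η = 0 := Subsingleton.elim _ _
    rw [this, norm_zero]
    simpa using hδ
  have : IsClosed (M.toStarSubalgebra : Set (H →L[ℂ] H)) := vN_isClosed M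
  let _ : PartialOrder M.toStarSubalgebra := CStarAlgebra.spectralOrder _
  let _ : StarOrderedRing M.toStarSubalgebra := CStarAlgebra.spectralOrderedRing _
  obtain ⟨y, hy, hy1, hy2⟩ := exists_dom_abs (A := M.toStarSubalgebra)
    M.toStarSubalgebra.subtype hl hδ (η := η) (ξ := ξ) (fun x hx => h x x.2 (by
      obtain ⟨b, rfl⟩ := CStarAlgebra.nonneg_iff_eq_star_mul_self.1 hx
      exact star_mul_self_nonneg (b : H →L[ℂ] H)))
  refine ⟨y, ?_, hy1, hy2⟩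
  rw [mem_comm_iff]
  intro g hg
  exact hy ⟨g, hg⟩

end Pool.Agent.Helper23

end

section

open scoped InnerProductSpace Topology BoundedContinuousFunction

open ContinuousLinearMap Filter

namespace Pool.Agent.Helper78.BC.StdEx

open Pool.Agent.Helper23 Pool.Agent.Helper70.U8

open Pool.Agent.Helper43.TTF (JD FT FT_apply FR_apply)

variable {H : Type*} [NormedAddCommGroup H] [InnerProductSpace ℂ H] [CompleteSpace H]

variable {A : VonNeumannAlgebra H} {ξ : H} {R : H →L[ℂ] H} {D : H →L[ℝ] H}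
  {Ψ : (ℝ →ᵇ ℂ) →⋆ₐ[ℂ] (H →L[ℂ] H)} {J : H →L[ℝ] H}

/-- division by the Gaussian -/
lemma exists_quot (G : ℝ →ᵇ ℂ) (hG : HasCompactSupport G) :
    ∃ G₁ : ℝ →ᵇ ℂ, G = GB 1 one_pos 0 * G₁ := by
  have hc : Continuous fun ρ : ℝ => ((Real.exp (ρ ^ 2) : ℝ) : ℂ) * G ρ := by fun_prop
  have hs : HasCompactSupport fun ρ : ℝ => ((Real.exp (ρ ^ 2) : ℝ) : ℂ) * G ρ :=
    hG.mul_left
  obtain ⟨C, hC⟩ := hs.exists_bound_of_continuous hc
  refine ⟨BoundedContinuousFunction.ofNormedAddCommGroup _ hc C hC, ?_⟩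
  ext ρ
  rw [BoundedContinuousFunction.mul_apply, GB_apply]
  change G ρ = _ * (((Real.exp (ρ ^ 2) : ℝ) : ℂ) * G ρ)
  rw [← mul_assoc, ← Complex.ofReal_mul, ← Real.exp_add]
  have h1 : -(1 * ρ ^ 2) + 0 * ρ + ρ ^ 2 = 0 := by ring
  rw [h1, Real.exp_zero, Complex.ofReal_one, one_mul]

end Pool.Agent.Helper78.BC.StdEx

end

section

open scoped InnerProductSpace Topology BoundedContinuousFunction

open ContinuousLinearMap Filter MeasureTheory

namespace Pool.Agent.Helper88.CS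

open Pool.Agent.Helper23

open Pool.Agent.Helper78.BC (rm)

set_option linter.unusedSectionVars false

set_option linter.unusedVariables false

variable {H : Type*} [NormedAddCommGroup H] [InnerProductSpace ℂ H] [CompleteSpace H]

variable {A : VonNeumannAlgebra H}

open PolarAux

namespace PolarAux

theorem abs_mem {a : H →L[ℂ] H} (ha : a ∈ A) : CFC.abs a ∈ A := by
  rw [mem_iff_commutes]
  intro g hg
  have h1 : Commute a g := mem_comm_iff.1 hg a ha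
  have h2 : Commute a (star g) := mem_comm_iff.1 (star_mem hg) a ha
  exact (h1.cfcAbs_left h2).symm

end PolarAux

end Pool.Agent.Helper88.CS

end

section

open scoped InnerProductSpace Topology BoundedContinuousFunction

open ContinuousLinearMap Filter MeasureTheory

namespace Pool.Agent.Helper88.CS

open Pool.Agent.Helper23

open Pool.Agent.Helper78.BC (rm)

variable {H : Type*} [NormedAddCommGroup H] [InnerProductSpace ℂ H] [CompleteSpace H]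

variable {A : VonNeumannAlgebra H} {ξ : H} {J : H →L[ℝ] H}

namespace StepAux

lemma rm_mul (hJ : Conj A J) (y z : H →L[ℂ] H) (η : H) :
    rm J z (rm J y η) = rm J (y * z) η := by
  simp only [rm, hJ.J_J, star_mul, mul_apply_eq_comp]

lemma rm_comm (hJ : Conj A J) {x y : H →L[ℂ] H} (hx : x ∈ A) (hy : y ∈ A) (η : H) :
    x (rm J y η) = rm J y (x η) := by
  have h := hJ.J_comm (star y) (star_mem hy) x hx η
  simp only [rm]
  exact h.symm

lemma norm_r (hJ : Conj A J) {w : H →L[ℂ] H} (hw : w * star w * w = w) (η : H) :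
    ‖rm J w η‖ ^ 2 = ‖rm J (w * star w) η‖ ^ 2 := by
  have hw' : star w * star (star w) * star w = star w := by
    conv_rhs => rw [← hw]
    simp only [star_mul, star_star, mul_assoc]
  simp only [rm, hJ.J_norm]
  rw [norm_l hw' (J η)]
  simp only [star_star, star_mul]

lemma pyth_r (hJ : Conj A J) {p : H →L[ℂ] H} (hp : star p = p) (hpp : p * p = p) {η α β : H}
    (h1 : rm J p η = α) (h2 : η = α + β) : ‖η‖ ^ 2 = ‖α‖ ^ 2 + ‖β‖ ^ 2 := by
  have := pyth hp hpp (J η)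
  rw [hJ.J_norm, ← hJ.J_norm (p (J η)), ← hJ.J_norm (J η - p (J η)), map_sub, hJ.J_J] at this
  have h3 : J (p (J η)) = α := by
    rw [← h1, rm, hp]
  rw [h3] at this
  rw [this, show η - α = β by rw [h2]; abel]

lemma swap (hJ : Conj A J) (hξ : J ξ = ξ) {x y : H →L[ℂ] H} (hx : x ∈ A) (hy : y ∈ A) :
    ‖x (rm J y ξ)‖ ^ 2 = ‖(star y) (rm J (star x) ξ)‖ ^ 2 := by
  have h : J (x (rm J y ξ)) = (star y) (rm J (star x) ξ) := by
    rw [rm_comm hJ (star_mem hy) (star_mem hx)]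
    simp only [rm, hξ, star_star]
  rw [← hJ.J_norm, h]

end StepAux

open StepAux in
theorem phi_step (hJ : Conj A J) (hξ : J ξ = ξ) {e f v w : H →L[ℂ] H} (he : IsP A e)
    (hf : IsP A f) (hef : e + f = 1) (hv : v ∈ A) (hv1 : v * star v * v = v) (hfv : f * v = v)
    (hve : v * e = v) (hw : w ∈ A) (hw1 : w * star w * w = w)
    (hfw : (f - v * star v) * w = w) (hwe : w * (e - star v * v) = w) :
    Phi J ξ e f (v + w) ≤ Phi J ξ e f v +
      4 * ‖w (rm J (e - star v * v) ξ) - (f - v * star v) (rm J w ξ)‖ ^ 2 := by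
  obtain ⟨heA, hes, hee⟩ := he
  obtain ⟨hfA, hfs, hff⟩ := hf
  -- the blocks
  obtain ⟨s0, hs0⟩ : ∃ s0, s0 = star v * v := ⟨_, rfl⟩
  obtain ⟨r0, hr0⟩ : ∃ r0, r0 = v * star v := ⟨_, rfl⟩
  obtain ⟨s1, hs1⟩ : ∃ s1, s1 = star w * w := ⟨_, rfl⟩
  obtain ⟨r1, hr1⟩ : ∃ r1, r1 = w * star w := ⟨_, rfl⟩
  have s0A : s0 ∈ A := hs0 ▸ mul_mem (star_mem hv) hv
  have r0A : r0 ∈ A := hr0 ▸ mul_mem hv (star_mem hv)
  have s1A : s1 ∈ A := hs1 ▸ mul_mem (star_mem hw) hw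
  have r1A : r1 ∈ A := hr1 ▸ mul_mem hw (star_mem hw)
  have s0s : star s0 = s0 := by rw [hs0]; simp
  have r0s : star r0 = r0 := by rw [hr0]; simp
  have s1s : star s1 = s1 := by rw [hs1]; simp
  have r1s : star r1 = r1 := by rw [hr1]; simp
  have r0v : r0 * v = v := by rw [hr0]; exact hv1
  have vs0 : v * s0 = v := by rw [hs0, ← mul_assoc]; exact hv1
  have r1w : r1 * w = w := by rw [hr1]; exact hw1
  have ws1 : w * s1 = w := by rw [hs1, ← mul_assoc]; exact hw1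
  have s0s0 : s0 * s0 = s0 := by
    nth_rewrite 1 [hs0]; rw [mul_assoc, vs0, ← hs0]
  have r0r0 : r0 * r0 = r0 := by
    nth_rewrite 2 [hr0]; rw [← mul_assoc, r0v, ← hr0]
  have s1s1 : s1 * s1 = s1 := by
    nth_rewrite 1 [hs1]; rw [mul_assoc, ws1, ← hs1]
  have r1r1 : r1 * r1 = r1 := by
    nth_rewrite 2 [hr1]; rw [← mul_assoc, r1w, ← hr1]
  have s0e : s0 * e = s0 := by rw [hs0, mul_assoc, hve]
  have es0 : e * s0 = s0 := by
    have := congrArg star s0e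
    rwa [star_mul, s0s, hes] at this
  have fr0 : f * r0 = r0 := by rw [hr0, ← mul_assoc, hfv]
  have r0f : r0 * f = r0 := by
    have := congrArg star fr0
    rwa [star_mul, r0s, hfs] at this
  rw [← hs0] at hwe
  rw [← hr0] at hfw
  have ws0 : w * s0 = 0 := by
    rw [← hwe, mul_assoc, sub_mul, es0, s0s0, sub_self, mul_zero]
  have r0w : r0 * w = 0 := by
    rw [← hfw, ← mul_assoc, mul_sub, r0f, r0r0, sub_self, zero_mul]
  have s1s0 : s1 * s0 = 0 := by rw [hs1, mul_assoc, ws0, mul_zero]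
  have s0s1 : s0 * s1 = 0 := by
    have := congrArg star s1s0
    rwa [star_mul, s0s, s1s, star_zero] at this
  have r0r1 : r0 * r1 = 0 := by rw [hr1, ← mul_assoc, r0w, zero_mul]
  have r1r0 : r1 * r0 = 0 := by
    have := congrArg star r0r1
    rwa [star_mul, r0s, r1s, star_zero] at this
  have vs1 : v * s1 = 0 := by rw [← vs0, mul_assoc, s0s1, mul_zero]
  have r1v : r1 * v = 0 := by rw [← r0v, ← mul_assoc, r1r0, zero_mul]
  have we : w * e = w := by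
    have : w * (e - s0) = w * e - w * s0 := mul_sub _ _ _
    rw [ws0, sub_zero] at this
    rw [← this, hwe]
  have fw : f * w = w := by
    have : (f - r0) * w = f * w - r0 * w := sub_mul _ _ _
    rw [r0w, sub_zero] at this
    rw [← this, hfw]
  have s1e : s1 * e = s1 := by rw [hs1, mul_assoc, we]
  have es1 : e * s1 = s1 := by
    have := congrArg star s1e
    rwa [star_mul, s1s, hes] at this
  have fr1 : f * r1 = r1 := by rw [hr1, ← mul_assoc, fw]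
  have r1f : r1 * f = r1 := by
    have := congrArg star fr1
    rwa [star_mul, r1s, hfs] at this
  have svw : star v * w = 0 := by
    have h1 : star v * r0 = star v := by
      have := congrArg star r0v
      rwa [star_mul, r0s] at this
    rw [← h1, mul_assoc, r0w, mul_zero]
  have swv : star w * v = 0 := by
    have := congrArg star svw
    rwa [star_mul, star_star, star_zero] at this
  have wsv : w * star v = 0 := by
    have h1 : s0 * star v = star v := by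
      have := congrArg star vs0
      rwa [star_mul, s0s] at this
    rw [← h1, ← mul_assoc, ws0, zero_mul]
  have vsw : v * star w = 0 := by
    have := congrArg star wsv
    rwa [star_mul, star_star, star_zero] at this
  have hS : star (v + w) * (v + w) = s0 + s1 := by
    rw [star_add, add_mul, mul_add, mul_add, svw, swv, ← hs0, ← hs1]; abel
  have hR : (v + w) * star (v + w) = r0 + r1 := by
    rw [star_add, add_mul, mul_add, mul_add, vsw, wsv, ← hr0, ← hr1]; abel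
  -- calculus of `x ξ y`
  have key : ∀ (p x : H →L[ℂ] H) (η : H), p (x η) = (p * x) η := fun _ _ _ => rfl
  have kr : ∀ {q x : H →L[ℂ] H} (y : H →L[ℂ] H), q ∈ A → x ∈ A →
      rm J q (x (rm J y ξ)) = x (rm J (y * q) ξ) := by
    intro q x y hq hx
    rw [← rm_comm hJ hx hq, rm_mul hJ]
  have fA0 : f - r0 ∈ A := sub_mem hfA r0A
  obtain ⟨g, hg⟩ : ∃ g, g = e - (s0 + s1) := ⟨_, rfl⟩
  obtain ⟨k, hk⟩ : ∃ k, k = f - (r0 + r1) := ⟨_, rfl⟩
  have kA : k ∈ A := hk ▸ sub_mem hfA (add_mem r0A r1A)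
  have gA : g ∈ A := hg ▸ sub_mem heA (add_mem s0A s1A)
  have eg : e - s0 = s1 + g := by rw [hg]; abel
  have fk : f - r0 = r1 + k := by rw [hk]; abel
  have gs1 : g * s1 = 0 := by
    rw [hg, sub_mul, add_mul, es1, s0s1, s1s1]; abel
  have r1k : r1 * k = 0 := by
    rw [hk, mul_sub, mul_add, r1f, r1r0, r1r1]; abel
  -- first term
  obtain ⟨α0, hα0⟩ : ∃ α0, α0 = v (rm J s0 ξ) - r0 (rm J v ξ) := ⟨_, rfl⟩
  obtain ⟨α1, hα1⟩ : ∃ α1, α1 = v (rm J s1 ξ) - r0 (rm J w ξ) := ⟨_, rfl⟩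
  obtain ⟨β0, hβ0⟩ : ∃ β0, β0 = w (rm J s0 ξ) - r1 (rm J v ξ) := ⟨_, rfl⟩
  obtain ⟨β1, hβ1⟩ : ∃ β1, β1 = w (rm J s1 ξ) - r1 (rm J w ξ) := ⟨_, rfl⟩
  have t1 : ‖(v + w) (rm J (s0 + s1) ξ) - (r0 + r1) (rm J (v + w) ξ)‖ ^ 2 =
      ‖α0 + α1‖ ^ 2 + ‖β0 + β1‖ ^ 2 := by
    refine pyth_l r0s r0r0 (α := α0 + α1) (β := β0 + β1) ?_ ?_
    · rw [map_sub, key, key, mul_add, mul_add, r0v, r0w, r0r0, r0r1, add_zero, add_zero,
        rm_add, rm_add, map_add, map_add, hα0, hα1]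
      abel
    · rw [hα0, hα1, hβ0, hβ1, rm_add, rm_add]
      simp only [add_apply, map_add]
      abel
  have t2 : ‖α0 + α1‖ ^ 2 = ‖α0‖ ^ 2 + ‖α1‖ ^ 2 := by
    refine pyth_r hJ s0s s0s0 (α := α0) (β := α1) ?_ rfl
    rw [rm_vadd, hα0, hα1, rm_vsub, rm_vsub, kr _ s0A hv, kr _ s0A r0A, kr _ s0A hv,
      kr _ s0A r0A, s0s0, vs0, s1s0, ws0]
    simp only [rm_zero, map_zero, sub_zero, add_zero]
  have t3 : ‖β0 + β1‖ ^ 2 = ‖β0‖ ^ 2 + ‖β1‖ ^ 2 := by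
    refine pyth_r hJ s0s s0s0 (α := β0) (β := β1) ?_ rfl
    rw [rm_vadd, hβ0, hβ1, rm_vsub, rm_vsub, kr _ s0A hw, kr _ s0A r1A, kr _ s0A hw,
      kr _ s0A r1A, s0s0, vs0, s1s0, ws0]
    simp only [rm_zero, map_zero, sub_zero, add_zero]
  -- second term
  have t4 : ‖(s0 + s1) (rm J (e - (s0 + s1)) ξ)‖ ^ 2 =
      ‖s0 (rm J g ξ)‖ ^ 2 + ‖s1 (rm J g ξ)‖ ^ 2 := by
    rw [← hg]
    refine pyth_l s0s s0s0 ?_ (add_apply _ _ _)
    rw [key, mul_add, s0s0, s0s1, add_zero]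
  have t5 : ‖s0 (rm J (e - s0) ξ)‖ ^ 2 = ‖s0 (rm J s1 ξ)‖ ^ 2 + ‖s0 (rm J g ξ)‖ ^ 2 := by
    refine pyth_r hJ s1s s1s1 (α := s0 (rm J s1 ξ)) (β := s0 (rm J g ξ)) ?_ ?_
    · rw [kr _ s1A s0A, eg, add_mul, s1s1, gs1, add_zero]
    · rw [eg, rm_add, map_add]
  -- third term
  have t6 : ‖(f - (r0 + r1)) (rm J (r0 + r1) ξ)‖ ^ 2 =
      ‖k (rm J r0 ξ)‖ ^ 2 + ‖k (rm J r1 ξ)‖ ^ 2 := by
    rw [← hk]
    refine pyth_r hJ r0s r0r0 (α := k (rm J r0 ξ)) (β := k (rm J r1 ξ)) ?_ ?_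
    · rw [kr _ r0A kA, add_mul, r0r0, r1r0, add_zero]
    · rw [rm_add, map_add]
  have t7 : ‖(f - r0) (rm J r0 ξ)‖ ^ 2 = ‖r1 (rm J r0 ξ)‖ ^ 2 + ‖k (rm J r0 ξ)‖ ^ 2 := by
    refine pyth_l r1s r1r1 (α := r1 (rm J r0 ξ)) (β := k (rm J r0 ξ)) ?_ ?_
    · rw [key, fk, mul_add, r1r1, r1k, add_zero]
    · rw [fk, add_apply]
  -- the cross terms
  have nr : ∀ {x y : H →L[ℂ] H}, x ∈ A → y ∈ A → y * star y * y = y → y * star y ∈ A →
      ‖x (rm J y ξ)‖ ^ 2 = ‖x (rm J (y * star y) ξ)‖ ^ 2 := by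
    intro x y hx hy h1 h2
    rw [rm_comm hJ hx hy, rm_comm hJ hx h2, norm_r hJ h1]
  have c1 : ‖v (rm J s1 ξ)‖ ^ 2 = ‖s0 (rm J s1 ξ)‖ ^ 2 := by rw [norm_l hv1, ← hs0]
  have c2 : ‖r0 (rm J w ξ)‖ ^ 2 = ‖r1 (rm J r0 ξ)‖ ^ 2 := by
    rw [nr r0A hw hw1 (hr1 ▸ r1A), ← hr1, swap hJ hξ r0A r1A, r0s, r1s]
  have c3 : ‖w (rm J s0 ξ)‖ ^ 2 = ‖s0 (rm J s1 ξ)‖ ^ 2 := by
    rw [norm_l hw1, ← hs1, swap hJ hξ s1A s0A, s0s, s1s]
  have c4 : ‖r1 (rm J v ξ)‖ ^ 2 = ‖r1 (rm J r0 ξ)‖ ^ 2 := by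
    rw [nr r1A hv hv1 (hr0 ▸ r0A), ← hr0]
  have nsub : ∀ x y : H, ‖x - y‖ ^ 2 ≤ 2 * ‖x‖ ^ 2 + 2 * ‖y‖ ^ 2 := by
    intro x y
    have h1 := norm_sub_le x y
    have h2 := norm_nonneg (x - y)
    nlinarith [sq_nonneg (‖x‖ - ‖y‖), norm_nonneg x, norm_nonneg y]
  have b1 := nsub (v (rm J s1 ξ)) (r0 (rm J w ξ))
  have b2 := nsub (w (rm J s0 ξ)) (r1 (rm J v ξ))
  rw [c1, c2, ← hα1] at b1
  rw [c3, c4, ← hβ0] at b2
  -- the defect
  have d1 : ‖w (rm J (e - s0) ξ) - (f - r0) (rm J w ξ)‖ ^ 2 =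
      ‖w (rm J (e - s0) ξ) - r1 (rm J w ξ)‖ ^ 2 + ‖-(k (rm J w ξ))‖ ^ 2 := by
    refine pyth_l r1s r1r1 ?_ ?_
    · rw [map_sub, key, key, r1w, fk, mul_add, r1r1, r1k, add_zero]
    · rw [fk, add_apply]; abel
  have d2 : ‖-(k (rm J w ξ))‖ ^ 2 = ‖k (rm J r1 ξ)‖ ^ 2 := by
    rw [norm_neg, nr kA hw hw1 (hr1 ▸ r1A), ← hr1]
  have d3 : ‖w (rm J (e - s0) ξ) - r1 (rm J w ξ)‖ ^ 2 = ‖β1‖ ^ 2 + ‖w (rm J g ξ)‖ ^ 2 := by
    refine pyth_r hJ s1s s1s1 (α := β1) (β := w (rm J g ξ)) ?_ ?_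
    · rw [rm_vsub, kr _ s1A hw, kr _ s1A r1A, eg, add_mul, s1s1, gs1, add_zero, ws1, hβ1]
    · rw [hβ1, eg, rm_add, map_add]; abel
  have d4 : ‖w (rm J g ξ)‖ ^ 2 = ‖s1 (rm J g ξ)‖ ^ 2 := by rw [norm_l hw1, ← hs1]
  unfold Phi
  rw [hS, hR, ← hs0, ← hr0, t1, t2, t3, t4, t6, d1, d2, d3, d4, t5, t7, ← hα0]
  have p1 := sq_nonneg ‖β1‖
  have p2 := sq_nonneg ‖s1 (rm J g ξ)‖
  have p3 := sq_nonneg ‖k (rm J r1 ξ)‖
  linarith

end Pool.Agent.Helper88.CS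

end
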