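import Pool.Agent.Helper23.FA.Ns
import Pool.Agent.Helper23.FA.L00_00
import Pool.Agent.Helper23.FA.L00_02
import Pool.Agent.Helper23.FA.L00_06
import Pool.Agent.Helper23.FA.L00_07
import Pool.Agent.Helper23.FA.L00_11
import Pool.Agent.Helper23.FA.L00_16
import Pool.Agent.Helper23.FA.L00_17
import Pool.Agent.Helper23.FA.L00_18
import Pool.Agent.Helper23.FA.L00_19

/-!
Parts of Helper23.Pin4, Helper23.Wt, Helper88.CS.Sums, Helper88.CS.Equiv, Helper88.CS.Trick1, Helper88.CS.Exh, Helper23.ED.WtF, Helper23.ED.WuA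
-/

section

open scoped InnerProductSpace Topology ENNReal

open ContinuousLinearMap Filter MeasureTheory

namespace Pool.Agent.Helper23

variable {H : Type*} [NormedAddCommGroup H] [InnerProductSpace ℂ H] [CompleteSpace H]

variable {M N : VonNeumannAlgebra H} {ξ : H} {E : (H →L[ℂ] H) → (H →L[ℂ] H)}

namespace AP

variable (S : AP M N E ξ)

include S

omit S in
/-- choice of the number of steps -/
lemma exists_steps {κ K : ℝ} (hκ : 0 < κ) (hK : 0 ≤ K) {C L : ℝ} (hC : 0 < C) (hL : 0 ≤ L) :
    ∃ t₀ : ℝ, 0 < t₀ ∧ t₀ ≤ 1 / 2 ∧ ∀ t : ℝ, 0 < t → t < t₀ → ∃ n m : ℕ, 0 < n ∧ L ≤ m * t ∧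
      K * ((1 + 2 * t ^ 2) ^ n - 1) ≤ κ ∧ C * m ≤ n := by
  set η : ℝ := min (1 / 2) (κ / (2 * K + 1)) with hη
  have hη0 : 0 < η := by positivity
  have hη1 : η ≤ 1 / 2 := min_le_left _ _
  have hη2 : η ≤ κ / (2 * K + 1) := min_le_right _ _
  refine ⟨min (1 / 2) (min (η / 4) (η / (4 * C * (L + 1)))), by positivity, min_le_left _ _,
    fun t ht htt => ?_⟩
  have ht1 : t ≤ 1 / 2 := (htt.le).trans (min_le_left _ _)
  have ht2 : t ≤ η / 4 := (htt.le).trans ((min_le_right _ _).trans (min_le_left _ _))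
  have ht3 : t ≤ η / (4 * C * (L + 1)) := (htt.le).trans ((min_le_right _ _).trans
    (min_le_right _ _))
  have h4 : 4 * t ^ 2 ≤ η := by nlinarith
  have ht2' : 0 < t ^ 2 := by positivity
  have h5 : 1 ≤ η / (4 * t ^ 2) := by rw [le_div_iff₀ (by positivity)]; linarith
  have h6 : η / (2 * t ^ 2) = 2 * (η / (4 * t ^ 2)) := by field_simp; norm_num
  have hn1 : (⌊η / (2 * t ^ 2)⌋₊ : ℝ) ≤ η / (2 * t ^ 2) := Nat.floor_le (by positivity)
  have hn2 : η / (2 * t ^ 2) < ⌊η / (2 * t ^ 2)⌋₊ + 1 := Nat.lt_floor_add_one _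
  refine ⟨⌊η / (2 * t ^ 2)⌋₊, ⌈L / t⌉₊, ?_, ?_, ?_, ?_⟩
  · rw [Nat.floor_pos]; linarith
  · have := Nat.le_ceil (L / t)
    rwa [div_le_iff₀ ht] at this
  · have e1 : (1 + 2 * t ^ 2) ^ ⌊η / (2 * t ^ 2)⌋₊ ≤ Real.exp η := by
      calc (1 + 2 * t ^ 2) ^ ⌊η / (2 * t ^ 2)⌋₊ ≤ Real.exp (2 * t ^ 2) ^ ⌊η / (2 * t ^ 2)⌋₊ := by
            gcongr
            have := Real.add_one_le_exp (2 * t ^ 2)
            linarith
        _ = Real.exp (⌊η / (2 * t ^ 2)⌋₊ * (2 * t ^ 2)) := by rw [← Real.exp_nat_mul]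
        _ ≤ Real.exp η := by
            refine Real.exp_le_exp.2 ?_
            rwa [← le_div_iff₀ (by positivity)]
    have e2 : Real.exp η - 1 ≤ 2 * η := by
      have := Real.abs_exp_sub_one_le (x := η) (by rw [abs_of_pos hη0]; linarith)
      rw [abs_of_pos hη0] at this
      exact (le_abs_self _).trans this
    calc K * ((1 + 2 * t ^ 2) ^ ⌊η / (2 * t ^ 2)⌋₊ - 1) ≤ K * (2 * η) := by gcongr; linarith
      _ ≤ K * (2 * (κ / (2 * K + 1))) := by gcongr
      _ ≤ κ := by
        rw [← mul_div_assoc, ← mul_div_assoc, div_le_iff₀ (by positivity)]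
        nlinarith
  · have hm : (⌈L / t⌉₊ : ℝ) ≤ (L + 1) / t := by
      have h1 := Nat.ceil_lt_add_one (show 0 ≤ L / t by positivity)
      have h2 : (1 : ℝ) ≤ 1 / t := by rw [le_div_iff₀ ht]; linarith
      rw [add_div]
      linarith
    have h7 : C * ((L + 1) / t) ≤ η / (4 * t ^ 2) := by
      rw [le_div_iff₀ (by positivity)] at ht3 ⊢
      have : C * ((L + 1) / t) * (4 * t ^ 2) = t * (4 * C * (L + 1)) := by
        field_simp
      rw [this]
      exact ht3
    have h8 : C * (⌈L / t⌉₊ : ℝ) ≤ C * ((L + 1) / t) := by gcongr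
    linarith

end AP

end Pool.Agent.Helper23

end

section

open scoped InnerProductSpace Topology ENNReal

open ContinuousLinearMap Filter MeasureTheory

set_option linter.unusedSectionVars false

set_option linter.unusedVariables false

namespace Pool.Agent.Helper23

variable {H : Type*} [NormedAddCommGroup H] [InnerProductSpace ℂ H] [CompleteSpace H]

variable {M N : VonNeumannAlgebra H} {ξ : H} {E : (H →L[ℂ] H) → (H →L[ℂ] H)}

section general

variable {L : Type*} [NormedAddCommGroup L] [InnerProductSpace ℂ L] [CompleteSpace L]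

lemma exists_sqrt_mem (A : VonNeumannAlgebra L) {X : L →L[ℂ] L} (hX : X ∈ A) (h0 : 0 ≤ X) :
    ∃ Y ∈ A, star Y * Y = X := by
  have : IsClosed (A : Set (L →L[ℂ] L)) := vN_isClosed A
  have : IsClosed (A.toStarSubalgebra : Set (L →L[ℂ] L)) := vN_isClosed A
  refine ⟨CFC.sqrt X, ?_, ?_⟩
  · rw [CFC.sqrt_eq_real_sqrt X h0]
    have h1 : cfcₙ Real.sqrt X ∈ A.toStarSubalgebra := by
      refine cfcₙ_mem (s := A.toStarSubalgebra) Real.sqrt ?_
      exact hX
    exact h1
  · rw [(IsSelfAdjoint.of_nonneg (CFC.sqrt_nonneg X)).star_eq]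
    exact CFC.sqrt_mul_sqrt_self X h0

end general

end Pool.Agent.Helper23

end

section

open scoped InnerProductSpace Topology BoundedContinuousFunction

open ContinuousLinearMap Filter MeasureTheory

namespace Pool.Agent.Helper88.CS

open Pool.Agent.Helper23

open Pool.Agent.Helper78.BC (rm)

variable {H : Type*} [NormedAddCommGroup H] [InnerProductSpace ℂ H] [CompleteSpace H]

variable {A : VonNeumannAlgebra H}

/-- The strong sum of a sequence of partial isometries with orthogonal initial and final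
projections. -/
theorem exists_sum {w : ℕ → H →L[ℂ] H} (hA : ∀ n, w n ∈ A) (hw : ∀ n, w n * star (w n) * w n = w n)
    (h1 : ∀ m n, m ≠ n → star (w m) * w n = 0) (h2 : ∀ m n, m ≠ n → w m * star (w n) = 0) :
    ∃ v ∈ A, v * star v * v = v ∧ (∀ x, HasSum (fun n => w n x) (v x)) ∧
      (∀ x, HasSum (fun n => star (w n) x) (star v x)) ∧
      (∀ x, HasSum (fun n => (star (w n) * w n) x) ((star v * v) x)) ∧
      (∀ x, HasSum (fun n => (w n * star (w n)) x) ((v * star v) x)) ∧
      (∀ n, v * (star (w n) * w n) = w n) ∧ ∀ n, w n * star (w n) * v = w n := by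
  obtain ⟨v, hv⟩ := SumsAux.exists_lim hw h1 h2
  have hw' : ∀ n, star (w n) * star (star (w n)) * star (w n) = star (w n) := fun n => by
    have := congrArg star (hw n)
    rw [star_mul, star_mul, star_star, ← mul_assoc] at this
    rw [star_star]
    exact this
  have h1' : ∀ m n, m ≠ n → star (star (w m)) * star (w n) = 0 := fun m n h => by
    rw [star_star]; exact h2 m n h
  have h2' : ∀ m n, m ≠ n → star (w m) * star (star (w n)) = 0 := fun m n h => by
    rw [star_star]; exact h1 m n h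
  obtain ⟨v', hv'⟩ := SumsAux.exists_lim (w := fun n => star (w n)) hw' h1' h2'
  have hvv' : star v = v' := by
    ext x
    refine ext_inner_right ℂ fun y => ?_
    rw [SumsAux.star_inner]
    have e1 : HasSum (fun n => ⟪x, w n y⟫_ℂ) ⟪x, v y⟫_ℂ := (hv y).mapL (innerSL ℂ x)
    have e2 : HasSum (fun n => ⟪(star (w n)) x, y⟫_ℂ) ⟪v' x, y⟫_ℂ := by
      have := ((hv' x).mapL (innerSL ℂ y)).map (starRingEnd ℂ) RCLike.continuous_conj
      simpa [Function.comp_def] using this
    refine e1.unique ?_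
    convert e2 using 2 with n
    rw [SumsAux.star_inner]
  subst hvv'
  -- v w_n^* = w_n w_n^*
  have k1 : ∀ n, v * star (w n) = w n * star (w n) := fun n => by
    ext y
    have e1 := hv ((star (w n)) y)
    have e2 : HasSum (fun m => w m ((star (w n)) y)) (w n ((star (w n)) y)) := by
      refine hasSum_single n fun m hm => ?_
      have : w m ((star (w n)) y) = (w m * star (w n)) y := rfl
      rw [this, h2 m n hm]; rfl
    exact e1.unique e2
  have k2 : ∀ n, star v * w n = star (w n) * w n := fun n => by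
    ext y
    have e1 := hv' (w n y)
    have e2 : HasSum (fun m => (star (w m)) (w n y)) ((star (w n)) (w n y)) := by
      refine hasSum_single n fun m hm => ?_
      have : (star (w m)) (w n y) = (star (w m) * w n) y := rfl
      rw [this, h1 m n hm]; rfl
    exact e1.unique e2
  have k3 : ∀ n, v * (star (w n) * w n) = w n := fun n => by
    rw [← mul_assoc, k1, hw n]
  have k4 : ∀ n, w n * star (w n) * v = w n := fun n => by
    have := congrArg star (k2 n)
    rw [star_mul, star_star, star_mul, star_star] at this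
    rw [mul_assoc, this, ← mul_assoc, hw n]
  have s1 : ∀ x, HasSum (fun n => (star (w n) * w n) x) ((star v * v) x) := fun x => by
    have h3 : HasSum (fun n => (star v) (w n x)) ((star v) (v x)) := (hv x).mapL (star v)
    have h4 : (fun n => (star (w n) * w n) x) = fun n => (star v) (w n x) := by
      funext n
      rw [← k2 n]; rfl
    rw [h4]
    exact h3
  have s2 : ∀ x, HasSum (fun n => (w n * star (w n)) x) ((v * star v) x) := fun x => by
    have h3 : HasSum (fun n => v ((star (w n)) x)) (v ((star v) x)) := (hv' x).mapL v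
    have h4 : (fun n => (w n * star (w n)) x) = fun n => v ((star (w n)) x) := by
      funext n
      rw [← k1 n]; rfl
    rw [h4]
    exact h3
  refine ⟨v, ?_, ?_, hv, hv', s1, s2, k3, k4⟩
  · rw [mem_iff_commutes]
    intro g hg
    ext x
    have e1 : HasSum (fun n => g (w n x)) (g (v x)) := (hv x).mapL g
    have e2 : HasSum (fun n => w n (g x)) (v (g x)) := hv (g x)
    refine e1.unique ?_
    have h4 : (fun n => g (w n x)) = fun n => w n (g x) := by
      funext n
      have := mem_iff_commutes.1 (hA n) g hg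
      exact congrArg (fun T : H →L[ℂ] H => T x) this
    rw [h4]
    exact e2
  · ext x
    have e1 : HasSum (fun n => v ((star (w n) * w n) x)) (v ((star v * v) x)) := (s1 x).mapL v
    have h4 : (fun n => v ((star (w n) * w n) x)) = fun n => w n x := by
      funext n
      exact congrArg (fun T : H →L[ℂ] H => T x) (k3 n)
    rw [h4] at e1
    rw [mul_assoc]
    exact e1.unique (hv x)

end Pool.Agent.Helper88.CS

end

section

open scoped InnerProductSpace Topology BoundedContinuousFunction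

open ContinuousLinearMap Filter MeasureTheory

namespace Pool.Agent.Helper88.CS

open Pool.Agent.Helper23

open Pool.Agent.Helper78.BC (rm)

variable {H : Type*} [NormedAddCommGroup H] [InnerProductSpace ℂ H] [CompleteSpace H]

variable {A : VonNeumannAlgebra H} {ξ : H}

/-- Cantor - Bernstein -/
theorem csb {e w : H →L[ℂ] H} (he : IsP A e) (hw : w ∈ A) (h1 : star w * w = 1) (h2 : e * w = w) :
    ∃ u ∈ A, star u * u = 1 ∧ u * star u = e := by
  obtain ⟨heA, hes, hee⟩ := he
  set q : H →L[ℂ] H := 1 - e with hqdef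
  have hqA : q ∈ A := sub_mem (one_mem A) heA
  have hq : star q = q := by rw [hqdef, star_sub, star_one, hes]
  have hq2 : q * q = q := by
    rw [hqdef, sub_mul, mul_sub, mul_sub, hee]; simp
  have hqw : q * w = 0 := by rw [hqdef, sub_mul, one_mul, h2, sub_self]
  set p : ℕ → H →L[ℂ] H := fun n => w ^ n * q * star w ^ n with hp
  have hpA : ∀ n, p n ∈ A := fun n =>
    mul_mem (mul_mem (pow_mem hw n) hqA) (pow_mem (star_mem hw) n)
  have hps : ∀ n, star (p n) = p n := fun n => (EquivAux.shift_proj hq hq2 h1 n).1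
  have hpp : ∀ n, p n * p n = p n := fun n => (EquivAux.shift_proj hq hq2 h1 n).2
  have hpo : ∀ m n, m ≠ n → p m * p n = 0 := fun m n h => EquivAux.shift_ortho hq h1 hqw m n h
  obtain ⟨r, hrA, -, hr1, hr2, hr3, -, -, -⟩ := exists_sum (A := A) (w := p) hpA
    (fun n => by rw [hps, hpp, hpp]) (fun m n h => by rw [hps]; exact hpo m n h)
    (fun m n h => by rw [hps]; exact hpo m n h)
  have hrs : star r = r := by
    ext x
    have a1 := hr2 x
    simp only [hps] at a1
    exact a1.unique (hr1 x)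
  have hrr : r * r = r := by
    ext x
    have a1 := hr3 x
    simp only [hps, hpp, hrs] at a1
    exact a1.unique (hr1 x)
  have hp0 : p 0 = q := by simp [hp]
  have hpsucc : ∀ n, w * p n * star w = p (n + 1) := by
    intro n
    simp only [hp]
    rw [pow_succ' w n, pow_succ (star w) n]
    simp only [mul_assoc]
  have hwrw : w * r * star w = r - q := by
    ext x
    have a1 : HasSum (fun n => p (n + 1) x) ((w * r * star w) x) := by
      have a2 := (hr1 ((star w) x)).mapL w
      refine (a2.congr_fun ?_)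
      intro n
      rw [← hpsucc n]; rfl
    have a3 : HasSum (fun n => p (n + 1) x) (r x - p 0 x) := by
      have := (hasSum_nat_add_iff' 1).2 (hr1 x)
      simpa using this
    have := a1.unique a3
    rw [this, hp0]; rfl
  have hwr : w * r = r * w := by
    calc w * r = w * r * (star w * w) := by rw [h1, mul_one]
      _ = (w * r * star w) * w := by simp only [mul_assoc]
      _ = r * w := by rw [hwrw, sub_mul, hqw, sub_zero]
  have hrwr : r * (w * r) = w * r := by
    rw [hwr, ← mul_assoc, hrr]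
  have hrwr' : (r * star w) * r = r * star w := by
    have := congrArg star hrwr
    simpa [hrs, mul_assoc] using this
  refine ⟨w * r + (1 - r), add_mem (mul_mem hw hrA) (sub_mem (one_mem A) hrA), ?_, ?_⟩
  · rw [star_add, star_sub, star_one, star_mul, hrs]
    calc (r * star w + (1 - r)) * (w * r + (1 - r))
        = r * (star w * w) * r + (r * star w - (r * star w) * r) + (w * r - r * (w * r))
          + (1 - r - r + r * r) := by noncomm_ring
      _ = 1 := by rw [h1, hrwr, hrwr', mul_one, hrr]; abel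
  · rw [star_add, star_sub, star_one, star_mul, hrs]
    calc (w * r + (1 - r)) * (r * star w + (1 - r))
        = w * (r * r) * star w + (w * r - w * (r * r)) + (r * star w - (r * r) * star w)
          + (1 - r - r + r * r) := by noncomm_ring
      _ = e := by rw [hrr, hwrw, hqdef]; abel

/-- nonzero subprojections of small mass -/
theorem exists_small (hA : FInf A) (ξ : H) {e : H →L[ℂ] H} (he : IsP A e) (he0 : e ≠ 0)
    {ε : ℝ} (hε : 0 < ε) : ∃ r, IsP A r ∧ r ≠ 0 ∧ e * r = r ∧ ‖r ξ‖ ≤ ε := by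
  obtain ⟨p, x, hp, hpo, -⟩ := exists_seq hA he he0
  obtain ⟨r, -, -, hr1, -⟩ := exists_sum (A := A) (w := p) (fun n => (hp n).1.1)
    (fun n => by rw [(hp n).1.2.1, (hp n).1.2.2, (hp n).1.2.2])
    (fun m n h => by rw [(hp m).1.2.1]; exact hpo m n h)
    (fun m n h => by rw [(hp n).1.2.1]; exact hpo m n h)
  have h1 := (hr1 ξ).summable.tendsto_atTop_zero
  have h2 := (Metric.tendsto_atTop.1 h1) ε hε
  obtain ⟨N, hN⟩ := h2
  have h3 := hN N le_rfl
  rw [dist_zero_right] at h3
  exact ⟨p N, (hp N).1, (hp N).2.1, (hp N).2.2, h3.le⟩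

end Pool.Agent.Helper88.CS

end

section

open scoped InnerProductSpace Topology BoundedContinuousFunction CompactlySupported

open ContinuousLinearMap Filter MeasureTheory

namespace Pool.Agent.Helper88.CS

open Pool.Agent.Helper23

open Pool.Agent.Helper78.BC (rm)

variable {H : Type*} [NormedAddCommGroup H] [InnerProductSpace ℂ H] [CompleteSpace H]

variable {A : VonNeumannAlgebra H} {J : H →L[ℝ] H} {κ : H}

namespace Trick1Aux

lemma tendsto_rp {X : H →L[ℂ] H} (hX : star X = X) {p : ℝ → ℝ} (hp : Continuous p)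
    (hp0 : ∀ s, 0 ≤ p s) (v : H) :
    Tendsto (fun n : ℕ => cfc (fun s => (n : ℝ) * p s / (1 + n * p s)) X v) atTop
      (𝓝 (rp (cfc p X) v)) := by
  have hsX : IsSelfAdjoint X := hX
  have hpos : ∀ n : ℕ, ∀ s, 0 < 1 + (n : ℝ) * p s := fun n s => by
    have := mul_nonneg (Nat.cast_nonneg (α := ℝ) n) (hp0 s)
    linarith
  have hcont : ∀ n : ℕ, Continuous (fun s => (n : ℝ) * p s / (1 + n * p s)) := fun n =>
    Continuous.div (by fun_prop) (by fun_prop) (fun s => (hpos n s).ne')
  have hcont' : ∀ n : ℕ, Continuous (fun s => (n : ℝ) / (1 + n * p s)) := fun n =>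
    Continuous.div (by fun_prop) (by fun_prop) (fun s => (hpos n s).ne')
  set P := cfc p X with hP
  set Pn : ℕ → (H →L[ℂ] H) := fun n => cfc (fun s => (n : ℝ) * p s / (1 + n * p s)) X with hPn
  have h1 : ∀ n, ‖Pn n‖ ≤ 1 := by
    intro n
    refine norm_cfc_le zero_le_one ?_
    intro s _
    have h := hpos n s
    have h' := mul_nonneg (Nat.cast_nonneg (α := ℝ) n) (hp0 s)
    rw [Real.norm_eq_abs, abs_of_nonneg (div_nonneg h' h.le), div_le_one h]
    linarith
  have h2 : ∀ n : ℕ, 0 < n → ‖Pn n * P - P‖ ≤ 1 / n := by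
    intro n hn
    have hn' : (0 : ℝ) < n := by exact_mod_cast hn
    have e1 : Pn n * P - P = cfc (fun s => (n : ℝ) * p s / (1 + n * p s) * p s - p s) X := by
      rw [cfc_sub (fun s => (n : ℝ) * p s / (1 + n * p s) * p s) p X
        (((hcont n).mul hp).continuousOn) hp.continuousOn,
        cfc_mul (fun s => (n : ℝ) * p s / (1 + n * p s)) p X (hcont n).continuousOn
          hp.continuousOn]
    rw [e1]
    refine norm_cfc_le (by positivity) ?_
    intro s _
    have h := hpos n s
    have e2 : (n : ℝ) * p s / (1 + n * p s) * p s - p s = -(p s / (1 + n * p s)) := by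
      field_simp
      ring
    rw [e2, norm_neg, Real.norm_eq_abs, abs_of_nonneg (div_nonneg (hp0 s) h.le),
      div_le_div_iff₀ h hn']
    nlinarith [hp0 s]
  have h3 : ∀ n, Pn n * rp P = Pn n := by
    intro n
    have e1 : Pn n = cfc (fun s => (n : ℝ) / (1 + n * p s)) X * P := by
      rw [hP, ← cfc_mul (fun s => (n : ℝ) / (1 + n * p s)) p X (hcont' n).continuousOn
          hp.continuousOn]
      simp only [hPn]
      congr 1
      funext s
      ring
    have e2 : P * rp P = P := by
      have := mul_rp_star P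
      rwa [star_cfc] at this
    rw [e1, mul_assoc, e2]
  set w := rp P v with hw
  have h4 : ∀ n, Pn n v = Pn n w := by
    intro n
    conv_lhs => rw [← h3 n]
    rfl
  have h5 : w ∈ closure (Set.range P) := by
    have h6 : w ∈ (LinearMap.range (P : H →ₗ[ℂ] H)).topologicalClosure :=
      Submodule.starProjection_apply_mem _ v
    exact h6
  change Tendsto (fun n => Pn n v) atTop (𝓝 w)
  rw [Metric.tendsto_atTop]
  intro ε hε
  obtain ⟨w', ⟨u, hu⟩, hw'⟩ := Metric.mem_closure_iff.1 h5 (ε / 4) (by positivity)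
  obtain ⟨N, hN⟩ := exists_nat_gt (4 * ‖u‖ / ε)
  refine ⟨N + 1, fun n hn => ?_⟩
  have hn0 : 0 < n := by omega
  have hn1 : (0 : ℝ) < n := by exact_mod_cast hn0
  rw [dist_eq_norm] at hw' ⊢
  change ‖Pn n v - w‖ < ε
  rw [h4]
  have e1 : Pn n w - w = Pn n (w - w') + (Pn n * P - P) u - (w - w') := by
    rw [map_sub, sub_apply, mul_apply_eq_comp, hu]
    abel
  have e2 : ‖Pn n (w - w')‖ ≤ ε / 4 := by
    refine ((Pn n).le_opNorm _).trans ?_
    calc ‖Pn n‖ * ‖w - w'‖ ≤ 1 * ‖w - w'‖ := by
          gcongr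
          exact h1 n
      _ ≤ ε / 4 := by rw [one_mul]; exact hw'.le
  have e3 : ‖(Pn n * P - P) u‖ ≤ ε / 4 := by
    refine ((Pn n * P - P).le_opNorm _).trans ?_
    calc ‖Pn n * P - P‖ * ‖u‖ ≤ 1 / n * ‖u‖ := by
          gcongr
          exact h2 n hn0
      _ ≤ ε / 4 := by
          have h6 : 4 * ‖u‖ / ε < n := hN.trans_le (by exact_mod_cast (by omega : N ≤ n))
          rw [div_lt_iff₀ hε] at h6
          rw [one_div, ← div_eq_inv_mul, div_le_iff₀ hn1]
          linarith
  rw [e1]
  calc ‖Pn n (w - w') + (Pn n * P - P) u - (w - w')‖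
      ≤ ‖Pn n (w - w') + (Pn n * P - P) u‖ + ‖w - w'‖ := norm_sub_le _ _
    _ ≤ ‖Pn n (w - w')‖ + ‖(Pn n * P - P) u‖ + ‖w - w'‖ := by
        gcongr
        exact norm_add_le _ _
    _ < ε := by linarith

lemma tendsto_Ft {X : H →L[ℂ] H} (hX : star X = X) (t : ℝ) (v : H) :
    Tendsto (fun n => cfc (fn t n) X v) atTop (𝓝 (Ft X t v)) := by
  have h1 := tendsto_rp hX (pt_cont t) (pt_nonneg t) v
  have h2 := tendsto_rp hX (qt_cont t) (qt_nonneg t) v
  have h3 := h1.sub h2
  refine h3.congr ?_
  intro n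
  have e1 : cfc (fn t n) X = cfc (fun s => cn n (pt t s)) X - cfc (fun s => cn n (qt t s)) X :=
    cfc_sub _ _ _ (cn_cont (pt_cont t) (pt_nonneg t) n).continuousOn
      (cn_cont (qt_cont t) (qt_nonneg t) n).continuousOn
  rw [e1]
  rfl

end Trick1Aux

end Pool.Agent.Helper88.CS

end

section

open scoped InnerProductSpace Topology BoundedContinuousFunction

open ContinuousLinearMap Filter MeasureTheory

namespace Pool.Agent.Helper88.CS

open Pool.Agent.Helper23

open Pool.Agent.Helper78.BC (rm)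

variable {H : Type*} [NormedAddCommGroup H] [InnerProductSpace ℂ H] [CompleteSpace H]

variable {A : VonNeumannAlgebra H} {ξ : H} {J : H →L[ℝ] H}
  {Ψ : (ℝ →ᵇ ℂ) →⋆ₐ[ℂ] (H →L[ℂ] H)} {R : H →L[ℂ] H} {D : H →L[ℝ] H}

namespace ExhAux

/-- `v` is the supremum of an increasing sequence of partial isometries -/
lemma exists_sup {v : ℕ → H →L[ℂ] H} (hA : ∀ n, v n ∈ A)
    (hv : ∀ n, v n * star (v n) * v n = v n) (hmon : ∀ m n, m ≤ n → Le (v m) (v n)) :
    ∃ V ∈ A, V * star V * V = V ∧ (∀ n, Le (v n) V) ∧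
      (∀ x, Tendsto (fun n => v n x) atTop (𝓝 (V x))) ∧
      (∀ x, Tendsto (fun n => star (v n) x) atTop (𝓝 (star V x))) ∧
      (∀ x, Tendsto (fun n => (star (v n) * v n) x) atTop (𝓝 ((star V * V) x))) ∧
      (∀ x, Tendsto (fun n => (v n * star (v n)) x) atTop (𝓝 ((V * star V) x))) := by
  set w : ℕ → H →L[ℂ] H := fun n => Nat.casesOn n (v 0) (fun k => v (k + 1) - v k) with hw
  have hw0 : w 0 = v 0 := rfl
  have hw1 : ∀ k, w (k + 1) = v (k + 1) - v k := fun k => rfl
  have hd : ∀ k, _ := fun k => (hmon k (k + 1) (Nat.le_succ k)).diff (hv k) (hv (k + 1))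
  have hwA : ∀ n, w n ∈ A := by
    intro n
    cases n with
    | zero => exact hA 0
    | succ k => exact sub_mem (hA _) (hA _)
  have hwp : ∀ n, w n * star (w n) * w n = w n := by
    intro n
    cases n with
    | zero => exact hv 0
    | succ k => exact (hd k).2.2
  have hs1 : ∀ n, (∑ i ∈ Finset.range (n + 1), w i) = v n := by
    intro n
    induction n with
    | zero => simp [hw0]
    | succ n ih => rw [Finset.sum_range_succ, ih, hw1]; abel
  have hs2 : ∀ n, (∑ i ∈ Finset.range (n + 1), star (w i) * w i) = star (v n) * v n := by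
    intro n
    induction n with
    | zero => simp [hw0]
    | succ n ih => rw [Finset.sum_range_succ, ih, hw1, (hd n).1]; abel
  have hs3 : ∀ n, (∑ i ∈ Finset.range (n + 1), w i * star (w i)) = v n * star (v n) := by
    intro n
    induction n with
    | zero => simp [hw0]
    | succ n ih => rw [Finset.sum_range_succ, ih, hw1, (hd n).2.1]; abel
  -- orthogonality
  have ho1 : ∀ k n, k ≤ n → star (v k) * w (n + 1) = 0 := by
    intro k n hk
    rw [hw1, mul_sub, (hmon k (n + 1) (by omega)).star_mul_right (hv k),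
      (hmon k n hk).star_mul_right (hv k), sub_self]
  have ho2 : ∀ k n, k ≤ n → v k * star (w (n + 1)) = 0 := by
    intro k n hk
    rw [hw1, star_sub, mul_sub, (hmon k (n + 1) (by omega)).mul_star_right (hv k),
      (hmon k n hk).mul_star_right (hv k), sub_self]
  have hp1 : ∀ m n, m < n → star (w m) * w n = 0 := by
    intro m n hmn
    obtain ⟨n, rfl⟩ : ∃ k, n = k + 1 := ⟨n - 1, by omega⟩
    cases m with
    | zero => exact ho1 0 n (by omega)
    | succ m =>
      rw [hw1 m, star_sub, sub_mul, ho1 (m + 1) n (by omega), ho1 m n (by omega), sub_self]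
  have hp2 : ∀ m n, m < n → w m * star (w n) = 0 := by
    intro m n hmn
    obtain ⟨n, rfl⟩ : ∃ k, n = k + 1 := ⟨n - 1, by omega⟩
    cases m with
    | zero => exact ho2 0 n (by omega)
    | succ m =>
      rw [hw1 m, sub_mul, ho2 (m + 1) n (by omega), ho2 m n (by omega), sub_self]
  have h1 : ∀ m n, m ≠ n → star (w m) * w n = 0 := by
    intro m n hmn
    rcases lt_or_gt_of_ne hmn with h | h
    · exact hp1 m n h
    · have := congrArg star (hp1 n m h)
      simpa [star_mul] using this
  have h2 : ∀ m n, m ≠ n → w m * star (w n) = 0 := by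
    intro m n hmn
    rcases lt_or_gt_of_ne hmn with h | h
    · exact hp2 m n h
    · have := congrArg star (hp2 n m h)
      simpa [star_mul] using this
  obtain ⟨V, hVA, hV, c1, c2, c3, c4, c5, c6⟩ := exists_sum hwA hwp h1 h2
  have lim : ∀ (F : ℕ → H →L[ℂ] H) (G : ℕ → H →L[ℂ] H) (S : H →L[ℂ] H) (x : H),
      (∀ n, (∑ i ∈ Finset.range (n + 1), F i) = G n) → HasSum (fun n => F n x) (S x) →
      Tendsto (fun n => G n x) atTop (𝓝 (S x)) := by
    intro F G S x hFG hsum
    have := (hsum.tendsto_sum_nat).comp (tendsto_add_atTop_nat 1)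
    refine this.congr fun n => ?_
    simp only [Function.comp]
    rw [← hFG n, ContinuousLinearMap.sum_apply]
  refine ⟨V, hVA, hV, fun n => ⟨?_, ?_⟩, fun x => lim w v V x hs1 (c1 x), fun x => ?_,
    fun x => lim _ _ _ x hs2 (c3 x), fun x => lim _ _ _ x hs3 (c4 x)⟩
  · rw [← hs2 n, Finset.mul_sum, ← hs1 n]
    exact Finset.sum_congr rfl fun i _ => c5 i
  · rw [← hs3 n, Finset.sum_mul, ← hs1 n]
    exact Finset.sum_congr rfl fun i _ => c6 i
  · refine lim (fun n => star (w n)) (fun n => star (v n)) (star V) x (fun n => ?_) (c2 x)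
    rw [← hs1 n, star_sum]

end ExhAux

end Pool.Agent.Helper88.CS

end

section

open scoped InnerProductSpace Topology ENNReal BoundedContinuousFunction

open ContinuousLinearMap Filter MeasureTheory

namespace Pool.Agent.Helper23.ED

open Pool.Agent.Helper23 Pool.Agent.Helper23.RBF

open Pool.Agent.Helper78.BC.Transport (Sub r)

universe u

variable {H : Type u} [NormedAddCommGroup H] [InnerProductSpace ℂ H] [CompleteSpace H]

variable {K : Type u} [NormedAddCommGroup K] [InnerProductSpace ℂ K] [CompleteSpace K]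

variable {L : Type u} [NormedAddCommGroup L] [InnerProductSpace ℂ L] [CompleteSpace L]

variable {N : VonNeumannAlgebra H} {ψ : (H →L[ℂ] H) → ℝ≥0∞} {ξ : H} {i : K →L[ℂ] H} {κ : K}
  {Λ : (H →L[ℂ] H) → L} {ρ : (H →L[ℂ] H) → (L →L[ℂ] L)}

theorem Gp_dense (Sb : Sub N ξ i κ) (hψ : IsNSFWeight N ψ) (hG : Gns N ψ Λ ρ) (η : K)
    (h : ∀ p ∈ Gp N ψ ξ i Λ, ⟪p.1, η⟫_ℂ = 0) : η = 0 := by
  refine Sb.i_inj ?_
  rw [map_zero]
  refine hψ.semifinite (i η) fun x hx hx0 hxt => ?_
  obtain ⟨Y, hY, hYx⟩ := exists_sqrt_mem N hx hx0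
  have ha : star Y ∈ Dm N ψ := by
    refine ⟨star_mem hY, ?_⟩
    rw [star_star, hYx]
    exact hxt
  have h1 : ∀ p ∈ N, ⟪p ξ, Y (i η)⟫_ℂ = 0 := by
    intro p hp
    have h2 : star Y * p ∈ Dm N ψ := Dm_mul hψ ha hp
    have h3 : i (r i (star Y * p) κ) = (star Y * p) ξ := by
      rw [Sb.i_r h2.1, Sb.vec]
    have h4 := h (r i (star Y * p) κ, Λ (star Y * p)) ⟨_, h2, h3, rfl⟩
    have h5 : ⟪i (r i (star Y * p) κ), i η⟫_ℂ = ⟪r i (star Y * p) κ, η⟫_ℂ := by
      rw [← adjoint_inner_right, Sb.isom]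
    rw [h4, h3, mul_apply_eq_comp, ContinuousLinearMap.star_eq_adjoint, adjoint_inner_left] at h5
    exact h5
  set w : K := r i Y η with hw
  have hiw : i w = Y (i η) := Sb.i_r hY η
  have h6 : i w = 0 := by
    by_contra hne
    have hpos : 0 < ‖i w‖ := norm_pos_iff.2 hne
    obtain ⟨p, hp, hlt⟩ := Sb.cyc w ‖i w‖ hpos
    have h7 : ⟪i w, i w⟫_ℂ = ⟪i w - p ξ, i w⟫_ℂ := by
      rw [inner_sub_left, hiw, h1 p hp, sub_zero]
    have h8 : ‖i w‖ ^ 2 ≤ ‖i w - p ξ‖ * ‖i w‖ := by
      have h9 := norm_inner_le_norm (𝕜 := ℂ) (i w - p ξ) (i w)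
      rw [← h7, inner_self_eq_norm_sq_to_K] at h9
      simpa using h9
    rw [norm_sub_rev] at hlt
    nlinarith
  rw [← hYx, mul_apply_eq_comp, ← hiw, h6, map_zero]

end Pool.Agent.Helper23.ED

end

section

open scoped InnerProductSpace Topology ENNReal BoundedContinuousFunction

open ContinuousLinearMap Filter MeasureTheory

namespace Pool.Agent.Helper23.ED

open Pool.Agent.Helper23 Pool.Agent.Helper23.RBF

open Pool.Agent.Helper78.BC.Transport (Sub r)

universe u

open TopologicalSpace

variable {H : Type*} [NormedAddCommGroup H] [InnerProductSpace ℂ H] [CompleteSpace H]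

variable {N : VonNeumannAlgebra H} {ξ : H} {W : ℝ → H →L[ℂ] H}

namespace WuA

lemma mem_cvn_commutant {S : Set (H →L[ℂ] H)} {a : H →L[ℂ] H} (ha : a ∈ S) :
    a ∈ (cvn S).commutant := by
  rw [mem_comm_iff]
  intro g hg
  exact ((mem_cvn.1 hg) a ha).1.symm

end WuA

end Pool.Agent.Helper23.ED

end
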