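import Pool.Agent.Helper23.FA.Ns
import Pool.Agent.Helper23.FA.L00_02
import Pool.Agent.Helper23.FA.L00_03
import Pool.Agent.Helper23.FA.L00_04
import Pool.Agent.Helper23.FA.L00_05
import Pool.Agent.Helper23.FA.L00_08
import Pool.Agent.Helper23.FA.L00_11
import Pool.Agent.Helper23.FA.L00_13
import Pool.Agent.Helper23.FA.L00_14
import Pool.Agent.Helper23.FA.L00_17
import Pool.Agent.Helper23.FA.L00_18
import Pool.Agent.Helper23.FA.L00_19

/-!
Parts of Helper78.BC.LipAll, Helper78.BC.Fam, Helper23.Amp1, Helper23.Rk, Helper23.Pol, Helper23.Ampl, Helper23.UMain, Helper5.PU.SeqSurj, Helper23.ED.SmA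
-/

section

open scoped InnerProductSpace Topology BoundedContinuousFunction

open ContinuousLinearMap Filter

namespace Pool.Agent.Helper78.BC

variable {H : Type*} [NormedAddCommGroup H] [InnerProductSpace ℂ H] [CompleteSpace H]

variable {A : VonNeumannAlgebra H} {ξ : H} {J : H →L[ℝ] H}
  {Ψ : (ℝ →ᵇ ℂ) →⋆ₐ[ℂ] (H →L[ℂ] H)}

namespace LipAll

/-- the exponential of an element of the algebra is in the algebra -/
theorem exp_mem {x : H →L[ℂ] H} (hx : x ∈ A) : NormedSpace.exp x ∈ A := by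
  rw [Pool.Agent.Helper23.mem_iff_commutes]
  intro g hg
  have h1 : Commute g x := (Pool.Agent.Helper23.mem_iff_commutes.1 hx) g hg
  exact h1.exp_right

/-- the inequality passes to skew-adjoint elements -/
theorem skew (h : Std A ξ J Ψ) {ζ : H} {K : ℝ}
    (hu : ∀ u, Un A u → ‖cm J u ζ‖ ≤ K * ‖cm J u ξ‖) {x : H →L[ℂ] H} (hx : x ∈ A)
    (hs : star x = -x) : ‖cm J x ζ‖ ≤ K * ‖cm J x ξ‖ := by
  have hU : ∀ t : ℝ, Un A (NormedSpace.exp (t • x)) := by
    intro t
    let _ : NormedAlgebra ℚ (H →L[ℂ] H) := NormedAlgebra.restrictScalars ℚ ℂ _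
    have e1 : star (t • x) = -(t • x) := by rw [star_smul, star_trivial, hs, smul_neg]
    refine ⟨exp_mem ?_, ?_, ?_⟩
    · have : t • x = (t : ℂ) • x := (Complex.coe_smul t x).symm
      rw [this]
      exact Pool.Agent.Helper23.smul_mem' _ hx
    · rw [NormedSpace.star_exp, e1, ← NormedSpace.exp_add_of_commute
        (Commute.refl _).neg_left, neg_add_cancel, NormedSpace.exp_zero]
    · rw [NormedSpace.star_exp, e1, ← NormedSpace.exp_add_of_commute
        (Commute.refl _).neg_right, add_neg_cancel, NormedSpace.exp_zero]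
  have h0 : ∀ v, cm J (NormedSpace.exp ((0 : ℝ) • x)) v = 0 := by
    intro v
    rw [zero_smul, NormedSpace.exp_zero]
    show v - J ((star (1 : H →L[ℂ] H)) (J v)) = 0
    rw [star_one]
    show v - J (J v) = 0
    rw [h.J_J, sub_self]
  have hl : ∀ v, Tendsto (fun t : ℝ => ‖t⁻¹ • cm J (NormedSpace.exp (t • x)) v‖) (𝓝[≠] 0)
      (𝓝 ‖cm J x v‖) := by
    intro v
    have h1 := hasDerivAt_iff_tendsto_slope_zero.1 (hasDerivAt_cm (J := J) x v)
    simp only [zero_add, h0, sub_zero] at h1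
    exact h1.norm
  refine le_of_tendsto_of_tendsto (hl ζ) ((hl ξ).const_mul K) (Eventually.of_forall fun t => ?_)
  show ‖t⁻¹ • cm J (NormedSpace.exp (t • x)) ζ‖ ≤ K * ‖t⁻¹ • cm J (NormedSpace.exp (t • x)) ξ‖
  rw [norm_smul, norm_smul]
  calc ‖t⁻¹‖ * ‖cm J (NormedSpace.exp (t • x)) ζ‖
      ≤ ‖t⁻¹‖ * (K * ‖cm J (NormedSpace.exp (t • x)) ξ‖) :=
        mul_le_mul_of_nonneg_left (hu _ (hU t)) (norm_nonneg _)
    _ = K * (‖t⁻¹‖ * ‖cm J (NormedSpace.exp (t • x)) ξ‖) := by ring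

/-- the commutators of `y` and `y*` with `ξ` have the same norm -/
theorem norm_cm_star (h : Std A ξ J Ψ) (y : H →L[ℂ] H) :
    ‖cm J (star y) ξ‖ = ‖cm J y ξ‖ := by
  have e : cm J (star y) ξ = -J (cm J y ξ) := by
    simp only [cm, rm, star_star, map_sub, h.J_J, h.J_xi]
    abel
  rw [e, norm_neg, h.J_norm]

end LipAll

open LipAll in
theorem lip_all (h : Std A ξ J Ψ) {ζ : H} {K : ℝ} (hK : 0 ≤ K)
    (hu : ∀ u, Un A u → ‖cm J u ζ‖ ≤ K * ‖cm J u ξ‖) :
    ∀ y ∈ A, ‖cm J y ζ‖ ≤ 2 * K * ‖cm J y ξ‖ := by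
  intro y hy
  have hy' : star y ∈ A := star_mem hy
  -- `y = p + i q` with `p` and `q` skew-adjoint
  let p : H →L[ℂ] H := (1 / 2 : ℂ) • (y - star y)
  let q : H →L[ℂ] H := (-(Complex.I / 2) : ℂ) • (y + star y)
  have hp : p ∈ A := Pool.Agent.Helper23.smul_mem' _ (sub_mem hy hy')
  have hq : q ∈ A := Pool.Agent.Helper23.smul_mem' _ (add_mem hy hy')
  have hps : star p = -p := by
    show star ((1 / 2 : ℂ) • (y - star y)) = -((1 / 2 : ℂ) • (y - star y))
    rw [star_smul, star_sub, star_star, ← smul_neg, neg_sub]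
    congr 1
    simp
  have hqs : star q = -q := by
    show star ((-(Complex.I / 2) : ℂ) • (y + star y)) = -((-(Complex.I / 2) : ℂ) • (y + star y))
    rw [star_smul, star_add, star_star, ← neg_smul, add_comm (star y) y]
    congr 1
    simp [neg_div]
  have hy2 : y = p + Complex.I • q := by
    show y = (1 / 2 : ℂ) • (y - star y) + Complex.I • ((-(Complex.I / 2) : ℂ) • (y + star y))
    rw [smul_smul]
    have e : Complex.I * -(Complex.I / 2) = 1 / 2 := by
      have := Complex.I_mul_I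
      linear_combination (-1 / 2) * this
    rw [e, ← smul_add, sub_add_add_cancel, ← two_smul ℂ y, smul_smul]
    norm_num
  have b1 : ‖cm J p ξ‖ ≤ ‖cm J y ξ‖ := by
    have e : cm J p ξ = (1 / 2 : ℂ) • (cm J y ξ - cm J (star y) ξ) := by
      show cm J ((1 / 2 : ℂ) • (y - star y)) ξ = _
      rw [cm_smul h.J_conj, sub_eq_add_neg, cm_add, ← neg_one_smul ℂ (star y),
        cm_smul h.J_conj, neg_one_smul, ← sub_eq_add_neg]
    rw [e, norm_smul]
    have := norm_sub_le (cm J y ξ) (cm J (star y) ξ)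
    rw [norm_cm_star h] at this
    have e2 : ‖(1 / 2 : ℂ)‖ = 1 / 2 := by norm_num
    rw [e2]
    linarith
  have b2 : ‖cm J q ξ‖ ≤ ‖cm J y ξ‖ := by
    have e : cm J q ξ = (-(Complex.I / 2) : ℂ) • (cm J y ξ + cm J (star y) ξ) := by
      show cm J ((-(Complex.I / 2) : ℂ) • (y + star y)) ξ = _
      rw [cm_smul h.J_conj, cm_add]
    rw [e, norm_smul]
    have := norm_add_le (cm J y ξ) (cm J (star y) ξ)
    rw [norm_cm_star h] at this
    have e2 : ‖(-(Complex.I / 2) : ℂ)‖ = 1 / 2 := by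
      rw [norm_neg, norm_div, Complex.norm_I]
      norm_num
    rw [e2]
    linarith
  have c1 := skew h hu hp hps
  have c2 := skew h hu hq hqs
  have e : cm J y ζ = cm J p ζ + Complex.I • cm J q ζ := by
    conv_lhs => rw [hy2]
    rw [cm_add J p, cm_smul h.J_conj Complex.I q]
  rw [e]
  calc ‖cm J p ζ + Complex.I • cm J q ζ‖ ≤ ‖cm J p ζ‖ + ‖Complex.I • cm J q ζ‖ := norm_add_le _ _
    _ = ‖cm J p ζ‖ + ‖cm J q ζ‖ := by rw [norm_smul, Complex.norm_I, one_mul]
    _ ≤ K * ‖cm J p ξ‖ + K * ‖cm J q ξ‖ := add_le_add c1 c2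
    _ ≤ K * ‖cm J y ξ‖ + K * ‖cm J y ξ‖ :=
        add_le_add (mul_le_mul_of_nonneg_left b1 hK) (mul_le_mul_of_nonneg_left b2 hK)
    _ = 2 * K * ‖cm J y ξ‖ := by ring

end Pool.Agent.Helper78.BC

end

section

open scoped InnerProductSpace Topology BoundedContinuousFunction

open ContinuousLinearMap Filter

namespace Pool.Agent.Helper78.BC

variable {H : Type*} [NormedAddCommGroup H] [InnerProductSpace ℂ H] [CompleteSpace H]

variable {A : VonNeumannAlgebra H} {ξ : H} {J : H →L[ℝ] H}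
  {Ψ : (ℝ →ᵇ ℂ) →⋆ₐ[ℂ] (H →L[ℂ] H)}

namespace Fam

theorem key (h : Std A ξ J Ψ) {v w y : H →L[ℂ] H} (hv : v ∈ A) (hw : w ∈ A) (hy : y ∈ A)
    (hvv : v * star v = 1) (hww : w * star w = 1) (ζ : H) :
    y (cj J v ζ) - rm J y (cj J w ζ) = w (J (v (J (cm J (star w * y * v) ζ)))) := by
  have hT : star w * y * v ∈ A := mul_mem (mul_mem (star_mem hw) hy) hv
  have e1 : w (J (v (J ((star w * y * v) ζ)))) = y (cj J v ζ) := by
    rw [h.J_comm v hv _ hT ζ]
    change w ((star w) (y (v (J (v (J ζ)))))) = _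
    rw [coiso_apply hww]
    rfl
  have e2 : w (J (v (J (rm J (star w * y * v) ζ)))) = rm J y (cj J w ζ) := by
    have hs : star (star w * y * v) = star v * (star y * w) := by
      simp [star_mul, mul_assoc]
    rw [rm, h.J_J, hs]
    change w (J (v ((star v) ((star y) (w (J ζ)))))) = _
    rw [coiso_apply hvv]
    unfold rm cj
    rw [h.J_comm (star y) (star_mem hy) w hw, h.J_J]
  rw [cm, map_sub, map_sub, map_sub, map_sub, e1, e2]

theorem cm_est (h : Std A ξ J Ψ) {v w y : H →L[ℂ] H} {l m e1 e2 : ℝ} (hv : Lev A ξ J l e1 v)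
    (hw : Lev A ξ J m e2 w) (hy : y ∈ A) :
    ‖cm J (star w * y * v) ξ‖ ≤
      ‖((Real.sqrt l : ℝ) : ℂ) • y ξ - ((Real.sqrt m : ℝ) : ℂ) • rm J y ξ‖ + (e1 + e2) * ‖y‖ := by
  obtain ⟨hvA, hvv, hv1⟩ := hv
  obtain ⟨hwA, hww, hw1⟩ := hw
  have nv := norm_coiso hvv
  have nw := norm_coiso hww
  have nv' : ‖star v‖ ≤ 1 := by rwa [norm_star]
  have nw' : ‖star w‖ ≤ 1 := by rwa [norm_star]
  set a : ℂ := ((Real.sqrt l : ℝ) : ℂ) with ha
  set b : ℂ := ((Real.sqrt m : ℝ) : ℂ) with hb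
  have hbc : (starRingEnd ℂ) b = b := Complex.conj_ofReal _
  have hac : (starRingEnd ℂ) a = a := Complex.conj_ofReal _
  have hs : star (star w * y * v) = star v * (star y * w) := by
    simp [star_mul, mul_assoc]
  -- the main term
  have hmain : (star w) (J ((star v) (J (a • y ξ - b • rm J y ξ)))) =
      a • (star w) (y (rm J v ξ)) - b • J ((star v) ((star y) (rm J w ξ))) := by
    have e1 : (star w) (y (rm J v ξ)) = (star w) (J ((star v) (J (y ξ)))) := by
      unfold rm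
      rw [h.J_comm (star v) (star_mem hvA) y hy ξ]
    have e2 : J ((star v) ((star y) (rm J w ξ))) = (star w) (J ((star v) (J (rm J y ξ)))) := by
      unfold rm
      rw [h.J_xi, h.J_J]
      have := h.J_comm (star v * star y) (mul_mem (star_mem hvA) (star_mem hy)) (star w)
        (star_mem hwA) ξ
      rw [h.J_xi] at this
      exact this
    rw [e1, e2]
    simp only [map_sub, h.J_conj, ContinuousLinearMap.map_smul, hac, hbc]
  have hid : cm J (star w * y * v) ξ =
      (star w) (J ((star v) (J (a • y ξ - b • rm J y ξ)))) +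
      ((star w) (y (v ξ - a • rm J v ξ)) - J ((star v) ((star y) (w ξ - b • rm J w ξ)))) := by
    rw [hmain]
    unfold cm
    have : rm J (star w * y * v) ξ = J ((star v) ((star y) (w ξ))) := by
      rw [rm, hs, h.J_xi]
      rfl
    rw [this]
    simp only [map_sub, map_smul, h.J_conj, hbc]
    change (star w) (y (v ξ)) - _ = _
    abel
  rw [hid]
  refine (norm_add_le _ _).trans ?_
  refine add_le_add ?_ ?_
  · calc ‖(star w) (J ((star v) (J (a • y ξ - b • rm J y ξ))))‖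
        ≤ ‖J ((star v) (J (a • y ξ - b • rm J y ξ)))‖ := app_le nw' _
      _ = ‖(star v) (J (a • y ξ - b • rm J y ξ))‖ := h.J_norm _
      _ ≤ ‖J (a • y ξ - b • rm J y ξ)‖ := app_le nv' _
      _ = ‖a • y ξ - b • rm J y ξ‖ := h.J_norm _
  · have f1 : ‖(star w) (y (v ξ - a • rm J v ξ))‖ ≤ e1 * ‖y‖ := by
      calc ‖(star w) (y (v ξ - a • rm J v ξ))‖ ≤ ‖y (v ξ - a • rm J v ξ)‖ := app_le nw' _
        _ ≤ ‖y‖ * ‖v ξ - a • rm J v ξ‖ := y.le_opNorm _
        _ ≤ ‖y‖ * e1 := by gcongr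
        _ = e1 * ‖y‖ := mul_comm _ _
    have f2 : ‖J ((star v) ((star y) (w ξ - b • rm J w ξ)))‖ ≤ e2 * ‖y‖ := by
      calc ‖J ((star v) ((star y) (w ξ - b • rm J w ξ)))‖
          = ‖(star v) ((star y) (w ξ - b • rm J w ξ))‖ := h.J_norm _
        _ ≤ ‖(star y) (w ξ - b • rm J w ξ)‖ := app_le nv' _
        _ ≤ ‖star y‖ * ‖w ξ - b • rm J w ξ‖ := (star y).le_opNorm _
        _ = ‖y‖ * ‖w ξ - b • rm J w ξ‖ := by rw [norm_star]
        _ ≤ ‖y‖ * e2 := by gcongr
        _ = e2 * ‖y‖ := mul_comm _ _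
    calc _ ≤ ‖(star w) (y (v ξ - a • rm J v ξ))‖ +
          ‖J ((star v) ((star y) (w ξ - b • rm J w ξ)))‖ := norm_sub_le _ _
      _ ≤ e1 * ‖y‖ + e2 * ‖y‖ := add_le_add f1 f2
      _ = _ := by ring

theorem est (h : Std A ξ J Ψ) {ζ : H} {C : ℝ} (hC : 0 ≤ C)
    (hζ : ∀ y ∈ A, ‖cm J y ζ‖ ≤ C * ‖cm J y ξ‖) {v w y : H →L[ℂ] H} {l m e1 e2 : ℝ}
    (hv : Lev A ξ J l e1 v) (hw : Lev A ξ J m e2 w) (hy : y ∈ A) :
    ‖y (cj J v ζ) - rm J y (cj J w ζ)‖ ≤
      C * (‖((Real.sqrt l : ℝ) : ℂ) • y ξ - ((Real.sqrt m : ℝ) : ℂ) • rm J y ξ‖ +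
        (e1 + e2) * ‖y‖) := by
  rw [key h hv.1 hw.1 hy hv.2.1 hw.2.1]
  have nv := norm_coiso hv.2.1
  have nw := norm_coiso hw.2.1
  have hT : star w * y * v ∈ A := mul_mem (mul_mem (star_mem hw.1) hy) hv.1
  calc ‖w (J (v (J (cm J (star w * y * v) ζ))))‖ ≤ ‖J (v (J (cm J (star w * y * v) ζ)))‖ :=
        app_le nw _
    _ = ‖v (J (cm J (star w * y * v) ζ))‖ := h.J_norm _
    _ ≤ ‖J (cm J (star w * y * v) ζ)‖ := app_le nv _
    _ = ‖cm J (star w * y * v) ζ‖ := h.J_norm _
    _ ≤ C * ‖cm J (star w * y * v) ξ‖ := hζ _ hT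
    _ ≤ _ := by
      gcongr
      exact cm_est h hv hw hy

theorem est_one (h : Std A ξ J Ψ) {ζ : H} {C : ℝ} (hC : 0 ≤ C)
    (hζ : ∀ y ∈ A, ‖cm J y ζ‖ ≤ C * ‖cm J y ξ‖) {v w : H →L[ℂ] H} {l e1 e2 : ℝ}
    (he1 : 0 ≤ e1) (he2 : 0 ≤ e2)
    (hv : Lev A ξ J l e1 v) (hw : Lev A ξ J l e2 w) :
    ‖cj J v ζ - cj J w ζ‖ ≤ C * (e1 + e2) := by
  have h1 := est h hC hζ hv hw (one_mem A)
  have hr : ∀ x, rm J (1 : H →L[ℂ] H) x = x := by
    intro x
    rw [rm, star_one]
    exact h.J_J x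
  rw [hr, hr] at h1
  have h2 : ‖(1 : H →L[ℂ] H)‖ ≤ 1 := ContinuousLinearMap.norm_id_le
  have h3 : (e1 + e2) * ‖(1 : H →L[ℂ] H)‖ ≤ e1 + e2 := by
    calc (e1 + e2) * ‖(1 : H →L[ℂ] H)‖ ≤ (e1 + e2) * 1 := by gcongr
      _ = _ := mul_one _
  refine h1.trans (mul_le_mul_of_nonneg_left ?_ hC)
  have h4 : (1 : H →L[ℂ] H) ξ = ξ := rfl
  rw [h4, sub_self, norm_zero, zero_add]
  exact h3

theorem lev_one (h : Std A ξ J Ψ) : Lev A ξ J 1 0 1 := by
  refine ⟨one_mem A, by simp, ?_⟩
  have hr : rm J (1 : H →L[ℂ] H) ξ = ξ := by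
    rw [rm, star_one]
    exact h.J_J ξ
  rw [hr]
  simp

end Fam

open Fam in
theorem exists_fam (h : Std A ξ J Ψ)
    (hlev : ∀ l : ℝ, 0 < l → l ≤ 1 → ∀ ε : ℝ, 0 < ε → ∃ v, Lev A ξ J l ε v)
    {ζ : H} {C : ℝ} (hC : 0 ≤ C) (hζ : ∀ y ∈ A, ‖cm J y ζ‖ ≤ C * ‖cm J y ξ‖) :
    ∃ z : ℝ → H, LevFam A ξ J C ζ z := by
  have hpos : ∀ n : ℕ, (0 : ℝ) < 1 / ((n : ℝ) + 1) := fun n => by positivity
  choose! V hV using fun (l : ℝ) (hl : 0 < l) (hl1 : l ≤ 1) (n : ℕ) => hlev l hl hl1 _ (hpos n)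
  have hlim0 : Tendsto (fun n : ℕ => 1 / ((n : ℝ) + 1)) atTop (𝓝 0) :=
    tendsto_one_div_add_atTop_nhds_zero_nat
  have hcau : ∀ l : ℝ, 0 < l → l ≤ 1 → CauchySeq (fun n => cj J (V l n) ζ) := by
    intro l hl hl1
    have hb : Tendsto (fun N : ℕ => C * (1 / ((N : ℝ) + 1) + 1 / ((N : ℝ) + 1))) atTop (𝓝 0) := by
      have := (hlim0.add hlim0).const_mul C
      simpa using this
    refine cauchySeq_of_le_tendsto_0 _ ?_ hb
    intro n m N hn hm
    rw [dist_eq_norm]
    refine (est_one h hC hζ (hpos n).le (hpos m).le (hV l hl hl1 n) (hV l hl hl1 m)).trans ?_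
    have a1 : 1 / ((n : ℝ) + 1) ≤ 1 / ((N : ℝ) + 1) := by
      apply one_div_le_one_div_of_le (by positivity)
      have : (N : ℝ) ≤ n := by exact_mod_cast hn
      linarith
    have a2 : 1 / ((m : ℝ) + 1) ≤ 1 / ((N : ℝ) + 1) := by
      apply one_div_le_one_div_of_le (by positivity)
      have : (N : ℝ) ≤ m := by exact_mod_cast hm
      linarith
    gcongr
  have hex : ∀ l : ℝ, ∃ x : H, 0 < l → l ≤ 1 → Tendsto (fun n => cj J (V l n) ζ) atTop (𝓝 x) := by
    intro l
    by_cases hl : 0 < l ∧ l ≤ 1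
    · obtain ⟨x, hx⟩ := cauchySeq_tendsto_of_complete (hcau l hl.1 hl.2)
      exact ⟨x, fun _ _ => hx⟩
    · exact ⟨0, fun h1 h2 => absurd ⟨h1, h2⟩ hl⟩
  choose z hz using hex
  refine ⟨z, ?_, ?_, ?_⟩
  · have h1 := hz 1 one_pos le_rfl
    have hc1 : cj J (1 : H →L[ℂ] H) ζ = ζ := by
      change J (J ζ) = ζ
      exact h.J_J ζ
    have h2 : Tendsto (fun n => cj J (V 1 n) ζ) atTop (𝓝 ζ) := by
      rw [tendsto_iff_norm_sub_tendsto_zero]
      have hb : Tendsto (fun N : ℕ => C * (1 / ((N : ℝ) + 1) + 0)) atTop (𝓝 0) := by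
        have := (hlim0.add (tendsto_const_nhds (x := (0 : ℝ)))).const_mul C
        simpa using this
      refine squeeze_zero (fun n => norm_nonneg _) (fun n => ?_) hb
      have := est_one h hC hζ (hpos n).le le_rfl (hV 1 one_pos le_rfl n) (lev_one h)
      rwa [hc1] at this
    exact tendsto_nhds_unique h1 h2
  · intro l hl hl1
    exact le_of_tendsto' (hz l hl hl1).norm fun n => norm_cj h (hV l hl hl1 n).2.1 ζ
  · intro l m hl hl1 hm hm1 y hy
    have t1 : Tendsto (fun n => ‖y (cj J (V l n) ζ) - rm J y (cj J (V m n) ζ)‖) atTop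
        (𝓝 ‖y (z l) - rm J y (z m)‖) := by
      refine Tendsto.norm (Tendsto.sub ?_ ?_)
      · exact (y.continuous.tendsto _).comp (hz l hl hl1)
      · have hc : Continuous (fun x : H => rm J y x) := by
          unfold rm
          exact J.continuous.comp ((star y).continuous.comp J.continuous)
        exact (hc.tendsto _).comp (hz m hm hm1)
    have t2 : Tendsto (fun n : ℕ => C * (‖((Real.sqrt l : ℝ) : ℂ) • y ξ -
        ((Real.sqrt m : ℝ) : ℂ) • rm J y ξ‖ + (1 / ((n : ℝ) + 1) + 1 / ((n : ℝ) + 1)) * ‖y‖)) atTop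
        (𝓝 (C * ‖((Real.sqrt l : ℝ) : ℂ) • y ξ - ((Real.sqrt m : ℝ) : ℂ) • rm J y ξ‖)) := by
      have h0 : Tendsto (fun n : ℕ => (1 / ((n : ℝ) + 1) + 1 / ((n : ℝ) + 1)) * ‖y‖) atTop
          (𝓝 0) := by
        have := (hlim0.add hlim0).mul_const ‖y‖
        simpa using this
      have := (h0.const_add ‖((Real.sqrt l : ℝ) : ℂ) • y ξ -
        ((Real.sqrt m : ℝ) : ℂ) • rm J y ξ‖).const_mul C
      simpa using this
    exact le_of_tendsto_of_tendsto' t1 t2 fun n =>
      est h hC hζ (hV l hl hl1 n) (hV m hm hm1 n) hy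

end Pool.Agent.Helper78.BC

end

section

open scoped InnerProductSpace Topology ENNReal

open ContinuousLinearMap Filter MeasureTheory

set_option linter.unusedSectionVars false

set_option linter.unusedVariables false

namespace Pool.Agent.Helper23

variable {G : Type*} [NormedAddCommGroup G] [InnerProductSpace ℂ G] [CompleteSpace G]

variable {G' : Type*} [NormedAddCommGroup G'] [InnerProductSpace ℂ G'] [CompleteSpace G']

variable {G'' : Type*} [NormedAddCommGroup G''] [InnerProductSpace ℂ G''] [CompleteSpace G'']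

lemma BM.add {m m' : ℝ → ℂ} (h : BM m) (h' : BM m') : BM (fun s => m s + m' s) := by
  obtain ⟨hm, C, hC0, hC⟩ := h
  obtain ⟨hm', C', hC0', hC'⟩ := h'
  exact ⟨hm.add hm', C + C', by positivity, fun s =>
    (norm_add_le _ _).trans (add_le_add (hC s) (hC' s))⟩

lemma BM.constMul {m : ℝ → ℂ} (c : ℂ) (h : BM m) : BM (fun s => c * m s) := by
  obtain ⟨hm, C, hC0, hC⟩ := h
  refine ⟨hm.const_mul c, ‖c‖ * C, by positivity, fun s => ?_⟩
  rw [norm_mul]
  gcongr
  exact hC s

omit [CompleteSpace G] in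
lemma mulOp_add {m m' : ℝ → ℂ} (h : BM m) (h' : BM m') (F : L2R G) :
    mulOp G (fun s => m s + m' s) F = mulOp G m F + mulOp G m' F := by
  ext1
  filter_upwards [mulOp_coe h F, mulOp_coe h' F, mulOp_coe (h.add h') F,
    Lp.coeFn_add (mulOp G m F) (mulOp G m' F)] with s h1 h2 h3 h4
  rw [h3, h4, Pi.add_apply, h1, h2, add_smul]

omit [CompleteSpace G] in
lemma mulOp_constMul {m : ℝ → ℂ} (c : ℂ) (h : BM m) (F : L2R G) :
    mulOp G (fun s => c * m s) F = c • mulOp G m F := by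
  ext1
  filter_upwards [mulOp_coe h F, mulOp_coe (h.constMul c) F,
    Lp.coeFn_smul c (mulOp G m F)] with s h1 h3 h4
  rw [h3, h4, Pi.smul_apply, h1, mul_smul]

end Pool.Agent.Helper23

end

section

open scoped InnerProductSpace Topology ENNReal

open ContinuousLinearMap Filter MeasureTheory

set_option linter.unusedSectionVars false

set_option linter.unusedVariables false

namespace Pool.Agent.Helper23

variable {H : Type*} [NormedAddCommGroup H] [InnerProductSpace ℂ H] [CompleteSpace H]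

variable {M N : VonNeumannAlgebra H} {ξ : H} {E : (H →L[ℂ] H) → (H →L[ℂ] H)}

/-- commutation with unimodular multiplications gives commutation with all multiplications -/
lemma comm_mulOp {X : L2R H →L[ℂ] L2R H}
    (h : ∀ m : ℝ → ℂ, BM m → (∀ s, ‖m s‖ = 1) → mulOp H m * X = X * mulOp H m)
    {m : ℝ → ℂ} (hm : BM m) : mulOp H m * X = X * mulOp H m := by
  obtain ⟨hmeas, C, hC0, hC⟩ := hm
  -- real functions of modulus at most one
  have key : ∀ r : ℝ → ℝ, Measurable r → (∀ s, |r s| ≤ 1) → ∃ u : ℝ → ℂ, BM u ∧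
      (∀ s, ‖u s‖ = 1) ∧ ∀ s, u s + (starRingEnd ℂ) (u s) = 2 * r s := by
    intro r hr hr1
    have h1 : ∀ s, ‖(r s : ℂ) + Complex.I * (Real.sqrt (1 - r s ^ 2) : ℝ)‖ = 1 := by
      intro s
      have h2 : r s ^ 2 ≤ 1 := by
        have := hr1 s
        rw [← sq_abs]
        nlinarith [abs_nonneg (r s)]
      rw [mul_comm, Complex.norm_add_mul_I, Real.sq_sqrt (by linarith)]
      simp
    refine ⟨fun s => (r s : ℂ) + Complex.I * (Real.sqrt (1 - r s ^ 2) : ℝ), ?_, h1, ?_⟩
    · refine ⟨?_, 1, zero_le_one, fun s => (h1 s).le⟩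
      have h3 : Measurable fun s => (Real.sqrt (1 - r s ^ 2)) :=
        Real.continuous_sqrt.measurable.comp (measurable_const.sub (hr.pow_const 2))
      exact (Complex.measurable_ofReal.comp hr).add
        ((Complex.measurable_ofReal.comp h3).const_mul _)
    · intro s
      simp only [map_add, map_mul, Complex.conj_ofReal, Complex.conj_I]
      ring
  have hC1 : 0 < C + 1 := by linarith
  obtain ⟨u, hu, hu1, hur⟩ := key (fun s => (m s).re / (C + 1))
    ((Complex.measurable_re.comp hmeas).div_const _) (fun s => by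
      rw [abs_div, abs_of_pos hC1, div_le_one hC1]
      exact (Complex.abs_re_le_norm _).trans ((hC s).trans (by linarith)))
  obtain ⟨w, hw, hw1, hwr⟩ := key (fun s => (m s).im / (C + 1))
    ((Complex.measurable_im.comp hmeas).div_const _) (fun s => by
      rw [abs_div, abs_of_pos hC1, div_le_one hC1]
      exact (Complex.abs_im_le_norm _).trans ((hC s).trans (by linarith)))
  have hm' : m = fun s => ((C + 1) / 2 : ℂ) * (u s + (starRingEnd ℂ) (u s)) +
      ((C + 1) / 2 * Complex.I : ℂ) * (w s + (starRingEnd ℂ) (w s)) := by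
    funext s
    rw [hur, hwr]
    have hC2 : ((C : ℂ) + 1) ≠ 0 := by
      have : ((C + 1 : ℝ) : ℂ) ≠ 0 := by exact_mod_cast hC1.ne'
      simpa using this
    push_cast
    field_simp
    rw [mul_comm]
    exact (Complex.re_add_im (m s)).symm
  have hop : mulOp H m = ((C + 1) / 2 : ℂ) • (mulOp H u + mulOp H (fun s => (starRingEnd ℂ) (u s))) +
      ((C + 1) / 2 * Complex.I : ℂ) •
        (mulOp H w + mulOp H (fun s => (starRingEnd ℂ) (w s))) := by
    ext F : 1
    rw [hm', mulOp_add ((hu.add hu.conj).constMul _) ((hw.add hw.conj).constMul _),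
      mulOp_constMul _ (hu.add hu.conj), mulOp_constMul _ (hw.add hw.conj),
      mulOp_add hu hu.conj, mulOp_add hw hw.conj]
    rfl
  have c1 := h u hu hu1
  have c2 := h _ hu.conj (fun s => by rw [RCLike.norm_conj]; exact hu1 s)
  have c3 := h w hw hw1
  have c4 := h _ hw.conj (fun s => by rw [RCLike.norm_conj]; exact hw1 s)
  rw [hop]
  simp only [add_mul, mul_add, smul_mul_assoc, mul_smul_comm, c1, c2, c3, c4]

end Pool.Agent.Helper23

end

section

open scoped InnerProductSpace Topology ENNReal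

open ContinuousLinearMap Filter MeasureTheory

set_option linter.unusedSectionVars false

set_option linter.unusedVariables false

namespace Pool.Agent.Helper23

variable {H : Type*} [NormedAddCommGroup H] [InnerProductSpace ℂ H] [CompleteSpace H]

variable {M N : VonNeumannAlgebra H} {ξ : H} {E : (H →L[ℂ] H) → (H →L[ℂ] H)}

/-- a unit vector of `L²(ℝ)` -/
noncomputable def e0 : L2R ℂ :=
  indicatorConstLp 2 (measurableSet_Ico (a := (0 : ℝ)) (b := 1)) (by simp) (1 : ℂ)

lemma e0_norm : ‖e0‖ = 1 := by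
  rw [e0, norm_indicatorConstLp (by norm_num) (by norm_num)]
  simp

end Pool.Agent.Helper23

end

section

open scoped InnerProductSpace Topology ENNReal

open ContinuousLinearMap Filter MeasureTheory

set_option linter.unusedSectionVars false

set_option linter.unusedVariables false

namespace Pool.Agent.Helper23

variable {H : Type*} [NormedAddCommGroup H] [InnerProductSpace ℂ H] [CompleteSpace H]

variable {M N : VonNeumannAlgebra H} {ξ : H} {E : (H →L[ℂ] H) → (H →L[ℂ] H)}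

lemma hw_countable : Countable hw := by
  have : Fact ((2 : ℝ≥0∞) ≠ ⊤) := ⟨by norm_num⟩
  have hsc : SecondCountableTopology (L2R ℂ) := inferInstance
  have hsep : TopologicalSpace.SeparableSpace (L2R ℂ) := inferInstance
  refine Pairwise.countable_of_isOpen_disjoint
    (s := fun i : hw => Metric.ball (hb i : L2R ℂ) (1 / 2)) ?_ (fun i => Metric.isOpen_ball)
    (fun i => ⟨hb i, Metric.mem_ball_self (by norm_num)⟩)
  intro i j hij
  refine Set.disjoint_left.2 fun x hx hy => ?_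
  rw [Metric.mem_ball] at hx hy
  have h1 : dist (hb i : L2R ℂ) (hb j) < 1 := by
    calc dist (hb i : L2R ℂ) (hb j) ≤ dist (hb i : L2R ℂ) x + dist x (hb j) := dist_triangle _ _ _
      _ = dist x (hb i : L2R ℂ) + dist x (hb j) := by rw [dist_comm]
      _ < 1 := by linarith
  have h2 : ‖(hb i : L2R ℂ) - hb j‖ ^ 2 = 2 := by
    have h4 := @norm_sub_sq ℂ (L2R ℂ) _ _ _ (hb i) (hb j)
    rw [hb.orthonormal.2 hij, hb.orthonormal.1 i, hb.orthonormal.1 j] at h4
    rw [h4]
    simp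
    norm_num
  rw [dist_eq_norm] at h1
  nlinarith [norm_nonneg ((hb i : L2R ℂ) - hb j)]

lemma hb_total {F : L2R ℂ} (h : ∀ i : hw, ⟪(hb i : L2R ℂ), F⟫_ℂ = 0) : F = 0 := by
  have h1 : hb.repr F = 0 := by
    ext i
    rw [hb.repr_apply_apply]
    exact h i
  exact (map_eq_zero_iff _ hb.repr.injective).1 h1

/-- an isometry `L²(ℝ; H) → H` commuting with `N'` from a sequence of isometries of `N` -/
theorem exists_J {s : hw → H →L[ℂ] H} (hsN : ∀ i, s i ∈ N)
    (hs : ∀ i, star (s i) * s i = 1) (hs' : ∀ i j, i ≠ j → star (s i) * s j = 0) :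
    ∃ J : L2R H →L[ℂ] H, (∀ x y, ⟪J x, J y⟫_ℂ = ⟪x, y⟫_ℂ) ∧
      ∀ a ∈ N.commutant, ∀ x, J (lift a x) = a (J x) := by
  classical
  set e : (hw →₀ H) →ₗ[ℂ] L2R H := Finsupp.lsum ℂ fun i => (iot H (hb i)).toLinearMap with he
  set f : (hw →₀ H) →ₗ[ℂ] H := Finsupp.lsum ℂ fun i => (s i).toLinearMap with hf
  have he1 : ∀ c : hw →₀ H, e c = ∑ i ∈ c.support, ten (hb i) (c i) := fun c => by
    rw [he, Finsupp.lsum_apply]; rfl
  have hf1 : ∀ c : hw →₀ H, f c = ∑ i ∈ c.support, s i (c i) := fun c => by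
    rw [hf, Finsupp.lsum_apply]; rfl
  have hin : ∀ c d : hw →₀ H, ⟪f c, f d⟫_ℂ = ⟪e c, e d⟫_ℂ := by
    intro c d
    rw [he1, he1, hf1, hf1, sum_inner, sum_inner]
    refine Finset.sum_congr rfl fun i _ => ?_
    rw [inner_sum, inner_sum]
    refine Finset.sum_congr rfl fun j _ => ?_
    rw [inner_ten, ← inner_star_right]
    change ⟪c i, (star (s i) * s j) (d j)⟫_ℂ = _
    by_cases hij : i = j
    · subst hij
      rw [hs, inner_self_eq_norm_sq_to_K (𝕜 := ℂ) (hb i), hb.orthonormal.1 i]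
      simp
    · rw [hs' i j hij, hb.orthonormal.2 hij, zero_mul]
      exact inner_zero_right _
  have hnorm : ∀ c, ‖f c‖ = ‖e c‖ := by
    intro c
    have h1 := hin c c
    rw [inner_self_eq_norm_sq_to_K, inner_self_eq_norm_sq_to_K] at h1
    have h2 : ‖f c‖ ^ 2 = ‖e c‖ ^ 2 := by exact_mod_cast h1
    exact (pow_left_inj₀ (norm_nonneg _) (norm_nonneg _) two_ne_zero).1 h2
  have hes : ∀ i η, e (Finsupp.single i η) = ten (hb i) η := by
    intro i η
    rw [he, Finsupp.lsum_single]; rfl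
  have hfs : ∀ i η, f (Finsupp.single i η) = s i η := by
    intro i η
    rw [hf, Finsupp.lsum_single]; rfl
  have hd : DenseRange e := by
    have h1 : (LinearMap.range e)ᗮ = ⊥ := by
      rw [Submodule.eq_bot_iff]
      intro F hF
      refine eq_zero_of_ten fun g η => ?_
      have h2 : (adjoint (axi η)) F = 0 := by
        refine hb_total fun i => ?_
        rw [adjoint_inner_right]
        change ⟪ten (hb i) η, F⟫_ℂ = 0
        rw [← hes]
        exact (Submodule.mem_orthogonal _ _).1 hF _ ⟨_, rfl⟩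
      have h3 : ⟪g, (adjoint (axi η)) F⟫_ℂ = ⟪ten g η, F⟫_ℂ := by
        rw [adjoint_inner_right]; rfl
      rw [← h3, h2, inner_zero_right]
    have h2 := Submodule.topologicalClosure_eq_top_iff.2 h1
    intro x
    have h3 : x ∈ (LinearMap.range e).topologicalClosure := by rw [h2]; trivial
    exact h3
  obtain ⟨z, hz, -⟩ := exists_ext' f e hd (C := 1) zero_le_one (fun c => by
    rw [one_mul, hnorm])
  refine ⟨z, ?_, ?_⟩
  · intro x y
    refine hd.induction_on₂ (p := fun x y => ⟪z x, z y⟫_ℂ = ⟪x, y⟫_ℂ) ?_ ?_ x y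
    · exact isClosed_eq (by fun_prop) (by fun_prop)
    · intro c d
      rw [hz, hz, hin]
  · intro a ha x
    refine hd.induction_on (p := fun x => z (lift a x) = a (z x)) x ?_ ?_
    · exact isClosed_eq (by fun_prop) (by fun_prop)
    · intro c
      induction c using Finsupp.induction_linear with
      | zero => simp
      | add c d h1 h2 => rw [map_add, map_add, map_add, h1, h2, map_add, map_add]
      | single i η =>
        rw [hes, lift_ten, ← hes, ← hes, hz, hz, hfs, hfs, commute_apply (hsN i) ha]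

end Pool.Agent.Helper23

end

section

open scoped InnerProductSpace Topology ENNReal BoundedContinuousFunction

open ContinuousLinearMap Filter MeasureTheory

namespace Pool.Agent.Helper23

variable {H : Type*} [NormedAddCommGroup H] [InnerProductSpace ℂ H] [CompleteSpace H]

variable {M N : VonNeumannAlgebra H} {ξ : H} {E : (H →L[ℂ] H) → (H →L[ℂ] H)}

open RBF

/-- the spatial isomorphism -/
theorem exists_W_of (hN : TwoIsom N) : ∃ W : H ≃ₗᵢ[ℂ] L2R H,
    ∀ a ∈ N.commutant, ∀ x, W (a x) = lift a (W x) := by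
  obtain ⟨v, hv, w, hw', hv1, hw1, hvw⟩ := hN
  obtain ⟨h3, h4⟩ := pow_isom hv1 hw1 hvw
  have : Countable hw := hw_countable
  obtain ⟨n, hn⟩ := exists_injective_nat hw
  have hpN : ∀ k : ℕ, v ^ k ∈ N := fun k => pow_mem hv k
  obtain ⟨J, hJ, hJa⟩ := exists_J (N := N) (s := fun i : hw => v ^ n i * w)
    (fun i => mul_mem (hpN _) hw') (fun i => h3 _) (fun i j hij => h4 _ _ (hn.ne hij))
  have he0 : ⟪e0, e0⟫_ℂ = 1 := by
    rw [inner_self_eq_norm_sq_to_K, e0_norm]; simp
  obtain ⟨W, hW⟩ := csb (iot H e0) J (fun x y => by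
    rw [iot_apply, iot_apply, inner_ten, he0, one_mul]) hJ
  refine ⟨W, fun a ha x => ?_⟩
  refine hW a (lift a) ?_ ?_ ?_ ?_ x
  · intro x
    rw [iot_apply, iot_apply, lift_ten]
  · exact hJa a ha
  · intro x
    rw [← lift_star, iot_apply, iot_apply, lift_ten]
  · intro x
    rw [← lift_star]
    exact hJa _ (star_mem ha) x

end Pool.Agent.Helper23

end

section

open scoped InnerProductSpace Topology

open ContinuousLinearMap Filter

namespace Pool.Agent.Helper23

universe u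

variable {H : Type u} [NormedAddCommGroup H] [InnerProductSpace ℂ H] [CompleteSpace H]

variable {K : Type u} [NormedAddCommGroup K] [InnerProductSpace ℂ K] [CompleteSpace K]

variable {A : VonNeumannAlgebra H} {P : Set (ℕ → H →L[ℂ] H)} {ξ : H} {ζ : K}
  {rep : (ℕ → H →L[ℂ] H) → (K →L[ℂ] K)}

lemma kap2_mem {B : H →L[ℂ] H} (hB : B ∈ A) (hs : star B = B) : kap2 B ∈ A := by
  rw [mem_iff_commutes]
  intro g hg
  have h1 : Commute g B := mem_iff_commutes.1 hB g hg
  have h2 : Commute g (1 + B * B) := (Commute.one_right g).add_right (h1.mul_right h1)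
  obtain ⟨u, hu⟩ := kap_isUnit hs
  have h3 : Commute g (Ring.inverse (1 + B * B)) := by
    rw [← hu, Ring.inverse_unit]
    rw [← hu] at h2
    exact h2.units_inv_right
  have h4 : Commute g (kap2 B) := (h1.mul_right h3).smul_right (2 : ℂ)
  exact h4

theorem SeqRep.kap (h : SeqRep A P ξ ζ rep) {x : ℕ → H →L[ℂ] H} (hx : x ∈ P)
    (hxs : ∀ n, star (x n) = x n) :
    (fun n => kap2 (x n)) ∈ P ∧ rep (fun n => kap2 (x n)) = kap2 (rep x) := by
  obtain ⟨C, hC⟩ := h.bdd x hx
  have hmem : (fun n => kap2 (x n)) ∈ P := by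
    refine h.closed _ (fun n => kap2_mem (h.memA x hx n) (hxs n))
      ⟨1, fun n => kap2_norm (hxs n)⟩ fun ε hε => ?_
    obtain ⟨p, hp⟩ := kap2_poly.{u} C (ε := ε / (‖ξ‖ + 1)) (by positivity)
    refine ⟨_, (h.aeval_mem hx p).1, Eventually.of_forall fun n => ?_⟩
    have h1 := hp H (x n) (hxs n) (hC n)
    have h2 : ε / (‖ξ‖ + 1) * ‖ξ‖ ≤ ε := by
      rw [div_mul_eq_mul_div, div_le_iff₀ (by positivity)]
      nlinarith [norm_nonneg ξ]
    refine ⟨?_, ?_⟩
    · rw [← sub_apply]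
      exact (le_of_opNorm_le _ h1 _).trans h2
    · rw [← sub_apply, ← star_sub]
      exact (le_of_opNorm_le _ (by rw [norm_star]; exact h1) _).trans h2
  refine ⟨hmem, ?_⟩
  have hs : star (rep x) = rep x := by
    rw [← (h.star_mem x hx).2]
    congr 1
    funext n
    exact hxs n
  rw [← sub_eq_zero, ← norm_le_zero_iff]
  refine le_of_forall_pos_le_add fun ε hε => ?_
  obtain ⟨p, hp⟩ := kap2_poly.{u} C (ε := ε / 2) (by positivity)
  have h1 := h.aeval_mem hx p
  have h2 := h.sub_mem hmem h1.1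
  have h3 : ‖rep (fun n => kap2 (x n)) - Polynomial.aeval (rep x) p‖ ≤ ε / 2 := by
    rw [← h1.2, ← h2.2]
    exact h.opNorm _ h2.1 _ fun n => hp H (x n) (hxs n) (hC n)
  have h4 := hp K (rep x) hs (h.opNorm x hx C hC)
  have e : rep (fun n => kap2 (x n)) - kap2 (rep x) =
      (rep (fun n => kap2 (x n)) - Polynomial.aeval (rep x) p) -
        (kap2 (rep x) - Polynomial.aeval (rep x) p) := by abel
  rw [e]
  refine (norm_sub_le _ _).trans ?_
  linarith

end Pool.Agent.Helper23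

end

section

open scoped InnerProductSpace Topology ENNReal BoundedContinuousFunction

open ContinuousLinearMap Filter MeasureTheory

namespace Pool.Agent.Helper23.ED

open Pool.Agent.Helper23 Pool.Agent.Helper23.RBF

universe u

variable {K : Type*} [NormedAddCommGroup K] [InnerProductSpace ℂ K] [CompleteSpace K]

variable {U : ℝ → K →L[ℂ] K} {f : ℝ → ℂ}

theorem smear_star (hU : UG U) (hf : Integrable f) (Y : K →L[ℂ] K) :
    star (smear U f Y) = smear U (fun t => (starRingEnd ℂ) (f t)) (star Y) := by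
  have hf' : Integrable fun t => (starRingEnd ℂ) (f t) :=
    Complex.conjCLE.toContinuousLinearMap.integrable_comp hf
  refine ContinuousLinearMap.ext fun w => ext_inner_left ℂ fun v => ?_
  rw [smear_spec hU hf', ContinuousLinearMap.star_eq_adjoint,
    ContinuousLinearMap.adjoint_inner_right, ← inner_conj_symm, smear_spec hU hf, ← integral_conj]
  refine integral_congr_ae (Eventually.of_forall fun t => ?_)
  simp only [map_mul]
  rw [inner_conj_symm, SmA.inner_U hU, SmA.inner_U' hU t v, ContinuousLinearMap.star_eq_adjoint,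
    ContinuousLinearMap.adjoint_inner_right]

end Pool.Agent.Helper23.ED

end
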