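import Pool.Agent.Helper23.FA.Ns
import Pool.Agent.Helper23.FA.L00_00
import Pool.Agent.Helper23.FA.L00_01
import Pool.Agent.Helper23.FA.L00_02
import Pool.Agent.Helper23.FA.L00_03
import Pool.Agent.Helper23.FA.L00_04
import Pool.Agent.Helper23.FA.L00_07
import Pool.Agent.Helper23.FA.L00_08
import Pool.Agent.Helper23.FA.L00_11
import Pool.Agent.Helper23.FA.L00_15
import Pool.Agent.Helper23.FA.L00_18

/-!
Parts of Helper78.BC.FamPsi, Helper43.TTF.G, Helper23.Flip, Helper70.U8, Helper94.LbBicent, Helper23.Pin4, Helper72.UPow.Hup, Helper88.CS.Polar, Helper88.CS.Trick1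
-/

section

open scoped InnerProductSpace Topology BoundedContinuousFunction

open ContinuousLinearMap Filter

namespace Pool.Agent.Helper78.BC

variable {H : Type*} [NormedAddCommGroup H] [InnerProductSpace ℂ H] [CompleteSpace H]

variable {A : VonNeumannAlgebra H} {ξ : H} {J : H →L[ℝ] H}
  {Ψ : (ℝ →ᵇ ℂ) →⋆ₐ[ℂ] (H →L[ℂ] H)}

namespace FamPsi

/-- the relation paired with `ξ` -/
lemma rel_pair (h : Std A ξ J Ψ) {C : ℝ} {ζ : H} {z : ℝ → H}
    (hz : LevFam A ξ J C ζ z) {l m : ℝ} (hl : 0 < l) (hl1 : l ≤ 1) (hm : 0 < m) (hm1 : m ≤ 1)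
    {b : H →L[ℂ] H} (hb : b ∈ A) :
    ‖⟪b ξ, z l⟫_ℂ - ⟪J ((star b) ξ), z m⟫_ℂ‖ ≤
      C * ‖((Real.sqrt l : ℝ) : ℂ) • J ((star b) ξ) - ((Real.sqrt m : ℝ) : ℂ) • b ξ‖ := by
  have h1 := hz.rel l m hl hl1 hm hm1 (star b) (star_mem hb)
  have h2 : ‖((Real.sqrt l : ℝ) : ℂ) • (star b) ξ - ((Real.sqrt m : ℝ) : ℂ) • rm J (star b) ξ‖ =
      ‖((Real.sqrt l : ℝ) : ℂ) • J ((star b) ξ) - ((Real.sqrt m : ℝ) : ℂ) • b ξ‖ := by
    rw [← h.J_norm, map_sub, h.J_conj, h.J_conj, rm, star_star, h.J_J, h.J_xi, Complex.conj_ofReal,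
      Complex.conj_ofReal]
  rw [h2] at h1
  have h3 : ⟪b ξ, z l⟫_ℂ - ⟪J ((star b) ξ), z m⟫_ℂ =
      ⟪ξ, (star b) (z l) - rm J (star b) (z m)⟫_ℂ := by
    rw [inner_sub_right]
    congr 1
    · rw [ContinuousLinearMap.star_eq_adjoint, ContinuousLinearMap.adjoint_inner_right]
    · rw [rm, star_star]
      conv_rhs => rw [← h.J_xi, h.J_inner]
      conv_lhs => rw [← h.J_J (z m), h.J_inner, ContinuousLinearMap.star_eq_adjoint,
        ContinuousLinearMap.adjoint_inner_right]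
  rw [h3]
  refine (norm_inner_le_norm _ _).trans ?_
  rw [h.norm_one, one_mul]
  exact h1

end FamPsi

open FamPsi in
theorem fam_psi (h : Std A ξ J Ψ) {C : ℝ} (hC : 0 ≤ C) {ζ : H} {z : ℝ → H}
    (hz : LevFam A ξ J C ζ z) {l m : ℝ} (hl : 0 < l) (hl1 : l ≤ 1) (hm : 0 < m) (hm1 : m ≤ 1)
    {G G' : ℝ →ᵇ ℂ} (hG : HasCompactSupport G) (hreal : ∀ ρ, (G ρ).im = 0)
    (hG' : ∀ ρ, G' ρ = ((Real.exp (ρ / 2) : ℝ) : ℂ) * G ρ) {s : ℝ}
    (hs : ∀ ρ, ‖G ρ‖ * |Real.sqrt l * Real.exp (ρ / 2) - Real.sqrt m| ≤ s) :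
    ‖Ψ G (z l) - Ψ G' (z m)‖ ≤ C * s := by
  have hs0 : 0 ≤ s := (mul_nonneg (norm_nonneg _) (abs_nonneg _)).trans (hs 0)
  -- self-adjointness
  have sG : star G = G := by
    ext ρ
    simp only [BoundedContinuousFunction.star_apply]
    exact Complex.conj_eq_iff_im.2 (hreal ρ)
  have sG' : star G' = G' := by
    ext ρ
    simp only [BoundedContinuousFunction.star_apply]
    refine Complex.conj_eq_iff_im.2 ?_
    rw [hG', Complex.im_ofReal_mul, hreal, mul_zero]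
  have aG : ∀ u v : H, ⟪Ψ G u, v⟫_ℂ = ⟪u, Ψ G v⟫_ℂ := by
    intro u v
    have : Ψ G = star (Ψ G) := by rw [← map_star, sG]
    conv_rhs => rw [this, ContinuousLinearMap.star_eq_adjoint,
      ContinuousLinearMap.adjoint_inner_right]
  have aG' : ∀ u v : H, ⟪Ψ G' u, v⟫_ℂ = ⟪u, Ψ G' v⟫_ℂ := by
    intro u v
    have : Ψ G' = star (Ψ G') := by rw [← map_star, sG']
    conv_rhs => rw [this, ContinuousLinearMap.star_eq_adjoint,
      ContinuousLinearMap.adjoint_inner_right]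
  -- the combination
  have hF : ∀ θ : H, ‖((Real.sqrt l : ℝ) : ℂ) • Ψ G' θ - ((Real.sqrt m : ℝ) : ℂ) • Ψ G θ‖ ≤
      s * ‖θ‖ := by
    intro θ
    have e : ((Real.sqrt l : ℝ) : ℂ) • Ψ G' θ - ((Real.sqrt m : ℝ) : ℂ) • Ψ G θ =
        Ψ (((Real.sqrt l : ℝ) : ℂ) • G' - ((Real.sqrt m : ℝ) : ℂ) • G) θ := by
      rw [map_sub, map_smul, map_smul]
      rfl
    rw [e]
    refine (ContinuousLinearMap.le_opNorm _ _).trans ?_
    refine mul_le_mul_of_nonneg_right ((norm_psi_le Ψ _).trans ?_) (norm_nonneg _)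
    refine (BoundedContinuousFunction.norm_le hs0).2 fun ρ => ?_
    have : ((((Real.sqrt l : ℝ) : ℂ) • G' - ((Real.sqrt m : ℝ) : ℂ) • G : ℝ →ᵇ ℂ)) ρ =
        G ρ * ((Real.sqrt l * Real.exp (ρ / 2) - Real.sqrt m : ℝ) : ℂ) := by
      simp only [BoundedContinuousFunction.coe_sub, BoundedContinuousFunction.coe_smul,
        Pi.sub_apply, smul_eq_mul, hG']
      push_cast
      ring
    rw [this, norm_mul, Complex.norm_real, Real.norm_eq_abs]
    exact hs ρ
  -- the estimate for every `θ`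
  have key : ∀ θ : H, ‖⟪Ψ G θ, z l⟫_ℂ - ⟪Ψ G' θ, z m⟫_ℂ‖ ≤ C * (s * ‖θ‖) := by
    intro θ
    refine le_of_forall_pos_le_add fun δ hδ => ?_
    set K : ℝ := ‖z l‖ + ‖z m‖ + C * (Real.sqrt l + Real.sqrt m) + 1 with hK
    have hK0 : 0 < K := by positivity
    obtain ⟨b, hb, h1, h2⟩ := h.core G G' hG hG' θ (δ / K) (by positivity)
    have h3 := rel_pair h hz hl hl1 hm hm1 hb
    set ε := δ / K with hε
    have hε0 : 0 < ε := by positivity
    have h4 : ‖⟪Ψ G θ - b ξ, z l⟫_ℂ‖ ≤ ε * ‖z l‖ := by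
      refine (norm_inner_le_norm _ _).trans ?_
      rw [norm_sub_rev]
      exact mul_le_mul_of_nonneg_right h1 (norm_nonneg _)
    have h5 : ‖⟪Ψ G' θ - J ((star b) ξ), z m⟫_ℂ‖ ≤ ε * ‖z m‖ := by
      refine (norm_inner_le_norm _ _).trans ?_
      rw [norm_sub_rev]
      exact mul_le_mul_of_nonneg_right h2 (norm_nonneg _)
    have h6 : ‖((Real.sqrt l : ℝ) : ℂ) • J ((star b) ξ) - ((Real.sqrt m : ℝ) : ℂ) • b ξ‖ ≤
        s * ‖θ‖ + ε * (Real.sqrt l + Real.sqrt m) := by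
      have e : ((Real.sqrt l : ℝ) : ℂ) • J ((star b) ξ) - ((Real.sqrt m : ℝ) : ℂ) • b ξ =
          (((Real.sqrt l : ℝ) : ℂ) • Ψ G' θ - ((Real.sqrt m : ℝ) : ℂ) • Ψ G θ) +
          (((Real.sqrt l : ℝ) : ℂ) • (J ((star b) ξ) - Ψ G' θ) -
            ((Real.sqrt m : ℝ) : ℂ) • (b ξ - Ψ G θ)) := by
        simp only [smul_sub]
        abel
      rw [e]
      refine (norm_add_le _ _).trans (add_le_add (hF θ) ?_)
      refine (norm_sub_le _ _).trans ?_
      rw [norm_smul, norm_smul, Complex.norm_real, Complex.norm_real, Real.norm_eq_abs,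
        Real.norm_eq_abs, abs_of_nonneg (Real.sqrt_nonneg _), abs_of_nonneg (Real.sqrt_nonneg _)]
      have a1 := mul_le_mul_of_nonneg_left h2 (Real.sqrt_nonneg l)
      have a2 := mul_le_mul_of_nonneg_left h1 (Real.sqrt_nonneg m)
      linarith
    have e : ⟪Ψ G θ, z l⟫_ℂ - ⟪Ψ G' θ, z m⟫_ℂ =
        (⟪b ξ, z l⟫_ℂ - ⟪J ((star b) ξ), z m⟫_ℂ) +
        (⟪Ψ G θ - b ξ, z l⟫_ℂ - ⟪Ψ G' θ - J ((star b) ξ), z m⟫_ℂ) := by
      rw [inner_sub_left, inner_sub_left]
      ring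
    rw [e]
    have h7 : ‖⟪Ψ G θ - b ξ, z l⟫_ℂ - ⟪Ψ G' θ - J ((star b) ξ), z m⟫_ℂ‖ ≤
        ε * ‖z l‖ + ε * ‖z m‖ := (norm_sub_le _ _).trans (add_le_add h4 h5)
    have h8 : C * ‖((Real.sqrt l : ℝ) : ℂ) • J ((star b) ξ) - ((Real.sqrt m : ℝ) : ℂ) • b ξ‖ ≤
        C * (s * ‖θ‖ + ε * (Real.sqrt l + Real.sqrt m)) := mul_le_mul_of_nonneg_left h6 hC
    have h9 : ε * K = δ := by rw [hε]; field_simp
    have h10 : ε * ‖z l‖ + ε * ‖z m‖ + C * (ε * (Real.sqrt l + Real.sqrt m)) ≤ δ := by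
      rw [← h9, hK]
      nlinarith
    calc _ ≤ ‖⟪b ξ, z l⟫_ℂ - ⟪J ((star b) ξ), z m⟫_ℂ‖ +
          ‖⟪Ψ G θ - b ξ, z l⟫_ℂ - ⟪Ψ G' θ - J ((star b) ξ), z m⟫_ℂ‖ := norm_add_le _ _
      _ ≤ C * (s * ‖θ‖ + ε * (Real.sqrt l + Real.sqrt m)) + (ε * ‖z l‖ + ε * ‖z m‖) :=
          add_le_add (h3.trans h8) h7
      _ ≤ C * (s * ‖θ‖) + δ := by
          rw [mul_add]
          linarith
  -- conclusion
  set θ := Ψ G (z l) - Ψ G' (z m) with hθ
  have h1 := key θ
  rw [aG, aG', ← inner_sub_right, ← hθ, inner_self_eq_norm_sq_to_K, norm_pow] at h1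
  simp only [RCLike.ofReal_eq_complex_ofReal, Complex.norm_real, norm_norm] at h1
  rcases eq_or_lt_of_le (norm_nonneg θ) with h0 | h0
  · rw [← h0]
    positivity
  · have : ‖θ‖ * ‖θ‖ ≤ C * s * ‖θ‖ := by nlinarith
    exact le_of_mul_le_mul_right this h0

end Pool.Agent.Helper78.BC

end

section

open scoped InnerProductSpace Topology BoundedContinuousFunction

open ContinuousLinearMap Filter MeasureTheory

namespace Pool.Agent.Helper43.TTF

open Pool.Agent.Helper23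

variable {H : Type*} [NormedAddCommGroup H] [InnerProductSpace ℂ H] [CompleteSpace H]

variable {R : H →L[ℂ] H} {D : H →L[ℝ] H} {Ψ : (ℝ →ᵇ ℂ) →⋆ₐ[ℂ] (H →L[ℂ] H)} {J : H →L[ℝ] H}

lemma R_xi {A : VonNeumannAlgebra H} {ξ : H} (h' : TTData A ξ R D) : R ξ = ξ := by
  have h1 := h'.D_mem 1 (one_mem _)
  have h2 := h'.D_comm 1 (one_mem _)
  rw [star_one, one_apply_eq_self] at h1 h2
  rw [h1] at h2
  have h3 : (2 : ℂ) • ξ = (2 : ℂ) • R ξ := by
    rw [two_smul ℂ (R ξ)]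
    exact sub_eq_iff_eq_add.1 h2
  exact (smul_right_injective H (two_ne_zero : (2 : ℂ) ≠ 0) h3).symm

end Pool.Agent.Helper43.TTF

end

section

open scoped InnerProductSpace Topology ENNReal

open ContinuousLinearMap Filter MeasureTheory

set_option linter.unusedSectionVars false

set_option linter.unusedVariables false

namespace Pool.Agent.Helper23

variable {H : Type*} [NormedAddCommGroup H] [InnerProductSpace ℂ H] [CompleteSpace H]

variable {M N : VonNeumannAlgebra H} {ξ : H} {E : (H →L[ℂ] H) → (H →L[ℂ] H)}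

lemma mulOp_ind_sq {I : Set ℝ} (hI : MeasurableSet I) :
    mulOp H (ind I) * mulOp H (ind I) = mulOp H (ind I) := by
  ext F : 1
  change mulOp H (ind I) (mulOp H (ind I) F) = _
  rw [mulOp_mulOp (ind_bm hI) (ind_bm hI), ind_sq]

end Pool.Agent.Helper23

end

section

open scoped InnerProductSpace Topology BoundedContinuousFunction

open ContinuousLinearMap Filter MeasureTheory

namespace Pool.Agent.Helper70.U8

open Pool.Agent.Helper23

variable {H : Type*} [NormedAddCommGroup H] [InnerProductSpace ℂ H] [CompleteSpace H]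

variable {A : VonNeumannAlgebra H} {ξ : H} {R : H →L[ℂ] H} {D : H →L[ℝ] H}
  {Ψ : (ℝ →ᵇ ℂ) →⋆ₐ[ℂ] (H →L[ℂ] H)} {J : H →L[ℝ] H}

open Pool.Agent.Helper43.TTF (JD FT FT_apply FR_apply)

lemma J_xi (h' : TTData A ξ R D) (hJ : JD D Ψ J) (h : Modular A ξ R D Ψ) : J ξ = ξ := by
  have h1 : Ψ FT ξ = ξ := by
    rw [h.psi_xi, FT_apply, zero_div, Real.cosh_zero, inv_one, Complex.ofReal_one, one_smul]
  have h2 := hJ.J_T ξ
  rw [h1] at h2
  have h3 := h'.D_comm 1 (one_mem _)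
  rw [one_apply_eq_self, star_one, one_apply_eq_self, Pool.Agent.Helper43.TTF.R_xi h'] at h3
  rw [h2, h3]

end Pool.Agent.Helper70.U8

end

section

open scoped InnerProductSpace Topology

open ContinuousLinearMap Filter

namespace Pool.Agent.Helper23

variable {H : Type*} [NormedAddCommGroup H] [InnerProductSpace ℂ H] [CompleteSpace H]

variable {M N : VonNeumannAlgebra H} {ξ : H} {E : (H →L[ℂ] H) → (H →L[ℂ] H)}

/-- the resolvent `(R² + T* T)⁻¹` lies in the algebra -/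
lemma exists_resolvent {T : H →L[ℂ] H} (hT : T ∈ N) {R : ℝ} (hR : 0 < R) :
    ∃ r ∈ N, r * (((R ^ 2 : ℝ) : ℂ) • (1 : H →L[ℂ] H) + star T * T) = 1 ∧
      (((R ^ 2 : ℝ) : ℂ) • (1 : H →L[ℂ] H) + star T * T) * r = 1 := by
  set s : H →L[ℂ] H := ((R ^ 2 : ℝ) : ℂ) • (1 : H →L[ℂ] H) + star T * T with hs
  have hsN : s ∈ N := add_mem (smul_mem' _ (one_mem N)) (mul_mem (star_mem hT) hT)
  have hu : IsUnit s := by
    have h1 : (0 : H →L[ℂ] H) ≤ star T * T := star_mul_self_nonneg T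
    have h2 : (-(R ^ 2) : ℝ) ∉ spectrum ℝ (star T * T) := fun h => by
      have h3 := spectrum_nonneg_of_nonneg h1 h
      have : 0 < R ^ 2 := by positivity
      linarith
    have h3 : IsUnit (algebraMap ℝ (H →L[ℂ] H) (-(R ^ 2)) - star T * T) :=
      spectrum.notMem_iff.1 h2
    have h4 : s = -(algebraMap ℝ (H →L[ℂ] H) (-(R ^ 2)) - star T * T) := by
      rw [hs, map_neg, Algebra.algebraMap_eq_smul_one, Complex.coe_smul]
      abel
    rw [h4]
    exact h3.neg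
  obtain ⟨r, h1, h2⟩ := isUnit_iff_exists.1 hu
  refine ⟨r, ?_, h2, h1⟩
  rw [mem_iff_commutes]
  intro g hg
  have h3 : s * g = g * s := mem_comm_iff.1 hg s hsN
  calc g * r = (r * s) * g * r := by rw [h2, one_mul]
    _ = r * (s * g) * r := by simp only [mul_assoc]
    _ = r * g * (s * r) := by rw [h3]; simp only [mul_assoc]
    _ = r * g := by rw [h1, mul_one]

/-- norm estimates for the resolvent -/
lemma resolvent_bounds {T r : H →L[ℂ] H} {R : ℝ} (hR : 0 < R)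
    (hr : (((R ^ 2 : ℝ) : ℂ) • (1 : H →L[ℂ] H) + star T * T) * r = 1) :
    ‖r‖ ≤ (R ^ 2)⁻¹ ∧ ‖T * r‖ ≤ (2 * R)⁻¹ ∧ ‖T * r * star T‖ ≤ 1 := by
  -- the basic identity
  have hid : ∀ v : H, (⟪r v, v⟫_ℂ).re = R ^ 2 * ‖r v‖ ^ 2 + ‖T (r v)‖ ^ 2 := by
    intro v
    have h1 : v = ((R ^ 2 : ℝ) : ℂ) • r v + (star T) (T (r v)) := by
      have := congrArg (fun X : H →L[ℂ] H => X v) hr
      exact this.symm
    have h2 : ⟪r v, v⟫_ℂ = ⟪r v, ((R ^ 2 : ℝ) : ℂ) • r v + (star T) (T (r v))⟫_ℂ := by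
      rw [← h1]
    rw [h2, inner_add_right, inner_smul_right, inner_star_right,
      inner_self_eq_norm_sq_to_K, inner_self_eq_norm_sq_to_K]
    have h3 : ((R ^ 2 : ℝ) : ℂ) * ((‖r v‖ : ℝ) : ℂ) ^ 2 + ((‖T (r v)‖ : ℝ) : ℂ) ^ 2 =
        ((R ^ 2 * ‖r v‖ ^ 2 + ‖T (r v)‖ ^ 2 : ℝ) : ℂ) := by push_cast; ring
    exact (congrArg Complex.re h3).trans (Complex.ofReal_re _)
  have hle : ∀ v : H, R ^ 2 * ‖r v‖ ^ 2 + ‖T (r v)‖ ^ 2 ≤ ‖r v‖ * ‖v‖ := by
    intro v
    rw [← hid]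
    exact (Complex.re_le_norm _).trans (norm_inner_le_norm _ _)
  refine ⟨?_, ?_, ?_⟩
  · refine ContinuousLinearMap.opNorm_le_bound _ (by positivity) fun v => ?_
    have h1 := hle v
    rw [inv_mul_eq_div, le_div_iff₀ (by positivity)]
    by_cases h0 : ‖r v‖ = 0
    · rw [h0, zero_mul]; exact norm_nonneg _
    · have hpos : 0 < ‖r v‖ := lt_of_le_of_ne (norm_nonneg _) (Ne.symm h0)
      have h2 : ‖r v‖ * (‖r v‖ * R ^ 2) ≤ ‖r v‖ * ‖v‖ := by nlinarith [sq_nonneg ‖T (r v)‖]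
      exact le_of_mul_le_mul_left h2 hpos
  · refine ContinuousLinearMap.opNorm_le_bound _ (by positivity) fun v => ?_
    have h1 := hle v
    change ‖T (r v)‖ ≤ _
    rw [inv_mul_eq_div, le_div_iff₀ (by positivity)]
    by_cases h0 : ‖r v‖ = 0
    · rw [norm_eq_zero.1 h0, map_zero, norm_zero, zero_mul]; exact norm_nonneg _
    · have hpos : 0 < ‖r v‖ := lt_of_le_of_ne (norm_nonneg _) (Ne.symm h0)
      have h2 : ‖r v‖ * (‖T (r v)‖ * (2 * R)) ≤ ‖r v‖ * ‖v‖ := by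
        nlinarith [sq_nonneg (R * ‖r v‖ - ‖T (r v)‖)]
      exact le_of_mul_le_mul_left h2 hpos
  · refine ContinuousLinearMap.opNorm_le_bound _ zero_le_one fun v => ?_
    change ‖T (r ((star T) v))‖ ≤ _
    rw [one_mul]
    have h1 := hid ((star T) v)
    have h2 : ⟪r ((star T) v), (star T) v⟫_ℂ = ⟪T (r ((star T) v)), v⟫_ℂ := by
      rw [inner_star_right]
    rw [h2] at h1
    have h3 : (⟪T (r ((star T) v)), v⟫_ℂ).re ≤ ‖T (r ((star T) v))‖ * ‖v‖ :=
      (Complex.re_le_norm _).trans (norm_inner_le_norm _ _)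
    have h4 : 0 ≤ R ^ 2 * ‖r ((star T) v)‖ ^ 2 := by positivity
    by_cases h0 : ‖T (r ((star T) v))‖ = 0
    · rw [h0]; exact norm_nonneg _
    · have hpos : 0 < ‖T (r ((star T) v))‖ := lt_of_le_of_ne (norm_nonneg _) (Ne.symm h0)
      have h5 : ‖T (r ((star T) v))‖ * ‖T (r ((star T) v))‖ ≤ ‖T (r ((star T) v))‖ * ‖v‖ := by
        nlinarith
      exact le_of_mul_le_mul_left h5 hpos

end Pool.Agent.Helper23

end

section

open scoped InnerProductSpace Topology ENNReal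

open ContinuousLinearMap Filter MeasureTheory

namespace Pool.Agent.Helper23

variable {H : Type*} [NormedAddCommGroup H] [InnerProductSpace ℂ H] [CompleteSpace H]

variable {M N : VonNeumannAlgebra H} {ξ : H} {E : (H →L[ℂ] H) → (H →L[ℂ] H)}

lemma mulOp_inner_self {I : Set ℝ} (hI : MeasurableSet I) (V : L2R H) :
    ⟪V, mulOp H (ind I) V⟫_ℂ = ((‖mulOp H (ind I) V‖ ^ 2 : ℝ) : ℂ) := by
  have h1 : mulOp H (ind I) (mulOp H (ind I) V) = mulOp H (ind I) V :=
    congrArg (fun T : L2R H →L[ℂ] L2R H => T V) (mulOp_ind_sq hI)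
  have h2 := mulOp_adj (ind_bm hI) V (mulOp H (ind I) V)
  rw [ind_conj, h1] at h2
  rw [← h2, inner_self_eq_norm_sq_to_K]
  norm_cast

lemma norm_mulOp_ind_le {I : Set ℝ} (V : L2R H) : ‖mulOp H (ind I) V‖ ≤ ‖V‖ := by
  have h1 : ‖mulOp H (ind I)‖ ≤ 1 := by
    refine dec_norm zero_le_one fun s => ?_
    refine (norm_smul_le _ _).trans ?_
    calc ‖ind I s‖ * ‖(1 : H →L[ℂ] H)‖ ≤ 1 * 1 := by
          gcongr
          · exact ind_norm_le I s
          · exact norm_id_le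
      _ = 1 := mul_one 1
  have := (mulOp H (ind I)).le_of_opNorm_le h1 V
  rwa [one_mul] at this

/-- windows cover the cut-off -/
lemma norm_le_win {t : ℝ} (ht : 0 < t) {m L : ℕ} (hL : (L : ℝ) ≤ m * t) (D : L2R H) :
    ‖D‖ ^ 2 ≤ ∑ i ∈ Finset.Ico (-(m : ℤ)) m, ‖mulOp H (ind (win t i)) D‖ ^ 2 +
      ‖D - mulOp H (ind (Set.Ico (-(L : ℝ)) L)) D‖ ^ 2 := by
  set I := Set.Ico (-(L : ℝ)) L with hI
  have hIm : MeasurableSet I := measurableSet_Ico
  set V := mulOp H (ind I) D with hV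
  have hVV : mulOp H (ind I) V = V :=
    congrArg (fun T : L2R H →L[ℂ] L2R H => T D) (mulOp_ind_sq hIm)
  -- Pythagoras
  have h1 : ‖D‖ ^ 2 = ‖V‖ ^ 2 + ‖D - V‖ ^ 2 := by
    have e1 : ⟪V, D - V⟫_ℂ = 0 := by
      have h2 := mulOp_adj (ind_bm hIm) D (D - V)
      rw [ind_conj, map_sub, hVV, ← hV, sub_self, inner_zero_right] at h2
      exact h2
    have e2 : D = V + (D - V) := by abel
    conv_lhs => rw [e2]
    have := norm_add_sq_eq_norm_sq_add_norm_sq_of_inner_eq_zero (𝕜 := ℂ) V (D - V) e1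
    rw [sq, sq, sq]
    exact this
  rw [h1]
  gcongr
  -- decomposition of `V`
  have h2 : ∑ i ∈ Finset.Ico (-(m : ℤ)) m, mulOp H (ind (win t i)) V = V := by
    refine sum_win ht ?_
    filter_upwards [mulOp_coe (ind_bm hIm) D] with s hs h
    rw [hs, ind_of_notMem, zero_smul]
    intro hcon
    refine h ⟨?_, ?_⟩
    · linarith [hcon.1]
    · linarith [hcon.2]
  have h3 : ((‖V‖ ^ 2 : ℝ) : ℂ) = ((∑ i ∈ Finset.Ico (-(m : ℤ)) m,
      ‖mulOp H (ind (win t i)) V‖ ^ 2 : ℝ) : ℂ) := by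
    have e1 : ⟪V, V⟫_ℂ = ((‖V‖ ^ 2 : ℝ) : ℂ) := by
      rw [inner_self_eq_norm_sq_to_K]; norm_cast
    have e2 : ⟪V, ∑ i ∈ Finset.Ico (-(m : ℤ)) m, mulOp H (ind (win t i)) V⟫_ℂ = ⟪V, V⟫_ℂ := by
      rw [h2]
    rw [← e1, ← e2, inner_sum]
    push_cast
    refine Finset.sum_congr rfl fun i _ => ?_
    rw [mulOp_inner_self (win_meas t i)]
    push_cast
    rfl
  have h4 : ‖V‖ ^ 2 = ∑ i ∈ Finset.Ico (-(m : ℤ)) m, ‖mulOp H (ind (win t i)) V‖ ^ 2 := by
    exact_mod_cast h3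
  rw [h4]
  refine Finset.sum_le_sum fun i _ => ?_
  have h5 : mulOp H (ind (win t i)) V = mulOp H (ind I) (mulOp H (ind (win t i)) D) := by
    rw [hV, mulOp_mulOp (ind_bm (win_meas t i)) (ind_bm hIm),
      mulOp_mulOp (ind_bm hIm) (ind_bm (win_meas t i))]
    congr 2
    funext s
    ring
  rw [h5]
  gcongr
  exact norm_mulOp_ind_le _

end Pool.Agent.Helper23

end

section

open scoped InnerProductSpace Topology

open ContinuousLinearMap Filter

namespace Pool.Agent.Helper23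

universe u

section lims

/-- bounded sequences of scalars converge along the ultrafilter -/
theorem exists_ulim {f : ℕ → ℂ} (hf : Bdd f) : ∃ c : ℂ, Tendsto f (UU : Filter ℕ) (𝓝 c) := by
  obtain ⟨C, hC⟩ := hf
  obtain ⟨c, -, hc⟩ := (isCompact_closedBall (0 : ℂ) C).ultrafilter_le_nhds (UU.map f) (by
    rw [Ultrafilter.coe_map, le_principal_iff, mem_map]
    exact Filter.univ_mem' fun n => by simpa using hC n)
  exact ⟨c, hc⟩

open Classical in
/-- the limit along the ultrafilter -/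
noncomputable def ulim (f : ℕ → ℂ) : ℂ :=
  if h : ∃ c : ℂ, Tendsto f (UU : Filter ℕ) (𝓝 c) then h.choose else 0

theorem tendsto_ulim {f : ℕ → ℂ} (hf : Bdd f) : Tendsto f (UU : Filter ℕ) (𝓝 (ulim f)) := by
  unfold ulim
  rw [dif_pos (exists_ulim hf)]
  exact (exists_ulim hf).choose_spec

theorem ulim_eq {f : ℕ → ℂ} {c : ℂ} (h : Tendsto f (UU : Filter ℕ) (𝓝 c)) : ulim f = c := by
  have := UU_neBot
  have h1 : ∃ c : ℂ, Tendsto f (UU : Filter ℕ) (𝓝 c) := ⟨c, h⟩
  unfold ulim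
  rw [dif_pos h1]
  exact tendsto_nhds_unique h1.choose_spec h

end lims

section bdd

variable {G : Type*} [NormedAddCommGroup G]

theorem Bdd.zero : Bdd (fun _ : ℕ => (0 : G)) := ⟨0, fun n => by simp⟩

theorem Bdd.inner {H : Type*} [NormedAddCommGroup H] [InnerProductSpace ℂ H] {x y : ℕ → H}
    (hx : Bdd x) (hy : Bdd y) : Bdd (fun n => ⟪x n, y n⟫_ℂ) := by
  obtain ⟨C, hC⟩ := hx
  obtain ⟨D, hD⟩ := hy
  refine ⟨C * D, fun n => (norm_inner_le_norm _ _).trans ?_⟩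
  exact mul_le_mul (hC n) (hD n) (norm_nonneg _) ((norm_nonneg _).trans (hC n))

end bdd

section BSeq

variable (H : Type u) [NormedAddCommGroup H] [InnerProductSpace ℂ H]

/-- the bounded sequences as a submodule -/
def bsub : Submodule ℂ (ℕ → H) where
  carrier := {x | Bdd x}
  add_mem' := fun hx hy => hx.add hy
  zero_mem' := Bdd.zero
  smul_mem' := fun c _ hx => hx.smul c

/-- the bounded sequences, to be given the seminorm of the ultrapower -/
def BSeq : Type u := bsub H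

noncomputable instance : AddCommGroup (BSeq H) := inferInstanceAs (AddCommGroup (bsub H))

noncomputable instance : Module ℂ (BSeq H) := inferInstanceAs (Module ℂ (bsub H))

variable {H}

/-- the underlying sequence -/
def BSeq.v (x : BSeq H) : ℕ → H := Subtype.val (p := fun x => x ∈ bsub H) x

theorem BSeq.bdd (x : BSeq H) : Bdd x.v := Subtype.prop (p := fun x => x ∈ bsub H) x

/-- the element given by a bounded sequence -/
def BSeq.of (x : ℕ → H) (hx : Bdd x) : BSeq H := (⟨x, hx⟩ : bsub H)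

theorem BSeq.add_v (x y : BSeq H) (n : ℕ) : (x + y).v n = x.v n + y.v n := rfl

theorem BSeq.sub_v (x y : BSeq H) (n : ℕ) : (x - y).v n = x.v n - y.v n := rfl

theorem BSeq.smul_v (c : ℂ) (x : BSeq H) (n : ℕ) : (c • x).v n = c • x.v n := rfl

theorem BSeq.tendsto_inner (x y : BSeq H) :
    Tendsto (fun n => ⟪x.v n, y.v n⟫_ℂ) (UU : Filter ℕ) (𝓝 (ulim fun n => ⟪x.v n, y.v n⟫_ℂ)) :=
  tendsto_ulim (x.bdd.inner y.bdd)

/-- the semi-inner product -/
@[instance_reducible] noncomputable def bcore : PreInnerProductSpace.Core ℂ (BSeq H) where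
  inner x y := ulim fun n => ⟪x.v n, y.v n⟫_ℂ
  conj_inner_symm x y := by
    refine (ulim_eq ?_).symm
    refine ((Complex.continuous_conj.tendsto _).comp (BSeq.tendsto_inner y x)).congr fun n => ?_
    exact inner_conj_symm _ _
  re_inner_nonneg x := by
    have := UU_neBot
    refine ge_of_tendsto ((Complex.continuous_re.tendsto _).comp (BSeq.tendsto_inner x x)) ?_
    exact Filter.Eventually.of_forall fun n => inner_self_nonneg (𝕜 := ℂ) (x := x.v n)
  add_left x y z := by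
    refine ulim_eq ?_
    refine ((BSeq.tendsto_inner x z).add (BSeq.tendsto_inner y z)).congr fun n => ?_
    rw [BSeq.add_v, inner_add_left]
  smul_left x y r := by
    refine ulim_eq ?_
    refine ((BSeq.tendsto_inner x y).const_mul _).congr fun n => ?_
    rw [BSeq.smul_v, inner_smul_left]

noncomputable instance : SeminormedAddCommGroup (BSeq H) :=
  @InnerProductSpace.Core.toSeminormedAddCommGroup ℂ (BSeq H) _ _ _ bcore

noncomputable instance : InnerProductSpace ℂ (BSeq H) := InnerProductSpace.ofCore bcore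

theorem BSeq.inner_tendsto (x y : BSeq H) :
    Tendsto (fun n => ⟪x.v n, y.v n⟫_ℂ) (UU : Filter ℕ) (𝓝 ⟪x, y⟫_ℂ) :=
  BSeq.tendsto_inner x y

theorem BSeq.norm_tendsto (x : BSeq H) : Tendsto (fun n => ‖x.v n‖) (UU : Filter ℕ) (𝓝 ‖x‖) :=
  norm_tendsto_of_inner (BSeq.inner_tendsto x x)

theorem UU_le_atTop : (UU : Filter ℕ) ≤ atTop := by
  unfold UU
  rw [← Nat.cofinite_eq_atTop]
  exact hyperfilter_le_cofinite

instance : CompleteSpace (BSeq H) := by
  have := UU_neBot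
  refine Metric.complete_of_convergent_controlled_sequences (fun N => (1 / 2) ^ N) (by simp) ?_
  intro z hz
  -- closeness of consecutive terms
  let P : ℕ → ℕ → Prop := fun n k => ∀ j < k, ‖(z j).v n - (z (j + 1)).v n‖ < (1 / 2) ^ j
  classical
  let κ : ℕ → ℕ := fun n => Nat.findGreatest (P n) n
  have hκ : ∀ n, P n (κ n) := fun n =>
    Nat.findGreatest_spec (P := P n) (Nat.zero_le n) (fun j hj => absurd hj (Nat.not_lt_zero _))
  have hgeo : ∀ n k d, (∀ j < k + d, ‖(z j).v n - (z (j + 1)).v n‖ < (1 / 2 : ℝ) ^ j) →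
      ‖(z k).v n - (z (k + d)).v n‖ ≤ 2 * (1 / 2) ^ k - 2 * (1 / 2) ^ (k + d) := by
    intro n k d
    induction d with
    | zero => intro _; simp
    | succ d ih =>
      intro h
      have h1 := ih fun j hj => h j (by omega)
      have h2 := (h (k + d) (by omega)).le
      calc ‖(z k).v n - (z (k + (d + 1))).v n‖
          ≤ ‖(z k).v n - (z (k + d)).v n‖ + ‖(z (k + d)).v n - (z (k + d + 1)).v n‖ :=
            norm_sub_le_norm_sub_add_norm_sub _ _ _
        _ ≤ _ := by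
            rw [show k + (d + 1) = k + d + 1 by ring, pow_succ (1 / 2 : ℝ) (k + d)]
            linarith
  have hclose : ∀ n k, k ≤ κ n → ‖(z k).v n - (z (κ n)).v n‖ ≤ 2 * (1 / 2) ^ k := by
    intro n k hk
    obtain ⟨d, hd⟩ := Nat.exists_eq_add_of_le hk
    have h1 := hgeo n k d (by rw [← hd]; exact hκ n)
    rw [← hd] at h1
    have : (0 : ℝ) ≤ 2 * (1 / 2) ^ κ n := by positivity
    linarith
  have hbdd : Bdd (fun n => (z (κ n)).v n) := by
    obtain ⟨C, hC⟩ := (z 0).bdd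
    refine ⟨C + 2, fun n => ?_⟩
    have h1 := hclose n 0 (Nat.zero_le _)
    have h2 := hC n
    have h3 : ‖(z (κ n)).v n‖ ≤ ‖(z 0).v n‖ + ‖(z 0).v n - (z (κ n)).v n‖ := by
      have := norm_sub_le ((z 0).v n) ((z 0).v n - (z (κ n)).v n)
      rwa [sub_sub_cancel] at this
    simp only [pow_zero, mul_one] at h1
    linarith
  refine ⟨BSeq.of _ hbdd, ?_⟩
  rw [tendsto_iff_dist_tendsto_zero]
  have hle : ∀ k, dist (z k) (BSeq.of _ hbdd) ≤ 2 * (1 / 2) ^ k := by
    intro k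
    rw [dist_eq_norm]
    refine le_of_tendsto (BSeq.norm_tendsto _) ?_
    have hj : ∀ j, ∀ᶠ n in (UU : Filter ℕ), ‖(z j).v n - (z (j + 1)).v n‖ < (1 / 2 : ℝ) ^ j := by
      intro j
      have h1 := BSeq.norm_tendsto (z j - z (j + 1))
      have h2 := hz j j (j + 1) le_rfl (by omega)
      rw [dist_eq_norm] at h2
      exact h1.eventually_lt_const h2
    have hall : ∀ᶠ n in (UU : Filter ℕ), ∀ j ∈ Finset.range k,
        ‖(z j).v n - (z (j + 1)).v n‖ < (1 / 2 : ℝ) ^ j :=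
      (Filter.eventually_all_finset _).2 fun j _ => hj j
    have hge : ∀ᶠ n in (UU : Filter ℕ), k ≤ n := UU_le_atTop (eventually_ge_atTop k)
    filter_upwards [hall, hge] with n h1 h2
    have h3 : k ≤ κ n := Nat.le_findGreatest h2 fun j hj => h1 j (Finset.mem_range.2 hj)
    rw [BSeq.sub_v]
    exact hclose n k h3
  refine squeeze_zero (fun _ => dist_nonneg) hle ?_
  have := (tendsto_pow_atTop_nhds_zero_of_lt_one (r := (1 / 2 : ℝ)) (by norm_num)
    (by norm_num)).const_mul 2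
  simpa using this

end BSeq

open Classical in
/-- the class of a sequence -/
noncomputable def bmk (H : Type u) [NormedAddCommGroup H] [InnerProductSpace ℂ H] (x : ℕ → H) :
    SeparationQuotient (BSeq H) :=
  if h : Bdd x then SeparationQuotient.mk (BSeq.of x h) else 0

theorem bmk_of {H : Type u} [NormedAddCommGroup H] [InnerProductSpace ℂ H] {x : ℕ → H}
    (h : Bdd x) : bmk H x = SeparationQuotient.mk (BSeq.of x h) := by
  unfold bmk; rw [dif_pos h]

theorem exists_HUP (H : Type u) [NormedAddCommGroup H] [InnerProductSpace ℂ H] [CompleteSpace H] :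
    ∃ (K : Type u) (_ : NormedAddCommGroup K) (_ : InnerProductSpace ℂ K) (_ : CompleteSpace K)
      (mk : (ℕ → H) → K), HUP mk := by
  refine ⟨SeparationQuotient (BSeq H), inferInstance, inferInstance, inferInstance, bmk H, ?_⟩
  have hin : ∀ x y : ℕ → H, Bdd x → Bdd y →
      Tendsto (fun n => ⟪x n, y n⟫_ℂ) (UU : Filter ℕ) (𝓝 ⟪bmk H x, bmk H y⟫_ℂ) := by
    intro x y hx hy
    rw [bmk_of hx, bmk_of hy, SeparationQuotient.inner_mk_mk]
    exact BSeq.inner_tendsto (BSeq.of x hx) (BSeq.of y hy)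
  refine ⟨?_, ?_, hin, ?_⟩
  · intro x y hx hy
    rw [bmk_of (hx.add hy), bmk_of hx, bmk_of hy, ← SeparationQuotient.mk_add]
    rfl
  · intro c x hx
    rw [bmk_of (hx.smul c), bmk_of hx, ← SeparationQuotient.mk_smul]
    rfl
  · intro v
    obtain ⟨z, rfl⟩ := SeparationQuotient.surjective_mk v
    have hz : Tendsto (fun n => ‖z.v n‖) (UU : Filter ℕ) (𝓝 ‖SeparationQuotient.mk z‖) := by
      rw [SeparationQuotient.norm_mk]; exact BSeq.norm_tendsto z
    choose y hy1 hy2 using fun n =>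
      hup_exists_trunc (z.v n) (norm_nonneg (SeparationQuotient.mk z : SeparationQuotient (BSeq H)))
    have hyb : Bdd y := ⟨_, hy1⟩
    refine ⟨y, hy1, ?_⟩
    rw [bmk_of hyb, eq_comm, ← sub_eq_zero, ← norm_eq_zero, ← SeparationQuotient.mk_sub,
      SeparationQuotient.norm_mk]
    have := UU_neBot
    refine tendsto_nhds_unique (BSeq.norm_tendsto (z - BSeq.of y hyb)) ?_
    refine squeeze_zero (fun n => norm_nonneg _) (fun n => hy2 n) ?_
    have := (hz.sub_const ‖SeparationQuotient.mk z‖).abs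
    simpa using this

end Pool.Agent.Helper23

end

section

open scoped InnerProductSpace Topology BoundedContinuousFunction

open ContinuousLinearMap Filter MeasureTheory

namespace Pool.Agent.Helper88.CS

open Pool.Agent.Helper23

open Pool.Agent.Helper78.BC (Std rm Fixed)

set_option linter.unusedSectionVars false

set_option linter.unusedVariables false

variable {H : Type*} [NormedAddCommGroup H] [InnerProductSpace ℂ H] [CompleteSpace H]

variable {A : VonNeumannAlgebra H}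

open PolarAux

namespace PolarAux

/-- the partial isometry part of the polar decomposition -/
theorem exists_ext (a : H →L[ℂ] H) :
    ∃ v : H →L[ℂ] H, v * CFC.abs a = a ∧ v * rp (CFC.abs a) = v := by
  set p := CFC.abs a with hp
  set K := (LinearMap.range (p : H →ₗ[ℂ] H)).topologicalClosure with hK
  set f : H →ₗ[ℂ] K := LinearMap.codRestrict K (p : H →ₗ[ℂ] H) (fun w => apply_mem p w) with hf
  have hd : DenseRange f := by
    intro x
    have hx : (x : H) ∈ closure ((LinearMap.range (p : H →ₗ[ℂ] H)) : Set H) := x.2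
    rw [Metric.mem_closure_iff] at hx
    rw [Metric.mem_closure_iff]
    intro ε hε
    obtain ⟨_, ⟨w, rfl⟩, hw⟩ := hx ε hε
    exact ⟨f w, ⟨w, rfl⟩, hw⟩
  have hn : ∃ C, ∀ x, ‖(a : H →ₗ[ℂ] H) x‖ ≤ C * ‖f x‖ := by
    refine ⟨1, fun x => ?_⟩
    rw [one_mul]
    exact (norm_abs a x).ge
  set v0 := ((a : H →ₗ[ℂ] H)).extendOfNorm f with hv0
  have hv : ∀ w, v0 (f w) = a w := fun w => LinearMap.extendOfNorm_eq hd hn w
  refine ⟨v0.comp K.orthogonalProjectionOnto, ?_, ?_⟩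
  · ext w
    change v0 (K.orthogonalProjectionOnto (p w)) = a w
    rw [← hv w]
    congr 1
    exact Submodule.orthogonalProjectionOnto_mem_subspace_eq_self (f w)
  · ext w
    change v0 (K.orthogonalProjectionOnto (rp p w)) = v0 (K.orthogonalProjectionOnto w)
    congr 1
    exact Submodule.orthogonalProjectionOnto_mem_subspace_eq_self (K.orthogonalProjectionOnto w)

end PolarAux

end Pool.Agent.Helper88.CS

end

section

open scoped InnerProductSpace Topology BoundedContinuousFunction CompactlySupported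

open ContinuousLinearMap Filter MeasureTheory

namespace Pool.Agent.Helper88.CS

open Pool.Agent.Helper23

open Pool.Agent.Helper78.BC (Std rm Fixed)

variable {H : Type*} [NormedAddCommGroup H] [InnerProductSpace ℂ H] [CompleteSpace H]

variable {A : VonNeumannAlgebra H} {J : H →L[ℝ] H} {κ : H}

namespace Trick1Aux

section two

variable {X Y : H →L[ℂ] H} (hX : star X = X) (hY : star Y = Y) (hXY : X * Y = Y * X)

include hX hY hXY

/-- the joint spectral measure -/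
lemma exists_joint (v : H) : ∃ μ : Measure ℂ, IsFiniteMeasure μ ∧
    (∀ F : ℂ → ℝ, Continuous F → Integrable F μ) ∧
    (∀ g : ℝ → ℝ, Continuous g → ∫ z, g z.re ^ 2 ∂μ = ‖cfc g X v‖ ^ 2) ∧
    (∀ g : ℝ → ℝ, Continuous g → ∫ z, g z.im ^ 2 ∂μ = ‖cfc g Y v‖ ^ 2) ∧
    (∀ g : ℝ → ℝ, Continuous g →
      ∫ z, (g z.re - g z.im) ^ 2 ∂μ = ‖cfc g X v - cfc g Y v‖ ^ 2) := by
  have hN := normal hX hY hXY
  refine ⟨mu _ hN v, inferInstance, fun F hF => integrable_mu _ hN v F hF, ?_, ?_, ?_⟩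
  · intro g hg
    rw [integral_mu_sq _ hN v (fun z => g z.re) (by fun_prop), cfc_X hX hY hXY hg]
  · intro g hg
    rw [integral_mu_sq _ hN v (fun z => g z.im) (by fun_prop), cfc_Y hX hY hXY hg]
  · intro g hg
    rw [integral_mu_sq _ hN v (fun z => g z.re - g z.im) (by fun_prop)]
    have h1 : (fun z : ℂ => ((g z.re - g z.im : ℝ) : ℂ)) =
        fun z : ℂ => ((g z.re : ℝ) : ℂ) - ((g z.im : ℝ) : ℂ) := by
      funext z; push_cast; ring
    rw [h1, cfc_sub _ _ _ (by fun_prop) (by fun_prop), cfc_X hX hY hXY hg, cfc_Y hX hY hXY hg]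
    rfl

end two

end Trick1Aux

end Pool.Agent.Helper88.CS

end
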