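import Pool.Agent.Helper23.FA.Ns
import Pool.Agent.Helper23.FA.L00_01
import Pool.Agent.Helper23.FA.L00_02
import Pool.Agent.Helper23.FA.L00_03
import Pool.Agent.Helper23.FA.L00_04
import Pool.Agent.Helper23.FA.L00_05
import Pool.Agent.Helper23.FA.L00_06
import Pool.Agent.Helper23.FA.L00_11
import Pool.Agent.Helper23.FA.L00_15
import Pool.Agent.Helper23.FA.L00_17
import Pool.Agent.Helper23.FA.L00_18

/-!
Parts of Helper23.TTDefs, Helper43.TTF.B, Helper23.Bic, Helper23.Gk, Helper68.G2b1, Helper70.U8a, Helper70.U8, Helper68.G2b5, Helper75.GKWeak, Helper68.U17, Helper23.Irr, Helper23.Pin2, Helper53.PG.B2, Helper23.UPi, Helper23.UMain, Helper88.CS.SuppA, Helper88.CS.Hull, Helper23.ED.SmE, Helper23.ED.CoE, Helper23.ED.RkB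
-/

section

open scoped InnerProductSpace Topology BoundedContinuousFunction

open ContinuousLinearMap Filter MeasureTheory

namespace Pool.Agent.Helper23

variable {H : Type*} [NormedAddCommGroup H] [InnerProductSpace ℂ H] [CompleteSpace H]

/-- The interface is symmetric under the exchange of `A` and its commutant. -/
lemma TTData.symm {A : VonNeumannAlgebra H} {ξ : H} {R : H →L[ℂ] H} {D : H →L[ℝ] H}
    (h : TTData A ξ R D) : TTData A.commutant ξ ((2 : ℂ) • (1 : H →L[ℂ] H) - R) D where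
  R_star := by
    rw [star_sub, star_smul, h.R_star, star_one]; simp
  R_nonneg := by
    intro v
    have h1 := h.R_le v
    rw [sub_apply, smul_apply, one_apply_eq_self, inner_sub_right, inner_smul_right,
      inner_self_eq_norm_sq_to_K, Complex.sub_re]
    have : ((2 : ℂ) * ((‖v‖ : ℂ)) ^ 2).re = 2 * ‖v‖ ^ 2 := by norm_cast
    change 0 ≤ ((2 : ℂ) * ((‖v‖ : ℂ)) ^ 2).re - _
    rw [this]; linarith
  R_le := by
    intro v
    have h1 := h.R_nonneg v
    rw [sub_apply, smul_apply, one_apply_eq_self, inner_sub_right, inner_smul_right,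
      inner_self_eq_norm_sq_to_K, Complex.sub_re]
    have : ((2 : ℂ) * ((‖v‖ : ℂ)) ^ 2).re = 2 * ‖v‖ ^ 2 := by norm_cast
    change ((2 : ℂ) * ((‖v‖ : ℂ)) ^ 2).re - _ ≤ _
    rw [this]; linarith
  R_inj := by
    intro v hv
    refine h.R_inj' v ?_
    rw [sub_apply, smul_apply, one_apply_eq_self, sub_eq_zero] at hv
    exact hv.symm
  R_inj' := by
    intro v hv
    refine h.R_inj v ?_
    rw [sub_apply, smul_apply, one_apply_eq_self] at hv
    simpa using hv
  D_conj := h.D_conj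
  D_symm := h.D_symm
  D_sq := by
    intro v
    rw [h.D_sq]
    simp only [sub_apply, smul_apply, one_apply_eq_self, map_sub, map_smul]
    abel
  D_R := by
    intro v
    have h1 : D ((2 : ℂ) • v) = (2 : ℂ) • D v := by
      have h2 := h.D_conj 2 v
      rwa [Complex.conj_ofNat] at h2
    simp only [sub_apply, smul_apply, one_apply_eq_self, map_sub, h.D_R, h1]
  D_mem := by
    intro a ha
    rw [h.D_comm a ha]
    simp only [sub_apply, smul_apply, one_apply_eq_self]
    abel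
  D_comm := by
    intro a ha
    rw [VonNeumannAlgebra.commutant_commutant] at ha
    rw [h.D_mem a ha]
    simp only [sub_apply, smul_apply, one_apply_eq_self]

end Pool.Agent.Helper23

end

section

open scoped InnerProductSpace Topology BoundedContinuousFunction

open ContinuousLinearMap Filter MeasureTheory

namespace Pool.Agent.Helper43.TTF

open Pool.Agent.Helper23

variable {H : Type*} [NormedAddCommGroup H] [InnerProductSpace ℂ H] [CompleteSpace H]

lemma fr_coe (ρ : ℝ) : ((FR - 1 : ℝ →ᵇ ℂ)) ρ = (fr ρ : ℂ) := by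
  rw [BoundedContinuousFunction.sub_apply, FR_apply, one_bcf]
  unfold fr
  push_cast
  ring

lemma hB_mul (n : ℕ) (ρ : ℝ) : (hB n * (FR - 1) : ℝ →ᵇ ℂ) ρ =
    ((fr ρ ^ 2 / (fr ρ ^ 2 + 1 / ((n : ℝ) + 1)) : ℝ) : ℂ) := by
  rw [BoundedContinuousFunction.mul_apply, fr_coe, hB_apply, ← Complex.ofReal_mul]
  congr 1
  ring

lemma tendsto_hB (G : ℝ →ᵇ ℂ) (hG : G 0 = 0) (L : ℝ) :
    TendstoUniformlyOn (fun n ρ => (G * (hB n * (FR - 1)) : ℝ →ᵇ ℂ) ρ) (fun ρ => G ρ) atTop
      (Set.Icc (-L) L) := by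
  rw [Metric.tendstoUniformlyOn_iff]
  intro ε hε
  -- near 0
  have hc : Tendsto G (𝓝 0) (𝓝 (G 0)) := G.continuous.continuousAt
  rw [hG, Metric.tendsto_nhds_nhds] at hc
  obtain ⟨δ, hδ, hδ'⟩ := hc ε hε
  have hd : 0 < fr δ ^ 2 := by
    have := fr_pos_lt hδ
    nlinarith
  obtain ⟨m, hm⟩ := exists_nat_gt (‖G‖ / (ε * fr δ ^ 2))
  filter_upwards [eventually_ge_atTop m] with n hn ρ _
  rw [BoundedContinuousFunction.mul_apply, hB_mul, dist_eq_norm]
  set q : ℝ := fr ρ ^ 2 + 1 / ((n : ℝ) + 1) with hq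
  have hqpos : 0 < q := by positivity
  have h1 : G ρ - G ρ * ((fr ρ ^ 2 / q : ℝ) : ℂ) =
      G ρ * (((1 / ((n : ℝ) + 1)) / q : ℝ) : ℂ) := by
    have h2 : ((1 / ((n : ℝ) + 1)) / q : ℝ) = 1 - fr ρ ^ 2 / q := by
      rw [eq_sub_iff_add_eq, ← add_div, div_eq_one_iff_eq hqpos.ne', hq]
      ring
    rw [h2]
    push_cast
    ring
  rw [h1, norm_mul, Complex.norm_real, Real.norm_of_nonneg (by positivity)]
  have hle : (1 / ((n : ℝ) + 1)) / q ≤ 1 := by
    rw [div_le_one hqpos, hq]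
    have := sq_nonneg (fr ρ)
    linarith
  by_cases hρ : |ρ| < δ
  · have h3 := hδ' (x := ρ) (by rw [dist_zero_right]; exact hρ)
    rw [dist_zero_right] at h3
    calc ‖G ρ‖ * ((1 / ((n : ℝ) + 1)) / q) ≤ ‖G ρ‖ * 1 := by gcongr
      _ < ε := by rw [mul_one]; exact h3
  · push Not at hρ
    have h4 := fr_sq_ge hδ hρ
    have h5 : ‖G ρ‖ ≤ ‖G‖ := G.norm_coe_le_norm ρ
    have h6 : (1 / ((n : ℝ) + 1)) / q ≤ (1 / ((n : ℝ) + 1)) / fr δ ^ 2 := by
      apply div_le_div_of_nonneg_left (by positivity) hd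
      rw [hq]
      have : 0 < 1 / ((n : ℝ) + 1) := by positivity
      linarith
    have h7 : ‖G‖ / (ε * fr δ ^ 2) < (n : ℝ) + 1 := by
      have : (m : ℝ) ≤ n := by exact_mod_cast hn
      linarith
    rw [div_lt_iff₀ (by positivity)] at h7
    calc ‖G ρ‖ * ((1 / ((n : ℝ) + 1)) / q) ≤ ‖G‖ * ((1 / ((n : ℝ) + 1)) / fr δ ^ 2) := by gcongr
      _ = ‖G‖ / (((n : ℝ) + 1) * fr δ ^ 2) := by field_simp
      _ < ε := by
        rw [div_lt_iff₀ (by positivity)]
        linarith

end Pool.Agent.Helper43.TTF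

end

section

open scoped InnerProductSpace Topology BoundedContinuousFunction

open ContinuousLinearMap Filter

namespace Pool.Agent.Helper23

variable {H : Type*} [NormedAddCommGroup H] [InnerProductSpace ℂ H] [CompleteSpace H]

variable {M N : VonNeumannAlgebra H} {ξ : H} {E : (H →L[ℂ] H) → (H →L[ℂ] H)}

namespace AP

variable (S : AP M N E ξ)

include S

omit S in
lemma bicent_one : (1 : H →L[ℂ] H) ∈ Bicent M N ξ :=
  ⟨one_mem M, fun a _ η => by
    simp only [one_apply_eq_self, sub_self]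
    exact tendsto_const_nhds⟩

omit S in
lemma bicent_add {x y : H →L[ℂ] H} (hx : x ∈ Bicent M N ξ) (hy : y ∈ Bicent M N ξ) :
    x + y ∈ Bicent M N ξ := by
  refine ⟨add_mem hx.1 hy.1, fun a ha η => ?_⟩
  have h := (hx.2 a ha η).add (hy.2 a ha η)
  rw [add_zero] at h
  refine h.congr fun n => ?_
  rw [add_apply, add_apply, map_add]
  abel

omit S in
lemma bicent_smul (c : ℂ) {x : H →L[ℂ] H} (hx : x ∈ Bicent M N ξ) :
    c • x ∈ Bicent M N ξ := by
  refine ⟨smul_mem' c hx.1, fun a ha η => ?_⟩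
  have h := (hx.2 a ha η).const_smul c
  rw [smul_zero] at h
  refine h.congr fun n => ?_
  rw [smul_apply, smul_apply, map_smul, smul_sub]

end AP

end Pool.Agent.Helper23

end

section

open scoped InnerProductSpace Topology ENNReal

open ContinuousLinearMap Filter MeasureTheory

set_option linter.unusedSectionVars false

set_option linter.unusedVariables false

namespace Pool.Agent.Helper23

variable {H : Type*} [NormedAddCommGroup H] [InnerProductSpace ℂ H] [CompleteSpace H]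

variable {M N : VonNeumannAlgebra H} {ξ : H} {E : (H →L[ℂ] H) → (H →L[ℂ] H)}

lemma GK_star {A : VonNeumannAlgebra H} {u : L2R H →L[ℂ] L2R H} (hu : u ∈ GK A ξ) :
    star u ∈ GK A ξ := by
  refine ⟨star_mem hu.1, by rw [star_star]; exact hu.2.2.1, by rw [star_star]; exact hu.2.1,
    fun Y hY => ?_⟩
  have h := hu.2.2.2 (Y * star u) (mul_mem hY (star_mem hu.1))
  rw [mul_assoc, hu.2.1, mul_one] at h
  exact h.symm

end Pool.Agent.Helper23

end

section

open scoped InnerProductSpace Topology BoundedContinuousFunction FourierTransform ENNReal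

open ContinuousLinearMap Filter MeasureTheory

set_option linter.unusedSectionVars false

namespace Pool.Agent.Helper23

variable {H : Type*} [NormedAddCommGroup H] [InnerProductSpace ℂ H] [CompleteSpace H]

lemma psi_adj (Ψ : (ℝ →ᵇ ℂ) →⋆ₐ[ℂ] (H →L[ℂ] H)) (G : ℝ →ᵇ ℂ) (v w : H) :
    ⟪Ψ G v, w⟫_ℂ = ⟪v, Ψ (star G) w⟫_ℂ := by
  rw [map_star, inner_star_right]

/-- domination: `|G| ≤ C |F|` with `F` real implies `‖Ψ(G) v‖ ≤ C ‖Ψ(F) v‖` -/
lemma psi_dom (Ψ : (ℝ →ᵇ ℂ) →⋆ₐ[ℂ] (H →L[ℂ] H)) {G F : ℝ →ᵇ ℂ} {C : ℝ} (hC : 0 ≤ C)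
    (h : ∀ ρ, ‖G ρ‖ ≤ C * ‖F ρ‖) (v : H) : ‖Ψ G v‖ ≤ C * ‖Ψ F v‖ := by
  have hc : Continuous fun ρ : ℝ => ((Real.sqrt (C ^ 2 * ‖F ρ‖ ^ 2 - ‖G ρ‖ ^ 2) : ℝ) : ℂ) := by
    have := F.continuous
    have := G.continuous
    fun_prop
  have hb : ∀ ρ : ℝ, ‖((Real.sqrt (C ^ 2 * ‖F ρ‖ ^ 2 - ‖G ρ‖ ^ 2) : ℝ) : ℂ)‖ ≤ C * ‖F‖ := by
    intro ρ
    rw [Complex.norm_real, Real.norm_of_nonneg (Real.sqrt_nonneg _)]
    have h1 : C * ‖F ρ‖ ≤ C * ‖F‖ := mul_le_mul_of_nonneg_left (F.norm_coe_le_norm ρ) hC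
    refine (Real.sqrt_le_sqrt (y := (C * ‖F‖) ^ 2) ?_).trans (Real.sqrt_sq (by positivity)).le
    have h2 := pow_le_pow_left₀ (by positivity : 0 ≤ C * ‖F ρ‖) h1 2
    rw [mul_pow] at h2
    nlinarith [sq_nonneg ‖G ρ‖]
  set S : ℝ →ᵇ ℂ := BoundedContinuousFunction.ofNormedAddCommGroup _ hc _ hb with hS
  have hSa : ∀ ρ, S ρ = ((Real.sqrt (C ^ 2 * ‖F ρ‖ ^ 2 - ‖G ρ‖ ^ 2) : ℝ) : ℂ) := fun ρ => rfl
  have h1 : star G * G + star S * S = ((C ^ 2 : ℝ) : ℂ) • (star F * F) := by
    ext ρ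
    simp only [BoundedContinuousFunction.add_apply, BoundedContinuousFunction.mul_apply,
      BoundedContinuousFunction.star_apply, BoundedContinuousFunction.smul_apply, Complex.star_def,
      smul_eq_mul]
    rw [Complex.conj_mul', Complex.conj_mul', Complex.conj_mul', hSa, Complex.norm_real,
      Real.norm_of_nonneg (Real.sqrt_nonneg _)]
    have h3 : (Real.sqrt (C ^ 2 * ‖F ρ‖ ^ 2 - ‖G ρ‖ ^ 2)) ^ 2 =
        C ^ 2 * ‖F ρ‖ ^ 2 - ‖G ρ‖ ^ 2 := by
      refine Real.sq_sqrt ?_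
      have h2 := pow_le_pow_left₀ (norm_nonneg _) (h ρ) 2
      rw [mul_pow] at h2
      linarith
    have h4 : ((Real.sqrt (C ^ 2 * ‖F ρ‖ ^ 2 - ‖G ρ‖ ^ 2) : ℝ) : ℂ) ^ 2 =
        ((C ^ 2 * ‖F ρ‖ ^ 2 - ‖G ρ‖ ^ 2 : ℝ) : ℂ) := by
      rw [← Complex.ofReal_pow, h3]
    rw [h4]
    push_cast
    ring
  have key : ∀ G : ℝ →ᵇ ℂ, ⟪v, Ψ (star G * G) v⟫_ℂ = ((‖Ψ G v‖ ^ 2 : ℝ) : ℂ) := by
    intro G
    rw [psi_mul_apply, ← psi_adj, inner_self_eq_norm_sq_to_K]
    norm_cast
  have h2 := congrArg (fun G : ℝ →ᵇ ℂ => ⟪v, Ψ G v⟫_ℂ) h1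
  simp only [map_add, map_smul, add_apply, smul_apply, inner_add_right, inner_smul_right] at h2
  rw [key, key, key] at h2
  have h3 : ‖Ψ G v‖ ^ 2 + ‖Ψ S v‖ ^ 2 = C ^ 2 * ‖Ψ F v‖ ^ 2 := by exact_mod_cast h2
  refine (pow_le_pow_iff_left₀ (norm_nonneg _) (by positivity) two_ne_zero).1 ?_
  rw [mul_pow]
  nlinarith [sq_nonneg ‖Ψ S v‖]

end Pool.Agent.Helper23

end

section

open scoped InnerProductSpace Topology BoundedContinuousFunction

open ContinuousLinearMap Filter MeasureTheory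

namespace Pool.Agent.Helper70.U8

open Pool.Agent.Helper23

variable {H : Type*} [NormedAddCommGroup H] [InnerProductSpace ℂ H] [CompleteSpace H]

variable {A : VonNeumannAlgebra H} {ξ : H} {R : H →L[ℂ] H} {D : H →L[ℝ] H}
  {Ψ : (ℝ →ᵇ ℂ) →⋆ₐ[ℂ] (H →L[ℂ] H)}

lemma ga_integral {ε : ℝ} (hε : 0 < ε) : ∫ t, ga ε t = 1 := by
  unfold ga
  rw [integral_const_mul, integral_gaussian, inv_mul_cancel₀]
  have : 0 < Real.pi / (Real.pi ^ 2 / ε) := by positivity
  exact (Real.sqrt_pos.2 this).ne'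

lemma kg_integral_norm {ε : ℝ} (hε : 0 < ε) (κ : ℝ) :
    ∫ t, ‖kg ε κ t‖ = Real.exp (κ ^ 2 / (4 * ε)) := by
  simp only [kg_norm]
  rw [integral_mul_const, ga_integral hε, one_mul]

end Pool.Agent.Helper70.U8

end

section

open scoped InnerProductSpace Topology BoundedContinuousFunction

open ContinuousLinearMap Filter MeasureTheory

namespace Pool.Agent.Helper70.U8

open Pool.Agent.Helper23

variable {H : Type*} [NormedAddCommGroup H] [InnerProductSpace ℂ H] [CompleteSpace H]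

variable {A : VonNeumannAlgebra H} {ξ : H} {R : H →L[ℂ] H} {D : H →L[ℝ] H}
  {Ψ : (ℝ →ᵇ ℂ) →⋆ₐ[ℂ] (H →L[ℂ] H)} {J : H →L[ℝ] H}

open Pool.Agent.Helper43.TTF (JD FT FT_apply FR_apply)

lemma one_sub_norm_apply {ε : ℝ} (hε : 0 < ε) (ρ : ℝ) :
    ‖(1 - GB ε hε 0 : ℝ →ᵇ ℂ) ρ‖ ≤ min 1 (ε * ρ ^ 2) := by
  have h1 : (1 - GB ε hε 0 : ℝ →ᵇ ℂ) ρ = ((1 - Real.exp (-(ε * ρ ^ 2)) : ℝ) : ℂ) := by
    rw [BoundedContinuousFunction.sub_apply, GB_apply, Pool.Agent.Helper43.TTF.one_bcf]
    push_cast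
    rw [zero_mul, add_zero]
  have h2 : Real.exp (-(ε * ρ ^ 2)) ≤ 1 := Real.exp_le_one_iff.2 (by
    have : 0 ≤ ε * ρ ^ 2 := by positivity
    linarith)
  have h3 := Real.add_one_le_exp (-(ε * ρ ^ 2))
  have h4 := Real.exp_pos (-(ε * ρ ^ 2))
  rw [h1, Complex.norm_real, Real.norm_of_nonneg (by linarith)]
  refine le_min (by linarith) (by linarith)

lemma one_sub_norm {ε : ℝ} (hε : 0 < ε) : ‖(1 - GB ε hε 0 : ℝ →ᵇ ℂ)‖ ≤ 1 := by
  refine (BoundedContinuousFunction.norm_le zero_le_one).2 fun ρ => ?_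
  exact (one_sub_norm_apply hε ρ).trans (min_le_left _ _)

lemma FT_mul_norm {ε : ℝ} (hε : 0 < ε) : ‖(FT * (1 - GB ε hε 0) : ℝ →ᵇ ℂ)‖ ≤ 8 * ε := by
  refine (BoundedContinuousFunction.norm_le (by positivity)).2 fun ρ => ?_
  rw [BoundedContinuousFunction.mul_apply, norm_mul, FT_apply, Complex.norm_real,
    Real.norm_of_nonneg (by have := Real.cosh_pos (ρ / 2); positivity)]
  have h1 := (one_sub_norm_apply hε ρ).trans (min_le_right _ _)
  have h2 : ρ ^ 2 / 8 ≤ Real.cosh (ρ / 2) := by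
    have e1 : Real.cosh (ρ / 2) = 1 + 2 * Real.sinh (ρ / 4) ^ 2 := by
      have := Real.cosh_two_mul (ρ / 4)
      have e2 : 2 * (ρ / 4) = ρ / 2 := by ring
      rw [e2, Real.cosh_sq] at this
      rw [this]
      ring
    rw [e1]
    have e3 : (ρ / 4) ^ 2 ≤ Real.sinh (ρ / 4) ^ 2 := by
      rw [sq_le_sq, Real.abs_sinh]
      exact Real.self_le_sinh_iff.2 (abs_nonneg _)
    nlinarith
  have h3 := Real.cosh_pos (ρ / 2)
  rw [inv_mul_le_iff₀ h3]
  calc ‖(1 - GB ε hε 0 : ℝ →ᵇ ℂ) ρ‖ ≤ ε * ρ ^ 2 := h1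
    _ ≤ Real.cosh (ρ / 2) * (8 * ε) := by nlinarith

end Pool.Agent.Helper70.U8

end

section

open scoped InnerProductSpace Topology BoundedContinuousFunction FourierTransform ENNReal

open ContinuousLinearMap Filter MeasureTheory

set_option linter.unusedSectionVars false

namespace Pool.Agent.Helper23

variable {H : Type*} [NormedAddCommGroup H] [InnerProductSpace ℂ H] [CompleteSpace H]

variable {M N : VonNeumannAlgebra H} {ξ : H} {E : (H →L[ℂ] H) → (H →L[ℂ] H)}

lemma psi_expB_adj (Ψ : (ℝ →ᵇ ℂ) →⋆ₐ[ℂ] (H →L[ℂ] H)) (t : ℝ) (x y : H) :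
    ⟪Ψ (expB (-t)) x, y⟫_ℂ = ⟪x, Ψ (expB t) y⟫_ℂ := by
  rw [psi_adj, expB_star, neg_neg]

end Pool.Agent.Helper23

end

section

open scoped InnerProductSpace Topology ENNReal

open ContinuousLinearMap Filter MeasureTheory

set_option linter.unusedSectionVars false

set_option linter.unusedVariables false

namespace Pool.Agent.Helper23

variable {H : Type*} [NormedAddCommGroup H] [InnerProductSpace ℂ H] [CompleteSpace H]

variable {M N : VonNeumannAlgebra H} {ξ : H} {E : (H →L[ℂ] H) → (H →L[ℂ] H)}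

namespace GKW

lemma cut_tendsto (F : L2R H) :
    Tendsto (fun n : ℕ => mulOp H (ind (Set.Ico (-(n : ℝ)) n)) F) atTop (𝓝 F) := by
  rw [tendsto_iff_norm_sub_tendsto_zero]
  have h1 : Tendsto (fun n : ℕ => ENNReal.ofReal
      (‖mulOp H (ind (Set.Ico (-(n : ℝ)) n)) F - F‖ ^ 2)) atTop (𝓝 0) := by
    simp only [norm_sq_lint]
    have h2 : Tendsto (fun n : ℕ => ∫⁻ s, ENNReal.ofReal
        (‖(mulOp H (ind (Set.Ico (-(n : ℝ)) n)) F - F : L2R H) s‖ ^ 2)) atTop
        (𝓝 (∫⁻ _ : ℝ, 0)) := by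
      have hcoe : ∀ᵐ s, ∀ n : ℕ, (mulOp H (ind (Set.Ico (-(n : ℝ)) n)) F - F : L2R H) s =
          ind (Set.Ico (-(n : ℝ)) n) s • F s - F s := by
        refine ae_all_iff.2 fun n => ?_
        filter_upwards [Lp.coeFn_sub (mulOp H (ind (Set.Ico (-(n : ℝ)) n)) F) F,
          mulOp_coe (ind_bm (measurableSet_Ico (a := -(n : ℝ)) (b := n))) F] with s e1 e2
        rw [e1, Pi.sub_apply, e2]
      refine tendsto_lintegral_of_dominated_convergence' (fun s => ENNReal.ofReal (‖F s‖ ^ 2))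
        (fun n => ?_) (fun n => ?_) ?_ ?_
      · exact ENNReal.measurable_ofReal.comp_aemeasurable
          ((Lp.aestronglyMeasurable _).norm.aemeasurable.pow_const 2)
      · filter_upwards [hcoe] with s hs'
        refine ENNReal.ofReal_le_ofReal ?_
        rw [hs']
        by_cases h : s ∈ Set.Ico (-(n : ℝ)) n
        · rw [ind_of_mem h, one_smul, sub_self, norm_zero]
          simp
        · rw [ind_of_notMem h, zero_smul, zero_sub, norm_neg]
      · rw [← norm_sq_lint]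
        exact ENNReal.ofReal_ne_top
      · filter_upwards [hcoe] with s hs'
        refine tendsto_const_nhds.congr' ?_
        obtain ⟨n0, hn0⟩ := exists_nat_gt |s|
        filter_upwards [eventually_ge_atTop n0] with n hn
        have h3 : (n0 : ℝ) ≤ n := by exact_mod_cast hn
        have h4 : s ∈ Set.Ico (-(n : ℝ)) n := by
          have := abs_lt.1 (hn0.trans_le h3)
          exact ⟨this.1.le, this.2⟩
        rw [hs', ind_of_mem h4, one_smul, sub_self, norm_zero]
        simp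
    rwa [lintegral_zero] at h2
  have h2 := (ENNReal.tendsto_toReal ENNReal.zero_ne_top).comp h1
  have h3 : Tendsto (fun n : ℕ => ‖mulOp H (ind (Set.Ico (-(n : ℝ)) n)) F - F‖ ^ 2) atTop
      (𝓝 0) := by
    refine h2.congr fun n => ?_
    exact ENNReal.toReal_ofReal (by positivity)
  have h4 := h3.sqrt
  rw [Real.sqrt_zero] at h4
  refine h4.congr fun n => ?_
  rw [Real.sqrt_sq (norm_nonneg _)]

end GKW

end Pool.Agent.Helper23

end

section

open scoped InnerProductSpace Topology BoundedContinuousFunction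

open ContinuousLinearMap Filter MeasureTheory

set_option linter.unusedSectionVars false

namespace Pool.Agent.Helper23

universe u

variable {H : Type u} [NormedAddCommGroup H] [InnerProductSpace ℂ H] [CompleteSpace H]

variable {M N : VonNeumannAlgebra H} {ξ : H} {E : (H →L[ℂ] H) → (H →L[ℂ] H)}

lemma expB_dom_gen (t : ℝ) {l : ℝ} (hl : 0 < l) (ρ : ℝ) :
    ‖(expB t - (expB t (-Real.log l)) • (1 : ℝ →ᵇ ℂ)) ρ‖ ≤
      ((3 * |t| + 6) / (2 * min 1 l)) *
        ‖(((2 * l : ℝ) : ℂ) • (1 : ℝ →ᵇ ℂ) - ((1 + l : ℝ) : ℂ) • FR) ρ‖ := by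
  set σ : ℝ := ρ + Real.log l with hσ
  have hexp : Real.exp σ = Real.exp ρ * l := by
    rw [hσ, Real.exp_add, Real.exp_log hl]
  have hm : 0 < min 1 l := lt_min one_pos hl
  have e1 : (expB t - (expB t (-Real.log l)) • (1 : ℝ →ᵇ ℂ)) ρ =
      expB t (-Real.log l) * (expB t - 1) σ := by
    rw [BoundedContinuousFunction.sub_apply, BoundedContinuousFunction.smul_apply,
      BoundedContinuousFunction.sub_apply, BoundedContinuousFunction.coe_one, Pi.one_apply,
      Pi.one_apply, smul_eq_mul, mul_one, mul_sub, mul_one, expB_apply, expB_apply, expB_apply,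
      ← Complex.exp_add]
    congr 2
    rw [hσ]
    push_cast
    ring
  rw [e1, norm_mul, expB_norm_apply, one_mul]
  refine (expB_dom t σ).trans ?_
  have e2 : (((2 * l : ℝ) : ℂ) • (1 : ℝ →ᵇ ℂ) - ((1 + l : ℝ) : ℂ) • FR) ρ =
      ((2 * (Real.exp σ - 1) / (1 + Real.exp ρ) : ℝ) : ℂ) := by
    rw [BoundedContinuousFunction.sub_apply, BoundedContinuousFunction.smul_apply,
      BoundedContinuousFunction.smul_apply, BoundedContinuousFunction.coe_one, Pi.one_apply,
      FR_apply, smul_eq_mul, smul_eq_mul, mul_one, ← Complex.ofReal_mul, ← Complex.ofReal_sub,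
      hexp]
    congr 1
    have h1 : (1 + Real.exp ρ) ≠ 0 := by positivity
    field_simp
    ring
  have e3 : (FR - 1) σ = (((1 - Real.exp σ) / (1 + Real.exp σ) : ℝ) : ℂ) := by
    rw [BoundedContinuousFunction.sub_apply, FR_apply, BoundedContinuousFunction.coe_one,
      Pi.one_apply, ← Complex.ofReal_one, ← Complex.ofReal_sub]
    congr 1
    have h1 : (1 + Real.exp σ) ≠ 0 := by positivity
    field_simp
    ring
  rw [e2, e3, Complex.norm_real, Complex.norm_real, Real.norm_eq_abs, Real.norm_eq_abs, abs_div,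
    abs_div, abs_of_pos (by positivity : 0 < 1 + Real.exp σ),
    abs_of_pos (by positivity : 0 < 1 + Real.exp ρ), abs_mul, abs_two, abs_sub_comm 1]
  have e4 : |Real.exp σ - 1| / (1 + Real.exp σ) ≤
      (1 / min 1 l) * (|Real.exp σ - 1| / (1 + Real.exp ρ)) := by
    rw [one_div, ← mul_div_assoc, div_le_div_iff₀ (by positivity) (by positivity)]
    have h1 : min 1 l * (1 + Real.exp ρ) ≤ 1 + Real.exp σ := by
      rw [hexp]
      have h2 : min 1 l * 1 ≤ 1 * 1 := by gcongr; exact min_le_left _ _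
      have h3 : min 1 l * Real.exp ρ ≤ l * Real.exp ρ := by gcongr; exact min_le_right _ _
      linarith
    have h2 : 1 + Real.exp ρ ≤ (min 1 l)⁻¹ * (1 + Real.exp σ) := by
      rw [inv_mul_eq_div, le_div_iff₀ hm]
      linarith
    calc |Real.exp σ - 1| * (1 + Real.exp ρ) ≤ |Real.exp σ - 1| *
          ((min 1 l)⁻¹ * (1 + Real.exp σ)) := mul_le_mul_of_nonneg_left h2 (abs_nonneg _)
      _ = _ := by ring
  calc (3 * |t| + 6) * (|Real.exp σ - 1| / (1 + Real.exp σ)) ≤
        (3 * |t| + 6) * ((1 / min 1 l) * (|Real.exp σ - 1| / (1 + Real.exp ρ))) :=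
        mul_le_mul_of_nonneg_left e4 (by positivity)
    _ = _ := by
        field_simp

end Pool.Agent.Helper23

end

section

open scoped InnerProductSpace Topology ENNReal

open ContinuousLinearMap Filter MeasureTheory

set_option linter.unusedSectionVars false

set_option linter.unusedVariables false

namespace Pool.Agent.Helper23

/-- the corresponding element of `L²` -/
noncomputable def f0 : L2R ℂ := w0_memLp.toLp w0

lemma f0_coe : f0 =ᵐ[volume] w0 := w0_memLp.coeFn_toLp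

/-- bounded multiples of `f0` are total -/
lemma eq_zero_of_f0 {g : L2R ℂ} (h : ∀ m : ℝ → ℂ, BM m → ⟪mulOp ℂ m f0, g⟫_ℂ = 0) : g = 0 := by
  set g' : ℝ → ℂ := fun s => g s with hg'
  have hgm : Measurable g' := (Lp.stronglyMeasurable g).measurable
  set m : ℝ → ℂ := fun s => g' s / (1 + ‖g' s‖) with hm
  have hmb : BM m := by
    refine ⟨hgm.div (measurable_const.add (Complex.measurable_ofReal.comp hgm.norm)), 1,
      zero_le_one, fun s => ?_⟩
    rw [hm]
    simp only
    have h1 : ‖(1 : ℂ) + (‖g' s‖ : ℂ)‖ = 1 + ‖g' s‖ := by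
      rw [← Complex.ofReal_one, ← Complex.ofReal_add, Complex.norm_real,
        Real.norm_of_nonneg (by positivity)]
    rw [norm_div, h1, div_le_one (by positivity)]
    linarith [norm_nonneg (g' s)]
  have h1 := h m hmb
  rw [L2.inner_def] at h1
  have h2 : ∫ s, ⟪(mulOp ℂ m f0) s, g s⟫_ℂ =
      ((∫ s, (1 + s ^ 2)⁻¹ * (‖g' s‖ ^ 2 / (1 + ‖g' s‖)) : ℝ) : ℂ) := by
    rw [← integral_complex_ofReal]
    refine integral_congr_ae ?_
    filter_upwards [mulOp_coe hmb f0, f0_coe] with s e1 e2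
    rw [e1, e2, w0, hm]
    simp only [RCLike.inner_apply, smul_eq_mul, map_mul, map_div₀, map_add, map_one,
      Complex.conj_ofReal]
    have e3 : (starRingEnd ℂ) (g' s) * g s = ((‖g' s‖ ^ 2 : ℝ) : ℂ) := by
      rw [hg', RCLike.conj_mul]
      norm_cast
    have e4 : (1 : ℂ) + (‖g' s‖ : ℂ) ≠ 0 := by
      rw [← Complex.ofReal_one, ← Complex.ofReal_add]
      exact Complex.ofReal_ne_zero.2 (by positivity)
    push_cast
    push_cast at e3
    field_simp
    rw [← e3]
    ring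
  rw [h2] at h1
  have h3 : ∫ s, (1 + s ^ 2)⁻¹ * (‖g' s‖ ^ 2 / (1 + ‖g' s‖)) = 0 := by exact_mod_cast h1
  have hint : Integrable (fun s => (1 + s ^ 2)⁻¹ * (‖g' s‖ ^ 2 / (1 + ‖g' s‖))) := by
    have hsq : Integrable (fun s => ‖g' s‖ ^ 2) :=
      (Lp.memLp g).integrable_norm_pow two_ne_zero
    refine Integrable.mono hsq ?_ (Eventually.of_forall fun s => ?_)
    · have hmeas : Measurable (fun s => (1 + s ^ 2)⁻¹ * (‖g' s‖ ^ 2 / (1 + ‖g' s‖))) := by
        have e1 : Measurable fun s => ‖g' s‖ := hgm.norm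
        fun_prop
      exact hmeas.aestronglyMeasurable
    · rw [Real.norm_of_nonneg (by positivity), Real.norm_of_nonneg (by positivity)]
      have e1 : (1 + s ^ 2)⁻¹ ≤ 1 := inv_le_one_of_one_le₀ (by nlinarith [sq_nonneg s])
      have e2 : ‖g' s‖ ^ 2 / (1 + ‖g' s‖) ≤ ‖g' s‖ ^ 2 :=
        div_le_self (by positivity) (by linarith [norm_nonneg (g' s)])
      calc (1 + s ^ 2)⁻¹ * (‖g' s‖ ^ 2 / (1 + ‖g' s‖)) ≤ 1 * ‖g' s‖ ^ 2 := by gcongr
        _ = _ := one_mul _
  rw [integral_eq_zero_iff_of_nonneg (fun s => by positivity) hint] at h3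
  ext1
  filter_upwards [h3, Lp.coeFn_zero ℂ 2 volume] with s e1 e2
  rw [e2]
  have e1' : (1 + s ^ 2)⁻¹ * (‖g' s‖ ^ 2 / (1 + ‖g' s‖)) = 0 := e1
  have e3 : (0 : ℝ) < (1 + s ^ 2)⁻¹ := by positivity
  have e4 : ‖g' s‖ ^ 2 / (1 + ‖g' s‖) = 0 := by
    rcases mul_eq_zero.1 e1' with h | h
    · exact absurd h e3.ne'
    · exact h
  have e5 : ‖g' s‖ ^ 2 = 0 := by
    rcases div_eq_zero_iff.1 e4 with h | h
    · exact h
    · have : (0 : ℝ) < 1 + ‖g' s‖ := by positivity
      exact absurd h this.ne'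
  exact norm_eq_zero.1 (pow_eq_zero_iff two_ne_zero |>.1 e5)

end Pool.Agent.Helper23

end

section

open scoped InnerProductSpace Topology ENNReal

open ContinuousLinearMap Filter MeasureTheory

namespace Pool.Agent.Helper23

variable {H : Type*} [NormedAddCommGroup H] [InnerProductSpace ℂ H] [CompleteSpace H]

variable {M N : VonNeumannAlgebra H} {ξ : H} {E : (H →L[ℂ] H) → (H →L[ℂ] H)}

/-- weights on the windows -/
noncomputable def em (t : ℝ) (i : ℤ) (s : ℝ) : ℂ :=
  (win t i).indicator (fun s => ((Real.exp (i * t - s) : ℝ) : ℂ)) s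

/-- weights on the windows -/
noncomputable def ep (t : ℝ) (i : ℤ) (s : ℝ) : ℂ :=
  (win t i).indicator (fun s => ((Real.exp (s - i * t) : ℝ) : ℂ)) s

lemma em_of_mem {t : ℝ} {i : ℤ} {s : ℝ} (h : s ∈ win t i) :
    em t i s = ((Real.exp (i * t - s) : ℝ) : ℂ) := Set.indicator_of_mem h _

lemma em_of_notMem {t : ℝ} {i : ℤ} {s : ℝ} (h : s ∉ win t i) : em t i s = 0 :=
  Set.indicator_of_notMem h _

lemma ep_of_mem {t : ℝ} {i : ℤ} {s : ℝ} (h : s ∈ win t i) :
    ep t i s = ((Real.exp (s - i * t) : ℝ) : ℂ) := Set.indicator_of_mem h _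

lemma ep_of_notMem {t : ℝ} {i : ℤ} {s : ℝ} (h : s ∉ win t i) : ep t i s = 0 :=
  Set.indicator_of_notMem h _

lemma em_norm (t : ℝ) (i : ℤ) (s : ℝ) : ‖em t i s‖ ≤ 1 := by
  by_cases h : s ∈ win t i
  · rw [em_of_mem h, Complex.norm_real, Real.norm_of_nonneg (by positivity), Real.exp_le_one_iff]
    linarith [h.1]
  · rw [em_of_notMem h, norm_zero]; exact zero_le_one

lemma ep_norm {t : ℝ} (ht : 0 < t) (i : ℤ) (s : ℝ) : ‖ep t i s‖ ≤ Real.exp t := by
  by_cases h : s ∈ win t i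
  · rw [ep_of_mem h, Complex.norm_real, Real.norm_of_nonneg (by positivity), Real.exp_le_exp]
    have := h.2
    nlinarith
  · rw [ep_of_notMem h, norm_zero]; positivity

lemma em_bm (t : ℝ) (i : ℤ) : BM (em t i) := by
  refine ⟨(Complex.measurable_ofReal.comp
    (Real.measurable_exp.comp (measurable_const.sub measurable_id))).indicator (win_meas t i),
    1, zero_le_one, em_norm t i⟩

lemma ep_bm {t : ℝ} (ht : 0 < t) (i : ℤ) : BM (ep t i) := by
  refine ⟨(Complex.measurable_ofReal.comp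
    (Real.measurable_exp.comp (measurable_id.sub measurable_const))).indicator (win_meas t i),
    Real.exp t, by positivity, ep_norm ht i⟩

lemma em_sub_norm {t : ℝ} (ht : 0 < t) (i : ℤ) (s : ℝ) : ‖em t i s - ind (win t i) s‖ ≤ t := by
  by_cases h : s ∈ win t i
  · rw [em_of_mem h, ind_of_mem h, ← Complex.ofReal_one, ← Complex.ofReal_sub,
      Complex.norm_real, Real.norm_eq_abs, abs_le]
    have h1 := h.1
    have h2 := h.2
    have h3 : Real.exp (i * t - s) ≤ 1 := Real.exp_le_one_iff.2 (by linarith)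
    have h4 := Real.add_one_le_exp (i * t - s)
    constructor
    · nlinarith
    · linarith
  · rw [em_of_notMem h, ind_of_notMem h, sub_zero, norm_zero]; exact ht.le

lemma ep_sub_norm {t : ℝ} (ht : 0 < t) (i : ℤ) (s : ℝ) :
    ‖ep t i s - ind (win t i) s‖ ≤ t * Real.exp t := by
  by_cases h : s ∈ win t i
  · rw [ep_of_mem h, ind_of_mem h, ← Complex.ofReal_one, ← Complex.ofReal_sub,
      Complex.norm_real, Real.norm_eq_abs]
    have h1 := h.1
    have h2 : s - i * t ≤ t := by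
      have := h.2
      nlinarith
    have h3 : 1 ≤ Real.exp (s - i * t) := Real.one_le_exp (by linarith)
    rw [abs_of_nonneg (by linarith)]
    have h5 : Real.exp (s - i * t) ≤ Real.exp t := Real.exp_le_exp.2 h2
    have h6 := Real.add_one_le_exp (-t)
    have h7 : Real.exp t * Real.exp (-t) = 1 := by rw [← Real.exp_add]; simp
    nlinarith [Real.exp_pos t]
  · rw [ep_of_notMem h, ind_of_notMem h, sub_zero, norm_zero]; positivity

/-- the weighted slices -/
noncomputable def sb (u : L2R H →L[ℂ] L2R H) (t : ℝ) (g : L2R ℂ) (l : ℤ × hw × ℤ) : H →L[ℂ] H :=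
  slX u (mulOp ℂ (em t l.1) (hb l.2.1)) (mulOp ℂ (ep t l.2.2) g)

end Pool.Agent.Helper23

end

section

set_option linter.unusedSectionVars false

open scoped InnerProductSpace Topology

open ContinuousLinearMap Filter

namespace Pool.Agent.Helper53.PG

open Pool.Agent.Helper23

universe u v

variable {H : Type u} [NormedAddCommGroup H] [InnerProductSpace ℂ H] [CompleteSpace H]

variable {M N : VonNeumannAlgebra H} {ξ : H} {E : (H →L[ℂ] H) → (H →L[ℂ] H)}

lemma exists_gamma (S : AP M N E ξ) {t : ℝ} (ht : 0 < t) (ht1 : t < 1) (s : ℝ)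
    (hs : s = 1 ∨ s = -1) :
    ∃ γ : ℝ, 0 < γ ∧ ∃ w ∈ eig N ξ γ, w ≠ 0 ∧ t / 2 < s * (γ⁻¹ - 1) ∧ s * (γ⁻¹ - 1) < t := by
  rcases hs with rfl | rfl
  · obtain ⟨γ, ⟨hγ, w, hw, hw0⟩, h1, h2⟩ := S.dns (1 / (1 + t)) (1 / (1 + t / 2)) (by positivity)
      (by
        rw [div_lt_div_iff₀ (by positivity) (by positivity)]
        linarith)
    refine ⟨γ, hγ, w, hw, hw0, ?_, ?_⟩
    · have h3 : 1 + t / 2 < γ⁻¹ := by
        rw [lt_inv_comm₀ (by positivity) hγ]
        rwa [one_div] at h2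
      linarith
    · have h3 : γ⁻¹ < 1 + t := by
        rw [inv_lt_comm₀ hγ (by positivity)]
        rwa [one_div] at h1
      linarith
  · have h1t : 0 < 1 - t := by linarith
    have h2t : 0 < 1 - t / 2 := by linarith
    obtain ⟨γ, ⟨hγ, w, hw, hw0⟩, h1, h2⟩ := S.dns (1 / (1 - t / 2)) (1 / (1 - t)) (by positivity)
      (by
        rw [div_lt_div_iff₀ (by positivity) (by positivity)]
        linarith)
    refine ⟨γ, hγ, w, hw, hw0, ?_, ?_⟩
    · have h3 : γ⁻¹ < 1 - t / 2 := by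
        rw [inv_lt_comm₀ hγ (by positivity)]
        rwa [one_div] at h1
      linarith
    · have h3 : 1 - t < γ⁻¹ := by
        rw [lt_inv_comm₀ (by positivity) hγ]
        rwa [one_div] at h2
      linarith

end Pool.Agent.Helper53.PG

end

section

open scoped InnerProductSpace Topology ENNReal

open ContinuousLinearMap Filter MeasureTheory

namespace Pool.Agent.Helper23

variable {H : Type*} [NormedAddCommGroup H] [InnerProductSpace ℂ H] [CompleteSpace H]

variable {M N : VonNeumannAlgebra H} {ξ : H} {E : (H →L[ℂ] H) → (H →L[ℂ] H)}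

lemma bicent_sub {x y : H →L[ℂ] H} (hx : x ∈ Bicent M N ξ) (hy : y ∈ Bicent M N ξ) :
    x - y ∈ Bicent M N ξ := by
  have h1 : x - y = x + (-1 : ℂ) • y := by simp [sub_eq_add_neg]
  rw [h1]
  exact AP.bicent_add hx (AP.bicent_smul _ hy)

lemma bicent_zero : (0 : H →L[ℂ] H) ∈ Bicent M N ξ := by
  have := AP.bicent_smul (M := M) (N := N) (ξ := ξ) 0 AP.bicent_one
  rwa [zero_smul] at this

end Pool.Agent.Helper23

end

section

open scoped InnerProductSpace Topology ENNReal BoundedContinuousFunction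

open ContinuousLinearMap Filter MeasureTheory

namespace Pool.Agent.Helper23

variable {H : Type*} [NormedAddCommGroup H] [InnerProductSpace ℂ H] [CompleteSpace H]

variable {M N : VonNeumannAlgebra H} {ξ : H} {E : (H →L[ℂ] H) → (H →L[ℂ] H)}

open RBF

/-- elements of `N` are combinations of unitaries -/
lemma exists_unitaries (N : VonNeumannAlgebra H) {a : H →L[ℂ] H} (ha : a ∈ N) :
    ∃ (u : Fin 4 → H →L[ℂ] H) (k : Fin 4 → ℂ), a = ∑ i, k i • u i ∧
      ∀ i, u i ∈ N ∧ star (u i) * u i = 1 ∧ u i * star (u i) = 1 := by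
  obtain ⟨u, k, hk, -⟩ := CStarAlgebra.exists_sum_four_unitary
    (⟨a, ha⟩ : N.toStarSubalgebra)
  refine ⟨fun i => ((u i : N.toStarSubalgebra) : H →L[ℂ] H), k, ?_, fun i => ⟨?_, ?_, ?_⟩⟩
  · have := congrArg (fun z : N.toStarSubalgebra => (z : H →L[ℂ] H)) hk
    simpa using this
  · exact (u i : N.toStarSubalgebra).2
  · have := Unitary.star_mul_self_of_mem (u i).2
    exact congrArg (fun z : N.toStarSubalgebra => (z : H →L[ℂ] H)) this
  · have := Unitary.mul_star_self_of_mem (u i).2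
    exact congrArg (fun z : N.toStarSubalgebra => (z : H →L[ℂ] H)) this

end Pool.Agent.Helper23

end

section

open scoped InnerProductSpace Topology BoundedContinuousFunction

open ContinuousLinearMap Filter MeasureTheory

namespace Pool.Agent.Helper88.CS

open Pool.Agent.Helper23

open Pool.Agent.Helper78.BC (rm)

variable {H : Type*} [NormedAddCommGroup H] [InnerProductSpace ℂ H] [CompleteSpace H]

variable {A : VonNeumannAlgebra H} {ξ : H} {J : H →L[ℝ] H}
  {Ψ : (ℝ →ᵇ ℂ) →⋆ₐ[ℂ] (H →L[ℂ] H)} {R : H →L[ℂ] H} {D : H →L[ℝ] H}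

/-- if all bumps around `[a, b]` fix `v` then `v` is supported in `[a, b]` -/
theorem supp_of_bump {v : H} {a b : ℝ} (h : ∀ δ : ℝ, 0 < δ → ∃ K : ℝ →ᵇ ℂ,
      (∀ ρ, ∃ r : ℝ, 0 ≤ r ∧ r ≤ 1 ∧ K ρ = (r : ℂ)) ∧
      (∀ ρ, ρ ∉ Set.Ioo (a - δ) (b + δ) → K ρ = 0) ∧ Ψ K v = v) : Supp Ψ v a b := by
  intro G hG
  rcases le_or_gt a b with hab | hab
  · have key : ∀ ε : ℝ, 0 < ε → ‖Ψ G v‖ ≤ ε * ‖v‖ := by
      intro ε hε
      obtain ⟨d1, hd1, h1⟩ := Metric.continuousAt_iff.1
        (G.continuous.continuousAt : ContinuousAt (fun ρ : ℝ => G ρ) a) ε hε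
      obtain ⟨d2, hd2, h2⟩ := Metric.continuousAt_iff.1
        (G.continuous.continuousAt : ContinuousAt (fun ρ : ℝ => G ρ) b) ε hε
      obtain ⟨K, hK1, hK2, hK3⟩ := h (min d1 d2) (lt_min hd1 hd2)
      have h3 : Ψ G v = Ψ (G * K) v := by
        rw [Pool.Agent.Helper43.TTF.psi_mul_apply, hK3]
      have h4 : ‖(G * K : ℝ →ᵇ ℂ)‖ ≤ ε := by
        refine (BoundedContinuousFunction.norm_le hε.le).2 fun ρ => ?_
        rw [BoundedContinuousFunction.mul_apply, norm_mul]
        by_cases hρ : ρ ∈ Set.Ioo (a - min d1 d2) (b + min d1 d2)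
        · obtain ⟨r, hr0, hr1, hr⟩ := hK1 ρ
          have hr' : ‖K ρ‖ ≤ 1 := by
            rw [hr, Complex.norm_real, Real.norm_of_nonneg hr0]
            exact hr1
          have hg : ‖G ρ‖ ≤ ε := by
            rcases lt_or_ge ρ a with h5 | h5
            · have h6 : dist (G ρ) (G a) < ε := h1 (by
                rw [Real.dist_eq, abs_sub_comm, abs_of_pos (by linarith)]
                linarith [hρ.1, min_le_left d1 d2])
              rw [hG a ⟨le_rfl, hab⟩, dist_zero_right] at h6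
              exact h6.le
            · rcases le_or_gt ρ b with h7 | h7
              · rw [hG ρ ⟨h5, h7⟩, norm_zero]
                exact hε.le
              · have h6 : dist (G ρ) (G b) < ε := h2 (by
                  rw [Real.dist_eq, abs_of_pos (by linarith)]
                  linarith [hρ.2, min_le_right d1 d2])
                rw [hG b ⟨hab, le_rfl⟩, dist_zero_right] at h6
                exact h6.le
          calc ‖G ρ‖ * ‖K ρ‖ ≤ ε * 1 := mul_le_mul hg hr' (norm_nonneg _) hε.le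
            _ = ε := mul_one ε
        · rw [hK2 ρ hρ, norm_zero, mul_zero]
          exact hε.le
      rw [h3]
      refine ((Ψ (G * K)).le_opNorm v).trans ?_
      gcongr
      exact (psi_norm_le Ψ _).trans h4
    have hv : (0 : ℝ) < ‖v‖ + 1 := by positivity
    rw [← norm_le_zero_iff]
    refine le_of_forall_pos_le_add fun ε hε => ?_
    rw [zero_add]
    refine (key (ε / (‖v‖ + 1)) (div_pos hε hv)).trans ?_
    rw [div_mul_eq_mul_div, div_le_iff₀ hv]
    nlinarith [norm_nonneg v]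
  · obtain ⟨K, -, hK2, hK3⟩ := h ((a - b) / 2) (by linarith)
    have h1 : K = 0 := by
      ext ρ
      refine hK2 ρ fun hρ => ?_
      have h2 := hρ.1
      have h3 := hρ.2
      linarith
    rw [h1, map_zero, ContinuousLinearMap.zero_apply] at hK3
    rw [← hK3, map_zero]

end Pool.Agent.Helper88.CS

end

section

open scoped InnerProductSpace Topology BoundedContinuousFunction

open ContinuousLinearMap Filter MeasureTheory

namespace Pool.Agent.Helper88.CS

open Pool.Agent.Helper23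

open Pool.Agent.Helper78.BC (rm)

variable {H : Type*} [NormedAddCommGroup H] [InnerProductSpace ℂ H] [CompleteSpace H]

variable {A : VonNeumannAlgebra H} {ξ : H} {J : H →L[ℝ] H}
  {Ψ : (ℝ →ᵇ ℂ) →⋆ₐ[ℂ] (H →L[ℂ] H)} {R : H →L[ℂ] H} {D : H →L[ℝ] H}

namespace HullAux

open Pool.Agent.Helper70.U8 (U V)

/-- the closed span of the ranges -/
noncomputable def sp (Ψ : (ℝ →ᵇ ℂ) →⋆ₐ[ℂ] (H →L[ℂ] H)) (x : H →L[ℂ] H) : Submodule ℂ H :=
  (Submodule.span ℂ {v | ∃ (t : ℝ) (w : H), v = U Ψ t ((star x) (V Ψ t w))}).topologicalClosure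

theorem gen_mem (x : H →L[ℂ] H) (t : ℝ) (w : H) : U Ψ t ((star x) (V Ψ t w)) ∈ sp Ψ x :=
  Submodule.le_topologicalClosure _ (Submodule.subset_span ⟨t, w, rfl⟩)

/-- closed subspaces are tested on the generators -/
theorem sp_le {x : H →L[ℂ] H} {N : Submodule ℂ H} (hN : IsClosed (N : Set H))
    (h : ∀ (t : ℝ) (w : H), U Ψ t ((star x) (V Ψ t w)) ∈ N) : sp Ψ x ≤ N := by
  refine Submodule.topologicalClosure_minimal _ (Submodule.span_le.2 ?_) hN
  rintro v ⟨t, w, rfl⟩
  exact h t w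

/-- invariance is tested on the generators -/
theorem sp_inv {x b : H →L[ℂ] H}
    (h : ∀ (t : ℝ) (w : H), b (U Ψ t ((star x) (V Ψ t w))) ∈ sp Ψ x) :
    ∀ v ∈ sp Ψ x, b v ∈ sp Ψ x := by
  intro v hv
  have hcl : IsClosed (((sp Ψ x).comap (b : H →ₗ[ℂ] H) : Submodule ℂ H) : Set H) := by
    have : (((sp Ψ x).comap (b : H →ₗ[ℂ] H) : Submodule ℂ H) : Set H) = b ⁻¹' (sp Ψ x : Set H) :=
      rfl
    rw [this]
    exact (Submodule.isClosed_topologicalClosure _).preimage b.continuous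
  have h2 := sp_le (Ψ := Ψ) (x := x) hcl h
  exact h2 hv

end HullAux

end Pool.Agent.Helper88.CS

end

section

open scoped InnerProductSpace Topology ENNReal BoundedContinuousFunction

open ContinuousLinearMap Filter MeasureTheory

namespace Pool.Agent.Helper23.ED

open Pool.Agent.Helper23 Pool.Agent.Helper23.RBF

open Pool.Agent.Helper78.BC.Transport (Sub r)

universe u

variable {K : Type*} [NormedAddCommGroup K] [InnerProductSpace ℂ K] [CompleteSpace K]

variable {U : ℝ → K →L[ℂ] K}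

namespace SmE

/-- joint continuity for an isometric strongly continuous family -/
lemma cont_app (hU : UG U) {g : ℝ → K} (hg : Continuous g) :
    Continuous fun s => U s (g s) := by
  rw [continuous_iff_continuousAt]
  intro s₀
  have h1 : Tendsto (fun s => U s (g s₀)) (𝓝 s₀) (𝓝 (U s₀ (g s₀))) := (hU.cont (g s₀)).continuousAt
  have h2 : Tendsto (fun s => U s (g s - g s₀)) (𝓝 s₀) (𝓝 0) := by
    rw [tendsto_zero_iff_norm_tendsto_zero]
    simp_rw [hU.norm]
    have h3 : Tendsto (fun s => g s - g s₀) (𝓝 s₀) (𝓝 (g s₀ - g s₀)) :=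
      (hg.continuousAt).sub tendsto_const_nhds
    rw [sub_self] at h3
    exact tendsto_zero_iff_norm_tendsto_zero.1 h3
  have h4 := h2.add h1
  rw [zero_add] at h4
  refine h4.congr fun s => ?_
  rw [← map_add, sub_add_cancel]

lemma cont_conj (hU : UG U) (Y : K →L[ℂ] K) (w : K) :
    Continuous fun s => U s (Y (U (-s) w)) :=
  cont_app hU (Y.continuous.comp ((hU.cont w).comp continuous_neg))

/-- Gaussian approximate identity -/
lemma approx {G : ℝ → ℂ} (hG : Continuous G) {C : ℝ} (hC : ∀ s, ‖G s‖ ≤ C) (x : ℝ) :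
    Tendsto (fun n : ℕ => ((n : ℂ) + 1) * ∫ s, gau (((n : ℝ) + 1) ^ 2) x s * G s) atTop
      (𝓝 ((∫ u : ℝ, Complex.exp (-((u : ℂ) ^ 2))) * G x)) := by
  have hF : ∀ n : ℕ, ((n : ℂ) + 1) * ∫ s, gau (((n : ℝ) + 1) ^ 2) x s * G s =
      ∫ u : ℝ, Complex.exp (-((u : ℂ) ^ 2)) * G (x + u / ((n : ℝ) + 1)) := by
    intro n
    have hn : (0 : ℝ) < (n : ℝ) + 1 := by positivity
    set F : ℝ → ℂ := fun u => Complex.exp (-((u : ℂ) ^ 2)) * G (x + u / ((n : ℝ) + 1)) with hFd
    have h1 : ∫ s, gau (((n : ℝ) + 1) ^ 2) x s * G s = ∫ s, F (((n : ℝ) + 1) * (s - x)) := by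
      refine integral_congr_ae (Eventually.of_forall fun s => ?_)
      simp only [hFd, gau]
      have h2 : x + ((n : ℝ) + 1) * (s - x) / ((n : ℝ) + 1) = s := by
        field_simp
        ring
      rw [h2]
      congr 1
      congr 1
      push_cast
      ring
    have h3 : ∫ s, F (((n : ℝ) + 1) * (s - x)) = ∫ s, F (((n : ℝ) + 1) * s) :=
      integral_sub_right_eq_self (fun s => F (((n : ℝ) + 1) * s)) x
    have h4 := MeasureTheory.Measure.integral_comp_mul_left F ((n : ℝ) + 1)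
    rw [h1, h3, h4, abs_of_pos (inv_pos.2 hn), Complex.real_smul, ← mul_assoc]
    have h5 : ((n : ℂ) + 1) * (((((n : ℝ) + 1)⁻¹ : ℝ)) : ℂ) = 1 := by
      push_cast
      have h6 : ((n : ℂ) + 1) ≠ 0 := by exact_mod_cast hn.ne'
      exact mul_inv_cancel₀ h6
    rw [h5, one_mul]
  simp_rw [hF]
  have hlim : (∫ u : ℝ, Complex.exp (-((u : ℂ) ^ 2))) * G x =
      ∫ u : ℝ, Complex.exp (-((u : ℂ) ^ 2)) * G x := (integral_mul_const _ _).symm
  rw [hlim]
  have hint : Integrable (fun u : ℝ => Real.exp (-1 * u ^ 2)) := integrable_exp_neg_mul_sq one_pos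
  refine tendsto_integral_of_dominated_convergence (fun u => Real.exp (-1 * u ^ 2) * C)
    (fun n => ?_) (hint.mul_const C) (fun n => Eventually.of_forall fun u => ?_)
    (Eventually.of_forall fun u => ?_)
  · refine Continuous.aestronglyMeasurable ?_
    fun_prop
  · rw [norm_mul]
    have h1 : ‖Complex.exp (-((u : ℂ) ^ 2))‖ = Real.exp (-1 * u ^ 2) := by
      rw [Complex.norm_exp]
      congr 1
      rw [← Complex.ofReal_pow, Complex.neg_re, Complex.ofReal_re]
      ring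
    rw [h1]
    exact mul_le_mul_of_nonneg_left (hC _) (Real.exp_pos _).le
  · refine tendsto_const_nhds.mul ?_
    have h1 : Tendsto (fun n : ℕ => x + u / ((n : ℝ) + 1)) atTop (𝓝 (x + 0)) :=
      tendsto_const_nhds.add (tendsto_const_nhds.div_atTop
        (tendsto_atTop_add_const_right _ _ tendsto_natCast_atTop_atTop))
    rw [add_zero] at h1
    exact (hG.tendsto x).comp h1

lemma G_bound (hU : UG U) (Y : K →L[ℂ] K) (v w : K) (s : ℝ) :
    ‖⟪v, U s (Y (U (-s) w))⟫_ℂ‖ ≤ ‖v‖ * (‖Y‖ * ‖w‖) := by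
  refine (norm_inner_le_norm _ _).trans ?_
  refine mul_le_mul_of_nonneg_left ?_ (norm_nonneg _)
  rw [hU.norm]
  refine (Y.le_opNorm _).trans ?_
  rw [hU.norm]

end SmE

theorem unsmear (hU : UG U) {Y X X' : K →L[ℂ] K} {t : ℝ}
    (h : ∀ m : ℝ, 0 < m → X * smear U (gau m t) Y * X' = smear U (gau m 0) Y) :
    X * (U t * Y * U (-t)) * X' = Y := by
  refine ContinuousLinearMap.ext fun w => ?_
  refine ext_inner_left ℂ fun v => ?_
  have hG1 : Continuous fun s => ⟪star X v, U s (Y (U (-s) (X' w)))⟫_ℂ :=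
    continuous_const.inner (SmE.cont_conj hU Y (X' w))
  have hG2 : Continuous fun s => ⟪v, U s (Y (U (-s) w))⟫_ℂ :=
    continuous_const.inner (SmE.cont_conj hU Y w)
  have L1 := SmE.approx hG1 (SmE.G_bound hU Y (star X v) (X' w)) t
  have L2 := SmE.approx hG2 (SmE.G_bound hU Y v w) 0
  have key : ∀ n : ℕ, (∫ s, gau (((n : ℝ) + 1) ^ 2) t s * ⟪star X v, U s (Y (U (-s) (X' w)))⟫_ℂ) =
      ∫ s, gau (((n : ℝ) + 1) ^ 2) ((0 : ℝ) : ℂ) s * ⟪v, U s (Y (U (-s) w))⟫_ℂ := by
    intro n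
    have hm : (0 : ℝ) < ((n : ℝ) + 1) ^ 2 := by positivity
    rw [← smear_spec hU (gau_int hm _) Y (star X v) (X' w),
      ← smear_spec hU (gau_int hm _) Y v w, Complex.ofReal_zero, ← h _ hm]
    rw [ContinuousLinearMap.star_eq_adjoint, ContinuousLinearMap.adjoint_inner_left]
    rfl
  have L3 := tendsto_nhds_unique (L1.congr fun n => by rw [key n]) L2
  have L4 := mul_left_cancel₀ SmE.gauss_ne L3
  rw [ContinuousLinearMap.star_eq_adjoint, ContinuousLinearMap.adjoint_inner_left] at L4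
  have L5 : U 0 (Y (U (-0) w)) = Y w := by
    rw [neg_zero, hU.zero]
    rfl
  rw [L5] at L4
  exact L4

end Pool.Agent.Helper23.ED

end

section

open scoped InnerProductSpace Topology ENNReal BoundedContinuousFunction

open ContinuousLinearMap Filter MeasureTheory

namespace Pool.Agent.Helper23.ED

open Pool.Agent.Helper23 Pool.Agent.Helper23.RBF

open Pool.Agent.Helper78.BC.Transport (Sub r)

universe u

variable {H : Type u} [NormedAddCommGroup H] [InnerProductSpace ℂ H] [CompleteSpace H]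

variable {M N : VonNeumannAlgebra H} {E : (H →L[ℂ] H) → (H →L[ℂ] H)} {ξ : H}

namespace CoE

/-- the inclusion of the closure of `N ξ` -/
theorem exists_sub (N : VonNeumannAlgebra H) (ξ : H) :
    ∃ V : Submodule ℂ H, ∃ _ : CompleteSpace V, ∃ κ : V, Sub N ξ V.subtypeL κ := by
  set V : Submodule ℂ H := (orb N ξ).topologicalClosure with hV
  have hξV : ξ ∈ V := Submodule.le_topologicalClosure _ ⟨1, one_mem _, rfl⟩
  have hadj : ∀ v : H, V.subtypeL (adjoint V.subtypeL v) = V.starProjection v := by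
    intro v
    rw [Submodule.adjoint_subtypeL]
    rfl
  refine ⟨V, inferInstance, ⟨ξ, hξV⟩, ?_⟩
  refine ⟨fun k => ?_, fun x hx k => ?_, rfl, fun k ε hε => ?_⟩
  · refine Subtype.ext ?_
    change V.subtypeL (adjoint V.subtypeL (V.subtypeL k)) = k.1
    rw [hadj]
    exact Submodule.starProjection_eq_self_iff.2 k.2
  · rw [hadj]
    have h1 := mem_comm_iff.1 (proj_orb_mem N ξ) x hx
    have h2 := congrArg (fun T : H →L[ℂ] H => T (V.subtypeL k)) h1
    have h3 : V.starProjection (V.subtypeL k) = V.subtypeL k :=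
      Submodule.starProjection_eq_self_iff.2 k.2
    change x (V.starProjection (V.subtypeL k)) = V.starProjection (x (V.subtypeL k)) at h2
    rw [← h2, h3]
  · have h1 : (V.subtypeL k : H) ∈ closure (orb N ξ : Set H) := k.2
    obtain ⟨_, ⟨a, ha, rfl⟩, h2⟩ := Metric.mem_closure_iff.1 h1 ε hε
    refine ⟨a, ha, ?_⟩
    rw [dist_eq_norm] at h2
    rw [norm_sub_rev]
    exact h2

end CoE

end Pool.Agent.Helper23.ED

end

section

open scoped InnerProductSpace Topology ENNReal BoundedContinuousFunction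

open ContinuousLinearMap Filter MeasureTheory

namespace Pool.Agent.Helper23.ED

open Pool.Agent.Helper23 Pool.Agent.Helper23.RBF

open Pool.Agent.Helper78.BC.Transport (Sub r)

universe u

variable {H : Type*} [NormedAddCommGroup H] [InnerProductSpace ℂ H] [CompleteSpace H]

variable {M N : VonNeumannAlgebra H} {ξ : H} {E : (H →L[ℂ] H) → (H →L[ℂ] H)}

lemma RkB_star_aux {U X : L2R H →L[ℂ] L2R H} (h1 : star U * U = 1) (h2 : U * star U = 1)
    (h : U * X = X * U) : U * star X = star X * U := by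
  have h3 : X * star U = star U * X := by
    calc X * star U = (star U * U) * X * star U := by rw [h1, one_mul]
      _ = star U * (U * X) * star U := by rw [mul_assoc (star U) U X]
      _ = star U * (X * U) * star U := by rw [h]
      _ = star U * X * (U * star U) := by simp only [mul_assoc]
      _ = star U * X := by rw [h2, mul_one]
  have := congrArg star h3
  rw [star_mul, star_mul, star_star] at this
  exact this

end Pool.Agent.Helper23.ED

end
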