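import Pool.Agent.Helper23.FA.Ns
import Pool.Agent.Helper23.FA.L00_00
import Pool.Agent.Helper23.FA.L00_01
import Pool.Agent.Helper23.FA.L00_02
import Pool.Agent.Helper23.FA.L00_03
import Pool.Agent.Helper23.FA.L00_04
import Pool.Agent.Helper23.FA.L00_05
import Pool.Agent.Helper23.FA.L00_08
import Pool.Agent.Helper23.FA.L00_11
import Pool.Agent.Helper23.FA.L00_14
import Pool.Agent.Helper23.FA.L00_15
import Pool.Agent.Helper23.FA.L00_16
import Pool.Agent.Helper23.FA.L00_17
import Pool.Agent.Helper23.FA.L00_18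
import Pool.Agent.Helper23.FA.L00_19

/-!
Parts of Helper43.TTF.A, Helper43.TTF.F, Helper23.Amp1, Helper23.Amp2, Helper23.Acs, Helper23.Flow, Helper23.Bic, Helper23.Pol2, Helper70.U8a, Helper70.U8, Helper23.Partner, Helper68.G2b3, Helper68.G2b5, Helper75.GKWeak, Helper23.Irr, Helper23.Sur, Helper23.Pin1, Helper23.Pin2, Helper94.LbBicent, Helper53.PG.B2, Helper19.APSmooth, Helper23.Pin3, Helper23.UPi, Helper23.PinAux, Helper23.Main2, Helper23.VDefs, Helper23.UOc2, Helper95.UAvg, Helper23.UBF, Helper78.BC.Main, Helper88.CS.JUniq, Helper88.CS.SuppB, Helper88.CS.Polar, Helper88.CS.Hull, Helper88.CS.Trick1, Helper23.ED.SmA, Helper23.ED.SmB, Helper23.ED.SmC, Helper23.ED.GgE, Helper23.ED.SlB, Helper23.ED.SlC, Helper23.ED.WuA, Helper23.ED.WuB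
-/

section

open scoped InnerProductSpace Topology BoundedContinuousFunction

open ContinuousLinearMap Filter MeasureTheory

namespace Pool.Agent.Helper43.TTF

open Pool.Agent.Helper23

variable {H : Type*} [NormedAddCommGroup H] [InnerProductSpace ℂ H] [CompleteSpace H]

lemma refl_FR : refl FR = 2 - FR := by
  ext ρ
  have h : (0 : ℝ) < 1 + Real.exp ρ := by positivity
  have h2 : 2 / (1 + Real.exp (-ρ)) = 2 - 2 / (1 + Real.exp ρ) := by
    rw [Real.exp_neg]
    have : (0 : ℝ) < Real.exp ρ := Real.exp_pos ρ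
    field_simp
    ring
  have h3 : (2 : ℝ →ᵇ ℂ) ρ = 2 := rfl
  rw [refl_apply, FR_apply, BoundedContinuousFunction.sub_apply, FR_apply, h3, h2]
  push_cast
  ring

lemma FT_sq : FT * FT = FR * (2 - FR) := by
  ext ρ
  have h3 : (2 : ℝ →ᵇ ℂ) ρ = 2 := rfl
  rw [BoundedContinuousFunction.mul_apply, BoundedContinuousFunction.mul_apply,
    BoundedContinuousFunction.sub_apply, FT_apply, FR_apply, h3, cosh_half]
  have h1 : Real.exp ρ = Real.exp (ρ / 2) * Real.exp (ρ / 2) := by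
    rw [← Real.exp_add]; ring_nf
  have h2 : (0 : ℝ) < Real.exp (ρ / 2) := Real.exp_pos _
  have h4 : (0 : ℝ) < 1 + Real.exp ρ := by positivity
  have h5 : ((1 + Real.exp ρ) / (2 * Real.exp (ρ / 2)))⁻¹ * ((1 + Real.exp ρ) / (2 * Real.exp (ρ / 2)))⁻¹
      = 2 / (1 + Real.exp ρ) * (2 - 2 / (1 + Real.exp ρ)) := by
    rw [h1] at h4 ⊢
    field_simp
    ring
  rw [← Complex.ofReal_mul, h5]
  push_cast
  ring

end Pool.Agent.Helper43.TTF

end

section

open scoped InnerProductSpace Topology BoundedContinuousFunction FourierTransform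

open ContinuousLinearMap Filter MeasureTheory

namespace Pool.Agent.Helper43.TTF

open Pool.Agent.Helper23

variable {H : Type*} [NormedAddCommGroup H] [InnerProductSpace ℂ H] [CompleteSpace H]

variable {R : H →L[ℂ] H} {D : H →L[ℝ] H} {Ψ : (ℝ →ᵇ ℂ) →⋆ₐ[ℂ] (H →L[ℂ] H)} {J : H →L[ℝ] H}

/-- the matrix coefficient `⟪v, U_t y U_{-t} w⟫` -/
noncomputable def mc (Ψ : (ℝ →ᵇ ℂ) →⋆ₐ[ℂ] (H →L[ℂ] H)) (y : H →L[ℂ] H) (v w : H) (t : ℝ) : ℂ :=
  ⟪v, Ψ (expB t) (y (Ψ (expB (-t)) w))⟫_ℂ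

end Pool.Agent.Helper43.TTF

end

section

open scoped InnerProductSpace Topology ENNReal

open ContinuousLinearMap Filter MeasureTheory

set_option linter.unusedSectionVars false

set_option linter.unusedVariables false

namespace Pool.Agent.Helper23

variable {G : Type*} [NormedAddCommGroup G] [InnerProductSpace ℂ G] [CompleteSpace G]

variable {G' : Type*} [NormedAddCommGroup G'] [InnerProductSpace ℂ G'] [CompleteSpace G']

variable {G'' : Type*} [NormedAddCommGroup G''] [InnerProductSpace ℂ G''] [CompleteSpace G'']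

omit [CompleteSpace G] in
lemma lift_one : lift (1 : G →L[ℂ] G) = 1 := by
  ext F : 1
  ext1
  filter_upwards [lift_coe (1 : G →L[ℂ] G) F] with s hs
  rw [hs]
  rfl

/-- continuity of translations -/
lemma tr_continuous (F : L2R G) : Continuous fun t : ℝ => tr G t F := by
  have h1 : Continuous (fun t : ℝ => (⟨fun s => s - t, by fun_prop⟩ : C(ℝ, ℝ))) := by
    have : Continuous (fun p : ℝ × ℝ => p.2 - p.1) := by fun_prop
    exact (ContinuousMap.curry ⟨_, this⟩).continuous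
  exact (continuous_const (y := F)).compMeasurePreservingLp h1 (fun t => mp_sub t) (by norm_num)

end Pool.Agent.Helper23

end

section

open scoped InnerProductSpace Topology ENNReal

open ContinuousLinearMap Filter MeasureTheory

set_option linter.unusedSectionVars false

set_option linter.unusedVariables false

namespace Pool.Agent.Helper23

variable {H : Type*} [NormedAddCommGroup H] [InnerProductSpace ℂ H] [CompleteSpace H]

/-- operators agreeing on elementary tensors are equal -/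
lemma op_ext {X Y : L2R H →L[ℂ] L2R H} (h : ∀ (f : L2R ℂ) (η : H), X (ten f η) = Y (ten f η)) :
    X = Y := by
  have h1 : star X = star Y := by
    ext F : 1
    rw [← sub_eq_zero]
    refine eq_zero_of_ten fun f η => ?_
    rw [inner_sub_right, inner_star_right, inner_star_right, h, sub_self]
  have := congrArg star h1
  rwa [star_star, star_star] at this

end Pool.Agent.Helper23

end

section

open scoped InnerProductSpace BoundedContinuousFunction

open ContinuousLinearMap Filter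

namespace Pool.Agent.Helper23

variable {H : Type*} [NormedAddCommGroup H] [InnerProductSpace ℂ H] [CompleteSpace H]

variable {M N : VonNeumannAlgebra H} {ξ : H} {E : (H →L[ℂ] H) → (H →L[ℂ] H)}

lemma Defect.of_eig {γ δ : ℝ} (hδ : 0 ≤ δ) {a : H →L[ℂ] H} (ha : a ∈ eig N ξ γ) :
    Defect N ξ γ δ a := by
  intro z hz
  rw [ha.2 z hz, sub_self, norm_zero]
  positivity

end Pool.Agent.Helper23

end

section

open scoped InnerProductSpace Topology

open ContinuousLinearMap Filter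

namespace Pool.Agent.Helper23

variable {H : Type*} [NormedAddCommGroup H] [InnerProductSpace ℂ H] [CompleteSpace H]

variable {M N : VonNeumannAlgebra H} {ξ : H} {E : (H →L[ℂ] H) → (H →L[ℂ] H)}

namespace AP

variable (S : AP M N E ξ)

include S

lemma mem_closure_Gam {l : ℝ} (hl : 0 < l) : l ∈ closure (Gam N ξ) := by
  rw [Metric.mem_closure_iff]
  intro ε hε
  obtain ⟨γ, hγ, h1, h2⟩ := S.dns l (l + ε) hl (by linarith)
  exact ⟨γ, hγ, by rw [Real.dist_eq, abs_sub_comm, abs_of_pos (by linarith)]; linarith⟩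

lemma neBot {l : ℝ} (hl : 0 < l) : (𝓝[Gam N ξ] l).NeBot :=
  mem_closure_iff_nhdsWithin_neBot.1 (S.mem_closure_Gam hl)

end AP

end Pool.Agent.Helper23

end

section

open scoped InnerProductSpace Topology BoundedContinuousFunction

open ContinuousLinearMap Filter

namespace Pool.Agent.Helper23

variable {H : Type*} [NormedAddCommGroup H] [InnerProductSpace ℂ H] [CompleteSpace H]

variable {M N : VonNeumannAlgebra H} {ξ : H} {E : (H →L[ℂ] H) → (H →L[ℂ] H)}

namespace AP

variable (S : AP M N E ξ)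

include S

lemma lamSeq_of_eig {l : ℝ} {γ : ℕ → ℝ} (hγ : Tendsto γ atTop (𝓝 l)) {v : ℕ → H →L[ℂ] H}
    (hv : ∀ n, v n ∈ eig N ξ (γ n)) (hv1 : ∀ n, ‖v n‖ ≤ 1) : LamSeq N ξ l v := by
  refine ⟨fun n => (hv n).1, ⟨1, hv1⟩, ?_⟩
  exact Dseq.change S.norm_one hγ hv1
    (fun ε hε => Eventually.of_forall fun n => Defect.of_eig hε.le (hv n))

end AP

end Pool.Agent.Helper23

end

section

open scoped InnerProductSpace Topology ENNReal

open ContinuousLinearMap Filter MeasureTheory Polynomial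

set_option linter.unusedSectionVars false

set_option linter.unusedVariables false

namespace Pool.Agent.Helper23

variable {H : Type*} [NormedAddCommGroup H] [InnerProductSpace ℂ H] [CompleteSpace H]

variable {M N : VonNeumannAlgebra H} {ξ : H} {E : (H →L[ℂ] H) → (H →L[ℂ] H)}

lemma Pn_coe (n : ℕ) (f : L2R ℂ) :
    Pn n f =ᵐ[volume] fun s => ind (Set.Ico (-(n : ℝ)) n) s • f s :=
  mulOp_coe (ind_bm measurableSet_Ico) f

lemma Pn_mulOp {n : ℕ} {m : ℝ → ℂ} (hm : BM m) (f : L2R ℂ) :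
    Pn n (mulOp ℂ m f) = mulOp ℂ m (Pn n f) := by
  rw [Pn, mulOp_mulOp (ind_bm measurableSet_Ico) hm, mulOp_mulOp hm (ind_bm measurableSet_Ico)]
  congr 2
  funext s
  ring

lemma Pn_fix_mulOp {n : ℕ} {m : ℝ → ℂ} (hm : BM m) {f : L2R ℂ} (hf : Pn n f = f) :
    Pn n (mulOp ℂ m f) = mulOp ℂ m f := by rw [Pn_mulOp hm, hf]

lemma Pn_mono {n m : ℕ} (h : n ≤ m) {f : L2R ℂ} (hf : Pn n f = f) : Pn m f = f := by
  rw [← hf, Pn, Pn, mulOp_mulOp (ind_bm measurableSet_Ico) (ind_bm measurableSet_Ico)]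
  congr 2
  funext s
  by_cases hs : s ∈ Set.Ico (-(n : ℝ)) n
  · have h' : (n : ℝ) ≤ m := by exact_mod_cast h
    rw [ind_of_mem hs, ind_of_mem (show s ∈ Set.Ico (-(m : ℝ)) m from
      ⟨by linarith [hs.1], by linarith [hs.2]⟩), one_mul]
  · rw [ind_of_notMem hs, mul_zero]

lemma eq_zero_of_Pn {f : L2R ℂ} {n0 : ℕ} (h : ∀ n, n0 ≤ n → Pn n f = 0) : f = 0 := by
  ext1
  have h1 : ∀ᵐ s, ∀ n : ℕ, (Pn n f) s = ind (Set.Ico (-(n : ℝ)) n) s • f s :=
    ae_all_iff.2 fun n => Pn_coe n f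
  filter_upwards [h1, Lp.coeFn_zero ℂ 2 volume] with s hs h0
  rw [h0]
  obtain ⟨n, hn⟩ := exists_nat_gt (max |s| n0)
  have hn1 : |s| < n := lt_of_le_of_lt (le_max_left _ _) hn
  have hn2 : n0 ≤ n := by
    have : (n0 : ℝ) < n := lt_of_le_of_lt (le_max_right _ _) hn
    exact_mod_cast this.le
  have hk := hs n
  rw [h n hn2, h0, ind_of_mem, one_smul] at hk
  · exact hk.symm
  · rw [abs_lt] at hn1
    exact ⟨hn1.1.le, hn1.2⟩

end Pool.Agent.Helper23

end

section

open scoped InnerProductSpace Topology BoundedContinuousFunction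

open ContinuousLinearMap Filter MeasureTheory

namespace Pool.Agent.Helper70.U8

open Pool.Agent.Helper23

variable {H : Type*} [NormedAddCommGroup H] [InnerProductSpace ℂ H] [CompleteSpace H]

variable {A : VonNeumannAlgebra H} {ξ : H} {R : H →L[ℂ] H} {D : H →L[ℝ] H}
  {Ψ : (ℝ →ᵇ ℂ) →⋆ₐ[ℂ] (H →L[ℂ] H)}

lemma U_star (t : ℝ) : star (U Ψ t) = V Ψ t := by
  unfold U V
  rw [← map_star, expB_star]

lemma V_star (t : ℝ) : star (V Ψ t) = U Ψ t := by
  rw [← U_star, star_star]

lemma kg_real (ε t : ℝ) : (starRingEnd ℂ) (kg ε 0 t) = kg ε 0 t := by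
  have : kg ε 0 t = ((ga ε t : ℝ) : ℂ) := by
    unfold kg
    simp
  rw [this, Complex.conj_ofReal]

end Pool.Agent.Helper70.U8

end

section

open scoped InnerProductSpace Topology BoundedContinuousFunction

open ContinuousLinearMap Filter MeasureTheory

namespace Pool.Agent.Helper70.U8

open Pool.Agent.Helper23

variable {H : Type*} [NormedAddCommGroup H] [InnerProductSpace ℂ H] [CompleteSpace H]

variable {A : VonNeumannAlgebra H} {ξ : H} {R : H →L[ℂ] H} {D : H →L[ℝ] H}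
  {Ψ : (ℝ →ᵇ ℂ) →⋆ₐ[ℂ] (H →L[ℂ] H)} {J : H →L[ℝ] H}

open Pool.Agent.Helper43.TTF (JD FT FT_apply FR_apply)

/-- the key identity of the kernels -/
lemma two_sub_FR (ρ : ℝ) : (2 - FR : ℝ →ᵇ ℂ) ρ = FT ρ * ((Real.exp (ρ / 2) : ℝ) : ℂ) := by
  have h3 : (2 : ℝ →ᵇ ℂ) ρ = 2 := rfl
  rw [BoundedContinuousFunction.sub_apply, FT_apply, Pool.Agent.Helper43.TTF.FR_apply, h3,
    Pool.Agent.Helper43.TTF.cosh_half]
  have h1 : Real.exp ρ = Real.exp (ρ / 2) * Real.exp (ρ / 2) := by
    rw [← Real.exp_add]; ring_nf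
  have h2 : (0 : ℝ) < Real.exp (ρ / 2) := Real.exp_pos _
  have h4 : (0 : ℝ) < 1 + Real.exp ρ := by positivity
  have h5 : 2 - 2 / (1 + Real.exp ρ) =
      ((1 + Real.exp ρ) / (2 * Real.exp (ρ / 2)))⁻¹ * Real.exp (ρ / 2) := by
    rw [h1] at h4 ⊢
    field_simp
    ring
  rw [← Complex.ofReal_mul, ← h5]
  push_cast
  ring

lemma key_mul {ε : ℝ} (hε : 0 < ε) :
    GB ε hε (-(1 / 2)) * (2 - FR) = FT * GB ε hε 0 := by
  ext ρ
  rw [BoundedContinuousFunction.mul_apply, BoundedContinuousFunction.mul_apply, two_sub_FR,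
    GB_apply, GB_apply]
  have h1 : Real.exp (-(ε * ρ ^ 2) + 0 * ρ) =
      Real.exp (-(ε * ρ ^ 2) + -(1 / 2) * ρ) * Real.exp (ρ / 2) := by
    rw [← Real.exp_add]
    congr 1
    ring
  rw [h1]
  push_cast
  ring

lemma G_star {ε : ℝ} (hε : 0 < ε) : star (1 - GB ε hε 0) = 1 - GB ε hε 0 := by
  ext ρ
  rw [BoundedContinuousFunction.star_apply, BoundedContinuousFunction.sub_apply, GB_apply,
    Pool.Agent.Helper43.TTF.one_bcf, Complex.star_def, map_sub, map_one, Complex.conj_ofReal]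

end Pool.Agent.Helper70.U8

end

section

open scoped InnerProductSpace

open ContinuousLinearMap Filter

namespace Pool.Agent.Helper23

variable {H : Type*} [NormedAddCommGroup H] [InnerProductSpace ℂ H] [CompleteSpace H]

variable {M N : VonNeumannAlgebra H} {ξ : H} {E : (H →L[ℂ] H) → (H →L[ℂ] H)}

lemma Partner.smul {C C' : H →L[ℂ] H} (c : ℂ) (h : Partner N ξ C C') :
    Partner N ξ (c • C) (c • C') :=
  ⟨smul_mem' c h.1, smul_mem' c h.2.1, fun z hz => by
    rw [smul_apply, smul_apply, inner_smul_right, map_smul, inner_smul_right, h.2.2 z hz]⟩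

lemma Partner.defect (hξ : ‖ξ‖ = 1) {C C' : H →L[ℂ] H} (h : Partner N ξ C C') :
    Defect N ξ 1 ‖(C' - C) ξ‖ C := by
  intro z hz
  rw [Complex.ofReal_one, one_mul, h.2.2 z hz, ← inner_sub_right, ← map_sub]
  have e1 : ⟪ξ, z (C ξ - C' ξ)⟫_ℂ = ⟪(star z) ξ, C ξ - C' ξ⟫_ℂ := by
    rw [inner_star_left]
  rw [e1]
  refine (norm_inner_le_norm _ _).trans ?_
  have e2 : ‖C ξ - C' ξ‖ = ‖(C' - C) ξ‖ := by rw [norm_sub_rev]; rfl
  rw [e2, mul_comm]
  have e3 : ‖(star z) ξ‖ ≤ ‖z‖ := by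
    have := (star z).le_opNorm ξ
    rwa [norm_star, hξ, mul_one] at this
  gcongr

/-- `φ(C C*) = ⟨C ξ, C' ξ⟩` -/
lemma Partner.inner_self {C C' : H →L[ℂ] H} (h : Partner N ξ C C') :
    ⟪C ξ, C' ξ⟫_ℂ = ((‖(star C) ξ‖ ^ 2 : ℝ) : ℂ) := by
  have h1 := h.2.2 (star C) (star_mem h.1)
  rw [norm_sq_apply, star_star]
  rw [h1, inner_star_right]

end Pool.Agent.Helper23

end

section

open scoped InnerProductSpace Topology BoundedContinuousFunction FourierTransform ENNReal

open ContinuousLinearMap Filter MeasureTheory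

set_option linter.unusedSectionVars false

namespace Pool.Agent.Helper23

variable {H : Type*} [NormedAddCommGroup H] [InnerProductSpace ℂ H] [CompleteSpace H]

lemma supp_of_Pn {m : ℕ} {f : L2R ℂ} (hf : Pn m f = f) :
    ∀ᵐ s, s ∉ Set.Ico (-(m : ℝ)) m → f s = 0 := by
  have h2 := mulOp_coe (ind_bm (measurableSet_Ico (a := -(m : ℝ)) (b := m))) f
  change (Pn m f : ℝ → ℂ) =ᵐ[volume] _ at h2
  rw [hf] at h2
  filter_upwards [h2] with s hs hs'
  rw [hs, ind_of_notMem hs', zero_smul]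

lemma two_sub_FR (ρ : ℝ) : (2 - FR) ρ = ((2 * Real.exp ρ / (1 + Real.exp ρ) : ℝ) : ℂ) := by
  rw [BoundedContinuousFunction.sub_apply, FR_apply]
  have h2 : (2 : ℝ →ᵇ ℂ) ρ = 2 := rfl
  have h1 : (1 + Real.exp ρ) ≠ 0 := by positivity
  rw [h2]
  have h3 : (2 * Real.exp ρ / (1 + Real.exp ρ) : ℝ) = 2 - 2 / (1 + Real.exp ρ) := by
    field_simp
    ring
  rw [h3]
  push_cast
  ring

lemma star_two_sub : star (2 - FR) = 2 - FR := by
  ext ρ
  rw [BoundedContinuousFunction.star_apply, two_sub_FR, Complex.star_def, Complex.conj_ofReal]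

namespace Modular

variable {A : VonNeumannAlgebra H} {ξ : H} {R : H →L[ℂ] H} {D : H →L[ℝ] H}
  {Ψ : (ℝ →ᵇ ℂ) →⋆ₐ[ℂ] (H →L[ℂ] H)} (h : Modular A ξ R D Ψ)

include h

lemma psi_two_sub (v : H) : Ψ (2 - FR) v = (2 : ℂ) • v - R v := by
  rw [map_sub, h.psi_FR, sub_apply]
  congr 1
  have : (2 : ℝ →ᵇ ℂ) = (2 : ℂ) • (1 : ℝ →ᵇ ℂ) := by
    ext ρ
    simp
  rw [this, map_smul, map_one]
  rfl

lemma D_mem' {a : H →L[ℂ] H} (ha : a ∈ A) : D (a ξ) = Ψ (2 - FR) ((star a) ξ) := by
  rw [h.data.D_mem a ha, h.psi_two_sub]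

end Modular

end Pool.Agent.Helper23

end

section

open scoped InnerProductSpace Topology BoundedContinuousFunction FourierTransform ENNReal

open ContinuousLinearMap Filter MeasureTheory

set_option linter.unusedSectionVars false

namespace Pool.Agent.Helper23

variable {H : Type*} [NormedAddCommGroup H] [InnerProductSpace ℂ H] [CompleteSpace H]

variable {M N : VonNeumannAlgebra H} {ξ : H} {E : (H →L[ℂ] H) → (H →L[ℂ] H)}

namespace Modular

variable {A : VonNeumannAlgebra H} {R : H →L[ℂ] H} {D : H →L[ℝ] H}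
  {Ψ : (ℝ →ᵇ ℂ) →⋆ₐ[ℂ] (H →L[ℂ] H)} (h : Modular A ξ R D Ψ)

include h

lemma U_xi (t : ℝ) : Ψ (expB t) ξ = ξ := by
  rw [h.psi_xi, expB_apply]
  simp

end Modular

end Pool.Agent.Helper23

end

section

open scoped InnerProductSpace Topology ENNReal

open ContinuousLinearMap Filter MeasureTheory

set_option linter.unusedSectionVars false

set_option linter.unusedVariables false

namespace Pool.Agent.Helper23

variable {H : Type*} [NormedAddCommGroup H] [InnerProductSpace ℂ H] [CompleteSpace H]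

variable {M N : VonNeumannAlgebra H} {ξ : H} {E : (H →L[ℂ] H) → (H →L[ℂ] H)}

namespace GKW

lemma WkC.star {u : L2R H →L[ℂ] L2R H} (h : WkC N ξ u) : WkC N ξ (star u) := by
  intro n f f' hf hf' b hb
  have h1 := h n f' f hf' hf (Star.star b) (star_mem hb)
  rw [star_star] at h1
  have h2 := congrArg (starRingEnd ℂ) h1
  rw [inner_conj_symm, inner_conj_symm] at h2
  rw [inner_star_right, inner_star_right]
  exact h2.symm

end GKW

end Pool.Agent.Helper23

end

section

open scoped InnerProductSpace Topology ENNReal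

open ContinuousLinearMap Filter MeasureTheory

set_option linter.unusedSectionVars false

set_option linter.unusedVariables false

namespace Pool.Agent.Helper23

lemma quot_bm (t : ℝ) : BM (fun s => w0 (s - t) / w0 s) := by
  refine ⟨?_, 2 * (1 + t ^ 2), by positivity, fun s => ?_⟩
  · exact ((w0_cont.comp (continuous_id.sub continuous_const)).measurable).div
      w0_cont.measurable
  · rw [norm_div, w0_norm, w0_norm, div_eq_mul_inv, inv_inv, inv_mul_le_iff₀ (by positivity)]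
    nlinarith [sq_nonneg (s - t), sq_nonneg s, sq_nonneg t, sq_nonneg (s - 2 * t),
      sq_nonneg ((s - t) * t), mul_nonneg (sq_nonneg (s - t)) (sq_nonneg t)]

end Pool.Agent.Helper23

end

section

open scoped InnerProductSpace Topology ENNReal

open ContinuousLinearMap Filter MeasureTheory

set_option linter.unusedSectionVars false

set_option linter.unusedVariables false

namespace Pool.Agent.Helper23

variable {H : Type*} [NormedAddCommGroup H] [InnerProductSpace ℂ H] [CompleteSpace H]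

variable {M N : VonNeumannAlgebra H} {ξ : H} {E : (H →L[ℂ] H) → (H →L[ℂ] H)}

/-- unit vectors concentrated near zero -/
noncomputable def fn (n : ℕ) : L2R ℂ :=
  indicatorConstLp 2 (measurableSet_Ico (a := (0 : ℝ)) (b := 1 / (n + 1))) (by simp)
    (((Real.sqrt (n + 1) : ℝ) : ℂ))

lemma fn_norm (n : ℕ) : ‖fn n‖ = 1 := by
  rw [fn, norm_indicatorConstLp (by norm_num) (by norm_num)]
  have h1 : (volume : Measure ℝ).real (Set.Ico (0 : ℝ) (1 / (n + 1))) = 1 / (n + 1) := by
    rw [Measure.real, Real.volume_Ico, sub_zero, ENNReal.toReal_ofReal (by positivity)]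
  rw [h1, Complex.norm_real, Real.norm_of_nonneg (Real.sqrt_nonneg _)]
  simp only [ENNReal.toReal_ofNat]
  rw [← Real.sqrt_eq_rpow, ← Real.sqrt_mul (by positivity), mul_one_div_cancel (by positivity),
    Real.sqrt_one]

lemma fn_coe (n : ℕ) : fn n =ᵐ[volume]
    (Set.Ico (0 : ℝ) (1 / (n + 1))).indicator fun _ => (((Real.sqrt (n + 1) : ℝ) : ℂ)) :=
  indicatorConstLp_coeFn

end Pool.Agent.Helper23

end

section

open scoped InnerProductSpace Topology ENNReal

open ContinuousLinearMap Filter MeasureTheory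

namespace Pool.Agent.Helper23

variable {H : Type*} [NormedAddCommGroup H] [InnerProductSpace ℂ H] [CompleteSpace H]

variable {G : Type*} [NormedAddCommGroup G] [InnerProductSpace ℂ G] [CompleteSpace G]

variable {M N : VonNeumannAlgebra H} {ξ : H} {E : (H →L[ℂ] H) → (H →L[ℂ] H)}

lemma bessel_win {t : ℝ} (ht : 0 < t) (A : Finset ℤ) (V : L2R G) :
    ∑ i ∈ A, ‖mulOp G (ind (win t i)) V‖ ^ 2 ≤ ‖V‖ ^ 2 := by
  have := bessel_mul ht A (fun i => ind_bm (win_meas t i)) (fun i s h => ind_of_notMem h)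
    zero_le_one (fun i s => ind_norm_le _ s) V
  rwa [one_pow, one_mul] at this

lemma hi_bm (n : ℕ) : BM (hi n) := by
  refine ⟨(Complex.measurable_ofReal.comp
    (Real.measurable_exp.comp measurable_neg)).indicator measurableSet_Ico, Real.exp n,
    by positivity, fun s => ?_⟩
  by_cases h : s ∈ Set.Ico (-(n : ℝ)) n
  · rw [hi_of_mem h, Complex.norm_real, Real.norm_of_nonneg (by positivity)]
    exact Real.exp_le_exp.2 (by linarith [h.1])
  · rw [hi, Set.indicator_of_notMem h, norm_zero]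
    positivity

lemma Pn_ae {n : ℕ} {f : L2R ℂ} (hf : Pn n f = f) :
    ∀ᵐ s, s ∉ Set.Ico (-(n : ℝ)) n → f s = 0 := by
  filter_upwards [Pn_coe n f] with s hs h
  rw [hf, ind_of_notMem h, zero_smul] at hs
  exact hs

lemma Pn_of_ae {n : ℕ} {f : L2R ℂ} (hf : ∀ᵐ s, s ∉ Set.Ico (-(n : ℝ)) n → f s = 0) :
    Pn n f = f := by
  ext1
  filter_upwards [Pn_coe n f, hf] with s hs h
  rw [hs]
  by_cases h1 : s ∈ Set.Ico (-(n : ℝ)) n
  · rw [ind_of_mem h1, one_smul]
  · rw [h h1, smul_zero]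

end Pool.Agent.Helper23

end

section

open scoped InnerProductSpace Topology ENNReal

open ContinuousLinearMap Filter MeasureTheory

namespace Pool.Agent.Helper23

variable {H : Type*} [NormedAddCommGroup H] [InnerProductSpace ℂ H] [CompleteSpace H]

variable {M N : VonNeumannAlgebra H} {ξ : H} {E : (H →L[ℂ] H) → (H →L[ℂ] H)}

lemma win_sub_Ico {t : ℝ} (ht : 0 < t) {i : ℤ} {n : ℕ} (hn : (|i| + 1 : ℝ) * t ≤ n) {s : ℝ}
    (h : s ∈ win t i) : s ∈ Set.Ico (-(n : ℝ)) n := by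
  have h1 := h.1
  have h2 := h.2
  have h3 := neg_abs_le (i : ℝ)
  have h4 := le_abs_self (i : ℝ)
  rw [Int.cast_abs] at hn
  constructor <;> nlinarith

end Pool.Agent.Helper23

end

section

open scoped InnerProductSpace Topology

open ContinuousLinearMap Filter

namespace Pool.Agent.Helper23

variable {H : Type*} [NormedAddCommGroup H] [InnerProductSpace ℂ H] [CompleteSpace H]

variable {M N : VonNeumannAlgebra H} {ξ : H} {E : (H →L[ℂ] H) → (H →L[ℂ] H)}

namespace AP

variable (S : AP M N E ξ)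

include S

omit S [CompleteSpace H] in
lemma par_law (v w : H) : ‖v + w‖ ^ 2 + ‖v - w‖ ^ 2 = 2 * ‖v‖ ^ 2 + 2 * ‖w‖ ^ 2 := by
  have := parallelogram_law_with_norm ℂ v w
  simp only [pow_two]
  linarith

omit S [CompleteSpace H] in
lemma norm_add_sq_le_two (v w : H) : ‖v + w‖ ^ 2 ≤ 2 * ‖v‖ ^ 2 + 2 * ‖w‖ ^ 2 := by
  have := par_law v w
  linarith [sq_nonneg ‖v - w‖]

omit S [CompleteSpace H] in
lemma norm_smul_xi {t : ℝ} (ht : 0 ≤ t) (v : H) : ‖(t : ℂ) • v‖ = t * ‖v‖ := by
  rw [norm_smul, Complex.norm_real, Real.norm_of_nonneg ht]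

end AP

end Pool.Agent.Helper23

end

section

set_option linter.unusedSectionVars false

open scoped InnerProductSpace Topology

open ContinuousLinearMap Filter

namespace Pool.Agent.Helper53.PG

open Pool.Agent.Helper23

universe u v

variable {H : Type u} [NormedAddCommGroup H] [InnerProductSpace ℂ H] [CompleteSpace H]

variable {M N : VonNeumannAlgebra H} {ξ : H} {E : (H →L[ℂ] H) → (H →L[ℂ] H)}

/-- The conclusion of module B1 for a fixed `y` (all balanced families). -/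
def SmoothStmt (M N : VonNeumannAlgebra H) (ξ : H) (y : H →L[ℂ] H) (κ K : ℝ) : Prop :=
  ∀ (ι : Type v) [Fintype ι] (c c' : ι → H →L[ℂ] H), (∀ l, Partner N ξ (c l) (c' l)) →
    ∀ m₀ δ : ℝ, 0 < m₀ → ∑ l, ‖c l ξ‖ ^ 2 ≤ m₀ → ∑ l, ‖(c' l - c l) ξ‖ ^ 2 ≤ δ →
    ∑ l, ⟪c l ξ, (c' l - c l) ξ⟫_ℂ = 0 → ∀ n : ℕ, 0 < n →
    K * ((1 + δ / (2 * m₀)) ^ n - 1) ≤ κ →
    ∃ z ∈ Qalg M N ξ, ‖(z - y) ξ‖ ^ 2 ≤ 2 * κ ∧
      ∑ l, ‖(z * c l - c l * z) ξ‖ ^ 2 ≤ 8 * m₀ * κ / n

lemma inner_real {c c' : H →L[ℂ] H} (h : Partner N ξ c c') :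
    ⟪c ξ, (c' - c) ξ⟫_ℂ = ((‖(star c) ξ‖ ^ 2 - ‖c ξ‖ ^ 2 : ℝ) : ℂ) := by
  rw [sub_apply, inner_sub_right, h.inner_self, inner_self_eq_norm_sq_to_K]
  push_cast
  rfl

end Pool.Agent.Helper53.PG

end

section

open scoped InnerProductSpace Topology

open ContinuousLinearMap Filter

namespace Pool.Agent.Helper23

variable {H : Type*} [NormedAddCommGroup H] [InnerProductSpace ℂ H] [CompleteSpace H]

variable {M N : VonNeumannAlgebra H} {ξ : H} {E : (H →L[ℂ] H) → (H →L[ℂ] H)}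

/-- the summed transfer operator -/
noncomputable def smPhi (M N : VonNeumannAlgebra H) (ξ : H) {ι : Type*} [Fintype ι]
    (c : ι → H →L[ℂ] H) (z : H →L[ℂ] H) : H →L[ℂ] H :=
  ∑ l, EQ M N ξ (star (c l) * z * c l)

/-- one averaging step -/
noncomputable def smT (M N : VonNeumannAlgebra H) (ξ : H) {ι : Type*} [Fintype ι]
    (c : ι → H →L[ℂ] H) (m m₀ : ℝ) (z : H →L[ℂ] H) : H →L[ℂ] H :=
  ((1 - m / (2 * m₀) : ℝ) : ℂ) • z + ((1 / (2 * m₀) : ℝ) : ℂ) • smPhi M N ξ c z

namespace AP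

variable (S : AP M N E ξ)

include S

variable {ι : Type*} [Fintype ι] {c c' : ι → H →L[ℂ] H}

lemma sm_mem {z : H →L[ℂ] H} (hz : z ∈ Qalg M N ξ) {a b : H →L[ℂ] H} (ha : a ∈ N) (hb : b ∈ N) :
    star a * z * b ∈ M :=
  mul_mem (mul_mem (star_mem (S.le _ ha)) (mem_Qalg.1 hz).1) (S.le _ hb)

lemma smPhi_mem (hc : ∀ l, c l ∈ N) {z : H →L[ℂ] H} (hz : z ∈ Qalg M N ξ) :
    smPhi M N ξ c z ∈ Qalg M N ξ :=
  sum_mem fun l _ => S.EQ_mem (S.sm_mem hz (hc l) (hc l))

lemma smT_mem (hc : ∀ l, c l ∈ N) {z : H →L[ℂ] H} (hz : z ∈ Qalg M N ξ) (m m₀ : ℝ) :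
    smT M N ξ c m m₀ z ∈ Qalg M N ξ :=
  add_mem (smul_mem' _ hz) (smul_mem' _ (S.smPhi_mem hc hz))

lemma inner_smPhi (hc : ∀ l, c l ∈ N) {q z : H →L[ℂ] H} (hq : q ∈ Qalg M N ξ)
    (hz : z ∈ Qalg M N ξ) :
    ⟪q ξ, smPhi M N ξ c z ξ⟫_ℂ = ∑ l, ⟪c l (q ξ), z (c l ξ)⟫_ℂ := by
  rw [smPhi, sum_apply, inner_sum]
  refine Finset.sum_congr rfl fun l _ => ?_
  rw [S.EQ_inner (S.sm_mem hz (hc l) (hc l)) hq]
  change ⟪q ξ, (star (c l)) (z (c l ξ))⟫_ℂ = _
  rw [inner_star_right]

omit S in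
lemma inner_conj4 (u a b : H →L[ℂ] H) (v w : H) :
    ⟪v, (star u * (star a * b) * u) w⟫_ℂ = ⟪a (u v), b (u w)⟫_ℂ := by
  change ⟪v, (star u) ((star a) (b (u w)))⟫_ℂ = _
  rw [inner_star_right, inner_star_right]

omit S [CompleteSpace H] in
lemma sum_partner_inner (hbal : ∑ l, ⟪c l ξ, (c' l - c l) ξ⟫_ℂ = 0) :
    ∑ l, ⟪c' l ξ, c l ξ⟫_ℂ = ((∑ l, ‖c l ξ‖ ^ 2 : ℝ) : ℂ) := by
  have h1 : ∑ l, ⟪c l ξ, c' l ξ⟫_ℂ = ((∑ l, ‖c l ξ‖ ^ 2 : ℝ) : ℂ) := by
    have h2 : ∀ l, ⟪c l ξ, (c' l - c l) ξ⟫_ℂ = ⟪c l ξ, c' l ξ⟫_ℂ - ((‖c l ξ‖ ^ 2 : ℝ) : ℂ) := by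
      intro l
      rw [sub_apply, inner_sub_right, inner_self_eq_norm_sq_to_K]
      push_cast
      rfl
    simp only [h2] at hbal
    rw [Finset.sum_sub_distrib, sub_eq_zero] at hbal
    rw [hbal]
    push_cast
    rfl
  have h3 := congrArg (starRingEnd ℂ) h1
  rw [map_sum, Complex.conj_ofReal] at h3
  rw [← h3]
  exact Finset.sum_congr rfl fun l _ => (inner_conj_symm _ _).symm

omit S [CompleteSpace H] in
lemma sum_partner_norm (hbal : ∑ l, ⟪c l ξ, (c' l - c l) ξ⟫_ℂ = 0) {δ : ℝ}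
    (hδ : ∑ l, ‖(c' l - c l) ξ‖ ^ 2 ≤ δ) :
    ∑ l, ‖c' l ξ‖ ^ 2 ≤ (∑ l, ‖c l ξ‖ ^ 2) + δ := by
  have h1 : ∑ l, ‖(c' l - c l) ξ‖ ^ 2 = ∑ l, ‖c' l ξ‖ ^ 2 - ∑ l, ‖c l ξ‖ ^ 2 := by
    have h2 := congrArg Complex.re (sum_partner_inner hbal)
    rw [Complex.re_sum, Complex.ofReal_re] at h2
    have h3 : ∀ l, ‖(c' l - c l) ξ‖ ^ 2 =
        ‖c' l ξ‖ ^ 2 - 2 * (⟪c' l ξ, c l ξ⟫_ℂ).re + ‖c l ξ‖ ^ 2 := by
      intro l
      rw [sub_apply, norm_sub_sq_re]
    simp only [h3]
    rw [Finset.sum_add_distrib, Finset.sum_sub_distrib, ← Finset.mul_sum, h2]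
    ring
  linarith

/-- the iterates of the averaging step -/
noncomputable def smSeq (M N : VonNeumannAlgebra H) (ξ : H) {ι : Type*} [Fintype ι]
    (c : ι → H →L[ℂ] H) (m m₀ : ℝ) (y : H →L[ℂ] H) : ℕ → H →L[ℂ] H
  | 0 => y
  | k + 1 => smT M N ξ c m m₀ (smSeq M N ξ c m m₀ y k)

end AP

end Pool.Agent.Helper23

end

section

open scoped InnerProductSpace Topology ENNReal

open ContinuousLinearMap Filter MeasureTheory

namespace Pool.Agent.Helper23

variable {H : Type*} [NormedAddCommGroup H] [InnerProductSpace ℂ H] [CompleteSpace H]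

variable {M N : VonNeumannAlgebra H} {ξ : H} {E : (H →L[ℂ] H) → (H →L[ℂ] H)}

namespace AP

variable (S : AP M N E ξ)

include S

omit S in
/-- compression by coisometric eigenoperators -/
lemma norm_comp (S : Setting M N E ξ) {γ : ℝ} {v w x : H →L[ℂ] H} (hv : v * star v = 1)
    (hw : w ∈ eig N ξ γ) (hw1 : w * star w = 1) (hx : x ∈ M) :
    ‖(star v * x * w) ξ‖ ^ 2 = γ * ‖x ξ‖ ^ 2 := by
  have e1 : (star v * x * w) ξ = (star v) (x (w ξ)) := rfl
  rw [e1, norm_of_isom (by rw [star_star]; exact hv)]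
  have h := S.norm_right_eig_sq hw hx
  rw [hw1, one_apply_eq_self, inner_self_eq_norm_sq_to_K] at h
  apply Complex.ofReal_injective
  rw [h]
  push_cast
  rfl

end AP

end Pool.Agent.Helper23

end

section

open scoped InnerProductSpace Topology ENNReal

open ContinuousLinearMap Filter MeasureTheory

namespace Pool.Agent.Helper23

variable {H : Type*} [NormedAddCommGroup H] [InnerProductSpace ℂ H] [CompleteSpace H]

variable {M N : VonNeumannAlgebra H} {ξ : H} {E : (H →L[ℂ] H) → (H →L[ℂ] H)}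

/-- the embedding of the bicentralizer -/
noncomputable def piU (M N : VonNeumannAlgebra H) (ξ : H) (x : H →L[ℂ] H) :
    L2R H →L[ℂ] L2R H := dec (fun s => btU M N ξ (Real.exp s) x)

end Pool.Agent.Helper23

end

section

open scoped InnerProductSpace Topology ENNReal

open ContinuousLinearMap Filter MeasureTheory

namespace Pool.Agent.Helper23

variable {H : Type*} [NormedAddCommGroup H] [InnerProductSpace ℂ H] [CompleteSpace H]

lemma blk_mulOp {t : ℝ} (A : Finset ℤ) (z : ℤ → H →L[ℂ] H) {m : ℝ → ℂ} (hm : BM m)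
    (F : L2R H) : mulOp H m (blk t A z F) = blk t A z (mulOp H m F) := by
  rw [blk, sum_apply, sum_apply, map_sum]
  refine Finset.sum_congr rfl fun i _ => ?_
  change mulOp H m (mulOp H (ind (win t i)) (lift (z i) F)) =
    mulOp H (ind (win t i)) (lift (z i) (mulOp H m F))
  rw [← mulOp_lift hm, mulOp_mulOp hm (ind_bm (win_meas t i)),
    mulOp_mulOp (ind_bm (win_meas t i)) hm]
  congr 2
  funext s
  ring

end Pool.Agent.Helper23

end

section

open scoped InnerProductSpace Topology ENNReal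

open ContinuousLinearMap Filter MeasureTheory

set_option linter.unusedSectionVars false

set_option linter.unusedVariables false

namespace Pool.Agent.Helper23

variable {H : Type*} [NormedAddCommGroup H] [InnerProductSpace ℂ H] [CompleteSpace H]

variable {M N : VonNeumannAlgebra H} {ξ : H} {E : (H →L[ℂ] H) → (H →L[ℂ] H)}

open RBF

lemma mem_Calg {ψ : (H →L[ℂ] H) → ℝ≥0∞} : IsRelCommCentralizer M N ψ (Calg M N ψ) := by
  intro x
  have h1 : x ∈ Calg M N ψ ↔ x ∈ StarSubalgebra.centralizer ℂ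
    ((M.commutant : Set (H →L[ℂ] H)) ∪ {u | ScalingUnitary N ψ 1 u}) := Iff.rfl
  rw [h1, StarSubalgebra.mem_centralizer_iff]
  constructor
  · intro h
    refine ⟨mem_iff_commutes.2 fun a ha => (h a (Or.inl ha)).1, fun u hu => (h u (Or.inr hu)).1⟩
  · rintro ⟨h2, h3⟩ a (ha | ha)
    · exact ⟨mem_iff_commutes.1 h2 a ha, mem_iff_commutes.1 h2 _ (star_mem ha)⟩
    · exact ⟨h3 a ha, h3 _ (scaling_star ha)⟩

end Pool.Agent.Helper23

end

section

open scoped InnerProductSpace Topology ENNReal BoundedContinuousFunction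

open ContinuousLinearMap Filter MeasureTheory

namespace Pool.Agent.Helper23

variable {H : Type*} [NormedAddCommGroup H] [InnerProductSpace ℂ H] [CompleteSpace H]

/-- The Gaussian window `ρ ↦ exp(-ε (ρ - r)²)`. -/
noncomputable def wn (ε : ℝ) (hε : 0 < ε) (r : ℝ) : ℝ →ᵇ ℂ :=
  ((Real.exp (-(ε * r ^ 2)) : ℝ) : ℂ) • Helper70.U8.GB ε hε (2 * ε * r)

end Pool.Agent.Helper23

end

section

open scoped InnerProductSpace Topology

open ContinuousLinearMap Filter

namespace Pool.Agent.Helper23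

universe u

variable {H : Type u} [NormedAddCommGroup H] [InnerProductSpace ℂ H] [CompleteSpace H]

variable {L : Type u} [NormedAddCommGroup L] [InnerProductSpace ℂ L] [CompleteSpace L]

variable {M N A : VonNeumannAlgebra H} {ξ : H} {E : (H →L[ℂ] H) → (H →L[ℂ] H)}

lemma Setting.norm_E_sub (S : Setting M N E ξ) {x y : H →L[ℂ] H} (hx : x ∈ M) (hy : y ∈ M) :
    ‖E x ξ - E y ξ‖ ≤ ‖x ξ - y ξ‖ := by
  set d := E x - E y with hd
  have hdN : d ∈ N := sub_mem (S.E_mem x hx) (S.E_mem y hy)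
  have h1 : ⟪d ξ, d ξ⟫_ℂ = ⟪d ξ, x ξ - y ξ⟫_ℂ := by
    have h2 := S.E_inner hdN (one_mem N) hx
    have h3 := S.E_inner hdN (one_mem N) hy
    rw [one_apply_eq_self] at h2 h3
    calc ⟪d ξ, d ξ⟫_ℂ = ⟪d ξ, E x ξ - E y ξ⟫_ℂ := rfl
      _ = _ := by rw [inner_sub_right, inner_sub_right, h2, h3]
  have h2 : ‖d ξ‖ ^ 2 ≤ ‖d ξ‖ * ‖x ξ - y ξ‖ := by
    have h3 : ‖⟪d ξ, d ξ⟫_ℂ‖ = ‖d ξ‖ ^ 2 := by
      rw [inner_self_eq_norm_sq_to_K]
      simp
    rw [← h3, h1]
    exact norm_inner_le_norm _ _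
  change ‖d ξ‖ ≤ _
  by_contra hcon
  push Not at hcon
  have h4 : 0 ≤ ‖x ξ - y ξ‖ := norm_nonneg _
  nlinarith [norm_nonneg (d ξ)]

end Pool.Agent.Helper23

end

section

open scoped InnerProductSpace Topology

open ContinuousLinearMap Filter

namespace Pool.Agent.Helper23

universe u

variable {H : Type u} [NormedAddCommGroup H] [InnerProductSpace ℂ H] [CompleteSpace H]

variable {M N : VonNeumannAlgebra H} {ξ : H} {E : (H →L[ℂ] H) → (H →L[ℂ] H)}

lemma convex_vN (A : VonNeumannAlgebra H) : Convex ℝ {z : H →L[ℂ] H | z ∈ A} := by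
  intro z hz z' hz' a b _ _ _
  have h1 : a • z = (a : ℂ) • z := (Complex.coe_smul a z).symm
  have h2 : b • z' = (b : ℂ) • z' := (Complex.coe_smul b z').symm
  change a • z + b • z' ∈ A
  rw [h1, h2]
  exact add_mem (smul_mem' _ hz) (smul_mem' _ hz')

end Pool.Agent.Helper23

end

section

open scoped InnerProductSpace Topology ENNReal BoundedContinuousFunction

open ContinuousLinearMap Filter MeasureTheory

namespace Pool.Agent.Helper23

universe u

variable {H : Type u} [NormedAddCommGroup H] [InnerProductSpace ℂ H] [CompleteSpace H]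

variable {K : Type u} [NormedAddCommGroup K] [InnerProductSpace ℂ K] [CompleteSpace K]

variable {M N : VonNeumannAlgebra H} {ξ : H} {E : (H →L[ℂ] H) → (H →L[ℂ] H)}

/-- the constant of the core estimate -/
def CoreAt (M N : VonNeumannAlgebra H) (ξ : H) (u : L2R H →L[ℂ] L2R H) (y : H →L[ℂ] H)
    (κ : ℝ) : Prop := ∃ K : ℝ, 0 ≤ K ∧
    ∀ γ₀ : ℝ, 1 < γ₀ → Real.log γ₀ ≤ 1 / 2 → ∀ (m : ℕ) (g : L2R ℂ), g ≠ 0 →
      ∀ (B : Finset hw) (n : ℕ), 0 < n → K * ((1 + 2 * Real.log γ₀ ^ 2) ^ n - 1) ≤ κ →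
        ∃ z ∈ Bicent M N ξ, ‖(z - btU M N ξ (γ₀ ^ m) y) ξ‖ ^ 2 ≤ 2 * κ ∧
          ∑ j ∈ Finset.Ico (-(m : ℤ)) m, ∑ i ∈ Finset.Ico (-(m : ℤ)) m, ∑ k ∈ B,
            ‖(btU M N ξ (γ₀ ^ (i - m)) z * sa u (Real.log γ₀) g (i, k, j) -
              sa u (Real.log γ₀) g (i, k, j) * btU M N ξ (γ₀ ^ (j - m)) z) ξ‖ ^ 2 ≤
            96 * ‖g‖ ^ 2 * κ / n

end Pool.Agent.Helper23

end

section

open scoped InnerProductSpace Topology BoundedContinuousFunction

open ContinuousLinearMap Filter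

open Pool.Agent.Helper23.RBF

namespace Pool.Agent.Helper78.BC

universe u

variable {H : Type u} [NormedAddCommGroup H] [InnerProductSpace ℂ H] [CompleteSpace H]

section

variable {A : VonNeumannAlgebra H} {ξ : H} {J : H →L[ℝ] H}
  {Ψ : (ℝ →ᵇ ℂ) →⋆ₐ[ℂ] (H →L[ℂ] H)}

lemma rm_one (h : Std A ξ J Ψ) (v : H) : rm J 1 v = v := by
  simp [rm, h.J_J]

end

end Pool.Agent.Helper78.BC

end

section

open scoped InnerProductSpace Topology BoundedContinuousFunction

open ContinuousLinearMap Filter MeasureTheory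

namespace Pool.Agent.Helper88.CS

open Pool.Agent.Helper23

open Pool.Agent.Helper78.BC (Std rm Fixed)

variable {H : Type*} [NormedAddCommGroup H] [InnerProductSpace ℂ H] [CompleteSpace H]

variable {A : VonNeumannAlgebra H} {J : H →L[ℝ] H}

namespace JUniqAux

open Pool.Agent.Helper43.TTF Pool.Agent.Helper23.TTA Pool.Agent.Helper70.U8

variable {κ : H}

/-- the operator `J x J` for a bare conjugation -/
noncomputable def cj (hJ : Conj A J) (x : H →L[ℂ] H) : H →L[ℂ] H :=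
  LinearMap.mkContinuous
    { toFun := fun v => J (x (J v))
      map_add' := by intro v w; simp only [map_add]
      map_smul' := by
        intro c v
        rw [hJ.J_conj, map_smul, hJ.J_conj, Complex.conj_conj, RingHom.id_apply] } ‖x‖
    (by
      intro v
      change ‖J (x (J v))‖ ≤ _
      rw [hJ.J_norm]
      refine (x.le_opNorm _).trans ?_
      rw [hJ.J_norm])

lemma cj_apply (hJ : Conj A J) (x : H →L[ℂ] H) (v : H) : cj hJ x v = J (x (J v)) := rfl

lemma inner_J (hJ : Conj A J) (v w : H) : ⟪J v, w⟫_ℂ = ⟪J w, v⟫_ℂ := by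
  have h := hJ.J_inner v (J w)
  rwa [hJ.J_J] at h

lemma star_cj (hJ : Conj A J) (x : H →L[ℂ] H) : star (cj hJ x) = cj hJ (star x) := by
  apply ContinuousLinearMap.ext
  intro v
  apply ext_inner_right ℂ
  intro w
  rw [inner_star_left, cj_apply, cj_apply, inner_J hJ, inner_star_right, ← hJ.J_inner, hJ.J_J]

lemma cj_mem (hJ : Conj A J) {a : H →L[ℂ] H} (ha : a ∈ A) : cj hJ a ∈ A.commutant := by
  rw [VonNeumannAlgebra.mem_commutant_iff]
  intro y hy
  apply ContinuousLinearMap.ext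
  intro v
  rw [mul_apply_eq_comp, mul_apply_eq_comp, cj_apply, cj_apply, hJ.J_comm a ha y hy]

end JUniqAux

end Pool.Agent.Helper88.CS

end

section

open scoped InnerProductSpace Topology BoundedContinuousFunction

open ContinuousLinearMap Filter MeasureTheory

namespace Pool.Agent.Helper88.CS

open Pool.Agent.Helper23

open Pool.Agent.Helper78.BC (Std rm Fixed)

variable {H : Type*} [NormedAddCommGroup H] [InnerProductSpace ℂ H] [CompleteSpace H]

variable {A : VonNeumannAlgebra H} {ξ : H} {J : H →L[ℝ] H}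
  {Ψ : (ℝ →ᵇ ℂ) →⋆ₐ[ℂ] (H →L[ℂ] H)} {R : H →L[ℂ] H} {D : H →L[ℝ] H}

namespace SuppBAux

open Pool.Agent.Helper70.U8 (U V)

/-- zero function of the support condition -/
theorem ker_zero {k : ℝ → ℂ} {K : ℝ →ᵇ ℂ} (hk : Ker k K) {a b : ℝ} (hab : b < a)
    (hK : ∀ ρ, ρ ∉ Set.Icc a b → K ρ = 0) (t : ℝ) : k t = 0 := by
  rw [hk.inv t]
  have h1 : ∀ ρ, K ρ = 0 := fun ρ => hK ρ fun h => by
    have := h.1.trans h.2
    exact absurd hab (not_lt.2 this)
  simp only [h1, zero_mul, integral_zero]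

end SuppBAux

end Pool.Agent.Helper88.CS

end

section

open scoped InnerProductSpace Topology BoundedContinuousFunction

open ContinuousLinearMap Filter MeasureTheory

namespace Pool.Agent.Helper88.CS

open Pool.Agent.Helper23

open Pool.Agent.Helper78.BC (Std rm Fixed)

set_option linter.unusedSectionVars false

set_option linter.unusedVariables false

variable {H : Type*} [NormedAddCommGroup H] [InnerProductSpace ℂ H] [CompleteSpace H]

variable {A : VonNeumannAlgebra H}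

open PolarAux

/-- in a factor `f x e ≠ 0` for some `x` -/
theorem exists_mul_ne (hA : FInf A) {e f : H →L[ℂ] H} (he : IsP A e) (hf : IsP A f)
    (he0 : e ≠ 0) (hf0 : f ≠ 0) : ∃ x ∈ A, f * x * e ≠ 0 := by
  by_contra hcon
  push Not at hcon
  obtain ⟨h0, hh0⟩ : ∃ h, e h ≠ 0 := by
    by_contra h
    push Not at h
    exact he0 (ContinuousLinearMap.ext h)
  set S : Set H := {y | ∃ x ∈ A, ∃ h, x (e h) = y} with hS
  set V : Submodule ℂ H := (Submodule.span ℂ S).topologicalClosure with hV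
  have hVc : IsClosed (V : Set H) := Submodule.isClosed_topologicalClosure _
  have hcv : CompleteSpace V := hVc.completeSpace_coe
  have hind : ∀ (W : Submodule ℂ H), IsClosed (W : Set H) → (∀ x ∈ S, x ∈ W) → V ≤ W := by
    intro W hW h
    exact Submodule.topologicalClosure_minimal _ (Submodule.span_le.2 h) hW
  have hSV : ∀ x ∈ S, x ∈ V := fun x hx =>
    Submodule.le_topologicalClosure _ (Submodule.subset_span hx)
  have hsp : IsStarProjection V.starProjection := isStarProjection_starProjection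
  have hinv : ∀ y : H →L[ℂ] H, (∀ x ∈ S, y x ∈ V) →
      LinearMap.range (V.starProjection : H →ₗ[ℂ] H) ∈ Module.End.invtSubmodule (y : H →ₗ[ℂ] H) := by
    intro y hy
    rw [Submodule.range_starProjection, Module.End.mem_invtSubmodule]
    exact hind (V.comap (y : H →ₗ[ℂ] H)) (hVc.preimage y.continuous) (fun x hx => hy x hx)
  have hz1 : V.starProjection ∈ A := by
    rw [VonNeumannAlgebra.IsStarProjection.mem_iff hsp]
    intro y hy
    refine hinv y ?_
    rintro _ ⟨x, hx, h, rfl⟩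
    refine hSV _ ⟨x, hx, y h, ?_⟩
    rw [commute_apply he.1 hy, commute_apply hx hy]
  have hz2 : V.starProjection ∈ A.commutant := by
    rw [VonNeumannAlgebra.IsStarProjection.mem_iff hsp]
    intro y hy
    rw [VonNeumannAlgebra.commutant_commutant] at hy
    refine hinv y ?_
    rintro _ ⟨x, hx, h, rfl⟩
    exact hSV _ ⟨y * x, mul_mem hy hx, h, rfl⟩
  obtain ⟨c, hc⟩ := hA.factor _ hz1 hz2
  have hmem : e h0 ∈ V := hSV _ ⟨1, one_mem A, h0, rfl⟩
  have h1 : V.starProjection (e h0) = e h0 := Submodule.starProjection_eq_self_iff.2 hmem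
  have h2 : c = 1 := by
    rw [hc] at h1
    have h3 : (c - 1) • e h0 = 0 := by
      rw [sub_smul, one_smul, sub_eq_zero]
      exact h1
    rcases smul_eq_zero.1 h3 with h4 | h4
    · exact sub_eq_zero.1 h4
    · exact absurd h4 hh0
  apply hf0
  ext w
  have h3 : w ∈ V := by
    rw [← Submodule.starProjection_eq_self_iff, hc, h2, one_smul]
    rfl
  have h4 : V ≤ LinearMap.ker (f : H →ₗ[ℂ] H) := by
    refine hind _ (ContinuousLinearMap.isClosed_ker f) ?_
    rintro _ ⟨x, hx, h, rfl⟩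
    have := congrArg (fun T : H →L[ℂ] H => T h) (hcon x hx)
    exact this
  exact h4 h3

end Pool.Agent.Helper88.CS

end

section

open scoped InnerProductSpace Topology BoundedContinuousFunction

open ContinuousLinearMap Filter MeasureTheory

namespace Pool.Agent.Helper88.CS

open Pool.Agent.Helper23

open Pool.Agent.Helper78.BC (Std rm Fixed)

variable {H : Type*} [NormedAddCommGroup H] [InnerProductSpace ℂ H] [CompleteSpace H]

variable {A : VonNeumannAlgebra H} {ξ : H} {J : H →L[ℝ] H}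
  {Ψ : (ℝ →ᵇ ℂ) →⋆ₐ[ℂ] (H →L[ℂ] H)} {R : H →L[ℂ] H} {D : H →L[ℝ] H}

namespace HullAux

open Pool.Agent.Helper70.U8 (U V U_star V_star)

/-- projections commute with operators leaving the space and its complement invariant -/
theorem proj_comm (K : Submodule ℂ H) [K.HasOrthogonalProjection] {b : H →L[ℂ] H}
    (h1 : ∀ v ∈ K, b v ∈ K) (h2 : ∀ v ∈ K, (star b) v ∈ K) :
    b * K.starProjection = K.starProjection * b := by
  ext v
  rw [mul_apply_eq_comp, mul_apply_eq_comp]
  refine (Submodule.eq_starProjection_of_mem_of_inner_eq_zero (K := K) ?_ ?_).symm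
  · exact h1 _ (Submodule.starProjection_apply_mem _ _)
  · intro w hw
    rw [← map_sub, ← star_star b, inner_star_left]
    exact K.starProjection_inner_eq_zero v _ (h2 w hw)

end HullAux

end Pool.Agent.Helper88.CS

end

section

open scoped InnerProductSpace Topology BoundedContinuousFunction CompactlySupported

open ContinuousLinearMap Filter MeasureTheory

namespace Pool.Agent.Helper88.CS

open Pool.Agent.Helper23

open Pool.Agent.Helper78.BC (Std rm Fixed)

variable {H : Type*} [NormedAddCommGroup H] [InnerProductSpace ℂ H] [CompleteSpace H]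

variable {A : VonNeumannAlgebra H} {J : H →L[ℝ] H} {κ : H}

namespace Trick1Aux

lemma cn_le_one (n : ℕ) {s : ℝ} (hs : 0 ≤ s) : cn n s ≤ 1 := by
  unfold cn
  have : 0 ≤ (n : ℝ) * s := by positivity
  rw [div_le_one (by linarith)]
  linarith

lemma cn_tendsto {s : ℝ} (hs : 0 < s) : Tendsto (fun n => cn n s) atTop (𝓝 1) := by
  have h1 : ∀ n : ℕ, cn n s = 1 - 1 / (1 + n * s) := by
    intro n
    have : (0 : ℝ) < 1 + n * s := by positivity
    unfold cn
    field_simp
    ring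
  simp_rw [h1]
  have h2 : Tendsto (fun n : ℕ => 1 + (n : ℝ) * s) atTop atTop :=
    tendsto_atTop_add_const_left _ _ (tendsto_natCast_atTop_atTop.atTop_mul_const hs)
  have h3 : Tendsto (fun n : ℕ => 1 / (1 + (n : ℝ) * s)) atTop (𝓝 0) :=
    tendsto_const_nhds.div_atTop h2
  simpa using h3.const_sub 1

lemma cn_zero (n : ℕ) : cn n 0 = 0 := by simp [cn]

lemma abs_fn_le (t : ℝ) (n : ℕ) (s : ℝ) : |fn t n s| ≤ 1 := by
  have h1 := cn_nonneg n (pt_nonneg t s)
  have h2 := cn_nonneg n (qt_nonneg t s)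
  have h3 := cn_le_one n (pt_nonneg t s)
  have h4 := cn_le_one n (qt_nonneg t s)
  unfold fn
  rw [abs_le]
  constructor <;> linarith

lemma fn_tendsto (t s : ℝ) : Tendsto (fun n => fn t n s) atTop (𝓝 (sg t s)) := by
  unfold fn sg
  refine Tendsto.sub ?_ ?_
  · by_cases h : t < s
    · rw [if_pos h]
      exact cn_tendsto (by unfold pt; rw [lt_max_iff]; left; linarith)
    · rw [if_neg h]
      have h1 : pt t s = 0 := by unfold pt; exact max_eq_right (by linarith)
      simp_rw [h1, cn_zero]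
      exact tendsto_const_nhds
  · by_cases h : s < -t
    · rw [if_pos h]
      exact cn_tendsto (by unfold qt; rw [lt_max_iff]; left; linarith)
    · rw [if_neg h]
      have h1 : qt t s = 0 := by unfold qt; exact max_eq_right (by linarith)
      simp_rw [h1, cn_zero]
      exact tendsto_const_nhds

end Trick1Aux

end Pool.Agent.Helper88.CS

end

section

open scoped InnerProductSpace Topology ENNReal BoundedContinuousFunction

open ContinuousLinearMap Filter MeasureTheory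

namespace Pool.Agent.Helper23.ED

open Pool.Agent.Helper23 Pool.Agent.Helper23.RBF

universe u

variable {K : Type*} [NormedAddCommGroup K] [InnerProductSpace ℂ K] [CompleteSpace K]

variable {U : ℝ → K →L[ℂ] K} {f : ℝ → ℂ}

theorem smear_mem (hU : UG U) (hf : Integrable f) {A : VonNeumannAlgebra K} {Y : K →L[ℂ] K}
    (hY : ∀ t, U t * Y * U (-t) ∈ A) : smear U f Y ∈ A := by
  rw [mem_iff_commutes]
  intro g hg
  refine ContinuousLinearMap.ext fun w => ext_inner_left ℂ fun v => ?_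
  change ⟪v, g (smear U f Y w)⟫_ℂ = ⟪v, smear U f Y (g w)⟫_ℂ
  rw [smear_spec hU hf, ← ContinuousLinearMap.adjoint_inner_left, smear_spec hU hf]
  refine integral_congr_ae (Eventually.of_forall fun t => ?_)
  simp only
  rw [ContinuousLinearMap.adjoint_inner_left]
  have h1 : g (U t (Y (U (-t) w))) = U t (Y (U (-t) (g w))) :=
    congrArg (fun T : K →L[ℂ] K => T w) (mem_iff_commutes.1 (hY t) g hg)
  rw [h1]

end Pool.Agent.Helper23.ED

end

section

open scoped InnerProductSpace Topology ENNReal BoundedContinuousFunction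

open ContinuousLinearMap Filter MeasureTheory

namespace Pool.Agent.Helper23.ED

open Pool.Agent.Helper23 Pool.Agent.Helper23.RBF

universe u

variable {K : Type*} [NormedAddCommGroup K] [InnerProductSpace ℂ K] [CompleteSpace K]

variable {U : ℝ → K →L[ℂ] K}

open SmB

theorem gau_conj (m : ℝ) (z : ℂ) (t : ℝ) :
    (starRingEnd ℂ) (gau m z t) = gau m ((starRingEnd ℂ) z) t := by
  rw [gau, gau, ← Complex.exp_conj]
  simp

end Pool.Agent.Helper23.ED

end

section

open scoped InnerProductSpace Topology ENNReal BoundedContinuousFunction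

open ContinuousLinearMap Filter MeasureTheory

namespace Pool.Agent.Helper23.ED

open Pool.Agent.Helper23 Pool.Agent.Helper23.RBF

universe u

open Pool.Agent.Helper43.TTF (FT)

variable {K : Type*} [NormedAddCommGroup K] [InnerProductSpace ℂ K] [CompleteSpace K]

variable {A : VonNeumannAlgebra K} {κ : K} {R : K →L[ℂ] K} {D : K →L[ℝ] K}
  {Ψ : (ℝ →ᵇ ℂ) →⋆ₐ[ℂ] (K →L[ℂ] K)}

theorem gau_fourier {m : ℝ} (hm : 0 < m) (z : ℂ) (ρ : ℝ) :
    ∫ t, gau m z t * expB t ρ = GZ m hm z ρ := by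
  have hm' : (m : ℂ) ≠ 0 := by exact_mod_cast hm.ne'
  have h1 : ∀ t : ℝ, gau m z t * expB t ρ =
      Complex.exp (-(m : ℂ) * (t : ℂ) ^ 2 + (2 * m * z + ρ * Complex.I) * (t : ℂ) +
        -(m : ℂ) * z ^ 2) := by
    intro t
    rw [expB_apply, gau, ← Complex.exp_add]
    congr 1
    push_cast
    ring
  have h2 : (-(m : ℂ)).re < 0 := by
    rw [Complex.neg_re, Complex.ofReal_re]
    linarith
  have h3 : ((Real.pi : ℂ) / -(-(m : ℂ))) ^ (1 / 2 : ℂ) =
      ((Real.sqrt (Real.pi / m) : ℝ) : ℂ) := by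
    rw [neg_neg, Real.sqrt_eq_rpow, Complex.ofReal_cpow (div_nonneg Real.pi_pos.le hm.le)]
    push_cast
    rfl
  have h4 : (-(m : ℂ) * z ^ 2 - (2 * m * z + ρ * Complex.I) ^ 2 / (4 * -(m : ℂ))) =
      Complex.I * z * ρ - (ρ : ℂ) ^ 2 / (4 * m) := by
    field_simp
    ring_nf
    rw [Complex.I_sq]
    ring
  calc ∫ t, gau m z t * expB t ρ = ∫ t : ℝ,
      Complex.exp (-(m : ℂ) * (t : ℂ) ^ 2 + (2 * m * z + ρ * Complex.I) * (t : ℂ) +
        -(m : ℂ) * z ^ 2) := integral_congr_ae (Eventually.of_forall h1)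
    _ = _ := by
      rw [integral_cexp_quadratic h2, h3, h4]
      rfl

theorem GZ_shift {m : ℝ} (hm : 0 < m) (z : ℂ) :
    (2 - FR) * GZ m hm z = FT * GZ m hm (z - Complex.I / 2) := by
  ext ρ
  have e2 : (2 : ℝ →ᵇ ℂ) ρ = 2 := rfl
  have e3 : ∀ w : ℂ, GZ m hm w ρ = ((Real.sqrt (Real.pi / m) : ℝ) : ℂ) *
      Complex.exp (Complex.I * w * ρ - (ρ : ℂ) ^ 2 / (4 * m)) := fun _ => rfl
  rw [BoundedContinuousFunction.mul_apply, BoundedContinuousFunction.mul_apply,
    BoundedContinuousFunction.sub_apply, Pool.Agent.Helper43.TTF.FR_apply,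
    Pool.Agent.Helper43.TTF.FT_apply, e2, e3, e3]
  have h1 : Complex.exp (Complex.I * (z - Complex.I / 2) * ρ - (ρ : ℂ) ^ 2 / (4 * m)) =
      Complex.exp (Complex.I * z * ρ - (ρ : ℂ) ^ 2 / (4 * m)) *
        ((Real.exp (ρ / 2) : ℝ) : ℂ) := by
    rw [Complex.ofReal_exp, ← Complex.exp_add]
    congr 1
    push_cast
    ring_nf
    rw [Complex.I_sq]
    ring
  have h2 : 2 - 2 / (1 + Real.exp ρ) = (Real.cosh (ρ / 2))⁻¹ * Real.exp (ρ / 2) := by
    rw [Pool.Agent.Helper43.TTF.cosh_half]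
    have h1 : Real.exp ρ = Real.exp (ρ / 2) * Real.exp (ρ / 2) := by
      rw [← Real.exp_add]; ring_nf
    have h2 : (0 : ℝ) < Real.exp (ρ / 2) := Real.exp_pos _
    have h4 : (0 : ℝ) < 1 + Real.exp ρ := by positivity
    rw [h1] at h4 ⊢
    field_simp
    ring
  have h3 : (2 : ℂ) - ((2 / (1 + Real.exp ρ) : ℝ) : ℂ) =
      (((Real.cosh (ρ / 2))⁻¹ : ℝ) : ℂ) * ((Real.exp (ρ / 2) : ℝ) : ℂ) := by
    rw [← Complex.ofReal_mul, ← h2]
    push_cast
    ring
  rw [h1, h3]
  ring

end Pool.Agent.Helper23.ED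

end

section

open scoped InnerProductSpace Topology ENNReal BoundedContinuousFunction

open ContinuousLinearMap Filter MeasureTheory

namespace Pool.Agent.Helper23.ED

open Pool.Agent.Helper23 Pool.Agent.Helper23.RBF

universe u

variable {H : Type*} [NormedAddCommGroup H] [InnerProductSpace ℂ H] [CompleteSpace H]

variable {A : VonNeumannAlgebra H} {ξ : H} {R : H →L[ℂ] H} {D : H →L[ℝ] H}
  {Ψ : (ℝ →ᵇ ℂ) →⋆ₐ[ℂ] (H →L[ℂ] H)}

namespace GgE

open Pool.Agent.Helper43.TTF

lemma D_smul2 (h : TTData A ξ R D) (v : H) : D ((2 : ℂ) • v) = (2 : ℂ) • D v := by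
  have h2 := h.D_conj 2 v
  rwa [Complex.conj_ofNat] at h2

lemma D_xi (h : TTData A ξ R D) {x y : H →L[ℂ] H} (hy : y ∈ A)
    (hr : R (x ξ) = (2 : ℂ) • y ξ - R (y ξ)) : D (x ξ) = R ((star y) ξ) := by
  have h1 : D (R (x ξ)) = R (D (y ξ)) := by
    rw [hr, map_sub, D_smul2 h, h.D_R]
    abel
  rw [h.D_R, h.D_mem y hy] at h1
  have h2 : R (D (x ξ) - R ((star y) ξ)) = (2 : ℂ) • (D (x ξ) - R ((star y) ξ)) := by
    rw [map_sub, smul_sub]
    rw [map_sub, map_smul] at h1
    have h3 : R (D (x ξ)) = (2 : ℂ) • D (x ξ) - ((2 : ℂ) • R ((star y) ξ) - R (R ((star y) ξ))) := by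
      rw [← h1]
      abel
    rw [h3]
    abel
  exact sub_eq_zero.1 (h.R_inj' _ h2)

end GgE

end Pool.Agent.Helper23.ED

end

section

open scoped InnerProductSpace Topology ENNReal BoundedContinuousFunction

open ContinuousLinearMap Filter MeasureTheory

namespace Pool.Agent.Helper23.ED

open Pool.Agent.Helper23 Pool.Agent.Helper23.RBF

universe u

open TopologicalSpace

variable {H : Type*} [NormedAddCommGroup H] [InnerProductSpace ℂ H] [CompleteSpace H]

variable {N : VonNeumannAlgebra H} {ξ : H} {W : ℝ → H →L[ℂ] H}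

/-- weakly measurable fields of contractions are decomposable -/
lemma slB_dec [SeparableSpace H] {x : ℝ → H →L[ℂ] H} (hb : ∀ s, ‖x s‖ ≤ 1)
    (hm : ∀ w v, Measurable fun s => ⟪w, x s v⟫_ℂ) : Dec x := by
  obtain ⟨ι, b, -⟩ := exists_hilbertBasis ℂ H
  have hι : Countable ι := slB_countable b
  refine ⟨fun F hF => ?_, 1, zero_le_one, hb⟩
  obtain ⟨F', hF', hFF'⟩ := hF
  have key : StronglyMeasurable fun s => x s (F' s) := by
    have h1 : ∀ w, Measurable fun s => ⟪w, x s (F' s)⟫_ℂ := by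
      intro w
      have h2 : ∀ s, Tendsto (fun T : Finset ι => ∑ i ∈ T, ⟪w, x s (b i)⟫_ℂ * ⟪b i, F' s⟫_ℂ)
          atTop (𝓝 ⟪w, x s (F' s)⟫_ℂ) := by
        intro s
        have h3 := b.hasSum_inner_mul_inner ((ContinuousLinearMap.adjoint (x s)) w) (F' s)
        rw [ContinuousLinearMap.adjoint_inner_left] at h3
        refine Tendsto.congr (fun T => ?_) h3
        refine Finset.sum_congr rfl fun i _ => ?_
        change ⟪(ContinuousLinearMap.adjoint (x s)) w, b i⟫_ℂ * ⟪b i, F' s⟫_ℂ = _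
        rw [ContinuousLinearMap.adjoint_inner_left]
      refine measurable_of_tendsto_metrizable' atTop (fun T => ?_) (tendsto_pi_nhds.2 h2)
      refine Finset.measurable_fun_sum _ fun i _ => ?_
      refine (hm w (b i)).mul ?_
      have h4 : StronglyMeasurable fun s => ⟪b i, F' s⟫_ℂ :=
        (continuous_const.inner continuous_id : Continuous fun z : H => ⟪b i, z⟫_ℂ).comp_stronglyMeasurable hF'
      exact h4.measurable
    have h5 : ∀ s, Tendsto (fun T : Finset ι => ∑ i ∈ T, ⟪b i, x s (F' s)⟫_ℂ • (b i : H))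
        atTop (𝓝 (x s (F' s))) := by
      intro s
      have h3 := b.hasSum_repr (x s (F' s))
      refine Tendsto.congr (fun T => ?_) h3
      refine Finset.sum_congr rfl fun i _ => ?_
      change b.repr (x s (F' s)) i • b i = _
      rw [b.repr_apply_apply]
    refine stronglyMeasurable_of_tendsto atTop (fun T => ?_) (tendsto_pi_nhds.2 h5)
    refine Finset.stronglyMeasurable_fun_sum _ fun i _ => ?_
    exact (h1 (b i)).stronglyMeasurable.smul_const _
  refine ⟨_, key, ?_⟩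
  filter_upwards [hFF'] with s hs
  rw [hs]

end Pool.Agent.Helper23.ED

end

section

open scoped InnerProductSpace Topology ENNReal BoundedContinuousFunction

open ContinuousLinearMap Filter MeasureTheory

namespace Pool.Agent.Helper23.ED

open Pool.Agent.Helper23 Pool.Agent.Helper23.RBF

universe u

open TopologicalSpace

variable {H : Type*} [NormedAddCommGroup H] [InnerProductSpace ℂ H] [CompleteSpace H]

variable {N : VonNeumannAlgebra H} {ξ : H} {W : ℝ → H →L[ℂ] H}

namespace SlC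

theorem bm_ems (a : ℝ) : BM (ems a) := by
  refine ⟨?_, 1, zero_le_one, fun s => ?_⟩
  · have : Continuous (ems a) := by
      unfold ems ph
      fun_prop
    exact this.measurable
  · unfold ems ph
    rw [Complex.norm_exp_ofReal_mul_I]

theorem dec_star {T : ℝ → H →L[ℂ] H} (h : Dec T) (h' : Dec (fun s => star (T s))) :
    star (dec T) = dec (fun s => star (T s)) := by
  symm
  rw [ContinuousLinearMap.star_eq_adjoint (dec T), ContinuousLinearMap.eq_adjoint_iff]
  intro x y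
  refine dec_adj h h' (fun s x y => ?_) x y
  rw [ContinuousLinearMap.star_eq_adjoint, ContinuousLinearMap.adjoint_inner_left]

/-- the nearest intertwiners to a dense sequence approximate every intertwiner -/
theorem approx (hd : Dense (orb N.commutant ξ : Set H)) {η : ℕ → H} (hη : DenseRange η)
    {x : ℕ → H →L[ℂ] H} (hxN : ∀ j, x j ∈ N) (hx1 : ∀ j, ‖x j‖ ≤ 1) {u : H →L[ℂ] H} (huN : u ∈ N)
    (hu1 : ‖u‖ ≤ 1) (hnear : ∀ j, ‖x j ξ - u ξ‖ ≤ ‖η j - u ξ‖) (v : H) {ε : ℝ} (hε : 0 < ε) :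
    ∃ j, ‖x j v - u v‖ < ε := by
  obtain ⟨w, hw, hwv⟩ := Metric.dense_iff.1 hd v (ε / 4) (by positivity)
  obtain ⟨b, hb, rfl⟩ := hwv
  rw [Metric.mem_ball, dist_eq_norm] at hw
  have hpos : 0 < ε / (2 * (‖b‖ + 1)) := by positivity
  obtain ⟨j, hj⟩ := hη.exists_dist_lt (u ξ) hpos
  rw [dist_comm, dist_eq_norm] at hj
  refine ⟨j, ?_⟩
  have e1 : x j v - u v = b (x j ξ - u ξ) - x j (b ξ - v) + u (b ξ - v) := by
    rw [map_sub, map_sub, map_sub, commute_apply (hxN j) hb, commute_apply huN hb]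
    abel
  have h1 : ‖b (x j ξ - u ξ)‖ ≤ ‖b‖ * (ε / (2 * (‖b‖ + 1))) :=
    (b.le_opNorm _).trans (mul_le_mul_of_nonneg_left ((hnear j).trans hj.le) (norm_nonneg _))
  have h2 : ‖b‖ * (ε / (2 * (‖b‖ + 1))) ≤ ε / 2 := by
    have h3 : ‖b‖ * (ε / (2 * (‖b‖ + 1))) = (‖b‖ / (‖b‖ + 1)) * (ε / 2) := by
      field_simp
    rw [h3]
    have h4 : ‖b‖ / (‖b‖ + 1) ≤ 1 := by
      rw [div_le_one (by positivity)]
      linarith
    calc (‖b‖ / (‖b‖ + 1)) * (ε / 2) ≤ 1 * (ε / 2) :=
          mul_le_mul_of_nonneg_right h4 (by positivity)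
      _ = ε / 2 := one_mul _
  have h5 : ‖x j (b ξ - v)‖ ≤ ‖b ξ - v‖ := by
    simpa using (x j).le_of_opNorm_le (hx1 j) (b ξ - v)
  have h6 : ‖u (b ξ - v)‖ ≤ ‖b ξ - v‖ := by
    simpa using u.le_of_opNorm_le hu1 (b ξ - v)
  rw [e1]
  calc ‖b (x j ξ - u ξ) - x j (b ξ - v) + u (b ξ - v)‖
      ≤ ‖b (x j ξ - u ξ)‖ + ‖x j (b ξ - v)‖ + ‖u (b ξ - v)‖ :=
        (norm_add_le _ _).trans (add_le_add_left (norm_sub_le _ _) _)
    _ < ε := by linarith

end SlC

end Pool.Agent.Helper23.ED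

end

section

open scoped InnerProductSpace Topology ENNReal BoundedContinuousFunction

open ContinuousLinearMap Filter MeasureTheory

namespace Pool.Agent.Helper23.ED

open Pool.Agent.Helper23 Pool.Agent.Helper23.RBF

universe u

open TopologicalSpace

variable {H : Type*} [NormedAddCommGroup H] [InnerProductSpace ℂ H] [CompleteSpace H]

variable {N : VonNeumannAlgebra H} {ξ : H} {W : ℝ → H →L[ℂ] H}

namespace WuA

section sums

variable {s : ℕ → H →L[ℂ] H} {Z : ℕ → L2R H →L[ℂ] L2R H}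

noncomputable def term (s : ℕ → H →L[ℂ] H) (Z : ℕ → L2R H →L[ℂ] L2R H) (j : ℕ) :
    L2R H →L[ℂ] L2R H :=
  (((1 / 2 : ℝ) ^ j : ℝ) : ℂ) • (lift (s j) * Z j)

/-- the weighted sum -/
noncomputable def B (s : ℕ → H →L[ℂ] H) (Z : ℕ → L2R H →L[ℂ] L2R H) : L2R H →L[ℂ] L2R H :=
  ∑' j, term s Z j

end sums

end WuA

end Pool.Agent.Helper23.ED

end

section

open scoped InnerProductSpace Topology ENNReal BoundedContinuousFunction

open ContinuousLinearMap Filter MeasureTheory

namespace Pool.Agent.Helper23.ED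

open Pool.Agent.Helper23 Pool.Agent.Helper23.RBF

universe u

open TopologicalSpace

variable {H : Type*} [NormedAddCommGroup H] [InnerProductSpace ℂ H] [CompleteSpace H]

variable {N : VonNeumannAlgebra H} {ξ : H} {V c : ℝ → H →L[ℂ] H} {ψ : (H →L[ℂ] H) → ℝ≥0∞}

open WuB

namespace WuB

lemma ems_bm (a : ℝ) : BM (ems a) := by
  refine ⟨?_, 1, zero_le_one, fun s => ?_⟩
  · unfold ems ph
    fun_prop
  · unfold ems ph
    rw [Complex.norm_exp_ofReal_mul_I]

end WuB

end Pool.Agent.Helper23.ED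

end
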