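import Pool.Agent.Helper23.FA.Ns
import Pool.Agent.Helper23.FA.L00_00
import Pool.Agent.Helper23.FA.L00_01
import Pool.Agent.Helper23.FA.L00_02
import Pool.Agent.Helper23.FA.L00_03
import Pool.Agent.Helper23.FA.L00_04
import Pool.Agent.Helper23.FA.L00_05

/-!
Parts of Helper23.Amp1, Helper23.Flow, Helper23.Pol2, Helper23.Pi, Helper68.G2b3, Helper68.U17, Helper53.U.Eig, Helper88.CS.Polar, Helper23.ED.WuA
-/

section

open scoped InnerProductSpace Topology ENNReal

open ContinuousLinearMap Filter MeasureTheory

set_option linter.unusedSectionVars false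

set_option linter.unusedVariables false

namespace Pool.Agent.Helper23

variable {G : Type*} [NormedAddCommGroup G] [InnerProductSpace ℂ G] [CompleteSpace G]

variable {G' : Type*} [NormedAddCommGroup G'] [InnerProductSpace ℂ G'] [CompleteSpace G']

variable {G'' : Type*} [NormedAddCommGroup G''] [InnerProductSpace ℂ G''] [CompleteSpace G'']

lemma BM.shift {m : ℝ → ℂ} (h : BM m) (t : ℝ) : BM (fun s => m (s - t)) := by
  obtain ⟨hm, C, hC0, hC⟩ := h
  exact ⟨hm.comp (measurable_id.sub_const t), C, hC0, fun s => hC _⟩

end Pool.Agent.Helper23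

end

section

open scoped InnerProductSpace Topology

open ContinuousLinearMap Filter

namespace Pool.Agent.Helper23

variable {H : Type*} [NormedAddCommGroup H] [InnerProductSpace ℂ H] [CompleteSpace H]

variable {M N : VonNeumannAlgebra H} {ξ : H} {E : (H →L[ℂ] H) → (H →L[ℂ] H)}

namespace AP

variable (S : AP M N E ξ)

include S

lemma denseQ : Dense (orb (Qalg M N ξ).commutant ξ : Set H) := by
  refine S.dense_comm.mono ?_
  rintro _ ⟨a, ha, rfl⟩
  refine ⟨a, ?_, rfl⟩
  rw [mem_comm_iff] at ha ⊢
  exact fun g hg => ha g (mem_Qalg.1 hg).1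

end AP

end Pool.Agent.Helper23

end

section

open scoped InnerProductSpace Topology ENNReal

open ContinuousLinearMap Filter MeasureTheory Polynomial

set_option linter.unusedSectionVars false

set_option linter.unusedVariables false

namespace Pool.Agent.Helper23

variable {H : Type*} [NormedAddCommGroup H] [InnerProductSpace ℂ H] [CompleteSpace H]

variable {M N : VonNeumannAlgebra H} {ξ : H} {E : (H →L[ℂ] H) → (H →L[ℂ] H)}

lemma inner_Pn (n : ℕ) (f g : L2R ℂ) : ⟪Pn n f, g⟫_ℂ = ⟪f, Pn n g⟫_ℂ := by
  have := mulOp_adj (ind_bm (measurableSet_Ico (a := -(n : ℝ)) (b := n))) f g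
  rwa [ind_conj] at this

end Pool.Agent.Helper23

end

section

open scoped InnerProductSpace Topology ENNReal

open ContinuousLinearMap Filter MeasureTheory

set_option linter.unusedSectionVars false

set_option linter.unusedVariables false

namespace Pool.Agent.Helper23

variable {H : Type*} [NormedAddCommGroup H] [InnerProductSpace ℂ H] [CompleteSpace H]

variable {M N : VonNeumannAlgebra H} {ξ : H} {E : (H →L[ℂ] H) → (H →L[ℂ] H)}

lemma ten_ae_mem {V : Submodule ℂ H} (f : L2R ℂ) {η : H} (hη : η ∈ V) :
    ∀ᵐ s, ten f η s ∈ V := by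
  filter_upwards [ten_coe f η] with s hs
  rw [hs]
  exact V.smul_mem _ hη

end Pool.Agent.Helper23

end

section

open scoped InnerProductSpace Topology BoundedContinuousFunction FourierTransform ENNReal

open ContinuousLinearMap Filter MeasureTheory

set_option linter.unusedSectionVars false

namespace Pool.Agent.Helper23

variable {H : Type*} [NormedAddCommGroup H] [InnerProductSpace ℂ H] [CompleteSpace H]

lemma he_of_notMem {m : ℕ} {s : ℝ} (h : s ∉ Set.Ico (-(m : ℝ)) m) :
    he m s = 0 := Set.indicator_of_notMem h _

end Pool.Agent.Helper23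

end

section

open scoped InnerProductSpace Topology BoundedContinuousFunction

open ContinuousLinearMap Filter MeasureTheory

set_option linter.unusedSectionVars false

namespace Pool.Agent.Helper23

universe u

variable {H : Type u} [NormedAddCommGroup H] [InnerProductSpace ℂ H] [CompleteSpace H]

variable {M N : VonNeumannAlgebra H} {ξ : H} {E : (H →L[ℂ] H) → (H →L[ℂ] H)}

lemma chr_eq_expB (l t : ℝ) : chr (Real.log l) t = expB (2 * Real.pi * t) (-Real.log l) := by
  rw [chr, expB_apply]
  congr 1
  push_cast
  ring

end Pool.Agent.Helper23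

end

section

open scoped InnerProductSpace Topology BoundedContinuousFunction

open ContinuousLinearMap Filter

namespace Pool.Agent.Helper23

universe u

variable {H : Type u} [NormedAddCommGroup H] [InnerProductSpace ℂ H] [CompleteSpace H]

variable {K : Type u} [NormedAddCommGroup K] [InnerProductSpace ℂ K] [CompleteSpace K]

variable {M N : VonNeumannAlgebra H} {ξ : H} {E : (H →L[ℂ] H) → (H →L[ℂ] H)}

theorem AppS_star {x : ℕ → H →L[ℂ] H} (hx : x ∈ AppS M ξ) :
    (fun n => star (x n)) ∈ AppS M ξ := by
  refine ⟨hx.2, ?_⟩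
  simpa only [star_star] using hx.1

theorem AppS_add {x y : ℕ → H →L[ℂ] H} (hx : x ∈ AppS M ξ) (hy : y ∈ AppS M ξ) :
    (fun n => x n + y n) ∈ AppS M ξ := by
  refine ⟨AppR_add hx.1 hy.1, ?_⟩
  have := AppR_add hx.2 hy.2
  simpa only [star_add] using this

theorem LamSeq.lamU {l : ℝ} {a : ℕ → H →L[ℂ] H} (h : LamSeq N ξ l a) : LamU N ξ l a := by
  refine ⟨h.1, h.2.1, fun ε hε => ?_⟩
  have h1 := h.2.2 ε hε
  rw [← Nat.cofinite_eq_atTop] at h1
  exact Filter.hyperfilter_le_cofinite h1

end Pool.Agent.Helper23

end

section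

open scoped InnerProductSpace Topology BoundedContinuousFunction

open ContinuousLinearMap Filter MeasureTheory

namespace Pool.Agent.Helper88.CS

open Pool.Agent.Helper23

set_option linter.unusedSectionVars false

set_option linter.unusedVariables false

variable {H : Type*} [NormedAddCommGroup H] [InnerProductSpace ℂ H] [CompleteSpace H]

variable {A : VonNeumannAlgebra H}

open PolarAux

namespace PolarAux

theorem eq_mul_rp {p s t : H →L[ℂ] H} (h : s * p = t * p) : s * rp p = t * rp p := by
  have h1 : (s - t) * p = 0 := by rw [sub_mul, h, sub_self]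
  have h2 := zero_mul_rp h1
  rwa [sub_mul, sub_eq_zero] at h2

end PolarAux

end Pool.Agent.Helper88.CS

end

section

open scoped InnerProductSpace Topology ENNReal BoundedContinuousFunction

open ContinuousLinearMap Filter MeasureTheory

namespace Pool.Agent.Helper23.ED

open Pool.Agent.Helper23 Pool.Agent.Helper23.RBF

universe u

open TopologicalSpace

variable {H : Type*} [NormedAddCommGroup H] [InnerProductSpace ℂ H] [CompleteSpace H]

variable {N : VonNeumannAlgebra H} {ξ : H} {W : ℝ → H →L[ℂ] H}

namespace WuA

lemma ems_bm (a : ℝ) : BM (ems a) := by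
  refine ⟨?_, 1, zero_le_one, fun s => ?_⟩
  · unfold ems ph
    fun_prop
  · unfold ems ph
    rw [Complex.norm_exp_ofReal_mul_I]

end WuA

end Pool.Agent.Helper23.ED

end
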