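import Pool.Agent.Helper23.FA.Ns
import Pool.Agent.Helper23.FA.L00_12
import Pool.Agent.Helper23.FA.L00_16
import Pool.Agent.Helper23.FA.L01_02

/-!
Parts of Helper88.CS.Real
-/

section

open scoped InnerProductSpace Topology

open ContinuousLinearMap Filter

namespace Pool.Agent.Helper88.CS

open Pool.Agent.Helper23

universe u

variable {H : Type u} [NormedAddCommGroup H] [InnerProductSpace ℂ H] [CompleteSpace H]

open Pool.Agent.Helper78.BC Pool.Agent.Helper78.BC.Transport RealAux in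
theorem exists_real (N : VonNeumannAlgebra H) (hN : IsTypeIIIOne N) {m : ℕ} (hm : 0 < m)
    (F : HS H m) (hF : ‖F‖ = 1) (hsep : ∀ x ∈ N, (∀ i, x (F i) = 0) → x = 0) :
    ∃ (K : Type u) (_ : NormedAddCommGroup K) (_ : InnerProductSpace ℂ K) (_ : CompleteSpace K)
      (B : VonNeumannAlgebra K) (κ : K) (π : (H →L[ℂ] H) → (K →L[ℂ] K)),
      III1V B ∧ ‖κ‖ = 1 ∧ Dense (orb B κ : Set K) ∧ (∀ b ∈ B, b κ = 0 → b = 0) ∧
      IsoPi N B π ∧ ∀ x ∈ N, ⟪κ, π x κ⟫_ℂ = ∑ i, ⟪F i, x (F i)⟫_ℂ := by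
  set A : VonNeumannAlgebra (HS H m) := amp m N with hA
  have hdA : ∀ x ∈ N, diag m x ∈ A := fun x hx => (mem_amp hm N).2 ⟨x, hx, rfl⟩
  have hsepA : ∀ a ∈ A, a F = 0 → a = 0 := by
    intro a ha h
    obtain ⟨x, hx, rfl⟩ := (mem_amp hm N).1 ha
    have h1 : x = 0 := hsep x hx fun i => by
      rw [← diag_apply, h]
      rfl
    rw [h1, diag_zero]
  set V : Submodule ℂ (HS H m) := (orb A F).topologicalClosure with hV
  have hFV : F ∈ V := Submodule.le_topologicalClosure _ ⟨1, one_mem _, rfl⟩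
  have hadj : ∀ v : HS H m, V.subtypeL (adjoint V.subtypeL v) = V.starProjection v := by
    intro v
    rw [Submodule.adjoint_subtypeL]
    rfl
  have S : Sub A F V.subtypeL (⟨F, hFV⟩ : V) := by
    refine ⟨fun k => ?_, fun x hx k => ?_, rfl, fun k ε hε => ?_⟩
    · refine Subtype.ext ?_
      change V.subtypeL (adjoint V.subtypeL (V.subtypeL k)) = k.1
      rw [hadj]
      exact Submodule.starProjection_eq_self_iff.2 k.2
    · rw [hadj]
      have h1 := mem_comm_iff.1 (proj_orb_mem A F) x hx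
      have h2 := congrArg (fun T : HS H m →L[ℂ] HS H m => T (V.subtypeL k)) h1
      have h3 : V.starProjection (V.subtypeL k) = V.subtypeL k :=
        Submodule.starProjection_eq_self_iff.2 k.2
      change x (V.starProjection (V.subtypeL k)) = V.starProjection (x (V.subtypeL k)) at h2
      rw [← h2, h3]
    · have h1 : (V.subtypeL k : HS H m) ∈ closure (orb A F : Set (HS H m)) := k.2
      obtain ⟨_, ⟨a, ha, rfl⟩, h2⟩ := Metric.mem_closure_iff.1 h1 ε hε
      refine ⟨a, ha, ?_⟩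
      rw [dist_eq_norm] at h2
      rw [norm_sub_rev]
      exact h2
  set i : V →L[ℂ] HS H m := V.subtypeL with hi
  set κ : V := ⟨F, hFV⟩ with hκ
  set π : (H →L[ℂ] H) → (V →L[ℂ] V) := fun x => r i (diag m x) with hπ
  have hmemB : ∀ T : V →L[ℂ] V, T ∈ B A i → ∃ x ∈ N, ‖x‖ ≤ ‖T‖ ∧ π x = T := by
    intro T hT
    obtain ⟨a, ha, ha1, ha2⟩ := exists_lift S hsepA hT
    obtain ⟨x, hx, rfl⟩ := (mem_amp hm N).1 ha
    exact ⟨x, hx, (norm_le_diag hm x).trans ha1, ha2⟩
  have hπmem : ∀ x ∈ N, π x ∈ B A i := fun x hx => r_mem S hsepA (hdA x hx)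
  have hπinj : ∀ x ∈ N, ∀ y ∈ N, π x = π y → x = y := fun x hx y hy h =>
    diag_inj hm (S.r_inj hsepA (hdA x hx) (hdA y hy) h)
  have hπmul : ∀ x ∈ N, ∀ y ∈ N, π (x * y) = π x * π y := fun x hx y hy => by
    change r i (diag m (x * y)) = r i (diag m x) * r i (diag m y)
    rw [S.r_mul (hdA x hx), diag_mul]
  have hπstar : ∀ x : H →L[ℂ] H, π (star x) = star (π x) := fun x => by
    change r i (diag m (star x)) = star (r i (diag m x))
    rw [Sub.r_star, diag_star]
  have hπone : π 1 = 1 := by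
    change r i (diag m 1) = 1
    rw [diag_one, S.r_one]
  have hπsmul : ∀ (c : ℂ) (x : H →L[ℂ] H), π (c • x) = c • π x := fun c x => by
    change r i (diag m (c • x)) = c • r i (diag m x)
    rw [diag_smul, r_smul]
  have hπzero : π 0 = 0 := by
    have h := hπsmul 0 0
    rw [zero_smul ℂ (0 : H →L[ℂ] H)] at h
    exact h.trans (ContinuousLinearMap.ext fun G => by
      rw [smul_apply, zero_smul, zero_apply])
  have hst : ∀ (ζ : V) (y : H →L[ℂ] H), st (comp (i ζ)) y = ⟪ζ, π y ζ⟫_ℂ := fun ζ y => by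
    rw [st_comp]
    exact (inner_r S ζ ζ).symm
  refine ⟨V, inferInstance, inferInstance, inferInstance, B A i, κ, π, ?_, hF,
    dense_B S hsepA, sep_B S hsepA, ?_, ?_⟩
  · refine ⟨⟨?_, ?_⟩, ?_⟩
    · intro z hz hz'
      obtain ⟨x, hx, -, rfl⟩ := hmemB z hz
      have h1 : x ∈ N.commutant := mem_comm_iff.2 fun y hy => by
        have h2 := mem_comm_iff.1 hz' (π y) (hπmem y hy)
        rw [← hπmul y hy x hx, ← hπmul x hx y hy] at h2
        exact hπinj _ (mul_mem hy hx) _ (mul_mem hx hy) h2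
      obtain ⟨c, rfl⟩ := hN.factor x hx h1
      exact ⟨c, by rw [hπsmul, hπone]⟩
    · rintro e ⟨he, hes, hee⟩ he0
      obtain ⟨x, hx, -, rfl⟩ := hmemB e he
      have h1 : star x = x := hπinj _ (star_mem hx) _ hx (by rw [hπstar, hes])
      have h2 : x * x = x := hπinj _ (mul_mem hx hx) _ hx (by rw [hπmul x hx x hx, hee])
      have h3 : x ≠ 0 := by
        rintro rfl
        exact he0 hπzero
      obtain ⟨v, hv, hv1, hv2, hv3⟩ := hN.infinite x hx h1 h2 h3
      refine ⟨π v, hπmem v hv, ?_, ?_, fun h4 => hv3 ?_⟩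
      · rw [← hπstar, ← hπmul _ (star_mem hv) v hv, hv1]
      · rw [← hπmul x hx v hv, hv2]
      · rw [← hπstar, ← hπmul v hv _ (star_mem hv)] at h4
        exact hπinj _ (mul_mem hv (star_mem hv)) _ hx h4
    · intro ζ hζ hζsep l hl ε hε
      have hnorm : ‖i ζ‖ = 1 := by rw [S.i_norm, hζ]
      obtain ⟨a, ha, ha1, ha2⟩ := hN.spectrum (comp (i ζ)) (summable_comp _)
        (by rw [sum_comp, hnorm, one_pow]) (fun a ha h => by
          have h1 : diag m a (i ζ) = 0 := by
            ext j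
            rw [diag_apply]
            have h2 := h j
            rw [comp_fin] at h2
            rw [h2]
            rfl
          have h2 : π a ζ = 0 := by
            change adjoint i (diag m a (i ζ)) = 0
            rw [h1, map_zero]
          have h3 := hζsep _ (hπmem a ha) h2
          rw [← hπzero] at h3
          exact hπinj a ha 0 (zero_mem _) h3) l hl ε hε
      refine ⟨π a, hπmem a ha, ?_, fun x hx => ?_⟩
      · rw [hst, hπmul _ (star_mem ha) a ha, hπstar] at ha1
        change ⟪ζ, (star (π a)) (π a ζ)⟫_ℂ = 1 at ha1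
        rw [ContinuousLinearMap.star_eq_adjoint, adjoint_inner_right,
          inner_self_eq_norm_sq_to_K] at ha1
        have h2 : ((‖π a ζ‖ ^ 2 : ℝ) : ℂ) = ((1 : ℝ) : ℂ) := by
          push_cast
          exact ha1
        have h3 : ‖π a ζ‖ ^ 2 = 1 ^ 2 := by
          rw [one_pow]
          exact Complex.ofReal_inj.1 h2
        exact (sq_eq_sq₀ (norm_nonneg _) zero_le_one).1 h3
      · obtain ⟨y, hy, -, rfl⟩ := hmemB x hx
        have h3 := ha2 y hy
        rw [hst, hst, hst, hπmul a ha y hy, hπmul y hy a ha, hπmul y hy _ (star_mem hy),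
          hπstar] at h3
        have h4 : ⟪ζ, (π a * π y) ζ⟫_ℂ = ⟪(star (π a)) ζ, π y ζ⟫_ℂ := by
          rw [ContinuousLinearMap.star_eq_adjoint, adjoint_inner_left]
          rfl
        have h5 : ⟪ζ, (π y * π a) ζ⟫_ℂ = ⟪(star (π y)) ζ, π a ζ⟫_ℂ := by
          rw [ContinuousLinearMap.star_eq_adjoint, adjoint_inner_left]
          rfl
        have h6 : ⟪ζ, (π y * star (π y)) ζ⟫_ℂ = ((‖(star (π y)) ζ‖ ^ 2 : ℝ) : ℂ) := by
          have h7 : ⟪ζ, (π y * star (π y)) ζ⟫_ℂ = ⟪(star (π y)) ζ, (star (π y)) ζ⟫_ℂ := by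
            rw [ContinuousLinearMap.star_eq_adjoint, adjoint_inner_left]
            rfl
          rw [h7, inner_self_eq_norm_sq_to_K]
          push_cast
          rfl
        rw [h4, h5, h6, Complex.ofReal_re, Real.sqrt_sq (norm_nonneg _)] at h3
        exact h3
  · refine ⟨hπmem, hmemB, fun x hx h => ?_, fun x _ y _ => ?_, hπmul, fun x _ => hπstar x, hπone,
      fun c x _ => hπsmul c x, fun x _ => ?_⟩
    · rw [← hπzero] at h
      exact hπinj x hx 0 (zero_mem _) h
    · change r i (diag m (x + y)) = r i (diag m x) + r i (diag m y)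
      rw [diag_add, r_add]
    · exact (S.r_norm _).trans (diag_norm_le m x)
  · intro x _
    rw [← inner_diag]
    exact inner_r S κ κ

end Pool.Agent.Helper88.CS

end
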