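import Pool.Agent.Helper23.FA.Ns
import Pool.Agent.Helper23.FA.L00_12
import Pool.Agent.Helper23.FA.L01_00
import Pool.Agent.Helper23.FA.L01_01
import Pool.Agent.Helper23.FA.L01_03
import Pool.Agent.Helper23.FA.L01_04
import Pool.Agent.Helper23.FA.L01_05
import Pool.Agent.Helper23.FA.L01_07
import Pool.Agent.Helper23.FA.L01_08
import Pool.Agent.Helper23.FA.L01_11
import Pool.Agent.Helper23.FA.L01_13
import Pool.Agent.Helper23.FA.L01_17
import Pool.Agent.Helper23.FA.L01_18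
import Pool.Agent.Helper23.FA.L01_19

/-!
Parts of Helper23.Amp1, Helper23.Rk, Helper70.TTE, Helper68.G2b2, Helper68.G2b3, Helper68.G2b5, Helper72.UPow.Near, Helper68.U17, Helper23.VDefs, Helper23.UBF, Helper23.ED.RkA, Helper23.ED.GgB, Helper23.ED.GgC, Helper23.ED.GgD
-/

section

open scoped InnerProductSpace Topology ENNReal

open ContinuousLinearMap Filter MeasureTheory

set_option linter.unusedSectionVars false

set_option linter.unusedVariables false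

namespace Pool.Agent.Helper23

variable {G : Type*} [NormedAddCommGroup G] [InnerProductSpace ℂ G] [CompleteSpace G]

variable {G' : Type*} [NormedAddCommGroup G'] [InnerProductSpace ℂ G'] [CompleteSpace G']

variable {G'' : Type*} [NormedAddCommGroup G''] [InnerProductSpace ℂ G''] [CompleteSpace G'']

omit [CompleteSpace G] in
lemma tr_tr (t u : ℝ) (F : L2R G) : tr G t (tr G u F) = tr G (t + u) F := by
  ext1
  filter_upwards [tr_coe t (tr G u F), ae_tr t (tr_coe u F), tr_coe (t + u) F] with s h1 h2 h3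
  rw [h1, h2, h3, sub_sub]

omit [CompleteSpace G] in
lemma tr_zero : tr G 0 = 1 := by
  ext F : 1
  ext1
  filter_upwards [tr_coe 0 F] with s hs
  rw [hs, sub_zero]
  rfl

omit [CompleteSpace G] in
lemma tr_neg_tr (t : ℝ) (F : L2R G) : tr G (-t) (tr G t F) = F := by
  rw [tr_tr, neg_add_cancel, tr_zero]; rfl

omit [CompleteSpace G] in
lemma tr_tr_neg (t : ℝ) (F : L2R G) : tr G t (tr G (-t) F) = F := by
  rw [tr_tr, add_neg_cancel, tr_zero]; rfl

lemma tr_adj (t : ℝ) (F F' : L2R G) : ⟪tr G t F, F'⟫_ℂ = ⟪F, tr G (-t) F'⟫_ℂ := by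
  have h : ⟪tr G t F, tr G t (tr G (-t) F')⟫_ℂ = ⟪F, tr G (-t) F'⟫_ℂ :=
    (Lp.compMeasurePreservingₗᵢ ℂ (fun s : ℝ => s - t) (mp_sub t) :
      L2R G →ₗᵢ[ℂ] L2R G).inner_map_map F (tr G (-t) F')
  rwa [tr_tr_neg] at h

end Pool.Agent.Helper23

end

section

open scoped InnerProductSpace Topology ENNReal

open ContinuousLinearMap Filter MeasureTheory

set_option linter.unusedSectionVars false

set_option linter.unusedVariables false

namespace Pool.Agent.Helper23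

variable {H : Type*} [NormedAddCommGroup H] [InnerProductSpace ℂ H] [CompleteSpace H]

variable {M N : VonNeumannAlgebra H} {ξ : H} {E : (H →L[ℂ] H) → (H →L[ℂ] H)}

lemma sl_tr (f : L2R ℂ) (t : ℝ) (F : L2R H) : sl f (tr H t F) = sl (tr ℂ (-t) f) F := by
  refine ext_inner_left ℂ fun ζ => ?_
  rw [inner_sl, inner_sl, ← tr_ten, tr_adj, neg_neg]

end Pool.Agent.Helper23

end

section

open scoped InnerProductSpace Topology BoundedContinuousFunction FourierTransform SchwartzMap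

open ContinuousLinearMap Filter MeasureTheory

set_option linter.unusedSectionVars false

namespace Pool.Agent.Helper23

variable {G : Type*} [NormedAddCommGroup G] [InnerProductSpace ℂ G] [CompleteSpace G]

variable {G' : Type*} [NormedAddCommGroup G'] [InnerProductSpace ℂ G'] [CompleteSpace G']

variable {H : Type*} [NormedAddCommGroup H] [InnerProductSpace ℂ H] [CompleteSpace H]

theorem fourier_ten (f : L2R ℂ) (η : H) : 𝓕 (ten f η) = ten (𝓕 f) η :=
  fourier_lift' (toSpanSingleton ℂ η) f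

end Pool.Agent.Helper23

end

section

open scoped InnerProductSpace Topology BoundedContinuousFunction FourierTransform ENNReal

open ContinuousLinearMap Filter MeasureTheory

set_option linter.unusedSectionVars false

namespace Pool.Agent.Helper23

variable {H : Type*} [NormedAddCommGroup H] [InnerProductSpace ℂ H] [CompleteSpace H]

/-- the coefficient functions -/
noncomputable def kap (f g : L2R ℂ) : ℝ →ᵇ ℂ :=
  BoundedContinuousFunction.ofNormedAddCommGroup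
    (fun ρ : ℝ => ⟪f, tr ℂ (-ρ) g⟫_ℂ)
    (continuous_const.inner ((tr_continuous g).comp continuous_neg)) (‖f‖ * ‖g‖) (by
      intro ρ
      refine (norm_inner_le_norm _ _).trans ?_
      rw [tr_norm])

lemma kap_apply (f g : L2R ℂ) (ρ : ℝ) : kap f g ρ = ⟪f, tr ℂ (-ρ) g⟫_ℂ := rfl

lemma Fo_ten (f : L2R ℂ) (η : H) : Fo H (ten f η) = ten (Fo ℂ f) η := fourier_ten f η

lemma inner_fco (T : ℝ → H →L[ℂ] H) (F F' : L2R H) :
    ⟪F, fco T F'⟫_ℂ = ⟪Fo H F, dec T (Fo H F')⟫_ℂ := by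
  rw [← Fo_fco, LinearIsometryEquiv.inner_map_map]

namespace Modular

variable {A : VonNeumannAlgebra H} {ξ : H} {R : H →L[ℂ] H} {D : H →L[ℝ] H}
  {Ψ : (ℝ →ᵇ ℂ) →⋆ₐ[ℂ] (H →L[ℂ] H)} (h : Modular A ξ R D Ψ)

include h

/-- the key formula for the matrix coefficients of `W` -/
theorem key (f g : L2R ℂ) (v w : H) :
    ⟪ten f v, fco (fun t : ℝ => Ψ (expB (2 * Real.pi * t))) (ten g w)⟫_ℂ =
      ⟪v, Ψ (kap f g) w⟫_ℂ := by
  rw [inner_fco, Fo_ten, Fo_ten]
  have hk : Integrable (fun t : ℝ => ⟪Fo ℂ f t, Fo ℂ g t⟫_ℂ) := L2.integrable_inner _ _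
  rw [← h.integral_psi hk (K := kap f g) ?_ v w]
  · rw [L2.inner_def]
    refine integral_congr_ae ?_
    filter_upwards [ten_coe (Fo ℂ f) v, dec_coe h.U_dec (ten (Fo ℂ g) w),
      ten_coe (Fo ℂ g) w] with t h1 h2 h3
    rw [h1, h2, h3, map_smul, inner_smul_left, inner_smul_right, RCLike.inner_apply]
    ring
  · intro ρ
    rw [kap_apply, ← (Fo ℂ).inner_map_map, Fo_tr, L2.inner_def]
    refine integral_congr_ae ?_
    filter_upwards [mulOp_coe (chr_bm (-ρ)) (Fo ℂ g)] with t h1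
    rw [h1, inner_smul_right]
    rw [mul_comm]
    congr 1
    rw [chr, expB_apply]
    congr 1
    push_cast
    ring

end Modular

end Pool.Agent.Helper23

end

section

open scoped InnerProductSpace Topology BoundedContinuousFunction FourierTransform ENNReal

open ContinuousLinearMap Filter MeasureTheory

set_option linter.unusedSectionVars false

namespace Pool.Agent.Helper23

variable {H : Type*} [NormedAddCommGroup H] [InnerProductSpace ℂ H] [CompleteSpace H]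

lemma kap_he {m : ℕ} {f f' : L2R ℂ} (hf : Pn m f = f) (hf' : Pn m f' = f') (ρ : ℝ) :
    kap f' (mulOp ℂ (he m) f) ρ =
      ((Real.exp ρ : ℝ) : ℂ) * (starRingEnd ℂ) (kap f (mulOp ℂ (he m) f') (-ρ)) := by
  rw [kap_apply, kap_apply, neg_neg, inner_conj_symm, tr_adj, L2.inner_def, L2.inner_def,
    ← integral_const_mul]
  refine integral_congr_ae ?_
  filter_upwards [tr_coe (-ρ) (mulOp ℂ (he m) f), ae_tr (-ρ) (mulOp_coe (he_bm m) f),
    tr_coe (-ρ) f, mulOp_coe (he_bm m) f', ae_tr (-ρ) (supp_of_Pn hf), supp_of_Pn hf']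
    with s h1 h2 h3 h4 h5 h6
  rw [h1, h2, h3, h4, inner_smul_right, inner_smul_left]
  by_cases hs : s ∈ Set.Ico (-(m : ℝ)) m
  · by_cases hs' : s - -ρ ∈ Set.Ico (-(m : ℝ)) m
    · rw [he_of_mem hs, he_of_mem hs', Complex.conj_ofReal, ← mul_assoc, ← Complex.ofReal_mul,
        ← Real.exp_add]
      congr 3
      ring
    · rw [h5 hs', inner_zero_right]
      ring
  · rw [h6 hs, inner_zero_left]
    ring

lemma kap_he_zero {m : ℕ} {f f' : L2R ℂ} (hf : Pn m f = f) {ρ : ℝ} (hρ : ρ < -(2 * m)) :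
    kap f (mulOp ℂ (he m) f') ρ = 0 := by
  rw [kap_apply, L2.inner_def]
  refine (integral_congr_ae ?_).trans (integral_zero _ _)
  filter_upwards [tr_coe (-ρ) (mulOp ℂ (he m) f'), ae_tr (-ρ) (mulOp_coe (he_bm m) f'),
    supp_of_Pn hf] with s h1 h2 h3
  rw [h1, h2]
  by_cases hs : s ∈ Set.Ico (-(m : ℝ)) m
  · rw [he_of_notMem, zero_smul, inner_zero_right]
    rintro ⟨h4, -⟩
    have := hs.2
    linarith
  · rw [h3 hs, inner_zero_left]

lemma weak_id1 {m : ℕ} {f f' : L2R ℂ} (hf : Pn m f = f) :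
    kap f (mulOp ℂ (he m) f') =
      (2 - FR) * (kap f (mulOp ℂ (he m) f') * GB m) * (2 - FR) := by
  ext ρ
  rw [BoundedContinuousFunction.mul_apply, BoundedContinuousFunction.mul_apply,
    BoundedContinuousFunction.mul_apply, two_sub_FR]
  by_cases hρ : ρ < -(2 * m)
  · rw [kap_he_zero hf hρ]
    ring
  · push Not at hρ
    rw [GB_apply hρ]
    have h1 : (1 + Real.exp ρ) ≠ 0 := by positivity
    have h0 : Real.exp ρ ≠ 0 := (Real.exp_pos ρ).ne'
    have h2 : (2 * Real.exp ρ / (1 + Real.exp ρ)) * ((1 + Real.exp (-ρ)) / 2) ^ 2 *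
        (2 * Real.exp ρ / (1 + Real.exp ρ)) = 1 := by
      rw [Real.exp_neg]
      field_simp
      ring
    have h3 : (((2 * Real.exp ρ / (1 + Real.exp ρ)) * ((1 + Real.exp (-ρ)) / 2) ^ 2 *
        (2 * Real.exp ρ / (1 + Real.exp ρ)) : ℝ) : ℂ) = 1 := by rw [h2]; simp
    rw [Complex.ofReal_mul, Complex.ofReal_mul] at h3
    linear_combination (-(kap f (mulOp ℂ (he m) f') ρ)) * h3

lemma weak_id2 {m : ℕ} {f f' : L2R ℂ} (hf : Pn m f = f) (hf' : Pn m f' = f') :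
    kap f' (mulOp ℂ (he m) f) =
      FR * (2 - FR) * refl (kap f (mulOp ℂ (he m) f') * GB m) := by
  ext ρ
  rw [BoundedContinuousFunction.mul_apply, BoundedContinuousFunction.mul_apply, two_sub_FR,
    FR_apply, refl_apply, BoundedContinuousFunction.mul_apply, kap_he hf hf']
  by_cases hρ : -ρ < -(2 * m)
  · rw [kap_he_zero hf hρ]
    simp
  · push Not at hρ
    rw [GB_apply hρ, map_mul, Complex.conj_ofReal, neg_neg]
    have h1 : (1 + Real.exp ρ) ≠ 0 := by positivity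
    have h2 : (2 / (1 + Real.exp ρ)) * (2 * Real.exp ρ / (1 + Real.exp ρ)) *
        ((1 + Real.exp ρ) / 2) ^ 2 = Real.exp ρ := by
      field_simp
    have h3 := congrArg (fun x : ℝ => (x : ℂ)) h2
    simp only [Complex.ofReal_mul] at h3
    linear_combination (-(starRingEnd ℂ) (kap f (mulOp ℂ (he m) f') (-ρ))) * h3

namespace Modular

variable {A : VonNeumannAlgebra H} {ξ : H} {R : H →L[ℂ] H} {D : H →L[ℝ] H}
  {Ψ : (ℝ →ᵇ ℂ) →⋆ₐ[ℂ] (H →L[ℂ] H)} (h : Modular A ξ R D Ψ)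

include h

/-- the weak centralizer identity, before the Fourier transform -/
theorem weak_pre {c b : H →L[ℂ] H} (hc : c ∈ A) (hb : b ∈ A) {m : ℕ} {f f' : L2R ℂ}
    (hf : Pn m f = f) (hf' : Pn m f' = f') :
    ⟪b ξ, Ψ (kap f' (mulOp ℂ (he m) f)) (c ξ)⟫_ℂ =
      ⟪Ψ (kap f (mulOp ℂ (he m) f')) ((star c) ξ), (star b) ξ⟫_ℂ := by
  set K2 := kap f (mulOp ℂ (he m) f') * GB m with hK2
  conv_rhs => rw [weak_id1 (f' := f') hf]
  rw [weak_id2 hf hf', ← hK2]
  rw [mul_assoc (2 - FR), psi_mul_apply Ψ (2 - FR) (K2 * (2 - FR)), psi_mul_apply Ψ K2,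
    psi_adj Ψ (2 - FR), star_two_sub, ← h.D_mem' hb,
    ← h.D_mem' hc, ← h.psi_D (refl K2) K2, h.data.D_symm, h.data.D_sq]
  · rw [← h.psi_two_sub, ← h.psi_FR, psi_mul_apply, psi_mul_apply]
  · intro ρ
    rw [refl_apply, neg_neg, Complex.conj_conj]

end Modular

end Pool.Agent.Helper23

end

section

open scoped InnerProductSpace Topology BoundedContinuousFunction FourierTransform ENNReal

open ContinuousLinearMap Filter MeasureTheory

set_option linter.unusedSectionVars false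

namespace Pool.Agent.Helper23

variable {H : Type*} [NormedAddCommGroup H] [InnerProductSpace ℂ H] [CompleteSpace H]

variable {M N : VonNeumannAlgebra H} {ξ : H} {E : (H →L[ℂ] H) → (H →L[ℂ] H)}

lemma fco_mul {T T' : ℝ → H →L[ℂ] H} (hT : Dec T) (hT' : Dec T') :
    fco T * fco T' = fco (fun s => (T s) * (T' s)) := by
  ext F : 1
  refine (Fo H).injective ?_
  change Fo H (fco T (fco T' F)) = _
  rw [Fo_fco, Fo_fco, Fo_fco]
  exact dec_comp hT hT' _

lemma fco_const (a : H →L[ℂ] H) : fco (fun _ : ℝ => a) = lift a := by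
  ext F : 1
  refine (Fo H).injective ?_
  rw [Fo_fco, Fo_lift]
  rfl

lemma fco_adj {T T' : ℝ → H →L[ℂ] H} (hT : Dec T) (hT' : Dec T')
    (hadj : ∀ s x y, ⟪T' s x, y⟫_ℂ = ⟪x, T s y⟫_ℂ) : star (fco T) = fco T' := by
  rw [ContinuousLinearMap.star_eq_adjoint]
  symm
  rw [ContinuousLinearMap.eq_adjoint_iff]
  intro x y
  rw [inner_fco, ← (Fo H).inner_map_map (fco T' x), Fo_fco]
  exact dec_adj hT hT' hadj _ _

namespace Modular

variable {A : VonNeumannAlgebra H} {R : H →L[ℂ] H} {D : H →L[ℝ] H}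
  {Ψ : (ℝ →ᵇ ℂ) →⋆ₐ[ℂ] (H →L[ℂ] H)} (h : Modular A ξ R D Ψ)

include h

lemma W_star : star (fco fun t : ℝ => Ψ (expB (2 * Real.pi * t))) =
    fco fun t : ℝ => Ψ (expB (-(2 * Real.pi * t))) :=
  fco_adj h.U_dec h.U_dec' fun _ x y => psi_expB_adj Ψ _ x y

lemma W_mul : (fco fun t : ℝ => Ψ (expB (2 * Real.pi * t))) *
    (fco fun t : ℝ => Ψ (expB (-(2 * Real.pi * t)))) = 1 := by
  rw [fco_mul h.U_dec h.U_dec']
  have : (fun t : ℝ => Ψ (expB (2 * Real.pi * t)) * Ψ (expB (-(2 * Real.pi * t)))) =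
      fun _ => (1 : H →L[ℂ] H) := by
    funext t
    rw [psi_expB_mul, add_neg_cancel, expB_zero, map_one]
  rw [this, fco_const, lift_one]

lemma W_mul' : (fco fun t : ℝ => Ψ (expB (-(2 * Real.pi * t)))) *
    (fco fun t : ℝ => Ψ (expB (2 * Real.pi * t))) = 1 := by
  rw [fco_mul h.U_dec' h.U_dec]
  have : (fun t : ℝ => Ψ (expB (-(2 * Real.pi * t))) * Ψ (expB (2 * Real.pi * t))) =
      fun _ => (1 : H →L[ℂ] H) := by
    funext t
    rw [psi_expB_mul, neg_add_cancel, expB_zero, map_one]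
  rw [this, fco_const, lift_one]

lemma W'_ten (f : L2R ℂ) : fco (fun t : ℝ => Ψ (expB (-(2 * Real.pi * t)))) (ten f ξ) =
    ten f ξ := by
  refine (Fo H).injective ?_
  rw [Fo_fco, Fo_ten]
  ext1
  filter_upwards [dec_coe h.U_dec' (ten (Fo ℂ f) ξ), ten_coe (Fo ℂ f) ξ] with t h1 h2
  rw [h1, h2, map_smul, h.U_xi]

/-- the conjugated unitary -/
lemma conj_dec (c : H →L[ℂ] H) :
    Dec (fun t : ℝ => Ψ (expB (2 * Real.pi * t)) * c * Ψ (expB (-(2 * Real.pi * t)))) :=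
  (h.U_dec.comp (Dec.const c)).comp h.U_dec'

lemma conj_eq (c : H →L[ℂ] H) :
    fco (fun t : ℝ => Ψ (expB (2 * Real.pi * t)) * c * Ψ (expB (-(2 * Real.pi * t)))) =
      (fco fun t : ℝ => Ψ (expB (2 * Real.pi * t))) * lift c *
        (fco fun t : ℝ => Ψ (expB (-(2 * Real.pi * t)))) := by
  have hd : Dec (fun t : ℝ => Ψ (expB (2 * Real.pi * t)) * c) := h.U_dec.comp (Dec.const c)
  rw [← fco_const c, fco_mul h.U_dec (Dec.const c), fco_mul hd h.U_dec']

lemma conj_ten (c : H →L[ℂ] H) (f : L2R ℂ) :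
    fco (fun t : ℝ => Ψ (expB (2 * Real.pi * t)) * c * Ψ (expB (-(2 * Real.pi * t)))) (ten f ξ) =
      fco (fun t : ℝ => Ψ (expB (2 * Real.pi * t))) (ten f (c ξ)) := by
  rw [h.conj_eq]
  change fco _ (lift c (fco _ (ten f ξ))) = _
  rw [h.W'_ten, lift_ten]

/-- the weak centralizer identity -/
theorem weak {c b : H →L[ℂ] H} (hc : c ∈ A) (hb : b ∈ A) {m : ℕ} {f f' : L2R ℂ}
    (hf : Pn m f = f) (hf' : Pn m f' = f') :
    ⟪ten f' (b ξ), fco (fun t : ℝ => Ψ (expB (2 * Real.pi * t)) * c *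
        Ψ (expB (-(2 * Real.pi * t)))) (ten (mulOp ℂ (he m) f) ξ)⟫_ℂ =
      ⟪ten (mulOp ℂ (he m) f') ξ, fco (fun t : ℝ => Ψ (expB (2 * Real.pi * t)) * c *
        Ψ (expB (-(2 * Real.pi * t)))) (ten f ((star b) ξ))⟫_ℂ := by
  rw [h.conj_ten, h.key, h.weak_pre hc hb hf hf', h.conj_eq]
  set W := fco fun t : ℝ => Ψ (expB (2 * Real.pi * t)) with hW
  set W' := fco fun t : ℝ => Ψ (expB (-(2 * Real.pi * t))) with hW'
  have hs : star W = W' := h.W_star
  have hs' : star W' = W := by rw [← hs, star_star]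
  change _ = ⟪_, W (lift c (W' _))⟫_ℂ
  rw [← inner_star_left W, hs, h.W'_ten, ← inner_star_left (lift c), ← lift_star, lift_ten,
    ← inner_star_left W', hs', ← inner_conj_symm, ← h.key, inner_conj_symm]

lemma conj_star (c : H →L[ℂ] H) :
    star (fco (fun t : ℝ => Ψ (expB (2 * Real.pi * t)) * c * Ψ (expB (-(2 * Real.pi * t))))) =
      fco (fun t : ℝ => Ψ (expB (2 * Real.pi * t)) * star c *
        Ψ (expB (-(2 * Real.pi * t)))) := by
  rw [h.conj_eq, h.conj_eq, star_mul, star_mul, h.W_star, ← lift_star, ← h.W_star, star_star,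
    mul_assoc]

lemma conj_isom {c d : H →L[ℂ] H} (hcd : c * d = 1) :
    fco (fun t : ℝ => Ψ (expB (2 * Real.pi * t)) * c * Ψ (expB (-(2 * Real.pi * t)))) *
      fco (fun t : ℝ => Ψ (expB (2 * Real.pi * t)) * d * Ψ (expB (-(2 * Real.pi * t)))) = 1 := by
  rw [h.conj_eq, h.conj_eq]
  set W := fco fun t : ℝ => Ψ (expB (2 * Real.pi * t)) with hW
  set W' := fco fun t : ℝ => Ψ (expB (-(2 * Real.pi * t))) with hW'
  have h1 : W * W' = 1 := h.W_mul
  have h2 : W' * W = 1 := h.W_mul'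
  calc W * lift c * W' * (W * lift d * W') = W * lift c * (W' * W) * lift d * W' := by
        simp only [mul_assoc]
    _ = W * (lift c * lift d) * W' := by rw [h2]; simp only [mul_assoc, one_mul]
    _ = 1 := by rw [← lift_mul, hcd, lift_one, mul_one, h1]

end Modular

end Pool.Agent.Helper23

end

section

open scoped InnerProductSpace Topology BoundedContinuousFunction ComplexOrder

open ContinuousLinearMap Filter

namespace Pool.Agent.Helper23

variable {H : Type*} [NormedAddCommGroup H] [InnerProductSpace ℂ H] [CompleteSpace H]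

variable {M N : VonNeumannAlgebra H} {ξ : H} {E : (H →L[ℂ] H) → (H →L[ℂ] H)}

namespace Setting

variable (S : Setting M N E ξ)

include S

/-- the case of contractions -/
lemma exists_near_right_one {l : ℝ} (hl : 0 < l) {ε : ℝ} (hε : 0 < ε) :
    ∃ δ : ℝ, 0 < δ ∧ ∀ a ∈ N, ‖a‖ ≤ 1 → Defect N ξ l δ a →
      ∃ r ∈ M.commutant, ‖r‖ ≤ Real.sqrt l ∧ ‖a ξ - r ξ‖ ≤ ε := by
  by_contra hcon
  push Not at hcon
  choose a haN ha1 haD har using fun n : ℕ => hcon (1 / ((n : ℝ) + 1)) (by positivity)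
  have hD : Dseq N ξ l a := by
    intro t ht
    filter_upwards [tendsto_one_div_add_atTop_nhds_zero_nat.eventually_lt_const ht] with n hn
    exact (haD n).mono hn.le
  obtain ⟨b, C, hbN, hbC, hb, hab⟩ := exists_sqrt_seq S.norm_one hl haN ha1 hD
  have hC : 0 ≤ C := (norm_nonneg _).trans (hbC 0)
  have hb' : Dseq N ξ 1 (fun n => star (b n)) := by
    have := hb.star one_pos
    rwa [inv_one] at this
  set t : ℝ := ε ^ 2 / (1 + l * C) with ht
  have hden : 0 < 1 + l * C := by positivity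
  have htpos : 0 < t := by positivity
  obtain ⟨n, hn1, hn2⟩ := ((hD t htpos).and (hb' t htpos)).exists
  have hd : t + l * (t * C) = ε ^ 2 := by
    rw [ht]; field_simp
  obtain ⟨r, hr, hr1, hr2⟩ := exists_dom_comm M (ξ := ξ) (η := a n ξ) (l := l)
    (δ := t + l * (t * C)) hl.le (by rw [hd]; positivity) (fun x hx hx0 =>
      S.dom_of_defect hl htpos.le htpos.le (haN n) (ha1 n) (hbN n) (hbC n) (hab n) hn1 hn2 hx hx0)
  rw [hd] at hr2
  have h1 := har n r hr hr1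
  rw [norm_sub_rev] at h1
  have h2 : ‖r ξ - a n ξ‖ ≤ ε :=
    (pow_le_pow_iff_left₀ (norm_nonneg _) hε.le two_ne_zero).1 hr2
  linarith

theorem exists_near_right {l : ℝ} (hl : 0 < l) {C : ℝ} (hC : 0 ≤ C) {ε : ℝ} (hε : 0 < ε) :
    ∃ δ : ℝ, 0 < δ ∧ ∀ a ∈ N, ‖a‖ ≤ C →
      Defect N ξ l δ a → ∃ r ∈ M.commutant, ‖r‖ ≤ Real.sqrt l * C ∧ ‖a ξ - r ξ‖ ≤ ε := by
  rcases hC.eq_or_lt with h0 | h0
  · refine ⟨1, one_pos, fun a _ haC _ => ⟨0, zero_mem _, by simp [← h0], ?_⟩⟩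
    have ha : a = 0 := norm_le_zero_iff.1 (haC.trans_eq h0.symm)
    rw [ha, zero_apply, sub_zero, norm_zero]
    exact hε.le
  · obtain ⟨δ, hδ, h⟩ := S.exists_near_right_one hl (ε := ε / C) (by positivity)
    refine ⟨C * δ, by positivity, fun a haN haC haD => ?_⟩
    have e1 : ‖((C⁻¹ : ℝ) : ℂ)‖ = C⁻¹ := by
      rw [Complex.norm_real, Real.norm_of_nonneg (inv_pos.2 h0).le]
    have e2 : ((C : ℝ) : ℂ) * ((C⁻¹ : ℝ) : ℂ) = 1 := by
      rw [← Complex.ofReal_mul, mul_inv_cancel₀ h0.ne', Complex.ofReal_one]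
    obtain ⟨r, hr, hr1, hr2⟩ := h (((C⁻¹ : ℝ) : ℂ) • a) (smul_mem' _ haN) (by
      rw [norm_smul, e1, inv_mul_le_iff₀ h0, mul_one]
      exact haC) (by
      have := haD.smul ((C⁻¹ : ℝ) : ℂ)
      rwa [e1, inv_mul_cancel_left₀ h0.ne'] at this)
    refine ⟨((C : ℝ) : ℂ) • r, smul_mem' _ hr, ?_, ?_⟩
    · rw [norm_smul, Complex.norm_real, Real.norm_of_nonneg hC, mul_comm]
      exact mul_le_mul_of_nonneg_right hr1 hC
    · have e3 : a ξ - (((C : ℝ) : ℂ) • r) ξ =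
          ((C : ℝ) : ℂ) • ((((C⁻¹ : ℝ) : ℂ) • a) ξ - r ξ) := by
        rw [smul_apply, smul_apply, smul_sub, smul_smul, e2, one_smul]
      rw [e3, norm_smul, Complex.norm_real, Real.norm_of_nonneg hC]
      calc C * ‖(((C⁻¹ : ℝ) : ℂ) • a) ξ - r ξ‖ ≤ C * (ε / C) :=
            mul_le_mul_of_nonneg_left hr2 hC
        _ = ε := by field_simp

end Setting

end Pool.Agent.Helper23

end

section

open scoped InnerProductSpace Topology BoundedContinuousFunction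

open ContinuousLinearMap Filter MeasureTheory

set_option linter.unusedSectionVars false

namespace Pool.Agent.Helper23

universe u

variable {H : Type u} [NormedAddCommGroup H] [InnerProductSpace ℂ H] [CompleteSpace H]

variable {M N : VonNeumannAlgebra H} {ξ : H} {E : (H →L[ℂ] H) → (H →L[ℂ] H)}

theorem Setting.lamSeq_R' (S : Setting M N E ξ) {R : H →L[ℂ] H} {D : H →L[ℝ] H}
    (hR : TTData M ξ R D) {l : ℝ} (hl : 0 < l) {a : ℕ → H →L[ℂ] H} (ha : LamSeq N ξ l a) :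
    Tendsto (fun n => ‖(2 : ℂ) • (star (a n)) ξ - ((1 + l : ℝ) : ℂ) • R ((star (a n)) ξ)‖) atTop
      (𝓝 0) := by
  obtain ⟨haN, ⟨C, hC⟩, hD⟩ := ha
  have hC0 : 0 ≤ C := (norm_nonneg _).trans (hC 0)
  obtain ⟨K, hK, hKb⟩ := hR.exists_half_bound S.dense_comm
  rw [Metric.tendsto_nhds]
  intro ε' hε'
  set c0 : ℝ := 4 * (K * (Real.sqrt l * C)) + l * (4 * C + (4 * (K *
        (Real.sqrt l * C)) + (Real.sqrt l * C + l * C) * ‖D‖)) with hc0
  have hc : Continuous fun ε : ℝ => ‖D‖ * ε + Real.sqrt (2 * (ε * c0)) := by fun_prop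
  have h0 : Tendsto (fun ε : ℝ => ‖D‖ * ε + Real.sqrt (2 * (ε * c0))) (𝓝[>] 0) (𝓝 0) := by
    have := (hc.tendsto 0).mono_left (nhdsWithin_le_nhds (s := Set.Ioi (0 : ℝ)))
    simpa using this
  obtain ⟨ε, hε1, hε2⟩ := ((h0.eventually (gt_mem_nhds hε')).and self_mem_nhdsWithin).exists
  have hε : 0 < ε := hε2
  obtain ⟨δ, hδ, hδr⟩ := S.exists_near_right hl hC0 hε
  filter_upwards [hD (min δ ε) (lt_min hδ hε)] with n hn
  obtain ⟨r, hr, hrC, hrξ⟩ := hδr (a n) (haN n) (hC n) (hn.mono (min_le_left _ _))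
  rw [dist_zero_right, norm_norm]
  exact (S.near_eig hR hK hKb hl hC0 hε.le (haN n) (hC n) (hn.mono (min_le_right _ _)) hr hrC
    hrξ).trans_lt hε1

theorem Setting.lamSeq_R (S : Setting M N E ξ) {R : H →L[ℂ] H} {D : H →L[ℝ] H}
    (hR : TTData M ξ R D) {l : ℝ} (hl : 0 < l) {a : ℕ → H →L[ℂ] H} (ha : LamSeq N ξ l a) :
    Tendsto (fun n => ‖((2 * l : ℝ) : ℂ) • a n ξ - ((1 + l : ℝ) : ℂ) • R (a n ξ)‖) atTop
      (𝓝 0) := by
  obtain ⟨haN, ⟨C, hC⟩, hD⟩ := ha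
  have h1 := S.lamSeq_R' hR (l := l⁻¹) (inv_pos.2 hl) (a := fun n => star (a n))
    ⟨fun n => star_mem (haN n), ⟨C, fun n => by rw [norm_star]; exact hC n⟩, Dseq.star hl hD⟩
  have h2 := h1.const_mul l
  rw [mul_zero] at h2
  refine h2.congr fun n => ?_
  rw [star_star]
  have hl0 : (l : ℂ) ≠ 0 := by exact_mod_cast hl.ne'
  have e1 : ((2 * l : ℝ) : ℂ) • a n ξ - ((1 + l : ℝ) : ℂ) • R (a n ξ) =
      (l : ℂ) • ((2 : ℂ) • (a n) ξ - ((1 + l⁻¹ : ℝ) : ℂ) • R ((a n) ξ)) := by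
    rw [smul_sub, smul_smul, smul_smul]
    congr 2
    · push_cast; ring
    · push_cast
      rw [mul_add, mul_inv_cancel₀ hl0]; ring
  rw [e1, norm_smul, Complex.norm_real, Real.norm_of_nonneg hl.le]

theorem Setting.lamSeq_U (S : Setting M N E ξ) {R : H →L[ℂ] H} {D : H →L[ℝ] H}
    {Ψ : (ℝ →ᵇ ℂ) →⋆ₐ[ℂ] (H →L[ℂ] H)} (hΨ : Modular M ξ R D Ψ) {l : ℝ} (hl : 0 < l)
    {a : ℕ → H →L[ℂ] H} (ha : LamSeq N ξ l a) (t : ℝ) :
    Tendsto (fun n => ‖Ψ (expB t) (a n ξ) - expB t (-Real.log l) • a n ξ‖) atTop (𝓝 0) := by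
  have h1 := (S.lamSeq_R hΨ.data hl ha).const_mul ((3 * |t| + 6) / (2 * min 1 l))
  rw [mul_zero] at h1
  have hm : 0 < min 1 l := lt_min one_pos hl
  refine squeeze_zero (fun n => norm_nonneg _) (fun n => ?_) h1
  have h2 := psi_dom Ψ (by positivity : 0 ≤ (3 * |t| + 6) / (2 * min 1 l))
    (expB_dom_gen t hl) (a n ξ)
  rw [map_sub, map_sub, map_smul, map_smul, map_smul, map_one, hΨ.psi_FR] at h2
  exact h2

namespace Modular

variable {A : VonNeumannAlgebra H} {R : H →L[ℂ] H} {D : H →L[ℝ] H}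
  {Ψ : (ℝ →ᵇ ℂ) →⋆ₐ[ℂ] (H →L[ℂ] H)} (h : Modular A ξ R D Ψ)

include h

/-- the distance of `U (ten f v)` from `ten (tr s f) v` as an integral -/
lemma dist_sq_gen (s : ℝ) (f : L2R ℂ) (v : H) :
    ‖fco (fun t : ℝ => Ψ (expB (2 * Real.pi * t))) (ten f v) - ten (tr ℂ s f) v‖ ^ 2 =
      ∫ t, ‖Fo ℂ f t‖ ^ 2 * ‖Ψ (expB (2 * Real.pi * t)) v - chr s t • v‖ ^ 2 := by
  have h1 : ‖fco (fun t : ℝ => Ψ (expB (2 * Real.pi * t))) (ten f v) - ten (tr ℂ s f) v‖ =
      ‖dec (fun t : ℝ => Ψ (expB (2 * Real.pi * t))) (ten (Fo ℂ f) v) -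
        ten (mulOp ℂ (chr s) (Fo ℂ f)) v‖ := by
    rw [← (Fo H).norm_map, map_sub, Fo_fco, Fo_ten, Fo_ten, Fo_tr]
  rw [h1]
  set F : L2R H := dec (fun t : ℝ => Ψ (expB (2 * Real.pi * t))) (ten (Fo ℂ f) v) -
    ten (mulOp ℂ (chr s) (Fo ℂ f)) v with hF
  have h2 : ((‖F‖ ^ 2 : ℝ) : ℂ) = ⟪F, F⟫_ℂ := by
    rw [inner_self_eq_norm_sq_to_K]; norm_cast
  have h3 : ⟪F, F⟫_ℂ = ((∫ s, ‖F s‖ ^ 2 : ℝ) : ℂ) := by
    rw [L2.inner_def, ← integral_complex_ofReal]
    refine integral_congr_ae (Eventually.of_forall fun s => ?_)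
    change ⟪F s, F s⟫_ℂ = _
    rw [inner_self_eq_norm_sq_to_K]; norm_cast
  rw [h3] at h2
  have h4 : ‖F‖ ^ 2 = ∫ s, ‖F s‖ ^ 2 := by exact_mod_cast h2
  rw [h4]
  refine integral_congr_ae ?_
  filter_upwards [Lp.coeFn_sub (dec (fun t : ℝ => Ψ (expB (2 * Real.pi * t)))
    (ten (Fo ℂ f) v)) (ten (mulOp ℂ (chr s) (Fo ℂ f)) v), dec_coe h.U_dec (ten (Fo ℂ f) v),
    ten_coe (Fo ℂ f) v, ten_coe (mulOp ℂ (chr s) (Fo ℂ f)) v,
    mulOp_coe (chr_bm s) (Fo ℂ f)] with t e1 e2 e3 e4 e5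
  rw [hF, e1, Pi.sub_apply, e2, e3, e4, e5, map_smul, smul_eq_mul, mul_comm (chr s t), mul_smul,
    ← smul_sub, norm_smul, mul_pow]

end Modular

theorem Setting.lamSeq_conj (S : Setting M N E ξ) {R : H →L[ℂ] H} {D : H →L[ℝ] H}
    {Ψ : (ℝ →ᵇ ℂ) →⋆ₐ[ℂ] (H →L[ℂ] H)} (hΨ : Modular M ξ R D Ψ) {l : ℝ} (hl : 0 < l)
    {a : ℕ → H →L[ℂ] H} (ha : LamSeq N ξ l a) (f : L2R ℂ) :
    Tendsto (fun n => ‖fco (fun t : ℝ => Ψ (expB (2 * Real.pi * t)) * a n *
      Ψ (expB (-(2 * Real.pi * t)))) (ten f ξ) - ten (tr ℂ (Real.log l) f) (a n ξ)‖) atTop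
      (𝓝 0) := by
  obtain ⟨C, hC⟩ := ha.2.1
  have hC0 : 0 ≤ C := (norm_nonneg _).trans (hC 0)
  have haξ : ∀ n, ‖a n ξ‖ ≤ C := fun n => by
    have := (a n).le_of_opNorm_le (hC n) ξ
    rwa [S.norm_one, mul_one] at this
  have h1 : Tendsto (fun n => ∫ t, ‖Fo ℂ f t‖ ^ 2 *
      ‖Ψ (expB (2 * Real.pi * t)) (a n ξ) - chr (Real.log l) t • a n ξ‖ ^ 2) atTop
      (𝓝 (∫ _t : ℝ, (0 : ℝ))) := by
    refine tendsto_integral_of_dominated_convergence (fun t => ‖Fo ℂ f t‖ ^ 2 * (2 * C) ^ 2)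
      (fun n => ?_) ?_ (fun n => Eventually.of_forall fun t => ?_)
      (Eventually.of_forall fun t => ?_)
    · refine AEStronglyMeasurable.mul ?_ ?_
      · exact ((Lp.aestronglyMeasurable (Fo ℂ f)).norm.pow 2)
      · have hc : Continuous fun t : ℝ =>
            ‖Ψ (expB (2 * Real.pi * t)) (a n ξ) - chr (Real.log l) t • a n ξ‖ ^ 2 := by
          have h2 := (hΨ.U_cont (a n ξ)).comp
            (by fun_prop : Continuous fun t : ℝ => 2 * Real.pi * t)
          have h3 : Continuous fun t : ℝ => chr (Real.log l) t • a n ξ := by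
            unfold chr
            fun_prop
          exact ((h2.sub h3).norm).pow 2
        exact hc.aestronglyMeasurable
    · exact ((Lp.memLp (Fo ℂ f)).integrable_norm_pow two_ne_zero).mul_const _
    · have h2 : ‖Ψ (expB (2 * Real.pi * t)) (a n ξ) - chr (Real.log l) t • a n ξ‖ ≤ 2 * C := by
        refine (norm_sub_le _ _).trans ?_
        rw [psi_expB_norm, norm_smul, chr_eq_expB, expB_norm_apply]
        linarith [haξ n]
      have h3 := pow_le_pow_left₀ (norm_nonneg _) h2 2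
      rw [Real.norm_of_nonneg (by positivity)]
      exact mul_le_mul_of_nonneg_left h3 (by positivity)
    · have h2 := ((S.lamSeq_U hΨ hl ha (2 * Real.pi * t)).pow 2).const_mul
        (‖Fo ℂ f t‖ ^ 2)
      rw [← chr_eq_expB] at h2
      simpa using h2
  rw [integral_zero] at h1
  have h2 := (Real.continuous_sqrt.tendsto 0).comp h1
  rw [Real.sqrt_zero] at h2
  refine h2.congr fun n => ?_
  change Real.sqrt (∫ t, ‖Fo ℂ f t‖ ^ 2 *
      ‖Ψ (expB (2 * Real.pi * t)) (a n ξ) - chr (Real.log l) t • a n ξ‖ ^ 2) = _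
  rw [← hΨ.dist_sq_gen, Real.sqrt_sq (norm_nonneg _), hΨ.conj_ten]

end Pool.Agent.Helper23

end

section

open scoped InnerProductSpace Topology ENNReal BoundedContinuousFunction

open ContinuousLinearMap Filter MeasureTheory

namespace Pool.Agent.Helper23

variable {H : Type*} [NormedAddCommGroup H] [InnerProductSpace ℂ H] [CompleteSpace H]

/-- the unitary on `L²(ℝ, H)` implementing the modular group: `t ↦ Δ^{2πit}` in the Fourier
picture -/
noncomputable def WW (Ψ : (ℝ →ᵇ ℂ) →⋆ₐ[ℂ] (H →L[ℂ] H)) : L2R H →L[ℂ] L2R H :=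
  fco fun t : ℝ => Ψ (expB (2 * Real.pi * t))

end Pool.Agent.Helper23

end

section

open scoped InnerProductSpace Topology ENNReal BoundedContinuousFunction

open ContinuousLinearMap Filter MeasureTheory

namespace Pool.Agent.Helper23

universe u

variable {H : Type u} [NormedAddCommGroup H] [InnerProductSpace ℂ H] [CompleteSpace H]

variable {K : Type u} [NormedAddCommGroup K] [InnerProductSpace ℂ K] [CompleteSpace K]

variable {M N : VonNeumannAlgebra H} {ξ : H} {E : (H →L[ℂ] H) → (H →L[ℂ] H)}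

namespace Oc

variable {MT NT : VonNeumannAlgebra K} {ET : (K →L[ℂ] K) → (K →L[ℂ] K)} {ζ : K}
  {rep : (ℕ → H →L[ℂ] H) → (K →L[ℂ] K)} (O : Oc M N E ξ MT NT ET ζ rep)

include O

lemma const_inj (S : Setting M N E ξ) {x y : H →L[ℂ] H} (hx : x ∈ M) (hy : y ∈ M)
    (h : rep (fun _ => x) = rep (fun _ => y)) : x = y := by
  rw [← O.cc_const S hx, h, O.cc_const S hy]

end Oc

end Pool.Agent.Helper23

end

section

open scoped InnerProductSpace Topology ENNReal BoundedContinuousFunction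

open ContinuousLinearMap Filter MeasureTheory

namespace Pool.Agent.Helper23.ED

open Pool.Agent.Helper23 Pool.Agent.Helper23.RBF

open Pool.Agent.Helper78.BC.Transport (Sub r)

universe u

variable {H : Type*} [NormedAddCommGroup H] [InnerProductSpace ℂ H] [CompleteSpace H]

variable {M N : VonNeumannAlgebra H} {ξ : H} {E : (H →L[ℂ] H) → (H →L[ℂ] H)}

namespace RkA

/-- the slices are shifted by asymptotic eigenoperators -/
theorem shift_all1 (S : Setting M N E ξ) {R : H →L[ℂ] H} {D : H →L[ℝ] H}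
    {Ψ : (ℝ →ᵇ ℂ) →⋆ₐ[ℂ] (H →L[ℂ] H)} (hΨ : Modular M ξ R D Ψ)
    (hN : ∀ (t : ℝ), ∀ a ∈ N, Ψ (expB t) * a * Ψ (expB (-t)) ∈ N)
    {X : L2R H →L[ℂ] L2R H} (hX : X ∈ Rk1 M N Ψ) (f g : L2R ℂ)
    {l : ℝ} {a : ℕ → H →L[ℂ] H} (ha : LamSeq N ξ l a)
    (hconj : ∀ f : L2R ℂ, Tendsto (fun n => ‖fco (U14.fld Ψ (a n)) (ten f ξ) -
      ten (tr ℂ (Real.log l) f) (a n ξ)‖) atTop (𝓝 0)) (η : H) :
    Tendsto (fun n => (a n * slX X f g -
      slX X (tr ℂ (Real.log l) f) (tr ℂ (Real.log l) g) * a n) η) atTop (𝓝 0) := by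
  set t := Real.log l with ht
  set D : ℕ → (L2R H →L[ℂ] L2R H) := fun n => fco (U14.fld Ψ (a n)) - tr H t * lift (a n) with hD
  have h1 := U14.conv_all S hΨ hN ha hconj (X (ten g η))
  have h2 := U14.conv_all S hΨ hN ha hconj (ten g η)
  have h3 : Tendsto (fun n => sl (tr ℂ t f) (X (D n (ten g η)) - D n (X (ten g η)))) atTop
      (𝓝 0) := by
    have h4 := ((X.continuous.tendsto 0).comp h2).sub h1
    rw [map_zero, sub_zero] at h4
    have h5 := ((sl (tr ℂ t f) : L2R H →L[ℂ] H).continuous.tendsto 0).comp h4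
    rwa [map_zero] at h5
  refine h3.congr fun n => ?_
  have hc : fco (U14.fld Ψ (a n)) (X (ten g η)) = X (fco (U14.fld Ψ (a n)) (ten g η)) :=
    congrArg (fun T : L2R H →L[ℂ] L2R H => T (ten g η)) (comm_fld1 hΨ hX (ha.1 n))
  have e1 : X (D n (ten g η)) - D n (X (ten g η)) =
      tr H t (lift (a n) (X (ten g η))) - X (ten (tr ℂ t g) (a n η)) := by
    have e2 : D n (ten g η) = fco (U14.fld Ψ (a n)) (ten g η) - ten (tr ℂ t g) (a n η) := by
      change fco (U14.fld Ψ (a n)) (ten g η) - tr H t (lift (a n) (ten g η)) = _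
      rw [lift_ten, tr_ten]
    have e3 : D n (X (ten g η)) = fco (U14.fld Ψ (a n)) (X (ten g η)) -
      tr H t (lift (a n) (X (ten g η))) := rfl
    rw [e2, e3, map_sub, hc]
    abel
  rw [e1, map_sub, sl_tr, tr_neg_tr, sl_lift]
  rfl

end RkA

theorem Rk1_slX (S : BFlow M N E ξ) {R : H →L[ℂ] H} {D : H →L[ℝ] H}
    {Ψ : (ℝ →ᵇ ℂ) →⋆ₐ[ℂ] (H →L[ℂ] H)} (hΨ : Modular M ξ R D Ψ)
    (hN : ∀ (t : ℝ), ∀ a ∈ N, Ψ (expB t) * a * Ψ (expB (-t)) ∈ N)
    {X : L2R H →L[ℂ] L2R H} (hX : X ∈ Rk1 M N Ψ) (f g : L2R ℂ) :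
    slX X f g ∈ Bicent M N ξ ∧ ∀ l : ℝ, 0 < l →
      btU M N ξ l (slX X f g) = slX X (tr ℂ (Real.log l) f) (tr ℂ (Real.log l) g) := by
  have hsh : ∀ (f g : L2R ℂ) (l : ℝ), 0 < l → ∀ a : ℕ → H →L[ℂ] H, LamSeq N ξ l a → ∀ η : H,
      Tendsto (fun n => (a n * slX X f g -
        slX X (tr ℂ (Real.log l) f) (tr ℂ (Real.log l) g) * a n) η) atTop (𝓝 0) :=
    fun f g l hl a ha η => RkA.shift_all1 S.toSetting hΨ hN hX f g ha
      (fun f => S.toSetting.lamSeq_conj hΨ hl ha f) η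
  have hbic : ∀ f g : L2R ℂ, slX X f g ∈ Bicent M N ξ := by
    intro f g
    refine ⟨slX_mem hX.1 f g, fun a ha η => ?_⟩
    have h1 := (hsh f g 1 one_pos a ha η).neg
    rw [neg_zero, Real.log_one, tr_zero] at h1
    refine h1.congr fun n => ?_
    rw [sub_apply, neg_sub]
    rfl
  refine ⟨hbic f g, fun l hl => ?_⟩
  symm
  exact S.flow_uniq _ (hbic f g) _ (hbic _ _).1 l hl fun a ha => hsh f g l hl a ha ξ

end Pool.Agent.Helper23.ED

end

section

open scoped InnerProductSpace Topology ENNReal BoundedContinuousFunction FourierTransform SchwartzMap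

open ContinuousLinearMap Filter MeasureTheory

namespace Pool.Agent.Helper23.ED

open Pool.Agent.Helper23 Pool.Agent.Helper23.RBF

open Pool.Agent.Helper78.BC.Transport (Sub r)

universe u

variable {H : Type*} [NormedAddCommGroup H] [InnerProductSpace ℂ H] [CompleteSpace H]

variable {M N : VonNeumannAlgebra H} {ξ : H} {E : (H →L[ℂ] H) → (H →L[ℂ] H)}

theorem fcn_unit {A : VonNeumannAlgebra H} {R : H →L[ℂ] H} {D : H →L[ℝ] H}
    {Ψ : (ℝ →ᵇ ℂ) →⋆ₐ[ℂ] (H →L[ℂ] H)} (hΨ : Modular A ξ R D Ψ)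
    (hN : ∀ (t : ℝ), ∀ a ∈ N, Ψ (expB t) * a * Ψ (expB (-t)) ∈ N) {u : H →L[ℂ] H}
    (hu : u ∈ N) (h1 : star u * u = 1) (h2 : u * star u = 1) :
    fcn Ψ u ∈ amp N ∧ star (fcn Ψ u) * fcn Ψ u = 1 ∧ fcn Ψ u * star (fcn Ψ u) = 1 := by
  refine ⟨fco_mem_amp (hΨ.conj_dec u) fun s => hN _ u hu, ?_, ?_⟩
  · unfold fcn
    rw [hΨ.conj_star]
    exact hΨ.conj_isom h1
  · unfold fcn
    rw [hΨ.conj_star]
    exact hΨ.conj_isom h2

end Pool.Agent.Helper23.ED

end

section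

open scoped InnerProductSpace Topology ENNReal BoundedContinuousFunction

open ContinuousLinearMap Filter MeasureTheory

namespace Pool.Agent.Helper23.ED

open Pool.Agent.Helper23 Pool.Agent.Helper23.RBF

open Pool.Agent.Helper78.BC.Transport (Sub r)

universe u

variable {H : Type*} [NormedAddCommGroup H] [InnerProductSpace ℂ H] [CompleteSpace H]

variable {A : VonNeumannAlgebra H} {ξ : H} {R : H →L[ℂ] H} {D : H →L[ℝ] H}
  {Ψ : (ℝ →ᵇ ℂ) →⋆ₐ[ℂ] (H →L[ℂ] H)}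

/-- the function `m(ρ + s)` of `log Δ ⊗ 1 + 1 ⊗ s` -/
noncomputable def PP (Ψ : (ℝ →ᵇ ℂ) →⋆ₐ[ℂ] (H →L[ℂ] H)) (m : ℝ → ℂ) : L2R H →L[ℂ] L2R H :=
  WW Ψ * mulOp H m * star (WW Ψ)

theorem WW_unit (hΨ : Modular A ξ R D Ψ) : WW Ψ * star (WW Ψ) = 1 ∧ star (WW Ψ) * WW Ψ = 1 := by
  unfold WW
  rw [hΨ.W_star]
  exact ⟨hΨ.W_mul, hΨ.W_mul'⟩

end Pool.Agent.Helper23.ED

end

section

open scoped InnerProductSpace Topology ENNReal BoundedContinuousFunction

open ContinuousLinearMap Filter MeasureTheory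

namespace Pool.Agent.Helper23.ED

open Pool.Agent.Helper23 Pool.Agent.Helper23.RBF

open Pool.Agent.Helper78.BC.Transport (Sub r)

universe u

variable {H : Type*} [NormedAddCommGroup H] [InnerProductSpace ℂ H] [CompleteSpace H]

variable {A : VonNeumannAlgebra H} {ξ : H} {R : H →L[ℂ] H} {D : H →L[ℝ] H}
  {Ψ : (ℝ →ᵇ ℂ) →⋆ₐ[ℂ] (H →L[ℂ] H)}

lemma GgD_kap {m : ℕ} {f' : L2R ℂ} (hf' : Pn m f' = f') (g : L2R ℂ) (ρ : ℝ) :
    kap f' (mulOp ℂ (he m) g) ρ = ((Real.exp ρ : ℝ) : ℂ) *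
      kap (mulOp ℂ (he m) f') (mulOp ℂ (ind (Set.Ico (-(m : ℝ)) m)) g) ρ := by
  rw [kap_apply, kap_apply, L2.inner_def, L2.inner_def, ← integral_const_mul]
  refine integral_congr_ae ?_
  filter_upwards [tr_coe (-ρ) (mulOp ℂ (he m) g), ae_tr (-ρ) (mulOp_coe (he_bm m) g),
    tr_coe (-ρ) (mulOp ℂ (ind (Set.Ico (-(m : ℝ)) m)) g),
    ae_tr (-ρ) (mulOp_coe (ind_bm (measurableSet_Ico (a := -(m : ℝ)) (b := m))) g),
    mulOp_coe (he_bm m) f', supp_of_Pn hf'] with s h1 h2 h3 h4 h5 h6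
  rw [h1, h2, h3, h4, h5, inner_smul_right, inner_smul_left, inner_smul_right]
  by_cases hs : s ∈ Set.Ico (-(m : ℝ)) m
  · by_cases hs' : s - -ρ ∈ Set.Ico (-(m : ℝ)) m
    · rw [he_of_mem hs, he_of_mem hs', ind_of_mem hs', Complex.conj_ofReal, one_mul,
        ← mul_assoc, ← Complex.ofReal_mul, ← Real.exp_add]
      congr 3
      ring
    · rw [he_of_notMem hs', ind_of_notMem hs']
      ring
  · rw [h6 hs, inner_zero_left]
    ring

lemma GgD_rel {m : ℕ} {f' : L2R ℂ} (hf' : Pn m f' = f') (g : L2R ℂ) :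
    star FR * kap f' (mulOp ℂ (he m) g) =
      star (2 - FR) * kap (mulOp ℂ (he m) f') (mulOp ℂ (ind (Set.Ico (-(m : ℝ)) m)) g) := by
  rw [star_two_sub]
  ext ρ
  rw [BoundedContinuousFunction.mul_apply, BoundedContinuousFunction.mul_apply,
    BoundedContinuousFunction.star_apply, two_sub_FR, FR_apply, GgD_kap hf', Complex.star_def,
    Complex.conj_ofReal, ← mul_assoc, ← Complex.ofReal_mul]
  congr 2
  ring

lemma GgD_ten (hΨ : Modular A ξ R D Ψ) {m : ℕ} {f' : L2R ℂ} (hf' : Pn m f' = f') (v : H)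
    (g : L2R ℂ) (w : H) : ⟪ten f' (R v), WW Ψ (mulOp H (he m) (ten g w))⟫_ℂ =
      ⟪ten (mulOp ℂ (he m) f') ((2 : ℂ) • v - R v),
        WW Ψ (mulOp H (ind (Set.Ico (-(m : ℝ)) m)) (ten g w))⟫_ℂ := by
  rw [mulOp_ten (he_bm m), mulOp_ten (ind_bm measurableSet_Ico), WW, hΨ.key, hΨ.key,
    ← hΨ.psi_two_sub, ← hΨ.psi_FR, psi_adj, psi_adj, ← psi_mul_apply, ← psi_mul_apply,
    GgD_rel hf']

end Pool.Agent.Helper23.ED

end
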