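import Pool.Agent.Helper23.FA.Ns
import Pool.Agent.Helper23.FA.L01_02
import Pool.Agent.Helper23.FA.L01_03
import Pool.Agent.Helper23.FA.L01_04
import Pool.Agent.Helper23.FA.L01_07
import Pool.Agent.Helper23.FA.L01_08
import Pool.Agent.Helper23.FA.L01_13
import Pool.Agent.Helper23.FA.L01_16
import Pool.Agent.Helper23.FA.L01_17
import Pool.Agent.Helper23.FA.L01_18

/-!
Parts of Helper43.TTF.A, Helper43.TTF.B, Helper43.TTF.C, Helper43.TTF.F, Helper43.TTF.G, Helper70.U8a, Helper70.U8, Helper23.Pin2, Helper78.BC.StdEx, Helper88.CS.JUniq, Helper23.ED.SmF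
-/

section

open scoped InnerProductSpace Topology BoundedContinuousFunction

open ContinuousLinearMap Filter MeasureTheory

namespace Pool.Agent.Helper43.TTF

open Pool.Agent.Helper23

variable {H : Type*} [NormedAddCommGroup H] [InnerProductSpace ℂ H] [CompleteSpace H]

theorem exists_FC {A : VonNeumannAlgebra H} {ξ : H} {R : H →L[ℂ] H} {D : H →L[ℝ] H}
    (h : TTData A ξ R D) : ∃ Ψ : (ℝ →ᵇ ℂ) →⋆ₐ[ℂ] (H →L[ℂ] H), FC R D Ψ := by
  obtain ⟨Ψ, h1, h2, h3, h4⟩ := exists_fc R h.R_star h.R_nonneg h.R_le h.R_inj h.R_inj'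
  exact ⟨Ψ, h1, h2, h3 D h.D_conj h.D_R, h4⟩

section

variable {R : H →L[ℂ] H} {D : H →L[ℝ] H} {Ψ : (ℝ →ᵇ ℂ) →⋆ₐ[ℂ] (H →L[ℂ] H)}

lemma FC.psi_refl_FR (h : FC R D Ψ) : Ψ (refl FR) = (2 : ℂ) • (1 : H →L[ℂ] H) - R := by
  rw [refl_FR, map_sub, h.psi_FR, psi_two]

lemma FC.symm (h : FC R D Ψ) : FC ((2 : ℂ) • (1 : H →L[ℂ] H) - R) D (Ψ.comp refl) where
  psi_FR := h.psi_refl_FR
  psi_comm := by
    intro X hX G
    refine h.psi_comm X ?_ (refl G)
    have h1 : X * ((2 : ℂ) • (1 : H →L[ℂ] H)) = ((2 : ℂ) • (1 : H →L[ℂ] H)) * X := by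
      rw [mul_smul_comm, smul_mul_assoc, mul_one, one_mul]
    rw [mul_sub, sub_mul, h1] at hX
    exact sub_right_injective hX
  psi_D := by
    intro G G' hG v
    refine h.psi_D (refl G) (refl G') ?_ v
    intro ρ
    rw [refl_apply, refl_apply, hG]
  psi_cont := by
    intro G G₀ C hC hG v
    refine h.psi_cont (fun n => refl (G n)) (refl G₀) C (fun n => (refl_norm _).trans (hC n)) ?_ v
    intro L
    have h1 := hG L
    rw [Metric.tendstoUniformlyOn_iff] at h1 ⊢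
    intro ε hε
    filter_upwards [h1 ε hε] with n hn ρ hρ
    refine hn (-ρ) ?_
    rw [Set.mem_Icc] at hρ ⊢
    constructor <;> linarith [hρ.1, hρ.2]

end

end Pool.Agent.Helper43.TTF

end

section

open scoped InnerProductSpace Topology BoundedContinuousFunction

open ContinuousLinearMap Filter MeasureTheory

namespace Pool.Agent.Helper43.TTF

open Pool.Agent.Helper23

variable {H : Type*} [NormedAddCommGroup H] [InnerProductSpace ℂ H] [CompleteSpace H]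

variable {R : H →L[ℂ] H} {D : H →L[ℝ] H} {Ψ : (ℝ →ᵇ ℂ) →⋆ₐ[ℂ] (H →L[ℂ] H)}

lemma FC.psi_xi (h : FC R D Ψ) {ξ : H} (hξ : R ξ = ξ) (G : ℝ →ᵇ ℂ) : Ψ G ξ = G 0 • ξ := by
  set G' : ℝ →ᵇ ℂ := G - (G 0) • 1 with hG'
  have h0 : G' 0 = 0 := by
    rw [hG', BoundedContinuousFunction.sub_apply, BoundedContinuousFunction.smul_apply,
      one_bcf, smul_eq_mul, mul_one, sub_self]
  have h1 := h.psi_cont (fun n => G' * (hB n * (FR - 1))) G' ‖G'‖ ?_ (tendsto_hB G' h0) ξ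
  · have h2 : ∀ n, Ψ (G' * (hB n * (FR - 1))) ξ = 0 := by
      intro n
      have h3 : Ψ (FR - 1) ξ = 0 := by
        rw [map_sub, map_one, h.psi_FR, sub_apply, one_apply_eq_self, hξ, sub_self]
      rw [map_mul, map_mul, mul_apply_eq_comp, mul_apply_eq_comp, h3, map_zero, map_zero]
    simp only [h2] at h1
    have h3 := tendsto_nhds_unique h1 tendsto_const_nhds
    rw [hG', map_sub, map_smul, map_one, sub_apply, smul_apply, one_apply_eq_self] at h3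
    exact sub_eq_zero.1 h3
  · intro n
    rw [BoundedContinuousFunction.norm_le (norm_nonneg _)]
    intro ρ
    rw [BoundedContinuousFunction.mul_apply, hB_mul, norm_mul, Complex.norm_real,
      Real.norm_of_nonneg (by positivity)]
    have hle : fr ρ ^ 2 / (fr ρ ^ 2 + 1 / ((n : ℝ) + 1)) ≤ 1 := by
      rw [div_le_one (by positivity)]
      have : 0 < 1 / ((n : ℝ) + 1) := by positivity
      linarith
    calc ‖G' ρ‖ * (fr ρ ^ 2 / (fr ρ ^ 2 + 1 / ((n : ℝ) + 1))) ≤ ‖G'‖ * 1 := by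
          gcongr
          exact G'.norm_coe_le_norm ρ
      _ = ‖G'‖ := mul_one _

end Pool.Agent.Helper43.TTF

end

section

open scoped InnerProductSpace Topology BoundedContinuousFunction

open ContinuousLinearMap Filter MeasureTheory

namespace Pool.Agent.Helper43.TTF

open Pool.Agent.Helper23

variable {H : Type*} [NormedAddCommGroup H] [InnerProductSpace ℂ H] [CompleteSpace H]

variable {A : VonNeumannAlgebra H} {ξ : H}

variable {R : H →L[ℂ] H} {D : H →L[ℝ] H} {Ψ : (ℝ →ᵇ ℂ) →⋆ₐ[ℂ] (H →L[ℂ] H)}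

lemma FC.T_sq (h : FC R D Ψ) (v : H) : Ψ FT (Ψ FT v) = R ((2 : ℂ) • v - R v) := by
  rw [← psi_mul_apply, FT_sq, psi_mul_apply, map_sub, h.psi_FR, psi_two, sub_apply, smul_apply,
    one_apply_eq_self]

lemma FC.T_inj (h : FC R D Ψ) (h' : TTData A ξ R D) (v : H) (hv : Ψ FT v = 0) : v = 0 := by
  have h1 := h.T_sq v
  rw [hv, map_zero] at h1
  have h2 := h'.R_inj _ h1.symm
  exact h'.R_inj' v (sub_eq_zero.1 h2).symm

lemma FC.T_dense (h : FC R D Ψ) (h' : TTData A ξ R D) : DenseRange (Ψ FT) := by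
  have h1 : Dense (((Ψ FT : H →L[ℂ] H).range : Submodule ℂ H) : Set H) := by
    rw [Submodule.dense_iff_topologicalClosure_eq_top,
      Submodule.topologicalClosure_eq_top_iff, Submodule.eq_bot_iff]
    intro v hv
    rw [Submodule.mem_orthogonal] at hv
    apply h.T_inj h'
    rw [← inner_self_eq_zero (𝕜 := ℂ), ← T_symm]
    exact hv _ ⟨Ψ FT v, rfl⟩
  exact h1

lemma FC.D_norm (h : FC R D Ψ) (h' : TTData A ξ R D) (v : H) : ‖D v‖ = ‖Ψ FT v‖ := by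
  have h1 : ⟪D v, D v⟫_ℂ = ⟪Ψ FT v, Ψ FT v⟫_ℂ := by
    rw [h'.D_symm, h'.D_sq, ← h.T_sq, T_symm]
  rw [inner_self_eq_norm_sq_to_K, inner_self_eq_norm_sq_to_K] at h1
  have h2 : ‖D v‖ ^ 2 = ‖Ψ FT v‖ ^ 2 := by
    have h3 : ((‖D v‖ ^ 2 : ℝ) : ℂ) = ((‖Ψ FT v‖ ^ 2 : ℝ) : ℂ) := by
      push_cast
      exact h1
    exact Complex.ofReal_injective h3
  exact (pow_left_inj₀ (norm_nonneg _) (norm_nonneg _) two_ne_zero).1 h2

lemma FC.D_T (h : FC R D Ψ) (v : H) : D (Ψ FT v) = Ψ FT (D v) := by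
  apply h.psi_D
  intro ρ
  rw [FT_apply, FT_apply, Complex.conj_ofReal, neg_div, Real.cosh_neg]

theorem FC.exists_J (h : FC R D Ψ) (h' : TTData A ξ R D) : ∃ J : H →L[ℝ] H, JD D Ψ J := by
  set e : H →ₗ[ℝ] H := ((Ψ FT).restrictScalars ℝ : H →L[ℝ] H).toLinearMap with he
  have hd : DenseRange e := h.T_dense h'
  have hn : ∀ v, ‖(D : H →ₗ[ℝ] H) v‖ ≤ 1 * ‖e v‖ := by
    intro v
    rw [one_mul]
    exact (h.D_norm h' v).le
  set J : H →L[ℝ] H := (D : H →ₗ[ℝ] H).extendOfNorm e with hJ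
  have hJT : ∀ v, J (Ψ FT v) = D v := fun v => LinearMap.extendOfNorm_eq hd ⟨1, hn⟩ v
  have hdense : ∀ (p : H → Prop), IsClosed {v | p v} → (∀ v, p (Ψ FT v)) → ∀ v, p v := by
    intro p hp h1 v
    have hsub : Set.range (Ψ FT) ⊆ {v | p v} := by
      rintro _ ⟨w, rfl⟩
      exact h1 w
    exact closure_minimal hsub hp (h.T_dense h' v)
  refine ⟨J, hJT, ?_, ?_, ?_, ?_⟩
  · refine hdense _ (isClosed_eq (by fun_prop) (by fun_prop)) ?_
    intro v
    rw [hJT, h.D_T]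
  · refine hdense _ (isClosed_eq (by fun_prop) (by fun_prop)) ?_
    refine hdense _ (isClosed_eq (by fun_prop) (by fun_prop)) ?_
    intro v
    rw [hJT, h.D_T, hJT, h'.D_sq, h.T_sq]
  · intro c
    refine hdense _ (isClosed_eq (by fun_prop) (by fun_prop)) ?_
    intro v
    rw [← map_smul, hJT, hJT, h'.D_conj]
  · refine hdense _ (isClosed_eq (by fun_prop) (by fun_prop)) ?_
    intro v
    rw [hJT, h.D_norm h']

end Pool.Agent.Helper43.TTF

end

section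

open scoped InnerProductSpace Topology BoundedContinuousFunction FourierTransform

open ContinuousLinearMap Filter MeasureTheory

namespace Pool.Agent.Helper43.TTF

open Pool.Agent.Helper23

variable {H : Type*} [NormedAddCommGroup H] [InnerProductSpace ℂ H] [CompleteSpace H]

variable {R : H →L[ℂ] H} {D : H →L[ℝ] H} {Ψ : (ℝ →ᵇ ℂ) →⋆ₐ[ℂ] (H →L[ℂ] H)} {J : H →L[ℝ] H}

lemma mc_cont (h : FC R D Ψ) (y : H →L[ℂ] H) (v w : H) : Continuous (mc Ψ y v w) := by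
  have h1 : mc Ψ y v w = fun t => ⟪Ψ (expB (-t)) v, y (Ψ (expB (-t)) w)⟫_ℂ := by
    funext t
    unfold mc
    rw [psi_star Ψ (expB (-t)), expB_star, neg_neg]
  rw [h1]
  have h2 := (U_cont h v).comp continuous_neg
  have h3 := (U_cont h w).comp continuous_neg
  exact Continuous.inner h2 (y.continuous.comp h3)

lemma mc_norm (Ψ : (ℝ →ᵇ ℂ) →⋆ₐ[ℂ] (H →L[ℂ] H)) (y : H →L[ℂ] H) (v w : H) (t : ℝ) :
    ‖mc Ψ y v w t‖ ≤ ‖v‖ * (‖y‖ * ‖w‖) := by
  unfold mc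
  refine (norm_inner_le_norm _ _).trans ?_
  gcongr
  refine (U_norm Ψ _ _).trans ?_
  refine (y.le_opNorm _).trans ?_
  gcongr
  exact U_norm Ψ _ _

lemma mc_int (h : FC R D Ψ) (y : H →L[ℂ] H) (v w : H) (β : ℝ) :
    Integrable (fun t => ker β t * mc Ψ y v w t) := by
  refine Integrable.mono' (ker_int.mul_const (‖v‖ * (‖y‖ * ‖w‖)))
    ((ker_cont β).mul (mc_cont h y v w)).aestronglyMeasurable
    (Eventually.of_forall fun t => ?_)
  rw [norm_mul, ker_norm]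
  gcongr
  exact mc_norm Ψ y v w t

theorem integral_formula (h : FC R D Ψ) (hJ : JD D Ψ J) {x' x : H →L[ℂ] H} {β : ℝ}
    (hx : ∀ v : H, D (x' (D v)) =
      ((Real.exp (-β / 2) : ℝ) : ℂ) • ((2 : ℂ) • x (R v) - R (x (R v))) +
      ((Real.exp (β / 2) : ℝ) : ℂ) • R (x ((2 : ℂ) • v - R v))) (v w : H) :
    ⟪v, x w⟫_ℂ = ∫ t : ℝ, ker β t * mc Ψ (hJ.cj x') v w t := by
  set y := hJ.cj x' with hy
  have h1 : Tendsto (fun n => ⟪Ψ (ctB n) v, x (Ψ (ctB n) w)⟫_ℂ) atTop (𝓝 ⟪v, x w⟫_ℂ) :=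
    (tendsto_ct h v).inner ((x.continuous.tendsto w).comp (tendsto_ct h w))
  have hb : ∀ (n : ℕ) (u : H), ‖Ψ (ctB n) u‖ ≤ ‖u‖ := by
    intro n u
    refine (psi_norm_apply Ψ _ u).trans ?_
    calc ‖ctB n‖ * ‖u‖ ≤ 1 * ‖u‖ := by gcongr; exact ctB_norm n
      _ = ‖u‖ := one_mul _
  have h2 : Tendsto (fun n => ∫ t : ℝ, ker β t * mc Ψ y (Ψ (ctB n) v) (Ψ (ctB n) w) t) atTop
      (𝓝 (∫ t : ℝ, ker β t * mc Ψ y v w t)) := by
    refine tendsto_integral_of_dominated_convergence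
      (fun t => (2 * Real.cosh (Real.pi * t))⁻¹ * (‖v‖ * (‖y‖ * ‖w‖))) ?_ ?_ ?_ ?_
    · intro n
      exact ((ker_cont β).mul (mc_cont h y _ _)).aestronglyMeasurable
    · exact ker_int.mul_const _
    · intro n
      refine Eventually.of_forall fun t => ?_
      rw [norm_mul, ker_norm]
      gcongr
      refine (mc_norm Ψ y _ _ t).trans ?_
      gcongr
      · exact hb n v
      · exact hb n w
    · refine Eventually.of_forall fun t => ?_
      refine Tendsto.const_mul _ ?_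
      unfold mc
      refine (tendsto_ct h v).inner ?_
      have h3 : Continuous (fun u => Ψ (expB t) (y (Ψ (expB (-t)) u))) := by fun_prop
      exact (h3.tendsto w).comp (tendsto_ct h w)
  refine tendsto_nhds_unique h1 ?_
  refine h2.congr fun n => ?_
  exact (integral_cut h hJ hx n v w).symm

theorem tomita {A : VonNeumannAlgebra H} {ξ : H} (h' : TTData A ξ R D)
    (hcyc : Dense (orb A ξ : Set H)) (hcyc' : Dense (orb A.commutant ξ : Set H))
    (h : FC R D Ψ) (hJ : JD D Ψ J) {x' : H →L[ℂ] H} (hx' : x' ∈ A.commutant) (t : ℝ) :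
    Ψ (expB t) * hJ.cj x' * Ψ (expB (-t)) ∈ A := by
  rw [mem_iff_commutes]
  intro z hz
  ext w
  rw [← sub_eq_zero]
  refine ext_inner_left ℂ fun v => ?_
  rw [inner_zero_right, inner_sub_right]
  set y := hJ.cj x' with hy
  have key : ∀ t : ℝ, mc Ψ y ((star z) v) w t - mc Ψ y v (z w) t = 0 := by
    refine eq_zero_of_fourier ((mc_cont h y _ _).sub (mc_cont h y _ _)) ?_ ?_
    · have h1 := (mc_int h y ((star z) v) w 0).sub (mc_int h y v (z w) 0)
      refine h1.congr (Eventually.of_forall fun t => ?_)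
      have h2 : ker 0 t = ((2 * Real.cosh (Real.pi * t) : ℝ) : ℂ)⁻¹ := by
        unfold ker
        simp
      simp only [Pi.sub_apply, h2]
      ring
    · intro β
      obtain ⟨x, hxA, hx⟩ := h'.exists_RN hcyc hcyc' hx' β
      have h1 := integral_formula h hJ hx ((star z) v) w
      have h2 := integral_formula h hJ hx v (z w)
      have h3 : (fun t => ker β t * (mc Ψ y ((star z) v) w t - mc Ψ y v (z w) t)) =
          fun t => ker β t * mc Ψ y ((star z) v) w t - ker β t * mc Ψ y v (z w) t := by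
        funext t
        rw [mul_sub]
      rw [h3, integral_sub (mc_int h y _ _ β) (mc_int h y _ _ β), ← h1, ← h2, inner_star_left,
        commute_apply hxA hz, sub_self]
  have h1 := key t
  unfold mc at h1
  rw [inner_star_left] at h1
  exact h1

end Pool.Agent.Helper43.TTF

end

section

open scoped InnerProductSpace Topology BoundedContinuousFunction

open ContinuousLinearMap Filter MeasureTheory

namespace Pool.Agent.Helper43.TTF

open Pool.Agent.Helper23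

variable {H : Type*} [NormedAddCommGroup H] [InnerProductSpace ℂ H] [CompleteSpace H]

variable {R : H →L[ℂ] H} {D : H →L[ℝ] H} {Ψ : (ℝ →ᵇ ℂ) →⋆ₐ[ℂ] (H →L[ℂ] H)} {J : H →L[ℝ] H}

lemma expB_zero : expB 0 = 1 := by
  ext ρ
  rw [expB_apply, one_bcf]
  simp

/-- `J A J = A'` (one inclusion). -/
lemma cj_mem {A : VonNeumannAlgebra H} {ξ : H} (h' : TTData A ξ R D)
    (hcyc : Dense (orb A ξ : Set H)) (hcyc' : Dense (orb A.commutant ξ : Set H))
    (h : FC R D Ψ) (hJ : JD D Ψ J) {a : H →L[ℂ] H} (ha : a ∈ A) : hJ.cj a ∈ A.commutant := by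
  have h1 := tomita h'.symm hcyc' (by rwa [VonNeumannAlgebra.commutant_commutant]) h.symm hJ.symm
    (x' := a) (by rwa [VonNeumannAlgebra.commutant_commutant]) 0
  rw [neg_zero, expB_zero, map_one, one_mul, mul_one] at h1
  exact h1

/-- Tomita's theorem -/
theorem tomita' {A : VonNeumannAlgebra H} {ξ : H} (h' : TTData A ξ R D)
    (hcyc : Dense (orb A ξ : Set H)) (hcyc' : Dense (orb A.commutant ξ : Set H))
    (h : FC R D Ψ) (hJ : JD D Ψ J) {a : H →L[ℂ] H} (ha : a ∈ A) (t : ℝ) :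
    Ψ (expB t) * a * Ψ (expB (-t)) ∈ A := by
  have h1 := tomita h' hcyc hcyc' h hJ (cj_mem h' hcyc hcyc' h hJ ha) t
  rwa [hJ.cj_cj] at h1

theorem modular_of {A : VonNeumannAlgebra H} {ξ : H} (h' : TTData A ξ R D)
    (hcyc : Dense (orb A ξ : Set H)) (hsep : ∀ a ∈ A, a ξ = 0 → a = 0)
    (h : FC R D Ψ) : Modular A ξ R D Ψ := by
  obtain ⟨J, hJ⟩ := h.exists_J h'
  exact ⟨h', h.psi_FR, h.psi_comm, h.psi_D, h.psi_cont, h.psi_xi (R_xi h'),
    fun t a ha => tomita' h' hcyc (dense_of_separating A ξ hsep) h hJ ha t⟩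

end Pool.Agent.Helper43.TTF

end

section

open scoped InnerProductSpace Topology BoundedContinuousFunction

open ContinuousLinearMap Filter MeasureTheory

namespace Pool.Agent.Helper70.U8

open Pool.Agent.Helper23

variable {H : Type*} [NormedAddCommGroup H] [InnerProductSpace ℂ H] [CompleteSpace H]

variable {A : VonNeumannAlgebra H} {ξ : H} {R : H →L[ℂ] H} {D : H →L[ℝ] H}
  {Ψ : (ℝ →ᵇ ℂ) →⋆ₐ[ℂ] (H →L[ℂ] H)}

lemma sm_norm (h : Modular A ξ R D Ψ) {k : ℝ → ℂ} (hk : Integrable k) (z : H →L[ℂ] H) :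
    ‖sm h hk z‖ ≤ (∫ t, ‖k t‖) * ‖z‖ :=
  LinearMap.mkContinuous_norm_le _
    (mul_nonneg (integral_nonneg fun _ => norm_nonneg _) (norm_nonneg _)) _

lemma sm_mem (h : Modular A ξ R D Ψ) {k : ℝ → ℂ} (hk : Integrable k) {B : VonNeumannAlgebra H}
    (hB : ∀ (t : ℝ), ∀ a ∈ B, Ψ (expB t) * a * Ψ (expB (-t)) ∈ B) {z : H →L[ℂ] H} (hz : z ∈ B) :
    sm h hk z ∈ B := by
  rw [mem_iff_commutes]
  intro g hg
  ext w
  rw [mul_apply_eq_comp, mul_apply_eq_comp, sm_apply, sm_apply,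
    ← ContinuousLinearMap.integral_comp_comm g (orbit_int h hk z w)]
  congr 1
  funext t
  rw [map_smul]
  congr 1
  have h1 := hB (2 * Real.pi * t) z hz
  have h2 := commute_apply h1 hg w
  simp only [mul_apply_eq_comp] at h2
  exact h2.symm

lemma sm_star (h : Modular A ξ R D Ψ) {k : ℝ → ℂ} (hk : Integrable k)
    (hr : ∀ t, (starRingEnd ℂ) (k t) = k t) (z : H →L[ℂ] H) :
    star (sm h hk z) = sm h hk (star z) := by
  ext w
  refine ext_inner_left ℂ fun v => ?_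
  rw [inner_star_right, ← inner_conj_symm, inner_sm, inner_sm, ← integral_conj]
  congr 1
  funext t
  rw [map_mul, hr, inner_conj_symm, ← inner_star_right (U Ψ t), U_star, ← inner_star_right z,
    ← inner_star_right (V Ψ t), V_star]

lemma sm_xi (h : Modular A ξ R D Ψ) {k : ℝ → ℂ} (hk : Integrable k) {K : ℝ →ᵇ ℂ}
    (hK : ∀ ρ, K ρ = ∫ t, k t * expB (2 * Real.pi * t) ρ) (z : H →L[ℂ] H) :
    sm h hk z ξ = Ψ K (z ξ) := by
  refine ext_inner_left ℂ fun v => ?_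
  rw [inner_sm, ← h.integral_psi hk hK]
  congr 1
  funext t
  rw [V_xi h]
  rfl

end Pool.Agent.Helper70.U8

end

section

open scoped InnerProductSpace Topology BoundedContinuousFunction

open ContinuousLinearMap Filter MeasureTheory

namespace Pool.Agent.Helper70.U8

open Pool.Agent.Helper23

variable {H : Type*} [NormedAddCommGroup H] [InnerProductSpace ℂ H] [CompleteSpace H]

variable {A : VonNeumannAlgebra H} {ξ : H} {R : H →L[ℂ] H} {D : H →L[ℝ] H}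
  {Ψ : (ℝ →ᵇ ℂ) →⋆ₐ[ℂ] (H →L[ℂ] H)} {J : H →L[ℝ] H}

open Pool.Agent.Helper43.TTF (FC JD FT FT_apply FR_apply)

lemma J_psi (h' : TTData A ξ R D) (hF : FC R D Ψ) (hJ : JD D Ψ J) {ε : ℝ} (hε : 0 < ε)
    {z : H →L[ℂ] H} (hz : z ∈ A) :
    J (Ψ (GB ε hε (1 / 2)) ((star z) ξ)) = Ψ (GB ε hε 0) (z ξ) := by
  rw [← sub_eq_zero]
  refine hF.T_inj h' _ ?_
  rw [map_sub, hJ.T_J]
  have h1 : D (Ψ (GB ε hε (1 / 2)) ((star z) ξ)) =
      Ψ (GB ε hε (-(1 / 2))) (D ((star z) ξ)) := by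
    refine hF.psi_D _ _ (fun ρ => ?_) _
    rw [GB_apply, GB_apply, Complex.conj_ofReal]
    congr 2
    ring
  have h2 : D ((star z) ξ) = Ψ (2 - FR) (z ξ) := by
    rw [h'.D_mem _ (star_mem hz), star_star, map_sub, hF.psi_FR,
      Pool.Agent.Helper43.TTF.psi_two, sub_apply, smul_apply, one_apply_eq_self]
  rw [h1, h2, ← psi_mul_apply, ← psi_mul_apply, key_mul, sub_self]

/-- right boundedness of the smoothed vectors -/
lemma smooth_right (h : Modular A ξ R D Ψ) (hF : FC R D Ψ) (hJ : JD D Ψ J)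
    (hcj : ∀ a ∈ A, hJ.cj a ∈ A.commutant) {ε : ℝ} (hε : 0 < ε)
    {z : H →L[ℂ] H} (hz : z ∈ A) :
    ∃ r ∈ A.commutant, ‖r‖ ≤ Real.exp ((1 / 2) ^ 2 / (4 * ε)) * ‖z‖ ∧
      r ξ = sm h (kg_int hε 0) z ξ := by
  refine ⟨hJ.cj (sm h (kg_int hε (1 / 2)) (star z)), hcj _ (sm_mem h _ h.mem (star_mem hz)),
    ?_, ?_⟩
  · refine (cj_norm hJ _).trans ((sm_norm h _ _).trans ?_)
    rw [kg_integral_norm hε, norm_star]
  · rw [hJ.cj_apply, J_xi h.data hJ h, sm_xi h _ (K := GB ε hε (1 / 2))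
      (fun ρ => by rw [GB_apply]; exact kg_fourier hε _ ρ),
      sm_xi h _ (K := GB ε hε 0) (fun ρ => by rw [GB_apply]; exact kg_fourier hε _ ρ),
      J_psi h.data hF hJ hε hz]

lemma psi_D_norm (h' : TTData A ξ R D) (hF : FC R D Ψ) {ε : ℝ} (hε : 0 < ε) (v : H) :
    ‖Ψ (1 - GB ε hε 0) (D v)‖ ≤ 8 * ε * ‖v‖ := by
  have h1 : Ψ (1 - GB ε hε 0) (D v) = D (Ψ (1 - GB ε hε 0) v) := by
    refine (hF.psi_D _ _ (fun ρ => ?_) _).symm
    rw [BoundedContinuousFunction.sub_apply, BoundedContinuousFunction.sub_apply, map_sub,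
      GB_apply, GB_apply, Complex.conj_ofReal, Pool.Agent.Helper43.TTF.one_bcf,
      Pool.Agent.Helper43.TTF.one_bcf, map_one]
    congr 3
    ring
  rw [h1, hF.D_norm h', ← psi_mul_apply]
  refine ((Ψ _).le_opNorm v).trans ?_
  gcongr
  exact (psi_norm_le Ψ _).trans (FT_mul_norm hε)

lemma est (h' : TTData A ξ R D) (hF : FC R D Ψ) (hξ : ‖ξ‖ = 1) {ε : ℝ} (hε : 0 < ε)
    {a r : H →L[ℂ] H} (ha : a ∈ A) (hr : r ∈ A.commutant) :
    ‖Ψ (1 - GB ε hε 0) (a ξ)‖ ≤ 2 * ‖a ξ - r ξ‖ + 8 * ε * (‖a‖ + ‖r‖) := by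
  have e1 : D ((star a) ξ) = (2 : ℂ) • a ξ - R (a ξ) := by
    rw [h'.D_mem _ (star_mem ha), star_star]
  have e2 : D ((star r) ξ) = R (r ξ) := by
    rw [h'.D_comm _ (star_mem hr), star_star]
  have e3 : (2 : ℂ) • a ξ = D ((star a) ξ) + (R (a ξ - r ξ) + D ((star r) ξ)) := by
    rw [e1, e2, map_sub]
    abel
  have n1 : ‖(star a) ξ‖ ≤ ‖a‖ := by
    have := (star a).le_opNorm ξ
    rwa [hξ, mul_one, norm_star] at this
  have n2 : ‖(star r) ξ‖ ≤ ‖r‖ := by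
    have := (star r).le_opNorm ξ
    rwa [hξ, mul_one, norm_star] at this
  have e4 : (2 : ℂ) • Ψ (1 - GB ε hε 0) (a ξ) = Ψ (1 - GB ε hε 0) (D ((star a) ξ)) +
      (Ψ (1 - GB ε hε 0) (R (a ξ - r ξ)) + Ψ (1 - GB ε hε 0) (D ((star r) ξ))) := by
    rw [← map_smul, e3, map_add, map_add]
  have n3 : ‖FR‖ ≤ 2 := by
    refine (BoundedContinuousFunction.norm_le zero_le_two).2 fun ρ => ?_
    rw [Pool.Agent.Helper43.TTF.FR_apply, Complex.norm_real, Real.norm_of_nonneg (by positivity)]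
    rw [div_le_iff₀ (by positivity)]
    nlinarith [Real.exp_pos ρ]
  have n4 : ‖Ψ (1 - GB ε hε 0) (R (a ξ - r ξ))‖ ≤ 2 * ‖a ξ - r ξ‖ := by
    rw [← hF.psi_FR, ← psi_mul_apply]
    refine ((Ψ _).le_opNorm _).trans ?_
    gcongr
    refine (psi_norm_le Ψ _).trans ((norm_mul_le _ _).trans ?_)
    calc ‖(1 - GB ε hε 0 : ℝ →ᵇ ℂ)‖ * ‖FR‖ ≤ 1 * 2 :=
          mul_le_mul (one_sub_norm hε) n3 (norm_nonneg _) zero_le_one
      _ = 2 := one_mul 2
  have n5 := psi_D_norm h' hF hε ((star a) ξ)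
  have n6 := psi_D_norm h' hF hε ((star r) ξ)
  have n7 : 2 * ‖Ψ (1 - GB ε hε 0) (a ξ)‖ ≤ ‖Ψ (1 - GB ε hε 0) (D ((star a) ξ))‖ +
      (‖Ψ (1 - GB ε hε 0) (R (a ξ - r ξ))‖ + ‖Ψ (1 - GB ε hε 0) (D ((star r) ξ))‖) := by
    have h1 : 2 * ‖Ψ (1 - GB ε hε 0) (a ξ)‖ = ‖(2 : ℂ) • Ψ (1 - GB ε hε 0) (a ξ)‖ := by
      rw [norm_smul]
      norm_num
    rw [h1, e4]
    refine (norm_add_le _ _).trans ?_
    gcongr
    exact norm_add_le _ _
  have n8 : 8 * ε * ‖(star a) ξ‖ ≤ 8 * ε * ‖a‖ := by gcongr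
  have n9 : 8 * ε * ‖(star r) ξ‖ ≤ 8 * ε * ‖r‖ := by gcongr
  have n10 := norm_nonneg (a ξ - r ξ)
  have n11 : 0 ≤ 8 * ε * ‖a‖ := by positivity
  have n12 : 0 ≤ 8 * ε * ‖r‖ := by positivity
  linarith

lemma sub_eq (h : Modular A ξ R D Ψ) {ε : ℝ} (hε : 0 < ε) (z : H →L[ℂ] H) :
    z ξ - sm h (kg_int hε 0) z ξ = Ψ (1 - GB ε hε 0) (z ξ) := by
  rw [sm_xi h _ (K := GB ε hε 0) (fun ρ => by rw [GB_apply]; exact kg_fourier hε _ ρ), map_sub,
    map_one, sub_apply, one_apply_eq_self]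

end Pool.Agent.Helper70.U8

end

section

open scoped InnerProductSpace Topology ENNReal

open ContinuousLinearMap Filter MeasureTheory

namespace Pool.Agent.Helper23

variable {H : Type*} [NormedAddCommGroup H] [InnerProductSpace ℂ H] [CompleteSpace H]

variable {M N : VonNeumannAlgebra H} {ξ : H} {E : (H →L[ℂ] H) → (H →L[ℂ] H)}

/-- the total mass of the slices -/
lemma sum_sa {u : L2R H →L[ℂ] L2R H} (hu1 : star u * u = 1) (hξ : ‖ξ‖ = 1) {t : ℝ} (ht : 0 < t)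
    (g : L2R ℂ) (A A' : Finset ℤ) (B : Finset hw) :
    ∑ j ∈ A', ∑ i ∈ A, ∑ k ∈ B, ‖sa u t g (i, k, j) ξ‖ ^ 2 ≤ ‖g‖ ^ 2 := by
  have h1 : ∀ j ∈ A', ∑ i ∈ A, ∑ k ∈ B, ‖sa u t g (i, k, j) ξ‖ ^ 2 ≤
      ‖mulOp ℂ (ind (win t j)) g‖ ^ 2 := by
    intro j _
    have h2 := bessel_both ht A B (fun i => ind_bm (win_meas t i))
      (fun i s h => ind_of_notMem h) zero_le_one (fun i s => ind_norm_le _ s)
      (u (ten (mulOp ℂ (ind (win t j)) g) ξ))
    rw [one_pow, one_mul, norm_of_isom hu1, norm_ten, hξ, mul_one] at h2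
    exact h2
  exact (Finset.sum_le_sum h1).trans (bessel_win ht A' g)

end Pool.Agent.Helper23

end

section

open scoped InnerProductSpace Topology BoundedContinuousFunction

open ContinuousLinearMap Filter

namespace Pool.Agent.Helper78.BC.StdEx

open Pool.Agent.Helper23 Pool.Agent.Helper70.U8

open Pool.Agent.Helper43.TTF (FC JD FT FT_apply FR_apply)

variable {H : Type*} [NormedAddCommGroup H] [InnerProductSpace ℂ H] [CompleteSpace H]

variable {A : VonNeumannAlgebra H} {ξ : H} {R : H →L[ℂ] H} {D : H →L[ℝ] H}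
  {Ψ : (ℝ →ᵇ ℂ) →⋆ₐ[ℂ] (H →L[ℂ] H)} {J : H →L[ℝ] H}

lemma ext_dense (h' : TTData A ξ R D) (hF : FC R D Ψ) (p : H → Prop) (hp : IsClosed {v | p v})
    (h1 : ∀ v, p (Ψ FT v)) (v : H) : p v := by
  have hsub : Set.range (Ψ FT) ⊆ {v | p v} := by
    rintro _ ⟨w, rfl⟩
    exact h1 w
  exact closure_minimal hsub hp (hF.T_dense h' v)

lemma psi_J' (h' : TTData A ξ R D) (hF : FC R D Ψ) (hJ : JD D Ψ J) (G G' : ℝ →ᵇ ℂ)
    (hG : ∀ ρ, G' ρ = (starRingEnd ℂ) (G (-ρ))) (v : H) : J (Ψ G v) = Ψ G' (J v) := by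
  refine ext_dense h' hF (fun v => J (Ψ G v) = Ψ G' (J v))
    (isClosed_eq (by fun_prop) (by fun_prop)) (fun v => ?_) v
  have h1 : Ψ G (Ψ FT v) = Ψ FT (Ψ G v) := by
    rw [← psi_mul_apply, mul_comm, psi_mul_apply]
  rw [h1, hJ.J_T, hJ.J_T, hF.psi_D G G' hG]

lemma psi_half' (h' : TTData A ξ R D) (hF : FC R D Ψ) (hJ : JD D Ψ J) (G G' : ℝ →ᵇ ℂ)
    (hG : ∀ ρ, G' ρ = ((Real.exp (ρ / 2) : ℝ) : ℂ) * G ρ) {a : H →L[ℂ] H} (ha : a ∈ A) :
    Ψ G (J ((star a) ξ)) = Ψ G' (a ξ) := by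
  rw [← sub_eq_zero]
  refine hF.T_inj h' _ ?_
  have h2 : D ((star a) ξ) = Ψ (2 - FR) (a ξ) := by
    rw [h'.D_mem _ (star_mem ha), star_star, map_sub, hF.psi_FR,
      Pool.Agent.Helper43.TTF.psi_two, sub_apply, smul_apply, one_apply_eq_self]
  have h3 : Ψ FT (Ψ G (J ((star a) ξ))) = Ψ G (Ψ FT (J ((star a) ξ))) := by
    rw [← psi_mul_apply, mul_comm, psi_mul_apply]
  have h4 : G * (2 - FR) = FT * G' := by
    ext ρ
    rw [BoundedContinuousFunction.mul_apply, BoundedContinuousFunction.mul_apply, Pool.Agent.Helper70.U8.two_sub_FR, hG]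
    ring
  rw [map_sub, h3, hJ.T_J, h2, ← psi_mul_apply, ← psi_mul_apply, h4, sub_self]

/-- the Gaussians converge to one -/
lemma psi_gauss (hF : FC R D Ψ) (v : H) :
    Tendsto (fun n : ℕ => Ψ (GB (1 / ((n : ℝ) + 1)) (by positivity) 0) v) atTop (𝓝 v) := by
  have h1 := hF.psi_cont (fun n : ℕ => GB (1 / ((n : ℝ) + 1)) (by positivity) 0) 1 1 ?_ ?_ v
  · rwa [map_one, one_apply_eq_self] at h1
  · intro n
    refine (BoundedContinuousFunction.norm_le zero_le_one).2 fun ρ => ?_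
    rw [GB_apply, Complex.norm_real, Real.norm_of_nonneg (Real.exp_pos _).le, zero_mul, add_zero]
    refine Real.exp_le_one_iff.2 ?_
    have : 0 ≤ 1 / ((n : ℝ) + 1) * ρ ^ 2 := by positivity
    linarith
  · intro L
    rw [Metric.tendstoUniformlyOn_iff]
    intro ε hε
    obtain ⟨m, hm⟩ := exists_nat_gt (L ^ 2 / ε)
    filter_upwards [eventually_ge_atTop m] with n hn ρ hρ
    have h2 : (0 : ℝ) < 1 / ((n : ℝ) + 1) := by positivity
    have h3 := (one_sub_norm_apply h2 ρ).trans (min_le_right _ _)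
    rw [BoundedContinuousFunction.sub_apply] at h3
    rw [dist_eq_norm]
    refine h3.trans_lt ?_
    have h4 : ρ ^ 2 ≤ L ^ 2 := by
      rw [Set.mem_Icc] at hρ
      exact sq_le_sq' (by linarith [hρ.1]) hρ.2
    have h5 : (m : ℝ) ≤ n := by exact_mod_cast hn
    have h6 : L ^ 2 / ε < (n : ℝ) + 1 := by linarith
    rw [div_lt_iff₀ hε] at h6
    rw [one_div, inv_mul_lt_iff₀ (by positivity)]
    linarith

lemma J_pos' (h' : TTData A ξ R D) (hF : FC R D Ψ) (hJ : JD D Ψ J) {a : H →L[ℂ] H}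
    (ha : a ∈ A) : 0 ≤ (⟪J (a ξ), (star a) ξ⟫_ℂ).re := by
  have h1 : Tendsto (fun n : ℕ => (⟪Ψ (GB (1 / ((n : ℝ) + 1)) (by positivity) 0) (J (a ξ)),
      (star a) ξ⟫_ℂ).re) atTop (𝓝 (⟪J (a ξ), (star a) ξ⟫_ℂ).re) :=
    (Complex.continuous_re.tendsto _).comp ((psi_gauss hF (J (a ξ))).inner tendsto_const_nhds)
  refine ge_of_tendsto' h1 fun n => ?_
  have hε : (0 : ℝ) < 1 / ((n : ℝ) + 1) := by positivity
  have h2 := psi_half' h' hF hJ (GB _ hε 0) (GB _ hε (1 / 2)) (fun ρ => by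
    rw [GB_apply, GB_apply, ← Complex.ofReal_mul, ← Real.exp_add]
    congr 2
    ring) (star_mem ha)
  rw [star_star] at h2
  have h3 : GB _ hε (1 / 2) = star (GB _ (half_pos hε) (1 / 4)) * GB _ (half_pos hε) (1 / 4) := by
    ext ρ
    rw [BoundedContinuousFunction.mul_apply, BoundedContinuousFunction.star_apply, GB_apply,
      GB_apply, Complex.star_def, Complex.conj_ofReal, ← Complex.ofReal_mul, ← Real.exp_add]
    congr 2
    ring
  rw [h2, h3, psi_mul_apply, map_star, inner_star_left, inner_self_eq_norm_sq_to_K]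
  have h4 : (((‖Ψ (GB _ (half_pos hε) (1 / 4)) ((star a) ξ)‖ : ℂ)) ^ 2).re =
    ‖Ψ (GB _ (half_pos hε) (1 / 4)) ((star a) ξ)‖ ^ 2 := by norm_cast
  exact h4.symm ▸ sq_nonneg _

lemma core' (h : Modular A ξ R D Ψ) (hF : FC R D Ψ) (hJ : JD D Ψ J)
    (hcyc : ∀ v : H, ∀ ε : ℝ, 0 < ε → ∃ a ∈ A, ‖a ξ - v‖ < ε) (G G' : ℝ →ᵇ ℂ)
    (hG : HasCompactSupport G) (hG' : ∀ ρ, G' ρ = ((Real.exp (ρ / 2) : ℝ) : ℂ) * G ρ)
    (θ : H) (ε : ℝ) (hε : 0 < ε) :
    ∃ b ∈ A, ‖b ξ - Ψ G θ‖ ≤ ε ∧ ‖J ((star b) ξ) - Ψ G' θ‖ ≤ ε := by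
  obtain ⟨G₁, hG₁⟩ := exists_quot G hG
  set g : ℝ →ᵇ ℂ := GB 1 one_pos 0 with hg
  set g' : ℝ →ᵇ ℂ := GB 1 one_pos (1 / 2) with hg'
  have e1 : ∀ ρ, g' ρ = ((Real.exp (ρ / 2) : ℝ) : ℂ) * g ρ := by
    intro ρ
    rw [hg, hg', GB_apply, GB_apply, ← Complex.ofReal_mul, ← Real.exp_add]
    congr 2
    ring
  have e2 : G' = g' * G₁ := by
    ext ρ
    rw [hG', hG₁, BoundedContinuousFunction.mul_apply, BoundedContinuousFunction.mul_apply, e1]
    ring
  set C : ℝ := ‖Ψ g‖ + ‖Ψ g'‖ + 1 with hC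
  have hCpos : 0 < C := by positivity
  obtain ⟨z, hz, hz'⟩ := hcyc (Ψ G₁ θ) (ε / C) (by positivity)
  have hb : ∀ w : H →L[ℂ] H, sm h (kg_int one_pos 0) w ξ = Ψ g (w ξ) := fun w =>
    sm_xi h _ (K := g) (fun ρ => by rw [hg, GB_apply]; exact kg_fourier one_pos _ ρ) w
  have key : ∀ F : ℝ →ᵇ ℂ, ‖Ψ F‖ ≤ C → ‖Ψ F (z ξ) - Ψ F (Ψ G₁ θ)‖ ≤ ε := by
    intro F hFC
    rw [← map_sub]
    refine ((Ψ F).le_opNorm _).trans ?_
    calc ‖Ψ F‖ * ‖z ξ - Ψ G₁ θ‖ ≤ C * (ε / C) :=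
          mul_le_mul hFC hz'.le (norm_nonneg _) hCpos.le
      _ = ε := by field_simp
  refine ⟨sm h (kg_int one_pos 0) z, sm_mem h _ h.mem hz, ?_, ?_⟩
  · rw [hb, hG₁, psi_mul_apply]
    refine key g ?_
    rw [hC]
    linarith [norm_nonneg (Ψ g')]
  · rw [sm_star h _ (kg_real _), hb, e2, psi_mul_apply]
    have e3 : J (Ψ g ((star z) ξ)) = Ψ g' (z ξ) := by
      rw [psi_J' h.data hF hJ g g (fun ρ => by
        rw [hg, GB_apply, GB_apply, Complex.conj_ofReal]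
        congr 2
        ring) ((star z) ξ)]
      exact psi_half' h.data hF hJ g g' e1 hz
    rw [e3]
    refine key g' ?_
    rw [hC]
    linarith [norm_nonneg (Ψ g)]

end Pool.Agent.Helper78.BC.StdEx

namespace Pool.Agent.Helper78.BC

variable {H : Type*} [NormedAddCommGroup H] [InnerProductSpace ℂ H] [CompleteSpace H]

theorem exists_std (A : VonNeumannAlgebra H) (ξ : H) (hξ : ‖ξ‖ = 1)
    (hcyc : Dense (Pool.Agent.Helper23.orb A ξ : Set H)) (hsep : ∀ a ∈ A, a ξ = 0 → a = 0) :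
    ∃ (J : H →L[ℝ] H) (Ψ : (ℝ →ᵇ ℂ) →⋆ₐ[ℂ] (H →L[ℂ] H)), Std A ξ J Ψ := by
  have hcyc' : Dense (Pool.Agent.Helper23.orb A.commutant ξ : Set H) :=
    Pool.Agent.Helper23.dense_of_separating A ξ hsep
  have h' := Pool.Agent.Helper43.TTF.ttdata A ξ hcyc hsep
  obtain ⟨Ψ, hF⟩ := Pool.Agent.Helper43.TTF.exists_FC h'
  obtain ⟨J, hJ⟩ := hF.exists_J h'
  have hmod := Pool.Agent.Helper43.TTF.modular_of h' hcyc hsep hF
  have happ : ∀ {B : VonNeumannAlgebra H}, Dense (Pool.Agent.Helper23.orb B ξ : Set H) →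
      ∀ v : H, ∀ ε : ℝ, 0 < ε → ∃ a ∈ B, ‖a ξ - v‖ < ε := by
    intro B hB v ε hε
    obtain ⟨w, ⟨a, ha, rfl⟩, hw⟩ := Metric.mem_closure_iff.1 (hB v) ε hε
    refine ⟨a, ha, ?_⟩
    rwa [dist_comm, dist_eq_norm] at hw
  have hcj : ∀ a ∈ A, hJ.cj a ∈ A.commutant := fun a ha =>
    Pool.Agent.Helper43.TTF.cj_mem h' hcyc hcyc' hF hJ ha
  have hcj' : ∀ b ∈ A.commutant, hJ.cj b ∈ A := by
    intro b hb
    have h1 := Pool.Agent.Helper43.TTF.cj_mem h'.symm hcyc'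
      (by rwa [VonNeumannAlgebra.commutant_commutant]) hF.symm hJ.symm hb
    rw [VonNeumannAlgebra.commutant_commutant] at h1
    exact h1
  refine ⟨J, Ψ, ⟨hξ, happ hcyc, happ hcyc', hsep, hJ.J_J, hJ.J_conj, hJ.J_norm, hJ.J_add_inner,
    Pool.Agent.Helper70.U8.J_xi h' hJ hmod, ?_, ?_, fun a ha => StdEx.J_pos' h' hF hJ ha,
    fun G G' hG v => StdEx.psi_J' h' hF hJ G G' hG v, hF.psi_cont,
    fun G G' hG a ha => StdEx.psi_half' h' hF hJ G G' hG ha,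
    fun G G' hG hG' θ ε hε => StdEx.core' hmod hF hJ (happ hcyc) G G' hG hG' θ ε hε⟩⟩
  · intro a ha y hy v
    have h1 : hJ.cj a * y = y * hJ.cj a :=
      (VonNeumannAlgebra.mem_commutant_iff.1 (hcj a ha) y hy).symm
    have h2 := congrArg (fun T : H →L[ℂ] H => T v) h1
    simp only [mul_apply_eq_comp, hJ.cj_apply] at h2
    exact h2
  · intro b hb
    refine ⟨hJ.cj b, hcj' b hb, fun v => ?_⟩
    rw [hJ.cj_apply, hJ.J_J, hJ.J_J]

end Pool.Agent.Helper78.BC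

end

section

open scoped InnerProductSpace Topology BoundedContinuousFunction

open ContinuousLinearMap Filter MeasureTheory

namespace Pool.Agent.Helper88.CS

open Pool.Agent.Helper23

open Pool.Agent.Helper78.BC (Std rm Fixed)

variable {H : Type*} [NormedAddCommGroup H] [InnerProductSpace ℂ H] [CompleteSpace H]

variable {A : VonNeumannAlgebra H} {J : H →L[ℝ] H}

namespace JUniqAux

open Pool.Agent.Helper43.TTF Pool.Agent.Helper23.TTA Pool.Agent.Helper70.U8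

variable {κ : H}

/-- all canonical data of a cyclic and separating unit vector -/
lemma st_all {Ψ : (ℝ →ᵇ ℂ) →⋆ₐ[ℂ] (H →L[ℂ] H)} {R : H →L[ℂ] H} {D : H →L[ℝ] H}
    (hξ : ‖κ‖ = 1) (hcyc : Dense (orb A κ : Set H)) (hsep : ∀ a ∈ A, a κ = 0 → a = 0)
    (h' : TTData A κ R D) (hF : FC R D Ψ) (hJ : JD D Ψ J) : St A κ J Ψ R D := by
  have hcyc' : Dense (Pool.Agent.Helper23.orb A.commutant κ : Set H) :=
    Pool.Agent.Helper23.dense_of_separating A κ hsep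
  have hmod := Pool.Agent.Helper43.TTF.modular_of h' hcyc hsep hF
  have happ : ∀ {B : VonNeumannAlgebra H}, Dense (Pool.Agent.Helper23.orb B κ : Set H) →
      ∀ v : H, ∀ ε : ℝ, 0 < ε → ∃ a ∈ B, ‖a κ - v‖ < ε := by
    intro B hB v ε hε
    obtain ⟨w, ⟨a, ha, rfl⟩, hw⟩ := Metric.mem_closure_iff.1 (hB v) ε hε
    refine ⟨a, ha, ?_⟩
    rwa [dist_comm, dist_eq_norm] at hw
  have hcj : ∀ a ∈ A, hJ.cj a ∈ A.commutant := fun a ha =>
    Pool.Agent.Helper43.TTF.cj_mem h' hcyc hcyc' hF hJ ha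
  have hcj' : ∀ b ∈ A.commutant, hJ.cj b ∈ A := by
    intro b hb
    have h1 := Pool.Agent.Helper43.TTF.cj_mem h'.symm hcyc'
      (by rwa [VonNeumannAlgebra.commutant_commutant]) hF.symm hJ.symm hb
    rw [VonNeumannAlgebra.commutant_commutant] at h1
    exact h1
  refine ⟨⟨hξ, happ hcyc, happ hcyc', hsep, hJ.J_J, hJ.J_conj, hJ.J_norm, hJ.J_add_inner,
    Pool.Agent.Helper70.U8.J_xi h' hJ hmod, ?_, ?_,
    fun a ha => Pool.Agent.Helper78.BC.StdEx.J_pos' h' hF hJ ha,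
    fun G G' hG v => Pool.Agent.Helper78.BC.StdEx.psi_J' h' hF hJ G G' hG v, hF.psi_cont,
    fun G G' hG a ha => Pool.Agent.Helper78.BC.StdEx.psi_half' h' hF hJ G G' hG ha,
    fun G G' hG hG' θ ε hε =>
      Pool.Agent.Helper78.BC.StdEx.core' hmod hF hJ (happ hcyc) G G' hG hG' θ ε hε⟩,
    hmod, hJ, hcyc⟩
  · intro a ha y hy v
    have h1 : hJ.cj a * y = y * hJ.cj a :=
      (VonNeumannAlgebra.mem_commutant_iff.1 (hcj a ha) y hy).symm
    have h2 := congrArg (fun T : H →L[ℂ] H => T v) h1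
    simp only [mul_apply_eq_comp, hJ.cj_apply] at h2
    exact h2
  · intro b hb
    refine ⟨hJ.cj b, hcj' b hb, fun v => ?_⟩
    rw [hJ.cj_apply, hJ.J_J, hJ.J_J]

/-- the orthogonal complement of the closure of the selfadjoint part -/
lemma key {J₀ : H →L[ℝ] H} {Ψ : (ℝ →ᵇ ℂ) →⋆ₐ[ℂ] (H →L[ℂ] H)}
    (h : St A κ J₀ Ψ (Rop A κ) (Dop A κ)) (v : H) (hv : P A κ v = 0) :
      v ∈ closure {x : H | ∃ b ∈ A.commutant, star b = b ∧ x = Complex.I • b κ} := by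
  have hw : P A κ (J₀ (Complex.I • v)) = J₀ (Complex.I • v) := by
    have e1 : (2 : ℂ) • P A κ (J₀ (Complex.I • v)) =
        Rop A κ (J₀ (Complex.I • v)) + Dop A κ (J₀ (Complex.I • v)) := by
      rw [Rop_apply, Dop_apply, two_smul]
      abel
    have e2 : Rop A κ (J₀ (Complex.I • v)) =
        (2 : ℂ) • J₀ (Complex.I • v) - J₀ (Rop A κ (Complex.I • v)) := by
      rw [J_R h]
      abel
    have e3 : Dop A κ (Complex.I • v) = Rop A κ (Complex.I • v) := by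
      rw [Rop_apply, Dop_apply, Q_I_smul, hv, smul_zero, sub_zero, add_zero]
    rw [← J_D h, e2, e3] at e1
    have e4 : (2 : ℂ) • P A κ (J₀ (Complex.I • v)) = (2 : ℂ) • J₀ (Complex.I • v) := by
      rw [e1]
      abel
    exact smul_right_injective H two_ne_zero e4
  have hwK : J₀ (Complex.I • v) ∈ closure (TTA.K0 A κ : Set H) := by
    have := P_mem A κ (J₀ (Complex.I • v))
    rwa [hw] at this
  have hc : Continuous fun w : H => (-Complex.I) • J₀ w := by fun_prop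
  have h1 : (-Complex.I) • J₀ (J₀ (Complex.I • v)) ∈
      closure ((fun w : H => (-Complex.I) • J₀ w) '' (TTA.K0 A κ : Set H)) :=
    image_closure_subset_closure_image hc ⟨_, hwK, rfl⟩
  rw [h.J_J, smul_smul, neg_mul, Complex.I_mul_I, neg_neg, one_smul] at h1
  refine closure_mono ?_ h1
  rintro _ ⟨_, ⟨a, ha, ha', rfl⟩, rfl⟩
  refine ⟨-(cj h.conj a), ?_, ?_, ?_⟩
  · exact neg_mem (cj_mem h.conj ha)
  · rw [star_neg, star_cj, ha']
  · change (-Complex.I) • J₀ (a κ) = Complex.I • (-(J₀ (a (J₀ κ))))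
    rw [h.J_xi, neg_smul, smul_neg]

/-- a bare conjugation fixing `κ` intertwines as the canonical one -/
lemma bare {J₀ : H →L[ℝ] H} {Ψ : (ℝ →ᵇ ℂ) →⋆ₐ[ℂ] (H →L[ℂ] H)}
    (h : St A κ J₀ Ψ (Rop A κ) (Dop A κ)) (hJ : Conj A J) (hκ : J κ = κ) (v : H) :
    J (Rop A κ v) = (2 : ℂ) • J v - Rop A κ (J v) ∧ J (Dop A κ v) = Dop A κ (J v) := by
  have h2c : ∀ v : H, J ((2 : ℂ) • v) = (2 : ℂ) • J v := by
    intro v
    have := hJ.J_conj 2 v
    rwa [Complex.conj_ofNat] at this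
  have hu := uniq (A := A) (κ := κ) (R' := (2 : ℂ) • (1 : H →L[ℂ] H) - cj hJ (Rop A κ))
    (D' := J.comp ((Dop A κ).comp J)) ?_ ?_ ?_ (key h)
  · have e1 := (hu (J v)).1
    have e2 := (hu (J v)).2
    constructor
    · rw [sub_apply, smul_apply, one_apply_eq_self, cj_apply, hJ.J_J] at e1
      rw [← e1]
      abel
    · change J (Dop A κ (J (J v))) = _ at e2
      rwa [hJ.J_J] at e2
  · intro c v
    change J (Dop A κ (J (c • v))) = (starRingEnd ℂ) c • J (Dop A κ (J v))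
    rw [hJ.J_conj, h.mod.data.D_conj, hJ.J_conj, Complex.conj_conj]
  · intro a ha
    change J (Dop A κ (J (a κ))) = _
    have e1 : J (a κ) = cj hJ a κ := by rw [cj_apply, hκ]
    rw [e1, h.mod.data.D_comm _ (cj_mem hJ ha), star_cj, cj_apply, hκ, sub_apply, smul_apply,
      one_apply_eq_self, cj_apply]
    abel
  · intro b hb
    change J (Dop A κ (J (b κ))) = _
    obtain ⟨a, ha, hab⟩ := hJ.J_mem b hb
    have e0 : b = cj hJ a := by
      apply ContinuousLinearMap.ext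
      intro v
      rw [hab, cj_apply]
    rw [e0, star_cj, cj_apply, cj_apply, hκ, hJ.J_J, h.mod.data.D_mem a ha, map_sub, h2c,
      sub_apply, smul_apply, one_apply_eq_self, cj_apply, hJ.J_J]

/-- uniqueness of the conjugation -/
lemma J_eq {J₀ : H →L[ℝ] H} {Ψ : (ℝ →ᵇ ℂ) →⋆ₐ[ℂ] (H →L[ℂ] H)}
    (h : St A κ J₀ Ψ (Rop A κ) (Dop A κ)) (hJ : Conj A J) (hκ : J κ = κ)
    (hpos : ∀ a ∈ A, 0 ≤ (⟪J (a κ), (star a) κ⟫_ℂ).re) : J = J₀ := by
  have hF : FC (Rop A κ) (Dop A κ) Ψ := ⟨h.mod.psi_FR, h.mod.psi_comm, h.mod.psi_D, h.mod.psi_cont⟩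
  -- the unitary `V = J J₀`
  let V : H →L[ℂ] H := LinearMap.mkContinuous
    { toFun := fun v => J (J₀ v)
      map_add' := by intro v w; simp only [map_add]
      map_smul' := by
        intro c v
        rw [h.J_conj, hJ.J_conj, Complex.conj_conj, RingHom.id_apply] } 1
    (by
      intro v
      change ‖J (J₀ v)‖ ≤ _
      rw [hJ.J_norm, h.J_norm, one_mul])
  have hV : ∀ v, V v = J (J₀ v) := fun v => rfl
  have hJ2 : ∀ v : H, J ((2 : ℂ) • v) = (2 : ℂ) • J v := by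
    intro v
    have := hJ.J_conj 2 v
    rwa [Complex.conj_ofNat] at this
  have hVR : ∀ v, V (Rop A κ v) = Rop A κ (V v) := by
    intro v
    rw [hV, hV, J_R h, map_sub, hJ2, (bare h hJ hκ (J₀ v)).1]
    abel
  have hVD : ∀ v, V (Dop A κ v) = Dop A κ (V v) := by
    intro v
    rw [hV, hV, J_D h, (bare h hJ hκ (J₀ v)).2]
  have hVpsi : ∀ (G : ℝ →ᵇ ℂ) (v : H), V (Ψ G v) = Ψ G (V v) := by
    intro G v
    have e1 := h.mod.psi_comm V (by
      apply ContinuousLinearMap.ext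
      intro w
      rw [mul_apply_eq_comp, mul_apply_eq_comp, hVR]) G
    have e2 := congrArg (fun T : H →L[ℂ] H => T v) e1
    simpa only [mul_apply_eq_comp] using e2
  have hVJ : ∀ v, V (J₀ v) = J₀ (V v) := by
    refine Pool.Agent.Helper78.BC.StdEx.ext_dense h.mod.data hF (fun v => V (J₀ v) = J₀ (V v))
      (isClosed_eq (by fun_prop) (by fun_prop)) (fun v => ?_)
    rw [h.jd.J_T, hVD, hVpsi, h.jd.J_T]
  have hVV : ∀ v, V (V v) = v := by
    intro v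
    rw [hV (V v), ← hVJ, hV, h.J_J, hJ.J_J]
  -- positivity of `V`
  have hcut : ∀ (n : ℕ) (θ : H), 0 ≤ (⟪V (Ψ (ctB n) θ), Ψ (ctB n) θ⟫_ℂ).re := by
    intro n θ
    have hcs : HasCompactSupport (ctB n) := by
      refine HasCompactSupport.of_support_subset_isCompact
        (isCompact_Icc (a := -((n : ℝ) + 1)) (b := (n : ℝ) + 1)) ?_
      intro ρ hρ
      rw [Function.mem_support] at hρ
      rw [Set.mem_Icc, ← abs_le]
      by_contra hc
      push Not at hc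
      exact hρ (by rw [ctB_apply, ct_zero hc.le, Complex.ofReal_zero])
    have hex : ∀ c : ℝ, ∃ G : ℝ →ᵇ ℂ, ∀ ρ, G ρ = ((Real.exp (c * ρ) : ℝ) : ℂ) * ctB n ρ := by
      intro c
      have hc : Continuous fun ρ : ℝ => ((Real.exp (c * ρ) : ℝ) : ℂ) * ctB n ρ := by fun_prop
      have hs : HasCompactSupport fun ρ : ℝ => ((Real.exp (c * ρ) : ℝ) : ℂ) * ctB n ρ :=
        hcs.mul_left
      obtain ⟨C, hC⟩ := hs.exists_bound_of_continuous hc
      exact ⟨BoundedContinuousFunction.ofNormedAddCommGroup _ hc C hC, fun ρ => rfl⟩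
    obtain ⟨G, hG⟩ := hex (-(1 / 4))
    obtain ⟨G', hG'⟩ := hex (1 / 4)
    have hGs : HasCompactSupport G := by
      have hs : HasCompactSupport fun ρ : ℝ => ((Real.exp (-(1 / 4) * ρ) : ℝ) : ℂ) * ctB n ρ :=
        hcs.mul_left
      have e : (G : ℝ → ℂ) = fun ρ : ℝ => ((Real.exp (-(1 / 4) * ρ) : ℝ) : ℂ) * ctB n ρ :=
        funext hG
      rwa [← e] at hs
    have hGG : ∀ ρ, G' ρ = ((Real.exp (ρ / 2) : ℝ) : ℂ) * G ρ := by
      intro ρ
      rw [hG, hG', ← mul_assoc, ← Complex.ofReal_mul, ← Real.exp_add]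
      congr 3
      ring
    have hpos' : 0 ≤ (⟪V (Ψ G' θ), Ψ G θ⟫_ℂ).re := by
      have hc : ∀ m : ℕ, ∃ b ∈ A, ‖b κ - Ψ G θ‖ ≤ 1 / ((m : ℝ) + 1) ∧
          ‖J₀ ((star b) κ) - Ψ G' θ‖ ≤ 1 / ((m : ℝ) + 1) := fun m =>
        h.core G G' hGs hGG θ _ (by positivity)
      choose b hbA hb1 hb2 using hc
      have t1 : Tendsto (fun m => b m κ) atTop (𝓝 (Ψ G θ)) :=
        tendsto_iff_norm_sub_tendsto_zero.2 (squeeze_zero (fun _ => norm_nonneg _) hb1
          tendsto_one_div_add_atTop_nhds_zero_nat)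
      have t2 : Tendsto (fun m => J₀ ((star (b m)) κ)) atTop (𝓝 (Ψ G' θ)) :=
        tendsto_iff_norm_sub_tendsto_zero.2 (squeeze_zero (fun _ => norm_nonneg _) hb2
          tendsto_one_div_add_atTop_nhds_zero_nat)
      have t3 : Tendsto (fun m => (⟪V (J₀ ((star (b m)) κ)), b m κ⟫_ℂ).re) atTop
          (𝓝 (⟪V (Ψ G' θ), Ψ G θ⟫_ℂ).re) :=
        (Complex.continuous_re.tendsto _).comp
          (((V.continuous.tendsto _).comp t2).inner t1)
      refine ge_of_tendsto' t3 fun m => ?_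
      have e1 := hpos (star (b m)) (star_mem (hbA m))
      rw [star_star] at e1
      rwa [hV, h.J_J]
    have hstar : star G * G' = ctB n * ctB n := by
      ext ρ
      rw [BoundedContinuousFunction.mul_apply, BoundedContinuousFunction.mul_apply,
        BoundedContinuousFunction.star_apply, hG, hG', ctB_apply, Complex.star_def, map_mul,
        Complex.conj_ofReal, Complex.conj_ofReal, mul_mul_mul_comm, ← Complex.ofReal_mul,
        ← Real.exp_add]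
      have e1 : -(1 / 4) * ρ + 1 / 4 * ρ = 0 := by ring
      rw [e1, Real.exp_zero, Complex.ofReal_one, one_mul]
    have hsc : star (ctB n) = ctB n := by
      ext ρ
      rw [BoundedContinuousFunction.star_apply, ctB_apply, Complex.star_def, Complex.conj_ofReal]
    have e2 : ⟪V (Ψ G' θ), Ψ G θ⟫_ℂ = ⟪V (Ψ (ctB n) θ), Ψ (ctB n) θ⟫_ℂ := by
      have s1 : ⟪V (Ψ G' θ), Ψ G θ⟫_ℂ = ⟪V (Ψ (star G * G') θ), θ⟫_ℂ := by
        rw [hVpsi, hVpsi, Pool.Agent.Helper43.TTF.psi_mul_apply, psi_star Ψ (star G), star_star]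
      have s2 : ⟪V (Ψ (ctB n) θ), Ψ (ctB n) θ⟫_ℂ = ⟪V (Ψ (ctB n * ctB n) θ), θ⟫_ℂ := by
        rw [hVpsi, hVpsi, Pool.Agent.Helper43.TTF.psi_mul_apply, psi_star Ψ (ctB n) (Ψ (ctB n) (V θ)), hsc]
      rw [s1, s2, hstar]
    rwa [e2] at hpos'
  have hVpos : ∀ w : H, 0 ≤ (⟪V w, w⟫_ℂ).re := by
    intro w
    have t1 := tendsto_ct hF w
    have t2 : Tendsto (fun n => (⟪V (Ψ (ctB n) w), Ψ (ctB n) w⟫_ℂ).re) atTop
        (𝓝 (⟪V w, w⟫_ℂ).re) :=
      (Complex.continuous_re.tendsto _).comp (((V.continuous.tendsto _).comp t1).inner t1)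
    exact ge_of_tendsto' t2 fun n => hcut n w
  have hV1 : ∀ w : H, V w = w := by
    intro w
    have e1 := hVpos (w - V w)
    rw [map_sub, hVV] at e1
    have e2 : V w - w = -(w - V w) := by abel
    rw [e2, inner_neg_left, Complex.neg_re, inner_self_eq_norm_sq_to_K] at e1
    have e3 : (((‖w - V w‖ : ℂ)) ^ 2).re = ‖w - V w‖ ^ 2 := by norm_cast
    have e4 : 0 ≤ -(‖w - V w‖ ^ 2) := e3 ▸ e1
    have e5 : ‖w - V w‖ = 0 := by nlinarith [norm_nonneg (w - V w)]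
    exact (sub_eq_zero.1 (norm_eq_zero.1 e5)).symm
  apply ContinuousLinearMap.ext
  intro w
  have e1 := hV1 (J₀ w)
  rwa [hV, h.J_J] at e1

end JUniqAux

open JUniqAux in
/-- existence of the standard form -/
theorem exists_st' {κ : H} (h1 : ‖κ‖ = 1) (hcyc : Dense (orb A κ : Set H))
    (hsep : ∀ a ∈ A, a κ = 0 → a = 0) :
    ∃ (J : H →L[ℝ] H) (Ψ : (ℝ →ᵇ ℂ) →⋆ₐ[ℂ] (H →L[ℂ] H)) (R : H →L[ℂ] H) (D : H →L[ℝ] H),
      St A κ J Ψ R D := by
  have h' := Pool.Agent.Helper43.TTF.ttdata A κ hcyc hsep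
  obtain ⟨Ψ, hF⟩ := Pool.Agent.Helper43.TTF.exists_FC h'
  obtain ⟨J, hJ⟩ := hF.exists_J h'
  exact ⟨J, Ψ, _, _, st_all h1 hcyc hsep h' hF hJ⟩

open JUniqAux in
/-- If `κ` is cyclic and separating, `J κ = κ` and `κ` is positive then `J` is the modular
conjugation of `κ`. -/
theorem exists_st (hJ : Conj A J) {κ : H} (h1 : ‖κ‖ = 1) (hcyc : Dense (orb A κ : Set H))
    (hsep : ∀ a ∈ A, a κ = 0 → a = 0) (hκ : J κ = κ)
    (hpos : ∀ a ∈ A, 0 ≤ (⟪J (a κ), (star a) κ⟫_ℂ).re) :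
    ∃ (Ψ : (ℝ →ᵇ ℂ) →⋆ₐ[ℂ] (H →L[ℂ] H)) (R : H →L[ℂ] H) (D : H →L[ℝ] H), St A κ J Ψ R D := by
  have h' := Pool.Agent.Helper43.TTF.ttdata A κ hcyc hsep
  obtain ⟨Ψ, hF⟩ := Pool.Agent.Helper43.TTF.exists_FC h'
  obtain ⟨J₀, hJ₀⟩ := hF.exists_J h'
  have hst := st_all h1 hcyc hsep h' hF hJ₀
  have hJJ := J_eq hst hJ hκ hpos
  subst hJJ
  exact ⟨Ψ, _, _, hst⟩

end Pool.Agent.Helper88.CS

end

section

open scoped InnerProductSpace Topology ENNReal BoundedContinuousFunction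

open ContinuousLinearMap Filter MeasureTheory

namespace Pool.Agent.Helper23.ED

open Pool.Agent.Helper23 Pool.Agent.Helper23.RBF

open Pool.Agent.Helper78.BC.Transport (Sub r)

universe u

open Pool.Agent.Helper43.TTF (FT)

variable {K : Type*} [NormedAddCommGroup K] [InnerProductSpace ℂ K] [CompleteSpace K]

variable {A : VonNeumannAlgebra K} {κ : K} {R : K →L[ℂ] K} {D : K →L[ℝ] K}
  {Ψ : (ℝ →ᵇ ℂ) →⋆ₐ[ℂ] (K →L[ℂ] K)}

open Pool.Agent.Helper43.TTF in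
/-- The common step. -/
lemma smF_step (h : Modular A κ R D Ψ) (hFC : FC R D Ψ) {J : K →L[ℝ] K} (hJ : JD D Ψ J)
    {m : ℝ} (hm : 0 < m) (z : ℂ) {b : K →L[ℂ] K} (hb : b ∈ A) :
    Ψ (GZ m hm z) (J (b κ)) = Ψ (GZ m hm (z - Complex.I / 2)) ((star b) κ) := by
  rw [← sub_eq_zero]
  refine hFC.T_inj h.data _ ?_
  rw [map_sub, sub_eq_zero, psi_comm_apply, hJ.T_J, h.data.D_mem b hb]
  have h1 : (2 : ℂ) • (star b) κ - R ((star b) κ) = Ψ (2 - FR) ((star b) κ) := by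
    rw [map_sub, psi_two, sub_apply, smul_apply, one_apply_eq_self, h.psi_FR]
  rw [h1, ← psi_mul_apply, mul_comm, GZ_shift hm z, psi_mul_apply]

end Pool.Agent.Helper23.ED

end
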