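import Pool.Agent.Helper23.FA.Ns
import Pool.Agent.Helper23.FA.L00_12
import Pool.Agent.Helper23.FA.L01_00
import Pool.Agent.Helper23.FA.L01_01
import Pool.Agent.Helper23.FA.L01_04
import Pool.Agent.Helper23.FA.L01_05
import Pool.Agent.Helper23.FA.L01_07
import Pool.Agent.Helper23.FA.L01_08
import Pool.Agent.Helper23.FA.L01_14
import Pool.Agent.Helper23.FA.L01_15
import Pool.Agent.Helper23.FA.L01_16
import Pool.Agent.Helper23.FA.L01_17
import Pool.Agent.Helper23.FA.L01_18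
import Pool.Agent.Helper23.FA.L01_19

/-!
Parts of Helper23.Amp2, Helper23.Pi2, Helper23.UPi, Helper23.UPin, Helper23.USur, Helper23.UMain, Helper23.UBF, Helper78.BC.Main
-/

section

open scoped InnerProductSpace Topology ENNReal

open ContinuousLinearMap Filter MeasureTheory

set_option linter.unusedSectionVars false

set_option linter.unusedVariables false

namespace Pool.Agent.Helper23

variable {H : Type*} [NormedAddCommGroup H] [InnerProductSpace ℂ H] [CompleteSpace H]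

variable {A : VonNeumannAlgebra H}

/-- operators of the amplification are determined by their values on `f ⊗ ξ` -/
lemma amp_ext {ξ : H} (hd : Dense (orb A.commutant ξ : Set H)) {X Y : L2R H →L[ℂ] L2R H}
    (hX : X ∈ amp A) (hY : Y ∈ amp A) (h : ∀ f : L2R ℂ, X (ten f ξ) = Y (ten f ξ)) : X = Y := by
  refine op_ext fun f η => ?_
  have hcl : IsClosed {η : H | X (iot H f η) = Y (iot H f η)} :=
    isClosed_eq (by fun_prop) (by fun_prop)
  have hsub : (orb A.commutant ξ : Set H) ⊆ {η : H | X (iot H f η) = Y (iot H f η)} := by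
    rintro _ ⟨a, ha, rfl⟩
    change X (ten f (a ξ)) = Y (ten f (a ξ))
    rw [amp_ten hX ha, amp_ten hY ha, h]
  exact closure_minimal hsub hcl (hd η)

end Pool.Agent.Helper23

end

section

open scoped InnerProductSpace Topology ENNReal

open ContinuousLinearMap Filter MeasureTheory

set_option linter.unusedSectionVars false

set_option linter.unusedVariables false

namespace Pool.Agent.Helper23

variable {H : Type*} [NormedAddCommGroup H] [InnerProductSpace ℂ H] [CompleteSpace H]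

variable {M N : VonNeumannAlgebra H} {ξ : H} {E : (H →L[ℂ] H) → (H →L[ℂ] H)}

lemma amp_mono (hle : ∀ x ∈ N, x ∈ M) {X : L2R H →L[ℂ] L2R H} (hX : X ∈ amp N) : X ∈ amp M := by
  rw [mem_amp] at hX ⊢
  intro a ha
  refine hX a ?_
  rw [mem_comm_iff] at ha ⊢
  exact fun g hg => ha g (hle g hg)

end Pool.Agent.Helper23

end

section

open scoped InnerProductSpace Topology ENNReal

open ContinuousLinearMap Filter MeasureTheory

namespace Pool.Agent.Helper23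

variable {H : Type*} [NormedAddCommGroup H] [InnerProductSpace ℂ H] [CompleteSpace H]

variable {M N : VonNeumannAlgebra H} {ξ : H} {E : (H →L[ℂ] H) → (H →L[ℂ] H)}

namespace BFlow

variable (S : BFlow M N E ξ)

include S

lemma bt_sub {x y : H →L[ℂ] H} (hx : x ∈ Bicent M N ξ) (hy : y ∈ Bicent M N ξ) {l : ℝ}
    (hl : 0 < l) : btU M N ξ l (x - y) = btU M N ξ l x - btU M N ξ l y := by
  have h1 : x - y = x + (-1 : ℂ) • y := by simp [sub_eq_add_neg]
  rw [h1, S.bt_add _ hx _ (AP.bicent_smul _ hy) l hl, S.bt_smul _ _ hy l hl]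
  simp [sub_eq_add_neg]

lemma inner_BK {y z : H →L[ℂ] H} (hy : y ∈ Bicent M N ξ) (hz : z ∈ Bicent M N ξ) {k k' : H}
    (hk : k ∈ K0 N ξ) (hk' : k' ∈ K0 N ξ) :
    ⟪y k, z k'⟫_ℂ = ⟪y ξ, z ξ⟫_ℂ * ⟪k, k'⟫_ℂ := by
  have h1 : ∀ b ∈ N, ∀ k ∈ K0 N ξ, ⟪y k, z (b ξ)⟫_ℂ = ⟪y ξ, z ξ⟫_ℂ * ⟪k, b ξ⟫_ℂ := by
    intro b hb k hk
    have hcl : IsClosed {k : H | ⟪y k, z (b ξ)⟫_ℂ = ⟪y ξ, z ξ⟫_ℂ * ⟪k, b ξ⟫_ℂ} :=
      isClosed_eq (by fun_prop) (by fun_prop)
    have hsub : (orb N ξ : Set H) ⊆ {k : H | ⟪y k, z (b ξ)⟫_ℂ = ⟪y ξ, z ξ⟫_ℂ * ⟪k, b ξ⟫_ℂ} := by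
      rintro _ ⟨a, ha, rfl⟩
      exact S.inner_BB hy hz ha hb
    exact closure_minimal hsub hcl hk
  have hcl : IsClosed {k' : H | ⟪y k, z k'⟫_ℂ = ⟪y ξ, z ξ⟫_ℂ * ⟪k, k'⟫_ℂ} :=
    isClosed_eq (by fun_prop) (by fun_prop)
  have hsub : (orb N ξ : Set H) ⊆ {k' : H | ⟪y k, z k'⟫_ℂ = ⟪y ξ, z ξ⟫_ℂ * ⟪k, k'⟫_ℂ} := by
    rintro _ ⟨b, hb, rfl⟩
    exact h1 b hb k hk
  exact closure_minimal hsub hcl hk'

lemma norm_BK {z : H →L[ℂ] H} (hz : z ∈ Bicent M N ξ) {k : H} (hk : k ∈ K0 N ξ) :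
    ‖z k‖ = ‖z ξ‖ * ‖k‖ := by
  have h := S.inner_BK hz hz hk hk
  simp only [inner_self_eq_norm_sq_to_K] at h
  have h2 : ‖z k‖ ^ 2 = (‖z ξ‖ * ‖k‖) ^ 2 := by
    have h3 : ((‖z k‖ ^ 2 : ℝ) : ℂ) = (((‖z ξ‖ * ‖k‖) ^ 2 : ℝ) : ℂ) := by
      push_cast
      rw [mul_pow]
      exact h
    exact Complex.ofReal_injective h3
  exact (pow_left_inj₀ (norm_nonneg _) (by positivity) two_ne_zero).1 h2

lemma bt_norm {x : H →L[ℂ] H} (hx : x ∈ Bicent M N ξ) {l : ℝ} (hl : 0 < l) :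
    ‖btU M N ξ l x ξ‖ = ‖x ξ‖ := by
  have h1 := S.bt_inner hx hx hl
  rw [inner_self_eq_norm_sq_to_K, inner_self_eq_norm_sq_to_K] at h1
  have h2 : ‖btU M N ξ l x ξ‖ ^ 2 = ‖x ξ‖ ^ 2 := by exact_mod_cast h1
  exact (pow_left_inj₀ (norm_nonneg _) (norm_nonneg _) two_ne_zero).1 h2

lemma bt_norm_sub {x y : H →L[ℂ] H} (hx : x ∈ Bicent M N ξ) (hy : y ∈ Bicent M N ξ) {l : ℝ}
    (hl : 0 < l) : ‖btU M N ξ l x ξ - btU M N ξ l y ξ‖ = ‖x ξ - y ξ‖ := by
  have := S.bt_norm (bicent_sub hx hy) hl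
  rw [S.bt_sub hx hy hl] at this
  exact this

lemma piU_dec {x : H →L[ℂ] H} (hx : x ∈ Bicent M N ξ) :
    Dec (fun s : ℝ => btU M N ξ (Real.exp s) x) :=
  Dec.of_cont (C := 2 * ‖x‖) (by positivity) (fun s => S.bt_opNorm x hx _ (Real.exp_pos s))
    (S.bt_exp_cont hx)

lemma piU_coe {x : H →L[ℂ] H} (hx : x ∈ Bicent M N ξ) (F : L2R H) :
    piU M N ξ x F =ᵐ[volume] fun s => btU M N ξ (Real.exp s) x (F s) := dec_coe (S.piU_dec hx) F

lemma piU_add {x y : H →L[ℂ] H} (hx : x ∈ Bicent M N ξ) (hy : y ∈ Bicent M N ξ) :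
    piU M N ξ (x + y) = piU M N ξ x + piU M N ξ y := by
  rw [piU, piU, piU, ← dec_add (S.piU_dec hx) (S.piU_dec hy)]
  congr 1
  funext s
  exact S.bt_add _ hx _ hy _ (Real.exp_pos s)

lemma piU_smul (c : ℂ) {x : H →L[ℂ] H} (hx : x ∈ Bicent M N ξ) :
    piU M N ξ (c • x) = c • piU M N ξ x := by
  rw [piU, piU, ← dec_smul c (S.piU_dec hx)]
  congr 1
  funext s
  exact S.bt_smul c _ hx _ (Real.exp_pos s)

lemma piU_sub {x y : H →L[ℂ] H} (hx : x ∈ Bicent M N ξ) (hy : y ∈ Bicent M N ξ) :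
    piU M N ξ (x - y) = piU M N ξ x - piU M N ξ y := by
  have h1 : x - y = x + (-1 : ℂ) • y := by simp [sub_eq_add_neg]
  rw [h1, S.piU_add hx (AP.bicent_smul _ hy), S.piU_smul _ hy]
  simp [sub_eq_add_neg]

lemma piU_mul {x y : H →L[ℂ] H} (hx : x ∈ Bicent M N ξ) (hy : y ∈ Bicent M N ξ) :
    piU M N ξ (x * y) = piU M N ξ x * piU M N ξ y := by
  ext F : 1
  change _ = piU M N ξ x (piU M N ξ y F)
  rw [piU, piU, piU, dec_comp (S.piU_dec hx) (S.piU_dec hy)]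
  congr 2
  funext s
  exact S.bt_mul _ hx _ hy _ (Real.exp_pos s)

lemma piU_star {x : H →L[ℂ] H} (hx : x ∈ Bicent M N ξ) :
    piU M N ξ (star x) = star (piU M N ξ x) := by
  rw [ContinuousLinearMap.star_eq_adjoint (piU M N ξ x), ContinuousLinearMap.eq_adjoint_iff]
  intro F F'
  refine dec_adj (S.piU_dec hx) (S.piU_dec (S.bicent_star hx)) (fun s v w => ?_) F F'
  rw [S.bt_star _ hx _ (Real.exp_pos s), inner_star_left]

lemma piU_mem {x : H →L[ℂ] H} (hx : x ∈ Bicent M N ξ) : piU M N ξ x ∈ amp M :=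
  dec_mem_amp (S.piU_dec hx) fun s => (S.bt_mem _ hx _ (Real.exp_pos s)).1

/-- inner products of vectors of the form `π(x) G` -/
lemma inner_piU {x y : H →L[ℂ] H} (hx : x ∈ Bicent M N ξ) (hy : y ∈ Bicent M N ξ)
    {G G' : L2R H} (hG : ∀ᵐ s, G s ∈ K0 N ξ) (hG' : ∀ᵐ s, G' s ∈ K0 N ξ) :
    ⟪piU M N ξ y G, piU M N ξ x G'⟫_ℂ = ⟪y ξ, x ξ⟫_ℂ * ⟪G, G'⟫_ℂ := by
  rw [L2.inner_def, L2.inner_def, ← integral_const_mul]
  refine integral_congr_ae ?_
  filter_upwards [S.piU_coe hx G', S.piU_coe hy G, hG, hG'] with s h1 h2 h3 h4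
  rw [h1, h2, S.inner_BK (S.bt_mem _ hy _ (Real.exp_pos s)) (S.bt_mem _ hx _ (Real.exp_pos s))
    h3 h4, S.bt_inner hx hy (Real.exp_pos s)]

lemma inner_piU_ten {x y : H →L[ℂ] H} (hx : x ∈ Bicent M N ξ) (hy : y ∈ Bicent M N ξ)
    (f g : L2R ℂ) :
    ⟪piU M N ξ y (ten f ξ), piU M N ξ x (ten g ξ)⟫_ℂ = ⟪y ξ, x ξ⟫_ℂ * ⟪f, g⟫_ℂ := by
  rw [S.inner_piU hx hy (ten_ae_mem f S.xi_mem_K0) (ten_ae_mem g S.xi_mem_K0), inner_ten,
    S.inner_self, mul_one]

/-- `π(x)` commutes with multiplications -/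
lemma piU_mulOp {x : H →L[ℂ] H} (hx : x ∈ Bicent M N ξ) {m : ℝ → ℂ} (hm : BM m) (F : L2R H) :
    mulOp H m (piU M N ξ x F) = piU M N ξ x (mulOp H m F) := by
  ext1
  filter_upwards [mulOp_coe hm (piU M N ξ x F), S.piU_coe hx F,
    S.piU_coe hx (mulOp H m F), mulOp_coe hm F] with s h1 h2 h3 h4
  rw [h1, h2, h3, h4, map_smul]

lemma piU_norm {x : H →L[ℂ] H} (hx : x ∈ Bicent M N ξ) : ‖piU M N ξ x‖ ≤ 2 * ‖x‖ :=
  dec_norm (by positivity) fun s => S.bt_opNorm _ hx _ (Real.exp_pos s)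

lemma piU_inj {x y : H →L[ℂ] H} (hx : x ∈ Bicent M N ξ) (hy : y ∈ Bicent M N ξ)
    (h : piU M N ξ x = piU M N ξ y) : x = y := by
  have hxy := bicent_sub hx hy
  have h1 : piU M N ξ (x - y) = 0 := by rw [S.piU_sub hx hy, h, sub_self]
  have h2 := S.inner_piU_ten hxy hxy e0 e0
  have he0 : ⟪e0, e0⟫_ℂ = 1 := by
    rw [inner_self_eq_norm_sq_to_K, e0_norm]; simp
  rw [h1, zero_apply, inner_zero_left, he0, mul_one] at h2
  exact sub_eq_zero.1 (S.sep _ hxy.1 (inner_self_eq_zero.1 h2.symm))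

end BFlow

end Pool.Agent.Helper23

end

section

open scoped InnerProductSpace Topology ENNReal

open ContinuousLinearMap Filter MeasureTheory

namespace Pool.Agent.Helper23

variable {H : Type*} [NormedAddCommGroup H] [InnerProductSpace ℂ H] [CompleteSpace H]

variable {M N : VonNeumannAlgebra H} {ξ : H} {E : (H →L[ℂ] H) → (H →L[ℂ] H)}

namespace BFlow

variable (S : BFlow M N E ξ)

include S

/-- local closeness of the block diagonal operator -/
lemma bt_sub_bt {y : H →L[ℂ] H} (hy : y ∈ Bicent M N ξ) {κ : ℝ} {γ₀ : ℝ}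
    (hγ0 : 0 < γ₀) (m : ℕ) {z : H →L[ℂ] H}
    (hz : z ∈ Bicent M N ξ) (hzy : ‖(z - btU M N ξ (γ₀ ^ m) y) ξ‖ ^ 2 ≤ 2 * κ)
    (hmod : ∀ r : ℝ, 0 ≤ r → r < Real.log γ₀ →
      ‖btU M N ξ (Real.exp r) y ξ - y ξ‖ ≤ Real.sqrt κ)
    {i : ℤ} {s : ℝ} (hs : s ∈ win (Real.log γ₀) i) :
    ‖(btU M N ξ (Real.exp s) y - btU M N ξ (γ₀ ^ (i - m)) z) ξ‖ ≤
      Real.sqrt κ + Real.sqrt (2 * κ) := by
  set t := Real.log γ₀ with ht
  have hi : 0 < γ₀ ^ i := zpow_pos hγ0 i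
  have him : 0 < γ₀ ^ (i - m) := zpow_pos hγ0 _
  have hm : 0 < γ₀ ^ m := pow_pos hγ0 m
  set r := s - i * t with hr
  have hr0 : 0 ≤ r := by have := hs.1; linarith
  have hr1 : r < t := by have := hs.2; rw [hr]; linarith
  have e1 : btU M N ξ (Real.exp s) y = btU M N ξ (γ₀ ^ i) (btU M N ξ (Real.exp r) y) := by
    rw [S.bt_bt _ hy _ hi _ (Real.exp_pos r)]
    congr 1
    rw [← Real.rpow_intCast, Real.rpow_def_of_pos hγ0, ← Real.exp_add, hr, ← ht]
    congr 1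
    ring
  have e2 : btU M N ξ (γ₀ ^ i) y = btU M N ξ (γ₀ ^ (i - m)) (btU M N ξ (γ₀ ^ m) y) := by
    rw [S.bt_bt _ hy _ him _ hm]
    congr 1
    rw [← zpow_natCast, ← zpow_add₀ hγ0.ne', sub_add_cancel]
  have hbr := S.bt_mem y hy _ (Real.exp_pos r)
  have h1 : ‖btU M N ξ (Real.exp s) y ξ - btU M N ξ (γ₀ ^ i) y ξ‖ ≤ Real.sqrt κ := by
    rw [e1, S.bt_norm_sub hbr hy hi]
    exact hmod r hr0 hr1
  have h2 : ‖btU M N ξ (γ₀ ^ i) y ξ - btU M N ξ (γ₀ ^ (i - m)) z ξ‖ ≤ Real.sqrt (2 * κ) := by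
    rw [e2, S.bt_norm_sub (S.bt_mem y hy _ hm) hz him, norm_sub_rev]
    exact Real.le_sqrt_of_sq_le hzy
  calc ‖(btU M N ξ (Real.exp s) y - btU M N ξ (γ₀ ^ (i - m)) z) ξ‖ =
        ‖(btU M N ξ (Real.exp s) y ξ - btU M N ξ (γ₀ ^ i) y ξ) +
          (btU M N ξ (γ₀ ^ i) y ξ - btU M N ξ (γ₀ ^ (i - m)) z ξ)‖ := by
          rw [sub_add_sub_cancel]; rfl
    _ ≤ _ := (norm_add_le _ _).trans (add_le_add h1 h2)

/-- the two error terms -/
lemma err_blk {y : H →L[ℂ] H} (hy : y ∈ Bicent M N ξ) {t : ℝ} (ht : 0 < t) {A : Finset ℤ}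
    {z : ℤ → H →L[ℂ] H} (hz : ∀ i, z i ∈ Bicent M N ξ) {e : ℝ} (he : 0 ≤ e)
    (h : ∀ i ∈ A, ∀ s ∈ win t i, ‖(btU M N ξ (Real.exp s) y - z i) ξ‖ ≤ e)
    {F : L2R H} (hF : ∀ᵐ s, F s ∈ K0 N ξ) :
    ∑ i ∈ A, ‖mulOp H (ind (win t i)) (piU M N ξ y F - blk t A z F)‖ ^ 2 ≤
      e ^ 2 * ‖F‖ ^ 2 := by
  have h1 : ∀ i ∈ A, ‖mulOp H (ind (win t i)) (piU M N ξ y F - blk t A z F)‖ ^ 2 ≤
      e ^ 2 * ‖mulOp H (ind (win t i)) F‖ ^ 2 := by
    intro i hi
    rw [← mul_pow]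
    refine pow_le_pow_left₀ (norm_nonneg _) ?_ 2
    rw [map_sub, blk_win ht hi]
    refine Lp.norm_le_mul_norm_of_ae_le_mul ?_
    filter_upwards [Lp.coeFn_sub (mulOp H (ind (win t i)) (piU M N ξ y F))
      (mulOp H (ind (win t i)) (lift (z i) F)), mulOp_coe (ind_bm (win_meas t i)) (piU M N ξ y F),
      mulOp_coe (ind_bm (win_meas t i)) (lift (z i) F), S.piU_coe hy F, lift_coe (z i) F,
      mulOp_coe (ind_bm (win_meas t i)) F, hF] with s e1 e2 e3 e4 e5 e6 e7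
    rw [e1, Pi.sub_apply, e2, e3, e4, e5, e6, ← smul_sub, norm_smul, norm_smul]
    by_cases hs : s ∈ win t i
    · rw [ind_of_mem hs, norm_one, one_mul, one_mul, ← sub_apply,
        S.norm_BK (bicent_sub (S.bt_mem _ hy _ (Real.exp_pos s)) (hz i)) e7]
      gcongr
      exact h i hi s hs
    · rw [ind_of_notMem hs, norm_zero, zero_mul, zero_mul, mul_zero]
  refine (Finset.sum_le_sum h1).trans ?_
  rw [← Finset.mul_sum]
  gcongr
  exact bessel_win ht A F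

/-- the main estimate -/
theorem est {u : L2R H →L[ℂ] L2R H} (hu : u ∈ GK N ξ) {y : H →L[ℂ] H} (hy : y ∈ Bicent M N ξ)
    {g : L2R ℂ} {ng : ℕ} (hg0 : g ≠ 0) (hg : Pn ng g = g) {κ : ℝ} (hκ : 0 < κ) :
    ‖u (piU M N ξ y (ten g ξ)) - piU M N ξ y (u (ten g ξ))‖ ^ 2 ≤ (4 + 48 * ‖g‖ ^ 2) * κ := by
  classical
  set X := piU M N ξ y with hX
  set D := u (X (ten g ξ)) - X (u (ten g ξ)) with hD
  obtain ⟨K, hK, hcore⟩ := S.core u hu y hy κ hκ
  have hgn : 0 < ‖g‖ ^ 2 := by positivity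
  -- the cut-off
  obtain ⟨L0, hL0⟩ := Metric.tendsto_atTop.1 (GKW.cut_tendsto D) (Real.sqrt κ)
    (Real.sqrt_pos.2 hκ)
  set L : ℕ := max L0 ng with hL
  have hcut : ‖D - mulOp H (ind (Set.Ico (-(L : ℝ)) L)) D‖ ^ 2 ≤ κ := by
    have h1 := hL0 L (le_max_left _ _)
    rw [dist_eq_norm, norm_sub_rev] at h1
    have h2 := pow_le_pow_left₀ (norm_nonneg _) h1.le 2
    rwa [Real.sq_sqrt hκ.le] at h2
  have hgL : Pn L g = g := Pn_mono (le_max_right _ _) hg
  -- the modulus of continuity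
  obtain ⟨t₁, ht₁, hmod⟩ := Metric.continuousAt_iff.1
    ((S.bt_exp_cont hy ξ).continuousAt (x := 0)) (Real.sqrt κ) (Real.sqrt_pos.2 hκ)
  -- the parameters
  obtain ⟨t₀, ht₀, ht₀', hst⟩ := AP.exists_steps (κ := κ) (K := K) (C := 192 * ‖g‖ ^ 2)
    (L := (L : ℝ)) hκ hK (by positivity) (by positivity)
  set t : ℝ := min t₀ t₁ / 2 with htdef
  have hmin : 0 < min t₀ t₁ := lt_min ht₀ ht₁
  have ht0 : 0 < t := by positivity
  have htm : t < min t₀ t₁ := by rw [htdef]; linarith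
  set γ₀ : ℝ := Real.exp t with hγ₀
  have hγ0 : 0 < γ₀ := Real.exp_pos t
  have h1 : 1 < γ₀ := Real.one_lt_exp_iff.2 ht0
  have hlog : Real.log γ₀ = t := Real.log_exp t
  have htt₀ : t < t₀ := lt_of_lt_of_le htm (min_le_left _ _)
  have htt₁ : t < t₁ := lt_of_lt_of_le htm (min_le_right _ _)
  obtain ⟨n, m, hn, hLm, hnK, hCm⟩ := hst t ht0 htt₀
  have hmod' : ∀ r : ℝ, 0 ≤ r → r < Real.log γ₀ →
      ‖btU M N ξ (Real.exp r) y ξ - y ξ‖ ≤ Real.sqrt κ := by
    intro r hr0 hr1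
    rw [hlog] at hr1
    have h3 : dist r 0 < t₁ := by
      rw [Real.dist_eq, sub_zero, abs_of_nonneg hr0]
      exact hr1.trans htt₁
    have h4 := hmod h3
    rw [dist_eq_norm, Real.exp_zero, S.bt_one_act _ hy] at h4
    exact h4.le
  set A := Finset.Ico (-(m : ℤ)) m with hA
  have hAcard : (A.card : ℝ) = 2 * m := by
    rw [hA, Int.card_Ico]
    have : ((m : ℤ) - -(m : ℤ)).toNat = 2 * m := by omega
    rw [this]
    push_cast
    ring
  obtain ⟨B, hB⟩ := exists_finite (t := t) A D hκ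
  obtain ⟨z, hz, hzy, hcore⟩ := hcore γ₀ h1 (by rw [hlog]; linarith) m g hg0 B n hn
    (by rw [hlog]; exact hnK)
  rw [hlog] at hcore
  set zi : ℤ → H →L[ℂ] H := fun i => btU M N ξ (γ₀ ^ (i - m)) z with hzi
  have hziQ : ∀ i, zi i ∈ Bicent M N ξ := fun i => S.bt_mem _ hz _ (zpow_pos hγ0 _)
  set e : ℝ := Real.sqrt κ + Real.sqrt (2 * κ) with he
  have he0 : 0 ≤ e := by positivity
  have he2 : e ^ 2 ≤ 6 * κ := sqrt_add_sqrt_sq hκ.le
  have hclose : ∀ i ∈ A, ∀ s ∈ win t i, ‖(btU M N ξ (Real.exp s) y - zi i) ξ‖ ≤ e :=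
    fun i _ s hs => S.bt_sub_bt hy hγ0 m hz hzy hmod' (by rw [hlog]; exact hs)
  set Zt := blk t A zi with hZt
  set V := u (Zt (ten g ξ)) - Zt (u (ten g ξ)) with hV
  set R1 := X (ten g ξ) - Zt (ten g ξ) with hR1
  set R2 := X (u (ten g ξ)) - Zt (u (ten g ξ)) with hR2
  have hDV : D - V = u R1 - R2 := by
    rw [hD, hV, hR1, hR2, map_sub]
    abel
  have hgten : mulOp H (ind (Set.Ico (-(L : ℝ)) L)) (ten g ξ) = ten g ξ := by
    rw [mulOp_ten (ind_bm measurableSet_Ico)]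
    change ten (Pn L g) ξ = _
    rw [hgL]
  have hgt : ‖ten g ξ‖ = ‖g‖ := by rw [norm_ten, S.norm_one, mul_one]
  have hR1n : ‖R1‖ ^ 2 ≤ e ^ 2 * ‖g‖ ^ 2 := by
    have c1 := norm_le_win ht0 (m := m) (L := L) hLm R1
    have c2 : mulOp H (ind (Set.Ico (-(L : ℝ)) L)) R1 = R1 := by
      rw [hR1, map_sub, S.piU_mulOp hy (ind_bm measurableSet_Ico),
        blk_mulOp A zi (ind_bm measurableSet_Ico), hgten]
    rw [c2, sub_self, norm_zero] at c1
    have c3 := S.err_blk hy ht0 hziQ he0 hclose (F := ten g ξ) (ten_ae_mem g S.xi_mem_K0)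
    rw [hgt] at c3
    have c4 : (0 : ℝ) ^ 2 = 0 := by norm_num
    rw [c4, add_zero] at c1
    exact c1.trans c3
  have hR2n : ∑ i ∈ A, ‖mulOp H (ind (win t i)) R2‖ ^ 2 ≤ e ^ 2 * ‖g‖ ^ 2 := by
    have c3 := S.err_blk hy ht0 hziQ he0 hclose (F := u (ten g ξ)) (GK_slice_mem hu.1 g)
    rw [norm_of_isom hu.2.1, hgt] at c3
    exact c3
  have hDVn : ∑ i ∈ A, ‖mulOp H (ind (win t i)) (D - V)‖ ^ 2 ≤ 4 * (e ^ 2 * ‖g‖ ^ 2) := by
    have c1 : ∀ i ∈ A, ‖mulOp H (ind (win t i)) (D - V)‖ ^ 2 ≤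
        2 * ‖mulOp H (ind (win t i)) (u R1)‖ ^ 2 + 2 * ‖mulOp H (ind (win t i)) R2‖ ^ 2 := by
      intro i _
      rw [hDV, map_sub, sub_eq_add_neg]
      have := two_sq (mulOp H (ind (win t i)) (u R1)) (-(mulOp H (ind (win t i)) R2))
      rwa [norm_neg] at this
    refine (Finset.sum_le_sum c1).trans ?_
    rw [Finset.sum_add_distrib, ← Finset.mul_sum, ← Finset.mul_sum]
    have c2 := bessel_win ht0 A (u R1)
    rw [norm_of_isom hu.2.1] at c2
    linarith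
  -- the components of `D`
  have hcomp : ∀ i ∈ A, ∀ k ∈ B, ‖sl (mulOp ℂ (ind (win t i)) (hb k)) D‖ ^ 2 ≤
      2 * ((2 * m) * ∑ j ∈ A, ‖(zi i * sa u t g (i, k, j) - sa u t g (i, k, j) * zi j) ξ‖ ^ 2) +
        2 * ‖sl (hb k) (mulOp H (ind (win t i)) (D - V))‖ ^ 2 := by
    intro i hi k _
    have c1 : sl (mulOp ℂ (ind (win t i)) (hb k)) D =
        sl (mulOp ℂ (ind (win t i)) (hb k)) V +
          sl (hb k) (mulOp H (ind (win t i)) (D - V)) := by
      have c2 : sl (hb k) (mulOp H (ind (win t i)) (D - V)) =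
          sl (mulOp ℂ (ind (win t i)) (hb k)) (D - V) := by
        rw [sl_mulOp' (ind_bm (win_meas t i)), ind_conj]
      rw [c2, ← map_add, add_sub_cancel]
    rw [c1]
    refine (two_sq _ _).trans ?_
    gcongr
    have hgsup : ∀ᵐ s, s ∉ Set.Ico (-(m * t)) (m * t) → g s = 0 := by
      filter_upwards [Pn_ae hgL] with s hs h
      refine hs fun hcon => h ⟨?_, ?_⟩
      · linarith [hcon.1]
      · linarith [hcon.2]
    have c3 := comp_blk (ξ := ξ) ht0 hA zi u hgsup hi k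
    rw [← hZt, ← hV] at c3
    rw [c3]
    have c4 : ‖∑ j ∈ A, (sa u t g (i, k, j) * zi j - zi i * sa u t g (i, k, j)) ξ‖ ≤
        ∑ j ∈ A, ‖(zi i * sa u t g (i, k, j) - sa u t g (i, k, j) * zi j) ξ‖ := by
      refine (norm_sum_le _ _).trans (le_of_eq (Finset.sum_congr rfl fun j _ => ?_))
      rw [← norm_neg, ← neg_apply, neg_sub]
    have c5 := pow_le_pow_left₀ (norm_nonneg _) c4 2
    refine c5.trans ?_
    have c6 := sq_sum_le_card_mul_sum_sq (s := A)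
      (f := fun j => ‖(zi i * sa u t g (i, k, j) - sa u t g (i, k, j) * zi j) ξ‖)
    rw [hAcard] at c6
    exact c6
  have htot : ∑ i ∈ A, ∑ k ∈ B, ‖sl (mulOp ℂ (ind (win t i)) (hb k)) D‖ ^ 2 ≤
      2 * ((2 * m) * (96 * ‖g‖ ^ 2 * κ / n)) + 2 * (4 * (e ^ 2 * ‖g‖ ^ 2)) := by
    have d1 : ∑ i ∈ A, ∑ k ∈ B, ‖sl (mulOp ℂ (ind (win t i)) (hb k)) D‖ ^ 2 ≤
        ∑ i ∈ A, ∑ k ∈ B, (2 * ((2 * m) * ∑ j ∈ A,
          ‖(zi i * sa u t g (i, k, j) - sa u t g (i, k, j) * zi j) ξ‖ ^ 2) +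
        2 * ‖sl (hb k) (mulOp H (ind (win t i)) (D - V))‖ ^ 2) :=
      Finset.sum_le_sum fun i hi => Finset.sum_le_sum fun k hk => hcomp i hi k hk
    refine d1.trans ?_
    simp only [Finset.sum_add_distrib, ← Finset.mul_sum]
    have d2 : ∑ i ∈ A, ∑ k ∈ B, ∑ j ∈ A,
        ‖(zi i * sa u t g (i, k, j) - sa u t g (i, k, j) * zi j) ξ‖ ^ 2 ≤
        96 * ‖g‖ ^ 2 * κ / n := by
      refine le_trans (le_of_eq ?_) hcore
      rw [Finset.sum_comm (s := A) (t := A)]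
      refine Finset.sum_congr rfl fun i _ => ?_
      rw [Finset.sum_comm]
    have d3 : ∑ i ∈ A, ∑ k ∈ B, ‖sl (hb k) (mulOp H (ind (win t i)) (D - V))‖ ^ 2 ≤
        4 * (e ^ 2 * ‖g‖ ^ 2) :=
      (Finset.sum_le_sum fun i _ => bessel_sq B _).trans hDVn
    gcongr
  have hlast : (2 * m) * (96 * ‖g‖ ^ 2 * κ / n) ≤ κ :=
    last_le hκ.le (by exact_mod_cast hn) hCm
  have hfin := norm_le_win ht0 (m := m) (L := L) hLm D
  rw [← hA] at hfin
  have he3 : e ^ 2 * ‖g‖ ^ 2 ≤ 6 * κ * ‖g‖ ^ 2 := by gcongr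
  exact fin_le hfin hB hcut htot hlast he3

/-- Elements of the bicentralizer commute with the centralizer of the weight. -/
theorem comm_of_bicent {u : L2R H →L[ℂ] L2R H} (hu : u ∈ GK N ξ) {y : H →L[ℂ] H}
    (hy : y ∈ Bicent M N ξ) : u * piU M N ξ y = piU M N ξ y * u := by
  have huM : u ∈ amp M := amp_mono S.le hu.1
  have hpM := S.piU_mem hy
  -- vanishing on functions with bounded support
  have h1 : ∀ (n : ℕ) (g : L2R ℂ), Pn n g = g →
      u (piU M N ξ y (ten g ξ)) - piU M N ξ y (u (ten g ξ)) = 0 := by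
    intro n g hg
    by_cases hg0 : g = 0
    · subst hg0
      have : ten (0 : L2R ℂ) ξ = 0 := map_zero (axi ξ)
      rw [this, map_zero, map_zero, map_zero, sub_self]
    rw [← norm_eq_zero]
    by_contra hne
    set d := ‖u (piU M N ξ y (ten g ξ)) - piU M N ξ y (u (ten g ξ))‖ with hd
    have hpos : 0 < d := lt_of_le_of_ne (norm_nonneg _) (Ne.symm hne)
    have h2 := S.est hu hy hg0 hg (κ := d ^ 2 / (2 * (4 + 48 * ‖g‖ ^ 2))) (by positivity)
    rw [← hd] at h2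
    have h3 : (4 + 48 * ‖g‖ ^ 2) * (d ^ 2 / (2 * (4 + 48 * ‖g‖ ^ 2))) = d ^ 2 / 2 := by
      field_simp
    rw [h3] at h2
    have : 0 < d ^ 2 := by positivity
    linarith
  refine amp_ext (ξ := ξ) S.dense_comm (mul_mem huM hpM) (mul_mem hpM huM) fun g => ?_
  set T : L2R ℂ →L[ℂ] L2R H := (u * piU M N ξ y - piU M N ξ y * u).comp (axi ξ) with hT
  have hTg : ∀ g, T g = u (piU M N ξ y (ten g ξ)) - piU M N ξ y (u (ten g ξ)) := fun _ => rfl
  have hT0 : T g = 0 := by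
    refine eq_zero_of_ten fun f η => ?_
    have h2 : ⟪ten f η, T g⟫_ℂ = ⟪(adjoint T) (ten f η), g⟫_ℂ := by
      rw [adjoint_inner_left]
    rw [h2]
    have h3 : (adjoint T) (ten f η) = 0 := by
      refine eq_zero_of_Pn (n0 := 0) fun n _ => ?_
      refine ext_inner_right ℂ fun g' => ?_
      rw [inner_Pn, adjoint_inner_left, inner_zero_left, hTg, h1 n _ (Pn_Pn n g'),
        inner_zero_right]
    rw [h3, inner_zero_left]
  rw [hTg, sub_eq_zero] at hT0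
  exact hT0

end BFlow

end Pool.Agent.Helper23

end

section

open scoped InnerProductSpace Topology ENNReal

open ContinuousLinearMap Filter MeasureTheory

namespace Pool.Agent.Helper23

variable {H : Type*} [NormedAddCommGroup H] [InnerProductSpace ℂ H] [CompleteSpace H]

variable {M N : VonNeumannAlgebra H} {ξ : H} {E : (H →L[ℂ] H) → (H →L[ℂ] H)}

namespace BFlow

variable (S : BFlow M N E ξ)

include S

/-- `π(y)(f_n ⊗ ξ)` is close to `f_n ⊗ yξ` -/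
lemma piU_fn {y : H →L[ℂ] H} (hy : y ∈ Bicent M N ξ) :
    Tendsto (fun n => ‖ten (fn n) (y ξ) - piU M N ξ y (ten (fn n) ξ)‖) atTop (𝓝 0) := by
  rw [Metric.tendsto_atTop]
  intro ε hε
  have hcont := S.bt_exp_cont hy ξ
  obtain ⟨δ, hδ, hδ'⟩ := Metric.continuousAt_iff.1 (hcont.continuousAt (x := 0)) (ε / 2)
    (by positivity)
  obtain ⟨n0, hn0⟩ := exists_nat_one_div_lt hδ
  refine ⟨n0, fun n hn => ?_⟩
  rw [Real.dist_eq, sub_zero, abs_of_nonneg (norm_nonneg _)]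
  have h1 : ‖ten (fn n) (y ξ) - piU M N ξ y (ten (fn n) ξ)‖ ≤ ε / 2 * ‖fn n‖ := by
    refine Lp.norm_le_mul_norm_of_ae_le_mul ?_
    filter_upwards [Lp.coeFn_sub (ten (fn n) (y ξ)) (piU M N ξ y (ten (fn n) ξ)),
      ten_coe (fn n) (y ξ), S.piU_coe hy (ten (fn n) ξ), ten_coe (fn n) ξ, fn_coe n]
      with s e1 e2 e3 e4 e5
    rw [e1, Pi.sub_apply, e2, e3, e4, map_smul, ← smul_sub, norm_smul, mul_comm]
    by_cases hs : s ∈ Set.Ico (0 : ℝ) (1 / (n + 1))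
    · gcongr
      have h2 : dist s 0 < δ := by
        rw [Real.dist_eq, sub_zero, abs_of_nonneg hs.1]
        have h3 : (1 : ℝ) / (n + 1) ≤ 1 / (n0 + 1) := by
          have : (n0 : ℝ) ≤ n := by exact_mod_cast hn
          gcongr
        linarith [hs.2]
      have h3 := hδ' h2
      rw [dist_eq_norm, Real.exp_zero, S.bt_one_act _ hy, norm_sub_rev] at h3
      exact h3.le
    · rw [e5, Set.indicator_of_notMem hs, norm_zero, mul_zero, mul_zero]
  rw [fn_norm, mul_one] at h1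
  linarith

lemma orthogonal_of_piU {F : L2R H}
    (h : ∀ y, y ∈ Bicent M N ξ → ∀ f : L2R ℂ, ⟪piU M N ξ y (ten f ξ), F⟫_ℂ = 0)
    {y : H →L[ℂ] H} (hy : y ∈ Bicent M N ξ) (f : L2R ℂ) : ⟪ten f (y ξ), F⟫_ℂ = 0 := by
  -- pointwise orthogonality for a single element
  have h1 : ∀ z, z ∈ Bicent M N ξ → ∀ᵐ s, ⟪btU M N ξ (Real.exp s) z ξ, F s⟫_ℂ = 0 := by
    intro z hz
    -- the function `s ↦ ⟪β z ξ, F s⟫` is in `L²`
    have hmem : MemLp (fun s => ⟪btU M N ξ (Real.exp s) z ξ, F s⟫_ℂ) 2 volume := by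
      refine MemLp.of_le_mul (c := ‖z ξ‖) (Lp.memLp F) ?_ (Eventually.of_forall fun s => ?_)
      · exact ((S.bt_exp_cont hz ξ).aestronglyMeasurable).inner (Lp.aestronglyMeasurable F)
      · refine (norm_inner_le_norm _ _).trans ?_
        rw [S.bt_norm hz (Real.exp_pos s)]
    have h2 : hmem.toLp _ = 0 := by
      refine ext_inner_left ℂ fun g => ?_
      rw [inner_zero_right, ← h z hz g, L2.inner_def, L2.inner_def]
      refine integral_congr_ae ?_
      filter_upwards [hmem.coeFn_toLp, S.piU_coe hz (ten g ξ), ten_coe g ξ] with s e1 e2 e3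
      rw [e1, e2, e3, map_smul, inner_smul_left]
      simp only [RCLike.inner_apply]
      ring
    have h3 := hmem.coeFn_toLp
    rw [h2] at h3
    filter_upwards [h3, Lp.coeFn_zero ℂ 2 volume] with s e1 e2
    rw [← e1, e2]; rfl
  have h2 : ∀ᵐ s, ∀ q : ℚ, ⟪btU M N ξ (Real.exp (s - q)) y ξ, F s⟫_ℂ = 0 := by
    refine ae_all_iff.2 fun q => ?_
    filter_upwards [h1 _ (S.bt_mem _ hy _ (Real.exp_pos (-q)))] with s e1
    rwa [S.bt_bt _ hy _ (Real.exp_pos s) _ (Real.exp_pos _), ← Real.exp_add,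
      ← sub_eq_add_neg] at e1
  have h3 : ∀ᵐ s, ⟪y ξ, F s⟫_ℂ = 0 := by
    filter_upwards [h2] with s hs
    have hcl : IsClosed {t : ℝ | ⟪btU M N ξ (Real.exp (s - t)) y ξ, F s⟫_ℂ = 0} := by
      refine isClosed_eq ?_ continuous_const
      exact ((S.bt_exp_cont hy ξ).comp (continuous_const.sub continuous_id)).inner
        continuous_const
    have hd : Dense (Set.range ((↑) : ℚ → ℝ)) := Rat.denseRange_cast
    have hsub : Set.range ((↑) : ℚ → ℝ) ⊆
        {t : ℝ | ⟪btU M N ξ (Real.exp (s - t)) y ξ, F s⟫_ℂ = 0} := by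
      rintro _ ⟨q, rfl⟩
      exact hs q
    have := closure_minimal hsub hcl (hd s)
    change ⟪btU M N ξ (Real.exp (s - s)) y ξ, F s⟫_ℂ = 0 at this
    rwa [sub_self, Real.exp_zero, S.bt_one_act _ hy] at this
  rw [L2.inner_def]
  refine (integral_congr_ae ?_).trans (integral_zero _ _)
  filter_upwards [h3, ten_coe f (y ξ)] with s e1 e2
  rw [e2, inner_smul_left, e1, mul_zero]

end BFlow

end Pool.Agent.Helper23

end

section

open scoped InnerProductSpace Topology ENNReal BoundedContinuousFunction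

open ContinuousLinearMap Filter MeasureTheory

namespace Pool.Agent.Helper23

variable {H : Type*} [NormedAddCommGroup H] [InnerProductSpace ℂ H] [CompleteSpace H]

variable {M N : VonNeumannAlgebra H} {ξ : H} {E : (H →L[ℂ] H) → (H →L[ℂ] H)}

open RBF

namespace BFlow

variable (S : BFlow M N E ξ)

include S

/-- strong continuity of `π` on bounded sets -/
lemma piU_tendsto {ι : Type*} {F : Filter ι} {z : ι → H →L[ℂ] H} {x : H →L[ℂ] H} {C : ℝ}
    (hz : ∀ i, z i ∈ Bicent M N ξ) (hx : x ∈ Bicent M N ξ) (hC : ∀ᶠ i in F, ‖z i‖ ≤ C)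
    (h : Tendsto (fun i => z i ξ) F (𝓝 (x ξ))) (G : L2R H) :
    Tendsto (fun i => piU M N ξ (z i) G) F (𝓝 (piU M N ξ x G)) := by
  rcases F.eq_or_neBot with hbot | hne
  · rw [hbot]; exact tendsto_bot
  have hC0 : 0 ≤ C := by
    obtain ⟨i, hi⟩ := hC.exists
    exact (norm_nonneg _).trans hi
  set D : ℝ := 2 * C + 2 * ‖x‖ + 1 with hD
  have hD0 : 0 < D := by positivity
  have hbd : ∀ᶠ i in F, ‖piU M N ξ (z i) - piU M N ξ x‖ ≤ D := by
    filter_upwards [hC] with i hi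
    refine (norm_sub_le _ _).trans ?_
    have h1 := S.piU_norm (hz i)
    have h2 := S.piU_norm hx
    rw [hD]
    linarith
  set T : Set (L2R H) := {G | Tendsto (fun i => (piU M N ξ (z i) - piU M N ξ x) G) F (𝓝 0)}
    with hT
  -- elementary tensors with `ξ`
  have h1 : ∀ f : L2R ℂ, Tendsto (fun i => (piU M N ξ (z i) - piU M N ξ x) (ten f ξ)) F
      (𝓝 0) := by
    intro f
    have e1 : ∀ i, ‖(piU M N ξ (z i) - piU M N ξ x) (ten f ξ)‖ = ‖z i ξ - x ξ‖ * ‖f‖ := by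
      intro i
      have hd := bicent_sub (hz i) hx
      rw [← S.piU_sub (hz i) hx]
      have h2 := S.inner_piU_ten hd hd f f
      simp only [inner_self_eq_norm_sq_to_K] at h2
      have h3 : ‖piU M N ξ (z i - x) (ten f ξ)‖ ^ 2 = (‖(z i - x) ξ‖ * ‖f‖) ^ 2 := by
        rw [mul_pow]
        exact_mod_cast h2
      exact (pow_left_inj₀ (norm_nonneg _) (by positivity) two_ne_zero).1 h3
    rw [tendsto_zero_iff_norm_tendsto_zero]
    simp only [e1]
    have e2 := (tendsto_iff_norm_sub_tendsto_zero.1 h).mul_const ‖f‖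
    rwa [zero_mul] at e2
  have h2 : ∀ f : L2R ℂ, ∀ m ∈ M.commutant, ten f (m ξ) ∈ T := by
    intro f m hm
    have e1 : ∀ i, (piU M N ξ (z i) - piU M N ξ x) (ten f (m ξ)) =
        lift m ((piU M N ξ (z i) - piU M N ξ x) (ten f ξ)) := fun i =>
      amp_ten (sub_mem (S.piU_mem (hz i)) (S.piU_mem hx)) hm f ξ
    change Tendsto _ F (𝓝 0)
    simp only [e1]
    have := ((lift m).continuous.tendsto 0).comp (h1 f)
    rwa [map_zero] at this
  have hcl : IsClosed T := by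
    rw [← closure_subset_iff_isClosed]
    intro G hG
    change Tendsto _ F (𝓝 0)
    rw [Metric.tendsto_nhds]
    intro ε hε
    obtain ⟨G', hG', hGG⟩ := Metric.mem_closure_iff.1 hG (ε / (2 * D)) (by positivity)
    have h3 := (Metric.tendsto_nhds.1 hG') (ε / 2) (by positivity)
    filter_upwards [h3, hbd] with i hi hi2
    rw [dist_zero_right] at hi ⊢
    have e1 : (piU M N ξ (z i) - piU M N ξ x) G = (piU M N ξ (z i) - piU M N ξ x) (G - G') +
        (piU M N ξ (z i) - piU M N ξ x) G' := by rw [map_sub, sub_add_cancel]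
    rw [e1]
    rw [dist_eq_norm] at hGG
    calc _ ≤ ‖(piU M N ξ (z i) - piU M N ξ x) (G - G')‖ +
          ‖(piU M N ξ (z i) - piU M N ξ x) G'‖ := norm_add_le _ _
      _ ≤ D * ‖G - G'‖ + ‖(piU M N ξ (z i) - piU M N ξ x) G'‖ := by
          gcongr
          exact ContinuousLinearMap.le_of_opNorm_le _ hi2 _
      _ < D * (ε / (2 * D)) + ε / 2 := by gcongr
      _ = ε := by field_simp; ring
  set Ts : Submodule ℂ (L2R H) :=
    { carrier := T
      add_mem' := fun {a b} ha hb => by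
        change Tendsto _ F (𝓝 0)
        have := Tendsto.add ha hb
        rw [add_zero] at this
        refine this.congr fun i => ?_
        rw [map_add]
      zero_mem' := by
        change Tendsto _ F (𝓝 0)
        simp only [map_zero]
        exact tendsto_const_nhds
      smul_mem' := fun c a ha => by
        change Tendsto _ F (𝓝 0)
        have := Tendsto.const_smul ha c
        rw [smul_zero] at this
        refine this.congr fun i => ?_
        rw [map_smul] } with hTs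
  have h4 : ∀ f : L2R ℂ, ∀ η : H, ten f η ∈ Ts := by
    intro f η
    have hcl2 : IsClosed {η : H | iot H f η ∈ T} := hcl.preimage (iot H f).continuous
    have hsub : (orb M.commutant ξ : Set H) ⊆ {η : H | iot H f η ∈ T} := by
      rintro _ ⟨m, hm, rfl⟩
      exact h2 f m hm
    exact closure_minimal hsub hcl2 (S.dense_comm η)
  have h5 : Ts.topologicalClosure = ⊤ := by
    rw [Submodule.topologicalClosure_eq_top_iff, Submodule.eq_bot_iff]
    intro F hF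
    exact eq_zero_of_ten fun f η => (Submodule.mem_orthogonal _ _).1 hF _ (h4 f η)
  have h6 : G ∈ T := by
    have e1 : G ∈ Ts.topologicalClosure := by rw [h5]; trivial
    have e2 : G ∈ closure (Ts : Set (L2R H)) := e1
    exact hcl.closure_subset e2
  have h7 : Tendsto (fun i => (piU M N ξ (z i) - piU M N ξ x) G) F (𝓝 0) := h6
  have := h7.add_const (piU M N ξ x G)
  rw [zero_add] at this
  refine this.congr fun i => ?_
  rw [sub_apply, sub_add_cancel]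

end BFlow

end Pool.Agent.Helper23

end

section

open scoped InnerProductSpace Topology ENNReal BoundedContinuousFunction

open ContinuousLinearMap Filter MeasureTheory

namespace Pool.Agent.Helper23

universe u

variable {H : Type u} [NormedAddCommGroup H] [InnerProductSpace ℂ H] [CompleteSpace H]

variable {K : Type u} [NormedAddCommGroup K] [InnerProductSpace ℂ K] [CompleteSpace K]

variable {M N : VonNeumannAlgebra H} {ξ : H} {E : (H →L[ℂ] H) → (H →L[ℂ] H)}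

namespace Oc

variable {MT NT : VonNeumannAlgebra K} {ET : (K →L[ℂ] K) → (K →L[ℂ] K)} {ζ : K}
  {rep : (ℕ → H →L[ℂ] H) → (K →L[ℂ] K)} (O : Oc M N E ξ MT NT ET ζ rep)

include O

lemma const_mul (S : Setting M N E ξ) {x y : H →L[ℂ] H} (hx : x ∈ M) (hy : y ∈ M) :
    rep (fun _ => x * y) = rep (fun _ => x) * rep (fun _ => y) :=
  O.mul _ (ocS_const S.dense_comm hx) _ (ocS_const S.dense_comm hy)

end Oc

end Pool.Agent.Helper23

end

section

open scoped InnerProductSpace Topology BoundedContinuousFunction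

open ContinuousLinearMap Filter

open Pool.Agent.Helper23.RBF

namespace Pool.Agent.Helper78.BC

universe u

variable {H : Type u} [NormedAddCommGroup H] [InnerProductSpace ℂ H] [CompleteSpace H]

section

variable {A : VonNeumannAlgebra H} {ξ : H} {J : H →L[ℝ] H}
  {Ψ : (ℝ →ᵇ ℂ) →⋆ₐ[ℂ] (H →L[ℂ] H)}

/-- Lipschitz vectors fixed by `J` are fixed by the modular group. -/
theorem fixed_of_lip (h : Std A ξ J Ψ) (hN : TypeIIIOne A) {ζ : H} (hJ : J ζ = ζ) {K : ℝ}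
    (hK : 0 ≤ K) (hu : ∀ u, Un A u → ‖cm J u ζ‖ ≤ K * ‖cm J u ξ‖) : Fixed Ψ ζ := by
  have hC : (0 : ℝ) ≤ 2 * K := by positivity
  obtain ⟨z, hz⟩ := exists_fam h (fun l hl hl1 ε hε => exists_lev h hN hl hl1 hε) hC
    (lip_all h hK hu)
  refine fixed_of h hJ fun a b ha hab G hG => ?_
  refine psi_zero hC hz.one hz.norm ?_ ?_ ha hab hG
  · intro l m hl hl1 hm hm1
    have := hz.rel l m hl hl1 hm hm1 1 (one_mem A)
    rw [rm_one h, rm_one h, one_apply_eq_self, one_apply_eq_self] at this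
    refine this.trans (le_of_eq ?_)
    rw [← sub_smul, norm_smul, h.norm_one, mul_one, ← Complex.ofReal_sub, Complex.norm_real,
      Real.norm_eq_abs]
  · intro l m hl hl1 hm hm1 G G' hG hr hG' s hs
    exact fam_psi h hC hz hl hl1 hm hm1 hG hr hG' hs

theorem fixed_bic (h : Std A ξ J Ψ) (hN : TypeIIIOne A) {x : H →L[ℂ] H} (hx : Bic A ξ x) :
    Fixed Ψ (x ξ) := by
  have h1 : Fixed Ψ (x ξ + J (x ξ)) := Fixed.of_tendsto fun r hr => by
    obtain ⟨ζ, hJ, h2, K, hK, hu⟩ := exists_lip h hx (Or.inl rfl) hr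
    exact ⟨ζ, h2, fixed_of_lip h hN hJ hK hu⟩
  have h2 : Fixed Ψ (Complex.I • (x ξ - J (x ξ))) := Fixed.of_tendsto fun r hr => by
    obtain ⟨ζ, hJ, h2, K, hK, hu⟩ := exists_lip h hx (Or.inr rfl) hr
    exact ⟨ζ, h2, fixed_of_lip h hN hJ hK hu⟩
  have h3 := (h1.add (h2.smul (-Complex.I))).smul (1 / 2)
  convert h3 using 1
  rw [smul_smul, neg_mul, Complex.I_mul_I, neg_neg, one_smul]
  rw [show x ξ + J (x ξ) + (x ξ - J (x ξ)) = (2 : ℂ) • x ξ by rw [two_smul]; abel, smul_smul]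
  norm_num

end

end Pool.Agent.Helper78.BC

end
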