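import Pool.Agent.Helper23.FA.Ns
import Pool.Agent.Helper23.FA.L01_01
import Pool.Agent.Helper23.FA.L01_03
import Pool.Agent.Helper23.FA.L01_10
import Pool.Agent.Helper23.FA.L01_13
import Pool.Agent.Helper23.FA.L01_14
import Pool.Agent.Helper23.FA.L01_15
import Pool.Agent.Helper23.FA.L01_16
import Pool.Agent.Helper23.FA.L01_18
import Pool.Agent.Helper23.FA.L01_19

/-!
Parts of Helper23.Amp1, Helper88.CS.Polar, Helper88.CS.Infty, Helper88.CS.Equiv, Helper88.CS.CornerSpec, Helper88.CS.Full, Helper23.ED.RkB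
-/

section

open scoped InnerProductSpace Topology ENNReal

open ContinuousLinearMap Filter MeasureTheory

set_option linter.unusedSectionVars false

set_option linter.unusedVariables false

namespace Pool.Agent.Helper23

variable {G : Type*} [NormedAddCommGroup G] [InnerProductSpace ℂ G] [CompleteSpace G]

variable {G' : Type*} [NormedAddCommGroup G'] [InnerProductSpace ℂ G'] [CompleteSpace G']

variable {G'' : Type*} [NormedAddCommGroup G''] [InnerProductSpace ℂ G''] [CompleteSpace G'']

omit [CompleteSpace G] [CompleteSpace G'] in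
lemma lift_add (a b : G →L[ℂ] G') : lift (a + b) = lift a + lift b :=
  dec_add (Dec.const a) (Dec.const b)

end Pool.Agent.Helper23

end

section

open scoped InnerProductSpace Topology BoundedContinuousFunction

open ContinuousLinearMap Filter MeasureTheory

namespace Pool.Agent.Helper88.CS

open Pool.Agent.Helper23

open Pool.Agent.Helper78.BC (Std rm Fixed)

set_option linter.unusedSectionVars false

set_option linter.unusedVariables false

variable {H : Type*} [NormedAddCommGroup H] [InnerProductSpace ℂ H] [CompleteSpace H]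

variable {A : VonNeumannAlgebra H}

open PolarAux

/-- polar decomposition -/
theorem exists_polar {a : H →L[ℂ] H} (ha : a ∈ A) :
    ∃ v ∈ A, star v * v = rp (star a) ∧ v * star v = rp a := by
  obtain ⟨v, h1, h2⟩ := exists_ext a
  set p := CFC.abs a with hp
  have hpA : p ∈ A := abs_mem ha
  have hps : star p = p := abs_star' a
  have heA := (rp_isP hpA).1
  have hpp : p * p = star a * a := CFC.abs_mul_abs a
  -- `v ∈ A`
  have hvA : v ∈ A := by
    rw [mem_iff_commutes]
    intro g hg
    have c1 : a * g = g * a := mem_comm_iff.1 hg a ha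
    have c2 : p * g = g * p := mem_comm_iff.1 hg p hpA
    have c3 : rp p * g = g * rp p := mem_comm_iff.1 hg _ heA
    have h3 : (g * v) * p = (v * g) * p := by
      rw [mul_assoc, h1, mul_assoc, ← c2, ← mul_assoc, h1, c1]
    have h4 := eq_mul_rp h3
    rwa [mul_assoc, h2, mul_assoc, ← c3, ← mul_assoc, h2] at h4
  -- `v* a = p`
  have hsa : star v * a = p := by
    have h3 : p * (star v * a) = p * p := by
      have : star (v * p) = star a := by rw [h1]
      rw [star_mul, hps] at this
      rw [← mul_assoc, this, hpp]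
    have h4 : rp p * (star v * a) = rp p * p := by
      have h5 : (star (star v * a)) * p = p * p := by
        have := congrArg star h3
        rwa [star_mul, star_mul p p, hps] at this
      have h6 := eq_mul_rp h5
      have := congrArg star h6
      rwa [star_mul, star_star, star_mul, hps, rp_star] at this
    have h7 : rp p * star v = star v := by
      have := congrArg star h2
      rwa [star_mul, rp_star] at this
    rwa [← mul_assoc, h7, rp_mul] at h4
  have hvv : star v * v = rp p := by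
    have h3 : (star v * v) * p = rp p * p := by
      rw [mul_assoc, h1, hsa, rp_mul]
    have h4 := eq_mul_rp h3
    rwa [mul_assoc, h2, rp_rp] at h4
  have hrp : rp p = rp (star a) := by
    have e1 : a * rp p = a := by
      have h3 : p * rp p = p := by
        have := congrArg star (rp_mul p)
        rwa [star_mul, hps, rp_star] at this
      calc a * rp p = v * (p * rp p) := by rw [← mul_assoc, h1]
        _ = a := by rw [h3, h1]
    have e2 : rp p * star a = star a := by
      have := congrArg star e1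
      rwa [star_mul, rp_star] at this
    have e3 : rp p * rp (star a) = rp (star a) := mul_rp e2
    have e4 : p * rp (star a) = p := by
      rw [← hsa, mul_assoc, mul_rp_star]
    have e5 : rp (star a) * p = p := by
      have := congrArg star e4
      rwa [star_mul, rp_star, hps] at this
    have e6 : rp (star a) * rp p = rp p := mul_rp e5
    have e7 := congrArg star e6
    rw [star_mul, rp_star, rp_star] at e7
    rw [← e7, e3]
  refine ⟨v, hvA, hvv.trans hrp, ?_⟩
  have h3 : (v * star v) * a = a := by rw [mul_assoc, hsa, h1]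
  have h4 : (v * star v) * rp a = rp a := mul_rp h3
  have h5 : (rp a * v) * p = v * p := by rw [mul_assoc, h1, rp_mul]
  have h6 := eq_mul_rp h5
  rw [mul_assoc, h2] at h6
  have h7 : star v * rp a = star v := by
    have := congrArg star h6
    rwa [star_mul, rp_star] at this
  rwa [mul_assoc, h7] at h4

/-- comparison: a nonzero partial isometry between subprojections -/
theorem exists_pi (hA : FInf A) {e f : H →L[ℂ] H} (he : IsP A e) (hf : IsP A f)
    (he0 : e ≠ 0) (hf0 : f ≠ 0) :
    ∃ v ∈ A, v ≠ 0 ∧ v * star v * v = v ∧ f * v = v ∧ v * e = v := by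
  obtain ⟨x, hx, hne⟩ := exists_mul_ne hA he hf he0 hf0
  set a := f * x * e with ha
  have haA : a ∈ A := mul_mem (mul_mem hf.1 hx) he.1
  obtain ⟨v, hv, h1, h2⟩ := exists_polar haA
  have hfa : f * a = a := by rw [ha, ← mul_assoc, ← mul_assoc, hf.2.2]
  have hae : a * e = a := by rw [ha, mul_assoc, he.2.2]
  have hpi : v * star v * v = v := by
    have h3 : star (v - v * star v * v) * (v - v * star v * v) = 0 := by
      have hq : star v * v * (star v * v) = star v * v := by rw [h1, rp_rp]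
      have h4 : star (v * star v * v) = star v * v * star v := by
        rw [star_mul, star_mul, star_star, mul_assoc]
      rw [star_sub, h4, sub_mul, mul_sub, mul_sub]
      have e1 : star v * (v * star v * v) = star v * v := by
        rw [← hq]; simp only [mul_assoc]
      have e2 : star v * v * star v * v = star v * v := by
        rw [mul_assoc]; exact hq
      have e3 : star v * v * star v * (v * star v * v) = star v * v := by
        calc star v * v * star v * (v * star v * v) =
            (star v * v * (star v * v)) * (star v * v) := by simp only [mul_assoc]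
          _ = _ := by rw [hq, hq]
      rw [e1, e2, e3]
      simp
    have h5 := (CStarRing.star_mul_self_eq_zero_iff (v - v * star v * v)).1 h3
    exact (sub_eq_zero.1 h5).symm
  refine ⟨v, hv, ?_, hpi, ?_, ?_⟩
  · rintro rfl
    apply hne
    rw [← rp_mul a, ← h2, zero_mul, zero_mul]
  · have h3 : f * rp a = rp a := mul_rp hfa
    calc f * v = f * (v * star v * v) := by rw [hpi]
      _ = f * rp a * v := by rw [h2, mul_assoc]
      _ = v * star v * v := by rw [h3, h2]
      _ = v := hpi
  · have h3 : e * star a = star a := by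
      have := congrArg star hae
      rwa [star_mul, he.2.1] at this
    have h4 : e * rp (star a) = rp (star a) := mul_rp h3
    have h5 : rp (star a) * e = rp (star a) := by
      have := congrArg star h4
      rwa [star_mul, rp_star, he.2.1] at this
    calc v * e = (v * star v * v) * e := by rw [hpi]
      _ = v * (rp (star a) * e) := by rw [← h1]; simp only [mul_assoc]
      _ = v * star v * v := by rw [h5, ← h1]; simp only [mul_assoc]
      _ = v := hpi

end Pool.Agent.Helper88.CS

end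

section

open scoped InnerProductSpace Topology BoundedContinuousFunction

open ContinuousLinearMap Filter MeasureTheory

namespace Pool.Agent.Helper88.CS

open Pool.Agent.Helper23

open Pool.Agent.Helper78.BC (Std rm Fixed)

variable {H : Type*} [NormedAddCommGroup H] [InnerProductSpace ℂ H] [CompleteSpace H]

variable {A : VonNeumannAlgebra H} {ξ : H}

open InftyAux

/-- an isometry with range under `e` -/
theorem exists_isometry (hA : FInf A) (hsep : ∀ a ∈ A, a ξ = 0 → a = 0) {e : H →L[ℂ] H}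
    (he : IsP A e) (he0 : e ≠ 0) : ∃ w ∈ A, star w * w = 1 ∧ e * w = w := by
  obtain ⟨p, x, hp, hpp, hx⟩ := exists_seq hA he he0
  set r : ℕ → H →L[ℂ] H := rr A ξ p with hr
  set w : ℕ → H →L[ℂ] H := fun n => ch A ξ (p n) (r n) with hw
  have hc : ∀ n, Cand A (p n) (r n) (w n) := fun n => ch_cand A ξ (p n) (r n)
  have hr0 : r 0 = 1 := rfl
  have hrS : ∀ n, r (n + 1) = r n - star (w n) * w n := fun n => rfl
  -- r n are projections
  have hrs : ∀ n, star (r n) = r n := by
    intro n
    induction n with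
    | zero => rw [hr0, star_one]
    | succ n ih => rw [hrS, star_sub, star_mul, star_star, ih]
  have hrw : ∀ n, r n * star (w n) = star (w n) := by
    intro n
    have h := congrArg star (hc n).2.2.1
    rwa [star_mul, hrs] at h
  have hkill : ∀ n, r (n + 1) * star (w n) = 0 := by
    intro n
    rw [hrS, sub_mul, hrw]
    have h := congrArg star (hc n).2.1
    rw [star_mul, star_mul, star_star] at h
    rw [mul_assoc, h, sub_self]
  have hkill2 : ∀ n k, r (n + 1 + k) * star (w n) = 0 := by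
    intro n k
    induction k with
    | zero => exact hkill n
    | succ k ih =>
      have h1 : w (n + 1 + k) * star (w n) = 0 := by
        rw [← (hc (n + 1 + k)).2.2.1, mul_assoc, ih, mul_zero]
      rw [← add_assoc, hrS, sub_mul, ih, mul_assoc, h1, mul_zero, sub_zero]
  have h2a : ∀ m n, n < m → w m * star (w n) = 0 := by
    intro m n hmn
    obtain ⟨k, rfl⟩ := Nat.exists_eq_add_of_le hmn
    rw [← (hc (n + 1 + k)).2.2.1, mul_assoc, hkill2, mul_zero]
  have h2 : ∀ m n, m ≠ n → w m * star (w n) = 0 := by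
    intro m n hmn
    rcases lt_or_gt_of_ne hmn with h | h
    · have h3 := congrArg star (h2a n m h)
      rwa [star_mul, star_star, star_zero] at h3
    · exact h2a m n h
  have h1 : ∀ m n, m ≠ n → star (w m) * w n = 0 := by
    intro m n hmn
    have e1 : star (w m) * p m = star (w m) := by
      have h := congrArg star (hc m).2.2.2
      rwa [star_mul, (hp m).1.2.1] at h
    calc star (w m) * w n = star (w m) * p m * (p n * w n) := by rw [e1, (hc n).2.2.2]
      _ = star (w m) * (p m * p n) * w n := by noncomm_ring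
      _ = 0 := by rw [hpp m n hmn, mul_zero, zero_mul]
  obtain ⟨v, hvA, hv1, hv2, -, hv4, -, hv6, hv7⟩ :=
    exists_sum (fun n => (hc n).1) (fun n => (hc n).2.1) h1 h2
  have hev : e * v = v := by
    ext z
    have h3 : HasSum (fun n => e (w n z)) (e (v z)) := e.hasSum (hv2 z)
    have h4 : (fun n => e (w n z)) = fun n => w n z := by
      funext n
      have h5 : e * w n = w n := by rw [← (hc n).2.2.2, ← mul_assoc, (hp n).2.2]
      exact congrArg (fun T : H →L[ℂ] H => T z) h5
    rw [h4] at h3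
    exact h3.unique (hv2 z)
  refine ⟨v, hvA, ?_, hev⟩
  by_contra hcon
  set t : H →L[ℂ] H := 1 - star v * v with ht
  have htA : t ∈ A := sub_mem (one_mem A) (mul_mem (star_mem hvA) hvA)
  have ht0 : t ≠ 0 := fun h => hcon (sub_eq_zero.1 h).symm
  have ht1 : star t = t := by rw [ht, star_sub, star_mul, star_star, star_one]
  have hvv : star v * v * (star v * v) = star v * v := by
    calc star v * v * (star v * v) = star v * (v * star v * v) := by noncomm_ring
      _ = star v * v := by rw [hv1]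
  have ht2 : t * t = t := by
    calc t * t = 1 - star v * v - star v * v + star v * v * (star v * v) := by
          rw [ht]; noncomm_ring
      _ = t := by rw [hvv, ht]; abel
  have htw : ∀ n, t * (star (w n) * w n) = 0 := by
    intro n
    have h3 : star v * w n = star (w n) * w n := by
      have h4 := congrArg star (hv7 n)
      rw [star_mul, star_mul, star_star] at h4
      calc star v * w n = star v * (w n * star (w n)) * w n := by
            rw [mul_assoc, (hc n).2.1]
        _ = star (w n) * w n := by rw [h4]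
    rw [ht, sub_mul, one_mul, mul_assoc, hv6, h3, sub_self]
  have htr : ∀ n, t * r n = t := by
    intro n
    induction n with
    | zero => rw [hr0, mul_one]
    | succ n ih => rw [hrS, mul_sub, ih, htw, sub_zero]
  obtain ⟨w', hwA, hw0, hw1, hw2, hw3⟩ := exists_pi hA ⟨htA, ht1, ht2⟩ (hp 0).1 ht0 (hp 0).2.1
  have hcand : ∀ n, Cand A (p n) (r n) (x n * w') := by
    intro n
    obtain ⟨hxA, hx1, hx2⟩ := hx n
    refine ⟨mul_mem hxA hwA, ?_, ?_, ?_⟩
    · calc x n * w' * star (x n * w') * (x n * w')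
          = x n * (w' * star w' * ((star (x n) * x n) * w')) := by
            rw [star_mul]; noncomm_ring
        _ = x n * w' := by rw [hx1, hw2, hw1]
    · rw [mul_assoc]
      congr 1
      calc w' * r n = w' * t * r n := by rw [hw3]
        _ = w' * (t * r n) := by rw [mul_assoc]
        _ = w' := by rw [htr, hw3]
    · calc p n * (x n * w') = x n * ((star (x n) * x n) * w') := by
            rw [← hx2]; noncomm_ring
        _ = x n * w' := by rw [hx1, hw2]
  have hnorm : ∀ n, ‖(star w' * w') ξ‖ ≤ 2 * ‖(star (w n) * w n) ξ‖ := by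
    intro n
    have h3 := ch_best A ξ (p n) (r n) (hcand n)
    have h4 : star (x n * w') * (x n * w') = star w' * w' := by
      calc star (x n * w') * (x n * w') = star w' * ((star (x n) * x n) * w') := by
            rw [star_mul]; noncomm_ring
        _ = star w' * w' := by rw [(hx n).2.1, hw2]
    rwa [h4] at h3
  have htend : Tendsto (fun n => 2 * ‖(star (w n) * w n) ξ‖) atTop (𝓝 0) := by
    have h3 : Tendsto (fun n => (star (w n) * w n) ξ) atTop (𝓝 0) :=
      (hv4 ξ).summable.tendsto_atTop_zero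
    have h4 := (h3.norm).const_mul 2
    simpa using h4
  have hle : ‖(star w' * w') ξ‖ ≤ 0 := ge_of_tendsto' htend hnorm
  have hz : (star w' * w') ξ = 0 := norm_le_zero_iff.1 hle
  exact hw0 (eq_zero_of_star_mul (hsep _ (mul_mem (star_mem hwA) hwA) hz))

end Pool.Agent.Helper88.CS

end

section

open scoped InnerProductSpace Topology BoundedContinuousFunction

open ContinuousLinearMap Filter MeasureTheory

namespace Pool.Agent.Helper88.CS

open Pool.Agent.Helper23

open Pool.Agent.Helper78.BC (Std rm Fixed)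

variable {H : Type*} [NormedAddCommGroup H] [InnerProductSpace ℂ H] [CompleteSpace H]

variable {A : VonNeumannAlgebra H} {ξ : H}

theorem equiv_one (hA : FInf A) (hsep : ∀ a ∈ A, a ξ = 0 → a = 0) {e : H →L[ℂ] H}
    (he : IsP A e) (he0 : e ≠ 0) : ∃ u ∈ A, star u * u = 1 ∧ u * star u = e := by
  obtain ⟨w, hw, h1, h2⟩ := exists_isometry hA hsep he he0
  exact csb he hw h1 h2

theorem equiv_pair (hA : FInf A) (hsep : ∀ a ∈ A, a ξ = 0 → a = 0) {e f : H →L[ℂ] H}
    (he : IsP A e) (he0 : e ≠ 0) (hf : IsP A f) (hf0 : f ≠ 0) :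
    ∃ u ∈ A, star u * u = e ∧ u * star u = f := by
  obtain ⟨u, hu, hu1, hu2⟩ := equiv_one hA hsep he he0
  obtain ⟨v, hv, hv1, hv2⟩ := equiv_one hA hsep hf hf0
  refine ⟨v * star u, mul_mem hv (star_mem hu), ?_, ?_⟩
  · rw [star_mul, star_star]
    calc u * star v * (v * star u) = u * (star v * v) * star u := by simp only [mul_assoc]
      _ = e := by rw [hv1, mul_one, hu2]
  · rw [star_mul, star_star]
    calc v * star u * (u * star v) = v * (star u * u) * star v := by simp only [mul_assoc]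
      _ = f := by rw [hu1, mul_one, hv2]

/-- Cuntz pair -/
theorem exists_cuntz (hA : FInf A) (hsep : ∀ a ∈ A, a ξ = 0 → a = 0) (hξ : ξ ≠ 0) :
    ∃ a ∈ A, ∃ b ∈ A, star a * a = 1 ∧ star b * b = 1 ∧ a * star a + b * star b = 1 ∧
      star a * b = 0 ∧ star b * a = 0 := by
  have h10 : (1 : H →L[ℂ] H) ≠ 0 := by
    intro h
    apply hξ
    have := congrArg (fun T : H →L[ℂ] H => T ξ) h
    simpa using this
  have h1P : IsP A (1 : H →L[ℂ] H) := ⟨one_mem A, star_one _, one_mul _⟩
  obtain ⟨v, hv, hv1, -, hv2⟩ := hA.infinite 1 h1P h10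
  have heP : IsP A (v * star v) := by
    refine ⟨mul_mem hv (star_mem hv), by rw [star_mul, star_star], ?_⟩
    calc v * star v * (v * star v) = v * (star v * v) * star v := by simp only [mul_assoc]
      _ = v * star v := by rw [hv1, mul_one]
  have he0 : v * star v ≠ 0 := by
    intro h
    apply h10
    calc (1 : H →L[ℂ] H) = star v * v * (star v * v) := by rw [hv1, mul_one]
      _ = star v * (v * star v) * v := by simp only [mul_assoc]
      _ = 0 := by rw [h]; simp
  have hfP : IsP A (1 - v * star v) := by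
    obtain ⟨a1, a2, a3⟩ := heP
    refine ⟨sub_mem (one_mem A) a1, by rw [star_sub, star_one, a2], ?_⟩
    rw [sub_mul, mul_sub, mul_sub, a3]; simp
  have hf0 : 1 - v * star v ≠ 0 := by
    intro h
    exact hv2 (sub_eq_zero.1 h).symm
  obtain ⟨a, ha, ha1, ha2⟩ := equiv_one hA hsep heP he0
  obtain ⟨b, hb, hb1, hb2⟩ := equiv_one hA hsep hfP hf0
  have hab : star a * b = 0 := by
    calc star a * b = (star a * a) * star a * (b * (star b * b)) := by rw [ha1, hb1]; simp
      _ = star a * (a * star a) * (b * star b) * b := by simp only [mul_assoc]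
      _ = star a * ((v * star v) * (1 - v * star v)) * b := by
          rw [ha2, hb2]; simp only [mul_assoc]
      _ = 0 := by rw [mul_sub, mul_one, heP.2.2]; simp
  refine ⟨a, ha, b, hb, ha1, hb1, by rw [ha2, hb2]; abel, hab, ?_⟩
  have := congrArg star hab
  simpa using this

end Pool.Agent.Helper88.CS

end

section

open scoped InnerProductSpace Topology BoundedContinuousFunction

open ContinuousLinearMap Filter MeasureTheory

namespace Pool.Agent.Helper88.CS

open Pool.Agent.Helper23

open Pool.Agent.Helper78.BC (Std rm Fixed)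

variable {H : Type*} [NormedAddCommGroup H] [InnerProductSpace ℂ H] [CompleteSpace H]

variable {A : VonNeumannAlgebra H} {ξ : H} {J : H →L[ℝ] H}
  {Ψ : (ℝ →ᵇ ℂ) →⋆ₐ[ℂ] (H →L[ℂ] H)} {R : H →L[ℂ] H} {D : H →L[ℝ] H}

open CornerSpecAux

theorem corner_spec (h : St A ξ J Ψ R D) (hA : III1V A) {q : H →L[ℂ] H} (hq : IsP A q)
    (hq0 : q ≠ 0) (hJ : J (q ξ) = q ξ) (γ : ℝ) (G : ℝ →ᵇ ℂ) (hG : G γ ≠ 0) :
    ∃ y ∈ A, q * y = y ∧ y * q = y ∧ Ψ G (y ξ) ≠ 0 := by
  by_contra hcon
  push Not at hcon
  obtain ⟨hqA, hqs, hqq⟩ := hq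
  obtain ⟨u, huA, hu1, hu2⟩ := equiv_one hA.toFInf h.sep ⟨hqA, hqs, hqq⟩ hq0
  have husA : star u ∈ A := star_mem huA
  -- pointwise identities
  have hu1' : ∀ v, (star u) (u v) = v := fun v => congrArg (fun T : H →L[ℂ] H => T v) hu1
  have hu2' : ∀ v, u ((star u) v) = q v := fun v => congrArg (fun T : H →L[ℂ] H => T v) hu2
  have hsu : star u ≠ 0 := by
    intro h0
    apply hq0
    rw [← hu2, h0, mul_zero]
  set c : ℝ := ‖(star u) ξ‖ with hcdef
  have hc : 0 < c := by
    refine norm_pos_iff.2 fun h0 => hsu (h.sep _ husA h0)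
  set z : H := ((c⁻¹ : ℝ) : ℂ) • (star u) ξ with hz
  have hz1 : ‖z‖ = 1 := by
    rw [hz, norm_smul, Complex.norm_real, Real.norm_of_nonneg (inv_nonneg.2 hc.le), ← hcdef,
      inv_mul_cancel₀ hc.ne']
  have hcc : ((c⁻¹ : ℝ) : ℂ) ≠ 0 := by exact_mod_cast (inv_pos.2 hc).ne'
  have hzsep : ∀ a ∈ A, a z = 0 → a = 0 := by
    intro a ha h0
    rw [hz, map_smul, smul_eq_zero] at h0
    have h1 : (a * star u) ξ = 0 := h0.resolve_left hcc
    have h2 := h.sep _ (mul_mem ha husA) h1
    calc a = a * (star u * u) := by rw [hu1, mul_one]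
      _ = (a * star u) * u := (mul_assoc _ _ _).symm
      _ = 0 := by rw [h2, zero_mul]
  obtain ⟨C, hC0, hC⟩ := norm_le_of h γ G hG
  set ε : ℝ := 1 / (2 * (C + 1)) with hε
  have hε0 : 0 < ε := by positivity
  obtain ⟨a, haA, ha1, ha2⟩ := hA.spec z hz1 hzsep (Real.exp γ) (Real.exp_pos γ) ε hε0
  set b : H →L[ℂ] H := u * a * star u with hb
  have hbA : b ∈ A := mul_mem (mul_mem huA haA) husA
  have hqu : q * u = u := by rw [← hu2, mul_assoc, hu1, mul_one]
  have huq : star u * q = star u := by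
    have := congrArg star hqu
    rwa [star_mul, hqs] at this
  have hqb : q * b = b := by rw [hb, ← mul_assoc, ← mul_assoc, hqu]
  have hbq : b * q = b := by rw [hb, mul_assoc, huq]
  have hbs : star b = u * star a * star u := by
    rw [hb, star_mul, star_mul, star_star, mul_assoc]
  have hbsq : star b * q = star b := by rw [hbs, mul_assoc, huq]
  have hzero := hcon b hbA hqb hbq
  -- right multiplication by `q`
  have hJq : ∀ y ∈ A, J (q (J (y ξ))) = y (q ξ) := by
    intro y hy
    rw [h.J_comm q hqA y hy ξ, h.J_xi, hJ]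
  have hself : ∀ v w : H, ⟪J (q (J v)), w⟫_ℂ = ⟪v, J (q (J w))⟫_ℂ := by
    intro v w
    have h1 : ⟪J (q (J v)), w⟫_ℂ = ⟪J w, q (J v)⟫_ℂ := by
      conv_lhs => rw [← h.J_J w]
      rw [h.J_inner]
    have h2 : ⟪v, J (q (J w))⟫_ℂ = ⟪q (J w), J v⟫_ℂ := by
      conv_lhs => rw [← h.J_J v]
      rw [h.J_inner]
    rw [h1, h2]
    nth_rewrite 2 [← hqs]
    rw [ContinuousLinearMap.star_eq_adjoint, ContinuousLinearMap.adjoint_inner_left]
  have hbx : ‖b ξ‖ = c := by
    have h1 : b ξ = u (a ((star u) ξ)) := rfl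
    have h2 : (star u) ξ = ((c : ℝ) : ℂ) • z := by
      rw [hz, smul_smul, ← Complex.ofReal_mul, mul_inv_cancel₀ hc.ne', Complex.ofReal_one,
        one_smul]
    rw [h1, norm_iso hu1, h2, map_smul, norm_smul, ha1, mul_one, Complex.norm_real,
      Real.norm_of_nonneg hc.le]
  -- the estimate
  have hest : ∀ w ∈ A, ‖⟪J ((star w) ξ), J ((star b) ξ)⟫_ℂ -
        ((Real.exp γ : ℝ) : ℂ) * ⟪w ξ, b ξ⟫_ℂ‖ ≤ (c * ε) * ‖w ξ‖ := by
    intro w hw
    have hsw : star w ∈ A := star_mem hw
    have hx : star u * star w * u ∈ A := mul_mem (mul_mem husA hsw) huA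
    have h1 := ha2 _ hx
    have hxs : star (star u * star w * u) = star u * w * u := by
      rw [star_mul, star_mul, star_star, star_star, mul_assoc]
    rw [hxs] at h1
    have hcn : ∀ T : H →L[ℂ] H, T z = ((c⁻¹ : ℝ) : ℂ) • T ((star u) ξ) := fun T => by
      rw [hz, map_smul]
    have e1 : ⟪(star a) z, (star u * star w * u) z⟫_ℂ =
        ((c⁻¹ : ℝ) : ℂ) * (((c⁻¹ : ℝ) : ℂ) * ⟪J ((star w) ξ), J ((star b) ξ)⟫_ℂ) := by
      rw [hcn, hcn (star u * star w * u), inner_smul_left, inner_smul_right,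
        Complex.conj_ofReal, h.J_inner]
      congr 2
      have h2 : (star u * star w * u) ((star u) ξ) = (star u) ((star w) (q ξ)) := by
        change (star u) ((star w) (u ((star u) ξ))) = _
        rw [hu2']
      have h3 : ⟪(star a) ((star u) ξ), (star u) ((star w) (q ξ))⟫_ℂ =
          ⟪(star b) ξ, (star w) (q ξ)⟫_ℂ := by
        rw [hbs]
        change _ = ⟪u ((star a) ((star u) ξ)), (star w) (q ξ)⟫_ℂ
        rw [ContinuousLinearMap.star_eq_adjoint u, ContinuousLinearMap.adjoint_inner_right]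
      rw [h2, h3, ← hJq _ hsw, ← hself, hJq _ (star_mem hbA)]
      congr 1
      exact congrArg (fun T : H →L[ℂ] H => T ξ) hbsq
    have e2 : ⟪(star u * w * u) z, a z⟫_ℂ =
        ((c⁻¹ : ℝ) : ℂ) * (((c⁻¹ : ℝ) : ℂ) * ⟪w ξ, b ξ⟫_ℂ) := by
      rw [hcn, hcn a, inner_smul_left, inner_smul_right, Complex.conj_ofReal]
      congr 2
      have h2 : (star u * w * u) ((star u) ξ) = (star u) (w (q ξ)) := by
        change (star u) (w (u ((star u) ξ))) = _
        rw [hu2']
      have h3 : ⟪(star u) (w (q ξ)), a ((star u) ξ)⟫_ℂ = ⟪w (q ξ), b ξ⟫_ℂ := by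
        rw [hb]
        change _ = ⟪w (q ξ), u (a ((star u) ξ))⟫_ℂ
        rw [ContinuousLinearMap.star_eq_adjoint u, ContinuousLinearMap.adjoint_inner_left]
      rw [h2, h3, ← hJq _ hw, hself, hJq _ hbA]
      congr 1
      exact congrArg (fun T : H →L[ℂ] H => T ξ) hbq
    have e3 : ‖(star u * w * u) z‖ ≤ c⁻¹ * ‖w ξ‖ := by
      rw [hcn, norm_smul, Complex.norm_real, Real.norm_of_nonneg (inv_nonneg.2 hc.le)]
      refine mul_le_mul_of_nonneg_left ?_ (inv_nonneg.2 hc.le)
      have h2 : (star u * w * u) ((star u) ξ) = (star u) (w (q ξ)) := by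
        change (star u) (w (u ((star u) ξ))) = _
        rw [hu2']
      rw [h2, ← norm_iso hu1, hu2']
      refine (norm_proj_le hqs hqq _).trans ?_
      rw [← hJq _ hw, h.J_norm]
      refine (norm_proj_le hqs hqq _).trans ?_
      rw [h.J_norm]
    rw [e1, e2] at h1
    have e4 : ((c⁻¹ : ℝ) : ℂ) * (((c⁻¹ : ℝ) : ℂ) * ⟪J ((star w) ξ), J ((star b) ξ)⟫_ℂ) -
        ((Real.exp γ : ℝ) : ℂ) * (((c⁻¹ : ℝ) : ℂ) * (((c⁻¹ : ℝ) : ℂ) * ⟪w ξ, b ξ⟫_ℂ)) =
        ((c⁻¹ * c⁻¹ : ℝ) : ℂ) * (⟪J ((star w) ξ), J ((star b) ξ)⟫_ℂ -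
        ((Real.exp γ : ℝ) : ℂ) * ⟪w ξ, b ξ⟫_ℂ) := by
      rw [Complex.ofReal_mul]
      ring
    rw [e4, norm_mul, Complex.norm_real, Real.norm_of_nonneg (by positivity)] at h1
    have h5 := h1.trans (mul_le_mul_of_nonneg_left e3 hε0.le)
    have h6 : c⁻¹ * c⁻¹ * ‖⟪J ((star w) ξ), J ((star b) ξ)⟫_ℂ -
        ((Real.exp γ : ℝ) : ℂ) * ⟪w ξ, b ξ⟫_ℂ‖ ≤ c⁻¹ * c⁻¹ * ((c * ε) * ‖w ξ‖) := by
      refine h5.trans (le_of_eq ?_)
      field_simp
    exact le_of_mul_le_mul_left h6 (by positivity)
  have hfin := hC b hbA hzero (c * ε) (by positivity) hest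
  rw [hbx] at hfin
  have h7 : ε * C < 1 := by
    rw [hε, div_mul_eq_mul_div, one_mul, div_lt_one (by positivity)]
    linarith
  nlinarith

end Pool.Agent.Helper88.CS

end

section

open scoped InnerProductSpace Topology BoundedContinuousFunction

open ContinuousLinearMap Filter MeasureTheory

namespace Pool.Agent.Helper88.CS

open Pool.Agent.Helper23

open Pool.Agent.Helper78.BC (Std rm Fixed)

variable {H : Type*} [NormedAddCommGroup H] [InnerProductSpace ℂ H] [CompleteSpace H]

variable {A : VonNeumannAlgebra H} {ξ : H} {J : H →L[ℝ] H}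
  {Ψ : (ℝ →ᵇ ℂ) →⋆ₐ[ℂ] (H →L[ℂ] H)} {R : H →L[ℂ] H} {D : H →L[ℝ] H}

namespace FullAux

open ExhAux InftyAux

/-- left and right multiplication commute -/
lemma rm_comm (h : St A ξ J Ψ R D) {a b : H →L[ℂ] H} (ha : a ∈ A) (hb : b ∈ A) (v : H) :
    rm J b (a v) = a (rm J b v) :=
  h.J_comm (star b) (star_mem hb) a ha v

lemma rm_mul (h : St A ξ J Ψ R D) (b c : H →L[ℂ] H) (v : H) :
    rm J c (rm J b v) = rm J (b * c) v := by
  unfold rm
  rw [h.J_J, star_mul]
  rfl

/-- `J (a ξ b) = b* ξ a*` -/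
lemma J_mul (h : St A ξ J Ψ R D) {a b : H →L[ℂ] H} (ha : a ∈ A) (hb : b ∈ A) :
    J (a (rm J b ξ)) = (star b) (rm J (star a) ξ) := by
  have h1 := h.J_comm a ha (star b) (star_mem hb) ξ
  have h2 : rm J b ξ = J ((star b) ξ) := by
    unfold rm; rw [h.J_xi]
  have h3 : rm J (star a) ξ = J (a ξ) := by
    unfold rm; rw [h.J_xi, star_star]
  rw [h2, h3, h1, h.J_xi]

lemma norm_rm_le (h : St A ξ J Ψ R D) {v : H →L[ℂ] H} (hv : v * star v * v = v) (x : H) :
    ‖rm J v x‖ ≤ ‖x‖ := by
  unfold rm
  rw [h.J_norm]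
  have hs : star v * star (star v) * star v = star v := by
    rw [star_star]; exact star_pi hv
  have := norm_pi_le hs (J x)
  rwa [h.J_norm] at this

/-- right multiplication by `v*` is isometric on vectors `w = w e` -/
lemma inner_rm (h : St A ξ J Ψ R D) {v e : H →L[ℂ] H} (hv : star v * v = e) {w w' : H}
    (hw : rm J (star e) w = w) :
    ⟪rm J (star v) w, rm J (star v) w'⟫_ℂ = ⟪w, w'⟫_ℂ := by
  have h1 : e (J w) = J w := by
    have h2 : J (rm J (star e) w) = J w := by rw [hw]
    unfold rm at h2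
    rw [h.J_J, star_star] at h2
    exact h2
  unfold rm
  rw [star_star, h.J_inner]
  have h3 : ⟪v (J w'), v (J w)⟫_ℂ = ⟪J w', (star v) (v (J w))⟫_ℂ := by
    rw [ContinuousLinearMap.star_eq_adjoint, ContinuousLinearMap.adjoint_inner_right]
  rw [h3, ← apply_mul, hv, h1, h.J_inner]

lemma norm_rm_eq (h : St A ξ J Ψ R D) {v e : H →L[ℂ] H} (hv : star v * v = e) {w : H}
    (hw : rm J (star e) w = w) : ‖rm J (star v) w‖ = ‖w‖ := by
  have h1 := inner_rm h hv hw (w' := w)
  rw [inner_self_eq_norm_sq_to_K, inner_self_eq_norm_sq_to_K] at h1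
  have h2 : ‖rm J (star v) w‖ ^ 2 = ‖w‖ ^ 2 := by exact_mod_cast h1
  exact (sq_eq_sq₀ (norm_nonneg _) (norm_nonneg _)).1 h2

lemma rm_fix (h : St A ξ J Ψ R D) {e : H →L[ℂ] H} (hes : star e = e) (hJe : J (e ξ) = e ξ) :
    rm J e ξ = e ξ := by
  unfold rm; rw [h.J_xi, hes, hJe]

/-- the first case -/
lemma case1 (h : St A ξ J Ψ R D) (hA : FInf A) {e f : H →L[ℂ] H} (he : IsP A e)
    (hf : IsP A f) (he0 : e ≠ 0) (hJe : J (e ξ) = e ξ) (hJf : J (f ξ) = f ξ)
    (hm : ‖e ξ‖ = ‖f ξ‖) {δ : ℝ} (hδ : 0 < δ) {v : H →L[ℂ] H} (hvA : v ∈ A)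
    (hv : v * star v * v = v) (hfv : f * v = v) (hve : star v * v = e)
    (hΦ : ‖v (rm J (star v * v) ξ) - (v * star v) (rm J v ξ)‖ ≤ δ) :
    ∃ u ∈ A, star u * u = e ∧ u * star u = f ∧
      ‖u (rm J (star u) ξ) - f ξ‖ ≤ 5 * δ + 4 * Real.sqrt (2 * δ) := by
  obtain ⟨heA, hes, hee⟩ := he
  obtain ⟨hfA, hfs, hff⟩ := hf
  have hone := h.norm_one
  have hef : rm J e ξ = e ξ := rm_fix h hes hJe
  have hff' : rm J f ξ = f ξ := rm_fix h hfs hJf
  set r0 : H →L[ℂ] H := v * star v with hr0
  have hr0A : r0 ∈ A := mul_mem hvA (star_mem hvA)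
  have hr0s : star r0 = r0 := by simp [hr0, star_mul]
  have hr02 : r0 * r0 = r0 := by rw [hr0, ← mul_assoc, hv]
  have hfr0 : f * r0 = r0 := by rw [hr0, ← mul_assoc, hfv]
  have hr0f : r0 * f = r0 := by
    have := congrArg star hfr0
    simpa [star_mul, hr0s, hfs] using this
  have hvs : star v * v * star v = star v := star_pi hv
  have hevs : e * star v = star v := by rw [← hve, hvs]
  have hve' : v * e = v := by rw [← hve, ← mul_assoc, hv]
  rw [hve] at hΦ
  -- `v ξ v*` and `r0 ξ r0`
  have e1 : rm J (star v) (v (rm J e ξ)) = v (rm J (star v) ξ) := by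
    rw [rm_comm h hvA (star_mem hvA), rm_mul h, hevs]
  have e2 : rm J (star v) (r0 (rm J v ξ)) = r0 (rm J r0 ξ) := by
    rw [rm_comm h hr0A (star_mem hvA), rm_mul h]
  have hvsp : star v * star (star v) * star v = star v := by rw [star_star]; exact hvs
  have k1 : ‖v (rm J (star v) ξ) - r0 (rm J r0 ξ)‖ ≤ δ := by
    rw [← e1, ← e2, ← rm_sub]
    exact (norm_rm_le h hvsp _).trans hΦ
  have hvξ : v ξ = v (e ξ) := by rw [← apply_mul, hve']
  have k2 : ‖v (rm J (star v) ξ)‖ = ‖e ξ‖ := by
    rw [← rm_comm h hvA (star_mem hvA), norm_rm_eq h hve]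
    · have h1 : ⟪v ξ, v ξ⟫_ℂ = ⟪e ξ, e ξ⟫_ℂ := by
        have h3 : ⟪v ξ, v ξ⟫_ℂ = ⟪ξ, (star v) (v ξ)⟫_ℂ := by
          rw [ContinuousLinearMap.star_eq_adjoint, ContinuousLinearMap.adjoint_inner_right]
        have h4 : ⟪e ξ, e ξ⟫_ℂ = ⟪ξ, (star e) (e ξ)⟫_ℂ := by
          rw [ContinuousLinearMap.star_eq_adjoint, ContinuousLinearMap.adjoint_inner_right]
        rw [h3, h4, ← apply_mul, hve, hes, ← apply_mul, hee]
      rw [inner_self_eq_norm_sq_to_K, inner_self_eq_norm_sq_to_K] at h1
      have h2 : ‖v ξ‖ ^ 2 = ‖e ξ‖ ^ 2 := by exact_mod_cast h1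
      exact (sq_eq_sq₀ (norm_nonneg _) (norm_nonneg _)).1 h2
    · rw [hes, hvξ, rm_comm h hvA heA, rm_comm h heA heA, hef, ← apply_mul e e, hee]
  -- the distance of `f ξ` and `r0 ξ r0`
  have hm1 : ‖f ξ‖ ≤ 1 := by
    have := norm_proj_le hfs hff ξ
    rwa [hone] at this
  have hP : r0 (rm J r0 ξ) = r0 (rm J r0 (f ξ)) := by
    rw [rm_comm h hfA hr0A, ← apply_mul r0 f, hr0f]
  have k3 : ‖f ξ‖ ^ 2 - ‖r0 (rm J r0 ξ)‖ ^ 2 ≤ 2 * δ := by
    have a1 : ‖f ξ‖ - ‖r0 (rm J r0 ξ)‖ ≤ δ := by
      have := norm_sub_norm_le (v (rm J (star v) ξ)) (r0 (rm J r0 ξ))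
      rw [k2, hm] at this
      linarith
    have a2 : ‖r0 (rm J r0 ξ)‖ ≤ ‖f ξ‖ := by
      rw [hP]
      exact (norm_proj_le hr0s hr02 _).trans (norm_rm_le h (proj_pi hr0s hr02) _)
    have a3 := norm_nonneg (r0 (rm J r0 ξ))
    nlinarith
  have hsq : ∀ x : ℝ, x ^ 2 ≤ 2 * δ → x ≤ Real.sqrt (2 * δ) := fun x hx => Real.le_sqrt_of_sq_le hx
  have k4 : ‖f ξ - r0 (rm J r0 ξ)‖ ≤ 2 * Real.sqrt (2 * δ) := by
    set y : H := rm J r0 (f ξ) with hy
    have hyle : ‖y‖ ≤ ‖f ξ‖ := norm_rm_le h (proj_pi hr0s hr02) _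
    have a1 : ‖f ξ - y‖ ≤ Real.sqrt (2 * δ) := by
      apply hsq
      have b1 : ‖f ξ - y‖ ^ 2 = ‖f ξ‖ ^ 2 - ‖y‖ ^ 2 := by
        have c1 := pyth hr0s hr02 (J (f ξ))
        have c2 : ‖J (f ξ) - r0 (J (f ξ))‖ = ‖f ξ - y‖ := by
          rw [← h.J_norm (J (f ξ) - r0 (J (f ξ))), map_sub, h.J_J, hy]
          unfold rm
          rw [hr0s]
        have c3 : ‖r0 (J (f ξ))‖ = ‖y‖ := by
          rw [hy]; unfold rm
          rw [h.J_norm, hr0s]
        rw [c2, c3, h.J_norm] at c1
        exact c1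
      have b2 : ‖r0 (rm J r0 ξ)‖ ≤ ‖y‖ := by
        rw [hP]; exact norm_proj_le hr0s hr02 _
      have b3 := norm_nonneg (r0 (rm J r0 ξ))
      nlinarith
    have a2 : ‖y - r0 y‖ ≤ Real.sqrt (2 * δ) := by
      apply hsq
      rw [pyth hr0s hr02 y]
      have b2 : ‖r0 y‖ = ‖r0 (rm J r0 ξ)‖ := by rw [hP]
      rw [b2]
      have b3 := norm_nonneg y
      nlinarith
    have a3 : f ξ - r0 (rm J r0 ξ) = (f ξ - y) + (y - r0 y) := by
      rw [hP]; abel
    rw [a3]
    have := norm_add_le (f ξ - y) (y - r0 y)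
    linarith
  have k5 : ‖v (rm J (star v) ξ) - f ξ‖ ≤ δ + 2 * Real.sqrt (2 * δ) := by
    have a1 : v (rm J (star v) ξ) - f ξ =
        (v (rm J (star v) ξ) - r0 (rm J r0 ξ)) - (f ξ - r0 (rm J r0 ξ)) := by abel
    rw [a1]
    have := norm_sub_le (v (rm J (star v) ξ) - r0 (rm J r0 ξ)) (f ξ - r0 (rm J r0 ξ))
    linarith
  have hs0 := Real.sqrt_nonneg (2 * δ)
  by_cases hr0f' : r0 = f
  · refine ⟨v, hvA, hve, hr0f', ?_⟩
    linarith
  -- a small piece
  have hr00 : r0 ≠ 0 := by
    intro h0
    apply he0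
    have : v = 0 := by rw [← hv, h0, zero_mul]
    rw [← hve, this]; simp
  obtain ⟨r, ⟨hrA, hrs, hrr⟩, hrn, hr0r, hrδ⟩ := exists_small hA ξ ⟨hr0A, hr0s, hr02⟩ hr00 hδ
  have hrr0 : r * r0 = r := by
    have := congrArg star hr0r
    simpa [star_mul, hr0s, hrs] using this
  have hfr : f * r = r := by rw [← hr0r, ← mul_assoc, hfr0]
  have hrf : r * f = r := by
    have := congrArg star hfr
    simpa [star_mul, hfs, hrs] using this
  set t : H →L[ℂ] H := (f - r0) + r with ht
  have htA : t ∈ A := add_mem (sub_mem hfA hr0A) hrA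
  have hts : star t = t := by rw [ht, star_add, star_sub, hfs, hr0s, hrs]
  have htt : t * t = t := by
    rw [ht]
    have : (f - r0 + r) * (f - r0 + r) = f * f - f * r0 + f * r - r0 * f + r0 * r0 - r0 * r
        + r * f - r * r0 + r * r := by noncomm_ring
    rw [this, hff, hfr0, hfr, hr0f, hr02, hr0r, hrf, hrr0, hrr]; abel
  have hrt : r * t = r := by
    rw [ht, mul_add, mul_sub, hrf, hrr0, hrr]; abel
  have ht0 : t ≠ 0 := by
    intro h0
    apply hrn
    rw [← hrt, h0, mul_zero]
  obtain ⟨z, hzA, hz1, hz2⟩ := equiv_pair hA h.sep ⟨hrA, hrs, hrr⟩ hrn ⟨htA, hts, htt⟩ ht0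
  have hzr : z * r = z := mul_eq hrs hrr hz1
  have hzpi : z * star z * z = z := by rw [mul_assoc, hz1, hzr]
  have htz : t * z = z := by rw [← hz2, hzpi]
  have hrzs : r * star z = star z := by
    have := congrArg star hzr
    simpa [star_mul, hrs] using this
  have hzst : star z * t = star z := by
    have := congrArg star htz
    simpa [star_mul, hts] using this
  have hqt : (r0 - r) * t = 0 := by
    rw [ht]
    have : (r0 - r) * (f - r0 + r) = r0 * f - r0 * r0 + r0 * r - r * f + r * r0 - r * r := by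
      noncomm_ring
    rw [this, hr0f, hr02, hr0r, hrf, hrr0, hrr]; abel
  have htq : t * (r0 - r) = 0 := by
    rw [ht]
    have : (f - r0 + r) * (r0 - r) = f * r0 - f * r - r0 * r0 + r0 * r + r * r0 - r * r := by
      noncomm_ring
    rw [this, hfr0, hfr, hr02, hr0r, hrr0, hrr]; abel
  have hqr : r * (r0 - r) = 0 := by rw [mul_sub, hrr0, hrr, sub_self]
  have hrq : (r0 - r) * r = 0 := by rw [sub_mul, hr0r, hrr, sub_self]
  have hqz : (r0 - r) * z = 0 := by rw [← htz, ← mul_assoc, hqt, zero_mul]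
  have hzq : z * (r0 - r) = 0 := by rw [← hzr, mul_assoc, hqr, mul_zero]
  have hzsq : star z * (r0 - r) = 0 := by rw [← hzst, mul_assoc, htq, mul_zero]
  have hqzs : (r0 - r) * star z = 0 := by rw [← hrzs, ← mul_assoc, hrq, zero_mul]
  have hqq : (r0 - r) * (r0 - r) = r0 - r := by
    rw [mul_sub, sub_mul, hrq, hr02, hrr0, sub_zero]
  have hqs : star (r0 - r) = r0 - r := by rw [star_sub, hr0s, hrs]
  set g : H →L[ℂ] H := (r0 - r) + z with hg
  have hgA : g ∈ A := add_mem (sub_mem hr0A hrA) hzA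
  have hgs : star g = (r0 - r) + star z := by rw [hg, star_add, hqs]
  have hgg : star g * g = r0 := by
    rw [hgs, hg, add_mul, mul_add, mul_add, hqq, hqz, hzsq, hz1]; abel
  have hgg' : g * star g = f := by
    rw [hgs, hg, add_mul, mul_add, mul_add, hqq, hqzs, hzq, hz2, ht]; abel
  have hgpi : g * star g * g = g := by
    have : g * r0 = g := mul_eq hr0s hr02 hgg
    rw [mul_assoc, hgg, this]
  have hgr0 : g * r0 = g := mul_eq hr0s hr02 hgg
  have hgf : g * f = g := by rw [← hgr0, mul_assoc, hr0f]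
  have hr0gs : r0 * star g = star g := by
    have := congrArg star hgr0
    simpa [star_mul, hr0s] using this
  have hfgs : f * star g = star g := by
    have := congrArg star hgf
    simpa [star_mul, hfs] using this
  refine ⟨g * v, mul_mem hgA hvA, ?_, ?_, ?_⟩
  · rw [star_mul]
    calc star v * star g * (g * v) = star v * (star g * g) * v := by simp only [mul_assoc]
      _ = star v * (v * star v) * v := by rw [hgg]
      _ = star v * (v * star v * v) := by simp only [mul_assoc]
      _ = e := by rw [hv, hve]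
  · rw [star_mul]
    calc g * v * (star v * star g) = g * (v * star v) * star g := by simp only [mul_assoc]
      _ = g * star g := by rw [← hr0, hgr0]
      _ = f := hgg'
  · -- the estimate
    have hgspi : star g * star (star g) * star g = star g := by
      rw [star_star]; exact star_pi hgpi
    have m1 : (g * v) (rm J (star (g * v)) ξ) = rm J (star g) (g (v (rm J (star v) ξ))) := by
      rw [star_mul, ← rm_mul h, rm_comm h hgA (star_mem hgA), rm_comm h hvA (star_mem hgA)]
      rfl
    have m2 : rm J (star g) (g (f ξ)) = g (rm J (star g) ξ) := by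
      rw [← apply_mul, hgf, rm_comm h hgA (star_mem hgA)]
    have m3 : ‖g (rm J (star g) ξ) - f ξ‖ ≤ 4 * δ + 2 * Real.sqrt (2 * δ) := by
      have n0 : ‖(z - r) ξ‖ ≤ 2 * δ := by
        have : (z - r) ξ = z (r ξ) - r ξ := by
          rw [← apply_mul, hzr]; rfl
        rw [this]
        have p1 := norm_sub_le (z (r ξ)) (r ξ)
        have p2 := norm_pi_le hzpi (r ξ)
        linarith
      have hzrA : z - r ∈ A := sub_mem hzA hrA
      have n1 : g (rm J (star g) ξ) = (z - r) (rm J (star g) ξ) + r0 (rm J (star g) ξ) := by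
        have h7 : g = (z - r) + r0 := by rw [hg]; abel
        calc g (rm J (star g) ξ) = ((z - r) + r0) (rm J (star g) ξ) := by rw [← h7]
          _ = _ := rfl
      have n2 : r0 (rm J (star g) ξ) = r0 (rm J (star (z - r)) ξ) + r0 (rm J r0 ξ) := by
        have : star g = star (z - r) + r0 := by rw [hgs, star_sub, hrs]; abel
        rw [this, rm_add_left, map_add]
      have n3 : ‖(z - r) (rm J (star g) ξ)‖ ≤ 2 * δ := by
        rw [← rm_comm h hzrA (star_mem hgA)]
        exact (norm_rm_le h hgspi _).trans n0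
      have n4 : ‖r0 (rm J (star (z - r)) ξ)‖ ≤ 2 * δ := by
        rw [← h.J_norm, J_mul h hr0A (star_mem hzrA), star_star, hr0s,
          ← rm_comm h hzrA hr0A]
        exact (norm_rm_le h (proj_pi hr0s hr02) _).trans n0
      have n5 : g (rm J (star g) ξ) - f ξ = (z - r) (rm J (star g) ξ) +
          r0 (rm J (star (z - r)) ξ) - (f ξ - r0 (rm J r0 ξ)) := by
        rw [n1, n2]; abel
      rw [n5]
      have q1 := norm_sub_le ((z - r) (rm J (star g) ξ) + r0 (rm J (star (z - r)) ξ))
        (f ξ - r0 (rm J r0 ξ))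
      have q2 := norm_add_le ((z - r) (rm J (star g) ξ)) (r0 (rm J (star (z - r)) ξ))
      linarith
    have m4 : (g * v) (rm J (star (g * v)) ξ) - f ξ =
        rm J (star g) (g (v (rm J (star v) ξ) - f ξ)) + (g (rm J (star g) ξ) - f ξ) := by
      rw [m1, map_sub, rm_sub, m2]; abel
    have m5 : ‖rm J (star g) (g (v (rm J (star v) ξ) - f ξ))‖ ≤ δ + 2 * Real.sqrt (2 * δ) :=
      ((norm_rm_le h hgspi _).trans (norm_pi_le hgpi _)).trans k5
    rw [m4]
    have := norm_add_le (rm J (star g) (g (v (rm J (star v) ξ) - f ξ)))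
      (g (rm J (star g) ξ) - f ξ)
    linarith

end FullAux

end Pool.Agent.Helper88.CS

end

section

open scoped InnerProductSpace Topology ENNReal BoundedContinuousFunction

open ContinuousLinearMap Filter MeasureTheory

namespace Pool.Agent.Helper23.ED

open Pool.Agent.Helper23 Pool.Agent.Helper23.RBF

open Pool.Agent.Helper78.BC.Transport (Sub r)

universe u

variable {H : Type*} [NormedAddCommGroup H] [InnerProductSpace ℂ H] [CompleteSpace H]

variable {M N : VonNeumannAlgebra H} {ξ : H} {E : (H →L[ℂ] H) → (H →L[ℂ] H)}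

lemma RkB_mulOp_apply' {Ψ : (ℝ →ᵇ ℂ) →⋆ₐ[ℂ] (H →L[ℂ] H)} {X : L2R H →L[ℂ] L2R H}
    (hX : X ∈ Rk1 M N Ψ) {m : ℝ → ℂ} (hm : BM m)
    (F : L2R H) : mulOp H m (X F) = X (mulOp H m F) :=
  congrArg (fun T : L2R H →L[ℂ] L2R H => T F)
    (comm_mulOp (fun m h h1 => hX.2.1 m h h1) hm)

end Pool.Agent.Helper23.ED

end
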