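import Pool.Agent.Helper23.FA.Ns
import Pool.Agent.Helper23.FA.L01_00
import Pool.Agent.Helper23.FA.L01_01
import Pool.Agent.Helper23.FA.L01_06
import Pool.Agent.Helper23.FA.L01_09
import Pool.Agent.Helper23.FA.L01_12
import Pool.Agent.Helper23.FA.L01_17
import Pool.Agent.Helper23.FA.L01_18
import Pool.Agent.Helper23.FA.L01_19

/-!
Parts of Helper23.Qalg, Helper23.Comm, Helper23.Avg, Helper23.Iso, Helper23.Flow, Helper23.Flow2, Helper23.Bic, Helper23.Irr, Helper4.LbAl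
-/

section

open scoped InnerProductSpace TensorProduct

open ContinuousLinearMap

namespace Pool.Agent.Helper23

variable {H : Type*} [NormedAddCommGroup H] [InnerProductSpace ℂ H] [CompleteSpace H]

variable {M N : VonNeumannAlgebra H} {ξ : H} {E : (H →L[ℂ] H) → (H →L[ℂ] H)}

lemma evTu_inner {γ : ℝ} (hγ : γ ≠ 0) {u : H →L[ℂ] H} (hu : ∀ a ∈ eig N ξ 1, a * u = u * a)
    (huu : star u * u = 1) (s t : (eig N ξ γ) ⊗[ℂ] H) :
    ⟪evTu N ξ γ u s, evTu N ξ γ u t⟫_ℂ = ⟪evT N ξ γ s, evT N ξ γ t⟫_ℂ := by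
  induction s using TensorProduct.induction_on with
  | zero => simp
  | add s₁ s₂ h₁ h₂ => rw [map_add, map_add, inner_add_left, inner_add_left, h₁, h₂]
  | tmul a η =>
    induction t using TensorProduct.induction_on with
    | zero => simp
    | add t₁ t₂ h₁ h₂ => rw [map_add, map_add, inner_add_right, inner_add_right, h₁, h₂]
    | tmul b ζ =>
      rw [evTu_tmul, evTu_tmul, evT_tmul, evT_tmul, ← inner_star_right, ← inner_star_right]
      have h1 : (star (a : H →L[ℂ] H)) ((b : H →L[ℂ] H) (u ζ)) =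
          u ((star (a : H →L[ℂ] H)) ((b : H →L[ℂ] H) ζ)) := by
        have := hu _ (star_mul_mem_eig_one hγ a.2 b.2)
        exact congrArg (fun T : H →L[ℂ] H => T ζ) this
      rw [h1, ← inner_star_right]
      have h2 : (star u) (u ((star (a : H →L[ℂ] H)) ((b : H →L[ℂ] H) ζ))) =
          (star (a : H →L[ℂ] H)) ((b : H →L[ℂ] H) ζ) :=
        congrArg (fun T : H →L[ℂ] H => T ((star (a : H →L[ℂ] H)) ((b : H →L[ℂ] H) ζ))) huu
      rw [h2]

/-- Existence for unitaries. -/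
lemma exists_rel_unitary (hirr : TrivialRelComm N ξ) {γ : ℝ} (hγ : γ ≠ 0)
    (hne : ∃ a ∈ eig N ξ γ, a ≠ 0) (hle : ∀ x ∈ N, x ∈ M) {u : H →L[ℂ] H}
    (hu : u ∈ Qalg M N ξ) (huu : star u * u = 1) :
    ∃ z ∈ Qalg M N ξ, Rel N ξ γ u z ∧ ‖z‖ ≤ 1 := by
  have hd := evT_denseRange hirr hne
  have hu' := mem_Qalg.1 hu
  have hnorm : ∀ t, ‖evTu N ξ γ u t‖ ≤ 1 * ‖evT N ξ γ t‖ := by
    intro t
    have h1 := evTu_inner hγ hu'.2 huu t t
    rw [inner_self_eq_norm_sq_to_K, inner_self_eq_norm_sq_to_K] at h1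
    have h2 : ‖evTu N ξ γ u t‖ ^ 2 = ‖evT N ξ γ t‖ ^ 2 := by exact_mod_cast h1
    rw [one_mul, (pow_left_inj₀ (norm_nonneg _) (norm_nonneg _) two_ne_zero).1 h2]
  obtain ⟨z, hzeq, hz1⟩ := exists_ext_monoid (evTu N ξ γ u) (evT N ξ γ) hd zero_le_one hnorm
  have hzeq' : ∀ a ∈ eig N ξ γ, ∀ η, z (a η) = a (u η) := fun a ha η =>
    hzeq ((⟨a, ha⟩ : eig N ξ γ) ⊗ₜ η)
  have hcomm : ∀ g : H →L[ℂ] H, (∀ a ∈ eig N ξ γ, ∀ η, g (z (a η)) = z (g (a η))) →
      g * z = z * g := by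
    intro g hg
    have hcl : IsClosed {x : H | (g * z) x = (z * g) x} :=
      isClosed_eq (g * z).continuous (z * g).continuous
    have hsub : Set.range (evT N ξ γ) ⊆ {x : H | (g * z) x = (z * g) x} := by
      rintro _ ⟨t, rfl⟩
      induction t using TensorProduct.induction_on with
      | zero => simp
      | add t₁ t₂ h₁ h₂ =>
        change (g * z) _ = (z * g) _ at h₁ h₂ ⊢
        rw [map_add, map_add, map_add, h₁, h₂]
      | tmul a η => exact hg a a.2 η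
    ext x
    exact closure_minimal hsub hcl (hd x)
  refine ⟨z, mem_Qalg.2 ⟨?_, ?_⟩, ?_, hz1⟩
  · rw [mem_iff_commutes]
    intro g hg
    refine hcomm g fun a ha η => ?_
    have ha' : a ∈ M := hle a ha.1
    rw [hzeq' a ha, ← commute_apply ha' hg, ← commute_apply ha' hg, hzeq' a ha,
      ← commute_apply hu'.1 hg]
  · intro c hc
    refine hcomm c fun a ha η => ?_
    have h1 := eig_mul hc ha
    rw [one_mul] at h1
    rw [hzeq' a ha]
    have h2 := hzeq' _ h1 η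
    exact h2.symm
  · intro a ha
    ext η
    exact (hzeq' a ha η).symm

/-- Existence of the transported element. -/
lemma exists_rel (hirr : TrivialRelComm N ξ) {γ : ℝ} (hγ : γ ≠ 0)
    (hne : ∃ a ∈ eig N ξ γ, a ≠ 0) (hle : ∀ x ∈ N, x ∈ M) {y : H →L[ℂ] H}
    (hy : y ∈ Qalg M N ξ) : ∃ z ∈ Qalg M N ξ, Rel N ξ γ y z ∧ ‖z‖ ≤ 2 * ‖y‖ := by
  obtain ⟨u, k, hk, hkn⟩ := CStarAlgebra.exists_sum_four_unitary
    (⟨y, hy⟩ : (Qalg M N ξ).toStarSubalgebra)
  have hy' : y = ∑ i, k i • ((u i : (Qalg M N ξ).toStarSubalgebra) : H →L[ℂ] H) := by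
    have := congrArg (fun z : (Qalg M N ξ).toStarSubalgebra => (z : H →L[ℂ] H)) hk
    simpa using this
  have hex : ∀ i, ∃ z ∈ Qalg M N ξ,
      Rel N ξ γ ((u i : (Qalg M N ξ).toStarSubalgebra) : H →L[ℂ] H) z ∧ ‖z‖ ≤ 1 := by
    intro i
    refine exists_rel_unitary hirr hγ hne hle (u i : (Qalg M N ξ).toStarSubalgebra).2 ?_
    have := Unitary.star_mul_self_of_mem (u i).2
    exact congrArg (fun z : (Qalg M N ξ).toStarSubalgebra => (z : H →L[ℂ] H)) this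
  choose z hzQ hzrel hznorm using hex
  refine ⟨∑ i, k i • z i, sum_mem fun i _ => smul_mem' _ (hzQ i), ?_, ?_⟩
  · intro a ha
    rw [hy', Finset.mul_sum, Finset.sum_mul]
    refine Finset.sum_congr rfl fun i _ => ?_
    rw [mul_smul_comm, smul_mul_assoc, hzrel i a ha]
  · have hkn' : ∀ i, ‖k i‖ ≤ ‖y‖ / 2 := hkn
    calc ‖∑ i, k i • z i‖ ≤ ∑ i, ‖k i • z i‖ := norm_sum_le _ _
      _ ≤ ∑ _i : Fin 4, ‖y‖ / 2 * 1 := by
          refine Finset.sum_le_sum fun i _ => ?_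
          rw [norm_smul]
          gcongr
          · exact hkn' i
          · exact hznorm i
      _ = 2 * ‖y‖ := by
          simp only [Finset.sum_const, Finset.card_univ, Fintype.card_fin, nsmul_eq_mul]
          push_cast
          ring

end Pool.Agent.Helper23

end

section

open scoped InnerProductSpace

open ContinuousLinearMap Filter

namespace Pool.Agent.Helper23

variable {H : Type*} [NormedAddCommGroup H] [InnerProductSpace ℂ H] [CompleteSpace H]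

variable {M N : VonNeumannAlgebra H} {ξ : H} {E : (H →L[ℂ] H) → (H →L[ℂ] H)}

namespace AP

variable (S : AP M N E ξ)

include S

lemma al_spec {γ : ℝ} (hγ : γ ∈ Gam N ξ) {x : H →L[ℂ] H} (hx : x ∈ Qalg M N ξ) :
    al M N ξ γ x ∈ Qalg M N ξ ∧ Rel N ξ γ x (al M N ξ γ x) := by
  obtain ⟨z, hz, hz', -⟩ := exists_rel S.irr hγ.1.ne' hγ.2 S.le hx
  have h : γ ∈ Gam N ξ ∧ ∃ z ∈ Qalg M N ξ, Rel N ξ γ x z := ⟨hγ, z, hz, hz'⟩
  rw [al, dif_pos h]
  exact h.2.choose_spec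

lemma al_mem {γ : ℝ} (hγ : γ ∈ Gam N ξ) {x : H →L[ℂ] H} (hx : x ∈ Qalg M N ξ) :
    al M N ξ γ x ∈ Qalg M N ξ := (S.al_spec hγ hx).1

lemma al_rel {γ : ℝ} (hγ : γ ∈ Gam N ξ) {x : H →L[ℂ] H} (hx : x ∈ Qalg M N ξ) :
    Rel N ξ γ x (al M N ξ γ x) := (S.al_spec hγ hx).2

lemma al_unique {γ : ℝ} (hγ : γ ∈ Gam N ξ) {x z : H →L[ℂ] H} (hx : x ∈ Qalg M N ξ)
    (hz : Rel N ξ γ x z) : al M N ξ γ x = z :=
  Rel.unique S.irr hγ.1.ne' hγ.2 fun a ha => by rw [← hz a ha, S.al_rel hγ hx a ha]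

lemma al_norm {γ : ℝ} (hγ : γ ∈ Gam N ξ) {x : H →L[ℂ] H} (hx : x ∈ Qalg M N ξ) :
    ‖al M N ξ γ x ξ‖ = ‖x ξ‖ :=
  S.rel_norm S.irr hγ.1.ne' hγ.2 hx (S.al_mem hγ hx) (S.al_rel hγ hx)

lemma al_opNorm {γ : ℝ} (hγ : γ ∈ Gam N ξ) {x : H →L[ℂ] H} (hx : x ∈ Qalg M N ξ) :
    ‖al M N ξ γ x‖ ≤ 2 * ‖x‖ := by
  obtain ⟨z, hz, hz', hn⟩ := exists_rel S.irr hγ.1.ne' hγ.2 S.le hx
  rw [S.al_unique hγ hx hz']
  exact hn

end AP

end Pool.Agent.Helper23

end

section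

open scoped InnerProductSpace

open ContinuousLinearMap Filter

namespace Pool.Agent.Helper23

variable {H : Type*} [NormedAddCommGroup H] [InnerProductSpace ℂ H] [CompleteSpace H]

variable {M N : VonNeumannAlgebra H} {ξ : H} {E : (H →L[ℂ] H) → (H →L[ℂ] H)}

namespace Setting

variable (S : Setting M N E ξ)

include S

/-- limits of bounded sequences in an eigenspace -/
lemma eig_limit {ι : Type*} {l : Filter ι} [l.NeBot] {γ C : ℝ} (hC0 : 0 ≤ C)
    {x : ι → H →L[ℂ] H} (hx : ∀ i, x i ∈ eig N ξ γ) (hC : ∀ i, ‖x i‖ ≤ C) {η : H}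
    (h : Tendsto (fun i => x i ξ) l (nhds η)) :
    ∃ y ∈ eig N ξ γ, y ξ = η ∧ ‖y‖ ≤ C ∧ ∀ ζ, Tendsto (fun i => x i ζ) l (nhds (y ζ)) := by
  obtain ⟨y, hy, hyη, hyC⟩ := exists_limit N S.dense_commN hC0 (fun i => (hx i).1) hC h
  have hlim : ∀ ζ, Tendsto (fun i => x i ζ) l (nhds (y ζ)) := by
    intro ζ
    have h1 : Tendsto (fun i => (x i - y) ζ) l (nhds 0) := by
      refine tendsto_of_bounded N S.dense_commN (x := fun i => x i - y) (C := C + C)
        (fun i => sub_mem (hx i).1 hy)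
        (fun i => (norm_sub_le _ _).trans (add_le_add (hC i) hyC)) ?_ ζ
      have h2 : Tendsto (fun i => x i ξ - η) l (nhds (η - η)) := h.sub_const η
      rw [sub_self] at h2
      refine h2.congr fun i => ?_
      rw [sub_apply, hyη]
    have h2 := h1.add_const (y ζ)
    rw [zero_add] at h2
    refine h2.congr fun i => ?_
    rw [sub_apply, sub_add_cancel]
  refine ⟨y, ⟨hy, fun z hz => ?_⟩, hyη, hyC, hlim⟩
  have h1 : Tendsto (fun i => ⟪ξ, z (x i ξ)⟫_ℂ) l (nhds ⟪ξ, z (y ξ)⟫_ℂ) :=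
    tendsto_const_nhds.inner ((z.continuous.tendsto _).comp (hlim ξ))
  have h2 : Tendsto (fun i => (γ : ℂ) * ⟪ξ, x i (z ξ)⟫_ℂ) l (nhds (γ * ⟪ξ, y (z ξ)⟫_ℂ)) :=
    (tendsto_const_nhds.inner (hlim (z ξ))).const_mul _
  refine tendsto_nhds_unique h1 (h2.congr fun i => ?_)
  exact ((hx i).2 z hz).symm

end Setting

end Pool.Agent.Helper23

end

section

open scoped InnerProductSpace

open ContinuousLinearMap Filter

namespace Pool.Agent.Helper23

variable {H : Type*} [NormedAddCommGroup H] [InnerProductSpace ℂ H] [CompleteSpace H]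

variable {M N : VonNeumannAlgebra H} {ξ : H} {E : (H →L[ℂ] H) → (H →L[ℂ] H)}

namespace AP

variable (S : AP M N E ξ)

include S

/-- Isometries in the eigenspaces with range in a given corner. -/
theorem exists_isometry {γ : ℝ} (hγ : γ ∈ Gam N ξ) {e : H →L[ℂ] H} (he : e ∈ eig N ξ 1)
    (hes : star e = e) (hee : e * e = e) (heφ : γ⁻¹ < ‖e ξ‖ ^ 2) :
    ∃ v ∈ eig N ξ γ, star v * v = 1 ∧ e * v = v := by
  obtain ⟨hγ0, w₁, hw₁, hw₁0⟩ := hγ
  set w₀ := ((‖w₁‖⁻¹ : ℝ) : ℂ) • w₁ with hw₀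
  have hw₁n : 0 < ‖w₁‖ := norm_pos_iff.2 hw₁0
  have hw₀g : w₀ ∈ eig N ξ γ := Submodule.smul_mem _ _ hw₁
  have hw₀n : ‖w₀‖ ≤ 1 := by
    rw [hw₀, norm_smul, Complex.norm_real, Real.norm_of_nonneg (by positivity),
      inv_mul_cancel₀ hw₁n.ne']
  have hw₀0 : w₀ ≠ 0 := by
    rw [hw₀]
    refine smul_ne_zero ?_ hw₁0
    exact_mod_cast (inv_pos.2 hw₁n).ne'
  have hne : ‖e ξ‖ ≤ 1 := by
    have h1 : ‖e ξ‖ ^ 2 ≤ ‖ξ‖ * ‖e ξ‖ := by
      have h2 := norm_sq_apply e ξ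
      rw [hes] at h2
      have h3 : ⟪ξ, e (e ξ)⟫_ℂ = ⟪ξ, e ξ⟫_ℂ := by
        change ⟪ξ, (e * e) ξ⟫_ℂ = _
        rw [hee]
      rw [h3] at h2
      have h4 : ‖((‖e ξ‖ ^ 2 : ℝ) : ℂ)‖ ≤ ‖ξ‖ * ‖e ξ‖ := by
        rw [h2]; exact norm_inner_le_norm _ _
      rwa [Complex.norm_real, Real.norm_of_nonneg (by positivity)] at h4
    rw [S.norm_one, one_mul] at h1
    by_contra hcon
    push Not at hcon
    nlinarith
  set c := (1 / 25) * ((‖e ξ‖ ^ 2 - γ⁻¹) * ‖w₀ ξ‖ ^ 2) with hc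
  have hw₀ξ : 0 < ‖w₀ ξ‖ := norm_pos_iff.2 fun h => hw₀0 (S.sep w₀ (S.le w₀ hw₀g.1) h)
  have hw₀ξ1 : ‖w₀ ξ‖ ≤ 1 := by
    have := w₀.le_of_opNorm_le hw₀n ξ
    rwa [S.norm_one, one_mul] at this
  have hc0 : 0 < c := by
    have : 0 < ‖e ξ‖ ^ 2 - γ⁻¹ := by linarith
    positivity
  have hc1 : c < 1 := by
    have h1 : ‖e ξ‖ ^ 2 ≤ 1 := by nlinarith [norm_nonneg (e ξ)]
    have h2 : ‖w₀ ξ‖ ^ 2 ≤ 1 := by nlinarith [norm_nonneg (w₀ ξ)]
    have h3 : 0 < γ⁻¹ := inv_pos.2 hγ0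
    have h4 : (‖e ξ‖ ^ 2 - γ⁻¹) * ‖w₀ ξ‖ ^ 2 ≤ 1 * 1 :=
      mul_le_mul (by linarith) h2 (by positivity) (by norm_num)
    rw [hc]
    linarith
  have hstep : ∀ v : {v : H →L[ℂ] H // v ∈ eig N ξ γ ∧ ‖v‖ ≤ 1 ∧ e * v = v},
      ∃ v' : {v : H →L[ℂ] H // v ∈ eig N ξ γ ∧ ‖v‖ ≤ 1 ∧ e * v = v},
        ‖v'.1 ξ - v.1 ξ‖ ^ 2 ≤ 1 - ‖v.1 ξ‖ ^ 2 ∧
          1 - ‖v'.1 ξ‖ ^ 2 ≤ (1 - c) * (1 - ‖v.1 ξ‖ ^ 2) := by
    rintro ⟨v, hv, hv1, hev⟩
    obtain ⟨v', h1, h2, h3, h4, h5⟩ :=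
      S.improve hγ0 hw₀g hw₀n hw₀0 he hes hee heφ hv hv1 hev
    exact ⟨⟨v', h1, h2, h3⟩, h4, h5⟩
  choose nxt hn1 hn2 using hstep
  let v : ℕ → {v : H →L[ℂ] H // v ∈ eig N ξ γ ∧ ‖v‖ ≤ 1 ∧ e * v = v} := fun n =>
    Nat.rec ⟨0, Submodule.zero_mem _, by simp, by simp⟩ (fun _ v => nxt v) n
  have hvs : ∀ n, v (n + 1) = nxt (v n) := fun n => rfl
  have hx : ∀ n, 1 - ‖(v n).1 ξ‖ ^ 2 ≤ (1 - c) ^ n := by
    intro n
    induction n with
    | zero =>
      have : (v 0).1 = 0 := rfl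
      rw [this]
      simp
    | succ n ih =>
      have e1 : (1 - c) ^ (n + 1) = (1 - c) * (1 - c) ^ n := pow_succ' _ _
      have e2 : 0 ≤ 1 - c := by linarith
      rw [hvs, e1]
      exact (hn2 (v n)).trans (mul_le_mul_of_nonneg_left ih e2)
  set r := Real.sqrt (1 - c) with hr
  have hr0 : 0 ≤ r := Real.sqrt_nonneg _
  have hr1 : r < 1 := by
    rw [hr]
    have : Real.sqrt (1 - c) < Real.sqrt 1 := Real.sqrt_lt_sqrt (by linarith) (by linarith)
    rwa [Real.sqrt_one] at this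
  have hr2 : r ^ 2 = 1 - c := Real.sq_sqrt (by linarith)
  have hcau : CauchySeq (fun n => (v n).1 ξ) := by
    refine cauchySeq_of_le_geometric r 1 hr1 fun n => ?_
    rw [one_mul, dist_eq_norm, norm_sub_rev]
    refine (pow_le_pow_iff_left₀ (norm_nonneg _) (by positivity) two_ne_zero).1 ?_
    rw [← pow_mul, mul_comm n 2, pow_mul, hr2, hvs]
    exact (hn1 (v n)).trans (hx n)
  obtain ⟨η, hη⟩ := cauchySeq_tendsto_of_complete hcau
  obtain ⟨w, hw, hwη, hwn, hwlim⟩ := S.eig_limit (γ := γ) zero_le_one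
    (fun n => (v n).2.1) (fun n => (v n).2.2.1) hη
  have hwξ : ‖w ξ‖ = 1 := by
    have h1 : Tendsto (fun n => ‖(v n).1 ξ‖ ^ 2) atTop (nhds (‖w ξ‖ ^ 2)) :=
      ((hwlim ξ).norm).pow 2
    have h2 : Tendsto (fun n => 1 - (1 - c) ^ n) atTop (nhds (1 - 0)) :=
      (tendsto_pow_atTop_nhds_zero_of_lt_one (by linarith) (by linarith)).const_sub 1
    rw [sub_zero] at h2
    have h3 : 1 ≤ ‖w ξ‖ ^ 2 := le_of_tendsto_of_tendsto' h2 h1 fun n => by
      have := hx n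
      linarith
    have h4 : ‖w ξ‖ ≤ 1 := by
      have := w.le_of_opNorm_le hwn ξ
      rwa [S.norm_one, one_mul] at this
    nlinarith [norm_nonneg (w ξ)]
  refine ⟨w, hw, ?_, ?_⟩
  · refine eq_of_dense N S.dense_commN (mul_mem (star_mem hw.1) hw.1) (one_mem N) ?_
    have h1 : ‖(star w * w) ξ - ξ‖ ^ 2 ≤ 0 := by
      have h2 := @norm_sub_sq ℂ _ _ _ _ ((star w * w) ξ) ξ
      have h3 : ⟪(star w * w) ξ, ξ⟫_ℂ = 1 := by
        change ⟪(star w) (w ξ), ξ⟫_ℂ = 1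
        rw [inner_star_left, inner_self_eq_norm_sq_to_K, hwξ]
        simp
      have h4 : ‖(star w * w) ξ‖ ≤ 1 := by
        change ‖(star w) (w ξ)‖ ≤ 1
        have h5 : ‖star w‖ ≤ 1 := by rw [norm_star]; exact hwn
        have := (star w).le_of_opNorm_le h5 (w ξ)
        rwa [hwξ, one_mul] at this
      rw [h2, h3, S.norm_one]
      have h5 : ‖(star w * w) ξ‖ ^ 2 ≤ 1 := by nlinarith [norm_nonneg ((star w * w) ξ)]
      simp only [RCLike.one_re]
      linarith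
    have h2 : ‖(star w * w) ξ - ξ‖ = 0 := by
      have := sq_nonneg ‖(star w * w) ξ - ξ‖
      exact pow_eq_zero_iff two_ne_zero |>.1 (le_antisymm h1 this)
    rw [one_apply_eq_self]
    exact sub_eq_zero.1 (norm_eq_zero.1 h2)
  · ext ζ
    have h1 : Tendsto (fun n => e ((v n).1 ζ)) atTop (nhds (e (w ζ))) :=
      (e.continuous.tendsto _).comp (hwlim ζ)
    have h2 : ∀ n, e ((v n).1 ζ) = (v n).1 ζ := fun n =>
      congrArg (fun T : H →L[ℂ] H => T ζ) (v n).2.2.2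
    simp only [h2] at h1
    exact tendsto_nhds_unique h1 (hwlim ζ)

end AP

end Pool.Agent.Helper23

end

section

open scoped InnerProductSpace Topology

open ContinuousLinearMap Filter

namespace Pool.Agent.Helper23

variable {H : Type*} [NormedAddCommGroup H] [InnerProductSpace ℂ H] [CompleteSpace H]

variable {M N : VonNeumannAlgebra H} {ξ : H} {E : (H →L[ℂ] H) → (H →L[ℂ] H)}

namespace AP

variable (S : AP M N E ξ)

include S

lemma al_mem' (γ : ℝ) {x : H →L[ℂ] H} (hx : x ∈ Qalg M N ξ) : al M N ξ γ x ∈ Qalg M N ξ := by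
  by_cases hγ : γ ∈ Gam N ξ
  · exact S.al_mem hγ hx
  · rw [al, dif_neg (fun h => hγ h.1)]
    exact zero_mem _

lemma al_opNorm' (γ : ℝ) {x : H →L[ℂ] H} (hx : x ∈ Qalg M N ξ) :
    ‖al M N ξ γ x‖ ≤ 2 * ‖x‖ := by
  by_cases hγ : γ ∈ Gam N ξ
  · exact S.al_opNorm hγ hx
  · rw [al, dif_neg (fun h => hγ h.1), norm_zero]
    positivity

lemma al_add {γ : ℝ} (hγ : γ ∈ Gam N ξ) {x y : H →L[ℂ] H} (hx : x ∈ Qalg M N ξ)
    (hy : y ∈ Qalg M N ξ) : al M N ξ γ (x + y) = al M N ξ γ x + al M N ξ γ y :=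
  S.al_unique hγ (add_mem hx hy) ((S.al_rel hγ hx).add (S.al_rel hγ hy))

lemma al_sub {γ : ℝ} (hγ : γ ∈ Gam N ξ) {x y : H →L[ℂ] H} (hx : x ∈ Qalg M N ξ)
    (hy : y ∈ Qalg M N ξ) : al M N ξ γ (x - y) = al M N ξ γ x - al M N ξ γ y :=
  S.al_unique hγ (sub_mem hx hy) ((S.al_rel hγ hx).sub (S.al_rel hγ hy))

lemma al_smul {γ : ℝ} (hγ : γ ∈ Gam N ξ) (c : ℂ) {x : H →L[ℂ] H} (hx : x ∈ Qalg M N ξ) :
    al M N ξ γ (c • x) = c • al M N ξ γ x :=
  S.al_unique hγ (smul_mem' c hx) ((S.al_rel hγ hx).smul c)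

lemma al_mul {γ : ℝ} (hγ : γ ∈ Gam N ξ) {x y : H →L[ℂ] H} (hx : x ∈ Qalg M N ξ)
    (hy : y ∈ Qalg M N ξ) : al M N ξ γ (x * y) = al M N ξ γ x * al M N ξ γ y :=
  S.al_unique hγ (mul_mem hx hy) ((S.al_rel hγ hx).mul (S.al_rel hγ hy))

lemma al_star {γ : ℝ} (hγ : γ ∈ Gam N ξ) {x : H →L[ℂ] H} (hx : x ∈ Qalg M N ξ) :
    al M N ξ γ (star x) = star (al M N ξ γ x) :=
  S.al_unique hγ (star_mem hx)
    ((S.al_rel hγ hx).star' S.irr hγ.1.ne' hγ.2 (S.al_mem hγ hx))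

lemma al_al {γ δ : ℝ} (hγ : γ ∈ Gam N ξ) (hδ : δ ∈ Gam N ξ) {x : H →L[ℂ] H}
    (hx : x ∈ Qalg M N ξ) : al M N ξ γ (al M N ξ δ x) = al M N ξ (γ * δ) x :=
  (S.al_unique (S.Gam_mul hγ hδ) hx (Rel.comp S.irr hδ.1.ne' hδ.2 (S.al_mem hδ hx)
    (S.al_rel hδ hx) (S.al_rel hγ (S.al_mem hδ hx)))).symm

lemma al_id {x : H →L[ℂ] H} (hx : x ∈ Qalg M N ξ) : al M N ξ 1 x = x :=
  S.al_unique S.one_mem_Gam hx fun a ha => (mem_Qalg.1 hx).2 a ha

lemma al_state {γ : ℝ} (hγ : γ ∈ Gam N ξ) {x : H →L[ℂ] H} (hx : x ∈ Qalg M N ξ) :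
    ⟪ξ, al M N ξ γ x ξ⟫_ℂ = ⟪ξ, x ξ⟫_ℂ :=
  S.rel_state S.irr hγ.2 hx (S.al_mem hγ hx) (S.al_rel hγ hx)

lemma al_norm_sub {γ : ℝ} (hγ : γ ∈ Gam N ξ) {x y : H →L[ℂ] H} (hx : x ∈ Qalg M N ξ)
    (hy : y ∈ Qalg M N ξ) : ‖al M N ξ γ x ξ - al M N ξ γ y ξ‖ = ‖x ξ - y ξ‖ := by
  rw [← sub_apply, ← S.al_sub hγ hx hy, S.al_norm hγ (sub_mem hx hy), sub_apply]

/-- existence of the limits defining the flow -/
lemma exists_bet {x : H →L[ℂ] H} (h : InB M N ξ x) {l : ℝ} (hl : 0 < l) :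
    ∃ y ∈ Qalg M N ξ, Tendsto (fun γ => al M N ξ γ x ξ) (𝓝[Gam N ξ] l) (𝓝 (y ξ)) := by
  have hne := S.neBot hl
  have hcau : Cauchy (map (fun γ => al M N ξ γ x ξ) (𝓝[Gam N ξ] l)) := by
    rw [Metric.cauchy_iff]
    refine ⟨hne.map _, fun ε hε => ?_⟩
    obtain ⟨η, hη, h1⟩ := InB.contAt h (ε / 2) (by positivity)
    set r := min (l / 2) (η * l / 8) with hr
    have hr0 : 0 < r := by positivity
    refine ⟨(fun γ => al M N ξ γ x ξ) '' (Gam N ξ ∩ Metric.ball l r), ?_, ?_⟩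
    · exact image_mem_map (inter_mem_nhdsWithin _ (Metric.ball_mem_nhds l hr0))
    · rintro _ ⟨γ, ⟨hγ, hγ1⟩, rfl⟩ _ ⟨δ, ⟨hδ, hδ1⟩, rfl⟩
      rw [Metric.mem_ball, Real.dist_eq] at hγ1 hδ1
      have hq : γ⁻¹ * δ ∈ Gam N ξ := S.Gam_mul (Gam_inv hγ) hδ
      have h2 : al M N ξ δ x = al M N ξ γ (al M N ξ (γ⁻¹ * δ) x) := by
        rw [S.al_al hγ hq h.1, ← mul_assoc, mul_inv_cancel₀ hγ.1.ne', one_mul]
      have h3 : |γ⁻¹ * δ - 1| < η := by
        have e1 : γ⁻¹ * δ - 1 = (δ - γ) / γ := by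
          field_simp [hγ.1.ne']
        have e2 : |δ - γ| < η * l / 4 := by
          have e3 : |δ - γ| ≤ |δ - l| + |γ - l| := by
            have : δ - γ = (δ - l) - (γ - l) := by ring
            rw [this]; exact abs_sub _ _
          have e4 := min_le_right (l / 2) (η * l / 8)
          linarith
        have e3 : l / 2 ≤ γ := by
          have := min_le_left (l / 2) (η * l / 8)
          have := (abs_lt.1 hγ1).1
          linarith
        rw [e1, abs_div, abs_of_pos hγ.1, div_lt_iff₀ hγ.1]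
        have e4 : η * (l / 2) ≤ η * γ := mul_le_mul_of_nonneg_left e3 hη.le
        have e5 : 0 < η * l := by positivity
        nlinarith
      have h4 := h1 _ hq h3
      rw [sub_apply] at h4
      change dist (al M N ξ γ x ξ) (al M N ξ δ x ξ) < ε
      rw [dist_comm, dist_eq_norm, h2, S.al_norm_sub hγ (S.al_mem hq h.1) h.1]
      linarith
  obtain ⟨η, hη⟩ := CompleteSpace.complete hcau
  obtain ⟨y, hy, hyη, -⟩ := exists_limit (Qalg M N ξ) S.denseQ
    (C := 2 * ‖x‖) (l := 𝓝[Gam N ξ] l) (by positivity) (fun γ => S.al_mem' γ h.1)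
    (fun γ => S.al_opNorm' γ h.1) hη
  exact ⟨y, hy, by rw [hyη]; exact hη⟩

lemma bet_spec {x : H →L[ℂ] H} (h : InB M N ξ x) {l : ℝ} (hl : 0 < l) :
    bet M N ξ l x ∈ Qalg M N ξ ∧
      Tendsto (fun γ => al M N ξ γ x ξ) (𝓝[Gam N ξ] l) (𝓝 (bet M N ξ l x ξ)) := by
  have h1 := S.exists_bet h hl
  rw [bet, dif_pos h1]
  exact h1.choose_spec

lemma bet_memQ {x : H →L[ℂ] H} (h : InB M N ξ x) {l : ℝ} (hl : 0 < l) :
    bet M N ξ l x ∈ Qalg M N ξ := (S.bet_spec h hl).1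

/-- strong convergence -/
lemma bet_tendsto {x : H →L[ℂ] H} (h : InB M N ξ x) {l : ℝ} (hl : 0 < l) (ζ : H) :
    Tendsto (fun γ => al M N ξ γ x ζ) (𝓝[Gam N ξ] l) (𝓝 (bet M N ξ l x ζ)) := by
  have h1 := (S.bet_spec h hl).2
  have h2 : Tendsto (fun γ => (al M N ξ γ x - bet M N ξ l x) ζ) (𝓝[Gam N ξ] l) (𝓝 0) := by
    refine tendsto_of_bounded (Qalg M N ξ) S.denseQ
      (x := fun γ => al M N ξ γ x - bet M N ξ l x) (C := 2 * ‖x‖ + ‖bet M N ξ l x‖)
      (fun γ => sub_mem (S.al_mem' γ h.1) (S.bet_memQ h hl))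
      (fun γ => (norm_sub_le _ _).trans (add_le_add (S.al_opNorm' γ h.1) le_rfl)) ?_ ζ
    have h3 := h1.sub_const (bet M N ξ l x ξ)
    rw [sub_self] at h3
    exact h3
  have h3 := h2.add_const (bet M N ξ l x ζ)
  rw [zero_add] at h3
  refine h3.congr fun γ => ?_
  rw [sub_apply, sub_add_cancel]

lemma bet_eq_al {x : H →L[ℂ] H} (h : InB M N ξ x) {γ : ℝ} (hγ : γ ∈ Gam N ξ) :
    bet M N ξ γ x = al M N ξ γ x := by
  have h1 := (S.bet_spec h hγ.1).2
  have h2 : Tendsto (fun γ => al M N ξ γ x ξ) (pure γ) (𝓝 (bet M N ξ γ x ξ)) :=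
    h1.mono_left (pure_le_nhdsWithin hγ)
  have h3 := tendsto_nhds_unique h2 (tendsto_pure_nhds _ _)
  exact eq_of_dense (Qalg M N ξ) S.denseQ (S.bet_memQ h hγ.1) (S.al_mem hγ h.1) h3

lemma bet_opNorm {x : H →L[ℂ] H} (h : InB M N ξ x) {l : ℝ} (hl : 0 < l) :
    ‖bet M N ξ l x‖ ≤ 2 * ‖x‖ := by
  have hne := S.neBot hl
  refine ContinuousLinearMap.opNorm_le_bound _ (by positivity) fun ζ => ?_
  refine le_of_tendsto (S.bet_tendsto h hl ζ).norm (Eventually.of_forall fun γ => ?_)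
  exact (al M N ξ γ x).le_of_opNorm_le (S.al_opNorm' γ h.1) ζ

end AP

end Pool.Agent.Helper23

end

section

open scoped InnerProductSpace Topology

open ContinuousLinearMap Filter

namespace Pool.Agent.Helper23

variable {H : Type*} [NormedAddCommGroup H] [InnerProductSpace ℂ H] [CompleteSpace H]

variable {M N : VonNeumannAlgebra H} {ξ : H} {E : (H →L[ℂ] H) → (H →L[ℂ] H)}

lemma tendsto_of_bounded_ev {ι : Type*} {l : Filter ι} (A : VonNeumannAlgebra H) {ξ : H}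
    (hd : Dense (orb A.commutant ξ : Set H)) {x : ι → H →L[ℂ] H} {C : ℝ}
    (hx : ∀ᶠ i in l, x i ∈ A ∧ ‖x i‖ ≤ C) (hC0 : 0 ≤ C)
    (h0 : Tendsto (fun i => x i ξ) l (nhds 0)) (ζ : H) :
    Tendsto (fun i => x i ζ) l (nhds 0) := by
  classical
  have h1 : Tendsto (fun i => (if x i ∈ A ∧ ‖x i‖ ≤ C then x i else 0) ζ) l (nhds 0) := by
    refine tendsto_of_bounded A hd (x := fun i => if x i ∈ A ∧ ‖x i‖ ≤ C then x i else 0) (C := C)
      (fun i => ?_) (fun i => ?_) (h0.congr' ?_) ζ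
    · by_cases h : x i ∈ A ∧ ‖x i‖ ≤ C
      · simp only [if_pos h]; exact h.1
      · simp only [if_neg h]; exact zero_mem A
    · by_cases h : x i ∈ A ∧ ‖x i‖ ≤ C
      · simp only [if_pos h]; exact h.2
      · simp only [if_neg h, norm_zero]; exact hC0
    · filter_upwards [hx] with i hi
      rw [if_pos hi]
  refine h1.congr' ?_
  filter_upwards [hx] with i hi
  rw [if_pos hi]

namespace AP

variable (S : AP M N E ξ)

include S

/-- the flow as an extension by continuity -/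
lemma bet_cont_xi {x : H →L[ℂ] H} (hx : InB M N ξ x) :
    ContinuousOn (fun l => bet M N ξ l x ξ) (Set.Ioi 0) := by
  have h1 : ContinuousOn (extendFrom (Gam N ξ) (fun γ => al M N ξ γ x ξ)) (Set.Ioi 0) :=
    continuousOn_extendFrom (fun l hl => S.mem_closure_Gam hl)
      (fun l hl => ⟨_, (S.bet_spec hx hl).2⟩)
  refine h1.congr fun l hl => ?_
  exact (extendFrom_eq (S.mem_closure_Gam hl) (S.bet_spec hx hl).2).symm

lemma bet_cont {x : H →L[ℂ] H} (hx : InB M N ξ x) (ζ : H) :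
    ContinuousOn (fun l => bet M N ξ l x ζ) (Set.Ioi 0) := by
  intro l hl
  have h1 := S.bet_cont_xi hx l hl
  have h2 : Tendsto (fun m => (bet M N ξ m x - bet M N ξ l x) ξ) (𝓝[Set.Ioi 0] l) (𝓝 0) := by
    have := h1.tendsto.sub_const (bet M N ξ l x ξ)
    rw [sub_self] at this
    exact this
  have h3 := tendsto_of_bounded_ev (Qalg M N ξ) S.denseQ
    (x := fun m => bet M N ξ m x - bet M N ξ l x) (C := 2 * ‖x‖ + 2 * ‖x‖) (by
      filter_upwards [self_mem_nhdsWithin] with m hm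
      exact ⟨sub_mem (S.bet_memQ hx hm) (S.bet_memQ hx hl),
        (norm_sub_le _ _).trans (add_le_add (S.bet_opNorm hx hm) (S.bet_opNorm hx hl))⟩)
    (by positivity) h2 ζ
  have h4 := h3.add_const (bet M N ξ l x ζ)
  rw [zero_add] at h4
  refine h4.congr fun m => ?_
  rw [sub_apply, sub_add_cancel]

end AP

end Pool.Agent.Helper23

end

section

open scoped InnerProductSpace Topology BoundedContinuousFunction

open ContinuousLinearMap Filter

namespace Pool.Agent.Helper23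

variable {H : Type*} [NormedAddCommGroup H] [InnerProductSpace ℂ H] [CompleteSpace H]

variable {M N : VonNeumannAlgebra H} {ξ : H} {E : (H →L[ℂ] H) → (H →L[ℂ] H)}

namespace AP

variable (S : AP M N E ξ)

include S

/-- contractions in the eigenspaces of norm one on `ξ` -/
lemma exists_contr {γ : ℝ} (hγ : γ ∈ Gam N ξ) : ∃ v ∈ eig N ξ γ, ‖v‖ ≤ 1 ∧
    min 1 γ ≤ ‖v ξ‖ ^ 2 ∧ (1 ≤ γ → star v * v = 1) ∧ (γ ≤ 1 → v * star v = 1) := by
  have h1ξ : ‖(1 : H →L[ℂ] H) ξ‖ ^ 2 = 1 := by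
    rw [one_apply_eq_self, S.norm_one]; norm_num
  rcases lt_trichotomy γ 1 with h | h | h
  · obtain ⟨w, hw, hw1, -⟩ := S.exists_isometry (Gam_inv hγ) one_mem_eig (star_one _) (one_mul 1) (by
      rw [inv_inv, h1ξ]; exact h)
    have hv : star w ∈ eig N ξ γ := by
      have := eig_star (inv_ne_zero hγ.1.ne') hw
      rwa [inv_inv] at this
    have hwn := norm_le_one_of_isom hw1
    refine ⟨star w, hv, by rwa [norm_star], ?_, fun h' => absurd h (not_lt.2 h'), fun _ => ?_⟩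
    · rw [min_eq_right h.le, S.eig_norm_sq hv, star_star, norm_of_isom hw1, S.norm_one]
      norm_num
    · rw [star_star, hw1]
  · subst h
    refine ⟨1, one_mem_eig, ?_, ?_, fun _ => by simp, fun _ => by simp⟩
    · exact norm_le_one_of_isom (by simp)
    · rw [h1ξ]; simp
  · obtain ⟨w, hw, hw1, -⟩ := S.exists_isometry hγ one_mem_eig (star_one _) (one_mul 1) (by
      rw [h1ξ]; exact inv_lt_one_of_one_lt₀ h)
    refine ⟨w, hw, norm_le_one_of_isom hw1, ?_, fun _ => hw1, fun h' => absurd h (not_lt.2 h')⟩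
    rw [min_eq_left h.le, norm_of_isom hw1, S.norm_one]
    norm_num

lemma InB_of_bicent {x : H →L[ℂ] H} (hx : x ∈ Bicent M N ξ) : InB M N ξ x := by
  have hQ : x ∈ Qalg M N ξ := by
    rw [mem_Qalg]
    refine ⟨hx.1, fun a ha => ?_⟩
    have h1 : LamSeq N ξ 1 (fun _ => a) :=
      ⟨fun _ => ha.1, ⟨‖a‖, fun _ => le_rfl⟩,
        fun ε hε => Eventually.of_forall fun _ => Defect.of_eig hε.le ha⟩
    ext η
    have h2 := hx.2 _ h1 η
    have h3 := tendsto_nhds_unique h2 tendsto_const_nhds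
    exact (sub_eq_zero.1 h3.symm).symm
  refine ⟨hQ, tendsto_of_seq_tendsto fun u hu => ?_⟩
  -- replace `u` by a sequence in `Gam`
  classical
  set γ : ℕ → ℝ := fun n => if u n ∈ Gam N ξ then u n else 1 with hγ
  have hγG : ∀ n, γ n ∈ Gam N ξ := by
    intro n
    by_cases h : u n ∈ Gam N ξ
    · simp only [hγ, if_pos h]; exact h
    · simp only [hγ, if_neg h]; exact S.one_mem_Gam
  have hev : ∀ᶠ n in atTop, γ n = u n := by
    have h1 : ∀ᶠ n in atTop, u n ∈ Gam N ξ := (tendsto_nhdsWithin_iff.1 hu).2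
    filter_upwards [h1] with n hn
    simp only [hγ, if_pos hn]
  have hγ1 : Tendsto γ atTop (𝓝 1) :=
    ((tendsto_nhdsWithin_iff.1 hu).1).congr' (hev.mono fun n hn => hn.symm)
  suffices h : Tendsto (fun n => al M N ξ (γ n) x ξ) atTop (𝓝 (x ξ)) by
    refine h.congr' ?_
    filter_upwards [hev] with n hn
    rw [hn]
    rfl
  choose v hv hv1 hvξ _ _ using fun n => S.exists_contr (hγG n)
  have h1 := hx.2 v (S.lamSeq_of_eig hγ1 hv hv1) ξ
  have h2 : Tendsto (fun n => ‖(al M N ξ (γ n) x - x) ξ‖ * ‖v n ξ‖) atTop (𝓝 0) := by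
    refine (tendsto_zero_iff_norm_tendsto_zero.1 h1).congr fun n => ?_
    have h3 : v n (x ξ) = al M N ξ (γ n) x (v n ξ) :=
      congrArg (fun T : H →L[ℂ] H => T ξ) (S.al_rel (hγG n) hQ (v n) (hv n))
    rw [h3, ← S.norm_Q S.irr (sub_mem (S.al_mem (hγG n) hQ) hQ) (hv n).1, sub_apply,
      norm_sub_rev]
  have h3 : ∀ᶠ n in atTop, (1 / 2 : ℝ) ≤ ‖v n ξ‖ := by
    have h4 : ∀ᶠ n in atTop, (1 / 2 : ℝ) < γ n := hγ1.eventually (lt_mem_nhds (by norm_num))
    filter_upwards [h4] with n hn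
    have h5 := hvξ n
    have h6 : (1 / 2 : ℝ) ≤ min 1 (γ n) := le_min (by norm_num) hn.le
    nlinarith [norm_nonneg (v n ξ)]
  rw [tendsto_iff_norm_sub_tendsto_zero]
  have h4 : Tendsto (fun n => 2 * (‖(al M N ξ (γ n) x - x) ξ‖ * ‖v n ξ‖)) atTop (𝓝 0) := by
    have := h2.const_mul 2
    rwa [mul_zero] at this
  refine squeeze_zero' (Eventually.of_forall fun n => norm_nonneg _) ?_ h4
  filter_upwards [h3] with n hn
  rw [← sub_apply]
  nlinarith [norm_nonneg ((al M N ξ (γ n) x - x) ξ)]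

lemma bicent_memQ {x : H →L[ℂ] H} (hx : x ∈ Bicent M N ξ) : x ∈ Qalg M N ξ :=
  (S.InB_of_bicent hx).1

end AP

end Pool.Agent.Helper23

end

section

open scoped InnerProductSpace Topology ENNReal

open ContinuousLinearMap Filter MeasureTheory

set_option linter.unusedSectionVars false

set_option linter.unusedVariables false

namespace Pool.Agent.Helper23

theorem scalar_of_comm {R : L2R ℂ →L[ℂ] L2R ℂ}
    (h1 : ∀ m : ℝ → ℂ, BM m → ∀ f, R (mulOp ℂ m f) = mulOp ℂ m (R f))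
    (h2 : ∀ t f, R (tr ℂ t f) = tr ℂ t (R f)) : ∃ c : ℂ, R = c • (1 : L2R ℂ →L[ℂ] L2R ℂ) := by
  set k : L2R ℂ := R f0 with hk
  set k' : ℝ → ℂ := fun s => k s with hk'
  have hkm : Measurable k' := (Lp.stronglyMeasurable k).measurable
  -- covariance for each translation
  have h3 : ∀ t : ℝ, ∀ᵐ s, k' (s - t) * w0 s = w0 (s - t) * k' s := by
    intro t
    have e1 : tr ℂ t f0 = mulOp ℂ (fun s => w0 (s - t) / w0 s) f0 := by
      ext1
      filter_upwards [tr_coe t f0, ae_tr t f0_coe, mulOp_coe (quot_bm t) f0, f0_coe]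
        with s a1 a2 a3 a4
      rw [a1, a2, a3, a4, smul_eq_mul, div_mul_cancel₀ _ (w0_ne s)]
    have e2 : tr ℂ t k = mulOp ℂ (fun s => w0 (s - t) / w0 s) k := by
      rw [hk, ← h2, e1, h1 _ (quot_bm t)]
    have e3 := tr_coe t k
    rw [e2] at e3
    filter_upwards [e3, mulOp_coe (quot_bm t) k] with s a1 a2
    rw [a2, smul_eq_mul] at a1
    change k (s - t) * w0 s = w0 (s - t) * k s
    rw [← a1, div_mul_eq_mul_div, div_mul_cancel₀ _ (w0_ne s)]
  have hmeas : MeasurableSet {p : ℝ × ℝ | k' (p.2 - p.1) * w0 p.2 = w0 (p.2 - p.1) * k' p.2} := by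
    refine measurableSet_eq_fun ?_ ?_
    · exact (hkm.comp (measurable_snd.sub measurable_fst)).mul
        (w0_cont.measurable.comp measurable_snd)
    · exact (w0_cont.measurable.comp (measurable_snd.sub measurable_fst)).mul
        (hkm.comp measurable_snd)
  have h4 : ∀ᵐ s, ∀ᵐ t, k' (s - t) * w0 s = w0 (s - t) * k' s :=
    (Measure.ae_ae_comm (μ := (volume : Measure ℝ)) (ν := (volume : Measure ℝ))
      (p := fun t s => k' (s - t) * w0 s = w0 (s - t) * k' s) hmeas).1 (Eventually.of_forall h3)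
  obtain ⟨s0, hs0⟩ := h4.exists
  set c : ℂ := k' s0 / w0 s0 with hc
  have h5 : k = c • f0 := by
    ext1
    have e1 : ∀ᵐ r : ℝ, k' (s0 - (s0 - r)) * w0 s0 = w0 (s0 - (s0 - r)) * k' s0 := by
      have hq : Measure.QuasiMeasurePreserving (fun r : ℝ => s0 - r) volume volume :=
        (volume.measurePreserving_sub_left s0).quasiMeasurePreserving
      exact hq.ae hs0
    filter_upwards [e1, Lp.coeFn_smul c f0, f0_coe] with r a1 a2 a3
    rw [a2, Pi.smul_apply, a3, smul_eq_mul, hc]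
    rw [sub_sub_cancel] at a1
    change k' r = _
    rw [div_mul_eq_mul_div, eq_div_iff (w0_ne s0), a1, mul_comm]
  refine ⟨c, ?_⟩
  have h6 : ∀ m : ℝ → ℂ, BM m → (R - c • (1 : L2R ℂ →L[ℂ] L2R ℂ)) (mulOp ℂ m f0) = 0 := by
    intro m hm
    change R (mulOp ℂ m f0) - c • (mulOp ℂ m f0) = 0
    rw [h1 m hm, ← hk, h5, map_smul, sub_self]
  have h7 : ∀ g : L2R ℂ, (adjoint (R - c • (1 : L2R ℂ →L[ℂ] L2R ℂ))) g = 0 := by
    intro g
    refine eq_zero_of_f0 fun m hm => ?_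
    rw [adjoint_inner_right, h6 m hm, inner_zero_left]
  rw [← sub_eq_zero]
  ext1 f
  refine ext_inner_left ℂ fun g => ?_
  rw [← adjoint_inner_left, h7, inner_zero_left, zero_apply, inner_zero_right]

end Pool.Agent.Helper23

end

section

open scoped InnerProductSpace Topology

open ContinuousLinearMap Filter

namespace Pool.Agent.Helper23

variable {H : Type*} [NormedAddCommGroup H] [InnerProductSpace ℂ H] [CompleteSpace H]

variable {M N : VonNeumannAlgebra H} {ξ : H} {E : (H →L[ℂ] H) → (H →L[ℂ] H)}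

namespace AP

variable (S : AP M N E ξ)

include S

/-- averaging of a quadratic inequality over both sides of the compressions by an
eigenoperator. -/
lemma avg_compress {γ : ℝ} (hγ : 0 < γ) {v : H →L[ℂ] H} (hv : v ∈ eig N ξ γ) (hv0 : v ≠ 0)
    {ι : Type*} [Fintype ι] {X : ι → H →L[ℂ] H} (hX : ∀ i, X i ∈ M) (s : ι → ℝ)
    (h : ∀ w ∈ Ucent N ξ, ∀ w' ∈ Ucent N ξ,
      0 ≤ ∑ i, s i * ‖(star v * w * X i * w' * v) ξ‖ ^ 2) :
    0 ≤ ∑ i, s i * ‖X i ξ‖ ^ 2 := by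
  have hvv : v * star v ∈ eig N ξ 1 := mul_star_mem_eig_one hγ.ne' hv hv
  have hφ : ⟪ξ, (v * star v) ξ⟫_ℂ = ((‖(star v) ξ‖ ^ 2 : ℝ) : ℂ) := by
    rw [norm_sq_apply, star_star]; rfl
  have hns : γ * ‖(star v) ξ‖ ^ 2 = ‖v ξ‖ ^ 2 := (S.eig_norm_sq hv).symm
  have hvξ : v ξ ≠ 0 := fun h => hv0 (S.sep v (S.le v hv.1) h)
  have hvn : 0 < ‖v ξ‖ ^ 2 := by positivity
  have hvsn : 0 < ‖(star v) ξ‖ ^ 2 := by
    by_contra hcon
    push Not at hcon
    nlinarith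
  -- step 1 : averaging on the left
  have h1 : ∀ w' ∈ Ucent N ξ, 0 ≤ ∑ i, s i * ‖X i (w' (v ξ))‖ ^ 2 := by
    intro w' hw'
    have h2 := S.avgN_le (x := fun _ : ι => v * star v) (fun _ => hvv.1)
      (fun i => ((s i : ℝ) : ℂ) • X i (w' (v ξ))) (fun i => X i (w' (v ξ))) (c := 0) (by
        intro u hu
        refine (h u hu w' hw').trans_eq (Finset.sum_congr rfl fun i _ => ?_)
        have e1 : (star v * u * X i * w' * v) ξ = (star v) (u (X i (w' (v ξ)))) := rfl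
        have e2 : ⟪X i (w' (v ξ)), (star u * (v * star v) * u) (X i (w' (v ξ)))⟫_ℂ =
            ⟪(star v) (u (X i (w' (v ξ)))), (star v) (u (X i (w' (v ξ))))⟫_ℂ := by
          rw [inner_star_left]
          change ⟪X i (w' (v ξ)), (star u) ((v * star v) (u (X i (w' (v ξ)))))⟫_ℂ = _
          rw [inner_star_right]; rfl
        rw [e1, inner_smul_left, Complex.conj_ofReal, Complex.re_ofReal_mul, e2,
          inner_self_eq_norm_sq_to_K]
        norm_cast)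
    have h3 : ∑ i, (⟪ξ, (v * star v) ξ⟫_ℂ *
        ⟪((s i : ℝ) : ℂ) • X i (w' (v ξ)), X i (w' (v ξ))⟫_ℂ).re =
        ‖(star v) ξ‖ ^ 2 * ∑ i, s i * ‖X i (w' (v ξ))‖ ^ 2 := by
      rw [Finset.mul_sum]
      refine Finset.sum_congr rfl fun i _ => ?_
      rw [hφ, Complex.re_ofReal_mul, inner_smul_left, Complex.conj_ofReal,
        Complex.re_ofReal_mul, inner_self_eq_norm_sq_to_K]
      norm_cast
    rw [h3] at h2
    exact nonneg_of_mul_nonneg_right h2 hvsn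
  -- step 2 : averaging on the right
  have h2 := S.avgN_le (x := fun _ : ι => v * star v) (fun _ => hvv.1)
    (fun i => ((s i : ℝ) : ℂ) • (star (X i)) (X i ξ)) (fun _ => ξ) (c := 0) (by
      intro u hu
      have hus := Ucent_star hu
      have h3 := mul_nonneg (inv_nonneg.2 hγ.le) (h1 _ hus)
      refine h3.trans_eq ?_
      rw [Finset.mul_sum]
      refine Finset.sum_congr rfl fun i _ => ?_
      have h4 := S.norm_right_eig_sq (eig_mul_left hus.1 hv) (hX i)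
      have h5 : star u * v * star (star u * v) = star u * (v * star v) * u := by
        rw [star_mul, star_star]; simp only [mul_assoc]
      rw [h5] at h4
      have h6 : ‖X i ((star u) (v ξ))‖ ^ 2 =
          γ * (⟪(star (X i)) (X i ξ), (star u * (v * star v) * u) ξ⟫_ℂ).re := by
        have h7 := congrArg Complex.re h4
        rw [Complex.ofReal_re, Complex.re_ofReal_mul] at h7
        change ‖X i ((star u * v) ξ)‖ ^ 2 = _
        rw [h7, inner_star_left, ← inner_conj_symm, Complex.conj_re]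
      rw [h6, inner_smul_left, Complex.conj_ofReal, Complex.re_ofReal_mul]
      field_simp)
  have h3 : ∑ i, (⟪ξ, (v * star v) ξ⟫_ℂ *
      ⟪((s i : ℝ) : ℂ) • (star (X i)) (X i ξ), ξ⟫_ℂ).re =
      ‖(star v) ξ‖ ^ 2 * ∑ i, s i * ‖X i ξ‖ ^ 2 := by
    rw [Finset.mul_sum]
    refine Finset.sum_congr rfl fun i _ => ?_
    rw [hφ, Complex.re_ofReal_mul, inner_smul_left, Complex.conj_ofReal,
      Complex.re_ofReal_mul, inner_star_left, inner_self_eq_norm_sq_to_K]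
    norm_cast
  rw [h3] at h2
  exact nonneg_of_mul_nonneg_right h2 hvsn

/-- MODULE A2 : the constants are invariant under the transport maps. -/
theorem lb_al {y : H →L[ℂ] H} (hy : y ∈ Qalg M N ξ) {κ K : ℝ} (_hκ : 0 ≤ κ) (_hK : 0 ≤ K)
    (h : LB N ξ y κ K) {γ : ℝ} (hγ : γ ∈ Gam N ξ) : LB N ξ (al M N ξ γ y) κ K := by
  have hzQ := S.al_mem hγ hy
  set z := al M N ξ γ y with hz
  obtain ⟨hγ0, v, hv, hv0⟩ := hγ
  have hγ : γ ∈ Gam N ξ := ⟨hγ0, v, hv, hv0⟩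
  intro C C' hC
  have hCM : C ∈ M := S.le _ hC.1
  have hCM' : C' ∈ M := S.le _ hC.2.1
  have hzM : z ∈ M := (mem_Qalg.1 hzQ).1
  have hrel : v * y = z * v := S.al_rel hγ hy v hv
  have hrel' : star v * z = y * star v :=
    Rel.adj S.irr hγ0.ne' ⟨v, hv, hv0⟩ hzQ (S.al_rel hγ hy) (eig_star hγ0.ne' hv)
  have hkey := S.avg_compress hγ0 hv hv0 (ι := Fin 3)
    (X := ![z * C - C * z, C, C' - C]) (s := ![-1, κ, K]) (by
      intro i
      fin_cases i
      · exact sub_mem (mul_mem hzM hCM) (mul_mem hCM hzM)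
      · exact hCM
      · exact sub_mem hCM' hCM) (by
    intro w hw w' hw'
    have pv : Partner N ξ v (((γ⁻¹ : ℝ) : ℂ) • v) := Partner.of_eig hγ0.ne' hv
    have pvs : Partner N ξ (star v) (((γ⁻¹⁻¹ : ℝ) : ℂ) • star v) :=
      Partner.of_eig (inv_ne_zero hγ0.ne') (eig_star hγ0.ne' hv)
    have hp := (((pvs.mul (Partner.of_cent hw.1)).mul hC).mul (Partner.of_cent hw'.1)).mul pv
    have hp' : Partner N ξ (star v * w * C * w' * v) (star v * w * C' * w' * v) := by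
      have e : (((γ⁻¹⁻¹ : ℝ) : ℂ) • star v) * w * C' * w' * (((γ⁻¹ : ℝ) : ℂ) • v) =
          star v * w * C' * w' * v := by
        simp only [smul_mul_assoc, mul_smul_comm, smul_smul, ← Complex.ofReal_mul]
        rw [mul_inv_cancel₀ (inv_ne_zero hγ0.ne')]
        simp
      rwa [e] at hp
    have h1 := h _ _ hp'
    have c1 : w * z = z * w := (mem_Qalg.1 hzQ).2 _ hw.1
    have c2 : w' * z = z * w' := (mem_Qalg.1 hzQ).2 _ hw'.1
    have e1 : star v * w * (z * C - C * z) * w' * v =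
        y * (star v * w * C * w' * v) - (star v * w * C * w' * v) * y := by
      have e2 : star v * w * (z * C) * w' * v = y * (star v * w * C * w' * v) := by
        calc star v * w * (z * C) * w' * v = star v * (w * z) * C * w' * v := by
              simp only [mul_assoc]
          _ = (star v * z) * w * C * w' * v := by rw [c1]; simp only [mul_assoc]
          _ = _ := by rw [hrel']; simp only [mul_assoc]
      have e3 : star v * w * (C * z) * w' * v = (star v * w * C * w' * v) * y := by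
        calc star v * w * (C * z) * w' * v = star v * w * C * (z * w') * v := by
              simp only [mul_assoc]
          _ = star v * w * C * w' * (z * v) := by rw [← c2]; simp only [mul_assoc]
          _ = _ := by rw [← hrel]; simp only [mul_assoc]
      rw [mul_sub, sub_mul, sub_mul, e2, e3]
    have e4 : star v * w * (C' - C) * w' * v =
        star v * w * C' * w' * v - star v * w * C * w' * v := by
      rw [mul_sub, sub_mul, sub_mul]
    simp only [Fin.sum_univ_three, Matrix.cons_val_zero, Matrix.cons_val_one,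
      Matrix.cons_val_two, Matrix.head_cons, Matrix.tail_cons]
    rw [e1, e4]
    linarith)
  simp only [Fin.sum_univ_three, Matrix.cons_val_zero, Matrix.cons_val_one,
    Matrix.cons_val_two, Matrix.head_cons, Matrix.tail_cons] at hkey
  linarith

end AP

end Pool.Agent.Helper23

end
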