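import Pool.Agent.Helper23.FA.Ns
import Pool.Agent.Helper23.FA.L01_00
import Pool.Agent.Helper23.FA.L01_01
import Pool.Agent.Helper23.FA.L01_04
import Pool.Agent.Helper23.FA.L01_15
import Pool.Agent.Helper23.FA.L01_17
import Pool.Agent.Helper23.FA.L01_18

/-!
Parts of Helper23.Pin2, Helper23.UPi, Helper95.UAvg, Helper23.ED.GgB
-/

section

open scoped InnerProductSpace Topology ENNReal

open ContinuousLinearMap Filter MeasureTheory

namespace Pool.Agent.Helper23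

variable {H : Type*} [NormedAddCommGroup H] [InnerProductSpace ℂ H] [CompleteSpace H]

variable {M N : VonNeumannAlgebra H} {ξ : H} {E : (H →L[ℂ] H) → (H →L[ℂ] H)}

/-- the total defect of the slices -/
lemma sum_sb {u : L2R H →L[ℂ] L2R H} (hu1 : star u * u = 1) (hξ : ‖ξ‖ = 1) {t : ℝ} (ht : 0 < t)
    (ht1 : t ≤ 1 / 2) (g : L2R ℂ) (A A' : Finset ℤ) (B : Finset hw) :
    ∑ j ∈ A', ∑ i ∈ A, ∑ k ∈ B, ‖(sb u t g (i, k, j) - sa u t g (i, k, j)) ξ‖ ^ 2 ≤
      25 * t ^ 2 * ‖g‖ ^ 2 := by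
  have hexp : Real.exp t ^ 2 ≤ 3 := by
    have h1 : Real.exp t ^ 2 = Real.exp (2 * t) := by
      rw [← Real.exp_nat_mul]; norm_num
    rw [h1]
    have h2 : Real.exp (2 * t) ≤ Real.exp 1 := Real.exp_le_exp.2 (by linarith)
    have := Real.exp_one_lt_d9
    linarith
  have h1 : ∀ j ∈ A', ∑ i ∈ A, ∑ k ∈ B, ‖(sb u t g (i, k, j) - sa u t g (i, k, j)) ξ‖ ^ 2 ≤
      2 * t ^ 2 * ‖mulOp ℂ (ep t j) g‖ ^ 2 +
        2 * ‖mulOp ℂ (fun s => ep t j s - ind (win t j) s) g‖ ^ 2 := by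
    intro j _
    have hsub : ∀ i, BM (fun s => em t i s - ind (win t i) s) := fun i => by
      have := (em_bm t i).add ((ind_bm (win_meas t i)).constMul (-1))
      simpa [sub_eq_add_neg] using this
    have b1 := bessel_both ht A B hsub
      (fun i s h => by rw [em_of_notMem h, ind_of_notMem h, sub_zero]) ht.le
      (fun i s => em_sub_norm ht i s) (u (ten (mulOp ℂ (ep t j) g) ξ))
    rw [norm_of_isom hu1, norm_ten, hξ, mul_one] at b1
    have b2 := bessel_both ht A B (fun i => ind_bm (win_meas t i))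
      (fun i s h => ind_of_notMem h) zero_le_one (fun i s => ind_norm_le _ s)
      (u (ten (mulOp ℂ (fun s => ep t j s - ind (win t j) s) g) ξ))
    rw [one_pow, one_mul, norm_of_isom hu1, norm_ten, hξ, mul_one] at b2
    have hpt : ∀ i k, ‖(sb u t g (i, k, j) - sa u t g (i, k, j)) ξ‖ ^ 2 ≤
        2 * ‖sl (mulOp ℂ (fun s => em t i s - ind (win t i) s) (hb k))
          (u (ten (mulOp ℂ (ep t j) g) ξ))‖ ^ 2 +
        2 * ‖sl (mulOp ℂ (ind (win t i)) (hb k))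
          (u (ten (mulOp ℂ (fun s => ep t j s - ind (win t j) s) g) ξ))‖ ^ 2 := by
      intro i k
      have e1 : mulOp ℂ (fun s => em t i s - ind (win t i) s) (hb k) =
          mulOp ℂ (em t i) (hb k) - mulOp ℂ (ind (win t i)) (hb k) := by
        ext1
        filter_upwards [mulOp_coe (hsub i) (hb k : L2R ℂ), mulOp_coe (em_bm t i) (hb k : L2R ℂ),
          mulOp_coe (ind_bm (win_meas t i)) (hb k : L2R ℂ),
          Lp.coeFn_sub (mulOp ℂ (em t i) (hb k)) (mulOp ℂ (ind (win t i)) (hb k))]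
          with s e1 e2 e3 e4
        rw [e1, e4, Pi.sub_apply, e2, e3, sub_smul]
      have hsub' : BM (fun s => ep t j s - ind (win t j) s) := by
        have := (ep_bm ht j).add ((ind_bm (win_meas t j)).constMul (-1))
        simpa [sub_eq_add_neg] using this
      have e2 : mulOp ℂ (fun s => ep t j s - ind (win t j) s) g =
          mulOp ℂ (ep t j) g - mulOp ℂ (ind (win t j)) g := by
        ext1
        filter_upwards [mulOp_coe hsub' g, mulOp_coe (ep_bm ht j) g,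
          mulOp_coe (ind_bm (win_meas t j)) g,
          Lp.coeFn_sub (mulOp ℂ (ep t j) g) (mulOp ℂ (ind (win t j)) g)] with s e1 e2 e3 e4
        rw [e1, e4, Pi.sub_apply, e2, e3, sub_smul]
      have e3 : (sb u t g (i, k, j) - sa u t g (i, k, j)) ξ =
          sl (mulOp ℂ (fun s => em t i s - ind (win t i) s) (hb k))
          (u (ten (mulOp ℂ (ep t j) g) ξ)) +
          sl (mulOp ℂ (ind (win t i)) (hb k))
          (u (ten (mulOp ℂ (fun s => ep t j s - ind (win t j) s) g) ξ)) := by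
        rw [e1, e2, sl_sub_left, ten_sub_left, map_sub, map_sub]
        change sl _ (u (ten _ ξ)) - sl _ (u (ten _ ξ)) = _
        abel
      rw [e3]
      have n1 := norm_add_le (sl (mulOp ℂ (fun s => em t i s - ind (win t i) s) (hb k))
          (u (ten (mulOp ℂ (ep t j) g) ξ))) (sl (mulOp ℂ (ind (win t i)) (hb k))
          (u (ten (mulOp ℂ (fun s => ep t j s - ind (win t j) s) g) ξ)))
      nlinarith [norm_nonneg (sl (mulOp ℂ (fun s => em t i s - ind (win t i) s) (hb k))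
          (u (ten (mulOp ℂ (ep t j) g) ξ)) + sl (mulOp ℂ (ind (win t i)) (hb k))
          (u (ten (mulOp ℂ (fun s => ep t j s - ind (win t j) s) g) ξ))),
        sq_nonneg (‖sl (mulOp ℂ (fun s => em t i s - ind (win t i) s) (hb k))
          (u (ten (mulOp ℂ (ep t j) g) ξ))‖ - ‖sl (mulOp ℂ (ind (win t i)) (hb k))
          (u (ten (mulOp ℂ (fun s => ep t j s - ind (win t j) s) g) ξ))‖)]
    calc ∑ i ∈ A, ∑ k ∈ B, ‖(sb u t g (i, k, j) - sa u t g (i, k, j)) ξ‖ ^ 2 ≤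
        ∑ i ∈ A, ∑ k ∈ B, (2 * ‖sl (mulOp ℂ (fun s => em t i s - ind (win t i) s) (hb k))
          (u (ten (mulOp ℂ (ep t j) g) ξ))‖ ^ 2 +
        2 * ‖sl (mulOp ℂ (ind (win t i)) (hb k))
          (u (ten (mulOp ℂ (fun s => ep t j s - ind (win t j) s) g) ξ))‖ ^ 2) :=
          Finset.sum_le_sum fun i _ => Finset.sum_le_sum fun k _ => hpt i k
      _ = 2 * ∑ i ∈ A, ∑ k ∈ B, ‖sl (mulOp ℂ (fun s => em t i s - ind (win t i) s) (hb k))
          (u (ten (mulOp ℂ (ep t j) g) ξ))‖ ^ 2 +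
        2 * ∑ i ∈ A, ∑ k ∈ B, ‖sl (mulOp ℂ (ind (win t i)) (hb k))
          (u (ten (mulOp ℂ (fun s => ep t j s - ind (win t j) s) g) ξ))‖ ^ 2 := by
          simp only [Finset.sum_add_distrib, Finset.mul_sum]
      _ ≤ _ := by linarith
  refine (Finset.sum_le_sum h1).trans ?_
  rw [Finset.sum_add_distrib, ← Finset.mul_sum, ← Finset.mul_sum]
  have c1 := bessel_mul ht A' (fun j => ep_bm ht j) (fun j s h => ep_of_notMem h)
    (Real.exp_pos t).le (fun j s => ep_norm ht j s) g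
  have c2 := bessel_mul ht A' (μ := fun j s => ep t j s - ind (win t j) s) (fun j => by
      have := (ep_bm ht j).add ((ind_bm (win_meas t j)).constMul (-1))
      simpa [sub_eq_add_neg] using this)
    (fun j s h => by rw [ep_of_notMem h, ind_of_notMem h, sub_zero])
    (by positivity : 0 ≤ t * Real.exp t) (fun j s => ep_sub_norm ht j s) g
  have hg : 0 ≤ ‖g‖ ^ 2 := by positivity
  have ht2 : 0 ≤ t ^ 2 := by positivity
  have c3 : Real.exp t ^ 2 * ‖g‖ ^ 2 ≤ 3 * ‖g‖ ^ 2 := by gcongr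
  have c4 : (t * Real.exp t) ^ 2 * ‖g‖ ^ 2 ≤ 3 * t ^ 2 * ‖g‖ ^ 2 := by
    rw [mul_pow]
    have : t ^ 2 * Real.exp t ^ 2 ≤ 3 * t ^ 2 := by nlinarith
    gcongr
  nlinarith [mul_nonneg ht2 hg]

end Pool.Agent.Helper23

end

section

open scoped InnerProductSpace Topology ENNReal

open ContinuousLinearMap Filter MeasureTheory

namespace Pool.Agent.Helper23

variable {H : Type*} [NormedAddCommGroup H] [InnerProductSpace ℂ H] [CompleteSpace H]

variable {M N : VonNeumannAlgebra H} {ξ : H} {E : (H →L[ℂ] H) → (H →L[ℂ] H)}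

namespace BFlow

variable (S : BFlow M N E ξ)

include S

lemma bt_one {l : ℝ} (hl : 0 < l) : btU M N ξ l (1 : H →L[ℂ] H) = 1 := by
  refine (S.flow_uniq 1 AP.bicent_one 1 (one_mem M) l hl fun a _ => ?_).symm
  simp only [mul_one, one_mul, sub_self, zero_apply]
  exact tendsto_const_nhds

lemma piU_one : piU M N ξ (1 : H →L[ℂ] H) = 1 := by
  have : (fun s : ℝ => btU M N ξ (Real.exp s) (1 : H →L[ℂ] H)) = fun _ => (1 : H →L[ℂ] H) := by
    funext s
    exact S.bt_one (Real.exp_pos s)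
  rw [piU, this]
  exact lift_one

end BFlow

end Pool.Agent.Helper23

end

section

open scoped InnerProductSpace Topology

open ContinuousLinearMap Filter

namespace Pool.Agent.Helper23

universe u

variable {H : Type u} [NormedAddCommGroup H] [InnerProductSpace ℂ H] [CompleteSpace H]

variable {M N : VonNeumannAlgebra H} {ξ : H} {E : (H →L[ℂ] H) → (H →L[ℂ] H)}

lemma norm_conj_le {u x : H →L[ℂ] H} (hu : star u * u = 1) : ‖star u * x * u‖ ≤ ‖x‖ := by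
  have h1 := norm_le_one_of_isom hu
  have h2 : ‖star u‖ ≤ 1 := by rw [norm_star]; exact h1
  calc ‖star u * x * u‖ ≤ ‖star u * x‖ * ‖u‖ := norm_mul_le _ _
    _ ≤ (‖star u‖ * ‖x‖) * ‖u‖ := by gcongr; exact norm_mul_le _ _
    _ ≤ (1 * ‖x‖) * 1 := by gcongr
    _ = ‖x‖ := by ring

lemma avK_mem {x : H →L[ℂ] H} (hx : x ∈ N) {d : ℝ} {z : H →L[ℂ] H} (hz : z ∈ avK N ξ x d) :
    z ∈ N ∧ ‖z‖ ≤ ‖x‖ := by
  have hconv : Convex ℝ ({z : H →L[ℂ] H | z ∈ N} ∩ Metric.closedBall 0 ‖x‖) :=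
    (convex_vN N).inter (convex_closedBall _ _)
  have hsub : avG N ξ x d ⊆ ({z : H →L[ℂ] H | z ∈ N} ∩ Metric.closedBall 0 ‖x‖) := by
    rintro z ⟨u, hu, h1, h2, h3, rfl⟩
    refine ⟨mul_mem (mul_mem (star_mem hu) hx) hu, ?_⟩
    rw [mem_closedBall_zero_iff]
    exact norm_conj_le h1
  have := convexHull_min hsub hconv hz
  exact ⟨this.1, mem_closedBall_zero_iff.1 this.2⟩

lemma avK_conj {x z v : H →L[ℂ] H} {d e : ℝ} (hd : 0 ≤ d) (he : 0 ≤ e)
    (hz : z ∈ avK N ξ x d) (hv : v ∈ N) (h1 : star v * v = 1) (h2 : v * star v = 1)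
    (h3 : Defect N ξ 1 e v) : star v * z * v ∈ avK N ξ x (d + e) := by
  have hconv : Convex ℝ {z : H →L[ℂ] H | star v * z * v ∈ avK N ξ x (d + e)} := by
    intro a ha b hb s t hs ht hst
    have := (convex_convexHull ℝ (avG N ξ x (d + e))) ha hb hs ht hst
    change star v * (s • a + t • b) * v ∈ convexHull ℝ (avG N ξ x (d + e))
    convert this using 1
    rw [mul_add, add_mul, mul_smul_comm, mul_smul_comm, smul_mul_assoc, smul_mul_assoc]
  have hsub : avG N ξ x d ⊆ {z : H →L[ℂ] H | star v * z * v ∈ avK N ξ x (d + e)} := by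
    rintro _ ⟨u, hu, g1, g2, g3, rfl⟩
    refine subset_convexHull _ _ ⟨u * v, mul_mem hu hv, ?_, ?_, ?_, ?_⟩
    · rw [star_mul]
      calc star v * star u * (u * v) = star v * (star u * u) * v := by noncomm_ring
        _ = 1 := by rw [g1, mul_one, h1]
    · rw [star_mul]
      calc u * v * (star v * star u) = u * (v * star v) * star u := by noncomm_ring
        _ = 1 := by rw [h2, mul_one, g2]
    · have h4 := Defect.mul hu hv g3 h3 hd he
      rw [one_mul] at h4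
      refine Defect.mono (by simpa using h4) ?_
      have n1 := norm_le_one_of_isom g1
      have n2 := norm_le_one_of_isom h1
      have : e * ‖u‖ ≤ e * 1 := by gcongr
      have : d * ‖v‖ ≤ d * 1 := by gcongr
      linarith
    · rw [star_mul]
      noncomm_ring
  exact convexHull_min hsub hconv hz

lemma norm_right_defect {z v : H →L[ℂ] H} {e : ℝ} (he : 0 ≤ e) (hz : z ∈ N) (hv : v ∈ N)
    (h1 : star v * v = 1) (h2 : v * star v = 1) (h3 : Defect N ξ 1 e v) :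
    ‖z (v ξ)‖ ^ 2 ≤ ‖z ξ‖ ^ 2 + e * ‖z‖ ^ 2 := by
  have h4 := h3 (star v * (star z * z)) (mul_mem (star_mem hv) (mul_mem (star_mem hz) hz))
  have e1 : ⟪ξ, (star v * (star z * z)) (v ξ)⟫_ℂ = ((‖z (v ξ)‖ ^ 2 : ℝ) : ℂ) := by
    change ⟪ξ, (star v) ((star z) (z (v ξ)))⟫_ℂ = _
    rw [inner_star_right, inner_star_right, inner_self_eq_norm_sq_to_K]
    norm_cast
  have e2 : ⟪ξ, v ((star v * (star z * z)) ξ)⟫_ℂ = ((‖z ξ‖ ^ 2 : ℝ) : ℂ) := by
    have : v ((star v * (star z * z)) ξ) = (star z) (z ξ) :=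
      congrArg (fun T : H →L[ℂ] H => T ((star z) (z ξ))) h2
    rw [this, inner_star_right, inner_self_eq_norm_sq_to_K]
    norm_cast
  rw [e1, e2, Complex.ofReal_one, one_mul, ← Complex.ofReal_sub, Complex.norm_real,
    Real.norm_eq_abs] at h4
  have h5 : ‖star v * (star z * z)‖ ≤ ‖z‖ ^ 2 := by
    have n2 := norm_le_one_of_isom h1
    calc ‖star v * (star z * z)‖ ≤ ‖star v‖ * ‖star z * z‖ := norm_mul_le _ _
      _ ≤ 1 * (‖star z‖ * ‖z‖) := by
          gcongr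
          · rw [norm_star]; exact n2
          · exact norm_mul_le _ _
      _ = ‖z‖ ^ 2 := by rw [norm_star]; ring
  have h6 := le_of_abs_le h4
  nlinarith [mul_le_mul_of_nonneg_left h5 he]

lemma avK_state {x z : H →L[ℂ] H} (hx : x ∈ N) {d : ℝ} (hd : 0 ≤ d)
    (hz : z ∈ avK N ξ x d) : ‖⟪ξ, z ξ⟫_ℂ - ⟪ξ, x ξ⟫_ℂ‖ ≤ d * ‖x‖ := by
  have hconv : Convex ℝ {z : H →L[ℂ] H | ‖⟪ξ, z ξ⟫_ℂ - ⟪ξ, x ξ⟫_ℂ‖ ≤ d * ‖x‖} := by
    intro a ha b hb s t hs ht hst
    change ‖⟪ξ, (s • a + t • b) ξ⟫_ℂ - ⟪ξ, x ξ⟫_ℂ‖ ≤ d * ‖x‖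
    have e1 : ⟪ξ, (s • a + t • b) ξ⟫_ℂ - ⟪ξ, x ξ⟫_ℂ =
        (s : ℂ) * (⟪ξ, a ξ⟫_ℂ - ⟪ξ, x ξ⟫_ℂ) + (t : ℂ) * (⟪ξ, b ξ⟫_ℂ - ⟪ξ, x ξ⟫_ℂ) := by
      have e2 : (s • a + t • b) ξ = (s : ℂ) • a ξ + (t : ℂ) • b ξ := by
        change s • a ξ + t • b ξ = _
        rw [Complex.coe_smul, Complex.coe_smul]
      rw [e2, inner_add_right, inner_smul_right, inner_smul_right]
      have e3 : (s : ℂ) + (t : ℂ) = 1 := by rw [← Complex.ofReal_add, hst, Complex.ofReal_one]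
      linear_combination ⟪ξ, x ξ⟫_ℂ * e3
    rw [e1]
    have ha' : ‖⟪ξ, a ξ⟫_ℂ - ⟪ξ, x ξ⟫_ℂ‖ ≤ d * ‖x‖ := ha
    have hb' : ‖⟪ξ, b ξ⟫_ℂ - ⟪ξ, x ξ⟫_ℂ‖ ≤ d * ‖x‖ := hb
    calc ‖(s : ℂ) * (⟪ξ, a ξ⟫_ℂ - ⟪ξ, x ξ⟫_ℂ) + (t : ℂ) * (⟪ξ, b ξ⟫_ℂ - ⟪ξ, x ξ⟫_ℂ)‖
        ≤ ‖(s : ℂ) * (⟪ξ, a ξ⟫_ℂ - ⟪ξ, x ξ⟫_ℂ)‖ + ‖(t : ℂ) * (⟪ξ, b ξ⟫_ℂ - ⟪ξ, x ξ⟫_ℂ)‖ :=
          norm_add_le _ _
      _ ≤ s * (d * ‖x‖) + t * (d * ‖x‖) := by
          rw [norm_mul, norm_mul, Complex.norm_real, Complex.norm_real,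
            Real.norm_of_nonneg hs, Real.norm_of_nonneg ht]
          gcongr
      _ = d * ‖x‖ := by rw [← add_mul, hst, one_mul]
  have hsub : avG N ξ x d ⊆ {z : H →L[ℂ] H | ‖⟪ξ, z ξ⟫_ℂ - ⟪ξ, x ξ⟫_ℂ‖ ≤ d * ‖x‖} := by
    rintro _ ⟨u, hu, g1, g2, g3, rfl⟩
    have h1 := g3 (star u * x) (mul_mem (star_mem hu) hx)
    have e1 : u ((star u * x) ξ) = x ξ := congrArg (fun T : H →L[ℂ] H => T (x ξ)) g2
    rw [e1, Complex.ofReal_one, one_mul] at h1
    refine h1.trans ?_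
    gcongr
    calc ‖star u * x‖ ≤ ‖star u‖ * ‖x‖ := norm_mul_le _ _
      _ ≤ 1 * ‖x‖ := by gcongr; rw [norm_star]; exact norm_le_one_of_isom g1
      _ = ‖x‖ := one_mul _
  exact convexHull_min hsub hconv hz

theorem Setting.avgA (S : Setting M N E ξ) (TB : ∀ x ∈ Bicent N N ξ, ∃ c : ℂ, x = c • 1)
    {x : H →L[ℂ] H} (hx : x ∈ N) (w w' : H) {c δ : ℝ} (hδ : 0 < δ)
    (h : ∀ u ∈ N, star u * u = 1 → u * star u = 1 → Defect N ξ 1 δ u →
      c ≤ (⟪w, (star u * x * u) w'⟫_ℂ).re) :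
    c ≤ (⟪ξ, x ξ⟫_ℂ * ⟪w, w'⟫_ℂ).re := by
  -- the minimal norms converge
  have hmono : Monotone fun n => avm N ξ x (avd n) := fun n k hnk =>
    avm_anti (avd_pos k).le (avd_anti hnk)
  have hbdd : BddAbove (Set.range fun n => avm N ξ x (avd n)) :=
    ⟨‖x ξ‖, by rintro _ ⟨n, rfl⟩; exact avm_le (self_mem_avK (avd_pos n).le)⟩
  set m0 : ℝ := ⨆ n, avm N ξ x (avd n) with hm0
  have hm : Tendsto (fun n => avm N ξ x (avd n)) atTop (𝓝 m0) := tendsto_atTop_ciSup hmono hbdd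
  choose z hz hzn using fun n => avm_exists (N := N) (ξ := ξ) (x := x) (avd_pos n).le (avd_pos n)
  have hzN : ∀ n, z n ∈ N := fun n => (avK_mem hx (hz n)).1
  have hzC : ∀ n, ‖z n‖ ≤ ‖x‖ := fun n => (avK_mem hx (hz n)).2
  have hzm : Tendsto (fun n => ‖z n ξ‖) atTop (𝓝 m0) := by
    have h2 : Tendsto (fun n => avm N ξ x (avd n) + avd n) atTop (𝓝 m0) := by
      have := hm.add avd_tendsto
      rwa [add_zero] at this
    exact tendsto_of_tendsto_of_tendsto_of_le_of_le hm h2 (fun n => avm_le (hz n))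
      (fun n => (hzn n).le)
  have hzm2 : Tendsto (fun n => ‖z n ξ‖ ^ 2) atTop (𝓝 (m0 ^ 2)) := hzm.pow 2
  have hm2 : Tendsto (fun n => avm N ξ x (avd n) ^ 2) atTop (𝓝 (m0 ^ 2)) := hm.pow 2
  -- Cauchy
  have hcau : CauchySeq fun n => z n ξ := by
    rw [Metric.cauchySeq_iff']
    intro ε hε
    have h1 : ∀ᶠ n in atTop, ‖z n ξ‖ ^ 2 < m0 ^ 2 + ε ^ 2 / 16 :=
      hzm2.eventually (gt_mem_nhds (by have : 0 < ε ^ 2 / 16 := by positivity
                                       linarith))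
    have h2 : ∀ᶠ n in atTop, m0 ^ 2 - ε ^ 2 / 16 < avm N ξ x (avd n) ^ 2 :=
      hm2.eventually (lt_mem_nhds (by have : 0 < ε ^ 2 / 16 := by positivity
                                      linarith))
    obtain ⟨n0, hn0⟩ := eventually_atTop.1 (h1.and h2)
    refine ⟨n0, fun n hn => ?_⟩
    have h3 := avK_par (avK_mono (avd_anti hn) (hz n)) (hz n0)
    have h4 := (hn0 n hn).1
    have h5 := hn0 n0 le_rfl
    rw [dist_eq_norm]
    refine lt_of_pow_lt_pow_left₀ 2 hε.le ?_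
    have h6 : 0 < ε ^ 2 := by positivity
    nlinarith [h5.1, h5.2]
  obtain ⟨η, hη⟩ := cauchySeq_tendsto_of_complete hcau
  obtain ⟨y, hyN, hyη, hyC⟩ := exists_limit N S.dense_commN (norm_nonneg x) hzN hzC hη
  -- `y` is in the bicentralizer
  have hyB : y ∈ Bicent M N ξ := by
    refine S.bicent_of_unitary (S.le y hyN) fun v hv => ?_
    obtain ⟨hvN, hv1, hv2, hvD⟩ := hv
    rw [Metric.tendsto_atTop]
    intro ε hε
    have hε2 : 0 < (ε / 4) ^ 2 := by positivity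
    -- choose `n`
    have h1 : ∀ᶠ n in atTop, ‖z n ξ - η‖ < ε / 8 := by
      have := (tendsto_iff_norm_sub_tendsto_zero.1 hη).eventually
        (gt_mem_nhds (show (0 : ℝ) < ε / 8 by positivity))
      exact this
    have h2 : ∀ᶠ n in atTop, ‖z (n + 1) ξ‖ ^ 2 < m0 ^ 2 + (ε / 4) ^ 2 / 16 :=
      (hzm2.comp (tendsto_add_atTop_nat 1)).eventually (gt_mem_nhds (by linarith))
    have h3 : ∀ᶠ n in atTop, m0 ^ 2 - (ε / 4) ^ 2 / 16 < avm N ξ x (avd n) ^ 2 :=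
      hm2.eventually (lt_mem_nhds (by linarith))
    obtain ⟨n1, hn1⟩ := eventually_atTop.1 h1
    obtain ⟨n2, hn2⟩ := eventually_atTop.1 (h2.and h3)
    set n := max n1 n2 with hn
    have k1 : ‖z (n + 1) ξ - η‖ < ε / 8 := hn1 _ ((le_max_left n1 n2).trans (Nat.le_succ _))
    have k2 : ‖z (n + 1) ξ‖ ^ 2 < m0 ^ 2 + (ε / 4) ^ 2 / 16 := (hn2 n (le_max_right _ _)).1
    have k3 : m0 ^ 2 - (ε / 4) ^ 2 / 16 < avm N ξ x (avd n) ^ 2 := (hn2 n (le_max_right _ _)).2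
    -- choose the defect
    set R : ℝ := 4 * ‖x‖ ^ 2 + 1 with hR
    have hRpos : 0 < R := by positivity
    set e : ℝ := min (avd (n + 1)) ((ε / 8) ^ 2 / R) with he
    have hepos : 0 < e := lt_min (avd_pos _) (by positivity)
    have heR : e * R ≤ (ε / 8) ^ 2 := by
      have : e ≤ (ε / 8) ^ 2 / R := min_le_right _ _
      rwa [le_div_iff₀ hRpos] at this
    have hed : e ≤ avd (n + 1) := min_le_left _ _
    obtain ⟨k0, hk0⟩ := eventually_atTop.1 (hvD e hepos)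
    refine ⟨k0, fun k hk => ?_⟩
    have hDk := hk0 k hk
    rw [dist_zero_right]
    set u := v k with hu
    have hu1 : star u * u = 1 := hv1 k
    have hu2 : u * star u = 1 := hv2 k
    have huN : u ∈ N := hvN k
    set Z := z (n + 1) with hZ
    have hZN : Z ∈ N := hzN _
    -- first piece
    have p1 : ‖(y - Z) (u ξ)‖ ^ 2 ≤ (ε / 8) ^ 2 + (ε / 8) ^ 2 := by
      have q1 := norm_right_defect hepos.le (sub_mem hyN hZN) huN hu1 hu2 hDk
      have q2 : ‖y - Z‖ ^ 2 ≤ R := by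
        have : ‖y - Z‖ ≤ ‖x‖ + ‖x‖ := (norm_sub_le _ _).trans (add_le_add hyC (hzC _))
        have q3 : ‖y - Z‖ ^ 2 ≤ (‖x‖ + ‖x‖) ^ 2 := by gcongr
        rw [hR]; nlinarith
      have q4 : ‖(y - Z) ξ‖ ^ 2 ≤ (ε / 8) ^ 2 := by
        have : ‖(y - Z) ξ‖ ≤ ε / 8 := by
          rw [sub_apply, hyη, norm_sub_rev]; exact k1.le
        gcongr
      have q5 : e * ‖y - Z‖ ^ 2 ≤ e * R := by gcongr
      linarith
    have p1' : ‖(y - Z) (u ξ)‖ < ε / 4 := by
      refine lt_of_pow_lt_pow_left₀ 2 (by positivity) ?_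
      nlinarith
    -- second piece
    have p2 : ‖(star u * Z * u) ξ - Z ξ‖ ^ 2 < (ε / 4) ^ 2 := by
      have q1 : star u * Z * u ∈ avK N ξ x (avd n) := by
        have := avK_conj (avd_pos (n + 1)).le hepos.le (hz (n + 1)) huN hu1 hu2 hDk
        refine avK_mono ?_ this
        rw [← avd_succ n]; linarith
      have q2 : Z ∈ avK N ξ x (avd n) := avK_mono (avd_anti (Nat.le_succ n)) (hz (n + 1))
      have q3 := avK_par q1 q2
      have q4 : ‖(star u * Z * u) ξ‖ ^ 2 ≤ ‖Z ξ‖ ^ 2 + e * ‖Z‖ ^ 2 := by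
        have : ‖(star u * Z * u) ξ‖ = ‖Z (u ξ)‖ := by
          change ‖(star u) (Z (u ξ))‖ = _
          exact norm_of_isom (by rw [star_star]; exact hu2) _
        rw [this]
        exact norm_right_defect hepos.le hZN huN hu1 hu2 hDk
      have q5 : e * ‖Z‖ ^ 2 ≤ (ε / 8) ^ 2 / 4 := by
        have : ‖Z‖ ^ 2 ≤ ‖x‖ ^ 2 := by
          have := hzC (n + 1)
          gcongr
        have q6 : e * (4 * ‖Z‖ ^ 2) ≤ e * R := by
          gcongr
          rw [hR]; linarith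
        linarith
      nlinarith
    have p2' : ‖(star u * Z * u) ξ - Z ξ‖ < ε / 4 :=
      lt_of_pow_lt_pow_left₀ 2 (by positivity) p2
    -- assemble
    have e1 : y (u ξ) - u (y ξ) =
        (y - Z) (u ξ) + u ((star u * Z * u) ξ - Z ξ) + u (Z ξ - y ξ) := by
      have e2 : u ((star u * Z * u) ξ) = Z (u ξ) :=
        congrArg (fun T : H →L[ℂ] H => T (Z (u ξ))) hu2
      rw [map_sub, map_sub, e2, sub_apply]
      abel
    rw [e1]
    have n1 : ‖u ((star u * Z * u) ξ - Z ξ)‖ = ‖(star u * Z * u) ξ - Z ξ‖ := norm_of_isom hu1 _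
    have n2 : ‖u (Z ξ - y ξ)‖ = ‖Z ξ - y ξ‖ := norm_of_isom hu1 _
    calc ‖(y - Z) (u ξ) + u ((star u * Z * u) ξ - Z ξ) + u (Z ξ - y ξ)‖
        ≤ ‖(y - Z) (u ξ)‖ + ‖u ((star u * Z * u) ξ - Z ξ)‖ + ‖u (Z ξ - y ξ)‖ :=
          norm_add₃_le
      _ < ε / 4 + ε / 4 + ε / 8 := by
          rw [n1, n2, hyη]
          linarith
      _ < ε := by linarith
  have hyBN : y ∈ Bicent N N ξ := ⟨hyN, hyB.2⟩
  obtain ⟨c0, hc0⟩ := TB y hyBN
  -- the scalar
  have hstate : Tendsto (fun n => ⟪ξ, z n ξ⟫_ℂ) atTop (𝓝 ⟪ξ, x ξ⟫_ℂ) := by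
    rw [tendsto_iff_norm_sub_tendsto_zero]
    have h1 : Tendsto (fun n => avd n * ‖x‖) atTop (𝓝 0) := by
      have := avd_tendsto.mul_const ‖x‖
      rwa [zero_mul] at this
    exact squeeze_zero (fun n => norm_nonneg _) (fun n => avK_state hx (avd_pos n).le (hz n)) h1
  have hstate' : Tendsto (fun n => ⟪ξ, z n ξ⟫_ℂ) atTop (𝓝 ⟪ξ, η⟫_ℂ) :=
    tendsto_const_nhds.inner hη
  have hc : c0 = ⟪ξ, x ξ⟫_ℂ := by
    have h1 := tendsto_nhds_unique hstate hstate'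
    rw [h1, ← hyη, hc0]
    change c0 = ⟪ξ, c0 • ξ⟫_ℂ
    rw [inner_smul_right, S.inner_self, mul_one]
  -- strong convergence
  have hstrong : Tendsto (fun n => (z n - c0 • (1 : H →L[ℂ] H)) w') atTop (𝓝 0) := by
    refine tendsto_of_bounded N S.dense_commN (x := fun n => z n - c0 • (1 : H →L[ℂ] H))
      (C := ‖x‖ + ‖c0 • (1 : H →L[ℂ] H)‖)
      (fun n => sub_mem (hzN n) (smul_mem' _ (one_mem N)))
      (fun n => (norm_sub_le _ _).trans (by gcongr; exact hzC n)) ?_ w'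
    have h1 := hη.sub_const (c0 • ξ)
    have h2 : η - c0 • ξ = 0 := by
      rw [← hyη, hc0]
      exact sub_self _
    rw [h2] at h1
    exact h1
  have hw : Tendsto (fun n => (⟪w, z n w'⟫_ℂ).re) atTop (𝓝 (c0 * ⟪w, w'⟫_ℂ).re) := by
    have h1 : Tendsto (fun n => z n w') atTop (𝓝 (c0 • w')) := by
      have h2 := hstrong.add_const (c0 • w')
      rw [zero_add] at h2
      refine h2.congr fun n => ?_
      change z n w' - c0 • w' + c0 • w' = z n w'
      abel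
    have h3 : Tendsto (fun n => ⟪w, z n w'⟫_ℂ) atTop (𝓝 ⟪w, c0 • w'⟫_ℂ) :=
      tendsto_const_nhds.inner h1
    rw [inner_smul_right] at h3
    exact (Complex.continuous_re.tendsto _).comp h3
  rw [← hc]
  refine ge_of_tendsto hw ?_
  have h1 : ∀ᶠ n in atTop, avd n < δ := avd_tendsto.eventually (gt_mem_nhds hδ)
  filter_upwards [h1] with n hn
  exact avK_half w w' h (avK_mono hn.le (hz n))

end Pool.Agent.Helper23

end

section

open scoped InnerProductSpace Topology ENNReal BoundedContinuousFunction FourierTransform SchwartzMap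

open ContinuousLinearMap Filter MeasureTheory

namespace Pool.Agent.Helper23.ED

open Pool.Agent.Helper23 Pool.Agent.Helper23.RBF

open Pool.Agent.Helper78.BC.Transport (Sub r)

universe u

variable {H : Type*} [NormedAddCommGroup H] [InnerProductSpace ℂ H] [CompleteSpace H]

variable {M N : VonNeumannAlgebra H} {ξ : H} {E : (H →L[ℂ] H) → (H →L[ℂ] H)}

open GgB in
theorem mulOp_UV (V : ℝ → H →L[ℂ] H) {m : ℝ → ℂ} (hm : BM m) (a : ℝ) :
    mulOp H m * UV V a = UV V a * mulOp H m := by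
  ext F : 1
  change mulOp H m (lift (V a) (mulOp H (ems a) F)) = lift (V a) (mulOp H (ems a) (mulOp H m F))
  rw [mulOp_lift hm, mulOp_mulOp hm (ems_bm a), mulOp_mulOp (ems_bm a) hm]
  congr 3
  funext s
  ring

end Pool.Agent.Helper23.ED

end
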