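import Pool.Agent.Helper23.FA.Ns
import Pool.Agent.Helper23.FA.L01_01
import Pool.Agent.Helper23.FA.L01_03
import Pool.Agent.Helper23.FA.L01_05
import Pool.Agent.Helper23.FA.L01_07
import Pool.Agent.Helper23.FA.L01_15
import Pool.Agent.Helper23.FA.L01_17
import Pool.Agent.Helper23.FA.L01_18

/-!
Parts of Helper78.USlices0, Helper95.UKap, Helper5.PU.SeqSurj, Helper23.UOc2, Helper88.CS.Hull
-/

section

open scoped InnerProductSpace Topology BoundedContinuousFunction

open ContinuousLinearMap Filter MeasureTheory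

namespace Pool.Agent.Helper23

variable {H : Type*} [NormedAddCommGroup H] [InnerProductSpace ℂ H] [CompleteSpace H]

variable {M N : VonNeumannAlgebra H} {ξ : H} {E : (H →L[ℂ] H) → (H →L[ℂ] H)}

namespace U14

/-- commutation with the fields of all elements of `N` -/
lemma comm_fld {R : H →L[ℂ] H} {D : H →L[ℝ] H} {Ψ : (ℝ →ᵇ ℂ) →⋆ₐ[ℂ] (H →L[ℂ] H)}
    (hΨ : Modular M ξ R D Ψ)
    (hGK : ∀ u ∈ N, star u * u = 1 → u * star u = 1 → fco (fld Ψ u) ∈ GK N ξ)
    {X : L2R H →L[ℂ] L2R H} (hX : X ∈ Rk M N ξ) {a : H →L[ℂ] H} (ha : a ∈ N) :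
    fco (fld Ψ a) * X = X * fco (fld Ψ a) := by
  have hadd : ∀ b c : H →L[ℂ] H, fco (fld Ψ (b + c)) = fco (fld Ψ b) + fco (fld Ψ c) := by
    intro b c
    rw [fld_add, fco_add (fld_dec hΨ b) (fld_dec hΨ c)]
  have hsmul : ∀ (c : ℂ) (b : H →L[ℂ] H), fco (fld Ψ (c • b)) = c • fco (fld Ψ b) := by
    intro c b
    rw [fld_smul, fco_smul c (fld_dec hΨ b)]
  obtain ⟨u, k, hk, -⟩ := CStarAlgebra.exists_sum_four_unitary (⟨a, ha⟩ : N.toStarSubalgebra)
  have ha' : a = ∑ i, k i • ((u i : N.toStarSubalgebra) : H →L[ℂ] H) := by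
    have := congrArg (fun z : N.toStarSubalgebra => (z : H →L[ℂ] H)) hk
    simpa using this
  have hl : fco (fld Ψ a) = ∑ i, k i • fco (fld Ψ ((u i : N.toStarSubalgebra) : H →L[ℂ] H)) := by
    rw [ha', Fin.sum_univ_four, Fin.sum_univ_four, hadd, hadd, hadd, hsmul, hsmul, hsmul, hsmul]
  rw [hl, Finset.sum_mul, Finset.mul_sum]
  refine Finset.sum_congr rfl fun i _ => ?_
  rw [smul_mul_assoc, mul_smul_comm, hX.2]
  refine hGK _ (u i : N.toStarSubalgebra).2 ?_ ?_
  · have := Unitary.star_mul_self_of_mem (u i).2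
    exact congrArg (fun z : N.toStarSubalgebra => (z : H →L[ℂ] H)) this
  · have := Unitary.mul_star_self_of_mem (u i).2
    exact congrArg (fun z : N.toStarSubalgebra => (z : H →L[ℂ] H)) this

end U14

end Pool.Agent.Helper23

end

section

open scoped InnerProductSpace Topology BoundedContinuousFunction

open ContinuousLinearMap Filter

namespace Pool.Agent.Helper23

universe u

variable {K : Type u} [NormedAddCommGroup K] [InnerProductSpace ℂ K] [CompleteSpace K]

section density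

variable (A : StarSubalgebra ℂ (K →L[ℂ] K))

/-- Double commutant theorem: elements of the bicommutant are approximated on finitely many
vectors. -/
theorem exists_alg_near {ι : Type*} [Fintype ι] [DecidableEq ι] (η : ι → K) {c : K →L[ℂ] K}
    (hc : c ∈ genVN (A : Set (K →L[ℂ] K))) {ε : ℝ} (hε : 0 < ε) :
    ∃ a ∈ A, ∀ i, ‖a (η i) - c (η i)‖ < ε := by
  set vec : PiLp 2 (fun _ : ι => K) := WithLp.toLp 2 η with hvec
  let L : (K →L[ℂ] K) →ₗ[ℂ] PiLp 2 (fun _ : ι => K) :=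
    { toFun := fun a => diag ι a vec
      map_add' := by
        intro a b
        ext i
        rfl
      map_smul' := by
        intro c a
        ext i
        rfl }
  have hL : ∀ a, L a = diag ι a vec := fun a => rfl
  set V := (A.toSubalgebra.toSubmodule.map L).topologicalClosure with hV
  set P := V.starProjection with hP
  -- invariance
  have hinv : ∀ b ∈ A, ∀ x ∈ V, diag ι b x ∈ V := by
    intro b hb x hx
    have h1 : ((A.toSubalgebra.toSubmodule.map L : Submodule ℂ _) :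
        Set (PiLp 2 (fun _ : ι => K))) ⊆ (diag ι b) ⁻¹' (V : Set _) := by
      rintro _ ⟨a, ha, rfl⟩
      refine Submodule.le_topologicalClosure _ ⟨b * a, A.mul_mem hb ha, ?_⟩
      rw [hL, hL]
      ext i
      rfl
    exact closure_minimal h1 ((Submodule.isClosed_topologicalClosure _).preimage
      (diag ι b).continuous) hx
  have hinv' : ∀ b ∈ A, ∀ x ∈ Vᗮ, diag ι b x ∈ Vᗮ := by
    intro b hb x hx
    rw [Submodule.mem_orthogonal] at hx ⊢
    intro u hu
    have := hx _ (hinv _ (star_mem hb) u hu)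
    rw [inner_diag, star_star] at this
    exact this
  have hcomm : ∀ b ∈ A, ∀ x, P (diag ι b x) = diag ι b (P x) := by
    intro b hb x
    refine Submodule.eq_starProjection_of_mem_orthogonal (K := V) ?_ ?_
    · exact hinv b hb _ (Submodule.starProjection_apply_mem V x)
    · rw [← map_sub]
      exact hinv' b hb _ (Submodule.sub_starProjection_mem_orthogonal x)
  -- entries
  let T : ι → ι → (K →L[ℂ] K) := fun i j =>
    (PiLp.proj 2 (fun _ : ι => K) i).comp (P.comp (sing ι j))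
  have hTmem : ∀ i j, ∀ b ∈ A, b * T i j = T i j * b := by
    intro i j b hb
    ext h
    change b (P (sing ι j h) i) = P (sing ι j (b h)) i
    rw [← diag_sing, hcomm b hb]
    rfl
  have hcT : ∀ i j h, c (T i j h) = T i j (c h) := by
    intro i j h
    have hcmem : c ∈ StarSubalgebra.centralizer ℂ
        ((StarSubalgebra.centralizer ℂ (A : Set (K →L[ℂ] K)) :
          StarSubalgebra ℂ (K →L[ℂ] K)) : Set (K →L[ℂ] K)) := hc
    have hTc : T i j ∈ StarSubalgebra.centralizer ℂ (A : Set (K →L[ℂ] K)) := by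
      rw [StarSubalgebra.mem_centralizer_iff]
      intro b hb
      exact ⟨hTmem i j b hb, hTmem i j (star b) (star_mem hb)⟩
    rw [StarSubalgebra.mem_centralizer_iff] at hcmem
    have h3 := (hcmem _ hTc).1
    exact (congrArg (fun X : K →L[ℂ] K => X h) h3).symm
  have hcommc : ∀ x, P (diag ι c x) = diag ι c (P x) := by
    intro x
    have hx := sum_sing x
    have h1 : diag ι c x = ∑ j, sing ι j (c (x j)) := by
      conv_lhs => rw [hx]
      rw [map_sum]
      exact Finset.sum_congr rfl fun j _ => diag_sing _ _ _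
    have h2 : P (diag ι c x) = ∑ j, P (sing ι j (c (x j))) := by rw [h1, map_sum]
    have h3 : P x = ∑ j, P (sing ι j (x j)) := by
      conv_lhs => rw [hx]
      rw [map_sum]
    rw [h2, h3, map_sum]
    refine Finset.sum_congr rfl fun j _ => ?_
    ext i
    rw [diag_apply]
    change T i j (c (x j)) = c (T i j (x j))
    exact (hcT i j _).symm
  have hvecV : vec ∈ V := by
    refine Submodule.le_topologicalClosure _ ⟨1, A.one_mem, ?_⟩
    rw [hL]
    ext i
    rfl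
  have hcvec : diag ι c vec ∈ V := by
    have h1 : P vec = vec := Submodule.starProjection_eq_self_iff.2 hvecV
    rw [← h1, ← hcommc]
    exact Submodule.starProjection_apply_mem V _
  have hcl : diag ι c vec ∈ closure ((A.toSubalgebra.toSubmodule.map L : Submodule ℂ _) :
      Set (PiLp 2 (fun _ : ι => K))) := hcvec
  obtain ⟨_, ⟨a, ha, rfl⟩, hdist⟩ := Metric.mem_closure_iff.1 hcl ε hε
  refine ⟨a, ha, fun i => ?_⟩
  rw [dist_eq_norm] at hdist
  have h4 : ‖(diag ι c vec - L a) i‖ ≤ ‖diag ι c vec - L a‖ := PiLp.norm_apply_le _ i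
  have h5 : (diag ι c vec - L a) i = c (η i) - a (η i) := rfl
  rw [h5, norm_sub_rev] at h4
  exact lt_of_le_of_lt h4 hdist

variable {A}

/-- a pair of vector functionals vanishing on the algebra vanishes on the bicommutant -/
lemma functional_zero {v₁ v₂ y₁ y₂ : K}
    (h : ∀ X ∈ A, ⟪y₁, X v₁⟫_ℂ + ⟪y₂, X v₂⟫_ℂ + (⟪v₁, X y₁⟫_ℂ + ⟪v₂, X y₂⟫_ℂ) = 0)
    {c : K →L[ℂ] K} (hc : c ∈ genVN (A : Set (K →L[ℂ] K))) :
    ⟪y₁, c v₁⟫_ℂ + ⟪y₂, c v₂⟫_ℂ + (⟪v₁, c y₁⟫_ℂ + ⟪v₂, c y₂⟫_ℂ) = 0 := by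
  set D := ⟪y₁, c v₁⟫_ℂ + ⟪y₂, c v₂⟫_ℂ + (⟪v₁, c y₁⟫_ℂ + ⟪v₂, c y₂⟫_ℂ) with hD
  set M := ‖y₁‖ + ‖y₂‖ + (‖v₁‖ + ‖v₂‖) with hM
  have hM0 : 0 ≤ M := by positivity
  have hle : ∀ ε : ℝ, 0 < ε → ‖D‖ ≤ M * ε := by
    intro ε hε
    obtain ⟨a, ha, hn⟩ := exists_alg_near A (ι := Fin 4) ![v₁, v₂, y₁, y₂] hc hε
    have n0 : ‖c v₁ - a v₁‖ ≤ ε := by rw [norm_sub_rev]; exact (hn 0).le
    have n1 : ‖c v₂ - a v₂‖ ≤ ε := by rw [norm_sub_rev]; exact (hn 1).le
    have n2 : ‖c y₁ - a y₁‖ ≤ ε := by rw [norm_sub_rev]; exact (hn 2).le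
    have n3 : ‖c y₂ - a y₂‖ ≤ ε := by rw [norm_sub_rev]; exact (hn 3).le
    have hDa : D = ⟪y₁, c v₁ - a v₁⟫_ℂ + ⟪y₂, c v₂ - a v₂⟫_ℂ +
        (⟪v₁, c y₁ - a y₁⟫_ℂ + ⟪v₂, c y₂ - a y₂⟫_ℂ) := by
      simp only [inner_sub_right]
      have := h a ha
      rw [hD]
      linear_combination this
    rw [hDa]
    have b0 := (norm_inner_le_norm (𝕜 := ℂ) y₁ (c v₁ - a v₁)).trans
      (mul_le_mul_of_nonneg_left n0 (norm_nonneg _))
    have b1 := (norm_inner_le_norm (𝕜 := ℂ) y₂ (c v₂ - a v₂)).trans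
      (mul_le_mul_of_nonneg_left n1 (norm_nonneg _))
    have b2 := (norm_inner_le_norm (𝕜 := ℂ) v₁ (c y₁ - a y₁)).trans
      (mul_le_mul_of_nonneg_left n2 (norm_nonneg _))
    have b3 := (norm_inner_le_norm (𝕜 := ℂ) v₂ (c y₂ - a y₂)).trans
      (mul_le_mul_of_nonneg_left n3 (norm_nonneg _))
    refine (norm_add_le _ _).trans ?_
    have c0 := norm_add_le ⟪y₁, c v₁ - a v₁⟫_ℂ ⟪y₂, c v₂ - a v₂⟫_ℂ
    have c1 := norm_add_le ⟪v₁, c y₁ - a y₁⟫_ℂ ⟪v₂, c y₂ - a y₂⟫_ℂ
    rw [hM]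
    nlinarith
  by_contra hne
  have hpos : 0 < ‖D‖ := norm_pos_iff.2 hne
  have h1 := hle (‖D‖ / (2 * (M + 1))) (by positivity)
  have h2 : M * (‖D‖ / (2 * (M + 1))) < ‖D‖ := by
    rw [mul_div_assoc', div_lt_iff₀ (by positivity)]
    nlinarith
  linarith

/-- self-adjoint elements of the bicommutant are approximated by self-adjoint elements of the
algebra, on two vectors -/
theorem exists_sa_near {S : K →L[ℂ] K} (hS : star S = S)
    (hSA : S ∈ genVN (A : Set (K →L[ℂ] K))) (v₁ v₂ : K) {ε : ℝ} (hε : 0 < ε) :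
    ∃ B ∈ A, star B = B ∧ ‖(B - S) v₁‖ < ε ∧ ‖(B - S) v₂‖ < ε := by
  set vec : PiLp 2 (fun _ : Fin 2 => K) := WithLp.toLp 2 ![v₁, v₂] with hvec
  let iR : InnerProductSpace ℝ (PiLp 2 (fun _ : Fin 2 => K)) :=
    InnerProductSpace.rclikeToReal ℂ (PiLp 2 (fun _ : Fin 2 => K))
  have hre : ∀ x y : PiLp 2 (fun _ : Fin 2 => K),
      iR.toInner.inner x y = (⟪x 0, y 0⟫_ℂ + ⟪x 1, y 1⟫_ℂ).re := by
    intro x y
    have h1 : iR.toInner.inner x y = (⟪x, y⟫_ℂ).re := rfl
    rw [h1, PiLp.inner_apply, Fin.sum_univ_two]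
  let V : Submodule ℝ (PiLp 2 (fun _ : Fin 2 => K)) :=
    { carrier := {x | ∃ B ∈ A, star B = B ∧ diag (Fin 2) B vec = x}
      add_mem' := by
        rintro _ _ ⟨B, hB, hB', rfl⟩ ⟨C, hC, hC', rfl⟩
        refine ⟨B + C, A.add_mem hB hC, by rw [star_add, hB', hC'], ?_⟩
        ext i; rfl
      zero_mem' := by
        refine ⟨0, A.zero_mem, star_zero _, ?_⟩
        ext i; rfl
      smul_mem' := by
        rintro c _ ⟨B, hB, hB', rfl⟩
        refine ⟨(c : ℂ) • B, A.smul_mem hB _, ?_, ?_⟩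
        · rw [star_smul, hB']; simp
        · ext i; rfl }
  have horth : ∀ y ∈ Vᗮ, iR.toInner.inner (diag (Fin 2) S vec) y = 0 := by
    intro y hy
    set y₁ : K := y 0 with hy₁
    set y₂ : K := y 1 with hy₂
    have hfun : ∀ B : K →L[ℂ] K, iR.toInner.inner (diag (Fin 2) B vec) y =
        (⟪B v₁, y₁⟫_ℂ + ⟪B v₂, y₂⟫_ℂ).re := fun B => hre _ _
    have hre2 : ∀ B : K →L[ℂ] K, star B = B →
        ⟪y₁, B v₁⟫_ℂ + ⟪y₂, B v₂⟫_ℂ + (⟪v₁, B y₁⟫_ℂ + ⟪v₂, B y₂⟫_ℂ) =
          ((2 * (⟪B v₁, y₁⟫_ℂ + ⟪B v₂, y₂⟫_ℂ).re : ℝ) : ℂ) := by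
      intro B hB
      rw [← kap_sa hB v₁ y₁, ← kap_sa hB v₂ y₂]
      have e1 := inner_conj_symm (𝕜 := ℂ) y₁ (B v₁)
      have e2 := inner_conj_symm (𝕜 := ℂ) y₂ (B v₂)
      rw [← e1, ← e2]
      have e3 := Complex.add_conj (⟪B v₁, y₁⟫_ℂ + ⟪B v₂, y₂⟫_ℂ)
      rw [map_add] at e3
      rw [← e3]
      ring
    have hsa : ∀ B ∈ A, star B = B →
        ⟪y₁, B v₁⟫_ℂ + ⟪y₂, B v₂⟫_ℂ + (⟪v₁, B y₁⟫_ℂ + ⟪v₂, B y₂⟫_ℂ) = 0 := by
      intro B hB hB'
      have h1 : iR.toInner.inner (diag (Fin 2) B vec) y = 0 :=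
        (Submodule.mem_orthogonal V y).1 hy _ ⟨B, hB, hB', rfl⟩
      rw [hre2 B hB', ← hfun, h1]
      simp
    have hall : ∀ X ∈ A,
        ⟪y₁, X v₁⟫_ℂ + ⟪y₂, X v₂⟫_ℂ + (⟪v₁, X y₁⟫_ℂ + ⟪v₂, X y₂⟫_ℂ) = 0 := by
      intro X hX
      set B : K →L[ℂ] K := X + star X with hBdef
      set C : K →L[ℂ] K := Complex.I • (star X - X) with hCdef
      have hX' : star X ∈ A := star_mem hX
      have hB := hsa B (add_mem hX hX') (by rw [hBdef, star_add, star_star, add_comm])
      have hC := hsa C (A.smul_mem (sub_mem hX' hX) _) (by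
        rw [hCdef, star_smul, star_sub, star_star, ← neg_sub (star X) X, smul_neg, ← neg_smul]
        congr 1
        simp)
      have hXe : ∀ w, X w = (1 / 2 : ℂ) • B w + (Complex.I / 2) • C w := by
        intro w
        change X w = (1 / 2 : ℂ) • (X w + star X w) +
          (Complex.I / 2) • (Complex.I • (star X w - X w))
        rw [smul_smul]
        have : Complex.I / 2 * Complex.I = -(1 / 2 : ℂ) := by
          rw [div_mul_eq_mul_div, Complex.I_mul_I]; norm_num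
        rw [this]
        module
      simp only [hXe, inner_add_right, inner_smul_right]
      linear_combination (1 / 2 : ℂ) * hB + (Complex.I / 2) * hC
    have hSz := functional_zero hall hSA
    rw [hre2 S hS, ← hfun] at hSz
    have h4 := Complex.ofReal_eq_zero.1 hSz
    linarith
  have hmem : diag (Fin 2) S vec ∈ V.topologicalClosure := by
    rw [← Submodule.orthogonal_orthogonal_eq_closure, Submodule.mem_orthogonal]
    intro y hy
    rw [real_inner_comm]
    exact horth y hy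
  have hcl : diag (Fin 2) S vec ∈ closure (V : Set (PiLp 2 (fun _ : Fin 2 => K))) := hmem
  obtain ⟨_, ⟨B, hB, hB', rfl⟩, hdist⟩ := Metric.mem_closure_iff.1 hcl ε hε
  rw [dist_eq_norm, norm_sub_rev] at hdist
  have hi : ∀ i : Fin 2, ‖(diag (Fin 2) B vec - diag (Fin 2) S vec) i‖ < ε := fun i =>
    lt_of_le_of_lt (PiLp.norm_apply_le _ i) hdist
  exact ⟨B, hB, hB', hi 0, hi 1⟩

end density

/-- approximation of self-adjoint contractions in the bicommutant -/
theorem kaplansky (A : StarSubalgebra ℂ (K →L[ℂ] K)) {T : K →L[ℂ] K} (hT : star T = T)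
    (hT1 : ‖T‖ ≤ 1) (hTA : T ∈ genVN (A : Set (K →L[ℂ] K))) (v : K) {ε : ℝ} (hε : 0 < ε) :
    ∃ B ∈ A, star B = B ∧ ‖kap2 B v - T v‖ < ε := by
  have hTsa : IsSelfAdjoint T := hT
  set S := cfc kapg T with hSdef
  have hS : star S = S := cfc_predicate kapg T
  have hST : (2 : ℂ) • S = T * (1 + S * S) := by
    have e1 : (2 : ℂ) • S = cfc (fun s => 2 * kapg s) T := by
      rw [cfc_const_mul (2 : ℝ) kapg T kapg_cont.continuousOn]
      exact (two_smul ℂ S).trans (two_smul ℝ S).symm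
    have e2 : T * (1 + S * S) = cfc (fun s => s * (1 + kapg s ^ 2)) T := by
      have c1 : ContinuousOn (fun s => 1 + kapg s ^ 2) (spectrum ℝ T) :=
        (continuous_const.add (kapg_cont.pow 2)).continuousOn
      have c2 : ContinuousOn (fun s => kapg s ^ 2) (spectrum ℝ T) :=
        (kapg_cont.pow 2).continuousOn
      rw [cfc_mul (fun s => s) (fun s => 1 + kapg s ^ 2) T continuousOn_id c1, cfc_id' ℝ T,
        cfc_add T (fun _ => (1 : ℝ)) (fun s => kapg s ^ 2) continuousOn_const c2,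
        cfc_const_one ℝ T, cfc_pow kapg 2 T kapg_cont.continuousOn, pow_two]
    rw [e1, e2]
    exact cfc_congr fun s hs => kapg_spec (spec_abs_le hT1 hs)
  have hkS : kap2 S = T := by
    have h1 := Ring.mul_inverse_cancel _ (kap_isUnit hS)
    calc kap2 S = ((2 : ℂ) • S) * Ring.inverse (1 + S * S) := by
          rw [kap2, smul_mul_assoc]
      _ = T := by rw [hST, mul_assoc, h1, mul_one]
  have hSA : S ∈ genVN (A : Set (K →L[ℂ] K)) := by
    have hTm : T ∈ StarSubalgebra.centralizer ℂ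
        ((StarSubalgebra.centralizer ℂ (A : Set (K →L[ℂ] K)) :
          StarSubalgebra ℂ (K →L[ℂ] K)) : Set (K →L[ℂ] K)) := hTA
    rw [StarSubalgebra.mem_centralizer_iff] at hTm
    change S ∈ StarSubalgebra.centralizer ℂ
        ((StarSubalgebra.centralizer ℂ (A : Set (K →L[ℂ] K)) :
          StarSubalgebra ℂ (K →L[ℂ] K)) : Set (K →L[ℂ] K))
    rw [StarSubalgebra.mem_centralizer_iff]
    intro c hc
    have h1 : Commute T c := (hTm c hc).1.symm
    have h2 : Commute T (star c) := (hTm c hc).2.symm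
    exact ⟨(h1.cfc_real kapg).symm, (h2.cfc_real kapg).symm⟩
  obtain ⟨B, hB, hB', h1, h2⟩ := exists_sa_near (A := A) hS hSA
    (Ring.inverse (1 + S * S) v) (kap2 S v) (ε := ε / 4) (by positivity)
  refine ⟨B, hB, hB', ?_⟩
  have h3 := kap2_diff hB' hS v
  rw [hkS] at h3
  rw [hkS] at h2
  linarith

end Pool.Agent.Helper23

end

section

open scoped InnerProductSpace Topology

open ContinuousLinearMap Filter

namespace Pool.Agent.Helper23

universe u

variable {H : Type u} [NormedAddCommGroup H] [InnerProductSpace ℂ H] [CompleteSpace H]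

variable {K : Type u} [NormedAddCommGroup K] [InnerProductSpace ℂ K] [CompleteSpace K]

variable {A : VonNeumannAlgebra H} {P : Set (ℕ → H →L[ℂ] H)} {ξ : H} {ζ : K}
  {rep : (ℕ → H →L[ℂ] H) → (K →L[ℂ] K)}

theorem SeqRep.surj_sa (h : SeqRep A P ξ ζ rep)
    (hsep : ∀ T ∈ genVN (rep '' P), T ζ = 0 → T = 0)
    {T : K →L[ℂ] K} (hT : T ∈ genVN (rep '' P)) (hTs : star T = T) (hT1 : ‖T‖ ≤ 1) :
    ∃ x ∈ P, (∀ n, ‖x n‖ ≤ 1) ∧ rep x = T := by
  have hk : ∀ k : ℕ, ∃ x ∈ P, (∀ n, star (x n) = x n) ∧ (∀ n, ‖x n‖ ≤ 1) ∧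
      ‖rep x ζ - T ζ‖ < (1 / 2 : ℝ) ^ k := by
    intro k
    obtain ⟨B, hBm, hBs, hB⟩ := kaplansky h.alg hTs hT1 hT ζ (ε := (1 / 2 : ℝ) ^ k)
      (by positivity)
    obtain ⟨b, hb, rfl⟩ : B ∈ rep '' P := hBm
    have h1 := h.add b hb _ (h.star_mem b hb).1
    have h2 := h.smul (1 / 2 : ℂ) _ h1.1
    rw [h1.2, (h.star_mem b hb).2, hBs, ← two_smul ℂ (rep b), smul_smul] at h2
    have e : (1 / 2 : ℂ) * 2 = 1 := by norm_num
    rw [e, one_smul] at h2
    have hs : ∀ n, star ((1 / 2 : ℂ) • (b n + star (b n))) = (1 / 2 : ℂ) • (b n + star (b n)) := by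
      intro n
      rw [star_smul, star_add, star_star, add_comm (star (b n))]
      congr 1
      simp
    have h3 := h.kap h2.1 hs
    rw [h2.2] at h3
    refine ⟨_, h3.1, fun n => kap2_star (hs n), fun n => kap2_norm (hs n), ?_⟩
    rw [h3.2]
    exact hB
  choose x hxP hxs hx1 hxT using hk
  have hd : ∀ k, ∀ᶠ n in (UU : Filter ℕ), ‖(x k n - x (k + 1) n) ξ‖ < 2 * (1 / 2 : ℝ) ^ k := by
    intro k
    have h1 := h.sub_mem (hxP k) (hxP (k + 1))
    have h2 := h.norm _ h1.1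
    rw [h1.2] at h2
    refine h2.eventually_lt_const ?_
    have e : (rep (x k) - rep (x (k + 1))) ζ = (rep (x k) ζ - T ζ) - (rep (x (k + 1)) ζ - T ζ) := by
      rw [sub_apply]; abel
    rw [e]
    refine (norm_sub_le _ _).trans_lt ?_
    have h3 := hxT k
    have h4 := hxT (k + 1)
    rw [pow_succ] at h4
    have : 0 < (1 / 2 : ℝ) ^ k := by positivity
    linarith
  let Q : ℕ → ℕ → Prop := fun n k => k ≤ n ∧
    ∀ j < k, ‖(x j n - x (j + 1) n) ξ‖ < 2 * (1 / 2 : ℝ) ^ j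
  have hQ0 : ∀ n, Q n 0 := fun n => ⟨Nat.zero_le _, fun j hj => absurd hj (Nat.not_lt_zero _)⟩
  have hQU : ∀ k, ∀ᶠ n in (UU : Filter ℕ), Q n k := by
    intro k
    have h1 : ∀ᶠ n in (UU : Filter ℕ), k ≤ n := by
      have h2 : (UU : Filter ℕ) ≤ atTop := by
        rw [← Nat.cofinite_eq_atTop]
        exact Filter.hyperfilter_le_cofinite
      exact h2 (eventually_ge_atTop k)
    have h3 : ∀ᶠ n in (UU : Filter ℕ), ∀ j ∈ Finset.range k,
        ‖(x j n - x (j + 1) n) ξ‖ < 2 * (1 / 2 : ℝ) ^ j :=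
      (Filter.eventually_all_finset _).2 fun j _ => hd j
    filter_upwards [h1, h3] with n hn1 hn3
    exact ⟨hn1, fun j hj => hn3 j (Finset.mem_range.2 hj)⟩
  classical
  let κ : ℕ → ℕ := fun n => Nat.findGreatest (Q n) n
  have hκ : ∀ n, Q n (κ n) := fun n => Nat.findGreatest_spec (Nat.zero_le n) (hQ0 n)
  have hκ2 : ∀ n k, Q n k → k ≤ κ n := fun n k hk => Nat.le_findGreatest hk.1 hk
  have htel : ∀ n k m, k ≤ m → (∀ j < m, ‖(x j n - x (j + 1) n) ξ‖ < 2 * (1 / 2 : ℝ) ^ j) →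
      ‖(x m n - x k n) ξ‖ ≤ 4 * (1 / 2 : ℝ) ^ k - 4 * (1 / 2 : ℝ) ^ m := by
    intro n k m hkm
    induction m, hkm using Nat.le_induction with
    | base => intro _; simp
    | succ m hm ih =>
      intro hj
      have h1 := ih fun j hj' => hj j (by omega)
      have h2 := hj m (by omega)
      have e : (x (m + 1) n - x k n) ξ = (x m n - x k n) ξ - (x m n - x (m + 1) n) ξ := by
        simp only [sub_apply]; abel
      rw [e]
      refine (norm_sub_le _ _).trans ?_
      rw [pow_succ]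
      linarith
  let y : ℕ → H →L[ℂ] H := fun n => x (κ n) n
  have hy1 : ∀ n, ‖y n‖ ≤ 1 := fun n => hx1 _ n
  have hys : ∀ n, star (y n) = y n := fun n => hxs _ n
  have happ : ∀ k, ∀ᶠ n in (UU : Filter ℕ), ‖(y n - x k n) ξ‖ ≤ 4 * (1 / 2 : ℝ) ^ k := by
    intro k
    filter_upwards [hQU k] with n hn
    have h1 := htel n k (κ n) (hκ2 n k hn) (hκ n).2
    have : 0 < (1 / 2 : ℝ) ^ (κ n) := by positivity
    linarith
  have hyP : y ∈ P := by
    refine h.closed y (fun n => h.memA _ (hxP _) n) ⟨1, hy1⟩ fun ε hε => ?_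
    obtain ⟨k, hk⟩ := exists_pow_lt_of_lt_one (show 0 < ε / 4 by positivity)
      (show (1 / 2 : ℝ) < 1 by norm_num)
    refine ⟨x k, hxP k, ?_⟩
    filter_upwards [happ k] with n hn
    rw [hys n, hxs k n, ← sub_apply]
    have : 4 * (1 / 2 : ℝ) ^ k ≤ ε := by linarith
    exact ⟨hn.trans this, hn.trans this⟩
  refine ⟨y, hyP, hy1, ?_⟩
  have hζ : rep y ζ = T ζ := by
    rw [← sub_eq_zero, ← norm_le_zero_iff]
    refine le_of_forall_pos_le_add fun ε hε => ?_
    obtain ⟨k, hk⟩ := exists_pow_lt_of_lt_one (show 0 < ε / 5 by positivity)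
      (show (1 / 2 : ℝ) < 1 by norm_num)
    have h1 := h.sub_mem hyP (hxP k)
    have h2 := h.norm _ h1.1
    have h3 : ‖rep (fun n => y n - x k n) ζ‖ ≤ 4 * (1 / 2 : ℝ) ^ k :=
      le_of_tendsto h2 (happ k)
    rw [h1.2] at h3
    have e : rep y ζ - T ζ = (rep y - rep (x k)) ζ + (rep (x k) ζ - T ζ) := by
      rw [sub_apply]; abel
    rw [e]
    refine (norm_add_le _ _).trans ?_
    have := hxT k
    linarith
  have h5 : rep y - T ∈ genVN (rep '' P) := _root_.sub_mem (subset_genVN _ ⟨y, hyP, rfl⟩) hT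
  have h6 := hsep _ h5 (by rw [sub_apply, hζ, sub_self])
  exact sub_eq_zero.1 h6

theorem SeqRep.surj (h : SeqRep A P ξ ζ rep)
    (hsep : ∀ T ∈ genVN (rep '' P), T ζ = 0 → T = 0)
    {T : K →L[ℂ] K} (hT : T ∈ genVN (rep '' P)) :
    ∃ x ∈ P, (∀ n, ‖x n‖ ≤ 2 * ‖T‖) ∧ rep x = T := by
  by_cases h0 : ‖T‖ = 0
  · have h1 := h.smul 0 _ h.one.1
    refine ⟨_, h1.1, fun n => ?_, ?_⟩
    · rw [h0, zero_smul, norm_zero, mul_zero]
    · rw [h1.2, zero_smul]
      exact (norm_eq_zero.1 h0).symm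
  have hpos : 0 < ‖T‖ := lt_of_le_of_ne (norm_nonneg _) (Ne.symm h0)
  have hTst : star T ∈ genVN (rep '' P) := StarMemClass.star_mem hT
  let T1 : K →L[ℂ] K := ((1 / (2 * ‖T‖) : ℝ) : ℂ) • (T + star T)
  let T2 : K →L[ℂ] K := (-Complex.I * ((1 / (2 * ‖T‖) : ℝ) : ℂ)) • (T - star T)
  have hT1m : T1 ∈ genVN (rep '' P) := smul_mem' _ (add_mem hT hTst)
  have hT2m : T2 ∈ genVN (rep '' P) := smul_mem' _ (_root_.sub_mem hT hTst)
  have hT1s : star T1 = T1 := by
    change star (((1 / (2 * ‖T‖) : ℝ) : ℂ) • (T + star T)) = _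
    rw [star_smul, star_add, star_star, add_comm (star T)]
    congr 1
    exact Complex.conj_ofReal _
  have hT2s : star T2 = T2 := by
    change star ((-Complex.I * ((1 / (2 * ‖T‖) : ℝ) : ℂ)) • (T - star T)) = _
    rw [star_smul, star_sub, star_star, ← neg_sub T (star T), smul_neg, ← neg_smul]
    congr 1
    have e : star (-Complex.I * ((1 / (2 * ‖T‖) : ℝ) : ℂ)) =
        Complex.I * ((1 / (2 * ‖T‖) : ℝ) : ℂ) := by
      rw [star_mul, star_neg]
      change (starRingEnd ℂ) _ * -(starRingEnd ℂ) Complex.I = _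
      rw [Complex.conj_ofReal, Complex.conj_I]
      ring
    rw [e]
    ring
  have hn1 : ‖T1‖ ≤ 1 := by
    change ‖((1 / (2 * ‖T‖) : ℝ) : ℂ) • (T + star T)‖ ≤ 1
    rw [norm_smul, Complex.norm_real, Real.norm_of_nonneg (by positivity)]
    have : ‖T + star T‖ ≤ 2 * ‖T‖ := by
      refine (norm_add_le _ _).trans ?_
      rw [norm_star]; linarith
    rw [one_div_mul_eq_div, div_le_one (by positivity)]
    exact this
  have hn2 : ‖T2‖ ≤ 1 := by
    change ‖(-Complex.I * ((1 / (2 * ‖T‖) : ℝ) : ℂ)) • (T - star T)‖ ≤ 1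
    rw [norm_smul, norm_mul, norm_neg, Complex.norm_I, one_mul, Complex.norm_real,
      Real.norm_of_nonneg (by positivity)]
    have : ‖T - star T‖ ≤ 2 * ‖T‖ := by
      refine (norm_sub_le _ _).trans ?_
      rw [norm_star]; linarith
    rw [one_div_mul_eq_div, div_le_one (by positivity)]
    exact this
  obtain ⟨x1, hx1, hb1, hr1⟩ := h.surj_sa hsep hT1m hT1s hn1
  obtain ⟨x2, hx2, hb2, hr2⟩ := h.surj_sa hsep hT2m hT2s hn2
  have h1 := h.smul ((‖T‖ : ℝ) : ℂ) x1 hx1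
  have h2 := h.smul (Complex.I * ((‖T‖ : ℝ) : ℂ)) x2 hx2
  have h3 := h.add _ h1.1 _ h2.1
  refine ⟨_, h3.1, fun n => ?_, ?_⟩
  · refine (norm_add_le _ _).trans ?_
    rw [norm_smul, norm_smul, norm_mul, Complex.norm_I, one_mul, Complex.norm_real, norm_norm]
    have := hb1 n
    have := hb2 n
    nlinarith
  · rw [h3.2, h1.2, h2.2, hr1, hr2]
    change ((‖T‖ : ℝ) : ℂ) • (((1 / (2 * ‖T‖) : ℝ) : ℂ) • (T + star T)) +
      (Complex.I * ((‖T‖ : ℝ) : ℂ)) • ((-Complex.I * ((1 / (2 * ‖T‖) : ℝ) : ℂ)) • (T - star T)) = T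
    rw [smul_smul, smul_smul]
    have hne : ((‖T‖ : ℝ) : ℂ) ≠ 0 := by exact_mod_cast h0
    have e1 : ((‖T‖ : ℝ) : ℂ) * ((1 / (2 * ‖T‖) : ℝ) : ℂ) = 1 / 2 := by
      push_cast
      field_simp
    have e2 : (Complex.I * ((‖T‖ : ℝ) : ℂ)) * (-Complex.I * ((1 / (2 * ‖T‖) : ℝ) : ℂ)) = 1 / 2 := by
      have : (Complex.I * ((‖T‖ : ℝ) : ℂ)) * (-Complex.I * ((1 / (2 * ‖T‖) : ℝ) : ℂ)) =
          -(Complex.I * Complex.I) * (((‖T‖ : ℝ) : ℂ) * ((1 / (2 * ‖T‖) : ℝ) : ℂ)) := by ring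
      rw [this, e1, Complex.I_mul_I]
      norm_num
    rw [e1, e2, ← smul_add]
    have e3 : T + star T + (T - star T) = (2 : ℂ) • T := by
      rw [two_smul]; abel
    rw [e3, smul_smul]
    norm_num

end Pool.Agent.Helper23

end

section

open scoped InnerProductSpace Topology

open ContinuousLinearMap Filter

namespace Pool.Agent.Helper23

universe u

variable {H : Type u} [NormedAddCommGroup H] [InnerProductSpace ℂ H] [CompleteSpace H]

variable {L : Type u} [NormedAddCommGroup L] [InnerProductSpace ℂ L] [CompleteSpace L]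

variable {M N A : VonNeumannAlgebra H} {ξ : H} {E : (H →L[ℂ] H) → (H →L[ℂ] H)}

section

variable {mk : (ℕ → H) → L} (h : HUP mk)

include h

lemma HUP.surjA (S : Setting M N E ξ) (hA : ∀ x ∈ A, x ∈ M)
    {T : Vs M ξ mk →L[ℂ] Vs M ξ mk} (hT : T ∈ Mt M ξ mk A) :
    ∃ x ∈ AppS M ξ, (∀ n, x n ∈ A) ∧ (∀ n, ‖x n‖ ≤ 2 * ‖T‖) ∧ rp M ξ mk x = T := by
  obtain ⟨x, hx, h1, h2⟩ := (h.seqRep (M := M) (ξ := ξ) hA).surj (fun T hT h0 => by
    refine h.rp_sep (oc_genVN_mono (Set.image_mono ?_) hT) h0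
    rintro x ⟨h1, h2⟩
    exact ⟨h1, fun n => ocS_mem h1 n⟩) hT
  exact ⟨x, hx.1, hx.2, h1, h2⟩

end

end Pool.Agent.Helper23

end

section

open scoped InnerProductSpace Topology BoundedContinuousFunction

open ContinuousLinearMap Filter MeasureTheory

namespace Pool.Agent.Helper88.CS

open Pool.Agent.Helper23

open Pool.Agent.Helper78.BC (Std rm Fixed)

variable {H : Type*} [NormedAddCommGroup H] [InnerProductSpace ℂ H] [CompleteSpace H]

variable {A : VonNeumannAlgebra H} {ξ : H} {J : H →L[ℝ] H}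
  {Ψ : (ℝ →ᵇ ℂ) →⋆ₐ[ℂ] (H →L[ℂ] H)} {R : H →L[ℂ] H} {D : H →L[ℝ] H}

/-- the right hull of `x`: the projection onto the closed span of the ranges of `σ_t(x*)` -/
theorem exists_hull (h : St A ξ J Ψ R D) {x : H →L[ℂ] H} (hx : x ∈ A) (hx0 : x ≠ 0) :
    ∃ q, IsP A q ∧ q ≠ 0 ∧ J (q ξ) = q ξ ∧ x * q = x ∧
      (∀ e ∈ A, star e = e → J (e ξ) = e ξ → x * e = x → e * q = q) ∧
      ∀ y ∈ A, (∀ t : ℝ, (Pool.Agent.Helper70.U8.U Ψ t * x * Pool.Agent.Helper70.U8.V Ψ t) * y = 0) →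
        q * y = 0 := by
  classical
  set K := HullAux.sp Ψ x with hK
  have hKc : IsClosed (K : Set H) := Submodule.isClosed_topologicalClosure _
  haveI : CompleteSpace K := hKc.completeSpace_coe
  have hsa : star K.starProjection = K.starProjection :=
    (isStarProjection_starProjection (U := K)).isSelfAdjoint.star_eq
  have hid : K.starProjection * K.starProjection = K.starProjection :=
    (isStarProjection_starProjection (U := K)).isIdempotentElem
  -- the orbit of `x*` is in `A`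
  have hmem : ∀ t : ℝ, Pool.Agent.Helper70.U8.U Ψ t * star x * Pool.Agent.Helper70.U8.V Ψ t ∈ A :=
    fun t => h.mod.mem _ _ (star_mem hx)
  -- `q` is in `A`
  have hinv : ∀ g ∈ A.commutant, ∀ v ∈ K, g v ∈ K := by
    intro g hg
    refine HullAux.sp_inv fun t w => ?_
    have h1 : g * (Pool.Agent.Helper70.U8.U Ψ t * star x * Pool.Agent.Helper70.U8.V Ψ t) =
        Pool.Agent.Helper70.U8.U Ψ t * star x * Pool.Agent.Helper70.U8.V Ψ t * g :=
      mem_iff_commutes.1 (hmem t) g hg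
    have h2 := congrArg (fun T : H →L[ℂ] H => T w) h1
    simp only [mul_apply_eq_comp] at h2
    rw [h2]
    exact HullAux.gen_mem x t (g w)
  have hqA : K.starProjection ∈ A := by
    rw [mem_iff_commutes]
    intro g hg
    exact HullAux.proj_comm K (hinv g hg) (hinv (star g) (star_mem hg))
  -- `q` commutes with the modular group
  have hexp : ∀ s : ℝ, ∀ v ∈ K, Ψ (expB s) v ∈ K := by
    intro s
    refine HullAux.sp_inv fun t w => ?_
    have e1 : Ψ (expB s) * Pool.Agent.Helper70.U8.U Ψ t =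
        Pool.Agent.Helper70.U8.U Ψ (t + s / (2 * Real.pi)) := by
      unfold Pool.Agent.Helper70.U8.U
      rw [← map_mul, expB_mul]
      congr 2
      field_simp
      ring
    have e2 : Pool.Agent.Helper70.U8.V Ψ t =
        Pool.Agent.Helper70.U8.V Ψ (t + s / (2 * Real.pi)) * Ψ (expB s) := by
      unfold Pool.Agent.Helper70.U8.V
      rw [← map_mul, expB_mul]
      congr 2
      field_simp
      ring
    rw [← mul_apply_eq_comp, e1, e2, mul_apply_eq_comp]
    exact HullAux.gen_mem x _ _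
  have hcomm : ∀ s : ℝ, K.starProjection * Ψ (expB s) = Ψ (expB s) * K.starProjection := by
    intro s
    refine (HullAux.proj_comm K (hexp s) ?_).symm
    rw [← map_star, expB_star]
    exact hexp (-s)
  have hJq : J (K.starProjection ξ) = K.starProjection ξ := J_of_comm h hqA hsa hcomm
  -- `q x* = x*`
  have hqx : K.starProjection * star x = star x := by
    ext w
    rw [mul_apply_eq_comp, Submodule.starProjection_eq_self_iff]
    have h1 := HullAux.gen_mem (Ψ := Ψ) x 0 w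
    have h2 : Pool.Agent.Helper70.U8.U Ψ 0 = 1 := by
      unfold Pool.Agent.Helper70.U8.U
      rw [mul_zero, expB_zero, map_one]
    have h3 : Pool.Agent.Helper70.U8.V Ψ 0 = 1 := by
      unfold Pool.Agent.Helper70.U8.V
      rw [mul_zero, neg_zero, expB_zero, map_one]
    rw [h2, h3] at h1
    exact h1
  have hxq : x * K.starProjection = x := by
    have h1 := congrArg star hqx
    rwa [star_mul, star_star, hsa] at h1
  refine ⟨K.starProjection, ⟨hqA, hsa, hid⟩, ?_, hJq, hxq, ?_, ?_⟩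
  · intro h0
    rw [h0, mul_zero] at hxq
    exact hx0 hxq.symm
  · intro e he hes hJe hxe
    have hex : e * star x = star x := by
      have h1 := congrArg star hxe
      rwa [star_mul, hes] at h1
    have hle : K ≤ LinearMap.ker ((e - 1 : H →L[ℂ] H) : H →ₗ[ℂ] H) := by
      refine HullAux.sp_le ?_ fun t w => ?_
      · exact ContinuousLinearMap.isClosed_ker (e - 1)
      · rw [LinearMap.mem_ker]
        have h1 : e * Pool.Agent.Helper70.U8.U Ψ t = Pool.Agent.Helper70.U8.U Ψ t * e :=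
          comm_psi h he hes hJe _
        have h2 : e (Pool.Agent.Helper70.U8.U Ψ t ((star x) (Pool.Agent.Helper70.U8.V Ψ t w))) =
            Pool.Agent.Helper70.U8.U Ψ t ((star x) (Pool.Agent.Helper70.U8.V Ψ t w)) := by
          have h3 := congrArg (fun T : H →L[ℂ] H =>
            T ((star x) (Pool.Agent.Helper70.U8.V Ψ t w))) h1
          have h4 := congrArg (fun T : H →L[ℂ] H => T (Pool.Agent.Helper70.U8.V Ψ t w)) hex
          simp only [mul_apply_eq_comp] at h3 h4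
          rw [h3, h4]
        change e _ - _ = 0
        rw [h2]
        exact sub_self _
    ext v
    rw [mul_apply_eq_comp]
    have h1 := hle (Submodule.starProjection_apply_mem K v)
    rw [LinearMap.mem_ker] at h1
    have h2 : e (K.starProjection v) - K.starProjection v = 0 := h1
    exact sub_eq_zero.1 h2
  · intro y hy h0
    ext v
    rw [mul_apply_eq_comp, zero_apply, Submodule.starProjection_apply_eq_zero_iff]
    have hle : K ≤ (Submodule.span ℂ {y v})ᗮ := by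
      refine HullAux.sp_le (Submodule.isClosed_orthogonal _) fun t w => ?_
      rw [Submodule.mem_orthogonal_singleton_iff_inner_right]
      have h1 : (Pool.Agent.Helper70.U8.U Ψ t * x * Pool.Agent.Helper70.U8.V Ψ t) (y v) = 0 := by
        rw [← mul_apply_eq_comp, h0 t, zero_apply]
      have h2 : ⟪y v, Pool.Agent.Helper70.U8.U Ψ t
          ((star x) (Pool.Agent.Helper70.U8.V Ψ t w))⟫_ℂ =
          ⟪Pool.Agent.Helper70.U8.U Ψ t (x (Pool.Agent.Helper70.U8.V Ψ t (y v))), w⟫_ℂ := by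
        rw [← Pool.Agent.Helper70.U8.V_star t, inner_star_right, inner_star_right,
          inner_star_left]
      rw [h2]
      simp only [mul_apply_eq_comp] at h1
      rw [h1, inner_zero_left]
    rw [Submodule.mem_orthogonal]
    intro u hu
    have h3 := hle hu
    rw [Submodule.mem_orthogonal_singleton_iff_inner_right] at h3
    rw [← inner_conj_symm, h3, map_zero]

end Pool.Agent.Helper88.CS

end
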