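import Pool.Agent.Helper23.FA.Ns
import Pool.Agent.Helper23.FA.L01_01
import Pool.Agent.Helper23.FA.L01_03
import Pool.Agent.Helper23.FA.L01_04
import Pool.Agent.Helper23.FA.L01_06
import Pool.Agent.Helper23.FA.L01_17
import Pool.Agent.Helper23.FA.L01_18

/-!
Parts of Helper75.GKWeak, Helper94.LbBicent, Helper88.CS.Corner
-/

section

open scoped InnerProductSpace Topology ENNReal

open ContinuousLinearMap Filter MeasureTheory

set_option linter.unusedSectionVars false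

set_option linter.unusedVariables false

namespace Pool.Agent.Helper23

variable {H : Type*} [NormedAddCommGroup H] [InnerProductSpace ℂ H] [CompleteSpace H]

variable {M N : VonNeumannAlgebra H} {ξ : H} {E : (H →L[ℂ] H) → (H →L[ℂ] H)}

namespace GKW

/-- the sum over one interval -/
lemma hasSum_fix {u : L2R H →L[ℂ] L2R H} (hu : u ∈ amp N) (h : WkC N ξ u) {n : ℕ}
    {c c' : L2R ℂ} (hc : Pn n c = c) {b : H →L[ℂ] H} (hbN : b ∈ N) (m : ℤ) :
    HasSum (fun k : hw => ⟪u (ten (gJ (m, k)) ξ), rk b c' c (u (ten (gJ (m, k)) ξ))⟫_ℂ)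
      ⟪(star u) (ten (mulOp ℂ (he n) c) ξ),
        mulOp H (ind (Set.Ico (m : ℝ) (m + 1))) ((star u) (ten c' (b ξ)))⟫_ℂ := by
  set G := (star u) (ten (mulOp ℂ (he n) c) ξ) with hG
  set F := (star u) (ten c' (b ξ)) with hF
  have h1 : ∀ k : hw, ⟪u (ten (gJ (m, k)) ξ), rk b c' c (u (ten (gJ (m, k)) ξ))⟫_ℂ =
      ⟪G, ten (fJ (m, k)) (sl (gJ (m, k)) F)⟫_ℂ := by
    intro k
    set g := gJ (m, k) with hg
    set n' := bd n m with hn'
    have hcn : Pn n' c = c := Pn_mono (le_max_left _ _) hc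
    have e1 : ⟪u (ten g ξ), rk b c' c (u (ten g ξ))⟫_ℂ =
        ⟪ten c ((star b * slX u c' g) ξ), u (ten g ξ)⟫_ℂ := by
      rw [rk_apply, ← inner_sl', ← inner_slX]
      change ⟪slX u c' g ξ, b (slX u c g ξ)⟫_ℂ = ⟪(star b) (slX u c' g ξ), slX u c g ξ⟫_ℂ
      rw [inner_star_left]
    have e2 : g = mulOp ℂ (he n') (fJ (m, k)) := (he_fJ n (m, k)).symm
    rw [e1]
    conv_lhs => rw [show u (ten g ξ) = u (ten (mulOp ℂ (he n') (fJ (m, k))) ξ) from by rw [← e2]]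
    rw [h n' (fJ (m, k)) c (Pn_fJ n (m, k)) hcn _
      (mul_mem (star_mem hbN) (slX_mem hu _ _)), he_cut (n' := n') (le_max_left _ _) hc]
    rw [star_mul, star_star]
    change ⟪_, u (ten (fJ (m, k)) ((star (slX u c' g)) (b ξ)))⟫_ℂ = _
    have e3 : (star (slX u c' g)) (b ξ) = sl g F := by
      refine ext_inner_left ℂ fun ζ => ?_
      rw [inner_star_right, inner_sl, hF, inner_star_right, slX_apply, inner_sl']
    rw [e3, hG, inner_star_left]
  simp only [h1]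
  have h2 : ∀ k : hw, ten (fJ (m, k)) (sl (gJ (m, k)) F) =
      mulOp H (dmi m) (ten (hb k) (sl (hb k) (mulOp H (dm m) F))) := by
    intro k
    rw [mulOp_ten (dmi_bm m)]
    change ten (mulOp ℂ (dmi m) (hb k)) (sl (mulOp ℂ (dm m) (hb k)) F) = _
    rw [sl_mulOp (dm_bm m) (dm_conj m)]
  simp only [h2]
  have h3 := (innerSL ℂ G).hasSum ((mulOp H (dmi m)).hasSum (hasSum_hb (mulOp H (dm m) F)))
  rw [mulOp_mulOp (dmi_bm m) (dm_bm m), dmi_dm] at h3
  exact h3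

/-- the value of the weight for finite rank cut offs -/
lemma SX_fin {u : L2R H →L[ℂ] L2R H} (hu : u ∈ amp N) (h2 : u * star u = 1) (h : WkC N ξ u)
    {Y : L2R H →L[ℂ] L2R H} (hY : Y ∈ amp N) {ι : Type*} (t : Finset ι) (a c : ι → L2R ℂ) {n : ℕ}
    (hc : ∀ i, Pn n (c i) = c i) :
    SX ξ (Y * fr H t a c * u) = ENNReal.ofReal (∑ i' ∈ t, ∑ i ∈ t,
      ⟪ten (mulOp ℂ (he n) (c i)) ξ, ten (c i') (slX (star Y * Y) (a i') (a i) ξ)⟫_ℂ).re := by
  have hYY : star Y * Y ∈ amp N := mul_mem (star_mem hY) hY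
  -- one interval
  have e1 : ∀ m : ℤ, HasSum (fun k : hw => ((‖(Y * fr H t a c * u) (ten (gJ (m, k)) ξ)‖ ^ 2 : ℝ) : ℂ))
      (∑ i' ∈ t, ∑ i ∈ t, ⟪(star u) (ten (mulOp ℂ (he n) (c i)) ξ),
        mulOp H (ind (Set.Ico (m : ℝ) (m + 1)))
          ((star u) (ten (c i') (slX (star Y * Y) (a i') (a i) ξ)))⟫_ℂ) := by
    intro m
    have e2 : ∀ k : hw, ((‖(Y * fr H t a c * u) (ten (gJ (m, k)) ξ)‖ ^ 2 : ℝ) : ℂ) =
        ∑ i' ∈ t, ∑ i ∈ t, ⟪u (ten (gJ (m, k)) ξ),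
          rk (slX (star Y * Y) (a i') (a i)) (c i') (c i) (u (ten (gJ (m, k)) ξ))⟫_ℂ :=
      fun k => norm_fr Y t a c (u (ten (gJ (m, k)) ξ))
    simp only [e2]
    refine hasSum_sum fun i' _ => hasSum_sum fun i _ => ?_
    exact hasSum_fix hu h (hc i) (slX_mem hYY _ _) m
  have e3 : HasSum (fun m : ℤ => ∑ i' ∈ t, ∑ i ∈ t, ⟪(star u) (ten (mulOp ℂ (he n) (c i)) ξ),
        mulOp H (ind (Set.Ico (m : ℝ) (m + 1)))
          ((star u) (ten (c i') (slX (star Y * Y) (a i') (a i) ξ)))⟫_ℂ)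
      (∑ i' ∈ t, ∑ i ∈ t, ⟪ten (mulOp ℂ (he n) (c i)) ξ,
        ten (c i') (slX (star Y * Y) (a i') (a i) ξ)⟫_ℂ) := by
    refine hasSum_sum fun i' _ => hasSum_sum fun i _ => ?_
    have e4 := hasSum_int ((star u) (ten (mulOp ℂ (he n) (c i)) ξ))
      ((star u) (ten (c i') (slX (star Y * Y) (a i') (a i) ξ)))
    have e5 : ⟪(star u) (ten (mulOp ℂ (he n) (c i)) ξ),
        (star u) (ten (c i') (slX (star Y * Y) (a i') (a i) ξ))⟫_ℂ =
        ⟪ten (mulOp ℂ (he n) (c i)) ξ, ten (c i') (slX (star Y * Y) (a i') (a i) ξ)⟫_ℂ := by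
      rw [inner_star_left]
      change ⟪_, (u * star u) _⟫_ℂ = _
      rw [h2]
      rfl
    rw [e5] at e4
    exact e4
  rw [SX_def, ENNReal.tsum_prod']
  have e6 := fun m => tsum_ofReal_of_hasSum (fun k => by positivity) (e1 m)
  simp only [fun m => (e6 m).1]
  refine (tsum_ofReal_of_hasSum (fun m => (e6 m).2) ?_).1
  have e7 : ∀ m : ℤ, (((∑ i' ∈ t, ∑ i ∈ t, ⟪(star u) (ten (mulOp ℂ (he n) (c i)) ξ),
        mulOp H (ind (Set.Ico (m : ℝ) (m + 1)))
          ((star u) (ten (c i') (slX (star Y * Y) (a i') (a i) ξ)))⟫_ℂ).re : ℝ) : ℂ) =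
      ∑ i' ∈ t, ∑ i ∈ t, ⟪(star u) (ten (mulOp ℂ (he n) (c i)) ξ),
        mulOp H (ind (Set.Ico (m : ℝ) (m + 1)))
          ((star u) (ten (c i') (slX (star Y * Y) (a i') (a i) ξ)))⟫_ℂ := by
    intro m
    have h3 := Complex.hasSum_im (e1 m)
    simp only [Complex.ofReal_im] at h3
    have h4 := h3.unique hasSum_zero
    exact Complex.ext (Complex.ofReal_re _) (by rw [Complex.ofReal_im, h4])
  simp only [e7]
  exact e3

lemma SX_fin_eq {u : L2R H →L[ℂ] L2R H} (hu : u ∈ amp N) (h2 : u * star u = 1) (h : WkC N ξ u)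
    {Y : L2R H →L[ℂ] L2R H} (hY : Y ∈ amp N) {ι : Type*} (t : Finset ι) (a c : ι → L2R ℂ) {n : ℕ}
    (hc : ∀ i, Pn n (c i) = c i) :
    SX ξ (Y * fr H t a c * u) = SX ξ (Y * fr H t a c) := by
  have h3 := SX_fin (N := N) (ξ := ξ) (one_mem _) (by rw [star_one, mul_one]) WkC_one hY t a c hc
  rw [mul_one] at h3
  rw [SX_fin hu h2 h hY t a c hc, h3]

/-- one inequality -/
lemma SX_le {u : L2R H →L[ℂ] L2R H} (hu : u ∈ amp N) (h2 : u * star u = 1) (h : WkC N ξ u)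
    {Y : L2R H →L[ℂ] L2R H} (hY : Y ∈ amp N) : SX ξ (Y * u) ≤ SX ξ Y := by
  rw [SX_def, ENNReal.tsum_eq_iSup_sum]
  refine iSup_le fun J => ?_
  have key : ∀ {ι : Type} (l : Filter ι) [l.NeBot] (T : ι → L2R H → L2R H) (T' : L2R H → L2R H),
      (∀ F, Tendsto (fun i => T i F) l (𝓝 (T' F))) →
      (∀ i, ∑ j ∈ J, ENNReal.ofReal (‖Y (T i (u (ten (gJ j) ξ)))‖ ^ 2) ≤ SX ξ Y) →
      ∑ j ∈ J, ENNReal.ofReal (‖Y (T' (u (ten (gJ j) ξ)))‖ ^ 2) ≤ SX ξ Y := by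
    intro ι l hne T T' hT hle
    have h5 : Tendsto (fun i => ∑ j ∈ J, ENNReal.ofReal (‖Y (T i (u (ten (gJ j) ξ)))‖ ^ 2)) l
        (𝓝 (∑ j ∈ J, ENNReal.ofReal (‖Y (T' (u (ten (gJ j) ξ)))‖ ^ 2))) := by
      refine tendsto_finsetSum J fun j _ => ?_
      refine ENNReal.tendsto_ofReal ?_
      exact (((Y.continuous.tendsto _).comp (hT _)).norm).pow 2
    exact le_of_tendsto' h5 hle
  have k1 : ∀ n : ℕ, ∑ j ∈ J, ENNReal.ofReal
      (‖Y (mulOp H (ind (Set.Ico (-(n : ℝ)) n)) (u (ten (gJ j) ξ)))‖ ^ 2) ≤ SX ξ Y := by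
    intro n
    refine key (atTop : Filter (Finset hw)) (fun t F => Pns H n t F)
      (fun F => mulOp H (ind (Set.Ico (-(n : ℝ)) n)) F) (Pns_tendsto n) fun t => ?_
    refine le_trans ?_ (SX_Pns_le (ξ := ξ) n t Y)
    have h3 := SX_fin_eq hu h2 h hY t (fun k => mulOp ℂ (hs 1 n) (hb k))
      (fun k => mulOp ℂ (hs (-1) n) (hb k)) (n := n) (fun k => Pn_hs (-1) n (hb k))
    change SX ξ (Y * Pns H n t * u) = SX ξ (Y * Pns H n t) at h3
    rw [← h3, SX_def]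
    exact ENNReal.sum_le_tsum J
  exact key (atTop : Filter ℕ) (fun n F => mulOp H (ind (Set.Ico (-(n : ℝ)) n)) F) (fun F => F)
    cut_tendsto k1

end GKW

open GKW in
/-- MODULE G2a : the weak form of the centralizer property implies the strong form. -/
theorem GK_of_weak {u : L2R H →L[ℂ] L2R H} (hu : u ∈ amp N) (h1 : star u * u = 1)
    (h2 : u * star u = 1)
    (h : ∀ (n : ℕ) (f f' : L2R ℂ), Pn n f = f → Pn n f' = f' → ∀ b ∈ N,
      ⟪ten f' (b ξ), u (ten (mulOp ℂ (he n) f) ξ)⟫_ℂ =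
        ⟪ten (mulOp ℂ (he n) f') ξ, u (ten f ((star b) ξ))⟫_ℂ) : u ∈ GK N ξ := by
  have hW : WkC N ξ u := h
  refine ⟨hu, h1, h2, fun Y hY => le_antisymm (SX_le hu h2 hW hY) ?_⟩
  have h3 := SX_le (ξ := ξ) (star_mem hu) (by rw [star_star]; exact h1) hW.star
    (mul_mem hY hu)
  rwa [mul_assoc, h2, mul_one] at h3

end Pool.Agent.Helper23

end

section

open scoped InnerProductSpace Topology

open ContinuousLinearMap Filter

namespace Pool.Agent.Helper23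

variable {H : Type*} [NormedAddCommGroup H] [InnerProductSpace ℂ H] [CompleteSpace H]

variable {M N : VonNeumannAlgebra H} {ξ : H} {E : (H →L[ℂ] H) → (H →L[ℂ] H)}

namespace AP

variable (S : AP M N E ξ)

include S

/-- STEP 3 -/
lemma spread_step {y : H →L[ℂ] H} (hyQ : y ∈ Qalg M N ξ) {κ K1 L : ℝ} (hL : 0 ≤ L)
    (h0 : ∀ T T', Partner N ξ T T' → ‖(y * T - T * y) ξ‖ ^ 2 ≤
      2 * κ + K1 * ‖(T' - T) ξ‖ ^ 2 + L * ‖(star T * T) ξ‖ ^ 2)
    {C C' : H →L[ℂ] H} (hC : Partner N ξ C C') (m : ℕ) :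
    ∀ T T', Partner N ξ T T' → ‖(y * T - T * y) ξ‖ ^ 2 + m * ‖(y * C - C * y) ξ‖ ^ 2 ≤
      2 * κ + K1 * (‖(T' - T) ξ‖ ^ 2 + m * ‖(C' - C) ξ‖ ^ 2) +
      L * (‖(star T * T) ξ‖ ^ 2 + m * ‖(star C * C) ξ‖ ^ 2 +
        m * (2 * ‖T ξ‖ ^ 2 * ‖C ξ‖ ^ 2 + 2 * ‖(star T) ξ‖ ^ 2 * ‖C ξ‖ ^ 2 +
          2 * ‖T ξ‖ ^ 2 * ‖(star C) ξ‖ ^ 2) +
        m * (m - 1) / 2 * (2 * ‖C ξ‖ ^ 2 * ‖C ξ‖ ^ 2 + 2 * ‖(star C) ξ‖ ^ 2 * ‖C ξ‖ ^ 2 +
          2 * ‖C ξ‖ ^ 2 * ‖(star C) ξ‖ ^ 2)) := by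
  induction m with
  | zero =>
    intro T T' hT
    have := h0 T T' hT
    simp only [Nat.cast_zero, zero_mul, add_zero, zero_div]
    exact this
  | succ m ih =>
    intro T T' hT
    set q : ℝ := 2 * ‖T ξ‖ ^ 2 * ‖C ξ‖ ^ 2 + 2 * ‖(star T) ξ‖ ^ 2 * ‖C ξ‖ ^ 2 +
          2 * ‖T ξ‖ ^ 2 * ‖(star C) ξ‖ ^ 2 with hq
    set qq : ℝ := 2 * ‖C ξ‖ ^ 2 * ‖C ξ‖ ^ 2 + 2 * ‖(star C) ξ‖ ^ 2 * ‖C ξ‖ ^ 2 +
          2 * ‖C ξ‖ ^ 2 * ‖(star C) ξ‖ ^ 2 with hqq
    have hCN := hC.1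
    have hTN := hT.1
    have hyM := (mem_Qalg.1 hyQ).1
    set l : ℂ := ((2 * L : ℝ) : ℂ) with hl
    have hmain := S.avg_mix (ι := Unit) (κ := Bool) (x := fun _ => T * star T)
      (fun _ => mul_mem hTN (star_mem hTN)) (fun _ => l • C ξ) (fun _ => C ξ)
      (y := fun b => if b then star C * C else C * star C)
      (fun b => by
        cases b
        · exact mul_mem hCN (star_mem hCN)
        · exact mul_mem (star_mem hCN) hCN)
      (fun b => if b then l • (star T * T) ξ else l • T ξ)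
      (fun b => if b then ξ else T ξ)
      (c := ‖(y * T - T * y) ξ‖ ^ 2 + (m + 1) * ‖(y * C - C * y) ξ‖ ^ 2 -
        (2 * κ + K1 * (‖(T' - T) ξ‖ ^ 2 + (m + 1) * ‖(C' - C) ξ‖ ^ 2) +
        L * (‖(star T * T) ξ‖ ^ 2 + (m + 1) * ‖(star C * C) ξ‖ ^ 2 + m * q +
          m * (m + 1) / 2 * qq))) (by
      intro u hu
      have huM : u ∈ M := S.le _ hu.1.1
      have huN : u ∈ N := hu.1.1
      simp only [Finset.univ_unique, Finset.sum_singleton, Fintype.sum_bool, if_true,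
        Bool.false_eq_true, if_false]
      set X := u * C * star u with hX
      set X' := u * C' * star u with hX'
      have hXX : Partner N ξ X X' := hC.conj hu
      have i1 := ih (T + X) (T' + X') (hT.add hXX)
      have i2 := ih (T - X) (T' - X') (hT.sub hXX)
      -- (b)
      have nb : ‖(y * X - X * y) ξ‖ = ‖(y * C - C * y) ξ‖ := by
        have c1 : u * y = y * u := (mem_Qalg.1 hyQ).2 _ hu.1
        have c2 : star u * y = y * star u := (mem_Qalg.1 hyQ).2 _ (Ucent_star hu).1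
        have e1 : y * X - X * y = u * (y * C - C * y) * star u := by
          rw [hX, mul_sub, sub_mul]
          congr 1
          · simp only [← mul_assoc]; rw [c1]
          · simp only [mul_assoc]; rw [c2]
        rw [e1, S.norm_conj_xi hu (sub_mem (mul_mem hyM (S.le _ hCN)) (mul_mem (S.le _ hCN) hyM))]
      have nc : ‖(X' - X) ξ‖ = ‖(C' - C) ξ‖ := by
        have e1 : X' - X = u * (C' - C) * star u := by rw [hX, hX', mul_sub, sub_mul]
        rw [e1, S.norm_conj_xi hu (sub_mem (S.le _ hC.2.1) (S.le _ hCN))]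
      have nd : ‖X ξ‖ = ‖C ξ‖ := S.norm_conj_xi hu (S.le _ hCN)
      have hXs : star X = u * star C * star u := by
        rw [hX, star_mul, star_mul, star_star, mul_assoc]
      have ne : ‖(star X) ξ‖ = ‖(star C) ξ‖ := by
        rw [hXs, S.norm_conj_xi hu (star_mem (S.le _ hCN))]
      have hXX2 : star X * X = u * (star C * C) * star u := by
        rw [hXs, hX]
        calc u * star C * star u * (u * C * star u) = u * star C * (star u * u) * C * star u := by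
              simp only [mul_assoc]
          _ = u * (star C * C) * star u := by rw [hu.2.1, mul_one]; simp only [mul_assoc]
      have nf : ‖(star X * X) ξ‖ = ‖(star C * C) ξ‖ := by
        rw [hXX2, S.norm_conj_xi hu (mul_mem (star_mem (S.le _ hCN)) (S.le _ hCN))]
      -- parallelogram laws
      have par : ∀ v w : H, ‖v + w‖ ^ 2 + ‖v - w‖ ^ 2 = 2 * ‖v‖ ^ 2 + 2 * ‖w‖ ^ 2 := par_law
      have pa : ‖(y * (T + X) - (T + X) * y) ξ‖ ^ 2 + ‖(y * (T - X) - (T - X) * y) ξ‖ ^ 2 =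
          2 * ‖(y * T - T * y) ξ‖ ^ 2 + 2 * ‖(y * X - X * y) ξ‖ ^ 2 := by
        rw [← par]
        congr 4
        · rw [← add_apply]; congr 1; noncomm_ring
        · rw [← sub_apply]; congr 1; noncomm_ring
      have pc : ‖(T' + X' - (T + X)) ξ‖ ^ 2 + ‖(T' - X' - (T - X)) ξ‖ ^ 2 =
          2 * ‖(T' - T) ξ‖ ^ 2 + 2 * ‖(X' - X) ξ‖ ^ 2 := by
        rw [← par]
        congr 4
        · rw [← add_apply]; congr 1; abel
        · rw [← sub_apply]; congr 1; abel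
      have pd : ‖(T + X) ξ‖ ^ 2 + ‖(T - X) ξ‖ ^ 2 = 2 * ‖T ξ‖ ^ 2 + 2 * ‖X ξ‖ ^ 2 := par _ _
      have pe : ‖(star (T + X)) ξ‖ ^ 2 + ‖(star (T - X)) ξ‖ ^ 2 =
          2 * ‖(star T) ξ‖ ^ 2 + 2 * ‖(star X) ξ‖ ^ 2 := by
        rw [star_add, star_sub]; exact par _ _
      have pf : ‖(star (T + X) * (T + X)) ξ‖ ^ 2 + ‖(star (T - X) * (T - X)) ξ‖ ^ 2 =
          2 * ‖(star T * T) ξ + (star X * X) ξ‖ ^ 2 +
            2 * ‖(star T * X) ξ + (star X * T) ξ‖ ^ 2 := by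
        rw [← par]
        congr 4
        · rw [← add_apply, ← add_apply, ← add_apply, star_add]; congr 1; noncomm_ring
        · rw [← add_apply, ← add_apply, ← sub_apply, star_sub]; congr 1; noncomm_ring
      -- fourth order terms
      have pg : ‖(star T * T) ξ + (star X * X) ξ‖ ^ 2 = ‖(star T * T) ξ‖ ^ 2 +
          ‖(star X * X) ξ‖ ^ 2 + 2 * (⟪(star T * T) ξ, (star X * X) ξ⟫_ℂ).re := by
        have := norm_add_sq (𝕜 := ℂ) ((star T * T) ξ) ((star X * X) ξ)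
        rw [this]
        simp only [RCLike.re_to_complex]
        ring
      have ph : ‖(star T * X) ξ + (star X * T) ξ‖ ^ 2 ≤ 2 * ‖(star T * X) ξ‖ ^ 2 +
          2 * ‖(star X * T) ξ‖ ^ 2 := norm_add_sq_le_two _ _
      have pi : (⟪C ξ, (star u * (T * star T) * u) (C ξ)⟫_ℂ).re = ‖(star T * X) ξ‖ ^ 2 := by
        have e1 : ‖(star T * X) ξ‖ = ‖(star T * u * C) ξ‖ := by
          have : star T * X = (star T * u * C) * star u := by rw [hX]; simp only [mul_assoc]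
          rw [this]
          change ‖(star T * u * C) ((star u) ξ)‖ = _
          exact S.norm_right_unitary (Ucent_star hu).1 (Ucent_star hu).2.2
            (mul_mem (mul_mem (star_mem (S.le _ hTN)) huM) (S.le _ hCN))
        rw [e1]
        change (⟪C ξ, (star u) (T ((star T) (u (C ξ))))⟫_ℂ).re = ‖(star T) (u (C ξ))‖ ^ 2
        rw [inner_star_right, ← inner_star_left T, inner_self_eq_norm_sq_to_K]
        norm_cast
      have pj : (⟪T ξ, (u * (C * star C) * star u) (T ξ)⟫_ℂ).re = ‖(star X * T) ξ‖ ^ 2 := by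
        have e1 : ‖(star X * T) ξ‖ = ‖(star C) ((star u) (T ξ))‖ := by
          rw [hXs]
          change ‖u ((star C) ((star u) (T ξ)))‖ = _
          rw [norm_of_isom hu.2.1]
        rw [e1]
        change (⟪T ξ, u (C ((star C) ((star u) (T ξ))))⟫_ℂ).re = _
        rw [← inner_star_left u, ← inner_star_left C, inner_self_eq_norm_sq_to_K]
        norm_cast
      have r1 : (⟪l • C ξ, (star u * (T * star T) * u) (C ξ)⟫_ℂ).re =
          2 * L * ‖(star T * X) ξ‖ ^ 2 := by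
        rw [inner_smul_left, hl, Complex.conj_ofReal, Complex.re_ofReal_mul, pi]
      have r2 : (⟪l • (star T * T) ξ, (u * (star C * C) * star u) ξ⟫_ℂ).re =
          2 * L * (⟪(star T * T) ξ, (star X * X) ξ⟫_ℂ).re := by
        rw [inner_smul_left, hl, Complex.conj_ofReal, Complex.re_ofReal_mul, hXX2]
      have r3 : (⟪l • T ξ, (u * (C * star C) * star u) (T ξ)⟫_ℂ).re =
          2 * L * ‖(star X * T) ξ‖ ^ 2 := by
        rw [inner_smul_left, hl, Complex.conj_ofReal, Complex.re_ofReal_mul, pj]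
      rw [r1, r2, r3]
      rw [nb] at pa
      rw [nc] at pc
      rw [nd] at pd
      rw [ne] at pe
      rw [nf] at pg
      have hph := mul_le_mul_of_nonneg_left ph hL
      -- combination
      linear_combination (1 / 2) * i1 + (1 / 2) * i2 - (1 / 2) * pa + K1 / 2 * pc + L / 2 * pf +
        L * pg + L * m * (‖C ξ‖ ^ 2 + ‖(star C) ξ‖ ^ 2) * pd + L * m * ‖C ξ‖ ^ 2 * pe + hph)
    simp only [Finset.univ_unique, Finset.sum_singleton, Fintype.sum_bool, if_true,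
      Bool.false_eq_true, if_false] at hmain
    have a1 : ∀ Z : H →L[ℂ] H, ⟪ξ, (Z * star Z) ξ⟫_ℂ = ((‖(star Z) ξ‖ ^ 2 : ℝ) : ℂ) := by
      intro Z
      rw [norm_sq_apply, star_star]; rfl
    have a2 : ∀ Z : H →L[ℂ] H, ⟪ξ, (star Z * Z) ξ⟫_ℂ = ((‖Z ξ‖ ^ 2 : ℝ) : ℂ) := by
      intro Z
      rw [norm_sq_apply]; rfl
    have a3 : ∀ Z : H →L[ℂ] H, ⟪l • Z ξ, Z ξ⟫_ℂ = ((2 * L * ‖Z ξ‖ ^ 2 : ℝ) : ℂ) := by
      intro Z
      rw [inner_smul_left, hl, Complex.conj_ofReal, inner_self_eq_norm_sq_to_K]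
      push_cast
      rfl
    have a4 : ⟪l • (star T * T) ξ, ξ⟫_ℂ = ((2 * L * ‖T ξ‖ ^ 2 : ℝ) : ℂ) := by
      rw [inner_smul_left, hl, Complex.conj_ofReal]
      change _ * ⟪(star T) (T ξ), ξ⟫_ℂ = _
      rw [inner_star_left, inner_self_eq_norm_sq_to_K]
      push_cast
      rfl
    rw [a1, a2, a1, a3, a3, a4, ← Complex.ofReal_mul, ← Complex.ofReal_mul, ← Complex.ofReal_mul,
      Complex.ofReal_re, Complex.ofReal_re, Complex.ofReal_re] at hmain
    rw [Nat.cast_succ]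
    linear_combination hmain

end AP

end Pool.Agent.Helper23

end

section

open scoped InnerProductSpace Topology BoundedContinuousFunction

open ContinuousLinearMap Filter MeasureTheory

namespace Pool.Agent.Helper88.CS

open Pool.Agent.Helper23

open Pool.Agent.Helper78.BC (Std rm Fixed)

variable {H : Type*} [NormedAddCommGroup H] [InnerProductSpace ℂ H] [CompleteSpace H]

variable {A : VonNeumannAlgebra H} {ξ : H} {J : H →L[ℝ] H}
  {Ψ : (ℝ →ᵇ ℂ) →⋆ₐ[ℂ] (H →L[ℂ] H)} {R : H →L[ℂ] H} {D : H →L[ℝ] H}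

namespace CornerAux

/-- right multiplication by an element under `f` lands under `f` -/
lemma right_under (h : St A ξ J Ψ R D) {f b : H →L[ℂ] H} (hf : f ∈ A) (hb : b ∈ A)
    (hJ : J (f ξ) = f ξ) (hbf : b * f = b) : f (J (b ξ)) = J (b ξ) := by
  have h1 : J (b ξ) = J (b (J (f ξ))) := by
    rw [hJ]
    show J (b ξ) = J ((b * f) ξ)
    rw [hbf]
  have h2 : J (b (J (f ξ))) = f (J (b ξ)) := by
    rw [h.J_comm b hb f hf, h.J_xi]
  rw [← h2, ← h1]

end CornerAux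

end Pool.Agent.Helper88.CS

end
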