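import Pool.Agent.Helper23.FA.Ns
import Pool.Agent.Helper23.FA.L01_01
import Pool.Agent.Helper23.FA.L01_04
import Pool.Agent.Helper23.FA.L01_06
import Pool.Agent.Helper23.FA.L01_09
import Pool.Agent.Helper23.FA.L01_17
import Pool.Agent.Helper23.FA.L01_18

/-!
Parts of Helper23.Amp2, Helper23.Avg, Helper23.Gk, Helper53.PG.B2, Helper19.APSmooth, Helper23.Smooth, Helper23.ED.MnA
-/

section

open scoped InnerProductSpace Topology ENNReal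

open ContinuousLinearMap Filter MeasureTheory

set_option linter.unusedSectionVars false

set_option linter.unusedVariables false

namespace Pool.Agent.Helper23

variable {H : Type*} [NormedAddCommGroup H] [InnerProductSpace ℂ H] [CompleteSpace H]

variable {A : VonNeumannAlgebra H}

lemma mulOp_mem_amp {m : ℝ → ℂ} (h : BM m) : mulOp H m ∈ amp A := by
  rw [mem_amp]
  intro b _
  ext F : 1
  exact (mulOp_lift h b F).symm

end Pool.Agent.Helper23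

end

section

open scoped InnerProductSpace

open ContinuousLinearMap Filter

namespace Pool.Agent.Helper23

variable {H : Type*} [NormedAddCommGroup H] [InnerProductSpace ℂ H] [CompleteSpace H]

variable {M N : VonNeumannAlgebra H} {ξ : H} {E : (H →L[ℂ] H) → (H →L[ℂ] H)}

namespace AP

variable (S : AP M N E ξ)

include S

lemma inner_NNQ {y z a b : H →L[ℂ] H} (hy : y ∈ Qalg M N ξ)
    (hz : z ∈ Qalg M N ξ) (ha : a ∈ N) (hb : b ∈ N) :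
    ⟪a (y ξ), b (z ξ)⟫_ℂ = ⟪y ξ, z ξ⟫_ℂ * ⟪a ξ, b ξ⟫_ℂ := by
  have h := S.inner_NQ hy hz (mul_mem (star_mem ha) hb)
  change ⟪y ξ, (star a) (b (z ξ))⟫_ℂ = ⟪y ξ, z ξ⟫_ℂ * ⟪ξ, (star a) (b ξ)⟫_ℂ at h
  rwa [inner_star_right, inner_star_right] at h

lemma norm_NQ {z a : H →L[ℂ] H} (hz : z ∈ Qalg M N ξ) (ha : a ∈ N) :
    ‖a (z ξ)‖ = ‖z ξ‖ * ‖a ξ‖ := by
  have h := S.inner_NNQ hz hz ha ha
  rw [inner_self_eq_norm_sq_to_K, inner_self_eq_norm_sq_to_K, inner_self_eq_norm_sq_to_K] at h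
  have h2 : ‖a (z ξ)‖ ^ 2 = (‖z ξ‖ * ‖a ξ‖) ^ 2 := by
    rw [mul_pow]
    exact_mod_cast h
  exact (pow_left_inj₀ (norm_nonneg _) (by positivity) two_ne_zero).1 h2

end AP

end Pool.Agent.Helper23

end

section

open scoped InnerProductSpace Topology ENNReal

open ContinuousLinearMap Filter MeasureTheory

set_option linter.unusedSectionVars false

set_option linter.unusedVariables false

namespace Pool.Agent.Helper23

variable {H : Type*} [NormedAddCommGroup H] [InnerProductSpace ℂ H] [CompleteSpace H]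

variable {M N : VonNeumannAlgebra H} {ξ : H} {E : (H →L[ℂ] H) → (H →L[ℂ] H)}

/-- unimodular multiplication operators preserve the weight. -/
lemma mulOp_mem_GK (A : VonNeumannAlgebra H) {m : ℝ → ℂ} (h : BM m) (h1 : ∀ s, ‖m s‖ = 1) :
    mulOp H m ∈ GK A ξ := by
  have e1 : ∀ s, (starRingEnd ℂ) (m s) * m s = 1 := by
    intro s
    rw [RCLike.conj_mul, h1]
    simp
  refine ⟨mulOp_mem_amp h, ?_, ?_, fun Y _ => ?_⟩
  · ext F : 1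
    change (star (mulOp H m)) (mulOp H m F) = F
    rw [mulOp_star h, mulOp_mulOp h.conj h]
    ext1
    filter_upwards [mulOp_coe (h.conj.mul h) F] with s hs
    rw [hs, e1, one_smul]
  · ext F : 1
    change mulOp H m ((star (mulOp H m)) F) = F
    rw [mulOp_star h, mulOp_mulOp h h.conj]
    ext1
    filter_upwards [mulOp_coe (h.mul h.conj) F] with s hs
    rw [hs, mul_comm, e1, one_smul]
  · have h2 : (Y * mulOp H m).comp (axi ξ) = (Y.comp (axi ξ)).comp (mulOp ℂ m) := by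
      ext f : 1
      change Y (mulOp H m (ten f ξ)) = Y (ten (mulOp ℂ m f) ξ)
      rw [mulOp_ten h]
    rw [SX, h2, SS_mulOp h h1]
    rfl

end Pool.Agent.Helper23

end

section

set_option linter.unusedSectionVars false

open scoped InnerProductSpace Topology

open ContinuousLinearMap Filter

namespace Pool.Agent.Helper53.PG

open Pool.Agent.Helper23

universe u v

variable {H : Type u} [NormedAddCommGroup H] [InnerProductSpace ℂ H] [CompleteSpace H]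

variable {M N : VonNeumannAlgebra H} {ξ : H} {E : (H →L[ℂ] H) → (H →L[ℂ] H)}

theorem smoothing'_of (S : AP M N E ξ) {y : H →L[ℂ] H} {κ K : ℝ} (hκ : 0 < κ) (hK : 0 ≤ K)
    (hsm : SmoothStmt.{u, v} M N ξ y κ K) {ι : Type v} [Fintype ι] {c c' : ι → H →L[ℂ] H}
    (hc : ∀ l, Partner N ξ (c l) (c' l)) {G t : ℝ} (hG : 0 < G) (ht : 0 < t) (ht1 : t < 1)
    (hm : ∑ l, ‖c l ξ‖ ^ 2 ≤ G) (hδ : ∑ l, ‖(c' l - c l) ξ‖ ^ 2 ≤ 25 * t ^ 2 * G)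
    {n : ℕ} (hn : 0 < n) (hnδ : K * ((1 + 2 * t ^ 2) ^ n - 1) ≤ κ) :
    ∃ z ∈ Qalg M N ξ, ‖(z - y) ξ‖ ^ 2 ≤ 2 * κ ∧
      ∑ l, ‖(z * c l - c l * z) ξ‖ ^ 2 ≤ 96 * G * κ / n := by
  have hδ' : 30 * t ^ 2 * G / (2 * (12 * G)) ≤ 2 * t ^ 2 := by
    rw [div_le_iff₀ (by positivity)]
    nlinarith [mul_pos (pow_pos ht 2) hG]
  have hnδ' : K * ((1 + 30 * t ^ 2 * G / (2 * (12 * G))) ^ n - 1) ≤ κ := by
    refine le_trans (mul_le_mul_of_nonneg_left ?_ hK) hnδ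
    have : (1 + 30 * t ^ 2 * G / (2 * (12 * G))) ^ n ≤ (1 + 2 * t ^ 2) ^ n :=
      pow_le_pow_left₀ (by positivity) (by linarith) n
    linarith
  have h96 : 8 * (12 * G) * κ / n = 96 * G * κ / n := by ring
  set β : ℝ := ∑ l, (‖(star (c l)) ξ‖ ^ 2 - ‖c l ξ‖ ^ 2) with hβ
  have hb : ∑ l, ⟪c l ξ, (c' l - c l) ξ⟫_ℂ = (β : ℂ) := by
    rw [hβ, Complex.ofReal_sum]
    exact Finset.sum_congr rfl fun l _ => inner_real (hc l)
  by_cases hβ0 : β = 0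
  · obtain ⟨z, hz, h1, h2⟩ := hsm ι c c' hc (12 * G) (30 * t ^ 2 * G) (by positivity)
      (by linarith) (by nlinarith [mul_pos (pow_pos ht 2) hG]) (by rw [hb, hβ0]; simp) n hn hnδ'
    exact ⟨z, hz, h1, by rw [← h96]; exact h2⟩
  -- the bound for `β`
  have hβ1 : |β| ≤ 5 * t * G := by
    have h1 : |β| = ‖∑ l, ⟪c l ξ, (c' l - c l) ξ⟫_ℂ‖ := by
      rw [hb, Complex.norm_real, Real.norm_eq_abs]
    have h2 : ‖∑ l, ⟪c l ξ, (c' l - c l) ξ⟫_ℂ‖ ≤ ∑ l, ‖c l ξ‖ * ‖(c' l - c l) ξ‖ :=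
      (norm_sum_le _ _).trans (Finset.sum_le_sum fun l _ => norm_inner_le_norm _ _)
    have h3 : (∑ l, ‖c l ξ‖ * ‖(c' l - c l) ξ‖) ^ 2 ≤
        (∑ l, ‖c l ξ‖ ^ 2) * ∑ l, ‖(c' l - c l) ξ‖ ^ 2 :=
      Finset.sum_mul_sq_le_sq_mul_sq _ _ _
    have h4 : (∑ l, ‖c l ξ‖ ^ 2) * ∑ l, ‖(c' l - c l) ξ‖ ^ 2 ≤ G * (25 * t ^ 2 * G) :=
      mul_le_mul hm hδ (Finset.sum_nonneg fun _ _ => by positivity) hG.le
    have h5 : (∑ l, ‖c l ξ‖ * ‖(c' l - c l) ξ‖) ≤ 5 * t * G := by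
      refine abs_le_of_sq_le_sq' ?_ (by positivity) |>.2
      calc _ ≤ _ := h3
        _ ≤ _ := h4
        _ = _ := by ring
    rw [h1]
    exact h2.trans h5
  -- the sign
  set s : ℝ := if 0 < β then -1 else 1 with hs
  have hs1 : s = 1 ∨ s = -1 := by
    rw [hs]; split_ifs <;> simp
  have hsβ : s * |β| = -β := by
    rw [hs]
    split_ifs with h
    · rw [abs_of_pos h]; ring
    · rw [abs_of_nonpos (not_lt.1 h)]; ring
  obtain ⟨γ, hγ, w, hw, hw0, hg1, hg2⟩ := exists_gamma S ht ht1 s hs1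
  have hss : s * s = 1 := by rcases hs1 with h | h <;> rw [h] <;> norm_num
  set e : ℝ := s * (γ⁻¹ - 1) with he
  have he0 : 0 < e := lt_trans (by positivity) hg1
  have hge : γ⁻¹ - 1 = s * e := by rw [he, ← mul_assoc, hss, one_mul]
  have hwN : w ∈ N := hw.1
  have hwξ : 0 < ‖w ξ‖ := by
    rw [norm_pos_iff]
    intro h
    exact hw0 (S.sep w (S.le w hwN) h)
  set q : ℝ := |β| / (e * ‖w ξ‖ ^ 2) with hq
  have hq0 : 0 ≤ q := by positivity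
  set lam : ℝ := Real.sqrt q with hlam
  have hlam2 : lam ^ 2 = q := Real.sq_sqrt hq0
  have hqe : q * ‖w ξ‖ ^ 2 * e = |β| := by
    rw [hq]
    field_simp
  have hqm : q * ‖w ξ‖ ^ 2 ≤ 10 * G := by
    have h1 : q * ‖w ξ‖ ^ 2 * e ≤ 10 * G * e := by
      rw [hqe]
      refine hβ1.trans ?_
      nlinarith
    exact le_of_mul_le_mul_right h1 he0
  -- the extended family
  set d : Option ι → H →L[ℂ] H := fun o => o.elim ((lam : ℂ) • w) c with hd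
  set d' : Option ι → H →L[ℂ] H :=
    fun o => o.elim ((lam : ℂ) • (((γ⁻¹ : ℝ) : ℂ) • w)) c' with hd'
  have hdp : ∀ o, Partner N ξ (d o) (d' o) := by
    intro o
    cases o with
    | none => exact (Partner.of_eig hγ.ne' hw).smul _
    | some l => exact hc l
  have hdn : ‖d none ξ‖ ^ 2 = q * ‖w ξ‖ ^ 2 := by
    change ‖((lam : ℂ) • w) ξ‖ ^ 2 = _
    rw [smul_apply, norm_smul, mul_pow, Complex.norm_real, Real.norm_eq_abs, sq_abs, hlam2]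
  have hdd : (d' none - d none) ξ = ((lam * (s * e) : ℝ) : ℂ) • w ξ := by
    change ((lam : ℂ) • (((γ⁻¹ : ℝ) : ℂ) • w) - (lam : ℂ) • w) ξ = _
    rw [← hge]
    simp only [sub_apply, smul_apply, smul_smul]
    rw [← sub_smul]
    congr 1
    push_cast
    ring
  have hddn : ‖(d' none - d none) ξ‖ ^ 2 = |β| * e := by
    rw [hdd, norm_smul, mul_pow, Complex.norm_real, Real.norm_eq_abs, sq_abs]
    have : (lam * (s * e)) ^ 2 = q * e ^ 2 := by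
      rw [mul_pow, hlam2, mul_pow, sq s, hss, one_mul]
    rw [this, ← hqe]
    ring
  have hinn : ⟪d none ξ, (d' none - d none) ξ⟫_ℂ = ((-β : ℝ) : ℂ) := by
    rw [hdd]
    change ⟪((lam : ℂ) • w) ξ, _⟫_ℂ = _
    rw [smul_apply, inner_smul_left, inner_smul_right, inner_self_eq_norm_sq_to_K,
      Complex.conj_ofReal, ← hsβ, ← hqe, ← hlam2]
    push_cast
    rw [show ((RCLike.ofReal ‖w ξ‖ : ℂ)) = ((‖w ξ‖ : ℝ) : ℂ) from rfl]
    ring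
  obtain ⟨z, hz, h1, h2⟩ := hsm (Option ι) d d' hdp (12 * G) (30 * t ^ 2 * G) (by positivity)
    (by
      rw [Fintype.sum_option, hdn]
      have : ∑ l, ‖d (some l) ξ‖ ^ 2 ≤ G := hm
      linarith)
    (by
      rw [Fintype.sum_option, hddn]
      have h3 : ∑ l, ‖(d' (some l) - d (some l)) ξ‖ ^ 2 ≤ 25 * t ^ 2 * G := hδ
      have h4 : |β| * e ≤ 5 * t * G * t :=
        mul_le_mul hβ1 hg2.le he0.le (by positivity)
      nlinarith)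
    (by
      rw [Fintype.sum_option, hinn]
      have h3 : ∑ l, ⟪d (some l) ξ, (d' (some l) - d (some l)) ξ⟫_ℂ = (β : ℂ) := hb
      rw [h3, ← Complex.ofReal_add]
      simp) n hn hnδ'
  refine ⟨z, hz, h1, ?_⟩
  rw [h96, Fintype.sum_option] at h2
  refine le_trans ?_ h2
  exact le_add_of_nonneg_left (by positivity)

end Pool.Agent.Helper53.PG

end

section

open scoped InnerProductSpace Topology

open ContinuousLinearMap Filter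

namespace Pool.Agent.Helper23

variable {H : Type*} [NormedAddCommGroup H] [InnerProductSpace ℂ H] [CompleteSpace H]

variable {M N : VonNeumannAlgebra H} {ξ : H} {E : (H →L[ℂ] H) → (H →L[ℂ] H)}

namespace AP

variable (S : AP M N E ξ)

include S

variable {ι : Type*} [Fintype ι] {c c' : ι → H →L[ℂ] H}

lemma norm_inner_smPhi (hc : ∀ l, c l ∈ N) {q z : H →L[ℂ] H} (hq : q ∈ Qalg M N ξ)
    (hz : z ∈ Qalg M N ξ) :
    ‖⟪q ξ, smPhi M N ξ c z ξ⟫_ℂ‖ ≤ (∑ l, ‖c l ξ‖ ^ 2) * (‖q ξ‖ * ‖z ξ‖) := by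
  rw [S.inner_smPhi hc hq hz, Finset.sum_mul]
  refine (norm_sum_le _ _).trans (Finset.sum_le_sum fun l _ => ?_)
  refine (norm_inner_le_norm _ _).trans ?_
  rw [S.norm_NQ hq (hc l), S.norm_Q S.irr hz (hc l)]
  apply le_of_eq
  ring

lemma norm_smPhi (hc : ∀ l, c l ∈ N) {z : H →L[ℂ] H}
    (hz : z ∈ Qalg M N ξ) :
    ‖smPhi M N ξ c z ξ‖ ≤ (∑ l, ‖c l ξ‖ ^ 2) * ‖z ξ‖ := by
  have h := S.norm_inner_smPhi hc (S.smPhi_mem hc hz) hz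
  rw [inner_self_eq_norm_sq_to_K] at h
  have h4 : ‖((‖smPhi M N ξ c z ξ‖ : ℂ)) ^ 2‖ = ‖smPhi M N ξ c z ξ‖ ^ 2 := by simp
  have h5 : ‖smPhi M N ξ c z ξ‖ ^ 2 ≤
      (∑ l, ‖c l ξ‖ ^ 2) * (‖smPhi M N ξ c z ξ‖ * ‖z ξ‖) := by
    rw [← h4]; exact h
  rcases eq_or_lt_of_le (norm_nonneg (smPhi M N ξ c z ξ)) with h0 | h0
  · rw [← h0]; positivity
  · have h6 : ‖smPhi M N ξ c z ξ‖ * ‖smPhi M N ξ c z ξ‖ ≤
        ‖smPhi M N ξ c z ξ‖ * ((∑ l, ‖c l ξ‖ ^ 2) * ‖z ξ‖) := by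
      calc _ = ‖smPhi M N ξ c z ξ‖ ^ 2 := by ring
        _ ≤ _ := h5
        _ = _ := by ring
    exact le_of_mul_le_mul_left h6 h0

/-- the commutator sum through `smPhi` -/
lemma comm_sum (hc : ∀ l, c l ∈ N) {z : H →L[ℂ] H} (hz : z ∈ Qalg M N ξ) :
    ∑ l, ‖(z * c l - c l * z) ξ‖ ^ 2 =
      2 * (∑ l, ‖c l ξ‖ ^ 2) * ‖z ξ‖ ^ 2 - 2 * (⟪z ξ, smPhi M N ξ c z ξ⟫_ℂ).re := by
  rw [S.inner_smPhi hc hz hz, Complex.re_sum, Finset.mul_sum, Finset.mul_sum, Finset.sum_mul,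
    ← Finset.sum_sub_distrib]
  refine Finset.sum_congr rfl fun l _ => ?_
  have e1 : (z * c l - c l * z) ξ = z (c l ξ) - c l (z ξ) := rfl
  rw [e1, norm_sub_rev, norm_sub_sq_re, S.norm_NQ hz (hc l), S.norm_Q S.irr hz (hc l)]
  ring

/-- dissipation -/
lemma comm_sum_le (hc : ∀ l, c l ∈ N) {z : H →L[ℂ] H} (hz : z ∈ Qalg M N ξ) {m₀ : ℝ}
    (hm₀ : 0 < m₀) (hm : ∑ l, ‖c l ξ‖ ^ 2 ≤ m₀) :
    ∑ l, ‖(z * c l - c l * z) ξ‖ ^ 2 ≤
      4 * m₀ * (‖z ξ‖ ^ 2 - ‖smT M N ξ c (∑ l, ‖c l ξ‖ ^ 2) m₀ z ξ‖ ^ 2) := by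
  set m := ∑ l, ‖c l ξ‖ ^ 2 with hmdef
  have hm0 : 0 ≤ m := Finset.sum_nonneg fun l _ => by positivity
  set p := smPhi M N ξ c z ξ with hp
  set r := (⟪z ξ, p⟫_ℂ).re with hr
  have hcs : ∑ l, ‖(z * c l - c l * z) ξ‖ ^ 2 = 2 * m * ‖z ξ‖ ^ 2 - 2 * r := S.comm_sum hc hz
  have hpos : 0 ≤ 2 * m * ‖z ξ‖ ^ 2 - 2 * r := by
    rw [← hcs]; exact Finset.sum_nonneg fun l _ => by positivity
  have hpn : ‖p‖ ≤ m * ‖z ξ‖ := S.norm_smPhi hc hz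
  have hpn2 : ‖p‖ ^ 2 ≤ m ^ 2 * ‖z ξ‖ ^ 2 := by
    have := pow_le_pow_left₀ (norm_nonneg p) hpn 2
    rwa [mul_pow] at this
  -- the vector of T z
  have hT : smT M N ξ c m m₀ z ξ =
      ((1 - m / (2 * m₀) : ℝ) : ℂ) • z ξ + ((1 / (2 * m₀) : ℝ) : ℂ) • p := rfl
  have hTn : ‖smT M N ξ c m m₀ z ξ‖ ^ 2 = (1 - m / (2 * m₀)) ^ 2 * ‖z ξ‖ ^ 2 +
      2 * ((1 - m / (2 * m₀)) * (1 / (2 * m₀)) * r) + (1 / (2 * m₀)) ^ 2 * ‖p‖ ^ 2 := by
    have h := norm_add_sq (𝕜 := ℂ) (((1 - m / (2 * m₀) : ℝ) : ℂ) • z ξ)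
      (((1 / (2 * m₀) : ℝ) : ℂ) • p)
    rw [hT]
    refine h.trans ?_
    rw [norm_smul, norm_smul, Complex.norm_real, Complex.norm_real, mul_pow, mul_pow,
      Real.norm_eq_abs, Real.norm_eq_abs, sq_abs, sq_abs, inner_smul_left, inner_smul_right,
      Complex.conj_ofReal]
    congr 2
    congr 1
    change (((1 - m / (2 * m₀) : ℝ) : ℂ) * (((1 / (2 * m₀) : ℝ) : ℂ) * ⟪z ξ, p⟫_ℂ)).re = _
    rw [Complex.re_ofReal_mul, Complex.re_ofReal_mul]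
    ring
  rw [hcs, hTn]
  -- reduce to a polynomial inequality
  have key : 4 * m₀ * (‖z ξ‖ ^ 2 - ((1 - m / (2 * m₀)) ^ 2 * ‖z ξ‖ ^ 2 +
      2 * ((1 - m / (2 * m₀)) * (1 / (2 * m₀)) * r) + (1 / (2 * m₀)) ^ 2 * ‖p‖ ^ 2)) -
      (2 * m * ‖z ξ‖ ^ 2 - 2 * r) =
      ((2 * m * ‖z ξ‖ ^ 2 - 2 * r) * (m₀ - m) + (m ^ 2 * ‖z ξ‖ ^ 2 - ‖p‖ ^ 2)) / m₀ := by
    field_simp
    ring
  have h2 : 0 ≤ ((2 * m * ‖z ξ‖ ^ 2 - 2 * r) * (m₀ - m) + (m ^ 2 * ‖z ξ‖ ^ 2 - ‖p‖ ^ 2)) / m₀ := by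
    apply div_nonneg _ hm₀.le
    have h3 : 0 ≤ (2 * m * ‖z ξ‖ ^ 2 - 2 * r) * (m₀ - m) := mul_nonneg hpos (by linarith)
    linarith
  linarith

/-- the key lower bound, one step -/
lemma key_step {y z : H →L[ℂ] H} (hz : z ∈ Qalg M N ξ) {A K a : ℝ}
    (hK : 0 ≤ K) (ha : 0 ≤ a)
    (hc : ∀ l, Partner N ξ (c l) (c' l)) {m₀ δ : ℝ} (hm₀ : 0 < m₀)
    (hm : ∑ l, ‖c l ξ‖ ^ 2 ≤ m₀) (hδ : ∑ l, ‖(c' l - c l) ξ‖ ^ 2 ≤ δ)
    (hbal : ∑ l, ⟪c l ξ, (c' l - c l) ξ⟫_ℂ = 0)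
    (h : ∀ d d', Partner N ξ d d' → A * ‖d ξ‖ ^ 2 -
      (K / 2) * (a * ‖d' ξ‖ ^ 2 - 2 * (⟪d' ξ, d ξ⟫_ℂ).re + ‖d ξ‖ ^ 2) ≤
      (⟪d (y ξ), z (d ξ)⟫_ℂ).re) :
    ∀ d d', Partner N ξ d d' → A * ‖d ξ‖ ^ 2 -
      (K / 2) * (a * (1 + δ / (2 * m₀)) * ‖d' ξ‖ ^ 2 - 2 * (⟪d' ξ, d ξ⟫_ℂ).re + ‖d ξ‖ ^ 2) ≤
      (⟪d (y ξ), smT M N ξ c (∑ l, ‖c l ξ‖ ^ 2) m₀ z (d ξ)⟫_ℂ).re := by
  intro d d' hd
  set m := ∑ l, ‖c l ξ‖ ^ 2 with hmdef
  have hm0 : 0 ≤ m := Finset.sum_nonneg fun l _ => by positivity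
  -- the averaging
  have havg := S.avg_le (ι := ι ⊕ ι ⊕ ι ⊕ ι)
    (x := Sum.elim (fun l => star (c l) * (z * c l)) (Sum.elim (fun l => star (c l) * c l)
      (Sum.elim (fun l => star (c' l) * c' l) (fun l => star (c' l) * c l))))
    (by
      rintro (l | l | l | l)
      · change star (c l) * (z * c l) ∈ M
        rw [← mul_assoc]
        exact S.sm_mem hz (hc l).1 (hc l).1
      · exact S.le _ (mul_mem (star_mem (hc l).1) (hc l).1)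
      · exact S.le _ (mul_mem (star_mem (hc l).2.1) (hc l).2.1)
      · exact S.le _ (mul_mem (star_mem (hc l).2.1) (hc l).1))
    (Sum.elim (fun _ => d (y ξ)) (Sum.elim (fun _ => ((-(A - K / 2) : ℝ) : ℂ) • d ξ)
      (Sum.elim (fun _ => ((K / 2 * a : ℝ) : ℂ) • d' ξ) (fun _ => ((-K : ℝ) : ℂ) • d' ξ))))
    (Sum.elim (fun _ => d ξ) (Sum.elim (fun _ => d ξ) (Sum.elim (fun _ => d' ξ) (fun _ => d ξ))))
    (c := 0)
    (by
      intro u hu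
      simp only [Fintype.sum_sum_type, Sum.elim_inl, Sum.elim_inr]
      rw [← Finset.sum_add_distrib, ← Finset.sum_add_distrib, ← Finset.sum_add_distrib]
      refine Finset.sum_nonneg fun l _ => ?_
      rw [inner_conj4, inner_conj4, inner_conj4, inner_conj4]
      have h1 := h _ _ ((hc l).mul ((Partner.of_cent hu.1).mul hd))
      simp only [map_smul, inner_smul_left, Complex.conj_ofReal, Complex.re_ofReal_mul]
      change A * ‖c l (u (d ξ))‖ ^ 2 - (K / 2) * (a * ‖c' l (u (d' ξ))‖ ^ 2 -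
        2 * (⟪c' l (u (d' ξ)), c l (u (d ξ))⟫_ℂ).re + ‖c l (u (d ξ))‖ ^ 2) ≤
        (⟪c l (u (d (y ξ))), z (c l (u (d ξ)))⟫_ℂ).re at h1
      have e1 : (⟪c l (u (d ξ)), c l (u (d ξ))⟫_ℂ).re = ‖c l (u (d ξ))‖ ^ 2 :=
        inner_self_eq_norm_sq (𝕜 := ℂ) _
      have e2 : (⟪c' l (u (d' ξ)), c' l (u (d' ξ))⟫_ℂ).re = ‖c' l (u (d' ξ))‖ ^ 2 :=
        inner_self_eq_norm_sq (𝕜 := ℂ) _
      rw [e1, e2]
      change 0 ≤ (⟪c l (u (d (y ξ))), z (c l (u (d ξ)))⟫_ℂ).re + _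
      linarith)
  simp only [Fintype.sum_sum_type, Sum.elim_inl, Sum.elim_inr] at havg
  -- the three sums with elements of `N`
  have e2 : ∑ l, (⟪((-(A - K / 2) : ℝ) : ℂ) • d ξ, EQ M N ξ (star (c l) * c l) (d ξ)⟫_ℂ).re =
      -(A - K / 2) * (m * ‖d ξ‖ ^ 2) := by
    rw [hmdef, Finset.sum_mul, Finset.mul_sum]
    refine Finset.sum_congr rfl fun l _ => ?_
    rw [S.EQ_N (mul_mem (star_mem (hc l).1) (hc l).1), smul_apply, one_apply_eq_self,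
      inner_smul_left, inner_smul_right, Complex.conj_ofReal, Complex.re_ofReal_mul]
    have h1 : ⟪ξ, (star (c l) * c l) ξ⟫_ℂ = ((‖c l ξ‖ ^ 2 : ℝ) : ℂ) := by
      change ⟪ξ, (star (c l)) (c l ξ)⟫_ℂ = _
      rw [inner_star_right, inner_self_eq_norm_sq_to_K]
      push_cast
      rfl
    have h2 : (⟪d ξ, d ξ⟫_ℂ).re = ‖d ξ‖ ^ 2 := inner_self_eq_norm_sq (𝕜 := ℂ) _
    rw [h1, Complex.re_ofReal_mul, h2]
  have e3 : ∑ l, (⟪((K / 2 * a : ℝ) : ℂ) • d' ξ, EQ M N ξ (star (c' l) * c' l) (d' ξ)⟫_ℂ).re =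
      K / 2 * a * ((∑ l, ‖c' l ξ‖ ^ 2) * ‖d' ξ‖ ^ 2) := by
    rw [Finset.sum_mul, Finset.mul_sum]
    refine Finset.sum_congr rfl fun l _ => ?_
    rw [S.EQ_N (mul_mem (star_mem (hc l).2.1) (hc l).2.1), smul_apply, one_apply_eq_self,
      inner_smul_left, inner_smul_right, Complex.conj_ofReal, Complex.re_ofReal_mul]
    have h1 : ⟪ξ, (star (c' l) * c' l) ξ⟫_ℂ = ((‖c' l ξ‖ ^ 2 : ℝ) : ℂ) := by
      change ⟪ξ, (star (c' l)) (c' l ξ)⟫_ℂ = _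
      rw [inner_star_right, inner_self_eq_norm_sq_to_K]
      push_cast
      rfl
    have h2 : (⟪d' ξ, d' ξ⟫_ℂ).re = ‖d' ξ‖ ^ 2 := inner_self_eq_norm_sq (𝕜 := ℂ) _
    rw [h1, Complex.re_ofReal_mul, h2]
  have e4 : ∑ l, (⟪((-K : ℝ) : ℂ) • d' ξ, EQ M N ξ (star (c' l) * c l) (d ξ)⟫_ℂ).re =
      -K * (m * (⟪d' ξ, d ξ⟫_ℂ).re) := by
    have h1 : ∀ l, ⟪((-K : ℝ) : ℂ) • d' ξ, EQ M N ξ (star (c' l) * c l) (d ξ)⟫_ℂ =
        ((-K : ℝ) : ℂ) * (⟪c' l ξ, c l ξ⟫_ℂ * ⟪d' ξ, d ξ⟫_ℂ) := by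
      intro l
      rw [S.EQ_N (mul_mem (star_mem (hc l).2.1) (hc l).1), smul_apply, one_apply_eq_self,
        inner_smul_left, inner_smul_right, Complex.conj_ofReal]
      congr 2
      change ⟪ξ, (star (c' l)) (c l ξ)⟫_ℂ = _
      rw [inner_star_right]
    rw [← Complex.re_sum]
    simp only [h1]
    rw [← Finset.mul_sum, ← Finset.sum_mul, sum_partner_inner hbal, Complex.re_ofReal_mul,
      Complex.re_ofReal_mul]
  rw [e2, e3, e4] at havg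
  -- the first sum
  have e1 : ∑ l, (⟪d (y ξ), EQ M N ξ (star (c l) * (z * c l)) (d ξ)⟫_ℂ).re =
      (⟪d (y ξ), smPhi M N ξ c z (d ξ)⟫_ℂ).re := by
    rw [smPhi, sum_apply, inner_sum, Complex.re_sum]
    exact Finset.sum_congr rfl fun l _ => by rw [mul_assoc]
  rw [e1] at havg
  have hmm := sum_partner_norm hbal hδ
  have h0 := h d d' hd
  -- the inner product with `T z`
  have hT : (⟪d (y ξ), smT M N ξ c m m₀ z (d ξ)⟫_ℂ).re =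
      (1 - m / (2 * m₀)) * (⟪d (y ξ), z (d ξ)⟫_ℂ).re +
      (1 / (2 * m₀)) * (⟪d (y ξ), smPhi M N ξ c z (d ξ)⟫_ℂ).re := by
    have : smT M N ξ c m m₀ z (d ξ) = ((1 - m / (2 * m₀) : ℝ) : ℂ) • z (d ξ) +
      ((1 / (2 * m₀) : ℝ) : ℂ) • smPhi M N ξ c z (d ξ) := rfl
    rw [this, inner_add_right, inner_smul_right, inner_smul_right, Complex.add_re,
      Complex.re_ofReal_mul, Complex.re_ofReal_mul]
  rw [hT]
  set P := (⟪d (y ξ), smPhi M N ξ c z (d ξ)⟫_ℂ).re with hP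
  set R := (⟪d (y ξ), z (d ξ)⟫_ℂ).re with hR
  set X := (⟪d' ξ, d ξ⟫_ℂ).re with hX
  have hs1 : 0 ≤ 1 - m / (2 * m₀) := by
    have : m / (2 * m₀) ≤ 1 := by
      rw [div_le_one (by positivity)]; linarith
    linarith
  have hs2 : 0 ≤ 1 / (2 * m₀) := by positivity
  have hP2 : (A - K / 2) * (m * ‖d ξ‖ ^ 2) - K / 2 * a * ((m + δ) * ‖d' ξ‖ ^ 2) + K * (m * X) ≤
      P := by
    have h5 : K / 2 * a * ((∑ l, ‖c' l ξ‖ ^ 2) * ‖d' ξ‖ ^ 2) ≤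
        K / 2 * a * ((m + δ) * ‖d' ξ‖ ^ 2) := by gcongr
    linarith
  have h6 := mul_le_mul_of_nonneg_left h0 hs1
  have h7 := mul_le_mul_of_nonneg_left hP2 hs2
  refine le_trans (le_of_eq ?_) (add_le_add h6 h7)
  field_simp
  ring

/-- MODULE B1 : smoothing inside `Q` with respect to a balanced finite family of partner pairs. -/
theorem smoothing {y : H →L[ℂ] H} (hy : y ∈ Qalg M N ξ) {κ K : ℝ} (hκ : 0 < κ) (hK : 0 ≤ K)
    (hLB : LB N ξ y κ K) {ι : Type*} [Fintype ι] {c c' : ι → H →L[ℂ] H}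
    (hc : ∀ l, Partner N ξ (c l) (c' l)) {m₀ δ : ℝ} (hm₀ : 0 < m₀)
    (hm : ∑ l, ‖c l ξ‖ ^ 2 ≤ m₀) (hδ : ∑ l, ‖(c' l - c l) ξ‖ ^ 2 ≤ δ)
    (hbal : ∑ l, ⟪c l ξ, (c' l - c l) ξ⟫_ℂ = 0) {n : ℕ} (hn : 0 < n)
    (hnδ : K * ((1 + δ / (2 * m₀)) ^ n - 1) ≤ κ) :
    ∃ z ∈ Qalg M N ξ, ‖(z - y) ξ‖ ^ 2 ≤ 2 * κ ∧
      ∑ l, ‖(z * c l - c l * z) ξ‖ ^ 2 ≤ 8 * m₀ * κ / n := by
  have hcN : ∀ l, c l ∈ N := fun l => (hc l).1
  have hδ0 : 0 ≤ δ := le_trans (Finset.sum_nonneg fun l _ => by positivity) hδ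
  set m := ∑ l, ‖c l ξ‖ ^ 2 with hmdef
  set zs := smSeq M N ξ c m m₀ y with hzs
  set r : ℝ := 1 + δ / (2 * m₀) with hr
  have hr1 : 1 ≤ r := by
    have : 0 ≤ δ / (2 * m₀) := by positivity
    linarith
  have hzQ : ∀ k, zs k ∈ Qalg M N ξ := by
    intro k
    induction k with
    | zero => exact hy
    | succ k ih => exact S.smT_mem hcN ih m m₀
  -- monotonicity of the norms
  have hdis : ∀ k, ∑ l, ‖(zs k * c l - c l * zs k) ξ‖ ^ 2 ≤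
      4 * m₀ * (‖zs k ξ‖ ^ 2 - ‖zs (k + 1) ξ‖ ^ 2) := fun k =>
    S.comm_sum_le hcN (hzQ k) hm₀ hm
  have hstep : ∀ k, ‖zs (k + 1) ξ‖ ^ 2 ≤ ‖zs k ξ‖ ^ 2 := by
    intro k
    have h1 : 0 ≤ 4 * m₀ * (‖zs k ξ‖ ^ 2 - ‖zs (k + 1) ξ‖ ^ 2) :=
      le_trans (Finset.sum_nonneg fun l _ => by positivity) (hdis k)
    have h2 : 0 ≤ ‖zs k ξ‖ ^ 2 - ‖zs (k + 1) ξ‖ ^ 2 :=
      (mul_nonneg_iff_of_pos_left (by positivity)).1 h1
    linarith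
  have hle : ∀ k, ‖zs k ξ‖ ^ 2 ≤ ‖y ξ‖ ^ 2 := by
    intro k
    induction k with
    | zero => exact le_rfl
    | succ k ih => exact (hstep k).trans ih
  -- the key lower bound
  have hkey : ∀ k, ∀ d d', Partner N ξ d d' → (‖y ξ‖ ^ 2 - κ / 2) * ‖d ξ‖ ^ 2 -
      (K / 2) * (r ^ k * ‖d' ξ‖ ^ 2 - 2 * (⟪d' ξ, d ξ⟫_ℂ).re + ‖d ξ‖ ^ 2) ≤
      (⟪d (y ξ), zs k (d ξ)⟫_ℂ).re := by
    intro k
    induction k with
    | zero =>
      intro d d' hd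
      have h1 := hLB d d' hd
      have e1 : (y * d - d * y) ξ = y (d ξ) - d (y ξ) := rfl
      rw [e1, norm_sub_rev, norm_sub_sq_re, S.norm_NQ hy hd.1, S.norm_Q S.irr hy hd.1,
        sub_apply, norm_sub_sq_re] at h1
      change _ ≤ (⟪d (y ξ), y (d ξ)⟫_ℂ).re
      rw [pow_zero]
      nlinarith
    | succ k ih =>
      intro d d' hd
      have h1 := S.key_step (hzQ k) hK (by positivity : (0 : ℝ) ≤ r ^ k) hc hm₀ hm hδ hbal ih d d' hd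
      rw [pow_succ]
      exact h1
  have hone : ∀ k, ‖y ξ‖ ^ 2 - κ / 2 - (K / 2) * (r ^ k - 1) ≤ (⟪y ξ, zs k ξ⟫_ℂ).re := by
    intro k
    have h1 := hkey k 1 1 Partner.one
    simp only [one_apply_eq_self] at h1
    have h2 : (⟪ξ, ξ⟫_ℂ).re = 1 := by rw [S.inner_self]; rfl
    rw [h2, S.norm_one] at h1
    linarith
  have hlow : ∀ k, k ≤ n → ‖y ξ‖ ^ 2 - κ ≤ (⟪y ξ, zs k ξ⟫_ℂ).re := by
    intro k hk
    have h1 := hone k
    have h2 : r ^ k ≤ r ^ n := pow_le_pow_right₀ hr1 hk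
    have h3 : K * (r ^ k - 1) ≤ K * (r ^ n - 1) := by gcongr
    linarith
  have hclose : ∀ k, k ≤ n → ‖(zs k - y) ξ‖ ^ 2 ≤ 2 * κ := by
    intro k hk
    have h1 := hlow k hk
    have h2 := hle k
    rw [sub_apply, norm_sub_rev, norm_sub_sq_re]
    linarith
  -- the norm of the last iterate
  have hlast : ‖y ξ‖ ^ 2 - 2 * κ ≤ ‖zs n ξ‖ ^ 2 := by
    have h1 := hlow n le_rfl
    have h2 : (⟪y ξ, zs n ξ⟫_ℂ).re ≤ ‖y ξ‖ * ‖zs n ξ‖ :=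
      (Complex.re_le_norm _).trans (norm_inner_le_norm _ _)
    nlinarith [sq_nonneg (‖y ξ‖ - ‖zs n ξ‖)]
  have htel : ∑ k ∈ Finset.range n, (‖zs k ξ‖ ^ 2 - ‖zs (k + 1) ξ‖ ^ 2) ≤ 2 * κ := by
    rw [Finset.sum_range_sub']
    change ‖y ξ‖ ^ 2 - ‖zs n ξ‖ ^ 2 ≤ 2 * κ
    linarith
  have hn' : (0 : ℝ) < n := by exact_mod_cast hn
  obtain ⟨k, hk, hkle⟩ : ∃ k ∈ Finset.range n, ‖zs k ξ‖ ^ 2 - ‖zs (k + 1) ξ‖ ^ 2 ≤ 2 * κ / n := by
    refine Finset.exists_le_of_sum_le ⟨0, Finset.mem_range.2 hn⟩ ?_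
    rw [Finset.sum_const, Finset.card_range, nsmul_eq_mul]
    refine htel.trans_eq ?_
    field_simp
  rw [Finset.mem_range] at hk
  refine ⟨zs k, hzQ k, hclose k hk.le, (hdis k).trans ?_⟩
  have h1 := mul_le_mul_of_nonneg_left hkle (by positivity : (0 : ℝ) ≤ 4 * m₀)
  refine h1.trans_eq ?_
  ring

end AP

end Pool.Agent.Helper23

end

section

open scoped InnerProductSpace Topology

open ContinuousLinearMap Filter

namespace Pool.Agent.Helper23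

variable {H : Type*} [NormedAddCommGroup H] [InnerProductSpace ℂ H] [CompleteSpace H]

variable {M N : VonNeumannAlgebra H} {ξ : H} {E : (H →L[ℂ] H) → (H →L[ℂ] H)}

theorem AP.smoothing' (S : AP M N E ξ) {y : H →L[ℂ] H} (hy : y ∈ Qalg M N ξ) {κ K : ℝ}
    (hκ : 0 < κ) (hK : 0 ≤ K)
    (hLB : LB N ξ y κ K) {ι : Type*} [Fintype ι] {c c' : ι → H →L[ℂ] H}
    (hc : ∀ l, Partner N ξ (c l) (c' l)) {G t : ℝ} (hG : 0 < G) (ht : 0 < t) (ht1 : t < 1)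
    (hm : ∑ l, ‖c l ξ‖ ^ 2 ≤ G) (hδ : ∑ l, ‖(c' l - c l) ξ‖ ^ 2 ≤ 25 * t ^ 2 * G)
    {n : ℕ} (hn : 0 < n) (hnδ : K * ((1 + 2 * t ^ 2) ^ n - 1) ≤ κ) :
    ∃ z ∈ Qalg M N ξ, ‖(z - y) ξ‖ ^ 2 ≤ 2 * κ ∧
      ∑ l, ‖(z * c l - c l * z) ξ‖ ^ 2 ≤ 96 * G * κ / n :=
  Helper53.PG.smoothing'_of S hκ hK
    (fun _ _ _ _ hc _ _ hm₀ hm hδ hbal _ hn hnδ =>
      S.smoothing hy hκ hK hLB hc hm₀ hm hδ hbal hn hnδ) hc hG ht ht1 hm hδ hn hnδ

end Pool.Agent.Helper23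

end

section

open scoped InnerProductSpace Topology ENNReal BoundedContinuousFunction

open ContinuousLinearMap Filter MeasureTheory

namespace Pool.Agent.Helper23.ED

open Pool.Agent.Helper23 Pool.Agent.Helper23.RBF

open Pool.Agent.Helper78.BC.Transport (Sub r)

universe u

variable {H : Type*} [NormedAddCommGroup H] [InnerProductSpace ℂ H] [CompleteSpace H]

variable {M N : VonNeumannAlgebra H} {ξ : H} {E : (H →L[ℂ] H) → (H →L[ℂ] H)}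

namespace MnA

/-- a scaling unitary on the side of `L²(ℝ; H)` -/
def SU (N : VonNeumannAlgebra H) (V : ℝ → H →L[ℂ] H) (s : ℝ) (U : L2R H →L[ℂ] L2R H) : Prop :=
  U ∈ amp N ∧ star U * U = 1 ∧ U * star U = 1 ∧ ∀ a, U * UV V a = ph a s • (UV V a * U)

/-- the quotient of two unitaries of the same scale commutes with the group -/
lemma quot_comm {V : ℝ → H →L[ℂ] H} {s : ℝ} {T U : L2R H →L[ℂ] L2R H}
    (hT : SU N V s T) (hU : SU N V s U) (a : ℝ) :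
    star T * U * UV V a = UV V a * (star T * U) := by
  obtain ⟨_, hT1, hT2, hT3⟩ := hT
  obtain ⟨_, _, _, hU3⟩ := hU
  have h1 : UV V a * star T = ph a s • (star T * UV V a) := by
    have h2 := congrArg (fun X => star T * X * star T) (hT3 a)
    simp only [mul_smul_comm, smul_mul_assoc] at h2
    rw [← mul_assoc, hT1, one_mul] at h2
    rw [h2, ← mul_assoc, mul_assoc (star T * UV V a), hT2, mul_one]
  rw [mul_assoc, hU3 a, mul_smul_comm, ← mul_assoc, ← mul_assoc, h1, smul_mul_assoc]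

lemma quot_unit {V : ℝ → H →L[ℂ] H} {s : ℝ} {T U : L2R H →L[ℂ] L2R H}
    (hT : SU N V s T) (hU : SU N V s U) :
    star T * U ∈ amp N ∧ star (star T * U) * (star T * U) = 1 ∧
      (star T * U) * star (star T * U) = 1 := by
  obtain ⟨hT0, hT1, hT2, _⟩ := hT
  obtain ⟨hU0, hU1, hU2, _⟩ := hU
  refine ⟨mul_mem (star_mem hT0) hU0, ?_, ?_⟩
  · rw [star_mul, star_star, mul_assoc, ← mul_assoc T, hT2, one_mul, hU1]
  · rw [star_mul, star_star, mul_assoc, ← mul_assoc U, hU2, one_mul, hT1]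

end MnA

end Pool.Agent.Helper23.ED

end
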