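import Pool.Agent.Helper23.FA.Ns
import Pool.Agent.Helper23.FA.L01_00
import Pool.Agent.Helper23.FA.L01_01
import Pool.Agent.Helper23.FA.L01_04
import Pool.Agent.Helper23.FA.L01_14
import Pool.Agent.Helper23.FA.L01_15
import Pool.Agent.Helper23.FA.L01_16
import Pool.Agent.Helper23.FA.L01_18
import Pool.Agent.Helper23.FA.L01_19

/-!
Parts of Helper23.Amp1, Helper23.Frame, Helper94.LbBicent, Helper23.UMain, Helper23.ED.Defs, Helper23.ED.SlB, Helper23.ED.SlC, Helper23.ED.WuA
-/

section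

open scoped InnerProductSpace Topology ENNReal

open ContinuousLinearMap Filter MeasureTheory

set_option linter.unusedSectionVars false

set_option linter.unusedVariables false

namespace Pool.Agent.Helper23

variable {G : Type*} [NormedAddCommGroup G] [InnerProductSpace ℂ G] [CompleteSpace G]

variable {G' : Type*} [NormedAddCommGroup G'] [InnerProductSpace ℂ G'] [CompleteSpace G']

variable {G'' : Type*} [NormedAddCommGroup G''] [InnerProductSpace ℂ G''] [CompleteSpace G'']

omit [CompleteSpace G] [CompleteSpace G'] in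
lemma lift_smul (c : ℂ) (a : G →L[ℂ] G') : lift (c • a) = c • lift a :=
  dec_smul c (Dec.const a)

end Pool.Agent.Helper23

end

section

open scoped InnerProductSpace Topology ENNReal

open ContinuousLinearMap Filter MeasureTheory

set_option linter.unusedSectionVars false

set_option linter.unusedVariables false

namespace Pool.Agent.Helper23

section SS

variable {K : Type*} [NormedAddCommGroup K] [InnerProductSpace ℂ K] [CompleteSpace K]

lemma q0_tr (t : ℝ) (f : L2R ℂ) : q0 (tr ℂ t f) = ENNReal.ofReal (Real.exp t) * q0 f := by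
  rw [q0, q0, ← lintegral_const_mul'' _ (by
    refine ENNReal.measurable_ofReal.comp_aemeasurable ?_
    exact Real.measurable_exp.aemeasurable.mul
      ((Lp.aestronglyMeasurable f).norm.aemeasurable.pow_const 2))]
  have h1 : ∫⁻ s, ENNReal.ofReal (Real.exp s * ‖tr ℂ t f s‖ ^ 2) =
      ∫⁻ s, (fun s => ENNReal.ofReal (Real.exp t) *
        ENNReal.ofReal (Real.exp s * ‖f s‖ ^ 2)) (s - t) := by
    refine lintegral_congr_ae ?_
    filter_upwards [tr_coe t f] with s hs
    rw [hs, ← ENNReal.ofReal_mul (by positivity), ← mul_assoc, ← Real.exp_add]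
    congr 3
    ring_nf
  rw [h1]
  exact lintegral_sub_right_eq_self (μ := volume) (fun s => ENNReal.ofReal (Real.exp t) *
    ENNReal.ofReal (Real.exp s * ‖f s‖ ^ 2)) t

end SS

end Pool.Agent.Helper23

end

section

open scoped InnerProductSpace Topology

open ContinuousLinearMap Filter

namespace Pool.Agent.Helper23

variable {H : Type*} [NormedAddCommGroup H] [InnerProductSpace ℂ H] [CompleteSpace H]

variable {M N : VonNeumannAlgebra H} {ξ : H} {E : (H →L[ℂ] H) → (H →L[ℂ] H)}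

/-- STEP 1: truncation -/
lemma exists_trunc {T : H →L[ℂ] H} (hT : T ∈ N) {R : ℝ} (hR : 0 < R) :
    ∃ g ∈ N, ‖g‖ ≤ R / 2 ∧ ‖(T - g) ξ‖ ≤ (2 * R)⁻¹ * ‖(star T * T) ξ‖ ∧
      ∀ d : ℝ, 0 ≤ d → Defect N ξ 1 d T → Defect N ξ 1 (9 / 4 * d) g := by
  obtain ⟨r, hrN, h1, h2⟩ := exists_resolvent hT hR
  obtain ⟨b1, b2, b3⟩ := resolvent_bounds hR h2
  set c : ℂ := ((R ^ 2 : ℝ) : ℂ) with hc
  set s : H →L[ℂ] H := c • (1 : H →L[ℂ] H) + star T * T with hs
  refine ⟨c • (T * r), smul_mem' _ (mul_mem hT hrN), ?_, ?_, ?_⟩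
  · rw [norm_smul, hc, Complex.norm_real, Real.norm_of_nonneg (by positivity)]
    calc R ^ 2 * ‖T * r‖ ≤ R ^ 2 * (2 * R)⁻¹ := by gcongr
      _ = R / 2 := by field_simp
  · have e1 : T - c • (T * r) = (T * r) * (star T * T) := by
      have e2 : T * r * s = T := by rw [mul_assoc, h1, mul_one]
      have e3 : T * r * s = c • (T * r) + (T * r) * (star T * T) := by
        rw [hs, mul_add, mul_smul_comm, mul_one]
      rw [sub_eq_iff_eq_add, add_comm, ← e3, e2]
    rw [e1]
    change ‖(T * r) ((star T * T) ξ)‖ ≤ _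
    exact (T * r).le_of_opNorm_le b2 _
  · intro d hd hD z hz
    have hD' : Defect N ξ 1 d (star T) := by
      have := hD.star one_pos
      simpa using this
    -- the three terms
    have t1 := hD (r * z) (mul_mem hrN hz)
    have t2 := hD (r * z * T * r * star T)
      (mul_mem (mul_mem (mul_mem (mul_mem hrN hz) hT) hrN) (star_mem hT))
    have t3 := hD' (T * r * z * T * r) (mul_mem (mul_mem (mul_mem (mul_mem hT hrN) hz) hT) hrN)
    rw [Complex.ofReal_one, one_mul] at t1 t2 t3 ⊢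
    -- operator identities
    have E1 : r * z * T = c • (r * z * T * r) + r * z * T * r * (star T * T) := by
      have e2 : r * z * T * r * s = r * z * T := by rw [mul_assoc _ r s, h1, mul_one]
      calc r * z * T = r * z * T * r * s := e2.symm
        _ = _ := by rw [hs, mul_add, mul_smul_comm, mul_one]
    have E2 : star T * T * r * z * T * r = z * T * r - c • (r * z * T * r) := by
      have e2 : s * r * z * T * r = z * T * r := by rw [h2, one_mul]
      have e3 : s * r * z * T * r = c • (r * z * T * r) + star T * T * r * z * T * r := by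
        rw [hs]
        simp only [add_mul, smul_mul_assoc, one_mul]
      rw [← e2, e3, add_sub_cancel_left]
    have F1 := congrArg (fun X : H →L[ℂ] H => ⟪ξ, X ξ⟫_ℂ) E1
    have F2 := congrArg (fun X : H →L[ℂ] H => ⟪ξ, X ξ⟫_ℂ) E2
    simp only [add_apply, sub_apply, smul_apply, inner_add_right, inner_sub_right,
      inner_smul_right] at F1 F2
    have key : ⟪ξ, z ((c • (T * r)) ξ)⟫_ℂ - ⟪ξ, (c • (T * r)) (z ξ)⟫_ℂ =
        c * ((⟪ξ, (r * z) (T ξ)⟫_ℂ - ⟪ξ, T ((r * z) ξ)⟫_ℂ) -
          (⟪ξ, (r * z * T * r * star T) (T ξ)⟫_ℂ - ⟪ξ, T ((r * z * T * r * star T) ξ)⟫_ℂ) -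
          (⟪ξ, (T * r * z * T * r) ((star T) ξ)⟫_ℂ - ⟪ξ, (star T) ((T * r * z * T * r) ξ)⟫_ℂ)) := by
      rw [smul_apply, smul_apply, map_smul, inner_smul_right, inner_smul_right, ← mul_sub]
      congr 1
      have G1 : ⟪ξ, (r * z) (T ξ)⟫_ℂ = c * ⟪ξ, (r * z * T * r) ξ⟫_ℂ +
          ⟪ξ, (r * z * T * r * star T) (T ξ)⟫_ℂ := F1
      have G2 : ⟪ξ, (star T) ((T * r * z * T * r) ξ)⟫_ℂ = ⟪ξ, z ((T * r) ξ)⟫_ℂ -
          c * ⟪ξ, (r * z * T * r) ξ⟫_ℂ := F2
      have G3 : ⟪ξ, T ((r * z * T * r * star T) ξ)⟫_ℂ =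
          ⟪ξ, (T * r * z * T * r) ((star T) ξ)⟫_ℂ := rfl
      have G4 : ⟪ξ, T ((r * z) ξ)⟫_ℂ = ⟪ξ, (T * r) (z ξ)⟫_ℂ := rfl
      rw [G1, G2, G3, G4]
      ring
    rw [key, norm_mul, hc, Complex.norm_real, Real.norm_of_nonneg (by positivity)]
    have n1 : ‖r * z‖ ≤ (R ^ 2)⁻¹ * ‖z‖ := (norm_mul_le _ _).trans (by gcongr)
    have n2 : ‖r * z * T * r * star T‖ ≤ (R ^ 2)⁻¹ * ‖z‖ := by
      have : r * z * T * r * star T = (r * z) * (T * r * star T) := by simp only [mul_assoc]
      rw [this]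
      calc ‖(r * z) * (T * r * star T)‖ ≤ ‖r * z‖ * ‖T * r * star T‖ := norm_mul_le _ _
        _ ≤ ((R ^ 2)⁻¹ * ‖z‖) * 1 := by gcongr
        _ = _ := mul_one _
    have n3 : ‖T * r * z * T * r‖ ≤ (2 * R)⁻¹ * ‖z‖ * (2 * R)⁻¹ := by
      have : T * r * z * T * r = (T * r) * z * (T * r) := by simp only [mul_assoc]
      rw [this]
      refine (norm_mul_le _ _).trans ?_
      gcongr
      refine (norm_mul_le _ _).trans ?_
      gcongr
    have m1 := t1.trans (mul_le_mul_of_nonneg_left n1 hd)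
    have m2 := t2.trans (mul_le_mul_of_nonneg_left n2 hd)
    have m3 := t3.trans (mul_le_mul_of_nonneg_left n3 hd)
    have m4 := (norm_sub_le _ _).trans (add_le_add ((norm_sub_le _ _).trans (add_le_add m1 m2)) m3)
    calc _ ≤ R ^ 2 * (d * ((R ^ 2)⁻¹ * ‖z‖) + d * ((R ^ 2)⁻¹ * ‖z‖) +
          d * ((2 * R)⁻¹ * ‖z‖ * (2 * R)⁻¹)) := by gcongr
      _ = 9 / 4 * d * ‖z‖ := by field_simp; ring

end Pool.Agent.Helper23

end

section

open scoped InnerProductSpace Topology ENNReal BoundedContinuousFunction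

open ContinuousLinearMap Filter MeasureTheory

namespace Pool.Agent.Helper23

variable {H : Type*} [NormedAddCommGroup H] [InnerProductSpace ℂ H] [CompleteSpace H]

variable {M N : VonNeumannAlgebra H} {ξ : H} {E : (H →L[ℂ] H) → (H →L[ℂ] H)}

open RBF

lemma lift_zero' : lift (0 : H →L[ℂ] H) = 0 := by
  have := lift_smul (0 : ℂ) (0 : H →L[ℂ] H)
  rwa [zero_smul, zero_smul] at this

end Pool.Agent.Helper23

end

section

open scoped InnerProductSpace Topology ENNReal BoundedContinuousFunction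

open ContinuousLinearMap Filter MeasureTheory

namespace Pool.Agent.Helper23.ED

open Pool.Agent.Helper23 Pool.Agent.Helper23.RBF

open Pool.Agent.Helper78.BC.Transport (Sub r)

universe u

section amp

variable {H : Type*} [NormedAddCommGroup H] [InnerProductSpace ℂ H] [CompleteSpace H]

/-- intertwiners of the group `W` with `e^{i t s} W` -/
def CS (N : VonNeumannAlgebra H) (W : ℝ → H →L[ℂ] H) (s : ℝ) : Set (H →L[ℂ] H) :=
  {x | x ∈ N ∧ ‖x‖ ≤ 1 ∧ ∀ t, x * W t = ph t s • (W t * x)}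

end amp

end Pool.Agent.Helper23.ED

end

section

open scoped InnerProductSpace Topology ENNReal BoundedContinuousFunction

open ContinuousLinearMap Filter MeasureTheory

namespace Pool.Agent.Helper23.ED

open Pool.Agent.Helper23 Pool.Agent.Helper23.RBF

open Pool.Agent.Helper78.BC.Transport (Sub r)

universe u

open TopologicalSpace

variable {H : Type*} [NormedAddCommGroup H] [InnerProductSpace ℂ H] [CompleteSpace H]

variable {N : VonNeumannAlgebra H} {ξ : H} {W : ℝ → H →L[ℂ] H}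

/-- closedness of the field of intertwiners -/
lemma slB_closed {ι : Type*} (F : Ultrafilter ι) {σ : ι → ℝ} {s : ℝ}
    (hσ : Tendsto σ (F : Filter ι) (𝓝 s)) {x : ι → H →L[ℂ] H} (hx : ∀ i, x i ∈ CS N W (σ i)) :
    ∃ X ∈ CS N W s, ∀ w v, Tendsto (fun i => ⟪w, x i v⟫_ℂ) (F : Filter ι) (𝓝 ⟪w, X v⟫_ℂ) := by
  obtain ⟨X, hX1, hX⟩ := slB_ulim F (fun i => (hx i).2.1)
  refine ⟨X, ⟨?_, hX1, ?_⟩, hX⟩
  · rw [mem_iff_commutes]
    intro g hg
    ext v
    refine ext_inner_left ℂ fun w => ?_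
    change ⟪w, g (X v)⟫_ℂ = ⟪w, X (g v)⟫_ℂ
    have h1 := hX ((ContinuousLinearMap.adjoint g) w) v
    have h2 := hX w (g v)
    rw [ContinuousLinearMap.adjoint_inner_left] at h1
    refine tendsto_nhds_unique h1 (h2.congr fun i => ?_)
    rw [ContinuousLinearMap.adjoint_inner_left]
    have := mem_iff_commutes.1 (hx i).1 g hg
    have h3 := congrArg (fun T : H →L[ℂ] H => T v) this
    exact congrArg (fun z => ⟪w, z⟫_ℂ) h3.symm
  · intro t
    ext v
    refine ext_inner_left ℂ fun w => ?_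
    change ⟪w, X (W t v)⟫_ℂ = ⟪w, ph t s • (W t (X v))⟫_ℂ
    rw [inner_smul_right]
    have h1 := hX w (W t v)
    have h2 := hX ((ContinuousLinearMap.adjoint (W t)) w) v
    rw [ContinuousLinearMap.adjoint_inner_left] at h2
    have h3 : Tendsto (fun i => ph t (σ i)) (F : Filter ι) (𝓝 (ph t s)) := by
      have hc : Continuous fun c : ℝ => ph t c := by
        unfold ph
        fun_prop
      exact (hc.tendsto s).comp hσ
    refine tendsto_nhds_unique h1 ((h3.mul h2).congr fun i => ?_)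
    rw [ContinuousLinearMap.adjoint_inner_left]
    have h4 := congrArg (fun T : H →L[ℂ] H => T v) ((hx i).2.2 t)
    have h5 : x i (W t v) = ph t (σ i) • W t (x i v) := h4
    rw [h5, inner_smul_right]

lemma slB_zero_mem (s : ℝ) : (0 : H →L[ℂ] H) ∈ CS N W s := by
  refine ⟨zero_mem N, ?_, fun t => ?_⟩
  · rw [norm_zero]; exact zero_le_one
  · rw [zero_mul, mul_zero, smul_zero]

theorem exists_near [SeparableSpace H] (hW : UG W) (hd : Dense (orb N.commutant ξ : Set H))
    (η : H) : ∃ x : ℝ → H →L[ℂ] H, (∀ s, x s ∈ CS N W s) ∧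
      (∀ s, ∀ y ∈ CS N W s, ‖x s ξ - y ξ‖ ≤ ‖η - y ξ‖) ∧ Dec x ∧ Dec (fun s => star (x s)) := by
  obtain ⟨p, hp, hp', hpm⟩ := exists_sel (C := fun s => {v | ∃ x ∈ CS N W s, x ξ = v})
    (fun s => ⟨_, 0, slB_zero_mem s, rfl⟩)
    (by
      intro s
      rintro _ ⟨x, hx, rfl⟩ _ ⟨y, hy, rfl⟩ a c ha hc hac
      refine ⟨(a : ℂ) • x + (c : ℂ) • y, ⟨?_, ?_, ?_⟩, rfl⟩
      · exact add_mem (smul_mem' _ hx.1) (smul_mem' _ hy.1)
      · refine (norm_add_le _ _).trans ?_
        rw [norm_smul, norm_smul, Complex.norm_real, Complex.norm_real, Real.norm_of_nonneg ha,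
          Real.norm_of_nonneg hc]
        have h1 := mul_le_mul_of_nonneg_left hx.2.1 ha
        have h2 := mul_le_mul_of_nonneg_left hy.2.1 hc
        linarith
      · intro t
        rw [add_mul, mul_add, smul_mul_assoc, smul_mul_assoc, hx.2.2, hy.2.2, smul_add,
          mul_smul_comm, mul_smul_comm, smul_comm (a : ℂ), smul_comm (c : ℂ)])
    (by
      intro s
      refine IsSeqClosed.isClosed ?_
      intro v v₀ hv hv0
      choose x hx hxv using hv
      obtain ⟨X, hX, hXt⟩ := slB_closed (hyperfilter ℕ) (σ := fun _ => s)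
        tendsto_const_nhds hx
      refine ⟨X, hX, ?_⟩
      refine ext_inner_left ℂ fun w => ?_
      refine tendsto_nhds_unique (hXt w ξ) ?_
      have h1 : Tendsto (fun n => ⟪w, v n⟫_ℂ) ((hyperfilter ℕ : Ultrafilter ℕ) : Filter ℕ)
          (𝓝 ⟪w, v₀⟫_ℂ) := by
        refine Tendsto.mono_left ?_ Nat.hyperfilter_le_atTop
        exact (tendsto_const_nhds (x := w)).inner hv0
      refine h1.congr fun n => ?_
      rw [hxv])
    (r := ‖ξ‖)
    (by
      rintro s _ ⟨x, hx, rfl⟩
      refine (x.le_opNorm ξ).trans ?_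
      have := mul_le_mul_of_nonneg_right hx.2.1 (norm_nonneg ξ)
      rwa [one_mul] at this)
    (by
      intro F s hF v v₀ hv hv0
      choose x hx hxv using hv
      obtain ⟨X, hX, hXt⟩ := slB_closed F (σ := fun s' => s') hF hx
      refine ⟨X, hX, ?_⟩
      refine ext_inner_left ℂ fun w => ?_
      refine tendsto_nhds_unique (hXt w ξ) ?_
      refine (hv0 w).congr fun n => ?_
      rw [hxv])
    η
  choose x hx hxp using hp
  have hm : ∀ w v, Measurable fun s => ⟪w, x s v⟫_ℂ := by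
    intro w v
    obtain ⟨u, hu, hut⟩ := mem_closure_iff_seq_limit.1 (hd v)
    have h1 : ∀ n, Measurable fun s => ⟪w, x s (u n)⟫_ℂ := by
      intro n
      obtain ⟨b, hb, hbu⟩ := hu n
      have h2 : (fun s => ⟪w, x s (u n)⟫_ℂ) =
          fun s => ⟪(ContinuousLinearMap.adjoint b) w, p s⟫_ℂ := by
        funext s
        rw [ContinuousLinearMap.adjoint_inner_left, ← hxp s, ← hbu, commute_apply (hx s).1 hb]
      rw [h2]
      exact hpm _
    refine measurable_of_tendsto_metrizable h1 (tendsto_pi_nhds.2 fun s => ?_)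
    have h3 : Tendsto (fun n => x s (u n)) atTop (𝓝 (x s v)) :=
      ((x s).continuous.tendsto v).comp hut
    exact (tendsto_const_nhds (x := w)).inner h3
  refine ⟨x, hx, ?_, slB_dec (fun s => (hx s).2.1) hm, slB_dec (fun s => ?_) ?_⟩
  · intro s y hy
    rw [hxp s]
    exact hp' s _ ⟨y, hy, rfl⟩
  · rw [norm_star]
    exact (hx s).2.1
  · intro w v
    have h1 : (fun s => ⟪w, (star (x s)) v⟫_ℂ) = fun s => (starRingEnd ℂ) ⟪v, x s w⟫_ℂ := by
      funext s
      rw [ContinuousLinearMap.star_eq_adjoint, ContinuousLinearMap.adjoint_inner_right,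
        inner_conj_symm]
    rw [h1]
    exact Complex.continuous_conj.measurable.comp (hm v w)

end Pool.Agent.Helper23.ED

end

section

open scoped InnerProductSpace Topology ENNReal BoundedContinuousFunction

open ContinuousLinearMap Filter MeasureTheory

namespace Pool.Agent.Helper23.ED

open Pool.Agent.Helper23 Pool.Agent.Helper23.RBF

open Pool.Agent.Helper78.BC.Transport (Sub r)

universe u

open TopologicalSpace

variable {H : Type*} [NormedAddCommGroup H] [InnerProductSpace ℂ H] [CompleteSpace H]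

variable {N : VonNeumannAlgebra H} {ξ : H} {W : ℝ → H →L[ℂ] H}

theorem exists_fam [SeparableSpace H] (hW : UG W) (hd : Dense (orb N.commutant ξ : Set H))
    (hs : ∀ s, ∃ u ∈ N, star u * u = 1 ∧ u * star u = 1 ∧
      ∀ t, u * W t = ph t s • (W t * u)) :
    ∃ Z : ℕ → (L2R H →L[ℂ] L2R H), (∀ j, Z j ∈ amp N) ∧ (∀ j, ‖Z j‖ ≤ 1) ∧
      (∀ j a, Z j * lift (W a) = UV W a * Z j) ∧
      (∀ F, (∀ j, Z j F = 0) → F = 0) ∧ ∀ F, (∀ j, (star (Z j)) F = 0) → F = 0 := by
  have : Nonempty H := ⟨0⟩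
  let η : ℕ → H := denseSeq H
  have hη : DenseRange η := denseRange_denseSeq H
  choose x hxC hnear hDec hDec' using fun j => exists_near hW hd (η j)
  have happ : ∀ s, ∃ u : H →L[ℂ] H, star u * u = 1 ∧ u * star u = 1 ∧ ∀ v : H, ∀ ε : ℝ, 0 < ε →
      ∃ j, ‖x j s v - u v‖ < ε := by
    intro s
    obtain ⟨u, huN, h1, h2, h3⟩ := hs s
    have hu1 := SlC.norm_le_one h1
    exact ⟨u, h1, h2, fun v ε hε => SlC.approx hd hη (fun j => (hxC j s).1)
      (fun j => (hxC j s).2.1) huN hu1 (fun j => hnear j s u ⟨huN, hu1, h3⟩) v hε⟩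
  refine ⟨fun j => dec (x j), fun j => dec_mem_amp (hDec j) fun s => (hxC j s).1,
    fun j => dec_norm zero_le_one fun s => (hxC j s).2.1, fun j a => ?_, fun F hF => ?_,
    fun F hF => ?_⟩
  · ext F : 1
    ext1
    change dec (x j) (lift (W a) F) =ᵐ[volume] lift (W a) (mulOp H (ems a) (dec (x j) F))
    filter_upwards [dec_coe (hDec j) (lift (W a) F), lift_coe (W a) F,
      lift_coe (W a) (mulOp H (ems a) (dec (x j) F)), mulOp_coe (SlC.bm_ems a) (dec (x j) F),
      dec_coe (hDec j) F] with s h1 h2 h3 h4 h5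
    rw [h1, h2, h3, h4, h5, map_smul]
    exact congrArg (fun T : H →L[ℂ] H => T (F s)) ((hxC j s).2.2 a)
  · have h1 : ∀ᵐ s, ∀ j, x j s (F s) = 0 := by
      rw [ae_all_iff]
      intro j
      have h2 : dec (x j) F =ᵐ[volume] 0 := by
        have h3 : dec (x j) F = 0 := hF j
        rw [h3]
        exact Lp.coeFn_zero _ _ _
      filter_upwards [dec_coe (hDec j) F, h2] with s h4 h5
      rw [← h4, h5]
      rfl
    ext1
    refine EventuallyEq.trans ?_ (Lp.coeFn_zero _ _ _).symm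
    filter_upwards [h1] with s h2
    obtain ⟨u, hu, _, happ⟩ := happ s
    have h3 : u (F s) = 0 := by
      by_contra hne
      obtain ⟨j, hj⟩ := happ (F s) ‖u (F s)‖ (norm_pos_iff.2 hne)
      rw [h2 j, zero_sub, norm_neg] at hj
      exact lt_irrefl _ hj
    have h4 : (star u * u) (F s) = F s := by rw [hu]; rfl
    rw [← h4]
    change star u (u (F s)) = 0
    rw [h3, map_zero]
  · have h1 : ∀ᵐ s, ∀ j, star (x j s) (F s) = 0 := by
      rw [ae_all_iff]
      intro j
      have h2 : dec (fun s => star (x j s)) F =ᵐ[volume] 0 := by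
        have h3 : star (dec (x j)) F = 0 := hF j
        rw [SlC.dec_star (hDec j) (hDec' j)] at h3
        rw [h3]
        exact Lp.coeFn_zero _ _ _
      filter_upwards [dec_coe (hDec' j) F, h2] with s h4 h5
      rw [← h4, h5]
      rfl
    ext1
    refine EventuallyEq.trans ?_ (Lp.coeFn_zero _ _ _).symm
    filter_upwards [h1] with s h2
    obtain ⟨u, _, hu, happ⟩ := happ s
    have h3 : ∀ v : H, ⟪F s, u v⟫_ℂ = 0 := by
      intro v
      by_contra hne
      have hpos : 0 < ‖⟪F s, u v⟫_ℂ‖ := norm_pos_iff.2 hne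
      obtain ⟨j, hj⟩ := happ v (‖⟪F s, u v⟫_ℂ‖ / (‖F s‖ + 1)) (by positivity)
      have h4 : ⟪F s, x j s v⟫_ℂ = 0 := by
        rw [← ContinuousLinearMap.adjoint_inner_left, ← ContinuousLinearMap.star_eq_adjoint, h2 j,
          inner_zero_left]
      have h5 : ‖⟪F s, u v⟫_ℂ‖ ≤ ‖F s‖ * ‖x j s v - u v‖ := by
        have h6 : ⟪F s, u v⟫_ℂ = -⟪F s, x j s v - u v⟫_ℂ := by
          rw [inner_sub_right, h4]
          ring
        rw [h6, norm_neg]
        exact norm_inner_le_norm _ _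
      have h7 : ‖F s‖ * ‖x j s v - u v‖ ≤ ‖F s‖ * (‖⟪F s, u v⟫_ℂ‖ / (‖F s‖ + 1)) :=
        mul_le_mul_of_nonneg_left hj.le (norm_nonneg _)
      have h8 : ‖F s‖ * (‖⟪F s, u v⟫_ℂ‖ / (‖F s‖ + 1)) < ‖⟪F s, u v⟫_ℂ‖ := by
        rw [← mul_div_assoc, div_lt_iff₀ (by positivity)]
        nlinarith [norm_nonneg (F s)]
      linarith
    have h9 : ⟪F s, F s⟫_ℂ = 0 := by
      have h10 : (u * star u) (F s) = F s := by rw [hu]; rfl
      have h11 := h3 (star u (F s))
      have h12 : u (star u (F s)) = F s := h10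
      rwa [h12] at h11
    exact inner_self_eq_zero.1 h9

end Pool.Agent.Helper23.ED

end

section

open scoped InnerProductSpace Topology ENNReal BoundedContinuousFunction

open ContinuousLinearMap Filter MeasureTheory

namespace Pool.Agent.Helper23.ED

open Pool.Agent.Helper23 Pool.Agent.Helper23.RBF

open Pool.Agent.Helper78.BC.Transport (Sub r)

universe u

open TopologicalSpace

variable {H : Type*} [NormedAddCommGroup H] [InnerProductSpace ℂ H] [CompleteSpace H]

variable {N : VonNeumannAlgebra H} {ξ : H} {W : ℝ → H →L[ℂ] H}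

namespace WuA

lemma UV_star (hW : UG W) (a : ℝ) : star (UV W a) = UV W (-a) := by
  rw [UV, UV, star_mul, ← lift_star, hW.star, mulOp_star (ems_bm a), ems_conj]
  ext F : 1
  exact mulOp_lift (ems_bm (-a)) (W (-a)) F

section sums

variable {s : ℕ → H →L[ℂ] H} {Z : ℕ → L2R H →L[ℂ] L2R H}

lemma summable_term (h1 : ∀ i, star (s i) * s i = 1) (hZ : ∀ j, ‖Z j‖ ≤ 1) :
    Summable (term s Z) := by
  refine Summable.of_norm_bounded (g := fun j : ℕ => (1 / 2 : ℝ) ^ j)
    (summable_geometric_of_lt_one (by norm_num) (by norm_num)) fun j => ?_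
  unfold term
  rw [norm_smul, Complex.norm_real, Real.norm_of_nonneg (by positivity)]
  have h2 : ‖lift (s j) * Z j‖ ≤ 1 := by
    refine (norm_mul_le _ _).trans ?_
    calc ‖lift (s j)‖ * ‖Z j‖ ≤ 1 * 1 := by
          refine mul_le_mul ((lift_norm _).trans (norm_le_one (h1 j))) (hZ j) (norm_nonneg _)
            zero_le_one
      _ = 1 := one_mul 1
  exact mul_le_of_le_one_right (by positivity) h2

lemma star_mul_B (h1 : ∀ i, star (s i) * s i = 1) (h2 : ∀ i j, i ≠ j → star (s i) * s j = 0)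
    (hZ : ∀ j, ‖Z j‖ ≤ 1) (k : ℕ) :
    star (lift (s k)) * B s Z = (((1 / 2 : ℝ) ^ k : ℝ) : ℂ) • Z k := by
  have h3 := (summable_term h1 hZ).hasSum.mul_left (star (lift (s k)))
  have h4 : HasSum (fun j => star (lift (s k)) * term s Z j)
      (star (lift (s k)) * term s Z k) := by
    refine hasSum_single k fun j hj => ?_
    unfold term
    rw [mul_smul_comm, ← mul_assoc, ← lift_star, ← lift_mul, h2 k j (Ne.symm hj), lift_zero',
      zero_mul, smul_zero]
  rw [B, h3.unique h4]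
  unfold term
  rw [mul_smul_comm, ← mul_assoc, ← lift_star, ← lift_mul, h1, lift_one, one_mul]

lemma B_comm (h1 : ∀ i, star (s i) * s i = 1) (hZ : ∀ j, ‖Z j‖ ≤ 1)
    {X Y : L2R H →L[ℂ] L2R H} (hXY : ∀ j, Z j * X = Y * Z j)
    (hY : ∀ j, lift (s j) * Y = Y * lift (s j)) : B s Z * X = Y * B s Z := by
  have h3 := (summable_term h1 hZ).hasSum.mul_right X
  have h4 := (summable_term h1 hZ).hasSum.mul_left Y
  have h5 : (fun j => term s Z j * X) = fun j => Y * term s Z j := by
    funext j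
    unfold term
    rw [smul_mul_assoc, mul_assoc, hXY, ← mul_assoc, hY, mul_assoc, mul_smul_comm]
  rw [h5] at h3
  exact h3.unique h4

lemma eq_zero_of_B (h1 : ∀ i, star (s i) * s i = 1) (h2 : ∀ i j, i ≠ j → star (s i) * s j = 0)
    (hZ : ∀ j, ‖Z j‖ ≤ 1) (hZ0 : ∀ F, (∀ j, Z j F = 0) → F = 0) {F : L2R H}
    (hF : B s Z F = 0) : F = 0 := by
  refine hZ0 F fun k => ?_
  have h3 := congrArg (fun T : L2R H →L[ℂ] L2R H => T F) (star_mul_B h1 h2 hZ k)
  change (star (lift (s k))) (B s Z F) = (((1 / 2 : ℝ) ^ k : ℝ) : ℂ) • Z k F at h3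
  rw [hF, map_zero] at h3
  have h4 : (((1 / 2 : ℝ) ^ k : ℝ) : ℂ) ≠ 0 := by
    rw [Complex.ofReal_ne_zero]
    positivity
  exact (smul_eq_zero.1 h3.symm).resolve_left h4

end sums

end WuA

open WuA in
theorem exists_W_UV [SeparableSpace H] (hW : UG W)
    (hd : Dense (orb N.commutant ξ : Set H))
    (hs : ∀ s, ∃ u ∈ N, star u * u = 1 ∧ u * star u = 1 ∧
      ∀ t, u * W t = ph t s • (W t * u))
    {v w : H →L[ℂ] H} (hv : v ∈ N) (hw : w ∈ N) (hvv : star v * v = 1) (hww : star w * w = 1)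
    (hvw : star v * w = 0) (hvW : ∀ t, v * W t = W t * v) (hwW : ∀ t, w * W t = W t * w) :
    ∃ V : H ≃ₗᵢ[ℂ] L2R H, (∀ a ∈ N.commutant, ∀ x, V (a x) = lift a (V x)) ∧
      ∀ t x, V (W t x) = UV W t (V x) := by
  obtain ⟨Z, hZN, hZ1, hZW, hZ0, hZ0'⟩ := exists_fam hW hd hs
  obtain ⟨h3, h4⟩ := pow_isom hvv hww hvw
  set s : ℕ → H →L[ℂ] H := fun n => v ^ n * w with hsdef
  have hsN : ∀ n, s n ∈ N := fun n => mul_mem (pow_mem hv n) hw
  have hsW : ∀ n t, s n * W t = W t * s n := by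
    intro n t
    have h5 : v ^ n * W t = W t * v ^ n := (Commute.pow_left (hvW t) n)
    rw [hsdef]
    change v ^ n * w * W t = W t * (v ^ n * w)
    rw [mul_assoc, hwW, ← mul_assoc, h5, mul_assoc]
  have hstarW : ∀ t, star (W t) = W (-t) := hW.star
  -- the algebra containing the isometries
  set P : VonNeumannAlgebra H := cvn ((N.commutant : Set (H →L[ℂ] H)) ∪ Set.range W) with hP
  have hsP : ∀ n, s n ∈ P := by
    intro n
    rw [hP, mem_cvn]
    rintro g (hg | ⟨t, rfl⟩)
    · exact ⟨(mem_comm_iff.1 hg _ (hsN n)).symm, (mem_comm_iff.1 (star_mem hg) _ (hsN n)).symm⟩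
    · exact ⟨(hsW n t).symm, by rw [hstarW]; exact (hsW n _).symm⟩
  have : Countable Pool.Agent.Helper23.hw := hw_countable
  obtain ⟨n, hn⟩ := exists_injective_nat Pool.Agent.Helper23.hw
  obtain ⟨J, hJ, hJa⟩ := exists_J (N := P) (s := fun i : Pool.Agent.Helper23.hw => s (n i))
    (fun i => hsP _) (fun i => h3 _) (fun i j hij => h4 _ _ (hn.ne hij))
  have hJN : ∀ a ∈ N.commutant, ∀ x, J (lift a x) = a (J x) := fun a ha =>
    hJa a (mem_cvn_commutant (Or.inl ha))
  have hJW : ∀ t x, J (lift (W t) x) = W t (J x) := fun t =>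
    hJa _ (mem_cvn_commutant (Or.inr ⟨t, rfl⟩))
  -- commutation with the lifts
  have hsa : ∀ j, ∀ a ∈ N.commutant, lift (s j) * lift a = lift a * lift (s j) := by
    intro j a ha
    rw [← lift_mul, ← lift_mul, mem_comm_iff.1 ha _ (hsN j)]
  have hsWl : ∀ j t, lift (s j) * lift (W t) = lift (W t) * lift (s j) := by
    intro j t
    rw [← lift_mul, ← lift_mul, hsW]
  have hsUV : ∀ j t, lift (s j) * UV W t = UV W t * lift (s j) := by
    intro j t
    have h5 : mulOp H (ems t) * lift (s j) = lift (s j) * mulOp H (ems t) := by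
      ext F : 1
      exact mulOp_lift (ems_bm t) (s j) F
    rw [UV, ← mul_assoc, hsWl, mul_assoc, ← h5, ← mul_assoc]
  have hZs1 : ∀ j, ‖star (Z j)‖ ≤ 1 := fun j => by
    rw [ContinuousLinearMap.star_eq_adjoint, LinearIsometryEquiv.norm_map]
    exact hZ1 j
  have hZs : ∀ j t, star (Z j) * UV W t = lift (W t) * star (Z j) := by
    intro j t
    have h5 := congrArg star (hZW j (-t))
    rw [star_mul, star_mul, ← lift_star, hstarW, UV_star hW, neg_neg] at h5
    exact h5.symm
  -- the two intertwiners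
  have hB1 : ∀ t, B s Z * lift (W t) = UV W t * B s Z := fun t =>
    B_comm h3 hZ1 (fun j => hZW j t) fun j => hsUV j t
  have hB1a : ∀ a ∈ N.commutant, B s Z * lift a = lift a * B s Z := fun a ha =>
    B_comm h3 hZ1 (fun j => (mem_amp.1 (hZN j) a ha).symm) fun j => hsa j a ha
  have hB2 : ∀ t, B s (fun j => star (Z j)) * UV W t =
      lift (W t) * B s (fun j => star (Z j)) := fun t =>
    B_comm h3 hZs1 (fun j => hZs j t) fun j => hsWl j t
  have hB2a : ∀ a ∈ N.commutant, B s (fun j => star (Z j)) * lift a =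
      lift a * B s (fun j => star (Z j)) := fun a ha =>
    B_comm h3 hZs1 (fun j => (mem_amp.1 (star_mem (hZN j)) a ha).symm) fun j => hsa j a ha
  have hap : ∀ {X Y X' Y' : L2R H →L[ℂ] L2R H}, X * Y = X' * Y' → ∀ F, X (Y F) = X' (Y' F) :=
    fun h F => congrArg (fun T : L2R H →L[ℂ] L2R H => T F) h
  set A1 : H →L[ℂ] L2R H := (B s Z).comp (iot H e0) with hA1
  set A2 : L2R H →L[ℂ] H := J.comp (B s (fun j => star (Z j))) with hA2
  have hiot : ∀ (a : H →L[ℂ] H) x, iot H e0 (a x) = lift a (iot H e0 x) := by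
    intro a x
    rw [iot_apply, iot_apply, lift_ten]
  have hA1a : ∀ a ∈ N.commutant, ∀ x, A1 (a x) = lift a (A1 x) := by
    intro a ha x
    change B s Z (iot H e0 (a x)) = lift a (B s Z (iot H e0 x))
    rw [hiot]
    exact hap (hB1a a ha) _
  have hA1W : ∀ t x, A1 (W t x) = UV W t (A1 x) := by
    intro t x
    change B s Z (iot H e0 (W t x)) = UV W t (B s Z (iot H e0 x))
    rw [hiot]
    exact hap (hB1 t) _
  have hA2a : ∀ a ∈ N.commutant, ∀ F, A2 (lift a F) = a (A2 F) := by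
    intro a ha F
    change J (B s (fun j => star (Z j)) (lift a F)) = a (J (B s (fun j => star (Z j)) F))
    rw [← hJN a ha]
    exact congrArg J (hap (hB2a a ha) F)
  have hA2W : ∀ t F, A2 (UV W t F) = W t (A2 F) := by
    intro t F
    change J (B s (fun j => star (Z j)) (UV W t F)) = W t (J (B s (fun j => star (Z j)) F))
    rw [← hJW t]
    exact congrArg J (hap (hB2 t) F)
  have hA1i : ∀ x, A1 x = 0 → x = 0 := by
    intro x hx
    have h5 : iot H e0 x = 0 := eq_zero_of_B h3 h4 hZ1 hZ0 hx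
    rw [iot_apply, ← norm_eq_zero, norm_ten, e0_norm, one_mul, norm_eq_zero] at h5
    exact h5
  have hA2i : ∀ F, A2 F = 0 → F = 0 := by
    intro F hF
    refine eq_zero_of_B h3 h4 hZs1 hZ0' ?_
    have h5 : J (B s (fun j => star (Z j)) F) = 0 := hF
    have h6 := hJ (B s (fun j => star (Z j)) F) (B s (fun j => star (Z j)) F)
    rw [h5, inner_zero_left] at h6
    exact inner_self_eq_zero.1 h6.symm
  obtain ⟨I1, hI1, hI1c⟩ := exists_isom_of_inj A1 hA1i
  obtain ⟨I2, hI2, hI2c⟩ := exists_isom_of_inj A2 hA2i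
  obtain ⟨V, hV⟩ := csb I1 I2 hI1 hI2
  refine ⟨V, fun a ha => ?_, fun t => ?_⟩
  · have h5 : star (lift a) = lift (star a) := (lift_star a).symm
    have ha' : star a ∈ N.commutant := star_mem ha
    refine hV a (lift a) ?_ ?_ ?_ ?_
    · exact hI1c a (lift a) (hA1a a ha) (by rw [h5]; exact hA1a _ ha')
    · exact hI2c (lift a) a (hA2a a ha) (by rw [h5]; exact hA2a _ ha')
    · rw [h5]
      exact hI1c _ _ (hA1a _ ha') (by rw [← lift_star, star_star]; exact hA1a a ha)
    · rw [h5]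
      exact hI2c _ _ (hA2a _ ha') (by rw [← lift_star, star_star]; exact hA2a a ha)
  · have h5 : star (UV W t) = UV W (-t) := UV_star hW t
    have h6 : star (W t) = W (-t) := hstarW t
    refine hV (W t) (UV W t) ?_ ?_ ?_ ?_
    · exact hI1c _ _ (hA1W t) (by rw [h5, h6]; exact hA1W _)
    · exact hI2c _ _ (hA2W t) (by rw [h5, h6]; exact hA2W _)
    · rw [h5, h6]
      exact hI1c _ _ (hA1W _) (by rw [UV_star hW, hstarW, neg_neg]; exact hA1W t)
    · rw [h5, h6]
      exact hI2c _ _ (hA2W _) (by rw [UV_star hW, hstarW, neg_neg]; exact hA2W t)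

end Pool.Agent.Helper23.ED

end
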