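import Pool.Agent.Helper23.FA.Ns
import Pool.Agent.Helper23.FA.L00_09
import Pool.Agent.Helper23.FA.L01_00
import Pool.Agent.Helper23.FA.L01_01
import Pool.Agent.Helper23.FA.L01_05
import Pool.Agent.Helper23.FA.L01_10
import Pool.Agent.Helper23.FA.L01_11
import Pool.Agent.Helper23.FA.L01_14
import Pool.Agent.Helper23.FA.L01_16
import Pool.Agent.Helper23.FA.L01_17
import Pool.Agent.Helper23.FA.L01_18

/-!
Parts of Helper72.UPow.Near, Helper53.U.III1, Helper23.UPi, Helper23.UMain, Helper88.CS.Trick1, Helper88.CS.Trick2, Helper23.ED.GgB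
-/

section

open scoped InnerProductSpace Topology BoundedContinuousFunction ComplexOrder

open ContinuousLinearMap Filter

namespace Pool.Agent.Helper23

variable {H : Type*} [NormedAddCommGroup H] [InnerProductSpace ℂ H] [CompleteSpace H]

variable {M N : VonNeumannAlgebra H} {ξ : H} {E : (H →L[ℂ] H) → (H →L[ℂ] H)}

namespace Setting

variable (S : Setting M N E ξ)

include S

omit S in
lemma lamU_star {l : ℝ} (hl : 0 < l) {a : ℕ → H →L[ℂ] H} (ha : LamU N ξ l a) :
    LamU N ξ l⁻¹ (fun n => star (a n)) := by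
  obtain ⟨haN, ⟨C, hC⟩, hD⟩ := ha
  refine ⟨fun n => star_mem (haN n), ⟨C, fun n => by rw [norm_star]; exact hC n⟩,
    fun ε hε => ?_⟩
  filter_upwards [hD (l * ε) (by positivity)] with n hn
  have := hn.star hl
  rwa [← mul_assoc, inv_mul_cancel₀ hl.ne', one_mul] at this

end Setting

end Pool.Agent.Helper23

end

section

open scoped InnerProductSpace Topology

open ContinuousLinearMap Filter

namespace Pool.Agent.Helper23

universe u

variable {H : Type u} [NormedAddCommGroup H] [InnerProductSpace ℂ H] [CompleteSpace H]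
  {N : VonNeumannAlgebra H} {ξ : H}

theorem iii_step (hξ : ‖ξ‖ = 1) {l : ℝ} (hl : 0 < l) {α β ε : ℝ} (hα : α ^ 2 = 1 / (1 + l))
    (hβ : β ^ 2 = l / (1 + l)) (hε : 0 ≤ ε) {u v w : H →L[ℂ] H} (hu : u ∈ N) (hv : v ∈ N)
    (hw : w ∈ N) (hu1 : star u * u = 1) (hvv : star v * v = 1) (hww : star w * w = 1)
    (hwv : star w * v = 0)
    (h : ∀ x ∈ N, ‖((α ^ 2 : ℝ) : ℂ) * ⟪ξ, (star (u * v) * x * (u * v)) ξ⟫_ℂ +
        ((β ^ 2 : ℝ) : ℂ) * ⟪ξ, (star (u * w) * x * (u * w)) ξ⟫_ℂ - ⟪ξ, x ξ⟫_ℂ‖ ≤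
        ε * ‖x‖) :
    ∃ a ∈ N, ‖a‖ ≤ 1 ∧ Defect N ξ l ((1 + l) * ε) a ∧ l / (1 + l) ≤ ‖a ξ‖ ^ 2 + ε := by
  have haN : u * (v * star w) * star u ∈ N :=
    mul_mem (mul_mem hu (mul_mem hv (star_mem hw))) (star_mem hu)
  have hna : ‖u * (v * star w) * star u‖ ≤ 1 := by
    have hnu : ‖u‖ ≤ 1 := norm_le_one_of_isom hu1
    have hnv : ‖v‖ ≤ 1 := norm_le_one_of_isom hvv
    have hnw : ‖w‖ ≤ 1 := norm_le_one_of_isom hww
    have h1 : ‖v * star w‖ ≤ 1 := (norm_mul_le _ _).trans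
      (mul_le_one₀ hnv (norm_nonneg _) (by rw [norm_star]; exact hnw))
    have h2 : ‖u * (v * star w)‖ ≤ 1 :=
      (norm_mul_le _ _).trans (mul_le_one₀ hnu (norm_nonneg _) h1)
    exact (norm_mul_le _ _).trans (mul_le_one₀ h2 (norm_nonneg _) (by rw [norm_star]; exact hnu))
  have hE1 := fun z => iii_e1 (A := H →L[ℂ] H) hu1 hwv z
  have hE2 := fun z => iii_e2 (A := H →L[ℂ] H) (v := v) hu1 hww z
  have hE3 := fun z => iii_e3 (A := H →L[ℂ] H) (w := w) hu1 hvv z
  have hE4 := fun z => iii_e4 (A := H →L[ℂ] H) hu1 hwv z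
  have hss := iii_ss (A := H →L[ℂ] H) (w := w) hu1 hvv
  have hE5 := iii_e5 (A := H →L[ℂ] H) hu1 hwv
  have hE6 := iii_e6 (A := H →L[ℂ] H) hu1 hww
  generalize u * (v * star w) * star u = a at *
  have hl1 : (l : ℂ) * ((α ^ 2 : ℝ) : ℂ) = ((β ^ 2 : ℝ) : ℂ) := by
    rw [hα, hβ, ← Complex.ofReal_mul]
    congr 1
    field_simp
  refine ⟨a, haN, hna, ?_, ?_⟩
  · intro z hz
    have h2 := h (z * a) (mul_mem hz haN)
    have h3 := h (a * z) (mul_mem haN hz)
    rw [hE1, hE2] at h2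
    rw [hE3, hE4] at h3
    generalize hB : ⟪ξ, (star w * (star u * (z * (u * v)))) ξ⟫_ℂ = B at h2 h3
    have hz0 : ⟪ξ, (0 : H →L[ℂ] H) ξ⟫_ℂ = 0 := inner_zero_right ξ
    rw [hz0, mul_zero, zero_add] at h2
    rw [hz0, mul_zero, add_zero] at h3
    have a1 : (z * a) ξ = z (a ξ) := rfl
    have a2 : (a * z) ξ = a (z ξ) := rfl
    rw [a1] at h2
    rw [a2] at h3
    have h4 : ‖z * a‖ ≤ ‖z‖ := by
      refine (norm_mul_le _ _).trans ?_
      have := mul_le_mul_of_nonneg_left hna (norm_nonneg z)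
      rwa [mul_one] at this
    have h5 : ‖a * z‖ ≤ ‖z‖ := by
      refine (norm_mul_le _ _).trans ?_
      have := mul_le_mul_of_nonneg_right hna (norm_nonneg z)
      rwa [one_mul] at this
    have e5 : ⟪ξ, z (a ξ)⟫_ℂ - l * ⟪ξ, a (z ξ)⟫_ℂ =
        -(((β ^ 2 : ℝ) : ℂ) * B - ⟪ξ, z (a ξ)⟫_ℂ) +
        (l : ℂ) * (((α ^ 2 : ℝ) : ℂ) * B - ⟪ξ, a (z ξ)⟫_ℂ) := by
      rw [← hl1]
      ring
    rw [e5]
    calc _ ≤ ‖-(((β ^ 2 : ℝ) : ℂ) * B - ⟪ξ, z (a ξ)⟫_ℂ)‖ +
          ‖(l : ℂ) * (((α ^ 2 : ℝ) : ℂ) * B - ⟪ξ, a (z ξ)⟫_ℂ)‖ := norm_add_le _ _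
      _ = ‖((β ^ 2 : ℝ) : ℂ) * B - ⟪ξ, z (a ξ)⟫_ℂ‖ +
          l * ‖((α ^ 2 : ℝ) : ℂ) * B - ⟪ξ, a (z ξ)⟫_ℂ‖ := by
            rw [norm_neg, norm_mul, Complex.norm_real, Real.norm_eq_abs, abs_of_pos hl]
      _ ≤ ε * ‖z * a‖ + l * (ε * ‖a * z‖) := by gcongr
      _ ≤ ε * ‖z‖ + l * (ε * ‖z‖) := by gcongr
      _ = (1 + l) * ε * ‖z‖ := by ring
  · have h2 := h (star a * a) (mul_mem (star_mem haN) haN)
    have e3 := inner_star_mul_self a ξ
    have e4 : ⟪ξ, (1 : H →L[ℂ] H) ξ⟫_ℂ = 1 := by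
      have : (1 : H →L[ℂ] H) ξ = ξ := rfl
      rw [this, inner_self_eq_norm_sq_to_K, hξ]
      norm_num
    have h4 : ‖star a * a‖ ≤ 1 :=
      (norm_mul_le _ _).trans (mul_le_one₀ (by rw [norm_star]; exact hna)
        (norm_nonneg _) hna)
    have hz0 : ⟪ξ, (0 : H →L[ℂ] H) ξ⟫_ℂ = 0 := inner_zero_right ξ
    rw [e3, hss, hE5, hE6, e4, hz0, mul_zero, zero_add, mul_one,
      ← Complex.ofReal_sub, Complex.norm_real, Real.norm_eq_abs, hβ, ← hss] at h2
    have h5 := (abs_le.1 h2).2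
    have h6 := mul_le_mul_of_nonneg_left h4 hε
    linarith

theorem TypeIIIOne.exists_lamSeq (hN : TypeIIIOne N) (hξ : ‖ξ‖ = 1) {l : ℝ} (hl : 0 < l) :
    ∃ a, LamSeq N ξ l a ∧ ¬ Tendsto (fun n => a n ξ) atTop (𝓝 0) := by
  obtain ⟨⟨v, hv, w, hw, hvv, hww, hvw⟩, hst⟩ := hN
  have hwv : star w * v = 0 := by
    have := congrArg star hvw
    rwa [star_mul, star_star, star_zero] at this
  obtain ⟨α, hα⟩ : ∃ α : ℝ, α ^ 2 = 1 / (1 + l) := ⟨Real.sqrt (1 / (1 + l)),
    Real.sq_sqrt (by positivity)⟩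
  obtain ⟨β, hβ⟩ : ∃ β : ℝ, β ^ 2 = l / (1 + l) := ⟨Real.sqrt (l / (1 + l)),
    Real.sq_sqrt (by positivity)⟩
  have hnorm : ‖(α : ℂ) • v ξ‖ ^ 2 + ‖(β : ℂ) • w ξ‖ ^ 2 = 1 := by
    rw [norm_smul, norm_smul, norm_isom_apply hvv, norm_isom_apply hww, hξ, Complex.norm_real,
      Complex.norm_real, mul_one, mul_one, Real.norm_eq_abs, Real.norm_eq_abs, sq_abs, sq_abs,
      hα, hβ]
    field_simp
  have hζ : ‖ξ‖ ^ 2 + ‖(0 : H)‖ ^ 2 = 1 := by rw [hξ, norm_zero]; norm_num
  have hex : ∀ n : ℕ, ∃ a ∈ N, ‖a‖ ≤ 1 ∧ Defect N ξ l ((1 + l) * (1 / ((n : ℝ) + 1))) a ∧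
      l / (1 + l) ≤ ‖a ξ‖ ^ 2 + 1 / ((n : ℝ) + 1) := by
    intro n
    obtain ⟨u, hu, h1, -, h3⟩ := hst _ _ ξ 0 hnorm hζ (1 / ((n : ℝ) + 1)) (by positivity)
    refine iii_step hξ hl hα hβ (by positivity) hu hv hw h1 hvv hww hwv fun x hx => ?_
    have h4 := h3 x hx
    rw [inner_conj_aux, inner_conj_aux, inner_zero_left, add_zero] at h4
    exact h4
  choose a haN hna haD hal using hex
  refine ⟨a, ⟨haN, ⟨1, hna⟩, ?_⟩, ?_⟩
  · intro ε hε
    have h1 : ∀ᶠ n : ℕ in atTop, (1 + l) * (1 / ((n : ℝ) + 1)) < ε := by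
      have h2 := (tendsto_one_div_add_atTop_nhds_zero_nat (𝕜 := ℝ)).const_mul (1 + l)
      rw [mul_zero] at h2
      exact h2.eventually (gt_mem_nhds hε)
    exact h1.mono fun n hn => (haD n).mono hn.le
  · intro hT
    have h2 : Tendsto (fun n : ℕ => ‖a n ξ‖ ^ 2 + 1 / ((n : ℝ) + 1)) atTop
        (𝓝 (‖(0 : H)‖ ^ 2 + 0)) :=
      (hT.norm.pow 2).add (tendsto_one_div_add_atTop_nhds_zero_nat (𝕜 := ℝ))
    have h3 := ge_of_tendsto' h2 hal
    rw [norm_zero] at h3
    have h4 : 0 < l / (1 + l) := by positivity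
    norm_num at h3
    linarith

end Pool.Agent.Helper23

end

section

open scoped InnerProductSpace Topology ENNReal

open ContinuousLinearMap Filter MeasureTheory

namespace Pool.Agent.Helper23

variable {H : Type*} [NormedAddCommGroup H] [InnerProductSpace ℂ H] [CompleteSpace H]

variable {M N : VonNeumannAlgebra H} {ξ : H} {E : (H →L[ℂ] H) → (H →L[ℂ] H)}

namespace Setting

variable (S : Setting M N E ξ)

include S

/-- the state of `u* z u` for asymptotically central unitaries -/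
lemma norm_ACU {u : ℕ → H →L[ℂ] H} (hu : ACU N ξ u) {z : H →L[ℂ] H} (hz : z ∈ M) :
    Tendsto (fun n => ‖z (u n ξ)‖) atTop (𝓝 ‖z ξ‖) := by
  have hφ : Tendsto (fun n => ⟪ξ, (star (u n) * (star z * z) * u n) ξ⟫_ℂ) atTop
      (𝓝 ⟪ξ, (star z * z) ξ⟫_ℂ) := by
    rw [tendsto_iff_norm_sub_tendsto_zero]
    rw [Metric.tendsto_atTop]
    intro ε hε
    have hxx : star z * z ∈ M := mul_mem (star_mem hz) hz
    have hEx : E (star z * z) ∈ N := S.E_mem _ hxx
    have h1 := hu.2.2.2 (ε / (2 * (‖E (star z * z)‖ + 1))) (by positivity)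
    obtain ⟨n0, hn0⟩ := eventually_atTop.1 h1
    refine ⟨n0, fun n hn => ?_⟩
    have h2 := hn0 n hn (star (u n) * E (star z * z))
      (mul_mem (star_mem (hu.1 n)) hEx)
    rw [Real.dist_eq, sub_zero, abs_of_nonneg (norm_nonneg _)]
    have e1 : ⟪ξ, (star (u n) * (star z * z) * u n) ξ⟫_ℂ =
        ⟪ξ, (star (u n) * E (star z * z)) (u n ξ)⟫_ℂ := by
      rw [← S.E_state _ (mul_mem (mul_mem (star_mem (S.le _ (hu.1 n))) hxx) (S.le _ (hu.1 n))),
        S.E_bimod _ (star_mem (hu.1 n)) _ (hu.1 n) _ hxx]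
      rfl
    have e2 : ⟪ξ, (star z * z) ξ⟫_ℂ = ⟪ξ, u n ((star (u n) * E (star z * z)) ξ)⟫_ℂ := by
      rw [← S.E_state _ hxx]
      have : u n ((star (u n) * E (star z * z)) ξ) = E (star z * z) ξ :=
        congrArg (fun T : H →L[ℂ] H => T (E (star z * z) ξ)) (hu.2.2.1 n)
      rw [this]
    rw [e1, e2]
    rw [Complex.ofReal_one, one_mul] at h2
    refine lt_of_le_of_lt h2 ?_
    have e3 : ‖star (u n) * E (star z * z)‖ ≤ ‖E (star z * z)‖ := by
      refine (norm_mul_le _ _).trans ?_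
      rw [norm_star]
      calc ‖u n‖ * ‖E (star z * z)‖ ≤ 1 * ‖E (star z * z)‖ := by
            gcongr; exact norm_le_one_of_isom (hu.2.1 n)
        _ = _ := one_mul _
    calc ε / (2 * (‖E (star z * z)‖ + 1)) * ‖star (u n) * E (star z * z)‖ ≤
          ε / (2 * (‖E (star z * z)‖ + 1)) * (‖E (star z * z)‖ + 1) := by
            gcongr; linarith
      _ = ε / 2 := by field_simp
      _ < ε := by linarith
  have h1 : ∀ n, (⟪ξ, (star (u n) * (star z * z) * u n) ξ⟫_ℂ).re = ‖z (u n ξ)‖ ^ 2 := by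
    intro n
    have h1 : ⟪ξ, (star (u n) * (star z * z) * u n) ξ⟫_ℂ = ⟪z (u n ξ), z (u n ξ)⟫_ℂ := by
      change ⟪ξ, (star (u n)) ((star z) (z (u n ξ)))⟫_ℂ = _
      rw [inner_star_right, inner_star_right]
    rw [h1, inner_self_eq_norm_sq_to_K]
    norm_cast
  have h2 : (⟪ξ, (star z * z) ξ⟫_ℂ).re = ‖z ξ‖ ^ 2 := by
    have h1 : ⟪ξ, (star z * z) ξ⟫_ℂ = ⟪z ξ, z ξ⟫_ℂ := by
      change ⟪ξ, (star z) (z ξ)⟫_ℂ = _
      rw [inner_star_right]
    rw [h1, inner_self_eq_norm_sq_to_K]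
    norm_cast
  have h3 := (Complex.continuous_re.tendsto _).comp hφ
  rw [h2] at h3
  have h4 : Tendsto (fun n => ‖z (u n ξ)‖ ^ 2) atTop (𝓝 (‖z ξ‖ ^ 2)) := by
    refine h3.congr fun n => ?_
    exact h1 n
  have h5 := (Real.continuous_sqrt.tendsto _).comp h4
  rw [Real.sqrt_sq (norm_nonneg _)] at h5
  refine h5.congr fun n => ?_
  exact Real.sqrt_sq (norm_nonneg _)

/-- closedness of the bicentralizer -/
lemma bicent_of_closure {x : H →L[ℂ] H} (hx : x ∈ M)
    (h : x ξ ∈ closure {v : H | ∃ y ∈ Bicent M N ξ, v = y ξ}) : x ∈ Bicent M N ξ := by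
  refine S.bicent_of_unitary hx fun u hu => ?_
  rw [Metric.tendsto_atTop]
  intro ε hε
  obtain ⟨_, ⟨y, hy, rfl⟩, hd⟩ := Metric.mem_closure_iff.1 h (ε / 8) (by positivity)
  rw [dist_eq_norm] at hd
  obtain ⟨n0, hn0⟩ := Metric.tendsto_atTop.1 (hy.2 u (AP.ACU_lamSeq hu) ξ) (ε / 4)
    (by positivity)
  have hxy : x - y ∈ M := sub_mem hx hy.1
  obtain ⟨n1, hn1⟩ := Metric.tendsto_atTop.1 (S.norm_ACU hu hxy) (ε / 8) (by positivity)
  refine ⟨max n0 n1, fun n hn => ?_⟩
  have h1 := hn0 n (le_trans (le_max_left _ _) hn)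
  rw [dist_zero_right] at h1 ⊢
  have h2 : ‖(x - y) (u n ξ)‖ ≤ ε / 4 := by
    have h3 := hn1 n (le_trans (le_max_right _ _) hn)
    rw [Real.dist_eq] at h3
    have h4 := abs_lt.1 h3
    have h5 : ‖(x - y) ξ‖ < ε / 8 := hd
    linarith
  have h3 : ‖u n ((x - y) ξ)‖ ≤ ε / 4 := by
    rw [norm_of_isom (hu.2.1 n)]
    have h5 : ‖(x - y) ξ‖ < ε / 8 := hd
    linarith
  have e1 : x (u n ξ) - u n (x ξ) = (x - y) (u n ξ) - u n ((x - y) ξ) +
      (y (u n ξ) - u n (y ξ)) := by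
    rw [sub_apply, sub_apply, map_sub]
    abel
  rw [e1]
  calc _ ≤ ‖(x - y) (u n ξ) - u n ((x - y) ξ)‖ + ‖y (u n ξ) - u n (y ξ)‖ := norm_add_le _ _
    _ ≤ (‖(x - y) (u n ξ)‖ + ‖u n ((x - y) ξ)‖) + ‖y (u n ξ) - u n (y ξ)‖ := by
        gcongr; exact norm_sub_le _ _
    _ < ε := by linarith

end Setting

end Pool.Agent.Helper23

end

section

open scoped InnerProductSpace Topology ENNReal BoundedContinuousFunction

open ContinuousLinearMap Filter MeasureTheory

namespace Pool.Agent.Helper23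

variable {H : Type*} [NormedAddCommGroup H] [InnerProductSpace ℂ H] [CompleteSpace H]

variable {M N : VonNeumannAlgebra H} {ξ : H} {E : (H →L[ℂ] H) → (H →L[ℂ] H)}

open RBF

namespace Setting

variable (S : Setting M N E ξ)

include S

/-- the bicentralizer as a star subalgebra -/
noncomputable def Bsub : StarSubalgebra ℂ (H →L[ℂ] H) where
  carrier := {x | x ∈ Bicent M N ξ}
  mul_mem' := fun hx hy => AP.bicent_mul hx hy
  add_mem' := fun hx hy => AP.bicent_add hx hy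
  algebraMap_mem' := fun c => by
    rw [Algebra.algebraMap_eq_smul_one]
    exact AP.bicent_smul c AP.bicent_one
  star_mem' := fun hx => S.bicent_star hx

lemma mem_Bsub {x : H →L[ℂ] H} : x ∈ S.Bsub ↔ x ∈ Bicent M N ξ := Iff.rfl

lemma Bsub_bicomm {T : H →L[ℂ] H}
    (hT : T ∈ Set.centralizer (Set.centralizer (S.Bsub : Set (H →L[ℂ] H)))) : T ∈ Bicent M N ξ := by
  rw [Set.mem_centralizer_iff] at hT
  have hM : ∀ m ∈ M.commutant, m ∈ Set.centralizer (S.Bsub : Set (H →L[ℂ] H)) := by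
    intro m hm
    rw [Set.mem_centralizer_iff]
    intro y hy
    exact (mem_comm_iff.1 hm) y (S.mem_Bsub.1 hy).1
  have hQ : T ∈ M := mem_iff_commutes.2 fun m hm => hT m (hM m hm)
  refine S.bicent_of_closure hQ ?_
  set V : Submodule ℂ H := ((S.Bsub.toSubmodule).map (evξ ξ)).topologicalClosure with hV
  have hVc : IsClosed (V : Set H) := Submodule.isClosed_topologicalClosure _
  have : CompleteSpace V := hVc.completeSpace_coe
  have hBV : ∀ y, y ∈ Bicent M N ξ → y ξ ∈ V := fun y hy =>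
    Submodule.le_topologicalClosure _ ⟨y, hy, rfl⟩
  have hVcl : (V : Set H) = closure {v : H | ∃ y ∈ Bicent M N ξ, v = y ξ} := by
    have h1 : (V : Set H) = closure (((S.Bsub.toSubmodule).map (evξ ξ) : Submodule ℂ H) : Set H) :=
      Submodule.topologicalClosure_coe _
    rw [h1]
    congr 1
    ext v
    constructor
    · rintro ⟨y, hy, rfl⟩
      exact ⟨y, hy, rfl⟩
    · rintro ⟨y, hy, rfl⟩
      exact ⟨y, hy, rfl⟩
  have hinv : ∀ y, y ∈ Bicent M N ξ → ∀ v ∈ V, y v ∈ V := by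
    intro y hy v hv
    have h2 : v ∈ closure {v : H | ∃ y ∈ Bicent M N ξ, v = y ξ} := by
      rw [← hVcl]; exact hv
    have hsub : {v : H | ∃ y ∈ Bicent M N ξ, v = y ξ} ⊆ y ⁻¹' (V : Set H) := by
      rintro _ ⟨z, hz, rfl⟩
      exact hBV _ (AP.bicent_mul hy hz)
    exact closure_minimal hsub (hVc.preimage y.continuous) h2
  have hP : V.starProjection ∈ Set.centralizer (S.Bsub : Set (H →L[ℂ] H)) := by
    rw [Set.mem_centralizer_iff]
    intro y hy
    have hy' : y ∈ Bicent M N ξ := hy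
    ext v
    change y (V.starProjection v) = V.starProjection (y v)
    have h1 : y (V.starProjection v) ∈ V := hinv y hy' _ (Submodule.starProjection_apply_mem _ _)
    have h2 : V.starProjection (y (v - V.starProjection v)) = 0 := by
      rw [← inner_self_eq_zero (𝕜 := ℂ), Submodule.inner_starProjection_left_eq_right,
        Submodule.starProjection_eq_self_iff.2 (Submodule.starProjection_apply_mem _ _)]
      rw [← inner_star_right y]
      have h3 : (star y) (V.starProjection (y (v - V.starProjection v))) ∈ V :=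
        hinv _ (S.bicent_star hy') _ (Submodule.starProjection_apply_mem _ _)
      rw [inner_sub_left, Submodule.inner_starProjection_left_eq_right,
        Submodule.starProjection_eq_self_iff.2 h3, sub_self]
    rw [map_sub, map_sub, sub_eq_zero, Submodule.starProjection_eq_self_iff.2 h1] at h2
    exact h2.symm
  have h1 := hT _ hP
  have h2 := congrArg (fun T : H →L[ℂ] H => T ξ) h1
  change V.starProjection (T ξ) = T (V.starProjection ξ) at h2
  have hξ : ξ ∈ V := by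
    have := hBV 1 AP.bicent_one
    simpa using this
  rw [Submodule.starProjection_eq_self_iff.2 hξ] at h2
  rw [← hVcl, ← h2]
  exact Submodule.starProjection_apply_mem _ _

/-- the bicentralizer as a von Neumann algebra -/
noncomputable def Balg : VonNeumannAlgebra H where
  toStarSubalgebra := S.Bsub
  centralizer_centralizer' := by
    refine Set.Subset.antisymm (fun T hT => S.Bsub_bicomm hT) ?_
    exact Set.subset_centralizer_centralizer

lemma mem_Balg {x : H →L[ℂ] H} : x ∈ S.Balg ↔ x ∈ Bicent M N ξ := Iff.rfl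

lemma Balg_isBicentralizer : IsBicentralizer M N ξ S.Balg := by
  intro x
  rw [S.mem_Balg]
  rfl

end Setting

namespace BFlow

variable (S : BFlow M N E ξ)

include S

theorem flow_strong {x : H →L[ℂ] H} (hb : x ∈ Bicent M N ξ) {l : ℝ} (hl : 0 < l)
    {a : ℕ → H →L[ℂ] H} (ha : LamSeq N ξ l a) (η : H) :
    Tendsto (fun n => (a n * x - btU M N ξ l x * a n) η) atTop (𝓝 0) := by
  have h1 := S.flow x hb l hl a ha
  obtain ⟨haN, ⟨C, hC⟩, hD⟩ := ha
  refine tendsto_of_bounded M S.dense_comm (x := fun n => a n * x - btU M N ξ l x * a n)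
    (C := C * ‖x‖ + ‖btU M N ξ l x‖ * C)
    (fun n => sub_mem (mul_mem (S.le _ (haN n)) hb.1)
      (mul_mem (S.bt_mem x hb l hl).1 (S.le _ (haN n))))
    (fun n => (norm_sub_le _ _).trans (add_le_add
      ((norm_mul_le _ _).trans (mul_le_mul_of_nonneg_right (hC n) (norm_nonneg _)))
      ((norm_mul_le _ _).trans (mul_le_mul_of_nonneg_left (hC n) (norm_nonneg _))))) h1 η

theorem flow_strong_star {x : H →L[ℂ] H} (hb' : x ∈ Bicent M N ξ) {l : ℝ} (hl : 0 < l)
    {a : ℕ → H →L[ℂ] H} (ha : LamSeq N ξ l a) (η : H) :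
    Tendsto (fun n => (star (a n * x - btU M N ξ l x * a n)) η) atTop (𝓝 0) := by
  have hb : LamSeq N ξ l⁻¹ (fun n => star (a n)) := by
    obtain ⟨haN, ⟨C, hC⟩, hD⟩ := ha
    exact ⟨fun n => star_mem (haN n), ⟨C, fun n => by rw [norm_star]; exact hC n⟩,
      Dseq.star hl hD⟩
  have hy := S.bicent_star (S.bt_mem x hb' l hl)
  have h1 := S.flow_strong hy (inv_pos.2 hl) hb η
  have h2 : btU M N ξ l⁻¹ (star (btU M N ξ l x)) = star x := by
    rw [S.bt_star _ (S.bt_mem x hb' l hl) _ (inv_pos.2 hl), S.bt_bt x hb' _ (inv_pos.2 hl) _ hl,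
      inv_mul_cancel₀ hl.ne', S.bt_one_act x hb']
  rw [h2] at h1
  have h3 := h1.neg
  rw [neg_zero] at h3
  refine h3.congr fun n => ?_
  rw [star_sub, star_mul, star_mul, ← neg_apply, neg_sub]

/-- the relative bicentralizer flow -/
theorem isRelativeBicentralizerFlow :
    IsRelativeBicentralizerFlow N ξ S.Balg (btU M N ξ) where
  flow :=
    { automorphism := fun l hl =>
        { maps := fun x hx => S.bt_mem x hx l hl
          injective := fun x hx y hy h => by
            have h1 := congrArg (btU M N ξ l⁻¹) h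
            rwa [S.bt_bt x hx _ (inv_pos.2 hl) _ hl, S.bt_bt y hy _ (inv_pos.2 hl) _ hl,
              inv_mul_cancel₀ hl.ne', S.bt_one_act x hx, S.bt_one_act y hy] at h1
          surjective := fun y hy => ⟨btU M N ξ l⁻¹ y, S.bt_mem y hy _ (inv_pos.2 hl), by
            rw [S.bt_bt y hy _ hl _ (inv_pos.2 hl), mul_inv_cancel₀ hl.ne', S.bt_one_act y hy]⟩
          add := fun x hx y hy => S.bt_add x hx y hy l hl
          mul := fun x hx y hy => S.bt_mul x hx y hy l hl
          smul := fun c x hx => S.bt_smul c x hx l hl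
          star := fun x hx => S.bt_star x hx l hl }
      action := fun l m hl hm x hx => (S.bt_bt x hx l hl m hm).symm
      continuous := fun x hx η => S.bt_cont x hx η }
  property := fun l hl a ha x hx η =>
    ⟨S.flow_strong hx hl ha η, S.flow_strong_star hx hl ha η⟩
  unique := fun β' hβ' h l hl x hx =>
    S.flow_uniq x hx _ (hβ' l hl x hx).1 l hl fun a ha => (h l hl a ha x hx ξ).1

end BFlow

end Pool.Agent.Helper23

end

section

open scoped InnerProductSpace Topology BoundedContinuousFunction CompactlySupported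

open ContinuousLinearMap Filter MeasureTheory

namespace Pool.Agent.Helper88.CS

open Pool.Agent.Helper23

open Pool.Agent.Helper78.BC (Std rm Fixed)

variable {H : Type*} [NormedAddCommGroup H] [InnerProductSpace ℂ H] [CompleteSpace H]

variable {A : VonNeumannAlgebra H} {J : H →L[ℝ] H} {κ : H}

open Trick1Aux in
/-- A self-adjoint `X` which almost commutes with `κ` has a spectral symmetry `F` (the function
`sgn(s) 1_{|s| > c}` of `X`) which almost commutes with `κ`. -/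
theorem cut (hJ : Conj A J) (hκ : J κ = κ) {X : H →L[ℂ] H} (hX : X ∈ A) (hs : star X = X)
    {δ : ℝ} (hδ : 0 < δ) (hX0 : X κ ≠ 0) (h : ‖X κ - J (X κ)‖ ≤ δ * ‖X κ‖) :
    ∃ F ∈ A, star F = F ∧ F * F * F = F ∧ F κ ≠ 0 ∧ ‖F κ - J (F κ)‖ ^ 2 ≤ 16 * δ * ‖F κ‖ ^ 2 ∧
      (∀ U : H →L[ℂ] H, star U = U → U * U = 1 → U * X = -(X * U) → U * F = -(F * U)) := by
  have hY : star (cjH hJ X) = cjH hJ X := by rw [← map_star, hs]
  have hXY : X * cjH hJ X = cjH hJ X * X := by
    ext v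
    rw [mul_apply_eq_comp, mul_apply_eq_comp, cjH_apply, cjH_apply]
    exact (hJ.J_comm X hX X hX v).symm
  obtain ⟨μ, hμ, hint, hmX, hmY, hmXY⟩ := exists_joint hs hY hXY κ
  have hcfcJ : ∀ g : ℝ → ℝ, Continuous g → cfc g (cjH hJ X) κ = J (cfc g X κ) := by
    intro g hg
    rw [cfc_cj hJ hs hg, cjH_apply, hκ]
  have L1 : ∀ t, ∫ z, sg t z.re ^ 2 ∂μ = ‖Ft X t κ‖ ^ 2 := by
    intro t
    have a1 : Tendsto (fun n => ∫ z, Pool.Agent.Helper88.CS.Trick1Aux.fn t n z.re ^ 2 ∂μ) atTop (𝓝 (∫ z, sg t z.re ^ 2 ∂μ)) := by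
      apply tendsto_integral_of_dominated_convergence (fun _ => (1 : ℝ))
      · intro n
        exact (((fn_cont t n).comp Complex.continuous_re).pow 2).aestronglyMeasurable
      · exact integrable_const _
      · intro n
        filter_upwards with z
        rw [Real.norm_eq_abs, abs_pow]
        exact pow_le_one₀ (abs_nonneg _) (abs_fn_le t n z.re)
      · filter_upwards with z
        exact (fn_tendsto t z.re).pow 2
    have a2 : Tendsto (fun n => ‖cfc (Pool.Agent.Helper88.CS.Trick1Aux.fn t n) X κ‖ ^ 2) atTop (𝓝 (‖Ft X t κ‖ ^ 2)) :=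
      ((tendsto_Ft hs t κ).norm).pow 2
    have a3 : ∀ n, ∫ z, Pool.Agent.Helper88.CS.Trick1Aux.fn t n z.re ^ 2 ∂μ = ‖cfc (Pool.Agent.Helper88.CS.Trick1Aux.fn t n) X κ‖ ^ 2 := fun n =>
      hmX _ (fn_cont t n)
    simp_rw [a3] at a1
    exact tendsto_nhds_unique a1 a2
  have L2 : ∀ t, ∫ z, (sg t z.re - sg t z.im) ^ 2 ∂μ = ‖Ft X t κ - J (Ft X t κ)‖ ^ 2 := by
    intro t
    have a1 : Tendsto (fun n => ∫ z, (Pool.Agent.Helper88.CS.Trick1Aux.fn t n z.re - Pool.Agent.Helper88.CS.Trick1Aux.fn t n z.im) ^ 2 ∂μ) atTop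
        (𝓝 (∫ z, (sg t z.re - sg t z.im) ^ 2 ∂μ)) := by
      apply tendsto_integral_of_dominated_convergence (fun _ => (4 : ℝ))
      · intro n
        exact ((((fn_cont t n).comp Complex.continuous_re).sub
          ((fn_cont t n).comp Complex.continuous_im)).pow 2).aestronglyMeasurable
      · exact integrable_const _
      · intro n
        filter_upwards with z
        rw [Real.norm_eq_abs, abs_of_nonneg (sq_nonneg _)]
        have b1 := abs_le.1 (abs_fn_le t n z.re)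
        have b2 := abs_le.1 (abs_fn_le t n z.im)
        nlinarith
      · filter_upwards with z
        exact ((fn_tendsto t z.re).sub (fn_tendsto t z.im)).pow 2
    have a2 : Tendsto (fun n => ‖cfc (Pool.Agent.Helper88.CS.Trick1Aux.fn t n) X κ - J (cfc (Pool.Agent.Helper88.CS.Trick1Aux.fn t n) X κ)‖ ^ 2) atTop
        (𝓝 (‖Ft X t κ - J (Ft X t κ)‖ ^ 2)) :=
      (((tendsto_Ft hs t κ).sub ((J.continuous.tendsto _).comp (tendsto_Ft hs t κ))).norm).pow 2
    have a3 : ∀ n, ∫ z, (Pool.Agent.Helper88.CS.Trick1Aux.fn t n z.re - Pool.Agent.Helper88.CS.Trick1Aux.fn t n z.im) ^ 2 ∂μ =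
        ‖cfc (Pool.Agent.Helper88.CS.Trick1Aux.fn t n) X κ - J (cfc (Pool.Agent.Helper88.CS.Trick1Aux.fn t n) X κ)‖ ^ 2 := fun n => by
      rw [hmXY _ (fn_cont t n), hcfcJ _ (fn_cont t n)]
    simp_rw [a3] at a1
    exact tendsto_nhds_unique a1 a2
  by_contra hne
  push Not at hne
  have hall : ∀ t, 0 < t → 16 * δ * ‖Ft X t κ‖ ^ 2 ≤ ‖Ft X t κ - J (Ft X t κ)‖ ^ 2 := by
    intro t ht
    by_contra hlt
    push Not at hlt
    have h0 : Ft X t κ ≠ 0 := by
      intro h0
      rw [h0] at hlt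
      simp at hlt
    obtain ⟨U, hU1, hU2, hU3, hU4⟩ := hne (Ft X t) (Ft_mem hX t) (Ft_star hX t)
      (Ft_cube hX ht.le) h0 hlt.le
    exact hU4 (Ft_anti hX hs t hU1 hU2 hU3)
  -- integrability
  have hre : Measurable (fun z : ℂ => z.re ^ 2) := by fun_prop
  have him : Measurable (fun z : ℂ => z.im ^ 2) := by fun_prop
  have I1 : Integrable (fun z : ℂ => z.re ^ 2) μ := hint _ (by fun_prop)
  have I2 : Integrable (fun z : ℂ => z.im ^ 2) μ := hint _ (by fun_prop)
  have I3 : Integrable (fun z : ℂ => gp z.re z.im) μ := by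
    refine I1.mono' gp_meas.aestronglyMeasurable ?_
    filter_upwards with z
    rw [Real.norm_eq_abs, abs_of_nonneg (gp_nonneg _ _)]
    exact gp_le _ _
  have I4 : Integrable (fun z : ℂ => gm z.re z.im) μ := by
    refine I1.mono' gm_meas.aestronglyMeasurable ?_
    filter_upwards with z
    rw [Real.norm_eq_abs, abs_of_nonneg (gm_nonneg _ _)]
    exact gm_le _ _
  have hlay := layer (μ := μ) (al := fun z => z.re ^ 2) (be := fun z => z.im ^ 2)
    (ga := fun z => gp z.re z.im) (gb := fun z => gm z.re z.im) (c := 16 * δ) (by positivity)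
    I1 I2 I3 I4 (fun z => sq_nonneg _) (fun z => sq_nonneg _) (fun z => gp_nonneg _ _)
    (fun z => gm_nonneg _ _) (by
      intro u hu
      set t := Real.sqrt u with ht
      have ht0 : 0 < t := Real.sqrt_pos.2 hu
      have htu : t ^ 2 = u := Real.sq_sqrt hu.le
      obtain ⟨c1, d1⟩ := integral_ch (μ := μ) hre u
      obtain ⟨c2, d2⟩ := integral_ch (μ := μ) him u
      obtain ⟨c3, d3⟩ := integral_ch (μ := μ) gp_meas u
      obtain ⟨c4, d4⟩ := integral_ch (μ := μ) gm_meas u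
      have k1 : ∫ z, sg t z.re ^ 2 ∂μ = μ.real {z | u < z.re ^ 2} := by
        rw [← d1]
        congr 1
        funext z
        rw [sg_sq ht0, htu]
      have k2 : ∫ z, (sg t z.re - sg t z.im) ^ 2 ∂μ = μ.real {z | u < z.re ^ 2} +
          μ.real {z | u < z.im ^ 2} + 2 * μ.real {z | u < gm z.re z.im} -
            2 * μ.real {z | u < gp z.re z.im} := by
        have e : (fun z : ℂ => (sg t z.re - sg t z.im) ^ 2) = fun z : ℂ =>
            ch (u < z.re ^ 2) + ch (u < z.im ^ 2) + 2 * ch (u < gm z.re z.im) -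
              2 * ch (u < gp z.re z.im) := by
          funext z
          have := sg_diff ht0 z.re z.im
          rw [htu] at this
          linarith
        rw [e, integral_comb c1 c2 c4 c3, d1, d2, d3, d4]
      have k3 := hall t ht0
      rw [← L1, ← L2, k1, k2] at k3
      linarith)
  have hpt : ∫ z, (z.re ^ 2 + z.im ^ 2 + 2 * gm z.re z.im - 2 * gp z.re z.im) ∂μ ≤
      ∫ z, (1 / (2 * δ) * (z.re - z.im) ^ 2 + δ * (z.re ^ 2 + z.im ^ 2)) ∂μ := by
    apply integral_mono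
    · exact ((I1.add I2).add (I4.const_mul 2)).sub (I3.const_mul 2)
    · exact hint _ (by fun_prop)
    · intro z
      exact pointwise hδ z.re z.im
  have I5 : Integrable (fun z : ℂ => (z.re - z.im) ^ 2) μ := hint _ (by fun_prop)
  have I6 : Integrable (fun z : ℂ => z.re ^ 2 + z.im ^ 2) μ := I1.add I2
  rw [integral_comb I1 I2 I4 I3, integral_add (I5.const_mul _) (I6.const_mul _),
    integral_const_mul, integral_const_mul, integral_add I1 I2] at hpt
  have hsX : IsSelfAdjoint X := hs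
  have hsY : IsSelfAdjoint (cjH hJ X) := hY
  have v1 : ∫ z : ℂ, z.re ^ 2 ∂μ = ‖X κ‖ ^ 2 := by
    rw [hmX (fun s => s) continuous_id, cfc_id' ℝ X]
  have v2 : ∫ z : ℂ, z.im ^ 2 ∂μ = ‖X κ‖ ^ 2 := by
    rw [hmY (fun s => s) continuous_id, cfc_id' ℝ (cjH hJ X), cjH_apply, hκ, hJ.J_norm]
  have v3 : ∫ z : ℂ, (z.re - z.im) ^ 2 ∂μ = ‖X κ - J (X κ)‖ ^ 2 := by
    rw [hmXY (fun s => s) continuous_id, cfc_id' ℝ X, cfc_id' ℝ (cjH hJ X), cjH_apply, hκ]
  have hn : 0 < ‖X κ‖ ^ 2 := by positivity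
  have v4 : ‖X κ - J (X κ)‖ ^ 2 ≤ δ ^ 2 * ‖X κ‖ ^ 2 := by
    rw [← mul_pow]
    gcongr
  have v5 : 1 / (2 * δ) * ‖X κ - J (X κ)‖ ^ 2 ≤ δ / 2 * ‖X κ‖ ^ 2 := by
    calc 1 / (2 * δ) * ‖X κ - J (X κ)‖ ^ 2 ≤ 1 / (2 * δ) * (δ ^ 2 * ‖X κ‖ ^ 2) := by gcongr
      _ = δ / 2 * ‖X κ‖ ^ 2 := by field_simp
  rw [v1, v2] at hlay
  rw [v1, v2, v3] at hpt
  have : 0 < δ * ‖X κ‖ ^ 2 := by positivity
  nlinarith

end Pool.Agent.Helper88.CS

end

section

open scoped InnerProductSpace Topology BoundedContinuousFunction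

open ContinuousLinearMap Filter MeasureTheory

namespace Pool.Agent.Helper88.CS

open Pool.Agent.Helper23

open Pool.Agent.Helper78.BC (Std rm Fixed)

variable {H : Type*} [NormedAddCommGroup H] [InnerProductSpace ℂ H] [CompleteSpace H]

variable {A : VonNeumannAlgebra H} {J : H →L[ℝ] H} {κ : H}

open Trick2Aux in
theorem cut_offdiag (hJ : Conj A J) (hκ : J κ = κ) (hsep : ∀ a ∈ A, a κ = 0 → a = 0)
    {e f : H →L[ℂ] H} (he : IsP A e) (hf : IsP A f) (hef : e + f = 1) (hJe : J (e κ) = e κ)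
    {x : H →L[ℂ] H} (hx : x ∈ A) (hfx : f * x = x) (hxe : x * e = x) (hx0 : x ≠ 0)
    {δ : ℝ} (hδ : 0 < δ) (hδ1 : δ ≤ 1 / 100) (h : ‖x κ - rm J x κ‖ ≤ δ * ‖x κ‖) :
    ∃ w ∈ A, w * star w * w = w ∧ f * w = w ∧ w * e = w ∧ w ≠ 0 ∧
      ‖w κ - rm J w κ‖ ^ 2 ≤ 100 * δ * ‖w κ‖ ^ 2 := by
  obtain ⟨heA, hes, hee⟩ := he
  obtain ⟨hfA, hfs, hff⟩ := hf
  have hef0 : e * f = 0 := by
    have h1 : e * (e + f) = e := by rw [hef, mul_one]
    rw [mul_add, hee] at h1
    exact left_eq_add.1 h1.symm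
  have hfe0 : f * e = 0 := by
    have h1 := congrArg star hef0
    rw [star_mul, hes, hfs, star_zero] at h1
    exact h1
  have hex : e * x = 0 := by rw [← hfx, ← mul_assoc, hef0, zero_mul]
  have hxf : x * f = 0 := by rw [← hxe, mul_assoc, hef0, mul_zero]
  have hxs : star x ∈ A := star_mem hx
  have hesx : e * star x = star x := by
    have h1 := congrArg star hxe
    rwa [star_mul, hes] at h1
  have hsxf : star x * f = star x := by
    have h1 := congrArg star hfx
    rwa [star_mul, hfs] at h1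
  have hfsx : f * star x = 0 := by
    have h1 := congrArg star hxf
    rwa [star_mul, hfs, star_zero] at h1
  have hsxe : star x * e = 0 := by
    have h1 := congrArg star hex
    rwa [star_mul, hes, star_zero] at h1
  -- the self-adjoint element
  have hXA : x + star x ∈ A := add_mem hx hxs
  have hXs : star (x + star x) = x + star x := by rw [star_add, star_star, add_comm]
  have hnX : ‖(x + star x) κ‖ ^ 2 = ‖x κ‖ ^ 2 + ‖(star x) κ‖ ^ 2 := by
    have e1 : x κ = f (x κ) := by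
      have : (f * x) κ = x κ := by rw [hfx]
      exact this.symm
    have e2 : (star x) κ = e ((star x) κ) := by
      have : (e * star x) κ = (star x) κ := by rw [hesx]
      exact this.symm
    have h1 := pyth hes hef0 ((star x) κ) (x κ)
    rw [← e1, ← e2] at h1
    have e3 : (x + star x) κ = (star x) κ + x κ := by
      rw [ContinuousLinearMap.add_apply, add_comm]
    rw [e3, h1, add_comm]
  have hxκ : x κ ≠ 0 := fun h0 => hx0 (hsep x hx h0)
  have hle : ‖x κ‖ ≤ ‖(x + star x) κ‖ := by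
    have h1 : ‖x κ‖ ^ 2 ≤ ‖(x + star x) κ‖ ^ 2 := by
      rw [hnX]; nlinarith [sq_nonneg ‖(star x) κ‖]
    exact abs_le_of_sq_le_sq' h1 (norm_nonneg _) |>.2
  have hXκ : (x + star x) κ ≠ 0 := by
    intro h0
    rw [h0, norm_zero] at hle
    exact hxκ (norm_le_zero_iff.1 hle)
  have hrm : ∀ y : H →L[ℂ] H, rm J y κ = J ((star y) κ) := by
    intro y
    unfold rm
    rw [hκ]
  have hflip : ∀ y : H →L[ℂ] H, ‖(star y) κ - J (y κ)‖ = ‖y κ - J ((star y) κ)‖ := by
    intro y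
    have h1 : J (y κ - J ((star y) κ)) = -((star y) κ - J (y κ)) := by
      rw [map_sub, hJ.J_J]
      abel
    rw [← norm_neg, ← h1, hJ.J_norm]
  have hXd : ‖(x + star x) κ - J ((x + star x) κ)‖ ≤ (2 * δ) * ‖(x + star x) κ‖ := by
    have e1 : (x + star x) κ - J ((x + star x) κ) =
        (x κ - J ((star x) κ)) + ((star x) κ - J (x κ)) := by
      rw [ContinuousLinearMap.add_apply, map_add]
      abel
    have h1 : ‖x κ - J ((star x) κ)‖ ≤ δ * ‖x κ‖ := by rw [← hrm]; exact h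
    have h2 := norm_add_le (x κ - J ((star x) κ)) ((star x) κ - J (x κ))
    rw [hflip x] at h2
    rw [e1]
    have h3 : δ * ‖x κ‖ ≤ δ * ‖(x + star x) κ‖ := mul_le_mul_of_nonneg_left hle hδ.le
    linarith
  obtain ⟨F, hFA, hFs, hFFF, hFκ, hFd, hFU⟩ := cut hJ hκ hXA hXs (by positivity) hXκ hXd
  -- the symmetry `f - e`
  have hU := hFU (f - e) (by rw [star_sub, hes, hfs]) (by
    rw [mul_sub, sub_mul, sub_mul, hff, hee, hef0, hfe0]
    rw [← hef]
    abel) (by
    rw [mul_add, add_mul, sub_mul, sub_mul, mul_sub, mul_sub, hfx, hex, hfsx, hesx, hxf, hxe,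
      hsxf, hsxe]
    abel)
  rw [sub_mul, mul_sub] at hU
  have heFe : e * F * e = 0 := by
    have h1 : e * (f * F - e * F) * e = e * -(F * f - F * e) * e := by rw [hU]
    have h2 : e * (f * F - e * F) * e = -(e * F * e) := by
      rw [mul_sub, ← mul_assoc, ← mul_assoc, hef0, hee, zero_mul, zero_sub, neg_mul]
    have h3 : e * -(F * f - F * e) * e = e * F * e := by
      have : -(F * f - F * e) = F * e - F * f := by abel
      rw [this, mul_sub, sub_mul, mul_assoc e (F * e) e, mul_assoc F e e, hee,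
        mul_assoc e (F * f) e, mul_assoc F f e, hfe0, mul_zero, mul_zero, sub_zero, mul_assoc]
    rw [h2, h3] at h1
    have h4 : (2 : ℂ) • (e * F * e) = 0 := by
      rw [two_smul]
      nth_rewrite 1 [← h1]
      rw [neg_add_cancel]
    exact (smul_eq_zero.1 h4).resolve_left two_ne_zero
  have hfFf : f * F * f = 0 := by
    have h1 : f * (f * F - e * F) * f = f * -(F * f - F * e) * f := by rw [hU]
    have h2 : f * (f * F - e * F) * f = f * F * f := by
      rw [mul_sub, ← mul_assoc, ← mul_assoc, hfe0, hff, zero_mul, sub_zero]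
    have h3 : f * -(F * f - F * e) * f = -(f * F * f) := by
      have : -(F * f - F * e) = F * e - F * f := by abel
      rw [this, mul_sub, sub_mul, mul_assoc f (F * e) f, mul_assoc F e f, hef0,
        mul_assoc f (F * f) f, mul_assoc F f f, hff, mul_zero, mul_zero, zero_sub, mul_assoc]
    rw [h2, h3] at h1
    have h4 : (2 : ℂ) • (f * F * f) = 0 := by
      rw [two_smul]
      nth_rewrite 2 [h1]
      rw [add_neg_cancel]
    exact (smul_eq_zero.1 h4).resolve_left two_ne_zero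
  have hws : star (f * F * e) = e * F * f := by
    rw [star_mul, star_mul, hes, hfs, hFs, mul_assoc]
  have hFdec : F = f * F * e + e * F * f := by
    have h1 : F = (e + f) * F * (e + f) := by rw [hef, one_mul, mul_one]
    have h2 : (e + f) * F * (e + f) = e * F * e + e * F * f + (f * F * e + f * F * f) := by
      rw [add_mul, add_mul, mul_add, mul_add]
    rw [h2, heFe, hfFf, zero_add, add_zero] at h1
    rw [add_comm] at h1
    exact h1
  have hwww : f * F * e * (e * F * f) * (f * F * e) = f * F * e := by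
    have h1 : f * (F * F * F) * e = f * F * e := by rw [hFFF]
    have h2 : f * (F * F * F) * e = f * F * (e + f) * F * (e + f) * F * e := by
      rw [hef, mul_one, mul_one]
      simp only [mul_assoc]
    have h3 : f * F * (e + f) * F * (e + f) * F * e =
        f * F * e * (e * F * f) * (f * F * e) := by
      have a1 : f * F * (e + f) = f * F * e := by rw [mul_add, hfFf, add_zero]
      have a2 : (e + f) * F * e = f * F * e := by rw [add_mul, add_mul, heFe, zero_add]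
      have a3 : f * F * (e + f) * F * (e + f) * F * e =
          (f * F * (e + f)) * F * ((e + f) * F * e) := by simp only [mul_assoc]
      rw [a3, a1, a2]
      have a4 : f * F * e * (e * F * f) * (f * F * e) =
          f * F * (e * e) * F * (f * f) * F * e := by simp only [mul_assoc]
      have a5 : f * F * e * F * (f * F * e) = f * F * e * F * f * F * e := by
        simp only [mul_assoc]
      rw [a4, a5, hee, hff]
    rw [← h3, ← h2, h1]
  have hwA : f * F * e ∈ A := mul_mem (mul_mem hfA hFA) heA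
  have hw0 : f * F * e ≠ 0 := by
    intro h0
    have h1 : e * F * f = 0 := by rw [← hws, h0, star_zero]
    rw [h0, h1, add_zero] at hFdec
    exact hFκ (by rw [hFdec]; rfl)
  refine ⟨f * F * e, hwA, by rw [hws]; exact hwww, by rw [← mul_assoc, ← mul_assoc, hff],
    by rw [mul_assoc, hee], hw0, ?_⟩
  rw [hrm, hws]
  -- the vectors
  have hfκ : J (f κ) = f κ := by
    have h1 : f κ = κ - e κ := by
      have h2 : (e + f) κ = κ := by rw [hef]; rfl
      rw [ContinuousLinearMap.add_apply] at h2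
      exact eq_sub_of_add_eq (by rw [add_comm]; exact h2)
    rw [h1, map_sub, hκ, hJe]
  have v1 : (f * F * e) κ = f (J (e (J (F κ)))) := by
    have h1 : e κ = J (e (J κ)) := by rw [hκ, hJe]
    calc (f * F * e) κ = f (F (e κ)) := rfl
      _ = f (F (J (e (J κ)))) := by rw [← h1]
      _ = f (J (e (J (F κ)))) := by rw [hJ.J_comm e heA F hFA]
  have v2 : (e * F * f) κ = e (J (f (J (F κ)))) := by
    have h1 : f κ = J (f (J κ)) := by rw [hκ, hfκ]
    calc (e * F * f) κ = e (F (f κ)) := rfl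
      _ = e (F (J (f (J κ)))) := by rw [← h1]
      _ = e (J (f (J (F κ)))) := by rw [hJ.J_comm f hfA F hFA]
  have w1 : J ((e * F * f) κ) = f (J (e (F κ))) := by
    rw [v2, ← hJ.J_comm f hfA e heA, hJ.J_J]
  have w2 : J ((f * F * e) κ) = e (J (f (F κ))) := by
    rw [v1, ← hJ.J_comm e heA f hfA, hJ.J_J]
  have d1 : (f * F * e) κ - J ((e * F * f) κ) = f (J (e (J (F κ - J (F κ))))) := by
    rw [v1, w1, map_sub J, hJ.J_J, map_sub e, map_sub J, map_sub f]
  have d2 : (e * F * f) κ - J ((f * F * e) κ) = e (J (f (J (F κ - J (F κ))))) := by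
    rw [v2, w2, map_sub J, hJ.J_J, map_sub f, map_sub J, map_sub e]
  set D : H := F κ - J (F κ) with hD
  have hpy : ∀ v : H, ‖v‖ ^ 2 = ‖e v‖ ^ 2 + ‖f v‖ ^ 2 := by
    intro v
    have h1 : v = e v + f v := by
      have h2 : (e + f) v = v := by rw [hef]; rfl
      rw [ContinuousLinearMap.add_apply] at h2
      exact h2.symm
    have h3 := pyth hes hef0 v v
    rw [← h1] at h3
    exact h3
  have hn1 : ‖f (J (e (J D)))‖ ^ 2 ≤ ‖f D‖ ^ 2 := by
    have h1 : f (J (e (J D))) = J (e (J (f D))) := (hJ.J_comm e heA f hfA D).symm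
    rw [h1, hJ.J_norm]
    have h2 := hpy (J (f D))
    rw [hJ.J_norm] at h2
    nlinarith [sq_nonneg ‖f (J (f D))‖]
  have hn2 : ‖e (J (f (J D)))‖ ^ 2 ≤ ‖e D‖ ^ 2 := by
    have h1 : e (J (f (J D))) = J (f (J (e D))) := (hJ.J_comm f hfA e heA D).symm
    rw [h1, hJ.J_norm]
    have h2 := hpy (J (e D))
    rw [hJ.J_norm] at h2
    nlinarith [sq_nonneg ‖e (J (e D))‖]
  have hfl : ‖(e * F * f) κ - J ((f * F * e) κ)‖ = ‖(f * F * e) κ - J ((e * F * f) κ)‖ := by
    have h1 := hflip (f * F * e)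
    rwa [hws] at h1
  have hsum : 2 * ‖(f * F * e) κ - J ((e * F * f) κ)‖ ^ 2 ≤ ‖D‖ ^ 2 := by
    have h1 := hpy D
    rw [← d1] at hn1
    rw [← d2, hfl] at hn2
    linarith
  have hS2 : ‖F κ‖ ^ 2 = ‖(f * F * e) κ‖ ^ 2 + ‖(e * F * f) κ‖ ^ 2 := by
    have h1 : F κ = e ((F * f) κ) + f ((F * e) κ) := by
      conv_lhs => rw [hFdec]
      rw [ContinuousLinearMap.add_apply, add_comm]
      rfl
    have h2 := pyth hes hef0 ((F * f) κ) ((F * e) κ)
    rw [← h1] at h2
    rw [h2, add_comm]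
    rfl
  have hb : ‖(e * F * f) κ‖ ≤ ‖(f * F * e) κ‖ + ‖(f * F * e) κ - J ((e * F * f) κ)‖ := by
    have h1 : ‖J ((e * F * f) κ)‖ ≤ ‖(f * F * e) κ‖ + ‖(f * F * e) κ - J ((e * F * f) κ)‖ := by
      have h2 := norm_sub_le ((f * F * e) κ) ((f * F * e) κ - J ((e * F * f) κ))
      have h3 : (f * F * e) κ - ((f * F * e) κ - J ((e * F * f) κ)) = J ((e * F * f) κ) := by
        abel
      rwa [h3] at h2
    rwa [hJ.J_norm] at h1
  refine arith (norm_nonneg _) (norm_nonneg _) (norm_pos_iff.2 hFκ) (norm_nonneg _) hδ1 hS2 hb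
    ?_ hδ
  have h1 : ‖D‖ ^ 2 ≤ 32 * δ * ‖F κ‖ ^ 2 := by
    have h2 : 16 * (2 * δ) * ‖F κ‖ ^ 2 = 32 * δ * ‖F κ‖ ^ 2 := by ring
    rw [← h2]
    exact hFd
  exact hsum.trans h1

end Pool.Agent.Helper88.CS

end

section

open scoped InnerProductSpace Topology ENNReal BoundedContinuousFunction FourierTransform SchwartzMap

open ContinuousLinearMap Filter MeasureTheory

namespace Pool.Agent.Helper23.ED

open Pool.Agent.Helper23 Pool.Agent.Helper23.RBF

open Pool.Agent.Helper78.BC.Transport (Sub r)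

universe u

variable {H : Type*} [NormedAddCommGroup H] [InnerProductSpace ℂ H] [CompleteSpace H]

variable {M N : VonNeumannAlgebra H} {ξ : H} {E : (H →L[ℂ] H) → (H →L[ℂ] H)}

namespace GgB

lemma tr_dec {T : ℝ → H →L[ℂ] H} (hT : Dec T) (hT' : ∀ t, Dec fun s => T (s - t)) (t : ℝ)
    (F : L2R H) : tr H t (dec T F) = dec (fun s => T (s - t)) (tr H t F) := by
  ext1
  filter_upwards [tr_coe t (dec T F), ae_tr t (dec_coe hT F),
    dec_coe (hT' t) (tr H t F), tr_coe t F] with s h1 h2 h3 h4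
  rw [h1, h2, h3, h4]

end GgB

end Pool.Agent.Helper23.ED

end
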