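import Pool.Agent.Helper23.FA.Ns
import Pool.Agent.Helper23.FA.L01_01
import Pool.Agent.Helper23.FA.L01_02
import Pool.Agent.Helper23.FA.L01_03
import Pool.Agent.Helper23.FA.L01_04
import Pool.Agent.Helper23.FA.L01_05
import Pool.Agent.Helper23.FA.L01_09
import Pool.Agent.Helper23.FA.L01_11
import Pool.Agent.Helper23.FA.L01_15
import Pool.Agent.Helper23.FA.L01_17
import Pool.Agent.Helper23.FA.L01_18

/-!
Parts of Helper23.Spec, Helper43.TTF.G, Helper23.Amp2, Helper23.Pol, Helper23.Pin1, Helper23.Pin2, Helper4.PU.U2, Helper23.UOc2, Helper88.CS.SuppA, Helper23.ED.TrA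
-/

section

open scoped InnerProductSpace

open ContinuousLinearMap

namespace Pool.Agent.Helper23

variable {H : Type*} [NormedAddCommGroup H] [InnerProductSpace ℂ H] [CompleteSpace H]

variable {M N : VonNeumannAlgebra H} {ξ : H} {E : (H →L[ℂ] H) → (H →L[ℂ] H)}

lemma K0_induction {p : H → Prop} (hcl : IsClosed {x | p x})
    (h : ∀ a ∈ N, p (a ξ)) {x : H} (hx : x ∈ K0 N ξ) : p x := by
  have hsub : ((orb N ξ : Submodule ℂ H) : Set H) ⊆ {x | p x} := by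
    rintro _ ⟨a, ha, rfl⟩
    exact h a ha
  exact closure_minimal hsub hcl hx

end Pool.Agent.Helper23

end

section

open scoped InnerProductSpace Topology BoundedContinuousFunction

open ContinuousLinearMap Filter MeasureTheory

namespace Pool.Agent.Helper43.TTF

open Pool.Agent.Helper23

variable {H : Type*} [NormedAddCommGroup H] [InnerProductSpace ℂ H] [CompleteSpace H]

variable {R : H →L[ℂ] H} {D : H →L[ℝ] H} {Ψ : (ℝ →ᵇ ℂ) →⋆ₐ[ℂ] (H →L[ℂ] H)} {J : H →L[ℝ] H}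

variable {M N : VonNeumannAlgebra H} {ξ : H} {E : (H →L[ℂ] H) → (H →L[ℂ] H)}

/-- the projection on the closure of `N ξ` -/
noncomputable def p0 (N : VonNeumannAlgebra H) (ξ : H) : H →L[ℂ] H :=
  (Pool.Agent.Helper23.K0 N ξ).starProjection

lemma p0_of_mem {v : H} (hv : v ∈ Pool.Agent.Helper23.K0 N ξ) : p0 N ξ v = v :=
  Submodule.starProjection_eq_self_iff.2 hv

lemma p0_mem (v : H) : p0 N ξ v ∈ Pool.Agent.Helper23.K0 N ξ :=
  Submodule.starProjection_apply_mem _ _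

lemma p0_symm (v w : H) : ⟪p0 N ξ v, w⟫_ℂ = ⟪v, p0 N ξ w⟫_ℂ :=
  Submodule.inner_starProjection_left_eq_right _ v w

lemma p0_eq {v u : H} (hu : u ∈ Pool.Agent.Helper23.K0 N ξ)
    (h : ∀ a ∈ N, ⟪a ξ, u⟫_ℂ = ⟪a ξ, v⟫_ℂ) : p0 N ξ v = u := by
  have h1 : ∀ k ∈ Pool.Agent.Helper23.K0 N ξ, ⟪k, u - v⟫_ℂ = 0 := by
    intro k hk
    refine K0_induction (p := fun k => ⟪k, u - v⟫_ℂ = 0)
      (isClosed_eq (by fun_prop) (by fun_prop)) (fun a ha => ?_) hk
    rw [inner_sub_right, h a ha, sub_self]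
  have h2 : p0 N ξ (u - v) = 0 := by
    rw [← inner_self_eq_zero (𝕜 := ℂ), p0_symm, ← inner_conj_symm, p0_of_mem (p0_mem _),
      h1 _ (p0_mem _), map_zero]
  rw [map_sub, p0_of_mem hu, sub_eq_zero] at h2
  exact h2.symm

lemma E_apply (S : Setting M N E ξ) {a : H →L[ℂ] H} (ha : a ∈ M) : p0 N ξ (a ξ) = E a ξ := by
  refine p0_eq (mem_K0 (S.E_mem a ha)) fun b hb => ?_
  have h := S.E_inner hb (one_mem N) ha
  rw [one_apply_eq_self] at h
  exact h

lemma E_star (S : Setting M N E ξ) {a : H →L[ℂ] H} (ha : a ∈ M) (ha' : star a = a) :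
    star (E a) = E a := by
  have hE := S.E_mem a ha
  have h1 : (star (E a)) ξ = E a ξ := by
    rw [← E_apply S ha]
    symm
    refine p0_eq (mem_K0 (star_mem hE)) fun b hb => ?_
    rw [inner_star_right]
    have h2 := S.E_inner (one_mem N) hb ha
    rw [one_apply_eq_self] at h2
    have h3 : ⟪E a (b ξ), ξ⟫_ℂ = ⟪a (b ξ), ξ⟫_ℂ := by
      rw [← inner_conj_symm, h2, inner_conj_symm]
    rw [h3, ← ha', inner_star_left, ha']
  have h4 : (star (E a) - E a) ξ = 0 := by rw [sub_apply, h1, sub_self]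
  exact sub_eq_zero.1 (S.sep _ (sub_mem (star_mem (S.le _ hE)) (S.le _ hE)) h4)

lemma p0_K (S : Setting M N E ξ) {v : H} (hv : v ∈ TTA.K M ξ) : p0 N ξ v ∈ TTA.K M ξ := by
  have hcl : IsClosed {v | p0 N ξ v ∈ TTA.K M ξ} :=
    (TTA.K_closed M ξ).preimage (p0 N ξ).continuous
  have hsub : (TTA.K0 M ξ : Set H) ⊆ {v | p0 N ξ v ∈ TTA.K M ξ} := by
    rintro _ ⟨a, ha, ha', rfl⟩
    rw [Set.mem_ofPred_eq, E_apply S ha]
    exact TTA.mem_K_of M ξ (S.le _ (S.E_mem a ha)) (E_star S ha ha')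
  exact closure_minimal hsub hcl hv

lemma p0_P (S : Setting M N E ξ) (v : H) : p0 N ξ (TTA.P M ξ v) = TTA.P M ξ (p0 N ξ v) := by
  have h1 : ∀ v, TTA.P M ξ (p0 N ξ (TTA.P M ξ v)) = p0 N ξ (TTA.P M ξ v) := fun v =>
    TTA.P_of_mem M ξ (p0_K S (TTA.P_mem M ξ v))
  have h2 : ∀ v w, TTA.rho (p0 N ξ v) w = TTA.rho v (p0 N ξ w) := by
    intro v w
    unfold TTA.rho
    rw [p0_symm]
  have h3 : ∀ w, TTA.rho (p0 N ξ (TTA.P M ξ v) - TTA.P M ξ (p0 N ξ v)) w = 0 := by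
    intro w
    rw [TTA.rho_sub_left, ← h1, TTA.rho_P, h2, TTA.rho_P, h1, TTA.rho_P, h2, sub_self]
  have h4 := h3 (p0 N ξ (TTA.P M ξ v) - TTA.P M ξ (p0 N ξ v))
  rw [TTA.rho_self] at h4
  exact sub_eq_zero.1 (by simpa using h4)

lemma p0_R (S : Setting M N E ξ) : p0 N ξ * TTA.Rop M ξ = TTA.Rop M ξ * p0 N ξ := by
  ext v
  rw [mul_apply_eq_comp, mul_apply_eq_comp, TTA.Rop_apply, TTA.Rop_apply, map_add, p0_P S]
  congr 1
  unfold TTA.Q
  rw [map_neg, map_smul, p0_P S, map_smul]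

end Pool.Agent.Helper43.TTF

end

section

open scoped InnerProductSpace Topology ENNReal

open ContinuousLinearMap Filter MeasureTheory

set_option linter.unusedSectionVars false

set_option linter.unusedVariables false

namespace Pool.Agent.Helper23

variable {H : Type*} [NormedAddCommGroup H] [InnerProductSpace ℂ H] [CompleteSpace H]

variable {A : VonNeumannAlgebra H}

lemma rk_mem_amp {b : H →L[ℂ] H} (hb : b ∈ A) (f g : L2R ℂ) : rk b f g ∈ amp A := by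
  rw [mem_amp]
  intro a ha
  ext F : 1
  change lift a (ten f (b (sl g F))) = ten f (b (sl g (lift a F)))
  rw [lift_ten, sl_lift, commute_apply hb ha]

end Pool.Agent.Helper23

end

section

open scoped InnerProductSpace Topology ENNReal

open ContinuousLinearMap Filter MeasureTheory

set_option linter.unusedSectionVars false

set_option linter.unusedVariables false

namespace Pool.Agent.Helper23

variable {H : Type*} [NormedAddCommGroup H] [InnerProductSpace ℂ H] [CompleteSpace H]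

variable {M N : VonNeumannAlgebra H} {ξ : H} {E : (H →L[ℂ] H) → (H →L[ℂ] H)}

/-- polarized sums -/
lemma hasSum_polar {Z Y : L2R H →L[ℂ] L2R H} (hZ : SX ξ Z ≠ ⊤) (hY : SX ξ Y ≠ ⊤) :
    HasSum (fun j : JJ => ⟪Z (ten (gJ j) ξ), Y (ten (gJ j) ξ)⟫_ℂ)
      (((((SX ξ (Z + Y)).toReal : ℝ) : ℂ) - (((SX ξ (Z + (-1 : ℂ) • Y)).toReal : ℝ) : ℂ) +
        ((((SX ξ (Z + (-Complex.I) • Y)).toReal : ℝ) : ℂ) -
          (((SX ξ (Z + Complex.I • Y)).toReal : ℝ) : ℂ)) * Complex.I) / 4) := by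
  have h1 := hasSum_TT (SX_add_ne_top hZ hY)
  have h2 := hasSum_TT (SX_add_ne_top hZ (SX_smul_ne_top (-1) hY))
  have h3 := hasSum_TT (SX_add_ne_top hZ (SX_smul_ne_top (-Complex.I) hY))
  have h4 := hasSum_TT (SX_add_ne_top hZ (SX_smul_ne_top Complex.I hY))
  have h5 := ((h1.sub h2).add ((h3.sub h4).mul_right Complex.I)).div_const 4
  have h6 : (fun j : JJ => ⟪Z (ten (gJ j) ξ), Y (ten (gJ j) ξ)⟫_ℂ) = fun j : JJ =>
      ((((‖(Z + Y) (ten (gJ j) ξ)‖ : ℝ) : ℂ)) ^ 2 -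
        (((‖(Z + (-1 : ℂ) • Y) (ten (gJ j) ξ)‖ : ℝ) : ℂ)) ^ 2 +
        ((((‖(Z + (-Complex.I) • Y) (ten (gJ j) ξ)‖ : ℝ) : ℂ)) ^ 2 -
          (((‖(Z + Complex.I • Y) (ten (gJ j) ξ)‖ : ℝ) : ℂ)) ^ 2) * Complex.I) / 4 := by
    funext j
    rw [inner_eq_sum_norm_sq_div_four]
    simp only [add_apply, smul_apply, neg_smul, one_smul, ← sub_eq_add_neg]
    rfl
  rw [h6]
  exact h5

/-- the polarized invariance -/
lemma polar_inv {u : L2R H →L[ℂ] L2R H} (hu : u ∈ GK N ξ) {Z Y : L2R H →L[ℂ] L2R H}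
    (hZA : Z ∈ amp N) (hYA : Y ∈ amp N) (hZ : SX ξ Z ≠ ⊤) (hY : SX ξ Y ≠ ⊤) :
    ∑' j : JJ, ⟪(Z * u) (ten (gJ j) ξ), (Y * u) (ten (gJ j) ξ)⟫_ℂ =
      ∑' j : JJ, ⟪Z (ten (gJ j) ξ), Y (ten (gJ j) ξ)⟫_ℂ := by
  have hZu : SX ξ (Z * u) ≠ ⊤ := by rw [hu.2.2.2 Z hZA]; exact hZ
  have hYu : SX ξ (Y * u) ≠ ⊤ := by rw [hu.2.2.2 Y hYA]; exact hY
  rw [(hasSum_polar hZ hY).tsum_eq, (hasSum_polar hZu hYu).tsum_eq]
  have h1 : ∀ c : ℂ, Z * u + c • (Y * u) = (Z + c • Y) * u := by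
    intro c; rw [add_mul, smul_mul_assoc]
  have h2 : Z * u + Y * u = (Z + Y) * u := by rw [add_mul]
  rw [h1, h1, h1, h2, hu.2.2.2 _ (add_mem hZA hYA),
    hu.2.2.2 _ (add_mem hZA (smul_mem' _ hYA)), hu.2.2.2 _ (add_mem hZA (smul_mem' _ hYA)),
    hu.2.2.2 _ (add_mem hZA (smul_mem' _ hYA))]

/-- frame sum for cut off functions -/
lemma frame_tsum {n : ℕ} {f : L2R ℂ} (hf : Pn n f = f) (p : L2R ℂ)
    (hs : Summable (fun j : JJ => ⟪p, gJ j⟫_ℂ * ⟪gJ j, f⟫_ℂ)) :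
    ∑' j : JJ, ⟪p, gJ j⟫_ℂ * ⟪gJ j, f⟫_ℂ = ⟪p, mulOp ℂ (he n) f⟫_ℂ := by
  rw [hs.tsum_prod]
  have h1 : ∀ m : ℤ, ∑' k : hw, ⟪p, gJ (m, k)⟫_ℂ * ⟪gJ (m, k), f⟫_ℂ =
      ⟪p, mulOp ℂ (fun s => dm m s * dm m s) f⟫_ℂ := by
    intro m
    have h2 : ∀ k : hw, ⟪p, gJ (m, k)⟫_ℂ * ⟪gJ (m, k), f⟫_ℂ =
        ⟪mulOp ℂ (dm m) p, hb k⟫_ℂ * ⟪hb k, mulOp ℂ (dm m) f⟫_ℂ := by
      intro k
      rw [← inner_conj_symm p, inner_gJ, inner_gJ, inner_conj_symm]
    simp only [h2]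
    rw [hb.tsum_inner_mul_inner]
    have h3 := mulOp_adj (dm_bm m) p (mulOp ℂ (dm m) f)
    rw [dm_conj, mulOp_mulOp (dm_bm m) (dm_bm m)] at h3
    exact h3
  simp only [h1]
  rw [tsum_eq_sum (s := Finset.Ico (-(n : ℤ)) n), ← inner_sum]
  · congr 1
    ext1
    have e1 : ∀ᵐ s, ∀ m : ℤ, (mulOp ℂ (fun s => dm m s * dm m s) f) s =
        (dm m s * dm m s) • f s :=
      ae_all_iff.2 fun m => mulOp_coe ((dm_bm m).mul (dm_bm m)) f
    have e2 : (∑ m ∈ Finset.Ico (-(n : ℤ)) n, mulOp ℂ (fun s => dm m s * dm m s) f : L2R ℂ)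
        =ᵐ[volume] fun s => ∑ m ∈ Finset.Ico (-(n : ℤ)) n,
          (mulOp ℂ (fun s => dm m s * dm m s) f) s := by
      have := Lp.coeFn_finsetSum (Finset.Ico (-(n : ℤ)) n)
        (fun m : ℤ => mulOp ℂ (fun s => dm m s * dm m s) f)
      filter_upwards [this] with s hs
      rw [hs]
      simp
    filter_upwards [e1, e2, mulOp_coe (he_bm n) f] with s h2 h3 h4
    rw [h3, h4, ← sum_dm, Finset.sum_smul]
    exact Finset.sum_congr rfl fun m _ => h2 m
  · intro m hm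
    have h2 : mulOp ℂ (fun s => dm m s * dm m s) f = 0 := by
      rw [← hf, Pn, mulOp_mulOp ((dm_bm m).mul (dm_bm m)) (ind_bm measurableSet_Ico)]
      ext1
      filter_upwards [mulOp_coe (((dm_bm m).mul (dm_bm m)).mul
        (ind_bm (measurableSet_Ico (a := -(n : ℝ)) (b := n)))) f,
        Lp.coeFn_zero ℂ 2 volume] with s h3 h4
      rw [h3, h4]
      by_cases h : s ∈ Set.Ico (-(n : ℝ)) n
      · rw [dm_of_notMem, zero_mul, zero_mul, zero_smul]; rfl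
        rintro ⟨h5, h6⟩
        apply hm
        rw [Finset.mem_Ico]
        have h7 : (m : ℝ) < n := lt_of_le_of_lt h5 h.2
        have h8 : (-(n : ℝ)) < m + 1 := lt_of_le_of_lt h.1 h6
        have h7' : m < (n : ℤ) := by exact_mod_cast h7
        have h8' : -(n : ℤ) < m + 1 := by exact_mod_cast h8
        exact ⟨by omega, h7'⟩
      · rw [ind_of_notMem h, mul_zero, zero_smul]; rfl
    rw [h2, inner_zero_right]

/-- polarized KMS type relation -/
lemma pol_star {u : L2R H →L[ℂ] L2R H} (hu : u ∈ GK N ξ) {b : H →L[ℂ] H} (hb : b ∈ N) {n : ℕ}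
    {f f' : L2R ℂ} (hf : Pn n f = f) (hf' : Pn n f' = f') :
    ⟪ten f' (b ξ), u (ten (mulOp ℂ (he n) f) ξ)⟫_ℂ =
      ⟪ten (mulOp ℂ (he n) f') ξ, u (ten f ((star b) ξ))⟫_ℂ := by
  have hZA : rk b e0 f ∈ amp N := rk_mem_amp hb _ _
  have hYA : rk 1 e0 f' ∈ amp N := rk_mem_amp (one_mem N) _ _
  have hus := GK_star hu
  have hZf : SX ξ (rk b e0 f) ≠ ⊤ := by
    rw [SX_rk]
    exact ENNReal.mul_ne_top ENNReal.ofReal_ne_top (q0_lt_top hf)
  have hYf : SX ξ (rk 1 e0 f') ≠ ⊤ := by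
    rw [SX_rk]
    exact ENNReal.mul_ne_top ENNReal.ofReal_ne_top (q0_lt_top hf')
  have hZuA : rk b e0 f * star u ∈ amp N := mul_mem hZA hus.1
  have hZuf : SX ξ (rk b e0 f * star u) ≠ ⊤ := by rw [hus.2.2.2 _ hZA]; exact hZf
  have hYuf : SX ξ (rk 1 e0 f' * u) ≠ ⊤ := by rw [hu.2.2.2 _ hYA]; exact hYf
  have key := polar_inv hu hZuA hYA hZuf hYf
  have hzz : rk b e0 f * star u * u = rk b e0 f := by rw [mul_assoc, hu.2.1, mul_one]
  rw [hzz] at key
  have e00 : ⟪e0, e0⟫_ℂ = 1 := by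
    rw [inner_self_eq_norm_sq_to_K, e0_norm]; simp
  set p : L2R ℂ := (adjoint (u.comp (axi ξ))) (ten f' (b ξ)) with hp
  have hp' : ∀ g, ⟪p, g⟫_ℂ = ⟪ten f' (b ξ), u (ten g ξ)⟫_ℂ := by
    intro g
    rw [hp, adjoint_inner_left]
    rfl
  set p' : L2R ℂ := (adjoint (axi ξ)) (u (ten f ((star b) ξ))) with hp2
  have hp2' : ∀ g, ⟪g, p'⟫_ℂ = ⟪ten g ξ, u (ten f ((star b) ξ))⟫_ℂ := by
    intro g
    rw [hp2, adjoint_inner_right]
    rfl
  have t1 : ∀ j : JJ, ⟪rk b e0 f (ten (gJ j) ξ),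
      (rk (1 : H →L[ℂ] H) e0 f' * u) (ten (gJ j) ξ)⟫_ℂ =
      ⟪p, gJ j⟫_ℂ * ⟪gJ j, f⟫_ℂ := by
    intro j
    rw [hp']
    change ⟪rk b e0 f (ten (gJ j) ξ), rk 1 e0 f' (u (ten (gJ j) ξ))⟫_ℂ = _
    rw [rk_apply, rk_apply, inner_ten, e00, one_mul, one_apply_eq_self, sl_ten, map_smul,
      inner_smul_left, inner_conj_symm, inner_sl, mul_comm]
  have t2 : ∀ j : JJ, ⟪(rk b e0 f * star u) (ten (gJ j) ξ), rk 1 e0 f' (ten (gJ j) ξ)⟫_ℂ =
      ⟪f', gJ j⟫_ℂ * ⟪gJ j, p'⟫_ℂ := by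
    intro j
    rw [hp2']
    change ⟪rk b e0 f ((star u) (ten (gJ j) ξ)), rk 1 e0 f' (ten (gJ j) ξ)⟫_ℂ = _
    rw [rk_apply, rk_apply, inner_ten, e00, one_mul, one_apply_eq_self, sl_ten,
      inner_smul_right]
    congr 1
    rw [← inner_star_right b, inner_sl', inner_star_left]
  simp only [t1, t2] at key
  have s1 : Summable fun j : JJ => ⟪p, gJ j⟫_ℂ * ⟪gJ j, f⟫_ℂ := by
    have := (hasSum_polar hZf hYuf).summable
    simpa only [t1] using this
  have s2 : Summable fun j : JJ => ⟪f', gJ j⟫_ℂ * ⟪gJ j, p'⟫_ℂ := by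
    have := (hasSum_polar hZuf hYf).summable
    simpa only [t2] using this
  rw [frame_tsum hf p s1] at key
  have s3 : (fun j : JJ => ⟪f', gJ j⟫_ℂ * ⟪gJ j, p'⟫_ℂ) =
      fun j : JJ => (starRingEnd ℂ) (⟪p', gJ j⟫_ℂ * ⟪gJ j, f'⟫_ℂ) := by
    funext j
    rw [map_mul, inner_conj_symm, inner_conj_symm, mul_comm]
  have s4 : Summable fun j : JJ => ⟪p', gJ j⟫_ℂ * ⟪gJ j, f'⟫_ℂ := by
    rw [s3] at s2
    have := s2.star
    simpa using this
  rw [s3, ← Complex.conj_tsum, frame_tsum hf' p' s4, hp', inner_conj_symm, hp2'] at key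
  exact key

end Pool.Agent.Helper23

end

section

open scoped InnerProductSpace Topology ENNReal

open ContinuousLinearMap Filter MeasureTheory

namespace Pool.Agent.Helper23

variable {H : Type*} [NormedAddCommGroup H] [InnerProductSpace ℂ H] [CompleteSpace H]

variable {G : Type*} [NormedAddCommGroup G] [InnerProductSpace ℂ G] [CompleteSpace G]

variable {M N : VonNeumannAlgebra H} {ξ : H} {E : (H →L[ℂ] H) → (H →L[ℂ] H)}

lemma he_hi {n : ℕ} {f : L2R ℂ} (hf : Pn n f = f) :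
    mulOp ℂ (he n) (mulOp ℂ (hi n) f) = f := by
  rw [mulOp_mulOp (he_bm n) (hi_bm n)]
  ext1
  filter_upwards [mulOp_coe ((he_bm n).mul (hi_bm n)) f, Pn_ae hf] with s hs h
  rw [hs]
  by_cases h1 : s ∈ Set.Ico (-(n : ℝ)) n
  · rw [he_of_mem h1, hi_of_mem h1, ← Complex.ofReal_mul, ← Real.exp_add]
    simp
  · rw [h h1, smul_zero]

/-- partners of slices of elements of the centralizer of the weight -/
lemma partner_slX {u : L2R H →L[ℂ] L2R H} (hu : u ∈ GK N ξ) {n : ℕ} {F g : L2R ℂ}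
    (hF : Pn n F = F) (hg : Pn n g = g) :
    Partner N ξ (slX u F g) (slX u (mulOp ℂ (hi n) F) (mulOp ℂ (he n) g)) := by
  refine ⟨slX_mem hu.1 _ _, slX_mem hu.1 _ _, fun z hz => ?_⟩
  have hF' : Pn n (mulOp ℂ (hi n) F) = mulOp ℂ (hi n) F := Pn_fix_mulOp (hi_bm n) hF
  have h1 := pol_star hu (star_mem hz) hg hF'
  rw [he_hi hF, star_star] at h1
  rw [inner_slX, ← h1, ← inner_slX, inner_star_left]

end Pool.Agent.Helper23

end

section

open scoped InnerProductSpace Topology ENNReal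

open ContinuousLinearMap Filter MeasureTheory

namespace Pool.Agent.Helper23

variable {H : Type*} [NormedAddCommGroup H] [InnerProductSpace ℂ H] [CompleteSpace H]

variable {M N : VonNeumannAlgebra H} {ξ : H} {E : (H →L[ℂ] H) → (H →L[ℂ] H)}

lemma sl_smul_left (c : ℂ) (f : L2R ℂ) (F : L2R H) :
    sl (c • f) F = (starRingEnd ℂ) c • sl f F := by
  refine ext_inner_left ℂ fun η => ?_
  rw [inner_smul_right, inner_sl, inner_sl, ten_smul_left, inner_smul_left]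

lemma slX_smul_smul (X : L2R H →L[ℂ] L2R H) (r r' : ℝ) (f g : L2R ℂ) :
    slX X ((r : ℂ) • f) ((r' : ℂ) • g) = ((r * r' : ℝ) : ℂ) • slX X f g := by
  ext η
  rw [slX_apply, sl_smul_left, ten_smul_left, map_smul, map_smul, smul_apply, slX_apply,
    Complex.conj_ofReal, smul_smul, Complex.ofReal_mul]

/-- partners of the slices -/
lemma partner_sa {u : L2R H →L[ℂ] L2R H} (hu : u ∈ GK N ξ) {t : ℝ} (ht : 0 < t) (g : L2R ℂ)
    (l : ℤ × hw × ℤ) :
    Partner N ξ (sa u t g l) (((Real.exp ((l.2.2 - l.1) * t) : ℝ) : ℂ) • sb u t g l) := by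
  obtain ⟨i, k, j⟩ := l
  obtain ⟨n, hn⟩ := exists_nat_ge (max ((|i| + 1 : ℝ) * t) ((|j| + 1 : ℝ) * t))
  have hni : (|i| + 1 : ℝ) * t ≤ n := (le_max_left _ _).trans hn
  have hnj : (|j| + 1 : ℝ) * t ≤ n := (le_max_right _ _).trans hn
  have hP : ∀ (i : ℤ), (|i| + 1 : ℝ) * t ≤ n → ∀ f : L2R ℂ,
      Pn n (mulOp ℂ (ind (win t i)) f) = mulOp ℂ (ind (win t i)) f := by
    intro i hi f
    refine Pn_of_ae ?_
    filter_upwards [mulOp_coe (ind_bm (win_meas t i)) f] with s hs h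
    rw [hs, ind_of_notMem (fun hcon => h (win_sub_Ico ht hi hcon)), zero_smul]
  have h1 := partner_slX hu (hP i hni (hb k)) (hP j hnj g)
  have e1 : mulOp ℂ (hi n) (mulOp ℂ (ind (win t i)) (hb k)) =
      ((Real.exp (-(i * t)) : ℝ) : ℂ) • mulOp ℂ (em t i) (hb k) := by
    rw [mulOp_mulOp (hi_bm n) (ind_bm (win_meas t i)), ← mulOp_constMul _ (em_bm t i)]
    ext1
    filter_upwards [mulOp_coe ((hi_bm n).mul (ind_bm (win_meas t i))) (hb k : L2R ℂ),
      mulOp_coe ((em_bm t i).constMul ((Real.exp (-(i * t)) : ℝ) : ℂ)) (hb k : L2R ℂ)]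
      with s e1 e2
    rw [e1, e2]
    by_cases h : s ∈ win t i
    · rw [hi_of_mem (win_sub_Ico ht hni h), ind_of_mem h, em_of_mem h, mul_one,
        ← Complex.ofReal_mul, ← Real.exp_add]
      congr 4
      ring
    · rw [ind_of_notMem h, em_of_notMem h, mul_zero, mul_zero]
  have e2 : mulOp ℂ (he n) (mulOp ℂ (ind (win t j)) g) =
      ((Real.exp (j * t) : ℝ) : ℂ) • mulOp ℂ (ep t j) g := by
    rw [mulOp_mulOp (he_bm n) (ind_bm (win_meas t j)), ← mulOp_constMul _ (ep_bm ht j)]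
    ext1
    filter_upwards [mulOp_coe ((he_bm n).mul (ind_bm (win_meas t j))) g,
      mulOp_coe ((ep_bm ht j).constMul ((Real.exp (j * t) : ℝ) : ℂ)) g] with s e1 e2
    rw [e1, e2]
    by_cases h : s ∈ win t j
    · rw [he_of_mem (win_sub_Ico ht hnj h), ind_of_mem h, ep_of_mem h, mul_one,
        ← Complex.ofReal_mul, ← Real.exp_add]
      congr 4
      ring
    · rw [ind_of_notMem h, ep_of_notMem h, mul_zero, mul_zero]
  rw [e1, e2, slX_smul_smul, ← Real.exp_add] at h1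
  have e3 : -(i * t) + (j : ℝ) * t = (j - i) * t := by ring
  rw [e3] at h1
  exact h1

end Pool.Agent.Helper23

end

section

open scoped InnerProductSpace Topology

open ContinuousLinearMap Filter

namespace Pool.Agent.Helper23

universe u

variable {H : Type u} [NormedAddCommGroup H] [InnerProductSpace ℂ H] [CompleteSpace H]

variable {M N : VonNeumannAlgebra H} {ξ : H} {E : (H →L[ℂ] H) → (H →L[ℂ] H)}

section U2

namespace U2

open Pool.Agent.Helper43.TTF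

/-- `E x` and `x` have the same form on the closure of `N ξ` -/
lemma inner_E_K0 (S : Setting M N E ξ) {x : H →L[ℂ] H} (hx : x ∈ M) {k k' : H}
    (hk : k ∈ K0 N ξ) (hk' : k' ∈ K0 N ξ) : ⟪k, E x k'⟫_ℂ = ⟪k, x k'⟫_ℂ := by
  refine K0_induction (p := fun k => ⟪k, E x k'⟫_ℂ = ⟪k, x k'⟫_ℂ)
    (isClosed_eq (by fun_prop) (by fun_prop)) (fun a ha => ?_) hk
  refine K0_induction (p := fun k' => ⟪a ξ, E x k'⟫_ℂ = ⟪a ξ, x k'⟫_ℂ)
    (isClosed_eq (by fun_prop) (by fun_prop)) (fun b hb => ?_) hk'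
  exact S.E_inner ha hb hx

lemma form_eq (S : Setting M N E ξ) {a s : H →L[ℂ] H} (ha : a ∈ M) (hs : s ∈ N.commutant)
    (hsK : s ξ ∈ K0 N ξ) :
    ⟪ξ, E (star a * a) ((star s * s) ξ)⟫_ℂ = ((‖a (s ξ)‖ ^ 2 : ℝ) : ℂ) := by
  have hx : star a * a ∈ M := mul_mem (star_mem ha) ha
  have hE := S.E_mem _ hx
  have h1 : E (star a * a) ((star s * s) ξ) = (star s) (E (star a * a) (s ξ)) :=
    commute_apply hE (star_mem hs) (s ξ)
  rw [h1, inner_star_right, inner_E_K0 S hx hsK hsK, norm_sq_apply]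
  rfl

end U2

open Pool.Agent.Helper43.TTF in
/-- compression of vectors of the commutant -/
theorem Setting.exists_comm_proj (S : Setting M N E ξ) {r : H →L[ℂ] H} (hr : r ∈ M.commutant) :
    ∃ r' ∈ M.commutant, ‖r'‖ ≤ ‖r‖ ∧ r' ξ = (K0 N ξ).starProjection (r ξ) := by
  set e : H →L[ℂ] H := p0 N ξ with he
  have heN : e ∈ N.commutant := proj_orb_mem N ξ
  have hrN : r ∈ N.commutant := S.comm_le hr
  have hee : ∀ v, e (e v) = e v := fun v => p0_of_mem (p0_mem v)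
  have hes : star e = e := by
    apply ContinuousLinearMap.ext
    intro v
    refine ext_inner_right ℂ fun w => ?_
    rw [inner_star_left]
    exact (p0_symm v w).symm
  have hes2 : star e * e = e := by
    rw [hes]
    exact ContinuousLinearMap.ext hee
  have hnorm : ∀ v, ‖e v‖ ≤ ‖v‖ := fun v => Submodule.norm_starProjection_apply_le _ _
  have hξ : ξ ∈ K0 N ξ := by
    have := mem_K0 (ξ := ξ) (one_mem N)
    rwa [one_apply_eq_self] at this
  have heξ : e ξ = ξ := p0_of_mem hξ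
  -- the operator `T = ‖r‖² e - (e r e)* (e r e)`
  set ρ : H →L[ℂ] H := e * r * e with hρ
  have hρN : ρ ∈ N.commutant := mul_mem (mul_mem heN hrN) heN
  set T : H →L[ℂ] H := ((‖r‖ ^ 2 : ℝ) : ℂ) • (star e * e) - star ρ * ρ with hT
  have hTN : T ∈ N.commutant := sub_mem (smul_mem' _ (mul_mem (star_mem heN) heN))
    (mul_mem (star_mem hρN) hρN)
  have hTv : ∀ v, ⟪v, T v⟫_ℂ = ((‖r‖ ^ 2 * ‖e v‖ ^ 2 - ‖ρ v‖ ^ 2 : ℝ) : ℂ) := by
    intro v
    rw [hT, sub_apply, smul_apply, inner_sub_right, inner_smul_right]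
    change _ * ⟪v, (star e) (e v)⟫_ℂ - ⟪v, (star ρ) (ρ v)⟫_ℂ = _
    rw [← norm_sq_apply, ← norm_sq_apply]
    push_cast
    ring
  have hρv : ∀ v, ‖ρ v‖ ≤ ‖r‖ * ‖e v‖ := fun v => (hnorm _).trans (r.le_opNorm _)
  have hT0 : 0 ≤ T := by
    rw [ContinuousLinearMap.nonneg_iff_isPositive, ContinuousLinearMap.isPositive_iff_complex]
    intro v
    have h1 : ⟪T v, v⟫_ℂ = ((‖r‖ ^ 2 * ‖e v‖ ^ 2 - ‖ρ v‖ ^ 2 : ℝ) : ℂ) := by
      rw [← inner_conj_symm, hTv, Complex.conj_ofReal]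
    rw [h1, RCLike.re_to_complex, Complex.ofReal_re]
    refine ⟨rfl, ?_⟩
    have h2 := pow_le_pow_left₀ (norm_nonneg _) (hρv v) 2
    rw [mul_pow] at h2
    linarith
  obtain ⟨t, htN, hts, htT⟩ : ∃ Y ∈ N.commutant, star Y = Y ∧ star Y * Y = T := by
    have : IsClosed (N.commutant : Set (H →L[ℂ] H)) := vN_isClosed _
    have : IsClosed (N.commutant.toStarSubalgebra : Set (H →L[ℂ] H)) := vN_isClosed _
    refine ⟨CFC.sqrt T, ?_, (IsSelfAdjoint.of_nonneg (CFC.sqrt_nonneg T)).star_eq, ?_⟩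
    · rw [CFC.sqrt_eq_real_sqrt T hT0]
      have h1 : cfcₙ Real.sqrt T ∈ N.commutant.toStarSubalgebra := by
        refine cfcₙ_mem (s := N.commutant.toStarSubalgebra) Real.sqrt ?_
        exact hTN
      exact h1
    · rw [(IsSelfAdjoint.of_nonneg (CFC.sqrt_nonneg T)).star_eq]
      exact CFC.sqrt_mul_sqrt_self T hT0
  -- `t` maps into the closure of `N ξ`
  have ht1 : ∀ v, e v = 0 → t v = 0 := by
    intro v hv
    have h1 := norm_sq_apply t v
    have h2 : ⟪v, (star t) (t v)⟫_ℂ = ⟪v, T v⟫_ℂ := by rw [← htT]; rfl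
    rw [h2, hTv, hv, norm_zero] at h1
    have h3 : ‖t v‖ ^ 2 = ‖r‖ ^ 2 * 0 ^ 2 - ‖ρ v‖ ^ 2 := Complex.ofReal_injective h1
    have h4 : ‖t v‖ ^ 2 ≤ 0 := by rw [h3]; nlinarith [sq_nonneg ‖ρ v‖]
    have h5 : ‖t v‖ = 0 := by nlinarith [norm_nonneg (t v)]
    exact norm_eq_zero.1 h5
  have ht2 : ∀ v, t (e v) = t v := by
    intro v
    have := ht1 (v - e v) (by rw [map_sub, hee, sub_self])
    rw [map_sub, sub_eq_zero] at this
    exact this.symm
  have ht3 : e (t ξ) = t ξ := by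
    refine ext_inner_right ℂ fun w => ?_
    rw [p0_symm, ← hts, inner_star_left, inner_star_left, ht2]
  have htK : t ξ ∈ K0 N ξ := by rw [← ht3]; exact p0_mem _
  -- key inequality
  have key : ∀ a ∈ M, ‖a (e (r ξ))‖ ≤ ‖r‖ * ‖a ξ‖ := by
    intro a ha
    have e1 := U2.form_eq S ha htN htK
    have e2 := U2.form_eq S ha heN (by rw [heξ]; exact hξ)
    have e3 := U2.form_eq S ha hρN (p0_mem _)
    have hρξ : ρ ξ = e (r ξ) := by
      change e (r (e ξ)) = _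
      rw [heξ]
    rw [htT, hT, sub_apply, smul_apply, map_sub, map_smul, inner_sub_right, inner_smul_right,
      e2, e3, heξ, hρξ] at e1
    have e4 : ‖r‖ ^ 2 * ‖a ξ‖ ^ 2 - ‖a (e (r ξ))‖ ^ 2 = ‖a (t ξ)‖ ^ 2 := by
      apply Complex.ofReal_injective
      push_cast at e1 ⊢
      exact e1
    refine (pow_le_pow_iff_left₀ (norm_nonneg _) (by positivity) two_ne_zero).1 ?_
    rw [mul_pow]
    nlinarith [sq_nonneg ‖a (t ξ)‖]
  obtain ⟨y, hy, hye, hyn⟩ := exists_op M (ξ := ξ) (η := e (r ξ)) (norm_nonneg r) S.cyc key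
  refine ⟨y, hy, hyn, ?_⟩
  have := hye 1 (one_mem M)
  rw [one_apply_eq_self, one_apply_eq_self] at this
  exact this

open Pool.Agent.Helper43.TTF in
theorem Setting.AppR_E (S : Setting M N E ξ) {x : ℕ → H →L[ℂ] H} (hx : x ∈ AppR M ξ) :
    (fun n => E (x n)) ∈ AppR M ξ := by
  obtain ⟨hxM, ⟨C, hC⟩, hx⟩ := hx
  refine ⟨fun n => S.le _ (S.E_mem _ (hxM n)), ⟨C, fun n => (S.E_norm (hxM n)).trans (hC n)⟩,
    fun ε hε => ?_⟩
  obtain ⟨r, hr, ⟨A, hA⟩, h1⟩ := hx ε hε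
  choose r' hr' hn he using fun n => S.exists_comm_proj (hr n)
  refine ⟨r', hr', ⟨A, fun n => (hn n).trans (hA n)⟩, ?_⟩
  filter_upwards [h1] with n h3
  rw [he, ← E_apply S (hxM n)]
  have e1 : p0 N ξ (x n ξ) - (K0 N ξ).starProjection (r n ξ) = p0 N ξ (x n ξ - r n ξ) := by
    rw [map_sub]; rfl
  rw [e1]
  exact (Submodule.norm_starProjection_apply_le _ _).trans h3

open Pool.Agent.Helper43.TTF in
lemma U2.E_star' (S : Setting M N E ξ) {a : H →L[ℂ] H} (ha : a ∈ M) :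
    star (E a) = E (star a) := by
  have hE := S.E_mem a ha
  have hE' := S.E_mem _ (star_mem ha)
  have h1 : (star (E a)) ξ = E (star a) ξ := by
    rw [← E_apply S (star_mem ha)]
    symm
    refine p0_eq (mem_K0 (star_mem hE)) fun b hb => ?_
    rw [inner_star_right, inner_star_right]
    have h2 := S.E_inner (one_mem N) hb ha
    rw [one_apply_eq_self] at h2
    rw [← inner_conj_symm, h2, inner_conj_symm]
  have h4 : (star (E a) - E (star a)) ξ = 0 := by rw [sub_apply, h1, sub_self]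
  exact sub_eq_zero.1 (S.sep _ (sub_mem (star_mem (S.le _ hE)) (S.le _ hE')) h4)

theorem Setting.AppS_E (S : Setting M N E ξ) {x : ℕ → H →L[ℂ] H} (hx : x ∈ AppS M ξ) :
    (fun n => E (x n)) ∈ AppS M ξ := by
  refine ⟨S.AppR_E hx.1, ?_⟩
  have h1 : (fun n => star (E (x n))) = fun n => E (star (x n)) := by
    funext n
    exact U2.E_star' S (hx.1.1 n)
  rw [h1]
  exact S.AppR_E hx.2

end U2

end Pool.Agent.Helper23

end

section

open scoped InnerProductSpace Topology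

open ContinuousLinearMap Filter

namespace Pool.Agent.Helper23

universe u

variable {H : Type u} [NormedAddCommGroup H] [InnerProductSpace ℂ H] [CompleteSpace H]

variable {L : Type u} [NormedAddCommGroup L] [InnerProductSpace ℂ L] [CompleteSpace L]

variable {M N A : VonNeumannAlgebra H} {ξ : H} {E : (H →L[ℂ] H) → (H →L[ℂ] H)}

section

variable {mk : (ℕ → H) → L} (h : HUP mk)

include h

lemma HUP.rp_E (S : Setting M N E ξ) {x y : ℕ → H →L[ℂ] H}
    (hx : x ∈ AppS M ξ) (hy : y ∈ AppS M ξ) (hxy : rp M ξ mk x = rp M ξ mk y) :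
    rp M ξ mk (fun n => E (x n)) = rp M ξ mk (fun n => E (y n)) := by
  have hUU := UU_neBot
  have hEx := S.AppS_E hx
  have hEy := S.AppS_E hy
  refine h.rp_eq S.dense_comm hEx hEy ?_
  apply Subtype.ext
  rw [h.rp_zt hEx, h.rp_zt hEy, h.mk_eq (ocB_app (ocS_bdd hEx) ξ) (ocB_app (ocS_bdd hEy) ξ)]
  have h1 : (mk fun n => x n ξ) = mk fun n => y n ξ := by
    rw [← h.rp_zt hx, ← h.rp_zt hy, hxy]
  rw [h.mk_eq (ocB_app (ocS_bdd hx) ξ) (ocB_app (ocS_bdd hy) ξ)] at h1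
  exact squeeze_zero (fun _ => norm_nonneg _)
    (fun n => S.norm_E_sub (ocS_mem hx n) (ocS_mem hy n)) h1

lemma HUP.Et_rp (S : Setting M N E ξ) {x : ℕ → H →L[ℂ] H} (hx : x ∈ AppS M ξ) :
    Et M E ξ mk (rp M ξ mk x) = rp M ξ mk (fun n => E (x n)) := by
  have h1 : ∃ y ∈ AppS M ξ, rp M ξ mk y = rp M ξ mk x := ⟨x, hx, rfl⟩
  unfold Et
  rw [dif_pos h1]
  exact h.rp_E S h1.choose_spec.1 hx h1.choose_spec.2

end

end Pool.Agent.Helper23

end

section

open scoped InnerProductSpace Topology BoundedContinuousFunction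

open ContinuousLinearMap Filter MeasureTheory

namespace Pool.Agent.Helper88.CS

open Pool.Agent.Helper23

open Pool.Agent.Helper78.BC (Std rm Fixed)

variable {H : Type*} [NormedAddCommGroup H] [InnerProductSpace ℂ H] [CompleteSpace H]

variable {A : VonNeumannAlgebra H} {ξ : H} {J : H →L[ℝ] H}
  {Ψ : (ℝ →ᵇ ℂ) →⋆ₐ[ℂ] (H →L[ℂ] H)} {R : H →L[ℂ] H} {D : H →L[ℝ] H}

/-- a bump at a point of the support -/
theorem exists_piece_at (h : St A ξ J Ψ R D) {s η : ℝ} (hη : 0 < η) :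
    ∃ (k : ℝ → ℂ) (K : ℝ →ᵇ ℂ), Ker k K ∧
      (∀ ρ, ρ ∉ Set.Icc (s - η) (s + η) → K ρ = 0) ∧ K s = 1 := by
  obtain ⟨k, K, h1, -, h3, h4⟩ := exists_bump s s η le_rfl hη
  exact ⟨k, K, h1, fun ρ hρ => h4 ρ fun hh => hρ ⟨hh.1.le, hh.2.le⟩,
    h3 s ⟨le_rfl, le_rfl⟩⟩

end Pool.Agent.Helper88.CS

end

section

open scoped InnerProductSpace Topology ENNReal BoundedContinuousFunction

open ContinuousLinearMap Filter MeasureTheory

namespace Pool.Agent.Helper23.ED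

open Pool.Agent.Helper23 Pool.Agent.Helper23.RBF

open Pool.Agent.Helper78.BC.Transport (Sub r)

universe u

open Pool.Agent.Helper23.TTA (Rop Dop)

variable {H : Type u} [NormedAddCommGroup H] [InnerProductSpace ℂ H] [CompleteSpace H]

variable {K : Type u} [NormedAddCommGroup K] [InnerProductSpace ℂ K] [CompleteSpace K]

variable {M N : VonNeumannAlgebra H} {E : (H →L[ℂ] H) → (H →L[ℂ] H)}

variable {ξ : H} {i : K →L[ℂ] H} {κ : K}

namespace TrA

lemma i_mem (Sb : Sub N ξ i κ) (w : K) : i w ∈ Pool.Agent.Helper23.K0 N ξ := by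
  have h : i w ∈ closure (orb N ξ : Set H) := by
    rw [Metric.mem_closure_iff]
    intro ε hε
    obtain ⟨a, ha, h1⟩ := Sb.cyc w ε hε
    refine ⟨a ξ, ⟨a, ha, rfl⟩, ?_⟩
    rw [dist_eq_norm, norm_sub_rev]
    exact h1
  exact h

open Pool.Agent.Helper78.BC in
lemma i_P (S : Setting M N E ξ) (Sb : Sub N ξ i κ) (v : K) :
    i (TTA.P (Transport.B N i) κ v) = TTA.P M ξ (i v) := by
  have hsep : ∀ a ∈ N, a ξ = 0 → a = 0 := fun a ha h => S.sep a (S.le a ha) h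
  set u := TTA.P (Transport.B N i) κ v with hu
  have h1 : TTA.P M ξ (i u) = i u := TTA.P_of_mem M ξ (i_K S Sb (TTA.P_mem _ _ _))
  have h2 : TTA.P M ξ (i v - i u) = 0 := by
    refine TTA.P_eq_zero M ξ fun m hm hm' => ?_
    have hE := S.E_mem m hm
    have h3 : i v - i u = i (v - u) := (map_sub i v u).symm
    have h4 : TTA.rho (m ξ) (i (v - u)) = TTA.rho (E m ξ) (i (v - u)) := by
      unfold TTA.rho
      rw [← Pool.Agent.Helper43.TTF.E_apply S hm, Pool.Agent.Helper43.TTF.p0_symm,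
        Pool.Agent.Helper43.TTF.p0_of_mem (i_mem Sb _)]
    have h5 : E m ξ = i (r i (E m) κ) := by rw [Sb.i_r hE, Sb.vec]
    have h6 : TTA.rho (i (r i (E m) κ)) (i (v - u)) = TTA.rho (r i (E m) κ) (v - u) := by
      unfold TTA.rho
      rw [Transport.inner_i, Sb.isom]
    have h7 : r i (E m) κ ∈ TTA.K (Transport.B N i) κ := by
      refine TTA.mem_K_of _ _ (Transport.r_mem Sb hsep hE) ?_
      rw [Transport.Sub.r_star, Pool.Agent.Helper43.TTF.E_star S hm hm']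
    rw [h3, h4, h5, h6, TTA.rho_sub_right, hu, ← TTA.rho_P, TTA.P_of_mem _ _ h7, sub_self]
  rw [map_sub, h1, sub_eq_zero] at h2
  exact h2.symm

end TrA

open Pool.Agent.Helper78.BC in
theorem i_Rop (S : Setting M N E ξ) (Sb : Sub N ξ i κ) (v : K) :
    i (Rop (Transport.B N i) κ v) = Rop M ξ (i v) := by
  rw [TTA.Rop_apply, TTA.Rop_apply, map_add, TrA.i_P S Sb]
  congr 1
  unfold TTA.Q
  rw [map_neg, map_smul, TrA.i_P S Sb, map_smul]

end Pool.Agent.Helper23.ED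

end
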