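import Pool.Agent.Helper23.FA.Ns
import Pool.Agent.Helper23.FA.L00_09
import Pool.Agent.Helper23.FA.L01_01
import Pool.Agent.Helper23.FA.L01_02
import Pool.Agent.Helper23.FA.L01_03
import Pool.Agent.Helper23.FA.L01_04
import Pool.Agent.Helper23.FA.L01_08
import Pool.Agent.Helper23.FA.L01_09
import Pool.Agent.Helper23.FA.L01_12
import Pool.Agent.Helper23.FA.L01_14
import Pool.Agent.Helper23.FA.L01_18

/-!
Parts of Helper23.Wt, Helper78.BC.Transport, Helper88.CS.Cone, Helper88.CS.SuppA, Helper88.CS.Cent, Helper88.CS.SpecB, Helper23.ED.FcA, Helper23.ED.SmF, Helper23.ED.NgE, Helper23.ED.GgB, Helper23.ED.GgE, Helper23.ED.WuB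
-/

section

open scoped InnerProductSpace Topology ENNReal

open ContinuousLinearMap Filter MeasureTheory

set_option linter.unusedSectionVars false

set_option linter.unusedVariables false

namespace Pool.Agent.Helper23

variable {H : Type*} [NormedAddCommGroup H] [InnerProductSpace ℂ H] [CompleteSpace H]

variable {M N : VonNeumannAlgebra H} {ξ : H} {E : (H →L[ℂ] H) → (H →L[ℂ] H)}

open RBF in
lemma GK_iff {u : L2R H →L[ℂ] L2R H} : u ∈ GK N ξ ↔ ScalingUnitary (amp N) (wK ξ) 1 u := by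
  constructor
  · rintro ⟨h1, h2, h3, h4⟩
    refine ⟨h1, h2, h3, fun X hX hX0 => ?_⟩
    obtain ⟨Y, hY, rfl⟩ := exists_sqrt_mem (amp N) hX hX0
    have : star u * (star Y * Y) * u = star (Y * u) * (Y * u) := by
      rw [star_mul]; simp only [mul_assoc]
    rw [this, wK_star_mul, wK_star_mul, h4 Y hY, ENNReal.ofReal_one, one_mul]
  · rintro ⟨h1, h2, h3, h4⟩
    refine ⟨h1, h2, h3, fun Y hY => ?_⟩
    have := h4 (star Y * Y) (mul_mem (star_mem hY) hY) (star_mul_self_nonneg _)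
    have h5 : star u * (star Y * Y) * u = star (Y * u) * (Y * u) := by
      rw [star_mul]; simp only [mul_assoc]
    rw [h5, wK_star_mul, wK_star_mul, ENNReal.ofReal_one, one_mul] at this
    exact this

end Pool.Agent.Helper23

end

section

open scoped InnerProductSpace Topology

open ContinuousLinearMap Filter

open Pool.Agent.Helper23 Pool.Agent.Helper23.RBF

namespace Pool.Agent.Helper78.BC

universe u

namespace Transport

variable {H : Type u} [NormedAddCommGroup H] [InnerProductSpace ℂ H] [CompleteSpace H]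

variable {K : Type u} [NormedAddCommGroup K] [InnerProductSpace ℂ K] [CompleteSpace K]

variable {A : VonNeumannAlgebra H} {ξ : H} {i : K →L[ℂ] H} {κ : K}

variable (S : Sub A ξ i κ)

include S

theorem main (hsep : ∀ a ∈ A, a ξ = 0 → a = 0) (hB : TrivialBicentralizer (B A i) κ) :
    TrivialBicentralizer A ξ := by
  intro x hx h
  obtain ⟨c, hc⟩ := hB (r i x) (r_mem S hsep hx) (by
    rintro b ⟨hb1, ⟨C, hC⟩, hb3⟩ k
    have h1 : ∀ n, ∃ a ∈ A, ‖a‖ ≤ ‖b n‖ ∧ r i a = b n := fun n => exists_lift S hsep (hb1 n)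
    choose a ha ha1 ha2 using h1
    have h2 : AsympEigen A ξ 1 a := by
      refine ⟨ha, ⟨C, fun n => (ha1 n).trans (hC n)⟩, fun ε hε => ?_⟩
      filter_upwards [hb3 ε hε] with n hn y hy
      have h3 := hn (r i y) (r_mem S hsep hy)
      rw [← ha2 n, S.r_mul hy, S.r_mul (ha n), inner_r S, inner_r S, S.vec] at h3
      exact h3.trans (mul_le_mul_of_nonneg_left (S.r_norm y) hε.le)
    have h4 := h a h2 (i k)
    have h5 : (fun n => (r i x * b n - b n * r i x) k) =
        fun n => adjoint i ((x * a n - a n * x) (i k)) := by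
      funext n
      rw [← ha2 n, S.r_mul hx, S.r_mul (ha n)]
      rw [sub_apply, sub_apply, map_sub]
      rfl
    rw [h5]
    have h6 := ((adjoint i).continuous.tendsto 0).comp h4
    rw [map_zero] at h6
    exact h6)
  refine ⟨c, ?_⟩
  have h1 : (x - c • (1 : H →L[ℂ] H)) ξ = 0 := by
    have h2 : i (r i x κ) = i (c • κ) := by rw [hc]; rfl
    rw [S.i_r hx, map_smul, S.vec] at h2
    rw [sub_apply, smul_apply, one_apply_eq_self, h2, sub_self]
  exact sub_eq_zero.1 (hsep _ (sub_mem hx (smul_mem' c (one_mem A))) h1)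

end Transport

open Transport in
/-- If the bicentralizer is trivial for cyclic and separating vectors, then it is trivial for
separating vectors. -/
theorem transport
    (hmain : ∀ (K : Type u) [NormedAddCommGroup K] [InnerProductSpace ℂ K] [CompleteSpace K]
      (B : VonNeumannAlgebra K) (κ : K), ‖κ‖ = 1 → Dense (orb B κ : Set K) →
      (∀ b ∈ B, b κ = 0 → b = 0) → Pool.Agent.Helper23.RBF.TypeIIIOne B → TrivialBicentralizer B κ)
    {H : Type u} [NormedAddCommGroup H] [InnerProductSpace ℂ H] [CompleteSpace H]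
    (A : VonNeumannAlgebra H) (ξ : H) (hξ : ‖ξ‖ = 1) (hsep : ∀ a ∈ A, a ξ = 0 → a = 0)
    (hA : Pool.Agent.Helper23.RBF.TypeIIIOne A) : TrivialBicentralizer A ξ := by
  set V : Submodule ℂ H := (orb A ξ).topologicalClosure with hV
  have hξV : ξ ∈ V := Submodule.le_topologicalClosure _ ⟨1, one_mem _, rfl⟩
  have hadj : ∀ v : H, V.subtypeL (adjoint V.subtypeL v) = V.starProjection v := by
    intro v
    rw [Submodule.adjoint_subtypeL]
    rfl
  have S : Sub A ξ V.subtypeL (⟨ξ, hξV⟩ : V) := by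
    refine ⟨fun k => ?_, fun x hx k => ?_, rfl, fun k ε hε => ?_⟩
    · refine Subtype.ext ?_
      change V.subtypeL (adjoint V.subtypeL (V.subtypeL k)) = k.1
      rw [hadj]
      exact Submodule.starProjection_eq_self_iff.2 k.2
    · rw [hadj]
      have h1 := mem_comm_iff.1 (proj_orb_mem A ξ) x hx
      have h2 := congrArg (fun T : H →L[ℂ] H => T (V.subtypeL k)) h1
      have h3 : V.starProjection (V.subtypeL k) = V.subtypeL k :=
        Submodule.starProjection_eq_self_iff.2 k.2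
      change x (V.starProjection (V.subtypeL k)) = V.starProjection (x (V.subtypeL k)) at h2
      rw [← h2, h3]
    · have h1 : (V.subtypeL k : H) ∈ closure (orb A ξ : Set H) := k.2
      obtain ⟨_, ⟨a, ha, rfl⟩, h2⟩ := Metric.mem_closure_iff.1 h1 ε hε
      refine ⟨a, ha, ?_⟩
      rw [dist_eq_norm] at h2
      rw [norm_sub_rev]
      exact h2
  refine main S hsep (hmain V (B A V.subtypeL) ⟨ξ, hξV⟩ ?_ (dense_B S hsep) (sep_B S hsep)
    (typeIII S hsep hA))
  exact hξ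

end Pool.Agent.Helper78.BC

end

section

open scoped InnerProductSpace Topology BoundedContinuousFunction

open ContinuousLinearMap Filter MeasureTheory

namespace Pool.Agent.Helper88.CS

open Pool.Agent.Helper23

open Pool.Agent.Helper78.BC (Std rm Fixed)

variable {H : Type*} [NormedAddCommGroup H] [InnerProductSpace ℂ H] [CompleteSpace H]

variable {A : VonNeumannAlgebra H} {ξ : H} {J : H →L[ℝ] H}
  {Ψ : (ℝ →ᵇ ℂ) →⋆ₐ[ℂ] (H →L[ℂ] H)} {R : H →L[ℂ] H} {D : H →L[ℝ] H}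

namespace ConeAux

variable (h : St A ξ J Ψ R D)

include h

theorem herm {b c : H →L[ℂ] H} (hb : b ∈ A) (hc : c ∈ A) :
    ⟪J (b ξ), (star c) ξ⟫_ℂ = (starRingEnd ℂ) ⟪J (c ξ), (star b) ξ⟫_ℂ := by
  have h1 : ⟪J (b ξ), (star c) ξ⟫_ℂ = ⟪c (J (b ξ)), ξ⟫_ℂ := by
    rw [star_eq_adjoint, adjoint_inner_right]
  have h2 : ⟪c (J (b ξ)), ξ⟫_ℂ = ⟪ξ, J (c (J (b ξ)))⟫_ℂ := by
    have h3 := h.J_inner (c (J (b ξ))) ξ
    rw [h.J_xi] at h3
    rw [← inner_conj_symm, ← h3, inner_conj_symm]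
  rw [h1, h2, jc h hc hb, inner_conj_symm, star_eq_adjoint, adjoint_inner_left]

theorem zero_of {c : H →L[ℂ] H} (hc : c ∈ A) (h0 : ⟪J (c ξ), (star c) ξ⟫_ℂ = 0)
    {b : H →L[ℂ] H} (hb : b ∈ A) : ⟪J (c ξ), (star b) ξ⟫_ℂ = 0 := by
  set B : ℂ := ⟪J (c ξ), (star b) ξ⟫_ℂ with hB
  have key : ∀ t : ℝ, 0 ≤ -(2 * t * ‖B‖ ^ 2) + (⟪J (b ξ), (star b) ξ⟫_ℂ).re := by
    intro t
    set l : ℂ := -((t : ℂ) * (starRingEnd ℂ) B) with hl
    have hx : l • c + b ∈ A := add_mem (smul_mem' l hc) hb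
    have h1 := h.J_pos _ hx
    have h2 : J ((l • c + b) ξ) = (starRingEnd ℂ) l • J (c ξ) + J (b ξ) := by
      rw [_root_.add_apply, _root_.smul_apply, map_add, h.J_conj]
    have h3 : (star (l • c + b)) ξ = (starRingEnd ℂ) l • (star c) ξ + (star b) ξ := by
      rw [star_add, star_smul, _root_.add_apply, _root_.smul_apply]
      rfl
    rw [h2, h3, inner_add_left, inner_add_right, inner_add_right, inner_smul_left, inner_smul_left,
      inner_smul_right, inner_smul_right, h0, herm h hb hc, ← hB, Complex.conj_conj] at h1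
    have h4 : l * B = -((t * ‖B‖ ^ 2 : ℝ) : ℂ) := by
      rw [hl, neg_mul, mul_assoc, ← Complex.normSq_eq_conj_mul_self, Complex.normSq_eq_norm_sq]
      push_cast
      ring
    have h5 : (starRingEnd ℂ) l * (starRingEnd ℂ) B = -((t * ‖B‖ ^ 2 : ℝ) : ℂ) := by
      rw [← map_mul, h4, map_neg, Complex.conj_ofReal]
    rw [h4, h5] at h1
    simp only [mul_zero, zero_add, Complex.add_re, Complex.neg_re, Complex.ofReal_re] at h1
    linarith
  by_contra hne
  have hpos : 0 < ‖B‖ ^ 2 := by positivity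
  have h6 := key (((⟪J (b ξ), (star b) ξ⟫_ℂ).re + 1) / (2 * ‖B‖ ^ 2))
  have h7 : 2 * (((⟪J (b ξ), (star b) ξ⟫_ℂ).re + 1) / (2 * ‖B‖ ^ 2)) * ‖B‖ ^ 2
      = (⟪J (b ξ), (star b) ξ⟫_ℂ).re + 1 := by
    field_simp
  rw [h7] at h6
  linarith

end ConeAux

theorem kap_J (h : St A ξ J Ψ R D) {u : H →L[ℂ] H} (hu : u ∈ A) : J (kap J ξ u) = kap J ξ u := by
  have hu' : star u ∈ A := star_mem hu
  unfold kap
  rw [ConeAux.jc h hu' hu']

theorem kap_sep (h : St A ξ J Ψ R D) {u : H →L[ℂ] H} (hu : u ∈ A) (hu1 : star u * u = 1) :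
    ∀ a ∈ A, a (kap J ξ u) = 0 → a = 0 := by
  intro a ha h0
  have hu' : star u ∈ A := star_mem hu
  have hc : a * star u ∈ A := mul_mem ha hu'
  have h1 : (star u) (J ((a * star u) ξ)) = 0 := by
    rw [← ConeAux.jc h hc hu']
    have h2 : (a * star u) (J ((star u) ξ)) = 0 := h0
    rw [h2, map_zero]
  have h3 : ⟪J ((a * star u) ξ), (star (a * star u)) ξ⟫_ℂ = 0 := by
    rw [star_eq_adjoint (a * star u), adjoint_inner_right, ContinuousLinearMap.mul_apply, h1,
      map_zero, inner_zero_left]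
  have h4 : J ((a * star u) ξ) = 0 := by
    have h5 : ∀ v : H, ⟪J ((a * star u) ξ), v⟫_ℂ = 0 := by
      intro v
      have hcl : IsClosed {w : H | ⟪J ((a * star u) ξ), w⟫_ℂ = 0} :=
        isClosed_eq (by fun_prop) continuous_const
      have hsub : (orb A ξ : Set H) ⊆ {w : H | ⟪J ((a * star u) ξ), w⟫_ℂ = 0} := by
        rintro _ ⟨b, hb, rfl⟩
        have h6 := ConeAux.zero_of h hc h3 (b := star b) (star_mem hb)
        rwa [star_star] at h6
      exact hcl.closure_subset_iff.mpr hsub (h.dense v)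
    exact inner_self_eq_zero.mp (h5 _)
  have h7 : (a * star u) ξ = 0 := by
    rw [← h.J_J ((a * star u) ξ), h4, map_zero]
  have h8 := h.sep _ hc h7
  calc a = (a * star u) * u := by rw [mul_assoc, hu1, mul_one]
    _ = 0 := by rw [h8, zero_mul]

theorem kap_dense (h : St A ξ J Ψ R D) {u : H →L[ℂ] H} (hu : u ∈ A) (hu1 : star u * u = 1) :
    Dense (orb A (kap J ξ u) : Set H) := by
  have h1 := dense_of_separating A.commutant (kap J ξ u) (by
    intro b hb h0
    obtain ⟨a, ha, hab⟩ := h.J_mem b hb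
    have h2 : a (kap J ξ u) = 0 := by
      rw [← h.J_J (a (kap J ξ u))]
      have h3 := hab (kap J ξ u)
      rw [h0, kap_J h hu] at h3
      rw [← h3, map_zero]
    have h4 := kap_sep h hu hu1 a ha h2
    ext v
    rw [hab v, h4]
    simp)
  rwa [VonNeumannAlgebra.commutant_commutant] at h1

end Pool.Agent.Helper88.CS

end

section

open scoped InnerProductSpace Topology BoundedContinuousFunction

open ContinuousLinearMap Filter MeasureTheory

namespace Pool.Agent.Helper88.CS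

open Pool.Agent.Helper23

open Pool.Agent.Helper78.BC (Std rm Fixed)

variable {H : Type*} [NormedAddCommGroup H] [InnerProductSpace ℂ H] [CompleteSpace H]

variable {A : VonNeumannAlgebra H} {ξ : H} {J : H →L[ℝ] H}
  {Ψ : (ℝ →ᵇ ℂ) →⋆ₐ[ℂ] (H →L[ℂ] H)} {R : H →L[ℂ] H} {D : H →L[ℝ] H}

open SuppAAux in
/-- a nonzero vector has a nonzero piece with small support -/
theorem exists_piece (h : St A ξ J Ψ R D) {v : H} (hv : v ≠ 0) {η : ℝ} (hη : 0 < η) :
    ∃ (s : ℝ) (k : ℝ → ℂ) (K : ℝ →ᵇ ℂ), Ker k K ∧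
      (∀ ρ, ρ ∉ Set.Icc (s - η) (s + η) → K ρ = 0) ∧ Ψ K v ≠ 0 := by
  by_contra hcon
  push Not at hcon
  have h1 : ∀ x : ℝ, Ψ (Ra η x) v = Ψ (Ra η (x + η / 2)) v := by
    intro x
    obtain ⟨k, K, hk, -, hK1, hK0⟩ := exists_bump x (x + η) (η / 2) (by linarith) (by linarith)
    have h2 : Ψ K v = 0 := by
      refine hcon (x + η / 2) k K hk fun ρ hρ => hK0 ρ fun hh => hρ ?_
      exact ⟨by linarith [hh.1], by linarith [hh.2]⟩
    have h3 : Ra η x - Ra η (x + η / 2) = (Ra η x - Ra η (x + η / 2)) * K := by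
      ext ρ
      rw [BoundedContinuousFunction.mul_apply, BoundedContinuousFunction.sub_apply, Ra_apply,
        Ra_apply]
      rcases lt_or_ge ρ x with h4 | h4
      · rw [ra_zero hη h4.le, ra_zero hη (by linarith)]
        simp
      · rcases le_or_gt ρ (x + η) with h5 | h5
        · rw [hK1 ρ ⟨h4, h5⟩, mul_one]
        · rw [ra_one hη (by linarith), ra_one hη (by linarith)]
          simp
    rw [← sub_eq_zero, ← ContinuousLinearMap.sub_apply, ← map_sub, h3,
      Pool.Agent.Helper43.TTF.psi_mul_apply, h2, map_zero]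
  have h2 : ∀ (x : ℝ) (n : ℕ), Ψ (Ra η (x + n * (η / 2))) v = Ψ (Ra η x) v := by
    intro x n
    induction n with
    | zero => rw [Nat.cast_zero, zero_mul, add_zero]
    | succ n ih =>
      rw [← ih, h1 (x + n * (η / 2))]
      congr 3
      push_cast
      ring
  have h3 : ∀ x : ℝ, Ψ (Ra η x) v = 0 := by
    intro x
    have h4 := h.psi_cont (fun n : ℕ => Ra η (x + n * (η / 2))) 0 1 (fun n => norm_Ra_le _ _)
      (Ra_right hη x) v
    simp only [h2] at h4
    rw [map_zero, ContinuousLinearMap.zero_apply] at h4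
    exact tendsto_nhds_unique tendsto_const_nhds h4
  have h5 := h.psi_cont (fun n : ℕ => Ra η (-(n : ℝ))) 1 1 (fun n => norm_Ra_le _ _)
    (Ra_left hη) v
  simp only [h3] at h5
  rw [map_one, ContinuousLinearMap.one_apply] at h5
  exact hv (tendsto_nhds_unique h5 tendsto_const_nhds)

end Pool.Agent.Helper88.CS

end

section

open scoped InnerProductSpace Topology BoundedContinuousFunction

open ContinuousLinearMap Filter MeasureTheory

namespace Pool.Agent.Helper88.CS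

open Pool.Agent.Helper23

open Pool.Agent.Helper78.BC (Std rm Fixed)

variable {H : Type*} [NormedAddCommGroup H] [InnerProductSpace ℂ H] [CompleteSpace H]

variable {A : VonNeumannAlgebra H} {ξ : H} {J : H →L[ℝ] H}
  {Ψ : (ℝ →ᵇ ℂ) →⋆ₐ[ℂ] (H →L[ℂ] H)} {R : H →L[ℂ] H} {D : H →L[ℝ] H}

open CentAux

open Pool.Agent.Helper78.BC (fixed_of J_of_fixed)

open Pool.Agent.Helper78.BC.FixAux (Pl Pl_apply plat plat_cont norm_Pl_le Pl_tendsto mm_zero mm_nonneg mm_le)

open Pool.Agent.Helper70.U8 (GB GB_apply)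

theorem J_of_state (h : St A ξ J Ψ R D) {e : H →L[ℂ] H} (he : e ∈ A) (hs : star e = e)
    (hc : ∀ x ∈ A, ⟪e ξ, x ξ⟫_ℂ = ⟪(star x) ξ, e ξ⟫_ℂ) : J (e ξ) = e ξ := by
  -- the state condition
  have key : ∀ G G' : ℝ →ᵇ ℂ, HasCompactSupport (G : ℝ → ℂ) →
      (∀ ρ, G' ρ = ((Real.exp (ρ / 2) : ℝ) : ℂ) * G ρ) → star G = G → star G' = G' →
      Ψ G (e ξ) = Ψ G' (J (e ξ)) := by
    intro G G' hG hGG hr hr'
    refine ext_inner_right ℂ fun θ => ?_
    rw [Pool.Agent.Helper43.TTF.psi_star, Pool.Agent.Helper43.TTF.psi_star, hr, hr']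
    have hb : ∀ n : ℕ, ∃ b ∈ A, ‖b ξ - Ψ G θ‖ ≤ 1 / ((n : ℝ) + 1) ∧
        ‖J ((star b) ξ) - Ψ G' θ‖ ≤ 1 / ((n : ℝ) + 1) := fun n =>
      h.core G G' hG hGG θ (1 / ((n : ℝ) + 1)) (by positivity)
    choose b hbA hb1 hb2 using hb
    have t1 : Tendsto (fun n => (b n) ξ) atTop (𝓝 (Ψ G θ)) := by
      rw [tendsto_iff_norm_sub_tendsto_zero]
      exact squeeze_zero (fun _ => norm_nonneg _) hb1 tendsto_one_div_add_atTop_nhds_zero_nat
    have t2 : Tendsto (fun n => J ((star (b n)) ξ)) atTop (𝓝 (Ψ G' θ)) := by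
      rw [tendsto_iff_norm_sub_tendsto_zero]
      exact squeeze_zero (fun _ => norm_nonneg _) hb2 tendsto_one_div_add_atTop_nhds_zero_nat
    have t3 : Tendsto (fun n => ⟪e ξ, (b n) ξ⟫_ℂ) atTop (𝓝 ⟪e ξ, Ψ G θ⟫_ℂ) :=
      tendsto_const_nhds.inner t1
    have t4 : Tendsto (fun n => ⟪J (e ξ), J ((star (b n)) ξ)⟫_ℂ) atTop
        (𝓝 ⟪J (e ξ), Ψ G' θ⟫_ℂ) := tendsto_const_nhds.inner t2
    refine tendsto_nhds_unique t3 ?_
    have e1 : (fun n => ⟪e ξ, (b n) ξ⟫_ℂ) = fun n => ⟪J (e ξ), J ((star (b n)) ξ)⟫_ℂ := by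
      funext n
      rw [hc _ (hbA n), h.J_inner]
    rw [e1]
    exact t4
  rw [eq_comm, ← sub_eq_zero]
  refine zero_of_Pl h.toStd fun n => ?_
  -- `G = Pl / (1 + e^{ρ/2})`
  have hden : ∀ ρ : ℝ, (0 : ℝ) < 1 + Real.exp (ρ / 2) := fun ρ => by positivity
  set g : ℝ → ℝ := fun ρ => plat n ρ / (1 + Real.exp (ρ / 2)) with hg
  have hgc : Continuous g := by
    refine (plat_cont n).div (by fun_prop) fun ρ => (hden ρ).ne'
  set g' : ℝ → ℝ := fun ρ => Real.exp (ρ / 2) * g ρ with hg'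
  have hgc' : Continuous g' := by
    have : Continuous fun ρ : ℝ => Real.exp (ρ / 2) := by fun_prop
    exact this.mul hgc
  have p0 : ∀ ρ, 0 ≤ plat n ρ := fun ρ => mm_nonneg _
  have p1 : ∀ ρ, plat n ρ ≤ 1 := fun ρ => mm_le _
  have g0 : ∀ ρ, 0 ≤ g ρ := fun ρ => div_nonneg (p0 ρ) (hden ρ).le
  have g1 : ∀ ρ, g ρ ≤ 1 := fun ρ => by
    rw [hg]
    simp only
    rw [div_le_one (hden ρ)]
    have := p1 ρ
    have := Real.exp_pos (ρ / 2)
    linarith
  have g0' : ∀ ρ, 0 ≤ g' ρ := fun ρ => mul_nonneg (Real.exp_pos _).le (g0 ρ)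
  have hsum : ∀ ρ, g ρ + g' ρ = plat n ρ := fun ρ => by
    rw [hg', hg]
    simp only
    have := (hden ρ).ne'
    field_simp
  have g1' : ∀ ρ, g' ρ ≤ 1 := fun ρ => by
    have := hsum ρ
    have := p1 ρ
    have := g0 ρ
    linarith
  set G : ℝ →ᵇ ℂ := BoundedContinuousFunction.ofNormedAddCommGroup
    (fun ρ : ℝ => ((g ρ : ℝ) : ℂ)) (Complex.continuous_ofReal.comp hgc) 1 (fun ρ => by
      rw [Complex.norm_real, Real.norm_of_nonneg (g0 ρ)]
      exact g1 ρ) with hG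
  set G' : ℝ →ᵇ ℂ := BoundedContinuousFunction.ofNormedAddCommGroup
    (fun ρ : ℝ => ((g' ρ : ℝ) : ℂ)) (Complex.continuous_ofReal.comp hgc') 1 (fun ρ => by
      rw [Complex.norm_real, Real.norm_of_nonneg (g0' ρ)]
      exact g1' ρ) with hG'
  have hGa : ∀ ρ, G ρ = ((g ρ : ℝ) : ℂ) := fun ρ => rfl
  have hGa' : ∀ ρ, G' ρ = ((g' ρ : ℝ) : ℂ) := fun ρ => rfl
  have hGG : ∀ ρ, G' ρ = ((Real.exp (ρ / 2) : ℝ) : ℂ) * G ρ := fun ρ => by
    rw [hGa, hGa', ← Complex.ofReal_mul]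
  have hr : star G = G := by
    ext ρ
    rw [BoundedContinuousFunction.star_apply, hGa, Complex.star_def, Complex.conj_ofReal]
  have hr' : star G' = G' := by
    ext ρ
    rw [BoundedContinuousFunction.star_apply, hGa', Complex.star_def, Complex.conj_ofReal]
  have hGs : HasCompactSupport (G : ℝ → ℂ) := by
    refine (Pl_supp n).mono ?_
    intro ρ hρ
    rw [Function.mem_support] at hρ ⊢
    intro h0
    apply hρ
    rw [hGa]
    rw [Pl_apply, Complex.ofReal_eq_zero] at h0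
    rw [hg]
    simp only
    rw [h0, zero_div, Complex.ofReal_zero]
  have hPl : Pl n = G + G' := by
    ext ρ
    rw [BoundedContinuousFunction.coe_add, Pi.add_apply, hGa, hGa', ← Complex.ofReal_add, hsum,
      Pl_apply]
  have k1 := key G G' hGs hGG hr hr'
  have k2 := h.psi_half G G' hGG e he
  rw [hs] at k2
  rw [hPl, map_add, ContinuousLinearMap.add_apply, map_sub, map_sub, k1, ← k2]
  abel

end Pool.Agent.Helper88.CS

end

section

open scoped InnerProductSpace Topology BoundedContinuousFunction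

open ContinuousLinearMap Filter MeasureTheory

namespace Pool.Agent.Helper88.CS

open Pool.Agent.Helper23

open Pool.Agent.Helper78.BC (Std rm Fixed)

variable {H : Type*} [NormedAddCommGroup H] [InnerProductSpace ℂ H] [CompleteSpace H]

variable {A : VonNeumannAlgebra H} {ξ : H} {J : H →L[ℝ] H}
  {Ψ : (ℝ →ᵇ ℂ) →⋆ₐ[ℂ] (H →L[ℂ] H)} {R : H →L[ℂ] H} {D : H →L[ℝ] H}

namespace SpecBAux

open Pool.Agent.Helper70.U8 (sm U V)

/-- translation of the smoothing -/
theorem orbit_sm (h : Modular A ξ R D Ψ) {k : ℝ → ℂ} (hk : Integrable k) (r : ℝ)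
    (hk' : Integrable fun t => k (t - r)) (z : H →L[ℂ] H) :
    U Ψ r * sm h hk z * V Ψ r = sm h hk' z := by
  ext w
  rw [mul_apply_eq_comp, mul_apply_eq_comp, Pool.Agent.Helper70.U8.sm_apply,
    Pool.Agent.Helper70.U8.sm_apply,
    ← ContinuousLinearMap.integral_comp_comm (U Ψ r)
      (Pool.Agent.Helper70.U8.orbit_int h hk z (V Ψ r w)),
    ← integral_sub_right_eq_self (fun t : ℝ => U Ψ r (k t • U Ψ t (z (V Ψ t (V Ψ r w))))) r]
  congr 1
  funext t
  rw [map_smul]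
  congr 1
  have e1 : ∀ v : H, U Ψ r (U Ψ (t - r) v) = U Ψ t v := by
    intro v
    unfold U
    rw [← Pool.Agent.Helper43.TTF.psi_mul_apply, expB_mul]
    congr 3
    ring
  have e2 : ∀ v : H, V Ψ (t - r) (V Ψ r v) = V Ψ t v := by
    intro v
    unfold V
    rw [← Pool.Agent.Helper43.TTF.psi_mul_apply, expB_mul]
    congr 3
    ring
  rw [e1, e2]

end SpecBAux

end Pool.Agent.Helper88.CS

end

section

open scoped InnerProductSpace Topology ENNReal BoundedContinuousFunction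

open ContinuousLinearMap Filter MeasureTheory

namespace Pool.Agent.Helper23.ED

open Pool.Agent.Helper23 Pool.Agent.Helper23.RBF

open Pool.Agent.Helper78.BC.Transport (Sub r)

universe u

variable {H : Type*} [NormedAddCommGroup H] [InnerProductSpace ℂ H] [CompleteSpace H]

theorem exists_fcal (T : H →L[ℂ] H) (hT : star T = T) (h0 : ∀ v : H, 0 ≤ (⟪v, T v⟫_ℂ).re)
    (h1 : ∀ v : H, (⟪v, T v⟫_ℂ).re ≤ ‖v‖ ^ 2) (hi : ∀ v : H, T v = 0 → v = 0)
    (hi' : ∀ v : H, T v = v → v = 0) :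
    ∃ Ψ : (ℝ →ᵇ ℂ) →⋆ₐ[ℂ] (H →L[ℂ] H), FCal ((2 : ℂ) • T) Ψ := by
  have hre : ∀ v : H, (⟪v, ((2 : ℂ) • T) v⟫_ℂ).re = 2 * (⟪v, T v⟫_ℂ).re := by
    intro v
    rw [ContinuousLinearMap.smul_apply, inner_smul_right, Complex.mul_re]
    simp
  have hs : star ((2 : ℂ) • T) = (2 : ℂ) • T := by
    rw [star_smul, hT]
    congr 1
    simp
  obtain ⟨Ψ, hΨ1, -, -, hΨ4⟩ := exists_fc ((2 : ℂ) • T) hs
    (by intro v; rw [hre]; have := h0 v; linarith)
    (by intro v; rw [hre]; have := h1 v; linarith)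
    (by
      intro v hv
      apply hi
      have h3 : (2 : ℂ) • T v = 0 := hv
      exact (smul_eq_zero.mp h3).resolve_left (by norm_num))
    (by
      intro v hv
      apply hi'
      have h3 : (2 : ℂ) • T v = (2 : ℂ) • v := hv
      exact smul_right_injective H (two_ne_zero : (2 : ℂ) ≠ 0) h3)
  exact ⟨Ψ, hΨ1, hΨ4⟩

theorem FCal.ug {R : H →L[ℂ] H} {Ψ : (ℝ →ᵇ ℂ) →⋆ₐ[ℂ] (H →L[ℂ] H)} (h : FCal R Ψ) :
    UG (fun t => Ψ (expB t)) := by
  refine ⟨?_, ?_, ?_, ?_⟩
  · intro v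
    apply SeqContinuous.continuous
    intro s t hs
    refine h.psi_cont (fun n => expB (s n)) (expB t) 1
      (fun n => Pool.Agent.Helper43.TTF.expB_norm _) ?_ v
    intro L
    rw [Metric.tendstoUniformlyOn_iff]
    intro ε hε
    have h1 := Metric.tendsto_atTop.1 hs (ε / (|L| + 1)) (by positivity)
    obtain ⟨m, hm⟩ := h1
    filter_upwards [eventually_ge_atTop m] with n hn ρ hρ
    have h2 := hm n hn
    rw [Real.dist_eq] at h2
    rw [dist_eq_norm, Pool.Agent.Helper43.TTF.expB_apply, Pool.Agent.Helper43.TTF.expB_apply]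
    refine (Pool.Agent.Helper43.TTF.exp_sub _ _).trans_lt ?_
    rw [← sub_mul, abs_mul, abs_sub_comm]
    have h3 : |ρ| ≤ |L| := by
      rw [Set.mem_Icc] at hρ
      rw [abs_le]
      constructor <;> linarith [hρ.1, hρ.2, le_abs_self L]
    have h5 : 0 < |L| + 1 := by positivity
    rw [lt_div_iff₀ h5] at h2
    have h4 : 0 ≤ |s n - t| := abs_nonneg _
    nlinarith
  · change Ψ (expB 0) = 1
    have h3 : expB 0 = 1 := by
      ext ρ
      rw [Pool.Agent.Helper43.TTF.expB_apply]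
      simp
    rw [h3, map_one]
  · intro s t
    change Ψ (expB (s + t)) = Ψ (expB s) * Ψ (expB t)
    rw [← map_mul]
    congr 1
    ext ρ
    rw [BoundedContinuousFunction.mul_apply, Pool.Agent.Helper43.TTF.expB_apply,
      Pool.Agent.Helper43.TTF.expB_apply, Pool.Agent.Helper43.TTF.expB_apply, ← Complex.exp_add]
    congr 1
    push_cast
    ring
  · intro t
    change star (Ψ (expB t)) = Ψ (expB (-t))
    rw [← map_star, Pool.Agent.Helper43.TTF.expB_star]

end Pool.Agent.Helper23.ED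

end

section

open scoped InnerProductSpace Topology ENNReal BoundedContinuousFunction

open ContinuousLinearMap Filter MeasureTheory

namespace Pool.Agent.Helper23.ED

open Pool.Agent.Helper23 Pool.Agent.Helper23.RBF

open Pool.Agent.Helper78.BC.Transport (Sub r)

universe u

open Pool.Agent.Helper43.TTF (FT)

variable {K : Type*} [NormedAddCommGroup K] [InnerProductSpace ℂ K] [CompleteSpace K]

variable {A : VonNeumannAlgebra K} {κ : K} {R : K →L[ℂ] K} {D : K →L[ℝ] K}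
  {Ψ : (ℝ →ᵇ ℂ) →⋆ₐ[ℂ] (K →L[ℂ] K)}

theorem smear_xi (h : Modular A κ R D Ψ) {m : ℝ} (hm : 0 < m) (z : ℂ) (Y : K →L[ℂ] K) :
    smear (fun t => Ψ (expB t)) (gau m z) Y κ = Ψ (GZ m hm z) (Y κ) := by
  have hU : UG (fun t => Ψ (expB t)) := h.fcal.ug
  refine ext_inner_left ℂ fun v => ?_
  rw [smear_spec hU (gau_int hm z)]
  have h1 : ∀ t : ℝ, Ψ (expB (-t)) κ = κ := by
    intro t
    rw [h.psi_xi]
    have : expB (-t) 0 = 1 := by
      rw [Pool.Agent.Helper43.TTF.expB_apply]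
      simp
    rw [this, one_smul]
  simp only [h1]
  have hpi : (0 : ℝ) < 2 * Real.pi := by positivity
  set g : ℝ → ℂ := fun s => gau m z s * ⟪v, Ψ (expB s) (Y κ)⟫_ℂ with hg
  have hk : Integrable (fun t : ℝ => ((2 * Real.pi : ℝ) : ℂ) * gau m z (2 * Real.pi * t)) :=
    ((gau_int hm z).comp_mul_left' hpi.ne').const_mul _
  have h2 := h.integral_psi hk (K := GZ m hm z) ?_ v (Y κ)
  · rw [← h2]
    have h3 : (fun t : ℝ => ((2 * Real.pi : ℝ) : ℂ) * gau m z (2 * Real.pi * t) *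
        ⟪v, Ψ (expB (2 * Real.pi * t)) (Y κ)⟫_ℂ) =
        fun t : ℝ => ((2 * Real.pi : ℝ) : ℂ) * g (2 * Real.pi * t) := by
      funext t
      rw [hg]
      ring
    rw [h3, integral_const_mul, Measure.integral_comp_mul_left g (2 * Real.pi),
      abs_of_pos (inv_pos.2 hpi), Complex.real_smul, ← mul_assoc, ← Complex.ofReal_mul,
      mul_inv_cancel₀ hpi.ne', Complex.ofReal_one, one_mul]
  · intro ρ
    rw [← gau_fourier hm z ρ]
    set g' : ℝ → ℂ := fun s => gau m z s * expB s ρ with hg'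
    have h3 : (fun t : ℝ => ((2 * Real.pi : ℝ) : ℂ) * gau m z (2 * Real.pi * t) *
        expB (2 * Real.pi * t) ρ) =
        fun t : ℝ => ((2 * Real.pi : ℝ) : ℂ) * g' (2 * Real.pi * t) := by
      funext t
      rw [hg']
      ring
    rw [h3, integral_const_mul, Measure.integral_comp_mul_left g' (2 * Real.pi),
      abs_of_pos (inv_pos.2 hpi), Complex.real_smul, ← mul_assoc, ← Complex.ofReal_mul,
      mul_inv_cancel₀ hpi.ne', Complex.ofReal_one, one_mul]

end Pool.Agent.Helper23.ED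

end

section

open scoped InnerProductSpace Topology ENNReal BoundedContinuousFunction

open ContinuousLinearMap Filter MeasureTheory

namespace Pool.Agent.Helper23.ED

open Pool.Agent.Helper23 Pool.Agent.Helper23.RBF

open Pool.Agent.Helper78.BC.Transport (Sub r)

universe u

variable {H : Type u} [NormedAddCommGroup H] [InnerProductSpace ℂ H] [CompleteSpace H]

variable {K : Type u} [NormedAddCommGroup K] [InnerProductSpace ℂ K] [CompleteSpace K]

variable {L : Type u} [NormedAddCommGroup L] [InnerProductSpace ℂ L] [CompleteSpace L]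

variable {N : VonNeumannAlgebra H} {ψ : (H →L[ℂ] H) → ℝ≥0∞} {ξ : H} {i : K →L[ℂ] H} {κ : K}
  {Λ : (H →L[ℂ] H) → L} {ρ : (H →L[ℂ] H) → (L →L[ℂ] L)}

theorem exists_T' (Sb : Sub N ξ i κ) (hsep : ∀ a ∈ N, a ξ = 0 → a = 0)
    (hψ : IsNSFWeight N ψ) (hG : Gns N ψ Λ ρ) : ∃ (T : K →L[ℂ] K) (S : K →L[ℂ] L)
      (Ψ : (ℝ →ᵇ ℂ) →⋆ₐ[ℂ] (K →L[ℂ] K)), GT (Gp N ψ ξ i Λ) T S ∧ FCal ((2 : ℂ) • T) Ψ := by
  have _ := hsep
  obtain ⟨Γ, hΓ⟩ := Gp_sub Sb hψ hG
  obtain ⟨T, S, hT⟩ := exists_GT Γ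
  obtain ⟨Ψ, hΨ⟩ := exists_fcal T hT.T_star hT.T_nonneg hT.T_le
    (hT.T_inj fun η h => Gp_dense Sb hψ hG η fun p hp => h p (by
      have : p ∈ (Γ : Set (K × L)) := by rw [hΓ]; exact hp
      exact this))
    (hT.T_inj' fun v hv => Gp_zero' Sb hψ hG (by rw [← hΓ]; exact hv))
  exact ⟨T, S, Ψ, by rw [← hΓ]; exact hT, hΨ⟩

theorem scal_iff' (Sb : Sub N ξ i κ) (hsep : ∀ a ∈ N, a ξ = 0 → a = 0)
    (hψ : IsNSFWeight N ψ) (hG : Gns N ψ Λ ρ) {T : K →L[ℂ] K} {S : K →L[ℂ] L}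
    {Ψ : (ℝ →ᵇ ℂ) →⋆ₐ[ℂ] (K →L[ℂ] K)} (hT : GT (Gp N ψ ξ i Λ) T S)
    (hΨ : FCal ((2 : ℂ) • T) Ψ) {u : H →L[ℂ] H} (hu : u ∈ N)
    (h1 : star u * u = 1) (h2 : u * star u = 1) {l : ℝ} (hl : 0 < l) :
    (∀ x ∈ N, 0 ≤ x → ψ (star u * x * u) = ENNReal.ofReal l * ψ x) ↔
      ∀ t, r i u * Ψ (expB t) = ph t (Real.log l) • (Ψ (expB t) * r i u) := by
  obtain ⟨Γ, hΓ⟩ := Gp_sub Sb hψ hG
  have hT' : GT (Γ : Set (K × L)) T S := by rw [hΓ]; exact hT
  have mΓ : ∀ v w, ((v, w) : K × L) ∈ Γ ↔ ∃ a ∈ Dm N ψ, i v = a ξ ∧ w = Λ a := by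
    intro v w
    have : ((v, w) : K × L) ∈ (Γ : Set (K × L)) ↔ ((v, w) : K × L) ∈ Gp N ψ ξ i Λ := by rw [hΓ]
    exact this
  have hus : star u ∈ N := star_mem hu
  set U : K →L[ℂ] K := r i u with hU
  have hUs : star U = r i (star u) := Pool.Agent.Helper78.BC.Transport.Sub.r_star u
  have hU1 : star U * U = 1 := by rw [hUs, hU, Sb.r_mul hus, h1, Sb.r_one]
  have hU2 : U * star U = 1 := by rw [hUs, hU, Sb.r_mul hu, h2, Sb.r_one]
  have hUU1 : ∀ v, (star U) (U v) = v := fun v => by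
    have := congrArg (fun A : K →L[ℂ] K => A v) hU1
    simpa using this
  have hUU2 : ∀ v, U ((star U) v) = v := fun v => by
    have := congrArg (fun A : K →L[ℂ] K => A v) hU2
    simpa using this
  have hiU : ∀ v, i (U v) = u (i v) := fun v => Sb.i_r hu v
  have hiUs : ∀ v, i ((star U) v) = star u (i v) := fun v => by rw [hUs]; exact Sb.i_r hus v
  have hc0 : 0 < Real.sqrt l := Real.sqrt_pos.2 hl
  set c : ℝ := Real.sqrt l with hc
  have hcc : c ^ 2 = l := Real.sq_sqrt hl.le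
  have hcC : (c : ℂ) ≠ 0 := by exact_mod_cast hc0.ne'
  -- the two graphs
  set Γ₁ : Submodule ℂ (K × L) := Γ.comap
    (((star U : K →L[ℂ] K) : K →ₗ[ℂ] K).prodMap (LinearMap.id : L →ₗ[ℂ] L)) with hΓ₁
  set Γ₂ : Submodule ℂ (K × L) := Γ.comap
    ((LinearMap.id : K →ₗ[ℂ] K).prodMap ((c : ℂ)⁻¹ • (LinearMap.id : L →ₗ[ℂ] L))) with hΓ₂
  have m1 : ∀ v w, ((v, w) : K × L) ∈ Γ₁ ↔ (((star U) v, w) : K × L) ∈ Γ := fun v w => Iff.rfl
  have m2 : ∀ v w, ((v, w) : K × L) ∈ Γ₂ ↔ ((v, (c : ℂ)⁻¹ • w) : K × L) ∈ Γ :=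
    fun v w => Iff.rfl
  obtain ⟨T₁, S₁, hT₁⟩ := exists_GT Γ₁
  obtain ⟨T₂, S₂, hT₂⟩ := exists_GT Γ₂
  have e1 : T₁ = U * T * star U := GT.conj hT' hT₁ hU1 hU2 fun v w => by rw [m1, hUU1]
  have e2 : ∀ v, T₂ (T v + (l : ℂ) • (v - T v)) = T v := by
    intro v
    have := GT.scale hT' hT₂ hc0 (fun v w => by
      rw [m2, smul_smul, inv_mul_cancel₀ hcC, one_smul]) v
    rwa [hcc] at this
  -- closures of the graphs
  have cl1 : ∀ {v w}, ((v, w) : K × L) ∈ closure (Γ₁ : Set (K × L)) →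
      (((star U) v, w) : K × L) ∈ closure (Gp N ψ ξ i Λ) := by
    intro v w h
    rw [← hΓ]
    have := NgE_closure (A := (Γ₁ : Set (K × L))) (B := (Γ : Set (K × L)))
      (star U) (ContinuousLinearMap.id ℂ L)
      (fun p hp => subset_closure ((m1 p.1 p.2).1 hp)) h
    simpa using this
  have cl2 : ∀ {v w}, ((v, w) : K × L) ∈ closure (Γ₂ : Set (K × L)) →
      ((v, (c : ℂ)⁻¹ • w) : K × L) ∈ closure (Gp N ψ ξ i Λ) := by
    intro v w h
    rw [← hΓ]
    have := NgE_closure (A := (Γ₂ : Set (K × L))) (B := (Γ : Set (K × L)))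
      (ContinuousLinearMap.id ℂ K) ((c : ℂ)⁻¹ • ContinuousLinearMap.id ℂ L)
      (fun p hp => subset_closure ((m2 p.1 p.2).1 hp)) h
    simpa using this
  have z1 : ∀ w : L, ((0, w) : K × L) ∈ closure (Γ₁ : Set (K × L)) → w = 0 := by
    intro w hw
    have := cl1 hw
    rw [map_zero] at this
    exact Gp_zero Sb hsep hψ hG this
  have z2 : ∀ w : L, ((0, w) : K × L) ∈ closure (Γ₂ : Set (K × L)) → w = 0 := by
    intro w hw
    have := Gp_zero Sb hsep hψ hG (cl2 hw)
    exact (smul_eq_zero.1 this).resolve_left (inv_ne_zero hcC)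
  -- norms
  have hn : ∀ a ∈ Dm N ψ, ENNReal.ofReal (‖Λ a‖ ^ 2) = ψ (a * star a) := by
    intro a ha
    rw [hG.norm a ha, ENNReal.ofReal_toReal ha.2]
  -- the weight
  have hmain : (∀ x ∈ N, 0 ≤ x → ψ (star u * x * u) = ENNReal.ofReal l * ψ x) ↔ T₁ = T₂ := by
    have hl0 : ENNReal.ofReal l ≠ 0 := by
      rw [Ne, ENNReal.ofReal_eq_zero, not_le]; exact hl
    constructor
    · intro hx
      have ha1 : ∀ a ∈ N, ψ (a * star a) = ENNReal.ofReal l * ψ ((u * a) * star (u * a)) := by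
        intro a ha
        have h3 := hx ((u * a) * star (u * a)) (mul_mem (mul_mem hu ha) (star_mem (mul_mem hu ha)))
          (mul_star_self_nonneg _)
        rw [← h3]
        congr 1
        rw [star_mul]
        calc a * star a = (star u * u) * a * star a * (star u * u) := by rw [h1]; simp
          _ = star u * (u * a * (star a * star u)) * u := by simp only [mul_assoc]
      refine T_unique hT₁ hT₂ ?_ ?_ ?_
      · rintro ⟨v, w⟩ hp
        obtain ⟨a, ha, hia, rfl⟩ := (mΓ _ _).1 ((m1 v w).1 hp)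
        have hD : u * a ∈ Dm N ψ := by
          refine ⟨mul_mem hu ha.1, fun h3 => ha.2 ?_⟩
          rw [ha1 a ha.1, h3, ENNReal.mul_top hl0]
        refine ⟨(v, (c : ℂ) • Λ (u * a)), ?_, rfl⟩
        rw [m2, smul_smul, inv_mul_cancel₀ hcC, one_smul, mΓ]
        refine ⟨u * a, hD, ?_, rfl⟩
        rw [← hUU2 v, hiU, hia]
        rfl
      · rintro ⟨v, w⟩ hp
        obtain ⟨b, hb, hib, hw⟩ := (mΓ _ _).1 ((m2 v w).1 hp)
        have hD : star u * b ∈ Dm N ψ := by
          refine ⟨mul_mem hus hb.1, ?_⟩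
          have h3 := ha1 (star u * b) (mul_mem hus hb.1)
          rw [← mul_assoc u, h2, one_mul] at h3
          rw [h3]
          exact ENNReal.mul_ne_top ENNReal.ofReal_ne_top hb.2
        refine ⟨(v, Λ (star u * b)), ?_, rfl⟩
        rw [m1, mΓ]
        refine ⟨star u * b, hD, ?_, rfl⟩
        rw [hiUs, hib]
        rfl
      · rintro ⟨v, w⟩ hp ⟨v', w'⟩ hq hvv
        obtain rfl : v = v' := hvv
        obtain ⟨a, ha, hia, rfl⟩ := (mΓ _ _).1 ((m1 v w).1 hp)
        obtain ⟨b, hb, hib, hw⟩ := (mΓ _ _).1 ((m2 v w').1 hq)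
        have hab : b = u * a := by
          refine sub_eq_zero.1 (hsep _ (sub_mem hb.1 (mul_mem hu ha.1)) ?_)
          rw [sub_apply, sub_eq_zero, ← hib, ← hUU2 v, hiU, hia]
          rfl
        have hw' : w' = (c : ℂ) • Λ b := by
          rw [← hw, smul_smul, mul_inv_cancel₀ hcC, one_smul]
        have h3 := ha1 a ha.1
        rw [← hab, ← hn a ha, ← hn b hb, ← ENNReal.ofReal_mul hl.le,
          ENNReal.ofReal_eq_ofReal_iff (by positivity) (by positivity)] at h3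
        change ‖Λ a‖ = ‖w'‖
        have h4 : ‖w'‖ ^ 2 = l * ‖Λ b‖ ^ 2 := by
          rw [hw', norm_smul, mul_pow, Complex.norm_real, Real.norm_eq_abs, sq_abs, hcc]
        refine (pow_left_inj₀ (norm_nonneg _) (norm_nonneg _) two_ne_zero).1 ?_
        rw [h3, h4]
    · intro hTT x hx hx0
      have hT₂' : GT (Γ₂ : Set (K × L)) T₁ S₂ := by rw [hTT]; exact hT₂
      have A1 : ∀ a ∈ Dm N ψ, u * a ∈ Dm N ψ := by
        intro a ha
        have hia : i (r i a κ) = a ξ := by rw [Sb.i_r ha.1, Sb.vec]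
        have hp : ((U (r i a κ), Λ a) : K × L) ∈ Γ₁ := by
          rw [m1, hUU1, mΓ]
          exact ⟨a, ha, hia, rfl⟩
        obtain ⟨w, hw, _⟩ := exists_of_T_eq hT₁ hT₂' z1 (subset_closure hp)
        exact (Gp_snd Sb hsep hψ hG (cl2 hw) (mul_mem hu ha.1) (by
          change i (U (r i a κ)) = _
          rw [hiU, hia]
          rfl)).1
      have A2 : ∀ b ∈ Dm N ψ, star u * b ∈ Dm N ψ ∧
          ψ ((star u * b) * star (star u * b)) = ENNReal.ofReal l * ψ (b * star b) := by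
        intro b hb
        have hib : i (r i b κ) = b ξ := by rw [Sb.i_r hb.1, Sb.vec]
        have hp : ((r i b κ, (c : ℂ) • Λ b) : K × L) ∈ Γ₂ := by
          rw [m2, smul_smul, inv_mul_cancel₀ hcC, one_smul, mΓ]
          exact ⟨b, hb, hib, rfl⟩
        obtain ⟨w, hw, hwn⟩ := exists_of_T_eq hT₂' hT₁ z2 (subset_closure hp)
        obtain ⟨h3, h4⟩ := Gp_snd Sb hsep hψ hG (cl1 hw) (mul_mem hus hb.1) (by
          change i ((star U) (r i b κ)) = _
          rw [hiUs, hib]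
          rfl)
        refine ⟨h3, ?_⟩
        rw [← hn _ h3, ← hn _ hb, ← ENNReal.ofReal_mul hl.le]
        congr 1
        have h4' : w = Λ (star u * b) := h4
        have hwn' : ‖w‖ = ‖(c : ℂ) • Λ b‖ := hwn
        rw [← h4', hwn', norm_smul, mul_pow, Complex.norm_real, Real.norm_eq_abs, sq_abs, hcc]
      obtain ⟨Y, hY, hYY⟩ := exists_sqrt_mem N hx hx0
      have hsN : star Y ∈ N := star_mem hY
      have hss : star Y * star (star Y) = x := by rw [star_star]; exact hYY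
      have huu : (star u * star Y) * star (star u * star Y) = star u * x * u := by
        rw [← hss]
        simp only [star_mul, star_star, mul_assoc]
      by_cases hfin : ψ x = ⊤
      · rw [hfin, ENNReal.mul_top hl0]
        by_contra hne
        have h3 : star u * star Y ∈ Dm N ψ := ⟨mul_mem hus hsN, by rw [huu]; exact hne⟩
        have h4 := (A1 _ h3).2
        rw [← mul_assoc u, h2, one_mul, hss] at h4
        exact h4 hfin
      · have h3 : star Y ∈ Dm N ψ := ⟨hsN, by rw [hss]; exact hfin⟩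
        have h4 := (A2 _ h3).2
        rw [huu, hss] at h4
        exact h4
  rw [hmain]
  -- the functional calculus
  obtain ⟨Ψ', hΨ', hΨG⟩ := hΨ.conj hU1 hU2
  have hR' : U * ((2 : ℂ) • T) * star U = (2 : ℂ) • T₁ := by
    rw [e1, mul_smul_comm, smul_mul_assoc]
  rw [hR'] at hΨ'
  have key := FCal.scale_iff hΨ hΨ' hl
  have hk1 : T₁ = T₂ ↔ ∀ v, T₁ (T v + (l : ℂ) • (v - T v)) = T v := by
    constructor
    · intro h v
      rw [h, e2]
    · intro h
      exact NgE_eq hT'.T_star hT₁.T_star hT₂.T_star hT'.T_nonneg hT'.T_le hl fun v => by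
        rw [h, e2]
  have hk2 : (∀ v, T₁ (T v + (l : ℂ) • (v - T v)) = T v) ↔
      ∀ v, ((2 : ℂ) • T₁) (((2 : ℂ) • T) v + (l : ℂ) • ((2 : ℂ) • v - ((2 : ℂ) • T) v)) =
        (2 : ℂ) • ((2 : ℂ) • T) v := by
    refine forall_congr' fun v => ?_
    have h3 : ((2 : ℂ) • T) v + (l : ℂ) • ((2 : ℂ) • v - ((2 : ℂ) • T) v) =
        (2 : ℂ) • (T v + (l : ℂ) • (v - T v)) := by
      rw [smul_apply, ← smul_sub, smul_add, smul_comm (l : ℂ) (2 : ℂ)]
    rw [h3, smul_apply, map_smul, smul_apply]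
    constructor
    · intro h; rw [h]
    · intro h
      have h4 : Function.Injective fun x : K => (2 : ℂ) • x := smul_right_injective K two_ne_zero
      exact h4 (h4 h)
  rw [hk1, hk2, key]
  refine forall_congr' fun t => ?_
  rw [hΨG]
  constructor
  · intro h
    have h3 := congrArg (fun A => A * U) h
    simp only [mul_assoc, hU1, mul_one, smul_mul_assoc] at h3
    exact h3
  · intro h
    rw [h, smul_mul_assoc, mul_assoc, hU2, mul_one]

end Pool.Agent.Helper23.ED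

end

section

open scoped InnerProductSpace Topology ENNReal BoundedContinuousFunction FourierTransform SchwartzMap

open ContinuousLinearMap Filter MeasureTheory

namespace Pool.Agent.Helper23.ED

open Pool.Agent.Helper23 Pool.Agent.Helper23.RBF

open Pool.Agent.Helper78.BC.Transport (Sub r)

universe u

variable {H : Type*} [NormedAddCommGroup H] [InnerProductSpace ℂ H] [CompleteSpace H]

variable {M N : VonNeumannAlgebra H} {ξ : H} {E : (H →L[ℂ] H) → (H →L[ℂ] H)}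

namespace GgB

lemma fourierInv_tr (t : ℝ) (F : L2R H) : 𝓕⁻ (tr H t F) = mulOp H (chr (-t)) (𝓕⁻ F) := by
  refine L2R_ext_schwartz (φ := fun F : L2R H => (𝓕⁻ (tr H t F) : L2R H))
    (ψ := fun F : L2R H => mulOp H (chr (-t)) (𝓕⁻ F)) ?_ ?_ (fun f => ?_) F
  · exact (Lp.fourierTransformₗᵢ ℝ H).symm.continuous.comp (tr H t).continuous
  · exact (mulOp H (chr (-t))).continuous.comp (Lp.fourierTransformₗᵢ ℝ H).symm.continuous
  · rw [tr_toLp, SchwartzMap.toLp_fourierInv_eq, SchwartzMap.toLp_fourierInv_eq]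
    ext1
    filter_upwards [mulOp_coe (chr_bm (-t)) ((𝓕⁻ f).toLp 2), (𝓕⁻ f).coeFn_toLp 2,
      (𝓕⁻ (trS t f)).coeFn_toLp 2] with s h1 h2 h3
    rw [h1, h2, h3, fourierInv_trS]

lemma symm_tr (t : ℝ) (F : L2R H) :
    (Fo H).symm (tr H t F) = mulOp H (chr (-t)) ((Fo H).symm F) := fourierInv_tr t F

lemma Fo_ems (a : ℝ) (F : L2R H) :
    Fo H (mulOp H (ems a) F) = tr H (a / (2 * Real.pi)) (Fo H F) := by
  refine (Fo H).symm.injective ?_
  rw [symm_tr, LinearIsometryEquiv.symm_apply_apply, LinearIsometryEquiv.symm_apply_apply, ems_eq]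

end GgB

end Pool.Agent.Helper23.ED

end

section

open scoped InnerProductSpace Topology ENNReal BoundedContinuousFunction

open ContinuousLinearMap Filter MeasureTheory

namespace Pool.Agent.Helper23.ED

open Pool.Agent.Helper23 Pool.Agent.Helper23.RBF

open Pool.Agent.Helper78.BC.Transport (Sub r)

universe u

variable {H : Type*} [NormedAddCommGroup H] [InnerProductSpace ℂ H] [CompleteSpace H]

variable {A : VonNeumannAlgebra H} {ξ : H} {R : H →L[ℂ] H} {D : H →L[ℝ] H}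
  {Ψ : (ℝ →ᵇ ℂ) →⋆ₐ[ℂ] (H →L[ℂ] H)}

namespace GgE

open Pool.Agent.Helper43.TTF

lemma main (hΨ : Modular A ξ R D Ψ) {x y b : H →L[ℂ] H} (hy : y ∈ A)
    (hb : b ∈ A) (h : R (x ξ) = (2 : ℂ) • y ξ - R (y ξ)) (n : ℕ) :
    ⟪b ξ, Ψ (FT * FT * kB n) (x ξ)⟫_ℂ = ⟪(star y) ξ, Ψ (FT * FT * kB n) ((star b) ξ)⟫_ℂ := by
  have hd := hΨ.data
  have hK : ∀ v, D (Ψ (kB n) v) = Ψ (kB n) (D v) := hΨ.psi_D _ _ (kB_conj n)
  -- `Ψ (FT * FT) = R (2 - R)`
  have hTT : ∀ v, Ψ (FT * FT) v = R ((2 : ℂ) • v - R v) := by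
    intro v
    rw [FT_sq, psi_mul_apply, map_sub, hΨ.psi_FR, psi_two, sub_apply, smul_apply,
      one_apply_eq_self]
  have hTT' : ∀ v, D (D v) = Ψ (FT * FT) v := fun v => by rw [hTT, hd.D_sq]
  have e1 : ⟪b ξ, Ψ (FT * FT * kB n) (x ξ)⟫_ℂ = ⟪D (Ψ (kB n) (x ξ)), D (b ξ)⟫_ℂ := by
    rw [hd.D_symm, hTT', ← psi_mul_apply]
  have hself : ∀ v w : H, ⟪R v, w⟫_ℂ = ⟪v, R w⟫_ℂ := by
    intro v w
    rw [← inner_star_right, hd.R_star]
  have e2 : ⟪(star y) ξ, Ψ (FT * FT * kB n) ((star b) ξ)⟫_ℂ =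
      ⟪Ψ (kB n) (R ((star y) ξ)), (2 : ℂ) • (star b) ξ - R ((star b) ξ)⟫_ℂ := by
    rw [psi_star, kB_star, hself, ← hΨ.psi_FR]
    have h5 : (2 : ℂ) • (star b) ξ - Ψ FR ((star b) ξ) = Ψ (2 - FR) ((star b) ξ) := by
      rw [map_sub, psi_two, sub_apply, smul_apply, one_apply_eq_self]
    rw [h5, ← psi_mul_apply, ← psi_mul_apply, FT_sq]
    congr 3
    ring
  rw [e1, e2, hK, D_xi hd hy h, hd.D_mem b hb]

end GgE

/-- if `x ξ = Δ y ξ` then `φ(b* x) = φ(y b*)` -/
theorem sesq (hΨ : Modular A ξ R D Ψ) {x y b : H →L[ℂ] H} (hx : x ∈ A) (hy : y ∈ A)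
    (hb : b ∈ A) (h : R (x ξ) = (2 : ℂ) • y ξ - R (y ξ)) :
    ⟪b ξ, x ξ⟫_ℂ = ⟪(star y) ξ, (star b) ξ⟫_ℂ := by
  have h1 : ∀ v : H, Tendsto (fun n => Ψ (Pool.Agent.Helper43.TTF.FT *
      Pool.Agent.Helper43.TTF.FT * GgE.kB n) v) atTop (𝓝 v) := by
    intro v
    have h2 := hΨ.psi_cont _ 1 1 GgE.norm_le' GgE.tendsto' v
    rwa [map_one, one_apply_eq_self] at h2
  have h2 := (tendsto_const_nhds (x := b ξ)).inner (𝕜 := ℂ) (h1 (x ξ))
  have h3 := (tendsto_const_nhds (x := (star y) ξ)).inner (𝕜 := ℂ) (h1 ((star b) ξ))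
  refine tendsto_nhds_unique h2 (h3.congr fun n => ?_)
  exact (GgE.main hΨ hy hb h n).symm

end Pool.Agent.Helper23.ED

end

section

open scoped InnerProductSpace Topology ENNReal BoundedContinuousFunction

open ContinuousLinearMap Filter MeasureTheory

namespace Pool.Agent.Helper23.ED

open Pool.Agent.Helper23 Pool.Agent.Helper23.RBF

open Pool.Agent.Helper78.BC.Transport (Sub r)

universe u

open TopologicalSpace

variable {H : Type*} [NormedAddCommGroup H] [InnerProductSpace ℂ H] [CompleteSpace H]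

variable {N : VonNeumannAlgebra H} {ξ : H} {V c : ℝ → H →L[ℂ] H} {ψ : (H →L[ℂ] H) → ℝ≥0∞}

open WuB

namespace WuB

/-- the Fourier transform turns modulations into translations -/
lemma Fo_ems (a : ℝ) (F : L2R H) :
    Fo H (mulOp H (ems a) F) = tr H (a / (2 * Real.pi)) (Fo H F) := by
  have key : ∀ G : L2R H, mulOp H (ems a) ((Fo H).symm G) =
      (Fo H).symm (tr H (a / (2 * Real.pi)) G) := by
    intro G
    refine L2R_ext_schwartz (φ := fun G : L2R H => mulOp H (ems a) ((Fo H).symm G))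
      (ψ := fun G : L2R H => (Fo H).symm (tr H (a / (2 * Real.pi)) G)) ?_ ?_ (fun f => ?_) G
    · exact (mulOp H (ems a)).continuous.comp (Fo H).symm.continuous
    · exact (Fo H).symm.continuous.comp (tr H _).continuous
    · have e1 : ∀ f : SchwartzMap ℝ H, (Fo H).symm (f.toLp 2) =
          (FourierTransformInv.fourierInv f : SchwartzMap ℝ H).toLp 2 :=
        fun f => SchwartzMap.toLp_fourierInv_eq f
      rw [tr_toLp, e1, e1]
      ext1
      filter_upwards [mulOp_coe (ems_bm a)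
          ((FourierTransformInv.fourierInv f : SchwartzMap ℝ H).toLp 2),
        (FourierTransformInv.fourierInv f : SchwartzMap ℝ H).coeFn_toLp 2,
        (FourierTransformInv.fourierInv (trS (a / (2 * Real.pi)) f) :
          SchwartzMap ℝ H).coeFn_toLp 2] with s h1 h2 h3
      rw [h1, h2, h3, SchwartzMap.fourierInv_coe, SchwartzMap.fourierInv_coe,
        Real.fourierInv_eq_fourier_neg, Real.fourierInv_eq_fourier_neg,
        ← SchwartzMap.fourier_coe, ← SchwartzMap.fourier_coe, fourier_trS]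
      congr 1
      unfold ems ph chr
      congr 1
      push_cast
      have : (Real.pi : ℂ) ≠ 0 := by exact_mod_cast Real.pi_ne_zero
      field_simp
  have h := key (Fo H F)
  rw [LinearIsometryEquiv.symm_apply_apply] at h
  rw [h, LinearIsometryEquiv.apply_symm_apply]

end WuB

end Pool.Agent.Helper23.ED

end
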