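import Pool.Agent.Helper23.FA.Ns
import Pool.Agent.Helper23.FA.L00_09
import Pool.Agent.Helper23.FA.L01_00
import Pool.Agent.Helper23.FA.L01_01
import Pool.Agent.Helper23.FA.L01_03
import Pool.Agent.Helper23.FA.L01_05
import Pool.Agent.Helper23.FA.L01_09
import Pool.Agent.Helper23.FA.L01_15
import Pool.Agent.Helper23.FA.L01_17
import Pool.Agent.Helper23.FA.L01_18
import Pool.Agent.Helper23.FA.L01_19

/-!
Parts of Helper23.Amp1, Helper23.Main, Helper5.PU.U11, Helper88.CS.Cone, Helper88.CS.SuppA, Helper88.CS.SuppB, Helper88.CS.SpecB, Helper23.ED.GgB, Helper23.ED.RkB, Helper23.ED.GgC, Helper23.ED.WuB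
-/

section

open scoped InnerProductSpace Topology ENNReal

open ContinuousLinearMap Filter MeasureTheory

set_option linter.unusedSectionVars false

set_option linter.unusedVariables false

namespace Pool.Agent.Helper23

variable {G : Type*} [NormedAddCommGroup G] [InnerProductSpace ℂ G] [CompleteSpace G]

variable {G' : Type*} [NormedAddCommGroup G'] [InnerProductSpace ℂ G'] [CompleteSpace G']

variable {G'' : Type*} [NormedAddCommGroup G''] [InnerProductSpace ℂ G''] [CompleteSpace G'']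

omit [CompleteSpace G] in
lemma tr_mulOp {m : ℝ → ℂ} (h : BM m) (t : ℝ) (F : L2R G) :
    tr G t (mulOp G m F) = mulOp G (fun s => m (s - t)) (tr G t F) := by
  ext1
  filter_upwards [tr_coe t (mulOp G m F), ae_tr t (mulOp_coe h F),
    mulOp_coe (h.shift t) (tr G t F), tr_coe t F] with s h1 h2 h3 h4
  rw [h1, h2, h3, h4]

end Pool.Agent.Helper23

end

section

open scoped InnerProductSpace Topology ENNReal

open ContinuousLinearMap Filter MeasureTheory

set_option linter.unusedSectionVars false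

set_option linter.unusedVariables false

namespace Pool.Agent.Helper23

variable {H : Type*} [NormedAddCommGroup H] [InnerProductSpace ℂ H] [CompleteSpace H]

variable {M N : VonNeumannAlgebra H} {ξ : H} {E : (H →L[ℂ] H) → (H →L[ℂ] H)}

lemma conj_mem_amp {W : H ≃ₗᵢ[ℂ] L2R H}
    (hW : ∀ a ∈ N.commutant, ∀ x, W (a x) = lift a (W x)) {A : VonNeumannAlgebra H}
    (hA : ∀ a ∈ A.commutant, a ∈ N.commutant) (x : H →L[ℂ] H) :
    x ∈ A ↔ W.conjStarAlgEquiv x ∈ amp A := by
  rw [mem_iff_commutes, mem_amp]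
  have hsymm : ∀ a ∈ N.commutant, ∀ F, W.symm (lift a F) = a (W.symm F) := by
    intro a ha F
    apply W.injective
    rw [W.apply_symm_apply, hW a ha, W.apply_symm_apply]
  constructor
  · intro h a ha
    ext F : 1
    change lift a (W (x (W.symm F))) = W (x (W.symm (lift a F)))
    rw [← hW a (hA a ha), hsymm a (hA a ha)]
    exact congrArg (fun T : H →L[ℂ] H => W (T (W.symm F))) (h a ha)
  · intro h a ha
    ext η : 1
    have h1 := congrArg (fun T : L2R H →L[ℂ] L2R H => T (W η)) (h a ha)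
    change lift a (W (x (W.symm (W η)))) = W (x (W.symm (lift a (W η)))) at h1
    rw [← hW a (hA a ha), hsymm a (hA a ha), W.symm_apply_apply] at h1
    exact W.injective h1

end Pool.Agent.Helper23

end

section

open scoped InnerProductSpace Topology BoundedContinuousFunction

open ContinuousLinearMap Filter

namespace Pool.Agent.Helper23

universe u

variable {H : Type u} [NormedAddCommGroup H] [InnerProductSpace ℂ H] [CompleteSpace H]

variable {K : Type u} [NormedAddCommGroup K] [InnerProductSpace ℂ K] [CompleteSpace K]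

variable {M N : VonNeumannAlgebra H} {ξ : H} {E : (H →L[ℂ] H) → (H →L[ℂ] H)}

namespace Oc

variable {MT NT : VonNeumannAlgebra K} {ET : (K →L[ℂ] K) → (K →L[ℂ] K)} {ζ : K}
  {rep : (ℕ → H →L[ℂ] H) → (K →L[ℂ] K)} (O : Oc M N E ξ MT NT ET ζ rep)

include O

theorem cc_norm (S : Setting M N E ξ) {T : K →L[ℂ] K} (hT : T ∈ MT) :
    ‖ccU M ξ rep ζ T‖ ≤ ‖T‖ := by
  obtain ⟨ι, hι, hι1, hc⟩ := O.u11_exists_cc S
  rw [(hc T hT).1]
  calc ‖(adjoint ι).comp (T.comp ι)‖ ≤ ‖adjoint ι‖ * (‖T‖ * ‖ι‖) :=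
        (opNorm_comp_le _ _).trans (mul_le_mul_of_nonneg_left (opNorm_comp_le _ _)
          (norm_nonneg _))
    _ ≤ 1 * (‖T‖ * 1) := by
        have : ‖adjoint ι‖ ≤ 1 := by rw [LinearIsometryEquiv.norm_map]; exact hι1
        gcongr
    _ = ‖T‖ := by ring

end Oc

end Pool.Agent.Helper23

end

section

open scoped InnerProductSpace Topology BoundedContinuousFunction

open ContinuousLinearMap Filter MeasureTheory

namespace Pool.Agent.Helper88.CS

open Pool.Agent.Helper23

open Pool.Agent.Helper78.BC (Std rm Fixed)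

variable {H : Type*} [NormedAddCommGroup H] [InnerProductSpace ℂ H] [CompleteSpace H]

variable {A : VonNeumannAlgebra H} {ξ : H} {J : H →L[ℝ] H}
  {Ψ : (ℝ →ᵇ ℂ) →⋆ₐ[ℂ] (H →L[ℂ] H)} {R : H →L[ℂ] H} {D : H →L[ℝ] H}

theorem kap_pos (h : St A ξ J Ψ R D) {u : H →L[ℂ] H} (hu : u ∈ A) :
    ∀ a ∈ A, 0 ≤ (⟪J (a (kap J ξ u)), (star a) (kap J ξ u)⟫_ℂ).re := by
  intro a ha
  have hu' : star u ∈ A := star_mem hu
  have ha' : star a ∈ A := star_mem ha
  have hc : a * star u ∈ A := mul_mem ha hu'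
  have hb : u * (star a * star u) ∈ A := mul_mem hu (mul_mem ha' hu')
  have h1 : J (a (kap J ξ u)) = (star u) (J ((a * star u) ξ)) := ConeAux.jc h hc hu'
  have h2 : ⟪J (a (kap J ξ u)), (star a) (kap J ξ u)⟫_ℂ
      = ⟪J ((u * (star a * star u)) ξ), (star (u * (star a * star u))) ξ⟫_ℂ := by
    rw [h1]
    have h3 : ⟪(star u) (J ((a * star u) ξ)), (star a) (kap J ξ u)⟫_ℂ
        = ⟪J ((a * star u) ξ), (u * (star a * star u)) (J ((star u) ξ))⟫_ℂ := by
      rw [star_eq_adjoint u, adjoint_inner_left]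
      rfl
    have h4 : ⟪J ((a * star u) ξ), (u * (star a * star u)) (J ((star u) ξ))⟫_ℂ
        = ⟪J ((u * (star a * star u)) (J ((star u) ξ))), (a * star u) ξ⟫_ℂ := by
      have := h.J_inner ((a * star u) ξ) (J ((u * (star a * star u)) (J ((star u) ξ))))
      rwa [h.J_J] at this
    rw [h3, h4, ConeAux.jc h hb hu']
    have h5 : star (u * (star a * star u)) = u * (a * star u) := by
      rw [star_mul, star_mul, star_star, star_star, mul_assoc]
    rw [h5, star_eq_adjoint u, adjoint_inner_left]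
    rfl
  rw [h2]
  exact h.J_pos _ hb

end Pool.Agent.Helper88.CS

end

section

open scoped InnerProductSpace Topology BoundedContinuousFunction

open ContinuousLinearMap Filter MeasureTheory

namespace Pool.Agent.Helper88.CS

open Pool.Agent.Helper23

open Pool.Agent.Helper78.BC (Std rm Fixed)

variable {H : Type*} [NormedAddCommGroup H] [InnerProductSpace ℂ H] [CompleteSpace H]

variable {A : VonNeumannAlgebra H} {ξ : H} {J : H →L[ℝ] H}
  {Ψ : (ℝ →ᵇ ℂ) →⋆ₐ[ℂ] (H →L[ℂ] H)} {R : H →L[ℂ] H} {D : H →L[ℝ] H}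

open SuppAAux Pool.Agent.Helper78.BC.FixAux in
/-- elements with support near `0` almost commute with `ξ` -/
theorem supp_comm (h : St A ξ J Ψ R D) {x : H →L[ℂ] H} (hx : x ∈ A) {η : ℝ} (hη : 0 < η)
    (hs : Supp Ψ (x ξ) (-η) η) : ‖x ξ - rm J x ξ‖ ≤ (Real.exp (η / 2) - 1) * ‖x ξ‖ := by
  have hr : rm J x ξ = J ((star x) ξ) := by
    unfold rm
    rw [h.J_xi]
  have h1 : ∀ n : ℕ, ‖Ψ (Pl n) (x ξ - rm J x ξ)‖ ≤ (Real.exp (η / 2) - 1) * ‖x ξ‖ := by
    intro n
    have h2 : Ψ (Pl n) (x ξ - rm J x ξ) = Ψ (Cl η hη * Pl n) (x ξ) := by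
      rw [hr, map_sub, h.psi_half (Pl n) (Pe n) (fun ρ => rfl) x hx,
        ← ContinuousLinearMap.sub_apply, ← map_sub, ← sub_eq_zero,
        ← ContinuousLinearMap.sub_apply, ← map_sub]
      refine hs _ fun ρ hρ => ?_
      have h3 : cl η ρ = ρ := by
        unfold cl
        rw [min_eq_right hρ.2, max_eq_right hρ.1]
      rw [BoundedContinuousFunction.sub_apply, BoundedContinuousFunction.sub_apply,
        BoundedContinuousFunction.mul_apply, Cl_apply, Pl_apply, Pe_apply, h3]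
      push_cast
      ring
    rw [h2]
    refine ((Ψ _).le_opNorm _).trans ?_
    gcongr
    refine (psi_norm_le Ψ _).trans ((norm_mul_le _ _).trans ?_)
    calc ‖Cl η hη‖ * ‖Pl n‖ ≤ (Real.exp (η / 2) - 1) * 1 :=
          mul_le_mul (norm_Cl_le hη) (norm_Pl_le n) (norm_nonneg _)
            (sub_nonneg.2 (Real.one_le_exp (by linarith)))
      _ = _ := mul_one _
  have h2 := h.psi_cont (fun n => Pl n) 1 1 norm_Pl_le Pl_tendsto (x ξ - rm J x ξ)
  rw [map_one, ContinuousLinearMap.one_apply] at h2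
  exact le_of_tendsto' h2.norm h1

end Pool.Agent.Helper88.CS

end

section

open scoped InnerProductSpace Topology BoundedContinuousFunction

open ContinuousLinearMap Filter MeasureTheory

namespace Pool.Agent.Helper88.CS

open Pool.Agent.Helper23

open Pool.Agent.Helper78.BC (Std rm Fixed)

variable {H : Type*} [NormedAddCommGroup H] [InnerProductSpace ℂ H] [CompleteSpace H]

variable {A : VonNeumannAlgebra H} {ξ : H} {J : H →L[ℝ] H}
  {Ψ : (ℝ →ᵇ ℂ) →⋆ₐ[ℂ] (H →L[ℂ] H)} {R : H →L[ℂ] H} {D : H →L[ℝ] H}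

open Pool.Agent.Helper70.U8 (sm U V) in
theorem supp_mul (h : St A ξ J Ψ R D) {k l : ℝ → ℂ} {K L : ℝ →ᵇ ℂ} (hk : Ker k K) (hl : Ker l L)
    {a b c d : ℝ} (hK : ∀ ρ, ρ ∉ Set.Icc a b → K ρ = 0) (hL : ∀ ρ, ρ ∉ Set.Icc c d → L ρ = 0)
    (x y : H →L[ℂ] H) :
    Supp Ψ ((sm h.mod hk.int x * sm h.mod hl.int y) ξ) (a + c) (b + d) := by
  rcases lt_or_ge b a with hab | hab
  · intro G _
    rw [mul_apply_eq_comp, SuppBAux.sm_zero h.mod hk.int (SuppBAux.ker_zero hk hab hK), map_zero]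
  rcases lt_or_ge d c with hcd | hcd
  · intro G _
    rw [mul_apply_eq_comp, SuppBAux.sm_zero h.mod hl.int (SuppBAux.ker_zero hl hcd hL), map_zero,
      map_zero]
  refine supp_of_bump fun δ hδ => ?_
  obtain ⟨η, H', hη, hη1, hη2, hη3⟩ := exists_bump (a + c) (b + d) δ (add_le_add hab hcd) hδ
  refine ⟨H', hη1, hη3, ?_⟩
  refine ext_inner_left ℂ fun v => ?_
  have hs : ∀ α β, K α ≠ 0 → L β ≠ 0 → H' (α + β) = 1 := by
    intro α β hα hβ
    have h1 : α ∈ Set.Icc a b := by
      by_contra hh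
      exact hα (hK α hh)
    have h2 : β ∈ Set.Icc c d := by
      by_contra hh
      exact hβ (hL β hh)
    exact hη2 _ ⟨add_le_add h1.1 h2.1, add_le_add h1.2 h2.2⟩
  set Φ : ℝ → ℝ → ℂ := fun t s => ⟪v, U Ψ t (x (V Ψ t (U Ψ s (y ξ))))⟫_ℂ with hΦ
  have hcont : Continuous fun p : ℝ × ℝ => Φ p.1 p.2 := by
    refine continuous_const.inner ?_
    refine SuppBAux.cont_apply' (T := fun p : ℝ × ℝ => U Ψ p.1)
      (fun p v => (Pool.Agent.Helper70.U8.U_norm p.1 v).le)
      (fun v => (Pool.Agent.Helper70.U8.U_cont h.mod v).comp continuous_fst) ?_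
    refine x.continuous.comp ?_
    refine SuppBAux.cont_apply' (T := fun p : ℝ × ℝ => V Ψ p.1)
      (fun p v => (Pool.Agent.Helper70.U8.V_norm p.1 v).le)
      (fun v => (Pool.Agent.Helper70.U8.V_cont h.mod v).comp continuous_fst) ?_
    exact (Pool.Agent.Helper70.U8.U_cont h.mod (y ξ)).comp continuous_snd
  have hbd : ∀ t s, ‖Φ t s‖ ≤ ‖v‖ * (‖x‖ * ‖y ξ‖) := by
    intro t s
    refine (norm_inner_le_norm _ _).trans ?_
    gcongr
    rw [Pool.Agent.Helper70.U8.U_norm]
    refine (x.le_opNorm _).trans ?_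
    rw [Pool.Agent.Helper70.U8.V_norm, Pool.Agent.Helper70.U8.U_norm]
  have h1 := triple hη hk hl hs hcont hbd
  have h2 : ⟪v, Ψ H' ((sm h.mod hk.int x * sm h.mod hl.int y) ξ)⟫_ℂ =
      ∫ r, η r * ∫ t, k t * ∫ s, l s * Φ (t + r) (s + r) := by
    rw [← h.mod.integral_psi hη.int hη.four]
    congr 1
    funext r
    congr 1
    exact SuppBAux.formula h.mod hk.int hl.int x y v r
  have h3 : ⟪v, (sm h.mod hk.int x * sm h.mod hl.int y) ξ⟫_ℂ =
      ∫ t, k t * ∫ s, l s * Φ t s := by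
    have h4 := SuppBAux.formula h.mod hk.int hl.int x y v 0
    simp only [add_zero] at h4
    rw [← h4]
    unfold U
    rw [mul_zero, expB_zero, map_one, one_apply_eq_self]
  rw [h2, h3]
  exact h1

end Pool.Agent.Helper88.CS

end

section

open scoped InnerProductSpace Topology BoundedContinuousFunction

open ContinuousLinearMap Filter MeasureTheory

namespace Pool.Agent.Helper88.CS

open Pool.Agent.Helper23

open Pool.Agent.Helper78.BC (Std rm Fixed)

variable {H : Type*} [NormedAddCommGroup H] [InnerProductSpace ℂ H] [CompleteSpace H]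

variable {A : VonNeumannAlgebra H} {ξ : H} {J : H →L[ℝ] H}
  {Ψ : (ℝ →ᵇ ℂ) →⋆ₐ[ℂ] (H →L[ℂ] H)} {R : H →L[ℂ] H} {D : H →L[ℝ] H}

namespace SpecBAux

open Pool.Agent.Helper70.U8 (sm U V)

/-- smoothing is a left module map over the commutant of the modular group -/
theorem mul_sm (h : Modular A ξ R D Ψ) {k : ℝ → ℂ} (hk : Integrable k) {e z : H →L[ℂ] H}
    (hc : ∀ G : ℝ →ᵇ ℂ, e * Ψ G = Ψ G * e) (hz : e * z = z) : e * sm h hk z = sm h hk z := by
  ext w
  rw [mul_apply_eq_comp, Pool.Agent.Helper70.U8.sm_apply,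
    ← ContinuousLinearMap.integral_comp_comm e (Pool.Agent.Helper70.U8.orbit_int h hk z w)]
  congr 1
  funext t
  rw [map_smul]
  congr 1
  have h1 := congrArg (fun T : H →L[ℂ] H => T (z (V Ψ t w))) (hc (expB (2 * Real.pi * t)))
  have h2 := congrArg (fun T : H →L[ℂ] H => T (V Ψ t w)) hz
  simp only [mul_apply_eq_comp] at h1 h2
  unfold U
  rw [h1, h2]

/-- smoothing is a right module map over the commutant of the modular group -/
theorem sm_mul (h : Modular A ξ R D Ψ) {k : ℝ → ℂ} (hk : Integrable k) {e z : H →L[ℂ] H}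
    (hc : ∀ G : ℝ →ᵇ ℂ, e * Ψ G = Ψ G * e) (hz : z * e = z) : sm h hk z * e = sm h hk z := by
  ext w
  rw [mul_apply_eq_comp, Pool.Agent.Helper70.U8.sm_apply, Pool.Agent.Helper70.U8.sm_apply]
  congr 1
  funext t
  congr 2
  have h1 := congrArg (fun T : H →L[ℂ] H => T w) (hc (expB (-(2 * Real.pi * t))))
  have h2 := congrArg (fun T : H →L[ℂ] H => T (V Ψ t w)) hz
  simp only [mul_apply_eq_comp] at h1 h2
  unfold V at h2 ⊢
  rw [← h1, h2]

end SpecBAux

end Pool.Agent.Helper88.CS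

end

section

open scoped InnerProductSpace Topology ENNReal BoundedContinuousFunction FourierTransform SchwartzMap

open ContinuousLinearMap Filter MeasureTheory

namespace Pool.Agent.Helper23.ED

open Pool.Agent.Helper23 Pool.Agent.Helper23.RBF

open Pool.Agent.Helper78.BC.Transport (Sub r)

universe u

variable {H : Type*} [NormedAddCommGroup H] [InnerProductSpace ℂ H] [CompleteSpace H]

variable {M N : VonNeumannAlgebra H} {ξ : H} {E : (H →L[ℂ] H) → (H →L[ℂ] H)}

open GgB in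
theorem tr_UV (V : ℝ → H →L[ℂ] H) (c a : ℝ) :
    tr H (-c) * UV V a = ph a c • (UV V a * tr H (-c)) := by
  ext F : 1
  change tr H (-c) (lift (V a) (mulOp H (ems a) F)) =
    ph a c • lift (V a) (mulOp H (ems a) (tr H (-c) F))
  rw [tr_lift, tr_mulOp (ems_bm a), ← map_smul, ← mulOp_constMul _ (ems_bm a)]
  congr 3
  funext s
  unfold ems ph
  rw [← Complex.exp_add]
  congr 1
  push_cast
  ring

end Pool.Agent.Helper23.ED

end

section

open scoped InnerProductSpace Topology ENNReal BoundedContinuousFunction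

open ContinuousLinearMap Filter MeasureTheory

namespace Pool.Agent.Helper23.ED

open Pool.Agent.Helper23 Pool.Agent.Helper23.RBF

open Pool.Agent.Helper78.BC.Transport (Sub r)

universe u

variable {H : Type*} [NormedAddCommGroup H] [InnerProductSpace ℂ H] [CompleteSpace H]

variable {M N : VonNeumannAlgebra H} {ξ : H} {E : (H →L[ℂ] H) → (H →L[ℂ] H)}

lemma RkB_mul {Ψ : (ℝ →ᵇ ℂ) →⋆ₐ[ℂ] (H →L[ℂ] H)} {X Y : L2R H →L[ℂ] L2R H}
    (hX : X ∈ Rk1 M N Ψ) (hY : Y ∈ Rk1 M N Ψ) : X * Y ∈ Rk1 M N Ψ :=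
  ⟨mul_mem hX.1 hY.1, fun m hm h1 => by
    rw [← mul_assoc, hX.2.1 m hm h1, mul_assoc, hY.2.1 m hm h1, mul_assoc],
    fun u hu h1 h2 => by
    rw [← mul_assoc, hX.2.2 u hu h1 h2, mul_assoc, hY.2.2 u hu h1 h2, mul_assoc]⟩

lemma RkB_sub {Ψ : (ℝ →ᵇ ℂ) →⋆ₐ[ℂ] (H →L[ℂ] H)} {X Y : L2R H →L[ℂ] L2R H}
    (hX : X ∈ Rk1 M N Ψ) (hY : Y ∈ Rk1 M N Ψ) : X - Y ∈ Rk1 M N Ψ :=
  ⟨sub_mem hX.1 hY.1, fun m hm h1 => by rw [mul_sub, sub_mul, hX.2.1 m hm h1, hY.2.1 m hm h1],
    fun u hu h1 h2 => by rw [mul_sub, sub_mul, hX.2.2 u hu h1 h2, hY.2.2 u hu h1 h2]⟩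

end Pool.Agent.Helper23.ED

end

section

open scoped InnerProductSpace Topology ENNReal BoundedContinuousFunction

open ContinuousLinearMap Filter MeasureTheory

namespace Pool.Agent.Helper23.ED

open Pool.Agent.Helper23 Pool.Agent.Helper23.RBF

open Pool.Agent.Helper78.BC.Transport (Sub r)

universe u

variable {H : Type*} [NormedAddCommGroup H] [InnerProductSpace ℂ H] [CompleteSpace H]

variable {A : VonNeumannAlgebra H} {ξ : H} {R : H →L[ℂ] H} {D : H →L[ℝ] H}
  {Ψ : (ℝ →ᵇ ℂ) →⋆ₐ[ℂ] (H →L[ℂ] H)}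

namespace GgC

lemma comm_mulOp {Y : L2R H →L[ℂ] L2R H}
    (hc : ∀ a, Y * mulOp H (ems a) = mulOp H (ems a) * Y) {m : ℝ → ℂ} (hm : BM m) :
    Y * mulOp H m = mulOp H m * Y := by
  ext G : 1
  refine ext_inner_left ℂ fun F => ?_
  have key : ∀ m : ℝ → ℂ, BM m → ⟪F, (Y * mulOp H m) G⟫_ℂ - ⟪F, (mulOp H m * Y) G⟫_ℂ =
      ∫ s, m s * (⟪((star Y) F) s, G s⟫_ℂ - ⟪F s, (Y G) s⟫_ℂ) := by
    intro m hm
    change ⟪F, Y (mulOp H m G)⟫_ℂ - ⟪F, mulOp H m (Y G)⟫_ℂ = _
    rw [← inner_star_left Y, L2.inner_def, L2.inner_def,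
      ← integral_sub (L2.integrable_inner _ _) (L2.integrable_inner _ _)]
    refine integral_congr_ae ?_
    filter_upwards [mulOp_coe hm G, mulOp_coe hm (Y G)] with s h1 h2
    rw [h1, h2, inner_smul_right, inner_smul_right]
    ring
  have hi : Integrable fun s => (⟪((star Y) F) s, G s⟫_ℂ - ⟪F s, (Y G) s⟫_ℂ) :=
    (L2.integrable_inner _ _).sub (L2.integrable_inner _ _)
  have h0 := inj_cplx hi fun a => by
    rw [← key (ems a) (GgB.ems_bm a), hc a, sub_self]
  rw [← sub_eq_zero, key m hm]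
  refine (integral_congr_ae ?_).trans (integral_zero ℝ ℂ)
  filter_upwards [h0] with s hs
  rw [hs, Pi.zero_apply, mul_zero]

end GgC

end Pool.Agent.Helper23.ED

end

section

open scoped InnerProductSpace Topology ENNReal BoundedContinuousFunction

open ContinuousLinearMap Filter MeasureTheory

namespace Pool.Agent.Helper23.ED

open Pool.Agent.Helper23 Pool.Agent.Helper23.RBF

open Pool.Agent.Helper78.BC.Transport (Sub r)

universe u

open TopologicalSpace

variable {H : Type*} [NormedAddCommGroup H] [InnerProductSpace ℂ H] [CompleteSpace H]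

variable {N : VonNeumannAlgebra H} {ξ : H} {V c : ℝ → H →L[ℂ] H} {ψ : (H →L[ℂ] H) → ℝ≥0∞}

open WuB

theorem coc_ug (hV : UG V) (hc : Coc N V ψ c) : UG (fun t => c t * V t) := by
  have hadd : ∀ s t, c (s + t) * V (s + t) = (c s * V s) * (c t * V t) := by
    intro s t
    rw [hc.cocycle, hV.add]
    calc c s * (V s * c t * V (-s)) * (V s * V t)
        = c s * V s * c t * (V (-s) * V s) * V t := by simp only [mul_assoc]
      _ = _ := by rw [V_neg' hV]; simp only [mul_assoc, one_mul]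
  have hzero : c 0 * V 0 = 1 := by rw [c_zero hV hc, hV.zero, one_mul]
  refine ⟨fun v => ?_, hzero, hadd, fun t => ?_⟩
  · exact cont_comp (fun t => norm_le_one_of_isom (hc.unit t).1) hc.cont hV.cont v
  · have h1 := hadd (-t) t
    rw [neg_add_cancel, hzero] at h1
    have h2 : (c t * V t) * star (c t * V t) = 1 := by
      rw [star_mul, hV.star]
      calc c t * V t * (V (-t) * star (c t)) = c t * (V t * V (-t)) * star (c t) := by
            simp only [mul_assoc]
        _ = 1 := by rw [V_neg hV, mul_one, (hc.unit t).2]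
    change star (c t * V t) = c (-t) * V (-t)
    calc star (c t * V t) = (c (-t) * V (-t) * (c t * V t)) * star (c t * V t) := by
          rw [← h1, one_mul]
      _ = c (-t) * V (-t) := by rw [mul_assoc, h2, mul_one]

end Pool.Agent.Helper23.ED

end
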