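import Pool.Agent.Helper23.FA.Ns
import Pool.Agent.Helper23.FA.L02_02
import Pool.Agent.Helper23.FA.L02_04
import Pool.Agent.Helper23.FA.L02_07
import Pool.Agent.Helper23.FA.L02_08
import Pool.Agent.Helper23.FA.L02_11
import Pool.Agent.Helper23.FA.L02_12
import Pool.Agent.Helper23.FA.L02_13
import Pool.Agent.Helper23.FA.L02_14

/-!
Parts of Helper23.UOc2, Helper88.CS.SpecB, Helper88.CS.Corner, Helper88.CS.Exh, Helper88.CS.Full
-/

section

open scoped InnerProductSpace Topology

open ContinuousLinearMap Filter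

namespace Pool.Agent.Helper23

universe u

variable {H : Type u} [NormedAddCommGroup H] [InnerProductSpace ℂ H] [CompleteSpace H]

variable {L : Type u} [NormedAddCommGroup L] [InnerProductSpace ℂ L] [CompleteSpace L]

variable {M N A : VonNeumannAlgebra H} {ξ : H} {E : (H →L[ℂ] H) → (H →L[ℂ] H)}

section

variable {mk : (ℕ → H) → L} (h : HUP mk)

include h

theorem HUP.oc (S : Setting M N E ξ) :
    Oc M N E ξ (Mt M ξ mk M) (Mt M ξ mk N) (Et M E ξ mk) (zt M ξ h) (rp M ξ mk) := by
  have hUU := UU_neBot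
  have hmemM : ∀ x ∈ AppS M ξ, rp M ξ mk x ∈ Mt M ξ mk M := fun x hx =>
    oc_sub_genVN ⟨x, ⟨hx, fun n => ocS_mem hx n⟩, rfl⟩
  have hmemN : ∀ x ∈ AppS M ξ, (∀ n, x n ∈ N) → rp M ξ mk x ∈ Mt M ξ mk N := fun x hx hxN =>
    oc_sub_genVN ⟨x, ⟨hx, hxN⟩, rfl⟩
  have hle : ∀ T ∈ Mt M ξ mk N, T ∈ Mt M ξ mk M := by
    intro T hT
    refine oc_genVN_mono (Set.image_mono ?_) hT
    rintro x ⟨h1, h2⟩
    exact ⟨h1, fun n => ocS_mem h1 n⟩
  have hS : Setting (Mt M ξ mk M) (Mt M ξ mk N) (Et M E ξ mk) (zt M ξ h) := by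
    refine
      { le := hle
        norm_one := ?_
        cyc := ?_
        sep := fun T hT h0 => h.rp_sep hT h0
        E_mem := fun T hT => ?_
        E_bimod := fun a ha b hb T hT => ?_
        E_fix := fun T hT => ?_
        E_state := fun T hT => ?_ }
    · have h1 := h.norm_tendsto (ocB_const ξ)
      rw [S.norm_one] at h1
      exact (tendsto_nhds_unique h1 tendsto_const_nhds)
    · rw [Metric.dense_iff]
      intro v ε hε
      obtain ⟨x, hx, h1⟩ := h.rp_cyclic v hε
      refine ⟨rp M ξ mk x (zt M ξ h), ?_, ⟨rp M ξ mk x, hmemM x hx, rfl⟩⟩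
      rw [Metric.mem_ball, dist_comm, dist_eq_norm]
      exact h1
    · obtain ⟨x, hx, hxM, -, rfl⟩ := h.surjA S (fun x hx => hx) hT
      rw [h.Et_rp S hx]
      exact hmemN _ (S.AppS_E hx) fun n => S.E_mem _ (hxM n)
    · obtain ⟨x, hx, hxM, -, rfl⟩ := h.surjA S (fun x hx => hx) hT
      obtain ⟨α, hα, hαN, -, rfl⟩ := h.surjA S S.le ha
      obtain ⟨β, hβ, hβN, -, rfl⟩ := h.surjA S S.le hb
      rw [← h.rp_mul hα hx, ← h.rp_mul (ocS_mul hα hx) hβ,
        h.Et_rp S (ocS_mul (ocS_mul hα hx) hβ), h.Et_rp S hx,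
        ← h.rp_mul hα (S.AppS_E hx), ← h.rp_mul (ocS_mul hα (S.AppS_E hx)) hβ]
      congr 1
      funext n
      exact S.E_bimod _ (hαN n) _ (hβN n) _ (hxM n)
    · obtain ⟨x, hx, hxN, -, rfl⟩ := h.surjA S S.le hT
      rw [h.Et_rp S hx]
      congr 1
      funext n
      exact S.E_fix _ (hxN n)
    · obtain ⟨x, hx, hxM, -, rfl⟩ := h.surjA S (fun x hx => hx) hT
      rw [h.Et_rp S hx]
      have h1 := h.rp_inner (M := M) (ξ := ξ) ocS_one (S.AppS_E hx)
      have h2 := h.rp_inner (M := M) (ξ := ξ) ocS_one hx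
      rw [h.rp_one, one_apply_eq_self] at h1 h2
      exact tendsto_nhds_unique h1 (h2.congr fun n => (S.E_state _ (hxM n)).symm)
  exact
    { set := hS
      add := fun x hx y hy => h.rp_add hx hy
      smul := fun c x hx => h.rp_smul c hx
      mul := fun x hx y hy => h.rp_mul hx hy
      star := fun x hx => h.rp_star hx
      one := h.rp_one
      norm := fun x _ C hC => h.rp_norm hC
      inner := fun x hx y hy => h.rp_inner hx hy
      memM := hmemM
      memN := hmemN
      surjM := fun T hT => by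
        obtain ⟨x, hx, -, h1, h2⟩ := h.surjA S (fun x hx => hx) hT
        exact ⟨x, hx, h1, h2.symm⟩
      surjN := fun T hT => by
        obtain ⟨x, hx, h0, h1, h2⟩ := h.surjA S S.le hT
        exact ⟨x, hx, h0, h1, h2.symm⟩
      expect := fun x hx => h.Et_rp S hx }

end

theorem Setting.exists_Oc (S : Setting M N E ξ) :
    ∃ (K : Type u) (_ : NormedAddCommGroup K) (_ : InnerProductSpace ℂ K) (_ : CompleteSpace K)
      (MT NT : VonNeumannAlgebra K) (ET : (K →L[ℂ] K) → (K →L[ℂ] K)) (ζ : K)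
      (rep : (ℕ → H →L[ℂ] H) → (K →L[ℂ] K)), Oc M N E ξ MT NT ET ζ rep := by
  obtain ⟨L, i1, i2, i3, mk, h⟩ := exists_HUP H
  exact ⟨Vs M ξ mk, inferInstance, inferInstance, inferInstance, _, _, _, _, _, h.oc S⟩

end Pool.Agent.Helper23

end

section

open scoped InnerProductSpace Topology BoundedContinuousFunction

open ContinuousLinearMap Filter MeasureTheory

namespace Pool.Agent.Helper88.CS

open Pool.Agent.Helper23

open Pool.Agent.Helper78.BC (Std rm Fixed)

variable {H : Type*} [NormedAddCommGroup H] [InnerProductSpace ℂ H] [CompleteSpace H]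

variable {A : VonNeumannAlgebra H} {ξ : H} {J : H →L[ℝ] H}
  {Ψ : (ℝ →ᵇ ℂ) →⋆ₐ[ℂ] (H →L[ℂ] H)} {R : H →L[ℂ] H} {D : H →L[ℝ] H}

theorem exists_near_zero (h : St A ξ J Ψ R D) (hA : III1V A) {e f : H →L[ℂ] H} (he : IsP A e)
    (hf : IsP A f) (he0 : e ≠ 0) (hf0 : f ≠ 0) (hJe : J (e ξ) = e ξ) (hJf : J (f ξ) = f ξ)
    {η : ℝ} (hη : 0 < η) :
    ∃ x ∈ A, f * x = x ∧ x * e = x ∧ x ≠ 0 ∧ Supp Ψ (x ξ) (-η) η := by
  classical
  obtain ⟨x0, hx0, hne⟩ := exists_mul_ne hA.toFInf he hf he0 hf0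
  set z := f * x0 * e with hz
  have hzA : z ∈ A := mul_mem (mul_mem hf.1 hx0) he.1
  have hfz : f * z = z := by rw [hz, ← mul_assoc, ← mul_assoc, hf.2.2]
  have hze : z * e = z := by rw [hz, mul_assoc, he.2.2]
  have hzξ : z ξ ≠ 0 := fun h0 => hne (h.sep z hzA h0)
  have hce := comm_psi h he.1 he.2.1 hJe
  have hcf := comm_psi h hf.1 hf.2.1 hJf
  obtain ⟨s, k, K, hk, hK, hKz⟩ := exists_piece h hzξ (half_pos hη)
  set x1 := Pool.Agent.Helper70.U8.sm h.mod hk.int z with hx1
  have hx1A : x1 ∈ A := Pool.Agent.Helper70.U8.sm_mem h.mod hk.int h.mod.mem hzA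
  have hx1ne : x1 ≠ 0 := by
    intro h0
    have h1 := Pool.Agent.Helper70.U8.sm_xi h.mod hk.int hk.four z
    rw [← hx1, h0, zero_apply] at h1
    exact hKz h1.symm
  have hx1e : x1 * e = x1 := SpecBAux.sm_mul h.mod hk.int hce hze
  obtain ⟨q, hq, hq0, hJq, -, hq1, hq2⟩ := exists_hull h hx1A hx1ne
  have heq : e * q = q := hq1 e he.1 he.2.1 hJe hx1e
  have hqe : q * e = q := by
    have h1 := congrArg star heq
    rwa [star_mul, he.2.1, hq.2.1] at h1
  have hcq := comm_psi h hq.1 hq.2.1 hJq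
  obtain ⟨l, L, hl, hL, hLs⟩ := exists_piece_at h (s := -s) (half_pos hη)
  obtain ⟨y0, hy0, hqy, hyq, hLy⟩ := corner_spec h hA hq hq0 hJq (-s) L
    (by rw [hLs]; exact one_ne_zero)
  set y1 := Pool.Agent.Helper70.U8.sm h.mod hl.int y0 with hy1
  have hy1A : y1 ∈ A := Pool.Agent.Helper70.U8.sm_mem h.mod hl.int h.mod.mem hy0
  have hy1ne : y1 ≠ 0 := by
    intro h0
    have h1 := Pool.Agent.Helper70.U8.sm_xi h.mod hl.int hl.four y0
    rw [← hy1, h0, zero_apply] at h1
    exact hLy h1.symm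
  have hqy1 : q * y1 = y1 := SpecBAux.mul_sm h.mod hl.int hcq hqy
  have hy1q : y1 * q = y1 := SpecBAux.sm_mul h.mod hl.int hcq hyq
  have hy1e : y1 * e = y1 := by rw [← hy1q, mul_assoc, hqe]
  obtain ⟨t, ht⟩ : ∃ t : ℝ, (Pool.Agent.Helper70.U8.U Ψ t * x1 *
      Pool.Agent.Helper70.U8.V Ψ t) * y1 ≠ 0 := by
    by_contra hcon
    push Not at hcon
    have h1 := hq2 y1 hy1A hcon
    rw [hqy1] at h1
    exact hy1ne h1
  obtain ⟨K', hk', hK'⟩ := hk.shift t
  have horb := SpecBAux.orbit_sm h.mod hk.int t hk'.int z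
  rw [← hx1] at horb
  rw [horb] at ht
  have hfx : f * Pool.Agent.Helper70.U8.sm h.mod hk'.int z =
      Pool.Agent.Helper70.U8.sm h.mod hk'.int z := SpecBAux.mul_sm h.mod hk'.int hcf hfz
  refine ⟨Pool.Agent.Helper70.U8.sm h.mod hk'.int z * y1,
    mul_mem (Pool.Agent.Helper70.U8.sm_mem h.mod hk'.int h.mod.mem hzA) hy1A, ?_, ?_, ht, ?_⟩
  · rw [← mul_assoc, hfx]
  · rw [mul_assoc, hy1e]
  · have h1 := supp_mul h hk' hl (a := s - η / 2) (b := s + η / 2) (c := -s - η / 2)
      (d := -s + η / 2) (fun ρ hρ => by rw [hK', hK ρ hρ, mul_zero]) hL z y0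
    exact h1.mono (by linarith) (by linarith)

end Pool.Agent.Helper88.CS

end

section

open scoped InnerProductSpace Topology BoundedContinuousFunction

open ContinuousLinearMap Filter MeasureTheory

namespace Pool.Agent.Helper88.CS

open Pool.Agent.Helper23

open Pool.Agent.Helper78.BC (Std rm Fixed)

variable {H : Type*} [NormedAddCommGroup H] [InnerProductSpace ℂ H] [CompleteSpace H]

variable {A : VonNeumannAlgebra H} {ξ : H} {J : H →L[ℝ] H}
  {Ψ : (ℝ →ᵇ ℂ) →⋆ₐ[ℂ] (H →L[ℂ] H)} {R : H →L[ℂ] H} {D : H →L[ℝ] H}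

open CornerAux in
theorem local_step (h : St A ξ J Ψ R D) (hA : III1V A) {e f s r : H →L[ℂ] H} (he : IsP A e)
    (hf : IsP A f) (hef : e + f = 1) (hJe : J (e ξ) = e ξ) (hs : IsP A s) (hr : IsP A r)
    (hs0 : s ≠ 0) (hr0 : r ≠ 0) (hes : e * s = s) (hfr : f * r = r) {δ : ℝ} (hδ : 0 < δ) :
    ∃ w ∈ A, w * star w * w = w ∧ r * w = w ∧ w * s = w ∧ w ≠ 0 ∧
      ‖w (rm J s ξ) - r (rm J w ξ)‖ ^ 2 ≤ δ * ‖w ξ‖ ^ 2 := by
  obtain ⟨heA, hes', hee⟩ := he
  obtain ⟨hfA, hfs', hff⟩ := hf
  obtain ⟨hsA, hss', hss⟩ := hs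
  obtain ⟨hrA, hrs', hrr⟩ := hr
  have hfe : f = 1 - e := by rw [← hef]; abel
  have hJf : J (f ξ) = f ξ := by
    rw [hfe, sub_apply, one_apply_eq_self, map_sub, hJe, h.J_xi]
  have hef0 : e * f = 0 := by rw [hfe, mul_sub, mul_one, hee, sub_self]
  have hfe0 : f * e = 0 := by rw [hfe, sub_mul, one_mul, hee, sub_self]
  have hse : s * e = s := by
    have := congrArg star hes
    rwa [star_mul, hss', hes'] at this
  have hrf : r * f = r := by
    have := congrArg star hfr
    rwa [star_mul, hrs', hfs'] at this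
  have hsf : s * f = 0 := by rw [← hse, mul_assoc, hef0, mul_zero]
  have hre : r * e = 0 := by rw [← hrf, mul_assoc, hfe0, mul_zero]
  have hsr : s * r = 0 := by rw [← hfr, ← mul_assoc, hsf, zero_mul]
  have hrs : r * s = 0 := by rw [← hes, ← mul_assoc, hre, zero_mul]
  -- the isometry
  have hg : IsP A (s + r) := by
    refine ⟨add_mem hsA hrA, by rw [star_add, hss', hrs'], ?_⟩
    rw [add_mul, mul_add, mul_add, hss, hrr, hsr, hrs, add_zero, zero_add]
  have hg0 : s + r ≠ 0 := by
    intro h0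
    have : (s + r) * s = 0 := by rw [h0, zero_mul]
    rw [add_mul, hss, hrs, add_zero] at this
    exact hs0 this
  obtain ⟨u, huA, hu1, hu2⟩ := equiv_one hA.toFInf h.sep hg hg0
  have huA' : star u ∈ A := star_mem huA
  have hgs : (s + r) * s = s := by rw [add_mul, hss, hrs, add_zero]
  have hsg : s * (s + r) = s := by rw [mul_add, hss, hsr, add_zero]
  have hgr : (s + r) * r = r := by rw [add_mul, hrr, hsr, zero_add]
  have hrg : r * (s + r) = r := by rw [mul_add, hrr, hrs, zero_add]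
  have hug : star u * (s + r) = star u := by rw [← hu2, ← mul_assoc, hu1, one_mul]
  have hgu : (s + r) * u = u := by rw [← hu2, mul_assoc, hu1, mul_one]
  -- vanishing of off-diagonal parts
  have hz1 : s (J (r ξ)) = 0 := by
    have h1 := right_under h hfA hrA hJf hrf
    rw [← h1]
    show (s * f) (J (r ξ)) = 0
    rw [hsf]; rfl
  have hz2 : r (J (s ξ)) = 0 := by
    have h1 := right_under h heA hsA hJe hse
    rw [← h1]
    show (r * e) (J (s ξ)) = 0
    rw [hre]; rfl
  have hgJs : (s + r) (J (s ξ)) = s (J (s ξ)) := by rw [add_apply, hz2, add_zero]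
  have hJss : J (s (J (s ξ))) = s (J (s ξ)) := by rw [h.J_comm s hsA s hsA, h.J_xi]
  -- the vector
  set k0 : H := kap J ξ u with hk0
  have hk0' : k0 = (star u) (J ((star u) ξ)) := rfl
  have hJk0 : J k0 = k0 := kap_J h huA
  have hne : k0 ≠ 0 := by
    intro h0
    have h1 := kap_sep h huA hu1 1 (one_mem A) (by rw [← hk0, h0, map_zero])
    apply hs0
    rw [← mul_one s, h1, mul_zero]
  have hnpos : 0 < ‖k0‖ := norm_pos_iff.2 hne
  set c : ℝ := ‖k0‖⁻¹ with hc
  have hcpos : 0 < c := inv_pos.2 hnpos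
  have hc0 : (c : ℂ) ≠ 0 := Complex.ofReal_ne_zero.2 hcpos.ne'
  set k : H := (c : ℂ) • k0 with hk
  have hk1 : ‖k‖ = 1 := by
    rw [hk, norm_smul, Complex.norm_real, Real.norm_eq_abs, abs_of_pos hcpos, hc,
      inv_mul_cancel₀ hnpos.ne']
  have hJc : ∀ v : H, J ((c : ℂ) • v) = (c : ℂ) • J v := by
    intro v
    rw [h.J_conj, Complex.conj_ofReal]
  have hJk : J k = k := by rw [hk, hJc, hJk0]
  have hksep : ∀ a ∈ A, a k = 0 → a = 0 := by
    intro a ha h0
    apply kap_sep h huA hu1 a ha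
    rw [hk, map_smul] at h0
    exact (smul_eq_zero.1 h0).resolve_left hc0
  have hkd : Dense (orb A k : Set H) := by
    have h1 := kap_dense h huA hu1
    rw [← hk0] at h1
    refine h1.mono ?_
    rintro _ ⟨a, ha, rfl⟩
    refine ⟨((c : ℂ)⁻¹) • a, smul_mem' _ ha, ?_⟩
    rw [hk, smul_apply, map_smul, smul_smul, inv_mul_cancel₀ hc0, one_smul]
  have hkpos : ∀ a ∈ A, 0 ≤ (⟪J (a k), (star a) k⟫_ℂ).re := by
    intro a ha
    have h1 := kap_pos h huA a ha
    rw [← hk0] at h1
    have e1 : a k = (c : ℂ) • a k0 := by rw [hk, map_smul]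
    have e2 : (star a) k = (c : ℂ) • (star a) k0 := by rw [hk, map_smul]
    rw [e1, e2, hJc, inner_smul_left, inner_smul_right, Complex.conj_ofReal,
      ← mul_assoc, ← Complex.ofReal_mul, Complex.re_ofReal_mul]
    exact mul_nonneg (by positivity) h1
  obtain ⟨Ψ', R', D', h'⟩ := exists_st h.conj hk1 hkd hksep hJk hkpos
  -- the corner projections
  set e' : H →L[ℂ] H := star u * s * u with he'
  set f' : H →L[ℂ] H := star u * r * u with hf'
  have hPe' : IsP A e' := by
    refine ⟨mul_mem (mul_mem huA' hsA) huA, ?_, ?_⟩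
    · rw [he', star_mul, star_mul, star_star, hss', mul_assoc]
    · have : star u * s * u * (star u * s * u) = star u * (s * (u * star u) * s) * u := by
        simp only [mul_assoc]
      rw [he', this, hu2, hsg, hss]
  have hPf' : IsP A f' := by
    refine ⟨mul_mem (mul_mem huA' hrA) huA, ?_, ?_⟩
    · rw [hf', star_mul, star_mul, star_star, hrs', mul_assoc]
    · have : star u * r * u * (star u * r * u) = star u * (r * (u * star u) * r) * u := by
        simp only [mul_assoc]
      rw [hf', this, hu2, hrg, hrr]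
  have hef' : e' + f' = 1 := by
    rw [he', hf', ← add_mul, ← mul_add, hug, hu1]
  have hback : ∀ x : H →L[ℂ] H, u * (star u * x * u) * star u = (s + r) * x * (s + r) := by
    intro x
    rw [← hu2]
    simp only [mul_assoc]
  have he'0 : e' ≠ 0 := by
    intro h0
    have h1 := hback s
    rw [← he', h0, mul_zero, zero_mul, hgs, hsg] at h1
    exact hs0 h1.symm
  have hf'0 : f' ≠ 0 := by
    intro h0
    have h1 := hback r
    rw [← hf', h0, mul_zero, zero_mul, hgr, hrg] at h1
    exact hr0 h1.symm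
  -- `e'` commutes with `k0`
  have hJe'0 : J (e' k0) = e' k0 := by
    have h1 : e' k0 = (star u) (s (J ((star u) ξ))) := by
      rw [hk0', he']
      show (star u * s * u * star u) (J ((star u) ξ)) = (star u * s) (J ((star u) ξ))
      have : star u * s * u * star u = star u * (s * (u * star u)) := by simp only [mul_assoc]
      rw [this, hu2, hsg]
    have h2 : J ((star u * s) (J ((star u) ξ))) = (star u) (J ((star u * s) ξ)) := by
      rw [h.J_comm _ (mul_mem huA' hsA) _ huA', h.J_xi]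
    -- both equal `u* J u* s J s ξ`
    have h3 : (star u) (J ((star u * s) ξ)) = (star u) (J ((star u) (s (J (s ξ))))) := by
      have e1 : (star u) (J ((star u * s) ξ)) = (star u) ((s + r) (J ((star u * s) ξ))) := by
        show _ = (star u * (s + r)) (J ((star u * s) ξ))
        rw [hug]
      have e2 : J ((star u * s) ξ) = J ((star u) (J (J (s ξ)))) := by
        rw [h.J_J]; rfl
      have e3 : (s + r) (J ((star u) (J (J (s ξ))))) = J ((star u) (J ((s + r) (J (s ξ))))) := by
        rw [h.J_comm _ huA' _ hg.1]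
      rw [e1, e2, e3, hgJs, hJss]
    have h4 : (star u) (s (J ((star u) ξ))) = (star u) (J ((star u) (s (J (s ξ))))) := by
      have e1 : s (J ((star u) ξ)) = J ((star u) (J (s ξ))) := by
        rw [h.J_comm _ huA' _ hsA, h.J_xi]
      have e2 : (star u) (J (s ξ)) = (star u) (s (J (s ξ))) := by
        have : (star u) (J (s ξ)) = (star u) ((s + r) (J (s ξ))) := by
          show _ = (star u * (s + r)) (J (s ξ))
          rw [hug]
        rw [this, hgJs]
      rw [e1, e2]
    rw [h1]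
    have h5 : (star u) (s (J ((star u) ξ))) = (star u * s) (J ((star u) ξ)) := rfl
    rw [h5, h2, h3, ← h4, h5]
  have hJf'0 : J (f' k0) = f' k0 := by
    have : f' = 1 - e' := by rw [← hef']; abel
    rw [this, sub_apply, one_apply_eq_self, map_sub, hJe'0, hJk0]
  have hJe' : J (e' k) = e' k := by rw [hk, map_smul, hJc, hJe'0]
  have hJf' : J (f' k) = f' k := by rw [hk, map_smul, hJc, hJf'0]
  -- small parameter
  set t : ℝ := min (1 / 100) (δ / 100) with ht
  have ht0 : 0 < t := lt_min (by norm_num) (by positivity)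
  set η : ℝ := 2 * Real.log (1 + t) with hη
  have hη0 : 0 < η := by
    have := Real.log_pos (show (1 : ℝ) < 1 + t by linarith)
    rw [hη]; linarith
  have hexp : Real.exp (η / 2) - 1 = t := by
    rw [hη, mul_div_cancel_left₀ _ (two_ne_zero), Real.exp_log (by linarith)]
    ring
  obtain ⟨x, hxA, hfx, hxe, hx0, hsupp⟩ :=
    exists_near_zero h' hA hPe' hPf' he'0 hf'0 hJe' hJf' hη0
  have hcomm := supp_comm h' hxA hη0 hsupp
  rw [hexp] at hcomm
  obtain ⟨w', hw'A, hw'1, hw'2, hw'3, hw'0, hw'4⟩ := cut_offdiag h.conj hJk hksep hPe' hPf' hef'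
    hJe' hxA hfx hxe hx0 ht0 (min_le_left _ _) hcomm
  -- unscaled estimate
  have hest : ‖w' k0 - rm J w' k0‖ ^ 2 ≤ δ * ‖w' k0‖ ^ 2 := by
    have h1 : w' k - rm J w' k = (c : ℂ) • (w' k0 - rm J w' k0) := by
      simp only [rm, hk, map_smul, hJc, smul_sub]
    have h2 : w' k = (c : ℂ) • w' k0 := by rw [hk, map_smul]
    rw [h1, h2, norm_smul, norm_smul, mul_pow, mul_pow] at hw'4
    have h3 : 0 < ‖(c : ℂ)‖ ^ 2 := by
      have := norm_pos_iff.2 hc0
      positivity
    have h4 : 100 * t ≤ δ := by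
      have := min_le_right (1 / 100 : ℝ) (δ / 100)
      rw [ht]; linarith
    have h5 : ‖(c : ℂ)‖ ^ 2 * ‖w' k0 - rm J w' k0‖ ^ 2 ≤ ‖(c : ℂ)‖ ^ 2 * (100 * t * ‖w' k0‖ ^ 2) := by
      calc _ ≤ 100 * t * (‖(c : ℂ)‖ ^ 2 * ‖w' k0‖ ^ 2) := hw'4
        _ = _ := by ring
    have h6 := le_of_mul_le_mul_left h5 h3
    exact h6.trans (mul_le_mul_of_nonneg_right h4 (by positivity))
  -- the partial isometry
  set w : H →L[ℂ] H := u * w' * star u with hw
  have hwA : w ∈ A := mul_mem (mul_mem huA hw'A) huA'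
  have hws : star w = u * star w' * star u := by
    rw [hw, star_mul, star_mul, star_star, mul_assoc]
  have hrw : r * w = w := by
    have h1 : u * w' = r * (u * w') := by
      calc u * w' = u * (f' * w') := by rw [hw'2]
        _ = (u * star u) * r * (u * w') := by rw [hf']; simp only [mul_assoc]
        _ = r * (u * w') := by rw [hu2, hgr]
    rw [hw, ← mul_assoc, ← h1]
  have hwss : w * s = w := by
    have h1 : w' * star u = w' * star u * s := by
      calc w' * star u = w' * e' * star u := by rw [hw'3]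
        _ = w' * star u * (s * (u * star u)) := by rw [he']; simp only [mul_assoc]
        _ = w' * star u * s := by rw [hu2, hsg]
    rw [hw, mul_assoc, mul_assoc, ← mul_assoc w', ← h1, ← mul_assoc]
  have hw0 : w ≠ 0 := by
    intro h0
    apply hw'0
    have : star u * w * u = w' := by
      calc star u * w * u = (star u * u) * w' * (star u * u) := by
            rw [hw]; simp only [mul_assoc]
        _ = w' := by rw [hu1, one_mul, mul_one]
    rw [← this, h0, mul_zero, zero_mul]
  have hw3 : w * star w * w = w := by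
    calc w * star w * w = u * (w' * (star u * u) * star w' * (star u * u) * w') * star u := by
          rw [hws, hw]; simp only [mul_assoc]
      _ = w := by rw [hu1, mul_one, mul_one, hw'1]
  refine ⟨w, hwA, hw3, hrw, hwss, hw0, ?_⟩
  -- transport of the estimate
  have hrm1 : rm J s ξ = J (s ξ) := by rw [rm, hss', h.J_xi]
  have hrm2 : rm J w ξ = J ((star w) ξ) := by rw [rm, h.J_xi]
  have hwr : w (J (r ξ)) = 0 := by
    have : w (J (r ξ)) = (w * s) (J (r ξ)) := by rw [hwss]
    rw [this]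
    show w (s (J (r ξ))) = 0
    rw [hz1, map_zero]
  have hT1 : u (J (u (J (w' k0)))) = w (J (s ξ)) := by
    have e1 : J (u (J (w' k0))) = w' (J (u (J k0))) := h.J_comm u huA w' hw'A k0
    have e2 : J (u (J k0)) = (star u) (J ((s + r) ξ)) := by
      rw [hJk0, hk0']
      show J ((u * star u) (J ((star u) ξ))) = _
      rw [hu2, h.J_comm _ hg.1 _ huA', h.J_xi]
    rw [e1, e2]
    show w (J ((s + r) ξ)) = _
    rw [add_apply, map_add, map_add, hwr, add_zero]
  have hsw : s (J ((star w) ξ)) = 0 := by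
    have h1 : star w * f = star w := by
      have e1 : star w * r = star w := by
        have := congrArg star hrw
        rwa [star_mul, hrs'] at this
      calc star w * f = star w * r * f := by rw [e1]
        _ = star w := by rw [mul_assoc, hrf, e1]
    have h2 := right_under h hfA (star_mem hwA) hJf h1
    rw [← h2]
    show (s * f) (J ((star w) ξ)) = 0
    rw [hsf]; rfl
  have hT2 : u (J (u (J (rm J w' k0)))) = r (J ((star w) ξ)) := by
    have e1 : rm J w' k0 = (star u) (J ((star w' * star u) ξ)) := by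
      rw [rm, hJk0, hk0']
      show J ((star w' * star u) (J ((star u) ξ))) = _
      rw [h.J_comm _ (mul_mem (star_mem hw'A) huA') _ huA', h.J_xi]
    have e2 : J (u (J (rm J w' k0))) = (star u) (J ((star w) ξ)) := by
      rw [e1, h.J_comm u huA _ huA', h.J_J, hws]
      show (star u) (J ((u * (star w' * star u)) ξ)) = _
      rw [mul_assoc]
    rw [e2]
    show (u * star u) (J ((star w) ξ)) = _
    rw [hu2, add_apply, hsw, zero_add]
  have hiso : ∀ v : H, ‖u (J (u (J v)))‖ = ‖v‖ := by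
    intro v
    rw [norm_isom hu1, h.J_norm, norm_isom hu1, h.J_norm]
  have hfin1 : ‖w (J (s ξ)) - r (J ((star w) ξ))‖ = ‖w' k0 - rm J w' k0‖ := by
    rw [← hT1, ← hT2, ← map_sub, ← map_sub, ← map_sub, ← map_sub, hiso]
  have hfin2 : ‖w' k0‖ ≤ ‖w ξ‖ := by
    rw [← hiso (w' k0), hT1]
    have e1 : w (J (s ξ)) = J (s (J (w ξ))) := by rw [h.J_comm s hsA w hwA, h.J_xi]
    rw [e1, h.J_norm]
    exact (norm_proj_le hss' hss _).trans (le_of_eq (h.J_norm _))
  rw [hrm1, hrm2, hfin1]
  refine hest.trans ?_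
  have := mul_self_le_mul_self (norm_nonneg (w' k0)) hfin2
  nlinarith

end Pool.Agent.Helper88.CS

end

section

open scoped InnerProductSpace Topology BoundedContinuousFunction

open ContinuousLinearMap Filter MeasureTheory

namespace Pool.Agent.Helper88.CS

open Pool.Agent.Helper23

open Pool.Agent.Helper78.BC (Std rm Fixed)

variable {H : Type*} [NormedAddCommGroup H] [InnerProductSpace ℂ H] [CompleteSpace H]

variable {A : VonNeumannAlgebra H} {ξ : H} {J : H →L[ℝ] H}
  {Ψ : (ℝ →ᵇ ℂ) →⋆ₐ[ℂ] (H →L[ℂ] H)} {R : H →L[ℂ] H} {D : H →L[ℝ] H}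

open ExhAux

theorem exists_maximal (h : St A ξ J Ψ R D) (hA : III1V A) {e f : H →L[ℂ] H} (he : IsP A e)
    (hf : IsP A f) (hef : e + f = 1) (hJe : J (e ξ) = e ξ) {δ : ℝ} (hδ : 0 < δ) :
    ∃ v ∈ A, v * star v * v = v ∧ f * v = v ∧ v * e = v ∧ Phi J ξ e f v ≤ δ ∧
      (star v * v = e ∨ v * star v = f) := by
  have hone := h.norm_one
  have hJxi : J ξ = ξ := h.J_xi
  -- the zero element
  have hPhi0 : Phi J ξ e f 0 = 0 := by
    simp [Phi, rm]
  let a0 : Adm A ξ J e f δ := ⟨0, zero_mem _, by simp, by simp, by simp, by simp [hPhi0]⟩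
  obtain ⟨b, -, hb⟩ := exists_max (α := Adm A ξ J e f δ) (fun v => ‖v.1 ξ‖ ^ 2) (C := 1)
    (fun v => by
      have := norm_pi_le v.2.2.1 ξ
      rw [hone] at this
      nlinarith [norm_nonneg (v.1 ξ)])
    (fun v w hvw => by
      have := Le.norm_le v.2.2.1 (show Le v.1 w.1 from hvw) ξ
      have h0 := norm_nonneg (v.1 ξ)
      show ‖v.1 ξ‖ ^ 2 ≤ ‖w.1 ξ‖ ^ 2
      nlinarith)
    (fun s hs => by
      obtain ⟨V, hVA, hV, hle, t1, t2, t3, t4⟩ := exists_sup (A := A) (v := fun n => (s n).1)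
        (fun n => (s n).2.1) (fun n => (s n).2.2.1) (fun m n hmn => hs hmn)
      have hfV : f * V = V := by
        ext x
        refine tendsto_nhds_unique ((f.continuous.tendsto _).comp (t1 x)) ?_
        refine (t1 x).congr fun n => ?_
        have : f ((s n).1 x) = (f * (s n).1) x := rfl
        simp only [Function.comp]
        rw [this, (s n).2.2.2.1]
      have hVe : V * e = V := by
        ext x
        refine tendsto_nhds_unique (t1 (e x)) ?_
        refine (t1 x).congr fun n => ?_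
        have : (s n).1 (e x) = ((s n).1 * e) x := rfl
        rw [this, (s n).2.2.2.2.1]
      have hPhi : Phi J ξ e f V ≤ δ * ‖V ξ‖ ^ 2 := by
        have hnv : ∀ n x, ‖(s n).1 x‖ ≤ ‖x‖ := fun n x => norm_pi_le (s n).2.2.1 x
        have hnp : ∀ n x, ‖(star (s n).1 * (s n).1) x‖ ≤ ‖x‖ := fun n x =>
          norm_proj_le (by simp [star_mul])
            (by rw [mul_assoc, ← mul_assoc (s n).1, (s n).2.2.1]) x
        have hnq : ∀ n x, ‖((s n).1 * star (s n).1) x‖ ≤ ‖x‖ := fun n x =>
          norm_proj_le (q_proj (s n).2.2.1).1 (q_proj (s n).2.2.1).2 x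
        have r1 : Tendsto (fun n => rm J (star (s n).1 * (s n).1) ξ) atTop
            (𝓝 (rm J (star V * V) ξ)) := by
          have : Tendsto (fun n => J ((star (s n).1 * (s n).1) (J ξ))) atTop
              (𝓝 (J ((star V * V) (J ξ)))) := (J.continuous.tendsto _).comp (t3 (J ξ))
          simpa [rm, star_mul] using this
        have r2 : Tendsto (fun n => rm J (s n).1 ξ) atTop (𝓝 (rm J V ξ)) :=
          (J.continuous.tendsto _).comp (t2 (J ξ))
        have r3 : Tendsto (fun n => rm J (e - star (s n).1 * (s n).1) ξ) atTop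
            (𝓝 (rm J (e - star V * V) ξ)) := by
          have : Tendsto (fun n => J (star e (J ξ) - (star (s n).1 * (s n).1) (J ξ))) atTop
              (𝓝 (J (star e (J ξ) - (star V * V) (J ξ)))) :=
            (J.continuous.tendsto _).comp ((t3 (J ξ)).const_sub _)
          simpa [rm, star_mul] using this
        have r4 : Tendsto (fun n => rm J ((s n).1 * star (s n).1) ξ) atTop
            (𝓝 (rm J (V * star V) ξ)) := by
          have : Tendsto (fun n => J (((s n).1 * star (s n).1) (J ξ))) atTop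
              (𝓝 (J ((V * star V) (J ξ)))) := (J.continuous.tendsto _).comp (t4 (J ξ))
          simpa [rm, star_mul] using this
        have l1 := tendsto_apply hnv t1 r1
        have l2 := tendsto_apply hnq t4 r2
        have l3 := tendsto_apply hnp t3 r3
        have l4 := tendsto_apply hnq t4 r4
        have l5 : Tendsto (fun n => (f - (s n).1 * star (s n).1)
            (rm J ((s n).1 * star (s n).1) ξ)) atTop
            (𝓝 ((f - V * star V) (rm J (V * star V) ξ))) := by
          have := ((f.continuous.tendsto _).comp r4).sub l4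
          simpa [Function.comp_def] using this
        have lphi : Tendsto (fun n => Phi J ξ e f (s n).1) atTop (𝓝 (Phi J ξ e f V)) :=
          (((l1.sub l2).norm.pow 2).add ((l3.norm.pow 2).const_mul 4)).add
            ((l5.norm.pow 2).const_mul 4)
        have lr : Tendsto (fun n => δ * ‖(s n).1 ξ‖ ^ 2) atTop (𝓝 (δ * ‖V ξ‖ ^ 2)) :=
          ((t1 ξ).norm.pow 2).const_mul δ
        exact le_of_tendsto_of_tendsto' lphi lr fun n => (s n).2.2.2.2.2
      exact ⟨⟨V, hVA, hV, hfV, hVe, hPhi⟩, fun n => hle n⟩) a0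
  obtain ⟨v, hvb⟩ : ∃ v : H →L[ℂ] H, v = b.1 := ⟨_, rfl⟩
  have hvA : v ∈ A := hvb ▸ b.2.1
  have hv : v * star v * v = v := hvb ▸ b.2.2.1
  have hfv : f * v = v := hvb ▸ b.2.2.2.1
  have hve : v * e = v := hvb ▸ b.2.2.2.2.1
  have hPhi : Phi J ξ e f v ≤ δ * ‖v ξ‖ ^ 2 := hvb ▸ b.2.2.2.2.2
  have hvx : ‖v ξ‖ ≤ 1 := by
    have := norm_pi_le hv ξ
    rwa [hone] at this
  refine ⟨v, hvA, hv, hfv, hve, ?_, ?_⟩
  · refine hPhi.trans ?_
    have : ‖v ξ‖ ^ 2 ≤ 1 := by nlinarith [norm_nonneg (v ξ)]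
    nlinarith
  by_contra hcon
  push Not at hcon
  obtain ⟨hne, hnf⟩ := hcon
  have hsv : star v * f = star v := by
    have := congrArg star hfv
    simpa [star_mul, hf.2.1] using this
  have hev : e * star v = star v := by
    have := congrArg star hve
    simpa [star_mul, he.2.1] using this
  have hpp : (star v * v) * (star v * v) = star v * v := by
    rw [mul_assoc, ← mul_assoc v, hv]
  have hqq := (q_proj hv).2
  set s : H →L[ℂ] H := e - star v * v with hsdef
  set r : H →L[ℂ] H := f - v * star v with hrdef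
  have hep : e * (star v * v) = star v * v := by rw [← mul_assoc, hev]
  have hpe : (star v * v) * e = star v * v := by rw [mul_assoc, hve]
  have hfq : f * (v * star v) = v * star v := by rw [← mul_assoc, hfv]
  have hqf : (v * star v) * f = v * star v := by rw [mul_assoc, hsv]
  have hsP : IsP A s := by
    refine ⟨sub_mem he.1 (mul_mem (star_mem hvA) hvA), by simp [hsdef, star_mul, he.2.1], ?_⟩
    rw [hsdef, sub_mul, mul_sub, mul_sub, he.2.2, hep, hpe, hpp]; abel
  have hrP : IsP A r := by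
    refine ⟨sub_mem hf.1 (mul_mem hvA (star_mem hvA)), by simp [hrdef, star_mul, hf.2.1], ?_⟩
    rw [hrdef, sub_mul, mul_sub, mul_sub, hf.2.2, hfq, hqf, hqq]; abel
  have hs0 : s ≠ 0 := fun h0 => hne (sub_eq_zero.mp h0).symm
  have hr0 : r ≠ 0 := fun h0 => hnf (sub_eq_zero.mp h0).symm
  have hes : e * s = s := by rw [hsdef, mul_sub, he.2.2, hep]
  have hse : s * e = s := by rw [hsdef, sub_mul, he.2.2, hpe]
  have hfr : f * r = r := by rw [hrdef, mul_sub, hf.2.2, hfq]
  obtain ⟨w, hwA, hw, hrw, hws, hw0, hwd⟩ := local_step h hA he hf hef hJe hsP hrP hs0 hr0 hes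
    hfr (δ := δ / 4) (by positivity)
  have hstep := phi_step h.conj hJxi he hf hef hvA hv hfv hve hwA hw hrw hws
  -- orthogonality of v and w
  have o1 : star v * w = 0 := by
    rw [← hrw, hrdef, ← mul_assoc, mul_sub, hsv, ss hv, sub_self, zero_mul]
  have o2 : w * star v = 0 := by
    rw [← hws, hsdef, mul_assoc, sub_mul, hev, star_pi hv, sub_self, mul_zero]
  have o3 : star w * v = 0 := by
    have := congrArg star o1
    simpa [star_mul] using this
  have o4 : v * star w = 0 := by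
    have := congrArg star o2
    simpa [star_mul] using this
  have hnorm : ‖(v + w) ξ‖ ^ 2 = ‖v ξ‖ ^ 2 + ‖w ξ‖ ^ 2 := by
    have horth : ⟪v ξ, w ξ⟫_ℂ = 0 := by
      have : ⟪v ξ, w ξ⟫_ℂ = ⟪ξ, (star v) (w ξ)⟫_ℂ := by
        rw [ContinuousLinearMap.star_eq_adjoint, ContinuousLinearMap.adjoint_inner_right]
      rw [this]
      have : (star v) (w ξ) = (star v * w) ξ := rfl
      rw [this, o1]; simp
    have := @norm_add_sq ℂ H _ _ _ (v ξ) (w ξ)
    rw [horth] at this
    rw [ContinuousLinearMap.add_apply, this]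
    simp
  have hvw : (v + w) * star (v + w) * (v + w) = v + w := by
    have : (v + w) * star (v + w) = v * star v + w * star w := by
      rw [star_add, add_mul, mul_add, mul_add, o2, o4]; abel
    rw [this, add_mul, mul_add, mul_add, hv, hw, mul_assoc v, o1, mul_assoc w, o3]
    simp
  have hfvw : f * (v + w) = v + w := by
    rw [mul_add, hfv]
    have : f * w = w := by rw [← hrw, ← mul_assoc, hfr]
    rw [this]
  have hvwe : (v + w) * e = v + w := by
    rw [add_mul, hve]
    have : w * e = w := by rw [← hws, mul_assoc, hse]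
    rw [this]
  have hphi' : Phi J ξ e f (v + w) ≤ δ * ‖(v + w) ξ‖ ^ 2 := by
    refine hstep.trans ?_
    rw [hnorm]
    have := hwd
    nlinarith
  let c : Adm A ξ J e f δ := ⟨v + w, add_mem hvA hwA, hvw, hfvw, hvwe, hphi'⟩
  have hbc : b ≤ c := by
    show Le b.1 (v + w)
    rw [← hvb]
    constructor
    · rw [add_mul, ← mul_assoc, hv, ← mul_assoc, o2, zero_mul, add_zero]
    · rw [mul_add, hv, mul_assoc, o1, mul_zero, add_zero]
  have heq := hb c hbc
  have heq' : ‖(v + w) ξ‖ ^ 2 = ‖v ξ‖ ^ 2 := by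
    have e1 : ‖c.1 ξ‖ ^ 2 = ‖b.1 ξ‖ ^ 2 := heq
    rw [← hvb] at e1
    exact e1
  rw [hnorm] at heq'
  have hwx : ‖w ξ‖ ^ 2 = 0 := by linarith
  have : w ξ = 0 := by
    have := pow_eq_zero_iff (two_ne_zero) |>.mp hwx
    exact norm_eq_zero.mp this
  exact hw0 (h.sep w hwA this)

end Pool.Agent.Helper88.CS

end

section

open scoped InnerProductSpace Topology BoundedContinuousFunction

open ContinuousLinearMap Filter MeasureTheory

namespace Pool.Agent.Helper88.CS

open Pool.Agent.Helper23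

open Pool.Agent.Helper78.BC (Std rm Fixed)

variable {H : Type*} [NormedAddCommGroup H] [InnerProductSpace ℂ H] [CompleteSpace H]

variable {A : VonNeumannAlgebra H} {ξ : H} {J : H →L[ℝ] H}
  {Ψ : (ℝ →ᵇ ℂ) →⋆ₐ[ℂ] (H →L[ℂ] H)} {R : H →L[ℂ] H} {D : H →L[ℝ] H}

open FullAux ExhAux InftyAux in
theorem exists_full (h : St A ξ J Ψ R D) (hA : III1V A) {e f : H →L[ℂ] H} (he : IsP A e)
    (hf : IsP A f) (hef : e + f = 1) (hJe : J (e ξ) = e ξ) (hm : ‖e ξ‖ = ‖f ξ‖) {δ : ℝ}
    (hδ : 0 < δ) :
    ∃ v ∈ A, star v * v = e ∧ v * star v = f ∧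
      ∀ x ∈ A, ‖⟪v ξ, x (v ξ)⟫_ℂ - ⟪f ξ, x (f ξ)⟫_ℂ‖ ≤ δ * ‖x‖ := by
  have hone := h.norm_one
  have hfe : f = 1 - e := by rw [← hef]; abel
  have hJf : J (f ξ) = f ξ := by
    have : f ξ = ξ - e ξ := by rw [hfe]; rfl
    rw [this, map_sub, h.J_xi, hJe]
  obtain ⟨heA, hes, hee⟩ := he
  obtain ⟨hfA, hfs, hff⟩ := hf
  have hξ0 : ξ ≠ 0 := by
    intro h0; rw [h0, norm_zero] at hone; norm_num at hone
  have hξef : ξ = e ξ + f ξ := by
    have : (e + f) ξ = ξ := by rw [hef]; rfl
    exact this.symm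
  have he0 : e ≠ 0 := by
    intro h0
    rw [h0] at hm
    have h1 : ‖f ξ‖ = 0 := by rw [← hm]; simp
    apply hξ0
    rw [hξef, h0, norm_eq_zero.1 h1]; simp
  have hf0 : f ≠ 0 := by
    intro h0
    rw [h0] at hm
    have h1 : ‖e ξ‖ = 0 := by rw [hm]; simp
    apply hξ0
    rw [hξef, h0, norm_eq_zero.1 h1]; simp
  -- the parameter
  set t : ℝ := min 1 (δ / 22) with ht
  have ht0 : 0 < t := lt_min one_pos (by positivity)
  have ht1 : t ≤ 1 := min_le_left _ _
  have ht2 : 22 * t ≤ δ := by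
    have : t ≤ δ / 22 := min_le_right _ _
    linarith
  have hd0 : 0 < t ^ 2 := by positivity
  have hfin : 5 * t ^ 2 + 4 * Real.sqrt (2 * t ^ 2) ≤ 11 * t := by
    have h1 : Real.sqrt (2 * t ^ 2) ≤ 3 / 2 * t := by
      rw [Real.sqrt_le_left (by positivity)]
      nlinarith
    nlinarith
  obtain ⟨v, hvA, hv, hfv, hve, hΦ, hcase⟩ := exists_maximal h hA ⟨heA, hes, hee⟩
    ⟨hfA, hfs, hff⟩ hef hJe (δ := (t ^ 2) ^ 2) (by positivity)
  have hΦ1 : ‖v (rm J (star v * v) ξ) - (v * star v) (rm J v ξ)‖ ≤ t ^ 2 := by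
    unfold Phi at hΦ
    have h1 : ‖v (rm J (star v * v) ξ) - (v * star v) (rm J v ξ)‖ ^ 2 ≤ (t ^ 2) ^ 2 := by
      have a1 := sq_nonneg ‖(star v * v) (rm J (e - star v * v) ξ)‖
      have a2 := sq_nonneg ‖(f - v * star v) (rm J (v * star v) ξ)‖
      linarith
    exact (sq_le_sq₀ (norm_nonneg _) hd0.le).1 h1
  -- the full partial isometry
  obtain ⟨u, huA, hu1, hu2, hu⟩ : ∃ u ∈ A, star u * u = e ∧ u * star u = f ∧
      ‖u (rm J (star u) ξ) - f ξ‖ ≤ 11 * t := by
    rcases hcase with hc | hc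
    · obtain ⟨u, huA, hu1, hu2, hu⟩ := case1 h hA.toFInf ⟨heA, hes, hee⟩ ⟨hfA, hfs, hff⟩ he0
        hJe hJf hm hd0 hvA hv hfv hc hΦ1
      exact ⟨u, huA, hu1, hu2, hu.trans hfin⟩
    · have hsv : star v * star (star v) * star v = star v := by rw [star_star]; exact star_pi hv
      have hev : e * star v = star v := by
        have := congrArg star hve
        simpa [star_mul, hes] using this
      have hΦ2 : ‖(star v) (rm J (star (star v) * star v) ξ) -
          (star v * star (star v)) (rm J (star v) ξ)‖ ≤ t ^ 2 := by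
        rw [star_star]
        have b1 : J ((star v) (rm J (v * star v) ξ)) = (v * star v) (rm J v ξ) := by
          rw [J_mul h (star_mem hvA) (mul_mem hvA (star_mem hvA)), star_star]
          congr 1
          simp [star_mul]
        have b2 : J ((star v * v) (rm J (star v) ξ)) = v (rm J (star v * v) ξ) := by
          rw [J_mul h (mul_mem (star_mem hvA) hvA) (star_mem hvA), star_star]
          congr 2
          simp [star_mul]
        rw [← h.J_norm, map_sub, b1, b2, norm_sub_rev]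
        exact hΦ1
      obtain ⟨u, huA, hu1, hu2, hu⟩ := case1 h hA.toFInf ⟨hfA, hfs, hff⟩ ⟨heA, hes, hee⟩ hf0
        hJf hJe hm.symm hd0 (star_mem hvA) hsv hev (by rw [star_star]; exact hc) hΦ2
      refine ⟨star u, star_mem huA, by rw [star_star]; exact hu2, by rw [star_star]; exact hu1, ?_⟩
      rw [star_star]
      have huf : u * f = u := mul_eq hfs hff hu1
      have hupi : u * star u * u = u := by rw [mul_assoc, hu1, huf]
      have huspi : star u * star (star u) * star u = star u := by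
        rw [star_star]; exact star_pi hupi
      have hfus : f * star u = star u := by
        have := congrArg star huf
        simpa [star_mul, hfs] using this
      have huse : star u * e = star u := by
        rw [← hu2, ← mul_assoc]; exact star_pi hupi
      have c1 : rm J u ((star u) (u (rm J (star u) ξ))) = f ξ := by
        rw [← apply_mul (star u) u, hu1, rm_comm h hfA huA, rm_mul h, hu1, rm_fix h hfs hJf,
          ← apply_mul, hff]
      have c2 : rm J u ((star u) (e ξ)) = (star u) (rm J u ξ) := by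
        rw [← apply_mul, huse, rm_comm h (star_mem huA) huA]
      have c3 : (star u) (rm J u ξ) - f ξ =
          - rm J u ((star u) (u (rm J (star u) ξ) - e ξ)) := by
        rw [map_sub, rm_sub, c1, c2]; abel
      rw [c3, norm_neg]
      exact ((norm_rm_le h hupi _).trans (norm_pi_le huspi _)).trans (hu.trans hfin)
  refine ⟨u, huA, hu1, hu2, fun x hx => ?_⟩
  have hue : u * e = u := mul_eq hes hee hu1
  have hupi : u * star u * u = u := by rw [mul_assoc, hu1, hue]
  have huspi : star u * star (star u) * star u = star u := by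
    rw [star_star]; exact star_pi hupi
  set p : H := u (rm J (star u) ξ) with hp
  set q : H := f ξ with hq
  have d1 : ⟪u ξ, x (u ξ)⟫_ℂ = ⟪p, x p⟫_ℂ := by
    have a1 : rm J (star e) (u ξ) = u ξ := by
      have : u ξ = u (e ξ) := by rw [← apply_mul, hue]
      rw [hes, this, rm_comm h huA heA, rm_comm h heA heA, rm_fix h hes hJe, ← apply_mul e e, hee]
    rw [← inner_rm h hu1 a1, rm_comm h hx (star_mem huA), rm_comm h huA (star_mem huA)]
  rw [d1]
  have hp1 : ‖p‖ ≤ 1 := by
    have a1 := norm_pi_le hupi (rm J (star u) ξ)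
    have a2 := norm_rm_le h huspi ξ
    rw [hone] at a2
    exact a1.trans a2
  have hq1 : ‖q‖ ≤ 1 := by
    have := norm_proj_le hfs hff ξ
    rwa [hone] at this
  have d2 : ⟪p, x p⟫_ℂ - ⟪q, x q⟫_ℂ = ⟪p - q, x p⟫_ℂ + ⟪q, x (p - q)⟫_ℂ := by
    rw [inner_sub_left, map_sub, inner_sub_right]; ring
  rw [d2]
  have d3 : ‖⟪p - q, x p⟫_ℂ‖ ≤ 11 * t * ‖x‖ := by
    have a1 := norm_inner_le_norm (𝕜 := ℂ) (p - q) (x p)
    have a2 : ‖x p‖ ≤ ‖x‖ := by
      have := x.le_opNorm p
      have h3 := norm_nonneg x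
      nlinarith
    have h4 := norm_nonneg (p - q)
    have h5 := norm_nonneg x
    have h6 := norm_nonneg (x p)
    calc _ ≤ ‖p - q‖ * ‖x p‖ := a1
      _ ≤ ‖p - q‖ * ‖x‖ := by gcongr
      _ ≤ 11 * t * ‖x‖ := by gcongr
  have d4 : ‖⟪q, x (p - q)⟫_ℂ‖ ≤ 11 * t * ‖x‖ := by
    have a1 := norm_inner_le_norm (𝕜 := ℂ) q (x (p - q))
    have a2 := x.le_opNorm (p - q)
    have h5 := norm_nonneg x
    calc _ ≤ ‖q‖ * ‖x (p - q)‖ := a1
      _ ≤ 1 * (‖x‖ * ‖p - q‖) := by gcongr
      _ ≤ 1 * (‖x‖ * (11 * t)) := by gcongr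
      _ = _ := by ring
  have d5 := norm_add_le (⟪p - q, x p⟫_ℂ) (⟪q, x (p - q)⟫_ℂ)
  have h5 := norm_nonneg x
  nlinarith

end Pool.Agent.Helper88.CS

end
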