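import Pool.Agent.Helper23.FA.Ns
import Pool.Agent.Helper23.FA.L02_01
import Pool.Agent.Helper23.FA.L02_02
import Pool.Agent.Helper23.FA.L02_03
import Pool.Agent.Helper23.FA.L02_05
import Pool.Agent.Helper23.FA.L02_06
import Pool.Agent.Helper23.FA.L02_08
import Pool.Agent.Helper23.FA.L02_11
import Pool.Agent.Helper23.FA.L02_12
import Pool.Agent.Helper23.FA.L02_13
import Pool.Agent.Helper23.FA.L02_14

/-!
Parts of Helper70.U8, Helper72.UPow.Near, Helper53.U.Eig, Helper4.PU.U10, Helper5.PU.U11, Helper75.UFlow, Helper78.BC.Main, Helper23.ED.TrA, Helper23.ED.GgC, Helper23.ED.GgD, Helper23.ED.GgA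
-/

section

open scoped InnerProductSpace Topology BoundedContinuousFunction

open ContinuousLinearMap Filter MeasureTheory

namespace Pool.Agent.Helper23

open Pool.Agent.Helper70.U8 Pool.Agent.Helper43.TTF

variable {H : Type*} [NormedAddCommGroup H] [InnerProductSpace ℂ H] [CompleteSpace H]

variable {M N : VonNeumannAlgebra H} {ξ : H} {E : (H →L[ℂ] H) → (H →L[ℂ] H)}

/-- the modular data of a setting, with the modular conjugation -/
theorem Setting.exists_modular_J (S : Setting M N E ξ) :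
    ∃ (R : H →L[ℂ] H) (D : H →L[ℝ] H) (Ψ : (ℝ →ᵇ ℂ) →⋆ₐ[ℂ] (H →L[ℂ] H)) (J : H →L[ℝ] H),
      Modular M ξ R D Ψ ∧ FC R D Ψ ∧ (∃ hJ : JD D Ψ J, ∀ a ∈ M, hJ.cj a ∈ M.commutant) ∧
      ∀ (t : ℝ), ∀ a ∈ N, Ψ (expB t) * a * Ψ (expB (-t)) ∈ N := by
  have h' := ttdata M ξ S.cyc S.sep
  obtain ⟨Ψ, h⟩ := exists_FC h'
  obtain ⟨J, hJ⟩ := h.exists_J h'
  have hmod := modular_of h' S.cyc S.sep h
  refine ⟨_, _, Ψ, J, hmod, h, ⟨hJ, fun a ha => cj_mem h' S.cyc S.dense_comm h hJ ha⟩,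
    fun t a ha => ?_⟩
  set x := Ψ (expB t) * a * Ψ (expB (-t)) with hx
  have hxM : x ∈ M := hmod.mem t a (S.le a ha)
  have hcomm := h.psi_comm _ (p0_R S)
  have hxξ : x ξ = Ψ (expB t) (a ξ) := by
    rw [hx, mul_apply_eq_comp, mul_apply_eq_comp, hmod.psi_xi,
      Pool.Agent.Helper43.TTF.expB_apply, mul_zero,
      Complex.ofReal_zero, zero_mul, Complex.exp_zero, one_smul]
  have h1 : p0 N ξ (x ξ) = x ξ := by
    have h2 := congrArg (fun T : H →L[ℂ] H => T (a ξ)) (hcomm (expB t))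
    simp only [mul_apply_eq_comp] at h2
    rw [hxξ, h2, p0_of_mem (mem_K0 ha)]
  have h3 : (E x - x) ξ = 0 := by
    rw [sub_apply, ← E_apply S hxM, h1, sub_self]
  have h4 := S.sep _ (sub_mem (S.le _ (S.E_mem x hxM)) hxM) h3
  rw [← sub_eq_zero.1 h4]
  exact S.E_mem x hxM

/-- U8: smoothing along the modular group -/
theorem Setting.exists_smooth (S : Setting M N E ξ) :
    ∃ (s : ℕ → (H →L[ℂ] H) → (H →L[ℂ] H)) (C ρ : ℕ → ℝ), Tendsto ρ atTop (𝓝 0) ∧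
      (∀ j, ∀ z ∈ N, s j z ∈ N ∧ ‖s j z‖ ≤ ‖z‖ ∧
        (∃ r ∈ M.commutant, ‖r‖ ≤ C j * ‖z‖ ∧ r ξ = s j z ξ) ∧
        (∃ r ∈ M.commutant, ‖r‖ ≤ C j * ‖z‖ ∧ r ξ = (star (s j z)) ξ)) ∧
      (∀ j, ∀ z ∈ N, ∀ a ∈ M, ∀ r ∈ M.commutant,
        ‖⟪ξ, (s j z) (a ξ)⟫_ℂ - ⟪ξ, z (a ξ)⟫_ℂ‖ ≤
          ‖z‖ * (2 * ‖a ξ - r ξ‖ + ρ j * (‖a‖ + ‖r‖))) ∧
      (∀ j, ∀ z ∈ N, ∀ a ∈ M, ∀ r ∈ M.commutant,
        ‖⟪ξ, a ((s j z) ξ)⟫_ℂ - ⟪ξ, a (z ξ)⟫_ℂ‖ ≤
          ‖z‖ * (2 * ‖(star a) ξ - r ξ‖ + ρ j * (‖a‖ + ‖r‖))) := by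
  obtain ⟨R, D, Ψ, J, h, hF, ⟨hJ, hcj⟩, hN⟩ := S.exists_modular_J
  have hε : ∀ j : ℕ, (0 : ℝ) < 1 / ((j : ℝ) + 1) := fun j => Nat.one_div_pos_of_nat
  refine ⟨fun j z => sm h (kg_int (hε j) 0) z,
    fun j => Real.exp ((1 / 2) ^ 2 / (4 * (1 / ((j : ℝ) + 1)))),
    fun j => 8 * (1 / ((j : ℝ) + 1)), ?_, ?_, ?_, ?_⟩
  · simpa using (tendsto_one_div_add_atTop_nhds_zero_nat (𝕜 := ℝ)).const_mul 8
  · intro j z hz
    refine ⟨sm_mem h _ hN hz, ?_, smooth_right h hF hJ hcj (hε j) (S.le z hz), ?_⟩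
    · have h1 := sm_norm h (kg_int (hε j) 0) z
      rw [kg_integral_norm (hε j)] at h1
      simpa using h1
    · obtain ⟨r, hr, hr1, hr2⟩ := smooth_right h hF hJ hcj (hε j) (star_mem (S.le z hz))
      refine ⟨r, hr, ?_, ?_⟩
      · rwa [norm_star] at hr1
      · rw [hr2, sm_star h _ (kg_real _)]
  · intro j z hz a ha r hr
    have e1 : ⟪ξ, (sm h (kg_int (hε j) 0) z) (a ξ)⟫_ℂ - ⟪ξ, z (a ξ)⟫_ℂ =
        -⟪(star z) ξ, Ψ (1 - Pool.Agent.Helper70.U8.GB _ (hε j) 0) (a ξ)⟫_ℂ := by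
      rw [← G_star, ← psi_adj, ← sub_eq h, ← sm_star h _ (kg_real _), inner_sub_left,
        inner_star_left, inner_star_left]
      ring
    change ‖⟪ξ, (sm h (kg_int (hε j) 0) z) (a ξ)⟫_ℂ - ⟪ξ, z (a ξ)⟫_ℂ‖ ≤ _
    rw [e1, norm_neg]
    refine (norm_inner_le_norm _ _).trans ?_
    refine mul_le_mul ?_ (est h.data hF S.norm_one (hε j) ha hr) (norm_nonneg _) (norm_nonneg _)
    have := (star z).le_opNorm ξ
    rwa [S.norm_one, mul_one, norm_star] at this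
  · intro j z hz a ha r hr
    have e1 : ⟪ξ, a ((sm h (kg_int (hε j) 0) z) ξ)⟫_ℂ - ⟪ξ, a (z ξ)⟫_ℂ =
        -⟪Ψ (1 - Pool.Agent.Helper70.U8.GB _ (hε j) 0) ((star a) ξ), z ξ⟫_ℂ := by
      rw [psi_adj, G_star, ← sub_eq h, inner_sub_right, inner_star_left, inner_star_left]
      ring
    change ‖⟪ξ, a ((sm h (kg_int (hε j) 0) z) ξ)⟫_ℂ - ⟪ξ, a (z ξ)⟫_ℂ‖ ≤ _
    rw [e1, norm_neg]
    refine (norm_inner_le_norm _ _).trans ?_
    rw [mul_comm]
    have h2 := est h.data hF S.norm_one (hε j) (star_mem ha) hr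
    rw [norm_star] at h2
    refine mul_le_mul ?_ h2 (norm_nonneg _) (norm_nonneg _)
    have := z.le_opNorm ξ
    rwa [S.norm_one, mul_one] at this

end Pool.Agent.Helper23

end

section

open scoped InnerProductSpace Topology BoundedContinuousFunction ComplexOrder

open ContinuousLinearMap Filter

namespace Pool.Agent.Helper23

variable {H : Type*} [NormedAddCommGroup H] [InnerProductSpace ℂ H] [CompleteSpace H]

variable {M N : VonNeumannAlgebra H} {ξ : H} {E : (H →L[ℂ] H) → (H →L[ℂ] H)}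

namespace Setting

variable (S : Setting M N E ξ)

include S

lemma lamU_appR {l : ℝ} (hl : 0 < l) {a : ℕ → H →L[ℂ] H} (ha : LamU N ξ l a) :
    a ∈ AppR M ξ := by
  obtain ⟨haN, ⟨C, hC⟩, hD⟩ := ha
  have hC0 : 0 ≤ C := (norm_nonneg _).trans (hC 0)
  refine ⟨fun n => S.le _ (haN n), ⟨C, hC⟩, fun ε hε => ?_⟩
  obtain ⟨δ, hδ, h⟩ := S.exists_near_right hl hC0 hε
  classical
  refine ⟨fun n => if h' : Defect N ξ l δ (a n) then (h (a n) (haN n) (hC n) h').choose else 0,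
    fun n => ?_, ⟨Real.sqrt l * C, fun n => ?_⟩, ?_⟩
  · dsimp only
    split_ifs with h'
    · exact (h (a n) (haN n) (hC n) h').choose_spec.1
    · exact zero_mem _
  · dsimp only
    split_ifs with h'
    · exact (h (a n) (haN n) (hC n) h').choose_spec.2.1
    · rw [norm_zero]; positivity
  · filter_upwards [hD δ hδ] with n hn
    rw [dif_pos hn]
    exact (h (a n) (haN n) (hC n) hn).choose_spec.2.2

theorem lamU_appS {l : ℝ} (hl : 0 < l) {a : ℕ → H →L[ℂ] H} (ha : LamU N ξ l a) :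
    a ∈ AppS M ξ :=
  ⟨S.lamU_appR hl ha, S.lamU_appR (inv_pos.2 hl) (lamU_star hl ha)⟩

end Setting

end Pool.Agent.Helper23

end

section

open scoped InnerProductSpace Topology BoundedContinuousFunction

open ContinuousLinearMap Filter

namespace Pool.Agent.Helper23

universe u

variable {H : Type u} [NormedAddCommGroup H] [InnerProductSpace ℂ H] [CompleteSpace H]

variable {K : Type u} [NormedAddCommGroup K] [InnerProductSpace ℂ K] [CompleteSpace K]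

variable {M N : VonNeumannAlgebra H} {ξ : H} {E : (H →L[ℂ] H) → (H →L[ℂ] H)}

namespace Oc

variable {MT NT : VonNeumannAlgebra K} {ET : (K →L[ℂ] K) → (K →L[ℂ] K)} {ζ : K}
  {rep : (ℕ → H →L[ℂ] H) → (K →L[ℂ] K)} (O : Oc M N E ξ MT NT ET ζ rep)

include O

/-- U9a -/
theorem eig_of_lamU (S : Setting M N E ξ) {l : ℝ} (hl : 0 < l) {a : ℕ → H →L[ℂ] H}
    (ha : LamU N ξ l a) : rep a ∈ eig NT ζ l := by
  have haS := S.lamU_appS hl ha
  refine ⟨O.memN a haS ha.1, fun X hX => ?_⟩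
  obtain ⟨x, hxS, hxN, hxb, rfl⟩ := O.surjN X hX
  have h1 := O.inner_one (AppS_mul hxS haS)
  have h2 := (O.inner_one (AppS_mul haS hxS)).const_mul (l : ℂ)
  rw [O.mul x hxS a haS] at h1
  rw [O.mul a haS x hxS] at h2
  have h3 : Tendsto (fun n => ⟪ξ, (x n * a n) ξ⟫_ℂ - (l : ℂ) * ⟪ξ, (a n * x n) ξ⟫_ℂ)
      (UU : Filter ℕ) (𝓝 0) := by
    rw [tendsto_zero_iff_norm_tendsto_zero, Metric.tendsto_nhds]
    intro ε hε
    have hC : 0 ≤ 2 * ‖rep x‖ := by positivity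
    filter_upwards [ha.2.2 (ε / (2 * ‖rep x‖ + 1)) (by positivity)] with n hn
    rw [Real.dist_eq, sub_zero, abs_of_nonneg (norm_nonneg _)]
    refine lt_of_le_of_lt (hn (x n) (hxN n)) ?_
    calc ε / (2 * ‖rep x‖ + 1) * ‖x n‖ ≤ ε / (2 * ‖rep x‖ + 1) * (2 * ‖rep x‖) := by
          gcongr; exact hxb n
      _ < ε / (2 * ‖rep x‖ + 1) * (2 * ‖rep x‖ + 1) := by
          apply mul_lt_mul_of_pos_left _ (by positivity)
          linarith
      _ = ε := by field_simp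
  have h4 := tendsto_nhds_unique (h1.sub h2) h3
  exact sub_eq_zero.1 h4

/-- U9c -/
theorem mem_Gam (S : Setting M N E ξ)
    (NN : ∀ l : ℝ, 0 < l → ∃ a, LamSeq N ξ l a ∧ ¬ Tendsto (fun n => a n ξ) atTop (𝓝 0))
    {l : ℝ} (hl : 0 < l) : l ∈ Gam NT ζ := by
  obtain ⟨a, ha, hna⟩ := NN l hl
  rw [Metric.tendsto_atTop] at hna
  push Not at hna
  obtain ⟨ε, hε, hfr⟩ := hna
  have hfr' : ∃ᶠ n in atTop, ε ≤ ‖a n ξ‖ := by
    rw [Filter.frequently_atTop]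
    intro m
    obtain ⟨n, hn, h⟩ := hfr m
    exact ⟨n, hn, by simpa [dist_zero_right] using h⟩
  obtain ⟨φ, hφ, hφ'⟩ := Filter.extraction_of_frequently_atTop hfr'
  have hb := (ha.subseq hφ).lamU
  refine ⟨hl, rep (fun n => a (φ n)), O.eig_of_lamU S hl hb, ?_⟩
  intro h0
  have hbS := S.lamU_appS hl hb
  have h1 := O.inner _ hbS _ hbS
  rw [h0, zero_apply, inner_zero_left] at h1
  have h2 : ∀ n, ε ^ 2 ≤ ‖⟪a (φ n) ξ, a (φ n) ξ⟫_ℂ‖ := by
    intro n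
    rw [inner_self_eq_norm_sq_to_K]
    have : ‖((‖a (φ n) ξ‖ : ℂ)) ^ 2‖ = ‖a (φ n) ξ‖ ^ 2 := by
      rw [norm_pow, Complex.norm_real, norm_norm]
    refine le_trans ?_ (le_of_eq this.symm)
    exact pow_le_pow_left₀ hε.le (hφ' n) 2
  have h3 := h1.norm
  rw [norm_zero] at h3
  have h4 := ge_of_tendsto' h3 h2
  have : 0 < ε ^ 2 := by positivity
  linarith

/-- U9b -/
theorem ap (S : Setting M N E ξ) (TB : ∀ x ∈ Bicent N N ξ, ∃ c : ℂ, x = c • 1)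
    (NN : ∀ l : ℝ, 0 < l → ∃ a, LamSeq N ξ l a ∧ ¬ Tendsto (fun n => a n ξ) atTop (𝓝 0)) :
    AP MT NT ET ζ where
  toSetting := O.set
  dns := by
    intro a b ha hab
    exact ⟨(a + b) / 2, O.mem_Gam S NN (by linarith), by linarith, by linarith⟩
  irr := by
    intro X hX hcomm
    obtain ⟨x, hxS, hxN, hxb, hXx⟩ := O.surjN X hX
    set c : ℕ → ℂ := fun n => -⟪ξ, x n ξ⟫_ℂ with hc
    have hcb : Bdd c := by
      refine ⟨2 * ‖X‖, fun n => ?_⟩
      simp only [hc, norm_neg]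
      calc ‖⟪ξ, x n ξ⟫_ℂ‖ ≤ ‖ξ‖ * ‖x n ξ‖ := norm_inner_le_norm _ _
        _ ≤ ‖ξ‖ * (‖x n‖ * ‖ξ‖) := by gcongr; exact le_opNorm _ _
        _ = ‖x n‖ := by rw [S.norm_one]; ring
        _ ≤ _ := hxb n
    obtain ⟨c', hc'⟩ := O.rep_scalar S hcb
    have hcS : (fun n => c n • (1 : H →L[ℂ] H)) ∈ AppS M ξ := AppS_scalar hcb
    set y : ℕ → H →L[ℂ] H := fun n => x n + c n • (1 : H →L[ℂ] H) with hy
    have hyS : y ∈ AppS M ξ := AppS_add hxS hcS
    have hyN : ∀ n, y n ∈ N := fun n => add_mem (hxN n) (smul_mem' _ (one_mem N))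
    have hyX : rep y = X + c' • 1 := by
      rw [hy, O.add x hxS _ hcS, ← hXx, hc']
    have hy0 : ∀ n, ⟪ξ, y n ξ⟫_ℂ = 0 := by
      intro n
      simp only [hy, hc, add_apply, inner_add_right]
      have : ((-⟪ξ, x n ξ⟫_ℂ) • (1 : H →L[ℂ] H)) ξ = (-⟪ξ, x n ξ⟫_ℂ) • ξ := rfl
      rw [this, inner_smul_right, S.inner_self]
      ring
    have hex : ∀ n : ℕ, ∃ u ∈ N, Star.star u * u = 1 ∧ u * Star.star u = 1 ∧
        Defect N ξ 1 (1 / ((n : ℝ) + 1)) u ∧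
        (⟪y n ξ, (Star.star u * y n * u) ξ⟫_ℂ).re < 1 / ((n : ℝ) + 1) := by
      intro n
      by_contra hcon
      push Not at hcon
      have hpos : (0 : ℝ) < 1 / ((n : ℝ) + 1) := by positivity
      have := S.avgA TB (hyN n) (y n ξ) ξ hpos (c := 1 / ((n : ℝ) + 1))
        (fun u hu h1 h2 h3 => hcon u hu h1 h2 h3)
      rw [hy0 n, zero_mul, Complex.zero_re] at this
      linarith
    choose u huN hu1 hu2 huD hure using hex
    have huL : LamU N ξ 1 u := by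
      refine ⟨huN, ⟨1, fun n => norm_le_one_of_isom (hu1 n)⟩, fun ε hε => ?_⟩
      have h1 : ∀ᶠ n : ℕ in atTop, 1 / ((n : ℝ) + 1) < ε :=
        (tendsto_one_div_add_atTop_nhds_zero_nat (𝕜 := ℝ)).eventually (gt_mem_nhds hε)
      exact (h1.filter_mono UU_le_atTop).mono fun n hn => (huD n).mono hn.le
    have huS := S.lamU_appS one_pos huL
    have hU := O.eig_of_lamU S one_pos huL
    have hUX := hcomm _ hU
    have hUY : rep u * rep y = rep y * rep u := by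
      rw [hyX, mul_add, add_mul, hUX, mul_smul_comm, smul_mul_assoc, mul_one, one_mul]
    have hUU : Star.star (rep u) * rep u = 1 := by
      rw [← O.star u huS, ← O.mul _ (AppS_star huS) _ huS]
      simp only [hu1]
      exact O.one
    -- the limit
    have h1 := O.inner y hyS _ (AppS_mul (AppS_mul (AppS_star huS) hyS) huS)
    rw [O.mul _ (AppS_mul (AppS_star huS) hyS) _ huS, O.mul _ (AppS_star huS) _ hyS,
      O.star u huS] at h1
    have h2 : Star.star (rep u) * rep y * rep u = rep y := by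
      rw [mul_assoc, ← hUY, ← mul_assoc, hUU, one_mul]
    rw [h2] at h1
    have h3 := (Complex.continuous_re.tendsto _).comp h1
    have h4 : Tendsto (fun n : ℕ => 1 / ((n : ℝ) + 1)) (UU : Filter ℕ) (𝓝 0) :=
      (tendsto_one_div_add_atTop_nhds_zero_nat (𝕜 := ℝ)).mono_left UU_le_atTop
    have h5 : (⟪rep y ζ, rep y ζ⟫_ℂ).re ≤ 0 :=
      le_of_tendsto_of_tendsto' h3 h4 fun n => (hure n).le
    have h6 : rep y ζ = 0 := by
      have h7 : 0 ≤ (⟪rep y ζ, rep y ζ⟫_ℂ).re := inner_self_nonneg (𝕜 := ℂ)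
      have h8 : (⟪rep y ζ, rep y ζ⟫_ℂ).re = ‖rep y ζ‖ ^ 2 := by
        rw [inner_self_eq_norm_sq_to_K]
        norm_cast
      have h9 : ‖rep y ζ‖ ^ 2 = 0 := by rw [← h8]; exact le_antisymm h5 h7
      exact norm_eq_zero.1 (pow_eq_zero_iff (two_ne_zero) |>.1 h9)
    have h7 := O.set.sep _ (O.memM _ hyS) h6
    refine ⟨-c', ?_⟩
    rw [hyX] at h7
    rw [neg_smul]
    exact eq_neg_of_add_eq_zero_left h7

end Oc

end Pool.Agent.Helper23

end

section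

open scoped InnerProductSpace Topology

open ContinuousLinearMap Filter

namespace Pool.Agent.Helper23

universe u

variable {H : Type u} [NormedAddCommGroup H] [InnerProductSpace ℂ H] [CompleteSpace H]

variable {K : Type u} [NormedAddCommGroup K] [InnerProductSpace ℂ K] [CompleteSpace K]

variable {M N : VonNeumannAlgebra H} {ξ : H} {E : (H →L[ℂ] H) → (H →L[ℂ] H)}

open U10

namespace Oc

variable {MT NT : VonNeumannAlgebra K} {ET : (K →L[ℂ] K) → (K →L[ℂ] K)} {ζ : K}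
  {rep : (ℕ → H →L[ℂ] H) → (K →L[ℂ] K)} (O : Oc M N E ξ MT NT ET ζ rep)

include O

/-- U10a -/
theorem defect (S : Setting M N E ξ) {l δ δ' : ℝ} (hl : 0 < l) (hδ0 : 0 ≤ δ) (hδ : δ < δ')
    {a : ℕ → H →L[ℂ] H} (ha : a ∈ AppS M ξ) (haN : ∀ n, a n ∈ N)
    (hD : Defect NT ζ l δ (rep a)) : ∀ᶠ n in (UU : Filter ℕ), Defect N ξ l δ' (a n) := by
  by_contra hcon
  have hcon' := not_eventually hcon
  -- the test elements
  have hz : ∀ n, ∃ z ∈ N, ‖z‖ ≤ 1 ∧ (¬ Defect N ξ l δ' (a n) →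
      δ' < ‖⟪ξ, z (a n ξ)⟫_ℂ - l * ⟪ξ, a n (z ξ)⟫_ℂ‖) := by
    intro n
    by_cases hn : Defect N ξ l δ' (a n)
    · exact ⟨0, zero_mem N, by simp, fun h => absurd hn h⟩
    · have hn2 := hn
      rw [Defect] at hn2
      push Not at hn2
      obtain ⟨z, hzN, hz⟩ := hn2
      have hz0 : 0 < ‖z‖ := by
        rw [norm_pos_iff]
        rintro rfl
        simp at hz
      refine ⟨((‖z‖⁻¹ : ℝ) : ℂ) • z, smul_mem' _ hzN, ?_, fun _ => ?_⟩
      · rw [norm_smul, Complex.norm_real, norm_inv, norm_norm, inv_mul_cancel₀ hz0.ne']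
      · have e1 : ⟪ξ, (((‖z‖⁻¹ : ℝ) : ℂ) • z) (a n ξ)⟫_ℂ -
            l * ⟪ξ, a n ((((‖z‖⁻¹ : ℝ) : ℂ) • z) ξ)⟫_ℂ =
            ((‖z‖⁻¹ : ℝ) : ℂ) * (⟪ξ, z (a n ξ)⟫_ℂ - l * ⟪ξ, a n (z ξ)⟫_ℂ) := by
          rw [smul_apply, smul_apply, map_smul, inner_smul_right, inner_smul_right]
          ring
        rw [e1, norm_mul, Complex.norm_real, norm_inv, norm_norm]
        rw [inv_mul_eq_div, lt_div_iff₀ hz0]
        exact hz
  choose z hzN hz1 hzd using hz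
  obtain ⟨s, C, ρ, hρ, hs, hs1, hs2⟩ := S.exists_smooth
  -- the smoothed sequences
  have hZ : ∀ j, (fun n => s j (z n)) ∈ AppS M ξ := by
    intro j
    have hb : ∀ n, ‖s j (z n)‖ ≤ 1 := fun n => ((hs j (z n) (hzN n)).2.1).trans (hz1 n)
    choose r hr hrn hrξ using fun n => (hs j (z n) (hzN n)).2.2.1
    choose r' hr' hrn' hrξ' using fun n => (hs j (z n) (hzN n)).2.2.2
    have bd : ∀ n, C j * ‖z n‖ ≤ |C j| := fun n => by
      calc C j * ‖z n‖ ≤ |C j| * ‖z n‖ := mul_le_mul_of_nonneg_right (le_abs_self _) (norm_nonneg _)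
        _ ≤ |C j| * 1 := mul_le_mul_of_nonneg_left (hz1 n) (abs_nonneg _)
        _ = |C j| := mul_one _
    refine ⟨⟨fun n => S.le _ (hs j (z n) (hzN n)).1, ⟨1, hb⟩, fun ε hε => ⟨r, hr,
      ⟨|C j|, fun n => (hrn n).trans (bd n)⟩, ?_⟩⟩,
      ⟨fun n => star_mem (S.le _ (hs j (z n) (hzN n)).1), ⟨1, fun n => ?_⟩, fun ε hε => ⟨r', hr',
      ⟨|C j|, fun n => (hrn' n).trans (bd n)⟩, ?_⟩⟩⟩
    · filter_upwards with n
      rw [hrξ, sub_self, norm_zero]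
      exact hε.le
    · rw [norm_star]; exact hb n
    · filter_upwards with n
      rw [hrξ', sub_self, norm_zero]
      exact hε.le
  -- constants
  obtain ⟨A, hA0, hA⟩ := U2.bdd_nonneg ha.1.2.1
  set g : ℝ := δ' - δ with hg
  have hg0 : 0 < g := sub_pos.2 hδ
  set e : ℝ := g / (16 * (1 + l)) with he
  have he0 : 0 < e := by positivity
  obtain ⟨r, hr, hrB, hre⟩ := ha.1.2.2 e he0
  obtain ⟨r', hr', hrB', hre'⟩ := ha.2.2.2 e he0
  obtain ⟨B, hB0, hB⟩ := U2.bdd_nonneg hrB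
  obtain ⟨B', hB0', hB'⟩ := U2.bdd_nonneg hrB'
  obtain ⟨j, hj⟩ : ∃ j, |ρ j| * ((A + B) + l * (A + B')) ≤ g / 8 := by
    have h1 : Tendsto (fun j => |ρ j| * ((A + B) + l * (A + B'))) atTop (𝓝 0) := by
      have := (hρ.abs).mul_const ((A + B) + l * (A + B'))
      simpa using this
    have h2 := (h1.eventually (gt_mem_nhds (by positivity : (0 : ℝ) < g / 8))).exists
    obtain ⟨j, hj⟩ := h2
    exact ⟨j, hj.le⟩
  have hZj := hZ j
  set Z : ℕ → H →L[ℂ] H := fun n => s j (z n) with hZdef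
  have hZN : ∀ n, Z n ∈ N := fun n => (hs j (z n) (hzN n)).1
  have hZn : ∀ n, ‖Z n‖ ≤ 1 := fun n => ((hs j (z n) (hzN n)).2.1).trans (hz1 n)
  have hrepZ : rep Z ∈ NT := O.memN Z hZj hZN
  have hrepZn : ‖rep Z‖ ≤ 1 := O.norm Z hZj 1 hZn
  have hD' := hD (rep Z) hrepZ
  have t1 := O.U10_state S (appS_mul hZj ha)
  have t2 := O.U10_state S (appS_mul ha hZj)
  rw [O.mul _ hZj _ ha] at t1
  rw [O.mul _ ha _ hZj] at t2
  have t3 : Tendsto (fun n => ‖⟪ξ, (Z n * a n) ξ⟫_ℂ - l * ⟪ξ, (a n * Z n) ξ⟫_ℂ‖) (UU : Filter ℕ)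
      (𝓝 ‖⟪ζ, (rep Z * rep a) ζ⟫_ℂ - l * ⟪ζ, (rep a * rep Z) ζ⟫_ℂ‖) :=
    (t1.sub (t2.const_mul _)).norm
  have t4 : ‖⟪ζ, (rep Z * rep a) ζ⟫_ℂ - l * ⟪ζ, (rep a * rep Z) ζ⟫_ℂ‖ < δ + g / 8 := by
    have h1 : ‖⟪ζ, (rep Z * rep a) ζ⟫_ℂ - l * ⟪ζ, (rep a * rep Z) ζ⟫_ℂ‖ ≤ δ * ‖rep Z‖ := hD'
    have h2 : δ * ‖rep Z‖ ≤ δ * 1 := mul_le_mul_of_nonneg_left hrepZn hδ0
    linarith
  have t5 := t3.eventually (gt_mem_nhds t4)
  have hUU : (UU : Filter ℕ).NeBot := Ultrafilter.neBot _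
  obtain ⟨n, h1, h2, h3, h4⟩ := (hcon'.and (t5.and (hre.and hre'))).exists
  have k1 := hzd n h1
  have k2 := hs1 j (z n) (hzN n) (a n) (S.le _ (haN n)) (r n) (hr n)
  have k3 := hs2 j (z n) (hzN n) (a n) (S.le _ (haN n)) (r' n) (hr' n)
  have k4 : ‖⟪ξ, Z n (a n ξ)⟫_ℂ - ⟪ξ, z n (a n ξ)⟫_ℂ‖ ≤ 2 * e + |ρ j| * (A + B) := by
    refine k2.trans ?_
    have h5 : 2 * ‖a n ξ - r n ξ‖ + ρ j * (‖a n‖ + ‖r n‖) ≤ 2 * e + |ρ j| * (A + B) := by
      have h6 : ρ j * (‖a n‖ + ‖r n‖) ≤ |ρ j| * (A + B) :=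
        mul_le_mul (le_abs_self _) (add_le_add (hA n) (hB n)) (by positivity) (abs_nonneg _)
      linarith
    calc ‖z n‖ * (2 * ‖a n ξ - r n ξ‖ + ρ j * (‖a n‖ + ‖r n‖))
        ≤ ‖z n‖ * (2 * e + |ρ j| * (A + B)) := mul_le_mul_of_nonneg_left h5 (norm_nonneg _)
      _ ≤ 1 * (2 * e + |ρ j| * (A + B)) := mul_le_mul_of_nonneg_right (hz1 n) (by positivity)
      _ = _ := one_mul _
  have k5 : ‖⟪ξ, a n (Z n ξ)⟫_ℂ - ⟪ξ, a n (z n ξ)⟫_ℂ‖ ≤ 2 * e + |ρ j| * (A + B') := by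
    refine k3.trans ?_
    have h5 : 2 * ‖(Star.star (a n)) ξ - r' n ξ‖ + ρ j * (‖a n‖ + ‖r' n‖) ≤
        2 * e + |ρ j| * (A + B') := by
      have h6 : ρ j * (‖a n‖ + ‖r' n‖) ≤ |ρ j| * (A + B') :=
        mul_le_mul (le_abs_self _) (add_le_add (hA n) (hB' n)) (by positivity) (abs_nonneg _)
      linarith
    calc ‖z n‖ * (2 * ‖(Star.star (a n)) ξ - r' n ξ‖ + ρ j * (‖a n‖ + ‖r' n‖))
        ≤ ‖z n‖ * (2 * e + |ρ j| * (A + B')) := mul_le_mul_of_nonneg_left h5 (norm_nonneg _)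
      _ ≤ 1 * (2 * e + |ρ j| * (A + B')) := mul_le_mul_of_nonneg_right (hz1 n) (by positivity)
      _ = _ := one_mul _
  have k6 : ‖⟪ξ, z n (a n ξ)⟫_ℂ - l * ⟪ξ, a n (z n ξ)⟫_ℂ‖ ≤
      ‖⟪ξ, Z n (a n ξ)⟫_ℂ - l * ⟪ξ, a n (Z n ξ)⟫_ℂ‖ +
      ‖⟪ξ, Z n (a n ξ)⟫_ℂ - ⟪ξ, z n (a n ξ)⟫_ℂ‖ +
      l * ‖⟪ξ, a n (Z n ξ)⟫_ℂ - ⟪ξ, a n (z n ξ)⟫_ℂ‖ := by
    have e1 : ⟪ξ, z n (a n ξ)⟫_ℂ - l * ⟪ξ, a n (z n ξ)⟫_ℂ =
        (⟪ξ, Z n (a n ξ)⟫_ℂ - l * ⟪ξ, a n (Z n ξ)⟫_ℂ) -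
        (⟪ξ, Z n (a n ξ)⟫_ℂ - ⟪ξ, z n (a n ξ)⟫_ℂ) +
        l * (⟪ξ, a n (Z n ξ)⟫_ℂ - ⟪ξ, a n (z n ξ)⟫_ℂ) := by ring
    have e2 : ‖(l : ℂ) * (⟪ξ, a n (Z n ξ)⟫_ℂ - ⟪ξ, a n (z n ξ)⟫_ℂ)‖ =
        l * ‖⟪ξ, a n (Z n ξ)⟫_ℂ - ⟪ξ, a n (z n ξ)⟫_ℂ‖ := by
      rw [norm_mul, Complex.norm_real, Real.norm_of_nonneg hl.le]
    rw [e1]
    refine (norm_add_le _ _).trans ?_
    rw [e2]
    exact add_le_add (norm_sub_le _ _) le_rfl
  have k7 : ‖⟪ξ, Z n (a n ξ)⟫_ℂ - l * ⟪ξ, a n (Z n ξ)⟫_ℂ‖ < δ + g / 8 := h2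
  have k8 : 2 * e * (1 + l) = g / 8 := by
    rw [he]
    field_simp
    ring
  have k9 : l * ‖⟪ξ, a n (Z n ξ)⟫_ℂ - ⟪ξ, a n (z n ξ)⟫_ℂ‖ ≤ l * (2 * e + |ρ j| * (A + B')) :=
    mul_le_mul_of_nonneg_left k5 hl.le
  have : δ' < δ + g / 8 + (2 * e * (1 + l)) + |ρ j| * ((A + B) + l * (A + B')) := by
    linarith
  rw [k8] at this
  linarith

/-- U10a' -/
theorem exists_lamU (S : Setting M N E ξ) {l : ℝ} (hl : 0 < l) {A : K →L[ℂ] K}
    (hA : A ∈ eig NT ζ l) : ∃ a, LamU N ξ l a ∧ (∀ n, ‖a n‖ ≤ 2 * ‖A‖) ∧ A = rep a := by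
  obtain ⟨a, ha, haN, han, rfl⟩ := O.surjN A hA.1
  refine ⟨a, ⟨haN, ⟨_, han⟩, fun ε hε => ?_⟩, han, rfl⟩
  exact O.defect S hl le_rfl hε ha haN (Defect.of_eig le_rfl hA)

/-- U10b: saturation -/
theorem rel_approx (S : Setting M N E ξ) {l : ℝ} (hl : 0 < l) {x y : ℕ → H →L[ℂ] H}
    (hx : x ∈ AppS M ξ) (hy : y ∈ AppS M ξ)
    (h : ∀ A ∈ eig NT ζ l, A * rep x = rep y * A) (C : ℝ) {ε : ℝ} (hε : 0 < ε) :
    ∃ δ : ℝ, 0 < δ ∧ ∀ᶠ n in (UU : Filter ℕ), ∀ a ∈ N, ‖a‖ ≤ C → Defect N ξ l δ a →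
      ‖(a * x n - y n * a) ξ‖ ≤ ε := by
  by_contra hcon
  push Not at hcon
  have h1 : ∀ k : ℕ, ∀ᶠ n in (UU : Filter ℕ), ∃ a ∈ N, ‖a‖ ≤ C ∧
      Defect N ξ l (1 / ((k : ℝ) + 1)) a ∧ ε < ‖(a * x n - y n * a) ξ‖ := by
    intro k
    have h2 := hcon (1 / ((k : ℝ) + 1)) (by positivity)
    exact h2
  obtain ⟨k, hk, hk'⟩ := exists_diag h1
  classical
  set a : ℕ → H →L[ℂ] H := fun n => if hn : ∃ a ∈ N, ‖a‖ ≤ C ∧
      Defect N ξ l (1 / ((k n : ℝ) + 1)) a ∧ ε < ‖(a * x n - y n * a) ξ‖ then hn.choose else 0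
    with ha
  have haN : ∀ n, a n ∈ N := by
    intro n
    simp only [ha]
    split_ifs with hn
    · exact hn.choose_spec.1
    · exact zero_mem N
  have haB : Bdd a := by
    refine ⟨|C|, fun n => ?_⟩
    simp only [ha]
    split_ifs with hn
    · exact hn.choose_spec.2.1.trans (le_abs_self C)
    · rw [norm_zero]; exact abs_nonneg C
  have hev : ∀ᶠ n in (UU : Filter ℕ), Defect N ξ l (1 / ((k n : ℝ) + 1)) (a n) ∧
      ε < ‖(a n * x n - y n * a n) ξ‖ := by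
    filter_upwards [hk] with n hn
    simp only [ha]
    rw [dif_pos hn]
    exact hn.choose_spec.2.2
  have hLam : LamU N ξ l a := by
    refine ⟨haN, haB, fun η hη => ?_⟩
    obtain ⟨m, hm⟩ := exists_nat_one_div_lt hη
    filter_upwards [hev, hk' m] with n hn hmn
    refine hn.1.mono (le_trans ?_ hm.le)
    have : (m : ℝ) ≤ k n := by exact_mod_cast hmn
    exact one_div_le_one_div_of_le (by positivity) (by linarith)
  have haS := S.lamU_appS hl hLam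
  obtain ⟨hw, hrw⟩ := O.U10_comm hx hy haS
  have h5 : rep (fun n => a n * x n - y n * a n) = 0 := by
    rw [hrw, h _ (O.eig_of_lamU S hl hLam), sub_self]
  have h6 := O.U10_norm hw
  rw [h5] at h6
  simp only [zero_apply, norm_zero] at h6
  have h7 := h6.eventually (gt_mem_nhds hε)
  have hUU : (UU : Filter ℕ).NeBot := Ultrafilter.neBot _
  obtain ⟨n, h8, h9⟩ := (h7.and hev).exists
  linarith [h9.2]

/-- U10c -/
theorem bicent_of_Qalg (S : Setting M N E ξ) {z : K →L[ℂ] K} (hz : z ∈ Qalg MT NT ζ) :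
    z ∈ Bicent MT NT ζ := by
  rw [mem_Qalg] at hz
  obtain ⟨hzM, hzc⟩ := hz
  refine ⟨hzM, fun A hA η => ?_⟩
  obtain ⟨hAN, ⟨C, hC⟩, hAD⟩ := hA
  have hC0 : 0 ≤ C := (norm_nonneg _).trans (hC 0)
  obtain ⟨x, hx, -, hzx⟩ := O.surjM z hzM
  have key : Tendsto (fun n => (z * A n - A n * z) ζ) atTop (𝓝 0) := by
    rw [tendsto_zero_iff_norm_tendsto_zero]
    rw [Metric.tendsto_atTop]
    intro ε hε
    obtain ⟨δ, hδ, hev⟩ := O.rel_approx S one_pos hx hx (by rw [← hzx]; exact hzc) (2 * C)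
      (half_pos hε)
    obtain ⟨n₀, hn₀⟩ := eventually_atTop.1 (hAD (δ / 2) (half_pos hδ))
    refine ⟨n₀, fun n hn => ?_⟩
    obtain ⟨a, ha, haN, han, hAa⟩ := O.surjN (A n) (hAN n)
    have hD := hn₀ n hn
    rw [hAa] at hD
    have h1 := O.defect S one_pos (half_pos hδ).le (half_lt_self hδ) ha haN hD
    obtain ⟨hw, hrw⟩ := O.U10_comm hx hx ha
    have h2 := O.U10_norm hw
    have h3 : ‖rep (fun n => a n * x n - x n * a n) ζ‖ ≤ ε / 2 := by
      refine le_of_tendsto h2 ?_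
      filter_upwards [hev, h1] with m hm1 hm2
      refine hm1 (a m) (haN m) ?_ hm2
      exact (han m).trans (mul_le_mul_of_nonneg_left (hC n) (by norm_num))
    rw [hrw, ← hAa, ← hzx] at h3
    rw [Real.dist_eq, sub_zero, abs_of_nonneg (norm_nonneg _)]
    have e1 : (z * A n - A n * z) ζ = -((A n * z - z * A n) ζ) := by
      simp only [sub_apply]
      abel
    rw [e1, norm_neg]
    linarith
  have h4 := tendsto_of_bounded MT O.set.dense_comm (x := fun n => z * A n - A n * z)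
    (C := 2 * (‖z‖ * C)) (fun n => sub_mem (mul_mem hzM (O.set.le _ (hAN n)))
      (mul_mem (O.set.le _ (hAN n)) hzM)) (fun n => by
      refine (norm_sub_le _ _).trans ?_
      have h5 : ‖z * A n‖ ≤ ‖z‖ * C :=
        (norm_mul_le _ _).trans (mul_le_mul_of_nonneg_left (hC n) (norm_nonneg _))
      have h6 : ‖A n * z‖ ≤ ‖z‖ * C := by
        refine (norm_mul_le _ _).trans ?_
        rw [mul_comm]
        exact mul_le_mul_of_nonneg_left (hC n) (norm_nonneg _)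
      linarith) key η
  exact h4

/-- U10d -/
theorem const_mem_Qalg (S : Setting M N E ξ) {x : H →L[ℂ] H} (hx : x ∈ Bicent M N ξ) :
    rep (fun _ => x) ∈ Qalg MT NT ζ := by
  have hxM : x ∈ M := hx.1
  have hxS := appS_const S hxM
  have hrM := O.memM _ hxS
  rw [mem_Qalg]
  refine ⟨hrM, fun A hA => ?_⟩
  obtain ⟨a, haL, han, hAa⟩ := O.exists_lamU S one_pos hA
  have haS := S.lamU_appS one_pos haL
  -- modulus of continuity
  have hmod : ∀ ε : ℝ, 0 < ε → ∃ δ : ℝ, 0 < δ ∧ ∀ b ∈ N, ‖b‖ ≤ 2 * ‖A‖ → Defect N ξ 1 δ b →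
      ‖(b * x - x * b) ξ‖ ≤ ε := by
    intro ε hε
    by_contra hcon
    push Not at hcon
    choose b hbN hbn hbD hbε using fun k : ℕ => hcon (1 / ((k : ℝ) + 1)) (by positivity)
    have hb : LamSeq N ξ 1 b := by
      refine ⟨hbN, ⟨_, hbn⟩, fun η hη => ?_⟩
      obtain ⟨m, hm⟩ := exists_nat_one_div_lt hη
      filter_upwards [eventually_ge_atTop m] with n hn
      refine (hbD n).mono (le_trans ?_ hm.le)
      have : (m : ℝ) ≤ n := by exact_mod_cast hn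
      exact one_div_le_one_div_of_le (by positivity) (by linarith)
    have h1 := (hx.2 b hb ξ).norm
    rw [norm_zero] at h1
    obtain ⟨n, hn⟩ := (h1.eventually (gt_mem_nhds hε)).exists
    have h2 := hbε n
    have e1 : (b n * x - x * b n) ξ = -(x (b n ξ) - b n (x ξ)) := by
      change b n (x ξ) - x (b n ξ) = _
      abel
    rw [e1, norm_neg] at h2
    linarith
  obtain ⟨hw, hrw⟩ := O.U10_comm hxS hxS haS
  have h2 := O.U10_norm hw
  have h3 : ‖rep (fun n => a n * x - x * a n) ζ‖ = 0 := by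
    refine le_antisymm (le_of_forall_pos_le_add fun ε hε => ?_) (norm_nonneg _)
    rw [zero_add]
    obtain ⟨δ, hδ, hb⟩ := hmod ε hε
    refine le_of_tendsto h2 ?_
    filter_upwards [haL.2.2 δ hδ] with n hn
    exact hb (a n) (haL.1 n) (han n) hn
  rw [norm_eq_zero] at h3
  have h4 : rep (fun n => a n * x - x * a n) = 0 := O.set.sep _ (O.memM _ hw) h3
  rw [hrw, ← hAa, sub_eq_zero] at h4
  exact h4

end Oc

end Pool.Agent.Helper23

end

section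

open scoped InnerProductSpace Topology BoundedContinuousFunction

open ContinuousLinearMap Filter

namespace Pool.Agent.Helper23

universe u

variable {H : Type u} [NormedAddCommGroup H] [InnerProductSpace ℂ H] [CompleteSpace H]

variable {K : Type u} [NormedAddCommGroup K] [InnerProductSpace ℂ K] [CompleteSpace K]

variable {M N : VonNeumannAlgebra H} {ξ : H} {E : (H →L[ℂ] H) → (H →L[ℂ] H)}

namespace Oc

variable {MT NT : VonNeumannAlgebra K} {ET : (K →L[ℂ] K) → (K →L[ℂ] K)} {ζ : K}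
  {rep : (ℕ → H →L[ℂ] H) → (K →L[ℂ] K)} (O : Oc M N E ξ MT NT ET ζ rep)

include O

/-- relations between elements of the ultrapower hold approximately for the compressions -/
lemma cc_rel_approx (S : Setting M N E ξ) {l : ℝ} (hl : 0 < l) {z z' : K →L[ℂ] K}
    (hz : z ∈ MT) (hz' : z' ∈ MT) (h : ∀ A ∈ eig NT ζ l, A * z = z' * A) (C : ℝ) {ε : ℝ}
    (hε : 0 < ε) :
    ∃ δ : ℝ, 0 < δ ∧ ∀ a ∈ N, ‖a‖ ≤ C → Defect N ξ l δ a →
      ‖(a * ccU M ξ rep ζ z - ccU M ξ rep ζ z' * a) ξ‖ ≤ ε := by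
  obtain ⟨x, hx, -, rfl⟩ := O.surjM z hz
  obtain ⟨y, hy, -, rfl⟩ := O.surjM z' hz'
  obtain ⟨δ, hδ, hev⟩ := O.rel_approx S hl hx hy h C hε
  refine ⟨δ, hδ, fun a ha haC hD => ?_⟩
  refine U11.norm_le_of_weak (F := (UU : Filter ℕ)) (x := fun n => (a * x n - y n * a) ξ)
    (fun v => ?_) (hev.mono fun n hn => hn a ha haC hD)
  have h1 := O.cc_rep S hx ((Star.star a) v) ξ
  have h2 := O.cc_rep S hy v (a ξ)
  have h3 := h1.sub h2
  have e : ∀ n, ⟪(Star.star a) v, x n ξ⟫_ℂ - ⟪v, y n (a ξ)⟫_ℂ = ⟪v, (a * x n - y n * a) ξ⟫_ℂ := by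
    intro n
    rw [inner_star_left, sub_apply, inner_sub_right]; rfl
  have e' : ⟪(Star.star a) v, ccU M ξ rep ζ (rep x) ξ⟫_ℂ - ⟪v, ccU M ξ rep ζ (rep y) (a ξ)⟫_ℂ =
      ⟪v, (a * ccU M ξ rep ζ (rep x) - ccU M ξ rep ζ (rep y) * a) ξ⟫_ℂ := by
    rw [inner_star_left, sub_apply, inner_sub_right]; rfl
  simp only [e, e'] at h3
  exact h3

/-- U11b -/
theorem cc_bicent (S : Setting M N E ξ) {z : K →L[ℂ] K} (hz : z ∈ Qalg MT NT ζ) :
    ccU M ξ rep ζ z ∈ Bicent M N ξ := by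
  obtain ⟨hzM, hzc⟩ := mem_Qalg.1 hz
  have hmem := (O.cc_spec S hzM).1
  refine ⟨hmem, fun a ha η => ?_⟩
  obtain ⟨haN, ⟨C, hC⟩, hD⟩ := ha
  have h2 : Tendsto (fun n => (ccU M ξ rep ζ z * a n - a n * ccU M ξ rep ζ z) ξ) atTop
      (𝓝 0) := by
    rw [tendsto_zero_iff_norm_tendsto_zero, Metric.tendsto_atTop]
    intro ε hε
    obtain ⟨δ, hδ, h1⟩ := O.cc_rel_approx S one_pos hzM hzM hzc C (half_pos hε)
    obtain ⟨n0, hn0⟩ := eventually_atTop.1 (hD δ hδ)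
    refine ⟨n0, fun n hn => ?_⟩
    rw [dist_zero_right, norm_norm]
    have h3 := h1 (a n) (haN n) (hC n) (hn0 n hn)
    have h4 : (ccU M ξ rep ζ z * a n - a n * ccU M ξ rep ζ z) ξ =
        -((a n * ccU M ξ rep ζ z - ccU M ξ rep ζ z * a n) ξ) := by
      rw [← neg_apply, neg_sub]
    rw [h4, norm_neg]
    linarith
  exact tendsto_of_bounded M S.dense_comm
    (x := fun n => ccU M ξ rep ζ z * a n - a n * ccU M ξ rep ζ z)
    (C := ‖ccU M ξ rep ζ z‖ * C + C * ‖ccU M ξ rep ζ z‖)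
    (fun n => sub_mem (mul_mem hmem (S.le _ (haN n))) (mul_mem (S.le _ (haN n)) hmem))
    (fun n => (norm_sub_le _ _).trans (add_le_add
      ((norm_mul_le _ _).trans (mul_le_mul_of_nonneg_left (hC n) (norm_nonneg _)))
      ((norm_mul_le _ _).trans (mul_le_mul_of_nonneg_right (hC n) (norm_nonneg _))))) h2 η

/-- U11c -/
theorem al_cc (S : Setting M N E ξ) (hAP : AP MT NT ET ζ) {l : ℝ} (hl : 0 < l)
    (hG : l ∈ Gam NT ζ) {z : K →L[ℂ] K} (hz : z ∈ Qalg MT NT ζ) :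
    rep (fun _ => ccU M ξ rep ζ (al MT NT ζ l z)) =
      al MT NT ζ l (rep fun _ => ccU M ξ rep ζ z) := by
  have hz' : al MT NT ζ l z ∈ Qalg MT NT ζ := hAP.al_mem hG hz
  have hrel : Rel NT ζ l z (al MT NT ζ l z) := hAP.al_rel hG hz
  have hzM := (mem_Qalg.1 hz).1
  have hzM' := (mem_Qalg.1 hz').1
  have hy := (O.cc_spec S hzM).1
  have hy' := (O.cc_spec S hzM').1
  refine (hAP.al_unique hG (O.const_mem_Qalg S (O.cc_bicent S hz)) ?_).symm
  intro A hA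
  obtain ⟨a, ha, haA, rfl⟩ := O.exists_lamU S hl hA
  have haS := S.lamU_appS hl ha
  have h1 := U11.AppS_mul haS (U11.const_mem_AppS S hy)
  have h2 := U11.AppS_mul (U11.const_mem_AppS S hy') haS
  have h0 : rep (fun n => a n * ccU M ξ rep ζ z - ccU M ξ rep ζ (al MT NT ζ l z) * a n) = 0 := by
    refine O.u11_rep_eq_zero (U11.AppS_sub h1 h2) fun ε hε => ?_
    obtain ⟨δ, hδ, h3⟩ := O.cc_rel_approx S hl hzM hzM' hrel (2 * ‖rep a‖) hε
    filter_upwards [ha.2.2 δ hδ] with n hn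
    exact h3 (a n) (ha.1 n) (haA n) hn
  rw [O.u11_rep_sub h1 h2, O.mul a haS _ (U11.const_mem_AppS S hy),
    O.mul _ (U11.const_mem_AppS S hy') a haS, sub_eq_zero] at h0
  exact h0

end Oc

end Pool.Agent.Helper23

end

section

open scoped InnerProductSpace Topology

open ContinuousLinearMap Filter

namespace Pool.Agent.Helper23

universe u

variable {H : Type u} [NormedAddCommGroup H] [InnerProductSpace ℂ H] [CompleteSpace H]

variable {K : Type u} [NormedAddCommGroup K] [InnerProductSpace ℂ K] [CompleteSpace K]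

variable {M N : VonNeumannAlgebra H} {ξ : H} {E : (H →L[ℂ] H) → (H →L[ℂ] H)}

namespace Oc

variable {MT NT : VonNeumannAlgebra K} {ET : (K →L[ℂ] K) → (K →L[ℂ] K)} {ζ : K}
  {rep : (ℕ → H →L[ℂ] H) → (K →L[ℂ] K)} (O : Oc M N E ξ MT NT ET ζ rep)

include O

/-- an element of `M` which kills all asymptotic eigenoperators vanishes -/
lemma u12_zero (S : Setting M N E ξ) (hAP : AP MT NT ET ζ) {l : ℝ} (hG : l ∈ Gam NT ζ)
    {z : H →L[ℂ] H} (hz : z ∈ M)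
    (h : ∀ a, LamSeq N ξ l a → Tendsto (fun n => z (a n ξ)) atTop (𝓝 0)) : z = 0 := by
  have hl : 0 < l := hG.1
  have hzS := u12_AppS_const S hz
  have key : ∀ A ∈ eig NT ζ l, rep (fun _ => z) * A = 0 * A := by
    intro A hA
    obtain ⟨a, haU, -, rfl⟩ := O.exists_lamU S hl hA
    have haS := S.lamU_appS hl haU
    have hcS := u12_AppS_mul hzS haS
    rw [zero_mul, ← O.mul _ hzS _ haS]
    refine O.set.sep _ (O.memM _ hcS) ?_
    -- the norms tend to zero along the ultrafilter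
    have h1 := O.u12_norm_sq hcS
    have h2 : Tendsto (fun n => ‖(z * a n) ξ‖ ^ 2) (UU : Filter ℕ) (𝓝 0) := by
      have h3 : Tendsto (fun n => ‖(z * a n) ξ‖) (UU : Filter ℕ) (𝓝 0) := by
        rw [Metric.tendsto_nhds]
        intro ε hε
        by_contra hcon
        have hcon2 : ∀ᶠ n in (UU : Filter ℕ), ε ≤ ‖(z * a n) ξ‖ := by
          rw [Filter.not_eventually, Ultrafilter.frequently_iff_eventually] at hcon
          filter_upwards [hcon] with n hn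
          rw [dist_zero_right, norm_norm, not_lt] at hn
          exact hn
        have hex : ∀ k : ℕ, ∃ n, ε ≤ ‖(z * a n) ξ‖ ∧ Defect N ξ l (1 / ((k : ℝ) + 1)) (a n) :=
          fun k => (hcon2.and (haU.2.2 _ (by positivity))).exists
        choose φ hφ hφ' using hex
        obtain ⟨C, hC⟩ := haU.2.1
        have hb : LamSeq N ξ l (fun k => a (φ k)) := by
          refine ⟨fun k => haU.1 _, ⟨C, fun k => hC _⟩, fun δ hδ => ?_⟩
          obtain ⟨k0, hk0⟩ := exists_nat_one_div_lt hδ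
          filter_upwards [eventually_ge_atTop k0] with k hk
          refine (hφ' k).mono (le_trans ?_ hk0.le)
          have : (k0 : ℝ) ≤ k := by exact_mod_cast hk
          exact one_div_le_one_div_of_le (by positivity) (by linarith)
        have h4 := (h _ hb).norm
        rw [norm_zero] at h4
        have h5 := (h4.eventually (gt_mem_nhds hε)).exists
        obtain ⟨k, hk⟩ := h5
        exact absurd (hφ k) (not_le.2 hk)
      have := h3.pow 2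
      simpa using this
    have h6 := tendsto_nhds_unique h1 h2
    exact norm_eq_zero.1 (pow_eq_zero_iff (two_ne_zero)|>.1 h6)
  have h0 : rep (fun _ => z) = 0 := Rel.unique hAP.irr hl.ne' hG.2 key
  exact O.u12_inj S hz (zero_mem M) (by rw [h0, O.u12_rep_zero_const])

lemma u12_unique (S : Setting M N E ξ) (hAP : AP MT NT ET ζ) {l : ℝ} (hG : l ∈ Gam NT ζ)
    {x y y' : H →L[ℂ] H} (hy : y ∈ M) (hy' : y' ∈ M)
    (h : ∀ a, LamSeq N ξ l a → Tendsto (fun n => a n (x ξ) - y (a n ξ)) atTop (𝓝 0))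
    (h' : ∀ a, LamSeq N ξ l a → Tendsto (fun n => a n (x ξ) - y' (a n ξ)) atTop (𝓝 0)) :
    y = y' := by
  refine sub_eq_zero.1 (O.u12_zero S hAP hG (sub_mem hy hy') fun a ha => ?_)
  have := (h' a ha).sub (h a ha)
  rw [sub_zero] at this
  refine this.congr fun n => ?_
  rw [sub_apply]
  abel

/-- existence of the flow -/
lemma u12_exists (S : Setting M N E ξ) (hAP : AP MT NT ET ζ) {l : ℝ} (hG : l ∈ Gam NT ζ)
    {x : H →L[ℂ] H} (hx : x ∈ Bicent M N ξ) :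
    ∃ y ∈ Bicent M N ξ, (∀ a, LamSeq N ξ l a →
      Tendsto (fun n => a n (x ξ) - y (a n ξ)) atTop (𝓝 0)) ∧
      rep (fun _ => y) = al MT NT ζ l (rep fun _ => x) := by
  have hl : 0 < l := hG.1
  have hX := O.const_mem_Qalg S hx
  have hY := hAP.al_mem hG hX
  have hyB := O.cc_bicent S hY
  have hrep : rep (fun _ => ccU M ξ rep ζ (al MT NT ζ l (rep fun _ => x))) =
      al MT NT ζ l (rep fun _ => x) := by
    rw [O.al_cc S hAP hl hG hX, O.cc_const S hx.1]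
  refine ⟨_, hyB, fun a ha => ?_, hrep⟩
  generalize ccU M ξ rep ζ (al MT NT ζ l (rep fun _ => x)) = y at hyB hrep
  by_contra hcon
  have h1 : ∃ ε > 0, ∃ᶠ n in atTop, ε ≤ ‖a n (x ξ) - y (a n ξ)‖ := by
    rw [Metric.tendsto_nhds] at hcon
    push Not at hcon
    obtain ⟨ε, hε, hf⟩ := hcon
    refine ⟨ε, hε, hf.mono fun n hn => ?_⟩
    rwa [dist_zero_right] at hn
  obtain ⟨ε, hε, hf⟩ := h1
  obtain ⟨φ, hφ, hφ'⟩ := Filter.extraction_of_frequently_atTop hf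
  have hb := u12_comp ha hφ.tendsto_atTop
  have hbU := u12_lamU hb
  have hbS := S.lamU_appS hl hbU
  have hxS := u12_AppS_const S hx.1
  have hyS := u12_AppS_const S hyB.1
  have hbx := u12_AppS_mul hbS hxS
  have hyb := u12_AppS_mul hyS hbS
  have hrel := hAP.al_rel hG hX _ (O.eig_of_lamU S hl hbU)
  rw [← hrep, ← O.mul _ hbS _ hxS, ← O.mul _ hyS _ hbS] at hrel
  have hdS : (fun n => a (φ n) * x - y * a (φ n)) ∈ AppS M ξ := by
    have := u12_AppS_add hbx (u12_AppS_smul (-1) hyb)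
    simpa only [neg_one_smul, ← sub_eq_add_neg] using this
  have h2 := O.u12_norm_sq hdS
  rw [O.u12_sub hbx hyb, hrel, sub_self] at h2
  simp only [zero_apply, norm_zero, ne_eq, OfNat.ofNat_ne_zero, not_false_eq_true, zero_pow]
    at h2
  have h3 : ∀ᶠ n in (UU : Filter ℕ), ‖(a (φ n) * x - y * a (φ n)) ξ‖ ^ 2 < ε ^ 2 :=
    h2.eventually (gt_mem_nhds (by positivity))
  obtain ⟨n, hn⟩ := h3.exists
  have h4 : ε ≤ ‖(a (φ n) * x - y * a (φ n)) ξ‖ := hφ' n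
  have h5 := pow_le_pow_left₀ hε.le h4 2
  linarith

/-- U12a -/
theorem btU_spec (S : Setting M N E ξ) (hAP : AP MT NT ET ζ) (hG : ∀ l : ℝ, 0 < l → l ∈ Gam NT ζ)
    {l : ℝ} (hl : 0 < l) {x : H →L[ℂ] H} (hx : x ∈ Bicent M N ξ) :
    btU M N ξ l x ∈ Bicent M N ξ ∧
    (∀ a, LamSeq N ξ l a → Tendsto (fun n => a n (x ξ) - btU M N ξ l x (a n ξ)) atTop (𝓝 0)) ∧
    rep (fun _ => btU M N ξ l x) = al MT NT ζ l (rep fun _ => x) := by
  obtain ⟨y, hy, hy1, hy2⟩ := O.u12_exists S hAP (hG l hl) hx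
  have hex : ∃ y ∈ Bicent M N ξ, ∀ a, LamSeq N ξ l a →
      Tendsto (fun n => a n (x ξ) - y (a n ξ)) atTop (𝓝 0) := ⟨y, hy, hy1⟩
  have hb : btU M N ξ l x = hex.choose := dif_pos hex
  have h1 : btU M N ξ l x ∈ Bicent M N ξ := by rw [hb]; exact hex.choose_spec.1
  have h2 : ∀ a, LamSeq N ξ l a →
      Tendsto (fun n => a n (x ξ) - btU M N ξ l x (a n ξ)) atTop (𝓝 0) := by
    rw [hb]; exact hex.choose_spec.2
  refine ⟨h1, h2, ?_⟩
  rw [O.u12_unique S hAP (hG l hl) h1.1 hy.1 h2 hy1, hy2]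

/-- U12b -/
theorem btU_unique (S : Setting M N E ξ) (hAP : AP MT NT ET ζ)
    (hG : ∀ l : ℝ, 0 < l → l ∈ Gam NT ζ) {l : ℝ} (hl : 0 < l) {x y : H →L[ℂ] H}
    (hx : x ∈ Bicent M N ξ) (hy : y ∈ M)
    (h : ∀ a, LamSeq N ξ l a → Tendsto (fun n => (a n * x - y * a n) ξ) atTop (𝓝 0)) :
    y = btU M N ξ l x := by
  obtain ⟨h1, h2, -⟩ := O.btU_spec S hAP hG hl hx
  exact O.u12_unique S hAP (hG l hl) hy h1.1 h h2

/-- U12c -/
theorem btU_cc (S : Setting M N E ξ) (hAP : AP MT NT ET ζ)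
    (hG : ∀ l : ℝ, 0 < l → l ∈ Gam NT ζ) {l : ℝ} (hl : 0 < l) {z : K →L[ℂ] K}
    (hz : z ∈ Qalg MT NT ζ) :
    btU M N ξ l (ccU M ξ rep ζ z) = ccU M ξ rep ζ (al MT NT ζ l z) := by
  obtain ⟨h1, -, h3⟩ := O.btU_spec S hAP hG hl (O.cc_bicent S hz)
  have h4 := O.cc_bicent S (hAP.al_mem (hG l hl) hz)
  refine O.u12_inj S h1.1 h4.1 ?_
  rw [h3, O.al_cc S hAP hl (hG l hl) hz]

end Oc

end Pool.Agent.Helper23

end

section

open scoped InnerProductSpace Topology BoundedContinuousFunction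

open ContinuousLinearMap Filter

open Pool.Agent.Helper23.RBF

namespace Pool.Agent.Helper78.BC

universe u

variable {H : Type u} [NormedAddCommGroup H] [InnerProductSpace ℂ H] [CompleteSpace H]

/-- Bicentralizer theorem, cyclic case. -/
theorem trivial_cyclic (A : VonNeumannAlgebra H) (ξ : H) (hξ : ‖ξ‖ = 1)
    (hcyc : Dense (Pool.Agent.Helper23.orb A ξ : Set H)) (hsep : ∀ a ∈ A, a ξ = 0 → a = 0)
    (hN : TypeIIIOne A) : TrivialBicentralizer A ξ := by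
  obtain ⟨J, Ψ, h⟩ := exists_std A ξ hξ hcyc hsep
  have S : Pool.Agent.Helper23.Setting A A (fun x => x) ξ :=
    { le := fun x hx => hx
      norm_one := hξ
      cyc := hcyc
      sep := hsep
      E_mem := fun x hx => hx
      E_bimod := fun a _ b _ x _ => rfl
      E_fix := fun x _ => rfl
      E_state := fun x _ => rfl }
  have key : ∀ x, Bic A ξ x ↔ x ∈ S.Balg := fun x => Iff.rfl
  have hB := scalar_of_proj S.Balg fun p hp hpp hps => by
    have hp' : Bic A ξ p := (key p).2 hp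
    refine no_proj h hN hp' hpp hps ?_
    have := J_of_fixed h hp'.1 (fixed_bic h hN hp')
    rwa [hps] at this
  intro x hx hx'
  exact hB x ((key x).1 ⟨hx, hx'⟩)

/-- Connes' bicentralizer problem: the bicentralizer of a type III₁ algebra is trivial. -/
theorem trivialBicentralizer (A : VonNeumannAlgebra H) (ξ : H) (hξ : ‖ξ‖ = 1)
    (hsep : ∀ a ∈ A, a ξ = 0 → a = 0) (hA : TypeIIIOne A) : TrivialBicentralizer A ξ :=
  transport (fun K _ _ _ B κ h1 h2 h3 h4 => trivial_cyclic B κ h1 h2 h3 h4) A ξ hξ hsep hA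

end Pool.Agent.Helper78.BC

end

section

open scoped InnerProductSpace Topology ENNReal BoundedContinuousFunction

open ContinuousLinearMap Filter MeasureTheory

namespace Pool.Agent.Helper23.ED

open Pool.Agent.Helper23 Pool.Agent.Helper23.RBF

open Pool.Agent.Helper78.BC.Transport (Sub r)

universe u

open Pool.Agent.Helper23.TTA (Rop Dop)

variable {H : Type u} [NormedAddCommGroup H] [InnerProductSpace ℂ H] [CompleteSpace H]

variable {K : Type u} [NormedAddCommGroup K] [InnerProductSpace ℂ K] [CompleteSpace K]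

variable {M N : VonNeumannAlgebra H} {E : (H →L[ℂ] H) → (H →L[ℂ] H)}

variable {ξ : H} {i : K →L[ℂ] H} {κ : K}

theorem exists_modular' (S : Setting M N E ξ) :
    ∃ Ψ : (ℝ →ᵇ ℂ) →⋆ₐ[ℂ] (H →L[ℂ] H), Modular M ξ (Rop M ξ) (Dop M ξ) Ψ ∧
      ∀ (t : ℝ), ∀ a ∈ N, Ψ (expB t) * a * Ψ (expB (-t)) ∈ N := by
  have h' := Pool.Agent.Helper43.TTF.ttdata M ξ S.cyc S.sep
  obtain ⟨Ψ, h⟩ := Pool.Agent.Helper43.TTF.exists_FC h'
  have hmod := Pool.Agent.Helper43.TTF.modular_of h' S.cyc S.sep h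
  refine ⟨Ψ, hmod, fun t a ha => ?_⟩
  set x := Ψ (expB t) * a * Ψ (expB (-t)) with hx
  have hxM : x ∈ M := hmod.mem t a (S.le a ha)
  have hcomm := h.psi_comm _ (Pool.Agent.Helper43.TTF.p0_R S)
  have hxξ : x ξ = Ψ (expB t) (a ξ) := by
    rw [hx, mul_apply_eq_comp, mul_apply_eq_comp, hmod.psi_xi,
      Pool.Agent.Helper43.TTF.expB_apply, mul_zero,
      Complex.ofReal_zero, zero_mul, Complex.exp_zero, one_smul]
  have h1 : Pool.Agent.Helper43.TTF.p0 N ξ (x ξ) = x ξ := by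
    have h2 := congrArg (fun T : H →L[ℂ] H => T (a ξ)) (hcomm (expB t))
    simp only [mul_apply_eq_comp] at h2
    rw [hxξ, h2, Pool.Agent.Helper43.TTF.p0_of_mem (mem_K0 ha)]
  have h3 : (E x - x) ξ = 0 := by
    rw [sub_apply, ← Pool.Agent.Helper43.TTF.E_apply S hxM, h1, sub_self]
  have h4 := S.sep _ (sub_mem (S.le _ (S.E_mem x hxM)) hxM) h3
  rw [← sub_eq_zero.1 h4]
  exact S.E_mem x hxM

end Pool.Agent.Helper23.ED

end

section

open scoped InnerProductSpace Topology ENNReal BoundedContinuousFunction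

open ContinuousLinearMap Filter MeasureTheory

namespace Pool.Agent.Helper23.ED

open Pool.Agent.Helper23 Pool.Agent.Helper23.RBF

open Pool.Agent.Helper78.BC.Transport (Sub r)

universe u

variable {H : Type*} [NormedAddCommGroup H] [InnerProductSpace ℂ H] [CompleteSpace H]

variable {A : VonNeumannAlgebra H} {ξ : H} {R : H →L[ℂ] H} {D : H →L[ℝ] H}
  {Ψ : (ℝ →ᵇ ℂ) →⋆ₐ[ℂ] (H →L[ℂ] H)}

open GgB in
theorem PP_ems (hΨ : Modular A ξ R D Ψ) (a : ℝ) :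
    PP Ψ (ems a) = UV (fun t => Ψ (expB t)) a := by
  have hp : (2 * Real.pi) ≠ 0 := by positivity
  have hU : ∀ t : ℝ, Dec fun s : ℝ => Ψ (expB (2 * Real.pi * (s - t))) := fun t =>
    Dec.of_cont zero_le_one (fun s => (psi_norm_le Ψ _).trans (expB_norm _))
      (fun v => (hΨ.U_cont v).comp (by fun_prop))
  have h1 : WW Ψ * mulOp H (ems a) = UV (fun t => Ψ (expB t)) a * WW Ψ := by
    ext F : 1
    refine (Fo H).injective ?_
    change Fo H (WW Ψ (mulOp H (ems a) F)) =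
      Fo H (lift (Ψ (expB a)) (mulOp H (ems a) (WW Ψ F)))
    unfold WW
    rw [Fo_fco, Fo_lift, Fo_ems, Fo_ems, Fo_fco, tr_dec hΨ.U_dec hU]
    have h2 := dec_comp (Dec.const (Ψ (expB a))) (hU (a / (2 * Real.pi)))
      (tr H (a / (2 * Real.pi)) (Fo H F))
    refine Eq.trans ?_ h2.symm
    congr 2
    funext s
    change _ = Ψ (expB a) * Ψ (expB (2 * Real.pi * (s - a / (2 * Real.pi))))
    rw [psi_expB_mul]
    congr 2
    field_simp
    ring
  unfold PP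
  rw [h1, mul_assoc, (WW_unit hΨ).1, mul_one]

theorem PP_ten (hΨ : Modular A ξ R D Ψ) {m : ℝ → ℂ} (hm : BM m) (f : L2R ℂ) :
    PP Ψ m (ten f ξ) = ten (mulOp ℂ m f) ξ := by
  have h1 : ∀ f : L2R ℂ, star (WW Ψ) (ten f ξ) = ten f ξ := by
    intro f
    unfold WW
    rw [hΨ.W_star]
    exact hΨ.W'_ten f
  have h2 : ∀ f : L2R ℂ, WW Ψ (ten f ξ) = ten f ξ := by
    intro f
    have h3 := DFunLike.congr_fun (WW_unit hΨ).1 (ten f ξ)
    change WW Ψ (star (WW Ψ) (ten f ξ)) = ten f ξ at h3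
    rwa [h1] at h3
  change WW Ψ (mulOp H m (star (WW Ψ) (ten f ξ))) = _
  rw [h1, mulOp_ten hm, h2]

theorem comm_PP (hΨ : Modular A ξ R D Ψ) {X : L2R H →L[ℂ] L2R H}
    (hc : ∀ a, X * UV (fun t => Ψ (expB t)) a = UV (fun t => Ψ (expB t)) a * X)
    {m : ℝ → ℂ} (hm : BM m) : X * PP Ψ m = PP Ψ m * X := by
  obtain ⟨hW1, hW2⟩ := WW_unit hΨ
  have h1 : ∀ a, (star (WW Ψ) * X * WW Ψ) * mulOp H (ems a) =
      mulOp H (ems a) * (star (WW Ψ) * X * WW Ψ) := by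
    intro a
    have h2 := hc a
    rw [← PP_ems hΨ a] at h2
    unfold PP at h2
    calc (star (WW Ψ) * X * WW Ψ) * mulOp H (ems a)
        = star (WW Ψ) * (X * (WW Ψ * mulOp H (ems a) * star (WW Ψ))) * WW Ψ := by
          simp only [mul_assoc, hW2, mul_one]
      _ = star (WW Ψ) * ((WW Ψ * mulOp H (ems a) * star (WW Ψ)) * X) * WW Ψ := by rw [h2]
      _ = (star (WW Ψ) * WW Ψ) * mulOp H (ems a) * (star (WW Ψ) * X * WW Ψ) := by
          simp only [mul_assoc]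
      _ = _ := by rw [hW2, one_mul]
  have h3 := GgC.comm_mulOp h1 hm
  unfold PP
  calc X * (WW Ψ * mulOp H m * star (WW Ψ))
      = (WW Ψ * star (WW Ψ)) * X * (WW Ψ * mulOp H m * star (WW Ψ)) := by
        rw [hW1, one_mul]
    _ = WW Ψ * ((star (WW Ψ) * X * WW Ψ) * mulOp H m) * star (WW Ψ) := by
        simp only [mul_assoc]
    _ = WW Ψ * (mulOp H m * (star (WW Ψ) * X * WW Ψ)) * star (WW Ψ) := by rw [h3]
    _ = (WW Ψ * mulOp H m * star (WW Ψ)) * X * (WW Ψ * star (WW Ψ)) := by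
        simp only [mul_assoc]
    _ = _ := by rw [hW1, mul_one]

end Pool.Agent.Helper23.ED

end

section

open scoped InnerProductSpace Topology ENNReal BoundedContinuousFunction

open ContinuousLinearMap Filter MeasureTheory

namespace Pool.Agent.Helper23.ED

open Pool.Agent.Helper23 Pool.Agent.Helper23.RBF

open Pool.Agent.Helper78.BC.Transport (Sub r)

universe u

variable {H : Type*} [NormedAddCommGroup H] [InnerProductSpace ℂ H] [CompleteSpace H]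

variable {A : VonNeumannAlgebra H} {ξ : H} {R : H →L[ℂ] H} {D : H →L[ℝ] H}
  {Ψ : (ℝ →ᵇ ℂ) →⋆ₐ[ℂ] (H →L[ℂ] H)}

theorem PP_rel (hΨ : Modular A ξ R D Ψ) {m : ℕ} {f' : L2R ℂ} (hf' : Pn m f' = f') (v : H)
    (G : L2R H) : ⟪ten f' (R v), PP Ψ (he m) G⟫_ℂ =
      ⟪ten (mulOp ℂ (he m) f') ((2 : ℂ) • v - R v),
        PP Ψ (ind (Set.Ico (-(m : ℝ)) m)) G⟫_ℂ := by
  set X : L2R H →L[ℂ] L2R H := WW Ψ * mulOp H (he m) with hX
  set Y : L2R H →L[ℂ] L2R H := WW Ψ * mulOp H (ind (Set.Ico (-(m : ℝ)) m)) with hY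
  have h0 : star X (ten f' (R v)) -
      star Y (ten (mulOp ℂ (he m) f') ((2 : ℂ) • v - R v)) = 0 := by
    refine eq_zero_of_ten fun g w => ?_
    have h1 := GgD_ten hΨ hf' v g w
    change ⟪ten f' (R v), X (ten g w)⟫_ℂ =
      ⟪ten (mulOp ℂ (he m) f') ((2 : ℂ) • v - R v), Y (ten g w)⟫_ℂ at h1
    rw [inner_sub_right, inner_star_right, inner_star_right, sub_eq_zero,
      ← inner_conj_symm, h1, inner_conj_symm]
  change ⟪ten f' (R v), X (star (WW Ψ) G)⟫_ℂ =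
    ⟪ten (mulOp ℂ (he m) f') ((2 : ℂ) • v - R v), Y (star (WW Ψ) G)⟫_ℂ
  have h2 : ∀ G' : L2R H, ⟪ten f' (R v), X G'⟫_ℂ =
      ⟪ten (mulOp ℂ (he m) f') ((2 : ℂ) • v - R v), Y G'⟫_ℂ := fun G' => by
    have h3 : ⟪(star X) (ten f' (R v)), G'⟫_ℂ =
        ⟪(star Y) (ten (mulOp ℂ (he m) f') ((2 : ℂ) • v - R v)), G'⟫_ℂ := by
      rw [sub_eq_zero.1 h0]
    rwa [inner_star_left, inner_star_left] at h3
  exact h2 _

end Pool.Agent.Helper23.ED

end

section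

open scoped InnerProductSpace Topology ENNReal BoundedContinuousFunction

open ContinuousLinearMap Filter MeasureTheory

namespace Pool.Agent.Helper23.ED

open Pool.Agent.Helper23 Pool.Agent.Helper23.RBF

open Pool.Agent.Helper78.BC.Transport (Sub r)

universe u

variable {H : Type*} [NormedAddCommGroup H] [InnerProductSpace ℂ H] [CompleteSpace H]

variable {M N : VonNeumannAlgebra H} {ξ : H} {E : (H →L[ℂ] H) → (H →L[ℂ] H)}

theorem GK_of_comm (S : Setting M N E ξ) {R : H →L[ℂ] H} {D : H →L[ℝ] H}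
    {Ψ : (ℝ →ᵇ ℂ) →⋆ₐ[ℂ] (H →L[ℂ] H)} (hΨ : Modular M ξ R D Ψ) {X : L2R H →L[ℂ] L2R H}
    (hX : X ∈ amp N) (h1 : star X * X = 1) (h2 : X * star X = 1)
    (hc : ∀ a, X * UV (fun t => Ψ (expB t)) a = UV (fun t => Ψ (expB t)) a * X) :
    X ∈ GK N ξ := by
  refine GK_of_weak hX h1 h2 fun n f f' hf hf' b hb => ?_
  have hxN : slX X f' (mulOp ℂ (he n) f) ∈ N := slX_mem hX _ _
  have hyN : slX X (mulOp ℂ (he n) f') f ∈ N := slX_mem hX _ _
  have hbmI : BM (ind (Set.Ico (-(n : ℝ)) n)) := ind_bm measurableSet_Ico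
  -- the two vectors `X (h f ⊗ ξ)` and `X (f ⊗ ξ)` in terms of functions of `log Δ + s`
  have e1 : X (ten (mulOp ℂ (he n) f) ξ) = PP Ψ (he n) (X (ten f ξ)) := by
    rw [← PP_ten hΨ (he_bm n) f]
    exact congrArg (fun T : L2R H →L[ℂ] L2R H => T (ten f ξ)) (comm_PP hΨ hc (he_bm n))
  have e2 : PP Ψ (ind (Set.Ico (-(n : ℝ)) n)) (X (ten f ξ)) = X (ten f ξ) := by
    have h3 : X (PP Ψ (ind (Set.Ico (-(n : ℝ)) n)) (ten f ξ)) =
        PP Ψ (ind (Set.Ico (-(n : ℝ)) n)) (X (ten f ξ)) :=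
      congrArg (fun T : L2R H →L[ℂ] L2R H => T (ten f ξ)) (comm_PP hΨ hc hbmI)
    have h4 : mulOp ℂ (ind (Set.Ico (-(n : ℝ)) n)) f = f := hf
    rw [← h3, PP_ten hΨ hbmI f, h4]
  have hRsymm : ∀ v w : H, ⟪R v, w⟫_ℂ = ⟪v, R w⟫_ℂ := by
    intro v w
    rw [← ContinuousLinearMap.adjoint_inner_right, ← ContinuousLinearMap.star_eq_adjoint,
      hΨ.data.R_star]
  have hrel : R ((slX X f' (mulOp ℂ (he n) f)) ξ) =
      (2 : ℂ) • (slX X (mulOp ℂ (he n) f') f) ξ - R ((slX X (mulOp ℂ (he n) f') f) ξ) := by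
    refine ext_inner_left ℂ fun v => ?_
    have h5 := PP_rel hΨ hf' v (X (ten f ξ))
    rw [e2, ← e1, ← inner_slX, ← inner_slX] at h5
    rw [← hRsymm, h5, inner_sub_left, inner_sub_right, inner_smul_left, inner_smul_right, hRsymm,
      Complex.conj_ofNat]
  have h6 := sesq hΨ (S.le _ hxN) (S.le _ hyN) (S.le _ hb) hrel
  rw [inner_slX] at h6
  rw [h6, inner_star_left, inner_slX]

end Pool.Agent.Helper23.ED

end
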