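import Pool.Agent.Helper23.FA.Ns
import Pool.Agent.Helper23.FA.L02_01
import Pool.Agent.Helper23.FA.L02_02
import Pool.Agent.Helper23.FA.L02_03
import Pool.Agent.Helper23.FA.L02_04
import Pool.Agent.Helper23.FA.L02_05
import Pool.Agent.Helper23.FA.L02_07
import Pool.Agent.Helper23.FA.L02_08
import Pool.Agent.Helper23.FA.L02_09
import Pool.Agent.Helper23.FA.L02_10
import Pool.Agent.Helper23.FA.L02_11
import Pool.Agent.Helper23.FA.L02_12
import Pool.Agent.Helper23.FA.L02_13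
import Pool.Agent.Helper23.FA.L02_14

/-!
Parts of Helper43.TTF.G, Helper78.USlices0, Helper68.U17, Helper78.USlices, Helper94.LbBicent, Helper23.UFin, Helper23.ED.GgB, Helper23.ED.RkB
-/

section

open scoped InnerProductSpace Topology BoundedContinuousFunction

open ContinuousLinearMap Filter MeasureTheory

namespace Pool.Agent.Helper23

open Pool.Agent.Helper43.TTF

variable {H : Type*} [NormedAddCommGroup H] [InnerProductSpace ℂ H] [CompleteSpace H]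

variable {M N : VonNeumannAlgebra H} {ξ : H} {E : (H →L[ℂ] H) → (H →L[ℂ] H)}

/-- MODULE TT-F -/
theorem Setting.exists_modular (S : Setting M N E ξ) :
    ∃ (R : H →L[ℂ] H) (D : H →L[ℝ] H) (Ψ : (ℝ →ᵇ ℂ) →⋆ₐ[ℂ] (H →L[ℂ] H)), Modular M ξ R D Ψ ∧
      ∀ (t : ℝ), ∀ a ∈ N, Ψ (expB t) * a * Ψ (expB (-t)) ∈ N := by
  have h' := ttdata M ξ S.cyc S.sep
  obtain ⟨Ψ, h⟩ := exists_FC h'
  have hmod := modular_of h' S.cyc S.sep h
  refine ⟨_, _, Ψ, hmod, fun t a ha => ?_⟩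
  set x := Ψ (expB t) * a * Ψ (expB (-t)) with hx
  have hxM : x ∈ M := hmod.mem t a (S.le a ha)
  have hcomm := h.psi_comm _ (p0_R S)
  have hxξ : x ξ = Ψ (expB t) (a ξ) := by
    rw [hx, mul_apply_eq_comp, mul_apply_eq_comp, hmod.psi_xi, Pool.Agent.Helper43.TTF.expB_apply, mul_zero,
      Complex.ofReal_zero, zero_mul, Complex.exp_zero, one_smul]
  have h1 : p0 N ξ (x ξ) = x ξ := by
    have h2 := congrArg (fun T : H →L[ℂ] H => T (a ξ)) (hcomm (expB t))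
    simp only [mul_apply_eq_comp] at h2
    rw [hxξ, h2, p0_of_mem (mem_K0 ha)]
  have h3 : (E x - x) ξ = 0 := by
    rw [sub_apply, ← E_apply S hxM, h1, sub_self]
  have h4 := S.sep _ (sub_mem (S.le _ (S.E_mem x hxM)) hxM) h3
  rw [← sub_eq_zero.1 h4]
  exact S.E_mem x hxM

end Pool.Agent.Helper23

end

section

open scoped InnerProductSpace Topology BoundedContinuousFunction

open ContinuousLinearMap Filter MeasureTheory

namespace Pool.Agent.Helper23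

variable {H : Type*} [NormedAddCommGroup H] [InnerProductSpace ℂ H] [CompleteSpace H]

variable {M N : VonNeumannAlgebra H} {ξ : H} {E : (H →L[ℂ] H) → (H →L[ℂ] H)}

namespace U14

/-- the slices are shifted by asymptotic eigenoperators -/
theorem shift_all (S : Setting M N E ξ) {R : H →L[ℂ] H} {D : H →L[ℝ] H}
    {Ψ : (ℝ →ᵇ ℂ) →⋆ₐ[ℂ] (H →L[ℂ] H)} (hΨ : Modular M ξ R D Ψ)
    (hN : ∀ (t : ℝ), ∀ a ∈ N, Ψ (expB t) * a * Ψ (expB (-t)) ∈ N)
    (hGK : ∀ u ∈ N, star u * u = 1 → u * star u = 1 → fco (fld Ψ u) ∈ GK N ξ)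
    {X : L2R H →L[ℂ] L2R H} (hX : X ∈ Rk M N ξ) (f g : L2R ℂ)
    {l : ℝ} {a : ℕ → H →L[ℂ] H} (ha : LamSeq N ξ l a)
    (hconj : ∀ f : L2R ℂ, Tendsto (fun n => ‖fco (fld Ψ (a n)) (ten f ξ) -
      ten (tr ℂ (Real.log l) f) (a n ξ)‖) atTop (𝓝 0)) (η : H) :
    Tendsto (fun n => (a n * slX X f g -
      slX X (tr ℂ (Real.log l) f) (tr ℂ (Real.log l) g) * a n) η) atTop (𝓝 0) := by
  set t := Real.log l with ht
  set D : ℕ → (L2R H →L[ℂ] L2R H) := fun n => fco (fld Ψ (a n)) - tr H t * lift (a n) with hD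
  have h1 := conv_all S hΨ hN ha hconj (X (ten g η))
  have h2 := conv_all S hΨ hN ha hconj (ten g η)
  have h3 : Tendsto (fun n => sl (tr ℂ t f) (X (D n (ten g η)) - D n (X (ten g η)))) atTop
      (𝓝 0) := by
    have h4 := ((X.continuous.tendsto 0).comp h2).sub h1
    rw [map_zero, sub_zero] at h4
    have h5 := ((sl (tr ℂ t f) : L2R H →L[ℂ] H).continuous.tendsto 0).comp h4
    rwa [map_zero] at h5
  refine h3.congr fun n => ?_
  have hc : fco (fld Ψ (a n)) (X (ten g η)) = X (fco (fld Ψ (a n)) (ten g η)) :=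
    congrArg (fun T : L2R H →L[ℂ] L2R H => T (ten g η)) (comm_fld hΨ hGK hX (ha.1 n))
  have e1 : X (D n (ten g η)) - D n (X (ten g η)) =
      tr H t (lift (a n) (X (ten g η))) - X (ten (tr ℂ t g) (a n η)) := by
    have e2 : D n (ten g η) = fco (fld Ψ (a n)) (ten g η) - ten (tr ℂ t g) (a n η) := by
      change fco (fld Ψ (a n)) (ten g η) - tr H t (lift (a n) (ten g η)) = _
      rw [lift_ten, tr_ten]
    have e3 : D n (X (ten g η)) = fco (fld Ψ (a n)) (X (ten g η)) -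
      tr H t (lift (a n) (X (ten g η))) := rfl
    rw [e2, e3, map_sub, hc]
    abel
  rw [e1, map_sub, sl_tr, tr_neg_tr, sl_lift]
  rfl

end U14

end Pool.Agent.Helper23

end

section

open scoped InnerProductSpace Topology BoundedContinuousFunction

open ContinuousLinearMap Filter MeasureTheory

set_option linter.unusedSectionVars false

namespace Pool.Agent.Helper23

universe u

variable {H : Type u} [NormedAddCommGroup H] [InnerProductSpace ℂ H] [CompleteSpace H]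

variable {M N : VonNeumannAlgebra H} {ξ : H} {E : (H →L[ℂ] H) → (H →L[ℂ] H)}

/-- unitaries of `N` give exact elements of `GK` -/
theorem Setting.fco_mem_GK (S : Setting M N E ξ) {R : H →L[ℂ] H} {D : H →L[ℝ] H}
    {Ψ : (ℝ →ᵇ ℂ) →⋆ₐ[ℂ] (H →L[ℂ] H)} (hΨ : Modular M ξ R D Ψ)
    (hN : ∀ (t : ℝ), ∀ a ∈ N, Ψ (expB t) * a * Ψ (expB (-t)) ∈ N)
    {u : H →L[ℂ] H} (hu : u ∈ N) (hu1 : star u * u = 1) (hu2 : u * star u = 1) :
    fco (fun t : ℝ => Ψ (expB (2 * Real.pi * t)) * u * Ψ (expB (-(2 * Real.pi * t)))) ∈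
      GK N ξ := by
  refine GK_of_weak ?_ ?_ ?_ ?_
  · exact fco_mem_amp (hΨ.conj_dec u) fun t => hN _ _ hu
  · rw [hΨ.conj_star]
    exact hΨ.conj_isom hu1
  · rw [hΨ.conj_star]
    exact hΨ.conj_isom hu2
  · intro n f f' hf hf' b hb
    exact hΨ.weak (S.le _ hu) (S.le b hb) hf hf'

end Pool.Agent.Helper23

end

section

open scoped InnerProductSpace Topology BoundedContinuousFunction

open ContinuousLinearMap Filter MeasureTheory

namespace Pool.Agent.Helper23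

variable {H : Type*} [NormedAddCommGroup H] [InnerProductSpace ℂ H] [CompleteSpace H]

variable {M N : VonNeumannAlgebra H} {ξ : H} {E : (H →L[ℂ] H) → (H →L[ℂ] H)}

/-- U14: the slices of an element of the relative commutant -/
theorem Setting.slX_shift_all (S : Setting M N E ξ) {X : L2R H →L[ℂ] L2R H} (hX : X ∈ Rk M N ξ)
    (f g : L2R ℂ) {l : ℝ} (hl : 0 < l) {a : ℕ → H →L[ℂ] H} (ha : LamSeq N ξ l a) (η : H) :
    Tendsto (fun n => (a n * slX X f g -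
      slX X (tr ℂ (Real.log l) f) (tr ℂ (Real.log l) g) * a n) η) atTop (𝓝 0) := by
  obtain ⟨R, D, Ψ, hΨ, hN⟩ := S.exists_modular
  exact U14.shift_all S hΨ hN (fun u hu h1 h2 => S.fco_mem_GK hΨ hN hu h1 h2) hX f g ha
    (fun f => S.lamSeq_conj hΨ hl ha f) η

theorem Setting.slX_shift (S : Setting M N E ξ) {X : L2R H →L[ℂ] L2R H} (hX : X ∈ Rk M N ξ)
    (f g : L2R ℂ) {l : ℝ} (hl : 0 < l) {a : ℕ → H →L[ℂ] H} (ha : LamSeq N ξ l a) :
    Tendsto (fun n => (a n * slX X f g -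
      slX X (tr ℂ (Real.log l) f) (tr ℂ (Real.log l) g) * a n) ξ) atTop (𝓝 0) :=
  S.slX_shift_all hX f g hl ha ξ

theorem Setting.slX_bicent (S : Setting M N E ξ) {X : L2R H →L[ℂ] L2R H} (hX : X ∈ Rk M N ξ)
    (f g : L2R ℂ) : slX X f g ∈ Bicent M N ξ := by
  refine ⟨slX_mem hX.1 f g, fun a ha η => ?_⟩
  have h1 := (S.slX_shift_all hX f g one_pos ha η).neg
  rw [neg_zero, Real.log_one, tr_zero] at h1
  refine h1.congr fun n => ?_
  rw [sub_apply, neg_sub]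
  rfl

end Pool.Agent.Helper23

end

section

open scoped InnerProductSpace Topology

open ContinuousLinearMap Filter

namespace Pool.Agent.Helper23

variable {H : Type*} [NormedAddCommGroup H] [InnerProductSpace ℂ H] [CompleteSpace H]

variable {M N : VonNeumannAlgebra H} {ξ : H} {E : (H →L[ℂ] H) → (H →L[ℂ] H)}

namespace AP

variable (S : AP M N E ξ)

include S

/-- STEP 2 -/
lemma spread_zero {y : H →L[ℂ] H} (hy : y ∈ Bicent M N ξ) {R κ : ℝ} (hR : 0 < R) (hκ : 0 < κ) :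
    ∃ K1 : ℝ, 0 ≤ K1 ∧ ∀ T T', Partner N ξ T T' →
      ‖(y * T - T * y) ξ‖ ^ 2 ≤ 2 * κ + K1 * ‖(T' - T) ξ‖ ^ 2 +
        2 * ‖y ξ‖ ^ 2 / R ^ 2 * ‖(star T * T) ξ‖ ^ 2 := by
  have hyQ := S.bicent_memQ hy
  obtain ⟨K0, hK0, h0⟩ := bicent_modulus S.norm_one hy (k0 := 4 * κ / R ^ 2) (by positivity)
  refine ⟨81 / 8 * K0, by positivity, fun T T' hTT => ?_⟩
  obtain ⟨g, hg, g1, g2, g3⟩ := exists_trunc (ξ := ξ) hTT.1 hR
  set d := ‖(T' - T) ξ‖ with hd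
  have hd0 : 0 ≤ d := norm_nonneg _
  have hDg := g3 d hd0 (hTT.defect S.norm_one)
  set b : ℂ := ((2 / R : ℝ) : ℂ) with hb
  have hbn : ‖b‖ = 2 / R := by rw [hb, Complex.norm_real, Real.norm_of_nonneg (by positivity)]
  have h1 := h0 (b • g) (smul_mem' _ hg) (by
    rw [norm_smul, hbn]
    calc 2 / R * ‖g‖ ≤ 2 / R * (R / 2) := by gcongr
      _ = 1 := by field_simp) (2 / R * (9 / 4 * d)) (by positivity) (by
    have := hDg.smul b
    rwa [hbn] at this)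
  have e1 : (y * (b • g) - (b • g) * y) ξ = b • ((y * g - g * y) ξ) := by
    rw [mul_smul_comm, smul_mul_assoc, ← smul_sub]; rfl
  rw [e1, norm_smul, hbn] at h1
  have h2 : ‖(y * g - g * y) ξ‖ ^ 2 ≤ κ + K0 * (81 / 16) * d ^ 2 := by
    have h3 : R ^ 2 / 4 * (2 / R * ‖(y * g - g * y) ξ‖) ^ 2 ≤
        R ^ 2 / 4 * (4 * κ / R ^ 2 + K0 * (2 / R * (9 / 4 * d)) ^ 2) := by gcongr
    calc ‖(y * g - g * y) ξ‖ ^ 2 = R ^ 2 / 4 * (2 / R * ‖(y * g - g * y) ξ‖) ^ 2 := by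
          field_simp; ring
      _ ≤ _ := h3
      _ = _ := by field_simp; ring
  have h3 : ‖(y * (T - g) - (T - g) * y) ξ‖ ≤ 2 * ‖y ξ‖ * ‖(T - g) ξ‖ := by
    change ‖y ((T - g) ξ) - (T - g) (y ξ)‖ ≤ _
    refine (norm_sub_le _ _).trans ?_
    rw [S.norm_Q S.irr hyQ (sub_mem hTT.1 hg), S.norm_NQ hyQ (sub_mem hTT.1 hg)]
    linarith
  have h4 : ‖(y * (T - g) - (T - g) * y) ξ‖ ^ 2 ≤
      ‖y ξ‖ ^ 2 / R ^ 2 * ‖(star T * T) ξ‖ ^ 2 := by
    calc ‖(y * (T - g) - (T - g) * y) ξ‖ ^ 2 ≤ (2 * ‖y ξ‖ * ‖(T - g) ξ‖) ^ 2 := by gcongr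
      _ ≤ (2 * ‖y ξ‖ * ((2 * R)⁻¹ * ‖(star T * T) ξ‖)) ^ 2 := by gcongr
      _ = _ := by field_simp
  have e2 : (y * T - T * y) ξ = (y * g - g * y) ξ + (y * (T - g) - (T - g) * y) ξ := by
    rw [← add_apply]
    congr 1
    noncomm_ring
  have h5 : ‖(y * T - T * y) ξ‖ ^ 2 ≤ 2 * ‖(y * g - g * y) ξ‖ ^ 2 +
      2 * ‖(y * (T - g) - (T - g) * y) ξ‖ ^ 2 := by
    rw [e2]
    exact norm_add_sq_le_two _ _
  have e3 : 2 * ‖y ξ‖ ^ 2 / R ^ 2 = 2 * (‖y ξ‖ ^ 2 / R ^ 2) := by ring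
  rw [e3]
  linarith

end AP

end Pool.Agent.Helper23

end

section

open scoped InnerProductSpace Topology ENNReal BoundedContinuousFunction

open ContinuousLinearMap Filter MeasureTheory

namespace Pool.Agent.Helper23

universe u

variable {H : Type u} [NormedAddCommGroup H] [InnerProductSpace ℂ H] [CompleteSpace H]

variable {M N : VonNeumannAlgebra H} {ξ : H} {E : (H →L[ℂ] H) → (H →L[ℂ] H)}

theorem Setting.conjGK (S : Setting M N E ξ) : ConjGK N ξ := by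
  obtain ⟨R, D, Ψ, hΨ, hN⟩ := S.exists_modular
  refine ⟨fco fun t : ℝ => Ψ (expB (2 * Real.pi * t)),
    fco fun t : ℝ => Ψ (expB (-(2 * Real.pi * t))), hΨ.W_star, hΨ.W_mul, hΨ.W_mul',
    fun u hu hu1 hu2 => ?_⟩
  rw [← hΨ.conj_eq]
  exact S.fco_mem_GK hΨ hN hu hu1 hu2

end Pool.Agent.Helper23

end

section

open scoped InnerProductSpace Topology ENNReal BoundedContinuousFunction FourierTransform SchwartzMap

open ContinuousLinearMap Filter MeasureTheory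

namespace Pool.Agent.Helper23.ED

open Pool.Agent.Helper23 Pool.Agent.Helper23.RBF

open Pool.Agent.Helper78.BC.Transport (Sub r)

universe u

variable {H : Type*} [NormedAddCommGroup H] [InnerProductSpace ℂ H] [CompleteSpace H]

variable {M N : VonNeumannAlgebra H} {ξ : H} {E : (H →L[ℂ] H) → (H →L[ℂ] H)}

open GgB in
theorem fcn_comm {A : VonNeumannAlgebra H} {R : H →L[ℂ] H} {D : H →L[ℝ] H}
    {Ψ : (ℝ →ᵇ ℂ) →⋆ₐ[ℂ] (H →L[ℂ] H)} (hΨ : Modular A ξ R D Ψ) (c : H →L[ℂ] H) (a : ℝ) :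
    fcn Ψ c * UV (fun t => Ψ (expB t)) a = UV (fun t => Ψ (expB t)) a * fcn Ψ c := by
  set T : ℝ → H →L[ℂ] H :=
    fun t : ℝ => Ψ (expB (2 * Real.pi * t)) * c * Ψ (expB (-(2 * Real.pi * t))) with hT
  have hd : Dec T := hΨ.conj_dec c
  have hU : ∀ t : ℝ, Dec fun s : ℝ => Ψ (expB (2 * Real.pi * (s - t))) := fun t =>
    Dec.of_cont zero_le_one (fun s => (psi_norm_le Ψ _).trans (expB_norm _))
      (fun v => (hΨ.U_cont v).comp (by fun_prop))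
  have hU' : ∀ t : ℝ, Dec fun s : ℝ => Ψ (expB (-(2 * Real.pi * (s - t)))) := fun t =>
    Dec.of_cont zero_le_one (fun s => (psi_norm_le Ψ _).trans (expB_norm _))
      (fun v => (hΨ.U_cont v).comp (by fun_prop))
  have hd' : ∀ t, Dec fun s => T (s - t) := fun t => ((hU t).comp (Dec.const c)).comp (hU' t)
  have hp : (2 * Real.pi) ≠ 0 := by positivity
  have hkey : ∀ s : ℝ, T s * Ψ (expB a) = Ψ (expB a) * T (s - a / (2 * Real.pi)) := by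
    intro s
    have e1 : 2 * Real.pi * (s - a / (2 * Real.pi)) = 2 * Real.pi * s - a := by field_simp
    simp only [hT]
    rw [e1, ← mul_assoc, ← mul_assoc, psi_expB_mul, mul_assoc _ (Ψ _) (Ψ _), psi_expB_mul]
    congr 3
    · congr 2
      ring
    · congr 1
      ring
  ext F : 1
  refine (Fo H).injective ?_
  change Fo H (fco T (lift (Ψ (expB a)) (mulOp H (ems a) F))) =
    Fo H (lift (Ψ (expB a)) (mulOp H (ems a) (fco T F)))
  rw [Fo_fco, Fo_lift, Fo_ems, Fo_lift, Fo_ems, Fo_fco, tr_dec hd hd']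
  have h1 := dec_comp hd (Dec.const (Ψ (expB a))) (tr H (a / (2 * Real.pi)) (Fo H F))
  have h2 := dec_comp (Dec.const (Ψ (expB a))) (hd' (a / (2 * Real.pi)))
    (tr H (a / (2 * Real.pi)) (Fo H F))
  refine h1.trans (Eq.trans ?_ h2.symm)
  congr 2
  funext s
  exact hkey s

end Pool.Agent.Helper23.ED

end

section

open scoped InnerProductSpace Topology ENNReal BoundedContinuousFunction

open ContinuousLinearMap Filter MeasureTheory

namespace Pool.Agent.Helper23.ED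

open Pool.Agent.Helper23 Pool.Agent.Helper23.RBF

open Pool.Agent.Helper78.BC.Transport (Sub r)

universe u

variable {H : Type*} [NormedAddCommGroup H] [InnerProductSpace ℂ H] [CompleteSpace H]

variable {M N : VonNeumannAlgebra H} {ξ : H} {E : (H →L[ℂ] H) → (H →L[ℂ] H)}

lemma RkB_star {R : H →L[ℂ] H} {D : H →L[ℝ] H}
    {Ψ : (ℝ →ᵇ ℂ) →⋆ₐ[ℂ] (H →L[ℂ] H)} (hΨ : Modular M ξ R D Ψ)
    (hN : ∀ (t : ℝ), ∀ a ∈ N, Ψ (expB t) * a * Ψ (expB (-t)) ∈ N)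
    {X : L2R H →L[ℂ] L2R H} (hX : X ∈ Rk1 M N Ψ) : star X ∈ Rk1 M N Ψ := by
  refine ⟨star_mem hX.1, fun m hm h1 => ?_, fun u hu h1 h2 => ?_⟩
  · have hm1 := mulOp_mem_GK (ξ := ξ) M hm h1
    exact RkB_star_aux hm1.2.1 hm1.2.2.1 (hX.2.1 m hm h1)
  · have h3 := fcn_unit hΨ hN hu h1 h2
    exact RkB_star_aux h3.2.1 h3.2.2 (hX.2.2 u hu h1 h2)

lemma RkB_piU (S : BFlow M N E ξ) {R : H →L[ℂ] H} {D : H →L[ℝ] H}
    {Ψ : (ℝ →ᵇ ℂ) →⋆ₐ[ℂ] (H →L[ℂ] H)} (hΨ : Modular M ξ R D Ψ)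
    (hN : ∀ (t : ℝ), ∀ a ∈ N, Ψ (expB t) * a * Ψ (expB (-t)) ∈ N)
    {y : H →L[ℂ] H} (hy : y ∈ Bicent M N ξ) : piU M N ξ y ∈ Rk1 M N Ψ :=
  ⟨S.piU_mem hy, fun _ hm h1 => S.comm_of_bicent (mulOp_mem_GK N hm h1) hy,
    fun _ hu h1 h2 => S.comm_of_bicent (S.toSetting.fco_mem_GK hΨ hN hu h1 h2) hy⟩

section main

variable (S : BFlow M N E ξ) {R : H →L[ℂ] H} {D : H →L[ℝ] H}
    {Ψ : (ℝ →ᵇ ℂ) →⋆ₐ[ℂ] (H →L[ℂ] H)} (hΨ : Modular M ξ R D Ψ)
    (hN : ∀ (t : ℝ), ∀ a ∈ N, Ψ (expB t) * a * Ψ (expB (-t)) ∈ N)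

include S hΨ hN

lemma RkB_scalar {Z : L2R H →L[ℂ] L2R H} (hZ : Z ∈ Rk1 M N Ψ) : ∃ c : ℂ, ∀ f1 f2 : L2R ℂ,
    ⟪ten f1 ξ, Z (ten f2 ξ)⟫_ℂ = c * ⟪f1, f2⟫_ℂ := by
  obtain ⟨c, hc⟩ := scalar_of_comm (R := RR Z ξ ξ) (by
    intro m hm f
    refine ext_inner_left ℂ fun g => ?_
    rw [inner_RR, ← mulOp_adj hm, inner_RR, ← mulOp_ten hm, ← RkB_mulOp_apply' hZ hm,
      ← mulOp_adj hm, mulOp_ten hm.conj]) (by
    intro t f
    refine ext_inner_left ℂ fun g => ?_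
    have h1 : ⟪g, tr ℂ t (RR Z ξ ξ f)⟫_ℂ = ⟪tr ℂ (-t) g, RR Z ξ ξ f⟫_ℂ := by
      rw [tr_adj, neg_neg]
    rw [h1, inner_RR, inner_RR, ← inner_slX, ← inner_slX]
    have h2 := (Rk1_slX S hΨ hN hZ (tr ℂ (-t) g) f).2 _ (Real.exp_pos t)
    rw [Real.log_exp, tr_tr_neg] at h2
    rw [← h2, S.bt_state _ (Rk1_slX S hΨ hN hZ _ _).1 _ (Real.exp_pos t)])
  refine ⟨c, fun f1 f2 => ?_⟩
  rw [← inner_RR, hc, smul_apply, inner_smul_right]
  rfl

lemma RkB_scalar' {Z : L2R H →L[ℂ] L2R H} (hZ : Z ∈ Rk1 M N Ψ) {f : L2R ℂ} (hf : ‖f‖ = 1)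
    (f1 f2 : L2R ℂ) :
    ⟪ten f1 ξ, Z (ten f2 ξ)⟫_ℂ = ⟪ten f ξ, Z (ten f ξ)⟫_ℂ * ⟪f1, f2⟫_ℂ := by
  obtain ⟨c, hc⟩ := RkB_scalar S hΨ hN hZ
  rw [hc, hc, inner_self_eq_norm_sq_to_K (𝕜 := ℂ) f, hf]
  simp

lemma RkB_eq_zero {X : L2R H →L[ℂ] L2R H} (hX : X ∈ Rk1 M N Ψ)
    (h : ∀ y, y ∈ Bicent M N ξ → ∀ f1 f2 : L2R ℂ,
      ⟪piU M N ξ y (ten f1 ξ), X (ten f2 ξ)⟫_ℂ = 0) : X = 0 := by
  refine amp_ext (ξ := ξ) S.dense_comm hX.1 (zero_mem _) fun f2 => ?_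
  rw [zero_apply]
  refine eq_zero_of_ten fun f1 η => ?_
  have h1 := S.orthogonal_of_piU (fun y hy f => h y hy f f2) (Rk1_slX S hΨ hN hX f1 f2).1 f1
  rw [← inner_slX, inner_self_eq_zero] at h1
  rw [← inner_slX, h1, inner_zero_right]

end main

theorem Rk1_sur (S : BFlow M N E ξ) {R : H →L[ℂ] H} {D : H →L[ℝ] H}
    {Ψ : (ℝ →ᵇ ℂ) →⋆ₐ[ℂ] (H →L[ℂ] H)} (hΨ : Modular M ξ R D Ψ)
    (hN : ∀ (t : ℝ), ∀ a ∈ N, Ψ (expB t) * a * Ψ (expB (-t)) ∈ N)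
    {X : L2R H →L[ℂ] L2R H} (hX : X ∈ Rk1 M N Ψ) :
    ∃ x, x ∈ Bicent M N ξ ∧ X = piU M N ξ x := by
  -- the space of the bicentralizer
  set Bs : Submodule ℂ (H →L[ℂ] H) :=
    { carrier := {x | x ∈ Bicent M N ξ}
      add_mem' := fun hx hy => AP.bicent_add hx hy
      zero_mem' := bicent_zero
      smul_mem' := fun c x hx => AP.bicent_smul c hx } with hBs
  set V : Submodule ℂ H := (Bs.map (evξ ξ)).topologicalClosure with hV
  have hVc : IsClosed (V : Set H) := Submodule.isClosed_topologicalClosure _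
  have : CompleteSpace V := hVc.completeSpace_coe
  have hBV : ∀ y, y ∈ Bicent M N ξ → y ξ ∈ V := fun y hy =>
    Submodule.le_topologicalClosure _ ⟨y, hy, rfl⟩
  have hVcl : ∀ v ∈ V, v ∈ closure {v : H | ∃ y ∈ Bicent M N ξ, v = y ξ} := by
    intro v hv
    have h1 : (V : Set H) = closure ((Bs.map (evξ ξ) : Submodule ℂ H) : Set H) :=
      Submodule.topologicalClosure_coe _
    have h2 : v ∈ closure ((Bs.map (evξ ξ) : Submodule ℂ H) : Set H) := by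
      rw [← h1]; exact hv
    refine closure_mono ?_ h2
    rintro _ ⟨y, hy, rfl⟩
    exact ⟨y, hy, rfl⟩
  set e : Bs →ₗ[ℂ] V :=
    { toFun := fun y => ⟨(y : H →L[ℂ] H) ξ, hBV _ y.2⟩
      map_add' := fun _ _ => rfl
      map_smul' := fun _ _ => rfl } with he
  set f : Bs →ₗ[ℂ] L2R H :=
    { toFun := fun y => piU M N ξ (y : H →L[ℂ] H) (ten e0 ξ)
      map_add' := fun y z => by
        change piU M N ξ ((y : H →L[ℂ] H) + z) _ = _
        rw [S.piU_add y.2 z.2]; rfl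
      map_smul' := fun c y => by
        change piU M N ξ (c • (y : H →L[ℂ] H)) _ = _
        rw [S.piU_smul c y.2]; rfl } with hf
  have hed : DenseRange e := by
    intro v
    rw [Metric.mem_closure_iff]
    intro ε hε
    obtain ⟨w, ⟨y, hy, rfl⟩, hw⟩ := Metric.mem_closure_iff.1 (hVcl v.1 v.2) ε hε
    exact ⟨e ⟨y, hy⟩, ⟨_, rfl⟩, hw⟩
  have he0 : ⟪e0, e0⟫_ℂ = 1 := by
    rw [inner_self_eq_norm_sq_to_K, e0_norm]; simp
  obtain ⟨z, hz, -⟩ := exists_ext' f e hed (C := 1) zero_le_one (by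
    intro y
    rw [one_mul]
    have h1 := S.inner_piU_ten y.2 y.2 e0 e0
    rw [he0, mul_one, inner_self_eq_norm_sq_to_K, inner_self_eq_norm_sq_to_K] at h1
    have h2 : ‖piU M N ξ (y : H →L[ℂ] H) (ten e0 ξ)‖ ^ 2 = ‖(y : H →L[ℂ] H) ξ‖ ^ 2 := by
      exact_mod_cast h1
    exact ((pow_left_inj₀ (norm_nonneg _) (norm_nonneg _) two_ne_zero).1 h2).le)
  set η₀ : H := (((adjoint z) (X (ten e0 ξ)) : V) : H) with hη₀
  have hη₀V : η₀ ∈ V := ((adjoint z) (X (ten e0 ξ))).2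
  have hpair : ∀ y, y ∈ Bicent M N ξ → ⟪y ξ, η₀⟫_ℂ = ⟪piU M N ξ y (ten e0 ξ), X (ten e0 ξ)⟫_ℂ := by
    intro y hy
    have h1 : ⟪e ⟨y, hy⟩, (adjoint z) (X (ten e0 ξ))⟫_ℂ = ⟪z (e ⟨y, hy⟩), X (ten e0 ξ)⟫_ℂ :=
      adjoint_inner_right _ _ _
    rw [hz] at h1
    exact h1
  -- the approximating sequence
  set x : ℕ → H →L[ℂ] H := fun n => slX X (fn n) (fn n) with hx
  have hxB : ∀ n, x n ∈ Bicent M N ξ := fun n => (Rk1_slX S hΨ hN hX _ _).1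
  have hxn : ∀ n η, ‖x n η‖ ≤ ‖X‖ * ‖η‖ := by
    intro n η
    have h1 := slX_norm_sub X (fn n) (fn n) 0 0 η
    have h2 : slX X (0 : L2R ℂ) 0 η = 0 := by
      rw [slX_apply]
      have : ten (0 : L2R ℂ) η = 0 := map_zero (axi η)
      rw [this, map_zero, map_zero]
    rw [h2, sub_zero, sub_zero, norm_zero, zero_mul, add_zero, fn_norm, one_mul, mul_one] at h1
    exact h1
  -- weak convergence
  have hw1 : ∀ y, y ∈ Bicent M N ξ → Tendsto (fun n => ⟪y ξ, x n ξ⟫_ℂ) atTop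
      (𝓝 ⟪y ξ, η₀⟫_ℂ) := by
    intro y hy
    have hZ : star (piU M N ξ y) * X ∈ Rk1 M N Ψ :=
      RkB_mul (RkB_star hΨ hN (RkB_piU S hΨ hN hy)) hX
    have h1 : ∀ n, ⟪y ξ, x n ξ⟫_ℂ = ⟪y ξ, η₀⟫_ℂ +
        ⟪ten (fn n) (y ξ) - piU M N ξ y (ten (fn n) ξ), X (ten (fn n) ξ)⟫_ℂ := by
      intro n
      have h2 := RkB_scalar' S hΨ hN hZ e0_norm (fn n) (fn n)
      have h3 : ⟪fn n, fn n⟫_ℂ = 1 := by
        rw [inner_self_eq_norm_sq_to_K, fn_norm]; simp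
      rw [h3, mul_one] at h2
      change ⟪_, (star (piU M N ξ y)) (X (ten (fn n) ξ))⟫_ℂ =
        ⟪_, (star (piU M N ξ y)) (X (ten e0 ξ))⟫_ℂ at h2
      rw [inner_star_right, inner_star_right, ← hpair y hy] at h2
      rw [inner_sub_left, h2, hx]
      simp only [inner_slX]
      ring
    simp only [h1]
    have h4 : Tendsto (fun n => ⟪ten (fn n) (y ξ) - piU M N ξ y (ten (fn n) ξ),
        X (ten (fn n) ξ)⟫_ℂ) atTop (𝓝 0) := by
      rw [tendsto_zero_iff_norm_tendsto_zero]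
      have h5 := (S.piU_fn hy).mul_const (‖X‖ * ‖ξ‖)
      rw [zero_mul] at h5
      refine squeeze_zero (fun _ => norm_nonneg _) (fun n => ?_) h5
      refine (norm_inner_le_norm _ _).trans ?_
      gcongr
      refine (X.le_opNorm _).trans ?_
      rw [norm_ten, fn_norm, one_mul]
    have := h4.const_add ⟪y ξ, η₀⟫_ℂ
    rwa [add_zero] at this
  have hbd : ∀ n, ‖x n ξ - η₀‖ ≤ ‖X‖ * ‖ξ‖ + ‖η₀‖ := fun n =>
    (norm_sub_le _ _).trans (add_le_add (hxn n ξ) le_rfl)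
  have hw2 : ∀ v ∈ V, Tendsto (fun n => ⟪v, x n ξ - η₀⟫_ℂ) atTop (𝓝 0) := by
    intro v hv
    rw [Metric.tendsto_atTop]
    intro ε hε
    set K : ℝ := ‖X‖ * ‖ξ‖ + ‖η₀‖ + 1 with hK
    have hK0 : 0 < K := by positivity
    obtain ⟨w, ⟨y, hy, rfl⟩, hw⟩ := Metric.mem_closure_iff.1 (hVcl v hv) (ε / (2 * K))
      (by positivity)
    have h1 := hw1 y hy
    rw [Metric.tendsto_atTop] at h1
    obtain ⟨n0, hn0⟩ := h1 (ε / 2) (by positivity)
    refine ⟨n0, fun n hn => ?_⟩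
    have h2 := hn0 n hn
    rw [dist_eq_norm, ← inner_sub_right] at h2
    rw [dist_zero_right]
    have h3 : ⟪v, x n ξ - η₀⟫_ℂ = ⟪v - y ξ, x n ξ - η₀⟫_ℂ + ⟪y ξ, x n ξ - η₀⟫_ℂ := by
      rw [inner_sub_left]; ring
    rw [h3]
    rw [dist_eq_norm] at hw
    calc _ ≤ ‖⟪v - y ξ, x n ξ - η₀⟫_ℂ‖ + ‖⟪y ξ, x n ξ - η₀⟫_ℂ‖ := norm_add_le _ _
      _ ≤ ‖v - y ξ‖ * ‖x n ξ - η₀‖ + ‖⟪y ξ, x n ξ - η₀⟫_ℂ‖ := by
          gcongr
          exact norm_inner_le_norm _ _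
      _ ≤ (ε / (2 * K)) * K + ‖⟪y ξ, x n ξ - η₀⟫_ℂ‖ := by
          gcongr
          exact (hbd n).trans (by rw [hK]; linarith)
      _ < (ε / (2 * K)) * K + ε / 2 := by linarith
      _ = ε := by field_simp; ring
  have hw3 : ∀ ζ : H, Tendsto (fun n => ⟪ζ, x n ξ⟫_ℂ) atTop (𝓝 ⟪ζ, η₀⟫_ℂ) := by
    intro ζ
    have h1 := hw2 (V.starProjection ζ) (Submodule.starProjection_apply_mem _ _)
    have h2 : ∀ n, ⟪ζ, x n ξ⟫_ℂ = ⟪ζ, η₀⟫_ℂ + ⟪V.starProjection ζ, x n ξ - η₀⟫_ℂ := by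
      intro n
      rw [Submodule.inner_starProjection_left_eq_right,
        Submodule.starProjection_eq_self_iff.2 (V.sub_mem (hBV _ (hxB n)) hη₀V),
        inner_sub_right]
      ring
    simp only [h2]
    have := h1.const_add ⟪ζ, η₀⟫_ℂ
    rwa [add_zero] at this
  -- the limit operator
  have hbound : ∀ m ∈ M.commutant, ‖m η₀‖ ≤ ‖X‖ * ‖m ξ‖ := by
    intro m hm
    have h1 := hw3 ((star m) (m η₀))
    have h2 : ∀ n, ‖⟪(star m) (m η₀), x n ξ⟫_ℂ‖ ≤ ‖m η₀‖ * (‖X‖ * ‖m ξ‖) := by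
      intro n
      rw [inner_star_left, ← commute_apply (hxB n).1 hm]
      exact (norm_inner_le_norm _ _).trans (by gcongr; exact hxn n _)
    have h3 := le_of_tendsto h1.norm (Eventually.of_forall h2)
    rw [inner_star_left, inner_self_eq_norm_sq_to_K] at h3
    have h4 : ‖m η₀‖ ^ 2 ≤ ‖m η₀‖ * (‖X‖ * ‖m ξ‖) := by
      simpa using h3
    by_contra hcon
    push Not at hcon
    have h5 : 0 ≤ ‖X‖ * ‖m ξ‖ := by positivity
    nlinarith [norm_nonneg (m η₀)]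
  obtain ⟨x₀, hx₀, hx₀eq, -⟩ := exists_op M.commutant (norm_nonneg X) S.dense_comm hbound
  rw [VonNeumannAlgebra.commutant_commutant] at hx₀
  have hx₀ξ : x₀ ξ = η₀ := by
    have := hx₀eq 1 (one_mem _)
    simpa using this
  have hB : x₀ ∈ Bicent M N ξ := S.bicent_of_closure hx₀ (by rw [hx₀ξ]; exact hVcl _ hη₀V)
  refine ⟨x₀, hB, ?_⟩
  rw [← sub_eq_zero]
  refine RkB_eq_zero S hΨ hN (RkB_sub hX (RkB_piU S hΨ hN hB)) fun y hy f1 f2 => ?_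
  have hZ : star (piU M N ξ y) * X ∈ Rk1 M N Ψ :=
      RkB_mul (RkB_star hΨ hN (RkB_piU S hΨ hN hy)) hX
  have h2 := RkB_scalar' S hΨ hN hZ e0_norm f1 f2
  change ⟪_, (star (piU M N ξ y)) (X (ten f2 ξ))⟫_ℂ =
    ⟪_, (star (piU M N ξ y)) (X (ten e0 ξ))⟫_ℂ * _ at h2
  rw [inner_star_right, inner_star_right, ← hpair y hy] at h2
  rw [sub_apply, inner_sub_right, h2, S.inner_piU_ten hB hy, hx₀ξ, sub_self]

end Pool.Agent.Helper23.ED

end
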