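import Pool.Agent.Helper23.FA.Ns
import Pool.Agent.Helper23.FA.L02_01
import Pool.Agent.Helper23.FA.L02_03
import Pool.Agent.Helper23.FA.L02_04
import Pool.Agent.Helper23.FA.L02_08
import Pool.Agent.Helper23.FA.L02_10
import Pool.Agent.Helper23.FA.L02_12
import Pool.Agent.Helper23.FA.L02_13

/-!
Parts of Helper23.Amp1, Helper23.Frame, Helper94.LbBicent, Helper23.UPi, Helper23.Wt, Helper23.UMain
-/

section

open scoped InnerProductSpace Topology ENNReal

open ContinuousLinearMap Filter MeasureTheory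

set_option linter.unusedSectionVars false

set_option linter.unusedVariables false

namespace Pool.Agent.Helper23

variable {G : Type*} [NormedAddCommGroup G] [InnerProductSpace ℂ G] [CompleteSpace G]

variable {G' : Type*} [NormedAddCommGroup G'] [InnerProductSpace ℂ G'] [CompleteSpace G']

variable {G'' : Type*} [NormedAddCommGroup G''] [InnerProductSpace ℂ G''] [CompleteSpace G'']

lemma tr_star (t : ℝ) : star (tr G t) = tr G (-t) := by
  rw [ContinuousLinearMap.star_eq_adjoint]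
  symm
  rw [ContinuousLinearMap.eq_adjoint_iff]
  intro x y
  rw [tr_adj, neg_neg]

end Pool.Agent.Helper23

end

section

open scoped InnerProductSpace Topology ENNReal

open ContinuousLinearMap Filter MeasureTheory

set_option linter.unusedSectionVars false

set_option linter.unusedVariables false

namespace Pool.Agent.Helper23

section SS

variable {K : Type*} [NormedAddCommGroup K] [InnerProductSpace ℂ K] [CompleteSpace K]

lemma SS_tr (t : ℝ) (Θ : L2R ℂ →L[ℂ] K) :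
    SS (Θ.comp (tr ℂ t)) = ENNReal.ofReal (Real.exp (-t)) * SS Θ := by
  obtain ⟨w, b, -⟩ := exists_hilbertBasis ℂ K
  rw [SS_eq b, SS_eq b, ← ENNReal.tsum_mul_left]
  refine tsum_congr fun i => ?_
  rw [adjoint_comp, ← ContinuousLinearMap.star_eq_adjoint (tr ℂ t), tr_star]
  change q0 (tr ℂ (-t) ((adjoint Θ) (b i))) = _
  rw [q0_tr]

end SS

end Pool.Agent.Helper23

end

section

open scoped InnerProductSpace Topology

open ContinuousLinearMap Filter

namespace Pool.Agent.Helper23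

variable {H : Type*} [NormedAddCommGroup H] [InnerProductSpace ℂ H] [CompleteSpace H]

variable {M N : VonNeumannAlgebra H} {ξ : H} {E : (H →L[ℂ] H) → (H →L[ℂ] H)}

namespace AP

variable (S : AP M N E ξ)

include S

/-- STEP 4, before the limit -/
lemma spread_m {y : H →L[ℂ] H} (hyQ : y ∈ Qalg M N ξ) {κ K1 L : ℝ} (hL : 0 ≤ L)
    (h0 : ∀ T T', Partner N ξ T T' → ‖(y * T - T * y) ξ‖ ^ 2 ≤
      2 * κ + K1 * ‖(T' - T) ξ‖ ^ 2 + L * ‖(star T * T) ξ‖ ^ 2)
    {D D' : H →L[ℂ] H} (hD : Partner N ξ D D') (m : ℕ) (hm : 0 < m) :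
    ‖(y * D - D * y) ξ‖ ^ 2 ≤ 2 * κ + K1 * ‖(D' - D) ξ‖ ^ 2 +
      L * (‖(star D * D) ξ‖ ^ 2 * (1 / (m : ℝ)) +
        (‖D ξ‖ ^ 4 + 2 * (‖D ξ‖ ^ 2 * ‖(star D) ξ‖ ^ 2))) := by
  have hm0 : (0 : ℝ) < m := by exact_mod_cast hm
  set μ : ℝ := Real.sqrt (1 / (m : ℝ)) with hμ
  have hμ0 : 0 ≤ μ := Real.sqrt_nonneg _
  have hμ2 : μ ^ 2 = 1 / (m : ℝ) := Real.sq_sqrt (by positivity)
  have hmμ : (m : ℝ) * μ ^ 2 = 1 := by rw [hμ2]; field_simp
  have h1 := S.spread_step hyQ hL h0 (hD.smul (μ : ℂ)) m 0 0 Partner.zero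
  have e1 : ‖(y * ((μ : ℂ) • D) - ((μ : ℂ) • D) * y) ξ‖ = μ * ‖(y * D - D * y) ξ‖ := by
    rw [comm_smul_xi, norm_smul_xi hμ0]
  have e2 : ‖((μ : ℂ) • D' - (μ : ℂ) • D) ξ‖ = μ * ‖(D' - D) ξ‖ := by
    rw [← smul_sub, smul_apply, norm_smul_xi hμ0]
  have e3s : star ((μ : ℂ) • D) = (μ : ℂ) • star D := by
    rw [star_smul]
    congr 1
    exact Complex.conj_ofReal μ
  have e3 : ‖(star ((μ : ℂ) • D) * ((μ : ℂ) • D)) ξ‖ = μ ^ 2 * ‖(star D * D) ξ‖ := by
    rw [e3s, mul_smul_comm, smul_mul_assoc, smul_smul, smul_apply, ← Complex.ofReal_mul,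
      norm_smul_xi (by positivity)]
    ring
  have e4 : ‖((μ : ℂ) • D) ξ‖ = μ * ‖D ξ‖ := by rw [smul_apply, norm_smul_xi hμ0]
  have e5 : ‖(star ((μ : ℂ) • D)) ξ‖ = μ * ‖(star D) ξ‖ := by
    rw [e3s, smul_apply, norm_smul_xi hμ0]
  rw [e1, e2, e3, e4, e5] at h1
  simp only [mul_zero, zero_mul, sub_self, zero_apply, norm_zero, star_zero, zero_add,
    ne_eq, OfNat.ofNat_ne_zero, not_false_eq_true, zero_pow, add_zero] at h1
  have h2 : (m : ℝ) * (m - 1) / 2 * μ ^ 4 ≤ 1 / 2 := by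
    have : (m : ℝ) * (m - 1) / 2 * μ ^ 4 = (1 / 2) * (((m : ℝ) * μ ^ 2) ^ 2 - (m * μ ^ 2) * μ ^ 2) := by
      ring
    rw [this, hmμ]
    nlinarith [sq_nonneg μ]
  have h3 : (m : ℝ) * (m - 1) / 2 * (2 * (μ * ‖D ξ‖) ^ 2 * (μ * ‖D ξ‖) ^ 2 +
      2 * (μ * ‖(star D) ξ‖) ^ 2 * (μ * ‖D ξ‖) ^ 2 +
      2 * (μ * ‖D ξ‖) ^ 2 * (μ * ‖(star D) ξ‖) ^ 2) ≤
      ‖D ξ‖ ^ 4 + 2 * (‖D ξ‖ ^ 2 * ‖(star D) ξ‖ ^ 2) := by
    calc _ = ((m : ℝ) * (m - 1) / 2 * μ ^ 4) *
          (2 * (‖D ξ‖ ^ 4 + 2 * (‖D ξ‖ ^ 2 * ‖(star D) ξ‖ ^ 2))) := by ring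
      _ ≤ (1 / 2) * (2 * (‖D ξ‖ ^ 4 + 2 * (‖D ξ‖ ^ 2 * ‖(star D) ξ‖ ^ 2))) := by gcongr
      _ = _ := by ring
  have h4 := mul_le_mul_of_nonneg_left h3 hL
  have h5 : (m : ℝ) * (μ * ‖(y * D - D * y) ξ‖) ^ 2 = ‖(y * D - D * y) ξ‖ ^ 2 := by
    rw [mul_pow, ← mul_assoc, hmμ, one_mul]
  have h6 : (m : ℝ) * (μ * ‖(D' - D) ξ‖) ^ 2 = ‖(D' - D) ξ‖ ^ 2 := by
    rw [mul_pow, ← mul_assoc, hmμ, one_mul]
  have h7 : (m : ℝ) * (μ ^ 2 * ‖(star D * D) ξ‖) ^ 2 = ‖(star D * D) ξ‖ ^ 2 * (1 / m) := by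
    rw [hμ2]; field_simp
  rw [h5, h6, h7, mul_add] at h1
  linarith

end AP

end Pool.Agent.Helper23

end

section

open scoped InnerProductSpace Topology ENNReal

open ContinuousLinearMap Filter MeasureTheory

namespace Pool.Agent.Helper23

variable {H : Type*} [NormedAddCommGroup H] [InnerProductSpace ℂ H] [CompleteSpace H]

variable {M N : VonNeumannAlgebra H} {ξ : H} {E : (H →L[ℂ] H) → (H →L[ℂ] H)}

namespace BFlow

variable (S : BFlow M N E ξ)

include S

lemma tr_piU {x : H →L[ℂ] H} (hx : x ∈ Bicent M N ξ) {l : ℝ} (hl : 0 < l) :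
    tr H (-Real.log l) * piU M N ξ x * star (tr H (-Real.log l)) =
      piU M N ξ (btU M N ξ l x) := by
  rw [tr_star, neg_neg]
  ext F : 1
  change tr H (-Real.log l) (piU M N ξ x (tr H (Real.log l) F)) = _
  ext1
  filter_upwards [tr_coe (-Real.log l) (piU M N ξ x (tr H (Real.log l) F)),
    ae_tr (-Real.log l) (S.piU_coe hx (tr H (Real.log l) F)),
    ae_tr (-Real.log l) (tr_coe (Real.log l) F),
    S.piU_coe (S.bt_mem _ hx _ hl) F] with s h1 h2 h3 h4
  rw [h1, h2, h3, h4, S.bt_bt _ hx _ (Real.exp_pos s) _ hl, sub_neg_eq_add, Real.exp_add,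
    Real.exp_log hl, add_sub_cancel_right]

end BFlow

end Pool.Agent.Helper23

end

section

open scoped InnerProductSpace Topology ENNReal

open ContinuousLinearMap Filter MeasureTheory

set_option linter.unusedSectionVars false

set_option linter.unusedVariables false

namespace Pool.Agent.Helper23

variable {H : Type*} [NormedAddCommGroup H] [InnerProductSpace ℂ H] [CompleteSpace H]

variable {M N : VonNeumannAlgebra H} {ξ : H} {E : (H →L[ℂ] H) → (H →L[ℂ] H)}

lemma SX_tr (t : ℝ) (Y : L2R H →L[ℂ] L2R H) :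
    SX ξ (Y * tr H t) = ENNReal.ofReal (Real.exp (-t)) * SX ξ Y := by
  have h2 : (Y * tr H t).comp (axi ξ) = (Y.comp (axi ξ)).comp (tr ℂ t) := by
    ext f : 1
    change Y (tr H t (ten f ξ)) = Y (ten (tr ℂ t f) ξ)
    rw [tr_ten]
  rw [SX, h2, SS_tr]
  rfl

open RBF in
lemma wK_nsf (hd : Dense (orb N.commutant ξ : Set H)) :
    IsNSFWeight (amp N) (wK ξ) where
  add x hx y hy hx0 hy0 := by
    rw [wK, wK, wK, ← ENNReal.tsum_add]
    refine tsum_congr fun j => ?_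
    rw [← ENNReal.ofReal_add (re_inner_nonneg hx0 _) (re_inner_nonneg hy0 _), add_apply,
      inner_add_right, Complex.add_re]
  smul x hx hx0 c hc := by
    rw [wK, wK, ← ENNReal.tsum_mul_left]
    refine tsum_congr fun j => ?_
    rw [← ENNReal.ofReal_mul hc, smul_apply, inner_smul_right, Complex.re_ofReal_mul]
  faithful x hx hx0 h := by
    obtain ⟨Y, hY, rfl⟩ := exists_sqrt_mem (amp N) hx hx0
    rw [wK_star_mul] at h
    have hY0 : Y = 0 := amp_ext (ξ := ξ) hd hY (zero_mem _) fun f => by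
      rw [SX_eq_zero h f]; rfl
    rw [hY0, mul_zero]
  normal D x hD hdir hDA hx hlub := by
    have h1 : ∀ j : JJ, ENNReal.ofReal (⟪ten (gJ j) ξ, x (ten (gJ j) ξ)⟫_ℂ).re =
        ⨆ d : D, ENNReal.ofReal (⟪ten (gJ j) ξ, (d : L2R H →L[ℂ] L2R H) (ten (gJ j) ξ)⟫_ℂ).re := by
      intro j
      refine isLUB_ofReal (fun r => ?_) (hlub (ten (gJ j) ξ))
      constructor
      · rintro ⟨d, hd, rfl⟩
        exact ⟨⟨d, hd⟩, rfl⟩
      · rintro ⟨d, rfl⟩
        exact ⟨d, d.2, rfl⟩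
    rw [wK]
    simp only [h1]
    rw [tsum_iSup_directed, iSup_subtype']
    · rfl
    · rintro ⟨d, hd⟩ ⟨d', hd'⟩
      obtain ⟨e, he, h2, h3⟩ := hdir d hd d' hd'
      exact ⟨⟨e, he⟩, fun a => ⟨ENNReal.ofReal_le_ofReal (le_re_inner h2 _),
        ENNReal.ofReal_le_ofReal (le_re_inner h3 _)⟩⟩
  semifinite F hF := by
    have h1 : ∀ n : ℕ, ∀ f : L2R ℂ, Pn n f = f → sl f F = 0 := by
      intro n f hf
      have hm : rk (1 : H →L[ℂ] H) e0 f ∈ amp N := rk_mem_amp (one_mem N) _ _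
      have h2 := hF (star (rk (1 : H →L[ℂ] H) e0 f) * rk (1 : H →L[ℂ] H) e0 f)
        (mul_mem (star_mem hm) hm) (star_mul_self_nonneg _) (by
          rw [wK_star_mul, SX_rk]
          exact ENNReal.mul_ne_top ENNReal.ofReal_ne_top (q0_lt_top hf))
      have h3 : ‖rk (1 : H →L[ℂ] H) e0 f F‖ = 0 := by
        have h4 := norm_sq_apply (rk (1 : H →L[ℂ] H) e0 f) F
        change _ = ⟪F, (star (rk (1 : H →L[ℂ] H) e0 f) * rk (1 : H →L[ℂ] H) e0 f) F⟫_ℂ at h4
        rw [h2, inner_zero_right] at h4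
        have h5 : ‖rk (1 : H →L[ℂ] H) e0 f F‖ ^ 2 = 0 := by exact_mod_cast h4
        exact pow_eq_zero_iff two_ne_zero |>.1 h5
      rw [rk_apply, norm_ten, e0_norm, one_mul, one_apply_eq_self] at h3
      exact norm_eq_zero.1 h3
    refine eq_zero_of_ten fun f η => ?_
    have h2 : (adjoint (axi η)) F = 0 := by
      refine eq_zero_of_Pn (n0 := 0) fun n _ => ?_
      refine ext_inner_left ℂ fun g => ?_
      rw [← inner_Pn, adjoint_inner_right, inner_zero_right]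
      change ⟪ten (Pn n g) η, F⟫_ℂ = 0
      rw [← inner_sl, h1 n _ (Pn_Pn n g), inner_zero_right]
    have h3 : ⟪f, (adjoint (axi η)) F⟫_ℂ = ⟪ten f η, F⟫_ℂ := by
      rw [adjoint_inner_right]; rfl
    rw [← h3, h2, inner_zero_right]

open RBF in
/-- the translations scale the weight -/
lemma tr_scaling {l : ℝ} (hl : 0 < l) :
    ScalingUnitary (amp N) (wK ξ) l (tr H (-Real.log l)) := by
  refine ⟨tr_mem_amp _, ?_, ?_, fun X hX hX0 => ?_⟩
  · rw [tr_star]
    ext F : 1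
    exact tr_neg_tr _ F
  · rw [tr_star]
    ext F : 1
    exact tr_tr_neg _ F
  · obtain ⟨Y, hY, rfl⟩ := exists_sqrt_mem (amp N) hX hX0
    have : star (tr H (-Real.log l)) * (star Y * Y) * tr H (-Real.log l) =
        star (Y * tr H (-Real.log l)) * (Y * tr H (-Real.log l)) := by
      rw [star_mul]; simp only [mul_assoc]
    rw [this, wK_star_mul, wK_star_mul, SX_tr, neg_neg, Real.exp_log hl]

end Pool.Agent.Helper23

end

section

open scoped InnerProductSpace Topology ENNReal BoundedContinuousFunction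

open ContinuousLinearMap Filter MeasureTheory

namespace Pool.Agent.Helper23

variable {H : Type*} [NormedAddCommGroup H] [InnerProductSpace ℂ H] [CompleteSpace H]

variable {M N : VonNeumannAlgebra H} {ξ : H} {E : (H →L[ℂ] H) → (H →L[ℂ] H)}

open RBF

theorem wK_dominant_of (hd : Dense (orb N.commutant ξ : Set H)) (hN : TwoIsom N)
    (hV : ConjGK N ξ) : IsDominant (amp N) (wK ξ) where
  toIsNSFWeight := wK_nsf hd
  scale l hl := ⟨_, tr_scaling hl⟩
  properlyInfinite := by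
    obtain ⟨v, hv, w, hw, hv1, hw1, hvw⟩ := hN
    obtain ⟨V, V', hVs, hVV, hVV', hVG⟩ := hV
    have hVs' : star V' = V := by rw [← hVs, star_star]
    have hstar : ∀ x y : H →L[ℂ] H, star (V * lift x * V') * (V * lift y * V') =
        V * lift (star x * y) * V' := by
      intro x y
      rw [star_mul, star_mul, hVs, hVs', ← lift_star]
      calc V * (lift (star x) * V') * (V * lift y * V') =
            V * lift (star x) * (V' * V) * lift y * V' := by simp only [mul_assoc]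
        _ = V * (lift (star x) * lift y) * V' := by
          rw [hVV', mul_one, mul_assoc V]
        _ = _ := by rw [← lift_mul]
    have hcomm : ∀ T : L2R H →L[ℂ] L2R H,
        (∀ u, ScalingUnitary (amp N) (wK ξ) 1 u → u * T = T * u) → ∀ a ∈ N,
          V * lift a * V' * T = T * (V * lift a * V') := by
      intro T hT a ha
      obtain ⟨u, k, hk, hu⟩ := exists_unitaries N ha
      have hl : V * lift a * V' = ∑ i, k i • (V * lift (u i) * V') := by
        rw [hk, Fin.sum_univ_four, Fin.sum_univ_four, lift_add, lift_add, lift_add, lift_smul,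
          lift_smul, lift_smul, lift_smul]
        simp only [mul_add, add_mul, mul_smul_comm, smul_mul_assoc]
      rw [hl, Finset.sum_mul, Finset.mul_sum]
      refine Finset.sum_congr rfl fun i _ => ?_
      rw [smul_mul_assoc, mul_smul_comm, hT _ (GK_iff.1 (hVG _ (hu i).1 (hu i).2.1 (hu i).2.2))]
    refine ⟨V * lift v * V', V * lift w * V', ?_, ?_, ?_, fun T hT => ?_⟩
    · rw [hstar, hv1, lift_one, mul_one, hVV]
    · rw [hstar, hw1, lift_one, mul_one, hVV]
    · rw [hstar, hvw, lift_zero', mul_zero, zero_mul]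
    · exact ⟨hcomm T hT v hv, hcomm T hT w hw⟩

end Pool.Agent.Helper23

end
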