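import Pool.Agent.Helper23.FA.Ns
import Pool.Agent.Helper23.FA.L02_01
import Pool.Agent.Helper23.FA.L02_02
import Pool.Agent.Helper23.FA.L02_05
import Pool.Agent.Helper23.FA.L02_09
import Pool.Agent.Helper23.FA.L02_10
import Pool.Agent.Helper23.FA.L02_12
import Pool.Agent.Helper23.FA.L02_13
import Pool.Agent.Helper23.FA.L02_14

/-!
Parts of Helper23.UCore, Helper23.ED.SmF, Helper23.ED.CoD, Helper23.ED.CoE, Helper23.ED.WuB
-/

section

open scoped InnerProductSpace Topology ENNReal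

open ContinuousLinearMap Filter MeasureTheory

namespace Pool.Agent.Helper23

variable {H : Type*} [NormedAddCommGroup H] [InnerProductSpace ℂ H] [CompleteSpace H]

variable {M N : VonNeumannAlgebra H} {ξ : H} {E : (H →L[ℂ] H) → (H →L[ℂ] H)}

namespace AP

variable (S : AP M N E ξ)

include S

/-- the core estimate -/
theorem core' {y : H →L[ℂ] H} (hy : y ∈ Qalg M N ξ)
    {κ K : ℝ} (hκ : 0 < κ) (hK : 0 ≤ K) (hLB : LB N ξ y κ K) {γ₀ : ℝ} (hγ : γ₀ ∈ Gam N ξ)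
    (h1 : 1 < γ₀) (ht1 : Real.log γ₀ ≤ 1 / 2) (m : ℕ) {G : ℝ} (hG : 0 < G)
    (B : Finset hw) {a b : ℤ × hw × ℤ → H →L[ℂ] H} (haN : ∀ l, a l ∈ N) (hbN : ∀ l, b l ∈ N)
    (hab : ∀ l, Partner N ξ (a l)
      (((Real.exp ((l.2.2 - l.1) * Real.log γ₀) : ℝ) : ℂ) • b l))
    (hsa : ∑ j ∈ Finset.Ico (-(m : ℤ)) m, ∑ i ∈ Finset.Ico (-(m : ℤ)) m, ∑ k ∈ B,
      ‖a (i, k, j) ξ‖ ^ 2 ≤ G)
    (hsb : ∑ j ∈ Finset.Ico (-(m : ℤ)) m, ∑ i ∈ Finset.Ico (-(m : ℤ)) m, ∑ k ∈ B,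
      ‖(b (i, k, j) - a (i, k, j)) ξ‖ ^ 2 ≤ 25 * Real.log γ₀ ^ 2 * G)
    {n : ℕ} (hn : 0 < n)
    (hnδ : K * ((1 + 2 * Real.log γ₀ ^ 2) ^ n - 1) ≤ κ) :
    ∃ z ∈ Qalg M N ξ, ‖(z - y) ξ‖ ^ 2 ≤ 2 * κ ∧
      ∑ j ∈ Finset.Ico (-(m : ℤ)) m, ∑ i ∈ Finset.Ico (-(m : ℤ)) m, ∑ k ∈ B,
        ‖(al M N ξ (γ₀ ^ (i - m)) z * a (i, k, j) -
          a (i, k, j) * al M N ξ (γ₀ ^ (j - m)) z) ξ‖ ^ 2 ≤
        96 * G * κ / n := by
  classical
  set t := Real.log γ₀ with ht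
  have ht0 : 0 < t := Real.log_pos h1
  have hγ0 : 0 < γ₀ := hγ.1
  set ga : ℤ → ℝ := fun i => γ₀ ^ (i - m) with hga
  have hgaG : ∀ i, ga i ∈ Gam N ξ := fun i => S.Gam_zpow hγ _
  have hga0 : ∀ i, 0 < ga i := fun i => (hgaG i).1
  choose v hv hv1 hvξ hvi hvc using fun i => S.exists_contr (hgaG i)
  set A := Finset.Ico (-(m : ℤ)) m with hA
  have hAle : ∀ i ∈ A, ga i ≤ 1 := by
    intro i hi
    rw [hA, Finset.mem_Ico] at hi
    exact zpow_le_one_of_nonpos₀ h1.le (by omega)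
  have hco : ∀ i ∈ A, v i * star (v i) = 1 := fun i hi => hvc i (hAle i hi)
  -- the family
  set T : Finset (ℤ × hw × ℤ) := A ×ˢ B ×ˢ A with hT
  have hTmem : ∀ l ∈ T, l.1 ∈ A ∧ l.2.2 ∈ A := by
    intro l hl
    rw [hT, Finset.mem_product, Finset.mem_product] at hl
    exact ⟨hl.1, hl.2.2⟩
  set c : ℤ × hw × ℤ → H →L[ℂ] H := fun l =>
    (((Real.sqrt (ga l.2.2))⁻¹ : ℝ) : ℂ) • (star (v l.1) * a l * v l.2.2) with hc
  set c' : ℤ × hw × ℤ → H →L[ℂ] H := fun l =>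
    (((Real.sqrt (ga l.2.2))⁻¹ : ℝ) : ℂ) • (star (v l.1) * b l * v l.2.2) with hc'
  have hnorm : ∀ l ∈ T, ∀ x ∈ M, ‖((((Real.sqrt (ga l.2.2))⁻¹ : ℝ) : ℂ) •
      (star (v l.1) * x * v l.2.2)) ξ‖ ^ 2 = ‖x ξ‖ ^ 2 := by
    intro l hl x hx
    rw [smul_apply, norm_smul, mul_pow, norm_comp S.toSetting (hco _ (hTmem l hl).1) (hv l.2.2)
      (hco _ (hTmem l hl).2) hx, Complex.norm_real, Real.norm_of_nonneg (by positivity), inv_pow,
      Real.sq_sqrt (hga0 _).le, ← mul_assoc, inv_mul_cancel₀ (hga0 _).ne', one_mul]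
  have hpart : ∀ l, Partner N ξ (c l) (c' l) := by
    intro l
    have p1 := Partner.of_eig (inv_ne_zero (hga0 l.1).ne') (eig_star (hga0 l.1).ne' (hv l.1))
    have p2 := hab l
    have p3 := Partner.of_eig (hga0 l.2.2).ne' (hv l.2.2)
    have p4 := Partner.smul (((Real.sqrt (ga l.2.2))⁻¹ : ℝ) : ℂ) ((p1.mul p2).mul p3)
    have e1 : (((Real.sqrt (ga l.2.2))⁻¹ : ℝ) : ℂ) •
        (((((ga l.1)⁻¹)⁻¹ : ℝ) : ℂ) • star (v l.1) *
          (((Real.exp ((l.2.2 - l.1) * t) : ℝ) : ℂ) • b l) *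
          ((((ga l.2.2)⁻¹ : ℝ) : ℂ) • v l.2.2)) = c' l := by
      rw [hc']
      simp only [smul_mul_assoc, mul_smul_comm, smul_smul]
      congr 1
      rw [← Complex.ofReal_mul, ← Complex.ofReal_mul, ← Complex.ofReal_mul]
      congr 1
      have e2 : ga l.1 = Real.exp ((l.1 - m) * t) := by
        rw [hga, ht]
        simp only
        rw [← Real.rpow_intCast, Real.rpow_def_of_pos hγ0]
        push_cast
        ring_nf
      have e3 : ga l.2.2 = Real.exp ((l.2.2 - m) * t) := by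
        rw [hga, ht]
        simp only
        rw [← Real.rpow_intCast, Real.rpow_def_of_pos hγ0]
        push_cast
        ring_nf
      have e4 : (ga l.2.2)⁻¹ * (Real.exp ((l.2.2 - l.1) * t) * (ga l.1)⁻¹⁻¹) = 1 := by
        rw [inv_inv, e2, e3, ← Real.exp_neg, ← Real.exp_add, ← Real.exp_add]
        rw [Real.exp_eq_one_iff]
        ring
      calc _ = (Real.sqrt (ga l.2.2))⁻¹ *
            ((ga l.2.2)⁻¹ * (Real.exp ((l.2.2 - l.1) * t) * (ga l.1)⁻¹⁻¹)) := by ring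
        _ = (Real.sqrt (ga l.2.2))⁻¹ := by rw [e4, mul_one]
    rw [e1] at p4
    exact p4
  have hsum : ∀ f : ℤ × hw × ℤ → ℝ, ∑ l : T, f l =
      ∑ j ∈ A, ∑ i ∈ A, ∑ k ∈ B, f (i, k, j) := by
    intro f
    rw [Finset.sum_coe_sort T f, hT, Finset.sum_product, Finset.sum_comm (s := A) (t := A)]
    refine Finset.sum_congr rfl fun i _ => ?_
    rw [Finset.sum_product, Finset.sum_comm]
  have hm : ∑ l : T, ‖c l ξ‖ ^ 2 ≤ G := by
    have e1 : ∑ l : T, ‖c l ξ‖ ^ 2 = ∑ l : T, ‖a l ξ‖ ^ 2 :=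
      Finset.sum_congr rfl fun l _ => hnorm l l.2 _ (S.le _ (haN l))
    rw [e1, hsum (fun l => ‖a l ξ‖ ^ 2)]
    exact hsa
  have hδ : ∑ l : T, ‖(c' l - c l) ξ‖ ^ 2 ≤ 25 * t ^ 2 * G := by
    have e1 : ∑ l : T, ‖(c' l - c l) ξ‖ ^ 2 = ∑ l : T, ‖(b l - a l) ξ‖ ^ 2 := by
      refine Finset.sum_congr rfl fun l _ => ?_
      rw [← hnorm l l.2 _ (sub_mem (S.le _ (hbN l)) (S.le _ (haN l)))]
      congr 3
      rw [hc, hc', mul_sub, sub_mul, smul_sub]
    rw [e1, hsum (fun l => ‖(b l - a l) ξ‖ ^ 2)]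
    exact hsb
  obtain ⟨z, hz, hzy, hzc⟩ := S.smoothing' hy hκ hK hLB (ι := T) (c := fun l => c l)
    (c' := fun l => c' l) (fun l => hpart l) hG ht0 (by linarith)
    hm hδ hn hnδ
  refine ⟨z, hz, hzy, ?_⟩
  have e1 : ∑ l : T, ‖(z * c l - c l * z) ξ‖ ^ 2 = ∑ l : T,
      ‖(al M N ξ (ga (l : ℤ × hw × ℤ).1) z * a l - a l * al M N ξ (ga (l : ℤ × hw × ℤ).2.2) z) ξ‖ ^ 2 := by
    refine Finset.sum_congr rfl fun l _ => ?_
    have hzi := (mem_Qalg.1 (S.al_mem (hgaG (l : ℤ × hw × ℤ).1) hz)).1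
    have hzj := (mem_Qalg.1 (S.al_mem (hgaG (l : ℤ × hw × ℤ).2.2) hz)).1
    rw [← hnorm l l.2 _ (sub_mem (mul_mem hzi (S.le _ (haN l))) (mul_mem (S.le _ (haN l)) hzj))]
    congr 3
    have r1 : star (v (l : ℤ × hw × ℤ).1) * al M N ξ (ga (l : ℤ × hw × ℤ).1) z =
        z * star (v (l : ℤ × hw × ℤ).1) :=
      Rel.adj S.irr (hga0 _).ne' (hgaG _).2 (S.al_mem (hgaG _) hz) (S.al_rel (hgaG _) hz)
        (eig_star (hga0 _).ne' (hv _))
    have r2 : v (l : ℤ × hw × ℤ).2.2 * z =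
        al M N ξ (ga (l : ℤ × hw × ℤ).2.2) z * v (l : ℤ × hw × ℤ).2.2 :=
      S.al_rel (hgaG _) hz _ (hv _)
    rw [hc]
    simp only
    rw [mul_smul_comm, smul_mul_assoc, ← smul_sub]
    congr 1
    rw [mul_sub, sub_mul]
    congr 1
    · rw [← mul_assoc, ← mul_assoc, ← r1]
      simp only [mul_assoc]
    · rw [mul_assoc, r2]
      simp only [mul_assoc]
  rw [e1, hsum (fun l => ‖(al M N ξ (ga l.1) z * a l - a l * al M N ξ (ga l.2.2) z) ξ‖ ^ 2)] at hzc
  exact hzc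

end AP

end Pool.Agent.Helper23

end

section

open scoped InnerProductSpace Topology ENNReal BoundedContinuousFunction

open ContinuousLinearMap Filter MeasureTheory

namespace Pool.Agent.Helper23.ED

open Pool.Agent.Helper23 Pool.Agent.Helper23.RBF

open Pool.Agent.Helper78.BC.Transport (Sub r)

universe u

open Pool.Agent.Helper43.TTF (FT)

variable {K : Type*} [NormedAddCommGroup K] [InnerProductSpace ℂ K] [CompleteSpace K]

variable {A : VonNeumannAlgebra K} {κ : K} {R : K →L[ℂ] K} {D : K →L[ℝ] K}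
  {Ψ : (ℝ →ᵇ ℂ) →⋆ₐ[ℂ] (K →L[ℂ] K)}

open Pool.Agent.Helper43.TTF in
theorem smear_rel (h : Modular A κ R D Ψ) (hcyc : Dense (orb A κ : Set K))
    (hsep : ∀ a ∈ A, a κ = 0 → a = 0) {Y : K →L[ℂ] K}
    (hY : Y ∈ A.commutant) {m : ℝ} (hm : 0 < m) (z : ℂ) :
    ∃ p ∈ A, smear (fun t => Ψ (expB t)) (gau m z) Y κ = p κ ∧
      (star (smear (fun t => Ψ (expB t)) (gau m (z - Complex.I)) Y)) κ = (star p) κ := by
  have hU : UG (fun t => Ψ (expB t)) := h.fcal.ug
  have hFC : FC R D Ψ := ⟨h.psi_FR, h.psi_comm, h.psi_D, h.psi_cont⟩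
  obtain ⟨J, hJ⟩ := hFC.exists_J h.data
  have hcyc' : Dense (orb A.commutant κ : Set K) := dense_of_separating A κ hsep
  set b := hJ.cj Y with hbdef
  have hb : b ∈ A := by
    have h1 := cj_mem h.data.symm hcyc' (by rwa [VonNeumannAlgebra.commutant_commutant])
      hFC.symm hJ.symm hY
    rw [VonNeumannAlgebra.commutant_commutant] at h1
    exact h1
  have hb' : star b ∈ A := star_mem hb
  have hYb : Y = hJ.cj b := by rw [hbdef, hJ.cj_cj]
  have hDκ : D κ = κ := by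
    have h1 := h.data.D_comm 1 (one_mem _)
    rwa [star_one, one_apply_eq_self, R_xi h.data] at h1
  have hJκ : J κ = κ := by
    have h1 := hJ.J_T κ
    rw [h.psi_xi, hDκ] at h1
    have h2 : FT 0 = 1 := by
      rw [FT_apply]
      simp
    rwa [h2, one_smul] at h1
  have hYκ : Y κ = J (b κ) := by
    rw [hYb, hJ.cj_apply, hJκ]
  have hYκ' : (star Y) κ = J ((star b) κ) := by
    refine ext_inner_left ℂ fun v => ?_
    rw [inner_star_right, hYb, hJ.cj_apply]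
    have h1 : ⟪J (b (J v)), κ⟫_ℂ = ⟪J (b (J v)), J κ⟫_ℂ := by rw [hJκ]
    rw [h1, hJ.J_add_inner]
    have h2 : ⟪v, J ((star b) κ)⟫_ℂ = ⟪J (J v), J ((star b) κ)⟫_ℂ := by rw [hJ.J_J]
    rw [h2, hJ.J_add_inner, inner_star_left]
  refine ⟨smear (fun t => Ψ (expB t)) (gau m (z - Complex.I / 2)) (star b),
    smear_mem hU (gau_int hm _) (fun t => h.mem t _ hb'), ?_, ?_⟩
  · rw [smear_xi h hm, smear_xi h hm, hYκ, smF_step h hFC hJ hm z hb]
  · rw [smear_star hU (gau_int hm _), smear_star hU (gau_int hm _), star_star]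
    simp only [gau_conj]
    rw [smear_xi h hm, smear_xi h hm, hYκ', smF_step h hFC hJ hm _ hb', star_star]
    congr 2
    congr 1
    simp only [map_sub, Complex.conj_I, map_div₀, Complex.conj_ofNat]
    ring

end Pool.Agent.Helper23.ED

end

section

open scoped InnerProductSpace Topology ENNReal BoundedContinuousFunction

open ContinuousLinearMap Filter MeasureTheory

namespace Pool.Agent.Helper23.ED

open Pool.Agent.Helper23 Pool.Agent.Helper23.RBF

open Pool.Agent.Helper78.BC.Transport (Sub r)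

universe u

variable {H : Type u} [NormedAddCommGroup H] [InnerProductSpace ℂ H] [CompleteSpace H]

variable {K : Type u} [NormedAddCommGroup K] [InnerProductSpace ℂ K] [CompleteSpace K]

variable {N : VonNeumannAlgebra H} {ξ : H} {i : K →L[ℂ] H} {κ : K}

open Pool.Agent.Helper78.BC in
theorem coc_mem' (Sb : Sub N ξ i κ) (hsep : ∀ a ∈ N, a ξ = 0 → a = 0)
    {R₀ : K →L[ℂ] K} {D₀ : K →L[ℝ] K} {Ψ₀ : (ℝ →ᵇ ℂ) →⋆ₐ[ℂ] (K →L[ℂ] K)}
    (h₀ : Modular (Transport.B N i) κ R₀ D₀ Ψ₀)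
    {T : K →L[ℂ] K} {Ψ : (ℝ →ᵇ ℂ) →⋆ₐ[ℂ] (K →L[ℂ] K)} (hΨ : FCal ((2 : ℂ) • T) Ψ)
    (hrel : ∀ X ∈ (Transport.B N i).commutant, ∀ X' ∈ (Transport.B N i).commutant, ∀ p ∈ N,
      i (X κ) = p ξ → i ((star X') κ) = (star p) ξ →
        ∀ v, X (T v) - T (X (T v)) = T (X' (v - T v))) (t : ℝ) :
    Ψ (expB t) * Ψ₀ (expB (-t)) ∈ Transport.B N i := by
  have hU : UG (fun s => Ψ₀ (expB s)) := h₀.fcal.ug
  have hV : UG (fun s => Ψ (expB s)) := hΨ.ug
  have hUU : ∀ s, Ψ₀ (expB s) * Ψ₀ (expB (-s)) = 1 := by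
    intro s
    have h1 := hU.add s (-s)
    have h2 := hU.zero
    simp only [add_neg_cancel] at h1
    rw [← h1]
    exact h2
  have hVV : ∀ s, Ψ (expB (-s)) * Ψ (expB s) = 1 := by
    intro s
    have h1 := hV.add (-s) s
    have h2 := hV.zero
    simp only [neg_add_cancel] at h1
    rw [← h1]
    exact h2
  have hUU' : ∀ s, Ψ₀ (expB (-s)) * Ψ₀ (expB s) = 1 := by
    intro s
    have h1 := hUU (-s)
    rwa [neg_neg] at h1
  -- the commutant is invariant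
  have hinv : ∀ Y ∈ (Transport.B N i).commutant, ∀ s : ℝ,
      Ψ₀ (expB s) * Y * Ψ₀ (expB (-s)) ∈ (Transport.B N i).commutant := by
    intro Y hY s
    rw [mem_comm_iff]
    intro a ha
    have h1 := h₀.mem (-s) a ha
    rw [neg_neg] at h1
    have h2 := mem_comm_iff.1 hY _ h1
    calc a * (Ψ₀ (expB s) * Y * Ψ₀ (expB (-s)))
        = (Ψ₀ (expB s) * Ψ₀ (expB (-s))) * a * (Ψ₀ (expB s) * Y * Ψ₀ (expB (-s))) := by
          rw [hUU, one_mul]
      _ = Ψ₀ (expB s) * ((Ψ₀ (expB (-s)) * a * Ψ₀ (expB s)) * Y) * Ψ₀ (expB (-s)) := by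
          simp only [mul_assoc]
      _ = Ψ₀ (expB s) * (Y * (Ψ₀ (expB (-s)) * a * Ψ₀ (expB s))) * Ψ₀ (expB (-s)) := by
          rw [h2]
      _ = (Ψ₀ (expB s) * Y * Ψ₀ (expB (-s))) * a * (Ψ₀ (expB s) * Ψ₀ (expB (-s))) := by
          simp only [mul_assoc]
      _ = (Ψ₀ (expB s) * Y * Ψ₀ (expB (-s))) * a := by rw [hUU, mul_one]
  have key : ∀ Y ∈ (Transport.B N i).commutant, ∀ s : ℝ,
      Ψ (expB (-s)) * (Ψ₀ (expB s) * Y * Ψ₀ (expB (-s))) * Ψ (expB s) = Y := by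
    intro Y hY s
    refine unsmear hU (fun m hm => ?_)
    refine liou hΨ hU hm ?_ s
    intro z v
    obtain ⟨q, hq, h1, h2⟩ := smear_rel h₀ (Transport.dense_B Sb hsep)
      (Transport.sep_B Sb hsep) hY hm z
    obtain ⟨p, hp, -, rfl⟩ := Transport.exists_lift Sb hsep hq
    refine hrel _ (smear_mem hU (gau_int hm z) (fun s => hinv Y hY s)) _
      (smear_mem hU (gau_int hm (z - Complex.I)) (fun s => hinv Y hY s)) p hp ?_ ?_ v
    · rw [h1, Sb.i_r hp, Sb.vec]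
    · rw [h2, Transport.Sub.r_star, Sb.i_r (star_mem hp), Sb.vec]
  rw [mem_iff_commutes]
  intro Y hY
  have h3 := key Y hY (-t)
  rw [neg_neg] at h3
  have hVV' : Ψ (expB (-t)) * Ψ (expB t) = 1 := hVV t
  have hUt : Ψ₀ (expB t) * Ψ₀ (expB (-t)) = 1 := hUU t
  calc Y * (Ψ (expB t) * Ψ₀ (expB (-t)))
      = (Ψ (expB t) * (Ψ₀ (expB (-t)) * Y * Ψ₀ (expB t)) * Ψ (expB (-t))) *
          (Ψ (expB t) * Ψ₀ (expB (-t))) := by rw [h3]
    _ = Ψ (expB t) * Ψ₀ (expB (-t)) * Y * (Ψ₀ (expB t) *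
          (Ψ (expB (-t)) * Ψ (expB t)) * Ψ₀ (expB (-t))) := by simp only [mul_assoc]
    _ = Ψ (expB t) * Ψ₀ (expB (-t)) * Y := by rw [hVV', mul_one, hUt, mul_one]

end Pool.Agent.Helper23.ED

end

section

open scoped InnerProductSpace Topology ENNReal BoundedContinuousFunction

open ContinuousLinearMap Filter MeasureTheory

namespace Pool.Agent.Helper23.ED

open Pool.Agent.Helper23 Pool.Agent.Helper23.RBF

open Pool.Agent.Helper78.BC.Transport (Sub r)

universe u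

open Pool.Agent.Helper23.TTA (Rop Dop)

variable {H : Type u} [NormedAddCommGroup H] [InnerProductSpace ℂ H] [CompleteSpace H]

variable {M N : VonNeumannAlgebra H} {E : (H →L[ℂ] H) → (H →L[ℂ] H)} {ξ : H}

open Pool.Agent.Helper78.BC Pool.Agent.Helper43.TTF in
theorem exists_coc' (S : Setting M N E ξ) {Ψ : (ℝ →ᵇ ℂ) →⋆ₐ[ℂ] (H →L[ℂ] H)}
    (hΨ : Modular M ξ (Rop M ξ) (Dop M ξ) Ψ)
    (hN : ∀ (t : ℝ), ∀ a ∈ N, Ψ (expB t) * a * Ψ (expB (-t)) ∈ N)
    {ψ : (H →L[ℂ] H) → ℝ≥0∞} (hψ : IsNSFWeight N ψ) :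
    ∃ c, Coc N (fun t => Ψ (expB t)) ψ c := by
  have hsep : ∀ a ∈ N, a ξ = 0 → a = 0 := fun a ha h => S.sep a (S.le a ha) h
  obtain ⟨V, hVc, κ, Sb⟩ := CoE.exists_sub N ξ
  have h' := ttdata (Transport.B N V.subtypeL) κ (Transport.dense_B Sb hsep)
    (Transport.sep_B Sb hsep)
  obtain ⟨Ψ₀, h⟩ := exists_FC h'
  have hmod := modular_of h' (Transport.dense_B Sb hsep) (Transport.sep_B Sb hsep) h
  have hi : ∀ (t : ℝ) (v : V), V.subtypeL (Ψ₀ (expB t) v) = Ψ (expB t) (V.subtypeL v) :=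
    fun t v => FCal.int hmod.fcal hΨ.fcal V.subtypeL (i_Rop S Sb) (expB t) v
  obtain ⟨L, _, _, _, Λ, ρ, hG⟩ := exists_gns hψ
  obtain ⟨T, S', Ψ', hT, hΨ'⟩ := exists_T' Sb hsep hψ hG
  obtain ⟨c, h1, h2, h3, h4, h5, h6⟩ := transfer S Sb hΨ hN hmod.fcal.ug hi hΨ'.ug
    (coc_mem' Sb hsep hmod hΨ' fun X hX X' hX' p hp e1 e2 v =>
      n_rel' Sb hsep hψ hG hT hX hX' hp e1 e2 v)
  refine ⟨c, h1, h2, h3, h4, fun u hu hu1 hu2 l hl => ?_⟩
  have h7 := scal_iff' Sb hsep hψ hG hT hΨ' hu hu1 hu2 hl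
  have h8 : ScalingUnitary N ψ l u ↔
      ∀ x ∈ N, 0 ≤ x → ψ (star u * x * u) = ENNReal.ofReal l * ψ x :=
    ⟨fun h => h.2.2.2, fun h => ⟨hu, hu1, hu2, h⟩⟩
  rw [h8, h7]
  exact forall_congr' fun t => h6 u hu t _

end Pool.Agent.Helper23.ED

end

section

open scoped InnerProductSpace Topology ENNReal BoundedContinuousFunction

open ContinuousLinearMap Filter MeasureTheory

namespace Pool.Agent.Helper23.ED

open Pool.Agent.Helper23 Pool.Agent.Helper23.RBF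

open Pool.Agent.Helper78.BC.Transport (Sub r)

universe u

open TopologicalSpace

variable {H : Type*} [NormedAddCommGroup H] [InnerProductSpace ℂ H] [CompleteSpace H]

variable {N : VonNeumannAlgebra H} {ξ : H} {V c : ℝ → H →L[ℂ] H} {ψ : (H →L[ℂ] H) → ℝ≥0∞}

open WuB

/-- the unitary conjugating `c_a V_a ⊗ e^{ias}` into `V_a ⊗ e^{ias}` -/
theorem exists_Cc (hV : UG V) (hc : Coc N V ψ c) : ∃ X ∈ amp N, star X * X = 1 ∧
    X * star X = 1 ∧ ∀ a, X * UV (fun t => c t * V t) a = UV V a * X := by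
  have hU := coc_ug hV hc
  -- the adjoint field is strongly continuous
  have hstar : ∀ t, star (c t) = V t * star (c t * V t) := by
    intro t
    rw [star_mul, hV.star, ← mul_assoc, V_neg hV, one_mul]
  have hst : ∀ v, Continuous fun t => star (c t) v := by
    intro v
    have h1 : ∀ t, star (c t) v = V t ((c (-t) * V (-t)) v) := by
      intro t
      rw [hstar, hU.star]
      rfl
    simp only [h1]
    refine cont_comp (fun t => norm_le_one_of_isom ?_) hV.cont (fun v => ?_) v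
    · rw [hV.star, V_neg' hV]
    · exact (hU.cont v).comp continuous_neg
  have hn : ∀ t, ‖star (c t)‖ ≤ 1 := fun t =>
    norm_le_one_of_isom (by rw [star_star]; exact (hc.unit t).2)
  have hD : Dec (fun t : ℝ => star (c (2 * Real.pi * t))) :=
    Dec.of_cont zero_le_one (fun s => hn _) (fun v => (hst v).comp (by fun_prop))
  have hD' : Dec (fun t : ℝ => c (2 * Real.pi * t)) :=
    Dec.of_cont zero_le_one (fun s => norm_le_one_of_isom (hc.unit _).1)
      (fun v => (hc.cont v).comp (by fun_prop))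
  have hadj : star (fco fun t : ℝ => star (c (2 * Real.pi * t))) =
      fco fun t : ℝ => c (2 * Real.pi * t) :=
    fco_adj hD hD' fun s x y => by rw [inner_star_right]
  refine ⟨fco fun t : ℝ => star (c (2 * Real.pi * t)), ?_, ?_, ?_, fun a => ?_⟩
  · exact fco_mem_amp hD fun s => star_mem (hc.mem _)
  · rw [hadj, fco_mul hD' hD]
    have : (fun s : ℝ => c (2 * Real.pi * s) * star (c (2 * Real.pi * s))) =
        fun _ => (1 : H →L[ℂ] H) := by
      funext s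
      exact (hc.unit _).2
    rw [this, fco_const, lift_one]
  · rw [hadj, fco_mul hD hD']
    have : (fun s : ℝ => star (c (2 * Real.pi * s)) * c (2 * Real.pi * s)) =
        fun _ => (1 : H →L[ℂ] H) := by
      funext s
      exact (hc.unit _).1
    rw [this, fco_const, lift_one]
  · have hrel : ∀ t : ℝ, star (c t) * (c a * V a) = V a * star (c (t - a)) := by
      intro t
      have h1 := hc.cocycle a (t - a)
      rw [add_sub_cancel] at h1
      have h2 : c t * V a = c a * V a * c (t - a) := by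
        rw [h1]
        calc c a * (V a * c (t - a) * V (-a)) * V a
            = c a * V a * c (t - a) * (V (-a) * V a) := by simp only [mul_assoc]
          _ = _ := by rw [V_neg' hV, mul_one]
      calc star (c t) * (c a * V a)
          = star (c t) * (c a * V a) * (c (t - a) * star (c (t - a))) := by
            rw [(hc.unit _).2, mul_one]
        _ = star (c t) * (c a * V a * c (t - a)) * star (c (t - a)) := by
            simp only [mul_assoc]
        _ = (star (c t) * c t) * V a * star (c (t - a)) := by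
            rw [← h2]; simp only [mul_assoc]
        _ = _ := by rw [(hc.unit _).1, one_mul]
    ext F : 1
    refine (Fo H).injective ?_
    change Fo H (fco _ (lift (c a * V a) (mulOp H (ems a) F))) =
      Fo H (lift (V a) (mulOp H (ems a) (fco _ F)))
    rw [Fo_fco, Fo_lift, Fo_ems, Fo_lift, Fo_ems, Fo_fco]
    set G := Fo H F with hG
    ext1
    filter_upwards [dec_coe hD (lift (c a * V a) (tr H (a / (2 * Real.pi)) G)),
      lift_coe (c a * V a) (tr H (a / (2 * Real.pi)) G), tr_coe (a / (2 * Real.pi)) G,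
      lift_coe (V a) (tr H (a / (2 * Real.pi))
        (dec (fun t : ℝ => star (c (2 * Real.pi * t))) G)),
      tr_coe (a / (2 * Real.pi)) (dec (fun t : ℝ => star (c (2 * Real.pi * t))) G),
      ae_tr (a / (2 * Real.pi)) (dec_coe hD G)] with s h1 h2 h3 h4 h5 h6
    rw [h1, h2, h3, h4, h5, h6]
    have h7 := congrArg (fun T : H →L[ℂ] H => T (G (s - a / (2 * Real.pi))))
      (hrel (2 * Real.pi * s))
    have h8 : 2 * Real.pi * (s - a / (2 * Real.pi)) = 2 * Real.pi * s - a := by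
      have := Real.pi_pos
      field_simp
    rw [h8]
    exact h7

theorem exists_W_coc [SeparableSpace H] (hV : UG V) (hd : Dense (orb N.commutant ξ : Set H))
    (hc : Coc N V ψ c) (hψ : IsDominant N ψ) :
    ∃ W : H ≃ₗᵢ[ℂ] L2R H, (∀ a ∈ N.commutant, ∀ x, W (a x) = lift a (W x)) ∧
      ∀ t x, W (c t (V t x)) = UV V t (W x) := by
  have hU := coc_ug hV hc
  have hs : ∀ s, ∃ u ∈ N, star u * u = 1 ∧ u * star u = 1 ∧
      ∀ t, u * (c t * V t) = ph t s • (c t * V t * u) := by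
    intro s
    obtain ⟨u, hu⟩ := hψ.scale (Real.exp s) (Real.exp_pos s)
    refine ⟨u, hu.1, hu.2.1, hu.2.2.1, ?_⟩
    have h1 := (hc.scal u hu.1 hu.2.1 hu.2.2.1 (Real.exp s) (Real.exp_pos s)).1 hu
    intro t
    have h2 := h1 t
    rwa [Real.log_exp] at h2
  obtain ⟨v, w, hvv, hww, hvw, hT⟩ := hψ.properlyInfinite
  have hv : v ∈ N := by
    rw [mem_iff_commutes]
    intro a ha
    exact ((hT a fun u hu => (mem_comm_iff.1 ha u hu.1)).1).symm
  have hw : w ∈ N := by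
    rw [mem_iff_commutes]
    intro a ha
    exact ((hT a fun u hu => (mem_comm_iff.1 ha u hu.1)).2).symm
  have hcomm : ∀ t, v * (c t * V t) = c t * V t * v ∧ w * (c t * V t) = c t * V t * w := by
    intro t
    refine hT (c t * V t) fun u hu => ?_
    have h1 := (hc.scal u hu.1 hu.2.1 hu.2.2.1 1 one_pos).1 hu t
    have h2 : ph t (Real.log 1) = 1 := by
      unfold ph
      simp
    rwa [h2, one_smul] at h1
  obtain ⟨V', hV'1, hV'2⟩ := exists_W_UV hU hd hs hv hw hvv hww hvw (fun t => (hcomm t).1)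
    (fun t => (hcomm t).2)
  obtain ⟨X, hX, hX1, hX2, hXU⟩ := exists_Cc hV hc
  have hXn : ∀ x, ‖X x‖ = ‖x‖ := fun x => norm_of_isom hX1 x
  let XE : L2R H ≃ₗᵢ[ℂ] L2R H :=
    { toFun := X
      invFun := (star X : L2R H →L[ℂ] L2R H)
      map_add' := map_add X
      map_smul' := map_smul X
      left_inv := fun x => congrArg (fun T : L2R H →L[ℂ] L2R H => T x) hX1
      right_inv := fun x => congrArg (fun T : L2R H →L[ℂ] L2R H => T x) hX2
      norm_map' := hXn }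
  refine ⟨V'.trans XE, fun a ha x => ?_, fun t x => ?_⟩
  · change X (V' (a x)) = lift a (X (V' x))
    rw [hV'1 a ha, amp_comm hX ha]
  · change X (V' (c t (V t x))) = UV V t (X (V' x))
    have h1 := hV'2 t x
    have h2 : V' (c t (V t x)) = UV (fun t => c t * V t) t (V' x) := h1
    rw [h2]
    exact congrArg (fun T : L2R H →L[ℂ] L2R H => T (V' x)) (hXU t)

end Pool.Agent.Helper23.ED

end
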