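import Pool.Agent.Helper23.FA.Ns
import Pool.Agent.Helper23.FA.L02_00
import Pool.Agent.Helper23.FA.L03_00
import Pool.Agent.Helper23.FA.L03_01
import Pool.Agent.Helper23.FA.L03_02
import Pool.Agent.Helper23.FA.L03_03

/-!
Parts of Helper88.CS.Final, Helper23.ED.MnA
-/

section

open scoped InnerProductSpace Topology

open ContinuousLinearMap Filter

namespace Pool.Agent.Helper88.CS

open Pool.Agent.Helper23

universe u

variable {H : Type u} [NormedAddCommGroup H] [InnerProductSpace ℂ H] [CompleteSpace H]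

open FinalAux

/-- Two normal states in one standard form. -/
theorem approx_equiv (N : VonNeumannAlgebra H) {ξ : H} (hξ : ‖ξ‖ = 1)
    (hsep : ∀ a ∈ N, a ξ = 0 → a = 0) (hN : IsTypeIIIOne N) {η η' ζ ζ' : H}
    (h1 : ‖η‖ ^ 2 + ‖η'‖ ^ 2 = 1) (h2 : ‖ζ‖ ^ 2 + ‖ζ'‖ ^ 2 = 1) {ε : ℝ} (hε : 0 < ε) :
    ∃ u ∈ N, star u * u = 1 ∧ u * star u = 1 ∧ ∀ x ∈ N,
      ‖⟪u η, x (u η)⟫_ℂ + ⟪u η', x (u η')⟫_ℂ - (⟪ζ, x ζ⟫_ℂ + ⟪ζ', x ζ'⟫_ℂ)‖ ≤ ε * ‖x‖ := by
  -- parameters
  obtain ⟨e₁, he0, he1, heε⟩ : ∃ e₁ : ℝ, 0 < e₁ ∧ e₁ < 1 ∧ e₁ ≤ ε / 8 :=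
    ⟨min (ε / 8) (1 / 2), lt_min (by linarith) (by norm_num),
      lt_of_le_of_lt (min_le_right _ _) (by norm_num), min_le_left _ _⟩
  set s : ℝ := Real.sqrt ((1 - e₁) / 2) with hs
  set t : ℝ := Real.sqrt (e₁ / 2) with ht
  have hs2 : s ^ 2 = (1 - e₁) / 2 := Real.sq_sqrt (by linarith)
  have ht2 : t ^ 2 = e₁ / 2 := Real.sq_sqrt (by linarith)
  have hst : s ^ 2 + t ^ 2 = 1 / 2 := by rw [hs2, ht2]; ring
  have ht0 : t ≠ 0 := (Real.sqrt_pos.2 (by linarith)).ne'
  -- Cuntz
  have hF : FInf N := ⟨hN.factor, fun e he h0 => hN.infinite e he.1 he.2.1 he.2.2 h0⟩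
  have h0 : ξ ≠ 0 := by
    rintro rfl
    rw [norm_zero] at hξ
    exact zero_ne_one hξ
  obtain ⟨a, ha, b, hb, haa, hbb, hab, hab0, hba0⟩ := exists_cuntz hF hsep h0
  have ha' : star a ∈ N := star_mem ha
  have hb' : star b ∈ N := star_mem hb
  set F : HS H 6 := vec s t a b η η' ζ ζ' ξ with hFdef
  have hF1 : ‖F‖ = 1 := vec_norm hst haa hbb hξ h1 h2
  obtain ⟨K, _, _, _, B, κ, π, hB, hκ, hcyc, hBsep, hπ, hst'⟩ :=
    exists_real N hN (by norm_num : 0 < 6) F hF1 (vec_sep N ht0 ha hb hab hsep)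
  have hψ : ∀ x ∈ N, ⟪κ, π x κ⟫_ℂ =
      Pool.Agent.Helper88.CS.FinalAux.fn s t η η' ξ (star a * x * a) + Pool.Agent.Helper88.CS.FinalAux.fn s t ζ ζ' ξ (star b * x * b) := fun x hx => by
    rw [hst' x hx, hFdef, vec_sum]
  obtain ⟨J, Ψ, R, D, hS⟩ := exists_st' hκ hcyc hBsep
  -- the two projections
  have hpa : a * star a ∈ N := mul_mem ha ha'
  have hpb : b * star b ∈ N := mul_mem hb hb'
  have hpaa : a * star a * (a * star a) = a * star a := by
    calc a * star a * (a * star a) = a * (star a * a) * star a := by simp only [mul_assoc]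
      _ = a * star a := by rw [haa, mul_one]
  have hpbb : b * star b * (b * star b) = b * star b := by
    calc b * star b * (b * star b) = b * (star b * b) * star b := by simp only [mul_assoc]
      _ = b * star b := by rw [hbb, mul_one]
  set e : K →L[ℂ] K := π (a * star a) with hedef
  set f : K →L[ℂ] K := π (b * star b) with hfdef
  have hes : star e = e := by
    rw [hedef, ← hπ.star _ hpa, star_mul, star_star]
  have hfs : star f = f := by
    rw [hfdef, ← hπ.star _ hpb, star_mul, star_star]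
  have hee : e * e = e := by rw [hedef, ← hπ.mul _ hpa _ hpa, hpaa]
  have hff : f * f = f := by rw [hfdef, ← hπ.mul _ hpb _ hpb, hpbb]
  have he : IsP B e := ⟨hπ.mem _ hpa, hes, hee⟩
  have hf : IsP B f := ⟨hπ.mem _ hpb, hfs, hff⟩
  have hef : e + f = 1 := by rw [hedef, hfdef, ← hπ.add _ hpa _ hpb, hab, hπ.one]
  -- `J e κ = e κ`
  have hJe : J (e κ) = e κ := by
    refine J_of_state hS he.1 hes fun x hx => ?_
    obtain ⟨y, hy, -, hyx⟩ := hπ.surj x hx
    have hl : ⟪e κ, x κ⟫_ℂ = ⟪κ, π (a * star a * y) κ⟫_ℂ := by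
      rw [hπ.mul _ hpa _ hy, hyx]
      exact (adj_sa hes κ (x κ)).symm
    have hr : ⟪(star x) κ, e κ⟫_ℂ = ⟪κ, π (y * (a * star a)) κ⟫_ℂ := by
      rw [hπ.mul _ hy _ hpa, hyx]
      show _ = ⟪κ, x (e κ)⟫_ℂ
      rw [← adj, star_star]
    rw [hl, hr, hψ _ (mul_mem hpa hy), hψ _ (mul_mem hy hpa)]
    have e1 : star a * (a * star a * y) * a = star a * y * a := by
      calc star a * (a * star a * y) * a = (star a * a) * star a * y * a := by
            simp only [mul_assoc]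
        _ = star a * y * a := by rw [haa, one_mul]
    have e2 : star b * (a * star a * y) * b = 0 := by
      calc star b * (a * star a * y) * b = (star b * a) * (star a * y * b) := by
            simp only [mul_assoc]
        _ = 0 := by rw [hba0, zero_mul]
    have e3 : star a * (y * (a * star a)) * a = star a * y * a := by
      calc star a * (y * (a * star a)) * a = star a * y * a * (star a * a) := by
            simp only [mul_assoc]
        _ = star a * y * a := by rw [haa, mul_one]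
    have e4 : star b * (y * (a * star a)) * b = 0 := by
      calc star b * (y * (a * star a)) * b = star b * y * a * (star a * b) := by
            simp only [mul_assoc]
        _ = 0 := by rw [hab0, mul_zero]
    rw [e1, e2, e3, e4]
  -- norms
  have hne : ‖e κ‖ ^ 2 = 1 / 2 := by
    have e1 : ⟪e κ, e κ⟫_ℂ = ⟪κ, e κ⟫_ℂ := by
      rw [← adj_sa hes]
      show ⟪κ, (e * e) κ⟫_ℂ = _
      rw [hee]
    rw [show ⟪κ, e κ⟫_ℂ = _ from hψ _ hpa] at e1
    have e2 : star a * (a * star a) * a = 1 := by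
      calc star a * (a * star a) * a = (star a * a) * (star a * a) := by simp only [mul_assoc]
        _ = 1 := by rw [haa, one_mul]
    have e3 : star b * (a * star a) * b = 0 := by
      calc star b * (a * star a) * b = (star b * a) * (star a * b) := by simp only [mul_assoc]
        _ = 0 := by rw [hba0, zero_mul]
    rw [e2, e3, fn_zero, add_zero, fn_one hξ h1, hst] at e1
    exact sq_of_inner e1
  have hnf : ‖f κ‖ ^ 2 = 1 / 2 := by
    have e1 : ⟪f κ, f κ⟫_ℂ = ⟪κ, f κ⟫_ℂ := by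
      rw [← adj_sa hfs]
      show ⟪κ, (f * f) κ⟫_ℂ = _
      rw [hff]
    rw [show ⟪κ, f κ⟫_ℂ = _ from hψ _ hpb] at e1
    have e2 : star b * (b * star b) * b = 1 := by
      calc star b * (b * star b) * b = (star b * b) * (star b * b) := by simp only [mul_assoc]
        _ = 1 := by rw [hbb, one_mul]
    have e3 : star a * (b * star b) * a = 0 := by
      calc star a * (b * star b) * a = (star a * b) * (star b * a) := by simp only [mul_assoc]
        _ = 0 := by rw [hab0, zero_mul]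
    rw [e2, e3, fn_zero, zero_add, fn_one hξ h2, hst] at e1
    exact sq_of_inner e1
  have hm : ‖e κ‖ = ‖f κ‖ :=
    (sq_eq_sq₀ (norm_nonneg _) (norm_nonneg _)).1 (by rw [hne, hnf])
  -- the partial isometry
  obtain ⟨v, hv, hv1, hv2, hv3⟩ := exists_full hS hB he hf hef hJe hm (δ := ε / 4) (by linarith)
  obtain ⟨w, hw, -, hwv⟩ := hπ.surj v hv
  have hw' : star w ∈ N := star_mem hw
  have hinj : ∀ x ∈ N, ∀ y ∈ N, π x = π y → x = y := by
    intro x hx y hy hxy
    have e1 : x + (-1 : ℂ) • y ∈ N := add_mem hx (smul_mem' _ hy)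
    have e2 := hπ.inj _ e1 (by
      rw [hπ.add _ hx _ (smul_mem' _ hy), hπ.smul _ _ hy, hxy]
      simp)
    rw [neg_one_smul, ← sub_eq_add_neg, sub_eq_zero] at e2
    exact e2
  have hw1 : star w * w = a * star a := hinj _ (mul_mem hw' hw) _ hpa (by
    rw [hπ.mul _ hw' _ hw, hπ.star _ hw, hwv, hv1])
  have hw2 : w * star w = b * star b := hinj _ (mul_mem hw hw') _ hpb (by
    rw [hπ.mul _ hw _ hw', hπ.star _ hw, hwv, hv2])
  have hwww : w * (a * star a) = w := by
    have e1 : star (w - w * (a * star a)) * (w - w * (a * star a)) = 0 := by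
      rw [star_sub, star_mul, star_mul, star_star]
      calc (star w - a * star a * star w) * (w - w * (a * star a))
          = star w * w - star w * w * (a * star a) - a * star a * (star w * w) +
            a * star a * (star w * w) * (a * star a) := by noncomm_ring
        _ = 0 := by rw [hw1, hpaa, hpaa]; abel
    have e2 := CStarRing.star_mul_self_eq_zero_iff (w - w * (a * star a)) |>.1 e1
    exact (sub_eq_zero.1 e2).symm
  have hwb : w * b = 0 := by
    calc w * b = w * (a * star a) * b := by rw [hwww]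
      _ = w * a * (star a * b) := by simp only [mul_assoc]
      _ = 0 := by rw [hab0, mul_zero]
  set u : H →L[ℂ] H := star b * w * a with hudef
  have hu : u ∈ N := mul_mem (mul_mem hb' hw) ha
  have hus : star u = star a * star w * b := by
    rw [hudef, star_mul, star_mul, star_star, mul_assoc]
  have hu1 : star u * u = 1 := by
    rw [hus, hudef]
    calc star a * star w * b * (star b * w * a) = star a * star w * (b * star b) * w * a := by
          simp only [mul_assoc]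
      _ = star a * (star w * w) * (star w * w) * a := by rw [← hw2]; simp only [mul_assoc]
      _ = (star a * a) * (star a * a) * (star a * a) := by rw [hw1]; simp only [mul_assoc]
      _ = 1 := by rw [haa, one_mul, one_mul]
  have hu2 : u * star u = 1 := by
    rw [hus, hudef]
    calc star b * w * a * (star a * star w * b) = star b * w * (a * star a) * star w * b := by
          simp only [mul_assoc]
      _ = star b * (w * star w) * (w * star w) * b := by rw [← hw1]; simp only [mul_assoc]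
      _ = (star b * b) * (star b * b) * (star b * b) := by rw [hw2]; simp only [mul_assoc]
      _ = 1 := by rw [hbb, one_mul, one_mul]
  refine ⟨u, hu, hu1, hu2, fun x hx => ?_⟩
  -- the estimate
  have hyN : b * x * star b ∈ N := mul_mem (mul_mem hb hx) hb'
  have hmain : ‖Pool.Agent.Helper88.CS.FinalAux.fn s t η η' ξ (star u * x * u) - Pool.Agent.Helper88.CS.FinalAux.fn s t ζ ζ' ξ x‖ ≤ ε / 4 * ‖x‖ := by
    have g1 := hv3 (π (b * x * star b)) (hπ.mem _ hyN)
    have g2 : ⟪v κ, (π (b * x * star b)) (v κ)⟫_ℂ = Pool.Agent.Helper88.CS.FinalAux.fn s t η η' ξ (star u * x * u) := by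
      have e1 : ⟪v κ, (π (b * x * star b)) (v κ)⟫_ℂ =
          ⟪κ, π (star w * (b * x * star b) * w) κ⟫_ℂ := by
        rw [hπ.mul _ (mul_mem hw' hyN) _ hw, hπ.mul _ hw' _ hyN, hπ.star _ hw, hwv]
        exact (adj v κ _).symm
      rw [e1, hψ _ (mul_mem (mul_mem hw' hyN) hw)]
      have e2 : star a * (star w * (b * x * star b) * w) * a = star u * x * u := by
        rw [hus, hudef]
        simp only [mul_assoc]
      have e3 : star b * (star w * (b * x * star b) * w) * b = 0 := by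
        calc star b * (star w * (b * x * star b) * w) * b
            = star b * (star w * (b * x * star b)) * (w * b) := by simp only [mul_assoc]
          _ = 0 := by rw [hwb, mul_zero]
      rw [e2, e3, fn_zero, add_zero]
    have g3 : ⟪f κ, (π (b * x * star b)) (f κ)⟫_ℂ = Pool.Agent.Helper88.CS.FinalAux.fn s t ζ ζ' ξ x := by
      have e1 : ⟪f κ, (π (b * x * star b)) (f κ)⟫_ℂ =
          ⟪κ, π (b * star b * (b * x * star b) * (b * star b)) κ⟫_ℂ := by
        rw [hπ.mul _ (mul_mem hpb hyN) _ hpb, hπ.mul _ hpb _ hyN]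
        exact (adj_sa hfs κ _).symm
      rw [e1, hψ _ (mul_mem (mul_mem hpb hyN) hpb)]
      have e2 : star a * (b * star b * (b * x * star b) * (b * star b)) * a = 0 := by
        calc star a * (b * star b * (b * x * star b) * (b * star b)) * a
            = (star a * b) * (star b * (b * x * star b) * (b * star b) * a) := by
              simp only [mul_assoc]
          _ = 0 := by rw [hab0, zero_mul]
      have e3 : star b * (b * star b * (b * x * star b) * (b * star b)) * b = x := by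
        calc star b * (b * star b * (b * x * star b) * (b * star b)) * b
            = (star b * b) * (star b * b) * x * (star b * b) * (star b * b) := by
              simp only [mul_assoc]
          _ = x := by rw [hbb, one_mul, one_mul, mul_one, mul_one]
      rw [e2, e3, fn_zero, zero_add]
    rw [g2, g3] at g1
    refine g1.trans (mul_le_mul_of_nonneg_left ?_ (by linarith))
    refine (hπ.norm_le _ hyN).trans ?_
    have n1 : ‖b‖ ≤ 1 := op_le_one hbb
    have n2 : ‖star b‖ ≤ 1 := by rwa [norm_star]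
    calc ‖b * x * star b‖ ≤ ‖b * x‖ * ‖star b‖ := norm_mul_le _ _
      _ ≤ ‖b * x‖ * 1 := mul_le_mul_of_nonneg_left n2 (norm_nonneg _)
      _ ≤ ‖b‖ * ‖x‖ := by rw [mul_one]; exact norm_mul_le _ _
      _ ≤ 1 * ‖x‖ := mul_le_mul_of_nonneg_right n1 (norm_nonneg _)
      _ = ‖x‖ := one_mul _
  -- comparison
  set z : H →L[ℂ] H := star u * x * u with hz
  have hzn : ‖z‖ ≤ ‖x‖ := by
    have n1 : ‖u‖ ≤ 1 := op_le_one hu1
    have n2 : ‖star u‖ ≤ 1 := by rwa [norm_star]
    calc ‖star u * x * u‖ ≤ ‖star u * x‖ * ‖u‖ := norm_mul_le _ _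
      _ ≤ ‖star u * x‖ * 1 := mul_le_mul_of_nonneg_left n1 (norm_nonneg _)
      _ ≤ ‖star u‖ * ‖x‖ := by rw [mul_one]; exact norm_mul_le _ _
      _ ≤ 1 * ‖x‖ := mul_le_mul_of_nonneg_right n2 (norm_nonneg _)
      _ = ‖x‖ := one_mul _
  have hzi : ∀ θ : H, ⟪u θ, x (u θ)⟫_ℂ = ⟪θ, z θ⟫_ℂ := by
    intro θ
    show _ = ⟪θ, (star u) (x (u θ))⟫_ℂ
    rw [star_eq_adjoint, adjoint_inner_right]
  rw [hzi, hzi]
  have hφ : ∀ y : H →L[ℂ] H, ‖⟪ξ, y ξ⟫_ℂ‖ ≤ ‖y‖ := by
    intro y
    have := (norm_inner_le_norm (𝕜 := ℂ) ξ (y ξ)).trans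
      (mul_le_mul_of_nonneg_left (y.le_opNorm ξ) (norm_nonneg ξ))
    rwa [hξ, mul_one, one_mul] at this
  have i1 := st_le h1 z
  have i2 := st_le h2 x
  have i3 := hφ z
  have i4 := hφ x
  set α : ℂ := ⟪η, z η⟫_ℂ + ⟪η', z η'⟫_ℂ with hα
  set β : ℂ := ⟪ζ, x ζ⟫_ℂ + ⟪ζ', x ζ'⟫_ℂ with hβ
  have key : α - β = 2 * (Pool.Agent.Helper88.CS.FinalAux.fn s t η η' ξ z - Pool.Agent.Helper88.CS.FinalAux.fn s t ζ ζ' ξ x) +
      (e₁ : ℂ) * ((α - ⟪ξ, z ξ⟫_ℂ) - (β - ⟪ξ, x ξ⟫_ℂ)) := by
    unfold Pool.Agent.Helper88.CS.FinalAux.fn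
    rw [← hα, ← hβ, hs2, ht2]
    push_cast
    ring
  rw [key]
  have hx0 := norm_nonneg x
  have j1 : ‖(α - ⟪ξ, z ξ⟫_ℂ) - (β - ⟪ξ, x ξ⟫_ℂ)‖ ≤ 4 * ‖x‖ := by
    have a1 := norm_sub_le (α - ⟪ξ, z ξ⟫_ℂ) (β - ⟪ξ, x ξ⟫_ℂ)
    have a2 := norm_sub_le α ⟪ξ, z ξ⟫_ℂ
    have a3 := norm_sub_le β ⟪ξ, x ξ⟫_ℂ
    linarith
  calc ‖2 * (Pool.Agent.Helper88.CS.FinalAux.fn s t η η' ξ z - Pool.Agent.Helper88.CS.FinalAux.fn s t ζ ζ' ξ x) +
        (e₁ : ℂ) * ((α - ⟪ξ, z ξ⟫_ℂ) - (β - ⟪ξ, x ξ⟫_ℂ))‖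
      ≤ ‖2 * (Pool.Agent.Helper88.CS.FinalAux.fn s t η η' ξ z - Pool.Agent.Helper88.CS.FinalAux.fn s t ζ ζ' ξ x)‖ +
        ‖(e₁ : ℂ) * ((α - ⟪ξ, z ξ⟫_ℂ) - (β - ⟪ξ, x ξ⟫_ℂ))‖ := norm_add_le _ _
    _ = 2 * ‖Pool.Agent.Helper88.CS.FinalAux.fn s t η η' ξ z - Pool.Agent.Helper88.CS.FinalAux.fn s t ζ ζ' ξ x‖ +
        e₁ * ‖(α - ⟪ξ, z ξ⟫_ℂ) - (β - ⟪ξ, x ξ⟫_ℂ)‖ := by
        rw [norm_mul, norm_mul, Complex.norm_real, Real.norm_of_nonneg he0.le]
        norm_num
    _ ≤ 2 * (ε / 4 * ‖x‖) + ε / 8 * (4 * ‖x‖) := by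
        refine add_le_add (mul_le_mul_of_nonneg_left hmain (by norm_num)) ?_
        exact mul_le_mul heε j1 (norm_nonneg _) (by linarith)
    _ = ε * ‖x‖ := by ring

/-- The Connes-Stoermer theorem. -/
theorem connes_stormer (N : VonNeumannAlgebra H) {ξ : H} (hξ : ‖ξ‖ = 1)
    (hsep : ∀ a ∈ N, a ξ = 0 → a = 0) (hN : IsTypeIIIOne N) :
    Pool.Agent.Helper23.RBF.TypeIIIOne N := by
  refine ⟨?_, fun η η' ζ ζ' h1 h2 ε hε => approx_equiv N hξ hsep hN h1 h2 hε⟩
  have hF : FInf N := ⟨hN.factor, fun e he h0 => hN.infinite e he.1 he.2.1 he.2.2 h0⟩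
  have h0 : ξ ≠ 0 := by
    rintro rfl
    rw [norm_zero] at hξ
    exact zero_ne_one hξ
  obtain ⟨a, ha, b, hb, h1, h2, h3, h4, h5⟩ := exists_cuntz hF hsep h0
  exact ⟨a, ha, b, hb, h1, h2, h4⟩

end Pool.Agent.Helper88.CS

end

section

open scoped InnerProductSpace Topology ENNReal BoundedContinuousFunction

open ContinuousLinearMap Filter MeasureTheory

namespace Pool.Agent.Helper23.ED

open Pool.Agent.Helper23 Pool.Agent.Helper23.RBF

open Pool.Agent.Helper78.BC.Transport (Sub r)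

universe u

variable {H : Type*} [NormedAddCommGroup H] [InnerProductSpace ℂ H] [CompleteSpace H]

variable {M N : VonNeumannAlgebra H} {ξ : H} {E : (H →L[ℂ] H) → (H →L[ℂ] H)}

theorem main_of_W (S : BFlow M N E ξ) {R : H →L[ℂ] H} {D : H →L[ℝ] H}
    {Ψ : (ℝ →ᵇ ℂ) →⋆ₐ[ℂ] (H →L[ℂ] H)} (hΨ : Modular M ξ R D Ψ)
    (hN : ∀ (t : ℝ), ∀ a ∈ N, Ψ (expB t) * a * Ψ (expB (-t)) ∈ N)
    {ψ : (H →L[ℂ] H) → ℝ≥0∞} {c : ℝ → H →L[ℂ] H} (hc : Coc N (fun t => Ψ (expB t)) ψ c)
    (W : H ≃ₗᵢ[ℂ] L2R H) (hW : ∀ a ∈ N.commutant, ∀ x, W (a x) = lift a (W x))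
    (hWc : ∀ t x, W (c t (Ψ (expB t) x)) = UV (fun t => Ψ (expB t)) t (W x)) :
    ∃ π : (H →L[ℂ] H) → (H →L[ℂ] H), IsStarIso S.Balg (Calg M N ψ) π ∧
      BoundedStronglyContinuous S.Balg π ∧ IntertwinesFlows N ψ S.Balg (btU M N ξ) π ∧
      ∀ x ∈ S.Balg, E (π x) = ⟪ξ, x ξ⟫_ℂ • (1 : H →L[ℂ] H) := by
  classical
  set V : ℝ → H →L[ℂ] H := fun t => Ψ (expB t) with hV
  have hN' : ∀ x, x ∈ N ↔ W.conjStarAlgEquiv x ∈ amp N := conj_mem_amp hW fun a ha => ha
  have hM : ∀ x, x ∈ M ↔ W.conjStarAlgEquiv x ∈ amp M := conj_mem_amp hW fun a ha => S.comm_le ha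
  have hinj : Function.Injective ⇑W.conjStarAlgEquiv := EquivLike.injective _
  have e1 : ∀ X, W.conjStarAlgEquiv (W.conjStarAlgEquiv.symm X) = X :=
    W.conjStarAlgEquiv.apply_symm_apply
  have hcV : ∀ t, W.conjStarAlgEquiv (c t * V t) = UV V t := by
    intro t
    ext F : 1
    rw [LinearIsometryEquiv.conjStarAlgEquiv_apply_apply]
    have h1 := hWc t (W.symm F)
    rw [W.apply_symm_apply] at h1
    exact h1
  -- scaling unitaries
  have hsc : ∀ l u, 0 < l → (ScalingUnitary N ψ l u ↔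
      MnA.SU N V (Real.log l) (W.conjStarAlgEquiv u)) := by
    intro l u hl
    have h0 : u ∈ N → star u * u = 1 → u * star u = 1 → (ScalingUnitary N ψ l u ↔
        ∀ a, W.conjStarAlgEquiv u * UV V a = ph a (Real.log l) •
          (UV V a * W.conjStarAlgEquiv u)) := by
      intro h1 h2 h3
      rw [hc.scal u h1 h2 h3 l hl]
      refine forall_congr' fun t => ?_
      rw [← hcV t, ← map_mul, ← map_mul, ← map_smul]
      exact hinj.eq_iff.symm
    constructor
    · intro h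
      refine ⟨(hN' u).1 h.1, ?_, ?_, (h0 h.1 h.2.1 h.2.2.1).1 h⟩
      · rw [← map_star, ← map_mul, h.2.1, map_one]
      · rw [← map_star, ← map_mul, h.2.2.1, map_one]
    · rintro ⟨h1, h2, h3, h4⟩
      rw [← map_star, ← map_mul] at h2 h3
      exact (h0 ((hN' u).2 h1) (hinj (h2.trans (map_one _).symm))
        (hinj (h3.trans (map_one _).symm))).2 h4
  have hGK : ∀ U, MnA.SU N V 0 U → U ∈ GK N ξ := by
    rintro U ⟨h1, h2, h3, h4⟩
    refine GK_of_comm S.toSetting hΨ h1 h2 h3 fun a => ?_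
    have h5 := h4 a
    rw [MnA.ph_zero_right, one_smul] at h5
    exact h5
  have hC : ∀ x, x ∈ Calg M N ψ ↔ ∃ y, y ∈ Bicent M N ξ ∧ W.conjStarAlgEquiv x = piU M N ξ y := by
    intro x
    rw [mem_Calg x, hM x]
    constructor
    · rintro ⟨h1, h2⟩
      have h3 : ∀ U, MnA.SU N V 0 U → U * W.conjStarAlgEquiv x = W.conjStarAlgEquiv x * U := by
        intro U hU
        have h3 := h2 (W.conjStarAlgEquiv.symm U) ((hsc 1 _ one_pos).2 (by
          rw [e1, Real.log_one]; exact hU))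
        have h4 := congrArg W.conjStarAlgEquiv h3
        rwa [map_mul, map_mul, e1] at h4
      refine Rk1_sur S hΨ hN ⟨h1, fun m hm hm1 => ?_, fun u hu hu1 hu2 => ?_⟩
      · obtain ⟨h5, h6⟩ := MnA.mulOp_unit (H := H) hm hm1
        refine h3 _ ⟨mulOp_mem_amp hm, h5, h6, fun a => ?_⟩
        rw [MnA.ph_zero_right, one_smul]
        exact mulOp_UV V hm a
      · obtain ⟨h4, h5, h6⟩ := fcn_unit hΨ hN hu hu1 hu2
        refine h3 _ ⟨h4, h5, h6, fun a => ?_⟩
        rw [MnA.ph_zero_right, one_smul]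
        exact fcn_comm hΨ u a
    · rintro ⟨y, hy, hxy⟩
      refine ⟨by rw [hxy]; exact S.piU_mem hy, fun u hu => ?_⟩
      apply hinj
      rw [map_mul, map_mul, hxy]
      have h1 := (hsc 1 u one_pos).1 hu
      rw [Real.log_one] at h1
      exact S.comm_of_bicent (hGK _ h1) hy
  have hmemC : ∀ x ∈ S.Balg, W.conjStarAlgEquiv.symm (piU M N ξ x) ∈ Calg M N ψ := by
    intro x hx
    rw [hC, e1]
    exact ⟨x, hx, rfl⟩
  refine ⟨fun x => W.conjStarAlgEquiv.symm (piU M N ξ x), ?_, ?_, ?_, ?_⟩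
  · refine ⟨hmemC, fun x hx y hy hxy => ?_, fun X hX => ?_, fun x hx y hy => ?_,
      fun x hx y hy => ?_, fun c x hx => ?_, fun x hx => ?_⟩
    · refine S.piU_inj hx hy ?_
      have h1 := congrArg W.conjStarAlgEquiv hxy
      rwa [e1, e1] at h1
    · obtain ⟨x, hx, hxX⟩ := (hC X).1 hX
      refine ⟨x, hx, ?_⟩
      apply hinj
      rw [e1]
      exact hxX.symm
    · change W.conjStarAlgEquiv.symm (piU M N ξ (x + y)) = _
      rw [S.piU_add hx hy, map_add]
    · change W.conjStarAlgEquiv.symm (piU M N ξ (x * y)) = _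
      rw [S.piU_mul hx hy, map_mul]
    · change W.conjStarAlgEquiv.symm (piU M N ξ (c • x)) = _
      rw [S.piU_smul c hx, map_smul]
    · change W.conjStarAlgEquiv.symm (piU M N ξ (star x)) = _
      rw [S.piU_star hx, map_star]
  · intro F x hx C hbd hcv η
    have hbd1 : ∀ᶠ y in F, y ∈ Bicent M N ξ := hbd.mono fun y hy => hy.1
    have hcongr : ∀ᶠ y in F, (if y ∈ Bicent M N ξ then y else x) = y :=
      hbd1.mono fun y hy => if_pos hy
    have h1 := S.piU_tendsto (F := F) (z := fun y => if y ∈ Bicent M N ξ then y else x) (x := x)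
      (C := C) (fun y => by
        by_cases h : y ∈ Bicent M N ξ
        · simp only [if_pos h]; exact h
        · simp only [if_neg h]; exact hx) hx (by
        filter_upwards [hbd, hcongr] with y h1 h2
        rw [h2]; exact h1.2) (by
        refine (hcv ξ).congr' ?_
        filter_upwards [hcongr] with y h2
        rw [h2]) (W η)
    simp only [LinearIsometryEquiv.symm_conjStarAlgEquiv_apply_apply]
    refine (W.symm.continuous.tendsto _).comp ?_
    refine h1.congr' ?_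
    filter_upwards [hcongr] with y h2
    rw [h2]
  · intro l hl u hu x hx
    apply hinj
    rw [map_mul, map_mul, map_star, e1, e1, ← S.tr_piU hx hl]
    set T := tr H (-Real.log l) with hT
    set U := W.conjStarAlgEquiv u with hU
    have hTs0 : ScalingUnitary (amp N) (wK ξ) l T := tr_scaling hl
    have hTs : MnA.SU N V (Real.log l) T :=
      ⟨hTs0.1, hTs0.2.1, hTs0.2.2.1, fun a => tr_UV V (Real.log l) a⟩
    have hUs : MnA.SU N V (Real.log l) U := (hsc l u hl).1 hu
    have hG : star T * U ∈ GK N ξ := by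
      obtain ⟨h1, h2, h3⟩ := MnA.quot_unit hTs hUs
      exact GK_of_comm S.toSetting hΨ h1 h2 h3 fun a => MnA.quot_comm hTs hUs a
    have hcomm := S.comm_of_bicent hG hx
    have hTU : T * (star T * U) = U := by rw [← mul_assoc, hTs.2.2.1, one_mul]
    have h1 : U * piU M N ξ x * star U =
        T * ((star T * U) * piU M N ξ x) * star U := by
      rw [← mul_assoc, hTU]
    rw [h1, hcomm]
    have h2 : star T * U * star U = star T := by rw [mul_assoc, hUs.2.2.1, mul_one]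
    calc T * piU M N ξ x * star T =
        T * piU M N ξ x * (star T * U * star U) := by rw [h2]
      _ = _ := by simp only [mul_assoc]
  · intro x hx
    set y := W.conjStarAlgEquiv.symm (piU M N ξ x) with hy
    have hyM : y ∈ M := ((mem_Calg y).1 (hmemC x hx)).1
    have hK : ∀ k ∈ K0 N ξ, ∀ᵐ s, W k s ∈ K0 N ξ := by
      intro k hk
      set P := (K0 N ξ).starProjection with hP
      have hPN : P ∈ N.commutant := proj_orb_mem N ξ
      have h1 : lift P (W k) = W k := by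
        rw [← hW P hPN, Submodule.starProjection_eq_self_iff.2 hk]
      have h2 := lift_coe P (W k)
      rw [h1] at h2
      filter_upwards [h2] with s hs
      rw [hs]
      exact Submodule.starProjection_apply_mem _ _
    have hin : ∀ k ∈ K0 N ξ, ∀ k' ∈ K0 N ξ, ⟪k, y k'⟫_ℂ =
        ⟪ξ, x ξ⟫_ℂ * ⟪k, k'⟫_ℂ := by
      intro k hk k' hk'
      have h1 := S.inner_piU hx AP.bicent_one (hK k hk) (hK k' hk')
      rw [S.piU_one, one_apply_eq_self, one_apply_eq_self, W.inner_map_map] at h1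
      rw [← h1, hy, LinearIsometryEquiv.symm_conjStarAlgEquiv_apply_apply]
      have h2 := W.symm.inner_map_map (W k) (piU M N ξ x (W k'))
      rw [W.symm_apply_apply] at h2
      exact h2
    have hxi : ξ ∈ K0 N ξ := S.xi_mem_K0
    set c : ℂ := ⟪ξ, x ξ⟫_ℂ with hc
    have hEN : E y ∈ N := S.E_mem y hyM
    have hz : E y - c • (1 : H →L[ℂ] H) ∈ N := sub_mem hEN (smul_mem' _ (one_mem N))
    set z := E y - c • (1 : H →L[ℂ] H) with hzdef
    have h0 : ⟪z ξ, z ξ⟫_ℂ = 0 := by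
      have h1 : z ξ = E y ξ - c • ξ := rfl
      have h2 := S.E_inner hz (one_mem N) hyM
      rw [one_apply_eq_self] at h2
      have h3 := hin (z ξ) (mem_K0 hz) ξ hxi
      calc ⟪z ξ, z ξ⟫_ℂ = ⟪z ξ, E y ξ - c • ξ⟫_ℂ := rfl
        _ = 0 := by rw [inner_sub_right, h2, h3, inner_smul_right, sub_self]
    have hz0 : z = 0 := S.sep z (S.le z hz) (inner_self_eq_zero.1 h0)
    exact sub_eq_zero.1 hz0

end Pool.Agent.Helper23.ED

end
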