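import Pool.Agent.Helper23.FA.Ns
import Pool.Agent.Helper23.FA.L03_00
import Pool.Agent.Helper23.FA.L03_01
import Pool.Agent.Helper23.FA.L03_02
import Pool.Agent.Helper23.FA.L03_03
import Pool.Agent.Helper23.FA.L03_04

/-!
Parts of Helper94.LbBicent, Helper23.UBF, Helper23.UFin, Helper23.ED.KrA
-/

section

open scoped InnerProductSpace Topology

open ContinuousLinearMap Filter

namespace Pool.Agent.Helper23

variable {H : Type*} [NormedAddCommGroup H] [InnerProductSpace ℂ H] [CompleteSpace H]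

variable {M N : VonNeumannAlgebra H} {ξ : H} {E : (H →L[ℂ] H) → (H →L[ℂ] H)}

namespace AP

variable (S : AP M N E ξ)

include S

/-- MODULE A1 : quantitative almost commutation of the elements of the bicentralizer with
(unbounded) partner pairs. -/
theorem lb_of_bicent {y : H →L[ℂ] H} (hy : y ∈ Bicent M N ξ) {κ : ℝ} (hκ : 0 < κ) :
    ∃ K : ℝ, 0 ≤ K ∧ LB N ξ y κ K := by
  have hyQ := S.bicent_memQ hy
  set κ' : ℝ := κ / 3 with hκ'
  have hκ'0 : 0 < κ' := by positivity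
  set R : ℝ := Real.sqrt (8 * ‖y ξ‖ ^ 2 / κ' + 1) with hR
  have hR2 : R ^ 2 = 8 * ‖y ξ‖ ^ 2 / κ' + 1 := Real.sq_sqrt (by positivity)
  have hR0 : 0 < R := Real.sqrt_pos.2 (by positivity)
  obtain ⟨K1, hK1, h0⟩ := S.spread_zero hy hR0 hκ'0
  set L : ℝ := 2 * ‖y ξ‖ ^ 2 / R ^ 2 with hL
  have hL0 : 0 ≤ L := by positivity
  have hL4 : 4 * L ≤ κ' := by
    have h1 : 4 * L = 8 * ‖y ξ‖ ^ 2 / R ^ 2 := by rw [hL]; ring
    rw [h1, div_le_iff₀ (by positivity), hR2, mul_add, mul_div_cancel₀ _ hκ'0.ne']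
    linarith
  refine ⟨K1 + L, by positivity, fun C C' hC => ?_⟩
  by_cases hC0 : ‖C ξ‖ = 0
  · have h1 : C = 0 := S.sep C (S.le _ hC.1) (norm_eq_zero.1 hC0)
    rw [h1]
    have h2 : (y * (0 : H →L[ℂ] H) - 0 * y) ξ = 0 := by simp
    rw [h2, norm_zero, zero_pow two_ne_zero]
    positivity
  have hCpos : 0 < ‖C ξ‖ := lt_of_le_of_ne (norm_nonneg _) (Ne.symm hC0)
  set t : ℝ := ‖C ξ‖⁻¹ with ht
  have ht0 : 0 < t := inv_pos.2 hCpos
  set D := (t : ℂ) • C with hD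
  set D' := (t : ℂ) • C' with hD'
  have hDD : Partner N ξ D D' := hC.smul _
  have n1 : ‖D ξ‖ = 1 := by
    rw [hD, smul_apply, norm_smul_xi ht0.le, ht, inv_mul_cancel₀ hC0]
  have n2 : ‖(y * D - D * y) ξ‖ = t * ‖(y * C - C * y) ξ‖ := by
    rw [hD, comm_smul_xi, norm_smul_xi ht0.le]
  have n3 : ‖(D' - D) ξ‖ = t * ‖(C' - C) ξ‖ := by
    rw [hD, hD', ← smul_sub, smul_apply, norm_smul_xi ht0.le]
  set d := ‖(D' - D) ξ‖ with hd
  have hd0 : 0 ≤ d := norm_nonneg _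
  have hbe : ‖(star D) ξ‖ ^ 2 ≤ 1 + d := by
    have h1 := hDD.inner_self
    have h2 := congrArg norm h1
    rw [Complex.norm_real, Real.norm_of_nonneg (by positivity)] at h2
    rw [← h2]
    refine (norm_inner_le_norm _ _).trans ?_
    rw [n1, one_mul]
    have h3 : D' ξ = D ξ + (D' - D) ξ := by rw [sub_apply]; abel
    rw [h3]
    refine (norm_add_le _ _).trans ?_
    rw [n1]
  have hlim : ‖(y * D - D * y) ξ‖ ^ 2 ≤ 2 * κ' + K1 * d ^ 2 +
      L * (‖(star D * D) ξ‖ ^ 2 * 0 +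
        (‖D ξ‖ ^ 4 + 2 * (‖D ξ‖ ^ 2 * ‖(star D) ξ‖ ^ 2))) := by
    have h1 : Tendsto (fun m : ℕ => 2 * κ' + K1 * d ^ 2 +
      L * (‖(star D * D) ξ‖ ^ 2 * (1 / (m : ℝ)) +
        (‖D ξ‖ ^ 4 + 2 * (‖D ξ‖ ^ 2 * ‖(star D) ξ‖ ^ 2)))) atTop (𝓝 (2 * κ' + K1 * d ^ 2 +
      L * (‖(star D * D) ξ‖ ^ 2 * 0 +
        (‖D ξ‖ ^ 4 + 2 * (‖D ξ‖ ^ 2 * ‖(star D) ξ‖ ^ 2))))) := by
      refine Tendsto.const_add _ (Tendsto.const_mul _ (Tendsto.add_const _
        (Tendsto.const_mul _ ?_)))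
      exact tendsto_one_div_atTop_nhds_zero_nat
    refine ge_of_tendsto h1 ?_
    filter_upwards [eventually_gt_atTop 0] with m hm
    exact S.spread_m hyQ hL0 h0 hDD m hm
  rw [n1] at hlim
  have hfin : ‖(y * D - D * y) ξ‖ ^ 2 ≤ κ + (K1 + L) * d ^ 2 := by
    have h1 : L * (1 + 2 * ‖(star D) ξ‖ ^ 2) ≤ L * (4 + d ^ 2) := by
      refine mul_le_mul_of_nonneg_left ?_ hL0
      nlinarith [sq_nonneg (d - 1)]
    have h2 : κ = 3 * κ' := by rw [hκ']; ring
    rw [h2]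
    nlinarith
  rw [n2, n3] at hfin
  have h1 : ‖C ξ‖ ^ 2 * (t * ‖(y * C - C * y) ξ‖) ^ 2 ≤
      ‖C ξ‖ ^ 2 * (κ + (K1 + L) * (t * ‖(C' - C) ξ‖) ^ 2) := by gcongr
  have htC : ‖C ξ‖ * t = 1 := mul_inv_cancel₀ hC0
  calc ‖(y * C - C * y) ξ‖ ^ 2 = (‖C ξ‖ * t) ^ 2 * ‖(y * C - C * y) ξ‖ ^ 2 := by
        rw [htC]; ring
    _ = ‖C ξ‖ ^ 2 * (t * ‖(y * C - C * y) ξ‖) ^ 2 := by ring
    _ ≤ _ := h1
    _ = κ * ‖C ξ‖ ^ 2 + (K1 + L) * ((‖C ξ‖ * t) ^ 2 * ‖(C' - C) ξ‖ ^ 2) := by ring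
    _ = _ := by rw [htC]; ring

end AP

end Pool.Agent.Helper23

end

section

open scoped InnerProductSpace Topology ENNReal BoundedContinuousFunction

open ContinuousLinearMap Filter MeasureTheory

namespace Pool.Agent.Helper23

universe u

variable {H : Type u} [NormedAddCommGroup H] [InnerProductSpace ℂ H] [CompleteSpace H]

variable {K : Type u} [NormedAddCommGroup K] [InnerProductSpace ℂ K] [CompleteSpace K]

variable {M N : VonNeumannAlgebra H} {ξ : H} {E : (H →L[ℂ] H) → (H →L[ℂ] H)}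

namespace Oc

variable {MT NT : VonNeumannAlgebra K} {ET : (K →L[ℂ] K) → (K →L[ℂ] K)} {ζ : K}
  {rep : (ℕ → H →L[ℂ] H) → (K →L[ℂ] K)} (O : Oc M N E ξ MT NT ET ζ rep)

include O

lemma coreAt (S : Setting M N E ξ) (hAP : AP MT NT ET ζ) (hG : ∀ l : ℝ, 0 < l → l ∈ Gam NT ζ)
    {u : L2R H →L[ℂ] L2R H} (hu : u ∈ GK N ξ) {y : H →L[ℂ] H} (hy : y ∈ Bicent M N ξ)
    {κ : ℝ} (hκ : 0 < κ) : CoreAt M N ξ u y κ := by
  have hyQ := O.const_mem_Qalg S hy
  obtain ⟨K₀, hK, hLB⟩ := hAP.lb_of_bicent (O.bicent_of_Qalg S hyQ) hκ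
  refine ⟨K₀, hK, fun γ₀ h1 ht1 m g hg0 B n hn hnK => ?_⟩
  have hγ0 : 0 < γ₀ := by linarith
  have hγ : γ₀ ∈ Gam NT ζ := hG γ₀ hγ0
  set t := Real.log γ₀ with ht
  have ht0 : 0 < t := Real.log_pos h1
  have hm0 : 0 < γ₀ ^ m := pow_pos hγ0 m
  have hmG : γ₀ ^ m ∈ Gam NT ζ := hG _ hm0
  have haN : ∀ l, sa u t g l ∈ N := fun l => slX_mem hu.1 _ _
  have hbN : ∀ l, sb u t g l ∈ N := fun l => slX_mem hu.1 _ _
  have haM := fun l => S.le _ (haN l)
  have hbM := fun l => S.le _ (hbN l)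
  have hsmul : ∀ l : ℤ × hw × ℤ, (((Real.exp ((l.2.2 - l.1) * t) : ℝ) : ℂ) •
      (rep fun _ => sb u t g l)) =
        rep fun _ => (((Real.exp ((l.2.2 - l.1) * t) : ℝ) : ℂ) • sb u t g l) :=
    fun l => (O.const_smul S _ (hbM l)).symm
  obtain ⟨z, hz, hzy, hzc⟩ := hAP.core' (hAP.al_mem hmG hyQ) hκ hK
    (hAP.lb_al hyQ hκ.le hK hLB hmG) hγ h1 ht1 m (G := ‖g‖ ^ 2) (by positivity) B
    (a := fun l => rep fun _ => sa u t g l) (b := fun l => rep fun _ => sb u t g l)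
    (fun l => O.const_memN S (haN l)) (fun l => O.const_memN S (hbN l))
    (fun l => by
      rw [hsmul]
      exact O.partner S (partner_sa hu ht0 g l)) (by
      simp only [fun l => O.const_norm S (haM l)]
      exact sum_sa hu.2.1 S.norm_one ht0 g _ _ B) (by
      have e1 : ∀ l, ‖((rep fun _ => sb u t g l) - (rep fun _ => sa u t g l)) ζ‖ =
          ‖(sb u t g l - sa u t g l) ξ‖ := by
        intro l
        rw [← O.const_sub S (hbM l) (haM l), O.const_norm S (sub_mem (hbM l) (haM l))]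
      simp only [e1]
      exact sum_sb hu.2.1 S.norm_one ht0 ht1 g _ _ B) hn hnK
  have hzM : z ∈ MT := (mem_Qalg.1 hz).1
  have hspec := O.btU_spec S hAP hG hm0 hy
  refine ⟨ccU M ξ rep ζ z, O.cc_bicent S hz, ?_, ?_⟩
  · refine le_trans ?_ hzy
    refine pow_le_pow_left₀ (norm_nonneg _) ?_ 2
    have hbM' := hspec.1.1
    rw [← hspec.2.2]
    have e1 : ccU M ξ rep ζ z - btU M N ξ (γ₀ ^ m) y =
        ccU M ξ rep ζ (z - rep fun _ => btU M N ξ (γ₀ ^ m) y) := by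
      rw [O.cc_sub S hzM (O.const_mem S hbM'), O.cc_const S hbM']
    rw [e1]
    exact O.cc_norm_xi S (sub_mem hzM (O.const_mem S hbM'))
  · refine le_trans ?_ hzc
    refine Finset.sum_le_sum fun j _ => Finset.sum_le_sum fun i _ => Finset.sum_le_sum
      fun k _ => ?_
    refine pow_le_pow_left₀ (norm_nonneg _) ?_ 2
    have hi0 : 0 < γ₀ ^ (i - m) := zpow_pos hγ0 _
    have hj0 : 0 < γ₀ ^ (j - m) := zpow_pos hγ0 _
    have hzi := (mem_Qalg.1 (hAP.al_mem (hG _ hi0) hz)).1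
    have hzj := (mem_Qalg.1 (hAP.al_mem (hG _ hj0) hz)).1
    have hra := O.const_mem S (haM (i, k, j))
    rw [O.btU_cc S hAP hG hi0 hz, O.btU_cc S hAP hG hj0 hz,
      ← O.cc_mul_right S (haM (i, k, j)) hzi, ← O.cc_mul_left S (haM (i, k, j)) hzj,
      ← O.cc_sub S (mul_mem hzi hra) (mul_mem hra hzj)]
    exact O.cc_norm_xi S (sub_mem (mul_mem hzi hra) (mul_mem hra hzj))

/-- the flow on the bicentralizer -/
theorem bflow (S : Setting M N E ξ) (hAP : AP MT NT ET ζ)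
    (hG : ∀ l : ℝ, 0 < l → l ∈ Gam NT ζ) : BFlow M N E ξ := by
  -- notation
  have hsp : ∀ {x : H →L[ℂ] H}, x ∈ Bicent M N ξ → ∀ {l : ℝ}, 0 < l →
      btU M N ξ l x ∈ Bicent M N ξ ∧
      rep (fun _ => btU M N ξ l x) = al MT NT ζ l (rep fun _ => x) := fun hx _ hl =>
    ⟨(O.btU_spec S hAP hG hl hx).1, (O.btU_spec S hAP hG hl hx).2.2⟩
  have hQ : ∀ {x : H →L[ℂ] H}, x ∈ Bicent M N ξ → rep (fun _ => x) ∈ Qalg MT NT ζ :=
    fun hx => O.const_mem_Qalg S hx
  have hnorm : ∀ {x : H →L[ℂ] H}, x ∈ Bicent M N ξ → ∀ {l : ℝ}, 0 < l →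
      ‖btU M N ξ l x‖ ≤ 2 * ‖x‖ := by
    intro x hx l hl
    have h1 := (hsp hx hl).1.1
    calc ‖btU M N ξ l x‖ = ‖ccU M ξ rep ζ (rep fun _ => btU M N ξ l x)‖ := by
          rw [O.cc_const S h1]
      _ ≤ ‖rep fun _ => btU M N ξ l x‖ := O.cc_norm S (O.const_mem S h1)
      _ = ‖al MT NT ζ l (rep fun _ => x)‖ := by rw [(hsp hx hl).2]
      _ ≤ 2 * ‖rep fun _ => x‖ := hAP.al_opNorm' l (hQ hx)
      _ ≤ 2 * ‖x‖ := by
          gcongr
          exact O.norm _ (ocS_const S.dense_comm hx.1) _ fun _ => le_rfl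
  refine
    { toSetting := S
      scal := fun x hx => ?_
      bt_mem := fun x hx l hl => (hsp hx hl).1
      bt_add := fun x hx y hy l hl => ?_
      bt_smul := fun c x hx l hl => ?_
      bt_mul := fun x hx y hy l hl => ?_
      bt_star := fun x hx l hl => ?_
      bt_bt := fun x hx l hl m hm => ?_
      bt_one_act := fun x hx => ?_
      bt_opNorm := fun x hx l hl => hnorm hx hl
      bt_state := fun x hx l hl => ?_
      bt_cont := fun x hx v => ?_
      flow := fun x hx l hl a ha => (O.btU_spec S hAP hG hl hx).2.1 a ha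
      flow_uniq := fun x hx y hy l hl h => O.btU_unique S hAP hG hl hx hy h
      core := fun u hu y hy κ hκ => O.coreAt S hAP hG hu hy hκ
      sl_mem := fun X hX f g => S.slX_bicent hX f g
      sl_bt := fun X hX f g l hl => ?_ }
  · -- scal
    have h1 := O.set.E_Q hAP.irr (hQ hx)
    rw [O.expect _ (ocS_const S.dense_comm hx.1)] at h1
    have h2 : ⟪ζ, (rep fun _ => x) ζ⟫_ℂ = ⟪ξ, x ξ⟫_ℂ := by
      have h3 := O.const_inner S (one_mem M) hx.1
      rw [O.one] at h3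
      exact h3
    rw [h2, ← O.one, ← O.const_smul S _ (one_mem M)] at h1
    exact O.const_inj S (S.le _ (S.E_mem x hx.1)) (smul_mem' _ (one_mem M)) h1
  · -- add
    refine O.const_inj S (hsp (AP.bicent_add hx hy) hl).1.1
      (add_mem (hsp hx hl).1.1 (hsp hy hl).1.1) ?_
    rw [(hsp (AP.bicent_add hx hy) hl).2, O.const_add S hx.1 hy.1,
      O.const_add S (hsp hx hl).1.1 (hsp hy hl).1.1, (hsp hx hl).2, (hsp hy hl).2,
      hAP.al_add (hG l hl) (hQ hx) (hQ hy)]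
  · -- smul
    refine O.const_inj S (hsp (AP.bicent_smul c hx) hl).1.1
      (smul_mem' c (hsp hx hl).1.1) ?_
    rw [(hsp (AP.bicent_smul c hx) hl).2, O.const_smul S c hx.1,
      O.const_smul S c (hsp hx hl).1.1, (hsp hx hl).2, hAP.al_smul (hG l hl) c (hQ hx)]
  · -- mul
    refine O.const_inj S (hsp (AP.bicent_mul hx hy) hl).1.1
      (mul_mem (hsp hx hl).1.1 (hsp hy hl).1.1) ?_
    rw [(hsp (AP.bicent_mul hx hy) hl).2, O.const_mul S hx.1 hy.1,
      O.const_mul S (hsp hx hl).1.1 (hsp hy hl).1.1, (hsp hx hl).2, (hsp hy hl).2,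
      hAP.al_mul (hG l hl) (hQ hx) (hQ hy)]
  · -- star
    refine O.const_inj S (hsp (S.bicent_star hx) hl).1.1 (star_mem (hsp hx hl).1.1) ?_
    rw [(hsp (S.bicent_star hx) hl).2, O.const_star S hx.1,
      O.const_star S (hsp hx hl).1.1, (hsp hx hl).2, hAP.al_star (hG l hl) (hQ hx)]
  · -- action
    have hmx := (hsp hx hm).1
    refine O.const_inj S (hsp hmx hl).1.1 (hsp hx (mul_pos hl hm)).1.1 ?_
    rw [(hsp hmx hl).2, (hsp hx hm).2, (hsp hx (mul_pos hl hm)).2,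
      hAP.al_al (hG l hl) (hG m hm) (hQ hx)]
  · -- one
    refine O.const_inj S (hsp hx one_pos).1.1 hx.1 ?_
    rw [(hsp hx one_pos).2, hAP.al_id (hQ hx)]
  · -- state
    have h1 := hAP.al_state (hG l hl) (hQ hx)
    rw [← (hsp hx hl).2] at h1
    have h3 := O.const_inner S (one_mem M) hx.1
    have h4 := O.const_inner S (one_mem M) (hsp hx hl).1.1
    rw [O.one] at h3 h4
    simp only [one_apply_eq_self] at h3 h4
    rw [← h3, ← h4]
    exact h1
  · -- continuity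
    intro l hl
    have hl' : 0 < l := hl
    have hI := hAP.InB_of_bicent (O.bicent_of_Qalg S (hQ hx))
    have h1 := hAP.bet_cont hI ζ l hl
    have h2 : Tendsto (fun m => (btU M N ξ m x - btU M N ξ l x) ξ) (𝓝[Set.Ioi 0] l) (𝓝 0) := by
      rw [tendsto_zero_iff_norm_tendsto_zero]
      have h3 := h1.tendsto.sub_const (bet MT NT ζ l (rep fun _ => x) ζ)
      rw [sub_self, tendsto_zero_iff_norm_tendsto_zero] at h3
      refine h3.congr' ?_
      filter_upwards [self_mem_nhdsWithin] with m hm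
      have hm' : 0 < m := hm
      have ha := (hsp hx hm').1.1
      have hb := (hsp hx hl').1.1
      rw [hAP.bet_eq_al hI (hG m hm'), hAP.bet_eq_al hI (hG l hl'), ← (hsp hx hm').2,
        ← (hsp hx hl').2, ← O.const_norm S (sub_mem ha hb), O.const_sub S ha hb]
      rfl
    have h3 := tendsto_of_bounded_ev M S.dense_comm
      (x := fun m => btU M N ξ m x - btU M N ξ l x) (C := 2 * ‖x‖ + 2 * ‖x‖) (by
        filter_upwards [self_mem_nhdsWithin] with m hm
        exact ⟨sub_mem (hsp hx hm).1.1 (hsp hx hl').1.1,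
          (norm_sub_le _ _).trans (add_le_add (hnorm hx hm) (hnorm hx hl'))⟩)
      (by positivity) h2 v
    have h4 := h3.add_const (btU M N ξ l x v)
    rw [zero_add] at h4
    refine h4.congr fun m => ?_
    rw [sub_apply, sub_add_cancel]
  · -- slices
    symm
    exact O.btU_unique S hAP hG hl (S.slX_bicent hX f g) (S.slX_bicent hX _ _).1
      fun a ha => S.slX_shift hX f g hl ha

end Oc

end Pool.Agent.Helper23

end

section

open scoped InnerProductSpace Topology ENNReal BoundedContinuousFunction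

open ContinuousLinearMap Filter MeasureTheory

namespace Pool.Agent.Helper23

universe u

variable {H : Type u} [NormedAddCommGroup H] [InnerProductSpace ℂ H] [CompleteSpace H]

variable {M N : VonNeumannAlgebra H} {ξ : H} {E : (H →L[ℂ] H) → (H →L[ℂ] H)}

theorem Setting.bflow (S : Setting M N E ξ) (hN : TypeIIIOne N)
    (TB : ∀ x ∈ Bicent N N ξ, ∃ c : ℂ, x = c • 1) : BFlow M N E ξ := by
  have NN : ∀ l : ℝ, 0 < l → ∃ a, LamSeq N ξ l a ∧ ¬ Tendsto (fun n => a n ξ) atTop (𝓝 0) :=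
    fun l hl => hN.exists_lamSeq S.norm_one hl
  obtain ⟨K, i1, i2, i3, MT, NT, ET, ζ, rep, O⟩ := S.exists_Oc
  exact O.bflow S (O.ap S TB NN) fun l hl => O.mem_Gam S NN hl

end Pool.Agent.Helper23

end

section

open scoped InnerProductSpace Topology ENNReal BoundedContinuousFunction

open ContinuousLinearMap Filter MeasureTheory

namespace Pool.Agent.Helper23.ED

open Pool.Agent.Helper23 Pool.Agent.Helper23.RBF

open Pool.Agent.Helper78.BC.Transport (Sub r)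

universe u

variable {H : Type*} [NormedAddCommGroup H] [InnerProductSpace ℂ H] [CompleteSpace H]

variable {M N : VonNeumannAlgebra H} {ξ : H} {E : (H →L[ℂ] H) → (H →L[ℂ] H)}

theorem exists_dominant_wt (S : Setting M N E ξ) (hN : TwoIsom N) :
    ∃ ζ : ℕ → H, IsDominant N (wt ζ) := by
  classical
  obtain ⟨W, hW⟩ := exists_W_of hN
  have hN' : ∀ x, x ∈ N ↔ W.conjStarAlgEquiv x ∈ amp N := conj_mem_amp hW fun a ha => ha
  have h := transport_dominant W hN' (wK_dominant_of S.dense_commN hN S.conjGK)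
  have : Countable hw := hw_countable
  obtain ⟨f, hf⟩ := exists_injective_nat JJ
  refine ⟨Function.extend f (fun j => W.symm (ten (gJ j) ξ)) 0, ?_⟩
  have e : wt (Function.extend f (fun j => W.symm (ten (gJ j) ξ)) 0) =
      fun x : H →L[ℂ] H => wK ξ (W.conjStarAlgEquiv x) := by
    funext x
    rw [wt, wK, ← tsum_extend_zero hf]
    refine tsum_congr fun n => ?_
    by_cases hn : ∃ j, f j = n
    · obtain ⟨j, rfl⟩ := hn
      rw [hf.extend_apply, hf.extend_apply, inner_conj]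
    · rw [Function.extend_apply' _ _ _ hn, Function.extend_apply' _ _ _ hn]
      simp
  rw [e]
  exact h

end Pool.Agent.Helper23.ED

end
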