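import Mathlib

/-! Names of the namespaces used in this folder -/

namespace Pool.Agent.Helper23
end Pool.Agent.Helper23
namespace Pool.Agent.Helper23.AP
end Pool.Agent.Helper23.AP
namespace Pool.Agent.Helper23.BFlow
end Pool.Agent.Helper23.BFlow
namespace Pool.Agent.Helper23.ED
end Pool.Agent.Helper23.ED
namespace Pool.Agent.Helper23.ED.CoC
end Pool.Agent.Helper23.ED.CoC
namespace Pool.Agent.Helper23.ED.CoE
end Pool.Agent.Helper23.ED.CoE
namespace Pool.Agent.Helper23.ED.FcB
end Pool.Agent.Helper23.ED.FcB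
namespace Pool.Agent.Helper23.ED.FcC
end Pool.Agent.Helper23.ED.FcC
namespace Pool.Agent.Helper23.ED.FcD
end Pool.Agent.Helper23.ED.FcD
namespace Pool.Agent.Helper23.ED.FdA
end Pool.Agent.Helper23.ED.FdA
namespace Pool.Agent.Helper23.ED.GgB
end Pool.Agent.Helper23.ED.GgB
namespace Pool.Agent.Helper23.ED.GgC
end Pool.Agent.Helper23.ED.GgC
namespace Pool.Agent.Helper23.ED.GgE
end Pool.Agent.Helper23.ED.GgE
namespace Pool.Agent.Helper23.ED.MnA
end Pool.Agent.Helper23.ED.MnA
namespace Pool.Agent.Helper23.ED.RkA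
end Pool.Agent.Helper23.ED.RkA
namespace Pool.Agent.Helper23.ED.SlC
end Pool.Agent.Helper23.ED.SlC
namespace Pool.Agent.Helper23.ED.SmA
end Pool.Agent.Helper23.ED.SmA
namespace Pool.Agent.Helper23.ED.SmB
end Pool.Agent.Helper23.ED.SmB
namespace Pool.Agent.Helper23.ED.SmD
end Pool.Agent.Helper23.ED.SmD
namespace Pool.Agent.Helper23.ED.SmE
end Pool.Agent.Helper23.ED.SmE
namespace Pool.Agent.Helper23.ED.TrA
end Pool.Agent.Helper23.ED.TrA
namespace Pool.Agent.Helper23.ED.WtB
end Pool.Agent.Helper23.ED.WtB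
namespace Pool.Agent.Helper23.ED.WtC
end Pool.Agent.Helper23.ED.WtC
namespace Pool.Agent.Helper23.ED.WtD
end Pool.Agent.Helper23.ED.WtD
namespace Pool.Agent.Helper23.ED.WtE
end Pool.Agent.Helper23.ED.WtE
namespace Pool.Agent.Helper23.ED.WtF
end Pool.Agent.Helper23.ED.WtF
namespace Pool.Agent.Helper23.ED.WuA
end Pool.Agent.Helper23.ED.WuA
namespace Pool.Agent.Helper23.ED.WuB
end Pool.Agent.Helper23.ED.WuB
namespace Pool.Agent.Helper23.GKW
end Pool.Agent.Helper23.GKW
namespace Pool.Agent.Helper23.HUP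
end Pool.Agent.Helper23.HUP
namespace Pool.Agent.Helper23.Modular
end Pool.Agent.Helper23.Modular
namespace Pool.Agent.Helper23.Oc
end Pool.Agent.Helper23.Oc
namespace Pool.Agent.Helper23.RBF
end Pool.Agent.Helper23.RBF
namespace Pool.Agent.Helper23.SeqRep
end Pool.Agent.Helper23.SeqRep
namespace Pool.Agent.Helper23.Setting
end Pool.Agent.Helper23.Setting
namespace Pool.Agent.Helper23.Sum
end Pool.Agent.Helper23.Sum
namespace Pool.Agent.Helper23.TTA
end Pool.Agent.Helper23.TTA
namespace Pool.Agent.Helper23.U10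
end Pool.Agent.Helper23.U10
namespace Pool.Agent.Helper23.U14
end Pool.Agent.Helper23.U14
namespace Pool.Agent.Helper23.U2
end Pool.Agent.Helper23.U2
namespace Pool.Agent.Helper43.TTF
end Pool.Agent.Helper43.TTF
namespace Pool.Agent.Helper5.TTD
end Pool.Agent.Helper5.TTD
namespace Pool.Agent.Helper53.PG
end Pool.Agent.Helper53.PG
namespace Pool.Agent.Helper70.U8
end Pool.Agent.Helper70.U8
namespace Pool.Agent.Helper72
end Pool.Agent.Helper72
namespace Pool.Agent.Helper78.BC
end Pool.Agent.Helper78.BC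
namespace Pool.Agent.Helper78.BC.Energy
end Pool.Agent.Helper78.BC.Energy
namespace Pool.Agent.Helper78.BC.Fam
end Pool.Agent.Helper78.BC.Fam
namespace Pool.Agent.Helper78.BC.FamPsi
end Pool.Agent.Helper78.BC.FamPsi
namespace Pool.Agent.Helper78.BC.FixAux
end Pool.Agent.Helper78.BC.FixAux
namespace Pool.Agent.Helper78.BC.LevAux
end Pool.Agent.Helper78.BC.LevAux
namespace Pool.Agent.Helper78.BC.Lip1
end Pool.Agent.Helper78.BC.Lip1
namespace Pool.Agent.Helper78.BC.Lip2
end Pool.Agent.Helper78.BC.Lip2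
namespace Pool.Agent.Helper78.BC.LipAll
end Pool.Agent.Helper78.BC.LipAll
namespace Pool.Agent.Helper78.BC.NoProj
end Pool.Agent.Helper78.BC.NoProj
namespace Pool.Agent.Helper78.BC.PS
end Pool.Agent.Helper78.BC.PS
namespace Pool.Agent.Helper78.BC.PsiZero
end Pool.Agent.Helper78.BC.PsiZero
namespace Pool.Agent.Helper78.BC.StdEx
end Pool.Agent.Helper78.BC.StdEx
namespace Pool.Agent.Helper78.BC.Transport
end Pool.Agent.Helper78.BC.Transport
namespace Pool.Agent.Helper78.BC.Transport.Sub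
end Pool.Agent.Helper78.BC.Transport.Sub
namespace Pool.Agent.Helper88.CS
end Pool.Agent.Helper88.CS
namespace Pool.Agent.Helper88.CS.AmpAAux
end Pool.Agent.Helper88.CS.AmpAAux
namespace Pool.Agent.Helper88.CS.CentAux
end Pool.Agent.Helper88.CS.CentAux
namespace Pool.Agent.Helper88.CS.ConeAux
end Pool.Agent.Helper88.CS.ConeAux
namespace Pool.Agent.Helper88.CS.CornerAux
end Pool.Agent.Helper88.CS.CornerAux
namespace Pool.Agent.Helper88.CS.CornerSpecAux
end Pool.Agent.Helper88.CS.CornerSpecAux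
namespace Pool.Agent.Helper88.CS.EquivAux
end Pool.Agent.Helper88.CS.EquivAux
namespace Pool.Agent.Helper88.CS.ExhAux
end Pool.Agent.Helper88.CS.ExhAux
namespace Pool.Agent.Helper88.CS.FinalAux
end Pool.Agent.Helper88.CS.FinalAux
namespace Pool.Agent.Helper88.CS.FourierAux
end Pool.Agent.Helper88.CS.FourierAux
namespace Pool.Agent.Helper88.CS.FullAux
end Pool.Agent.Helper88.CS.FullAux
namespace Pool.Agent.Helper88.CS.HullAux
end Pool.Agent.Helper88.CS.HullAux
namespace Pool.Agent.Helper88.CS.InftyAux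
end Pool.Agent.Helper88.CS.InftyAux
namespace Pool.Agent.Helper88.CS.JUniqAux
end Pool.Agent.Helper88.CS.JUniqAux
namespace Pool.Agent.Helper88.CS.PolarAux
end Pool.Agent.Helper88.CS.PolarAux
namespace Pool.Agent.Helper88.CS.RealAux
end Pool.Agent.Helper88.CS.RealAux
namespace Pool.Agent.Helper88.CS.SpecBAux
end Pool.Agent.Helper88.CS.SpecBAux
namespace Pool.Agent.Helper88.CS.StepAux
end Pool.Agent.Helper88.CS.StepAux
namespace Pool.Agent.Helper88.CS.SumsAux
end Pool.Agent.Helper88.CS.SumsAux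
namespace Pool.Agent.Helper88.CS.SuppAAux
end Pool.Agent.Helper88.CS.SuppAAux
namespace Pool.Agent.Helper88.CS.SuppBAux
end Pool.Agent.Helper88.CS.SuppBAux
namespace Pool.Agent.Helper88.CS.Trick1Aux
end Pool.Agent.Helper88.CS.Trick1Aux
namespace Pool.Agent.Helper88.CS.Trick2Aux
end Pool.Agent.Helper88.CS.Trick2Aux
namespace Pool.Agent.Helper88.CS.TripleAux
end Pool.Agent.Helper88.CS.TripleAux
namespace Pool.Agent.Helper95.TTC
end Pool.Agent.Helper95.TTC
namespace Pool.Agent.Results.MP_357da3_an.FullAnswer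
end Pool.Agent.Results.MP_357da3_an.FullAnswer
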